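import Pool.Agent.H33.Sub

set_option autoImplicit false

open Filter Topology Metric Set MeasureTheory

namespace Pool.Agent.H33

theorem circleAverage_shift (φ : ℂ → ℝ) (a : ℂ) (ρ : ℝ) :
    2 * Real.pi * Real.circleAverage φ a ρ =
      ∫ θ in Ioo (-Real.pi) Real.pi, φ (a + ρ * (Real.cos θ + Real.sin θ * Complex.I)) := by
  rw [Real.circleAverage_eq_integral_add (-Real.pi)]
  have h1 := intervalIntegral.integral_comp_add_right (a := 0) (b := 2 * Real.pi)
    (fun θ => φ (circleMap a ρ θ)) (-Real.pi)
  rw [h1, smul_eq_mul, ← mul_assoc, mul_inv_cancel₀ (by positivity), one_mul,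
    ← integral_Ioc_eq_integral_Ioo, ← intervalIntegral.integral_of_le (by linarith [Real.pi_pos])]
  have e1 : (0 : ℝ) + -Real.pi = -Real.pi := by ring
  have e2 : 2 * Real.pi + -Real.pi = Real.pi := by ring
  rw [e1, e2]
  congr 1
  funext θ
  rw [circleMap, Complex.exp_mul_I]
  push_cast
  rfl

/-- the mean value inequality on discs for the square -/
theorem LogSubharmonic.area_ge {u : ℂ → ℝ} (h : LogSubharmonic u univ) {a : ℂ} {r : ℝ}
    (hr : 0 < r) : Real.pi * r ^ 2 * u a ^ 2 ≤ ∫ z in ball a r, u z ^ 2 := by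
  have hcu : Continuous u := continuousOn_univ.1 h.cont
  set f : ℂ → ℝ := fun z => u (a + z) ^ 2 with hf
  have hfc : Continuous f := by
    rw [hf]
    fun_prop
  have h1 : ∫ z in ball a r, u z ^ 2 = ∫ z, (ball (0 : ℂ) r).indicator f z := by
    rw [← integral_indicator measurableSet_ball, ← integral_add_left_eq_self _ a]
    congr 1
    funext z
    by_cases hz : z ∈ ball (0 : ℂ) r
    · rw [indicator_of_mem hz, indicator_of_mem]
      rw [mem_ball, dist_eq_norm] at hz ⊢
      simpa using hz
    · rw [indicator_of_notMem hz, indicator_of_notMem]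
      rw [mem_ball, dist_eq_norm] at hz ⊢
      simpa using hz
  have h2 : ∫ z, (ball (0 : ℂ) r).indicator f z =
      ∫ p in Ioo (0 : ℝ) r ×ˢ Ioo (-Real.pi) Real.pi, p.1 * f (Complex.polarCoord.symm p) := by
    rw [← Complex.integral_comp_polarCoord_symm]
    have e1 : ∀ p ∈ polarCoord.target, p.1 • (ball (0 : ℂ) r).indicator f
        (Complex.polarCoord.symm p) = (Iio r ×ˢ (univ : Set ℝ)).indicator
          (fun p : ℝ × ℝ => p.1 * f (Complex.polarCoord.symm p)) p := by
      intro p hp
      have hp0 : 0 < p.1 := by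
        rw [polarCoord_target] at hp
        exact hp.1
      have hn : ‖Complex.polarCoord.symm p‖ = p.1 := by
        rw [Complex.norm_polarCoord_symm, abs_of_pos hp0]
      by_cases hpr : p.1 < r
      · rw [indicator_of_mem, indicator_of_mem, smul_eq_mul]
        · exact ⟨hpr, mem_univ _⟩
        · rw [mem_ball_zero_iff, hn]
          exact hpr
      · rw [indicator_of_notMem, indicator_of_notMem, smul_zero]
        · exact fun hh => hpr hh.1
        · rw [mem_ball_zero_iff, hn]
          exact hpr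
    rw [setIntegral_congr_fun polarCoord.open_target.measurableSet e1,
      setIntegral_indicator (measurableSet_Iio.prod MeasurableSet.univ)]
    congr 2
    rw [polarCoord_target]
    ext p
    simp only [mem_inter_iff, mem_prod, mem_Ioi, mem_Ioo, mem_Iio, mem_univ, and_true]
    tauto
  have hsymm : Continuous fun p : ℝ × ℝ => p.1 * f (Complex.polarCoord.symm p) := by
    simp only [Complex.polarCoord_symm_apply]
    fun_prop
  have h3 : ∫ p in Ioo (0 : ℝ) r ×ˢ Ioo (-Real.pi) Real.pi, p.1 * f (Complex.polarCoord.symm p) =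
      ∫ ρ in Ioo (0 : ℝ) r, ∫ θ in Ioo (-Real.pi) Real.pi,
        ρ * f (Complex.polarCoord.symm (ρ, θ)) := by
    rw [Measure.volume_eq_prod, setIntegral_prod]
    apply IntegrableOn.mono_set (t := Icc (0 : ℝ) r ×ˢ Icc (-Real.pi) Real.pi)
    · exact (hsymm.continuousOn).integrableOn_compact (isCompact_Icc.prod isCompact_Icc)
    · exact prod_mono Ioo_subset_Icc_self Ioo_subset_Icc_self
  have h4 : ∀ ρ ∈ Ioo (0 : ℝ) r, ρ * (2 * Real.pi * u a ^ 2) ≤
      ∫ θ in Ioo (-Real.pi) Real.pi, ρ * f (Complex.polarCoord.symm (ρ, θ)) := by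
    intro ρ hρ
    rw [integral_const_mul]
    apply mul_le_mul_of_nonneg_left _ hρ.1.le
    have e1 := h.mean_sq hρ.1 (subset_univ (closedBall a ρ))
    have e2 := circleAverage_shift (fun z => u z ^ 2) a ρ
    have e3 : ∫ θ in Ioo (-Real.pi) Real.pi, f (Complex.polarCoord.symm (ρ, θ)) =
        ∫ θ in Ioo (-Real.pi) Real.pi, u (a + ρ * (Real.cos θ + Real.sin θ * Complex.I)) ^ 2 := by
      simp only [hf, Complex.polarCoord_symm_apply]
    rw [e3, ← e2]
    exact mul_le_mul_of_nonneg_left e1 (by positivity)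
  have h5 : ∫ ρ in Ioo (0 : ℝ) r, ρ * (2 * Real.pi * u a ^ 2) = Real.pi * r ^ 2 * u a ^ 2 := by
    rw [← integral_Ioc_eq_integral_Ioo, ← intervalIntegral.integral_of_le hr.le,
      intervalIntegral.integral_mul_const, integral_id]
    ring
  rw [h1, h2, h3, ← h5]
  apply setIntegral_mono_on
  · apply IntegrableOn.mono_set (t := Icc (0 : ℝ) r)
    · exact (by fun_prop : Continuous fun ρ : ℝ => ρ * (2 * Real.pi * u a ^ 2)).continuousOn.integrableOn_compact isCompact_Icc
    · exact Ioo_subset_Icc_self
  · have : IntegrableOn (fun p : ℝ × ℝ => p.1 * f (Complex.polarCoord.symm p))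
        (Ioo (0 : ℝ) r ×ˢ Ioo (-Real.pi) Real.pi) (volume.prod volume) := by
      apply IntegrableOn.mono_set (t := Icc (0 : ℝ) r ×ˢ Icc (-Real.pi) Real.pi)
      · exact (hsymm.continuousOn).integrableOn_compact (isCompact_Icc.prod isCompact_Icc)
      · exact prod_mono Ioo_subset_Icc_self Ioo_subset_Icc_self
    rw [IntegrableOn, ← Measure.prod_restrict] at this
    exact this.integral_prod_left
  · exact measurableSet_Ioo
  · exact h4

end Pool.Agent.H33
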