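import Pool.Agent.H33.NDefs

/-! Functions on tangent vectors which are negatively curved near their zeros. -/

set_option autoImplicit false

open Filter Topology Metric LinearAlgebra.Projectivization Pool.Agent.W602.GT

namespace Pool.Agent.H33

open Pool.Agent.N155.BB

variable {n : ℕ}

/-- Let `Φ` be a complex Finsler metric on the projective manifold of dimension `d` with the cone `X`
(see `NonposMetric`). `Ψ` is a continuous function on the tangent vectors of the manifold which is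
homogeneous of degree `a` (a function on the manifold if `a = 0`, a possibly degenerate complex
Finsler metric if `a = 1`), with `0 ≤ Ψ ≤ Φ ^ a`, such that, along the holomorphic curves in `X`
(given by homogeneous coordinates `g` over open subsets `V` of the plane), the Laplacian of the
logarithm of `Ψ` is at least `- 4 C Φ ^ 2` everywhere (`far`: where `Φ ≤ A`, adding
`C A ^ 2 |z| ^ 2` gives a subharmonic function) and at least `4 κ Φ ^ 2` near the zeros of `Ψ`,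
namely where `Ψ ≤ ε Φ ^ a` (`near`: where `Φ ≥ A`, subtracting `κ A ^ 2 |z| ^ 2` gives a subharmonic
function), with some `C ≥ 0` and `ε, κ > 0`.

For example (`a = 0`), if `E` is an analytic subset of the manifold with negative normal bundle (an
exceptional set; on a surface, a union of curves with negative definite intersection matrix), then
there is such a function on the manifold which vanishes exactly on `E`. -/
structure NegativeNearZeros (X : Set (Fin (n + 1) → ℂ)) (d : ℕ)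
    (Φ : (Fin (n + 1) → ℂ) → (Fin (n + 1) → ℂ) → ℝ) (a : ℕ)
    (Ψ : (Fin (n + 1) → ℂ) → (Fin (n + 1) → ℂ) → ℝ) : Prop where
  twist : ∀ x ∈ X, ∀ (v : Fin (n + 1) → ℂ) (c b : ℂ), c ≠ 0 → Ψ (c • x) (c • (v + b • x)) = Ψ x v
  deg : ∀ x ∈ X, ∀ (v : Fin (n + 1) → ℂ) (c : ℂ), c ≠ 0 → Ψ x (c • v) = ‖c‖ ^ a * Ψ x v
  cont : ∀ (U : Set (Fin d → ℂ)) (Θ : (Fin d → ℂ) → Fin (n + 1) → ℂ), IsOpen U →
    AnalyticOnNhd ℂ Θ U → (∀ z ∈ U, Θ z ∈ X) →
    ContinuousOn (fun p : (Fin d → ℂ) × (Fin d → ℂ) => Ψ (Θ p.1) (fderiv ℂ Θ p.1 p.2))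
      (U ×ˢ Set.univ)
  le : ∀ (V : Set ℂ) (g : ℂ → Fin (n + 1) → ℂ), IsOpen V → DifferentiableOn ℂ g V →
    (∀ z ∈ V, g z ∈ X) → ∀ z ∈ V, 0 ≤ Ψ (g z) (deriv g z) ∧
      Ψ (g z) (deriv g z) ≤ Φ (g z) (deriv g z) ^ a
  far : ∃ C : ℝ, 0 ≤ C ∧ ∀ (V : Set ℂ) (g : ℂ → Fin (n + 1) → ℂ) (A : ℝ), IsOpen V →
    DifferentiableOn ℂ g V → (∀ z ∈ V, g z ∈ X) → (∀ z ∈ V, Φ (g z) (deriv g z) ≤ A) →
    LogSubharmonic (fun z => Ψ (g z) (deriv g z) * Real.exp (C * A ^ 2 * ‖z‖ ^ 2)) V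
  near : ∃ ε κ : ℝ, 0 < ε ∧ 0 < κ ∧ ∀ (V : Set ℂ) (g : ℂ → Fin (n + 1) → ℂ) (A : ℝ), IsOpen V →
    DifferentiableOn ℂ g V → (∀ z ∈ V, g z ∈ X) → 0 ≤ A → (∀ z ∈ V, A ≤ Φ (g z) (deriv g z)) →
    (∀ z ∈ V, Ψ (g z) (deriv g z) ≤ ε * Φ (g z) (deriv g z) ^ a) →
    LogSubharmonic (fun z => Ψ (g z) (deriv g z) * Real.exp (-(κ * A ^ 2 * ‖z‖ ^ 2))) V

/-- The nonzero tangent vectors of the manifold with the cone `X` on which `Ψ` vanishes are tangent
vectors at points of the set with the cone `Y`: if the curve given by `g` has the derivative `v` at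
the point `x`, which is not zero as a tangent vector of projective space, and `Ψ x v = 0`, then `x` is
in `Y`. -/
def ZerosOver (X : Set (Fin (n + 1) → ℂ)) (Ψ : (Fin (n + 1) → ℂ) → (Fin (n + 1) → ℂ) → ℝ)
    (Y : Set (Fin (n + 1) → ℂ)) : Prop :=
  ∀ (V : Set ℂ) (g : ℂ → Fin (n + 1) → ℂ), IsOpen V → DifferentiableOn ℂ g V →
    (∀ z ∈ V, g z ∈ X) → ∀ z ∈ V, LinearIndependent ℂ ![g z, deriv g z] →
    Ψ (g z) (deriv g z) = 0 → g z ∈ Y

end Pool.Agent.H33
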