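import Pool.Agent.H33.GLim

/-! Entire curves are degenerate if elliptic curves are. -/

set_option autoImplicit false

open Filter Topology Metric Set MvPolynomial LinearAlgebra.Projectivization

namespace Pool.Agent.H33

open Pool.Agent.Y190.OP Pool.Agent.W602.GT Pool.Agent.N155 Pool.Agent.N155.BB

variable {n : ℕ} {ι ι' : Type} {F : ι → MvPolynomial (Fin (n + 1)) ℂ}
  {G : ι' → MvPolynomial (Fin (n + 1)) ℂ} {d : ℕ}
  {κ : Type} {η : κ → (Fin (n + 1) → ℂ) → (Fin (n + 1) → ℂ) → (Fin (n + 1) → ℂ) → ℂ}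
  {Φ Ψ : (Fin (n + 1) → ℂ) → (Fin (n + 1) → ℂ) → ℝ} {a : ℕ}

theorem len_lift (hX : ProjManifold F d)
    (ht : ∀ x ∈ Cone F, ∀ (v : Fin (n + 1) → ℂ) (c b : ℂ), c ≠ 0 →
      Φ (c • x) (c • (v + b • x)) = Φ x v)
    {f : ℂ → ℙ ℂ (Fin (n + 1) → ℂ)} (hf : HolIn F f) {V : Set ℂ} {g : ℂ → Fin (n + 1) → ℂ}
    (hV : IsOpen V) (hg : DifferentiableOn ℂ g V)
    (hfg : ∀ w ∈ V, ∃ h : g w ≠ 0, f w = Projectivization.mk ℂ (g w) h) {z : ℂ} (hz : z ∈ V) :
    Φ (g z) (deriv g z) = len Φ (fun z => Phi (f z).rep) z := by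
  have hφg : ∀ w ∈ V, Phi (f w).rep = Phi (g w) := by
    intro w hw
    obtain ⟨h0, he⟩ := hfg w hw
    rw [he, Phi_rep_mk]
  obtain ⟨i, hi⟩ := Function.ne_iff.1 (hfg z hz).1
  have hgi : g z i ≠ 0 := hi
  have hdg : DifferentiableAt ℂ g z := (hg z hz).differentiableAt (hV.mem_nhds hz)
  have hdi := (hasDerivAt_pi.1 hdg.hasDerivAt) i
  have hPi : Phi (f z).rep i i ≠ 0 := by
    rw [hφg z hz]
    exact (Phi_diag_ne (hfg z hz).1).2 hgi
  have hcone : g z ∈ Cone F := by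
    have h1 := mem_TF (hf.2 z)
    rw [hφg z hz] at h1
    exact (Phi_mem hX.form (hfg z hz).1).1 h1
  rw [len_eq hX ht (holP_of_map hf.1) (fun z => mem_TF (hf.2 z)) hPi]
  have hch : (fun w => chart i (Phi (f w).rep)) =ᶠ[𝓝 z] fun w => (g w i)⁻¹ • g w := by
    filter_upwards [hV.mem_nhds hz, hdi.continuousAt.eventually_ne hgi] with w hw hwi
    rw [hφg w hw, chart_Phi (hfg w hw).1 hwi]
  have hder : HasDerivAt (fun w => (g w i)⁻¹ • g w)
      ((g z i)⁻¹ • deriv g z + (-(deriv g z i) / (g z i) ^ 2) • g z) z :=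
    (hdi.fun_inv hgi).smul hdg.hasDerivAt
  unfold pv
  have hch0 : chart i (Phi (f z).rep) = (g z i)⁻¹ • g z := hch.self_of_nhds
  rw [hch.deriv_eq, hder.deriv, hch0]
  have h1 : (g z i)⁻¹ • deriv g z + (-(deriv g z i) / (g z i) ^ 2) • g z =
      (g z i)⁻¹ • (deriv g z + (-(deriv g z i) / g z i) • g z) := by
    rw [smul_add, smul_smul]
    congr 2
    field_simp
  rw [h1, ht _ hcone _ _ _ (inv_ne_zero hgi)]

theorem hasSpeed_iff (hX : ProjManifold F d)
    (ht : ∀ x ∈ Cone F, ∀ (v : Fin (n + 1) → ℂ) (c b : ℂ), c ≠ 0 →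
      Φ (c • x) (c • (v + b • x)) = Φ x v)
    {f : ℂ → ℙ ℂ (Fin (n + 1) → ℂ)} (hf : HolIn F f) {c : ℝ} :
    HasSpeed Φ c f ↔ ∀ z, len Φ (fun z => Phi (f z).rep) z = c := by
  constructor
  · intro h z
    obtain ⟨V, g, hV, hzV, hg, hfg⟩ := hf.1 z
    rw [← len_lift hX ht hf hV hg hfg hzV]
    exact h V g hV hg hfg z hzV
  · intro h V g hV hg hfg z hz
    rw [len_lift hX ht hf hV hg hfg hz]
    exact h z

/-- a curve over whose speed vanishes on an open set is constant -/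
theorem const_of_null (hX : ProjManifold F d) (hΦ : NonposMetric (Cone F) d Φ)
    (hnd : Nondegenerate (Cone F) d Φ)
    {f : ℂ → ℙ ℂ (Fin (n + 1) → ℂ)} (hf : HolIn F f) {z₀ : ℂ}
    (h : ∀ᶠ z in 𝓝 z₀, len Φ (fun z => Phi (f z).rep) z = 0) : ∀ z w, f z = f w := by
  obtain ⟨c0, C0, hc0, hC0, hcC⟩ := len_le_ge hX hΦ hnd
  obtain ⟨r, hr, hball⟩ := Metric.eventually_nhds_iff_ball.1 h
  set φ : ℂ → Mat (n + 1) := fun z => Phi (f z).rep with hφ
  have hhol : HolP univ φ := holP_of_map hf.1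
  have h0 : ∀ z ∈ ball z₀ r, fderiv ℝ φ z = 0 := by
    intro z hz
    have h1 := (hcC φ hhol (fun z => mem_TF (hf.2 z)) z).1
    rw [hball z hz] at h1
    have h2 : ‖fderiv ℝ φ z‖ ≤ 0 := by
      by_contra hcon
      push Not at hcon
      have := mul_pos hc0 hcon
      linarith
    exact norm_le_zero_iff.1 h2
  have hc : ∀ z ∈ ball z₀ r, φ z = φ z₀ := by
    intro z hz
    refine (convex_ball z₀ r).is_const_of_fderivWithin_eq_zero (𝕜 := ℝ) (fun w hw =>
      (hhol.differentiableAt (mem_univ w)).differentiableWithinAt) (fun w hw => ?_) hz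
      (mem_ball_self hr)
    rw [fderivWithin_of_isOpen isOpen_ball hw, h0 w hw]
  have hall : ∀ z, φ z = φ z₀ := by
    intro z
    refine holP_ext (ψ := fun _ => φ z₀) hhol ?_ (z0 := z₀) ?_ z
    · intro w _
      obtain ⟨V, g, hV, hzV, hg, hfg⟩ := hhol z₀ (mem_univ _)
      exact ⟨univ, fun _ => g z₀, isOpen_univ, mem_univ _, differentiableOn_const _, fun w _ =>
        hfg z₀ hzV⟩
    · filter_upwards [ball_mem_nhds z₀ hr] with w hw
      exact hc w hw
  intro z w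
  apply proj_ext
  exact (hall z).trans (hall w).symm

/-- **Degeneracy of entire curves.** -/
theorem degenerate (hX : ProjManifold F d) (hG : ∀ i, IsForm (G i))
    (hη : PositiveTwoForms (Cone F) (Cone G) d η) (hZ : NoBC F G)
    (hΦ : NonposMetric (Cone F) d Φ)
    (hnd : Nondegenerate (Cone F) d Φ) (hΨ : NegativeNearZeros (Cone F) d Φ a Ψ)
    (hell : ∀ h : ℂ → ℙ ℂ (Fin (n + 1) → ℂ), HolIn F h → (∃ z w, h z ≠ h w) → DoublyPeriodic h →
      HasSpeed Ψ 0 h)
    {f : ℂ → ℙ ℂ (Fin (n + 1) → ℂ)} (hf : HolIn F f) (hne : ∃ z w, f z ≠ f w) :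
    HasSpeed Ψ 0 f := by
  obtain ⟨c0, C0, hc0, hC0, hcC⟩ := len_le_ge hX hΦ hnd
  obtain ⟨C1, κ1, ε1, -, -, -, hW⟩ := wdata hX hΦ hΨ
  set φ : ℂ → Mat (n + 1) := fun z => Phi (f z).rep with hφ
  have hhol : HolP univ φ := holP_of_map hf.1
  have hφT : ∀ z, φ z ∈ TF F := fun z => mem_TF (hf.2 z)
  have hWφ := hW φ hhol hφT
  rw [hasSpeed_iff hX hΨ.twist hf]
  by_contra hcon
  push Not at hcon
  obtain ⟨z₂, hz₂⟩ := hcon
  have hz₂' : 0 < len Ψ φ z₂ := lt_of_le_of_ne (hWφ.v0 z₂) (Ne.symm hz₂)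
  obtain ⟨z₁, h1, h2⟩ : ∃ z₁, 0 < len Φ φ z₁ ∧ 0 < len Ψ φ z₁ := by
    by_contra hcon
    push Not at hcon
    have hev : ∀ᶠ z in 𝓝 z₂, len Φ φ z = 0 := by
      filter_upwards [hWφ.cv.continuousAt.eventually (lt_mem_nhds hz₂')] with z hz
      refine le_antisymm ?_ (hWφ.u0 z)
      by_contra h3
      push Not at h3
      exact absurd (hcon z h3) (not_le.2 hz)
    obtain ⟨z, w, hzw⟩ := hne
    exact hzw (const_of_null hX hΦ hnd hf hev z w)
  obtain ⟨H, hH, hHT, ⟨B, hB⟩, hH1, hH2⟩ := exists_lim hX hΦ hnd hΨ hhol hφT h1 h2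
  obtain ⟨A, hA, hw⟩ := wedge_fderiv n
  have hphi : (fun z => Phi (toProj (H z)).rep) = H := funext fun z =>
    Phi_rep_toProj (TF_PM (hHT z))
  have hh : HolMap fun z => toProj (H z) := holMap_of hH
  have hin : HolIn F fun z => toProj (H z) := ⟨hh, fun z => rep_toProj hX.form (hHT z)⟩
  have hder : DerBetween 0 (A * B) fun z => toProj (H z) := by
    intro V g hV hg hfg z hz
    have hS := (sum_pos (hfg z hz).1).le
    obtain ⟨-, h2⟩ := hw _ hh V g hV hg hfg z hz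
    rw [hphi] at h2
    refine ⟨by rw [zero_mul]; exact wedge_nonneg _ _, h2.trans ?_⟩
    exact mul_le_mul_of_nonneg_right (mul_le_mul_of_nonneg_left (hB z) hA.le) hS
  obtain ⟨-, hp⟩ := periodic_or_null (θ := Unit) (Φ := fun _ => Φ) hX hG hη hZ (fun _ => hΦ) hin hder
  rcases hp with hp | hp
  · have hnc : ∃ z w, toProj (H z) ≠ toProj (H w) := by
      by_contra hcon
      push Not at hcon
      have h3 : ∀ z, H z = H 0 := fun z => by
        have := congrArg (fun p : ℙ ℂ (Fin (n + 1) → ℂ) => Phi p.rep) (hcon z 0)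
        change (fun z => Phi (toProj (H z)).rep) z = (fun z => Phi (toProj (H z)).rep) 0 at this
        rwa [hphi] at this
      have h4 : fderiv ℝ H 0 = 0 := by
        have : H = fun _ => H 0 := funext h3
        rw [this]
        simp
      have h5 := (hcC H hH hHT 0).2
      rw [h4, norm_zero, mul_zero] at h5
      linarith
    have h3 := (hasSpeed_iff hX hΨ.twist hin).1 (hell _ hin hnc hp) 0
    rw [hphi] at h3
    linarith
  · have h3 := (hasSpeed_iff hX hΦ.twist hin).1 (hp ()) 0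
    rw [hphi] at h3
    linarith

theorem indep_of_fderiv {f : ℂ → ℙ ℂ (Fin (n + 1) → ℂ)} (hf : HolMap f) {V : Set ℂ}
    {g : ℂ → Fin (n + 1) → ℂ} (hV : IsOpen V) (hg : DifferentiableOn ℂ g V)
    (hfg : ∀ w ∈ V, ∃ h : g w ≠ 0, f w = Projectivization.mk ℂ (g w) h) {z : ℂ} (hz : z ∈ V)
    (hd : fderiv ℝ (fun z => Phi (f z).rep) z ≠ 0) : LinearIndependent ℂ ![g z, deriv g z] := by
  obtain ⟨A, hA, hw⟩ := wedge_fderiv n
  rw [LinearIndependent.pair_iff]
  intro s t hst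
  have hS := sum_pos (hfg z hz).1
  by_cases ht : t = 0
  · refine ⟨?_, ht⟩
    rw [ht, zero_smul, add_zero] at hst
    exact (smul_eq_zero.1 hst).resolve_right (hfg z hz).1
  · exfalso
    have h1 : deriv g z = (-(s / t)) • g z := by
      have h2 : t • deriv g z = -(s • g z) := eq_neg_of_add_eq_zero_right hst
      rw [neg_smul, div_eq_inv_mul, mul_smul, ← smul_neg, ← h2, smul_smul, inv_mul_cancel₀ ht,
        one_smul]
    have h2 : wedge (g z) (deriv g z) = 0 := by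
      unfold wedge
      rw [h1]
      have : ∑ i, ∑ j, ‖g z i * ((-(s / t)) • g z) j - g z j * ((-(s / t)) • g z) i‖ ^ 2 = 0 := by
        refine Finset.sum_eq_zero fun i _ => Finset.sum_eq_zero fun j _ => ?_
        have : g z i * ((-(s / t)) • g z) j - g z j * ((-(s / t)) • g z) i = 0 := by
          simp only [Pi.smul_apply, smul_eq_mul]
          ring
        rw [this, norm_zero, zero_pow two_ne_zero]
      rw [this, zero_div, Real.sqrt_zero]
    have h3 := (hw f hf V g hV hg hfg z hz).1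
    rw [h2, mul_zero] at h3
    exact absurd h3 (not_le.2 (mul_pos (norm_pos_iff.2 hd) hS))

theorem const_of_fderiv {φ : ℂ → Mat (n + 1)} (hφ : HolP univ φ) {z₀ : ℂ}
    (h : ∀ᶠ z in 𝓝 z₀, fderiv ℝ φ z = 0) : ∀ z, φ z = φ z₀ := by
  obtain ⟨r, hr, hball⟩ := Metric.eventually_nhds_iff_ball.1 h
  have hc : ∀ z ∈ ball z₀ r, φ z = φ z₀ := by
    intro z hz
    refine (convex_ball z₀ r).is_const_of_fderivWithin_eq_zero (𝕜 := ℝ) (fun w hw =>
      (hφ.differentiableAt (mem_univ w)).differentiableWithinAt) (fun w hw => ?_) hz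
      (mem_ball_self hr)
    rw [fderivWithin_of_isOpen isOpen_ball hw, hball w hw]
  intro z
  refine holP_ext (ψ := fun _ => φ z₀) hφ ?_ (z0 := z₀) ?_ z
  · intro w _
    obtain ⟨V, g, hV, hzV, hg, hfg⟩ := hφ z₀ (mem_univ _)
    exact ⟨univ, fun _ => g z₀, isOpen_univ, mem_univ _, differentiableOn_const _, fun w _ =>
      hfg z₀ hzV⟩
  · filter_upwards [ball_mem_nhds z₀ hr] with w hw
    exact hc w hw

/-- curves with speed zero -/
theorem mem_of_null (hX : ProjManifold F d) {ι'' : Type} {E : ι'' → MvPolynomial (Fin (n + 1)) ℂ}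
    (hE : ∀ i, IsForm (E i)) (hz : ZerosOver (Cone F) Ψ (Cone E))
    {f : ℂ → ℙ ℂ (Fin (n + 1) → ℂ)} (hf : HolIn F f) (hne : ∃ z w, f z ≠ f w)
    (h0 : HasSpeed Ψ 0 f) (z : ℂ) : (f z).rep ∈ Cone E := by
  set φ : ℂ → Mat (n + 1) := fun z => Phi (f z).rep with hφ
  have hhol : HolP univ φ := holP_of_map hf.1
  have hcφ : Continuous φ := continuous_iff_continuousAt.2 fun _ => hhol.continuousAt (mem_univ _)
  have key : ∀ z, fderiv ℝ φ z ≠ 0 → φ z ∈ TF E := by
    intro z hz'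
    obtain ⟨V, g, hV, hzV, hg, hfg⟩ := hf.1 z
    have hφg : ∀ w ∈ V, φ w = Phi (g w) := by
      intro w hw
      obtain ⟨h0, he⟩ := hfg w hw
      rw [hφ]
      simp only
      rw [he, Phi_rep_mk]
    have hcone : ∀ w ∈ V, g w ∈ Cone F := by
      intro w hw
      have h1 : φ w ∈ TF F := mem_TF (hf.2 w)
      rw [hφg w hw] at h1
      exact (Phi_mem hX.form (hfg w hw).1).1 h1
    have h1 := hz V g hV hg hcone z hzV (indep_of_fderiv hf.1 hV hg hfg hzV hz')
      (h0 V g hV hg hfg z hzV)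
    rw [hφg z hzV]
    exact ⟨_, h1, rfl⟩
  have hcl : IsClosed {z | φ z ∈ TF E} := (isCompact_TF hE).isClosed.preimage hcφ
  have hall : φ z ∈ TF E := by
    by_contra hcon
    have hev : ∀ᶠ w in 𝓝 z, fderiv ℝ φ w = 0 := by
      filter_upwards [hcl.isOpen_compl.mem_nhds hcon] with w hw
      by_contra h1
      exact hw (key w h1)
    have h2 := const_of_fderiv hhol hev
    obtain ⟨a, b, hab⟩ := hne
    apply hab
    apply proj_ext
    exact (h2 a).trans (h2 b).symm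
  have h3 : Phi (f z).rep ∈ TF E := hall
  exact (Phi_mem hE (Projectivization.rep_nonzero _)).1 h3

end Pool.Agent.H33
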