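import Pool.Agent.H33.NLow
import Pool.Agent.H33.Area
import Pool.Graph.R_pool_sql_team_seeded_63374d34.N154.TT.T1

/-! Metrics of nonpositive curvature: elliptic curves and hyperbolicity. -/

set_option autoImplicit false

open Filter Topology Metric Set MvPolynomial LinearAlgebra.Projectivization

namespace Pool.Agent.H33

open Pool.Agent.Y190.OP Pool.Agent.W602.GT Pool.Agent.N155 Pool.Agent.N155.BB
open Pool.Agent.N154.GG (kobayashi projDist IsChainLength poincareDist HolMapOn)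

variable {n : ℕ} {ι ι' : Type} {F : ι → MvPolynomial (Fin (n + 1)) ℂ}
  {G : ι' → MvPolynomial (Fin (n + 1)) ℂ} {d : ℕ}
  {κ : Type} {η : κ → (Fin (n + 1) → ℂ) → (Fin (n + 1) → ℂ) → (Fin (n + 1) → ℂ) → ℂ}
  {Φ : (Fin (n + 1) → ℂ) → (Fin (n + 1) → ℂ) → ℝ}

/-- chains of discs and truncated distances -/
theorem chain_trunc' {M0 : Mat (n + 1)} {A ρ : ℝ} (hA : 0 ≤ A)
    (h : ∀ P : ℂ → Mat (n + 1), HolP (ball 0 1) P → (∀ w ∈ ball (0 : ℂ) 1, P w ∈ TF F) →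
      ∀ s ∈ ball (0 : ℂ) 1, ∀ t ∈ ball (0 : ℂ) 1,
        dist (min ‖P t - M0‖ ρ) (min ‖P s - M0‖ ρ) ≤ A * Pool.Agent.Helper206.cost s t)
    {p q : ℙ ℂ (Fin (n + 1) → ℂ)} {c : ℝ} (hc : IsChainLength (Cone F) p q c) :
    dist (min ‖Phi q.rep - M0‖ ρ) (min ‖Phi p.rep - M0‖ ρ) ≤ A * c := by
  obtain ⟨k, r, f, s, t, h0, hl, hi, rfl⟩ := hc
  have h1 := Pool.Agent.Helper206.chain_bound k (fun j => min ‖Phi (r j).rep - M0‖ ρ)
    (fun i => A * poincareDist (s i) (t i))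
    (by
      intro i
      obtain ⟨-, -, hs, ht, -, -⟩ := hi i
      exact mul_nonneg hA ((Pool.Agent.Helper206.phd_nonneg (s i) (t i)).trans
        (Pool.Agent.Helper206.phd_le_cost hs ht)))
    (by
      intro i
      obtain ⟨hf, hfS, hs, ht, es, et⟩ := hi i
      have := h (fun z => Phi (f i z).rep) (Pool.Agent.N154.GG.holP_of_on hf)
        (fun w hw => mem_TF (hfS w hw)) _ hs _ ht
      simp only [es, et, Pool.Agent.N154.GG.cost_eq] at this
      exact this) (Fin.last k)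
  simp only [h0, hl] at h1
  rw [← Finset.mul_sum] at h1
  exact h1

/-- **Brody's theorem** for the Kobayashi pseudodistance -/
theorem kob_of_brody (hF : ∀ i, IsForm (F i))
    (h : ∀ f : ℂ → ℙ ℂ (Fin (n + 1) → ℂ), HolIn F f → ∀ C, DerBetween 0 C f → ∀ z w, f z = f w) :
    ∃ c : ℝ, 0 < c ∧ ∀ p q : ℙ ℂ (Fin (n + 1) → ℂ), p.rep ∈ Cone F → q.rep ∈ Cone F →
      ENNReal.ofReal (c * projDist p q) ≤ kobayashi (Cone F) p q := by
  obtain ⟨A, hA, hw⟩ := wedge_fderiv n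
  obtain ⟨C1, hC1, hbro⟩ := Pool.Agent.N154.TT.brody (T := TF F) (isCompact_TF hF) TF_PM (by
    intro P hP hPT hB
    have hphi : (fun z => Phi (toProj (P z)).rep) = P := funext fun z =>
      Phi_rep_toProj (TF_PM (hPT z))
    have hh := holMap_of hP
    have h1 := h (fun z => toProj (P z)) ⟨hh, fun z => rep_toProj hF (hPT z)⟩ (A * 2) (by
      intro V g hV hg hfg z hz
      have hS := (sum_pos (hfg z hz).1).le
      obtain ⟨-, h2⟩ := hw _ hh V g hV hg hfg z hz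
      rw [hphi] at h2
      refine ⟨by rw [zero_mul]; exact wedge_nonneg _ _, h2.trans ?_⟩
      exact mul_le_mul_of_nonneg_right (mul_le_mul_of_nonneg_left (hB z) hA.le) hS)
    intro z
    have h2 := congrArg (fun p : ℙ ℂ (Fin (n + 1) → ℂ) => Phi p.rep) (h1 z 0)
    change Phi (toProj (P z)).rep = Phi (toProj (P 0)).rep at h2
    rwa [Phi_rep_toProj (TF_PM (hPT z)), Phi_rep_toProj (TF_PM (hPT 0))] at h2)
  obtain ⟨C2, hC2, hdisc⟩ := Pool.Agent.N154.TT.disc_trunc_gen (T := TF F) (Ξ := ∅) (ε := 1)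
    one_pos hC1 (by
      intro P hP hPT D hD0 hD1 _
      rw [Real.rpow_one]
      exact (mul_le_of_le_one_right (norm_nonneg _) hD1).trans (hbro P hP hPT))
  refine ⟨(4 * C2)⁻¹, by positivity, fun p q hp hq => ?_⟩
  unfold kobayashi
  refine le_iInf₂ fun c hc => ENNReal.ofReal_le_ofReal ?_
  have h1 := chain_trunc' (F := F) (M0 := Phi p.rep) (ρ := 1 / 2) (A := C2) hC2.le (by
    intro P hP hPT s hs t ht
    have := hdisc 1 one_pos le_rfl (Phi p.rep) (fun M hM => absurd hM (notMem_empty _))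
      P hP hPT s hs t ht
    rwa [Real.rpow_one, div_one] at this) hc
  have h2 : dist (min ‖Phi q.rep - Phi p.rep‖ (1 / 2)) (min ‖Phi p.rep - Phi p.rep‖ (1 / 2)) =
      min ‖Phi q.rep - Phi p.rep‖ (1 / 2) := by
    rw [sub_self, norm_zero, min_eq_left (show (0 : ℝ) ≤ 1 / 2 by norm_num), Real.dist_eq,
      sub_zero, abs_of_nonneg (by positivity)]
  rw [h2] at h1
  have h3 : ‖Phi q.rep - Phi p.rep‖ ≤ 2 := by
    have := (norm_sub_le (Phi q.rep) (Phi p.rep)).trans (add_le_add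
      (Pool.Agent.N154.GG.norm_phi_le (TF_PM (mem_TF hq)))
      (Pool.Agent.N154.GG.norm_phi_le (TF_PM (mem_TF hp))))
    linarith
  have h4 : projDist p q / 4 ≤ min ‖Phi q.rep - Phi p.rep‖ (1 / 2) := by
    have e1 : projDist p q = ‖Phi q.rep - Phi p.rep‖ := norm_sub_rev _ _
    rw [e1]
    have e2 := norm_nonneg (Phi q.rep - Phi p.rep)
    apply le_min <;> linarith
  calc (4 * C2)⁻¹ * projDist p q = C2⁻¹ * (projDist p q / 4) := by
        rw [mul_inv]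
        ring
    _ ≤ C2⁻¹ * (C2 * c) := mul_le_mul_of_nonneg_left (h4.trans h1) (by positivity)
    _ = c := by
        rw [← mul_assoc, inv_mul_cancel₀ hC2.ne', one_mul]

/-- **The alternative.** -/
theorem speed_const (hX : ProjManifold F d) (hΦ : NonposMetric (Cone F) d Φ)
    {f : ℂ → ℙ ℂ (Fin (n + 1) → ℂ)} (hf : HolIn F f) {C : ℝ} (hb : DerBetween 0 C f) :
    ∃ c : ℝ, 0 ≤ c ∧ HasSpeed Φ c f ∧ ∃ C' : ℝ, 0 < C' ∧
      ∀ z, c ≤ C' * ‖fderiv ℝ (fun z => Phi (f z).rep) z‖ := by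
  obtain ⟨B, hB⟩ := bounded_of_between hf.1 hb
  obtain ⟨C1, hC1, hle⟩ := pv_le hX hΦ
  obtain ⟨C', hC', hex⟩ := pv_const hX hΦ
  obtain ⟨c, hc0, hcs, hcb⟩ := hex (fun z => Phi (f z).rep) (holP_of_map hf.1)
    (fun z => mem_TF (hf.2 z)) (C1 * B) (fun z i hi =>
      (hle _ (holP_of_map hf.1) (fun z => mem_TF (hf.2 z)) z i hi).trans
        (mul_le_mul_of_nonneg_left (hB z) hC1.le))
  refine ⟨c, hc0, fun V g hV hg hfg z hz => ?_, C', hC', hcb⟩
  obtain ⟨-, i, hi, h1⟩ := pv_lift hX hΦ hf hV hg hfg hz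
  rw [h1, hcs z i hi]

theorem periodic_or_null {θ : Type} {Φ : θ → (Fin (n + 1) → ℂ) → (Fin (n + 1) → ℂ) → ℝ}
    (hX : ProjManifold F d) (hG : ∀ i, IsForm (G i))
    (hη : PositiveTwoForms (Cone F) (Cone G) d η) (hZ : NoBC F G)
    (hΦ : ∀ q, NonposMetric (Cone F) d (Φ q))
    {f : ℂ → ℙ ℂ (Fin (n + 1) → ℂ)} (hf : HolIn F f) {C : ℝ} (hb : DerBetween 0 C f) :
    (∀ q, ∃ c : ℝ, 0 ≤ c ∧ HasSpeed (Φ q) c f) ∧ (DoublyPeriodic f ∨ ∀ q, HasSpeed (Φ q) 0 f) := by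
  have hsp : ∀ q, ∃ c : ℝ, 0 ≤ c ∧ HasSpeed (Φ q) c f ∧ ∃ C' : ℝ, 0 < C' ∧
      ∀ z, c ≤ C' * ‖fderiv ℝ (fun z => Phi (f z).rep) z‖ := fun q =>
    speed_const hX (hΦ q) hf hb
  refine ⟨fun q => ?_, ?_⟩
  · obtain ⟨c, hc, h1, -⟩ := hsp q
    exact ⟨c, hc, h1⟩
  by_cases hper : DoublyPeriodic f
  · exact Or.inl hper
  right
  intro q
  obtain ⟨B, hB⟩ := bounded_of_between hf.1 hb
  obtain ⟨c, hc, h1, C', hC', h2⟩ := hsp q
  rcases hc.eq_or_lt with h0 | h0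
  · rwa [← h0] at h1
  · exfalso
    refine hper (periodic_of_low hX hG hη hZ hf hB (c := c / C') (by positivity) fun z => ?_)
    rw [div_le_iff₀ hC', mul_comm]
    exact h2 z

end Pool.Agent.H33
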