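import Pool.Agent.H33.GW
import Pool.Agent.H33.NKob

/-! Limits of rescalings of an entire curve whose derivative is a zero of neither of two functions. -/

set_option autoImplicit false

open Filter Topology Metric Set MvPolynomial LinearAlgebra.Projectivization

namespace Pool.Agent.H33

open Pool.Agent.Y190.OP Pool.Agent.W602.GT Pool.Agent.N155 Pool.Agent.N155.BB
open Pool.Agent.N154.GG (exists_limit_loc_l)

variable {n : ℕ} {ι ι' : Type} {F : ι → MvPolynomial (Fin (n + 1)) ℂ}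
  {G : ι' → MvPolynomial (Fin (n + 1)) ℂ} {d : ℕ}
  {κ : Type} {η : κ → (Fin (n + 1) → ℂ) → (Fin (n + 1) → ℂ) → (Fin (n + 1) → ℂ) → ℂ}
  {Φ Ψ : (Fin (n + 1) → ℂ) → (Fin (n + 1) → ℂ) → ℝ} {a : ℕ}

theorem NonposMetric.deg' (hΦ : NonposMetric (Cone F) d Φ) : ∀ x ∈ Cone F,
    ∀ (v : Fin (n + 1) → ℂ) (c : ℂ), c ≠ 0 → Φ x (c • v) = ‖c‖ ^ 1 * Φ x v :=
  fun x hx v c _ => by rw [pow_one]; exact hΦ.deg x hx v c

theorem scale_m {p q ρ x y : ℝ} (hρ : 0 < ρ) (hx : 0 ≤ x) (hy : 0 ≤ y) (hp : p = 1 - a * q) :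
    (ρ * x) ^ p * (ρ ^ a * y) ^ q = ρ * (x ^ p * y ^ q) := by
  rw [Real.mul_rpow hρ.le hx, Real.mul_rpow (by positivity) hy, ← Real.rpow_natCast,
    ← Real.rpow_mul hρ.le]
  have h1 : ρ ^ p * ρ ^ (a * q) = ρ := by
    rw [← Real.rpow_add hρ, hp]
    simp
  calc ρ ^ p * x ^ p * (ρ ^ (a * q) * y ^ q) = (ρ ^ p * ρ ^ (a * q)) * (x ^ p * y ^ q) := by ring
    _ = _ := by rw [h1]

theorem len_le_ge (hX : ProjManifold F d) (hΦ : NonposMetric (Cone F) d Φ)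
    (hnd : Nondegenerate (Cone F) d Φ) : ∃ c C : ℝ, 0 < c ∧ 0 < C ∧ ∀ φ : ℂ → Mat (n + 1),
      HolP univ φ → (∀ z, φ z ∈ TF F) → ∀ t, c * ‖fderiv ℝ φ t‖ ≤ len Φ φ t ∧
        len Φ φ t ≤ C * ‖fderiv ℝ φ t‖ := by
  obtain ⟨c, hc, h1⟩ := le_pv hX hΦ hnd
  obtain ⟨C, hC, h2⟩ := pv_le hX hΦ
  exact ⟨c, C, hc, hC, fun φ hφ hφT t => ⟨h1 φ hφ hφT t _ (ix_ne hφT t),
    h2 φ hφ hφT t _ (ix_ne hφT t)⟩⟩

/-- the limit of rescalings -/
theorem exists_lim (hX : ProjManifold F d) (hΦ : NonposMetric (Cone F) d Φ)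
    (hnd : Nondegenerate (Cone F) d Φ) (hΨ : NegativeNearZeros (Cone F) d Φ a Ψ)
    {φ : ℂ → Mat (n + 1)} (hφ : HolP univ φ) (hφT : ∀ z, φ z ∈ TF F) {z₁ : ℂ}
    (hz₁ : 0 < len Φ φ z₁) (hz₁' : 0 < len Ψ φ z₁) :
    ∃ H : ℂ → Mat (n + 1), HolP univ H ∧ (∀ z, H z ∈ TF F) ∧ (∃ B : ℝ, ∀ z, ‖fderiv ℝ H z‖ ≤ B) ∧
      0 < len Φ H 0 ∧ 0 < len Ψ H 0 := by
  obtain ⟨C, κ, ε, hC, hκ, hε, hW⟩ := wdata hX hΦ hΨ
  obtain ⟨c0, C0, hc0, hC0, hcC⟩ := len_le_ge hX hΦ hnd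
  set q : ℝ := 1 / ((a : ℝ) + 1) with hq
  have hq0 : 0 < q := by positivity
  have haq : a * q < 1 := by
    rw [hq, mul_one_div, div_lt_one (by positivity)]
    exact lt_add_one _
  have hp0 : 0 < 1 - a * q := by linarith
  have hW0 := hW φ hφ hφT
  set m : ℂ → ℝ := fun z => len Φ φ z ^ (1 - a * q) * len Ψ φ z ^ q with hm
  have hmc : Continuous m := (hW0.cu.rpow_const fun _ => Or.inr hp0.le).mul
    (hW0.cv.rpow_const fun _ => Or.inr hq0.le)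
  have hm0 : ∀ z, 0 ≤ m z := fun z => mul_nonneg (Real.rpow_nonneg (hW0.u0 z) _)
    (Real.rpow_nonneg (hW0.v0 z) _)
  have hm1 : 0 < m z₁ := mul_pos (Real.rpow_pos_of_pos hz₁ _) (Real.rpow_pos_of_pos hz₁' _)
  have hzal := fun k : ℕ => zalcman hmc hm0 hm1 (N := (k : ℝ) + 1) (by positivity)
  choose z₀ hz₀ hz₀' using hzal
  set h : ℕ → ℂ → Mat (n + 1) := fun k w => φ (aff (z₀ k) (m (z₀ k))⁻¹ w) with hh
  have hhh : ∀ k, HolP univ (h k) := fun k => by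
    have := hφ.aff (z₀ k) (m (z₀ k))⁻¹
    rwa [preimage_univ] at this
  have hhT : ∀ k z, h k z ∈ TF F := fun k z => hφT _
  have hW' := fun k => hW (h k) (hhh k) (hhT k)
  have hρ : ∀ k, 0 < (m (z₀ k))⁻¹ := fun k => inv_pos.2 (hz₀ k)
  have hmk : ∀ k w, len Φ (h k) w ^ (1 - a * q) * len Ψ (h k) w ^ q =
      (m (z₀ k))⁻¹ * m (aff (z₀ k) (m (z₀ k))⁻¹ w) := by
    intro k w
    have e1 := len_aff (a := 1) hX hΦ.twist hΦ.deg' hφ hφT (hρ k) w (z₀ := z₀ k)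
    have e2 := len_aff hX hΨ.twist hΨ.deg hφ hφT (hρ k) w (z₀ := z₀ k)
    rw [pow_one] at e1
    rw [hh]
    simp only
    rw [e1, e2, scale_m (hρ k) (hW0.u0 _) (hW0.v0 _) rfl]
  have hm2 : ∀ k : ℕ, ∀ w ∈ ball (0 : ℂ) ((k : ℝ) + 1),
      len Φ (h k) w ^ (1 - a * q) * len Ψ (h k) w ^ q ≤ 2 := by
    intro k w hw
    rw [hmk]
    have := hz₀' k w (mem_ball_zero_iff.1 hw)
    rw [inv_mul_le_iff₀ (hz₀ k), mul_comm]
    exact this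
  have hm3 : ∀ k, 1 ≤ len Φ (h k) 0 ^ (1 - a * q) * len Ψ (h k) 0 ^ q := by
    intro k
    rw [hmk]
    have : aff (z₀ k) (m (z₀ k))⁻¹ 0 = z₀ k := by simp [aff]
    rw [this, inv_mul_cancel₀ (hz₀ k).ne']
  set B0 : ℝ := Real.exp (3 * (4 * Real.log (K3 κ ε q) + C * (4 * ε ^ (-q)) ^ 2 +
      4 * (2 * Real.log (K3 κ ε q) / q))) with hB0
  set b0 : ℝ := Real.exp (-(2 * Real.log (K3 κ ε q) / q)) with hb0
  set 𝓤 : Ultrafilter ℕ := hyperfilter ℕ with h𝓤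
  -- large radii
  have hbig : ∀ L : ℝ, ∀ᶠ k : ℕ in (𝓤 : Filter ℕ), L ≤ ((k : ℝ) + 1) / 4 ∧
      a * (1 / ((k : ℝ) + 1) ^ 2) ≤ 1 / 4 ∧ 2 ≤ q * ((k : ℝ) + 1) ^ 2 := by
    intro L
    filter_upwards [hyper_ge (4 * L), hyper_ge (4 * a), hyper_ge (2 / q)] with k h1 h2 h3
    have hk : (0 : ℝ) ≤ k := Nat.cast_nonneg k
    refine ⟨by linarith, ?_, ?_⟩
    · rw [mul_one_div, div_le_div_iff₀ (by positivity) (by norm_num)]
      nlinarith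
    · rw [div_le_iff₀ hq0] at h3
      nlinarith
  have hub : ∀ L : ℝ, ∀ᶠ k : ℕ in (𝓤 : Filter ℕ), ∀ w : ℂ, ‖w‖ ≤ L → len Φ (h k) w ≤ B0 := by
    intro L
    filter_upwards [hbig L] with k hk w hw
    exact (hW' k).bounded hC hκ hε (r := (k : ℝ) + 1) (by linarith [(Nat.cast_nonneg k : (0 : ℝ) ≤ k)])
      hq0 haq hk.2.1 hk.2.2 (hm2 k) (hm3 k) (hw.trans hk.1)
  have hlb : ∀ᶠ k : ℕ in (𝓤 : Filter ℕ), b0 ≤ len Ψ (h k) 0 := by
    filter_upwards [hbig 0] with k hk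
    exact (hW' k).value_ge hκ hε (r := (k : ℝ) + 1) (by linarith [(Nat.cast_nonneg k : (0 : ℝ) ≤ k)])
      hq0 haq (by linarith [hk.2.1]) hk.2.2 (hm2 k) (hm3 k)
  have hlb1 : ∀ k, 1 ≤ len Φ (h k) 0 := by
    intro k
    have h1 := hm3 k
    have hu : 0 < len Φ (h k) 0 := by
      rcases ((hW' k).u0 0).eq_or_lt with e | e
      · rw [← e, Real.zero_rpow hp0.ne', zero_mul] at h1
        linarith
      · exact e
    exact h1.trans (prod_le hq0 hu ((hW' k).v0 0) ((hW' k).le 0))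
  have hder : ∀ L : ℝ, ∀ᶠ k : ℕ in (𝓤 : Filter ℕ), ∀ w : ℂ, ‖w‖ ≤ L →
      ‖fderiv ℝ (h k) w‖ ≤ B0 / c0 := by
    intro L
    filter_upwards [hub L] with k hk w hw
    rw [le_div_iff₀ hc0, mul_comm]
    exact (hcC _ (hhh k) (hhT k) w).1.trans (hk w hw)
  obtain ⟨H, hH, hHT, hHc, hHd⟩ := exists_limit_loc_l (isCompact_TF hX.form) TF_PM (𝓤 := 𝓤) (h := h)
    (by
      intro L
      filter_upwards with k z hz
      obtain ⟨V, F, hV, hzV, hd, hF⟩ := hhh k z (mem_univ z)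
      exact ⟨V, F, hV, hzV, hd, hF⟩)
    (by
      intro L
      filter_upwards with k z hz
      exact hhT k z)
    (by
      intro L
      refine ⟨B0 / c0, ?_⟩
      filter_upwards [hder L] with k hk z hz
      exact hk z (mem_ball_zero_iff.1 hz).le)
  have hHp : ∀ z, Tendsto (fun k => h k z) 𝓤 (𝓝 (H z)) := by
    intro z
    have h1 := hHc z (mem_univ z)
    exact h1.comp (tendsto_id.prodMk (tendsto_const_pure.mono_right (pure_le_nhds z)))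
  refine ⟨H, hH, hHT, ⟨B0 / c0, fun z => ?_⟩, ?_, ?_⟩
  · refine le_of_tendsto (hHd z).norm ?_
    filter_upwards [hder ‖z‖] with k hk
    exact hk z le_rfl
  · have h1 := len_tendsto hX hΦ.twist hΦ.cont hhh hhT hH hHT (hHp 0) (hHd 0)
    exact one_pos.trans_le (ge_of_tendsto' h1 hlb1)
  · have h1 := len_tendsto hX hΨ.twist hΨ.cont hhh hhT hH hHT (hHp 0) (hHd 0)
    exact (Real.exp_pos _).trans_le (ge_of_tendsto h1 hlb)

end Pool.Agent.H33
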