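import Pool.Agent.H33.Poi

/-! The lengths of curves for two metrics, one of which is negatively curved near its zeros. -/

set_option autoImplicit false

open Filter Topology Metric Set

namespace Pool.Agent.H33

open Real (circleAverage)

/-- the lengths of the derivative of a curve -/
structure WData (a : ℕ) (C κ ε : ℝ) (u v : ℂ → ℝ) : Prop where
  cu : Continuous u
  cv : Continuous v
  u0 : ∀ z, 0 ≤ u z
  v0 : ∀ z, 0 ≤ v z
  le : ∀ z, v z ≤ u z ^ a
  sub : ∀ z, ∃ V, IsOpen V ∧ z ∈ V ∧ LogSubharmonic u V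
  far : ∀ z A, u z < A → ∃ V, IsOpen V ∧ z ∈ V ∧
    LogSubharmonic (fun w => v w * Real.exp (C * A ^ 2 * ‖w‖ ^ 2)) V
  near : ∀ z A, 0 ≤ A → (A < u z ∨ A = 0) → v z < ε * u z ^ a → ∃ V, IsOpen V ∧ z ∈ V ∧
    LogSubharmonic (fun w => v w * Real.exp (-(κ * A ^ 2 * ‖w‖ ^ 2))) V

variable {a : ℕ} {C κ ε : ℝ} {u v : ℂ → ℝ}

theorem LogSubharmonic.mono {u : ℂ → ℝ} {V W : Set ℂ} (h : LogSubharmonic u V) (hW : W ⊆ V) :
    LogSubharmonic u W :=
  ⟨h.cont.mono hW, fun z hz => h.nonneg z (hW hz), fun a r δ hr hV hδ =>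
    h.mean a r δ hr (hV.trans hW) hδ⟩

theorem far_bound {q x y : ℝ} (hε : 0 < ε) (hq : 0 < q) (hx : 0 < x)
    (hxy : ε * x ^ a ≤ y) (h2 : x ^ (1 - a * q) * y ^ q ≤ 2) : x ≤ 2 * ε ^ (-q) := by
  have h1 : (ε * x ^ a) ^ q ≤ y ^ q := Real.rpow_le_rpow (by positivity) hxy hq.le
  have h3 : (ε * x ^ a) ^ q = ε ^ q * x ^ (a * q) := by
    rw [Real.mul_rpow hε.le (by positivity), ← Real.rpow_natCast, ← Real.rpow_mul hx.le]
  have h4 : x ^ (1 - a * q) * (ε ^ q * x ^ (a * q)) = ε ^ q * x := by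
    have : x ^ (1 - a * q) * x ^ (a * q) = x := by
      rw [← Real.rpow_add hx]
      simp
    calc x ^ (1 - a * q) * (ε ^ q * x ^ (a * q)) = ε ^ q * (x ^ (1 - a * q) * x ^ (a * q)) := by ring
      _ = ε ^ q * x := by rw [this]
  have h5 : ε ^ q * x ≤ 2 := by
    rw [← h4, ← h3]
    exact (mul_le_mul_of_nonneg_left h1 (Real.rpow_nonneg hx.le _)).trans h2
  have h6 : ε ^ q * ε ^ (-q) = 1 := by
    rw [← Real.rpow_add hε]
    simp
  have h7 : 0 < ε ^ (-q) := Real.rpow_pos_of_pos hε _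
  calc x = (ε ^ q * x) * ε ^ (-q) := by
        rw [mul_comm (ε ^ q) x, mul_assoc, h6, mul_one]
    _ ≤ 2 * ε ^ (-q) := mul_le_mul_of_nonneg_right h5 h7.le

theorem prod_le {q x y : ℝ} (hq : 0 < q) (hx : 0 < x) (hy : 0 ≤ y)
    (hxy : y ≤ x ^ a) : x ^ (1 - a * q) * y ^ q ≤ x := by
  have h1 : y ^ q ≤ x ^ (a * q) := by
    rw [Real.rpow_mul hx.le, Real.rpow_natCast]
    exact Real.rpow_le_rpow hy hxy hq.le
  have h2 : x ^ (1 - a * q) * x ^ (a * q) = x := by
    rw [← Real.rpow_add hx]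
    simp
  calc x ^ (1 - a * q) * y ^ q ≤ x ^ (1 - a * q) * x ^ (a * q) :=
        mul_le_mul_of_nonneg_left h1 (Real.rpow_nonneg hx.le _)
    _ = x := h2

/-- the estimate at a maximum -/
theorem touch {p q A r ρ : ℝ} {z₀ : ℂ} {V : Set ℂ} (hp : 0 ≤ p) (hq : 0 < q)
    (hu : LogSubharmonic u V)
    (hv : LogSubharmonic (fun w => v w * Real.exp (-(κ * A ^ 2 * ‖w‖ ^ 2))) V)
    (hρ : 0 < ρ) (hV : closedBall z₀ ρ ⊆ V) (hr : closedBall z₀ ρ ⊆ ball 0 r)
    (hρ2 : 4 * r * ρ ≤ r ^ 2 - ‖z₀‖ ^ 2) (hpos : ∀ z ∈ closedBall z₀ ρ, 0 < u z ∧ 0 < v z)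
    (hmax : ∀ z ∈ closedBall z₀ ρ, u z ^ p * v z ^ q * (r ^ 2 - ‖z‖ ^ 2) ≤
      u z₀ ^ p * v z₀ ^ q * (r ^ 2 - ‖z₀‖ ^ 2)) :
    q * κ * A ^ 2 * (r ^ 2 - ‖z₀‖ ^ 2) ^ 2 ≤ 9 * r ^ 2 := by
  have hz₀ : z₀ ∈ closedBall z₀ ρ := mem_closedBall_self hρ.le
  have hz₀r : ‖z₀‖ < r := mem_ball_zero_iff.1 (hr hz₀)
  have hr0 : 0 < r := (norm_nonneg _).trans_lt hz₀r
  set P : ℝ := r ^ 2 - ‖z₀‖ ^ 2 with hP
  have hP0 : 0 < P := by
    have := pow_lt_pow_left₀ hz₀r (norm_nonneg _) two_ne_zero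
    linarith
  have hPr : P ≤ r ^ 2 := by
    have := sq_nonneg ‖z₀‖
    linarith
  have hcu : ContinuousOn u (sphere z₀ |ρ|) := by
    rw [abs_of_pos hρ]
    exact hu.cont.mono (sphere_subset_closedBall.trans hV)
  have hcv : ContinuousOn v (sphere z₀ |ρ|) := by
    rw [abs_of_pos hρ]
    have h1 := hv.cont.mono (sphere_subset_closedBall.trans hV)
    have h2 : ContinuousOn (fun w : ℂ => v w * Real.exp (-(κ * A ^ 2 * ‖w‖ ^ 2)) *
        Real.exp (κ * A ^ 2 * ‖w‖ ^ 2)) (sphere z₀ ρ) := h1.mul (by fun_prop)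
    refine h2.congr fun w _ => ?_
    simp only
    rw [mul_assoc, ← Real.exp_add, neg_add_cancel, Real.exp_zero, mul_one]
  have hsp : ∀ z ∈ sphere z₀ |ρ|, z ∈ closedBall z₀ ρ := fun z hz => by
    rw [abs_of_pos hρ] at hz
    exact sphere_subset_closedBall hz
  have hiu : CircleIntegrable (fun z => Real.log (u z)) z₀ ρ :=
    (hcu.log fun z hz => (hpos z (hsp z hz)).1.ne').circleIntegrable'
  have hiv : CircleIntegrable (fun z => Real.log (v z)) z₀ ρ :=
    (hcv.log fun z hz => (hpos z (hsp z hz)).2.ne').circleIntegrable'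
  have hisq : CircleIntegrable (fun z : ℂ => ‖z - 0‖ ^ 2) z₀ ρ := by
    apply ContinuousOn.circleIntegrable'
    fun_prop
  have h1 := hu.mean_log hρ hV fun z hz => (hpos z hz).1
  have h2 := hv.mean_log hρ hV fun z hz => mul_pos (hpos z hz).2 (Real.exp_pos _)
  have h3 : circleAverage (fun z => Real.log (v z * Real.exp (-(κ * A ^ 2 * ‖z‖ ^ 2)))) z₀ ρ =
      circleAverage (fun z => Real.log (v z)) z₀ ρ - κ * A ^ 2 * (‖z₀‖ ^ 2 + ρ ^ 2) := by
    have e1 : circleAverage (fun z => Real.log (v z * Real.exp (-(κ * A ^ 2 * ‖z‖ ^ 2)))) z₀ ρ =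
        circleAverage (fun z => Real.log (v z) + (-(κ * A ^ 2)) • ‖z - 0‖ ^ 2) z₀ ρ := by
      apply Real.circleAverage_congr_sphere
      intro z hz
      simp only [sub_zero, smul_eq_mul]
      rw [Real.log_mul (hpos z (hsp z hz)).2.ne' (Real.exp_pos _).ne', Real.log_exp]
      ring
    have hi2 : CircleIntegrable (fun z : ℂ => (-(κ * A ^ 2)) • ‖z - 0‖ ^ 2) z₀ ρ :=
      hisq.const_fun_smul
    rw [e1, Real.circleAverage_fun_add hiv hi2, Real.circleAverage_fun_smul, circleAverage_sq hρ,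
      sub_zero, smul_eq_mul]
    ring
  rw [h3, Real.log_mul (hpos z₀ hz₀).2.ne' (Real.exp_pos _).ne', Real.log_exp] at h2
  -- the upper bound on the circle
  have h4 : ∀ z ∈ sphere z₀ |ρ|, p * Real.log (u z) + q * Real.log (v z) ≤
      (p * Real.log (u z₀) + q * Real.log (v z₀) - ‖z₀‖ ^ 2 / P + 8 * r ^ 2 * ρ ^ 2 / P ^ 2) +
        (1 / P) • ‖z - 0‖ ^ 2 := by
    intro z hz
    have hzc := hsp z hz
    rw [abs_of_pos hρ, mem_sphere, dist_eq_norm] at hz
    have hzr : ‖z‖ < r := mem_ball_zero_iff.1 (hr hzc)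
    set Q : ℝ := r ^ 2 - ‖z‖ ^ 2 with hQ
    have hQ0 : 0 < Q := by
      have := pow_lt_pow_left₀ hzr (norm_nonneg _) two_ne_zero
      linarith
    have e1 := hmax z hzc
    have hu1 := (hpos z hzc).1
    have hv1 := (hpos z hzc).2
    have hu2 := (hpos z₀ hz₀).1
    have hv2 := (hpos z₀ hz₀).2
    have e2 := Real.log_le_log (mul_pos (mul_pos (Real.rpow_pos_of_pos hu1 p)
      (Real.rpow_pos_of_pos hv1 q)) hQ0) e1
    rw [Real.log_mul (mul_pos (Real.rpow_pos_of_pos hu1 p) (Real.rpow_pos_of_pos hv1 q)).ne' hQ0.ne',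
      Real.log_mul (Real.rpow_pos_of_pos hu1 p).ne' (Real.rpow_pos_of_pos hv1 q).ne',
      Real.log_rpow hu1, Real.log_rpow hv1,
      Real.log_mul (mul_pos (Real.rpow_pos_of_pos hu2 p) (Real.rpow_pos_of_pos hv2 q)).ne' hP0.ne',
      Real.log_mul (Real.rpow_pos_of_pos hu2 p).ne' (Real.rpow_pos_of_pos hv2 q).ne',
      Real.log_rpow hu2, Real.log_rpow hv2] at e2
    -- `log P - log Q`
    set x : ℝ := (‖z‖ ^ 2 - ‖z₀‖ ^ 2) / P with hx
    have e3 : |‖z‖ ^ 2 - ‖z₀‖ ^ 2| ≤ 2 * r * ρ := by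
      have e4 : ‖z‖ ^ 2 - ‖z₀‖ ^ 2 = (‖z‖ + ‖z₀‖) * (‖z‖ - ‖z₀‖) := by ring
      have e5 : |‖z‖ - ‖z₀‖| ≤ ρ := by
        rw [← hz]
        exact abs_norm_sub_norm_le z z₀
      rw [e4, abs_mul, abs_of_nonneg (by positivity)]
      exact mul_le_mul (by linarith) e5 (abs_nonneg _) (by positivity)
    have e6 : |x| ≤ 2 * r * ρ / P := by
      rw [hx, abs_div, abs_of_pos hP0]
      exact div_le_div_of_nonneg_right e3 hP0.le
    have e7 : |x| ≤ 1 / 2 := by
      refine e6.trans ?_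
      rw [div_le_iff₀ hP0]
      linarith
    have e8 : Q = P * (1 - x) := by
      rw [hx, hQ]
      field_simp
      rw [hP]
      ring
    have e9 : 0 < 1 - x := by
      have := (abs_le.1 e7).2
      linarith
    have e10 : Real.log Q = Real.log P + Real.log (1 - x) := by
      rw [e8, Real.log_mul hP0.ne' e9.ne']
    have e11 : -x - 2 * x ^ 2 ≤ Real.log (1 - x) := by
      refine le_trans ?_ (Real.one_sub_inv_le_log_of_pos e9)
      have e12 : 1 - (1 - x)⁻¹ = -x - x ^ 2 / (1 - x) := by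
        field_simp
        ring
      rw [e12]
      have e13 : x ^ 2 / (1 - x) ≤ 2 * x ^ 2 := by
        rw [div_le_iff₀ e9]
        have := (abs_le.1 e7).2
        nlinarith [sq_nonneg x]
      linarith
    have e14 : x ^ 2 ≤ 4 * r ^ 2 * ρ ^ 2 / P ^ 2 := by
      have := pow_le_pow_left₀ (abs_nonneg x) e6 2
      rw [sq_abs] at this
      refine this.trans (le_of_eq ?_)
      ring
    have e15 : x = 1 / P * ‖z‖ ^ 2 - ‖z₀‖ ^ 2 / P := by
      rw [hx]
      ring
    have e16 : 8 * r ^ 2 * ρ ^ 2 / P ^ 2 = 2 * (4 * r ^ 2 * ρ ^ 2 / P ^ 2) := by ring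
    rw [sub_zero, smul_eq_mul, e16]
    linarith
  have hi3 : CircleIntegrable (fun z => p • Real.log (u z)) z₀ ρ := hiu.const_fun_smul
  have hi4 : CircleIntegrable (fun z => q • Real.log (v z)) z₀ ρ := hiv.const_fun_smul
  have hi5 : CircleIntegrable (fun z : ℂ => (1 / P) • ‖z - 0‖ ^ 2) z₀ ρ := hisq.const_fun_smul
  have h5 := Real.circleAverage_mono (hi3.add hi4)
    ((circleIntegrable_const (p * Real.log (u z₀) + q * Real.log (v z₀) - ‖z₀‖ ^ 2 / P +
      8 * r ^ 2 * ρ ^ 2 / P ^ 2) z₀ ρ).add hi5) (fun z hz => by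
      simpa [smul_eq_mul] using h4 z hz)
  rw [Real.circleAverage_add hi3 hi4, Real.circleAverage_add (circleIntegrable_const _ _ _) hi5,
    Real.circleAverage_fun_smul, Real.circleAverage_fun_smul, Real.circleAverage_fun_smul,
    Real.circleAverage_const, circleAverage_sq hρ, sub_zero, smul_eq_mul, smul_eq_mul,
    smul_eq_mul] at h5
  have h6 : p * Real.log (u z₀) ≤ p * circleAverage (fun z => Real.log (u z)) z₀ ρ :=
    mul_le_mul_of_nonneg_left h1 hp
  have h7 : q * (Real.log (v z₀) + -(κ * A ^ 2 * ‖z₀‖ ^ 2)) ≤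
      q * (circleAverage (fun z => Real.log (v z)) z₀ ρ - κ * A ^ 2 * (‖z₀‖ ^ 2 + ρ ^ 2)) :=
    mul_le_mul_of_nonneg_left h2 hq.le
  have h8 : q * κ * A ^ 2 * ρ ^ 2 ≤ ρ ^ 2 / P + 8 * r ^ 2 * ρ ^ 2 / P ^ 2 := by
    have e1 : 1 / P * (‖z₀‖ ^ 2 + ρ ^ 2) = ‖z₀‖ ^ 2 / P + ρ ^ 2 / P := by ring
    rw [e1] at h5
    nlinarith
  have h9 : ρ ^ 2 / P ≤ r ^ 2 * ρ ^ 2 / P ^ 2 := by
    rw [div_le_div_iff₀ hP0 (by positivity)]
    have : ρ ^ 2 * P ^ 2 = ρ ^ 2 * P * P := by ring
    rw [this]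
    have e2 : r ^ 2 * ρ ^ 2 * P = ρ ^ 2 * P * r ^ 2 := by ring
    rw [e2]
    exact mul_le_mul_of_nonneg_left hPr (by positivity)
  have h10 : q * κ * A ^ 2 * ρ ^ 2 ≤ 9 * r ^ 2 * ρ ^ 2 / P ^ 2 := by
    have e1 : 9 * r ^ 2 * ρ ^ 2 / P ^ 2 = r ^ 2 * ρ ^ 2 / P ^ 2 + 8 * r ^ 2 * ρ ^ 2 / P ^ 2 := by ring
    rw [e1]
    linarith
  rw [le_div_iff₀ (by positivity)] at h10
  have h11 : q * κ * A ^ 2 * P ^ 2 * ρ ^ 2 ≤ 9 * r ^ 2 * ρ ^ 2 := by
    calc q * κ * A ^ 2 * P ^ 2 * ρ ^ 2 = q * κ * A ^ 2 * ρ ^ 2 * P ^ 2 := by ring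
      _ ≤ _ := h10
  exact le_of_mul_le_mul_right h11 (by positivity)

/-- **the Ahlfors-Schwarz lemma** with an exceptional region -/
theorem WData.ahlfors (h : WData a C κ ε u v) (hκ : 0 < κ) (hε : 0 < ε) {q q' r : ℝ} (hr : 0 < r)
    (hq : 0 < q) (hq' : 0 < q') (haq' : a * q' < 1)
    (hm : ∀ z ∈ ball (0 : ℂ) r, u z ^ (1 - a * q) * v z ^ q ≤ 2) :
    ∀ z ∈ ball (0 : ℂ) r, u z ^ (1 - a * q') * v z ^ q' * (r ^ 2 - ‖z‖ ^ 2) ≤
      max (4 * r / √(q' * κ)) (2 * ε ^ (-q) * r ^ 2) := by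
  set p' : ℝ := 1 - a * q' with hp'
  have hp'0 : 0 < p' := by linarith
  set f : ℂ → ℝ := fun z => u z ^ p' * v z ^ q' * (r ^ 2 - ‖z‖ ^ 2) with hf
  have hfc : Continuous f := by
    rw [hf]
    have h1 := h.cu.rpow_const fun _ => Or.inr hp'0.le
    have h2 := h.cv.rpow_const fun _ => Or.inr hq'.le
    exact (h1.mul h2).mul (by fun_prop)
  obtain ⟨z₀, hz₀, hmax⟩ := (isCompact_closedBall (0 : ℂ) r).exists_isMaxOn
    ⟨0, mem_closedBall_self hr.le⟩ hfc.continuousOn
  have hmx : ∀ z ∈ closedBall (0 : ℂ) r, f z ≤ f z₀ := fun z hz => hmax hz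
  suffices hs : f z₀ ≤ max (4 * r / √(q' * κ)) (2 * ε ^ (-q) * r ^ 2) from
    fun z hz => (hmx z (ball_subset_closedBall hz)).trans hs
  by_cases hf0 : f z₀ ≤ 0
  · exact hf0.trans (le_max_of_le_left (by positivity))
  push Not at hf0
  have hun := Real.rpow_nonneg (h.u0 z₀) p'
  have hvn := Real.rpow_nonneg (h.v0 z₀) q'
  have hP : 0 < r ^ 2 - ‖z₀‖ ^ 2 := by
    by_contra hcon
    push Not at hcon
    have : f z₀ ≤ 0 := mul_nonpos_of_nonneg_of_nonpos (mul_nonneg hun hvn) hcon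
    linarith
  have hu : 0 < u z₀ := by
    rcases (h.u0 z₀).eq_or_lt with h1 | h1
    · exfalso
      have : f z₀ = 0 := by
        rw [hf]
        simp only
        rw [← h1, Real.zero_rpow hp'0.ne', zero_mul, zero_mul]
      linarith
    · exact h1
  have hv : 0 < v z₀ := by
    rcases (h.v0 z₀).eq_or_lt with h1 | h1
    · exfalso
      have : f z₀ = 0 := by
        rw [hf]
        simp only
        rw [← h1, Real.zero_rpow hq'.ne', mul_zero, zero_mul]
      linarith
    · exact h1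
  have hz₀r : ‖z₀‖ < r := by
    by_contra hcon
    push Not at hcon
    have := pow_le_pow_left₀ hr.le hcon 2
    linarith
  set P : ℝ := r ^ 2 - ‖z₀‖ ^ 2 with hPdef
  have hPr : P ≤ r ^ 2 := by
    have := sq_nonneg ‖z₀‖
    linarith
  have hfu : f z₀ ≤ u z₀ * P :=
    mul_le_mul_of_nonneg_right (prod_le hq' hu hv.le (h.le z₀)) hP.le
  rcases le_or_gt (ε * u z₀ ^ a) (v z₀) with hfar | hnear
  · have h1 := far_bound hε hq hu hfar (hm z₀ (mem_ball_zero_iff.2 hz₀r))
    refine le_max_of_le_right (hfu.trans ?_)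
    exact mul_le_mul h1 hPr hP.le (by positivity)
  · refine le_max_of_le_left ?_
    by_contra hcon
    push Not at hcon
    have h1 : 4 * r / √(q' * κ) / P < u z₀ := by
      rw [div_lt_iff₀ hP]
      exact hcon.trans_le hfu
    obtain ⟨A, hA1, hA2⟩ := exists_between h1
    have hA0 : 0 < A := lt_trans (by positivity) hA1
    obtain ⟨V1, hV1, hzV1, hs1⟩ := h.sub z₀
    obtain ⟨V2, hV2, hzV2, hs2⟩ := h.near z₀ A hA0.le (Or.inl hA2) hnear
    have hO : IsOpen (V1 ∩ V2 ∩ ({z | 0 < u z} ∩ {z | 0 < v z}) ∩ ball (0 : ℂ) r) :=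
      ((hV1.inter hV2).inter ((isOpen_lt continuous_const h.cu).inter
        (isOpen_lt continuous_const h.cv))).inter isOpen_ball
    obtain ⟨ρ₀, hρ₀, hρb⟩ := Metric.isOpen_iff.1 hO z₀
      ⟨⟨⟨hzV1, hzV2⟩, hu, hv⟩, mem_ball_zero_iff.2 hz₀r⟩
    obtain ⟨ρ, hρ1, hρ2⟩ := exists_between (lt_min hρ₀ (show 0 < P / (4 * r) by positivity))
    have hρ3 : ρ < ρ₀ := hρ2.trans_le (min_le_left _ _)
    have hρ4 : ρ < P / (4 * r) := hρ2.trans_le (min_le_right _ _)
    have hsub := (closedBall_subset_ball hρ3).trans hρb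
    have h2 := touch (κ := κ) (p := p') (q := q') (A := A) (r := r) hp'0.le hq'
      (hs1.mono (W := V1 ∩ V2) fun z hz => hz.1)
      (hs2.mono fun z hz => hz.2) hρ1 (fun z hz => (hsub hz).1.1) (fun z hz => (hsub hz).2)
      (by
        rw [lt_div_iff₀ (by positivity)] at hρ4
        linarith) (fun z hz => (hsub hz).1.2)
      (fun z hz => hmx z (ball_subset_closedBall (hsub hz).2))
    rw [div_div, div_lt_iff₀ (by positivity)] at hA1
    have h3 : 4 * r < A * P * √(q' * κ) := by linarith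
    have h4 := pow_lt_pow_left₀ h3 (by positivity) two_ne_zero
    have h5 : (A * P * √(q' * κ)) ^ 2 = q' * κ * A ^ 2 * P ^ 2 := by
      rw [mul_pow, Real.sq_sqrt (by positivity)]
      ring
    rw [h5] at h4
    nlinarith

/-- the constant -/
noncomputable def K3 (κ ε q : ℝ) : ℝ := 2 * max 1 (max (4 / √κ) (2 * ε ^ (-q)))

theorem K3_ge {q : ℝ} : 2 ≤ K3 κ ε q := by
  have : (1 : ℝ) ≤ max 1 (max (4 / √κ) (2 * ε ^ (-q))) := le_max_left _ _
  unfold K3
  linarith

theorem WData.star (h : WData a C κ ε u v) (hκ : 0 < κ) (hε : 0 < ε) {q r : ℝ} (hr : 1 ≤ r)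
    (hq : 0 < q) (har : a * (1 / r ^ 2) < 1)
    (hm : ∀ z ∈ ball (0 : ℂ) r, u z ^ (1 - a * q) * v z ^ q ≤ 2) {z : ℂ} (hz : ‖z‖ ≤ r / 2) :
    u z ^ (1 - a * (1 / r ^ 2)) * v z ^ (1 / r ^ 2) ≤ K3 κ ε q := by
  have hr0 : 0 < r := by linarith
  have h1 := h.ahlfors hκ hε hr0 hq (q' := 1 / r ^ 2) (by positivity) har hm z
    (mem_ball_zero_iff.2 (by linarith))
  have h2 : 4 * r / √(1 / r ^ 2 * κ) = 4 / √κ * r ^ 2 := by
    rw [Real.sqrt_mul (by positivity), Real.sqrt_div zero_le_one, Real.sqrt_one,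
      Real.sqrt_sq hr0.le]
    field_simp
  rw [h2, ← max_mul_of_nonneg _ _ (sq_nonneg r)] at h1
  set w : ℝ := u z ^ (1 - a * (1 / r ^ 2)) * v z ^ (1 / r ^ 2) with hw
  have hw0 : 0 ≤ w := mul_nonneg (Real.rpow_nonneg (h.u0 z) _) (Real.rpow_nonneg (h.v0 z) _)
  have h3 : r ^ 2 / 2 ≤ r ^ 2 - ‖z‖ ^ 2 := by
    have := pow_le_pow_left₀ (norm_nonneg z) hz 2
    nlinarith
  have h4 : w * (r ^ 2 / 2) ≤ max (4 / √κ) (2 * ε ^ (-q)) * r ^ 2 :=
    (mul_le_mul_of_nonneg_left h3 hw0).trans h1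
  have h5 : w / 2 * r ^ 2 ≤ max (4 / √κ) (2 * ε ^ (-q)) * r ^ 2 := by
    have : w / 2 * r ^ 2 = w * (r ^ 2 / 2) := by ring
    rwa [this]
  have h6 := le_of_mul_le_mul_right h5 (by positivity)
  have h7 : max (4 / √κ) (2 * ε ^ (-q)) ≤ max 1 (max (4 / √κ) (2 * ε ^ (-q))) := le_max_right _ _
  unfold K3
  linarith

theorem WData.value_ge (h : WData a C κ ε u v) (hκ : 0 < κ) (hε : 0 < ε) {q r : ℝ} (hr : 1 ≤ r)
    (hq : 0 < q) (haq : a * q < 1) (har : a * (1 / r ^ 2) < 1) (hqr : 2 ≤ q * r ^ 2)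
    (hm : ∀ z ∈ ball (0 : ℂ) r, u z ^ (1 - a * q) * v z ^ q ≤ 2)
    (h0 : 1 ≤ u 0 ^ (1 - a * q) * v 0 ^ q) :
    Real.exp (-(2 * Real.log (K3 κ ε q) / q)) ≤ v 0 := by
  have hr0 : 0 < r := by linarith
  have h1 := h.star hκ hε hr hq har hm (z := 0) (by rw [norm_zero]; positivity)
  have hp : 0 < 1 - a * q := by linarith
  have hu : 0 < u 0 := by
    rcases (h.u0 0).eq_or_lt with e | e
    · rw [← e, Real.zero_rpow hp.ne', zero_mul] at h0
      linarith
    · exact e
  have hv : 0 < v 0 := by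
    rcases (h.v0 0).eq_or_lt with e | e
    · rw [← e, Real.zero_rpow hq.ne', mul_zero] at h0
      linarith
    · exact e
  set U : ℝ := Real.log (u 0) with hU
  set W : ℝ := Real.log (v 0) with hW
  have e1 : 0 ≤ (1 - a * q) * U + q * W := by
    have := Real.log_le_log one_pos h0
    rwa [Real.log_one, Real.log_mul (Real.rpow_pos_of_pos hu _).ne' (Real.rpow_pos_of_pos hv _).ne',
      Real.log_rpow hu, Real.log_rpow hv] at this
  have e2 : (1 - a * (1 / r ^ 2)) * U + 1 / r ^ 2 * W ≤ Real.log (K3 κ ε q) := by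
    have := Real.log_le_log (mul_pos (Real.rpow_pos_of_pos hu _) (Real.rpow_pos_of_pos hv _)) h1
    rwa [Real.log_mul (Real.rpow_pos_of_pos hu _).ne' (Real.rpow_pos_of_pos hv _).ne',
      Real.log_rpow hu, Real.log_rpow hv] at this
  have e3 : W ≤ a * U := by
    have := Real.log_le_log hv (h.le 0)
    rwa [Real.log_pow] at this
  have e4 : 1 / r ^ 2 ≤ q / 2 := by
    rw [div_le_div_iff₀ (by positivity) two_pos]
    linarith
  set T : ℝ := a * U - W with hT
  have hT0 : 0 ≤ T := by linarith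
  have e5 : q * T ≤ U := by
    rw [hT]
    linarith
  have e6 : U - 1 / r ^ 2 * T ≤ Real.log (K3 κ ε q) := by
    rw [hT]
    linarith
  have e7 : 1 / r ^ 2 * T ≤ q / 2 * T := mul_le_mul_of_nonneg_right e4 hT0
  have e8 : T ≤ 2 * Real.log (K3 κ ε q) / q := by
    rw [le_div_iff₀ hq]
    linarith
  have e9 : 0 ≤ U := by
    have : 0 ≤ q * T := by positivity
    linarith
  have e10 : -(2 * Real.log (K3 κ ε q) / q) ≤ W := by
    have : 0 ≤ a * U := by positivity
    linarith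
  rw [← Real.log_le_log_iff (Real.exp_pos _) hv, Real.log_exp]
  exact e10

/-- the second function is locally subharmonic -/
theorem WData.subAt (h : WData a C κ ε u v) (hC : 0 ≤ C) (hε : 0 < ε) {q r : ℝ} (hq : 0 < q)
    (hm : ∀ z ∈ ball (0 : ℂ) r, u z ^ (1 - a * q) * v z ^ q ≤ 2) {δ : ℝ} (hδ : 0 < δ)
    {z : ℂ} (hz : z ∈ ball (0 : ℂ) r) :
    SubAt (fun w => Real.log (max (v w * Real.exp (C * (4 * ε ^ (-q)) ^ 2 * ‖w‖ ^ 2)) δ)) z := by
  have hK : 0 < ε ^ (-q) := Real.rpow_pos_of_pos hε _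
  rcases le_or_gt (ε * u z ^ a) (v z) with hfar | hnear
  · have hu : u z < 4 * ε ^ (-q) := by
      rcases (h.u0 z).eq_or_lt with e | e
      · rw [← e]
        positivity
      · have := far_bound hε hq e hfar (hm z hz)
        linarith
    obtain ⟨V, hV, hzV, hs⟩ := h.far z _ hu
    exact hs.subAt hV hzV hδ
  · obtain ⟨V, hV, hzV, hs⟩ := h.near z 0 le_rfl (Or.inr rfl) hnear
    have e1 : (fun w => v w * Real.exp (-(κ * 0 ^ 2 * ‖w‖ ^ 2))) = v := by
      funext w
      simp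
    rw [e1] at hs
    exact (hs.mul_exp (c := C * (4 * ε ^ (-q)) ^ 2) (by positivity)).subAt hV hzV hδ

/-- **The bound of the lengths.** -/
theorem WData.bounded (h : WData a C κ ε u v) (hC : 0 ≤ C) (hκ : 0 < κ) (hε : 0 < ε) {q r : ℝ}
    (hr : 1 ≤ r) (hq : 0 < q) (haq : a * q < 1) (har : a * (1 / r ^ 2) ≤ 1 / 4)
    (hqr : 2 ≤ q * r ^ 2)
    (hm : ∀ z ∈ ball (0 : ℂ) r, u z ^ (1 - a * q) * v z ^ q ≤ 2)
    (h0 : 1 ≤ u 0 ^ (1 - a * q) * v 0 ^ q) {w : ℂ} (hw : ‖w‖ ≤ r / 4) :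
    u w ≤ Real.exp (3 * (4 * Real.log (K3 κ ε q) + C * (4 * ε ^ (-q)) ^ 2 +
      4 * (2 * Real.log (K3 κ ε q) / q))) := by
  have hr0 : 0 < r := by linarith
  set k : ℝ := Real.log (K3 κ ε q) with hk
  have hk0 : 0 < k := Real.log_pos (by linarith [K3_ge (κ := κ) (ε := ε) (q := q)])
  set lb : ℝ := 2 * k / q with hlb
  have hlb0 : 0 ≤ lb := by positivity
  set b : ℝ := Real.exp (-lb) with hb
  have hb1 : b ≤ 1 := Real.exp_le_one_iff.2 (by linarith)
  have hvb : b ≤ v 0 := h.value_ge hκ hε hr hq haq (by linarith) hqr hm h0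
  set c : ℝ := C * (4 * ε ^ (-q)) ^ 2 with hc
  have hc0 : 0 ≤ c := by positivity
  set t : ℝ := r / 2 with ht
  have ht0 : 0 < t := by positivity
  have hsub : ball (0 : ℂ) t ⊆ ball 0 r := ball_subset_ball (by linarith)
  set q' : ℝ := 1 / r ^ 2 with hq'
  have hq'0 : 0 < q' := by positivity
  have hq't : q' * t ^ 2 = 1 / 4 := by
    rw [hq', ht]
    field_simp
    norm_num
  have hq'1 : q' ≤ 1 := by
    rw [hq', div_le_one (by positivity)]
    exact one_le_pow₀ hr
  -- the function `log⁺ u`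
  set W : ℂ → ℝ := fun z => Real.log (max (u z) 1) with hW
  have hWc : Continuous W :=
    Continuous.log (h.cu.max continuous_const) fun z => (one_pos.trans_le (le_max_right _ _)).ne'
  have hW0 : ∀ z, 0 ≤ W z := fun z => Real.log_nonneg (le_max_right _ _)
  have hWs : ∀ z, SubAt W z := fun z => by
    obtain ⟨V, hV, hzV, hs⟩ := h.sub z
    exact hs.subAt hV hzV one_pos
  have hWi : CircleIntegrable W 0 t := hWc.continuousOn.circleIntegrable'
  obtain ⟨M, hM⟩ := (isCompact_closedBall (0 : ℂ) t).exists_bound_of_continuousOn hWc.continuousOn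
  have hM0 : 0 ≤ M := (norm_nonneg _).trans (hM 0 (mem_closedBall_self ht0.le))
  set X : ℝ := circleAverage W 0 t with hX
  have hX0 : 0 ≤ X := by
    have := Real.circleAverage_mono (circleIntegrable_const (0 : ℝ) 0 t) hWi
      (fun z _ => hW0 z)
    rwa [Real.circleAverage_const] at this
  set Y : ℝ := lb + c * t ^ 2 + a * X with hY
  have hY0 : 0 ≤ Y := by positivity
  -- the main inequality
  have key : ∀ θ : ℝ, 0 < θ → X ≤ 2 * k + (2 * q' + θ) * Y := by
    intro θ hθ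
    set δ : ℝ := Real.exp (-(M / θ + lb + 1)) with hδ
    have hδ0 : 0 < δ := Real.exp_pos _
    have hMθ : 0 ≤ M / θ := by positivity
    have hδb : δ ≤ b := Real.exp_le_exp.2 (by linarith)
    have hδ1 : δ ≤ 1 := hδb.trans hb1
    have hlogδ : Real.log δ = -(M / θ + lb + 1) := Real.log_exp _
    set ℓ : ℂ → ℝ := fun z => Real.log (max (v z) δ) with hℓ
    have hℓp : ∀ z, 0 < max (v z) δ := fun z => hδ0.trans_le (le_max_right _ _)
    have hℓc : Continuous ℓ :=
      Continuous.log (h.cv.max continuous_const) fun z => (hℓp z).ne'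
    have hℓi : CircleIntegrable ℓ 0 t := hℓc.continuousOn.circleIntegrable'
    -- the mean of `ℓ`
    have e1 : -lb - c * t ^ 2 ≤ circleAverage ℓ 0 t := by
      have hcont : Continuous fun z => Real.log (max (v z * Real.exp (c * ‖z‖ ^ 2)) δ) := by
        apply Continuous.log
        · exact (h.cv.mul (by fun_prop)).max continuous_const
        · exact fun z => (hδ0.trans_le (le_max_right _ _)).ne'
      have f1 := mean_of_local ht0 hcont.continuousOn fun z hz =>
        h.subAt hC hε hq hm hδ0 (hsub hz)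
      have f2 : Real.log b ≤ Real.log (max (v 0 * Real.exp (c * ‖(0 : ℂ)‖ ^ 2)) δ) := by
        apply Real.log_le_log (Real.exp_pos _)
        apply le_max_of_le_left
        rw [norm_zero]
        simpa using hvb
      have f3 := Real.circleAverage_mono hcont.continuousOn.circleIntegrable'
        ((circleIntegrable_const (c * t ^ 2) 0 t).add hℓi) (by
          intro z hz
          rw [abs_of_pos ht0, mem_sphere_zero_iff_norm] at hz
          simp only [Pi.add_apply]
          have f4 : max (v z * Real.exp (c * ‖z‖ ^ 2)) δ ≤ Real.exp (c * t ^ 2) * max (v z) δ := by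
            rw [hz]
            have f5 : 1 ≤ Real.exp (c * t ^ 2) := Real.one_le_exp (by positivity)
            apply max_le
            · rw [mul_comm]
              exact mul_le_mul_of_nonneg_left (le_max_left _ _) (by positivity)
            · calc δ ≤ max (v z) δ := le_max_right _ _
                _ ≤ _ := le_mul_of_one_le_left (hℓp z).le f5
          have f6 := Real.log_le_log (hδ0.trans_le (le_max_right _ _)) f4
          rwa [Real.log_mul (Real.exp_pos _).ne' (hℓp z).ne', Real.log_exp] at f6)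
      rw [Real.circleAverage_add (circleIntegrable_const _ _ _) hℓi, Real.circleAverage_const] at f3
      rw [Real.log_exp] at f2
      linarith
    -- the pointwise inequality
    set L : ℂ → ℝ := fun z => max 0 (-ℓ z) with hL
    have hLc : Continuous L := continuous_const.max hℓc.neg
    have hLi : CircleIntegrable L 0 t := hLc.continuousOn.circleIntegrable'
    have e2 : ∀ z, L z ≤ -ℓ z + a * W z := by
      intro z
      apply max_le
      · have f1 : ℓ z ≤ a * W z := by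
          rw [hℓ, hW]
          simp only
          rw [← Real.log_pow]
          apply Real.log_le_log (hℓp z)
          have f2 : (1 : ℝ) ≤ max (u z) 1 ^ a := one_le_pow₀ (le_max_right _ _)
          apply max_le
          · exact (h.le z).trans (pow_le_pow_left₀ (h.u0 z) (le_max_left _ _) a)
          · exact hδ1.trans f2
        linarith
      · have := mul_nonneg (Nat.cast_nonneg (α := ℝ) a) (hW0 z)
        linarith
    have e3 : circleAverage L 0 t ≤ Y := by
      have hi1 : CircleIntegrable (fun z => (a : ℝ) • W z) 0 t := hWi.const_fun_smul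
      have hi2 : CircleIntegrable (fun z => (-1 : ℝ) • ℓ z) 0 t := hℓi.const_fun_smul
      have f1 := Real.circleAverage_mono hLi (hi2.add hi1) (by
        intro z _
        have := e2 z
        simp only [Pi.add_apply, smul_eq_mul]
        linarith)
      rw [Real.circleAverage_add hi2 hi1, Real.circleAverage_fun_smul,
        Real.circleAverage_fun_smul, smul_eq_mul, smul_eq_mul] at f1
      rw [hY]
      linarith
    have e4 : ∀ z ∈ sphere (0 : ℂ) |t|, W z ≤ 2 * k + (2 * q' + θ) * L z := by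
      intro z hz
      rw [abs_of_pos ht0, mem_sphere_zero_iff_norm] at hz
      have hL0 : 0 ≤ L z := le_max_left _ _
      rcases le_or_gt (u z) 1 with f1 | f1
      · have f2 : W z = 0 := by
          rw [hW]
          simp only
          rw [max_eq_right f1, Real.log_one]
        rw [f2]
        positivity
      rcases le_or_gt δ (v z) with f2 | f2
      · have f3 := h.star hκ hε hr hq (by linarith) hm (z := z) (by rw [hz])
        have hup : 0 < u z := one_pos.trans f1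
        have hvp : 0 < v z := hδ0.trans_le f2
        have f4 := Real.log_le_log (mul_pos (Real.rpow_pos_of_pos hup _)
          (Real.rpow_pos_of_pos hvp _)) f3
        rw [Real.log_mul (Real.rpow_pos_of_pos hup _).ne' (Real.rpow_pos_of_pos hvp _).ne',
          Real.log_rpow hup, Real.log_rpow hvp] at f4
        have f5 : W z = Real.log (u z) := by
          rw [hW]
          simp only
          rw [max_eq_left f1.le]
        have f6 : ℓ z = Real.log (v z) := by
          rw [hℓ]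
          simp only
          rw [max_eq_left f2]
        have f7 : -Real.log (v z) ≤ L z := by
          rw [← f6]
          exact le_max_right _ _
        have f8 : 0 ≤ Real.log (u z) := Real.log_nonneg f1.le
        have f9 : 3 / 4 * Real.log (u z) ≤ (1 - a * q') * Real.log (u z) :=
          mul_le_mul_of_nonneg_right (by linarith) f8
        have f10 : q' * -Real.log (v z) ≤ q' * L z := mul_le_mul_of_nonneg_left f7 hq'0.le
        have f11 : 0 ≤ θ * L z := by positivity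
        have f12 : 0 ≤ q' * L z := by positivity
        rw [f5]
        have f13 : (2 * q' + θ) * L z = 2 * (q' * L z) + θ * L z := by ring
        rw [f13]
        have f14 : 3 / 4 * Real.log (u z) ≤ k + q' * L z := by linarith
        linarith
      · have f3 : ℓ z = -(M / θ + lb + 1) := by
          rw [hℓ]
          simp only
          rw [max_eq_right f2.le, hlogδ]
        have f4 : M / θ ≤ L z := by
          have : -ℓ z ≤ L z := le_max_right _ _
          rw [f3] at this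
          linarith
        have f5 : M ≤ θ * L z := by
          rw [div_le_iff₀ hθ] at f4
          linarith
        have f6 : W z ≤ M := by
          have := hM z (mem_closedBall_zero_iff.2 hz.le)
          rw [Real.norm_eq_abs] at this
          exact (le_abs_self _).trans this
        have f7 : 0 ≤ 2 * q' * L z := by positivity
        nlinarith
    have hi3 : CircleIntegrable (fun z => (2 * q' + θ) • L z) 0 t := hLi.const_fun_smul
    have e5 := Real.circleAverage_mono hWi ((circleIntegrable_const (2 * k) 0 t).add hi3)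
      (fun z hz => by
        have := e4 z hz
        simpa [smul_eq_mul] using this)
    rw [Real.circleAverage_add (circleIntegrable_const _ _ _) hi3, Real.circleAverage_const,
      Real.circleAverage_fun_smul, smul_eq_mul] at e5
    have e6 : (2 * q' + θ) * circleAverage L 0 t ≤ (2 * q' + θ) * Y :=
      mul_le_mul_of_nonneg_left e3 (by positivity)
    linarith
  have key2 : X ≤ 2 * k + 2 * q' * Y := by
    apply le_of_forall_pos_le_add
    intro e he
    have h1 := key (e / (Y + 1)) (by positivity)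
    have h2 : e / (Y + 1) * Y ≤ e := by
      rw [div_mul_eq_mul_div, div_le_iff₀ (by positivity)]
      nlinarith
    have h3 : (2 * q' + e / (Y + 1)) * Y = 2 * q' * Y + e / (Y + 1) * Y := by ring
    rw [h3] at h1
    linarith
  have key3 : X ≤ 4 * k + c + 4 * lb := by
    have h1 : 2 * q' * Y = 2 * q' * lb + 2 * c * (q' * t ^ 2) + 2 * (a * q') * X := by
      rw [hY]
      ring
    rw [h1, hq't] at key2
    have h2 : 2 * (a * q') * X ≤ 1 / 2 * X := mul_le_mul_of_nonneg_right (by linarith) hX0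
    have h3 : 2 * q' * lb ≤ 2 * lb := by nlinarith
    linarith
  have h1 := harnack ht0 hWc.continuousOn (fun z _ => hWs z) (fun z _ => hW0 z) (w := w)
    (mem_ball_zero_iff.2 (by linarith))
  have h2 : (t + ‖w‖) / (t - ‖w‖) ≤ 3 := by
    rw [div_le_iff₀ (by linarith)]
    linarith
  have h3 : W w ≤ 3 * (4 * k + c + 4 * lb) := by
    refine h1.trans ?_
    exact mul_le_mul h2 key3 hX0 (by norm_num)
  have h4 : u w ≤ Real.exp (W w) := by
    rw [hW]
    simp only
    rw [Real.exp_log (one_pos.trans_le (le_max_right _ _))]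
    exact le_max_left _ _
  exact h4.trans (Real.exp_le_exp.2 h3)

end Pool.Agent.H33
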