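import Pool.Agent.H33.NFin
import Pool.Agent.H33.GDefs
import Pool.Agent.H33.Wt

/-! Entire curves and functions which are negatively curved near their zeros. -/

set_option autoImplicit false

open Filter Topology Metric Set MvPolynomial LinearAlgebra.Projectivization

namespace Pool.Agent.H33

open Pool.Agent.Y190.OP Pool.Agent.W602.GT Pool.Agent.N155 Pool.Agent.N155.BB

variable {n : ℕ} {ι ι' : Type} {F : ι → MvPolynomial (Fin (n + 1)) ℂ}
  {G : ι' → MvPolynomial (Fin (n + 1)) ℂ} {d : ℕ}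
  {Φ Ψ : (Fin (n + 1) → ℂ) → (Fin (n + 1) → ℂ) → ℝ} {a : ℕ}

theorem LogSubharmonic.congr {u w : ℂ → ℝ} {V : Set ℂ} (h : LogSubharmonic u V)
    (he : ∀ z ∈ V, w z = u z) : LogSubharmonic w V := by
  refine ⟨h.cont.congr he, fun z hz => by rw [he z hz]; exact h.nonneg z hz,
    fun b r δ hr hV hδ => ?_⟩
  rw [he b (hV (mem_closedBall_self hr.le))]
  refine (h.mean b r δ hr hV hδ).trans (le_of_eq ?_)
  apply Real.circleAverage_congr_sphere
  intro z hz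
  rw [abs_of_pos hr] at hz
  simp only
  rw [he z (hV (sphere_subset_closedBall hz))]

theorem pv_indep' (hX : ProjManifold F d)
    (ht : ∀ x ∈ Cone F, ∀ (v : Fin (n + 1) → ℂ) (c b : ℂ), c ≠ 0 →
      Φ (c • x) (c • (v + b • x)) = Φ x v) {φ : ℂ → Mat (n + 1)}
    (hφ : HolP univ φ) (hφT : ∀ z, φ z ∈ TF F) {i i' : Fin (n + 1)} {t : ℂ}
    (hi : φ t i i ≠ 0) (hi' : φ t i' i' ≠ 0) : pv Φ φ i' t = pv Φ φ i t := by
  have hM := TF_PM (hφT t)
  have hx := chart_i'_ne hM hi hi'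
  obtain ⟨f', hf', hfv⟩ := tr_strict hx
  have hev : ∀ j, φ t j j ≠ 0 → ∀ᶠ s in 𝓝 t, φ s j j ≠ 0 := fun j hj =>
    ((continuous_apply_apply (ρ := fun (_ : Fin (n + 1)) (_ : Fin (n + 1)) => ℂ) j
      j).continuousAt.comp (hφ.continuousAt (mem_univ t))).eventually_ne hj
  have e2 : deriv (fun s => chart i' (φ s)) t = f' (deriv (fun s => chart i (φ s)) t) := by
    have h1 := (an_chart hφ i hi).differentiableAt.hasDerivAt
    have h2 := hf'.hasFDerivAt.comp_hasDerivAt t h1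
    have h3 : (fun s => chart i' (φ s)) =ᶠ[𝓝 t] tr i' ∘ fun s => chart i (φ s) := by
      filter_upwards [hev i hi, hev i' hi'] with s hs hs'
      exact chart_tr (TF_PM (hφT s)) hs hs'
    rw [h3.deriv_eq, h2.deriv]
  unfold pv
  rw [e2, hfv, chart_tr hM hi hi']
  unfold tr
  exact ht _ (chart_cone hX.form (hφT t) hi) _ _ _ (inv_ne_zero hx)

/-- the indices of the charts -/
noncomputable def ix (φ : ℂ → Mat (n + 1)) (t : ℂ) : Fin (n + 1) :=
  open Classical in if h : ∃ i, φ t i i ≠ 0 then h.choose else 0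

theorem ix_ne {φ : ℂ → Mat (n + 1)} (hφT : ∀ z, φ z ∈ TF F) (t : ℂ) : φ t (ix φ t) (ix φ t) ≠ 0 := by
  unfold ix
  have h := PM.exists_diag (TF_PM (hφT t))
  rw [dif_pos h]
  exact h.choose_spec

/-- the length along the curve -/
noncomputable def len (Φ : (Fin (n + 1) → ℂ) → (Fin (n + 1) → ℂ) → ℝ) (φ : ℂ → Mat (n + 1))
    (t : ℂ) : ℝ := pv Φ φ (ix φ t) t

theorem len_eq (hX : ProjManifold F d)
    (ht : ∀ x ∈ Cone F, ∀ (v : Fin (n + 1) → ℂ) (c b : ℂ), c ≠ 0 →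
      Φ (c • x) (c • (v + b • x)) = Φ x v) {φ : ℂ → Mat (n + 1)}
    (hφ : HolP univ φ) (hφT : ∀ z, φ z ∈ TF F) {i : Fin (n + 1)} {t : ℂ} (hi : φ t i i ≠ 0) :
    len Φ φ t = pv Φ φ i t := pv_indep' hX ht hφ hφT hi (ix_ne hφT t)

/-- the data along an entire curve -/
theorem wdata (hX : ProjManifold F d) (hΦ : NonposMetric (Cone F) d Φ)
    (hΨ : NegativeNearZeros (Cone F) d Φ a Ψ) : ∃ C κ ε : ℝ, 0 ≤ C ∧ 0 < κ ∧ 0 < ε ∧
      ∀ φ : ℂ → Mat (n + 1), HolP univ φ → (∀ z, φ z ∈ TF F) →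
        WData a C κ ε (len Φ φ) (len Ψ φ) := by
  obtain ⟨C, hC, hfar⟩ := hΨ.far
  obtain ⟨ε, κ, hε, hκ, hnear⟩ := hΨ.near
  refine ⟨C, κ, ε, hC, hκ, hε, fun φ hφ hφT => ?_⟩
  have hcφ : Continuous φ := continuous_iff_continuousAt.2 fun _ => hφ.continuousAt (mem_univ _)
  have hO : ∀ i, IsOpen {z | φ z i i ≠ 0} := fun i =>
    isOpen_ne_fun ((continuous_apply_apply (ρ := fun (_ : Fin (n + 1)) (_ : Fin (n + 1)) => ℂ) i
      i).comp hcφ) continuous_const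
  have hg : ∀ i, DifferentiableOn ℂ (fun s => chart i (φ s)) {z | φ z i i ≠ 0} := fun i z hz =>
    (an_chart hφ i hz).differentiableAt.differentiableWithinAt
  have hgX : ∀ i, ∀ z ∈ {z | φ z i i ≠ 0}, chart i (φ z) ∈ Cone F := fun i z hz =>
    chart_cone hX.form (hφT z) hz
  have hu : ∀ i, ∀ z ∈ {z | φ z i i ≠ 0}, len Φ φ z = pv Φ φ i z := fun i z hz =>
    len_eq hX hΦ.twist hφ hφT hz
  have hv : ∀ i, ∀ z ∈ {z | φ z i i ≠ 0}, len Ψ φ z = pv Ψ φ i z := fun i z hz =>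
    len_eq hX hΨ.twist hφ hφT hz
  have hsub : ∀ i, LogSubharmonic (len Φ φ) {z | φ z i i ≠ 0} := fun i =>
    (pv_sub hX hΦ hφ hφT i).2.congr (hu i)
  have hcu : Continuous (len Φ φ) := continuous_iff_continuousAt.2 fun z =>
    (hsub (ix φ z)).cont.continuousAt ((hO _).mem_nhds (ix_ne hφT z))
  have hle : ∀ z, 0 ≤ len Ψ φ z ∧ len Ψ φ z ≤ len Φ φ z ^ a := by
    intro z
    have hz := ix_ne hφT z
    exact hΨ.le _ _ (hO (ix φ z)) (hg _) (hgX _) z hz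
  have hfar' : ∀ z A, len Φ φ z < A → ∃ V, IsOpen V ∧ z ∈ V ∧
      LogSubharmonic (fun w => len Ψ φ w * Real.exp (C * A ^ 2 * ‖w‖ ^ 2)) V := by
    intro z A hA
    refine ⟨{w | φ w (ix φ z) (ix φ z) ≠ 0} ∩ {w | len Φ φ w < A},
      (hO _).inter (isOpen_lt hcu continuous_const), ⟨ix_ne hφT z, hA⟩, ?_⟩
    refine (hfar _ _ A ((hO (ix φ z)).inter (isOpen_lt hcu continuous_const))
      ((hg _).mono inter_subset_left) (fun w hw => hgX _ w hw.1) (fun w hw => ?_)).congr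
        fun w hw => ?_
    · have h1 := hu _ w hw.1
      have h2 : len Φ φ w < A := hw.2
      rw [h1] at h2
      exact h2.le
    · rw [hv _ w hw.1]
      rfl
  refine ⟨hcu, ?_, fun z => ?_, fun z => (hle z).1, fun z => (hle z).2, fun z =>
    ⟨_, hO _, ix_ne hφT z, hsub _⟩, hfar', fun z A hA0 hA hz => ?_⟩
  · rw [continuous_iff_continuousAt]
    intro z
    obtain ⟨V, hV, hzV, hs⟩ := hfar' z (len Φ φ z + 1) (lt_add_one _)
    have h1 := hs.cont.continuousAt (hV.mem_nhds hzV)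
    have h2 : ContinuousAt (fun w : ℂ => len Ψ φ w *
        Real.exp (C * (len Φ φ z + 1) ^ 2 * ‖w‖ ^ 2) *
        Real.exp (-(C * (len Φ φ z + 1) ^ 2 * ‖w‖ ^ 2))) z := h1.mul (by fun_prop)
    refine h2.congr (Eventually.of_forall fun w => ?_)
    simp only
    rw [mul_assoc, ← Real.exp_add, add_neg_cancel, Real.exp_zero, mul_one]
  · exact (hsub _).nonneg z (ix_ne hφT z)
  · have hcv : Continuous (len Ψ φ) := by
      rw [continuous_iff_continuousAt]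
      intro z
      obtain ⟨V, hV, hzV, hs⟩ := hfar' z (len Φ φ z + 1) (lt_add_one _)
      have h1 := hs.cont.continuousAt (hV.mem_nhds hzV)
      have h2 : ContinuousAt (fun w : ℂ => len Ψ φ w *
          Real.exp (C * (len Φ φ z + 1) ^ 2 * ‖w‖ ^ 2) *
          Real.exp (-(C * (len Φ φ z + 1) ^ 2 * ‖w‖ ^ 2))) z := h1.mul (by fun_prop)
      refine h2.congr (Eventually.of_forall fun w => ?_)
      simp only
      rw [mul_assoc, ← Real.exp_add, add_neg_cancel, Real.exp_zero, mul_one]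
    have hO2 : IsOpen {w | len Ψ φ w < ε * len Φ φ w ^ a} :=
      isOpen_lt hcv (continuous_const.mul (hcu.pow a))
    have hO3 : ∃ W : Set ℂ, IsOpen W ∧ z ∈ W ∧ ∀ w ∈ W, A ≤ len Φ φ w := by
      rcases hA with hA | hA
      · exact ⟨{w | A < len Φ φ w}, isOpen_lt continuous_const hcu, hA, fun w hw => le_of_lt hw⟩
      · refine ⟨univ, isOpen_univ, mem_univ z, fun w _ => ?_⟩
        rw [hA]
        exact (hsub _).nonneg w (ix_ne hφT w)
    obtain ⟨W, hW, hzW, hWA⟩ := hO3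
    refine ⟨{w | φ w (ix φ z) (ix φ z) ≠ 0} ∩ ({w | len Ψ φ w < ε * len Φ φ w ^ a} ∩ W),
      (hO _).inter (hO2.inter hW), ⟨ix_ne hφT z, hz, hzW⟩, ?_⟩
    refine (hnear _ _ A ((hO (ix φ z)).inter (hO2.inter hW))
      ((hg _).mono inter_subset_left) (fun w hw => hgX _ w hw.1) hA0 (fun w hw => ?_)
      (fun w hw => ?_)).congr fun w hw => ?_
    · have h1 := hu _ w hw.1
      have h2 := hWA w hw.2.2
      rw [h1] at h2
      exact h2
    · have h1 := hu _ w hw.1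
      have h2 := hv _ w hw.1
      have h3 : len Ψ φ w < ε * len Φ φ w ^ a := hw.2.1
      rw [h1, h2] at h3
      exact h3.le
    · rw [hv _ w hw.1]
      rfl

/-- the choice of the points -/
theorem zalcman {m : ℂ → ℝ} (hc : Continuous m) (h0 : ∀ z, 0 ≤ m z) {z₁ : ℂ} (h1 : 0 < m z₁)
    {N : ℝ} (hN : 0 < N) : ∃ z₀ : ℂ, 0 < m z₀ ∧ ∀ w : ℂ, ‖w‖ < N →
      m (z₀ + ((m z₀)⁻¹ : ℝ) * w) ≤ 2 * m z₀ := by
  obtain ⟨R, hR, hRN⟩ : ∃ R : ℝ, 0 < R ∧ 2 * N ≤ R * m z₁ := by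
    refine ⟨2 * N / m z₁, by positivity, ?_⟩
    rw [div_mul_cancel₀ _ h1.ne']
  have hcont : Continuous fun z => (R - ‖z - z₁‖) * m z := by fun_prop
  obtain ⟨z₀, hz₀, hmax⟩ := (isCompact_closedBall z₁ R).exists_isMaxOn
    ⟨z₁, mem_closedBall_self hR.le⟩ hcont.continuousOn
  have hm : ∀ z ∈ closedBall z₁ R, (R - ‖z - z₁‖) * m z ≤ (R - ‖z₀ - z₁‖) * m z₀ :=
    fun z hz => hmax hz
  have h2 : 2 * N ≤ (R - ‖z₀ - z₁‖) * m z₀ := by
    refine hRN.trans ?_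
    have := hm z₁ (mem_closedBall_self hR.le)
    rwa [sub_self, norm_zero, sub_zero] at this
  have h3 : 0 ≤ R - ‖z₀ - z₁‖ := by
    rw [mem_closedBall, dist_eq_norm] at hz₀
    linarith
  have hm0 : 0 < m z₀ := by
    rcases (h0 z₀).eq_or_lt with e | e
    · rw [← e, mul_zero] at h2
      linarith
    · exact e
  refine ⟨z₀, hm0, fun w hw => ?_⟩
  set z : ℂ := z₀ + ((m z₀)⁻¹ : ℝ) * w with hz
  have h4 : ‖z - z₁‖ ≤ ‖z₀ - z₁‖ + (m z₀)⁻¹ * ‖w‖ := by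
    have : z - z₁ = (z₀ - z₁) + ((m z₀)⁻¹ : ℝ) * w := by rw [hz]; ring
    rw [this]
    refine (norm_add_le _ _).trans (le_of_eq ?_)
    rw [norm_mul, Complex.norm_real, Real.norm_of_nonneg (inv_nonneg.2 hm0.le)]
  have h5 : (m z₀)⁻¹ * ‖w‖ ≤ (R - ‖z₀ - z₁‖) / 2 := by
    rw [inv_mul_le_iff₀ hm0]
    nlinarith
  have h6 : (R - ‖z₀ - z₁‖) / 2 ≤ R - ‖z - z₁‖ := by linarith
  have h7 : 0 < R - ‖z₀ - z₁‖ := by
    rcases h3.eq_or_lt with e | e
    · rw [← e, zero_mul] at h2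
      linarith
    · exact e
  have h8 := hm z (by rw [mem_closedBall, dist_eq_norm]; linarith)
  have h9 : (R - ‖z₀ - z₁‖) / 2 * m z ≤ (R - ‖z₀ - z₁‖) * m z₀ :=
    (mul_le_mul_of_nonneg_right h6 (h0 z)).trans h8
  have h10 : (R - ‖z₀ - z₁‖) / 2 * m z ≤ (R - ‖z₀ - z₁‖) / 2 * (2 * m z₀) := by
    refine h9.trans (le_of_eq ?_)
    ring
  exact le_of_mul_le_mul_left h10 (by positivity)

/-- affine changes of the variable -/
theorem len_aff (hX : ProjManifold F d)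
    (ht : ∀ x ∈ Cone F, ∀ (v : Fin (n + 1) → ℂ) (c b : ℂ), c ≠ 0 →
      Φ (c • x) (c • (v + b • x)) = Φ x v)
    (hd : ∀ x ∈ Cone F, ∀ (v : Fin (n + 1) → ℂ) (c : ℂ), c ≠ 0 → Φ x (c • v) = ‖c‖ ^ a * Φ x v)
    {φ : ℂ → Mat (n + 1)} (hφ : HolP univ φ) (hφT : ∀ z, φ z ∈ TF F) {z₀ : ℂ} {ρ : ℝ} (hρ : 0 < ρ)
    (w : ℂ) : len Φ (fun w => φ (aff z₀ ρ w)) w = ρ ^ a * len Φ φ (aff z₀ ρ w) := by
  have hφ' : HolP univ fun w => φ (aff z₀ ρ w) := by
    have := hφ.aff z₀ ρ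
    rwa [preimage_univ] at this
  set z : ℂ := aff z₀ ρ w with hz
  have hi := ix_ne hφT z
  rw [len_eq hX ht hφ' (fun w => hφT _) (i := ix φ z) hi, len_eq hX ht hφ hφT hi]
  unfold pv
  have h1 : HasDerivAt (fun s => chart (ix φ z) (φ s))
      (deriv (fun s => chart (ix φ z) (φ s)) z) z :=
    (an_chart hφ _ hi).differentiableAt.hasDerivAt
  have h2 : HasDerivAt (aff z₀ ρ) (ρ : ℂ) w := by
    unfold aff
    simpa using ((hasDerivAt_id w).const_mul (ρ : ℂ)).const_add z₀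
  have h1' : HasDerivAt (fun s => chart (ix φ z) (φ s))
      (deriv (fun s => chart (ix φ z) (φ s)) z) (aff z₀ ρ w) := h1
  have h3 : deriv (fun s => chart (ix φ z) (φ (aff z₀ ρ s))) w =
      (ρ : ℂ) • deriv (fun s => chart (ix φ z) (φ s)) z :=
    (HasDerivAt.scomp (h := aff z₀ ρ) w h1' h2).deriv
  rw [h3, hd _ (chart_cone hX.form (hφT z) hi) _ _ (by exact_mod_cast hρ.ne'), Complex.norm_real,
    Real.norm_of_nonneg hρ.le]

/-- the lengths of limits -/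
theorem len_tendsto (hX : ProjManifold F d)
    (ht : ∀ x ∈ Cone F, ∀ (v : Fin (n + 1) → ℂ) (c b : ℂ), c ≠ 0 →
      Φ (c • x) (c • (v + b • x)) = Φ x v)
    (hc : ∀ (U : Set (Fin d → ℂ)) (Θ : (Fin d → ℂ) → Fin (n + 1) → ℂ), IsOpen U →
      AnalyticOnNhd ℂ Θ U → (∀ z ∈ U, Θ z ∈ Cone F) →
      ContinuousOn (fun p : (Fin d → ℂ) × (Fin d → ℂ) => Φ (Θ p.1) (fderiv ℂ Θ p.1 p.2))
        (U ×ˢ Set.univ))
    {l : Filter ℕ} {h : ℕ → ℂ → Mat (n + 1)} {H : ℂ → Mat (n + 1)}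
    (hh : ∀ k, HolP univ (h k)) (hhT : ∀ k z, h k z ∈ TF F) (hH : HolP univ H)
    (hHT : ∀ z, H z ∈ TF F) {z : ℂ} (h1 : Tendsto (fun k => h k z) l (𝓝 (H z)))
    (h2 : Tendsto (fun k => fderiv ℝ (h k) z) l (𝓝 (fderiv ℝ H z))) :
    Tendsto (fun k => len Φ (h k) z) l (𝓝 (len Φ H z)) := by
  obtain ⟨i, J, O, U, Θ, hO, hMO, hU, hΘ, hΘX, hloc⟩ := graph_of' hX (hHT z)
  obtain ⟨hi0, hU0, -⟩ := hloc _ hMO
  set ξ : Mat (n + 1) → Fin d → ℂ := fun M k => chart i M (J k) with hξ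
  set ω : Mat (n + 1) → (ℂ →L[ℝ] Mat (n + 1)) → Fin d → ℂ :=
    fun M D k => (fderiv ℝ (chart i) M (D 1)) (J k) with hω
  -- the formula
  have hform : ∀ φ : ℂ → Mat (n + 1), HolP univ φ → (∀ z, φ z ∈ TF F) → φ z ∈ O →
      len Φ φ z = Φ (Θ (ξ (φ z))) (fderiv ℂ Θ (ξ (φ z)) (ω (φ z) (fderiv ℝ φ z))) := by
    intro φ hφ hφT hz
    obtain ⟨hiz, hUz, hgr⟩ := hloc _ hz
    have hcφ : Continuous φ := continuous_iff_continuousAt.2 fun _ => hφ.continuousAt (mem_univ _)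
    have hev : ∀ᶠ s in 𝓝 z, φ s ∈ O := hcφ.continuousAt.eventually (hO.mem_nhds hz)
    have hd := (an_chart hφ i hiz).differentiableAt.hasDerivAt
    have e1 : deriv (fun s => chart i (φ s)) z = fderiv ℝ (chart i) (φ z) (fderiv ℝ φ z 1) := by
      have f1 : HasFDerivAt (fun s => chart i (φ s))
          ((ContinuousLinearMap.toSpanSingleton ℂ
            (deriv (fun s => chart i (φ s)) z)).restrictScalars ℝ) z :=
        hd.hasFDerivAt.restrictScalars ℝ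
      have f2 : HasFDerivAt (fun s => chart i (φ s))
          ((fderiv ℝ (chart i) (φ z)).comp (fderiv ℝ φ z)) z :=
        (((N155.BB.contDiffAt_chart hiz).differentiableAt (by norm_num)).hasFDerivAt).comp z
          (hφ.differentiableAt (mem_univ z)).hasFDerivAt
      have f3 := congrArg (fun L : ℂ →L[ℝ] (Fin (n + 1) → ℂ) => L 1) (f1.unique f2)
      simpa using f3
    have hdξ : HasDerivAt (fun s => ξ (φ s)) (ω (φ z) (fderiv ℝ φ z)) z := by
      have f1 := hasDerivAt_pi.2 fun k => (hasDerivAt_pi.1 hd) (J k)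
      rw [e1] at f1
      exact f1
    have f1 : deriv (fun s => chart i (φ s)) z = fderiv ℂ Θ (ξ (φ z)) (ω (φ z) (fderiv ℝ φ z)) := by
      have h1 := (hΘ _ hUz).differentiableAt.hasFDerivAt.comp_hasDerivAt z hdξ
      have h2 : (fun s => chart i (φ s)) =ᶠ[𝓝 z] Θ ∘ fun s => ξ (φ s) := by
        filter_upwards [hev] with s hs
        exact (hloc _ hs).2.2 (hφT s)
      rw [← h1.deriv, ← h2.deriv_eq]
    rw [len_eq hX ht hφ hφT hiz]
    unfold pv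
    rw [f1, hgr (hφT z)]
  have hev : ∀ᶠ k in l, h k z ∈ O := h1.eventually (hO.mem_nhds hMO)
  have hF := hc U Θ hU hΘ (fun z hz => (hΘX z hz).1)
  have hcξ : ContinuousAt ξ (H z) := by
    rw [continuousAt_pi]
    intro k
    exact (continuous_apply (J k)).continuousAt.comp (continuousAt_chart hi0)
  have hfd : ContinuousAt (fderiv ℝ (chart i)) (H z) :=
    ((N155.BB.contDiffAt_chart hi0).fderiv_right (m := 0) (by norm_num)).continuousAt
  have t1 : Tendsto (fun k => ξ (h k z)) l (𝓝 (ξ (H z))) := hcξ.tendsto.comp h1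
  have t2 : Tendsto (fun k => ω (h k z) (fderiv ℝ (h k) z)) l (𝓝 (ω (H z) (fderiv ℝ H z))) := by
    rw [tendsto_pi_nhds]
    intro k
    have f1 : Tendsto (fun k => fderiv ℝ (chart i) (h k z)) l (𝓝 (fderiv ℝ (chart i) (H z))) :=
      hfd.tendsto.comp h1
    have f2 : Tendsto (fun k => (fderiv ℝ (h k) z) 1) l (𝓝 ((fderiv ℝ H z) 1)) :=
      ((ContinuousLinearMap.apply ℝ (Mat (n + 1)) (1 : ℂ)).continuous.tendsto _).comp h2
    have f3 : Tendsto (fun k => (fderiv ℝ (chart i) (h k z)) ((fderiv ℝ (h k) z) 1)) l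
        (𝓝 ((fderiv ℝ (chart i) (H z)) ((fderiv ℝ H z) 1))) :=
      (isBoundedBilinearMap_apply.continuous.tendsto _).comp (f1.prodMk_nhds f2)
    exact ((continuous_apply (J k)).tendsto _).comp f3
  have t3 := (hF.continuousAt ((hU.prod isOpen_univ).mem_nhds
    (show (ξ (H z), ω (H z) (fderiv ℝ H z)) ∈ U ×ˢ univ from ⟨hU0, mem_univ _⟩))).tendsto.comp
      (t1.prodMk_nhds t2)
  rw [hform H hH hHT hMO]
  refine t3.congr' ?_
  filter_upwards [hev] with k hk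
  exact (hform (h k) (hh k) (hhT k) hk).symm

end Pool.Agent.H33
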