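import Pool.Agent.H33.NDefs

/-! Homogeneous 2-forms, Hermitian metrics, and uniformly convex Finsler metrics. -/

set_option autoImplicit false

open Filter Topology

namespace Pool.Agent.H33

variable {n : ℕ}

/-- The 2-forms `η q` on the projective manifold with the cone `X` are homogeneous of degree `ν` in
both tangent vectors. This is so if `η q x v w` is the value at `(v ∧ w) ^ ν` of a holomorphic section
of `Sym ^ ν (Λ² Ω) ⊗ O (-1)`. If the vector bundle `Λ² Ω` is ample (on a surface, if the canonical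
bundle is ample), then for all large `ν` there are finitely many such sections which satisfy
`PositiveTwoForms X ∅ d η`. -/
structure HomForms (X : Set (Fin (n + 1) → ℂ)) (ν : ℕ) {κ : Type}
    (η : κ → (Fin (n + 1) → ℂ) → (Fin (n + 1) → ℂ) → (Fin (n + 1) → ℂ) → ℂ) : Prop where
  left : ∀ q, ∀ x ∈ X, ∀ (v w : Fin (n + 1) → ℂ) (c : ℂ), η q x (c • v) w = c ^ ν * η q x v w
  right : ∀ q, ∀ x ∈ X, ∀ (v w : Fin (n + 1) → ℂ) (c : ℂ), η q x v (c • w) = c ^ ν * η q x v w

/-- The Finsler metric `Φ` on the projective manifold of dimension `d` with the cone `X` is a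
Hermitian metric with twice continuously differentiable coefficients: if `Θ` gives a holomorphic map
from an open subset `U` of `ℂ ^ d` to the manifold, then the square of the length of the derivative in
the direction `a` is `∑ j k, h j k (z) a j (conj (a k))`, with functions `h j k` on `U` which are
twice continuously differentiable (with respect to the real structure). -/
def HermitianMetric (X : Set (Fin (n + 1) → ℂ)) (d : ℕ)
    (Φ : (Fin (n + 1) → ℂ) → (Fin (n + 1) → ℂ) → ℝ) : Prop :=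
  ∀ (U : Set (Fin d → ℂ)) (Θ : (Fin d → ℂ) → Fin (n + 1) → ℂ), IsOpen U →
    AnalyticOnNhd ℂ Θ U → (∀ z ∈ U, Θ z ∈ X) →
    ∃ h : (Fin d → ℂ) → Fin d → Fin d → ℂ, ContDiffOn ℝ 2 h U ∧ ∀ z ∈ U, ∀ a : Fin d → ℂ,
      ((Φ (Θ z) (fderiv ℂ Θ z a) ^ 2 : ℝ) : ℂ) =
        ∑ j, ∑ k, h z j k * a j * (starRingEnd ℂ) (a k)

/-- The Finsler metric `Φ` on the projective manifold of dimension `d` with the cone `X` is uniformly
convex, with coefficients which depend on the point in a `C ^ (1, 1)` way: in local coordinates, given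
by `Θ` on the open subset `U` of `ℂ ^ d` (so `Θ` gives an immersion), the square `u` of the length of
tangent vectors satisfies, for `(z, a)` and `(z', a')` near `(z₀, a₀)`, `a₀ ≠ 0`,
`u ((z + z') / 2, (a + a') / 2) ≤ (u (z, a) + u (z', a')) / 2 - m |a - a'| ^ 2 +
C |z - z'| (|a - a'| + |z - z'|)` with constants `m > 0` and `C`. This holds for Hermitian metrics
(see `HermitianMetric.uniform`), and if `u` is twice continuously differentiable at nonzero vectors
and its second derivatives in the directions of the fibres are positive definite. -/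
def UniformlyConvex (X : Set (Fin (n + 1) → ℂ)) (d : ℕ)
    (Φ : (Fin (n + 1) → ℂ) → (Fin (n + 1) → ℂ) → ℝ) : Prop :=
  ∀ (U : Set (Fin d → ℂ)) (Θ : (Fin d → ℂ) → Fin (n + 1) → ℂ), IsOpen U →
    AnalyticOnNhd ℂ Θ U → (∀ z ∈ U, Θ z ∈ X) →
    (∀ z ∈ U, ∀ b : Fin d → ℂ, b ≠ 0 → LinearIndependent ℂ ![Θ z, fderiv ℂ Θ z b]) →
    ∀ z₀ ∈ U, ∀ a₀ : Fin d → ℂ, a₀ ≠ 0 → ∃ m C : ℝ, 0 < m ∧
      ∀ᶠ p : ((Fin d → ℂ) × (Fin d → ℂ)) × ((Fin d → ℂ) × (Fin d → ℂ)) in
        𝓝 ((z₀, a₀), (z₀, a₀)),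
        Φ (Θ ((2⁻¹ : ℂ) • (p.1.1 + p.2.1)))
            (fderiv ℂ Θ ((2⁻¹ : ℂ) • (p.1.1 + p.2.1)) ((2⁻¹ : ℂ) • (p.1.2 + p.2.2))) ^ 2 ≤
          (Φ (Θ p.1.1) (fderiv ℂ Θ p.1.1 p.1.2) ^ 2 + Φ (Θ p.2.1) (fderiv ℂ Θ p.2.1 p.2.2) ^ 2) / 2 -
            m * ‖p.1.2 - p.2.2‖ ^ 2 +
            C * ‖p.1.1 - p.2.1‖ * (‖p.1.2 - p.2.2‖ + ‖p.1.1 - p.2.1‖)

end Pool.Agent.H33
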