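import Pool.Agent.H33.JV

/-! Hermitian metrics are uniformly convex. -/

set_option autoImplicit false

open Filter Topology Metric Set MvPolynomial LinearAlgebra.Projectivization

namespace Pool.Agent.H33

open Pool.Agent.Y190.OP Pool.Agent.W602.GT Pool.Agent.N155 Pool.Agent.N155.BB

variable {d : ℕ}

/-- sesquilinear forms -/
noncomputable def sq (M : Fin d → Fin d → ℂ) (a b : Fin d → ℂ) : ℂ :=
  ∑ j, ∑ k, M j k * a j * (starRingEnd ℂ) (b k)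

theorem sq_bound (M : Fin d → Fin d → ℂ) (a b : Fin d → ℂ) :
    ‖sq M a b‖ ≤ (d : ℝ) ^ 2 * ‖M‖ * ‖a‖ * ‖b‖ := by
  have h1 : ∀ j k, ‖M j k * a j * (starRingEnd ℂ) (b k)‖ ≤ ‖M‖ * ‖a‖ * ‖b‖ := by
    intro j k
    rw [norm_mul, norm_mul, RCLike.norm_conj]
    have e1 : ‖M j k‖ ≤ ‖M‖ := (norm_le_pi_norm (M j) k).trans (norm_le_pi_norm M j)
    have e2 := norm_le_pi_norm a j
    have e3 := norm_le_pi_norm b k
    gcongr
  calc ‖sq M a b‖ ≤ ∑ j, ∑ k, ‖M j k * a j * (starRingEnd ℂ) (b k)‖ :=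
        (norm_sum_le _ _).trans (Finset.sum_le_sum fun j _ => norm_sum_le _ _)
    _ ≤ ∑ _j : Fin d, ∑ _k : Fin d, ‖M‖ * ‖a‖ * ‖b‖ :=
        Finset.sum_le_sum fun j _ => Finset.sum_le_sum fun k _ => h1 j k
    _ = (d : ℝ) ^ 2 * ‖M‖ * ‖a‖ * ‖b‖ := by
        simp only [Finset.sum_const, Finset.card_univ, Fintype.card_fin, nsmul_eq_mul]
        ring

theorem sq_add_left (M : Fin d → Fin d → ℂ) (a a' b : Fin d → ℂ) :
    sq M (a + a') b = sq M a b + sq M a' b := by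
  unfold sq
  simp only [Pi.add_apply, ← Finset.sum_add_distrib]
  refine Finset.sum_congr rfl fun j _ => Finset.sum_congr rfl fun k _ => ?_
  ring

theorem sq_add_right (M : Fin d → Fin d → ℂ) (a b b' : Fin d → ℂ) :
    sq M a (b + b') = sq M a b + sq M a b' := by
  unfold sq
  simp only [Pi.add_apply, map_add, ← Finset.sum_add_distrib]
  refine Finset.sum_congr rfl fun j _ => Finset.sum_congr rfl fun k _ => ?_
  ring

theorem sq_add_mat (M M' : Fin d → Fin d → ℂ) (a b : Fin d → ℂ) :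
    sq (M + M') a b = sq M a b + sq M' a b := by
  unfold sq
  simp only [Pi.add_apply, ← Finset.sum_add_distrib]
  refine Finset.sum_congr rfl fun j _ => Finset.sum_congr rfl fun k _ => ?_
  ring

theorem sq_smul_left (M : Fin d → Fin d → ℂ) (s : ℂ) (a b : Fin d → ℂ) :
    sq M (s • a) b = s * sq M a b := by
  unfold sq
  simp only [Pi.smul_apply, smul_eq_mul, Finset.mul_sum]
  refine Finset.sum_congr rfl fun j _ => Finset.sum_congr rfl fun k _ => ?_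
  ring

theorem sq_smul_right (M : Fin d → Fin d → ℂ) (s : ℂ) (a b : Fin d → ℂ) :
    sq M a (s • b) = (starRingEnd ℂ) s * sq M a b := by
  unfold sq
  simp only [Pi.smul_apply, smul_eq_mul, map_mul, Finset.mul_sum]
  refine Finset.sum_congr rfl fun j _ => Finset.sum_congr rfl fun k _ => ?_
  ring

theorem sq_neg_mat (M : Fin d → Fin d → ℂ) (a b : Fin d → ℂ) :
    sq (-M) a b = -sq M a b := by
  unfold sq
  simp only [Pi.neg_apply, ← Finset.sum_neg_distrib]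
  refine Finset.sum_congr rfl fun j _ => Finset.sum_congr rfl fun k _ => ?_
  ring

theorem sq_sub_mat (M M' : Fin d → Fin d → ℂ) (a b : Fin d → ℂ) :
    sq (M - M') a b = sq M a b - sq M' a b := by
  rw [sub_eq_add_neg, sq_add_mat, sq_neg_mat, ← sub_eq_add_neg]

/-- the parallelogram law -/
theorem sq_par (M M' N : Fin d → Fin d → ℂ) (a b : Fin d → ℂ) :
    sq M (a + b) (a + b) + sq M' (a + (-1 : ℂ) • b) (a + (-1 : ℂ) • b) - 2 * sq N a a =
      sq (M + M' - N - N) a a + (sq M b b + sq M' b b) + (sq (M - M') a b + sq (M - M') b a) := by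
  simp only [sq_add_left, sq_add_right, sq_smul_left, sq_smul_right, sq_sub_mat, sq_add_mat,
    map_neg, map_one]
  ring

/-- lower bounds -/
theorem sq_low {X : Type*} [TopologicalSpace X] {h : X → Fin d → Fin d → ℂ} {z₀ : X}
    (hc : ContinuousAt h z₀) (hpos : ∀ b : Fin d → ℂ, b ≠ 0 → 0 < (sq (h z₀) b b).re) :
    ∃ m : ℝ, 0 < m ∧ ∀ᶠ z in 𝓝 z₀, ∀ b, m * ‖b‖ ^ 2 ≤ (sq (h z) b b).re := by
  have hq : Continuous fun b : Fin d → ℂ => (sq (h z₀) b b).re := by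
    unfold sq
    fun_prop
  have key : ∃ μ : ℝ, 0 < μ ∧ ∀ b, μ * ‖b‖ ^ 2 ≤ (sq (h z₀) b b).re := by
    have hscale : ∀ (μ : ℝ), (∀ b ∈ sphere (0 : Fin d → ℂ) 1, μ ≤ (sq (h z₀) b b).re) →
        ∀ b, μ * ‖b‖ ^ 2 ≤ (sq (h z₀) b b).re := by
      intro μ hμ b
      by_cases hb : b = 0
      · rw [hb]
        have : sq (h z₀) 0 0 = 0 := by simp [sq]
        rw [this]
        simp
      · have hb' : 0 < ‖b‖ := norm_pos_iff.2 hb
        have h1 := hμ (((‖b‖⁻¹ : ℝ) : ℂ) • b) (by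
          rw [mem_sphere_zero_iff_norm, norm_smul, Complex.norm_real,
            Real.norm_of_nonneg (inv_nonneg.2 hb'.le), inv_mul_cancel₀ hb'.ne'])
        rw [sq_smul_left, sq_smul_right, Complex.conj_ofReal, ← mul_assoc, ← Complex.ofReal_mul,
          Complex.re_ofReal_mul] at h1
        have h2 := mul_le_mul_of_nonneg_right h1 (show 0 ≤ ‖b‖ ^ 2 by positivity)
        refine h2.trans (le_of_eq ?_)
        field_simp
    rcases (sphere (0 : Fin d → ℂ) 1).eq_empty_or_nonempty with he | hne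
    · exact ⟨1, one_pos, hscale 1 fun b hb => by rw [he] at hb; exact absurd hb (notMem_empty _)⟩
    · obtain ⟨b0, hb0, hmin⟩ := (isCompact_sphere (0 : Fin d → ℂ) 1).exists_isMinOn hne
        hq.continuousOn
      refine ⟨_, hpos b0 ?_, hscale _ fun b hb => hmin hb⟩
      intro h0
      rw [h0, mem_sphere_zero_iff_norm, norm_zero] at hb0
      exact zero_ne_one hb0
  obtain ⟨μ, hμ, hμb⟩ := key
  refine ⟨μ / 2, by positivity, ?_⟩
  have hsm : ∀ᶠ z in 𝓝 z₀, (d : ℝ) ^ 2 * ‖h z - h z₀‖ < μ / 2 := by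
    have h1 : ContinuousAt (fun z => (d : ℝ) ^ 2 * ‖h z - h z₀‖) z₀ :=
      continuousAt_const.mul (hc.sub continuousAt_const).norm
    refine h1.eventually (gt_mem_nhds ?_)
    simp only [sub_self, norm_zero, mul_zero]
    positivity
  filter_upwards [hsm] with z hz b
  have h1 := hμb b
  have h2 : (sq (h z) b b).re = (sq (h z₀) b b).re + (sq (h z - h z₀) b b).re := by
    rw [sq_sub_mat, Complex.sub_re]
    ring
  have h3 := (Complex.abs_re_le_norm (sq (h z - h z₀) b b)).trans (sq_bound _ b b)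
  have h4 := (abs_le.1 h3).1
  have h5 : (d : ℝ) ^ 2 * ‖h z - h z₀‖ * ‖b‖ * ‖b‖ ≤ μ / 2 * ‖b‖ ^ 2 := by
    rw [mul_assoc, ← pow_two]
    exact mul_le_mul_of_nonneg_right hz.le (by positivity)
  rw [h2]
  linarith

/-- second differences -/
theorem second_diff {E E' : Type*} [NormedAddCommGroup E] [NormedSpace ℝ E]
    [NormedAddCommGroup E'] [NormedSpace ℝ E'] {h : E → E'} {z₀ : E} (hh : ContDiffAt ℝ 2 h z₀) :
    ∃ C : ℝ, 0 ≤ C ∧ ∀ᶠ p : E × E in 𝓝 (z₀, z₀),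
      ‖h p.1 - h p.2‖ ≤ C * ‖p.1 - p.2‖ ∧
      ‖h p.1 + h p.2 - h ((2⁻¹ : ℝ) • (p.1 + p.2)) - h ((2⁻¹ : ℝ) • (p.1 + p.2))‖ ≤
        C * ‖p.1 - p.2‖ ^ 2 := by
  obtain ⟨K, t, ht, hK⟩ := (hh.of_le (by norm_num : (1 : WithTop ℕ∞) ≤ 2)).exists_lipschitzOnWith
  obtain ⟨L, s, hs, hL⟩ := ((hh.fderiv_right (m := 1) (by norm_num)) :
    ContDiffAt ℝ 1 (fderiv ℝ h) z₀).exists_lipschitzOnWith
  have hd : ∀ᶠ z in 𝓝 z₀, DifferentiableAt ℝ h z := by
    have h1 : ∀ᶠ z in 𝓝 z₀, ContDiffAt ℝ 1 h z :=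
      (hh.of_le (by norm_num : (1 : WithTop ℕ∞) ≤ 2)).eventually (by norm_num)
    filter_upwards [h1] with z hz
    exact hz.differentiableAt (by norm_num)
  obtain ⟨ρ, hρ, hball⟩ := Metric.eventually_nhds_iff_ball.1 ((hd.and hs).and ht)
  refine ⟨max K L, le_max_of_le_left K.2, ?_⟩
  have hb : ball z₀ (ρ / 3) ∈ 𝓝 z₀ := ball_mem_nhds _ (by positivity)
  filter_upwards [prod_mem_nhds hb hb] with p hp
  have hp1 : ‖p.1 - z₀‖ < ρ / 3 := by rw [← dist_eq_norm]; exact hp.1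
  have hp2 : ‖p.2 - z₀‖ < ρ / 3 := by rw [← dist_eq_norm]; exact hp.2
  have hin : ∀ z, ‖z - z₀‖ < ρ → DifferentiableAt ℝ h z ∧ z ∈ s ∧ z ∈ t := by
    intro z hz
    have := hball z (by rw [mem_ball, dist_eq_norm]; exact hz)
    exact ⟨this.1.1, this.1.2, this.2⟩
  constructor
  · have h1 := hK.dist_le_mul _ (hin p.1 (by linarith)).2.2 _ (hin p.2 (by linarith)).2.2
    rw [dist_eq_norm, dist_eq_norm] at h1
    exact h1.trans (mul_le_mul_of_nonneg_right (le_max_left _ _) (norm_nonneg _))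
  · set w : E := (2⁻¹ : ℝ) • (p.1 + p.2) with hw
    set δ : E := (2⁻¹ : ℝ) • (p.1 - p.2) with hδ
    have e1 : p.1 - w = δ := by
      rw [hw, hδ]
      module
    have e2 : p.2 - w = -δ := by
      rw [hw, hδ]
      module
    have hδn : ‖δ‖ = 2⁻¹ * ‖p.1 - p.2‖ := by
      rw [hδ, norm_smul, Real.norm_of_nonneg (by norm_num)]
    have hδ3 : ‖δ‖ < ρ / 3 := by
      have e3 : p.1 - p.2 = (p.1 - z₀) - (p.2 - z₀) := by abel
      have e4 := norm_sub_le (p.1 - z₀) (p.2 - z₀)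
      rw [← e3] at e4
      rw [hδn]
      linarith
    have hw3 : ‖w - z₀‖ < ρ / 3 := by
      have e3 : w - z₀ = (2⁻¹ : ℝ) • (p.1 - z₀) + (2⁻¹ : ℝ) • (p.2 - z₀) := by
        rw [hw]
        module
      rw [e3]
      refine (norm_add_le _ _).trans_lt ?_
      rw [norm_smul, norm_smul, Real.norm_of_nonneg (by norm_num)]
      linarith
    have hcb : ∀ z ∈ closedBall w ‖δ‖, ‖z - z₀‖ < ρ := by
      intro z hz
      rw [mem_closedBall, dist_eq_norm] at hz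
      have e3 : z - z₀ = (z - w) + (w - z₀) := by abel
      rw [e3]
      refine (norm_add_le _ _).trans_lt ?_
      linarith
    have key : ∀ y, ‖y - w‖ = ‖δ‖ → ‖h y - h w - fderiv ℝ h w (y - w)‖ ≤ L * ‖δ‖ * ‖δ‖ := by
      intro y hy
      have h1 := Convex.norm_image_sub_le_of_norm_hasFDerivWithin_le'
        (f := h) (f' := fderiv ℝ h) (φ := fderiv ℝ h w) (C := L * ‖δ‖)
        (s := closedBall w ‖δ‖) (x := w) (y := y)
        (fun z hz => (hin z (hcb z hz)).1.hasFDerivAt.hasFDerivWithinAt) (fun z hz => by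
          have h2 := hL.dist_le_mul _ (hin z (hcb z hz)).2.1 _
            (hin w (by linarith)).2.1
          rw [dist_eq_norm, dist_eq_norm] at h2
          rw [mem_closedBall, dist_eq_norm] at hz
          exact h2.trans (mul_le_mul_of_nonneg_left hz L.2))
        (convex_closedBall _ _) (mem_closedBall_self (norm_nonneg _)) (by
          rw [mem_closedBall, dist_eq_norm, hy])
      rw [hy] at h1
      exact h1
    have k1 := key p.1 (by rw [e1])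
    have k2 := key p.2 (by rw [e2, norm_neg])
    rw [e1] at k1
    rw [e2] at k2
    have e5 : h p.1 + h p.2 - h w - h w = (h p.1 - h w - fderiv ℝ h w δ) +
        (h p.2 - h w - fderiv ℝ h w (-δ)) := by
      rw [map_neg]
      abel
    rw [e5]
    refine (norm_add_le _ _).trans ((add_le_add k1 k2).trans ?_)
    rw [hδn]
    have h3 : (L : ℝ) ≤ max (K : ℝ) L := le_max_right _ _
    have h4 : 0 ≤ ‖p.1 - p.2‖ ^ 2 := by positivity
    have h5 : 0 ≤ (L : ℝ) := L.2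
    nlinarith

variable {n : ℕ} {ι : Type} {F : ι → MvPolynomial (Fin (n + 1)) ℂ}
  {Φ : (Fin (n + 1) → ℂ) → (Fin (n + 1) → ℂ) → ℝ}

/-- **Hermitian metrics are uniformly convex.** -/
theorem HermitianMetric.uniform {X : Set (Fin (n + 1) → ℂ)} (hH : HermitianMetric X d Φ)
    (hnd : Nondegenerate X d Φ) : UniformlyConvex X d Φ := by
  intro U Θ hU hΘ hX hind z₀ hz₀ a₀ ha₀
  obtain ⟨h, hh, hu⟩ := hH U Θ hU hΘ hX
  have hu' : ∀ z ∈ U, ∀ a : Fin d → ℂ, Φ (Θ z) (fderiv ℂ Θ z a) ^ 2 = (sq (h z) a a).re := by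
    intro z hz a
    have h1 := congrArg Complex.re (hu z hz a)
    rw [Complex.ofReal_re] at h1
    exact h1
  have hhz : ContDiffAt ℝ 2 h z₀ := hh.contDiffAt (hU.mem_nhds hz₀)
  obtain ⟨C, hC0, hC⟩ := second_diff hhz
  obtain ⟨m, hm, hlow⟩ := sq_low (h := h) hhz.continuousAt (fun b hb => by
    rw [← hu' z₀ hz₀ b]
    have := hnd U Θ hU hΘ hX z₀ hz₀ b (hind z₀ hz₀ b hb)
    positivity)
  set A : ℝ := ‖a₀‖ + 1 with hA
  have hA1 : 1 ≤ A := by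
    have := norm_nonneg a₀
    linarith
  refine ⟨m / 4, (d : ℝ) ^ 2 * C * A ^ 2, by positivity, ?_⟩
  have c1 : ContinuousAt (fun p : ((Fin d → ℂ) × (Fin d → ℂ)) × ((Fin d → ℂ) × (Fin d → ℂ)) =>
      (p.1.1, p.2.1)) ((z₀, a₀), (z₀, a₀)) := by fun_prop
  have c2 : ContinuousAt (fun p : ((Fin d → ℂ) × (Fin d → ℂ)) × ((Fin d → ℂ) × (Fin d → ℂ)) =>
      p.1.1) ((z₀, a₀), (z₀, a₀)) := by fun_prop
  have c3 : ContinuousAt (fun p : ((Fin d → ℂ) × (Fin d → ℂ)) × ((Fin d → ℂ) × (Fin d → ℂ)) =>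
      p.2.1) ((z₀, a₀), (z₀, a₀)) := by fun_prop
  have c4 : ContinuousAt (fun p : ((Fin d → ℂ) × (Fin d → ℂ)) × ((Fin d → ℂ) × (Fin d → ℂ)) =>
      (2⁻¹ : ℂ) • (p.1.1 + p.2.1)) ((z₀, a₀), (z₀, a₀)) := by fun_prop
  have c5 : ContinuousAt (fun p : ((Fin d → ℂ) × (Fin d → ℂ)) × ((Fin d → ℂ) × (Fin d → ℂ)) =>
      ‖(2⁻¹ : ℂ) • (p.1.2 + p.2.2)‖) ((z₀, a₀), (z₀, a₀)) := by fun_prop
  have hmid : (2⁻¹ : ℂ) • (z₀ + z₀) = z₀ := by
    rw [← two_smul ℂ, smul_smul, inv_mul_cancel₀ two_ne_zero, one_smul]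
  have hmida : (2⁻¹ : ℂ) • (a₀ + a₀) = a₀ := by
    rw [← two_smul ℂ, smul_smul, inv_mul_cancel₀ two_ne_zero, one_smul]
  filter_upwards [c1.eventually hC, c2.eventually hlow, c3.eventually hlow,
    c2.eventually (hU.mem_nhds hz₀), c3.eventually (hU.mem_nhds hz₀),
    c4.eventually (by simp only; rw [hmid]; exact hU.mem_nhds hz₀),
    c5.eventually (gt_mem_nhds (show ‖(2⁻¹ : ℂ) • (a₀ + a₀)‖ < A by rw [hmida, hA]; linarith))]
    with p g1 g2 g3 g4 g5 g6 g7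
  rw [hu' _ g4, hu' _ g5, hu' _ g6]
  set w := (2⁻¹ : ℂ) • (p.1.1 + p.2.1) with hw
  set ā := (2⁻¹ : ℂ) • (p.1.2 + p.2.2) with hā
  set β := (2⁻¹ : ℂ) • (p.1.2 - p.2.2) with hβ
  have hw' : (2⁻¹ : ℝ) • (p.1.1 + p.2.1) = w := by
    rw [hw]
    funext k
    simp only [Pi.smul_apply, Complex.real_smul, smul_eq_mul]
    push_cast
    rfl
  rw [hw'] at g1
  have ea : p.1.2 = ā + β := by
    rw [hā, hβ]
    module
  have ea' : p.2.2 = ā + (-1 : ℂ) • β := by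
    rw [hā, hβ]
    module
  have hβn : ‖β‖ = 2⁻¹ * ‖p.1.2 - p.2.2‖ := by
    rw [hβ, norm_smul, norm_inv]
    norm_num
  have hpar := congrArg Complex.re (sq_par (h p.1.1) (h p.2.1) (h w) ā β)
  rw [← ea, ← ea'] at hpar
  simp only [Complex.sub_re, Complex.add_re, Complex.mul_re, Complex.re_ofNat, Complex.im_ofNat,
    zero_mul, sub_zero] at hpar
  have b1 := g2 β
  have b2 := g3 β
  have bnd : ∀ (M : Fin d → Fin d → ℂ) (a b : Fin d → ℂ), -((d : ℝ) ^ 2 * ‖M‖ * ‖a‖ * ‖b‖) ≤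
      (sq M a b).re := fun M a b =>
    (abs_le.1 ((Complex.abs_re_le_norm _).trans (sq_bound M a b))).1
  have b3 := bnd (h p.1.1 + h p.2.1 - h w - h w) ā ā
  have b4 := bnd (h p.1.1 - h p.2.1) ā β
  have b5 := bnd (h p.1.1 - h p.2.1) β ā
  have hā0 := norm_nonneg ā
  have hx0 := norm_nonneg (p.1.1 - p.2.1)
  have hy0 := norm_nonneg (p.1.2 - p.2.2)
  have hd0 : 0 ≤ (d : ℝ) ^ 2 := by positivity
  have k1 : (d : ℝ) ^ 2 * ‖h p.1.1 + h p.2.1 - h w - h w‖ * ‖ā‖ * ‖ā‖ ≤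
      (d : ℝ) ^ 2 * (C * ‖p.1.1 - p.2.1‖ ^ 2) * A * A := by
    have := g1.2
    have := g7.le
    gcongr
  have k2 : (d : ℝ) ^ 2 * ‖h p.1.1 - h p.2.1‖ * ‖ā‖ * ‖β‖ ≤
      (d : ℝ) ^ 2 * (C * ‖p.1.1 - p.2.1‖) * A * (2⁻¹ * ‖p.1.2 - p.2.2‖) := by
    have := g1.1
    have := g7.le
    rw [hβn]
    gcongr
  have k3 : (d : ℝ) ^ 2 * ‖h p.1.1 - h p.2.1‖ * ‖β‖ * ‖ā‖ =
      (d : ℝ) ^ 2 * ‖h p.1.1 - h p.2.1‖ * ‖ā‖ * ‖β‖ := by ring
  have k4 : (d : ℝ) ^ 2 * (C * ‖p.1.1 - p.2.1‖) * A * (2⁻¹ * ‖p.1.2 - p.2.2‖) ≤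
      (d : ℝ) ^ 2 * (C * ‖p.1.1 - p.2.1‖) * (A * A) * ‖p.1.2 - p.2.2‖ := by
    have e1 : A * (2⁻¹ * ‖p.1.2 - p.2.2‖) ≤ A * A * ‖p.1.2 - p.2.2‖ := by
      rw [mul_assoc]
      refine mul_le_mul_of_nonneg_left (mul_le_mul_of_nonneg_right ?_ hy0) (by linarith)
      exact le_trans (by norm_num) hA1
    have e2 : 0 ≤ (d : ℝ) ^ 2 * (C * ‖p.1.1 - p.2.1‖) := by positivity
    have e3 := mul_le_mul_of_nonneg_left e1 e2
    linarith
  rw [hβn] at b1 b2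
  have k5 : (2⁻¹ * ‖p.1.2 - p.2.2‖) ^ 2 = ‖p.1.2 - p.2.2‖ ^ 2 / 4 := by ring
  rw [k5] at b1 b2
  have k6 : 0 ≤ (d : ℝ) ^ 2 * (C * ‖p.1.1 - p.2.1‖ ^ 2) * A * A := by positivity
  have k7 : (d : ℝ) ^ 2 * C * A ^ 2 * ‖p.1.1 - p.2.1‖ * (‖p.1.2 - p.2.2‖ + ‖p.1.1 - p.2.1‖) =
      (d : ℝ) ^ 2 * (C * ‖p.1.1 - p.2.1‖) * (A * A) * ‖p.1.2 - p.2.2‖ +
      (d : ℝ) ^ 2 * (C * ‖p.1.1 - p.2.1‖ ^ 2) * A * A := by ring
  rw [k7]
  linarith

end Pool.Agent.H33
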