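import Pool.Agent.H33.JZ
import Pool.Agent.H33.JW

/-! The Green-Griffiths-Lang conjecture for manifolds of nonpositive curvature. -/

set_option autoImplicit false

open Filter Topology Metric Set MvPolynomial LinearAlgebra.Projectivization

namespace Pool.Agent.H33

open Pool.Agent.Y190.OP Pool.Agent.W602.GT Pool.Agent.N155 Pool.Agent.N155.BB

variable {n : ℕ} {ι : Type} {F : ι → MvPolynomial (Fin (n + 1)) ℂ} {d : ℕ}
  {κ : Type} {η : κ → (Fin (n + 1) → ℂ) → (Fin (n + 1) → ℂ) → (Fin (n + 1) → ℂ) → ℂ}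
  {Φ : (Fin (n + 1) → ℂ) → (Fin (n + 1) → ℂ) → ℝ} {ν : ℕ}

/-- **The Green-Griffiths-Lang conjecture for manifolds of nonpositive curvature.** -/
theorem ggl [Finite κ] (hX : ProjManifold F d) (hη : PositiveTwoForms (Cone F) ∅ d η) (hν : ν ≠ 0)
    (hh : HomForms (Cone F) ν η) (hΦ : NonposMetric (Cone F) d Φ)
    (hnd : Nondegenerate (Cone F) d Φ)
    (hr : HermitianMetric (Cone F) d Φ ∨ UniformlyConvex (Cone F) d Φ) :
    ∃ S : Finset (ℂ → ℙ ℂ (Fin (n + 1) → ℂ)),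
      (∀ h ∈ S, HolIn F h ∧ DoublyPeriodic h ∧ HasSpeed Φ 1 h) ∧
      (∀ f, HolIn F f → (∃ z w, f z ≠ f w) →
        ∃ h ∈ S, ∃ φ : ℂ → ℂ, Differentiable ℂ φ ∧ ∀ z, f z = h (φ z)) ∧
      (2 ≤ d → ∀ x ∈ Cone F, ∃ E : MvPolynomial (Fin (n + 1)) ℂ, IsForm E ∧
        (¬ ∀ᶠ y in 𝓝[Cone F] x, eval y E = 0) ∧
        ∀ f, HolIn F f → (∃ z w, f z ≠ f w) → ∀ z, eval (f z).rep E = 0) := by
  classical
  have := Fintype.ofFinite κ
  have hcx : UniformlyConvex (Cone F) d Φ := hr.elim (fun h => h.uniform hnd) id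
  have h : Hyp F d Φ η ν := ⟨hX, hη, hΦ, hnd, uniq_of_convex hX hΦ hcx, hν, hh⟩
  obtain ⟨S, hSf, hS, hlist⟩ := exists_list h.hX (form_G0 n) h.hη' (noBC_G0 F) h.hΦ h.hnd
  have hfac : ∀ f, HolIn F f → (∃ z w, f z ≠ f w) → ∃ k ∈ S, ∃ φ : ℂ → ℂ, Differentiable ℂ φ ∧
      ∀ z, Phi (f z).rep = k (φ z) := fun f hf hne => factor h hf hne hS hlist
  have hP : ∀ k ∈ S, ∀ z, Phi (toProj (k z)).rep = k z := fun k hk z =>
    Phi_rep_toProj (TF_PM ((hS k hk).1.mem z))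
  have hin : ∀ k ∈ S, HolIn F fun z => toProj (k z) := fun k hk =>
    ⟨holMap_of (hS k hk).1.hol, fun z => rep_toProj hX.form ((hS k hk).1.mem z)⟩
  refine ⟨hSf.toFinset.image fun k z => toProj (k z), ?_, ?_, ?_⟩
  · intro h' hh'
    obtain ⟨k, hk, rfl⟩ := Finset.mem_image.1 hh'
    rw [hSf.mem_toFinset] at hk
    obtain ⟨hE, L, hL⟩ := hS k hk
    refine ⟨hin k hk, ⟨L, fun l hl z => ?_⟩, ?_⟩
    · simp only
      rw [hL l hl z]
    · rw [hasSpeed_iff hX hΦ.twist (hin k hk)]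
      have h1 : (fun z => Phi (toProj (k z)).rep) = k := funext (hP k hk)
      rw [h1]
      exact hE.len
  · intro f hf hne
    obtain ⟨k, hk, φ, hφ, hfk⟩ := hfac f hf hne
    refine ⟨fun z => toProj (k z), Finset.mem_image.2 ⟨k, hSf.mem_toFinset.2 hk, rfl⟩, φ, hφ,
      fun z => ?_⟩
    apply proj_ext
    rw [hfk z]
    exact (hP k hk _).symm
  · intro hd x hx
    obtain ⟨E, hE, hE1, hE2⟩ := exists_form hX hd hSf hS hx
    refine ⟨E, hE, hE2, fun f hf hne z => ?_⟩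
    obtain ⟨k, hk, φ, -, hfk⟩ := hfac f hf hne
    exact hE1 k hk (φ z) _ (Projectivization.rep_nonzero _) (hfk z).symm

end Pool.Agent.H33
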