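import Pool.Agent.H33.Wt
import Pool.Graph.R_pool_sql_team_seeded_63374d34.N155.B.Defs

/-! Functions with subharmonic logarithm built from local pieces. -/

set_option autoImplicit false

open Filter Topology Metric Set

namespace Pool.Agent.H33

open Real (circleAverage)
open Pool.Agent.N155.BB (wedge)

theorem mean_of_local' {v : ℂ → ℝ} {c : ℂ} {R : ℝ} (hR : 0 < R)
    (hv : ContinuousOn v (closedBall c R)) (hs : ∀ a ∈ ball c R, SubAt v a) :
    v c ≤ circleAverage v c R := by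
  have h1 : ContinuousOn (fun z => v (z + c)) (closedBall 0 R) := by
    refine hv.comp (by fun_prop) fun z hz => ?_
    rw [mem_closedBall_zero_iff] at hz
    rw [mem_closedBall, dist_eq_norm, add_sub_cancel_right]
    exact hz
  have h2 := mean_of_local (v := fun z => v (z + c)) hR h1 (by
    intro a ha
    rw [mem_ball_zero_iff] at ha
    obtain ⟨r₀, hr₀, h⟩ := hs (a + c) (by
      rw [mem_ball, dist_eq_norm, add_sub_cancel_right]
      exact ha)
    refine ⟨r₀, hr₀, fun r h1 h2 => ?_⟩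
    have h3 := h r h1 h2
    refine h3.trans (le_of_eq ?_)
    unfold circleAverage
    congr 2
    funext θ
    congr 1
    simp only [circleMap]
    ring)
  simp only [zero_add] at h2
  refine h2.trans (le_of_eq ?_)
  unfold circleAverage
  congr 2
  funext θ
  simp only [circleMap]
  ring_nf

/-- local continuity and local subharmonicity -/
structure SubC (v : ℂ → ℝ) (a : ℂ) : Prop where
  cont : ∀ᶠ z in 𝓝 a, ContinuousAt v z
  sub : SubAt v a

theorem ev_closedBall {p : ℂ → Prop} {a : ℂ} (h : ∀ᶠ z in 𝓝 a, p z) :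
    ∃ r₀ : ℝ, 0 < r₀ ∧ ∀ r, r < r₀ → ∀ z ∈ closedBall a r, p z := by
  obtain ⟨r₀, hr₀, hb⟩ := Metric.eventually_nhds_iff_ball.1 h
  exact ⟨r₀, hr₀, fun r hr z hz => hb z (closedBall_subset_ball hr hz)⟩

theorem int_of_ev {v : ℂ → ℝ} {a : ℂ} (h : ∀ᶠ z in 𝓝 a, ContinuousAt v z) :
    ∃ r₀ : ℝ, 0 < r₀ ∧ ∀ r, 0 < r → r < r₀ → CircleIntegrable v a r := by
  obtain ⟨r₀, hr₀, hb⟩ := ev_closedBall h
  refine ⟨r₀, hr₀, fun r h0 hr => ?_⟩
  apply ContinuousOn.circleIntegrable'
  intro z hz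
  rw [abs_of_pos h0] at hz
  exact (hb r hr z (sphere_subset_closedBall hz)).continuousWithinAt

theorem SubC.add {v w : ℂ → ℝ} {a : ℂ} (hv : SubC v a) (hw : SubC w a) :
    SubC (fun z => v z + w z) a := by
  refine ⟨by filter_upwards [hv.cont, hw.cont] with z h1 h2 using h1.add h2, ?_⟩
  obtain ⟨r1, h1, e1⟩ := int_of_ev hv.cont
  obtain ⟨r2, h2, e2⟩ := int_of_ev hw.cont
  obtain ⟨r3, h3, e3⟩ := hv.sub
  obtain ⟨r4, h4, e4⟩ := hw.sub
  refine ⟨min (min r1 r2) (min r3 r4), by positivity, fun r h0 hr => ?_⟩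
  obtain ⟨⟨a1, a2⟩, a3, a4⟩ := lt_min_iff.1 hr |>.imp lt_min_iff.1 lt_min_iff.1
  rw [Real.circleAverage_fun_add (e1 r h0 a1) (e2 r h0 a2)]
  exact add_le_add (e3 r h0 a3) (e4 r h0 a4)

theorem SubC.const_mul {v : ℂ → ℝ} {a : ℂ} (hv : SubC v a) {c : ℝ} (hc : 0 ≤ c) :
    SubC (fun z => c * v z) a := by
  refine ⟨by filter_upwards [hv.cont] with z h1 using h1.const_mul c, ?_⟩
  obtain ⟨r3, h3, e3⟩ := hv.sub
  refine ⟨r3, h3, fun r h0 hr => ?_⟩
  have := Real.circleAverage_fun_smul (f := v) (c := a) (R := r) (a := c)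
  simp only [smul_eq_mul] at this
  rw [this]
  exact mul_le_mul_of_nonneg_left (e3 r h0 hr) hc

theorem SubC.congr {v w : ℂ → ℝ} {a : ℂ} (hv : SubC v a) (h : ∀ᶠ z in 𝓝 a, w z = v z) :
    SubC w a := by
  have h2 : ∀ᶠ z in 𝓝 a, ∀ᶠ y in 𝓝 z, w y = v y := eventually_eventually_nhds.2 h
  refine ⟨by
    filter_upwards [hv.cont, h2] with z h1 h3
    exact h1.congr (h3.mono fun y hy => hy.symm), ?_⟩
  obtain ⟨r1, h1, e1⟩ := ev_closedBall h
  obtain ⟨r3, h3, e3⟩ := hv.sub
  refine ⟨min r1 r3, by positivity, fun r h0 hr => ?_⟩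
  obtain ⟨a1, a3⟩ := lt_min_iff.1 hr
  rw [e1 r a1 a (mem_closedBall_self h0.le)]
  refine (e3 r h0 a3).trans (le_of_eq ?_)
  apply Real.circleAverage_congr_sphere
  intro z hz
  rw [abs_of_pos h0] at hz
  exact (e1 r a1 z (sphere_subset_closedBall hz)).symm

theorem SubC.mono {v w : ℂ → ℝ} {a : ℂ} (hv : SubC v a) (hw : ∀ᶠ z in 𝓝 a, ContinuousAt w z)
    (hle : ∀ᶠ z in 𝓝 a, v z ≤ w z) (he : w a = v a) : SubC w a := by
  refine ⟨hw, ?_⟩
  obtain ⟨r1, h1, e1⟩ := int_of_ev hv.cont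
  obtain ⟨r2, h2, e2⟩ := int_of_ev hw
  obtain ⟨r3, h3, e3⟩ := hv.sub
  obtain ⟨r4, h4, e4⟩ := ev_closedBall hle
  refine ⟨min (min r1 r2) (min r3 r4), by positivity, fun r h0 hr => ?_⟩
  obtain ⟨⟨a1, a2⟩, a3, a4⟩ := lt_min_iff.1 hr |>.imp lt_min_iff.1 lt_min_iff.1
  rw [he]
  refine (e3 r h0 a3).trans (Real.circleAverage_mono (e1 r h0 a1) (e2 r h0 a2) fun z hz => ?_)
  rw [abs_of_pos h0] at hz
  exact e4 r a4 z (sphere_subset_closedBall hz)

/-- criterion -/
theorem LogSubharmonic.of_local {w : ℂ → ℝ} {V : Set ℂ} (hV : IsOpen V) (hc : ContinuousOn w V)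
    (h0 : ∀ z ∈ V, 0 ≤ w z) (h : ∀ z ∈ V, 0 < w z → SubAt (fun z => Real.log (w z)) z) :
    LogSubharmonic w V := by
  refine ⟨hc, h0, fun a r δ hr hrV hδ => ?_⟩
  have hcv : ContinuousOn (fun z => Real.log (max (w z) δ)) V := by
    apply ContinuousOn.log
    · exact hc.sup continuousOn_const
    · exact fun z _ => (hδ.trans_le (le_max_right _ _)).ne'
  refine mean_of_local' hr (hcv.mono hrV) fun b hb => ?_
  have hbV : b ∈ V := hrV (ball_subset_closedBall hb)
  obtain ⟨r1, h1, e1⟩ := ev_closedBall (hV.mem_nhds hbV)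
  have hint : ∀ s, 0 < s → s < r1 → CircleIntegrable (fun z => Real.log (max (w z) δ)) b s := by
    intro s hs hs1
    apply ContinuousOn.circleIntegrable'
    refine hcv.mono fun z hz => ?_
    rw [abs_of_pos hs] at hz
    exact e1 s hs1 z (sphere_subset_closedBall hz)
  rcases le_or_gt (w b) δ with hle | hlt
  · refine ⟨r1, h1, fun s hs hs1 => ?_⟩
    change Real.log (max (w b) δ) ≤ _
    rw [max_eq_right hle]
    have h2 := Real.circleAverage_mono (circleIntegrable_const (Real.log δ) b s) (hint s hs hs1)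
      fun z _ => Real.log_le_log hδ (le_max_right _ _)
    rwa [Real.circleAverage_const] at h2
  · obtain ⟨r2, h2, e2⟩ := h b hbV (hδ.trans hlt)
    have hev : ∀ᶠ z in 𝓝 b, δ < w z := (hc.continuousAt (hV.mem_nhds hbV)).eventually
      (lt_mem_nhds hlt)
    obtain ⟨r3, h3, e3⟩ := ev_closedBall hev
    refine ⟨min r1 (min r2 r3), by positivity, fun s hs hs1 => ?_⟩
    obtain ⟨a1, a23⟩ := lt_min_iff.1 hs1
    obtain ⟨a2, a3⟩ := lt_min_iff.1 a23
    change Real.log (max (w b) δ) ≤ _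
    rw [max_eq_left hlt.le]
    refine (e2 s hs a2).trans (le_of_eq ?_)
    apply Real.circleAverage_congr_sphere
    intro z hz
    rw [abs_of_pos hs] at hz
    simp only
    rw [max_eq_left (e3 s a3 z (sphere_subset_closedBall hz)).le]

theorem LogSubharmonic.subC {u : ℂ → ℝ} {V : Set ℂ} (h : LogSubharmonic u V) (hV : IsOpen V)
    {a : ℂ} (ha : a ∈ V) (hua : 0 < u a) : SubC (fun z => Real.log (u z)) a := by
  have hca : ∀ᶠ z in 𝓝 a, ContinuousAt u z := by
    filter_upwards [hV.mem_nhds ha] with z hz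
    exact h.cont.continuousAt (hV.mem_nhds hz)
  have hpos : ∀ᶠ z in 𝓝 a, 0 < u z := hca.self_of_nhds.eventually (lt_mem_nhds hua)
  refine ⟨by
    filter_upwards [hca, hpos] with z h1 h2
    exact h1.log h2.ne', ?_⟩
  obtain ⟨r1, h1, e1⟩ := ev_closedBall hpos
  obtain ⟨r2, h2, e2⟩ := ev_closedBall (hV.mem_nhds ha)
  refine ⟨min r1 r2, by positivity, fun r h0 hr => ?_⟩
  obtain ⟨a1, a2⟩ := lt_min_iff.1 hr
  exact h.mean_log h0 (fun z hz => e2 r a2 z hz) (e1 r a1)

/-- asymptotics of the mean values -/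
def Asym (σ : ℂ → ℝ) (a : ℂ) (c : ℝ) : Prop :=
  ∀ ε : ℝ, 0 < ε → ∃ r₀ : ℝ, 0 < r₀ ∧ ∀ r, 0 < r → r < r₀ →
    |circleAverage σ a r - σ a - c * r ^ 2| ≤ ε * r ^ 2

theorem Asym.subAt {σ : ℂ → ℝ} {a : ℂ} {c : ℝ} (h : Asym σ a c) (hc : 0 < c) : SubAt σ a := by
  obtain ⟨r₀, h0, h1⟩ := h c hc
  refine ⟨r₀, h0, fun r hr hr0 => ?_⟩
  have := (abs_le.1 (h1 r hr hr0)).1
  linarith

theorem Asym.add {σ τ : ℂ → ℝ} {a : ℂ} {c d : ℝ} (h : Asym σ a c) (h' : Asym τ a d)
    (hσ : ∀ᶠ z in 𝓝 a, ContinuousAt σ z) (hτ : ∀ᶠ z in 𝓝 a, ContinuousAt τ z) :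
    Asym (fun z => σ z + τ z) a (c + d) := by
  intro ε hε
  obtain ⟨r1, h1, e1⟩ := int_of_ev hσ
  obtain ⟨r2, h2, e2⟩ := int_of_ev hτ
  obtain ⟨r3, h3, e3⟩ := h (ε / 2) (by positivity)
  obtain ⟨r4, h4, e4⟩ := h' (ε / 2) (by positivity)
  refine ⟨min (min r1 r2) (min r3 r4), by positivity, fun r h0 hr => ?_⟩
  obtain ⟨⟨a1, a2⟩, a3, a4⟩ := lt_min_iff.1 hr |>.imp lt_min_iff.1 lt_min_iff.1
  rw [Real.circleAverage_fun_add (e1 r h0 a1) (e2 r h0 a2)]
  have b1 := e3 r h0 a3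
  have b2 := e4 r h0 a4
  have : circleAverage σ a r + circleAverage τ a r - (σ a + τ a) - (c + d) * r ^ 2 =
      (circleAverage σ a r - σ a - c * r ^ 2) + (circleAverage τ a r - τ a - d * r ^ 2) := by ring
  rw [this]
  refine (abs_add_le _ _).trans ?_
  linarith

theorem Asym.const_mul {σ : ℂ → ℝ} {a : ℂ} {c : ℝ} (h : Asym σ a c) (k : ℝ) :
    Asym (fun z => k * σ z) a (k * c) := by
  intro ε hε
  obtain ⟨r3, h3, e3⟩ := h (ε / (|k| + 1)) (by positivity)
  refine ⟨r3, h3, fun r h0 hr => ?_⟩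
  have := Real.circleAverage_fun_smul (f := σ) (c := a) (R := r) (a := k)
  simp only [smul_eq_mul] at this
  rw [this]
  have b1 := e3 r h0 hr
  have e : k * circleAverage σ a r - k * σ a - k * c * r ^ 2 =
      k * (circleAverage σ a r - σ a - c * r ^ 2) := by ring
  rw [e, abs_mul]
  calc |k| * |circleAverage σ a r - σ a - c * r ^ 2| ≤ |k| * (ε / (|k| + 1) * r ^ 2) :=
        mul_le_mul_of_nonneg_left b1 (abs_nonneg _)
    _ = (|k| / (|k| + 1)) * (ε * r ^ 2) := by ring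
    _ ≤ 1 * (ε * r ^ 2) := by
        apply mul_le_mul_of_nonneg_right _ (by positivity)
        rw [div_le_one (by positivity)]
        linarith
    _ = _ := one_mul _

theorem asym_of {σ h : ℂ → ℝ} {a : ℂ} {c : ℝ} (hh : InnerProductSpace.HarmonicAt h a)
    (ho : (fun z => σ z - σ a - (h z - h a) - c * ‖z - a‖ ^ 2) =o[𝓝 a] fun z => ‖z - a‖ ^ 2)
    (hσ : ∀ᶠ z in 𝓝 a, ContinuousAt σ z) : Asym σ a c := by
  intro ε hε
  obtain ⟨r1, h1, e1⟩ := int_of_ev hσ
  obtain ⟨r2, h2, e2⟩ := ev_closedBall hh.eventually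
  obtain ⟨r3, h3, e3⟩ := ev_closedBall (ho.def hε)
  refine ⟨min r1 (min r2 r3), by positivity, fun r h0 hr => ?_⟩
  obtain ⟨a1, a23⟩ := lt_min_iff.1 hr
  obtain ⟨a2, a3⟩ := lt_min_iff.1 a23
  have hharm : InnerProductSpace.HarmonicOnNhd h (closedBall a |r|) := by
    rw [abs_of_pos h0]
    exact fun z hz => e2 r a2 z hz
  have hmean := hharm.circleAverage_eq
  have hhc : CircleIntegrable h a r := by
    apply ContinuousOn.circleIntegrable'
    intro z hz
    rw [abs_of_pos h0] at hz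
    exact (e2 r a2 z (sphere_subset_closedBall hz)).1.continuousAt.continuousWithinAt
  have hi3 : CircleIntegrable (fun z : ℂ => ‖z - a‖ ^ 2) a r := by
    apply ContinuousOn.circleIntegrable'
    fun_prop
  have hi4 : ∀ k : ℝ, CircleIntegrable (fun z : ℂ => k • ‖z - a‖ ^ 2) a r := fun k =>
    hi3.const_fun_smul
  have hc0 : ∀ k : ℝ, circleAverage (fun z : ℂ => k • ‖z - a‖ ^ 2) a r = k * r ^ 2 := by
    intro k
    rw [Real.circleAverage_fun_smul, circleAverage_sq h0, sub_self, norm_zero, smul_eq_mul]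
    ring
  have hadd : ∀ k : ℝ, CircleIntegrable (fun z : ℂ => h z + k • ‖z - a‖ ^ 2) a r := fun k =>
    hhc.add (hi4 k)
  have key : ∀ k : ℝ, circleAverage (fun z => (σ a - h a) + (h z + k • ‖z - a‖ ^ 2)) a r =
      σ a + k * r ^ 2 := by
    intro k
    rw [Real.circleAverage_fun_add (circleIntegrable_const _ _ _) (hadd k),
      Real.circleAverage_const, Real.circleAverage_fun_add hhc (hi4 k), hmean, hc0]
    ring
  have hint : ∀ k : ℝ, CircleIntegrable (fun z => (σ a - h a) + (h z + k • ‖z - a‖ ^ 2)) a r :=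
    fun k => (circleIntegrable_const _ _ _).add (hadd k)
  have hb : ∀ z ∈ sphere a |r|, |σ z - σ a - (h z - h a) - c * ‖z - a‖ ^ 2| ≤
      ε * ‖z - a‖ ^ 2 := by
    intro z hz
    rw [abs_of_pos h0] at hz
    have := e3 r a3 z (sphere_subset_closedBall hz)
    rw [Real.norm_eq_abs, Real.norm_eq_abs, abs_of_nonneg (sq_nonneg ‖z - a‖)] at this
    exact this
  have hup := Real.circleAverage_mono (e1 r h0 a1) (hint (c + ε)) (by
    intro z hz
    have := (abs_le.1 (hb z hz)).2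
    simp only [smul_eq_mul]
    linarith)
  have hlo := Real.circleAverage_mono (hint (c - ε)) (e1 r h0 a1) (by
    intro z hz
    have := (abs_le.1 (hb z hz)).1
    simp only [smul_eq_mul]
    linarith)
  rw [key] at hup hlo
  rw [abs_le]
  constructor <;> linarith

/-- squares of moduli -/
theorem asym_sq {f : ℂ → ℂ} {a : ℂ} (hf : AnalyticAt ℂ f a) :
    Asym (fun z => ‖f z‖ ^ 2) a (‖deriv f a‖ ^ 2) := by
  have hh : AnalyticAt ℂ (fun z => 2 * ((starRingEnd ℂ) (f a) * f z)) a := by fun_prop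
  refine asym_of hh.harmonicAt_re ?_ (by
    filter_upwards [hf.eventually_analyticAt] with z hz
    exact (hz.continuousAt.norm).pow 2)
  have e1 : ∀ z, ‖f z‖ ^ 2 - ‖f a‖ ^ 2 - ((2 * ((starRingEnd ℂ) (f a) * f z)).re -
      (2 * ((starRingEnd ℂ) (f a) * f a)).re) - ‖deriv f a‖ ^ 2 * ‖z - a‖ ^ 2 =
      ‖f z - f a‖ ^ 2 - ‖(z - a) * deriv f a‖ ^ 2 := by
    intro z
    have h1 : ‖f z‖ ^ 2 = ‖f z - f a‖ ^ 2 + ‖f a‖ ^ 2 +
        2 * ((starRingEnd ℂ) (f a) * (f z - f a)).re := by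
      have e : f z = (f z - f a) + f a := by ring
      conv_lhs => rw [e]
      rw [← Complex.normSq_eq_norm_sq, Complex.normSq_add, Complex.normSq_eq_norm_sq,
        Complex.normSq_eq_norm_sq]
      ring_nf
    have h2 : (2 * ((starRingEnd ℂ) (f a) * f z)).re - (2 * ((starRingEnd ℂ) (f a) * f a)).re =
        2 * ((starRingEnd ℂ) (f a) * (f z - f a)).re := by
      rw [← Complex.sub_re, ← mul_sub, ← mul_sub, Complex.mul_re]
      simp
    rw [h1, h2, norm_mul, mul_pow]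
    ring
  simp only [e1]
  have hd : HasDerivAt f (deriv f a) a := hf.differentiableAt.hasDerivAt
  have h1 : (fun z => f z - f a - (z - a) * deriv f a) =o[𝓝 a] fun z => z - a := by
    have := hasDerivAt_iff_isLittleO.1 hd
    simpa only [smul_eq_mul] using this
  have h2 : (fun z => ‖f z - f a‖ - ‖(z - a) * deriv f a‖) =o[𝓝 a] fun z => ‖z - a‖ := by
    refine (Asymptotics.IsBigO.of_bound 1 (Eventually.of_forall fun z => ?_)).trans_isLittleO
      h1.norm_right
    rw [one_mul, Real.norm_eq_abs]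
    exact abs_norm_sub_norm_le _ _
  have h3 : (fun z => ‖f z - f a‖ + ‖(z - a) * deriv f a‖) =O[𝓝 a] fun z => ‖z - a‖ := by
    refine Asymptotics.IsBigO.add ?_ ?_
    · exact (hd.isBigO_sub).norm_left.norm_right
    · refine Asymptotics.IsBigO.of_bound ‖deriv f a‖ (Eventually.of_forall fun z => ?_)
      rw [norm_norm, norm_norm, norm_mul, mul_comm]
  have h4 := h2.mul_isBigO h3
  refine (h4.congr_left fun z => by ring).congr_right fun z => by ring

/-- the square of the length -/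
noncomputable def sqn {N : ℕ} (x : Fin N → ℂ) : ℝ := ∑ k, ‖x k‖ ^ 2

/-- the scalar product -/
noncomputable def spr {N : ℕ} (x y : Fin N → ℂ) : ℂ := ∑ k, x k * (starRingEnd ℂ) (y k)

theorem sqn_nonneg {N : ℕ} (x : Fin N → ℂ) : 0 ≤ sqn x :=
  Finset.sum_nonneg fun _ _ => sq_nonneg _

theorem sqn_pos {N : ℕ} {x : Fin N → ℂ} (h : x ≠ 0) : 0 < sqn x := by
  obtain ⟨i, hi⟩ := Function.ne_iff.1 h
  refine Finset.sum_pos' (fun _ _ => sq_nonneg _) ⟨i, Finset.mem_univ i, ?_⟩
  have : 0 < ‖x i‖ := norm_pos_iff.2 hi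
  positivity

theorem sqn_cast {N : ℕ} (x : Fin N → ℂ) : ((sqn x : ℝ) : ℂ) = spr x x := by
  unfold sqn spr
  push_cast
  refine Finset.sum_congr rfl fun k _ => ?_
  rw [Complex.mul_conj, Complex.normSq_eq_norm_sq]
  push_cast
  rfl

theorem spr_conj {N : ℕ} (x y : Fin N → ℂ) : (starRingEnd ℂ) (spr x y) = spr y x := by
  unfold spr
  rw [map_sum]
  refine Finset.sum_congr rfl fun k _ => ?_
  rw [map_mul, Complex.conj_conj, mul_comm]

theorem spr_sub_smul {N : ℕ} (x y z : Fin N → ℂ) (c : ℂ) :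
    spr (x - c • y) z = spr x z - c * spr y z := by
  unfold spr
  rw [Finset.mul_sum, ← Finset.sum_sub_distrib]
  refine Finset.sum_congr rfl fun k _ => ?_
  simp only [Pi.sub_apply, Pi.smul_apply, smul_eq_mul]
  ring

/-- Pythagoras -/
theorem sqn_pyth {N : ℕ} {y : Fin N → ℂ} (hy : y ≠ 0) (x : Fin N → ℂ) :
    sqn x = ‖spr x y‖ ^ 2 / sqn y + sqn (x - (spr x y / sqn y) • y) := by
  have h0 : (sqn y : ℂ) ≠ 0 := by exact_mod_cast (sqn_pos hy).ne'
  have h1 : ((sqn x : ℝ) : ℂ) =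
      ((‖spr x y‖ ^ 2 / sqn y + sqn (x - (spr x y / sqn y) • y) : ℝ) : ℂ) := by
    push_cast
    rw [sqn_cast x, sqn_cast (x - (spr x y / (sqn y : ℂ)) • y), spr_sub_smul]
    have h2 : spr x (x - (spr x y / (sqn y : ℂ)) • y) =
        spr x x - (spr y x / (sqn y : ℂ)) * spr x y := by
      rw [← spr_conj, spr_sub_smul, map_sub, map_mul, spr_conj, map_div₀, spr_conj,
        Complex.conj_ofReal, spr_conj]
    have h3 : spr y (x - (spr x y / (sqn y : ℂ)) • y) = 0 := by
      rw [← spr_conj, spr_sub_smul, ← sqn_cast y, div_mul_cancel₀ _ h0, sub_self, map_zero]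
    have h4 : ((‖spr x y‖ : ℂ)) ^ 2 = spr x y * spr y x := by
      rw [← spr_conj x y, Complex.mul_conj, Complex.normSq_eq_norm_sq]
      push_cast
      rfl
    rw [h2, h3, h4]
    field_simp
    ring
  exact_mod_cast h1

theorem wedge_sq {N : ℕ} (x y : Fin (N + 1) → ℂ) :
    wedge x y ^ 2 = sqn x * sqn y - ‖spr y x‖ ^ 2 := by
  unfold wedge
  rw [Real.sq_sqrt (by positivity)]
  have h1 : ((∑ i, ∑ j, ‖x i * y j - x j * y i‖ ^ 2 : ℝ) : ℂ) =
      ((2 * (sqn x * sqn y - ‖spr y x‖ ^ 2) : ℝ) : ℂ) := by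
    push_cast
    rw [sqn_cast, sqn_cast]
    have h4 : ((‖spr y x‖ : ℂ)) ^ 2 = spr y x * spr x y := by
      rw [← spr_conj y x, Complex.mul_conj, Complex.normSq_eq_norm_sq]
      push_cast
      rfl
    rw [h4]
    have h5 : ∀ i j, ((‖x i * y j - x j * y i‖ : ℂ)) ^ 2 =
        (x i * (starRingEnd ℂ) (x i)) * (y j * (starRingEnd ℂ) (y j)) +
        (y i * (starRingEnd ℂ) (y i)) * (x j * (starRingEnd ℂ) (x j)) -
        ((x i * (starRingEnd ℂ) (y i)) * (y j * (starRingEnd ℂ) (x j)) +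
        (y i * (starRingEnd ℂ) (x i)) * (x j * (starRingEnd ℂ) (y j))) := by
      intro i j
      have : ((‖x i * y j - x j * y i‖ : ℂ)) ^ 2 = (x i * y j - x j * y i) *
          (starRingEnd ℂ) (x i * y j - x j * y i) := by
        rw [Complex.mul_conj, Complex.normSq_eq_norm_sq]
        push_cast
        rfl
      rw [this]
      simp only [map_sub, map_mul]
      ring
    simp only [h5]
    simp only [Finset.sum_sub_distrib, Finset.sum_add_distrib, ← Finset.mul_sum, ← Finset.sum_mul]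
    unfold spr
    ring
  have h2 : (∑ i, ∑ j, ‖x i * y j - x j * y i‖ ^ 2 : ℝ) =
      2 * (sqn x * sqn y - ‖spr y x‖ ^ 2) := by exact_mod_cast h1
  rw [h2]
  ring

theorem sqn_isLittleO {N : ℕ} {q : ℂ → Fin N → ℂ} {a : ℂ} (hq : AnalyticAt ℂ q a) (h0 : q a = 0) :
    (fun z => sqn (q z) - sqn (deriv q a) * ‖z - a‖ ^ 2) =o[𝓝 a] fun z => ‖z - a‖ ^ 2 := by
  have h1 : ∀ k : Fin N, (fun z => ‖q z k‖ ^ 2 - ‖deriv q a k‖ ^ 2 * ‖z - a‖ ^ 2) =o[𝓝 a]
      fun z => ‖z - a‖ ^ 2 := by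
    intro k
    have hd : HasDerivAt (fun z => q z k) (deriv q a k) a :=
      (hasDerivAt_pi.1 hq.differentiableAt.hasDerivAt) k
    have hk0 : q a k = 0 := by rw [h0]; rfl
    have h1 : (fun z => q z k - (z - a) * deriv q a k) =o[𝓝 a] fun z => z - a := by
      have := hasDerivAt_iff_isLittleO.1 hd
      simpa only [smul_eq_mul, hk0, sub_zero] using this
    have h2 : (fun z => ‖q z k‖ - ‖(z - a) * deriv q a k‖) =o[𝓝 a] fun z => ‖z - a‖ := by
      refine (Asymptotics.IsBigO.of_bound 1 (Eventually.of_forall fun z => ?_)).trans_isLittleO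
        h1.norm_right
      rw [one_mul, Real.norm_eq_abs]
      exact abs_norm_sub_norm_le _ _
    have h3 : (fun z => ‖q z k‖ + ‖(z - a) * deriv q a k‖) =O[𝓝 a] fun z => ‖z - a‖ := by
      refine Asymptotics.IsBigO.add ?_ ?_
      · have := hd.isBigO_sub
        simp only [hk0, sub_zero] at this
        exact this.norm_left.norm_right
      · refine Asymptotics.IsBigO.of_bound ‖deriv q a k‖ (Eventually.of_forall fun z => ?_)
        rw [norm_norm, norm_norm, norm_mul, mul_comm]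
    have h4 := h2.mul_isBigO h3
    refine (h4.congr_left fun z => ?_).congr_right fun z => by ring
    rw [norm_mul]
    ring
  have h2 := Asymptotics.IsLittleO.sum (s := Finset.univ) fun k _ => h1 k
  refine h2.congr_left fun z => ?_
  unfold sqn
  rw [Finset.sum_apply, Finset.sum_sub_distrib, Finset.sum_mul]

/-- the logarithm of the square of the length of a holomorphic vector function -/
theorem asym_log {N : ℕ} {G : ℂ → Fin (N + 1) → ℂ} {a : ℂ} (hG : AnalyticAt ℂ G a) (h0 : G a ≠ 0) :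
    Asym (fun z => Real.log (sqn (G z))) a ((wedge (G a) (deriv G a) / sqn (G a)) ^ 2) := by
  set S0 : ℝ := sqn (G a) with hS0
  have hS : 0 < S0 := sqn_pos h0
  have hSc : (S0 : ℂ) ≠ 0 := by exact_mod_cast hS.ne'
  set p : ℂ → ℂ := fun z => spr (G z) (G a) with hp
  have hpa : p a = S0 := by
    rw [hp]
    simp only
    rw [← sqn_cast]
  have hGk : ∀ k, AnalyticAt ℂ (fun z => G z k) a := fun k =>
    ((ContinuousLinearMap.proj (R := ℂ) (φ := fun _ : Fin (N + 1) => ℂ) k).analyticAt _).comp hG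
  have hpan : AnalyticAt ℂ p a := by
    rw [hp]
    unfold spr
    have : AnalyticAt ℂ (∑ k, fun z => G z k * (starRingEnd ℂ) (G a k)) a :=
      Finset.analyticAt_sum _ fun k _ => (hGk k).mul analyticAt_const
    refine this.congr (Eventually.of_forall fun z => ?_)
    simp only [Finset.sum_apply]
  have hpne : p a ≠ 0 := by rw [hpa]; exact hSc
  set q : ℂ → Fin (N + 1) → ℂ := fun z => G z - (p z / S0) • G a with hq
  have hqan : AnalyticAt ℂ q a := hG.sub ((hpan.div_const).smul analyticAt_const)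
  have hq0 : q a = 0 := by
    rw [hq]
    simp only
    rw [hpa, div_self hSc, one_smul, sub_self]
  have hpyth : ∀ z, sqn (G z) = ‖p z‖ ^ 2 / S0 + sqn (q z) := fun z => sqn_pyth h0 (G z)
  have hdp : deriv p a = spr (deriv G a) (G a) := by
    have h1 : HasDerivAt p (∑ k, deriv G a k * (starRingEnd ℂ) (G a k)) a := by
      rw [hp]
      unfold spr
      have h2 := hasDerivAt_pi.1 hG.differentiableAt.hasDerivAt
      exact HasDerivAt.fun_sum fun k _ => (h2 k).mul_const _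
    exact h1.deriv
  have hdq : deriv q a = deriv G a - (spr (deriv G a) (G a) / S0) • G a := by
    have h1 : HasDerivAt q (deriv G a - (deriv p a / S0) • G a) a :=
      hG.differentiableAt.hasDerivAt.sub
        ((hpan.differentiableAt.hasDerivAt.div_const (S0 : ℂ)).smul_const (G a))
    rw [h1.deriv, hdp]
  have hc : (wedge (G a) (deriv G a) / S0) ^ 2 = sqn (deriv q a) / S0 := by
    have h1 := sqn_pyth h0 (deriv G a)
    rw [← hS0, ← hdq] at h1
    rw [div_pow, wedge_sq, ← hS0, h1]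
    field_simp
    ring
  rw [hc]
  -- the function `x`
  set x : ℂ → ℝ := fun z => S0 * sqn (q z) / ‖p z‖ ^ 2 with hx
  have hpev : ∀ᶠ z in 𝓝 a, p z ≠ 0 := hpan.continuousAt.eventually_ne hpne
  have hlog : ∀ᶠ z in 𝓝 a, Real.log (sqn (G z)) =
      2 * Real.log ‖p z‖ - Real.log S0 + Real.log (1 + x z) := by
    filter_upwards [hpev] with z hz
    have hpz : 0 < ‖p z‖ := norm_pos_iff.2 hz
    have hx0 : 0 ≤ x z := div_nonneg (mul_nonneg hS.le (sqn_nonneg _)) (by positivity)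
    have h1 : sqn (G z) = ‖p z‖ ^ 2 / S0 * (1 + x z) := by
      rw [hpyth z, hx]
      simp only
      field_simp
    rw [h1, Real.log_mul (by positivity) (by positivity), Real.log_div (by positivity) hS.ne',
      Real.log_pow]
    push_cast
    ring
  have hharm : InnerProductSpace.HarmonicAt (fun z => 2 * Real.log ‖p z‖) a := by
    have := (hpan.harmonicAt_log_norm hpne).const_smul (c := (2 : ℝ))
    exact this
  have hxo : (fun z => x z - sqn (deriv q a) / S0 * ‖z - a‖ ^ 2) =o[𝓝 a]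
      fun z => ‖z - a‖ ^ 2 := by
    have h1 := sqn_isLittleO hqan hq0
    have hcp : ContinuousAt (fun z => S0 / ‖p z‖ ^ 2) a := by
      have := hpan.continuousAt
      have h2 : ‖p a‖ ^ 2 ≠ 0 := by
        have := norm_pos_iff.2 hpne
        positivity
      exact continuousAt_const.div (this.norm.pow 2) h2
    have hcv : S0 / ‖p a‖ ^ 2 = 1 / S0 := by
      rw [hpa, Complex.norm_real, Real.norm_of_nonneg hS.le]
      field_simp
    have h2 : (fun z => (sqn (q z) - sqn (deriv q a) * ‖z - a‖ ^ 2) * (S0 / ‖p z‖ ^ 2)) =o[𝓝 a]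
        fun z => ‖z - a‖ ^ 2 := by
      have h3 : (fun z => S0 / ‖p z‖ ^ 2) =O[𝓝 a] fun _ => (1 : ℝ) :=
        hcp.tendsto.isBigO_one ℝ
      have := h1.mul_isBigO h3
      simpa using this
    have h3 : (fun z => sqn (deriv q a) * ‖z - a‖ ^ 2 * (S0 / ‖p z‖ ^ 2 - 1 / S0)) =o[𝓝 a]
        fun z => ‖z - a‖ ^ 2 := by
      have h4 : (fun z => S0 / ‖p z‖ ^ 2 - 1 / S0) =o[𝓝 a] fun _ => (1 : ℝ) := by
        rw [Asymptotics.isLittleO_one_iff]
        have := hcp.tendsto.sub_const (1 / S0)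
        rw [hcv, sub_self] at this
        exact this
      have h5 : (fun z => sqn (deriv q a) * ‖z - a‖ ^ 2) =O[𝓝 a] fun z => ‖z - a‖ ^ 2 :=
        Asymptotics.isBigO_const_mul_self _ _ _
      have := h5.mul_isLittleO h4
      simpa using this
    refine (h2.add h3).congr_left fun z => ?_
    rw [hx]
    simp only
    ring
  have hxO : x =O[𝓝 a] fun z => ‖z - a‖ ^ 2 := by
    have h1 : (fun z => sqn (deriv q a) / S0 * ‖z - a‖ ^ 2) =O[𝓝 a] fun z => ‖z - a‖ ^ 2 :=
      Asymptotics.isBigO_const_mul_self _ _ _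
    refine (hxo.isBigO.add h1).congr_left fun z => ?_
    ring
  have hx0 : Tendsto x (𝓝 a) (𝓝 0) := by
    refine hxO.trans_tendsto ?_
    have : ContinuousAt (fun z : ℂ => ‖z - a‖ ^ 2) a := by fun_prop
    have h2 := this.tendsto
    simpa using h2
  have hlogo : (fun z => Real.log (1 + x z) - x z) =o[𝓝 a] fun z => ‖z - a‖ ^ 2 := by
    have h1 : HasDerivAt (fun y : ℝ => Real.log (1 + y)) 1 0 := by
      have h2 : HasDerivAt (fun y : ℝ => 1 + y) 1 0 := (hasDerivAt_id (0 : ℝ)).const_add 1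
      have := h2.log (by norm_num)
      simpa using this
    have h2 := hasDerivAt_iff_isLittleO.1 h1
    simp only [add_zero, Real.log_one, sub_zero, smul_eq_mul, mul_one] at h2
    exact (h2.comp_tendsto hx0).trans_isBigO hxO
  refine asym_of hharm ?_ ?_
  · have ha0 : Real.log ‖p a‖ = Real.log S0 := by
      rw [hpa, Complex.norm_real, Real.norm_of_nonneg hS.le]
    refine (hlogo.add hxo).congr' ?_ (EventuallyEq.refl _ _)
    filter_upwards [hlog] with z hz
    rw [hz, ha0]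
    ring
  · have h1 : ∀ᶠ z in 𝓝 a, G z ≠ 0 := hG.continuousAt.eventually_ne h0
    filter_upwards [hG.eventually_analyticAt, h1] with z hz hz0
    have h2 : ContinuousAt (fun z => sqn (G z)) z := by
      unfold sqn
      have := hz.continuousAt
      have h3 : ∀ k, ContinuousAt (fun z => G z k) z := fun k => (continuousAt_pi.1 this) k
      fun_prop
    exact h2.log (sqn_pos hz0).ne'

theorem harm_subC {h : ℂ → ℝ} {a : ℂ} (hh : InnerProductSpace.HarmonicAt h a) : SubC h a := by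
  refine ⟨by
    filter_upwards [hh.eventually] with z hz
    exact hz.1.continuousAt, ?_⟩
  obtain ⟨r2, h2, e2⟩ := ev_closedBall hh.eventually
  refine ⟨r2, h2, fun r h0 hr => ?_⟩
  have hharm : InnerProductSpace.HarmonicOnNhd h (closedBall a |r|) := by
    rw [abs_of_pos h0]
    exact fun z hz => e2 r hr z hz
  rw [hharm.circleAverage_eq]

theorem cont_log_sqn {N : ℕ} {G : ℂ → Fin N → ℂ} {a : ℂ} (hG : AnalyticAt ℂ G a)
    (h0 : G a ≠ 0) : ∀ᶠ z in 𝓝 a, ContinuousAt (fun z => Real.log (sqn (G z))) z := by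
  have h1 : ∀ᶠ z in 𝓝 a, G z ≠ 0 := hG.continuousAt.eventually_ne h0
  filter_upwards [hG.eventually_analyticAt, h1] with z hz hz0
  have h2 : ContinuousAt (fun z => sqn (G z)) z := by
    unfold sqn
    have := hz.continuousAt
    have h3 : ∀ k, ContinuousAt (fun z => G z k) z := fun k => (continuousAt_pi.1 this) k
    fun_prop
  exact h2.log (sqn_pos hz0).ne'

/-- the pieces -/
theorem piece_sub {N : ℕ} {u : ℂ → ℝ} {V : Set ℂ} {a : ℂ} (hu : LogSubharmonic u V)
    (hV : IsOpen V) (ha : a ∈ V) (hua : 0 < u a) (p : ℕ) {h : ℂ → ℂ} (hh : AnalyticAt ℂ h a)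
    (hha : h a ≠ 0) {G : ℂ → Fin (N + 1) → ℂ} (hG : AnalyticAt ℂ G a) (hG0 : G a ≠ 0) {t : ℂ → ℂ}
    (ht : AnalyticAt ℂ t a) (t0 : ℂ) {α γ s C : ℝ} (hC : 0 < C)
    (hpos : 0 < α * (wedge (G a) (deriv G a) / sqn (G a)) ^ 2 - γ * ‖deriv t a‖ ^ 2 + s) :
    SubC (fun z => Real.log (C * u z ^ p * ‖h z‖ * sqn (G z) ^ α *
      Real.exp (-γ * ‖t z - t0‖ ^ 2 + s * ‖z‖ ^ 2))) a := by
  have h1 : SubC (fun z => (p : ℝ) * Real.log (u z)) a :=
    (hu.subC hV ha hua).const_mul (Nat.cast_nonneg p)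
  have h2 : SubC (fun z => Real.log ‖h z‖) a := harm_subC (hh.harmonicAt_log_norm hha)
  have c1 := cont_log_sqn hG hG0
  have c1' : ∀ᶠ z in 𝓝 a, ContinuousAt (fun z => α * Real.log (sqn (G z))) z := by
    filter_upwards [c1] with z hz
    exact hz.const_mul α
  have ht' : AnalyticAt ℂ (fun z => t z - t0) a := ht.sub analyticAt_const
  have c2 : ∀ᶠ z in 𝓝 a, ContinuousAt (fun z => -γ * ‖t z - t0‖ ^ 2) z := by
    filter_upwards [ht'.eventually_analyticAt] with z hz
    exact ((hz.continuousAt.norm).pow 2).const_mul _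
  have c3 : ∀ᶠ z in 𝓝 a, ContinuousAt (fun z : ℂ => s * ‖z‖ ^ 2) z :=
    Eventually.of_forall fun z => by fun_prop
  have a1 := (asym_log hG hG0).const_mul α
  have a2 := (asym_sq ht').const_mul (-γ)
  have a3 := (asym_sq (f := fun z => z) (a := a) analyticAt_id).const_mul s
  have c12 : ∀ᶠ z in 𝓝 a, ContinuousAt (fun z => α * Real.log (sqn (G z)) +
      -γ * ‖t z - t0‖ ^ 2) z := by
    filter_upwards [c1', c2] with z h1 h2
    exact h1.add h2
  have a4 := ((a1.add a2 c1' c2).add a3 c12 c3)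
  have hd : deriv (fun z => t z - t0) a = deriv t a := by
    rw [deriv_sub_const]
  have h3 : SubC (fun z => α * Real.log (sqn (G z)) + -γ * ‖t z - t0‖ ^ 2 + s * ‖z‖ ^ 2) a := by
    refine ⟨by
      filter_upwards [c12, c3] with z h1 h2
      exact h1.add h2, a4.subAt ?_⟩
    rw [hd]
    have : deriv (fun z : ℂ => z) a = 1 := deriv_id a
    rw [this, norm_one]
    linarith
  have h4 : SubC (fun _ => Real.log C) a := by
    refine harm_subC ?_
    have : InnerProductSpace.HarmonicAt (fun z : ℂ => (((Real.log C : ℝ) : ℂ)).re) a :=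
      AnalyticAt.harmonicAt_re (f := fun _ => ((Real.log C : ℝ) : ℂ)) analyticAt_const
    simpa using this
  refine (((h4.add h1).add h2).add h3).congr ?_
  have e1 : ∀ᶠ z in 𝓝 a, h z ≠ 0 := hh.continuousAt.eventually_ne hha
  have e2 : ∀ᶠ z in 𝓝 a, G z ≠ 0 := hG.continuousAt.eventually_ne hG0
  have e3 : ∀ᶠ z in 𝓝 a, 0 < u z := (hu.cont.continuousAt (hV.mem_nhds ha)).eventually
    (lt_mem_nhds hua)
  filter_upwards [e1, e2, e3] with z hz1 hz2 hz3
  have b1 : 0 < ‖h z‖ := norm_pos_iff.2 hz1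
  have b2 : 0 < sqn (G z) := sqn_pos hz2
  have b3 : 0 < sqn (G z) ^ α := Real.rpow_pos_of_pos b2 _
  rw [Real.log_mul (by positivity) (Real.exp_pos _).ne', Real.log_mul (by positivity) b3.ne',
    Real.log_mul (by positivity) b1.ne', Real.log_mul hC.ne' (by positivity), Real.log_pow,
    Real.log_rpow b2, Real.log_exp]
  ring

end Pool.Agent.H33
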