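import Pool.Agent.H33.GW
import Pool.Agent.H33.HDefs
import Pool.Agent.H33.JSub

/-! Charts and tangent vectors of projective manifolds. -/

set_option autoImplicit false

open Filter Topology Metric Set MvPolynomial LinearAlgebra.Projectivization

namespace Pool.Agent.H33

open Pool.Agent.Y190.OP Pool.Agent.W602.GT Pool.Agent.N155 Pool.Agent.N155.BB

variable {n : ℕ} {ι ι' : Type} {F : ι → MvPolynomial (Fin (n + 1)) ℂ}
  {G : ι' → MvPolynomial (Fin (n + 1)) ℂ} {d : ℕ}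
  {κ : Type} {η : κ → (Fin (n + 1) → ℂ) → (Fin (n + 1) → ℂ) → (Fin (n + 1) → ℂ) → ℂ}
  {Φ : (Fin (n + 1) → ℂ) → (Fin (n + 1) → ℂ) → ℝ}

/-- charts -/
structure Ch (F : ι → MvPolynomial (Fin (n + 1)) ℂ) (d : ℕ) where
  i : Fin (n + 1)
  J : Fin d → Fin (n + 1)
  O : Set (Mat (n + 1))
  U : Set (Fin d → ℂ)
  Θ : (Fin d → ℂ) → Fin (n + 1) → ℂ
  hO : IsOpen O
  hU : IsOpen U
  an : AnalyticOnNhd ℂ Θ U
  mem : ∀ z ∈ U, Θ z ∈ Cone F ∧ Θ z i = 1 ∧ ∀ k, Θ z (J k) = z k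
  loc : ∀ M ∈ O, M i i ≠ 0 ∧ (fun k => chart i M (J k)) ∈ U ∧
    (M ∈ TF F → chart i M = Θ (fun k => chart i M (J k)))

theorem exists_ch (hX : ProjManifold F d) {M0 : Mat (n + 1)} (hM0 : M0 ∈ TF F) :
    ∃ c : Ch F d, M0 ∈ c.O := by
  obtain ⟨i, J, O, U, Θ, hO, hMO, hU, hΘ, hΘX, hloc⟩ := graph_of' hX hM0
  exact ⟨⟨i, J, O, U, Θ, hO, hU, hΘ, hΘX, hloc⟩, hMO⟩

variable (c : Ch F d)

/-- the coordinates of a point -/
noncomputable def Ch.z (x : Fin (n + 1) → ℂ) : Fin d → ℂ := fun k => x (c.J k) / x c.i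

/-- the coordinates of a tangent vector -/
noncomputable def Ch.a (x v : Fin (n + 1) → ℂ) : Fin d → ℂ := fun k =>
  (v (c.J k) * x c.i - x (c.J k) * v c.i) / (x c.i) ^ 2

/-- the domain of the chart -/
def Ch.dom : Set (Fin (n + 1) → ℂ) := {x | x ∈ Cone F ∧ Phi x ∈ c.O}

variable {c}

theorem Ch.ne {x : Fin (n + 1) → ℂ} (hx : x ∈ c.dom) : x c.i ≠ 0 :=
  (Phi_diag_ne hx.1.1).1 (c.loc _ hx.2).1

theorem Ch.chart_eq {x : Fin (n + 1) → ℂ} (hx : x ∈ c.dom) :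
    (fun k => chart c.i (Phi x) (c.J k)) = c.z x := by
  funext k
  rw [chart_Phi hx.1.1 (Ch.ne hx)]
  simp only [Pi.smul_apply, smul_eq_mul, Ch.z]
  ring

theorem Ch.z_mem {x : Fin (n + 1) → ℂ} (hx : x ∈ c.dom) : c.z x ∈ c.U := by
  rw [← Ch.chart_eq hx]
  exact (c.loc _ hx.2).2.1

theorem Ch.eq {x : Fin (n + 1) → ℂ} (hx : x ∈ c.dom) : x = x c.i • c.Θ (c.z x) := by
  have h1 := (c.loc _ hx.2).2.2 ⟨x, hx.1, rfl⟩
  rw [Ch.chart_eq hx, chart_Phi hx.1.1 (Ch.ne hx)] at h1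
  rw [← h1, smul_smul, mul_inv_cancel₀ (Ch.ne hx), one_smul]

theorem Ch.z_smul (x : Fin (n + 1) → ℂ) {s : ℂ} (hs : s ≠ 0) : c.z (s • x) = c.z x := by
  funext k
  simp only [Ch.z, Pi.smul_apply, smul_eq_mul]
  rw [mul_div_mul_left _ _ hs]

theorem Ch.a_twist (x v : Fin (n + 1) → ℂ) {s : ℂ} (hs : s ≠ 0) (b : ℂ) :
    c.a (s • x) (s • (v + b • x)) = c.a x v := by
  funext k
  simp only [Ch.a, Pi.smul_apply, smul_eq_mul, Pi.add_apply]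
  by_cases h0 : x c.i = 0
  · rw [h0]
    simp
  · field_simp
    ring

theorem Ch.a_smul (x v : Fin (n + 1) → ℂ) (s : ℂ) : c.a x (s • v) = s • c.a x v := by
  funext k
  simp only [Ch.a, Pi.smul_apply, smul_eq_mul]
  ring

theorem Ch.a_add (x v w : Fin (n + 1) → ℂ) : c.a x (v + w) = c.a x v + c.a x w := by
  funext k
  simp only [Ch.a, Pi.add_apply]
  ring

theorem Ch.a_self (x : Fin (n + 1) → ℂ) : c.a x x = 0 := by
  funext k
  simp only [Ch.a, Pi.zero_apply]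
  rw [sub_self, zero_div]

theorem Ch.z_Θ {ζ : Fin d → ℂ} (hζ : ζ ∈ c.U) : c.z (c.Θ ζ) = ζ := by
  funext k
  simp only [Ch.z]
  rw [(c.mem ζ hζ).2.1, (c.mem ζ hζ).2.2 k, div_one]

theorem Ch.fderiv_i {ζ : Fin d → ℂ} (hζ : ζ ∈ c.U) (b : Fin d → ℂ) :
    fderiv ℂ c.Θ ζ b c.i = 0 := by
  have h1 : HasFDerivAt c.Θ (fderiv ℂ c.Θ ζ) ζ := (c.an ζ hζ).differentiableAt.hasFDerivAt
  have h2 := hasFDerivAt_pi'.1 h1 c.i
  have h3 : HasFDerivAt (fun z => c.Θ z c.i) (0 : (Fin d → ℂ) →L[ℂ] ℂ) ζ := by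
    refine (hasFDerivAt_const (1 : ℂ) ζ).congr_of_eventuallyEq ?_
    filter_upwards [c.hU.mem_nhds hζ] with z hz
    exact (c.mem z hz).2.1
  have h4 := congrArg (fun L : (Fin d → ℂ) →L[ℂ] ℂ => L b) (h2.unique h3)
  simpa using h4

theorem Ch.fderiv_J {ζ : Fin d → ℂ} (hζ : ζ ∈ c.U) (b : Fin d → ℂ) (k : Fin d) :
    fderiv ℂ c.Θ ζ b (c.J k) = b k := by
  have h1 : HasFDerivAt c.Θ (fderiv ℂ c.Θ ζ) ζ := (c.an ζ hζ).differentiableAt.hasFDerivAt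
  have h2 := hasFDerivAt_pi'.1 h1 (c.J k)
  have h3 : HasFDerivAt (fun z => c.Θ z (c.J k))
      (ContinuousLinearMap.proj (R := ℂ) (φ := fun _ : Fin d => ℂ) k) ζ := by
    refine ((ContinuousLinearMap.proj (R := ℂ) (φ := fun _ : Fin d => ℂ)
      k).hasFDerivAt).congr_of_eventuallyEq ?_
    filter_upwards [c.hU.mem_nhds hζ] with z hz
    exact (c.mem z hz).2.2 k
  have h4 := congrArg (fun L : (Fin d → ℂ) →L[ℂ] ℂ => L b) (h2.unique h3)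
  simpa using h4

theorem Ch.a_Θ {ζ : Fin d → ℂ} (hζ : ζ ∈ c.U) (b : Fin d → ℂ) :
    c.a (c.Θ ζ) (fderiv ℂ c.Θ ζ b) = b := by
  funext k
  simp only [Ch.a]
  rw [(c.mem ζ hζ).2.1, (c.mem ζ hζ).2.2 k, Ch.fderiv_i hζ, Ch.fderiv_J hζ]
  ring

/-- curves in charts -/
theorem Ch.hasDeriv {g : ℂ → Fin (n + 1) → ℂ} {s : ℂ} {v : Fin (n + 1) → ℂ}
    (hg : HasDerivAt g v s) (hi : g s c.i ≠ 0) :
    HasDerivAt (fun s => c.z (g s)) (c.a (g s) v) s := by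
  rw [hasDerivAt_pi]
  intro k
  have h1 := hasDerivAt_pi.1 hg
  exact (h1 (c.J k)).div (h1 c.i) hi

/-- tangent vectors -/
def Tg (F : ι → MvPolynomial (Fin (n + 1)) ℂ) (x v : Fin (n + 1) → ℂ) : Prop :=
  ∃ (V : Set ℂ) (g : ℂ → Fin (n + 1) → ℂ), IsOpen V ∧ DifferentiableOn ℂ g V ∧
    (∀ z ∈ V, g z ∈ Cone F) ∧ ∃ z ∈ V, g z = x ∧ deriv g z = v

theorem Tg.mem {x v : Fin (n + 1) → ℂ} (h : Tg F x v) : x ∈ Cone F := by
  obtain ⟨V, g, hV, hg, hgF, z, hz, rfl, rfl⟩ := h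
  exact hgF z hz

theorem Tg.of_curve {V : Set ℂ} {g : ℂ → Fin (n + 1) → ℂ} (hV : IsOpen V)
    (hg : DifferentiableOn ℂ g V) (hgF : ∀ z ∈ V, g z ∈ Cone F) {z : ℂ} (hz : z ∈ V) :
    Tg F (g z) (deriv g z) := ⟨V, g, hV, hg, hgF, z, hz, rfl, rfl⟩

theorem dom_open_curve {V : Set ℂ} {g : ℂ → Fin (n + 1) → ℂ} (hV : IsOpen V)
    (hg : DifferentiableOn ℂ g V) (hgF : ∀ z ∈ V, g z ∈ Cone F) {z : ℂ} (hz : z ∈ V)
    (hd : g z ∈ c.dom) : ∀ᶠ w in 𝓝 z, g w ∈ c.dom := by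
  have h1 : ContinuousAt g z := (hg z hz).continuousWithinAt.continuousAt (hV.mem_nhds hz)
  have h2 : ContinuousAt (Phi : (Fin (n + 1) → ℂ) → Mat (n + 1)) (g z) :=
    ((contDiffAt_Phi hd.1.1).continuousAt)
  have h3 : ∀ᶠ w in 𝓝 z, Phi (g w) ∈ c.O :=
    (h2.comp h1 : ContinuousAt (fun w => Phi (g w)) z).eventually (c.hO.mem_nhds hd.2)
  filter_upwards [h3, hV.mem_nhds hz] with w hw hwV
  exact ⟨hgF w hwV, hw⟩

/-- the form of tangent vectors -/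
theorem Tg.eq {x v : Fin (n + 1) → ℂ} (h : Tg F x v) (hx : x ∈ c.dom) :
    v = x c.i • fderiv ℂ c.Θ (c.z x) (c.a x v) + v c.i • c.Θ (c.z x) := by
  obtain ⟨V, g, hV, hg, hgF, z, hz, rfl, rfl⟩ := h
  have hdg : HasDerivAt g (deriv g z) z := ((hg z hz).differentiableAt (hV.mem_nhds hz)).hasDerivAt
  have h1 : ∀ᶠ w in 𝓝 z, g w = g w c.i • c.Θ (c.z (g w)) := by
    filter_upwards [dom_open_curve hV hg hgF hz hx] with w hw
    exact Ch.eq hw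
  have h2 := Ch.hasDeriv (c := c) hdg (Ch.ne hx)
  have h3 : HasFDerivAt c.Θ (fderiv ℂ c.Θ (c.z (g z))) (c.z (g z)) :=
    (c.an _ (Ch.z_mem hx)).differentiableAt.hasFDerivAt
  have h4 := h3.comp_hasDerivAt z h2
  have h5 := (hasDerivAt_pi.1 hdg c.i).smul h4
  exact hdg.unique (h5.congr_of_eventuallyEq h1)

theorem Ch.tg {ζ : Fin d → ℂ} (hζ : ζ ∈ c.U) (b : Fin d → ℂ) :
    Tg F (c.Θ ζ) (fderiv ℂ c.Θ ζ b) := by
  have hcont : Continuous fun s : ℂ => ζ + s • b := by fun_prop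
  have h0 : (fun s : ℂ => ζ + s • b) 0 = ζ := by simp
  refine ⟨(fun s : ℂ => ζ + s • b) ⁻¹' c.U, fun s => c.Θ (ζ + s • b), c.hU.preimage hcont,
    fun s hs => ?_, fun s hs => (c.mem _ hs).1, 0, ?_, ?_, ?_⟩
  · have h1 : DifferentiableAt ℂ c.Θ (ζ + s • b) := (c.an _ hs).differentiableAt
    have h2 : DifferentiableAt ℂ (fun s : ℂ => ζ + s • b) s := by fun_prop
    exact (h1.comp s h2).differentiableWithinAt
  · rw [mem_preimage, zero_smul, add_zero]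
    exact hζ
  · simp
  · have h1 : HasFDerivAt c.Θ (fderiv ℂ c.Θ ζ) ((fun s : ℂ => ζ + s • b) 0) := by
      rw [h0]
      exact (c.an _ hζ).differentiableAt.hasFDerivAt
    have h2 : HasDerivAt (fun s : ℂ => ζ + s • b) b 0 := by
      have := ((hasDerivAt_id (0 : ℂ)).smul_const b).const_add ζ
      simpa using this
    exact (h1.comp_hasDerivAt 0 h2).deriv

theorem Tg.of_form (hF : ∀ i, IsForm (F i)) {x v : Fin (n + 1) → ℂ} (h : Tg F x v) {s : ℂ}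
    (hs : s ≠ 0) (b e : ℂ) : Tg F (s • x) (s • (e • v + b • x)) := by
  obtain ⟨V, g, hV, hg, hgF, z, hz, rfl, rfl⟩ := h
  -- the curve `w ↦ s (1 + b (w - z)) g (z + e (w - z))`
  have hc : Continuous fun w : ℂ => z + e * (w - z) := by fun_prop
  have hc2 : Continuous fun w : ℂ => 1 + b * (w - z) := by fun_prop
  refine ⟨(fun w : ℂ => z + e * (w - z)) ⁻¹' V ∩ {w | 1 + b * (w - z) ≠ 0},
    fun w => s • ((1 + b * (w - z)) • g (z + e * (w - z))),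
    (hV.preimage hc).inter (isOpen_ne_fun hc2 continuous_const), ?_, ?_, z, ?_, ?_, ?_⟩
  · intro w hw
    have h1 : DifferentiableAt ℂ g (z + e * (w - z)) := (hg _ hw.1).differentiableAt
      (hV.mem_nhds hw.1)
    have h2 : DifferentiableAt ℂ (fun w : ℂ => z + e * (w - z)) w := by fun_prop
    have h3 : DifferentiableAt ℂ (fun w => g (z + e * (w - z))) w :=
      DifferentiableAt.comp w h1 h2
    have h4 : DifferentiableAt ℂ (fun w : ℂ => 1 + b * (w - z)) w := by fun_prop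
    exact ((h4.smul h3).const_smul s).differentiableWithinAt
  · intro w hw
    exact cone_smul hF (cone_smul hF (hgF _ hw.1) hw.2) hs
  · refine ⟨?_, ?_⟩
    · simp only [mem_preimage, sub_self, mul_zero, add_zero]
      exact hz
    · simp
  · simp
  · have h1 : HasDerivAt g (deriv g z) (z + e * (z - z)) := by
      rw [sub_self, mul_zero, add_zero]
      exact ((hg z hz).differentiableAt (hV.mem_nhds hz)).hasDerivAt
    have h2 : HasDerivAt (fun w : ℂ => z + e * (w - z)) e z := by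
      have := (((hasDerivAt_id z).sub_const z).const_mul e).const_add z
      simpa using this
    have h3 : HasDerivAt (fun w => g (z + e * (w - z))) (e • deriv g z) z :=
      HasDerivAt.scomp (h := fun w : ℂ => z + e * (w - z)) z h1 h2
    have h4 : HasDerivAt (fun w : ℂ => 1 + b * (w - z)) b z := by
      have := (((hasDerivAt_id z).sub_const z).const_mul b).const_add 1
      simpa using this
    have h5 := (h4.smul h3).const_smul s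
    refine h5.deriv.trans ?_
    simp

theorem Ch.dom_smul (hF : ∀ i, IsForm (F i)) {x : Fin (n + 1) → ℂ} (hx : x ∈ c.dom) {s : ℂ}
    (hs : s ≠ 0) : s • x ∈ c.dom := ⟨cone_smul hF hx.1 hs, by rw [Phi_smul hs]; exact hx.2⟩

theorem Ch.v_eq {x v : Fin (n + 1) → ℂ} (h : Tg F x v) (hx : x ∈ c.dom) :
    v = x c.i • (fderiv ℂ c.Θ (c.z x) (c.a x v) + (v c.i / x c.i) • c.Θ (c.z x)) := by
  rw [smul_add, smul_smul, mul_div_cancel₀ _ (Ch.ne hx)]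
  exact h.eq hx

/-- the lengths in charts -/
theorem Ch.phi_eq (hΦ : NonposMetric (Cone F) d Φ) {x v : Fin (n + 1) → ℂ} (h : Tg F x v)
    (hx : x ∈ c.dom) : Φ x v = Φ (c.Θ (c.z x)) (fderiv ℂ c.Θ (c.z x) (c.a x v)) := by
  conv_lhs => rw [Ch.eq hx, Ch.v_eq h hx]
  exact hΦ.twist _ (c.mem _ (Ch.z_mem hx)).1 _ _ _ (Ch.ne hx)

theorem Ch.indep {ζ : Fin d → ℂ} (hζ : ζ ∈ c.U) {b : Fin d → ℂ} (hb : b ≠ 0) :
    LinearIndependent ℂ ![c.Θ ζ, fderiv ℂ c.Θ ζ b] := by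
  rw [LinearIndependent.pair_iff]
  intro s t hst
  have ha : s = 0 := by
    have h1 := congrFun hst c.i
    simpa [Ch.fderiv_i hζ, (c.mem ζ hζ).2.1] using h1
  refine ⟨ha, ?_⟩
  by_contra ht
  apply hb
  funext k
  have h1 := congrFun hst (c.J k)
  simp only [ha, zero_smul, zero_add, Pi.smul_apply, smul_eq_mul, Ch.fderiv_J hζ,
    Pi.zero_apply] at h1
  exact (mul_eq_zero.1 h1).resolve_left ht

theorem Ch.indep3 {ζ : Fin d → ℂ} (hζ : ζ ∈ c.U) {a b : Fin d → ℂ}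
    (hab : LinearIndependent ℂ ![a, b]) :
    LinearIndependent ℂ ![c.Θ ζ, fderiv ℂ c.Θ ζ a, fderiv ℂ c.Θ ζ b] := by
  rw [Fintype.linearIndependent_iff]
  intro g hg
  simp only [Fin.sum_univ_three, Matrix.cons_val_zero, Matrix.cons_val_one, Matrix.cons_val] at hg
  have h0 : g 0 = 0 := by
    have h1 := congrFun hg c.i
    simpa [Ch.fderiv_i hζ, (c.mem ζ hζ).2.1] using h1
  have h12 : g 1 • a + g 2 • b = 0 := by
    funext k
    have h1 := congrFun hg (c.J k)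
    simpa [Ch.fderiv_J hζ, h0] using h1
  obtain ⟨h1, h2⟩ := LinearIndependent.pair_iff.1 hab _ _ h12
  intro i
  fin_cases i
  · exact h0
  · exact h1
  · exact h2

theorem Ch.u_cont (hΦ : NonposMetric (Cone F) d Φ) :
    ContinuousOn (fun p : (Fin d → ℂ) × (Fin d → ℂ) => Φ (c.Θ p.1) (fderiv ℂ c.Θ p.1 p.2))
      (c.U ×ˢ univ) := hΦ.cont c.U c.Θ c.hU c.an fun z hz => (c.mem z hz).1

theorem Ch.u_pos (hnd : Nondegenerate (Cone F) d Φ) {ζ : Fin d → ℂ} (hζ : ζ ∈ c.U)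
    {b : Fin d → ℂ} (hb : b ≠ 0) : 0 < Φ (c.Θ ζ) (fderiv ℂ c.Θ ζ b) :=
  hnd c.U c.Θ c.hU c.an (fun z hz => (c.mem z hz).1) ζ hζ b (Ch.indep hζ hb)

theorem Ch.u_smul (hΦ : NonposMetric (Cone F) d Φ) {ζ : Fin d → ℂ} (hζ : ζ ∈ c.U)
    (b : Fin d → ℂ) (s : ℂ) :
    Φ (c.Θ ζ) (fderiv ℂ c.Θ ζ (s • b)) = ‖s‖ * Φ (c.Θ ζ) (fderiv ℂ c.Θ ζ b) := by
  rw [map_smul, hΦ.deg _ (c.mem ζ hζ).1]

theorem Ch.u_zero (hΦ : NonposMetric (Cone F) d Φ) {ζ : Fin d → ℂ} (hζ : ζ ∈ c.U) :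
    Φ (c.Θ ζ) (fderiv ℂ c.Θ ζ 0) = 0 := by
  have := Ch.u_smul hΦ hζ 0 0
  rwa [smul_zero, norm_zero, zero_mul] at this

theorem Ch.u_low (hΦ : NonposMetric (Cone F) d Φ) (hnd : Nondegenerate (Cone F) d Φ)
    {K : Set (Fin d → ℂ)} (hK : IsCompact K) (hKU : K ⊆ c.U) : ∃ m : ℝ, 0 < m ∧
      ∀ ζ ∈ K, ∀ b, m * ‖b‖ ≤ Φ (c.Θ ζ) (fderiv ℂ c.Θ ζ b) := by
  have hcomp : IsCompact (K ×ˢ sphere (0 : Fin d → ℂ) 1) := hK.prod (isCompact_sphere _ _)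
  set f : (Fin d → ℂ) × (Fin d → ℂ) → ℝ := fun p => Φ (c.Θ p.1) (fderiv ℂ c.Θ p.1 p.2) with hf
  have hpos : ∀ p ∈ K ×ˢ sphere (0 : Fin d → ℂ) 1, 0 < f p := by
    rintro ⟨z, w⟩ ⟨hz, hw⟩
    apply Ch.u_pos hnd (hKU hz)
    rintro rfl
    rw [mem_sphere, dist_self] at hw
    exact zero_ne_one hw
  obtain ⟨m, hm, hmf⟩ : ∃ m : ℝ, 0 < m ∧ ∀ p ∈ K ×ˢ sphere (0 : Fin d → ℂ) 1, m ≤ f p := by
    rcases (K ×ˢ sphere (0 : Fin d → ℂ) 1).eq_empty_or_nonempty with he | hne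
    · exact ⟨1, one_pos, fun p hp => by rw [he] at hp; exact absurd hp (notMem_empty _)⟩
    · obtain ⟨p, hp, hpm⟩ := hcomp.exists_isMinOn hne
        ((Ch.u_cont hΦ).mono (prod_mono hKU (subset_univ _)))
      exact ⟨f p, hpos p hp, fun q hq => hpm hq⟩
  refine ⟨m, hm, fun z hz w => ?_⟩
  by_cases hw : w = 0
  · rw [hw, Ch.u_zero hΦ (hKU hz), norm_zero, mul_zero]
  · have hwn : (‖w‖ : ℂ) ≠ 0 := by
      have := norm_pos_iff.2 hw
      exact_mod_cast this.ne'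
    have h1 : w = (‖w‖ : ℂ) • ((‖w‖ : ℂ)⁻¹ • w) := by
      rw [smul_smul, mul_inv_cancel₀ hwn, one_smul]
    have h2 : Φ (c.Θ z) (fderiv ℂ c.Θ z w) = ‖w‖ * f (z, (‖w‖ : ℂ)⁻¹ • w) := by
      conv_lhs => rw [h1]
      rw [Ch.u_smul hΦ (hKU hz), Complex.norm_real, norm_norm]
    rw [h2, mul_comm]
    refine mul_le_mul_of_nonneg_left (hmf _ ⟨hz, ?_⟩) (norm_nonneg _)
    rw [mem_sphere_zero_iff_norm, norm_smul, norm_inv, Complex.norm_real, norm_norm]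
    exact inv_mul_cancel₀ (norm_ne_zero_iff.2 hw)

theorem Ch.pair_cont : ContinuousOn (fun p : (Fin d → ℂ) × (Fin d → ℂ) =>
    (c.Θ p.1, fderiv ℂ c.Θ p.1 p.2)) (c.U ×ˢ univ) := by
  intro p hp
  have h1 : ContinuousAt c.Θ p.1 := (c.an _ hp.1).continuousAt
  have h2 : ContinuousAt (fderiv ℂ c.Θ) p.1 := (c.an _ hp.1).fderiv.continuousAt
  have h3 : ContinuousAt (fun p : (Fin d → ℂ) × (Fin d → ℂ) => fderiv ℂ c.Θ p.1 p.2) p :=
    (h2.comp continuousAt_fst).clm_apply continuousAt_snd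
  exact ((h1.comp continuousAt_fst).prodMk h3).continuousWithinAt

/-- the unit tangent vectors -/
theorem exists_unit (hX : ProjManifold F d) (hΦ : NonposMetric (Cone F) d Φ)
    (hnd : Nondegenerate (Cone F) d Φ) :
    ∃ Y : Set ((Fin (n + 1) → ℂ) × (Fin (n + 1) → ℂ)), IsCompact Y ∧
      (∀ p ∈ Y, Tg F p.1 p.2 ∧ Φ p.1 p.2 = 1) ∧
      ∀ x v, Tg F x v → 0 < Φ x v → ∃ p ∈ Y, ∃ s b : ℂ, s ≠ 0 ∧ x = s • p.1 ∧
        v = s • (((Φ x v : ℝ) : ℂ) • p.2 + b • p.1) := by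
  have key : ∃ Y : Set ((Fin (n + 1) → ℂ) × (Fin (n + 1) → ℂ)), IsCompact Y ∧
      (∀ p ∈ Y, Tg F p.1 p.2 ∧ Φ p.1 p.2 = 1) ∧
      ∀ x v, Phi x ∈ TF F → Tg F x v → 0 < Φ x v → ∃ p ∈ Y, ∃ s b : ℂ, s ≠ 0 ∧ x = s • p.1 ∧
        v = s • (((Φ x v : ℝ) : ℂ) • p.2 + b • p.1) := by
    refine (isCompact_TF hX.form).induction_on (p := fun A =>
      ∃ Y : Set ((Fin (n + 1) → ℂ) × (Fin (n + 1) → ℂ)), IsCompact Y ∧
      (∀ p ∈ Y, Tg F p.1 p.2 ∧ Φ p.1 p.2 = 1) ∧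
      ∀ x v, Phi x ∈ A → Tg F x v → 0 < Φ x v → ∃ p ∈ Y, ∃ s b : ℂ, s ≠ 0 ∧ x = s • p.1 ∧
        v = s • (((Φ x v : ℝ) : ℂ) • p.2 + b • p.1)) ?_ ?_ ?_ ?_
    · exact ⟨∅, isCompact_empty, fun p hp => absurd hp (notMem_empty _),
        fun x v hx => absurd hx (notMem_empty _)⟩
    · rintro s t hst ⟨Y, h1, h2, h3⟩
      exact ⟨Y, h1, h2, fun x v hx => h3 x v (hst hx)⟩
    · rintro s t ⟨Y, h1, h2, h3⟩ ⟨Y', h1', h2', h3'⟩
      refine ⟨Y ∪ Y', h1.union h1', ?_, ?_⟩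
      · rintro p (hp | hp)
        · exact h2 p hp
        · exact h2' p hp
      · rintro x v (hx | hx) hT hpos
        · obtain ⟨p, hp, h⟩ := h3 x v hx hT hpos
          exact ⟨p, Or.inl hp, h⟩
        · obtain ⟨p, hp, h⟩ := h3' x v hx hT hpos
          exact ⟨p, Or.inr hp, h⟩
    · intro M0 hM0
      obtain ⟨c, hc⟩ := exists_ch hX hM0
      obtain ⟨hi0, hU0, -⟩ := c.loc _ hc
      set ξ : Mat (n + 1) → Fin d → ℂ := fun M k => chart c.i M (c.J k) with hξ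
      have hcξ : ContinuousAt ξ M0 := by
        rw [continuousAt_pi]
        intro k
        exact (continuous_apply (c.J k)).continuousAt.comp (continuousAt_chart hi0)
      obtain ⟨ε, hε, hεU⟩ := Metric.isOpen_iff.1 c.hU _ hU0
      have hsubU : closedBall (ξ M0) (ε / 2) ⊆ c.U :=
        (closedBall_subset_ball (by linarith)).trans hεU
      have hev0 : ∀ᶠ M in 𝓝 M0, M ∈ c.O := c.hO.mem_nhds hc
      have hev : ∀ᶠ M in 𝓝 M0, M ∈ c.O ∧ ξ M ∈ closedBall (ξ M0) (ε / 2) :=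
        hev0.and (hcξ.eventually (closedBall_mem_nhds _ (by positivity)))
      obtain ⟨m, hm, hlow⟩ := Ch.u_low hΦ hnd (isCompact_closedBall (ξ M0) (ε / 2)) hsubU
      set A : Set ((Fin d → ℂ) × (Fin d → ℂ)) := {p | p ∈ closedBall (ξ M0) (ε / 2) ×ˢ
        closedBall (0 : Fin d → ℂ) (1 / m) ∧ Φ (c.Θ p.1) (fderiv ℂ c.Θ p.1 p.2) = 1} with hA
      have hAc : IsCompact A := by
        have h1 : IsCompact (closedBall (ξ M0) (ε / 2) ×ˢ closedBall (0 : Fin d → ℂ) (1 / m)) :=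
          (isCompact_closedBall _ _).prod (isCompact_closedBall _ _)
        have h2 : ContinuousOn (fun p : (Fin d → ℂ) × (Fin d → ℂ) =>
            Φ (c.Θ p.1) (fderiv ℂ c.Θ p.1 p.2))
            (closedBall (ξ M0) (ε / 2) ×ˢ closedBall (0 : Fin d → ℂ) (1 / m)) :=
          (Ch.u_cont hΦ).mono (prod_mono hsubU (subset_univ _))
        have h3 := h2.preimage_isClosed_of_isClosed h1.isClosed (isClosed_singleton (x := (1 : ℝ)))
        exact h1.of_isClosed_subset h3 fun p hp => hp.1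
      have hAU : A ⊆ c.U ×ˢ univ := fun p hp => ⟨hsubU hp.1.1, mem_univ _⟩
      refine ⟨{M | M ∈ c.O ∧ ξ M ∈ closedBall (ξ M0) (ε / 2)}, mem_nhdsWithin_of_mem_nhds hev,
        (fun p : (Fin d → ℂ) × (Fin d → ℂ) => (c.Θ p.1, fderiv ℂ c.Θ p.1 p.2)) '' A,
        hAc.image_of_continuousOn (Ch.pair_cont.mono hAU), ?_, ?_⟩
      · rintro _ ⟨p, hp, rfl⟩
        exact ⟨Ch.tg (hAU hp).1 _, hp.2⟩
      · intro x v hx hT hpos
        have hxd : x ∈ c.dom := ⟨hT.mem, hx.1⟩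
        have hzx : c.z x ∈ closedBall (ξ M0) (ε / 2) := by
          rw [← Ch.chart_eq hxd]
          exact hx.2
        have hΦx := Ch.phi_eq hΦ hT hxd
        have hne : ((Φ x v : ℝ) : ℂ) ≠ 0 := by exact_mod_cast hpos.ne'
        have hu1 : Φ (c.Θ (c.z x)) (fderiv ℂ c.Θ (c.z x) (((Φ x v : ℝ) : ℂ)⁻¹ • c.a x v)) = 1 := by
          rw [Ch.u_smul hΦ (Ch.z_mem hxd), ← hΦx, norm_inv, Complex.norm_real,
            Real.norm_of_nonneg hpos.le, inv_mul_cancel₀ hpos.ne']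
        refine ⟨_, ⟨(c.z x, ((Φ x v : ℝ) : ℂ)⁻¹ • c.a x v), ⟨⟨hzx, ?_⟩, hu1⟩, rfl⟩, x c.i,
          v c.i / x c.i, Ch.ne hxd, Ch.eq hxd, ?_⟩
        · rw [mem_closedBall_zero_iff, le_div_iff₀ hm, mul_comm]
          exact (hlow _ hzx _).trans hu1.le
        · simp only
          rw [map_smul, smul_smul, mul_inv_cancel₀ hne, one_smul]
          exact Ch.v_eq hT hxd
  obtain ⟨Y, h1, h2, h3⟩ := key
  exact ⟨Y, h1, h2, fun x v hT => h3 x v ⟨x, hT.mem, rfl⟩ hT⟩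

/-- the norm of the 2-forms -/
noncomputable def Nx [Fintype κ]
    (η : κ → (Fin (n + 1) → ℂ) → (Fin (n + 1) → ℂ) → (Fin (n + 1) → ℂ) → ℂ)
    (x v w : Fin (n + 1) → ℂ) : ℝ := √(sqn x) * ‖fun q => η q x v w‖

/-- the norm of the 2-forms in charts -/
noncomputable def Ch.N [Fintype κ] (c : Ch F d)
    (η : κ → (Fin (n + 1) → ℂ) → (Fin (n + 1) → ℂ) → (Fin (n + 1) → ℂ) → ℂ)
    (ζ a b : Fin d → ℂ) : ℝ := Nx η (c.Θ ζ) (fderiv ℂ c.Θ ζ a) (fderiv ℂ c.Θ ζ b)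

theorem sqn_smul {N : ℕ} (s : ℂ) (x : Fin N → ℂ) : sqn (s • x) = ‖s‖ ^ 2 * sqn x := by
  unfold sqn
  rw [Finset.mul_sum]
  refine Finset.sum_congr rfl fun k _ => ?_
  rw [Pi.smul_apply, smul_eq_mul, norm_mul, mul_pow]

theorem Nx_twist [Fintype κ] {Z : Set (Fin (n + 1) → ℂ)} (hη : PositiveTwoForms (Cone F) Z d η)
    {x : Fin (n + 1) → ℂ} (hx : x ∈ Cone F) (v w : Fin (n + 1) → ℂ) {s : ℂ} (hs : s ≠ 0)
    (a b e : ℂ) : Nx η (s • x) (s • (v + a • x)) (s • (w + b • x + e • v)) = Nx η x v w := by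
  unfold Nx
  have h1 : (fun q => η q (s • x) (s • (v + a • x)) (s • (w + b • x + e • v))) =
      s⁻¹ • fun q => η q x v w := by
    funext q
    rw [hη.twist q x hx v w s a b e hs, Pi.smul_apply, smul_eq_mul]
  rw [h1, norm_smul, sqn_smul, Real.sqrt_mul (sq_nonneg _), Real.sqrt_sq (norm_nonneg _), norm_inv]
  have := norm_pos_iff.2 hs
  field_simp

theorem Ch.N_eq [Fintype κ] {Z : Set (Fin (n + 1) → ℂ)} (hη : PositiveTwoForms (Cone F) Z d η)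
    {x v w : Fin (n + 1) → ℂ} (hv : Tg F x v) (hw : Tg F x w) (hx : x ∈ c.dom) :
    Nx η x v w = c.N η (c.z x) (c.a x v) (c.a x w) := by
  have h1 := Nx_twist hη (c.mem _ (Ch.z_mem hx)).1 (fderiv ℂ c.Θ (c.z x) (c.a x v))
    (fderiv ℂ c.Θ (c.z x) (c.a x w)) (Ch.ne hx) (v c.i / x c.i) (w c.i / x c.i) 0
  rw [zero_smul, add_zero, ← Ch.v_eq hv hx, ← Ch.v_eq hw hx, ← Ch.eq hx] at h1
  exact h1

theorem Nx_nonneg [Fintype κ] (x v w : Fin (n + 1) → ℂ) : 0 ≤ Nx η x v w :=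
  mul_nonneg (Real.sqrt_nonneg _) (norm_nonneg _)

theorem Ch.N_nonneg [Fintype κ] (ζ a b : Fin d → ℂ) : 0 ≤ c.N η ζ a b := Nx_nonneg _ _ _

theorem Ch.N_pos [Fintype κ] (hη : PositiveTwoForms (Cone F) ∅ d η) {ζ : Fin d → ℂ}
    (hζ : ζ ∈ c.U) {a b : Fin d → ℂ} (hab : LinearIndependent ℂ ![a, b]) : 0 < c.N η ζ a b := by
  obtain ⟨q, hq⟩ := hη.pos c.U c.Θ c.hU c.an (fun z hz => (c.mem z hz).1) ζ hζ (notMem_empty _) a b
    (Ch.indep3 hζ hab)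
  unfold Ch.N Nx
  have h1 : 0 < sqn (c.Θ ζ) := sqn_pos (c.mem ζ hζ).1.1
  refine mul_pos (Real.sqrt_pos.2 h1) (norm_pos_iff.2 fun h => hq ?_)
  exact congrFun h q

theorem Ch.N_add [Fintype κ] {Z : Set (Fin (n + 1) → ℂ)} (hη : PositiveTwoForms (Cone F) Z d η)
    {ζ : Fin d → ℂ} (hζ : ζ ∈ c.U) (a b : Fin d → ℂ) (e : ℂ) :
    c.N η ζ a (b + e • a) = c.N η ζ a b := by
  have h1 := Nx_twist hη (c.mem ζ hζ).1 (fderiv ℂ c.Θ ζ a) (fderiv ℂ c.Θ ζ b) one_ne_zero 0 0 e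
  rw [one_smul, one_smul, one_smul, zero_smul, add_zero, add_zero, ← map_smul, ← map_add] at h1
  exact h1

theorem Ch.N_left [Fintype κ] {ν : ℕ} (hη : HomForms (Cone F) ν η) {ζ : Fin d → ℂ}
    (hζ : ζ ∈ c.U) (a b : Fin d → ℂ) (s : ℂ) : c.N η ζ (s • a) b = ‖s‖ ^ ν * c.N η ζ a b := by
  unfold Ch.N Nx
  have h1 : (fun q => η q (c.Θ ζ) (fderiv ℂ c.Θ ζ (s • a)) (fderiv ℂ c.Θ ζ b)) =
      s ^ ν • fun q => η q (c.Θ ζ) (fderiv ℂ c.Θ ζ a) (fderiv ℂ c.Θ ζ b) := by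
    funext q
    rw [map_smul, hη.left q _ (c.mem ζ hζ).1, Pi.smul_apply, smul_eq_mul]
  rw [h1, norm_smul, norm_pow]
  ring

theorem Ch.N_right [Fintype κ] {ν : ℕ} (hη : HomForms (Cone F) ν η) {ζ : Fin d → ℂ}
    (hζ : ζ ∈ c.U) (a b : Fin d → ℂ) (s : ℂ) : c.N η ζ a (s • b) = ‖s‖ ^ ν * c.N η ζ a b := by
  unfold Ch.N Nx
  have h1 : (fun q => η q (c.Θ ζ) (fderiv ℂ c.Θ ζ a) (fderiv ℂ c.Θ ζ (s • b))) =
      s ^ ν • fun q => η q (c.Θ ζ) (fderiv ℂ c.Θ ζ a) (fderiv ℂ c.Θ ζ b) := by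
    funext q
    rw [map_smul, hη.right q _ (c.mem ζ hζ).1, Pi.smul_apply, smul_eq_mul]
  rw [h1, norm_smul, norm_pow]
  ring

theorem Ch.N_cont [Fintype κ] {Z : Set (Fin (n + 1) → ℂ)} (hη : PositiveTwoForms (Cone F) Z d η) :
    ContinuousOn (fun p : (Fin d → ℂ) × (Fin d → ℂ) × (Fin d → ℂ) => c.N η p.1 p.2.1 p.2.2)
      (c.U ×ˢ univ) := by
  unfold Ch.N Nx
  apply ContinuousOn.mul
  · apply ContinuousOn.sqrt
    unfold sqn
    have h1 : ContinuousOn (fun p : (Fin d → ℂ) × (Fin d → ℂ) × (Fin d → ℂ) => c.Θ p.1)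
        (c.U ×ˢ univ) := by
      refine ContinuousOn.comp (t := c.U) (fun z hz => (c.an z hz).continuousAt.continuousWithinAt)
        continuousOn_fst fun p hp => hp.1
    have h2 : ∀ k, ContinuousOn (fun p : (Fin d → ℂ) × (Fin d → ℂ) × (Fin d → ℂ) => c.Θ p.1 k)
        (c.U ×ˢ univ) := fun k => (continuousOn_pi.1 h1) k
    fun_prop
  · apply ContinuousOn.norm
    rw [continuousOn_pi]
    intro q
    exact (hη.hol q c.U c.Θ c.hU c.an fun z hz => (c.mem z hz).1).continuousOn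

end Pool.Agent.H33
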