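import Pool.Agent.H33.JJ

/-! Local data at curves of speed one. -/

set_option autoImplicit false

open Filter Topology Metric Set MvPolynomial LinearAlgebra.Projectivization

namespace Pool.Agent.H33

open Pool.Agent.Y190.OP Pool.Agent.W602.GT Pool.Agent.N155 Pool.Agent.N155.BB

/-- lower bounds of homogeneous functions -/
theorem hom_low {X E : Type*} [TopologicalSpace X] [NormedAddCommGroup E] [NormedSpace ℂ E]
    [ProperSpace E] {K : Set X} (hK : IsCompact K) {S : Set E} (hS : IsClosed S)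
    (hS' : ∀ (s : ℂ), ∀ b ∈ S, s • b ∈ S) {f : X → E → ℝ} {ν : ℕ} (hν : ν ≠ 0)
    (hf : ContinuousOn (fun p : X × E => f p.1 p.2) (K ×ˢ univ))
    (hh : ∀ x ∈ K, ∀ (b : E) (s : ℂ), f x (s • b) = ‖s‖ ^ ν * f x b)
    (hpos : ∀ x ∈ K, ∀ b ∈ S, b ≠ 0 → 0 < f x b) :
    ∃ m : ℝ, 0 < m ∧ ∀ x ∈ K, ∀ b ∈ S, m * ‖b‖ ^ ν ≤ f x b := by
  have hcomp : IsCompact (K ×ˢ (sphere (0 : E) 1 ∩ S)) :=
    hK.prod ((isCompact_sphere _ _).inter_right hS)
  obtain ⟨m, hm, hmf⟩ : ∃ m : ℝ, 0 < m ∧ ∀ p ∈ K ×ˢ (sphere (0 : E) 1 ∩ S), m ≤ f p.1 p.2 := by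
    rcases (K ×ˢ (sphere (0 : E) 1 ∩ S)).eq_empty_or_nonempty with he | hne
    · exact ⟨1, one_pos, fun p hp => by rw [he] at hp; exact absurd hp (notMem_empty _)⟩
    · obtain ⟨p, hp, hpm⟩ := hcomp.exists_isMinOn hne
        (hf.mono (prod_mono (subset_refl K) (subset_univ _)))
      refine ⟨f p.1 p.2, hpos _ hp.1 _ hp.2.2 ?_, fun q hq => hpm hq⟩
      intro h0
      have := hp.2.1
      rw [h0, mem_sphere, dist_self] at this
      exact zero_ne_one this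
  refine ⟨m, hm, fun x hx b hb => ?_⟩
  by_cases hb0 : b = 0
  · have h1 := hh x hx 0 0
    rw [smul_zero, norm_zero, zero_pow hν, zero_mul] at h1
    rw [hb0, h1, norm_zero, zero_pow hν, mul_zero]
  · have hn : 0 < ‖b‖ := norm_pos_iff.2 hb0
    have hnc : (‖b‖ : ℂ) ≠ 0 := by exact_mod_cast hn.ne'
    have h1 : b = (‖b‖ : ℂ) • ((‖b‖ : ℂ)⁻¹ • b) := by
      rw [smul_smul, mul_inv_cancel₀ hnc, one_smul]
    have h2 : f x b = ‖b‖ ^ ν * f x ((‖b‖ : ℂ)⁻¹ • b) := by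
      conv_lhs => rw [h1]
      rw [hh x hx, Complex.norm_real, norm_norm]
    rw [h2, mul_comm]
    refine mul_le_mul_of_nonneg_left (hmf (x, _) ⟨hx, ?_, hS' _ _ hb⟩) (by positivity)
    rw [mem_sphere_zero_iff_norm, norm_smul, norm_inv, Complex.norm_real, norm_norm]
    exact inv_mul_cancel₀ hn.ne'

/-- upper bounds of homogeneous functions -/
theorem hom_up {X E : Type*} [TopologicalSpace X] [NormedAddCommGroup E] [NormedSpace ℂ E]
    [ProperSpace E] {K : Set X} (hK : IsCompact K) {f : X → E → ℝ} {ν : ℕ} (hν : ν ≠ 0)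
    (hf : ContinuousOn (fun p : X × E => f p.1 p.2) (K ×ˢ univ))
    (hh : ∀ x ∈ K, ∀ (b : E) (s : ℂ), f x (s • b) = ‖s‖ ^ ν * f x b) :
    ∃ M : ℝ, 0 < M ∧ ∀ x ∈ K, ∀ b, f x b ≤ M * ‖b‖ ^ ν := by
  have hcomp : IsCompact (K ×ˢ (sphere (0 : E) 1)) := hK.prod (isCompact_sphere _ _)
  obtain ⟨M, hM⟩ := hcomp.exists_bound_of_continuousOn
    (hf.mono (prod_mono (subset_refl K) (subset_univ _)))
  refine ⟨max M 1, lt_of_lt_of_le one_pos (le_max_right _ _), fun x hx b => ?_⟩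
  by_cases hb0 : b = 0
  · have h1 := hh x hx 0 0
    rw [smul_zero, norm_zero, zero_pow hν, zero_mul] at h1
    rw [hb0, h1, norm_zero, zero_pow hν, mul_zero]
  · have hn : 0 < ‖b‖ := norm_pos_iff.2 hb0
    have hnc : (‖b‖ : ℂ) ≠ 0 := by exact_mod_cast hn.ne'
    have h1 : b = (‖b‖ : ℂ) • ((‖b‖ : ℂ)⁻¹ • b) := by
      rw [smul_smul, mul_inv_cancel₀ hnc, one_smul]
    have h2 : f x b = ‖b‖ ^ ν * f x ((‖b‖ : ℂ)⁻¹ • b) := by
      conv_lhs => rw [h1]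
      rw [hh x hx, Complex.norm_real, norm_norm]
    rw [h2, mul_comm]
    refine mul_le_mul_of_nonneg_right ?_ (by positivity)
    refine ((le_abs_self _).trans (hM (x, _) ⟨hx, ?_⟩)).trans (le_max_left _ _)
    rw [mem_sphere_zero_iff_norm, norm_smul, norm_inv, Complex.norm_real, norm_norm]
    exact inv_mul_cancel₀ hn.ne'

variable {n : ℕ} {ι ι' : Type} {F : ι → MvPolynomial (Fin (n + 1)) ℂ}
  {G : ι' → MvPolynomial (Fin (n + 1)) ℂ} {d : ℕ}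
  {κ : Type} {η : κ → (Fin (n + 1) → ℂ) → (Fin (n + 1) → ℂ) → (Fin (n + 1) → ℂ) → ℂ}
  {Φ : (Fin (n + 1) → ℂ) → (Fin (n + 1) → ℂ) → ℝ} {c : Ch F d} {H : ℂ → Mat (n + 1)} {ν : ℕ}

/-- local data at curves of speed one -/
structure Dt (F : ι → MvPolynomial (Fin (n + 1)) ℂ) (d : ℕ)
    (Φ : (Fin (n + 1) → ℂ) → (Fin (n + 1) → ℂ) → ℝ) where
  c : Ch F d
  H : ℂ → Mat (n + 1)
  k : Fin d
  ρ : ℝ
  r : ℝ
  tt : (Fin d → ℂ) → ℂ
  hH : Ec F Φ H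
  hρ : 0 < ρ
  hr : 0 < r
  ball : ∀ w ∈ closedBall (c.ζ H 0) ρ, w ∈ c.U ∧ Phi (c.Θ w) ∈ c.O ∧ AnalyticAt ℂ tt w ∧
    H (tt w) ∈ c.O ∧ c.ζ H (tt w) k = w k ∧ deriv (c.ζ H) (tt w) k ≠ 0
  line : ∀ t, ‖t‖ < 2 * r → H t ∈ c.O ∧ c.ζ H t ∈ Metric.ball (c.ζ H 0) (ρ / 4) ∧
    tt (c.ζ H t) = t

theorem exists_dt (hX : ProjManifold F d) (hΦ : NonposMetric (Cone F) d Φ) (hH : Ec F Φ H) :
    ∃ D : Dt F d Φ, D.H = H := by
  obtain ⟨c, hc⟩ := exists_ch hX (hH.mem 0)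
  have hζ := Ch.ζ_an hH.hol hc
  obtain ⟨k, hk⟩ := Function.ne_iff.1 (hH.deriv_ne hX hΦ hc)
  have hk' : deriv (c.ζ H) 0 k ≠ 0 := hk
  have hα : AnalyticAt ℂ (fun t => c.ζ H t k) 0 := (analyticAt_pi_iff.1 hζ) k
  have hd0 : ∀ t, H t ∈ c.O → deriv (fun t => c.ζ H t k) t = deriv (c.ζ H) t k := by
    intro t ht
    exact ((hasDerivAt_pi.1 (Ch.ζ_an hH.hol ht).differentiableAt.hasDerivAt) k).deriv
  have hαd : deriv (fun t => c.ζ H t k) 0 ≠ 0 := by rw [hd0 0 hc]; exact hk'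
  set A := hα.hasStrictDerivAt.localInverse _ _ _ hαd with hA
  have hA1 : AnalyticAt ℂ A (c.ζ H 0 k) := hα.analyticAt_localInverse hαd
  have hA2 : ∀ᶠ t in 𝓝 0, A (c.ζ H t k) = t :=
    hα.hasStrictDerivAt.eventually_left_inverse hαd
  have hA3 : ∀ᶠ s in 𝓝 (c.ζ H 0 k), c.ζ H (A s) k = s :=
    hα.hasStrictDerivAt.eventually_right_inverse hαd
  have hA0 : A (c.ζ H 0 k) = 0 := hA2.self_of_nhds
  set tt : (Fin d → ℂ) → ℂ := fun w => A (w k) with htt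
  have hproj : AnalyticAt ℂ (fun w : Fin d → ℂ => w k) (c.ζ H 0) :=
    (ContinuousLinearMap.proj (R := ℂ) (φ := fun _ : Fin d => ℂ) k).analyticAt _
  have htt1 : AnalyticAt ℂ tt (c.ζ H 0) :=
    AnalyticAt.comp (g := A) (f := fun w : Fin d → ℂ => w k) hA1 hproj
  have htt0 : tt (c.ζ H 0) = 0 := hA0
  have hcζ : ContinuousAt (c.ζ H) 0 := hζ.continuousAt
  have e1 : ∀ᶠ w in 𝓝 (c.ζ H 0), w ∈ c.U := c.hU.mem_nhds (Ch.ζ_mem hc)
  have e2 : ∀ᶠ w in 𝓝 (c.ζ H 0), Phi (c.Θ w) ∈ c.O := by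
    have h1 : ContinuousAt c.Θ (c.ζ H 0) := (c.an _ (Ch.ζ_mem hc)).continuousAt
    have h2 : ContinuousAt (Phi : (Fin (n + 1) → ℂ) → Mat (n + 1)) (c.Θ (c.ζ H 0)) :=
      continuousAt_Phi (c.mem _ (Ch.ζ_mem hc)).1.1
    refine (ContinuousAt.comp h2 h1).eventually (c.hO.mem_nhds ?_)
    rw [Function.comp_apply, Ch.Phi_ζ hc (hH.mem 0)]
    exact hc
  have e3 := htt1.eventually_analyticAt
  have e4 : ∀ᶠ w in 𝓝 (c.ζ H 0), H (tt w) ∈ c.O := by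
    have h1 : ContinuousAt (fun w => H (tt w)) (c.ζ H 0) :=
      hH.cont.continuousAt.comp htt1.continuousAt
    refine h1.eventually (c.hO.mem_nhds ?_)
    change H (tt (c.ζ H 0)) ∈ c.O
    rw [htt0]
    exact hc
  have e5 : ∀ᶠ w in 𝓝 (c.ζ H 0), c.ζ H (tt w) k = w k := hproj.continuousAt.eventually hA3
  have e6 : ∀ᶠ w in 𝓝 (c.ζ H 0), deriv (c.ζ H) (tt w) k ≠ 0 := by
    have h1 : ContinuousAt (fun t => deriv (c.ζ H) t k) (tt (c.ζ H 0)) := by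
      rw [htt0]
      exact (continuous_apply k).continuousAt.comp hζ.deriv.continuousAt
    have h2 : ContinuousAt (fun w => deriv (c.ζ H) (tt w) k) (c.ζ H 0) :=
      ContinuousAt.comp (g := fun t => deriv (c.ζ H) t k) h1 htt1.continuousAt
    refine h2.eventually_ne ?_
    rw [htt0]
    exact hk'
  obtain ⟨ε, hε, hb⟩ := Metric.eventually_nhds_iff_ball.1
    (e1.and (e2.and (e3.and (e4.and (e5.and e6)))))
  have hρ : 0 < ε / 2 := by positivity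
  have f1 := hH.ev_O hc
  have f2 : ∀ᶠ t in 𝓝 (0 : ℂ), c.ζ H t ∈ Metric.ball (c.ζ H 0) (ε / 2 / 4) :=
    hcζ.eventually (ball_mem_nhds _ (by positivity))
  obtain ⟨s, hs, hb2⟩ := Metric.eventually_nhds_iff_ball.1 (f1.and (f2.and hA2))
  refine ⟨⟨c, H, k, ε / 2, s / 2, tt, hH, hρ, by positivity, fun w hw => ?_, fun t ht => ?_⟩, rfl⟩
  · exact hb w (closedBall_subset_ball (by linarith) hw)
  · exact hb2 t (by rw [mem_ball_zero_iff]; linarith)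

namespace Dt

variable (D : Dt F d Φ)

/-- the closed ball of the coordinates -/
def B : Set (Fin d → ℂ) := closedBall (D.c.ζ D.H 0) D.ρ

noncomputable def τ (w : Fin d → ℂ) : Fin d → ℂ := deriv (D.c.ζ D.H) (D.tt w)

noncomputable def Y (w : Fin d → ℂ) : Fin d → ℂ := w - D.c.ζ D.H (D.tt w)

/-- the domain -/
def dom : Set (Fin (n + 1) → ℂ) := {x | x ∈ D.c.dom ∧ D.c.z x ∈ Metric.ball (D.c.ζ D.H 0) D.ρ}

noncomputable def t (x : Fin (n + 1) → ℂ) : ℂ := D.tt (D.c.z x)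

variable [Fintype κ]

noncomputable def P
    (η : κ → (Fin (n + 1) → ℂ) → (Fin (n + 1) → ℂ) → (Fin (n + 1) → ℂ) → ℂ)
    (x : Fin (n + 1) → ℂ) : ℝ := D.c.N η (D.c.z x) (D.τ (D.c.z x)) (D.Y (D.c.z x))

noncomputable def Q
    (η : κ → (Fin (n + 1) → ℂ) → (Fin (n + 1) → ℂ) → (Fin (n + 1) → ℂ) → ℂ)
    (x v : Fin (n + 1) → ℂ) : ℝ := D.c.N η (D.c.z x) (D.τ (D.c.z x)) (D.c.a x v)

/-- the distance function -/
noncomputable def e
    (η : κ → (Fin (n + 1) → ℂ) → (Fin (n + 1) → ℂ) → (Fin (n + 1) → ℂ) → ℂ) (ν : ℕ)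
    (x v : Fin (n + 1) → ℂ) : ℝ := max (Φ x v ^ ν * D.P η x) (D.Q η x v)

variable {D}

omit [Fintype κ] in
theorem τ_an {w : Fin d → ℂ} (hw : w ∈ D.B) : AnalyticAt ℂ D.τ w :=
  AnalyticAt.comp (g := deriv (D.c.ζ D.H)) (Ch.ζ_an D.hH.hol (D.ball w hw).2.2.2.1).deriv
    (D.ball w hw).2.2.1

omit [Fintype κ] in
theorem Y_an {w : Fin d → ℂ} (hw : w ∈ D.B) : AnalyticAt ℂ D.Y w :=
  analyticAt_id.sub (AnalyticAt.comp (g := D.c.ζ D.H) (Ch.ζ_an D.hH.hol (D.ball w hw).2.2.2.1)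
    (D.ball w hw).2.2.1)

omit [Fintype κ] in
theorem Y_k {w : Fin d → ℂ} (hw : w ∈ D.B) : D.Y w D.k = 0 := by
  unfold Y
  rw [Pi.sub_apply, (D.ball w hw).2.2.2.2.1, sub_self]

omit [Fintype κ] in
theorem τ_k {w : Fin d → ℂ} (hw : w ∈ D.B) : D.τ w D.k ≠ 0 := (D.ball w hw).2.2.2.2.2

omit [Fintype κ] in
theorem B_sub {w : Fin d → ℂ} (hw : w ∈ D.B) : w ∈ D.c.U := (D.ball w hw).1

omit [Fintype κ] in
theorem indep {w : Fin d → ℂ} (hw : w ∈ D.B) {b : Fin d → ℂ} (hb : b D.k = 0) (hb0 : b ≠ 0) :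
    LinearIndependent ℂ ![D.τ w, b] := by
  rw [LinearIndependent.pair_iff]
  intro s t hst
  have h1 : s = 0 := by
    have h2 := congrFun hst D.k
    simp only [Pi.add_apply, Pi.smul_apply, smul_eq_mul, hb, mul_zero, add_zero,
      Pi.zero_apply] at h2
    exact (mul_eq_zero.1 h2).resolve_right (τ_k hw)
  refine ⟨h1, ?_⟩
  rw [h1, zero_smul, zero_add] at hst
  exact (smul_eq_zero.1 hst).resolve_right hb0

theorem Nτ_cont (hη : PositiveTwoForms (Cone F) ∅ d η) : ContinuousOn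
    (fun p : (Fin d → ℂ) × (Fin d → ℂ) => D.c.N η p.1 (D.τ p.1) p.2) (D.B ×ˢ univ) := by
  have h1 := Ch.N_cont (c := D.c) hη
  refine h1.comp (f := fun p : (Fin d → ℂ) × (Fin d → ℂ) => (p.1, D.τ p.1, p.2)) ?_
    fun p hp => ⟨B_sub hp.1, mem_univ _⟩
  refine continuousOn_fst.prodMk (ContinuousOn.prodMk ?_ continuousOn_snd)
  exact ContinuousOn.comp (g := D.τ) (t := D.B)
    (fun w hw => (τ_an hw).continuousAt.continuousWithinAt) continuousOn_fst fun p hp => hp.1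

/-- the lower bound of the 2-forms -/
theorem N_low (hη : PositiveTwoForms (Cone F) ∅ d η) (hν : ν ≠ 0) (hh : HomForms (Cone F) ν η) :
    ∃ m : ℝ, 0 < m ∧ ∀ w ∈ D.B, ∀ b : Fin d → ℂ, b D.k = 0 →
      m * ‖b‖ ^ ν ≤ D.c.N η w (D.τ w) b := by
  refine hom_low (K := D.B) (isCompact_closedBall _ _) (S := {b : Fin d → ℂ | b D.k = 0})
    (isClosed_eq (continuous_apply _) continuous_const) ?_ hν (Nτ_cont hη) ?_ ?_
  · intro s b hb
    rw [Set.mem_ofPred_eq] at hb ⊢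
    rw [Pi.smul_apply, hb, smul_zero]
  · intro w hw b s
    exact Ch.N_right hh (B_sub hw) _ _ _
  · intro w hw b hb hb0
    exact Ch.N_pos hη (B_sub hw) (indep hw hb hb0)

/-- the upper bound of the 2-forms -/
theorem N_up (hη : PositiveTwoForms (Cone F) ∅ d η) (hν : ν ≠ 0) (hh : HomForms (Cone F) ν η) :
    ∃ M : ℝ, 0 < M ∧ ∀ w ∈ D.B, ∀ b : Fin d → ℂ, D.c.N η w (D.τ w) b ≤ M * ‖b‖ ^ ν :=
  hom_up (K := D.B) (isCompact_closedBall _ _) hν (Nτ_cont hη)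
    fun _ hw _ _ => Ch.N_right hh (B_sub hw) _ _ _

omit [Fintype κ] in
theorem dom_B {x : Fin (n + 1) → ℂ} (hx : x ∈ D.dom) : D.c.z x ∈ D.B := ball_subset_closedBall hx.2

omit [Fintype κ] in
theorem dom_smul (hF : ∀ i, IsForm (F i)) {x : Fin (n + 1) → ℂ} (hx : x ∈ D.dom) {s : ℂ}
    (hs : s ≠ 0) : s • x ∈ D.dom := ⟨Ch.dom_smul hF hx.1 hs, by rw [Ch.z_smul x hs]; exact hx.2⟩

theorem P_nonneg (x : Fin (n + 1) → ℂ) : 0 ≤ D.P η x := Ch.N_nonneg _ _ _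

theorem Q_nonneg (x v : Fin (n + 1) → ℂ) : 0 ≤ D.Q η x v := Ch.N_nonneg _ _ _

theorem e_nonneg (x v : Fin (n + 1) → ℂ) : 0 ≤ D.e η ν x v := (Q_nonneg _ _).trans (le_max_right _ _)

/-- the points of the curve -/
theorem line_dom {x : Fin (n + 1) → ℂ} (hx : x ∈ Cone F) {t : ℂ} (ht : ‖t‖ < 2 * D.r)
    (h : D.H t = Phi x) : x ∈ D.dom ∧ D.c.z x = D.c.ζ D.H t ∧ D.t x = t ∧ D.Y (D.c.z x) = 0 := by
  obtain ⟨h1, h2, h3⟩ := D.line t ht
  have hd : x ∈ D.c.dom := ⟨hx, by rw [← h]; exact h1⟩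
  have hz : D.c.z x = D.c.ζ D.H t := (Ch.ζ_of hd h).symm
  refine ⟨⟨hd, ?_⟩, hz, ?_, ?_⟩
  · rw [hz]
    exact ball_subset_ball (by linarith [D.hρ]) h2
  · unfold Dt.t
    rw [hz, h3]
  · unfold Y
    rw [hz, h3, sub_self]

/-- `N(τ, τ) = 0` -/
theorem N_self (hη : PositiveTwoForms (Cone F) ∅ d η) (hν : ν ≠ 0) (hh : HomForms (Cone F) ν η)
    {w : Fin d → ℂ} (hw : w ∈ D.B) (s : ℂ) : D.c.N η w (D.τ w) (s • D.τ w) = 0 := by
  have h1 := Ch.N_add (c := D.c) hη (B_sub hw) (D.τ w) 0 s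
  have h2 := Ch.N_right (c := D.c) hh (B_sub hw) (D.τ w) 0 0
  rw [norm_zero, zero_pow hν, zero_mul, smul_zero] at h2
  rw [zero_add] at h1
  rw [h1, h2]

theorem N_zero (hη : PositiveTwoForms (Cone F) ∅ d η) (hν : ν ≠ 0) (hh : HomForms (Cone F) ν η)
    {w : Fin d → ℂ} (hw : w ∈ D.B) : D.c.N η w (D.τ w) 0 = 0 := by
  have := N_self hη hν hh hw 0
  rwa [zero_smul] at this

/-- the distance function vanishes at the jets of the curve -/
theorem e_of_jet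
    (hη : PositiveTwoForms (Cone F) ∅ d η) (hν : ν ≠ 0) (hh : HomForms (Cone F) ν η)
    {x v : Fin (n + 1) → ℂ} (hx : x ∈ Cone F) {t μ : ℂ} (ht : ‖t‖ < 2 * D.r)
    (h : EJ F Φ (fun z => D.H (t + μ * z)) x v) :
    x ∈ D.dom ∧ D.t x = t ∧ D.c.a x v = μ • D.τ (D.c.z x) ∧ D.e η ν x v = 0 := by
  have hpt : D.H t = Phi x := by
    have := h.pt
    simp only [mul_zero, add_zero] at this
    exact this
  obtain ⟨h1, h2, h3, h4⟩ := line_dom hx ht hpt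
  have ha : D.c.a x v = μ • D.τ (D.c.z x) := by
    have e1 := h.hasDeriv h1.1
    have e2 : HasDerivAt (D.c.ζ D.H) (D.τ (D.c.z x)) (t + μ * 0) := by
      rw [mul_zero, add_zero]
      unfold τ
      change HasDerivAt (D.c.ζ D.H) (deriv (D.c.ζ D.H) (D.t x)) t
      rw [h3]
      exact (Ch.ζ_an D.hH.hol (D.line t ht).1).differentiableAt.hasDerivAt
    have e3 : HasDerivAt (fun z => D.c.ζ D.H (t + μ * z)) (μ • D.τ (D.c.z x)) 0 :=
      HasDerivAt.scomp (h := fun z : ℂ => t + μ * z) 0 e2 (hasDerivAt_caff t μ 0)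
    exact e1.unique e3
  refine ⟨h1, h3, ha, ?_⟩
  unfold e P Q
  rw [h4, ha, N_zero hη hν hh (dom_B h1), N_self hη hν hh (dom_B h1), mul_zero, max_self]

/-- the zeros of the distance function -/
theorem jet_of_e (hX : ProjManifold F d) (hΦ : NonposMetric (Cone F) d Φ)
    (hη : PositiveTwoForms (Cone F) ∅ d η) (hν : ν ≠ 0) (hh : HomForms (Cone F) ν η)
    {x v : Fin (n + 1) → ℂ} (hT : Tg F x v) (h1 : Φ x v = 1) (hx : x ∈ D.dom)
    (he : D.e η ν x v = 0) :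
    ∃ μ : ℂ, ‖μ‖ = 1 ∧ EJ F Φ (fun z => D.H (D.t x + μ * z)) x v := by
  obtain ⟨m, hm, hlow⟩ := N_low (D := D) hη hν hh
  have hB := dom_B hx
  set w := D.c.z x with hw
  have hP : D.P η x ≤ 0 := by
    have := (le_max_left _ _).trans he.le
    rwa [h1, one_pow, one_mul] at this
  have hQ : D.Q η x v ≤ 0 := (le_max_right _ _).trans he.le
  have hz : ∀ b : Fin d → ℂ, b D.k = 0 → D.c.N η w (D.τ w) b ≤ 0 → b = 0 := by
    intro b hb hb0
    have h2 := (hlow w hB b hb).trans hb0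
    have h3 : ‖b‖ ^ ν ≤ 0 := by
      by_contra hcon
      push Not at hcon
      have := mul_pos hm hcon
      linarith
    have h4 : ‖b‖ ^ ν = 0 := le_antisymm h3 (by positivity)
    exact norm_eq_zero.1 (pow_eq_zero_iff hν |>.1 h4)
  have hY : D.Y w = 0 := hz _ (Y_k hB) hP
  have hwt : w = D.c.ζ D.H (D.t x) := by
    have : w - D.c.ζ D.H (D.tt w) = 0 := hY
    exact sub_eq_zero.1 this
  have hO : D.H (D.t x) ∈ D.c.O := (D.ball w hB).2.2.2.1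
  -- the direction
  set s : ℂ := D.c.a x v D.k / D.τ w D.k with hs
  set b : Fin d → ℂ := D.c.a x v - s • D.τ w with hb
  have hbk : b D.k = 0 := by
    rw [hb, Pi.sub_apply, Pi.smul_apply, smul_eq_mul, hs, div_mul_cancel₀ _ (τ_k hB), sub_self]
  have hb0 : b = 0 := by
    apply hz b hbk
    have h2 : D.c.a x v = b + s • D.τ w := by rw [hb, sub_add_cancel]
    unfold Q at hQ
    rwa [← hw, h2, Ch.N_add hη (B_sub hB)] at hQ
  have ha : D.c.a x v = s • D.τ w := sub_eq_zero.1 hb0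
  have hτ : D.τ w = deriv (D.c.ζ D.H) (D.t x) := rfl
  have hs1 : ‖s‖ = 1 := by
    have h2 := Ch.phi_eq hΦ hT hx.1
    rw [h1, ← hw, ha, Ch.u_smul hΦ (B_sub hB), hτ, hwt] at h2
    have h3 := D.hH.speed hX hΦ hO
    rw [h3, mul_one] at h2
    exact h2.symm
  refine ⟨s, hs1, ?_⟩
  have hpt : D.H (D.t x) = Phi x := by
    rw [← Ch.Phi_ζ hO (D.hH.mem _), ← hwt]
    conv_rhs => rw [Ch.eq hx.1]
    rw [Phi_smul (Ch.ne hx.1)]
  refine EJ.of_chart (c := D.c) (D.hH.caff hX hΦ _ hs1) hT hx.1 ?_ ?_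
  · simp only [mul_zero, add_zero]
    exact hpt
  · rw [ha, hτ]
    have e2 : HasDerivAt (D.c.ζ D.H) (deriv (D.c.ζ D.H) (D.t x)) (D.t x + s * 0) := by
      rw [mul_zero, add_zero]
      exact (Ch.ζ_an D.hH.hol hO).differentiableAt.hasDerivAt
    exact HasDerivAt.scomp (h := fun z : ℂ => D.t x + s * z) 0 e2 (hasDerivAt_caff _ s 0)

end Dt

end Pool.Agent.H33
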