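import Pool.Agent.H33.GFin
import Pool.Agent.H33.JCh
import Pool.Graph.R_pool_sql_team_seeded_63374d34.N155.Ell

/-! Curves of constant speed one. -/

set_option autoImplicit false

open Filter Topology Metric Set MvPolynomial LinearAlgebra.Projectivization

namespace Pool.Agent.H33

open Pool.Agent.Y190.OP Pool.Agent.W602.GT Pool.Agent.N155 Pool.Agent.N155.BB
open Pool.Agent.N154.GG (exists_limit_loc_l holP_comp)

variable {n : ℕ} {ι ι' : Type} {F : ι → MvPolynomial (Fin (n + 1)) ℂ}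
  {G : ι' → MvPolynomial (Fin (n + 1)) ℂ} {d : ℕ}
  {κ : Type} {η : κ → (Fin (n + 1) → ℂ) → (Fin (n + 1) → ℂ) → (Fin (n + 1) → ℂ) → ℂ}
  {Φ Ψ : (Fin (n + 1) → ℂ) → (Fin (n + 1) → ℂ) → ℝ} {a : ℕ}

/-- the entire curves of speed one -/
structure Ec (F : ι → MvPolynomial (Fin (n + 1)) ℂ)
    (Φ : (Fin (n + 1) → ℂ) → (Fin (n + 1) → ℂ) → ℝ) (H : ℂ → Mat (n + 1)) : Prop where
  hol : HolP univ H
  mem : ∀ z, H z ∈ TF F
  len : ∀ z, len Φ H z = 1

theorem hasDerivAt_caff (s l w : ℂ) : HasDerivAt (fun w : ℂ => s + l * w) l w := by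
  have := ((hasDerivAt_id w).const_mul l).const_add s
  simpa using this

theorem len_caff (hX : ProjManifold F d)
    (ht : ∀ x ∈ Cone F, ∀ (v : Fin (n + 1) → ℂ) (c b : ℂ), c ≠ 0 →
      Φ (c • x) (c • (v + b • x)) = Φ x v)
    (hd : ∀ x ∈ Cone F, ∀ (v : Fin (n + 1) → ℂ) (c : ℂ), c ≠ 0 → Φ x (c • v) = ‖c‖ ^ a * Φ x v)
    {φ : ℂ → Mat (n + 1)} (hφ : HolP univ φ) (hφT : ∀ z, φ z ∈ TF F) {s l : ℂ} (hl : l ≠ 0)
    (w : ℂ) : len Φ (fun w => φ (s + l * w)) w = ‖l‖ ^ a * len Φ φ (s + l * w) := by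
  have hφ' : HolP univ fun w => φ (s + l * w) := holP_comp hφ (by fun_prop)
  set z : ℂ := s + l * w with hz
  have hi := ix_ne hφT z
  rw [len_eq hX ht hφ' (fun w => hφT _) (i := ix φ z) hi, len_eq hX ht hφ hφT hi]
  unfold pv
  have h1' : HasDerivAt (fun s => chart (ix φ z) (φ s))
      (deriv (fun s => chart (ix φ z) (φ s)) z) ((fun w : ℂ => s + l * w) w) :=
    (an_chart hφ _ hi).differentiableAt.hasDerivAt
  have h3 : deriv (fun w => chart (ix φ z) (φ (s + l * w))) w =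
      l • deriv (fun s => chart (ix φ z) (φ s)) z :=
    (HasDerivAt.scomp (h := fun w : ℂ => s + l * w) w h1' (hasDerivAt_caff s l w)).deriv
  rw [h3, hd _ (chart_cone hX.form (hφT z) hi) _ _ hl]

theorem Ec.caff (hX : ProjManifold F d) (hΦ : NonposMetric (Cone F) d Φ) {H : ℂ → Mat (n + 1)}
    (h : Ec F Φ H) (s : ℂ) {l : ℂ} (hl : ‖l‖ = 1) : Ec F Φ fun w => H (s + l * w) := by
  have hl0 : l ≠ 0 := by
    rintro rfl
    rw [norm_zero] at hl
    exact zero_ne_one hl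
  refine ⟨holP_comp h.hol (by fun_prop), fun z => h.mem _, fun z => ?_⟩
  rw [len_caff (a := 1) hX hΦ.twist hΦ.deg' h.hol h.mem hl0, hl, h.len, one_pow, one_mul]

/-- limits of curves of speed one -/
theorem Ec.limit (hX : ProjManifold F d) (hΦ : NonposMetric (Cone F) d Φ)
    (hnd : Nondegenerate (Cone F) d Φ) {h : ℕ → ℂ → Mat (n + 1)} (hh : ∀ k, Ec F Φ (h k))
    (𝓤 : Ultrafilter ℕ) : ∃ H, Ec F Φ H ∧ (∀ z, Tendsto (fun k => h k z) 𝓤 (𝓝 (H z))) ∧
      ∀ z, Tendsto (fun k => fderiv ℝ (h k) z) 𝓤 (𝓝 (fderiv ℝ H z)) := by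
  obtain ⟨c0, C0, hc0, hC0, hcC⟩ := len_le_ge hX hΦ hnd
  obtain ⟨H, hH, hHT, hHc, hHd⟩ := exists_limit_loc_l (isCompact_TF hX.form) TF_PM (𝓤 := 𝓤) (h := h)
    (by
      intro L
      filter_upwards with k z hz
      obtain ⟨V, F, hV, hzV, hd, hF⟩ := (hh k).hol z (mem_univ z)
      exact ⟨V, F, hV, hzV, hd, hF⟩)
    (by
      intro L
      filter_upwards with k z hz
      exact (hh k).mem z)
    (by
      intro L
      refine ⟨1 / c0, ?_⟩
      filter_upwards with k z hz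
      rw [le_div_iff₀ hc0, mul_comm]
      exact (hcC _ (hh k).hol (hh k).mem z).1.trans ((hh k).len z).le)
  have hp : ∀ z, Tendsto (fun k => h k z) 𝓤 (𝓝 (H z)) := fun z => hHc.pointwise (mem_univ z)
  refine ⟨H, ⟨hH, hHT, fun z => ?_⟩, hp, hHd⟩
  have h1 := len_tendsto hX hΦ.twist hΦ.cont (fun k => (hh k).hol) (fun k => (hh k).mem) hH hHT
    (hp z) (hHd z)
  have h2 : (fun k => Pool.Agent.H33.len Φ (h k) z) = fun _ => 1 := funext fun k => (hh k).len z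
  rw [h2] at h1
  exact (tendsto_nhds_unique h1 tendsto_const_nhds)

theorem between_of_bdd (hX : ProjManifold F d) {H : ℂ → Mat (n + 1)} (hH : HolP univ H)
    (hHT : ∀ z, H z ∈ TF F) {B : ℝ} (hB : ∀ z, ‖fderiv ℝ H z‖ ≤ B) :
    HolIn F (fun z => toProj (H z)) ∧ ∃ C, DerBetween 0 C fun z => toProj (H z) := by
  obtain ⟨A, hA, hw⟩ := wedge_fderiv n
  have hphi : (fun z => Phi (toProj (H z)).rep) = H := funext fun z =>
    Phi_rep_toProj (TF_PM (hHT z))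
  have hh : HolMap fun z => toProj (H z) := holMap_of hH
  refine ⟨⟨hh, fun z => rep_toProj hX.form (hHT z)⟩, A * B, ?_⟩
  intro V g hV hg hfg z hz
  have hS := (sum_pos (hfg z hz).1).le
  obtain ⟨-, h2⟩ := hw _ hh V g hV hg hfg z hz
  rw [hphi] at h2
  refine ⟨by rw [zero_mul]; exact wedge_nonneg _ _, h2.trans ?_⟩
  exact mul_le_mul_of_nonneg_right (mul_le_mul_of_nonneg_left (hB z) hA.le) hS

/-- the finite list -/
theorem exists_list (hX : ProjManifold F d) (hG : ∀ i, IsForm (G i))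
    (hη : PositiveTwoForms (Cone F) (Cone G) d η) (hZ : NoBC F G)
    (hΦ : NonposMetric (Cone F) d Φ) (hnd : Nondegenerate (Cone F) d Φ) :
    ∃ S : Set (ℂ → Mat (n + 1)), S.Finite ∧
      (∀ h ∈ S, Ec F Φ h ∧ ∃ L : PeriodPair, ∀ l ∈ L.lattice, ∀ z, h (z + l) = h z) ∧
      ∀ H, Ec F Φ H → ∃ h ∈ S, ∃ s l : ℂ, ‖l‖ = 1 ∧ ∀ z, H z = h (s + l * z) := by
  obtain ⟨c0, C0, hc0, hC0, hcC⟩ := len_le_ge hX hΦ hnd
  obtain ⟨S0, hS0, hlist, -⟩ := nondegenerate_geo hX hG hη hZ hΦ hnd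
  choose! sp hsp using fun h hh => (hS0 h hh).2.2
  set nm : (ℂ → ℙ ℂ (Fin (n + 1) → ℂ)) → ℂ → Mat (n + 1) := fun h z =>
    Phi (h (0 + (((sp h)⁻¹ : ℝ) : ℂ) * z)).rep with hnm
  refine ⟨nm '' (S0 : Set _), S0.finite_toSet.image _, ?_, ?_⟩
  · rintro _ ⟨h, hh, rfl⟩
    obtain ⟨hin, ⟨L, hL⟩, -⟩ := hS0 h hh
    obtain ⟨hc, hs⟩ := hsp h hh
    have hci : ((((sp h)⁻¹ : ℝ) : ℂ)) ≠ 0 := by exact_mod_cast (inv_pos.2 hc).ne'
    have hlen := (hasSpeed_iff hX hΦ.twist hin).1 hs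
    refine ⟨⟨holP_comp (holP_of_map hin.1) (f := fun z => 0 + (((sp h)⁻¹ : ℝ) : ℂ) * z)
      (by fun_prop), fun z => mem_TF (hin.2 _), fun z => ?_⟩, ?_⟩
    · have h1 := len_caff (a := 1) hX hΦ.twist hΦ.deg' (holP_of_map hin.1)
        (fun z => mem_TF (hin.2 z)) (s := 0) hci z
      rw [hlen, pow_one, Complex.norm_real, Real.norm_of_nonneg (inv_pos.2 hc).le,
        inv_mul_cancel₀ hc.ne'] at h1
      exact h1
    · have hcs : ((sp h : ℝ) : ℂ) ≠ 0 := by exact_mod_cast hc.ne'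
      refine ⟨⟨(sp h : ℂ) * L.ω₁, (sp h : ℂ) * L.ω₂, ?_⟩, fun l hl z => ?_⟩
      · have h1 := L.indep
        rw [LinearIndependent.pair_iff] at h1 ⊢
        intro x y hxy
        apply h1 x y
        have h2 : ((sp h : ℝ) : ℂ) * (x • L.ω₁ + y • L.ω₂) = 0 := by
          rw [← hxy]
          simp only [Complex.real_smul]
          ring
        exact (mul_eq_zero.1 h2).resolve_left hcs
      · obtain ⟨m, k, hmk⟩ := PeriodPair.mem_lattice.1 hl
        have h2 : (0 : ℂ) + (((sp h)⁻¹ : ℝ) : ℂ) * (z + l) =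
            (0 + (((sp h)⁻¹ : ℝ) : ℂ) * z) + (m * L.ω₁ + k * L.ω₂) := by
          rw [← hmk]
          push_cast
          field_simp
          ring
        change Phi (h _).rep = Phi (h _).rep
        rw [h2, hL _ (PeriodPair.mem_lattice.2 ⟨m, k, rfl⟩)]
  · intro H hH
    have hB : ∀ z, ‖fderiv ℝ H z‖ ≤ 1 / c0 := fun z => by
      rw [le_div_iff₀ hc0, mul_comm]
      exact (hcC _ hH.hol hH.mem z).1.trans (hH.len z).le
    obtain ⟨hin, C, hb⟩ := between_of_bdd hX hH.hol hH.mem hB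
    have hphi : (fun z => Phi (toProj (H z)).rep) = H := funext fun z =>
      Phi_rep_toProj (TF_PM (hH.mem z))
    have hne : ¬ ∀ z w, toProj (H z) = toProj (H w) := by
      intro hcon
      have h3 : ∀ z, H z = H 0 := fun z => by
        have := congrArg (fun p : ℙ ℂ (Fin (n + 1) → ℂ) => Phi p.rep) (hcon z 0)
        change (fun z => Phi (toProj (H z)).rep) z = (fun z => Phi (toProj (H z)).rep) 0 at this
        rwa [hphi] at this
      have h4 : fderiv ℝ H 0 = 0 := by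
        have : H = fun _ => H 0 := funext h3
        rw [this]
        simp
      have h5 := (hcC H hH.hol hH.mem 0).2
      rw [h4, norm_zero, mul_zero, hH.len] at h5
      linarith
    obtain ⟨h, hh, a, b, ha, hfh⟩ := hlist _ hin hne (Or.inr (Or.inl ⟨C, hb⟩))
    obtain ⟨hinh, -, -⟩ := hS0 h hh
    obtain ⟨hc, hs⟩ := hsp h hh
    have hcs : ((sp h : ℝ) : ℂ) ≠ 0 := by exact_mod_cast hc.ne'
    have hHz : ∀ z, H z = Phi (h (b + a * z)).rep := by
      intro z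
      have h1 : Phi (toProj (H z)).rep = H z := congrFun hphi z
      rw [← h1, hfh z, add_comm (a * z) b]
    have hlen := (hasSpeed_iff hX hΦ.twist hinh).1 hs
    have h1 := len_caff (a := 1) hX hΦ.twist hΦ.deg' (holP_of_map hinh.1)
        (fun z => mem_TF (hinh.2 z)) (s := b) ha 0
    have h2 : (fun w => Phi (h (b + a * w)).rep) = H := funext fun z => (hHz z).symm
    rw [h2, hH.len, hlen, pow_one] at h1
    refine ⟨nm h, mem_image_of_mem _ hh, (sp h : ℂ) * b, (sp h : ℂ) * a, ?_, fun z => ?_⟩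
    · rw [norm_mul, Complex.norm_real, Real.norm_of_nonneg hc.le, mul_comm]
      exact h1.symm
    · rw [hHz z, hnm]
      simp only
      congr 3
      push_cast
      field_simp
      ring

/-- the condition that curves with the same derivative at a point coincide -/
def UniqJ (F : ι → MvPolynomial (Fin (n + 1)) ℂ)
    (Φ : (Fin (n + 1) → ℂ) → (Fin (n + 1) → ℂ) → ℝ) : Prop :=
  ∀ H K : ℂ → Mat (n + 1), Ec F Φ H → Ec F Φ K → H 0 = K 0 → fderiv ℝ H 0 = fderiv ℝ K 0 →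
    ∀ z, H z = K z

/-- **Rigidity.** -/
theorem rigid (hX : ProjManifold F d) (hG : ∀ i, IsForm (G i))
    (hη : PositiveTwoForms (Cone F) (Cone G) d η) (hZ : NoBC F G)
    (hΦ : NonposMetric (Cone F) d Φ) (hnd : Nondegenerate (Cone F) d Φ) (hU : UniqJ F Φ)
    {H0 : ℂ → Mat (n + 1)} (hH0 : Ec F Φ H0) {ε : ℝ} (hε : 0 < ε) : ∃ δ : ℝ, 0 < δ ∧
      ∀ H, Ec F Φ H → ‖H 0 - H0 0‖ < δ → ‖fderiv ℝ H 0 - fderiv ℝ H0 0‖ < δ →
        ∃ s l : ℂ, ‖l‖ = 1 ∧ ‖l - 1‖ < ε ∧ ‖s‖ < ε ∧ ∀ z, H z = H0 (s + l * z) := by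
  obtain ⟨S, hSf, hS, hlist⟩ := exists_list hX hG hη hZ hΦ hnd
  by_contra hcon
  push Not at hcon
  have h1 : ∀ k : ℕ, ∃ H, Ec F Φ H ∧ ‖H 0 - H0 0‖ < 1 / ((k : ℝ) + 1) ∧
      ‖fderiv ℝ H 0 - fderiv ℝ H0 0‖ < 1 / ((k : ℝ) + 1) ∧
      ∀ s l : ℂ, ‖l‖ = 1 → ‖l - 1‖ < ε → ‖s‖ < ε → ∃ z, H z ≠ H0 (s + l * z) := by
    intro k
    obtain ⟨H, a1, a2, a3, a4⟩ := hcon (1 / ((k : ℝ) + 1)) (by positivity)
    exact ⟨H, a1, a2, a3, a4⟩
  choose H hH hH1 hH2 hH3 using h1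
  -- bounded shifts
  have hbd : ∃ R : ℝ, ∀ K, Ec F Φ K → ∃ h ∈ S, ∃ s l : ℂ, ‖l‖ = 1 ∧ ‖s‖ ≤ R ∧
      ∀ z, K z = h (s + l * z) := by
    have : Nonempty PeriodPair := by
      obtain ⟨h, hh, -⟩ := hlist H0 hH0
      obtain ⟨L, -⟩ := (hS h hh).2
      exact ⟨L⟩
    choose! L hL using fun h hh => (hS h hh).2
    obtain ⟨R, hR⟩ : ∃ R : ℝ, ∀ h ∈ S, ‖(L h).ω₁‖ + ‖(L h).ω₂‖ ≤ R := by
      obtain ⟨R, hR⟩ := (hSf.image fun h => ‖(L h).ω₁‖ + ‖(L h).ω₂‖).bddAbove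
      exact ⟨R, fun h hh => hR (mem_image_of_mem _ hh)⟩
    refine ⟨R, fun K hK => ?_⟩
    obtain ⟨h, hh, s, l, hl, hKh⟩ := hlist K hK
    obtain ⟨m, k, hmk⟩ := exists_shift (L h).indep s
    refine ⟨h, hh, s + (m * (L h).ω₁ + k * (L h).ω₂), l, hl, hmk.trans (hR h hh), fun z => ?_⟩
    rw [hKh z]
    have h2 := hL h hh (m * (L h).ω₁ + k * (L h).ω₂) (PeriodPair.mem_lattice.2 ⟨m, k, rfl⟩)
      (s + l * z)
    rw [← h2]
    congr 1
    ring
  obtain ⟨R, hR⟩ := hbd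
  choose h hh s l hl hs hHh using fun k => hR (H k) (hH k)
  set 𝓤 : Ultrafilter ℕ := hyperfilter ℕ with h𝓤
  obtain ⟨hi, hhi, hev⟩ : ∃ hi ∈ S, ∀ᶠ k in (𝓤 : Filter ℕ), h k = hi := by
    have h2 : ∀ᶠ k in (𝓤 : Filter ℕ), ∃ x ∈ S, h k = x := Eventually.of_forall fun k =>
      ⟨h k, hh k, rfl⟩
    exact (Ultrafilter.eventually_exists_mem_iff hSf).1 h2
  obtain ⟨l₀, hl₀, hlt⟩ := (isCompact_sphere (0 : ℂ) 1).ultrafilter_le_nhds (𝓤.map l) (by
    rw [Ultrafilter.coe_map, le_principal_iff, mem_map]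
    filter_upwards with k
    exact mem_sphere_zero_iff_norm.2 (hl k))
  obtain ⟨s₀, hs₀, hst⟩ := (isCompact_closedBall (0 : ℂ) R).ultrafilter_le_nhds (𝓤.map s) (by
    rw [Ultrafilter.coe_map, le_principal_iff, mem_map]
    filter_upwards with k
    exact mem_closedBall_zero_iff.2 (hs k))
  have hlt' : Tendsto l 𝓤 (𝓝 l₀) := hlt
  have hst' : Tendsto s 𝓤 (𝓝 s₀) := hst
  have hl1 : ‖l₀‖ = 1 := mem_sphere_zero_iff_norm.1 hl₀
  have hl0 : l₀ ≠ 0 := by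
    rintro rfl
    rw [norm_zero] at hl1
    exact zero_ne_one hl1
  have hE := (hS hi hhi).1
  have hcont : Continuous hi := continuous_iff_continuousAt.2 fun z =>
    hE.hol.continuousAt (mem_univ z)
  have hcd : Continuous (fderiv ℝ hi) := continuous_iff_continuousAt.2 fun z =>
    hE.hol.continuousAt_fderiv (mem_univ z)
  have hfd : ∀ (s l : ℂ) (h : ℂ → Mat (n + 1)), HolP univ h →
      fderiv ℝ (fun z => h (s + l * z)) 0 = (fderiv ℝ h s).comp
        ((ContinuousLinearMap.mul ℂ ℂ l).restrictScalars ℝ) := by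
    intro s l h hh
    have e1 : HasFDerivAt (fun z : ℂ => s + l * z)
        ((ContinuousLinearMap.mul ℂ ℂ l).restrictScalars ℝ) 0 := by
      have : HasFDerivAt (fun z : ℂ => s + l * z) (ContinuousLinearMap.mul ℂ ℂ l) 0 :=
        ((ContinuousLinearMap.mul ℂ ℂ l).hasFDerivAt).const_add s
      exact this.restrictScalars ℝ
    have e2 : HasFDerivAt h (fderiv ℝ h s) ((fun z : ℂ => s + l * z) 0) := by
      simp only [mul_zero, add_zero]
      exact (hh.differentiableAt (mem_univ s)).hasFDerivAt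
    exact (e2.comp 0 e1).fderiv
  -- the limit
  have hEl := hE.caff hX hΦ s₀ hl1
  have ht0 : Tendsto (fun k : ℕ => 1 / ((k : ℝ) + 1)) 𝓤 (𝓝 0) := by
    have : ((𝓤 : Ultrafilter ℕ) : Filter ℕ) ≤ atTop := by
      rw [← Nat.cofinite_eq_atTop]
      exact hyperfilter_le_cofinite
    exact tendsto_one_div_add_atTop_nhds_zero_nat.mono_left this
  have hlim1 : Tendsto (fun k => H k 0) 𝓤 (𝓝 (H0 0)) := by
    rw [tendsto_iff_norm_sub_tendsto_zero]
    exact squeeze_zero (fun k => norm_nonneg _) (fun k => (hH1 k).le) ht0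
  have hlim2 : Tendsto (fun k => fderiv ℝ (H k) 0) 𝓤 (𝓝 (fderiv ℝ H0 0)) := by
    rw [tendsto_iff_norm_sub_tendsto_zero]
    exact squeeze_zero (fun k => norm_nonneg _) (fun k => (hH2 k).le) ht0
  have hHk : ∀ᶠ k in (𝓤 : Filter ℕ), H k = fun z => hi (s k + l k * z) := by
    filter_upwards [hev] with k hk
    funext z
    rw [hHh k z, hk]
  have hlim1' : Tendsto (fun k => H k 0) 𝓤 (𝓝 (hi s₀)) := by
    refine ((hcont.tendsto s₀).comp hst').congr' ?_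
    filter_upwards [hHk] with k hk
    rw [hk]
    simp
  have hlim2' : Tendsto (fun k => fderiv ℝ (H k) 0) 𝓤
      (𝓝 (fderiv ℝ (fun z => hi (s₀ + l₀ * z)) 0)) := by
    rw [hfd s₀ l₀ hi hE.hol]
    have e1 : Tendsto (fun k => fderiv ℝ hi (s k)) 𝓤 (𝓝 (fderiv ℝ hi s₀)) :=
      (hcd.tendsto s₀).comp hst'
    have e2 : Tendsto (fun k => (ContinuousLinearMap.mul ℂ ℂ (l k)).restrictScalars ℝ) 𝓤
        (𝓝 ((ContinuousLinearMap.mul ℂ ℂ l₀).restrictScalars ℝ)) := by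
      have e3 : Continuous fun x : ℂ => (ContinuousLinearMap.mul ℂ ℂ x).restrictScalars ℝ :=
        (ContinuousLinearMap.continuous_restrictScalars ℝ).comp
          (ContinuousLinearMap.mul ℂ ℂ).continuous
      exact (e3.tendsto l₀).comp hlt'
    have e4 : Continuous fun p : (ℂ →L[ℝ] Mat (n + 1)) × (ℂ →L[ℝ] ℂ) => p.1.comp p.2 :=
      isBoundedBilinearMap_comp.continuous
    refine ((e4.tendsto (_, _)).comp (e1.prodMk_nhds e2)).congr' ?_
    filter_upwards [hHk] with k hk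
    rw [hk, hfd (s k) (l k) hi hE.hol]
    rfl
  have heq := hU _ _ hEl hH0 (by
    have := tendsto_nhds_unique hlim1' hlim1
    simpa using this) (tendsto_nhds_unique hlim2' hlim2)
  -- the contradiction
  have hfin : ∀ᶠ k in (𝓤 : Filter ℕ), ‖(l k) / l₀ - 1‖ < ε ∧ ‖(s k - s₀) / l₀‖ < ε := by
    have e1 : Tendsto (fun k => (l k) / l₀ - 1) 𝓤 (𝓝 (l₀ / l₀ - 1)) :=
      (hlt'.div_const l₀).sub_const 1
    rw [div_self hl0, sub_self] at e1
    have e2 : Tendsto (fun k => (s k - s₀) / l₀) 𝓤 (𝓝 ((s₀ - s₀) / l₀)) :=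
      (hst'.sub_const s₀).div_const l₀
    rw [sub_self, zero_div] at e2
    have e3 := e1.norm
    have e4 := e2.norm
    rw [norm_zero] at e3 e4
    exact (e3.eventually_lt_const hε).and (e4.eventually_lt_const hε)
  obtain ⟨k, ⟨hk1, hk2⟩, hk3⟩ := (hfin.and hHk).exists
  obtain ⟨z, hz⟩ := hH3 k ((s k - s₀) / l₀) (l k / l₀) (by rw [norm_div, hl k, hl1, div_one])
    hk1 hk2
  apply hz
  rw [hk3]
  simp only
  rw [← heq]
  congr 1
  field_simp
  ring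

end Pool.Agent.H33
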