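import Pool.Agent.H33.JM

/-! Covers by neighbourhoods of points. -/

set_option autoImplicit false

open Filter Topology Metric Set MvPolynomial LinearAlgebra.Projectivization

namespace Pool.Agent.H33

open Pool.Agent.Y190.OP Pool.Agent.W602.GT Pool.Agent.N155 Pool.Agent.N155.BB

/-- the square of the cosine -/
noncomputable def cs {N : ℕ} (x y : Fin N → ℂ) : ℝ := ‖spr x y‖ ^ 2 / (sqn x * sqn y)

theorem spr_smul {N : ℕ} (x y : Fin N → ℂ) (s : ℂ) : spr (s • x) y = s * spr x y := by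
  unfold spr
  rw [Finset.mul_sum]
  refine Finset.sum_congr rfl fun k _ => ?_
  rw [Pi.smul_apply, smul_eq_mul, mul_assoc]

theorem cs_smul {N : ℕ} (x y : Fin N → ℂ) {s : ℂ} (hs : s ≠ 0) : cs (s • x) y = cs x y := by
  unfold cs
  rw [spr_smul, sqn_smul, norm_mul, mul_pow, mul_assoc]
  exact mul_div_mul_left _ _ (pow_ne_zero _ (norm_ne_zero_iff.2 hs))

theorem cs_nonneg {N : ℕ} (x y : Fin N → ℂ) : 0 ≤ cs x y :=
  div_nonneg (sq_nonneg _) (mul_nonneg (sqn_nonneg _) (sqn_nonneg _))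

theorem cs_le {N : ℕ} {x y : Fin N → ℂ} (hx : x ≠ 0) (hy : y ≠ 0) : cs x y ≤ 1 := by
  have h1 := sqn_pyth hy x
  have h2 := sqn_pos hx
  have h3 := sqn_pos hy
  have h4 := sqn_nonneg (x - (spr x y / sqn y) • y)
  unfold cs
  rw [div_le_one (by positivity), ← div_le_iff₀ h3]
  linarith

theorem cs_self {N : ℕ} {x : Fin N → ℂ} (hx : x ≠ 0) : cs x x = 1 := by
  have h2 := sqn_pos hx
  unfold cs
  rw [← sqn_cast, Complex.norm_real, Real.norm_of_nonneg h2.le, sq, div_self (by positivity)]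

theorem eq_zero_of_sqn {N : ℕ} {x : Fin N → ℂ} (hx : sqn x = 0) : x = 0 := by
  by_contra h
  exact (sqn_pos h).ne' hx

theorem Phi_of_cs {N : ℕ} {x y : Fin N → ℂ} (hx : x ≠ 0) (hy : y ≠ 0) (h : cs x y = 1) :
    (Phi x : Mat N) = Phi y := by
  have h1 := sqn_pyth hy x
  have h2 := sqn_pos hx
  have h3 := sqn_pos hy
  unfold cs at h
  rw [div_eq_one_iff_eq (by positivity)] at h
  have h5 : ‖spr x y‖ ^ 2 / sqn y = sqn x := by
    rw [h]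
    field_simp
  have h6 : sqn (x - (spr x y / sqn y) • y) = 0 := by linarith
  have h7 := sub_eq_zero.1 (eq_zero_of_sqn h6)
  have h8 : spr x y / sqn y ≠ 0 := by
    intro h0
    rw [h0, zero_smul] at h7
    exact hx h7
  rw [h7, Phi_smul h8]

theorem sqn_cont {N : ℕ} : Continuous (sqn : (Fin N → ℂ) → ℝ) := by
  unfold sqn
  fun_prop

theorem spr_cont {N : ℕ} (y : Fin N → ℂ) : Continuous fun x => spr x y := by
  unfold spr
  fun_prop

theorem cs_cont {N : ℕ} {x y : Fin N → ℂ} (hx : x ≠ 0) (hy : y ≠ 0) :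
    ContinuousAt (fun x => cs x y) x := by
  unfold cs
  have h1 := sqn_pos hx
  have h2 := sqn_pos hy
  exact ((spr_cont y).norm.pow 2).continuousAt.div (sqn_cont.mul continuous_const).continuousAt
    (by positivity)

variable {n : ℕ} {ι ι' : Type} {F : ι → MvPolynomial (Fin (n + 1)) ℂ}
  {G : ι' → MvPolynomial (Fin (n + 1)) ℂ} {d : ℕ}
  {κ : Type} {η : κ → (Fin (n + 1) → ℂ) → (Fin (n + 1) → ℂ) → (Fin (n + 1) → ℂ) → ℂ}
  {Φ : (Fin (n + 1) → ℂ) → (Fin (n + 1) → ℂ) → ℝ} {H : ℂ → Mat (n + 1)} {ν : ℕ}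
  {Yc : Set ((Fin (n + 1) → ℂ) × (Fin (n + 1) → ℂ))} [Fintype κ]

/-- the distance functions agree at the points with the same point -/
theorem transfer (h : Hyp F d Φ η ν) {D D' : Dt F d Φ}
    {q q' : (Fin (n + 1) → ℂ) × (Fin (n + 1) → ℂ)} (hq : q ∈ TT F) (hq' : q' ∈ TT F)
    (hq1 : Φ q.1 q.2 = 1) (hq1' : Φ q'.1 q'.2 = 1) (hqq : Phi q.1 = (Phi q'.1 : Mat (n + 1)))
    (hd : q.1 ∈ D.dom) (hd' : q.1 ∈ D'.dom) (ht : ‖D.t q.1‖ < 2 * D.r)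
    (he : D.e η ν q.1 q.2 = 0) (he' : D'.e η ν q.1 q.2 = 0) (he2 : D'.e η ν q'.1 q'.2 = 0) :
    D.e η ν q'.1 q'.2 = 0 := by
  obtain ⟨s, hs, hqs⟩ := Phi_inj (Tg.mem hq).1 (Tg.mem hq').1 hqq
  have hd2 : q'.1 ∈ D'.dom := by
    rw [hqs]
    exact Dt.dom_smul h.hX.form hd' hs
  have ht2 : D'.t q'.1 = D'.t q.1 := by
    unfold Dt.t
    rw [hqs, Ch.z_smul _ hs]
  obtain ⟨μ, hμ, hj⟩ := Dt.jet_of_e h.hX h.hΦ h.hη h.hν h.hh hq hq1 hd he
  obtain ⟨μ', hμ', hj'⟩ := Dt.jet_of_e h.hX h.hΦ h.hη h.hν h.hh hq hq1 hd' he'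
  obtain ⟨μ'', hμ'', hj''⟩ := Dt.jet_of_e h.hX h.hΦ h.hη h.hν h.hh hq' hq1' hd2 he2
  rw [ht2] at hj''
  have hμ0 : μ' ≠ 0 := by
    rintro rfl
    rw [norm_zero] at hμ'
    exact zero_ne_one hμ'
  have h1 : (fun z => D'.H (D'.t q.1 + μ'' * z)) =
      fun z => D.H (D.t q.1 + (μ * (μ'' / μ')) * z) := by
    funext z
    have h2 : D.H (D.t q.1 + μ * ((μ'' / μ') * z)) = D'.H (D'.t q.1 + μ' * ((μ'' / μ') * z)) :=
      EJ.uniq h.hU hj hj' ((μ'' / μ') * z)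
    have h3 : μ' * ((μ'' / μ') * z) = μ'' * z := by
      field_simp
    rw [h3] at h2
    rw [← h2]
    congr 1
    ring
  rw [h1] at hj''
  exact (Dt.e_of_jet h.hη h.hν h.hh (Tg.mem hq') ht hj'').2.2.2

/-- the lines through a point -/
def good {I : Type} (D : I → Dt F d Φ)
    (η : κ → (Fin (n + 1) → ℂ) → (Fin (n + 1) → ℂ) → (Fin (n + 1) → ℂ) → ℂ) (ν : ℕ)
    (J : Finset I) (p : (Fin (n + 1) → ℂ) × (Fin (n + 1) → ℂ)) : Prop :=
  (∀ i ∈ J, p.1 ∈ (D i).dom ∧ ‖(D i).t p.1‖ < (D i).r) ∧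
    (isE F Φ p → ∃ i ∈ J, (D i).e η ν p.1 p.2 = 0) ∧
    ∀ i ∈ J, ∀ j ∈ J, i ≠ j → ¬ ((D i).e η ν p.1 p.2 = 0 ∧ (D j).e η ν p.1 p.2 = 0)

theorem dom_of_Phi (hF : ∀ i, IsForm (F i)) {D : Dt F d Φ} {x y : Fin (n + 1) → ℂ}
    (hx : x ∈ D.dom) (hy : y ∈ Cone F) (hxy : Phi x = (Phi y : Mat (n + 1))) :
    y ∈ D.dom ∧ D.t y = D.t x := by
  obtain ⟨s, hs, hqs⟩ := Phi_inj hx.1.1.1 hy.1 hxy
  refine ⟨?_, ?_⟩
  · rw [hqs]
    exact Dt.dom_smul hF hx hs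
  · unfold Dt.t
    rw [hqs, Ch.z_smul _ hs]

/-- the lines through a point -/
theorem exists_good (h : Hyp F d Φ η ν) (hY : Unt F Φ Yc) {I : Type} [Fintype I]
    {D : I → Dt F d Φ} {δ : I → ℝ} (hf : IsFam η ν Yc D δ Yc) (M0 : Mat (n + 1)) :
    ∃ J : Finset I, ∀ q ∈ Yc, Phi q.1 = M0 → ∀ᶠ p in 𝓝[Yc] q, good D η ν J p := by
  classical
  set P : Finset I → Prop := fun J => ∀ q ∈ Yc, Phi q.1 = M0 → isE F Φ q → ∃ i ∈ J,
    q.1 ∈ (D i).dom ∧ ‖(D i).t q.1‖ < (D i).r / 4 ∧ (D i).e η ν q.1 q.2 = 0 with hP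
  have hex : ∃ k, ∃ J : Finset I, J.card = k ∧ P J := ⟨_, Finset.univ, rfl, fun q hq _ hE => by
    obtain ⟨i, hi⟩ := hf.cover q hq hq hE
    exact ⟨i, Finset.mem_univ i, hi⟩⟩
  obtain ⟨J, hJc, hJ⟩ := Nat.find_spec hex
  have hmin : ∀ J', P J' → J.card ≤ J'.card := by
    intro J' hJ'
    rw [hJc]
    exact Nat.find_min' hex ⟨J', rfl, hJ'⟩
  have hF := h.hX.form
  -- (a)
  have ha : ∀ i ∈ J, ∀ q ∈ Yc, Phi q.1 = M0 → q.1 ∈ (D i).dom ∧ ‖(D i).t q.1‖ < (D i).r / 4 := by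
    intro i hi q hq hqM
    have h1 : ¬ P (J.erase i) := by
      intro h2
      have h3 := hmin _ h2
      have h4 := Finset.card_erase_lt_of_mem hi
      omega
    rw [hP] at h1
    push Not at h1
    obtain ⟨q', hq', hqM', hE', h2⟩ := h1
    obtain ⟨j, hj, hj1, hj2, hj3⟩ := hJ q' hq' hqM' hE'
    have hji : j = i := by
      by_contra hne
      exact h2 j (Finset.mem_erase.2 ⟨hne, hj⟩) hj1 hj2 hj3
    subst hji
    obtain ⟨h3, h4⟩ := dom_of_Phi hF hj1 (Tg.mem (hY.sub hq)) (hqM'.trans hqM.symm)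
    exact ⟨h3, by rw [h4]; exact hj2⟩
  have hr : ∀ i, 0 < (D i).r := fun i => (D i).hr
  -- (c)
  have hc : ∀ q ∈ Yc, Phi q.1 = M0 → ∀ i ∈ J, ∀ j ∈ J, i ≠ j →
      ¬ ((D i).e η ν q.1 q.2 = 0 ∧ (D j).e η ν q.1 q.2 = 0) := by
    rintro q hq hqM i hi j hj hij ⟨h1, h2⟩
    have h3 : P (J.erase j) := by
      intro q' hq' hqM' hE'
      obtain ⟨k, hk, hk1, hk2, hk3⟩ := hJ q' hq' hqM' hE'
      by_cases hkj : k = j
      · subst hkj
        obtain ⟨g1, g2⟩ := ha i hi q' hq' hqM'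
        obtain ⟨g3, g4⟩ := ha i hi q hq hqM
        refine ⟨i, Finset.mem_erase.2 ⟨hij, hi⟩, g1, g2, ?_⟩
        have := hr i
        exact transfer h (hY.sub hq) (hY.sub hq') (hY.mem q hq).2 (hY.mem q' hq').2
          (hqM.trans hqM'.symm) g3 (ha k hk q hq hqM).1 (g4.trans (by linarith)) h1 h2 hk3
      · exact ⟨k, Finset.mem_erase.2 ⟨hkj, hk⟩, hk1, hk2, hk3⟩
    have h4 := hmin _ h3
    have h5 := Finset.card_erase_lt_of_mem hj
    omega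
  refine ⟨J, fun q hq hqM => ?_⟩
  have hqT := hY.sub hq
  have e1 : ∀ i ∈ J, ∀ᶠ p in 𝓝[Yc] q, p.1 ∈ (D i).dom ∧ ‖(D i).t p.1‖ < (D i).r := by
    intro i hi
    obtain ⟨g1, g2⟩ := ha i hi q hq hqM
    have h3 : ContinuousAt (fun p : (Fin (n + 1) → ℂ) × (Fin (n + 1) → ℂ) => ‖(D i).t p.1‖) q :=
      ((Dt.t_cont g1).comp continuousAt_fst).norm
    have := hr i
    filter_upwards [hY.le q ((tt_fst q).eventually (Dt.dom_nhds g1)),
      mem_nhdsWithin_of_mem_nhds (h3.eventually_lt_const (show ‖(D i).t q.1‖ < (D i).r by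
        linarith))] with p h4 h5
    exact ⟨h4, h5⟩
  have hec : ∀ i ∈ J, ContinuousWithinAt (fun p : (Fin (n + 1) → ℂ) × (Fin (n + 1) → ℂ) =>
      (D i).e η ν p.1 p.2) Yc q := fun i hi =>
    (Dt.e_cont h.hX h.hΦ h.hη hqT (ha i hi q hq hqM).1).mono hY.sub
  have e2 : ∀ᶠ p in 𝓝[Yc] q, isE F Φ p → ∃ i ∈ J, (D i).e η ν p.1 p.2 = 0 := by
    by_cases hE : isE F Φ q
    · obtain ⟨i, hi, hi1, hi2, hi3⟩ := hJ q hq hqM hE
      have h3 : ∀ᶠ p in 𝓝[Yc] q, (D i).e η ν p.1 p.2 < δ i := by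
        refine (hec i hi).eventually (gt_mem_nhds ?_)
        change (D i).e η ν q.1 q.2 < δ i
        rw [hi3]
        exact hf.hδ i
      filter_upwards [h3, e1 i hi, self_mem_nhdsWithin] with p h4 h5 h6 hpE
      obtain ⟨K, hK⟩ := hpE
      exact ⟨i, hi, hf.gap i p h6 K hK h5.1 h5.2.le h4.le⟩
    · filter_upwards [isE_closed h hY hq hE] with p hp hpE
      exact absurd hpE hp
  have e3 : ∀ i ∈ J, ∀ j ∈ J, ∀ᶠ p in 𝓝[Yc] q, i ≠ j →
      ¬ ((D i).e η ν p.1 p.2 = 0 ∧ (D j).e η ν p.1 p.2 = 0) := by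
    intro i hi j hj
    by_cases hij : i = j
    · exact Eventually.of_forall fun p hne => absurd hij hne
    · have h1 := hc q hq hqM i hi j hj hij
      rw [not_and_or] at h1
      rcases h1 with h1 | h1
      · filter_upwards [(hec i hi).eventually_ne h1] with p hp _ hp'
        exact hp hp'.1
      · filter_upwards [(hec j hj).eventually_ne h1] with p hp _ hp'
        exact hp hp'.2
  have e1' := (Finset.eventually_all J).2 e1
  have e3' := (Finset.eventually_all J).2 fun i hi => (Finset.eventually_all J).2 (e3 i hi)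
  filter_upwards [e1', e2, e3'] with p h1 h2 h3
  exact ⟨h1, h2, h3⟩

/-- the neighbourhoods -/
theorem exists_far (h : Hyp F d Φ η ν) (hY : Unt F Φ Yc) {I : Type} [Fintype I]
    {D : I → Dt F d Φ} {δ : I → ℝ} (hf : IsFam η ν Yc D δ Yc) {x0 : Fin (n + 1) → ℂ}
    (hx0 : x0 ≠ 0) :
    ∃ (J : Finset I) (m : ℕ), ∀ p ∈ Yc, 1 / 4 ≤ cs p.1 x0 ^ m → good D η ν J p := by
  obtain ⟨J, hJ⟩ := exists_good h hY hf (Phi x0)
  refine ⟨J, ?_⟩
  by_contra hcon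
  push Not at hcon
  choose p hp hc hg using hcon
  set 𝓤 : Ultrafilter ℕ := hyperfilter ℕ with h𝓤
  obtain ⟨q, hq, hlim⟩ := hY.cpt.ultrafilter_le_nhds (𝓤.map p) (by
    rw [Ultrafilter.coe_map, le_principal_iff, mem_map]
    filter_upwards with k
    exact hp k)
  have hlim' : Tendsto p 𝓤 (𝓝 q) := hlim
  have hlimY : Tendsto p 𝓤 (𝓝[Yc] q) := tendsto_nhdsWithin_iff.2 ⟨hlim', Eventually.of_forall hp⟩
  have hq0 : q.1 ≠ 0 := (Tg.mem (hY.sub hq)).1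
  have hcs : Tendsto (fun k => cs (p k).1 x0) 𝓤 (𝓝 (cs q.1 x0)) :=
    (cs_cont hq0 hx0).tendsto.comp ((continuous_fst.tendsto q).comp hlim')
  have h1 : cs q.1 x0 = 1 := by
    refine le_antisymm (cs_le hq0 hx0) ?_
    by_contra hlt
    push Not at hlt
    set θ := (1 + cs q.1 x0) / 2 with hθ
    have h2 : cs q.1 x0 < θ := by rw [hθ]; linarith
    have h3 : θ < 1 := by rw [hθ]; linarith
    have h4 : 0 ≤ θ := (cs_nonneg _ _).trans h2.le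
    have h5 := hcs.eventually (gt_mem_nhds h2)
    have h6 : ∀ᶠ k : ℕ in 𝓤, θ ^ k < 1 / 4 :=
      ((tendsto_pow_atTop_nhds_zero_of_lt_one h4 h3).mono_left hyper_le).eventually
        (gt_mem_nhds (by norm_num))
    obtain ⟨k, hk1, hk2⟩ := (h5.and h6).exists
    have h7 := pow_le_pow_left₀ (cs_nonneg (p k).1 x0) hk1.le k
    linarith [hc k]
  obtain ⟨k, hk⟩ := (hlimY.eventually (hJ q hq (Phi_of_cs hq0 hx0 h1))).exists
  exact hg k hk

/-- the finite cover -/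
theorem exists_cover (h : Hyp F d Φ η ν) (hY : Unt F Φ Yc) {I : Type} [Fintype I]
    {D : I → Dt F d Φ} {δ : I → ℝ} (hf : IsFam η ν Yc D δ Yc) :
    ∃ (A : Type) (_ : Fintype A) (x1 : A → Fin (n + 1) → ℂ) (J : A → Finset I) (m : A → ℕ),
      (∀ k, x1 k ≠ 0) ∧ (∀ k, ∀ p ∈ Yc, 1 / 4 ≤ cs p.1 (x1 k) ^ m k → good D η ν (J k) p) ∧
      ∀ p ∈ Yc, ∃ k, 3 / 4 < cs p.1 (x1 k) ^ m k := by
  have key : ∃ (A : Type) (_ : Fintype A) (x1 : A → Fin (n + 1) → ℂ) (J : A → Finset I)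
      (m : A → ℕ),
      (∀ k, x1 k ≠ 0) ∧ (∀ k, ∀ p ∈ Yc, 1 / 4 ≤ cs p.1 (x1 k) ^ m k → good D η ν (J k) p) ∧
      ∀ p ∈ Yc, p ∈ Yc → ∃ k, 3 / 4 < cs p.1 (x1 k) ^ m k := by
    refine hY.cpt.induction_on (p := fun s => ∃ (A : Type) (_ : Fintype A)
      (x1 : A → Fin (n + 1) → ℂ) (J : A → Finset I) (m : A → ℕ),
      (∀ k, x1 k ≠ 0) ∧ (∀ k, ∀ p ∈ Yc, 1 / 4 ≤ cs p.1 (x1 k) ^ m k → good D η ν (J k) p) ∧
      ∀ p ∈ s, p ∈ Yc → ∃ k, 3 / 4 < cs p.1 (x1 k) ^ m k) ?_ ?_ ?_ ?_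
    · exact ⟨Empty, inferInstance, fun i => i.elim, fun i => i.elim, fun i => i.elim,
        fun i => i.elim, fun i => i.elim, fun p hp => absurd hp (notMem_empty _)⟩
    · rintro s t hst ⟨A, hA, x1, J, m, h1, h2, h3⟩
      exact ⟨A, hA, x1, J, m, h1, h2, fun p hp => h3 p (hst hp)⟩
    · rintro s t ⟨A, hA, x1, J, m, h1, h2, h3⟩ ⟨A', hA', x1', J', m', h1', h2', h3'⟩
      refine ⟨A ⊕ A', inferInstance, Sum.elim x1 x1', Sum.elim J J', Sum.elim m m', ?_, ?_, ?_⟩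
      · rintro (i | i)
        · exact h1 i
        · exact h1' i
      · rintro (i | i)
        · exact h2 i
        · exact h2' i
      · rintro p (hp | hp) hpY
        · obtain ⟨k, hk⟩ := h3 p hp hpY
          exact ⟨Sum.inl k, hk⟩
        · obtain ⟨k, hk⟩ := h3' p hp hpY
          exact ⟨Sum.inr k, hk⟩
    · intro q hq
      have hq0 : q.1 ≠ 0 := (Tg.mem (hY.sub hq)).1
      obtain ⟨J, m, hJ⟩ := exists_far h hY hf hq0
      have h1 : ContinuousAt (fun p : (Fin (n + 1) → ℂ) × (Fin (n + 1) → ℂ) => cs p.1 q.1 ^ m) q :=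
        ((cs_cont hq0 hq0).comp continuousAt_fst).pow m
      have h2 : ∀ᶠ p in 𝓝 q, 3 / 4 < cs p.1 q.1 ^ m := by
        refine h1.eventually (lt_mem_nhds ?_)
        change 3 / 4 < cs q.1 q.1 ^ m
        rw [cs_self hq0, one_pow]
        norm_num
      exact ⟨{p | 3 / 4 < cs p.1 q.1 ^ m}, mem_nhdsWithin_of_mem_nhds h2, Unit, inferInstance,
        fun _ => q.1, fun _ => J, fun _ => m, fun _ => hq0, fun _ => hJ, fun p hp _ => ⟨(), hp⟩⟩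
  obtain ⟨A, hA, x1, J, m, h1, h2, h3⟩ := key
  exact ⟨A, hA, x1, J, m, h1, h2, fun p hp => h3 p hp hp⟩

end Pool.Agent.H33
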