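import Pool.Agent.H33.JD

/-! Continuity of the distance functions, and the gap property. -/

set_option autoImplicit false

open Filter Topology Metric Set MvPolynomial LinearAlgebra.Projectivization

namespace Pool.Agent.H33

open Pool.Agent.Y190.OP Pool.Agent.W602.GT Pool.Agent.N155 Pool.Agent.N155.BB

variable {n : ℕ} {ι ι' : Type} {F : ι → MvPolynomial (Fin (n + 1)) ℂ}
  {G : ι' → MvPolynomial (Fin (n + 1)) ℂ} {d : ℕ}
  {κ : Type} {η : κ → (Fin (n + 1) → ℂ) → (Fin (n + 1) → ℂ) → (Fin (n + 1) → ℂ) → ℂ}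
  {Φ : (Fin (n + 1) → ℂ) → (Fin (n + 1) → ℂ) → ℝ} {c : Ch F d} {H : ℂ → Mat (n + 1)} {ν : ℕ}

/-- the pairs of points and tangent vectors -/
def TT (F : ι → MvPolynomial (Fin (n + 1)) ℂ) : Set ((Fin (n + 1) → ℂ) × (Fin (n + 1) → ℂ)) :=
  {p | Tg F p.1 p.2}

theorem Ch.z_cont {x : Fin (n + 1) → ℂ} (hx : x c.i ≠ 0) : ContinuousAt c.z x := by
  rw [continuousAt_pi]
  intro k
  exact (continuous_apply (c.J k)).continuousAt.div (continuous_apply c.i).continuousAt hx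

theorem Ch.a_cont {p : (Fin (n + 1) → ℂ) × (Fin (n + 1) → ℂ)} (hp : p.1 c.i ≠ 0) :
    ContinuousAt (fun p : (Fin (n + 1) → ℂ) × (Fin (n + 1) → ℂ) => c.a p.1 p.2) p := by
  rw [continuousAt_pi]
  intro k
  unfold Ch.a
  refine ContinuousAt.div (by fun_prop) (by fun_prop) (pow_ne_zero _ hp)

theorem Ch.dom_nhds {x : Fin (n + 1) → ℂ} (hx : x ∈ c.dom) : ∀ᶠ y in 𝓝[Cone F] x, y ∈ c.dom := by
  have h1 : ∀ᶠ y in 𝓝 x, Phi y ∈ c.O :=
    (continuousAt_Phi hx.1.1).eventually (c.hO.mem_nhds hx.2)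
  filter_upwards [mem_nhdsWithin_of_mem_nhds h1, self_mem_nhdsWithin] with y hy hy'
  exact ⟨hy', hy⟩

theorem tt_fst (q : (Fin (n + 1) → ℂ) × (Fin (n + 1) → ℂ)) :
    Tendsto Prod.fst (𝓝[TT F] q) (𝓝[Cone F] q.1) := by
  refine tendsto_nhdsWithin_iff.2 ⟨(continuous_fst.tendsto q).mono_left nhdsWithin_le_nhds, ?_⟩
  filter_upwards [self_mem_nhdsWithin] with p hp
  exact Tg.mem hp

theorem phi_cont (hX : ProjManifold F d) (hΦ : NonposMetric (Cone F) d Φ)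
    {q : (Fin (n + 1) → ℂ) × (Fin (n + 1) → ℂ)} (hq : q ∈ TT F) :
    ContinuousWithinAt (fun p : (Fin (n + 1) → ℂ) × (Fin (n + 1) → ℂ) => Φ p.1 p.2) (TT F) q := by
  have hqF : q.1 ∈ Cone F := Tg.mem hq
  obtain ⟨c, hc⟩ := exists_ch hX (M0 := Phi q.1) ⟨q.1, hqF, rfl⟩
  have hqd : q.1 ∈ c.dom := ⟨hqF, hc⟩
  have h1 : ContinuousAt (fun p : (Fin (n + 1) → ℂ) × (Fin (n + 1) → ℂ) =>
      (c.z p.1, c.a p.1 p.2)) q :=
    ((Ch.z_cont (Ch.ne hqd)).comp continuousAt_fst).prodMk (Ch.a_cont (Ch.ne hqd))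
  have h2 : ContinuousAt (fun p : (Fin d → ℂ) × (Fin d → ℂ) =>
      Φ (c.Θ p.1) (fderiv ℂ c.Θ p.1 p.2)) (c.z q.1, c.a q.1 q.2) :=
    (Ch.u_cont hΦ).continuousAt ((c.hU.prod isOpen_univ).mem_nhds ⟨Ch.z_mem hqd, mem_univ _⟩)
  have h3 := (ContinuousAt.comp (f := fun p : (Fin (n + 1) → ℂ) × (Fin (n + 1) → ℂ) =>
      (c.z p.1, c.a p.1 p.2)) h2 h1).continuousWithinAt (s := TT F)
  refine h3.congr_of_eventuallyEq ?_ ?_
  · filter_upwards [(tt_fst q).eventually (Ch.dom_nhds hqd), self_mem_nhdsWithin] with p hp hp'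
    exact Ch.phi_eq hΦ hp' hp
  · exact Ch.phi_eq hΦ hq hqd

namespace Dt

variable {D : Dt F d Φ}

theorem dom_nhds {x : Fin (n + 1) → ℂ} (hx : x ∈ D.dom) : ∀ᶠ y in 𝓝[Cone F] x, y ∈ D.dom := by
  have h1 : ∀ᶠ y in 𝓝 x, D.c.z y ∈ Metric.ball (D.c.ζ D.H 0) D.ρ :=
    (Ch.z_cont (Ch.ne hx.1)).eventually (isOpen_ball.mem_nhds hx.2)
  filter_upwards [mem_nhdsWithin_of_mem_nhds h1, Ch.dom_nhds hx.1] with y hy hy'
  exact ⟨hy', hy⟩

theorem t_cont {x : Fin (n + 1) → ℂ} (hx : x ∈ D.dom) : ContinuousAt D.t x :=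
  ContinuousAt.comp (g := D.tt) (D.ball _ (dom_B hx)).2.2.1.continuousAt
    (Ch.z_cont (Ch.ne hx.1))

variable [Fintype κ]

theorem P_cont (hη : PositiveTwoForms (Cone F) ∅ d η) {x : Fin (n + 1) → ℂ} (hx : x ∈ D.dom) :
    ContinuousAt (D.P η) x := by
  have hB := dom_B hx
  have hz := Ch.z_cont (Ch.ne hx.1)
  have h1 : ContinuousAt (fun p : (Fin d → ℂ) × (Fin d → ℂ) × (Fin d → ℂ) =>
      D.c.N η p.1 p.2.1 p.2.2) (D.c.z x, D.τ (D.c.z x), D.Y (D.c.z x)) :=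
    (Ch.N_cont hη).continuousAt ((D.c.hU.prod isOpen_univ).mem_nhds ⟨B_sub hB, mem_univ _⟩)
  have h2 : ContinuousAt (fun y => D.τ (D.c.z y)) x :=
    ContinuousAt.comp (g := D.τ) (τ_an hB).continuousAt hz
  have h3 : ContinuousAt (fun y => D.Y (D.c.z y)) x :=
    ContinuousAt.comp (g := D.Y) (Y_an hB).continuousAt hz
  exact ContinuousAt.comp (f := fun y => (D.c.z y, D.τ (D.c.z y), D.Y (D.c.z y))) h1
    (hz.prodMk (h2.prodMk h3))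

theorem Q_cont (hη : PositiveTwoForms (Cone F) ∅ d η)
    {q : (Fin (n + 1) → ℂ) × (Fin (n + 1) → ℂ)} (hx : q.1 ∈ D.dom) :
    ContinuousAt (fun p : (Fin (n + 1) → ℂ) × (Fin (n + 1) → ℂ) => D.Q η p.1 p.2) q := by
  have hB := dom_B hx
  have hz : ContinuousAt (fun p : (Fin (n + 1) → ℂ) × (Fin (n + 1) → ℂ) => D.c.z p.1) q :=
    (Ch.z_cont (Ch.ne hx.1)).comp continuousAt_fst
  have h1 : ContinuousAt (fun p : (Fin d → ℂ) × (Fin d → ℂ) × (Fin d → ℂ) =>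
      D.c.N η p.1 p.2.1 p.2.2) (D.c.z q.1, D.τ (D.c.z q.1), D.c.a q.1 q.2) :=
    (Ch.N_cont hη).continuousAt ((D.c.hU.prod isOpen_univ).mem_nhds ⟨B_sub hB, mem_univ _⟩)
  have h2 : ContinuousAt (fun p : (Fin (n + 1) → ℂ) × (Fin (n + 1) → ℂ) => D.τ (D.c.z p.1)) q :=
    ContinuousAt.comp (g := D.τ) (τ_an hB).continuousAt hz
  exact ContinuousAt.comp (f := fun p : (Fin (n + 1) → ℂ) × (Fin (n + 1) → ℂ) =>
    (D.c.z p.1, D.τ (D.c.z p.1), D.c.a p.1 p.2)) h1 (hz.prodMk (h2.prodMk (Ch.a_cont (Ch.ne hx.1))))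

theorem e_cont (hX : ProjManifold F d) (hΦ : NonposMetric (Cone F) d Φ)
    (hη : PositiveTwoForms (Cone F) ∅ d η) {q : (Fin (n + 1) → ℂ) × (Fin (n + 1) → ℂ)}
    (hq : q ∈ TT F) (hx : q.1 ∈ D.dom) :
    ContinuousWithinAt (fun p : (Fin (n + 1) → ℂ) × (Fin (n + 1) → ℂ) => D.e η ν p.1 p.2)
      (TT F) q := by
  unfold e
  refine ContinuousWithinAt.sup (((phi_cont hX hΦ hq).pow ν).mul ?_)
    (Q_cont hη hx).continuousWithinAt
  exact ((P_cont hη hx).comp continuousAt_fst).continuousWithinAt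

/-- the threshold -/
theorem exists_thr (hη : PositiveTwoForms (Cone F) ∅ d η) (hν : ν ≠ 0)
    (hh : HomForms (Cone F) ν η) : ∃ δ : ℝ, 0 < δ ∧ ∀ x ∈ D.dom, ‖D.t x‖ < 2 * D.r →
      D.P η x ≤ δ → D.c.z x ∈ closedBall (D.c.ζ D.H 0) (D.ρ / 2) := by
  obtain ⟨m, hm, hlow⟩ := N_low (D := D) hη hν hh
  have hρ := D.hρ
  refine ⟨m * (D.ρ / 4) ^ ν, by positivity, fun x hx ht hP => ?_⟩
  have hB := dom_B hx
  set w := D.c.z x with hw
  have h1 := (hlow w hB _ (Y_k hB)).trans hP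
  have h2 : ‖D.Y w‖ ^ ν ≤ (D.ρ / 4) ^ ν := le_of_mul_le_mul_left h1 hm
  have h3 : ‖D.Y w‖ ≤ D.ρ / 4 := (pow_le_pow_iff_left₀ (norm_nonneg _) (by positivity) hν).1 h2
  have h4 := (D.line _ ht).2.1
  rw [Metric.mem_ball, dist_eq_norm] at h4
  rw [mem_closedBall, dist_eq_norm]
  have h5 : w - D.c.ζ D.H 0 = D.Y w + (D.c.ζ D.H (D.t x) - D.c.ζ D.H 0) := by
    unfold Y t
    rw [← hw]
    abel
  rw [h5]
  refine (norm_add_le _ _).trans ?_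
  linarith

omit [Fintype κ] in
/-- the closure of the smaller domain -/
theorem supp_closed {x0 : Fin (n + 1) → ℂ} (hx0 : x0 ∈ Cone F) (h : x0 ∉ D.dom) :
    ∀ᶠ x in 𝓝 x0, x ∈ D.dom → D.c.z x ∉ closedBall (D.c.ζ D.H 0) (D.ρ / 2) := by
  have hρ := D.hρ
  have hsub : closedBall (D.c.ζ D.H 0) (D.ρ / 2) ⊆ closedBall (D.c.ζ D.H 0) D.ρ :=
    closedBall_subset_closedBall (by linarith)
  set K : Set (Mat (n + 1)) := (fun w => Phi (D.c.Θ w)) '' closedBall (D.c.ζ D.H 0) (D.ρ / 2)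
    with hK
  have hKc : IsCompact K := by
    refine (isCompact_closedBall _ _).image_of_continuousOn fun w hw => ?_
    have hwU := (D.ball w (hsub hw)).1
    have h1 : ContinuousAt D.c.Θ w := (D.c.an _ hwU).continuousAt
    have h2 : ContinuousAt (Phi : (Fin (n + 1) → ℂ) → Mat (n + 1)) (D.c.Θ w) :=
      continuousAt_Phi (D.c.mem _ hwU).1.1
    exact (ContinuousAt.comp h2 h1).continuousWithinAt
  have hnot : Phi x0 ∉ K := by
    rintro ⟨w, hw, hwx⟩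
    apply h
    have hb := D.ball w (hsub hw)
    have hwx' : Phi (D.c.Θ w) = Phi x0 := hwx
    have hd : x0 ∈ D.c.dom := ⟨hx0, by rw [← hwx']; exact hb.2.1⟩
    refine ⟨hd, ?_⟩
    obtain ⟨s, hs, rfl⟩ := Phi_inj (D.c.mem _ hb.1).1.1 hx0.1 hwx'
    rw [Ch.z_smul _ hs, Ch.z_Θ hb.1]
    exact closedBall_subset_ball (by linarith) hw
  have h1 : ∀ᶠ x in 𝓝 x0, Phi x ∉ K :=
    (continuousAt_Phi hx0.1).eventually (hKc.isClosed.isOpen_compl.mem_nhds hnot)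
  filter_upwards [h1] with x hx hxd hxb
  apply hx
  refine ⟨D.c.z x, hxb, ?_⟩
  simp only
  conv_rhs => rw [Ch.eq hxd.1]
  rw [Phi_smul (Ch.ne hxd.1)]

theorem P_le_e {x v : Fin (n + 1) → ℂ} (h1 : Φ x v = 1) : D.P η x ≤ D.e η ν x v := by
  unfold e
  rw [h1, one_pow, one_mul]
  exact le_max_left _ _

theorem Q_le_e {x v : Fin (n + 1) → ℂ} : D.Q η x v ≤ D.e η ν x v := le_max_right _ _

/-- **The gap property.** -/
theorem gap (hX : ProjManifold F d) (hG : ∀ i, IsForm (G i))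
    (hη' : PositiveTwoForms (Cone F) (Cone G) d η)
    (hη : PositiveTwoForms (Cone F) ∅ d η) (hZ : NoBC F G)
    (hΦ : NonposMetric (Cone F) d Φ) (hnd : Nondegenerate (Cone F) d Φ) (hU : UniqJ F Φ)
    (hν : ν ≠ 0) (hh : HomForms (Cone F) ν η)
    {Yc : Set ((Fin (n + 1) → ℂ) × (Fin (n + 1) → ℂ))} (hYc : IsCompact Yc)
    (hY : ∀ p ∈ Yc, Tg F p.1 p.2 ∧ Φ p.1 p.2 = 1) : ∃ δ : ℝ, 0 < δ ∧
      (∀ x ∈ D.dom, ‖D.t x‖ < 2 * D.r → D.P η x ≤ δ →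
        D.c.z x ∈ closedBall (D.c.ζ D.H 0) (D.ρ / 2)) ∧
      ∀ p ∈ Yc, ∀ K, EJ F Φ K p.1 p.2 → p.1 ∈ D.dom → ‖D.t p.1‖ ≤ D.r →
        D.e η ν p.1 p.2 ≤ δ → D.e η ν p.1 p.2 = 0 := by
  obtain ⟨δ0, hδ0, hthr⟩ := exists_thr (D := D) hη hν hh
  have hr := D.hr
  by_contra hcon
  push Not at hcon
  have h1 : ∀ j : ℕ, ∃ p ∈ Yc, ∃ K, EJ F Φ K p.1 p.2 ∧ p.1 ∈ D.dom ∧ ‖D.t p.1‖ ≤ D.r ∧
      D.e η ν p.1 p.2 ≤ min δ0 (1 / ((j : ℝ) + 1)) ∧ D.e η ν p.1 p.2 ≠ 0 := by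
    intro j
    obtain ⟨p, hp, K, hK, h2⟩ := hcon (min δ0 (1 / ((j : ℝ) + 1)))
      (lt_min hδ0 (by positivity)) (fun x hx ht hP => hthr x hx ht (hP.trans (min_le_left _ _)))
    exact ⟨p, hp, K, hK, h2⟩
  choose p hp K hK hdom ht he hne using h1
  set 𝓤 : Ultrafilter ℕ := hyperfilter ℕ with h𝓤
  have hat : ((𝓤 : Ultrafilter ℕ) : Filter ℕ) ≤ atTop := by
    rw [← Nat.cofinite_eq_atTop]
    exact hyperfilter_le_cofinite
  obtain ⟨q, hq, hlim⟩ := hYc.ultrafilter_le_nhds (𝓤.map p) (by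
    rw [Ultrafilter.coe_map, le_principal_iff, mem_map]
    filter_upwards with k
    exact hp k)
  have hlim' : Tendsto p 𝓤 (𝓝 q) := hlim
  have hqT : q ∈ TT F := (hY q hq).1
  have hlimT : Tendsto p 𝓤 (𝓝[TT F] q) := tendsto_nhdsWithin_iff.2 ⟨hlim',
    Eventually.of_forall fun k => (hY _ (hp k)).1⟩
  have hPk : ∀ k, D.P η (p k).1 ≤ δ0 := by
    intro k
    exact ((P_le_e (hY _ (hp k)).2).trans (he k)).trans (min_le_left _ _)
  have hqd : q.1 ∈ D.dom := by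
    by_contra hnd'
    have h2 := ((continuous_fst.tendsto q).comp hlim').eventually
      (supp_closed (D := D) (Tg.mem hqT) hnd')
    obtain ⟨k, hk⟩ := h2.exists
    exact hk (hdom k) (hthr (p k).1 (hdom k) ((ht k).trans_lt (by linarith)) (hPk k))
  -- the limit
  have hte : D.e η ν q.1 q.2 = 0 := by
    have h2 := (e_cont (ν := ν) hX hΦ hη hqT hqd).tendsto.comp hlimT
    have h3 : Tendsto (fun k => D.e η ν (p k).1 (p k).2) 𝓤 (𝓝 0) := by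
      have h4 : Tendsto (fun k : ℕ => 1 / ((k : ℝ) + 1)) 𝓤 (𝓝 0) :=
        tendsto_one_div_add_atTop_nhds_zero_nat.mono_left hat
      exact squeeze_zero (fun k => e_nonneg _ _) (fun k => (he k).trans (min_le_right _ _)) h4
    exact tendsto_nhds_unique h2 h3
  have htt : Tendsto (fun k => D.t (p k).1) 𝓤 (𝓝 (D.t q.1)) :=
    (t_cont hqd).tendsto.comp ((continuous_fst.tendsto q).comp hlim')
  have htq : ‖D.t q.1‖ ≤ D.r := le_of_tendsto htt.norm (Eventually.of_forall ht)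
  obtain ⟨μ, hμ, hjet⟩ := jet_of_e hX hΦ hη hν hh hqT (hY q hq).2 hqd hte
  have hnear := EJ.near hX hG hη' hZ hΦ hnd hU (Tg.mem hqT).1 hjet hr
  obtain ⟨k, hk⟩ := (hlim'.eventually hnear).exists
  obtain ⟨s, l, hl, -, hs, hKs⟩ := hk (K k) (hK k)
  apply hne k
  have h5 : K k = fun z => D.H ((D.t q.1 + μ * s) + (μ * l) * z) := by
    funext z
    rw [hKs z]
    congr 1
    ring
  have h6 := hK k
  rw [h5] at h6
  refine (e_of_jet hη hν hh (Tg.mem (hY _ (hp k)).1) ?_ h6).2.2.2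
  calc ‖D.t q.1 + μ * s‖ ≤ ‖D.t q.1‖ + ‖μ * s‖ := norm_add_le _ _
    _ < D.r + D.r := by rw [norm_mul, hμ, one_mul]; linarith
    _ = 2 * D.r := by ring

end Dt

end Pool.Agent.H33
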