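import Pool.Agent.H33.JE

/-! Jets of curves of speed one. -/

set_option autoImplicit false

open Filter Topology Metric Set MvPolynomial LinearAlgebra.Projectivization

namespace Pool.Agent.H33

open Pool.Agent.Y190.OP Pool.Agent.W602.GT Pool.Agent.N155 Pool.Agent.N155.BB

variable {n : ℕ} {ι ι' : Type} {F : ι → MvPolynomial (Fin (n + 1)) ℂ}
  {G : ι' → MvPolynomial (Fin (n + 1)) ℂ} {d : ℕ}
  {κ : Type} {η : κ → (Fin (n + 1) → ℂ) → (Fin (n + 1) → ℂ) → (Fin (n + 1) → ℂ) → ℂ}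
  {Φ : (Fin (n + 1) → ℂ) → (Fin (n + 1) → ℂ) → ℝ} {c : Ch F d} {H : ℂ → Mat (n + 1)}

/-- the coordinates of a curve -/
noncomputable def Ch.ζ (c : Ch F d) (H : ℂ → Mat (n + 1)) (t : ℂ) : Fin d → ℂ := fun k =>
  chart c.i (H t) (c.J k)

theorem Ch.ζ_an (hH : HolP univ H) {t : ℂ} (ht : H t ∈ c.O) : AnalyticAt ℂ (c.ζ H) t := by
  have h1 := an_chart hH c.i (c.loc _ ht).1
  rw [analyticAt_pi_iff] at h1
  exact analyticAt_pi_iff.2 fun k => h1 (c.J k)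

theorem Ch.ζ_of {x : Fin (n + 1) → ℂ} {t : ℂ} (hx : x ∈ c.dom) (h : H t = Phi x) :
    c.ζ H t = c.z x := by
  unfold Ch.ζ
  rw [h]
  exact Ch.chart_eq hx

theorem Ch.ζ_mem {t : ℂ} (ht : H t ∈ c.O) : c.ζ H t ∈ c.U := (c.loc _ ht).2.1

theorem Ch.chart_ζ {t : ℂ} (ht : H t ∈ c.O) (hT : H t ∈ TF F) :
    chart c.i (H t) = c.Θ (c.ζ H t) := (c.loc _ ht).2.2 hT

theorem Ch.Phi_ζ {t : ℂ} (ht : H t ∈ c.O) (hT : H t ∈ TF F) : Phi (c.Θ (c.ζ H t)) = H t := by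
  rw [← Ch.chart_ζ ht hT]
  exact PM.Phi_chart (TF_PM hT) (c.loc _ ht).1

theorem Ch.dom_ζ {t : ℂ} (ht : H t ∈ c.O) (hT : H t ∈ TF F) : c.Θ (c.ζ H t) ∈ c.dom :=
  ⟨(c.mem _ (Ch.ζ_mem ht)).1, by rw [Ch.Phi_ζ ht hT]; exact ht⟩

theorem Ec.cont (h : Ec F Φ H) : Continuous H := continuous_iff_continuousAt.2 fun z =>
  h.hol.continuousAt (mem_univ z)

theorem Ec.ev_O (h : Ec F Φ H) {t : ℂ} (ht : H t ∈ c.O) : ∀ᶠ s in 𝓝 t, H s ∈ c.O :=
  h.cont.continuousAt.eventually (c.hO.mem_nhds ht)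

/-- the speed is one in the charts -/
theorem Ec.speed (hX : ProjManifold F d) (hΦ : NonposMetric (Cone F) d Φ) (h : Ec F Φ H) {t : ℂ}
    (ht : H t ∈ c.O) : Φ (c.Θ (c.ζ H t)) (fderiv ℂ c.Θ (c.ζ H t) (deriv (c.ζ H) t)) = 1 := by
  have h1 := h.len t
  rw [len_eq hX hΦ.twist h.hol h.mem (c.loc _ ht).1] at h1
  unfold pv at h1
  rw [Ch.chart_ζ ht (h.mem t)] at h1
  have h2 : (fun s => chart c.i (H s)) =ᶠ[𝓝 t] fun s => c.Θ (c.ζ H s) := by
    filter_upwards [h.ev_O ht] with s hs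
    exact Ch.chart_ζ hs (h.mem s)
  have h3 : HasDerivAt (fun s => c.Θ (c.ζ H s)) (fderiv ℂ c.Θ (c.ζ H t) (deriv (c.ζ H) t)) t :=
    (c.an _ (Ch.ζ_mem ht)).differentiableAt.hasFDerivAt.comp_hasDerivAt t
      (Ch.ζ_an h.hol ht).differentiableAt.hasDerivAt
  rwa [h2.deriv_eq, h3.deriv] at h1

theorem Ec.deriv_ne (hX : ProjManifold F d) (hΦ : NonposMetric (Cone F) d Φ) (h : Ec F Φ H)
    {t : ℂ} (ht : H t ∈ c.O) : deriv (c.ζ H) t ≠ 0 := by
  intro h0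
  have h1 := h.speed hX hΦ ht
  rw [h0, Ch.u_zero hΦ (Ch.ζ_mem ht)] at h1
  exact zero_ne_one h1

/-- the linear map with the value `v` at one -/
noncomputable def lin (v : Fin (n + 1) → ℂ) : ℂ →L[ℝ] (Fin (n + 1) → ℂ) :=
  (ContinuousLinearMap.toSpanSingleton ℂ v).restrictScalars ℝ

theorem lin_cont : Continuous (lin : (Fin (n + 1) → ℂ) → ℂ →L[ℝ] (Fin (n + 1) → ℂ)) := by
  have h1 : Continuous fun v : Fin (n + 1) → ℂ => ContinuousLinearMap.toSpanSingleton ℂ v :=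
    (ContinuousLinearMap.toSpanSingletonCLE (𝕜 := ℂ) (E := Fin (n + 1) → ℂ)).continuous
  exact (ContinuousLinearMap.continuous_restrictScalars ℝ).comp h1

/-- the jet of a tangent vector -/
noncomputable def jd (x v : Fin (n + 1) → ℂ) : ℂ →L[ℝ] Mat (n + 1) :=
  (fderiv ℝ (Phi : (Fin (n + 1) → ℂ) → Mat (n + 1)) x).comp (lin v)

theorem jd_cont {p : (Fin (n + 1) → ℂ) × (Fin (n + 1) → ℂ)} (hp : p.1 ≠ 0) :
    ContinuousAt (fun p : (Fin (n + 1) → ℂ) × (Fin (n + 1) → ℂ) => jd p.1 p.2) p := by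
  unfold jd
  have h1 : ContinuousAt (fderiv ℝ (Phi : (Fin (n + 1) → ℂ) → Mat (n + 1))) p.1 :=
    ((contDiffAt_Phi hp).fderiv_right (m := 0) (by norm_num)).continuousAt
  have h2 : ContinuousAt (fun p : (Fin (n + 1) → ℂ) × (Fin (n + 1) → ℂ) =>
      fderiv ℝ (Phi : (Fin (n + 1) → ℂ) → Mat (n + 1)) p.1) p :=
    ContinuousAt.comp (g := fderiv ℝ (Phi : (Fin (n + 1) → ℂ) → Mat (n + 1))) h1
      continuousAt_fst
  have h3 : ContinuousAt (fun p : (Fin (n + 1) → ℂ) × (Fin (n + 1) → ℂ) =>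
      (lin p.2 : ℂ →L[ℝ] (Fin (n + 1) → ℂ))) p := (lin_cont.comp continuous_snd).continuousAt
  exact h2.clm_comp h3

theorem fderiv_of_curve {g : ℂ → Fin (n + 1) → ℂ} {v : Fin (n + 1) → ℂ} {t : ℂ}
    (hg : HasDerivAt g v t) (h0 : g t ≠ 0) (hH : ∀ᶠ s in 𝓝 t, H s = Phi (g s)) :
    fderiv ℝ H t = jd (g t) v := by
  have h1 : HasFDerivAt g (lin v) t := hg.hasFDerivAt.restrictScalars ℝ
  have h2 : HasFDerivAt (fun s => Phi (g s)) (jd (g t) v) t :=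
    (((contDiffAt_Phi h0).differentiableAt (by norm_num)).hasFDerivAt).comp t h1
  exact (h2.congr_of_eventuallyEq hH).fderiv

/-- `(x, v)` is the tangent vector of the curve `H` of speed one at `0` -/
structure EJ (F : ι → MvPolynomial (Fin (n + 1)) ℂ)
    (Φ : (Fin (n + 1) → ℂ) → (Fin (n + 1) → ℂ) → ℝ) (H : ℂ → Mat (n + 1))
    (x v : Fin (n + 1) → ℂ) : Prop where
  ec : Ec F Φ H
  pt : H 0 = Phi x
  der : fderiv ℝ H 0 = jd x v

theorem EJ.hasDeriv {x v : Fin (n + 1) → ℂ} (h : EJ F Φ H x v) (hx : x ∈ c.dom) :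
    HasDerivAt (c.ζ H) (c.a x v) 0 := by
  have hO : H 0 ∈ c.O := by rw [h.pt]; exact hx.2
  have hx0 : x ≠ 0 := hx.1.1
  -- the line through `x`
  set g : ℂ → Fin (n + 1) → ℂ := fun s => x + s • v with hg
  have hg0 : g 0 = x := by simp [hg]
  have hgd : HasDerivAt g v 0 := by
    have h1 : HasDerivAt (fun s : ℂ => x + s • v) ((1 : ℂ) • v) 0 :=
      ((hasDerivAt_id (0 : ℂ)).smul_const v).const_add x
    rwa [one_smul] at h1
  set K : ℂ → Mat (n + 1) := fun s => Phi (g s) with hK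
  have hKd : fderiv ℝ K 0 = jd x v := by
    have := fderiv_of_curve (H := K) hgd (by rw [hg0]; exact hx0) (Eventually.of_forall fun s => rfl)
    rwa [hg0] at this
  have hKdiff : DifferentiableAt ℝ K 0 := by
    have h1 : HasFDerivAt g (lin v) 0 := hgd.hasFDerivAt.restrictScalars ℝ
    have h2 : DifferentiableAt ℝ (Phi : (Fin (n + 1) → ℂ) → Mat (n + 1)) (g 0) := by
      rw [hg0]
      exact (contDiffAt_Phi hx0).differentiableAt (by norm_num)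
    exact (h2.hasFDerivAt.comp (0 : ℂ) h1).differentiableAt
  have hi : (Phi x) c.i c.i ≠ 0 := (c.loc _ hx.2).1
  have hchart : HasFDerivAt (chart c.i : Mat (n + 1) → Fin (n + 1) → ℂ)
      (fderiv ℝ (chart c.i) (Phi x)) (Phi x) :=
    ((N155.BB.contDiffAt_chart hi).differentiableAt (by norm_num)).hasFDerivAt
  have f1 : HasFDerivAt (fun s => chart c.i (H s)) ((fderiv ℝ (chart c.i) (Phi x)).comp
      (jd x v)) 0 := by
    have h1 := (h.ec.hol.contDiffAt (mem_univ 0)).differentiableAt (by norm_num)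
    have h2 := h1.hasFDerivAt
    rw [h.der] at h2
    have h3 := hchart
    rw [← h.pt] at h3 ⊢
    exact h3.comp 0 h2
  have f2 : HasFDerivAt (fun s => chart c.i (K s)) ((fderiv ℝ (chart c.i) (Phi x)).comp
      (jd x v)) 0 := by
    have h2 := hKdiff.hasFDerivAt
    rw [hKd] at h2
    have h3 := hchart
    have h4 : K 0 = Phi x := by rw [hK]; simp only; rw [hg0]
    rw [← h4] at h3 ⊢
    exact h3.comp 0 h2
  -- the complex derivatives
  have hd := (Ch.ζ_an h.ec.hol hO).differentiableAt.hasDerivAt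
  have hd2 : HasDerivAt (fun s => c.z (g s)) (c.a x v) 0 := by
    have := Ch.hasDeriv (c := c) hgd (by rw [hg0]; exact Ch.ne hx)
    rwa [hg0] at this
  have e1 : deriv (c.ζ H) 0 = c.a x v := by
    funext k
    have g1 : HasFDerivAt (fun s => c.ζ H s k) ((ContinuousLinearMap.toSpanSingleton ℂ
        (deriv (c.ζ H) 0 k)).restrictScalars ℝ) 0 :=
      (hasDerivAt_pi.1 hd k).hasFDerivAt.restrictScalars ℝ
    have g2 : HasFDerivAt (fun s => c.z (g s) k) ((ContinuousLinearMap.toSpanSingleton ℂ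
        (c.a x v k)).restrictScalars ℝ) 0 :=
      (hasDerivAt_pi.1 hd2 k).hasFDerivAt.restrictScalars ℝ
    have g3 := (hasFDerivAt_pi'.1 f1) (c.J k)
    have g4 := (hasFDerivAt_pi'.1 f2) (c.J k)
    have g5 : (fun s => chart c.i (K s) (c.J k)) =ᶠ[𝓝 0] fun s => c.z (g s) k := by
      have h1 : ContinuousAt g 0 := hgd.continuousAt
      have h2 : ∀ᶠ s in 𝓝 0, g s c.i ≠ 0 := ((continuous_apply c.i).continuousAt.comp
        h1).eventually_ne (by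
          simp only [Function.comp_apply]
          rw [hg0]
          exact Ch.ne hx)
      filter_upwards [h2] with s hs
      have hs0 : g s ≠ 0 := fun h0 => hs (by rw [h0]; rfl)
      rw [hK]
      simp only
      rw [chart_Phi hs0 hs]
      simp only [Pi.smul_apply, smul_eq_mul, Ch.z]
      ring
    have g6 := g4.congr_of_eventuallyEq g5.symm
    have g7 := g1.unique g3
    have g8 := g2.unique g6
    have g9 := congrArg (fun L : ℂ →L[ℝ] ℂ => L 1) (g7.trans g8.symm)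
    simpa using g9
  rw [← e1]
  exact hd

/-- jets from charts -/
theorem EJ.of_chart {x v : Fin (n + 1) → ℂ} (hH : Ec F Φ H) (hT : Tg F x v) (hx : x ∈ c.dom)
    (h0 : H 0 = Phi x) (hd : HasDerivAt (c.ζ H) (c.a x v) 0) : EJ F Φ H x v := by
  refine ⟨hH, h0, ?_⟩
  have hO : H 0 ∈ c.O := by rw [h0]; exact hx.2
  have hζ0 : c.ζ H 0 = c.z x := Ch.ζ_of hx h0
  set g : ℂ → Fin (n + 1) → ℂ := fun t => (x c.i + t * v c.i) • c.Θ (c.ζ H t) with hg
  have hg0 : g 0 = x := by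
    rw [hg]
    simp only [zero_mul, add_zero]
    rw [hζ0]
    exact (Ch.eq hx).symm
  have h1 : HasDerivAt (fun t : ℂ => x c.i + t * v c.i) (v c.i) 0 := by
    have := ((hasDerivAt_id (0 : ℂ)).mul_const (v c.i)).const_add (x c.i)
    simpa using this
  have h2 : HasDerivAt (fun s => c.Θ (c.ζ H s)) (fderiv ℂ c.Θ (c.ζ H 0) (c.a x v)) 0 :=
    (c.an _ (Ch.ζ_mem hO)).differentiableAt.hasFDerivAt.comp_hasDerivAt 0 hd
  have h3 : HasDerivAt g v 0 := by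
    have h4 := h1.smul h2
    have h5 : v = (x c.i + 0 * v c.i) • fderiv ℂ c.Θ (c.ζ H 0) (c.a x v) +
        v c.i • c.Θ (c.ζ H 0) := by
      rw [zero_mul, add_zero, hζ0]
      exact hT.eq hx
    rw [← h5] at h4
    exact h4
  have h6 := fderiv_of_curve (H := H) h3 (by rw [hg0]; exact hx.1.1) (by
    have h7 : ∀ᶠ t : ℂ in 𝓝 0, x c.i + t * v c.i ≠ 0 :=
      h1.continuousAt.eventually_ne (by simpa using Ch.ne hx)
    filter_upwards [hH.ev_O hO, h7] with t ht ht'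
    rw [hg]
    simp only
    rw [Phi_smul ht', Ch.Phi_ζ ht (hH.mem t)])
  rwa [hg0] at h6

theorem EJ.uniq (hU : UniqJ F Φ) {x v : Fin (n + 1) → ℂ} {K : ℂ → Mat (n + 1)}
    (h : EJ F Φ H x v) (h' : EJ F Φ K x v) (z : ℂ) : H z = K z :=
  hU H K h.ec h'.ec (h.pt.trans h'.pt.symm) (h.der.trans h'.der.symm) z

/-- limits of jets -/
theorem EJ.limit (hX : ProjManifold F d) (hΦ : NonposMetric (Cone F) d Φ)
    (hnd : Nondegenerate (Cone F) d Φ) {h : ℕ → ℂ → Mat (n + 1)}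
    {p : ℕ → (Fin (n + 1) → ℂ) × (Fin (n + 1) → ℂ)}
    {q : (Fin (n + 1) → ℂ) × (Fin (n + 1) → ℂ)}
    (hh : ∀ k, EJ F Φ (h k) (p k).1 (p k).2) (𝓤 : Ultrafilter ℕ) (hp : Tendsto p 𝓤 (𝓝 q))
    (hq : q.1 ≠ 0) : ∃ H, EJ F Φ H q.1 q.2 := by
  obtain ⟨H, hH, h1, h2⟩ := Ec.limit hX hΦ hnd (fun k => (hh k).ec) 𝓤
  refine ⟨H, hH, ?_, ?_⟩
  · refine tendsto_nhds_unique (h1 0) ?_
    have h3 : Tendsto (fun k => Phi (p k).1) 𝓤 (𝓝 (Phi q.1 : Mat (n + 1))) :=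
      ((continuousAt_Phi hq).comp (continuousAt_fst (p := q))).tendsto.comp hp
    exact h3.congr fun k => (hh k).pt.symm
  · refine tendsto_nhds_unique (h2 0) ?_
    have h3 : Tendsto (fun k => jd (p k).1 (p k).2) 𝓤 (𝓝 (jd q.1 q.2)) :=
      (jd_cont hq).tendsto.comp hp
    exact h3.congr fun k => (hh k).der.symm

/-- jets near a jet -/
theorem EJ.near (hX : ProjManifold F d) (hG : ∀ i, IsForm (G i))
    (hη : PositiveTwoForms (Cone F) (Cone G) d η) (hZ : NoBC F G)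
    (hΦ : NonposMetric (Cone F) d Φ) (hnd : Nondegenerate (Cone F) d Φ) (hU : UniqJ F Φ)
    {p : (Fin (n + 1) → ℂ) × (Fin (n + 1) → ℂ)} (hp : p.1 ≠ 0) (h : EJ F Φ H p.1 p.2) {ε : ℝ}
    (hε : 0 < ε) : ∀ᶠ q in 𝓝 p, ∀ K, EJ F Φ K q.1 q.2 →
      ∃ s l : ℂ, ‖l‖ = 1 ∧ ‖l - 1‖ < ε ∧ ‖s‖ < ε ∧ ∀ z, K z = H (s + l * z) := by
  obtain ⟨δ, hδ, hr⟩ := rigid hX hG hη hZ hΦ hnd hU h.ec hε
  have h1 : ContinuousAt (fun q : (Fin (n + 1) → ℂ) × (Fin (n + 1) → ℂ) =>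
      (Phi q.1 : Mat (n + 1))) p := (continuousAt_Phi hp).comp continuousAt_fst
  filter_upwards [h1.eventually (ball_mem_nhds _ hδ), (jd_cont hp).eventually (ball_mem_nhds _ hδ)]
    with q hq1 hq2 K hK
  apply hr K hK.ec
  · rw [hK.pt, h.pt, ← dist_eq_norm]
    exact hq1
  · rw [hK.der, h.der, ← dist_eq_norm]
    exact hq2

end Pool.Agent.H33
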