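import Pool.Agent.H33.JG

/-! Comparison of the distance functions. -/

set_option autoImplicit false

open Filter Topology Metric Set MvPolynomial LinearAlgebra.Projectivization

namespace Pool.Agent.H33

open Pool.Agent.Y190.OP Pool.Agent.W602.GT Pool.Agent.N155 Pool.Agent.N155.BB

/-- limits of difference quotients -/
theorem seq_lim {E E' : Type*} [NormedAddCommGroup E] [NormedSpace ℂ E] [NormedAddCommGroup E']
    [NormedSpace ℂ E'] {G : E → E'} {G' : E →L[ℂ] E'} {w0 : E} (hG : HasStrictFDerivAt G G' w0)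
    {q : E → E} (hq : ContinuousAt q w0) (hq0 : q w0 = w0) (h0 : ∀ᶠ w in 𝓝 w0, G (q w) = 0)
    {w : ℕ → E} {l : Filter ℕ} (hw : Tendsto w l (𝓝 w0)) {β : ℕ → ℝ} (hβ : ∀ j, 0 < β j)
    (hb : ∀ j, ‖w j - q (w j)‖ ≤ β j) {y : E}
    (hy : Tendsto (fun j => ((β j : ℝ) : ℂ)⁻¹ • (w j - q (w j))) l (𝓝 y)) :
    Tendsto (fun j => ((β j : ℝ) : ℂ)⁻¹ • G (w j)) l (𝓝 (G' y)) := by
  have h1 : Tendsto (fun j => (w j, q (w j))) l (𝓝 (w0, w0)) := by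
    have := hw.prodMk_nhds (hq.tendsto.comp hw)
    rwa [hq0] at this
  have h2 := hG.isLittleO.comp_tendsto h1
  have h3 : Tendsto (fun j => ((β j : ℝ) : ℂ)⁻¹ • (G (w j) - G (q (w j)) - G' (w j - q (w j)))) l
      (𝓝 0) := by
    rw [Metric.tendsto_nhds]
    intro ε hε
    have h4 := h2.def (c := ε / 2) (by positivity)
    filter_upwards [h4] with j hj
    rw [dist_zero_right, norm_smul, norm_inv, Complex.norm_real, Real.norm_of_nonneg (hβ j).le]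
    simp only [Function.comp_apply] at hj
    have h5 := hj.trans (mul_le_mul_of_nonneg_left (hb j) (by positivity))
    calc (β j)⁻¹ * ‖G (w j) - G (q (w j)) - G' (w j - q (w j))‖ ≤ (β j)⁻¹ * (ε / 2 * β j) :=
          mul_le_mul_of_nonneg_left h5 (inv_pos.2 (hβ j)).le
      _ = ε / 2 := by
          have := (hβ j).ne'
          field_simp
      _ < ε := by linarith
  have h4 : Tendsto (fun j => G' (((β j : ℝ) : ℂ)⁻¹ • (w j - q (w j)))) l (𝓝 (G' y)) :=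
    (G'.continuous.tendsto y).comp hy
  have h5 := h3.add h4
  rw [zero_add] at h5
  refine h5.congr' ?_
  filter_upwards [hw.eventually h0] with j hj
  rw [hj, map_smul, ← smul_add]
  congr 1
  abel

variable {n : ℕ} {ι ι' : Type} {F : ι → MvPolynomial (Fin (n + 1)) ℂ}
  {G : ι' → MvPolynomial (Fin (n + 1)) ℂ} {d : ℕ}
  {κ : Type} {η : κ → (Fin (n + 1) → ℂ) → (Fin (n + 1) → ℂ) → (Fin (n + 1) → ℂ) → ℂ}
  {Φ : (Fin (n + 1) → ℂ) → (Fin (n + 1) → ℂ) → ℝ} {c c' : Ch F d} {H : ℂ → Mat (n + 1)} {ν : ℕ}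

/-- the change of charts -/
noncomputable def Ch.tr (c c' : Ch F d) (w : Fin d → ℂ) : Fin d → ℂ := c'.z (c.Θ w)

theorem Ch.z_an {x : Fin (n + 1) → ℂ} (hx : x c.i ≠ 0) : AnalyticAt ℂ c.z x := by
  have h : ∀ j, AnalyticAt ℂ (fun x : Fin (n + 1) → ℂ => x j) x := fun j =>
    (ContinuousLinearMap.proj (R := ℂ) (φ := fun _ : Fin (n + 1) => ℂ) j).analyticAt _
  exact analyticAt_pi_iff.2 fun k => (h (c.J k)).div (h c.i) hx

theorem Ch.tr_an {w : Fin d → ℂ} (hw : w ∈ c.U) (hd : c.Θ w ∈ c'.dom) :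
    AnalyticAt ℂ (c.tr c') w :=
  AnalyticAt.comp (g := c'.z) (Ch.z_an (Ch.ne hd)) (c.an w hw)

theorem Ch.fderiv_tr {w : Fin d → ℂ} (hw : w ∈ c.U) (hd : c.Θ w ∈ c'.dom) (b : Fin d → ℂ) :
    fderiv ℂ (c.tr c') w b = c'.a (c.Θ w) (fderiv ℂ c.Θ w b) := by
  have h0 : (fun s : ℂ => w + s • b) 0 = w := by simp
  have h2 : HasDerivAt (fun s : ℂ => w + s • b) b 0 := by
    have : HasDerivAt (fun s : ℂ => w + s • b) ((1 : ℂ) • b) 0 :=
      ((hasDerivAt_id (0 : ℂ)).smul_const b).const_add w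
    rwa [one_smul] at this
  have h1 : HasFDerivAt c.Θ (fderiv ℂ c.Θ w) ((fun s : ℂ => w + s • b) 0) := by
    rw [h0]
    exact (c.an _ hw).differentiableAt.hasFDerivAt
  have h3 : HasDerivAt (fun s : ℂ => c.Θ (w + s • b)) (fderiv ℂ c.Θ w b) 0 :=
    h1.comp_hasDerivAt 0 h2
  have h4 := Ch.hasDeriv (c := c') h3 (by
    rw [zero_smul, add_zero]
    exact Ch.ne hd)
  rw [zero_smul, add_zero] at h4
  have h5 : HasFDerivAt (c.tr c') (fderiv ℂ (c.tr c') w) ((fun s : ℂ => w + s • b) 0) := by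
    rw [h0]
    exact (Ch.tr_an hw hd).differentiableAt.hasFDerivAt
  have h6 := h5.comp_hasDerivAt (0 : ℂ) h2
  exact HasDerivAt.unique h6 h4

theorem Ch.tr_z {x : Fin (n + 1) → ℂ} (hx : x ∈ c.dom) : c.tr c' (c.z x) = c'.z x := by
  unfold Ch.tr
  conv_rhs => rw [Ch.eq hx, Ch.z_smul _ (Ch.ne hx)]

theorem Ch.tr_a {x v : Fin (n + 1) → ℂ} (hT : Tg F x v) (hx : x ∈ c.dom)
    (hd : c.Θ (c.z x) ∈ c'.dom) : fderiv ℂ (c.tr c') (c.z x) (c.a x v) = c'.a x v := by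
  rw [Ch.fderiv_tr (Ch.z_mem hx) hd]
  have h1 := Ch.a_twist (c := c') (c.Θ (c.z x)) (fderiv ℂ c.Θ (c.z x) (c.a x v)) (Ch.ne hx)
    (v c.i / x c.i)
  rw [← Ch.v_eq hT hx, ← Ch.eq hx] at h1
  exact h1.symm

theorem Ch.tr_N [Fintype κ] (hη : PositiveTwoForms (Cone F) ∅ d η) {w : Fin d → ℂ} (hw : w ∈ c.U)
    (hd : c.Θ w ∈ c'.dom) (a b : Fin d → ℂ) :
    c'.N η (c.tr c' w) (fderiv ℂ (c.tr c') w a) (fderiv ℂ (c.tr c') w b) = c.N η w a b := by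
  rw [Ch.fderiv_tr hw hd, Ch.fderiv_tr hw hd]
  exact (Ch.N_eq hη (Ch.tg hw a) (Ch.tg hw b) hd).symm

theorem Ch.tr_dom {x : Fin (n + 1) → ℂ} (hx : x ∈ c.dom) (hx' : x ∈ c'.dom) :
    c.Θ (c.z x) ∈ c'.dom := by
  refine ⟨(c.mem _ (Ch.z_mem hx)).1, ?_⟩
  have h1 : Phi (c.Θ (c.z x)) = Phi x := by
    conv_rhs => rw [Ch.eq hx]
    rw [Phi_smul (Ch.ne hx)]
  rw [h1]
  exact hx'.2

theorem Ch.tr_nhds {w : Fin d → ℂ} (hw : w ∈ c.U) (hd : c.Θ w ∈ c'.dom) :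
    ∀ᶠ w' in 𝓝 w, w' ∈ c.U ∧ c.Θ w' ∈ c'.dom := by
  have h1 : ContinuousAt (fun w => Phi (c.Θ w)) w :=
    ContinuousAt.comp (g := (Phi : (Fin (n + 1) → ℂ) → Mat (n + 1)))
      (continuousAt_Phi (c.mem _ hw).1.1) (c.an w hw).continuousAt
  filter_upwards [c.hU.mem_nhds hw, h1.eventually (c'.hO.mem_nhds hd.2)] with w' h2 h3
  exact ⟨h2, (c.mem _ h2).1, h3⟩

/-- The comparison data. -/
structure Cmp (D D' : Dt F d Φ) (w0 : Fin d → ℂ) (σ : ℂ) : Prop where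
  hw : w0 ∈ D.B
  hw' : D.c.tr D'.c w0 ∈ D'.B
  hB : ∀ᶠ w in 𝓝 w0, w ∈ D.B
  hB' : ∀ᶠ w in 𝓝 w0, D.c.tr D'.c w ∈ D'.B
  hd : D.c.Θ w0 ∈ D'.c.dom
  hσ : ‖σ‖ = 1
  Y0 : D.Y w0 = 0
  Y' : ∀ᶠ w in 𝓝 w0, D'.Y (D.c.tr D'.c (w - D.Y w)) = 0
  τ' : ∀ᶠ w in 𝓝 w0, fderiv ℂ (D.c.tr D'.c) (w - D.Y w) (D.τ (w - D.Y w)) =
    σ • D'.τ (D.c.tr D'.c (w - D.Y w))

/-- comparison data from a common jet -/
theorem exists_cmp (hU : UniqJ F Φ) {D D' : Dt F d Φ} {x v : Fin (n + 1) → ℂ} (hT : Tg F x v)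
    {t μ t' μ' : ℂ} (ht : ‖t‖ < 2 * D.r) (hμ : ‖μ‖ = 1) (ht' : ‖t'‖ < 2 * D'.r) (hμ' : ‖μ'‖ = 1)
    (h : EJ F Φ (fun z => D.H (t + μ * z)) x v) (h' : EJ F Φ (fun z => D'.H (t' + μ' * z)) x v) :
    ∃ σ, Cmp D D' (D.c.z x) σ := by
  have hx := hT.mem
  have hμ0 : μ ≠ 0 := by
    rintro rfl
    rw [norm_zero] at hμ
    exact zero_ne_one hμ
  have heq : ∀ s, D.H s = D'.H (t' + μ' / μ * (s - t)) := by
    intro s
    have h1 : D.H (t + μ * ((s - t) / μ)) = D'.H (t' + μ' * ((s - t) / μ)) :=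
      EJ.uniq hU h h' ((s - t) / μ)
    rw [mul_div_cancel₀ _ hμ0, add_sub_cancel] at h1
    rw [h1]
    congr 1
    ring
  have hp : D.H t = Phi x := by simpa using h.pt
  have hp' : D'.H t' = Phi x := by simpa using h'.pt
  obtain ⟨a1, a2, a3, a4⟩ := Dt.line_dom hx ht hp
  obtain ⟨b1, b2, b3, b4⟩ := Dt.line_dom hx ht' hp'
  set σ : ℂ := μ' / μ with hσ
  have hw := Dt.dom_B a1
  have hdd := Ch.tr_dom a1.1 b1.1
  have htr : D.c.tr D'.c (D.c.z x) = D'.c.z x := Ch.tr_z a1.1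
  -- the parameter
  have hT1 : ContinuousAt D.tt (D.c.z x) := (D.ball _ hw).2.2.1.continuousAt
  have hT0 : D.tt (D.c.z x) = t := a3
  have e1 : ∀ᶠ w in 𝓝 (D.c.z x), ‖D.tt w‖ < 2 * D.r := by
    have : ContinuousAt (fun w => ‖D.tt w‖) (D.c.z x) := hT1.norm
    refine this.eventually_lt_const ?_
    change ‖D.tt (D.c.z x)‖ < _
    rw [hT0]
    exact ht
  have e2 : ∀ᶠ w in 𝓝 (D.c.z x), ‖t' + σ * (D.tt w - t)‖ < 2 * D'.r := by
    have : ContinuousAt (fun w => ‖t' + σ * (D.tt w - t)‖) (D.c.z x) := by fun_prop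
    refine this.eventually_lt_const ?_
    change ‖t' + σ * (D.tt (D.c.z x) - t)‖ < _
    rw [hT0, sub_self, mul_zero, add_zero]
    exact ht'
  -- the facts at a point of the line
  have key : ∀ s, ‖s‖ < 2 * D.r → ‖t' + σ * (s - t)‖ < 2 * D'.r →
      D.c.Θ (D.c.ζ D.H s) ∈ D'.c.dom ∧
      D.c.tr D'.c (D.c.ζ D.H s) = D'.c.ζ D'.H (t' + σ * (s - t)) := by
    intro s hs hs'
    have hO := (D.line s hs).1
    have hO' := (D'.line _ hs').1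
    have h1 : Phi (D.c.Θ (D.c.ζ D.H s)) = D'.H (t' + σ * (s - t)) := by
      rw [Ch.Phi_ζ hO (D.hH.mem s), heq s]
    have h2 : D.c.Θ (D.c.ζ D.H s) ∈ D'.c.dom :=
      ⟨(D.c.mem _ (Ch.ζ_mem hO)).1, by rw [h1]; exact hO'⟩
    exact ⟨h2, (Ch.ζ_of h2 h1.symm).symm⟩
  have hYw : ∀ w : Fin d → ℂ, w - D.Y w = D.c.ζ D.H (D.tt w) := by
    intro w
    unfold Dt.Y
    rw [sub_sub_cancel]
  refine ⟨σ, hw, ?_, ?_, ?_, hdd, ?_, a4, ?_, ?_⟩
  · rw [htr]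
    exact Dt.dom_B b1
  · filter_upwards [isOpen_ball.mem_nhds a1.2] with w hw
    exact ball_subset_closedBall hw
  · have h1 : ContinuousAt (D.c.tr D'.c) (D.c.z x) := (Ch.tr_an (Dt.B_sub hw) hdd).continuousAt
    have h2 : Metric.ball (D'.c.ζ D'.H 0) D'.ρ ∈ 𝓝 (D.c.tr D'.c (D.c.z x)) := by
      rw [htr]
      exact isOpen_ball.mem_nhds b1.2
    filter_upwards [h1.eventually h2] with w hw
    exact ball_subset_closedBall hw
  · rw [hσ, norm_div, hμ, hμ', div_one]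
  · filter_upwards [e1, e2] with w h1 h2
    rw [hYw, (key _ h1 h2).2]
    unfold Dt.Y
    rw [(D'.line _ h2).2.2, sub_self]
  · filter_upwards [e1, e2] with w h1 h2
    rw [hYw, (key _ h1 h2).2]
    unfold Dt.τ
    rw [(D.line _ h1).2.2, (D'.line _ h2).2.2]
    set s := D.tt w with hs
    have hO := (D.line s h1).1
    have hO' := (D'.line _ h2).1
    have g1 : HasDerivAt (D.c.ζ D.H) (deriv (D.c.ζ D.H) s) s :=
      (Ch.ζ_an D.hH.hol hO).differentiableAt.hasDerivAt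
    have g2 := ((Ch.tr_an (Ch.ζ_mem hO) (key s h1 h2).1).differentiableAt.hasFDerivAt).comp_hasDerivAt
      s g1
    have g3 : HasDerivAt (D'.c.ζ D'.H) (deriv (D'.c.ζ D'.H) (t' + σ * (s - t)))
      (t' + σ * (s - t)) := (Ch.ζ_an D'.hH.hol hO').differentiableAt.hasDerivAt
    have g4 : HasDerivAt (fun s : ℂ => t' + σ * (s - t)) σ s := by
      have := (((hasDerivAt_id s).sub_const t).const_mul σ).const_add t'
      simpa using this
    have g5 := HasDerivAt.scomp (h := fun s : ℂ => t' + σ * (s - t)) s g3 g4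
    refine g2.unique (g5.congr_of_eventuallyEq ?_)
    have f1 : ∀ᶠ s' in 𝓝 s, ‖s'‖ < 2 * D.r := continuous_norm.continuousAt.eventually_lt_const h1
    have f2 : ∀ᶠ s' in 𝓝 s, ‖t' + σ * (s' - t)‖ < 2 * D'.r := by
      have : ContinuousAt (fun s' => ‖t' + σ * (s' - t)‖) s := by fun_prop
      exact this.eventually_lt_const h2
    filter_upwards [f1, f2] with s' h1' h2'
    exact (key s' h1' h2').2

end Pool.Agent.H33
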