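import Pool.Agent.H33.JK

/-! Comparison of the distance functions. -/

set_option autoImplicit false

open Filter Topology Metric Set MvPolynomial LinearAlgebra.Projectivization

namespace Pool.Agent.H33

open Pool.Agent.Y190.OP Pool.Agent.W602.GT Pool.Agent.N155 Pool.Agent.N155.BB

variable {n : ℕ} {ι ι' : Type} {F : ι → MvPolynomial (Fin (n + 1)) ℂ}
  {G : ι' → MvPolynomial (Fin (n + 1)) ℂ} {d : ℕ}
  {κ : Type} {η : κ → (Fin (n + 1) → ℂ) → (Fin (n + 1) → ℂ) → (Fin (n + 1) → ℂ) → ℂ}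
  {Φ : (Fin (n + 1) → ℂ) → (Fin (n + 1) → ℂ) → ℝ} {c c' : Ch F d} {H : ℂ → Mat (n + 1)} {ν : ℕ}
  [Fintype κ]

theorem Ch.N_div (hh : HomForms (Cone F) ν η) {w : Fin d → ℂ} (hw : w ∈ c.U) (a b : Fin d → ℂ)
    {β : ℝ} (hβ : 0 < β) :
    c.N η w a b / β ^ ν = c.N η w a (((β : ℝ) : ℂ)⁻¹ • b) := by
  rw [Ch.N_right hh hw, norm_inv, Complex.norm_real, Real.norm_of_nonneg hβ.le, inv_pow]
  field_simp

theorem Ch.N_tendsto (hη : PositiveTwoForms (Cone F) ∅ d η) {w0 a0 b0 : Fin d → ℂ}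
    (hw0 : w0 ∈ c.U) {l : Filter ℕ} {w a b : ℕ → Fin d → ℂ} (hw : Tendsto w l (𝓝 w0))
    (ha : Tendsto a l (𝓝 a0)) (hb : Tendsto b l (𝓝 b0)) :
    Tendsto (fun j => c.N η (w j) (a j) (b j)) l (𝓝 (c.N η w0 a0 b0)) := by
  have h1 : ContinuousAt (fun p : (Fin d → ℂ) × (Fin d → ℂ) × (Fin d → ℂ) =>
      c.N η p.1 p.2.1 p.2.2) (w0, a0, b0) :=
    (Ch.N_cont hη).continuousAt ((c.hU.prod isOpen_univ).mem_nhds ⟨hw0, mem_univ _⟩)
  have h2 : Tendsto (fun j => (w j, a j, b j)) l (𝓝 (w0, a0, b0)) :=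
    hw.prodMk_nhds (ha.prodMk_nhds hb)
  have h3 := Filter.Tendsto.comp h1.tendsto h2
  simp only [Function.comp_def] at h3
  exact h3

namespace Cmp

variable {D D' : Dt F d Φ} {w0 : Fin d → ℂ} {σ : ℂ}

omit [Fintype κ] in
theorem tr_an (h : Cmp D D' w0 σ) : AnalyticAt ℂ (D.c.tr D'.c) w0 :=
  Ch.tr_an (Dt.B_sub h.hw) h.hd

omit [Fintype κ] in
theorem proj (h : Cmp D D' w0 σ) : ContinuousAt (fun w => w - D.Y w) w0 ∧ w0 - D.Y w0 = w0 :=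
  ⟨continuousAt_id.sub (Dt.Y_an h.hw).continuousAt, by rw [h.Y0, sub_zero]⟩

omit [Fintype κ] in
theorem τ0 (h : Cmp D D' w0 σ) : fderiv ℂ (D.c.tr D'.c) w0 (D.τ w0) =
    σ • D'.τ (D.c.tr D'.c w0) := by
  have h1 := h.τ'.self_of_nhds
  rwa [h.proj.2] at h1

/-- the forms agree -/
theorem N_eq (h : Cmp D D' w0 σ) (hη : PositiveTwoForms (Cone F) ∅ d η)
    (hh : HomForms (Cone F) ν η) (b : Fin d → ℂ) :
    D'.c.N η (D.c.tr D'.c w0) (D'.τ (D.c.tr D'.c w0)) (fderiv ℂ (D.c.tr D'.c) w0 b) =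
      D.c.N η w0 (D.τ w0) b := by
  rw [← Ch.tr_N hη (Dt.B_sub h.hw) h.hd, h.τ0, Ch.N_left hh (Dt.B_sub h.hw'), h.hσ, one_pow,
    one_mul]

omit [Fintype κ] in
theorem Y_an (h : Cmp D D' w0 σ) : AnalyticAt ℂ (fun w => D'.Y (D.c.tr D'.c w)) w0 :=
  AnalyticAt.comp (g := D'.Y) (Dt.Y_an h.hw') h.tr_an

/-- the derivative of `Y` -/
theorem _root_.Pool.Agent.H33.Dt.fderiv_Y {D : Dt F d Φ} {w : Fin d → ℂ} (hw : w ∈ D.B)
    (b : Fin d → ℂ) : ∃ ℓ : ℂ, fderiv ℂ D.Y w b = b + ℓ • D.τ w := by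
  refine ⟨-(fderiv ℂ D.tt w b), ?_⟩
  have h1 : HasFDerivAt D.tt (fderiv ℂ D.tt w) w :=
    (D.ball w hw).2.2.1.differentiableAt.hasFDerivAt
  have h2 : HasDerivAt (D.c.ζ D.H) (D.τ w) (D.tt w) :=
    (Ch.ζ_an D.hH.hol (D.ball w hw).2.2.2.1).differentiableAt.hasDerivAt
  have h3 := h2.hasFDerivAt.comp w h1
  have h4 := (hasFDerivAt_id w).sub h3
  have h5 : fderiv ℂ D.Y w = _ := h4.fderiv
  rw [h5]
  simp [sub_eq_add_neg]

theorem N_Y (h : Cmp D D' w0 σ) (hη : PositiveTwoForms (Cone F) ∅ d η)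
    (hh : HomForms (Cone F) ν η) (b : Fin d → ℂ) :
    D'.c.N η (D.c.tr D'.c w0) (D'.τ (D.c.tr D'.c w0))
      (fderiv ℂ (fun w => D'.Y (D.c.tr D'.c w)) w0 b) = D.c.N η w0 (D.τ w0) b := by
  have h1 : HasFDerivAt (fun w => D'.Y (D.c.tr D'.c w)) _ w0 :=
    HasFDerivAt.comp (g := D'.Y) w0 (Dt.Y_an h.hw').differentiableAt.hasFDerivAt
      h.tr_an.differentiableAt.hasFDerivAt
  obtain ⟨ℓ, hℓ⟩ := Dt.fderiv_Y h.hw' (fderiv ℂ (D.c.tr D'.c) w0 b)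
  rw [h1.fderiv, ContinuousLinearMap.comp_apply, hℓ, Ch.N_add hη (Dt.B_sub h.hw'), h.N_eq hη hh]

/-- the limits of `P` -/
theorem limP (h : Cmp D D' w0 σ) (hη : PositiveTwoForms (Cone F) ∅ d η)
    (hh : HomForms (Cone F) ν η) {l : Filter ℕ} {w : ℕ → Fin d → ℂ} (hw : Tendsto w l (𝓝 w0))
    {β : ℕ → ℝ} (hβ : ∀ j, 0 < β j) (hb : ∀ j, ‖D.Y (w j)‖ ≤ β j) {y : Fin d → ℂ}
    (hy : Tendsto (fun j => ((β j : ℝ) : ℂ)⁻¹ • D.Y (w j)) l (𝓝 y)) :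
    Tendsto (fun j => D.c.N η (w j) (D.τ (w j)) (D.Y (w j)) / β j ^ ν) l
      (𝓝 (D.c.N η w0 (D.τ w0) y)) ∧
    Tendsto (fun j => D'.c.N η (D.c.tr D'.c (w j)) (D'.τ (D.c.tr D'.c (w j)))
      (D'.Y (D.c.tr D'.c (w j))) / β j ^ ν) l (𝓝 (D.c.N η w0 (D.τ w0) y)) := by
  have hU : ∀ᶠ j in l, w j ∈ D.c.U := hw.eventually (D.c.hU.mem_nhds (Dt.B_sub h.hw))
  have htr : Tendsto (fun j => D.c.tr D'.c (w j)) l (𝓝 (D.c.tr D'.c w0)) :=
    h.tr_an.continuousAt.tendsto.comp hw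
  have hU' : ∀ᶠ j in l, D.c.tr D'.c (w j) ∈ D'.c.U :=
    htr.eventually (D'.c.hU.mem_nhds (Dt.B_sub h.hw'))
  constructor
  · refine (Ch.N_tendsto hη (Dt.B_sub h.hw) hw
      ((Dt.τ_an h.hw).continuousAt.tendsto.comp hw) hy).congr' ?_
    filter_upwards [hU] with j hj
    exact (Ch.N_div hh hj _ _ (hβ j)).symm
  · rw [← h.N_Y hη hh]
    have h1 : Tendsto (fun j => ((β j : ℝ) : ℂ)⁻¹ • D'.Y (D.c.tr D'.c (w j))) l
        (𝓝 (fderiv ℂ (fun w => D'.Y (D.c.tr D'.c w)) w0 y)) := by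
      refine seq_lim (G := fun w => D'.Y (D.c.tr D'.c w)) h.Y_an.hasStrictFDerivAt h.proj.1 h.proj.2
        h.Y' hw hβ ?_ ?_
      · intro j
        rw [sub_sub_cancel]
        exact hb j
      · refine hy.congr fun j => ?_
        rw [sub_sub_cancel]
    refine (Ch.N_tendsto hη (Dt.B_sub h.hw') htr
      ((Dt.τ_an h.hw').continuousAt.tendsto.comp htr) h1).congr' ?_
    filter_upwards [hU'] with j hj
    exact (Ch.N_div hh hj _ _ (hβ j)).symm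

/-- the limits of `Q` -/
theorem limQ (h : Cmp D D' w0 σ) (hη : PositiveTwoForms (Cone F) ∅ d η)
    (hh : HomForms (Cone F) ν η) {l : Filter ℕ} {w : ℕ → Fin d → ℂ} (hw : Tendsto w l (𝓝 w0))
    {β : ℕ → ℝ} (hβ : ∀ j, 0 < β j) (hb : ∀ j, ‖D.Y (w j)‖ ≤ β j)
    {y : Fin d → ℂ}
    (hy : Tendsto (fun j => ((β j : ℝ) : ℂ)⁻¹ • D.Y (w j)) l (𝓝 y))
    {s : ℕ → ℂ} {s0 : ℂ} (hs : Tendsto s l (𝓝 s0)) {b : ℕ → Fin d → ℂ} {b0 : Fin d → ℂ}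
    (hb0 : Tendsto (fun j => ((β j : ℝ) : ℂ)⁻¹ • b j) l (𝓝 b0)) :
    Tendsto (fun j => D.c.N η (w j) (D.τ (w j)) (b j + s j • D.τ (w j)) / β j ^ ν) l
      (𝓝 (D.c.N η w0 (D.τ w0) b0)) ∧ ∃ L : ℝ,
    Tendsto (fun j => D'.c.N η (D.c.tr D'.c (w j)) (D'.τ (D.c.tr D'.c (w j)))
      (fderiv ℂ (D.c.tr D'.c) (w j) (b j + s j • D.τ (w j))) / β j ^ ν) l
      (𝓝 L) ∧ (y = 0 → L = D.c.N η w0 (D.τ w0) b0) := by
  have hU : ∀ᶠ j in l, w j ∈ D.c.U := hw.eventually (D.c.hU.mem_nhds (Dt.B_sub h.hw))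
  have htr : Tendsto (fun j => D.c.tr D'.c (w j)) l (𝓝 (D.c.tr D'.c w0)) :=
    h.tr_an.continuousAt.tendsto.comp hw
  have hU' : ∀ᶠ j in l, D.c.tr D'.c (w j) ∈ D'.c.U :=
    htr.eventually (D'.c.hU.mem_nhds (Dt.B_sub h.hw'))
  constructor
  · refine (Ch.N_tendsto hη (Dt.B_sub h.hw) hw
      ((Dt.τ_an h.hw).continuousAt.tendsto.comp hw) hb0).congr' ?_
    filter_upwards [hU] with j hj
    rw [Ch.N_add hη hj]
    exact (Ch.N_div hh hj _ _ (hβ j)).symm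
  · set E : (Fin d → ℂ) → Fin d → ℂ := fun w =>
      fderiv ℂ (D.c.tr D'.c) w (D.τ w) - σ • D'.τ (D.c.tr D'.c w) with hE
    have hEan : AnalyticAt ℂ E w0 := by
      have h0 : AnalyticAt ℂ (fun p : ((Fin d → ℂ) →L[ℂ] (Fin d → ℂ)) × (Fin d → ℂ) => p.1 p.2)
          (fderiv ℂ (D.c.tr D'.c) w0, D.τ w0) :=
        (ContinuousLinearMap.id ℂ ((Fin d → ℂ) →L[ℂ] (Fin d → ℂ))).analyticAt_bilinear _
      have h1 : AnalyticAt ℂ (fun w => fderiv ℂ (D.c.tr D'.c) w (D.τ w)) w0 :=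
        AnalyticAt.comp (f := fun w => (fderiv ℂ (D.c.tr D'.c) w, D.τ w)) h0
          (h.tr_an.fderiv.prod (Dt.τ_an h.hw))
      have h2 : AnalyticAt ℂ (fun w => D'.τ (D.c.tr D'.c w)) w0 :=
        AnalyticAt.comp (g := D'.τ) (Dt.τ_an h.hw') h.tr_an
      have h3 : AnalyticAt ℂ (fun w => σ • D'.τ (D.c.tr D'.c w)) w0 :=
        (analyticAt_const (v := σ)).smul h2
      exact h1.sub h3
    have hE0 : ∀ᶠ w in 𝓝 w0, E (w - D.Y w) = 0 := by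
      filter_upwards [h.τ'] with w hw
      rw [hE]
      simp only
      rw [hw, sub_self]
    have h1 : Tendsto (fun j => ((β j : ℝ) : ℂ)⁻¹ • E (w j)) l (𝓝 (fderiv ℂ E w0 y)) := by
      refine seq_lim (G := E) hEan.hasStrictFDerivAt h.proj.1 h.proj.2 hE0 hw hβ ?_ ?_
      · intro j
        rw [sub_sub_cancel]
        exact hb j
      · refine hy.congr fun j => ?_
        rw [sub_sub_cancel]
    have h2 : Tendsto (fun j => fderiv ℂ (D.c.tr D'.c) (w j)) l (𝓝 (fderiv ℂ (D.c.tr D'.c) w0)) :=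
      h.tr_an.fderiv.continuousAt.tendsto.comp hw
    have h3 : Tendsto (fun j => fderiv ℂ (D.c.tr D'.c) (w j) (((β j : ℝ) : ℂ)⁻¹ • b j)) l
        (𝓝 (fderiv ℂ (D.c.tr D'.c) w0 b0)) :=
      (isBoundedBilinearMap_apply.continuous.tendsto _).comp (h2.prodMk_nhds hb0)
    have h4 := h3.add (hs.smul h1)
    refine ⟨D'.c.N η (D.c.tr D'.c w0) (D'.τ (D.c.tr D'.c w0))
      (fderiv ℂ (D.c.tr D'.c) w0 b0 + s0 • fderiv ℂ E w0 y), ?_, fun hy0 => by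
        rw [hy0, map_zero, smul_zero, add_zero, h.N_eq hη hh]⟩
    refine (Ch.N_tendsto hη (Dt.B_sub h.hw') htr
      ((Dt.τ_an h.hw').continuousAt.tendsto.comp htr) h4).congr' ?_
    filter_upwards [hU'] with j hj
    have h5 : fderiv ℂ (D.c.tr D'.c) (w j) (b j + s j • D.τ (w j)) =
        (fderiv ℂ (D.c.tr D'.c) (w j) (b j) + s j • E (w j)) +
          (s j * σ) • D'.τ (D.c.tr D'.c (w j)) := by
      rw [map_add, map_smul, hE]
      simp only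
      rw [smul_sub, smul_smul]
      abel
    rw [h5, Ch.N_add hη hj, Ch.N_div hh hj _ _ (hβ j)]
    simp only [Function.comp_apply]
    congr 1
    rw [smul_add, map_smul, smul_comm]

/-- the limits of unit vectors -/
theorem _root_.Pool.Agent.H33.exists_unit_lim {E : Type*} [NormedAddCommGroup E] [NormedSpace ℂ E]
    [ProperSpace E] {v : ℕ → E} (hv : ∀ j, ‖v j‖ = 1) (𝓤 : Ultrafilter ℕ) :
    ∃ y, ‖y‖ = 1 ∧ Tendsto v 𝓤 (𝓝 y) := by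
  obtain ⟨y, hy, hl⟩ := (isCompact_sphere (0 : E) 1).ultrafilter_le_nhds (𝓤.map v) (by
    rw [Ultrafilter.coe_map, le_principal_iff, mem_map]
    filter_upwards with k
    exact mem_sphere_zero_iff_norm.2 (hv k))
  exact ⟨y, mem_sphere_zero_iff_norm.1 hy, hl⟩

theorem _root_.Pool.Agent.H33.hyper_le : ((hyperfilter ℕ : Ultrafilter ℕ) : Filter ℕ) ≤ atTop := by
  rw [← Nat.cofinite_eq_atTop]
  exact hyperfilter_le_cofinite

/-- comparison of `P` -/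
theorem P_le (h : Cmp D D' w0 σ) (hη : PositiveTwoForms (Cone F) ∅ d η) (hν : ν ≠ 0)
    (hh : HomForms (Cone F) ν η) {ε : ℝ} (hε : 0 < ε) : ∀ᶠ w in 𝓝 w0,
      D'.c.N η (D.c.tr D'.c w) (D'.τ (D.c.tr D'.c w)) (D'.Y (D.c.tr D'.c w)) ≤
        (1 + ε) * D.c.N η w (D.τ w) (D.Y w) := by
  by_contra hcon
  rw [Filter.not_eventually] at hcon
  obtain ⟨w, hw, hw'⟩ := Filter.exists_seq_forall_of_frequently
    (hcon.and_eventually (h.hB.and (h.hB'.and h.Y')))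
  have hβ : ∀ j, 0 < ‖D.Y (w j)‖ := by
    intro j
    rw [norm_pos_iff]
    intro h0
    obtain ⟨h1, h2, h3, h4⟩ := hw' j
    apply h1
    rw [h0, sub_zero] at h4
    rw [h4, Dt.N_zero hη hν hh h3]
    exact mul_nonneg (by positivity) (Ch.N_nonneg _ _ _)
  set 𝓤 : Ultrafilter ℕ := hyperfilter ℕ with h𝓤
  have hwU : Tendsto w 𝓤 (𝓝 w0) := hw.mono_left hyper_le
  obtain ⟨y, hy1, hy⟩ := exists_unit_lim (v := fun j => ((‖D.Y (w j)‖ : ℝ) : ℂ)⁻¹ • D.Y (w j))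
    (fun j => by
      rw [norm_smul, norm_inv, Complex.norm_real, norm_norm]
      exact inv_mul_cancel₀ (hβ j).ne') 𝓤
  have hyk : y D.k = 0 := by
    have h1 : Tendsto (fun j => (((‖D.Y (w j)‖ : ℝ) : ℂ)⁻¹ • D.Y (w j)) D.k) 𝓤 (𝓝 (y D.k)) :=
      ((continuous_apply D.k).tendsto y).comp hy
    refine tendsto_nhds_unique h1 ?_
    refine tendsto_const_nhds.congr fun j => ?_
    rw [Pi.smul_apply, Dt.Y_k (hw' j).2.1, smul_zero]
  obtain ⟨l1, l2⟩ := h.limP hη hh hwU hβ (fun j => le_rfl) hy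
  have hpos : 0 < D.c.N η w0 (D.τ w0) y := by
    apply Ch.N_pos hη (Dt.B_sub h.hw)
    apply Dt.indep h.hw hyk
    rintro rfl
    rw [norm_zero] at hy1
    exact zero_ne_one hy1
  have h3 := le_of_tendsto_of_tendsto (l1.const_mul (1 + ε)) l2 (Eventually.of_forall fun j => by
    simp only
    rw [← mul_div_assoc]
    exact div_le_div_of_nonneg_right (not_le.1 (hw' j).1).le (by positivity))
  nlinarith

/-- comparison of `Q` -/
theorem Q_le (h : Cmp D D' w0 σ) (hη : PositiveTwoForms (Cone F) ∅ d η) (hν : ν ≠ 0)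
    (hh : HomForms (Cone F) ν η) {ε : ℝ} (hε : 0 < ε) (a0 : Fin d → ℂ) :
    ∃ C : ℝ, ∀ᶠ p in 𝓝 (w0, a0),
      D'.c.N η (D.c.tr D'.c p.1) (D'.τ (D.c.tr D'.c p.1)) (fderiv ℂ (D.c.tr D'.c) p.1 p.2) ≤
        (1 + ε) * D.c.N η p.1 (D.τ p.1) p.2 + C * D.c.N η p.1 (D.τ p.1) (D.Y p.1) := by
  by_contra hcon
  push Not at hcon
  have hev : ∀ᶠ p : (Fin d → ℂ) × (Fin d → ℂ) in 𝓝 (w0, a0), p.1 ∈ D.B ∧
      D.c.tr D'.c p.1 ∈ D'.B ∧ fderiv ℂ (D.c.tr D'.c) (p.1 - D.Y p.1) (D.τ (p.1 - D.Y p.1)) =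
        σ • D'.τ (D.c.tr D'.c (p.1 - D.Y p.1)) :=
    (continuousAt_fst (p := (w0, a0))).eventually (h.hB.and (h.hB'.and h.τ'))
  have h1 : ∀ j : ℕ, ∃ p : (Fin d → ℂ) × (Fin d → ℂ), dist p (w0, a0) < 1 / ((j : ℝ) + 1) ∧
      (p.1 ∈ D.B ∧
      D.c.tr D'.c p.1 ∈ D'.B ∧ fderiv ℂ (D.c.tr D'.c) (p.1 - D.Y p.1) (D.τ (p.1 - D.Y p.1)) =
        σ • D'.τ (D.c.tr D'.c (p.1 - D.Y p.1))) ∧
      (1 + ε) * D.c.N η p.1 (D.τ p.1) p.2 + j * D.c.N η p.1 (D.τ p.1) (D.Y p.1) <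
      D'.c.N η (D.c.tr D'.c p.1) (D'.τ (D.c.tr D'.c p.1)) (fderiv ℂ (D.c.tr D'.c) p.1 p.2) := by
    intro j
    have h2 := hcon j
    obtain ⟨p, hp1, hp2, hp3⟩ := (h2.and_eventually ((Metric.ball_mem_nhds _
      (show (0 : ℝ) < 1 / ((j : ℝ) + 1) by positivity)) |> fun hb => (show ∀ᶠ p in 𝓝 (w0, a0),
        p ∈ Metric.ball (w0, a0) (1 / ((j : ℝ) + 1)) from hb).and hev)).exists
    exact ⟨p, hp2, hp3, hp1⟩
  choose p hpd hpev hpc using h1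
  have hat : Tendsto p atTop (𝓝 (w0, a0)) := by
    rw [tendsto_iff_dist_tendsto_zero]
    exact squeeze_zero (fun j => dist_nonneg) (fun j => (hpd j).le)
      tendsto_one_div_add_atTop_nhds_zero_nat
  set 𝓤 : Ultrafilter ℕ := hyperfilter ℕ with h𝓤
  have hpU : Tendsto p 𝓤 (𝓝 (w0, a0)) := hat.mono_left hyper_le
  have hwU : Tendsto (fun j => (p j).1) 𝓤 (𝓝 w0) := (continuous_fst.tendsto _).comp hpU
  have haU : Tendsto (fun j => (p j).2) 𝓤 (𝓝 a0) := (continuous_snd.tendsto _).comp hpU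
  have hτU : Tendsto (fun j => D.τ (p j).1) 𝓤 (𝓝 (D.τ w0)) :=
    (Dt.τ_an h.hw).continuousAt.tendsto.comp hwU
  set s : ℕ → ℂ := fun j => (p j).2 D.k / D.τ (p j).1 D.k with hs
  have hsU : Tendsto s 𝓤 (𝓝 (a0 D.k / D.τ w0 D.k)) :=
    (((continuous_apply D.k).tendsto _).comp haU).div
      (((continuous_apply D.k).tendsto _).comp hτU) (Dt.τ_k h.hw)
  set b : ℕ → Fin d → ℂ := fun j => (p j).2 - s j • D.τ (p j).1 with hb
  have hab : ∀ j, (p j).2 = b j + s j • D.τ (p j).1 := fun j => by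
    rw [hb]
    simp only
    rw [sub_add_cancel]
  have hbk : ∀ j, b j D.k = 0 := by
    intro j
    rw [hb]
    simp only [Pi.sub_apply, Pi.smul_apply, smul_eq_mul]
    rw [hs]
    simp only
    rw [div_mul_cancel₀ _ (Dt.τ_k (hpev j).1), sub_self]
  set β : ℕ → ℝ := fun j => ‖(b j, D.Y (p j).1)‖ with hβdef
  have hβ : ∀ j, 0 < β j := by
    intro j
    rw [hβdef]
    simp only
    rw [norm_pos_iff]
    intro h0
    have h01 : b j = 0 := congrArg Prod.fst h0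
    have h02 : D.Y (p j).1 = 0 := congrArg Prod.snd h0
    obtain ⟨h2, h3, h4⟩ := hpev j
    rw [h02, sub_zero] at h4
    have h5 := hpc j
    have h6 : fderiv ℂ (D.c.tr D'.c) (p j).1 (p j).2 = (s j * σ) • D'.τ (D.c.tr D'.c (p j).1) := by
      rw [hab j, h01, zero_add, map_smul, h4, smul_smul]
    rw [h6, Dt.N_self hη hν hh h3] at h5
    have h7 : 0 ≤ D.c.N η (p j).1 (D.τ (p j).1) (p j).2 := Ch.N_nonneg _ _ _
    have h8 : 0 ≤ D.c.N η (p j).1 (D.τ (p j).1) (D.Y (p j).1) := Ch.N_nonneg _ _ _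
    have h9 : 0 ≤ (1 + ε) * D.c.N η (p j).1 (D.τ (p j).1) (p j).2 := by positivity
    have h10 : 0 ≤ (j : ℝ) * D.c.N η (p j).1 (D.τ (p j).1) (D.Y (p j).1) := by positivity
    linarith
  obtain ⟨y, hy1, hy⟩ := exists_unit_lim (v := fun j => ((β j : ℝ) : ℂ)⁻¹ • (b j, D.Y (p j).1))
    (fun j => by
      rw [norm_smul, norm_inv, Complex.norm_real, Real.norm_of_nonneg (hβ j).le]
      exact inv_mul_cancel₀ (hβ j).ne') 𝓤
  have hyb : Tendsto (fun j => ((β j : ℝ) : ℂ)⁻¹ • b j) 𝓤 (𝓝 y.1) :=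
    (continuous_fst.tendsto y).comp hy
  have hyY : Tendsto (fun j => ((β j : ℝ) : ℂ)⁻¹ • D.Y (p j).1) 𝓤 (𝓝 y.2) :=
    (continuous_snd.tendsto y).comp hy
  have hk1 : y.1 D.k = 0 := by
    refine tendsto_nhds_unique (((continuous_apply D.k).tendsto _).comp hyb) ?_
    refine tendsto_const_nhds.congr fun j => ?_
    rw [Function.comp_apply, Pi.smul_apply, hbk j, smul_zero]
  have hk2 : y.2 D.k = 0 := by
    refine tendsto_nhds_unique (((continuous_apply D.k).tendsto _).comp hyY) ?_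
    refine tendsto_const_nhds.congr fun j => ?_
    rw [Function.comp_apply, Pi.smul_apply, Dt.Y_k (hpev j).1, smul_zero]
  have hYβ : ∀ j, ‖D.Y (p j).1‖ ≤ β j := fun j => norm_snd_le (b j, D.Y (p j).1)
  obtain ⟨l1, -⟩ := h.limP hη hh hwU hβ hYβ hyY
  obtain ⟨l2, L, l3, l4⟩ := h.limQ hη hh hwU hβ hYβ hyY hsU hyb
  have hpos : ∀ z : Fin d → ℂ, z D.k = 0 → z ≠ 0 → 0 < D.c.N η w0 (D.τ w0) z := fun z hz hz0 =>
    Ch.N_pos hη (Dt.B_sub h.hw) (Dt.indep h.hw hz hz0)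
  have hineq : ∀ j, (1 + ε) * (D.c.N η (p j).1 (D.τ (p j).1) (b j + s j • D.τ (p j).1) / β j ^ ν) +
      j * (D.c.N η (p j).1 (D.τ (p j).1) (D.Y (p j).1) / β j ^ ν) ≤
      D'.c.N η (D.c.tr D'.c (p j).1) (D'.τ (D.c.tr D'.c (p j).1))
        (fderiv ℂ (D.c.tr D'.c) (p j).1 (b j + s j • D.τ (p j).1)) / β j ^ ν := by
    intro j
    rw [← hab j, ← mul_div_assoc, ← mul_div_assoc, ← add_div]
    exact div_le_div_of_nonneg_right (hpc j).le (by have := hβ j; positivity)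
  -- the component `y.2` vanishes
  have hy2 : y.2 = 0 := by
    by_contra hne
    have h2 := hpos _ hk2 hne
    have h3 : Tendsto (fun j : ℕ => (j : ℝ) *
        (D.c.N η (p j).1 (D.τ (p j).1) (D.Y (p j).1) / β j ^ ν)) 𝓤 atTop :=
      (tendsto_natCast_atTop_atTop.mono_left hyper_le).atTop_mul_pos h2 l1
    have h4 : Tendsto (fun j => D'.c.N η (D.c.tr D'.c (p j).1) (D'.τ (D.c.tr D'.c (p j).1))
        (fderiv ℂ (D.c.tr D'.c) (p j).1 (b j + s j • D.τ (p j).1)) / β j ^ ν) 𝓤 atTop := by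
      refine tendsto_atTop_mono (fun j => ?_) h3
      have h5 := hineq j
      have h6 : 0 ≤ (1 + ε) *
          (D.c.N η (p j).1 (D.τ (p j).1) (b j + s j • D.τ (p j).1) / β j ^ ν) := by
        have h7 : 0 ≤ D.c.N η (p j).1 (D.τ (p j).1) (b j + s j • D.τ (p j).1) :=
          Ch.N_nonneg _ _ _
        have := hβ j
        positivity
      linarith
    exact not_tendsto_nhds_of_tendsto_atTop h4 L l3
  have hy1' : y.1 ≠ 0 := by
    intro h0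
    have : y = 0 := Prod.ext h0 hy2
    rw [this, norm_zero] at hy1
    exact zero_ne_one hy1
  have h5 := hpos _ hk1 hy1'
  have h6 := le_of_tendsto_of_tendsto (l2.const_mul (1 + ε)) l3 (Eventually.of_forall fun j => by
    have h7 := hineq j
    have h8 : 0 ≤ (j : ℝ) * (D.c.N η (p j).1 (D.τ (p j).1) (D.Y (p j).1) / β j ^ ν) := by
      have h9 : 0 ≤ D.c.N η (p j).1 (D.τ (p j).1) (D.Y (p j).1) := Ch.N_nonneg _ _ _
      have := hβ j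
      positivity
    simp only
    linarith)
  rw [l4 hy2] at h6
  nlinarith

end Cmp

/-- **Comparison of the distance functions.** -/
theorem compare (hX : ProjManifold F d) (hΦ : NonposMetric (Cone F) d Φ)
    (hη : PositiveTwoForms (Cone F) ∅ d η) (hν : ν ≠ 0) (hh : HomForms (Cone F) ν η)
    (hU : UniqJ F Φ) {D D' : Dt F d Φ} {q : (Fin (n + 1) → ℂ) × (Fin (n + 1) → ℂ)}
    (hq : q ∈ TT F) (h1 : Φ q.1 q.2 = 1) (hx : q.1 ∈ D.dom) (hx' : q.1 ∈ D'.dom)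
    (ht : ‖D.t q.1‖ < 2 * D.r) (ht' : ‖D'.t q.1‖ < 2 * D'.r) (he : D.e η ν q.1 q.2 = 0)
    (he' : D'.e η ν q.1 q.2 = 0) {ε : ℝ} (hε : 0 < ε) : ∃ C : ℝ, ∀ᶠ p in 𝓝[TT F] q,
      D'.P η p.1 ≤ (1 + ε) * D.P η p.1 ∧
      D'.Q η p.1 p.2 ≤ (1 + ε) * D.Q η p.1 p.2 + C * D.P η p.1 := by
  obtain ⟨μ, hμ, hj⟩ := Dt.jet_of_e hX hΦ hη hν hh hq h1 hx he
  obtain ⟨μ', hμ', hj'⟩ := Dt.jet_of_e hX hΦ hη hν hh hq h1 hx' he'
  obtain ⟨σ, hσ⟩ := exists_cmp hU hq ht hμ ht' hμ' hj hj'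
  obtain ⟨C, hC⟩ := hσ.Q_le hη hν hh hε (D.c.a q.1 q.2)
  refine ⟨C, ?_⟩
  have hz : ContinuousAt (fun p : (Fin (n + 1) → ℂ) × (Fin (n + 1) → ℂ) => D.c.z p.1) q :=
    (Ch.z_cont (Ch.ne hx.1)).comp continuousAt_fst
  have e1 := hz.eventually (hσ.P_le hη hν hh hε)
  have e2 := (hz.prodMk (Ch.a_cont (Ch.ne hx.1))).eventually hC
  filter_upwards [mem_nhdsWithin_of_mem_nhds e1, mem_nhdsWithin_of_mem_nhds e2,
    (tt_fst q).eventually (Dt.dom_nhds hx), (tt_fst q).eventually (Dt.dom_nhds hx'),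
    self_mem_nhdsWithin] with p h1 h2 h3 h4 h5
  rw [Ch.tr_z h3.1] at h1 h2
  rw [Ch.tr_a h5 h3.1 (Ch.tr_dom h3.1 h4.1)] at h2
  exact ⟨h1, h2⟩

end Pool.Agent.H33
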