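import Pool.Agent.H33.JL
import Pool.Graph.R_pool_sql_team_seeded_63374d34.N155.B.Rat

/-! Finite families of data. -/

set_option autoImplicit false

open Filter Topology Metric Set MvPolynomial LinearAlgebra.Projectivization

namespace Pool.Agent.H33

open Pool.Agent.Y190.OP Pool.Agent.W602.GT Pool.Agent.N155 Pool.Agent.N155.BB

/-- uniform constants on compact sets -/
theorem cpt_unif {X : Type*} [TopologicalSpace X] {K : Set X} (hK : IsCompact K)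
    {φ : ℝ → X → Prop} (hmono : ∀ C C' p, C ≤ C' → φ C p → φ C' p)
    (h : ∀ q ∈ K, ∃ C, ∀ᶠ p in 𝓝[K] q, φ C p) : ∃ C, ∀ p ∈ K, φ C p := by
  refine hK.induction_on (p := fun s => ∃ C, ∀ p ∈ s, φ C p) ?_ ?_ ?_ ?_
  · exact ⟨0, fun p hp => absurd hp (notMem_empty _)⟩
  · rintro s t hst ⟨C, hC⟩
    exact ⟨C, fun p hp => hC p (hst hp)⟩
  · rintro s t ⟨C, hC⟩ ⟨C', hC'⟩
    refine ⟨max C C', ?_⟩
    rintro p (hp | hp)
    · exact hmono _ _ _ (le_max_left _ _) (hC p hp)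
    · exact hmono _ _ _ (le_max_right _ _) (hC' p hp)
  · intro q hq
    obtain ⟨C, hC⟩ := h q hq
    exact ⟨{p | φ C p}, hC, C, fun p hp => hp⟩

/-- uniform constants for finitely many conditions -/
theorem fin_unif {J : Type*} [Fintype J] {φ : J → ℝ → Prop}
    (hmono : ∀ j C C', C ≤ C' → φ j C → φ j C') (h : ∀ j, ∃ C, φ j C) : ∃ C, 0 ≤ C ∧ ∀ j, φ j C := by
  choose C hC using h
  refine ⟨∑ j, |C j|, Finset.sum_nonneg fun _ _ => abs_nonneg _, fun j => hmono j _ _ ?_ (hC j)⟩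
  exact (le_abs_self _).trans (Finset.single_le_sum (f := fun j => |C j|)
    (fun _ _ => abs_nonneg _) (Finset.mem_univ j))

variable {n : ℕ} {ι ι' : Type} {F : ι → MvPolynomial (Fin (n + 1)) ℂ}
  {G : ι' → MvPolynomial (Fin (n + 1)) ℂ} {d : ℕ}
  {κ : Type} {η : κ → (Fin (n + 1) → ℂ) → (Fin (n + 1) → ℂ) → (Fin (n + 1) → ℂ) → ℂ}
  {Φ : (Fin (n + 1) → ℂ) → (Fin (n + 1) → ℂ) → ℝ} {H : ℂ → Mat (n + 1)} {ν : ℕ}

/-- the hypotheses -/
structure Hyp (F : ι → MvPolynomial (Fin (n + 1)) ℂ) (d : ℕ)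
    (Φ : (Fin (n + 1) → ℂ) → (Fin (n + 1) → ℂ) → ℝ)
    (η : κ → (Fin (n + 1) → ℂ) → (Fin (n + 1) → ℂ) → (Fin (n + 1) → ℂ) → ℂ) (ν : ℕ) : Prop where
  hX : ProjManifold F d
  hη : PositiveTwoForms (Cone F) ∅ d η
  hΦ : NonposMetric (Cone F) d Φ
  hnd : Nondegenerate (Cone F) d Φ
  hU : UniqJ F Φ
  hν : ν ≠ 0
  hh : HomForms (Cone F) ν η

/-- the form `1` -/
noncomputable def G0 (n : ℕ) : Unit → MvPolynomial (Fin (n + 1)) ℂ := fun _ => 1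

theorem form_G0 (n : ℕ) : ∀ i, IsForm (G0 n i) := fun _ => ⟨0, isHomogeneous_one _ _⟩

theorem cone_G0 (n : ℕ) : Cone (G0 n) = ∅ := by
  ext x
  simp only [mem_empty_iff_false, iff_false]
  rintro ⟨-, h⟩
  have h1 := h ()
  rw [val_eval] at h1
  simp [G0] at h1

theorem noBC_G0 (F : ι → MvPolynomial (Fin (n + 1)) ℂ) : NoBC F (G0 n) := by
  intro f hf h
  have h1 := h 0
  rw [cone_G0] at h1
  exact absurd h1 (notMem_empty _)

theorem Hyp.hη' (h : Hyp F d Φ η ν) : PositiveTwoForms (Cone F) (Cone (G0 n)) d η := by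
  rw [cone_G0]
  exact h.hη

/-- the unit tangent vectors -/
structure Unt (F : ι → MvPolynomial (Fin (n + 1)) ℂ)
    (Φ : (Fin (n + 1) → ℂ) → (Fin (n + 1) → ℂ) → ℝ)
    (Yc : Set ((Fin (n + 1) → ℂ) × (Fin (n + 1) → ℂ))) : Prop where
  cpt : IsCompact Yc
  mem : ∀ p ∈ Yc, Tg F p.1 p.2 ∧ Φ p.1 p.2 = 1
  all : ∀ x v, Tg F x v → 0 < Φ x v → ∃ p ∈ Yc, ∃ s b : ℂ, s ≠ 0 ∧ x = s • p.1 ∧
    v = s • (((Φ x v : ℝ) : ℂ) • p.2 + b • p.1)

theorem Hyp.exists_unt (h : Hyp F d Φ η ν) : ∃ Yc, Unt F Φ Yc := by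
  obtain ⟨Y, h1, h2, h3⟩ := exists_unit h.hX h.hΦ h.hnd
  exact ⟨Y, h1, h2, h3⟩

/-- the jets of the curves of speed one -/
def isE (F : ι → MvPolynomial (Fin (n + 1)) ℂ)
    (Φ : (Fin (n + 1) → ℂ) → (Fin (n + 1) → ℂ) → ℝ)
    (p : (Fin (n + 1) → ℂ) × (Fin (n + 1) → ℂ)) : Prop := ∃ K, EJ F Φ K p.1 p.2

variable {Yc : Set ((Fin (n + 1) → ℂ) × (Fin (n + 1) → ℂ))}

theorem Unt.sub (hY : Unt F Φ Yc) : Yc ⊆ TT F := fun p hp => (hY.mem p hp).1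

theorem Unt.le (hY : Unt F Φ Yc) (q : (Fin (n + 1) → ℂ) × (Fin (n + 1) → ℂ)) :
    𝓝[Yc] q ≤ 𝓝[TT F] q := nhdsWithin_mono _ hY.sub

/-- limits of sequences -/
theorem isE_limit (h : Hyp F d Φ η ν) {p : ℕ → (Fin (n + 1) → ℂ) × (Fin (n + 1) → ℂ)}
    {q : (Fin (n + 1) → ℂ) × (Fin (n + 1) → ℂ)} (hq : q ∈ TT F) {𝓤 : Ultrafilter ℕ}
    (hp : Tendsto p 𝓤 (𝓝 q)) (hE : ∀ k, isE F Φ (p k)) : isE F Φ q := by
  choose K hK using hE
  exact EJ.limit h.hX h.hΦ h.hnd hK 𝓤 hp (Tg.mem hq).1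

theorem isE_closed (h : Hyp F d Φ η ν) (hY : Unt F Φ Yc)
    {q : (Fin (n + 1) → ℂ) × (Fin (n + 1) → ℂ)} (hq : q ∈ Yc) (hqE : ¬ isE F Φ q) :
    ∀ᶠ p in 𝓝[Yc] q, ¬ isE F Φ p := by
  by_contra hcon
  rw [Filter.not_eventually] at hcon
  obtain ⟨p, hp, hp'⟩ := Filter.exists_seq_forall_of_frequently hcon
  have h1 : Tendsto p (hyperfilter ℕ) (𝓝 q) :=
    (hp.mono_left hyper_le).mono_right nhdsWithin_le_nhds
  exact hqE (isE_limit h (hY.sub hq) h1 fun k => not_not.1 (hp' k))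

variable [Fintype κ]

/-- a finite family of data -/
structure IsFam (η : κ → (Fin (n + 1) → ℂ) → (Fin (n + 1) → ℂ) → (Fin (n + 1) → ℂ) → ℂ) (ν : ℕ)
    (Yc : Set ((Fin (n + 1) → ℂ) × (Fin (n + 1) → ℂ))) {I : Type} (D : I → Dt F d Φ)
    (δ : I → ℝ) (s : Set ((Fin (n + 1) → ℂ) × (Fin (n + 1) → ℂ))) : Prop where
  hδ : ∀ i, 0 < δ i
  thr : ∀ i, ∀ x ∈ (D i).dom, ‖(D i).t x‖ < 2 * (D i).r → (D i).P η x ≤ δ i →
    (D i).c.z x ∈ closedBall ((D i).c.ζ (D i).H 0) ((D i).ρ / 2)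
  gap : ∀ i, ∀ p ∈ Yc, ∀ K, EJ F Φ K p.1 p.2 → p.1 ∈ (D i).dom → ‖(D i).t p.1‖ ≤ (D i).r →
    (D i).e η ν p.1 p.2 ≤ δ i → (D i).e η ν p.1 p.2 = 0
  cover : ∀ p ∈ Yc, p ∈ s → isE F Φ p → ∃ i, p.1 ∈ (D i).dom ∧ ‖(D i).t p.1‖ < (D i).r / 4 ∧
    (D i).e η ν p.1 p.2 = 0

theorem exists_fam (h : Hyp F d Φ η ν) (hY : Unt F Φ Yc) : ∃ (I : Type) (_ : Fintype I)
    (D : I → Dt F d Φ) (δ : I → ℝ), IsFam η ν Yc D δ Yc := by
  refine hY.cpt.induction_on (p := fun s => ∃ (I : Type) (_ : Fintype I)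
    (D : I → Dt F d Φ) (δ : I → ℝ), IsFam η ν Yc D δ s) ?_ ?_ ?_ ?_
  · exact ⟨Empty, inferInstance, fun i => i.elim, fun i => i.elim, fun i => i.elim,
      fun i => i.elim, fun i => i.elim, fun p _ hp => absurd hp (notMem_empty _)⟩
  · rintro s t hst ⟨I, hI, D, δ, h1⟩
    exact ⟨I, hI, D, δ, h1.hδ, h1.thr, h1.gap, fun p hp hps => h1.cover p hp (hst hps)⟩
  · rintro s t ⟨I, hI, D, δ, h1⟩ ⟨I', hI', D', δ', h1'⟩
    refine ⟨I ⊕ I', inferInstance, Sum.elim D D', Sum.elim δ δ', ?_, ?_, ?_, ?_⟩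
    · rintro (i | i)
      · exact h1.hδ i
      · exact h1'.hδ i
    · rintro (i | i)
      · exact h1.thr i
      · exact h1'.thr i
    · rintro (i | i)
      · exact h1.gap i
      · exact h1'.gap i
    · rintro p hp (hps | hps) hE
      · obtain ⟨i, hi⟩ := h1.cover p hp hps hE
        exact ⟨Sum.inl i, hi⟩
      · obtain ⟨i, hi⟩ := h1'.cover p hp hps hE
        exact ⟨Sum.inr i, hi⟩
  · intro q hq
    by_cases hE : isE F Φ q
    · obtain ⟨H, hH⟩ := hE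
      obtain ⟨D, hD⟩ := exists_dt h.hX h.hΦ hH.ec
      obtain ⟨δ, hδ, hthr, hgap⟩ := Dt.gap (D := D) h.hX (form_G0 n) h.hη' h.hη (noBC_G0 F) h.hΦ
        h.hnd h.hU h.hν h.hh hY.cpt hY.mem
      have hr := D.hr
      have hqT : q ∈ TT F := hY.sub hq
      obtain ⟨h1, h2, -, h4⟩ := Dt.e_of_jet (D := D) (t := 0) (μ := 1) h.hη h.hν h.hh
        (Tg.mem hqT) (x := q.1) (v := q.2) (by rw [norm_zero]; positivity) (by
          simp only [zero_add, one_mul]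
          rw [hD]
          exact hH)
      have e1 : ∀ᶠ p in 𝓝[TT F] q, p.1 ∈ D.dom := (tt_fst q).eventually (Dt.dom_nhds h1)
      have e2 : ∀ᶠ p in 𝓝[TT F] q, ‖D.t p.1‖ < D.r / 4 := by
        have h3 : ContinuousAt (fun p : (Fin (n + 1) → ℂ) × (Fin (n + 1) → ℂ) => ‖D.t p.1‖) q :=
          ((Dt.t_cont h1).comp continuousAt_fst).norm
        refine mem_nhdsWithin_of_mem_nhds (h3.eventually_lt_const ?_)
        change ‖D.t q.1‖ < _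
        rw [h2, norm_zero]
        positivity
      have e3 : ∀ᶠ p in 𝓝[TT F] q, D.e η ν p.1 p.2 < δ := by
        have h3 := (Dt.e_cont (ν := ν) h.hX h.hΦ h.hη hqT h1).tendsto
        refine h3.eventually (gt_mem_nhds ?_)
        change D.e η ν q.1 q.2 < δ
        rw [h4]
        exact hδ
      refine ⟨{p | p.1 ∈ D.dom ∧ ‖D.t p.1‖ < D.r / 4 ∧ D.e η ν p.1 p.2 < δ},
        hY.le q (e1.and (e2.and e3)), Unit, inferInstance, fun _ => D, fun _ => δ, fun _ => hδ,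
        fun _ => hthr, fun _ => hgap, ?_⟩
      rintro p hp ⟨g1, g2, g3⟩ ⟨K, hK⟩
      exact ⟨(), g1, g2, hgap p hp K hK g1 (g2.le.trans (by linarith)) g3.le⟩
    · exact ⟨_, isE_closed h hY hq hE, Empty, inferInstance, fun i => i.elim, fun i => i.elim,
        fun i => i.elim, fun i => i.elim, fun i => i.elim, fun p _ hp hpE => absurd hpE hp⟩

/-- the supports -/
def Dt.S (D : Dt F d Φ) (η : κ → (Fin (n + 1) → ℂ) → (Fin (n + 1) → ℂ) → (Fin (n + 1) → ℂ) → ℂ)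
    (ν : ℕ) (δ : ℝ) : Set ((Fin (n + 1) → ℂ) × (Fin (n + 1) → ℂ)) :=
  {p | p.1 ∈ D.dom ∧ ‖D.t p.1‖ ≤ D.r ∧ D.e η ν p.1 p.2 ≤ δ}

theorem Dt.S_closed (h : Hyp F d Φ η ν) (hY : Unt F Φ Yc) {D : Dt F d Φ} {δ δ' : ℝ}
    (hδ : δ' ≤ δ) (hthr : ∀ x ∈ D.dom, ‖D.t x‖ < 2 * D.r → D.P η x ≤ δ →
      D.c.z x ∈ closedBall (D.c.ζ D.H 0) (D.ρ / 2))
    {q : (Fin (n + 1) → ℂ) × (Fin (n + 1) → ℂ)} (hq : q ∈ Yc) (hqS : q ∉ D.S η ν δ') :
    ∀ᶠ p in 𝓝[Yc] q, p ∉ D.S η ν δ' := by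
  have hr := D.hr
  have hqT : q ∈ TT F := hY.sub hq
  by_cases hd : q.1 ∈ D.dom
  · have h1 : ¬ (‖D.t q.1‖ ≤ D.r ∧ D.e η ν q.1 q.2 ≤ δ') := fun h1 => hqS ⟨hd, h1⟩
    rw [not_and_or, not_le, not_le] at h1
    rcases h1 with h1 | h1
    · have h3 : ContinuousAt (fun p : (Fin (n + 1) → ℂ) × (Fin (n + 1) → ℂ) => ‖D.t p.1‖) q :=
        ((Dt.t_cont hd).comp continuousAt_fst).norm
      filter_upwards [mem_nhdsWithin_of_mem_nhds (h3.eventually (lt_mem_nhds h1))] with p hp hpS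
      exact not_le.2 hp hpS.2.1
    · have h3 := ((Dt.e_cont (ν := ν) h.hX h.hΦ h.hη hqT hd).tendsto).eventually (lt_mem_nhds h1)
      filter_upwards [hY.le q h3] with p hp hpS
      exact not_le.2 hp hpS.2.2
  · have h1 := (continuous_fst.tendsto q).eventually (Dt.supp_closed (D := D) (Tg.mem hqT) hd)
    filter_upwards [mem_nhdsWithin_of_mem_nhds h1, self_mem_nhdsWithin] with p hp hpY hpS
    refine hp hpS.1 (hthr p.1 hpS.1 (hpS.2.1.trans_lt (by linarith)) ?_)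
    exact ((Dt.P_le_e (hY.mem p hpY).2).trans hpS.2.2).trans hδ

/-- the comparison inequalities -/
def cmpr (D D' : Dt F d Φ)
    (η : κ → (Fin (n + 1) → ℂ) → (Fin (n + 1) → ℂ) → (Fin (n + 1) → ℂ) → ℂ) (ε C : ℝ)
    (p : (Fin (n + 1) → ℂ) × (Fin (n + 1) → ℂ)) : Prop :=
  D'.P η p.1 ≤ (1 + ε) * D.P η p.1 ∧
      D'.Q η p.1 p.2 ≤ (1 + ε) * D.Q η p.1 p.2 + C * D.P η p.1

/-- **Uniform comparison.** -/
theorem IsFam.unif (h : Hyp F d Φ η ν) (hY : Unt F Φ Yc) {I : Type} [Fintype I]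
    {D : I → Dt F d Φ} {δ : I → ℝ} {s : Set ((Fin (n + 1) → ℂ) × (Fin (n + 1) → ℂ))}
    (hf : IsFam η ν Yc D δ s) {ε : ℝ} (hε : 0 < ε) : ∃ C : ℝ, 0 ≤ C ∧ ∀ q ∈ Yc, ∀ i j,
      q ∈ (D i).S η ν 0 → q ∈ (D j).S η ν 0 → ∀ᶠ p in 𝓝[Yc] q, cmpr (D i) (D j) η ε C p := by
  have hmono : ∀ (i j : I) (C C' : ℝ) (p : (Fin (n + 1) → ℂ) × (Fin (n + 1) → ℂ)), C ≤ C' →
      cmpr (D i) (D j) η ε C p → cmpr (D i) (D j) η ε C' p := by
    intro i j C C' p hC hp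
    refine ⟨hp.1, hp.2.trans ?_⟩
    have := mul_le_mul_of_nonneg_right hC (Dt.P_nonneg (D := D i) (η := η) p.1)
    linarith
  have key : ∃ C : ℝ, ∀ q ∈ Yc, ∀ i j,
      q ∈ (D i).S η ν 0 → q ∈ (D j).S η ν 0 → ∀ᶠ p in 𝓝[Yc] q, cmpr (D i) (D j) η ε C p := by
    refine cpt_unif hY.cpt ?_ ?_
    · intro C C' q hC h1 i j hi hj
      filter_upwards [h1 i j hi hj] with p hp
      exact hmono i j _ _ _ hC hp
    · intro q hq
      have h1 : ∀ ij : I × I, ∃ C, ∀ᶠ p in 𝓝[Yc] q, p ∈ (D ij.1).S η ν 0 →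
          p ∈ (D ij.2).S η ν 0 → ∀ᶠ p' in 𝓝[Yc] p, cmpr (D ij.1) (D ij.2) η ε C p' := by
        rintro ⟨i, j⟩
        by_cases hi : q ∈ (D i).S η ν 0
        · by_cases hj : q ∈ (D j).S η ν 0
          · have hri := (D i).hr
            have hrj := (D j).hr
            obtain ⟨C, hC⟩ := compare (D := D i) (D' := D j) h.hX h.hΦ h.hη h.hν h.hh h.hU
              (hY.sub hq) (hY.mem q hq).2 hi.1 hj.1 (hi.2.1.trans_lt (by linarith))
              (hj.2.1.trans_lt (by linarith)) (le_antisymm hi.2.2 (Dt.e_nonneg _ _))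
              (le_antisymm hj.2.2 (Dt.e_nonneg _ _)) hε
            refine ⟨C, ?_⟩
            have h2 := eventually_eventually_nhdsWithin.2 (hY.le q hC)
            filter_upwards [h2] with p hp _ _
            exact hp
          · refine ⟨0, ?_⟩
            filter_upwards [Dt.S_closed h hY (hf.hδ j).le (hf.thr j) hq hj] with p hp _ hp'
            exact absurd hp' hp
        · refine ⟨0, ?_⟩
          filter_upwards [Dt.S_closed h hY (hf.hδ i).le (hf.thr i) hq hi] with p hp hp'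
          exact absurd hp' hp
      obtain ⟨C, -, hC⟩ := fin_unif (J := I × I) (φ := fun ij C => ∀ᶠ p in 𝓝[Yc] q,
          p ∈ (D ij.1).S η ν 0 →
          p ∈ (D ij.2).S η ν 0 → ∀ᶠ p' in 𝓝[Yc] p, cmpr (D ij.1) (D ij.2) η ε C p') (by
        intro ij C C' hC h2
        filter_upwards [h2] with p hp h3 h4
        filter_upwards [hp h3 h4] with p' hp'
        exact hmono _ _ _ _ _ hC hp') h1
      refine ⟨C, ?_⟩
      filter_upwards [eventually_all.2 hC] with p hp i j hi hj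
      exact hp (i, j) hi hj
  obtain ⟨C, hC⟩ := key
  refine ⟨max C 0, le_max_right _ _, fun q hq i j hi hj => ?_⟩
  filter_upwards [hC q hq i j hi hj] with p hp
  exact hmono _ _ _ _ _ (le_max_left _ _) hp

end Pool.Agent.H33
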