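import Pool.Agent.H33.JF

/-! The functions. -/

set_option autoImplicit false

open Filter Topology Metric Set MvPolynomial LinearAlgebra.Projectivization

namespace Pool.Agent.H33

open Pool.Agent.Y190.OP Pool.Agent.W602.GT Pool.Agent.N155 Pool.Agent.N155.BB

variable {n : ℕ} {ι ι' : Type} {F : ι → MvPolynomial (Fin (n + 1)) ℂ}
  {G : ι' → MvPolynomial (Fin (n + 1)) ℂ} {d : ℕ}
  {κ : Type} {η : κ → (Fin (n + 1) → ℂ) → (Fin (n + 1) → ℂ) → (Fin (n + 1) → ℂ) → ℂ}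
  {Φ : (Fin (n + 1) → ℂ) → (Fin (n + 1) → ℂ) → ℝ} {H : ℂ → Mat (n + 1)} {ν : ℕ}
  {Yc : Set ((Fin (n + 1) → ℂ) × (Fin (n + 1) → ℂ))}

/-- homogeneous functions of tangent vectors -/
structure Inv (F : ι → MvPolynomial (Fin (n + 1)) ℂ) (a : ℕ)
    (f : (Fin (n + 1) → ℂ) → (Fin (n + 1) → ℂ) → ℝ) : Prop where
  twist : ∀ x ∈ Cone F, ∀ (v : Fin (n + 1) → ℂ) (c b : ℂ), c ≠ 0 →
    f (c • x) (c • (v + b • x)) = f x v
  deg : ∀ x ∈ Cone F, ∀ (v : Fin (n + 1) → ℂ) (c : ℂ), c ≠ 0 → f x (c • v) = ‖c‖ ^ a * f x v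

theorem Inv.reduce {a : ℕ} {f : (Fin (n + 1) → ℂ) → (Fin (n + 1) → ℂ) → ℝ} (hf : Inv F a f)
    {p : (Fin (n + 1) → ℂ) × (Fin (n + 1) → ℂ)} (hp : p.1 ∈ Cone F) {r : ℝ} (hr : 0 < r)
    {s b : ℂ} (hs : s ≠ 0) : f (s • p.1) (s • (((r : ℝ) : ℂ) • p.2 + b • p.1)) =
      r ^ a * f p.1 p.2 := by
  rw [hf.twist _ hp _ _ _ hs, hf.deg _ hp _ _ (by exact_mod_cast hr.ne'), Complex.norm_real,
    Real.norm_of_nonneg hr.le]

theorem Inv.max {a : ℕ} {f g : (Fin (n + 1) → ℂ) → (Fin (n + 1) → ℂ) → ℝ} (hf : Inv F a f)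
    (hg : Inv F a g) : Inv F a fun x v => max (f x v) (g x v) := by
  refine ⟨fun x hx v c b hc => ?_, fun x hx v c hc => ?_⟩
  · rw [hf.twist x hx v c b hc, hg.twist x hx v c b hc]
  · rw [hf.deg x hx v c hc, hg.deg x hx v c hc, ← mul_max_of_nonneg _ _ (by positivity)]

theorem Inv.const_mul {a : ℕ} {f : (Fin (n + 1) → ℂ) → (Fin (n + 1) → ℂ) → ℝ} (hf : Inv F a f)
    (c : ℝ) : Inv F a fun x v => c * f x v := by
  refine ⟨fun x hx v e b he => ?_, fun x hx v e he => ?_⟩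
  · rw [hf.twist x hx v e b he]
  · rw [hf.deg x hx v e he]
    ring

/-- cutoffs -/
noncomputable def cut (s : ℝ) : ℝ := max 0 (min 1 (4 * (1 - s)))

theorem cut_cont : Continuous cut := by
  unfold cut
  fun_prop

theorem cut_nonneg (s : ℝ) : 0 ≤ cut s := le_max_left _ _

theorem cut_le (s : ℝ) : cut s ≤ 1 := max_le zero_le_one (min_le_left _ _)

theorem cut_one {s : ℝ} (hs : s ≤ 3 / 4) : cut s = 1 := by
  unfold cut
  rw [min_eq_left (by linarith), max_eq_right zero_le_one]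

theorem cut_zero {s : ℝ} (hs : 1 ≤ s) : cut s = 0 := by
  unfold cut
  rw [max_eq_left]
  exact (min_le_right _ _).trans (by linarith)

theorem lt_of_cut {s : ℝ} (h : 0 < cut s) : s < 1 := by
  by_contra hcon
  rw [cut_zero (not_lt.1 hcon)] at h
  exact lt_irrefl _ h

variable [Fintype κ]

theorem Dt.P_smul {D : Dt F d Φ} (x : Fin (n + 1) → ℂ) {s : ℂ} (hs : s ≠ 0) :
    D.P η (s • x) = D.P η x := by
  unfold Dt.P
  rw [Ch.z_smul _ hs]

omit [Fintype κ] in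
theorem Dt.t_smul {D : Dt F d Φ} (x : Fin (n + 1) → ℂ) {s : ℂ} (hs : s ≠ 0) :
    D.t (s • x) = D.t x := by
  unfold Dt.t
  rw [Ch.z_smul _ hs]

omit [Fintype κ] in
theorem Dt.dom_iff (hF : ∀ i, IsForm (F i)) {D : Dt F d Φ} {x : Fin (n + 1) → ℂ} {s : ℂ}
    (hs : s ≠ 0) : s • x ∈ D.dom ↔ x ∈ D.dom := by
  constructor
  · intro h
    have := Dt.dom_smul hF h (inv_ne_zero hs)
    rwa [smul_smul, inv_mul_cancel₀ hs, one_smul] at this
  · exact fun h => Dt.dom_smul hF h hs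

theorem Dt.Q_twist {D : Dt F d Φ} (x v : Fin (n + 1) → ℂ) {s : ℂ} (hs : s ≠ 0) (b : ℂ) :
    D.Q η (s • x) (s • (v + b • x)) = D.Q η x v := by
  unfold Dt.Q
  rw [Ch.z_smul _ hs, Ch.a_twist _ _ hs]

theorem Dt.Q_deg {D : Dt F d Φ} (hh : HomForms (Cone F) ν η) {x : Fin (n + 1) → ℂ}
    (hx : x ∈ D.dom) (v : Fin (n + 1) → ℂ) (s : ℂ) : D.Q η x (s • v) = ‖s‖ ^ ν * D.Q η x v := by
  unfold Dt.Q
  rw [Ch.a_smul, Ch.N_right hh (Dt.B_sub (Dt.dom_B hx))]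

theorem Dt.e_twist {D : Dt F d Φ} (hΦ : NonposMetric (Cone F) d Φ) {x : Fin (n + 1) → ℂ}
    (hx : x ∈ Cone F) (v : Fin (n + 1) → ℂ) {s : ℂ} (hs : s ≠ 0) (b : ℂ) :
    D.e η ν (s • x) (s • (v + b • x)) = D.e η ν x v := by
  unfold Dt.e
  rw [Dt.P_smul _ hs, Dt.Q_twist _ _ hs, hΦ.twist x hx v s b hs]

theorem Dt.e_deg {D : Dt F d Φ} (hΦ : NonposMetric (Cone F) d Φ) (hh : HomForms (Cone F) ν η)
    {x : Fin (n + 1) → ℂ} (hx : x ∈ D.dom) (v : Fin (n + 1) → ℂ) (s : ℂ) :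
    D.e η ν x (s • v) = ‖s‖ ^ ν * D.e η ν x v := by
  unfold Dt.e
  rw [Dt.Q_deg hh hx, hΦ.deg x hx.1.1, mul_pow, mul_assoc,
    ← mul_max_of_nonneg _ _ (by positivity)]

open Classical in
/-- the functions near the curves -/
noncomputable def nr (D : Dt F d Φ)
    (η : κ → (Fin (n + 1) → ℂ) → (Fin (n + 1) → ℂ) → (Fin (n + 1) → ℂ) → ℂ) (ν a : ℕ)
    (l γ δ : ℝ) (x v : Fin (n + 1) → ℂ) : ℝ :=
  if x ∈ D.dom then
    Φ x v ^ (a - ν) * max (Φ x v ^ ν * D.P η x) (l * D.Q η x v) * Real.exp (-γ * ‖D.t x‖ ^ 2) *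
      cut (‖D.t x‖ / D.r) * cut (D.e η ν x v / (δ * Φ x v ^ ν))
  else 0

open Classical in
/-- the functions near the points -/
noncomputable def fr {I : Type} (D : I → Dt F d Φ)
    (η : κ → (Fin (n + 1) → ℂ) → (Fin (n + 1) → ℂ) → (Fin (n + 1) → ℂ) → ℂ) (ν a b : ℕ)
    (x1 : Fin (n + 1) → ℂ) (J : Finset I) (m : ℕ) (x v : Fin (n + 1) → ℂ) : ℝ :=
  if ∀ i ∈ J, x ∈ (D i).dom then
    Φ x v ^ (a - 2 * ν * J.card) * (∏ i ∈ J, (D i).e η ν x v ^ 2) * (cs x x1 ^ m) ^ b *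
      cut (5 / 4 - cs x x1 ^ m)
  else 0

theorem nr_inv (h : Hyp F d Φ η ν) {D : Dt F d Φ} {a : ℕ} (ha : ν ≤ a) {l γ δ : ℝ} :
    Inv F a (nr D η ν a l γ δ) := by
  refine ⟨fun x hx v s b hs => ?_, fun x hx v s hs => ?_⟩
  · unfold nr
    simp only [Dt.P_smul x hs, Dt.Q_twist x v hs b,
      Dt.e_twist h.hΦ hx v hs b, Dt.t_smul x hs, h.hΦ.twist x hx v s b hs]
    by_cases hd : x ∈ D.dom
    · rw [if_pos hd, if_pos ((Dt.dom_iff h.hX.form hs).2 hd)]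
    · rw [if_neg hd, if_neg fun h1 => hd ((Dt.dom_iff h.hX.form hs).1 h1)]
  · unfold nr
    by_cases hd : x ∈ D.dom
    · rw [if_pos hd, if_pos hd, Dt.Q_deg h.hh hd, Dt.e_deg h.hΦ h.hh hd, h.hΦ.deg x hx]
      have hs' : 0 < ‖s‖ := norm_pos_iff.2 hs
      have e1 : ‖s‖ ^ ν * D.e η ν x v / (δ * (‖s‖ * Φ x v) ^ ν) =
          D.e η ν x v / (δ * Φ x v ^ ν) := by
        rw [mul_pow, show δ * (‖s‖ ^ ν * Φ x v ^ ν) = ‖s‖ ^ ν * (δ * Φ x v ^ ν) by ring]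
        exact mul_div_mul_left _ _ (by positivity)
      have e2 : max ((‖s‖ * Φ x v) ^ ν * D.P η x) (l * (‖s‖ ^ ν * D.Q η x v)) =
          ‖s‖ ^ ν * max (Φ x v ^ ν * D.P η x) (l * D.Q η x v) := by
        rw [mul_max_of_nonneg _ _ (by positivity), mul_pow]
        congr 1 <;> ring
      rw [e1, e2, mul_pow]
      have e3 : ‖s‖ ^ a = ‖s‖ ^ (a - ν) * ‖s‖ ^ ν := by
        rw [← pow_add, Nat.sub_add_cancel ha]
      rw [e3]
      ring
    · rw [if_neg hd, if_neg hd, mul_zero]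

theorem fr_inv (h : Hyp F d Φ η ν) {I : Type} {D : I → Dt F d Φ} {a b : ℕ}
    {x1 : Fin (n + 1) → ℂ} {J : Finset I} {m : ℕ} (ha : 2 * ν * J.card ≤ a) :
    Inv F a (fr D η ν a b x1 J m) := by
  refine ⟨fun x hx v s b' hs => ?_, fun x hx v s hs => ?_⟩
  · unfold fr
    simp only [Dt.e_twist h.hΦ hx v hs b', cs_smul x x1 hs,
      h.hΦ.twist x hx v s b' hs]
    by_cases hd : ∀ i ∈ J, x ∈ (D i).dom
    · rw [if_pos hd, if_pos fun i hi => (Dt.dom_iff h.hX.form hs).2 (hd i hi)]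
    · rw [if_neg hd, if_neg fun h1 => hd fun i hi => (Dt.dom_iff h.hX.form hs).1 (h1 i hi)]
  · unfold fr
    by_cases hd : ∀ i ∈ J, x ∈ (D i).dom
    · rw [if_pos hd, if_pos hd, h.hΦ.deg x hx]
      have e1 : ∏ i ∈ J, (D i).e η ν x (s • v) ^ 2 =
          ‖s‖ ^ (2 * ν * J.card) * ∏ i ∈ J, (D i).e η ν x v ^ 2 := by
        have e2 : ∏ i ∈ J, (D i).e η ν x (s • v) ^ 2 =
            ∏ i ∈ J, (‖s‖ ^ (2 * ν) * (D i).e η ν x v ^ 2) := by
          refine Finset.prod_congr rfl fun i hi => ?_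
          rw [Dt.e_deg h.hΦ h.hh (hd i hi)]
          ring
        rw [e2, Finset.prod_mul_distrib, Finset.prod_const, ← pow_mul]
      have e3 : ‖s‖ ^ a = ‖s‖ ^ (a - 2 * ν * J.card) * ‖s‖ ^ (2 * ν * J.card) := by
        rw [← pow_add, Nat.sub_add_cancel ha]
      rw [e1, mul_pow, e3]
      ring
    · rw [if_neg hd, if_neg hd, mul_zero]

/-- continuity -/
theorem nr_cont (h : Hyp F d Φ η ν) {D : Dt F d Φ} {a : ℕ} {l γ δ : ℝ} (hδ : 0 < δ)
    (hthr : ∀ x ∈ D.dom, ‖D.t x‖ < 2 * D.r → D.P η x ≤ δ →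
      D.c.z x ∈ closedBall (D.c.ζ D.H 0) (D.ρ / 2))
    {q : (Fin (n + 1) → ℂ) × (Fin (n + 1) → ℂ)} (hq : q ∈ TT F) (hpos : 0 < Φ q.1 q.2) :
    ContinuousWithinAt (fun p : (Fin (n + 1) → ℂ) × (Fin (n + 1) → ℂ) =>
      nr D η ν a l γ δ p.1 p.2) (TT F) q := by
  have hΦc := phi_cont h.hX h.hΦ hq
  have hr := D.hr
  by_cases hd : q.1 ∈ D.dom
  · have hdn := (tt_fst q).eventually (Dt.dom_nhds hd)
    have hPc : ContinuousWithinAt (fun p : (Fin (n + 1) → ℂ) × (Fin (n + 1) → ℂ) => D.P η p.1)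
        (TT F) q := ((Dt.P_cont h.hη hd).comp continuousAt_fst).continuousWithinAt
    have hQc : ContinuousWithinAt (fun p : (Fin (n + 1) → ℂ) × (Fin (n + 1) → ℂ) =>
        D.Q η p.1 p.2) (TT F) q := (Dt.Q_cont h.hη hd).continuousWithinAt
    have htc : ContinuousWithinAt (fun p : (Fin (n + 1) → ℂ) × (Fin (n + 1) → ℂ) => ‖D.t p.1‖)
        (TT F) q := ((Dt.t_cont hd).comp continuousAt_fst).norm.continuousWithinAt
    have hec := Dt.e_cont (D := D) (ν := ν) h.hX h.hΦ h.hη hq hd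
    have e1 : ContinuousWithinAt (fun p : (Fin (n + 1) → ℂ) × (Fin (n + 1) → ℂ) =>
        max (Φ p.1 p.2 ^ ν * D.P η p.1) (l * D.Q η p.1 p.2)) (TT F) q :=
      ((hΦc.pow ν).mul hPc).sup (continuousWithinAt_const.mul hQc)
    have e2 : ContinuousWithinAt (fun p : (Fin (n + 1) → ℂ) × (Fin (n + 1) → ℂ) =>
        Real.exp (-γ * ‖D.t p.1‖ ^ 2)) (TT F) q :=
      Real.continuous_exp.continuousAt.comp_continuousWithinAt
        (continuousWithinAt_const.mul (htc.pow 2))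
    have e3 : ContinuousWithinAt (fun p : (Fin (n + 1) → ℂ) × (Fin (n + 1) → ℂ) =>
        cut (‖D.t p.1‖ / D.r)) (TT F) q :=
      cut_cont.continuousAt.comp_continuousWithinAt (htc.div_const _)
    have e4 : ContinuousWithinAt (fun p : (Fin (n + 1) → ℂ) × (Fin (n + 1) → ℂ) =>
        cut (D.e η ν p.1 p.2 / (δ * Φ p.1 p.2 ^ ν))) (TT F) q :=
      cut_cont.continuousAt.comp_continuousWithinAt
        (hec.div (continuousWithinAt_const.mul (hΦc.pow ν)) (by positivity))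
    have e5 := (((((hΦc.pow (a - ν)).mul e1).mul e2).mul e3).mul e4)
    refine e5.congr_of_eventuallyEq ?_ ?_
    · filter_upwards [hdn] with p hp
      unfold nr
      rw [if_pos hp]
      rfl
    · unfold nr
      rw [if_pos hd]
      rfl
  · have h0 : nr D η ν a l γ δ q.1 q.2 = 0 := by
      unfold nr
      rw [if_neg hd]
    have h1 := (continuous_fst.tendsto q).eventually (Dt.supp_closed (D := D) (Tg.mem hq) hd)
    have h2 : ∀ᶠ p in 𝓝[TT F] q, 0 < Φ p.1 p.2 := hΦc.eventually (lt_mem_nhds hpos)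
    have h3 : ∀ᶠ p in 𝓝[TT F] q, nr D η ν a l γ δ p.1 p.2 = 0 := by
      filter_upwards [mem_nhdsWithin_of_mem_nhds h1, h2] with p hp hp2
      unfold nr
      split_ifs with hpd
      · have h4 : ¬ (‖D.t p.1‖ < 2 * D.r ∧ D.P η p.1 ≤ δ) := fun h5 =>
          hp hpd (hthr p.1 hpd h5.1 h5.2)
        rw [not_and_or, not_lt, not_le] at h4
        rcases h4 with h4 | h4
        · rw [cut_zero (s := ‖D.t p.1‖ / D.r) (by rw [le_div_iff₀ hr]; linarith), mul_zero,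
            zero_mul]
        · rw [cut_zero (s := D.e η ν p.1 p.2 / (δ * Φ p.1 p.2 ^ ν)), mul_zero]
          rw [le_div_iff₀ (by positivity), one_mul]
          refine le_trans ?_ (le_max_left _ _)
          rw [mul_comm]
          exact mul_le_mul_of_nonneg_left h4.le (by positivity)
      · rfl
    refine (continuousWithinAt_const (b := (0 : ℝ))).congr_of_eventuallyEq ?_ h0
    exact h3

theorem fr_cont (h : Hyp F d Φ η ν) (hY : Unt F Φ Yc) {I : Type} {D : I → Dt F d Φ} {a b : ℕ}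
    {x1 : Fin (n + 1) → ℂ} (hx1 : x1 ≠ 0) {J : Finset I} {m : ℕ}
    (hg : ∀ p ∈ Yc, 1 / 4 ≤ cs p.1 x1 ^ m → good D η ν J p)
    {q : (Fin (n + 1) → ℂ) × (Fin (n + 1) → ℂ)} (hq : q ∈ TT F) (hpos : 0 < Φ q.1 q.2) :
    ContinuousWithinAt (fun p : (Fin (n + 1) → ℂ) × (Fin (n + 1) → ℂ) =>
      fr D η ν a b x1 J m p.1 p.2) (TT F) q := by
  have hΦc := phi_cont h.hX h.hΦ hq
  have hq0 : q.1 ≠ 0 := (Tg.mem hq).1
  have hcs : ContinuousAt (fun p : (Fin (n + 1) → ℂ) × (Fin (n + 1) → ℂ) => cs p.1 x1 ^ m) q :=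
    ((cs_cont hq0 hx1).comp continuousAt_fst).pow m
  by_cases hd : ∀ i ∈ J, q.1 ∈ (D i).dom
  · have hdn : ∀ᶠ p in 𝓝[TT F] q, ∀ i ∈ J, p.1 ∈ (D i).dom :=
      (Finset.eventually_all J).2 fun i hi => (tt_fst q).eventually (Dt.dom_nhds (hd i hi))
    have e1 : ContinuousWithinAt (fun p : (Fin (n + 1) → ℂ) × (Fin (n + 1) → ℂ) =>
        ∏ i ∈ J, (D i).e η ν p.1 p.2 ^ 2) (TT F) q := by
      refine tendsto_finsetProd _ fun i hi => ?_
      exact (Dt.e_cont (D := D i) (ν := ν) h.hX h.hΦ h.hη hq (hd i hi)).pow 2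
    have e2 := (((hΦc.pow (a - 2 * ν * J.card)).mul e1).mul
      (hcs.pow b).continuousWithinAt).mul (cut_cont.continuousAt.comp_continuousWithinAt
        ((continuousWithinAt_const (b := (5 / 4 : ℝ))).sub hcs.continuousWithinAt))
    refine e2.congr_of_eventuallyEq ?_ ?_
    · filter_upwards [hdn] with p hp
      unfold fr
      rw [if_pos hp]
      rfl
    · unfold fr
      rw [if_pos hd]
      rfl
  · have h1 : cs q.1 x1 ^ m < 1 / 4 := by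
      by_contra hcon
      apply hd
      obtain ⟨p, hp, s, b', hs, hps, -⟩ := hY.all q.1 q.2 hq hpos
      intro i hi
      rw [hps] at hcon ⊢
      rw [cs_smul _ _ hs] at hcon
      exact Dt.dom_smul h.hX.form ((hg p hp (not_lt.1 hcon)).1 i hi).1 hs
    have h2 : ∀ p : (Fin (n + 1) → ℂ) × (Fin (n + 1) → ℂ), cs p.1 x1 ^ m < 1 / 4 →
        fr D η ν a b x1 J m p.1 p.2 = 0 := by
      intro p hp
      unfold fr
      split_ifs
      · rw [cut_zero (by linarith), mul_zero]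
      · rfl
    have h3 : ∀ᶠ p in 𝓝[TT F] q, fr D η ν a b x1 J m p.1 p.2 = 0 := by
      filter_upwards [mem_nhdsWithin_of_mem_nhds (hcs.eventually_lt_const h1)] with p hp
      exact h2 p hp
    exact (continuousWithinAt_const (b := (0 : ℝ))).congr_of_eventuallyEq h3 (h2 q h1)

end Pool.Agent.H33
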