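import Pool.Agent.H33.JN

/-! The functions near the curves, and near the points. -/

set_option autoImplicit false

open Filter Topology Metric Set MvPolynomial LinearAlgebra.Projectivization

namespace Pool.Agent.H33

open Pool.Agent.Y190.OP Pool.Agent.W602.GT Pool.Agent.N155 Pool.Agent.N155.BB

/-- the maximum of finitely many nonnegative numbers -/
noncomputable def mx {I : Type} [Fintype I] (f : I → ℝ) : ℝ :=
  (Finset.univ : Finset (Option I)).sup' ⟨none, Finset.mem_univ _⟩ fun o => o.elim 0 f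

theorem le_mx {I : Type} [Fintype I] (f : I → ℝ) (i : I) : f i ≤ mx f :=
  Finset.le_sup' (fun o : Option I => o.elim 0 f) (Finset.mem_univ (some i))

theorem mx_nonneg {I : Type} [Fintype I] (f : I → ℝ) : 0 ≤ mx f :=
  Finset.le_sup' (fun o : Option I => o.elim 0 f) (Finset.mem_univ none)

theorem mx_eq {I : Type} [Fintype I] (f : I → ℝ) : mx f = 0 ∨ ∃ i, mx f = f i := by
  obtain ⟨o, -, ho⟩ := Finset.exists_mem_eq_sup' (s := (Finset.univ : Finset (Option I)))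
    ⟨none, Finset.mem_univ _⟩ fun o => o.elim 0 f
  rcases o with _ | i
  · exact Or.inl ho
  · exact Or.inr ⟨i, ho⟩

theorem mx_le {I : Type} [Fintype I] {f : I → ℝ} {c : ℝ} (hc : 0 ≤ c) (h : ∀ i, f i ≤ c) :
    mx f ≤ c := by
  refine Finset.sup'_le _ _ fun o _ => ?_
  rcases o with _ | i
  · exact hc
  · exact h i

theorem mx_mul {I : Type} [Fintype I] (f : I → ℝ) {c : ℝ} (hc : 0 ≤ c) :
    mx (fun i => c * f i) = c * mx f := by
  apply le_antisymm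
  · exact mx_le (mul_nonneg hc (mx_nonneg f)) fun i => mul_le_mul_of_nonneg_left (le_mx f i) hc
  · rcases mx_eq f with h | ⟨i, h⟩
    · rw [h, mul_zero]
      exact mx_nonneg _
    · rw [h]
      exact le_mx (fun i => c * f i) i

theorem mx_cont {X : Type*} [TopologicalSpace X] {I : Type} [Fintype I] {f : I → X → ℝ}
    {s : Set X} {q : X} (h : ∀ i, ContinuousWithinAt (f i) s q) :
    ContinuousWithinAt (fun p => mx fun i => f i p) s q := by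
  unfold mx
  refine ContinuousWithinAt.finset_sup'_apply ⟨none, Finset.mem_univ _⟩ fun o _ => ?_
  rcases o with _ | i
  · exact continuousWithinAt_const
  · exact h i

variable {n : ℕ} {ι ι' : Type} {F : ι → MvPolynomial (Fin (n + 1)) ℂ}
  {G : ι' → MvPolynomial (Fin (n + 1)) ℂ} {d : ℕ}
  {κ : Type} {η : κ → (Fin (n + 1) → ℂ) → (Fin (n + 1) → ℂ) → (Fin (n + 1) → ℂ) → ℂ}
  {Φ : (Fin (n + 1) → ℂ) → (Fin (n + 1) → ℂ) → ℝ} {H : ℂ → Mat (n + 1)} {ν : ℕ}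
  {Yc : Set ((Fin (n + 1) → ℂ) × (Fin (n + 1) → ℂ))} [Fintype κ]

/-- the data -/
structure Fm (F : ι → MvPolynomial (Fin (n + 1)) ℂ) (d : ℕ)
    (Φ : (Fin (n + 1) → ℂ) → (Fin (n + 1) → ℂ) → ℝ)
    (η : κ → (Fin (n + 1) → ℂ) → (Fin (n + 1) → ℂ) → (Fin (n + 1) → ℂ) → ℂ) (ν : ℕ)
    (Yc : Set ((Fin (n + 1) → ℂ) × (Fin (n + 1) → ℂ))) where
  I : Type
  fI : Fintype I
  D : I → Dt F d Φ
  δ : I → ℝ
  fam : IsFam η ν Yc D δ Yc
  A : Type
  fA : Fintype A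
  x1 : A → Fin (n + 1) → ℂ
  J : A → Finset I
  m : A → ℕ
  hx1 : ∀ k, x1 k ≠ 0
  hg : ∀ k, ∀ p ∈ Yc, 1 / 4 ≤ cs p.1 (x1 k) ^ m k → good D η ν (J k) p
  hc : ∀ p ∈ Yc, ∃ k, 3 / 4 < cs p.1 (x1 k) ^ m k

instance (S : Fm F d Φ η ν Yc) : Fintype S.I := S.fI

instance (S : Fm F d Φ η ν Yc) : Fintype S.A := S.fA

theorem exists_fm (h : Hyp F d Φ η ν) (hY : Unt F Φ Yc) : Nonempty (Fm F d Φ η ν Yc) := by
  obtain ⟨I, hI, D, δ, hf⟩ := exists_fam h hY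
  obtain ⟨A, hA, x1, J, m, h1, h2, h3⟩ := exists_cover h hY hf
  exact ⟨⟨I, hI, D, δ, hf, A, hA, x1, J, m, h1, h2, h3⟩⟩

namespace Fm

variable (S : Fm F d Φ η ν Yc)

/-- the distance functions -/
noncomputable def e (i : S.I) (p : (Fin (n + 1) → ℂ) × (Fin (n + 1) → ℂ)) : ℝ :=
  (S.D i).e η ν p.1 p.2

/-- the products -/
noncomputable def f (k : S.A) (p : (Fin (n + 1) → ℂ) × (Fin (n + 1) → ℂ)) : ℝ :=
  ∏ i ∈ S.J k, S.e i p ^ 2

/-- the neighbourhoods -/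
noncomputable def g (k : S.A) (p : (Fin (n + 1) → ℂ) × (Fin (n + 1) → ℂ)) : ℝ :=
  cs p.1 (S.x1 k) ^ S.m k

/-- the functions near the curves -/
noncomputable def nr (a : ℕ) (l ε : ℝ) (i : S.I)
    (p : (Fin (n + 1) → ℂ) × (Fin (n + 1) → ℂ)) : ℝ :=
  Pool.Agent.H33.nr (S.D i) η ν a l (ε / (S.D i).r ^ 2) (S.δ i) p.1 p.2

/-- the functions near the points -/
noncomputable def fr (a b : ℕ) (k : S.A) (p : (Fin (n + 1) → ℂ) × (Fin (n + 1) → ℂ)) : ℝ :=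
  Pool.Agent.H33.fr S.D η ν a b (S.x1 k) (S.J k) (S.m k) p.1 p.2

variable {S}

theorem e_nonneg (i : S.I) (p : (Fin (n + 1) → ℂ) × (Fin (n + 1) → ℂ)) : 0 ≤ S.e i p :=
  Dt.e_nonneg _ _

theorem f_nonneg (k : S.A) (p : (Fin (n + 1) → ℂ) × (Fin (n + 1) → ℂ)) : 0 ≤ S.f k p :=
  Finset.prod_nonneg fun _ _ => sq_nonneg _

theorem g_nonneg (k : S.A) (p : (Fin (n + 1) → ℂ) × (Fin (n + 1) → ℂ)) : 0 ≤ S.g k p :=
  pow_nonneg (cs_nonneg _ _) _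

theorem g_le (k : S.A) {p : (Fin (n + 1) → ℂ) × (Fin (n + 1) → ℂ)} (hp : p.1 ≠ 0) :
    S.g k p ≤ 1 := pow_le_one₀ (cs_nonneg _ _) (cs_le hp (S.hx1 k))

/-- the value on unit vectors -/
theorem nr_unit {a : ℕ} {l ε : ℝ} {i : S.I} {p : (Fin (n + 1) → ℂ) × (Fin (n + 1) → ℂ)}
    (h1 : Φ p.1 p.2 = 1) (hd : p.1 ∈ (S.D i).dom) : S.nr a l ε i p =
      max ((S.D i).P η p.1) (l * (S.D i).Q η p.1 p.2) *
        Real.exp (-(ε / (S.D i).r ^ 2) * ‖(S.D i).t p.1‖ ^ 2) *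
        cut (‖(S.D i).t p.1‖ / (S.D i).r) * cut (S.e i p / S.δ i) := by
  unfold nr Pool.Agent.H33.nr
  rw [if_pos hd, h1, one_pow, one_pow, one_mul, one_mul, mul_one]
  rfl

theorem nr_nonneg {a : ℕ} {l ε : ℝ} (hl : 0 ≤ l) (i : S.I)
    {p : (Fin (n + 1) → ℂ) × (Fin (n + 1) → ℂ)} (h1 : 0 ≤ Φ p.1 p.2) : 0 ≤ S.nr a l ε i p := by
  unfold nr Pool.Agent.H33.nr
  split_ifs
  · have e1 : 0 ≤ max (Φ p.1 p.2 ^ ν * (S.D i).P η p.1) (l * (S.D i).Q η p.1 p.2) :=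
      (mul_nonneg hl (Dt.Q_nonneg _ _)).trans (le_max_right _ _)
    have e2 := cut_nonneg (‖(S.D i).t p.1‖ / (S.D i).r)
    have e3 := cut_nonneg ((S.D i).e η ν p.1 p.2 / (S.δ i * Φ p.1 p.2 ^ ν))
    positivity
  · exact le_rfl

theorem supp_of_nr {a : ℕ} {l ε : ℝ} {i : S.I} {p : (Fin (n + 1) → ℂ) × (Fin (n + 1) → ℂ)}
    (h1 : Φ p.1 p.2 = 1) (hpos : 0 < S.nr a l ε i p) :
    p.1 ∈ (S.D i).dom ∧ ‖(S.D i).t p.1‖ < (S.D i).r ∧ S.e i p < S.δ i := by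
  have hd : p.1 ∈ (S.D i).dom := by
    by_contra hd
    unfold nr Pool.Agent.H33.nr at hpos
    rw [if_neg hd] at hpos
    exact lt_irrefl _ hpos
  rw [nr_unit h1 hd] at hpos
  have c1 := cut_nonneg (‖(S.D i).t p.1‖ / (S.D i).r)
  have c2 := cut_nonneg (S.e i p / S.δ i)
  refine ⟨hd, ?_, ?_⟩
  · have h2 : 0 < cut (‖(S.D i).t p.1‖ / (S.D i).r) := by
      refine lt_of_le_of_ne c1 fun h0 => ?_
      rw [← h0, mul_zero, zero_mul] at hpos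
      exact lt_irrefl _ hpos
    have h3 := lt_of_cut h2
    rwa [div_lt_one (S.D i).hr] at h3
  · have h2 : 0 < cut (S.e i p / S.δ i) := by
      refine lt_of_le_of_ne c2 fun h0 => ?_
      rw [← h0, mul_zero] at hpos
      exact lt_irrefl _ hpos
    have h3 := lt_of_cut h2
    rwa [div_lt_one (S.fam.hδ i)] at h3

/-- the value in the core -/
theorem nr_core {a : ℕ} {l ε : ℝ} {i : S.I} {p : (Fin (n + 1) → ℂ) × (Fin (n + 1) → ℂ)}
    (h1 : Φ p.1 p.2 = 1) (hd : p.1 ∈ (S.D i).dom) (ht : ‖(S.D i).t p.1‖ ≤ 3 / 4 * (S.D i).r)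
    (he : S.e i p ≤ 3 / 4 * S.δ i) : S.nr a l ε i p =
      max ((S.D i).P η p.1) (l * (S.D i).Q η p.1 p.2) *
        Real.exp (-(ε / (S.D i).r ^ 2) * ‖(S.D i).t p.1‖ ^ 2) := by
  have hr := (S.D i).hr
  have hδ := S.fam.hδ i
  rw [nr_unit h1 hd, cut_one (by rwa [div_le_iff₀ hr]), cut_one (by rwa [div_le_iff₀ hδ]), mul_one,
    mul_one]

/-- the value is at most the value without cutoffs -/
theorem nr_le {a : ℕ} {l ε : ℝ} {i : S.I} {p : (Fin (n + 1) → ℂ) × (Fin (n + 1) → ℂ)}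
    (h1 : Φ p.1 p.2 = 1) (hd : p.1 ∈ (S.D i).dom) : S.nr a l ε i p ≤
      max ((S.D i).P η p.1) (l * (S.D i).Q η p.1 p.2) *
        Real.exp (-(ε / (S.D i).r ^ 2) * ‖(S.D i).t p.1‖ ^ 2) := by
  rw [nr_unit h1 hd]
  have e1 : 0 ≤ max ((S.D i).P η p.1) (l * (S.D i).Q η p.1 p.2) :=
    (Dt.P_nonneg _).trans (le_max_left _ _)
  have e2 := cut_nonneg (‖(S.D i).t p.1‖ / (S.D i).r)
  have e3 := cut_le (‖(S.D i).t p.1‖ / (S.D i).r)
  have e4 := cut_nonneg (S.e i p / S.δ i)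
  have e5 := cut_le (S.e i p / S.δ i)
  set X := max ((S.D i).P η p.1) (l * (S.D i).Q η p.1 p.2) *
        Real.exp (-(ε / (S.D i).r ^ 2) * ‖(S.D i).t p.1‖ ^ 2) with hX
  have hX0 : 0 ≤ X := by positivity
  calc X * cut (‖(S.D i).t p.1‖ / (S.D i).r) * cut (S.e i p / S.δ i) ≤ X * 1 * 1 := by
        apply mul_le_mul (mul_le_mul_of_nonneg_left e3 hX0) e5 e4 (by positivity)
    _ = X := by ring

end Fm

end Pool.Agent.H33
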