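import Pool.Agent.H33.JO

/-! Local analysis of the functions. -/

set_option autoImplicit false

open Filter Topology Metric Set MvPolynomial LinearAlgebra.Projectivization

namespace Pool.Agent.H33

open Pool.Agent.Y190.OP Pool.Agent.W602.GT Pool.Agent.N155 Pool.Agent.N155.BB

variable {n : ℕ} {ι ι' : Type} {F : ι → MvPolynomial (Fin (n + 1)) ℂ}
  {G : ι' → MvPolynomial (Fin (n + 1)) ℂ} {d : ℕ}
  {κ : Type} {η : κ → (Fin (n + 1) → ℂ) → (Fin (n + 1) → ℂ) → (Fin (n + 1) → ℂ) → ℂ}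
  {Φ : (Fin (n + 1) → ℂ) → (Fin (n + 1) → ℂ) → ℝ} {H : ℂ → Mat (n + 1)} {ν : ℕ}
  {Yc : Set ((Fin (n + 1) → ℂ) × (Fin (n + 1) → ℂ))} [Fintype κ]

namespace Fm

variable {S : Fm F d Φ η ν Yc}

theorem zero_of_isE {q : (Fin (n + 1) → ℂ) × (Fin (n + 1) → ℂ)} (hq : q ∈ Yc)
    (hE : isE F Φ q) {i : S.I} (hd : q.1 ∈ (S.D i).dom) (ht : ‖(S.D i).t q.1‖ ≤ (S.D i).r)
    (he : S.e i q ≤ S.δ i) : S.e i q = 0 := by
  obtain ⟨K, hK⟩ := hE
  exact S.fam.gap i q hq K hK hd ht he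

theorem isE_of_zero (h : Hyp F d Φ η ν) (hY : Unt F Φ Yc)
    {q : (Fin (n + 1) → ℂ) × (Fin (n + 1) → ℂ)} (hq : q ∈ Yc) {i : S.I}
    (hd : q.1 ∈ (S.D i).dom) (he : S.e i q = 0) : isE F Φ q := by
  obtain ⟨μ, -, hj⟩ := Dt.jet_of_e h.hX h.hΦ h.hη h.hν h.hh (hY.sub hq) (hY.mem q hq).2 hd he
  exact ⟨_, hj⟩

theorem e_cont (h : Hyp F d Φ η ν) (hY : Unt F Φ Yc)
    {q : (Fin (n + 1) → ℂ) × (Fin (n + 1) → ℂ)} (hq : q ∈ Yc) {i : S.I}
    (hd : q.1 ∈ (S.D i).dom) : ContinuousWithinAt (S.e i) Yc q :=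
  (Dt.e_cont (D := S.D i) (ν := ν) h.hX h.hΦ h.hη (hY.sub hq) hd).mono hY.sub

theorem dom_ev (hY : Unt F Φ Yc)
    {q : (Fin (n + 1) → ℂ) × (Fin (n + 1) → ℂ)} {i : S.I}
    (hd : q.1 ∈ (S.D i).dom) : ∀ᶠ p in 𝓝[Yc] q, p.1 ∈ (S.D i).dom :=
  hY.le q ((tt_fst q).eventually (Dt.dom_nhds hd))

theorem t_cont {q : (Fin (n + 1) → ℂ) × (Fin (n + 1) → ℂ)} {i : S.I}
    (hd : q.1 ∈ (S.D i).dom) : ContinuousWithinAt
      (fun p : (Fin (n + 1) → ℂ) × (Fin (n + 1) → ℂ) => ‖(S.D i).t p.1‖) Yc q :=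
  ((Dt.t_cont hd).comp continuousAt_fst).norm.continuousWithinAt

/-- the core at a jet -/
theorem core_ev (h : Hyp F d Φ η ν) (hY : Unt F Φ Yc)
    {q : (Fin (n + 1) → ℂ) × (Fin (n + 1) → ℂ)} (hq : q ∈ Yc) {j : S.I}
    (hd : q.1 ∈ (S.D j).dom) (ht : ‖(S.D j).t q.1‖ < (S.D j).r / 4) (he : S.e j q = 0) :
    ∀ᶠ p in 𝓝[Yc] q, p.1 ∈ (S.D j).dom ∧ ‖(S.D j).t p.1‖ < (S.D j).r / 3 ∧
      S.e j p < 3 / 4 * S.δ j := by
  have hr := (S.D j).hr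
  have hδ := S.fam.hδ j
  refine (dom_ev hY hd).and (((t_cont hd).eventually_lt_const ?_).and
    ((e_cont h hY hq hd).eventually_lt_const ?_))
  · exact ht.trans (by linarith)
  · rw [he]
    positivity

theorem exp_ineq {ε : ℝ} (hε : 0 < ε) :
    (1 + 2 * (ε / 8)) * Real.exp (-(ε * (49 / 100))) < Real.exp (-(ε / 9)) := by
  have h1 : 1 + 2 * (ε / 8) ≤ Real.exp (ε / 4) := by
    have := Real.add_one_le_exp (ε / 4)
    linarith
  calc (1 + 2 * (ε / 8)) * Real.exp (-(ε * (49 / 100))) ≤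
        Real.exp (ε / 4) * Real.exp (-(ε * (49 / 100))) :=
        mul_le_mul_of_nonneg_right h1 (Real.exp_pos _).le
    _ = Real.exp (ε / 4 + -(ε * (49 / 100))) := (Real.exp_add _ _).symm
    _ < Real.exp (-(ε / 9)) := Real.exp_lt_exp.2 (by linarith)

/-- comparison of the pieces near the curves -/
theorem piece_lt {D D' : Dt F d Φ} {ε C l : ℝ} (hε : 0 < ε) (hl : 0 ≤ l) (hC : l * C ≤ ε / 8)
    {p : (Fin (n + 1) → ℂ) × (Fin (n + 1) → ℂ)} (hc : cmpr D D' η (ε / 8) C p)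
    (ht : ‖D.t p.1‖ < D.r / 3) (ht' : 7 / 10 * D'.r < ‖D'.t p.1‖)
    (hpos : 0 < max (D'.P η p.1) (l * D'.Q η p.1 p.2)) :
    max (D'.P η p.1) (l * D'.Q η p.1 p.2) * Real.exp (-(ε / D'.r ^ 2) * ‖D'.t p.1‖ ^ 2) <
    max (D.P η p.1) (l * D.Q η p.1 p.2) * Real.exp (-(ε / D.r ^ 2) * ‖D.t p.1‖ ^ 2) := by
  have hr := D.hr
  have hr' := D'.hr
  set N := max (D.P η p.1) (l * D.Q η p.1 p.2) with hN
  have hP : D.P η p.1 ≤ N := le_max_left _ _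
  have hQ : l * D.Q η p.1 p.2 ≤ N := le_max_right _ _
  have hP0 := Dt.P_nonneg (D := D) (η := η) p.1
  have hN0 : 0 ≤ N := hP0.trans hP
  have h1 : max (D'.P η p.1) (l * D'.Q η p.1 p.2) ≤ (1 + 2 * (ε / 8)) * N := by
    apply max_le
    · refine hc.1.trans ?_
      have := mul_le_mul_of_nonneg_left hP (show 0 ≤ 1 + ε / 8 by positivity)
      have h2 : 0 ≤ ε / 8 * N := by positivity
      linarith
    · have h2 := mul_le_mul_of_nonneg_left hc.2 hl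
      have h3 : l * ((1 + ε / 8) * D.Q η p.1 p.2 + C * D.P η p.1) =
          (1 + ε / 8) * (l * D.Q η p.1 p.2) + (l * C) * D.P η p.1 := by ring
      rw [h3] at h2
      have h4 := mul_le_mul_of_nonneg_left hQ (show 0 ≤ 1 + ε / 8 by positivity)
      have h5 : (l * C) * D.P η p.1 ≤ ε / 8 * N :=
        (mul_le_mul_of_nonneg_right hC hP0).trans (mul_le_mul_of_nonneg_left hP (by positivity))
      linarith
  have hNpos : 0 < N := by
    by_contra hcon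
    have h2 : N = 0 := le_antisymm (not_lt.1 hcon) hN0
    rw [h2, mul_zero] at h1
    linarith
  have h2 : Real.exp (-(ε / D'.r ^ 2) * ‖D'.t p.1‖ ^ 2) ≤ Real.exp (-(ε * (49 / 100))) := by
    apply Real.exp_le_exp.2
    have h3 : (7 / 10 * D'.r) ^ 2 ≤ ‖D'.t p.1‖ ^ 2 := pow_le_pow_left₀ (by positivity) ht'.le 2
    have h4 : ε * (49 / 100) = ε / D'.r ^ 2 * (7 / 10 * D'.r) ^ 2 := by
      field_simp
      norm_num
    rw [h4, neg_mul]
    exact neg_le_neg (mul_le_mul_of_nonneg_left h3 (by positivity))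
  have h3 : Real.exp (-(ε / 9)) ≤ Real.exp (-(ε / D.r ^ 2) * ‖D.t p.1‖ ^ 2) := by
    apply Real.exp_le_exp.2
    have h3 : ‖D.t p.1‖ ^ 2 ≤ (D.r / 3) ^ 2 := pow_le_pow_left₀ (norm_nonneg _) ht.le 2
    have h4 : ε / 9 = ε / D.r ^ 2 * (D.r / 3) ^ 2 := by
      field_simp
      norm_num
    rw [h4, neg_mul]
    exact neg_le_neg (mul_le_mul_of_nonneg_left h3 (by positivity))
  calc max (D'.P η p.1) (l * D'.Q η p.1 p.2) * Real.exp (-(ε / D'.r ^ 2) * ‖D'.t p.1‖ ^ 2) ≤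
        ((1 + 2 * (ε / 8)) * N) * Real.exp (-(ε * (49 / 100))) :=
        mul_le_mul h1 h2 (Real.exp_pos _).le (by positivity)
    _ = N * ((1 + 2 * (ε / 8)) * Real.exp (-(ε * (49 / 100)))) := by ring
    _ < N * Real.exp (-(ε / 9)) := mul_lt_mul_of_pos_left (exp_ineq hε) hNpos
    _ ≤ N * Real.exp (-(ε / D.r ^ 2) * ‖D.t p.1‖ ^ 2) := mul_le_mul_of_nonneg_left h3 hN0

/-- **The pieces near the curves are dominated near the boundaries of their supports.** -/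
theorem near_dom (h : Hyp F d Φ η ν) (hY : Unt F Φ Yc) {a : ℕ} {ε C l : ℝ} (hε : 0 < ε)
    (hl : 0 < l) (hC : l * C ≤ ε / 8)
    (hu : ∀ q ∈ Yc, ∀ i j, q ∈ (S.D i).S η ν 0 → q ∈ (S.D j).S η ν 0 →
      ∀ᶠ p in 𝓝[Yc] q, cmpr (S.D i) (S.D j) η (ε / 8) C p)
    {q : (Fin (n + 1) → ℂ) × (Fin (n + 1) → ℂ)} (hq : q ∈ Yc) (hE : isE F Φ q) (i : S.I) :
    ∀ᶠ p in 𝓝[Yc] q, 0 < S.nr a l ε i p →
      (‖(S.D i).t p.1‖ < 3 / 4 * (S.D i).r ∧ S.e i p < 3 / 4 * S.δ i) ∨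
        ∃ j, S.nr a l ε i p < S.nr a l ε j p := by
  have hri := (S.D i).hr
  by_cases hS : q ∈ (S.D i).S η ν (S.δ i)
  · have he := zero_of_isE hq hE hS.1 hS.2.1 hS.2.2
    have hec : ∀ᶠ p in 𝓝[Yc] q, S.e i p < 3 / 4 * S.δ i := by
      refine (e_cont h hY hq hS.1).eventually_lt_const ?_
      rw [he]
      have := S.fam.hδ i
      positivity
    by_cases ht : ‖(S.D i).t q.1‖ < 3 / 4 * (S.D i).r
    · filter_upwards [hec, (t_cont hS.1).eventually_lt_const ht] with p h1 h2 _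
      exact Or.inl ⟨h2, h1⟩
    · obtain ⟨j, hj1, hj2, hj3⟩ := S.fam.cover q hq hq hE
      have hrj := (S.D j).hr
      have hj3' : S.e j q = 0 := hj3
      have hqi : q ∈ (S.D i).S η ν 0 := ⟨hS.1, hS.2.1, he.le⟩
      have hqj : q ∈ (S.D j).S η ν 0 := ⟨hj1, hj2.le.trans (by linarith), hj3.le⟩
      have ht2 : ∀ᶠ p in 𝓝[Yc] q, 7 / 10 * (S.D i).r < ‖(S.D i).t p.1‖ := by
        refine (t_cont hS.1).eventually (lt_mem_nhds ?_)
        have := not_lt.1 ht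
        change 7 / 10 * (S.D i).r < ‖(S.D i).t q.1‖
        linarith
      filter_upwards [hu q hq j i hqj hqi, ht2, core_ev h hY hq hj1 hj2 hj3', dom_ev hY hS.1,
        self_mem_nhdsWithin] with p h1 h2 h3 h4 h5 hpos
      right
      refine ⟨j, ?_⟩
      have hp1 := (hY.mem p h5).2
      rw [nr_core hp1 h3.1 (h3.2.1.le.trans (by linarith)) h3.2.2.le]
      refine (nr_le hp1 h4).trans_lt (piece_lt hε hl.le hC h1 h3.2.1 h2 ?_)
      by_contra hcon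
      have h6 := nr_le (a := a) (l := l) (ε := ε) hp1 h4
      have h7 := mul_nonpos_of_nonpos_of_nonneg (not_lt.1 hcon)
        (Real.exp_pos (-(ε / (S.D i).r ^ 2) * ‖(S.D i).t p.1‖ ^ 2)).le
      linarith
  · filter_upwards [Dt.S_closed h hY le_rfl (S.fam.thr i) hq hS, self_mem_nhdsWithin] with
      p h1 h2 hpos
    obtain ⟨g1, g2, g3⟩ := supp_of_nr (hY.mem p h2).2 hpos
    exact absurd ⟨g1, g2.le, g3.le⟩ h1

/-- the lower bound near the jets -/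
theorem near_low (h : Hyp F d Φ η ν) (hY : Unt F Φ Yc) {a : ℕ} {ε l : ℝ} (hε : 0 < ε)
    (hl : 0 < l) {q : (Fin (n + 1) → ℂ) × (Fin (n + 1) → ℂ)} (hq : q ∈ Yc) (hE : isE F Φ q) :
    ∃ j, q ∈ (S.D j).S η ν 0 ∧ ∃ c : ℝ, 0 < c ∧ ∀ᶠ p in 𝓝[Yc] q, p.1 ∈ (S.D j).dom ∧
      c * S.e j p ≤ S.nr a l ε j p := by
  obtain ⟨j, hj1, hj2, hj3⟩ := S.fam.cover q hq hq hE
  have hrj := (S.D j).hr
  have hj3' : S.e j q = 0 := hj3
  refine ⟨j, ⟨hj1, hj2.le.trans (by linarith), hj3.le⟩, min 1 l * Real.exp (-ε),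
    mul_pos (lt_min one_pos hl) (Real.exp_pos _), ?_⟩
  filter_upwards [core_ev h hY hq hj1 hj2 hj3', self_mem_nhdsWithin] with p h1 h2
  have hp1 := (hY.mem p h2).2
  refine ⟨h1.1, ?_⟩
  rw [nr_core hp1 h1.1 (h1.2.1.le.trans (by linarith)) h1.2.2.le]
  have e1 : Real.exp (-ε) ≤ Real.exp (-(ε / (S.D j).r ^ 2) * ‖(S.D j).t p.1‖ ^ 2) := by
    apply Real.exp_le_exp.2
    have h3 : ‖(S.D j).t p.1‖ ^ 2 ≤ (S.D j).r ^ 2 :=
      pow_le_pow_left₀ (norm_nonneg _) (h1.2.1.le.trans (by linarith)) 2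
    have h4 : ε = ε / (S.D j).r ^ 2 * (S.D j).r ^ 2 := by
      field_simp
    have h5 := mul_le_mul_of_nonneg_left h3 (show 0 ≤ ε / (S.D j).r ^ 2 by positivity)
    rw [neg_mul]
    apply neg_le_neg
    rw [← h4] at h5
    exact h5
  have e2 : min 1 l * S.e j p ≤ max ((S.D j).P η p.1) (l * (S.D j).Q η p.1 p.2) := by
    have h3 : S.e j p = max ((S.D j).P η p.1) ((S.D j).Q η p.1 p.2) := by
      unfold e Dt.e
      rw [hp1, one_pow, one_mul]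
    have hP0 := Dt.P_nonneg (D := S.D j) (η := η) p.1
    have hQ0 := Dt.Q_nonneg (D := S.D j) (η := η) p.1 p.2
    rw [h3, mul_max_of_nonneg _ _ (le_min zero_le_one hl.le)]
    apply max_le_max
    · exact (mul_le_mul_of_nonneg_right (min_le_left _ _) hP0).trans (by rw [one_mul])
    · exact mul_le_mul_of_nonneg_right (min_le_right _ _) hQ0
  have e3 : 0 ≤ min 1 l * S.e j p := mul_nonneg (le_min zero_le_one hl.le) (e_nonneg _ _)
  calc min 1 l * Real.exp (-ε) * S.e j p = min 1 l * S.e j p * Real.exp (-ε) := by ring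
    _ ≤ _ := mul_le_mul e2 e1 (Real.exp_pos _).le (e3.trans e2)

/-- comparison of the distance functions -/
theorem e_le (h : Hyp F d Φ η ν) (hY : Unt F Φ Yc)
    {q : (Fin (n + 1) → ℂ) × (Fin (n + 1) → ℂ)} (hq : q ∈ Yc) {i j : S.I}
    (hi : q ∈ (S.D i).S η ν 0) (hj : q ∈ (S.D j).S η ν 0) :
    ∃ C : ℝ, 0 < C ∧ ∀ᶠ p in 𝓝[Yc] q, S.e j p ≤ C * S.e i p := by
  obtain ⟨C, hC0, hC⟩ := S.fam.unif h hY one_pos
  refine ⟨2 + C, by positivity, ?_⟩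
  filter_upwards [hC q hq i j hi hj, self_mem_nhdsWithin] with p h1 h2
  have hp1 := (hY.mem p h2).2
  have h3 : ∀ i, S.e i p = max ((S.D i).P η p.1) ((S.D i).Q η p.1 p.2) := fun i => by
    unfold e Dt.e
    rw [hp1, one_pow, one_mul]
  have hP : (S.D i).P η p.1 ≤ S.e i p := by rw [h3 i]; exact le_max_left _ _
  have hQ : (S.D i).Q η p.1 p.2 ≤ S.e i p := by rw [h3 i]; exact le_max_right _ _
  have he := e_nonneg (S := S) i p
  have hCP := mul_le_mul_of_nonneg_left hP hC0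
  have hC0e := mul_nonneg hC0 he
  rw [h3 j]
  apply max_le
  · have := h1.1
    linarith
  · have := h1.2
    linarith

end Fm

end Pool.Agent.H33
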