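import Pool.Agent.H33.JO2

/-! The functions near the points. -/

set_option autoImplicit false

open Filter Topology Metric Set MvPolynomial LinearAlgebra.Projectivization

namespace Pool.Agent.H33

open Pool.Agent.Y190.OP Pool.Agent.W602.GT Pool.Agent.N155 Pool.Agent.N155.BB

variable {n : ℕ} {ι ι' : Type} {F : ι → MvPolynomial (Fin (n + 1)) ℂ}
  {G : ι' → MvPolynomial (Fin (n + 1)) ℂ} {d : ℕ}
  {κ : Type} {η : κ → (Fin (n + 1) → ℂ) → (Fin (n + 1) → ℂ) → (Fin (n + 1) → ℂ) → ℂ}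
  {Φ : (Fin (n + 1) → ℂ) → (Fin (n + 1) → ℂ) → ℝ} {H : ℂ → Mat (n + 1)} {ν : ℕ}
  {Yc : Set ((Fin (n + 1) → ℂ) × (Fin (n + 1) → ℂ))} [Fintype κ]

namespace Fm

variable {S : Fm F d Φ η ν Yc}

theorem f_of_isE {k : S.A} {p : (Fin (n + 1) → ℂ) × (Fin (n + 1) → ℂ)} (hp : p ∈ Yc)
    (hg : 1 / 4 ≤ S.g k p) (hE : isE F Φ p) : ∃ i ∈ S.J k, S.e i p = 0 := (S.hg k p hp hg).2.1 hE

theorem f_zero {k : S.A} {p : (Fin (n + 1) → ℂ) × (Fin (n + 1) → ℂ)} (hp : p ∈ Yc)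
    (hg : 1 / 4 ≤ S.g k p) (hE : isE F Φ p) : S.f k p = 0 := by
  obtain ⟨i, hi, h0⟩ := f_of_isE hp hg hE
  exact Finset.prod_eq_zero hi (by rw [h0]; norm_num)

theorem isE_of_f (h : Hyp F d Φ η ν) (hY : Unt F Φ Yc) {k : S.A}
    {p : (Fin (n + 1) → ℂ) × (Fin (n + 1) → ℂ)} (hp : p ∈ Yc)
    (hg : 1 / 4 ≤ S.g k p) (hf : S.f k p = 0) : ∃ i ∈ S.J k, S.e i p = 0 ∧ isE F Φ p := by
  obtain ⟨i, hi, h0⟩ := Finset.prod_eq_zero_iff.1 hf
  have h1 : S.e i p = 0 := by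
    rwa [sq_eq_zero_iff] at h0
  exact ⟨i, hi, h1, isE_of_zero h hY hp ((S.hg k p hp hg).1 i hi).1 h1⟩

theorem fr_eq {a b : ℕ} {k : S.A} {p : (Fin (n + 1) → ℂ) × (Fin (n + 1) → ℂ)}
    (hY : Unt F Φ Yc) (hp : p ∈ Yc) (hg : 1 / 4 ≤ S.g k p) :
    S.fr a b k p = S.f k p * S.g k p ^ b * cut (5 / 4 - S.g k p) := by
  unfold fr Pool.Agent.H33.fr
  rw [if_pos fun i hi => ((S.hg k p hp hg).1 i hi).1, (hY.mem p hp).2, one_pow, one_mul]
  rfl

theorem fr_zero {a b : ℕ} {k : S.A} {p : (Fin (n + 1) → ℂ) × (Fin (n + 1) → ℂ)}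
    (hg : S.g k p ≤ 1 / 4) : S.fr a b k p = 0 := by
  unfold fr Pool.Agent.H33.fr
  have h1 : cs p.1 (S.x1 k) ^ S.m k ≤ 1 / 4 := hg
  split_ifs
  · rw [cut_zero (by linarith), mul_zero]
  · rfl

theorem fr_nonneg {a b : ℕ} {k : S.A} {p : (Fin (n + 1) → ℂ) × (Fin (n + 1) → ℂ)}
    (hY : Unt F Φ Yc) (hp : p ∈ Yc) : 0 ≤ S.fr a b k p := by
  by_cases hg : 1 / 4 ≤ S.g k p
  · rw [fr_eq hY hp hg]
    exact mul_nonneg (mul_nonneg (f_nonneg _ _) (pow_nonneg (g_nonneg _ _) _)) (cut_nonneg _)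
  · rw [fr_zero (not_le.1 hg).le]

theorem g_cont {k : S.A} {q : (Fin (n + 1) → ℂ) × (Fin (n + 1) → ℂ)} (hq : q.1 ≠ 0) :
    ContinuousAt (S.g k) q := ((cs_cont hq (S.hx1 k)).comp continuousAt_fst).pow _

theorem unt_ne (hY : Unt F Φ Yc) {q : (Fin (n + 1) → ℂ) × (Fin (n + 1) → ℂ)} (hq : q ∈ Yc) :
    q.1 ≠ 0 := (Tg.mem (hY.sub hq)).1

theorem prod_cont (h : Hyp F d Φ η ν) (hY : Unt F Φ Yc)
    {q : (Fin (n + 1) → ℂ) × (Fin (n + 1) → ℂ)} (hq : q ∈ Yc) {J : Finset S.I}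
    (hd : ∀ i ∈ J, q.1 ∈ (S.D i).dom) :
    ContinuousWithinAt (fun p => ∏ i ∈ J, S.e i p ^ 2) Yc q := by
  refine tendsto_finsetProd _ fun i hi => ?_
  exact (e_cont h hY hq (hd i hi)).pow 2

theorem f_cont (h : Hyp F d Φ η ν) (hY : Unt F Φ Yc) {k : S.A}
    {q : (Fin (n + 1) → ℂ) × (Fin (n + 1) → ℂ)} (hq : q ∈ Yc) (hg : 1 / 4 ≤ S.g k q) :
    ContinuousWithinAt (S.f k) Yc q := prod_cont h hY hq fun i hi => ((S.hg k q hq hg).1 i hi).1

theorem le_of_half {x y A : ℝ} (hA : 0 < A) (hx : 0 ≤ x) (hy : A / 2 < y) :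
    x ≤ 2 / A * (x * y) := by
  have h3 : x = 2 / A * (x * (A / 2)) := by
    field_simp
  conv_lhs => rw [h3]
  exact mul_le_mul_of_nonneg_left (mul_le_mul_of_nonneg_left hy.le hx) (by positivity)

open Classical in
/-- upper bound of the products -/
theorem f_up (h : Hyp F d Φ η ν) (hY : Unt F Φ Yc) {k : S.A}
    {q : (Fin (n + 1) → ℂ) × (Fin (n + 1) → ℂ)} (hq : q ∈ Yc) (hg : 1 / 4 ≤ S.g k q) {i : S.I}
    (hi : i ∈ S.J k) : ∃ C : ℝ, 0 < C ∧ ∀ᶠ p in 𝓝[Yc] q, S.f k p ≤ C * S.e i p ^ 2 := by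
  have h1 : ContinuousWithinAt (fun p => ∏ i ∈ (S.J k).erase i, S.e i p ^ 2) Yc q :=
    prod_cont h hY hq fun j hj => ((S.hg k q hq hg).1 j (Finset.mem_of_mem_erase hj)).1
  set A : ℝ := ∏ i ∈ (S.J k).erase i, S.e i q ^ 2 with hA
  have hA0 : 0 ≤ A := Finset.prod_nonneg fun _ _ => sq_nonneg _
  refine ⟨A + 1, by positivity, ?_⟩
  filter_upwards [h1.eventually_lt_const (show A < A + 1 by linarith)] with p hp
  have h2 : S.f k p = S.e i p ^ 2 * ∏ j ∈ (S.J k).erase i, S.e j p ^ 2 :=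
    (Finset.mul_prod_erase _ (fun j => S.e j p ^ 2) hi).symm
  rw [h2, mul_comm]
  exact mul_le_mul_of_nonneg_right hp.le (sq_nonneg _)

open Classical in
/-- lower bound of the products -/
theorem f_low (h : Hyp F d Φ η ν) (hY : Unt F Φ Yc) {k : S.A}
    {q : (Fin (n + 1) → ℂ) × (Fin (n + 1) → ℂ)} (hq : q ∈ Yc) (hg : 1 / 4 ≤ S.g k q) {i : S.I}
    (hi : i ∈ S.J k) (h0 : S.e i q = 0) :
    ∃ C : ℝ, 0 < C ∧ ∀ᶠ p in 𝓝[Yc] q, S.e i p ^ 2 ≤ C * S.f k p := by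
  have hgd := S.hg k q hq hg
  have h1 : ContinuousWithinAt (fun p => ∏ i ∈ (S.J k).erase i, S.e i p ^ 2) Yc q :=
    prod_cont h hY hq fun j hj => (hgd.1 j (Finset.mem_of_mem_erase hj)).1
  obtain ⟨A, hA⟩ : ∃ A : ℝ, A = ∏ i ∈ (S.J k).erase i, S.e i q ^ 2 := ⟨_, rfl⟩
  have hA0 : 0 < A := by
    rw [hA]
    refine Finset.prod_pos fun j hj => ?_
    have h2 : S.e j q ≠ 0 := fun h3 =>
      hgd.2.2 i hi j (Finset.mem_of_mem_erase hj) (Finset.ne_of_mem_erase hj).symm ⟨h0, h3⟩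
    have := e_nonneg (S := S) j q
    positivity
  refine ⟨2 / A, by positivity, ?_⟩
  have h3 : A / 2 < ∏ i ∈ (S.J k).erase i, S.e i q ^ 2 := by
    rw [← hA]
    linarith
  filter_upwards [h1.eventually (lt_mem_nhds h3)] with p hp
  have h2 : S.f k p = S.e i p ^ 2 * ∏ j ∈ (S.J k).erase i, S.e j p ^ 2 :=
    (Finset.mul_prod_erase _ (fun j => S.e j p ^ 2) hi).symm
  rw [h2]
  exact le_of_half hA0 (sq_nonneg _) hp

theorem S0 {k : S.A} {q : (Fin (n + 1) → ℂ) × (Fin (n + 1) → ℂ)} (hq : q ∈ Yc)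
    (hg : 1 / 4 ≤ S.g k q) {i : S.I} (hi : i ∈ S.J k) (h0 : S.e i q = 0) :
    q ∈ (S.D i).S η ν 0 := by
  obtain ⟨h1, h2⟩ := (S.hg k q hq hg).1 i hi
  exact ⟨h1, h2.le, h0.le⟩

/-- **Comparison of the products.** -/
theorem f_le (h : Hyp F d Φ η ν) (hY : Unt F Φ Yc) (k k' : S.A) : ∃ C : ℝ, ∀ p ∈ Yc,
    1 / 4 ≤ S.g k p → 1 / 4 ≤ S.g k' p → S.f k p ≤ C * S.f k' p := by
  refine cpt_unif hY.cpt ?_ ?_
  · intro C C' p hC h1 h2 h3
    exact (h1 h2 h3).trans (mul_le_mul_of_nonneg_right hC (f_nonneg _ _))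
  · intro q hq
    have hq0 := unt_ne hY hq
    by_cases hg : 1 / 4 ≤ S.g k q
    · by_cases hg' : 1 / 4 ≤ S.g k' q
      · by_cases hf : S.f k' q = 0
        · obtain ⟨i', hi', h0', hE⟩ := isE_of_f h hY hq hg' hf
          obtain ⟨i, hi, h0⟩ := f_of_isE hq hg hE
          obtain ⟨C1, hC1, e1⟩ := f_up h hY hq hg hi
          obtain ⟨C2, hC2, e2⟩ := f_low h hY hq hg' hi' h0'
          obtain ⟨C3, hC3, e3⟩ := e_le h hY hq (S0 hq hg' hi' h0') (S0 hq hg hi h0)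
          refine ⟨C1 * C3 ^ 2 * C2, ?_⟩
          filter_upwards [e1, e2, e3] with p g1 g2 g3 _ _
          have g4 : S.e i p ^ 2 ≤ C3 ^ 2 * S.e i' p ^ 2 := by
            rw [← mul_pow]
            exact pow_le_pow_left₀ (e_nonneg _ _) g3 2
          calc S.f k p ≤ C1 * S.e i p ^ 2 := g1
            _ ≤ C1 * (C3 ^ 2 * S.e i' p ^ 2) := mul_le_mul_of_nonneg_left g4 hC1.le
            _ ≤ C1 * (C3 ^ 2 * (C2 * S.f k' p)) := by
                apply mul_le_mul_of_nonneg_left _ hC1.le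
                exact mul_le_mul_of_nonneg_left g2 (by positivity)
            _ = C1 * C3 ^ 2 * C2 * S.f k' p := by ring
        · have hf' : 0 < S.f k' q := lt_of_le_of_ne (f_nonneg _ _) (Ne.symm hf)
          have e1 := (f_cont h hY hq hg).eventually_lt_const
            (show S.f k q < S.f k q + 1 by linarith)
          have e2 := (f_cont h hY hq hg').eventually
            (lt_mem_nhds (show S.f k' q / 2 < S.f k' q by linarith))
          have hfk := f_nonneg (S := S) k q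
          refine ⟨(S.f k q + 1) / (S.f k' q / 2), ?_⟩
          filter_upwards [e1, e2] with p g1 g2 _ _
          calc S.f k p ≤ S.f k q + 1 := g1.le
            _ = (S.f k q + 1) / (S.f k' q / 2) * (S.f k' q / 2) := by field_simp
            _ ≤ _ := mul_le_mul_of_nonneg_left g2.le (by positivity)
      · refine ⟨0, ?_⟩
        filter_upwards [mem_nhdsWithin_of_mem_nhds ((g_cont (k := k') hq0).eventually_lt_const
          (not_le.1 hg'))] with p hp _ h2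
        exact absurd h2 (not_le.2 hp)
    · refine ⟨0, ?_⟩
      filter_upwards [mem_nhdsWithin_of_mem_nhds ((g_cont (k := k) hq0).eventually_lt_const
        (not_le.1 hg))] with p hp h2
      exact absurd h2 (not_le.2 hp)

/-- the functions near the points are dominated near the boundaries of their supports -/
theorem far_dom (h : Hyp F d Φ η ν) (hY : Unt F Φ Yc) : ∃ b : ℕ, ∀ a : ℕ, ∀ p ∈ Yc, ∀ k : S.A,
    0 < S.fr a b k p → 1 / 2 < S.g k p ∨ ∃ k', S.fr a b k p < S.fr a b k' p := by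
  obtain ⟨C, hC0, hC⟩ := fin_unif (J := S.A × S.A) (φ := fun kk C => ∀ p ∈ Yc,
      1 / 4 ≤ S.g kk.1 p → 1 / 4 ≤ S.g kk.2 p → S.f kk.1 p ≤ C * S.f kk.2 p)
    (fun kk C C' hCC h1 p hp h2 h3 => (h1 p hp h2 h3).trans
      (mul_le_mul_of_nonneg_right hCC (f_nonneg _ _))) (fun kk => f_le h hY kk.1 kk.2)
  obtain ⟨b, hb⟩ : ∃ b : ℕ, C * (2 / 3 : ℝ) ^ b < 1 := by
    have h1 : Tendsto (fun b : ℕ => C * (2 / 3 : ℝ) ^ b) atTop (𝓝 (C * 0)) :=
      (tendsto_pow_atTop_nhds_zero_of_lt_one (by norm_num) (by norm_num)).const_mul C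
    rw [mul_zero] at h1
    exact (h1.eventually (gt_mem_nhds one_pos)).exists
  refine ⟨b, fun a p hp k hpos => ?_⟩
  by_cases hg2 : 1 / 2 < S.g k p
  · exact Or.inl hg2
  · right
    have hp0 := unt_ne hY hp
    have hg4 : 1 / 4 ≤ S.g k p := by
      by_contra hcon
      rw [fr_zero (not_le.1 hcon).le] at hpos
      exact lt_irrefl _ hpos
    obtain ⟨k', hk'⟩ := S.hc p hp
    have hk'' : 3 / 4 < S.g k' p := hk'
    refine ⟨k', ?_⟩
    have h1 := hC (k, k') p hp hg4 (by linarith)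
    simp only at h1
    have hfk : 0 < S.f k p := by
      refine lt_of_le_of_ne (f_nonneg _ _) fun h0 => ?_
      rw [fr_eq hY hp hg4, ← h0, zero_mul, zero_mul] at hpos
      exact lt_irrefl _ hpos
    have hfk' : 0 < S.f k' p := by
      refine lt_of_le_of_ne (f_nonneg _ _) fun h0 => ?_
      rw [← h0, mul_zero] at h1
      linarith
    rw [fr_eq hY hp hg4, fr_eq hY hp (by linarith), cut_one (s := 5 / 4 - S.g k' p) (by linarith),
      mul_one]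
    have h2 : S.g k p ^ b ≤ (1 / 2) ^ b := pow_le_pow_left₀ (g_nonneg _ _) (not_lt.1 hg2) b
    have h3 : (3 / 4 : ℝ) ^ b ≤ S.g k' p ^ b := pow_le_pow_left₀ (by norm_num) hk''.le b
    have h4 := cut_le (5 / 4 - S.g k p)
    have h5 : 0 ≤ S.f k p * S.g k p ^ b := mul_nonneg hfk.le (pow_nonneg (g_nonneg _ _) _)
    have h6 : (1 / 2 : ℝ) ^ b = (2 / 3) ^ b * (3 / 4) ^ b := by
      rw [← mul_pow]
      norm_num
    calc S.f k p * S.g k p ^ b * cut (5 / 4 - S.g k p) ≤ S.f k p * S.g k p ^ b * 1 :=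
          mul_le_mul_of_nonneg_left h4 h5
      _ ≤ (C * S.f k' p) * (1 / 2) ^ b := by
          rw [mul_one]
          exact mul_le_mul h1 h2 (pow_nonneg (g_nonneg _ _) _) (by positivity)
      _ = (C * (2 / 3) ^ b) * (S.f k' p * (3 / 4) ^ b) := by rw [h6]; ring
      _ < 1 * (S.f k' p * (3 / 4) ^ b) := mul_lt_mul_of_pos_right hb (by positivity)
      _ ≤ S.f k' p * S.g k' p ^ b := by
          rw [one_mul]
          exact mul_le_mul_of_nonneg_left h3 hfk'.le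

/-- the functions near the points are small near the jets -/
theorem far_le (h : Hyp F d Φ η ν) (hY : Unt F Φ Yc) {a b : ℕ} {ε l : ℝ} (hε : 0 < ε)
    (hl : 0 < l) {q : (Fin (n + 1) → ℂ) × (Fin (n + 1) → ℂ)} (hq : q ∈ Yc) (hE : isE F Φ q)
    (k : S.A) : ∃ C : ℝ, ∀ᶠ p in 𝓝[Yc] q,
      S.fr a b k p ≤ C * (mx fun i => S.nr a l ε i p) ^ 2 := by
  have hq0 := unt_ne hY hq
  by_cases hg : 1 / 4 ≤ S.g k q
  · obtain ⟨i, hi, h0⟩ := f_of_isE hq hg hE
    obtain ⟨j, hj, c, hc, hlow⟩ := near_low (S := S) (a := a) h hY hε hl hq hE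
    obtain ⟨C1, hC1, e1⟩ := f_up h hY hq hg hi
    obtain ⟨C3, hC3, e3⟩ := e_le h hY hq hj (S0 hq hg hi h0)
    refine ⟨C1 * (C3 / c) ^ 2, ?_⟩
    filter_upwards [e1, e3, hlow, self_mem_nhdsWithin] with p g1 g3 g4 hp
    have hM := mx_nonneg fun i => S.nr a l ε i p
    by_cases hgp : 1 / 4 ≤ S.g k p
    · have h1 : S.fr a b k p ≤ S.f k p := by
        rw [fr_eq hY hp hgp]
        have h2 := cut_le (5 / 4 - S.g k p)
        have h3 : S.g k p ^ b ≤ 1 := pow_le_one₀ (g_nonneg _ _) (g_le _ (unt_ne hY hp))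
        have h4 := f_nonneg (S := S) k p
        calc S.f k p * S.g k p ^ b * cut (5 / 4 - S.g k p) ≤ S.f k p * 1 * 1 :=
              mul_le_mul (mul_le_mul_of_nonneg_left h3 h4) h2 (cut_nonneg _) (by positivity)
          _ = S.f k p := by ring
      have h2 : S.e i p ≤ C3 / c * mx fun i => S.nr a l ε i p := by
        have h5 := le_mx (fun i => S.nr a l ε i p) j
        calc S.e i p ≤ C3 * S.e j p := g3
          _ = C3 / c * (c * S.e j p) := by field_simp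
          _ ≤ C3 / c * mx fun i => S.nr a l ε i p :=
              mul_le_mul_of_nonneg_left (g4.2.trans h5) (by positivity)
      calc S.fr a b k p ≤ C1 * S.e i p ^ 2 := h1.trans g1
        _ ≤ C1 * (C3 / c * mx fun i => S.nr a l ε i p) ^ 2 :=
            mul_le_mul_of_nonneg_left (pow_le_pow_left₀ (e_nonneg _ _) h2 2) hC1.le
        _ = _ := by ring
    · rw [fr_zero (not_le.1 hgp).le]
      positivity
  · refine ⟨0, ?_⟩
    filter_upwards [mem_nhdsWithin_of_mem_nhds ((g_cont (k := k) hq0).eventually_lt_const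
      (not_le.1 hg))] with p hp
    rw [fr_zero hp.le, zero_mul]

end Fm

end Pool.Agent.H33
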