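import Pool.Agent.H33.JO3

/-! The choice of the constants. -/

set_option autoImplicit false

open Filter Topology Metric Set MvPolynomial LinearAlgebra.Projectivization

namespace Pool.Agent.H33

open Pool.Agent.Y190.OP Pool.Agent.W602.GT Pool.Agent.N155 Pool.Agent.N155.BB

variable {n : ℕ} {ι ι' : Type} {F : ι → MvPolynomial (Fin (n + 1)) ℂ}
  {G : ι' → MvPolynomial (Fin (n + 1)) ℂ} {d : ℕ}
  {κ : Type} {η : κ → (Fin (n + 1) → ℂ) → (Fin (n + 1) → ℂ) → (Fin (n + 1) → ℂ) → ℂ}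
  {Φ : (Fin (n + 1) → ℂ) → (Fin (n + 1) → ℂ) → ℝ} {H : ℂ → Mat (n + 1)} {ν : ℕ}
  {Yc : Set ((Fin (n + 1) → ℂ) × (Fin (n + 1) → ℂ))} [Fintype κ]

/-- sequences in the compact set -/
theorem Unt.seq (hY : Unt F Φ Yc) {p : ℕ → (Fin (n + 1) → ℂ) × (Fin (n + 1) → ℂ)}
    (hp : ∀ k, p k ∈ Yc) : ∃ q ∈ Yc, Tendsto p (hyperfilter ℕ) (𝓝[Yc] q) := by
  obtain ⟨q, hq, hlim⟩ := hY.cpt.ultrafilter_le_nhds ((hyperfilter ℕ).map p) (by
    rw [Ultrafilter.coe_map, le_principal_iff, mem_map]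
    filter_upwards with k
    exact hp k)
  exact ⟨q, hq, tendsto_nhdsWithin_iff.2 ⟨hlim, Eventually.of_forall hp⟩⟩

namespace Fm

variable {S : Fm F d Φ η ν Yc}

variable (S) in
noncomputable def NR (a : ℕ) (l ε : ℝ) (p : (Fin (n + 1) → ℂ) × (Fin (n + 1) → ℂ)) : ℝ :=
  mx fun i => S.nr a l ε i p

variable (S) in
noncomputable def FR (a b : ℕ) (p : (Fin (n + 1) → ℂ) × (Fin (n + 1) → ℂ)) : ℝ :=
  mx fun k => S.fr a b k p

variable (S) in
/-- the function -/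
noncomputable def Psi (a b : ℕ) (l ε c : ℝ) (p : (Fin (n + 1) → ℂ) × (Fin (n + 1) → ℂ)) : ℝ :=
  max (c * S.NR a l ε p) (S.FR a b p)

theorem NR_cont (h : Hyp F d Φ η ν) {a : ℕ} {l ε : ℝ}
    {q : (Fin (n + 1) → ℂ) × (Fin (n + 1) → ℂ)} (hq : q ∈ TT F) (hpos : 0 < Φ q.1 q.2) :
    ContinuousWithinAt (S.NR a l ε) (TT F) q :=
  mx_cont fun i => nr_cont h (S.fam.hδ i) (S.fam.thr i) hq hpos

theorem FR_cont (h : Hyp F d Φ η ν) (hY : Unt F Φ Yc) {a b : ℕ}
    {q : (Fin (n + 1) → ℂ) × (Fin (n + 1) → ℂ)} (hq : q ∈ TT F) (hpos : 0 < Φ q.1 q.2) :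
    ContinuousWithinAt (S.FR a b) (TT F) q :=
  mx_cont fun k => fr_cont h hY (S.hx1 k) (S.hg k) hq hpos

theorem Psi_cont (h : Hyp F d Φ η ν) (hY : Unt F Φ Yc) {a b : ℕ} {l ε c : ℝ}
    {q : (Fin (n + 1) → ℂ) × (Fin (n + 1) → ℂ)} (hq : q ∈ TT F) (hpos : 0 < Φ q.1 q.2) :
    ContinuousWithinAt (S.Psi a b l ε c) (TT F) q :=
  ((NR_cont h hq hpos).const_mul c).sup (FR_cont h hY hq hpos)

theorem FR_zero (h : Hyp F d Φ η ν) (hY : Unt F Φ Yc) {a b : ℕ}
    {p : (Fin (n + 1) → ℂ) × (Fin (n + 1) → ℂ)} (hp : p ∈ Yc) :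
    S.FR a b p = 0 ↔ isE F Φ p := by
  constructor
  · intro h0
    obtain ⟨k, hk⟩ := S.hc p hp
    have hk' : 3 / 4 < S.g k p := hk
    have h1 := le_mx (fun k => S.fr a b k p) k
    change S.fr a b k p ≤ S.FR a b p at h1
    rw [h0, fr_eq hY hp (by linarith), cut_one (by linarith), mul_one] at h1
    have h2 : 0 < S.g k p ^ b := pow_pos (by linarith) _
    have h3 : S.f k p = 0 := by
      refine le_antisymm ?_ (f_nonneg _ _)
      by_contra hcon
      have := mul_pos (not_le.1 hcon) h2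
      linarith
    obtain ⟨i, -, -, hE⟩ := isE_of_f h hY hp (by linarith) h3
    exact hE
  · intro hE
    apply le_antisymm _ (mx_nonneg _)
    refine mx_le le_rfl fun k => ?_
    by_cases hg : 1 / 4 ≤ S.g k p
    · rw [fr_eq hY hp hg, f_zero hp hg hE, zero_mul, zero_mul]
    · rw [fr_zero (not_le.1 hg).le]

theorem NR_zero (hY : Unt F Φ Yc) {a : ℕ} {l ε : ℝ}
    {p : (Fin (n + 1) → ℂ) × (Fin (n + 1) → ℂ)} (hp : p ∈ Yc) (hE : isE F Φ p) :
    S.NR a l ε p = 0 := by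
  apply le_antisymm _ (mx_nonneg _)
  refine mx_le le_rfl fun i => ?_
  by_contra hcon
  obtain ⟨h1, h2, h3⟩ := supp_of_nr (hY.mem p hp).2 (not_le.1 hcon)
  have h4 := zero_of_isE hp hE h1 h2.le h3.le
  apply hcon
  have h5 := nr_le (a := a) (l := l) (ε := ε) (hY.mem p hp).2 h1
  have hp1 := (hY.mem p hp).2
  have h6 : S.e i p = max ((S.D i).P η p.1) ((S.D i).Q η p.1 p.2) := by
    unfold e Dt.e
    rw [hp1, one_pow, one_mul]
  have hP : (S.D i).P η p.1 = 0 := by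
    refine le_antisymm ?_ (Dt.P_nonneg _)
    rw [← h4, h6]
    exact le_max_left _ _
  have hQ : (S.D i).Q η p.1 p.2 = 0 := by
    refine le_antisymm ?_ (Dt.Q_nonneg _ _)
    rw [← h4, h6]
    exact le_max_right _ _
  rw [hP, hQ, mul_zero, max_self, zero_mul] at h5
  exact h5

/-- the domination property -/
def W (S : Fm F d Φ η ν Yc) (a : ℕ) (l ε : ℝ) (p : (Fin (n + 1) → ℂ) × (Fin (n + 1) → ℂ)) :
    Prop := ∀ i, 0 < S.nr a l ε i p →
      (‖(S.D i).t p.1‖ < 3 / 4 * (S.D i).r ∧ S.e i p < 3 / 4 * S.δ i) ∨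
        ∃ j, S.nr a l ε i p < S.nr a l ε j p

theorem tend_inv : Tendsto (fun k : ℕ => 1 / ((k : ℝ) + 1)) (hyperfilter ℕ) (𝓝 0) :=
  tendsto_one_div_add_atTop_nhds_zero_nat.mono_left hyper_le

/-- **The choice of the constants.** -/
theorem exists_const (h : Hyp F d Φ η ν) (hY : Unt F Φ Yc) (S : Fm F d Φ η ν Yc) (a : ℕ) {ε : ℝ}
    (hε : 0 < ε) : ∃ (l : ℝ) (b : ℕ) (c : ℝ), 0 < l ∧ 0 < c ∧
      (∀ p ∈ Yc, S.Psi a b l ε c p = 0 ↔ isE F Φ p) ∧
      (∀ p ∈ Yc, ∀ i, 0 < S.Psi a b l ε c p → c * S.nr a l ε i p = S.Psi a b l ε c p →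
        p.1 ∈ (S.D i).dom ∧ ‖(S.D i).t p.1‖ < 3 / 4 * (S.D i).r ∧ S.e i p < 3 / 4 * S.δ i) ∧
      (∀ p ∈ Yc, ∀ k, 0 < S.Psi a b l ε c p → S.fr a b k p = S.Psi a b l ε c p →
        1 / 2 < S.g k p) ∧
      ∃ ε1 : ℝ, 0 < ε1 ∧ ∀ p ∈ Yc, S.Psi a b l ε c p ≤ ε1 → 0 < S.Psi a b l ε c p →
        ∀ k, S.fr a b k p < S.Psi a b l ε c p := by
  obtain ⟨C, hC0, hC⟩ := S.fam.unif h hY (show (0 : ℝ) < ε / 8 by positivity)
  obtain ⟨b, hb⟩ := far_dom (S := S) h hY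
  set l : ℝ := ε / 8 / (C + 1) with hl
  have hl0 : 0 < l := by positivity
  have hlC : l * C ≤ ε / 8 := by
    rw [hl, div_mul_eq_mul_div, div_le_iff₀ (by positivity)]
    have : 0 ≤ ε / 8 := by positivity
    nlinarith
  have hpos1 : ∀ p ∈ Yc, 0 < Φ p.1 p.2 := fun p hp => by rw [(hY.mem p hp).2]; exact one_pos
  have hNc : ∀ q ∈ Yc, ContinuousWithinAt (S.NR a l ε) Yc q := fun q hq =>
    (NR_cont h (hY.sub hq) (hpos1 q hq)).mono hY.sub
  have hFc : ∀ q ∈ Yc, ContinuousWithinAt (S.FR a b) Yc q := fun q hq =>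
    (FR_cont h hY (hY.sub hq) (hpos1 q hq)).mono hY.sub
  have hW : ∀ q ∈ Yc, isE F Φ q → ∀ᶠ p in 𝓝[Yc] q, S.W a l ε p := fun q hq hE =>
    eventually_all.2 fun i => near_dom h hY hε hl0 hlC hC hq hE i
  -- the constant `c`
  obtain ⟨c, hc0, hc⟩ : ∃ c : ℝ, 0 < c ∧ ∀ p ∈ Yc, ¬ S.W a l ε p →
      c * S.NR a l ε p < S.FR a b p := by
    by_contra hcon
    push Not at hcon
    choose p hp hpW hpF using fun k : ℕ => hcon (1 / ((k : ℝ) + 1)) (by positivity)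
    obtain ⟨q, hq, hlim⟩ := hY.seq hp
    have h1 : Tendsto (fun k : ℕ => 1 / ((k : ℝ) + 1) * S.NR a l ε (p k)) (hyperfilter ℕ)
        (𝓝 (0 * S.NR a l ε q)) := tend_inv.mul ((hNc q hq).tendsto.comp hlim)
    have h2 : Tendsto (fun k => S.FR a b (p k)) (hyperfilter ℕ) (𝓝 (S.FR a b q)) :=
      (hFc q hq).tendsto.comp hlim
    have h3 := le_of_tendsto_of_tendsto h2 h1 (Eventually.of_forall hpF)
    rw [zero_mul] at h3
    have h4 := (FR_zero h hY hq).1 (le_antisymm h3 (mx_nonneg _))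
    obtain ⟨k, hk⟩ := (hlim.eventually (hW q hq h4)).exists
    exact hpW k hk
  have hNR0 : ∀ p, 0 ≤ S.NR a l ε p := fun p => mx_nonneg _
  have hFR0 : ∀ p, 0 ≤ S.FR a b p := fun p => mx_nonneg _
  have hz : ∀ p ∈ Yc, S.Psi a b l ε c p = 0 ↔ isE F Φ p := by
    intro p hp
    constructor
    · intro h0
      refine (FR_zero h hY hp).1 (le_antisymm ?_ (hFR0 p))
      rw [← h0]
      exact le_max_right _ _
    · intro hE
      unfold Psi
      rw [NR_zero hY hp hE, (FR_zero h hY hp).2 hE, mul_zero, max_self]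
  refine ⟨l, b, c, hl0, hc0, hz, ?_, ?_, ?_⟩
  · intro p hp i hpos heq
    have hni : 0 < S.nr a l ε i p := by
      rw [← heq] at hpos
      exact (mul_pos_iff_of_pos_left hc0).1 hpos
    have hle : ∀ j, c * S.nr a l ε j p ≤ S.Psi a b l ε c p := fun j =>
      (mul_le_mul_of_nonneg_left (le_mx (fun i => S.nr a l ε i p) j) hc0.le).trans (le_max_left _ _)
    have hWp : S.W a l ε p := by
      by_contra hcon
      have h1 := hc p hp hcon
      have h2 : S.FR a b p ≤ S.Psi a b l ε c p := le_max_right _ _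
      have h3 : c * S.nr a l ε i p ≤ c * S.NR a l ε p :=
        mul_le_mul_of_nonneg_left (le_mx (fun i => S.nr a l ε i p) i) hc0.le
      linarith
    refine ⟨(supp_of_nr (hY.mem p hp).2 hni).1, ?_⟩
    rcases hWp i hni with h1 | ⟨j, hj⟩
    · exact h1
    · exfalso
      have h2 := mul_lt_mul_of_pos_left hj hc0
      linarith [hle j]
  · intro p hp k hpos heq
    rw [← heq] at hpos
    rcases hb a p hp k hpos with h1 | ⟨k', hk'⟩
    · exact h1
    · exfalso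
      have h2 : S.fr a b k' p ≤ S.Psi a b l ε c p :=
        (le_mx (fun k => S.fr a b k p) k').trans (le_max_right _ _)
      linarith
  · by_contra hcon
    push Not at hcon
    choose p hp hpε hpos k hk using fun j : ℕ => hcon (1 / ((j : ℝ) + 1)) (by positivity)
    obtain ⟨q, hq, hlim⟩ := hY.seq hp
    have h2 : Tendsto (fun j => S.FR a b (p j)) (hyperfilter ℕ) (𝓝 (S.FR a b q)) :=
      (hFc q hq).tendsto.comp hlim
    have h3 := le_of_tendsto_of_tendsto h2 tend_inv (Eventually.of_forall fun j =>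
      (le_max_right _ _).trans (hpε j))
    have hE := (FR_zero h hY hq).1 (le_antisymm h3 (mx_nonneg _))
    obtain ⟨C', hC'0, hC'⟩ := fin_unif (J := S.A) (φ := fun k C => ∀ᶠ p in 𝓝[Yc] q,
      S.fr a b k p ≤ C * (mx fun i => S.nr a l ε i p) ^ 2) (fun k C C' hCC h1 => by
        filter_upwards [h1] with p hp
        exact hp.trans (mul_le_mul_of_nonneg_right hCC (sq_nonneg _)))
      (fun k => far_le h hY hε hl0 hq hE k)
    have h4 : ∀ᶠ p in 𝓝[Yc] q, C' * S.NR a l ε p < c := by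
      refine ((hNc q hq).const_mul C').eventually_lt_const ?_
      change C' * S.NR a l ε q < c
      rw [NR_zero hY hq hE, mul_zero]
      exact hc0
    obtain ⟨j, hj1, hj2⟩ := (hlim.eventually ((eventually_all.2 hC').and h4)).exists
    have h5 := hj1 (k j)
    change S.fr a b (k j) (p j) ≤ C' * S.NR a l ε (p j) ^ 2 at h5
    have h6 := hk j
    have h7 := hpos j
    have h8 : c * S.NR a l ε (p j) ≤ S.Psi a b l ε c (p j) := le_max_left _ _
    have h9 := hNR0 (p j)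
    have h10 : 0 < S.NR a l ε (p j) := by
      refine lt_of_le_of_ne h9 fun h0 => ?_
      rw [← h0] at h5
      norm_num at h5
      linarith
    have h11 : C' * S.NR a l ε (p j) ^ 2 < c * S.NR a l ε (p j) := by
      rw [sq, ← mul_assoc]
      exact mul_lt_mul_of_pos_right hj2 h10
    linarith

end Fm

end Pool.Agent.H33
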