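import Pool.Agent.H33.JO4

/-! Subharmonicity of the pieces. -/

set_option autoImplicit false

open Filter Topology Metric Set MvPolynomial LinearAlgebra.Projectivization

namespace Pool.Agent.H33

open Pool.Agent.Y190.OP Pool.Agent.W602.GT Pool.Agent.N155 Pool.Agent.N155.BB

variable {n : ℕ} {ι ι' : Type} {F : ι → MvPolynomial (Fin (n + 1)) ℂ}
  {G : ι' → MvPolynomial (Fin (n + 1)) ℂ} {d : ℕ}
  {κ : Type} {η : κ → (Fin (n + 1) → ℂ) → (Fin (n + 1) → ℂ) → (Fin (n + 1) → ℂ) → ℂ}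
  {Φ : (Fin (n + 1) → ℂ) → (Fin (n + 1) → ℂ) → ℝ} {H : ℂ → Mat (n + 1)} {ν : ℕ}
  {Yc : Set ((Fin (n + 1) → ℂ) × (Fin (n + 1) → ℂ))}

/-- lower pieces of functions -/
def Lw (u : ℂ → ℝ) (g : ℂ → Fin (n + 1) → ℂ) (z0 : ℂ) (α : ℝ) (w : ℂ → ℝ) : Prop :=
  ∃ (p : ℕ) (h : ℂ → ℂ), AnalyticAt ℂ h z0 ∧ w z0 = u z0 ^ p * ‖h z0‖ * sqn (g z0) ^ α ∧
    ∀ᶠ z in 𝓝 z0, u z ^ p * ‖h z‖ * sqn (g z) ^ α ≤ w z

/-- the curve near a point -/
structure Cv (u : ℂ → ℝ) (g : ℂ → Fin (n + 1) → ℂ) (z0 : ℂ) : Prop where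
  an : AnalyticAt ℂ g z0
  ne : g z0 ≠ 0
  nonneg : ∀ᶠ z in 𝓝 z0, 0 ≤ u z

variable {u : ℂ → ℝ} {g : ℂ → Fin (n + 1) → ℂ} {z0 : ℂ}

theorem Cv.ev_ne (h : Cv u g z0) : ∀ᶠ z in 𝓝 z0, g z ≠ 0 := h.an.continuousAt.eventually_ne h.ne

theorem Lw.nonneg (hc : Cv u g z0) {α : ℝ} {w : ℂ → ℝ} (h : Lw u g z0 α w) :
    ∀ᶠ z in 𝓝 z0, 0 ≤ w z := by
  obtain ⟨p, f, -, -, h3⟩ := h
  filter_upwards [h3, hc.nonneg] with z hz hu
  refine le_trans ?_ hz
  have := Real.rpow_nonneg (sqn_nonneg (g z)) α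
  positivity

theorem Lw.mul (hc : Cv u g z0) {α β : ℝ} {w w' : ℂ → ℝ} (h : Lw u g z0 α w)
    (h' : Lw u g z0 β w') : Lw u g z0 (α + β) fun z => w z * w' z := by
  have hn := h.nonneg hc
  obtain ⟨p, f, h1, h2, h3⟩ := h
  obtain ⟨p', f', h1', h2', h3'⟩ := h'
  refine ⟨p + p', fun z => f z * f' z, h1.mul h1', ?_, ?_⟩
  · simp only
    rw [h2, h2', pow_add, norm_mul, Real.rpow_add (sqn_pos hc.ne)]
    ring
  · filter_upwards [h3, h3', hc.nonneg, hc.ev_ne, hn] with z hz hz' hu hne hw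
    have e1 := Real.rpow_nonneg (sqn_nonneg (g z)) α
    have e2 := Real.rpow_nonneg (sqn_nonneg (g z)) β
    calc u z ^ (p + p') * ‖f z * f' z‖ * sqn (g z) ^ (α + β) =
        (u z ^ p * ‖f z‖ * sqn (g z) ^ α) * (u z ^ p' * ‖f' z‖ * sqn (g z) ^ β) := by
          rw [pow_add, norm_mul, Real.rpow_add (sqn_pos hne)]
          ring
      _ ≤ w z * w' z := mul_le_mul hz hz' (by positivity) hw

theorem Lw.max' {α : ℝ} {w w' : ℂ → ℝ} (h : Lw u g z0 α w)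
    (h' : Lw u g z0 α w') : Lw u g z0 α fun z => max (w z) (w' z) := by
  rcases le_total (w' z0) (w z0) with hle | hle
  · obtain ⟨p, f, h1, h2, h3⟩ := h
    refine ⟨p, f, h1, ?_, ?_⟩
    · simp only
      rw [max_eq_left hle, h2]
    · filter_upwards [h3] with z hz
      exact hz.trans (le_max_left _ _)
  · obtain ⟨p, f, h1, h2, h3⟩ := h'
    refine ⟨p, f, h1, ?_, ?_⟩
    · simp only
      rw [max_eq_right hle, h2]
    · filter_upwards [h3] with z hz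
      exact hz.trans (le_max_right _ _)

theorem Lw.const {c : ℝ} (hc : 0 ≤ c) : Lw u g z0 0 fun _ => c := by
  refine ⟨0, fun _ => (c : ℂ), analyticAt_const, ?_, Eventually.of_forall fun z => ?_⟩
  · rw [pow_zero, one_mul, Real.rpow_zero, mul_one, Complex.norm_real, Real.norm_of_nonneg hc]
  · rw [pow_zero, one_mul, Real.rpow_zero, mul_one, Complex.norm_real, Real.norm_of_nonneg hc]

theorem Lw.u_pow (p : ℕ) : Lw u g z0 0 fun z => u z ^ p := by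
  refine ⟨p, fun _ => 1, analyticAt_const, ?_, Eventually.of_forall fun z => ?_⟩
  · rw [norm_one, Real.rpow_zero, mul_one, mul_one]
  · rw [norm_one, Real.rpow_zero, mul_one, mul_one]

theorem Lw.prod (hc : Cv u g z0) {J : Type} (s : Finset J) {w : J → ℂ → ℝ}
    (h : ∀ i ∈ s, Lw u g z0 1 (w i)) : Lw u g z0 s.card fun z => ∏ i ∈ s, w i z := by
  classical
  induction s using Finset.induction_on with
  | empty =>
    simp only [Finset.card_empty, Finset.prod_empty, Nat.cast_zero]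
    exact Lw.const zero_le_one
  | insert j s hj ih =>
    have h1 := (h j (Finset.mem_insert_self j s)).mul hc
      (ih fun i hi => h i (Finset.mem_insert_of_mem hi))
    rw [Finset.card_insert_of_notMem hj]
    push_cast
    rw [add_comm]
    simp only [Finset.prod_insert hj]
    exact h1

theorem Lw.sq (hc : Cv u g z0) {w : ℂ → ℝ} (h : Lw u g z0 (1 / 2) w) :
    Lw u g z0 1 fun z => w z ^ 2 := by
  have h1 := h.mul hc h
  norm_num at h1
  have e : (fun z => w z ^ 2) = fun z => w z * w z := by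
    funext z
    ring
  rw [e]
  exact h1

theorem Lw.cs (hc : Cv u g z0) {x1 : Fin (n + 1) → ℂ} (hx1 : x1 ≠ 0) (k : ℕ) :
    Lw u g z0 (-(k : ℝ)) fun z => cs (g z) x1 ^ k := by
  have h0 := sqn_pos hx1
  have key : ∀ z, g z ≠ 0 → u z ^ 0 * ‖((((sqn x1) ^ k : ℝ) : ℂ))⁻¹ * (spr (g z) x1) ^ (2 * k)‖ *
      sqn (g z) ^ (-(k : ℝ)) = Pool.Agent.H33.cs (g z) x1 ^ k := by
    intro z hz
    have h1 := sqn_pos hz
    unfold Pool.Agent.H33.cs
    rw [Real.rpow_neg h1.le, Real.rpow_natCast, norm_mul, norm_inv, Complex.norm_real,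
      Real.norm_of_nonneg (by positivity), norm_pow, div_pow, mul_pow, ← pow_mul]
    field_simp
  refine ⟨0, fun z => ((((sqn x1) ^ k : ℝ) : ℂ))⁻¹ * (spr (g z) x1) ^ (2 * k), ?_, ?_, ?_⟩
  · refine analyticAt_const.mul (AnalyticAt.pow ?_ _)
    unfold spr
    refine Finset.analyticAt_fun_sum _ fun j _ => ?_
    exact ((analyticAt_pi_iff.1 hc.an) j).mul analyticAt_const
  · exact (key z0 hc.ne).symm
  · filter_upwards [hc.ev_ne] with z hz
    exact (key z hz).le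

variable [Fintype κ]

/-- the forms along a curve -/
theorem lw_N {c : Ch F d} (hη : PositiveTwoForms (Cone F) ∅ d η) (hc : Cv u g z0)
    (hdom : ∀ᶠ z in 𝓝 z0, g z ∈ c.dom) {A B : ℂ → Fin d → ℂ} (hA : AnalyticAt ℂ A z0)
    (hB : AnalyticAt ℂ B z0) :
    Lw u g z0 (1 / 2) fun z => c.N η (c.z (g z)) (A z) (B z) := by
  have hd0 := hdom.self_of_nhds
  have hζ : AnalyticAt ℂ (fun z => c.z (g z)) z0 :=
    AnalyticAt.comp (g := c.z) (Ch.z_an (Ch.ne hd0)) hc.an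
  have hgi : AnalyticAt ℂ (fun z => g z c.i) z0 := (analyticAt_pi_iff.1 hc.an) c.i
  set h : κ → ℂ → ℂ := fun q z => (g z c.i)⁻¹ * η q (c.Θ (c.z (g z)))
    (fderiv ℂ c.Θ (c.z (g z)) (A z)) (fderiv ℂ c.Θ (c.z (g z)) (B z)) with hh
  have hhan : ∀ q, AnalyticAt ℂ (h q) z0 := by
    intro q
    have h1 := hη.hol q c.U c.Θ c.hU c.an (fun z hz => (c.mem z hz).1) (c.z (g z0), A z0, B z0)
      ⟨Ch.z_mem hd0, mem_univ _⟩
    have h2 : AnalyticAt ℂ (fun z => (c.z (g z), A z, B z)) z0 := hζ.prod (hA.prod hB)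
    exact (hgi.inv (Ch.ne hd0)).mul (AnalyticAt.comp (f := fun z => (c.z (g z), A z, B z)) h1 h2)
  have key : ∀ z, g z ∈ c.dom → c.N η (c.z (g z)) (A z) (B z) =
      ‖fun q => h q z‖ * sqn (g z) ^ (1 / 2 : ℝ) := by
    intro z hz
    have hi := Ch.ne hz
    have h1 : (fun q => h q z) = (g z c.i)⁻¹ • fun q => η q (c.Θ (c.z (g z)))
        (fderiv ℂ c.Θ (c.z (g z)) (A z)) (fderiv ℂ c.Θ (c.z (g z)) (B z)) := by
      funext q
      rfl
    have h2 : sqn (g z) = ‖g z c.i‖ ^ 2 * sqn (c.Θ (c.z (g z))) := by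
      conv_lhs => rw [Ch.eq hz]
      rw [sqn_smul]
    unfold Ch.N Nx
    rw [h1, norm_smul, norm_inv, h2, ← Real.sqrt_eq_rpow, Real.sqrt_mul (sq_nonneg _),
      Real.sqrt_sq (norm_nonneg _)]
    have := norm_pos_iff.2 hi
    field_simp
  rcases isEmpty_or_nonempty κ with hκ | hκ
  · refine ⟨0, fun _ => 0, analyticAt_const, ?_, ?_⟩
    · simp only
      rw [key z0 hd0]
      have : (fun q => h q z0) = 0 := Subsingleton.elim _ _
      rw [this]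
      simp
    · filter_upwards [hdom] with z hz
      rw [norm_zero, mul_zero, zero_mul]
      exact Ch.N_nonneg _ _ _
  · obtain ⟨q, hq⟩ : ∃ q, ‖h q z0‖ = ‖fun q => h q z0‖ := by
      obtain ⟨q, -, hq⟩ := Finset.exists_max_image (Finset.univ : Finset κ)
        (fun q => ‖h q z0‖) Finset.univ_nonempty
      refine ⟨q, le_antisymm (norm_le_pi_norm (fun q => h q z0) q) ?_⟩
      rw [pi_norm_le_iff_of_nonneg (norm_nonneg _)]
      exact fun q' => hq q' (Finset.mem_univ q')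
    refine ⟨0, h q, hhan q, ?_, ?_⟩
    · simp only
      rw [pow_zero, one_mul, key z0 hd0, hq]
    · filter_upwards [hdom] with z hz
      rw [pow_zero, one_mul, key z hz]
      exact mul_le_mul_of_nonneg_right (norm_le_pi_norm (fun q => h q z) q)
        (Real.rpow_nonneg (sqn_nonneg _) _)

theorem lw_P {D : Dt F d Φ} (hη : PositiveTwoForms (Cone F) ∅ d η) (hc : Cv u g z0)
    (hdom : ∀ᶠ z in 𝓝 z0, g z ∈ D.dom) : Lw u g z0 (1 / 2) fun z => D.P η (g z) := by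
  have hd0 := hdom.self_of_nhds
  have hζ : AnalyticAt ℂ (fun z => D.c.z (g z)) z0 :=
    AnalyticAt.comp (g := D.c.z) (Ch.z_an (Ch.ne hd0.1)) hc.an
  exact lw_N hη hc (hdom.mono fun z hz => hz.1)
    (AnalyticAt.comp (g := D.τ) (Dt.τ_an (Dt.dom_B hd0)) hζ)
    (AnalyticAt.comp (g := D.Y) (Dt.Y_an (Dt.dom_B hd0)) hζ)

theorem lw_Q {D : Dt F d Φ} (hη : PositiveTwoForms (Cone F) ∅ d η) (hc : Cv u g z0)
    (hdom : ∀ᶠ z in 𝓝 z0, g z ∈ D.dom) :
    Lw u g z0 (1 / 2) fun z => D.Q η (g z) (deriv g z) := by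
  have hd0 := hdom.self_of_nhds
  have hζ : AnalyticAt ℂ (fun z => D.c.z (g z)) z0 :=
    AnalyticAt.comp (g := D.c.z) (Ch.z_an (Ch.ne hd0.1)) hc.an
  refine lw_N hη hc (hdom.mono fun z hz => hz.1)
    (AnalyticAt.comp (g := D.τ) (Dt.τ_an (Dt.dom_B hd0)) hζ) ?_
  have h1 : ∀ j, AnalyticAt ℂ (fun z => g z j) z0 := fun j => (analyticAt_pi_iff.1 hc.an) j
  have h2 : ∀ j, AnalyticAt ℂ (fun z => deriv g z j) z0 := fun j =>
    (analyticAt_pi_iff.1 hc.an.deriv) j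
  refine analyticAt_pi_iff.2 fun k => ?_
  unfold Ch.a
  exact (((h2 _).mul (h1 _)).sub ((h1 _).mul (h2 _))).div ((h1 _).pow 2)
    (pow_ne_zero _ (Ch.ne hd0.1))

theorem lw_e {D : Dt F d Φ} (hη : PositiveTwoForms (Cone F) ∅ d η)
    (hc : Cv (fun z => Φ (g z) (deriv g z)) g z0) (hdom : ∀ᶠ z in 𝓝 z0, g z ∈ D.dom) :
    Lw (fun z => Φ (g z) (deriv g z)) g z0 (1 / 2) fun z => D.e η ν (g z) (deriv g z) := by
  unfold Dt.e
  refine Lw.max' ?_ (lw_Q hη hc hdom)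
  have h1 := (Lw.u_pow (u := fun z => Φ (g z) (deriv g z)) (g := g) (z0 := z0) ν).mul hc
    (lw_P hη hc hdom)
  rw [zero_add] at h1
  exact h1

theorem lw_n {D : Dt F d Φ} (hη : PositiveTwoForms (Cone F) ∅ d η) {l : ℝ} (hl : 0 ≤ l)
    (hc : Cv (fun z => Φ (g z) (deriv g z)) g z0) (hdom : ∀ᶠ z in 𝓝 z0, g z ∈ D.dom) :
    Lw (fun z => Φ (g z) (deriv g z)) g z0 (1 / 2) fun z =>
      max (Φ (g z) (deriv g z) ^ ν * D.P η (g z)) (l * D.Q η (g z) (deriv g z)) := by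
  have h1 := (Lw.u_pow (u := fun z => Φ (g z) (deriv g z)) (g := g) (z0 := z0) ν).mul hc
    (lw_P hη hc hdom)
  have h2 := (Lw.const (u := fun z => Φ (g z) (deriv g z)) (g := g) (z0 := z0) hl).mul hc
    (lw_Q hη hc hdom)
  rw [zero_add] at h1 h2
  exact Lw.max' h1 h2

/-- subharmonicity from lower pieces -/
theorem sub_of_lw {V : Set ℂ} (hV : IsOpen V) (hz0 : z0 ∈ V) (hu : LogSubharmonic u V)
    (hc : Cv u g z0) (hu0 : 0 < u z0) {α γ s : ℝ} {w ψ : ℂ → ℝ} (hw : Lw u g z0 α w) {t : ℂ → ℂ}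
    (ht : AnalyticAt ℂ t z0) (hψc : ∀ᶠ z in 𝓝 z0, ContinuousAt ψ z) (hψ0 : 0 < ψ z0)
    (heq : ψ z0 = w z0 * Real.exp (-γ * ‖t z0‖ ^ 2))
    (hle : ∀ᶠ z in 𝓝 z0, w z * Real.exp (-γ * ‖t z‖ ^ 2) ≤ ψ z)
    (hpos : 0 < α * (wedge (g z0) (deriv g z0) / sqn (g z0)) ^ 2 - γ * ‖deriv t z0‖ ^ 2 + s) :
    SubAt (fun z => Real.log (ψ z * Real.exp (s * ‖z‖ ^ 2))) z0 := by
  obtain ⟨p, h, h1, h2, h3⟩ := hw
  have hS := sqn_pos hc.ne
  have hSα := Real.rpow_pos_of_pos hS α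
  have hh0 : h z0 ≠ 0 := by
    intro h0
    rw [heq, h2, h0, norm_zero, mul_zero, zero_mul, zero_mul] at hψ0
    exact lt_irrefl _ hψ0
  have hsub := piece_sub hu hV hz0 hu0 p h1 hh0 hc.an hc.ne ht 0 (C := 1) one_pos hpos
  have e1 : ∀ᶠ z in 𝓝 z0, h z ≠ 0 := h1.continuousAt.eventually_ne hh0
  have e2 : ∀ᶠ z in 𝓝 z0, 0 < u z := (hu.cont.continuousAt (hV.mem_nhds hz0)).eventually
    (lt_mem_nhds hu0)
  have e3 : ∀ᶠ z in 𝓝 z0, 0 < ψ z := hψc.self_of_nhds.eventually (lt_mem_nhds hψ0)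
  have key : ∀ z, 1 * u z ^ p * ‖h z‖ * sqn (g z) ^ α *
      Real.exp (-γ * ‖t z - 0‖ ^ 2 + s * ‖z‖ ^ 2) =
      (u z ^ p * ‖h z‖ * sqn (g z) ^ α) * Real.exp (-γ * ‖t z‖ ^ 2) * Real.exp (s * ‖z‖ ^ 2) := by
    intro z
    rw [sub_zero, Real.exp_add]
    ring
  refine (hsub.mono ?_ ?_ ?_).sub
  · filter_upwards [hψc, e3] with z hz hz'
    refine ContinuousAt.log (hz.mul (by fun_prop)) ?_
    have := Real.exp_pos (s * ‖z‖ ^ 2)
    positivity
  · filter_upwards [h3, hle, e1, e2, hc.ev_ne] with z g1 g2 g3 g4 g5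
    have g6 := norm_pos_iff.2 g3
    have g7 := Real.rpow_pos_of_pos (sqn_pos g5) α
    rw [key z]
    apply Real.log_le_log (by positivity)
    apply mul_le_mul_of_nonneg_right _ (Real.exp_pos _).le
    exact (mul_le_mul_of_nonneg_right g1 (Real.exp_pos _).le).trans g2
  · rw [key z0, heq, h2]

end Pool.Agent.H33
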