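import Pool.Agent.H33.JP

/-! Bounds, and invariance. -/

set_option autoImplicit false

open Filter Topology Metric Set MvPolynomial LinearAlgebra.Projectivization

namespace Pool.Agent.H33

open Pool.Agent.Y190.OP Pool.Agent.W602.GT Pool.Agent.N155 Pool.Agent.N155.BB

variable {n : ℕ} {ι ι' : Type} {F : ι → MvPolynomial (Fin (n + 1)) ℂ}
  {G : ι' → MvPolynomial (Fin (n + 1)) ℂ} {d : ℕ}
  {κ : Type} {η : κ → (Fin (n + 1) → ℂ) → (Fin (n + 1) → ℂ) → (Fin (n + 1) → ℂ) → ℂ}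
  {Φ : (Fin (n + 1) → ℂ) → (Fin (n + 1) → ℂ) → ℝ} {H : ℂ → Mat (n + 1)} {ν : ℕ}
  {Yc : Set ((Fin (n + 1) → ℂ) × (Fin (n + 1) → ℂ))}

/-- tangent vectors of maps -/
theorem Tg.of_map {U : Set (Fin d → ℂ)} {Θ : (Fin d → ℂ) → Fin (n + 1) → ℂ} (hU : IsOpen U)
    (hΘ : AnalyticOnNhd ℂ Θ U) (hX : ∀ z ∈ U, Θ z ∈ Cone F) {z : Fin d → ℂ} (hz : z ∈ U)
    (b : Fin d → ℂ) : Tg F (Θ z) (fderiv ℂ Θ z b) := by
  have hcont : Continuous fun s : ℂ => z + s • b := by fun_prop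
  have h0 : (fun s : ℂ => z + s • b) 0 = z := by simp
  refine ⟨(fun s : ℂ => z + s • b) ⁻¹' U, fun s => Θ (z + s • b), hU.preimage hcont,
    fun s hs => ?_, fun s hs => hX _ hs, 0, ?_, ?_, ?_⟩
  · have h1 : DifferentiableAt ℂ Θ (z + s • b) := (hΘ _ hs).differentiableAt
    have h2 : DifferentiableAt ℂ (fun s : ℂ => z + s • b) s := by fun_prop
    exact (h1.comp s h2).differentiableWithinAt
  · rw [mem_preimage, zero_smul, add_zero]
    exact hz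
  · simp
  · have h1 : HasFDerivAt Θ (fderiv ℂ Θ z) ((fun s : ℂ => z + s • b) 0) := by
      rw [h0]
      exact (hΘ _ hz).differentiableAt.hasFDerivAt
    have h2 : HasDerivAt (fun s : ℂ => z + s • b) b 0 := by
      have h3 : HasDerivAt (fun s : ℂ => z + s • b) ((1 : ℂ) • b) 0 :=
        ((hasDerivAt_id (0 : ℂ)).smul_const b).const_add z
      rwa [one_smul] at h3
    exact (h1.comp_hasDerivAt 0 h2).deriv

theorem phi_nonneg (hΦ : NonposMetric (Cone F) d Φ) {x v : Fin (n + 1) → ℂ} (h : Tg F x v) :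
    0 ≤ Φ x v := by
  obtain ⟨V, g, hV, hg, hgF, z, hz, rfl, rfl⟩ := h
  exact (hΦ.curv V g hV hg hgF).nonneg z hz

theorem wedge_scale (x v : Fin (n + 1) → ℂ) (s b : ℂ) {r : ℝ} (hr : 0 ≤ r) :
    wedge (s • x) (s • (((r : ℝ) : ℂ) • v + b • x)) = ‖s‖ ^ 2 * r * wedge x v := by
  unfold wedge
  have h1 : ∀ i j, ‖(s • x) i * (s • (((r : ℝ) : ℂ) • v + b • x)) j -
      (s • x) j * (s • (((r : ℝ) : ℂ) • v + b • x)) i‖ ^ 2 =
      (‖s‖ ^ 2 * r) ^ 2 * ‖x i * v j - x j * v i‖ ^ 2 := by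
    intro i j
    have h2 : (s • x) i * (s • (((r : ℝ) : ℂ) • v + b • x)) j -
      (s • x) j * (s • (((r : ℝ) : ℂ) • v + b • x)) i =
      (s ^ 2 * ((r : ℝ) : ℂ)) * (x i * v j - x j * v i) := by
      simp only [Pi.smul_apply, Pi.add_apply, smul_eq_mul]
      ring
    rw [h2, norm_mul, norm_mul, norm_pow, Complex.norm_real, Real.norm_of_nonneg hr, mul_pow]
  simp only [h1, ← Finset.mul_sum]
  rw [mul_div_assoc, Real.sqrt_mul (by positivity), Real.sqrt_sq (by positivity)]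

/-- the speed with respect to the Fubini-Study metric -/
noncomputable def fs (x v : Fin (n + 1) → ℂ) : ℝ := wedge x v / sqn x

theorem fs_scale {x : Fin (n + 1) → ℂ} (v : Fin (n + 1) → ℂ) {s : ℂ} (hs : s ≠ 0)
    (b : ℂ) {r : ℝ} (hr : 0 ≤ r) :
    fs (s • x) (s • (((r : ℝ) : ℂ) • v + b • x)) = r * fs x v := by
  unfold fs
  rw [wedge_scale x v s b hr, sqn_smul]
  have h1 := norm_pos_iff.2 hs
  rw [mul_assoc, mul_div_mul_left _ _ (by positivity), mul_div_assoc]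

theorem fs_pos (hX : ProjManifold F d) (hΦ : NonposMetric (Cone F) d Φ) {x v : Fin (n + 1) → ℂ}
    (h : Tg F x v) (h1 : Φ x v = 1) : 0 < fs x v := by
  have hx := h.mem
  have hS := sqn_pos hx.1
  unfold fs
  refine div_pos ?_ hS
  refine lt_of_le_of_ne (wedge_nonneg _ _) fun h0 => ?_
  have h2 := wedge_sq x v
  rw [← h0] at h2
  have h3 := sqn_pyth hx.1 v
  have h4 : ‖spr v x‖ ^ 2 / sqn x = sqn v := by
    rw [div_eq_iff hS.ne']
    linarith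
  have h5 : sqn (v - (spr v x / sqn x) • x) = 0 := by linarith
  have h6 := sub_eq_zero.1 (eq_zero_of_sqn h5)
  have h7 := hΦ.twist x hx 0 1 (spr v x / sqn x) one_ne_zero
  rw [one_smul, one_smul, zero_add, ← h6, h1] at h7
  have h8 := hΦ.deg x hx 0 0
  rw [smul_zero, norm_zero, zero_mul, ← h7] at h8
  exact one_ne_zero h8

theorem fs_cont {p : (Fin (n + 1) → ℂ) × (Fin (n + 1) → ℂ)} (hp : p.1 ≠ 0) :
    ContinuousAt (fun p : (Fin (n + 1) → ℂ) × (Fin (n + 1) → ℂ) => fs p.1 p.2) p := by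
  unfold fs
  have h1 : Continuous fun p : (Fin (n + 1) → ℂ) × (Fin (n + 1) → ℂ) => wedge p.1 p.2 := by
    unfold wedge
    fun_prop
  exact h1.continuousAt.div (sqn_cont.comp continuous_fst).continuousAt (sqn_pos hp).ne'

variable [Fintype κ]

/-- the metrics are comparable -/
theorem fs_bounds (h : Hyp F d Φ η ν) (hY : Unt F Φ Yc) : ∃ c C : ℝ, 0 < c ∧ 0 < C ∧
    ∀ x v, Tg F x v → 0 < Φ x v → c * Φ x v ≤ fs x v ∧ fs x v ≤ C * Φ x v := by
  have hc : ContinuousOn (fun p : (Fin (n + 1) → ℂ) × (Fin (n + 1) → ℂ) => fs p.1 p.2) Yc :=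
    fun p hp => (fs_cont (Tg.mem (hY.sub hp)).1).continuousWithinAt
  have key : ∃ c C : ℝ, 0 < c ∧ 0 < C ∧ ∀ p ∈ Yc, c ≤ fs p.1 p.2 ∧ fs p.1 p.2 ≤ C := by
    rcases Yc.eq_empty_or_nonempty with he | hne
    · exact ⟨1, 1, one_pos, one_pos, fun p hp => by rw [he] at hp; exact absurd hp (notMem_empty _)⟩
    · obtain ⟨p, hp, hmin⟩ := hY.cpt.exists_isMinOn hne hc
      obtain ⟨q, hq, hmax⟩ := hY.cpt.exists_isMaxOn hne hc
      exact ⟨fs p.1 p.2, fs q.1 q.2, fs_pos h.hX h.hΦ (hY.mem p hp).1 (hY.mem p hp).2,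
        fs_pos h.hX h.hΦ (hY.mem q hq).1 (hY.mem q hq).2, fun p' hp' => ⟨hmin hp', hmax hp'⟩⟩
  obtain ⟨c, C, hc0, hC0, hcC⟩ := key
  refine ⟨c, C, hc0, hC0, fun x v hT hpos => ?_⟩
  obtain ⟨p, hp, s, b, hs, hx, hv⟩ := hY.all x v hT hpos
  have h1 : fs x v = Φ x v * fs p.1 p.2 := by
    conv_lhs => rw [hx, hv]
    exact fs_scale p.2 hs b hpos.le
  obtain ⟨h2, h3⟩ := hcC p hp
  rw [h1]
  constructor
  · rw [mul_comm]
    exact mul_le_mul_of_nonneg_left h2 hpos.le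
  · rw [mul_comm]
    exact mul_le_mul_of_nonneg_right h3 hpos.le

/-- the bound of the derivative of the parameter -/
theorem t_bound (h : Hyp F d Φ η ν) (D : Dt F d Φ) : ∃ C : ℝ, ∀ x v, Tg F x v → x ∈ D.dom →
    ‖fderiv ℂ D.tt (D.c.z x) (D.c.a x v)‖ ≤ C * Φ x v := by
  have hcB : IsCompact D.B := isCompact_closedBall _ _
  obtain ⟨m, hm, hlow⟩ := Ch.u_low h.hΦ h.hnd hcB (fun w hw => Dt.B_sub hw)
  have hc : ContinuousOn (fderiv ℂ D.tt) D.B := fun w hw =>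
    (D.ball w hw).2.2.1.fderiv.continuousAt.continuousWithinAt
  obtain ⟨C, hC⟩ := hcB.exists_bound_of_continuousOn hc
  have hC0 : 0 ≤ C := (norm_nonneg _).trans (hC _ (mem_closedBall_self D.hρ.le))
  refine ⟨C / m, fun x v hT hx => ?_⟩
  have h1 := hlow _ (Dt.dom_B hx) (D.c.a x v)
  rw [← Ch.phi_eq h.hΦ hT hx.1] at h1
  calc ‖fderiv ℂ D.tt (D.c.z x) (D.c.a x v)‖ ≤ ‖fderiv ℂ D.tt (D.c.z x)‖ * ‖D.c.a x v‖ :=
        ContinuousLinearMap.le_opNorm _ _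
    _ ≤ C * ‖D.c.a x v‖ := mul_le_mul_of_nonneg_right (hC _ (Dt.dom_B hx)) (norm_nonneg _)
    _ = C / m * (m * ‖D.c.a x v‖) := by field_simp
    _ ≤ C / m * Φ x v := mul_le_mul_of_nonneg_left h1 (by positivity)

omit [Fintype κ] in
/-- the derivative of the parameter along a curve -/
theorem t_deriv {D : Dt F d Φ} {g : ℂ → Fin (n + 1) → ℂ} {z0 : ℂ} (hg : AnalyticAt ℂ g z0)
    (hd : g z0 ∈ D.dom) : AnalyticAt ℂ (fun z => D.t (g z)) z0 ∧
      deriv (fun z => D.t (g z)) z0 = fderiv ℂ D.tt (D.c.z (g z0)) (D.c.a (g z0) (deriv g z0)) := by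
  have h1 := (D.ball _ (Dt.dom_B hd)).2.2.1
  have hζ : AnalyticAt ℂ (fun z => D.c.z (g z)) z0 :=
    AnalyticAt.comp (g := D.c.z) (Ch.z_an (Ch.ne hd.1)) hg
  refine ⟨AnalyticAt.comp (g := D.tt) h1 hζ, ?_⟩
  have h2 := Ch.hasDeriv (c := D.c) hg.differentiableAt.hasDerivAt (Ch.ne hd.1)
  have h3 := h1.differentiableAt.hasFDerivAt.comp_hasDerivAt z0 h2
  exact h3.deriv

theorem Inv.mx' {I : Type} [Fintype I] {a : ℕ}
    {f : I → (Fin (n + 1) → ℂ) → (Fin (n + 1) → ℂ) → ℝ} (hf : ∀ i, Inv F a (f i)) :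
    Inv F a fun x v => mx fun i => f i x v := by
  refine ⟨fun x hx v c b hc => ?_, fun x hx v c hc => ?_⟩
  · congr 1
    funext i
    exact (hf i).twist x hx v c b hc
  · rw [← mx_mul _ (by positivity)]
    congr 1
    funext i
    exact (hf i).deg x hx v c hc

/-- invariance of the function -/
theorem Fm.Psi_inv (h : Hyp F d Φ η ν) {S : Fm F d Φ η ν Yc} {a b : ℕ} {l ε c : ℝ} (ha : ν ≤ a)
    (hc : 0 ≤ c) (ha' : ∀ k, 2 * ν * (S.J k).card ≤ a) :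
    Inv F a fun x v => S.Psi a b l ε c (x, v) := by
  have h1 : Inv F a fun x v => S.NR a l ε (x, v) := Inv.mx' fun i => nr_inv h ha
  have h2 : Inv F a fun x v => S.FR a b (x, v) := Inv.mx' fun k => fr_inv h (ha' k)
  exact (h1.const_mul c).max h2

theorem Fm.Psi_nonneg {S : Fm F d Φ η ν Yc} {a b : ℕ} {l ε c : ℝ}
    (p : (Fin (n + 1) → ℂ) × (Fin (n + 1) → ℂ)) : 0 ≤ S.Psi a b l ε c p :=
  (mx_nonneg _).trans (le_max_right _ _)

theorem Fm.Psi_null {S : Fm F d Φ η ν Yc} {a b : ℕ} {l ε c : ℝ} (ha : ν < a)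
    (ha' : ∀ k, 2 * ν * (S.J k).card < a) {p : (Fin (n + 1) → ℂ) × (Fin (n + 1) → ℂ)}
    (hp : Φ p.1 p.2 = 0) : S.Psi a b l ε c p = 0 := by
  have h1 : ∀ i, S.nr a l ε i p = 0 := by
    intro i
    unfold nr Pool.Agent.H33.nr
    split_ifs
    · rw [hp, zero_pow (by omega : a - ν ≠ 0)]
      ring
    · rfl
  have h2 : ∀ k, S.fr a b k p = 0 := by
    intro k
    have h3 := ha' k
    unfold fr Pool.Agent.H33.fr
    split_ifs
    · rw [hp, zero_pow (by omega : a - 2 * ν * (S.J k).card ≠ 0)]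
      ring
    · rfl
  have h3 : S.NR a l ε p = 0 :=
    le_antisymm (mx_le le_rfl fun i => (h1 i).le) (mx_nonneg _)
  have h4 : S.FR a b p = 0 :=
    le_antisymm (mx_le le_rfl fun k => (h2 k).le) (mx_nonneg _)
  unfold Psi
  rw [h3, h4, mul_zero, max_self]

end Pool.Agent.H33
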