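import Pool.Agent.H33.JQ

/-! The function is negatively curved near its zeros. -/

set_option autoImplicit false

open Filter Topology Metric Set MvPolynomial LinearAlgebra.Projectivization

namespace Pool.Agent.H33

open Pool.Agent.Y190.OP Pool.Agent.W602.GT Pool.Agent.N155 Pool.Agent.N155.BB

variable {n : ℕ} {ι ι' : Type} {F : ι → MvPolynomial (Fin (n + 1)) ℂ}
  {G : ι' → MvPolynomial (Fin (n + 1)) ℂ} {d : ℕ}
  {κ : Type} {η : κ → (Fin (n + 1) → ℂ) → (Fin (n + 1) → ℂ) → (Fin (n + 1) → ℂ) → ℂ}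
  {Φ : (Fin (n + 1) → ℂ) → (Fin (n + 1) → ℂ) → ℝ} {H : ℂ → Mat (n + 1)} {ν : ℕ}
  {Yc : Set ((Fin (n + 1) → ℂ) × (Fin (n + 1) → ℂ))}

/-- a curve in the cone -/
structure Cur (F : ι → MvPolynomial (Fin (n + 1)) ℂ) (V : Set ℂ) (g : ℂ → Fin (n + 1) → ℂ) :
    Prop where
  hV : IsOpen V
  hg : DifferentiableOn ℂ g V
  hF : ∀ z ∈ V, g z ∈ Cone F

/-- the tangent vectors -/
noncomputable def mt (g : ℂ → Fin (n + 1) → ℂ) (z : ℂ) : (Fin (n + 1) → ℂ) × (Fin (n + 1) → ℂ) :=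
  (g z, deriv g z)

variable {V : Set ℂ} {g : ℂ → Fin (n + 1) → ℂ} {z0 : ℂ}

theorem Cur.an (h : Cur F V g) {z : ℂ} (hz : z ∈ V) : AnalyticAt ℂ g z :=
  h.hg.analyticAt (h.hV.mem_nhds hz)

theorem Cur.tg (h : Cur F V g) {z : ℂ} (hz : z ∈ V) : mt g z ∈ TT F :=
  Tg.of_curve h.hV h.hg h.hF hz

theorem Cur.mt_cont (h : Cur F V g) {z : ℂ} (hz : z ∈ V) : ContinuousAt (mt g) z :=
  (h.an hz).continuousAt.prodMk (h.an hz).deriv.continuousAt

theorem Cur.mt_tend (h : Cur F V g) {z : ℂ} (hz : z ∈ V) :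
    Tendsto (mt g) (𝓝 z) (𝓝[TT F] (mt g z)) := by
  refine tendsto_nhdsWithin_iff.2 ⟨h.mt_cont hz, ?_⟩
  filter_upwards [h.hV.mem_nhds hz] with w hw
  exact h.tg hw

theorem Cur.cv (h : Cur F V g) (hΦ : NonposMetric (Cone F) d Φ) (hz : z0 ∈ V) :
    Cv (fun z => Φ (g z) (deriv g z)) g z0 := by
  refine ⟨h.an hz, (h.hF z0 hz).1, ?_⟩
  filter_upwards [h.hV.mem_nhds hz] with w hw
  exact phi_nonneg hΦ (h.tg hw)

theorem Cur.sub (h : Cur F V g) (hΦ : NonposMetric (Cone F) d Φ) :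
    LogSubharmonic (fun z => Φ (g z) (deriv g z)) V := hΦ.curv V g h.hV h.hg h.hF

variable [Fintype κ]

/-- the value in the core -/
theorem nr_core' {D : Dt F d Φ} {a : ℕ} {l γ δ : ℝ} (hδ : 0 < δ) {x v : Fin (n + 1) → ℂ}
    (hd : x ∈ D.dom) (hΦ : 0 < Φ x v) (ht : ‖D.t x‖ ≤ 3 / 4 * D.r)
    (he : D.e η ν x v ≤ 3 / 4 * δ * Φ x v ^ ν) : nr D η ν a l γ δ x v =
      Φ x v ^ (a - ν) * max (Φ x v ^ ν * D.P η x) (l * D.Q η x v) *
        Real.exp (-γ * ‖D.t x‖ ^ 2) := by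
  have hr := D.hr
  unfold nr
  rw [if_pos hd, cut_one (by rwa [div_le_iff₀ hr]), cut_one (s := D.e η ν x v / (δ * Φ x v ^ ν)),
    mul_one, mul_one]
  rw [div_le_iff₀ (by positivity)]
  linarith

namespace Fm

variable {S : Fm F d Φ η ν Yc} {a b : ℕ} {l ε c M : ℝ}

theorem Psi_ge_nr (hc : 0 ≤ c) (i : S.I) (p : (Fin (n + 1) → ℂ) × (Fin (n + 1) → ℂ)) :
    c * S.nr a l ε i p ≤ S.Psi a b l ε c p :=
  (mul_le_mul_of_nonneg_left (le_mx (fun i => S.nr a l ε i p) i) hc).trans (le_max_left _ _)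

theorem Psi_ge_fr (k : S.A) (p : (Fin (n + 1) → ℂ) × (Fin (n + 1) → ℂ)) :
    S.fr a b k p ≤ S.Psi a b l ε c p :=
  (le_mx (fun k => S.fr a b k p) k).trans (le_max_right _ _)

theorem Psi_cases {p : (Fin (n + 1) → ℂ) × (Fin (n + 1) → ℂ)} (hpos : 0 < S.Psi a b l ε c p) :
    (∃ i, c * S.nr a l ε i p = S.Psi a b l ε c p) ∨ ∃ k, S.fr a b k p = S.Psi a b l ε c p := by
  unfold Psi at hpos ⊢
  rcases le_total (c * S.NR a l ε p) (S.FR a b p) with hle | hle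
  · rw [max_eq_right hle] at hpos ⊢
    right
    rcases mx_eq (fun k => S.fr a b k p) with h0 | ⟨k, hk⟩
    · exact absurd hpos (by unfold FR; rw [h0]; exact lt_irrefl _)
    · exact ⟨k, hk.symm⟩
  · rw [max_eq_left hle] at hpos ⊢
    left
    rcases mx_eq (fun i => S.nr a l ε i p) with h0 | ⟨i, hi⟩
    · exact absurd hpos (by unfold NR; rw [h0, mul_zero]; exact lt_irrefl _)
    · exact ⟨i, by unfold NR; rw [hi]⟩

theorem psi_ev_cont (h : Hyp F d Φ η ν) (hY : Unt F Φ Yc) (hcur : Cur F V g) (hz0 : z0 ∈ V)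
    (hu0 : 0 < Φ (g z0) (deriv g z0)) :
    ∀ᶠ z in 𝓝 z0, ContinuousAt (fun z => M⁻¹ * S.Psi a b l ε c (mt g z)) z := by
  have h1 : ∀ᶠ z in 𝓝 z0, 0 < Φ (g z) (deriv g z) :=
    ((hcur.sub h.hΦ).cont.continuousAt (hcur.hV.mem_nhds hz0)).eventually (lt_mem_nhds hu0)
  filter_upwards [h1, hcur.hV.mem_nhds hz0] with z hz hzV
  exact ((Psi_cont h hY (hcur.tg hzV) hz).tendsto.comp (hcur.mt_tend hzV)).const_mul M⁻¹

/-- subharmonicity where a function near the curves is the maximum -/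
theorem sub_near (h : Hyp F d Φ η ν) (hY : Unt F Φ Yc) (hl : 0 ≤ l) (hc : 0 < c) (hM : 0 < M)
    (hcur : Cur F V g) (hz0 : z0 ∈ V) (hu0 : 0 < Φ (g z0) (deriv g z0)) {i : S.I}
    (heq : c * S.nr a l ε i (mt g z0) = S.Psi a b l ε c (mt g z0))
    (hpos : 0 < S.Psi a b l ε c (mt g z0)) (hd : g z0 ∈ (S.D i).dom)
    (ht : ‖(S.D i).t (g z0)‖ < 3 / 4 * (S.D i).r)
    (he : S.e i (mt g z0) < 3 / 4 * S.δ i * Φ (g z0) (deriv g z0) ^ ν) {s : ℝ}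
    (hs : 0 < 1 / 2 * fs (g z0) (deriv g z0) ^ 2 - ε / (S.D i).r ^ 2 *
      ‖fderiv ℂ (S.D i).tt ((S.D i).c.z (g z0)) ((S.D i).c.a (g z0) (deriv g z0))‖ ^ 2 + s) :
    SubAt (fun z => Real.log (M⁻¹ * S.Psi a b l ε c (mt g z) * Real.exp (s * ‖z‖ ^ 2))) z0 := by
  have hcv := hcur.cv h.hΦ hz0
  have hδ := S.fam.hδ i
  obtain ⟨ht1, ht2⟩ := t_deriv (D := S.D i) hcv.an hd
  have hdom : ∀ᶠ z in 𝓝 z0, g z ∈ (S.D i).dom :=
    ((tt_fst (mt g z0)).comp (hcur.mt_tend hz0)).eventually (Dt.dom_nhds hd)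
  have huc : ContinuousAt (fun z => Φ (g z) (deriv g z)) z0 :=
    (hcur.sub h.hΦ).cont.continuousAt (hcur.hV.mem_nhds hz0)
  have hu : ∀ᶠ z in 𝓝 z0, 0 < Φ (g z) (deriv g z) := huc.eventually (lt_mem_nhds hu0)
  have hte : ∀ᶠ z in 𝓝 z0, ‖(S.D i).t (g z)‖ < 3 / 4 * (S.D i).r :=
    ht1.continuousAt.norm.eventually_lt_const ht
  have hee : ∀ᶠ z in 𝓝 z0, S.e i (mt g z) < 3 / 4 * S.δ i * Φ (g z) (deriv g z) ^ ν := by
    have e1 : ContinuousAt (fun z => S.e i (mt g z)) z0 :=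
      (Dt.e_cont (D := S.D i) (ν := ν) h.hX h.hΦ h.hη (hcur.tg hz0) hd).tendsto.comp
        (hcur.mt_tend hz0)
    exact e1.eventually_lt ((huc.pow ν).const_mul _) he
  have hval : ∀ z, g z ∈ (S.D i).dom → 0 < Φ (g z) (deriv g z) →
      ‖(S.D i).t (g z)‖ < 3 / 4 * (S.D i).r →
      S.e i (mt g z) < 3 / 4 * S.δ i * Φ (g z) (deriv g z) ^ ν → S.nr a l ε i (mt g z) =
      Φ (g z) (deriv g z) ^ (a - ν) * max (Φ (g z) (deriv g z) ^ ν * (S.D i).P η (g z))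
        (l * (S.D i).Q η (g z) (deriv g z)) *
        Real.exp (-(ε / (S.D i).r ^ 2) * ‖(S.D i).t (g z)‖ ^ 2) := fun z g1 g2 g3 g4 =>
    nr_core' hδ g1 g2 g3.le g4.le
  have hw : Lw (fun z => Φ (g z) (deriv g z)) g z0 (1 / 2) fun z => (M⁻¹ * c) *
      (Φ (g z) (deriv g z) ^ (a - ν) * max (Φ (g z) (deriv g z) ^ ν * (S.D i).P η (g z))
        (l * (S.D i).Q η (g z) (deriv g z))) := by
    have e1 := (Lw.u_pow (u := fun z => Φ (g z) (deriv g z)) (g := g) (z0 := z0) (a - ν)).mul hcv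
      (lw_n (ν := ν) h.hη hl hcv hdom)
    have e2 := (Lw.const (u := fun z => Φ (g z) (deriv g z)) (g := g) (z0 := z0)
      (show 0 ≤ M⁻¹ * c by positivity)).mul hcv e1
    rw [zero_add, zero_add] at e2
    exact e2
  refine sub_of_lw (γ := ε / (S.D i).r ^ 2) hcur.hV hz0 (hcur.sub h.hΦ) hcv hu0 hw ht1
    (psi_ev_cont h hY hcur hz0 hu0) (by positivity) ?_ ?_ ?_
  · rw [← heq, hval z0 hd hu0 ht he]
    ring
  · filter_upwards [hdom, hu, hte, hee] with z g1 g2 g3 g4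
    have e1 := Psi_ge_nr (b := b) hc.le i (mt g z) (a := a) (l := l) (ε := ε) (S := S)
    rw [hval z g1 g2 g3 g4] at e1
    have e2 := mul_le_mul_of_nonneg_left e1 (inv_pos.2 hM).le
    refine le_trans (le_of_eq ?_) e2
    ring
  · rw [ht2]
    exact hs

/-- subharmonicity where a function near the points is the maximum -/
theorem sub_far (h : Hyp F d Φ η ν) (hY : Unt F Φ Yc) (hM : 0 < M)
    (hcur : Cur F V g) (hz0 : z0 ∈ V) (hu0 : 0 < Φ (g z0) (deriv g z0)) {k : S.A}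
    (heq : S.fr a b k (mt g z0) = S.Psi a b l ε c (mt g z0))
    (hpos : 0 < S.Psi a b l ε c (mt g z0)) (hd : ∀ i ∈ S.J k, g z0 ∈ (S.D i).dom)
    (hg2 : 1 / 2 < S.g k (mt g z0)) {s : ℝ}
    (hs : 0 < ((S.J k).card - (S.m k * b : ℕ) : ℝ) * fs (g z0) (deriv g z0) ^ 2 + s) :
    SubAt (fun z => Real.log (M⁻¹ * S.Psi a b l ε c (mt g z) * Real.exp (s * ‖z‖ ^ 2))) z0 := by
  have hcv := hcur.cv h.hΦ hz0
  have hdom1 : ∀ i ∈ S.J k, ∀ᶠ z in 𝓝 z0, g z ∈ (S.D i).dom := fun i hi =>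
    ((tt_fst (mt g z0)).comp (hcur.mt_tend hz0)).eventually (Dt.dom_nhds (hd i hi))
  have hdom : ∀ᶠ z in 𝓝 z0, ∀ i ∈ S.J k, g z ∈ (S.D i).dom := (Finset.eventually_all _).2 hdom1
  have hgc : ContinuousAt (fun z => S.g k (mt g z)) z0 :=
    ContinuousAt.comp (g := S.g k) (g_cont (hcur.hF z0 hz0).1) (hcur.mt_cont hz0)
  have hge : ∀ᶠ z in 𝓝 z0, 1 / 2 < S.g k (mt g z) := hgc.eventually (lt_mem_nhds hg2)
  have hval : ∀ z, (∀ i ∈ S.J k, g z ∈ (S.D i).dom) → 1 / 2 < S.g k (mt g z) →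
      S.fr a b k (mt g z) = Φ (g z) (deriv g z) ^ (a - 2 * ν * (S.J k).card) *
        (∏ i ∈ S.J k, (S.D i).e η ν (g z) (deriv g z) ^ 2) * cs (g z) (S.x1 k) ^ (S.m k * b) := by
    intro z g1 g2
    have g3 : 1 / 2 < cs (g z) (S.x1 k) ^ S.m k := g2
    unfold fr Pool.Agent.H33.fr mt
    rw [if_pos g1, cut_one (by linarith), mul_one, pow_mul]
  have hw : Lw (fun z => Φ (g z) (deriv g z)) g z0 ((S.J k).card - (S.m k * b : ℕ) : ℝ)
      fun z => M⁻¹ * (Φ (g z) (deriv g z) ^ (a - 2 * ν * (S.J k).card) *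
        (∏ i ∈ S.J k, (S.D i).e η ν (g z) (deriv g z) ^ 2) *
          cs (g z) (S.x1 k) ^ (S.m k * b)) := by
    have e1 := Lw.prod hcv (S.J k) (w := fun i z => (S.D i).e η ν (g z) (deriv g z) ^ 2)
      fun i hi => Lw.sq hcv (lw_e h.hη hcv (hdom1 i hi))
    have e2 := ((Lw.u_pow (u := fun z => Φ (g z) (deriv g z)) (g := g) (z0 := z0)
      (a - 2 * ν * (S.J k).card)).mul hcv e1).mul hcv (Lw.cs hcv (S.hx1 k) (S.m k * b))
    have e3 := (Lw.const (u := fun z => Φ (g z) (deriv g z)) (g := g) (z0 := z0)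
      (inv_pos.2 hM).le).mul hcv e2
    rw [zero_add, zero_add, ← sub_eq_add_neg] at e3
    exact e3
  refine sub_of_lw (γ := 0) (t := fun _ => 0) hcur.hV hz0 (hcur.sub h.hΦ) hcv hu0 hw
    analyticAt_const (psi_ev_cont h hY hcur hz0 hu0) (by positivity) ?_ ?_ ?_
  · rw [← heq, hval z0 hd hg2]
    simp
  · filter_upwards [hdom, hge] with z g1 g2
    have e1 := Psi_ge_fr (b := b) k (mt g z) (a := a) (l := l) (ε := ε) (c := c) (S := S)
    rw [hval z g1 g2] at e1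
    have e2 := mul_le_mul_of_nonneg_left e1 (inv_pos.2 hM).le
    rw [neg_zero, zero_mul, Real.exp_zero, mul_one]
    exact e2
  · rw [zero_mul, sub_zero]
    exact hs

end Fm

end Pool.Agent.H33
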