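import Pool.Agent.H33.JR

/-! The weight. -/

set_option autoImplicit false

open Filter Topology Metric Set MvPolynomial LinearAlgebra.Projectivization

namespace Pool.Agent.H33

open Pool.Agent.Y190.OP Pool.Agent.W602.GT Pool.Agent.N155 Pool.Agent.N155.BB

variable {n : ℕ} {ι ι' : Type} {F : ι → MvPolynomial (Fin (n + 1)) ℂ}
  {G : ι' → MvPolynomial (Fin (n + 1)) ℂ} {d : ℕ}
  {κ : Type} {η : κ → (Fin (n + 1) → ℂ) → (Fin (n + 1) → ℂ) → (Fin (n + 1) → ℂ) → ℂ}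
  {Φ : (Fin (n + 1) → ℂ) → (Fin (n + 1) → ℂ) → ℝ} {H : ℂ → Mat (n + 1)} {ν : ℕ}
  {Yc : Set ((Fin (n + 1) → ℂ) × (Fin (n + 1) → ℂ))}

/-- the jets are invariant -/
theorem jd_twist {x : Fin (n + 1) → ℂ} (hx : x ≠ 0) (v : Fin (n + 1) → ℂ) {s : ℂ} (hs : s ≠ 0)
    (b : ℂ) : jd (s • x) (s • (v + b • x)) = jd x v := by
  have h1 : HasDerivAt (fun t : ℂ => x + t • v) v 0 := by
    have h1 : HasDerivAt (fun s : ℂ => x + s • v) ((1 : ℂ) • v) 0 :=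
      ((hasDerivAt_id (0 : ℂ)).smul_const v).const_add x
    rwa [one_smul] at h1
  have h3 : HasDerivAt (fun t : ℂ => s + t * (s * b)) (s * b) 0 := by
    have := ((hasDerivAt_id (0 : ℂ)).mul_const (s * b)).const_add s
    simpa using this
  have h2 : HasDerivAt (fun t : ℂ => (s + t * (s * b)) • (x + t • v)) (s • (v + b • x)) 0 := by
    have h4 := h3.smul h1
    have h5 : s • (v + b • x) = (s + 0 * (s * b)) • v + (s * b) • (x + (0 : ℂ) • v) := by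
      rw [zero_mul, add_zero, zero_smul, add_zero, smul_add, smul_smul]
    rw [h5]
    exact h4
  have e1 := fderiv_of_curve (H := fun t => Phi (x + t • v)) h1 (by simpa using hx)
    (Eventually.of_forall fun _ => rfl)
  have h6 : ∀ᶠ t : ℂ in 𝓝 0, s + t * (s * b) ≠ 0 :=
    h3.continuousAt.eventually_ne (by simpa using hs)
  have e2 := fderiv_of_curve (H := fun t => Phi (x + t • v)) h2 (by
      simp only [zero_mul, add_zero, zero_smul]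
      exact smul_ne_zero hs hx) (by
      filter_upwards [h6] with t ht
      rw [Phi_smul ht])
  rw [e1] at e2
  simp only [zero_mul, add_zero, zero_smul] at e2
  exact e2.symm

theorem EJ.twist {x v : Fin (n + 1) → ℂ} (hx : x ≠ 0) {s : ℂ} (hs : s ≠ 0) (b : ℂ) :
    EJ F Φ H (s • x) (s • (v + b • x)) ↔ EJ F Φ H x v := by
  constructor
  · rintro ⟨h1, h2, h3⟩
    rw [Phi_smul hs] at h2
    rw [jd_twist hx v hs b] at h3
    exact ⟨h1, h2, h3⟩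
  · rintro ⟨h1, h2, h3⟩
    refine ⟨h1, ?_, ?_⟩
    · rw [Phi_smul hs]
      exact h2
    · rw [jd_twist hx v hs b]
      exact h3

variable [Fintype κ]

namespace Fm

variable {S : Fm F d Φ η ν Yc} {a b : ℕ} {l ε c M : ℝ}

/-- the reduction to unit vectors -/
structure Rd (F : ι → MvPolynomial (Fin (n + 1)) ℂ)
    (Φ : (Fin (n + 1) → ℂ) → (Fin (n + 1) → ℂ) → ℝ)
    (Yc : Set ((Fin (n + 1) → ℂ) × (Fin (n + 1) → ℂ))) (q p : (Fin (n + 1) → ℂ) × (Fin (n + 1) → ℂ))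
    (s e : ℂ) : Prop where
  hp : p ∈ Yc
  hs : s ≠ 0
  hx : q.1 = s • p.1
  hv : q.2 = s • (((Φ q.1 q.2 : ℝ) : ℂ) • p.2 + e • p.1)
  pos : 0 < Φ q.1 q.2

theorem exists_rd (hY : Unt F Φ Yc) {q : (Fin (n + 1) → ℂ) × (Fin (n + 1) → ℂ)} (hq : q ∈ TT F)
    (hpos : 0 < Φ q.1 q.2) : ∃ p s e, Rd F Φ Yc q p s e := by
  obtain ⟨p, hp, s, b, hs, hx, hv⟩ := hY.all q.1 q.2 hq hpos
  exact ⟨p, s, b, hp, hs, hx, hv, hpos⟩

variable {q p : (Fin (n + 1) → ℂ) × (Fin (n + 1) → ℂ)} {s e : ℂ}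

theorem Rd.red (hY : Unt F Φ Yc) (hr : Rd F Φ Yc q p s e)
    {f : (Fin (n + 1) → ℂ) × (Fin (n + 1) → ℂ) → ℝ} (hf : Inv F a fun x v => f (x, v)) :
    f q = Φ q.1 q.2 ^ a * f p := by
  have h1 := hf.reduce (Tg.mem (hY.sub hr.hp)) hr.pos hr.hs (b := e)
  rw [← hr.hv, ← hr.hx] at h1
  exact h1

theorem Rd.dom (h : Hyp F d Φ η ν) (hr : Rd F Φ Yc q p s e) {i : S.I}
    (hd : p.1 ∈ (S.D i).dom) : q.1 ∈ (S.D i).dom := by
  rw [hr.hx]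
  exact Dt.dom_smul h.hX.form hd hr.hs

theorem Rd.t (hr : Rd F Φ Yc q p s e) (i : S.I) : (S.D i).t q.1 = (S.D i).t p.1 := by
  rw [hr.hx, Dt.t_smul _ hr.hs]

theorem Rd.g (hr : Rd F Φ Yc q p s e) (k : S.A) : S.g k q = S.g k p := by
  unfold Fm.g
  rw [hr.hx, cs_smul _ _ hr.hs]

theorem Rd.e' (h : Hyp F d Φ η ν) (hY : Unt F Φ Yc) (hr : Rd F Φ Yc q p s e) {i : S.I}
    (hd : p.1 ∈ (S.D i).dom) : S.e i q = Φ q.1 q.2 ^ ν * S.e i p := by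
  have h1 : S.e i q = (S.D i).e η ν q.1 q.2 := rfl
  have h2 : (S.D i).e η ν q.1 q.2 =
      (S.D i).e η ν (s • p.1) (s • (((Φ q.1 q.2 : ℝ) : ℂ) • p.2 + e • p.1)) := by
    rw [← hr.hv, ← hr.hx]
  rw [h1, h2, Dt.e_twist h.hΦ (Tg.mem (hY.sub hr.hp)) _ hr.hs, Dt.e_deg h.hΦ h.hh hd,
    Complex.norm_real, Real.norm_of_nonneg hr.pos.le]
  rfl

theorem Rd.isE (hY : Unt F Φ Yc) (hr : Rd F Φ Yc q p s e) :
    isE F Φ p ↔ Pool.Agent.H33.isE F Φ (q.1, (((Φ q.1 q.2)⁻¹ : ℝ) : ℂ) • q.2) := by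
  have hp0 : p.1 ≠ 0 := (Tg.mem (hY.sub hr.hp)).1
  have hpos := hr.pos
  have hc : (((Φ q.1 q.2) : ℝ) : ℂ) ≠ 0 := by exact_mod_cast hpos.ne'
  have h1 : (((Φ q.1 q.2)⁻¹ : ℝ) : ℂ) • q.2 = s • (p.2 + (((Φ q.1 q.2)⁻¹ : ℝ) * e : ℂ) • p.1) := by
    have h2 : ∀ (u : ℝ) (w : Fin (n + 1) → ℂ), ((u : ℝ) : ℂ) ≠ 0 →
        w = s • (((u : ℝ) : ℂ) • p.2 + e • p.1) →
        ((u⁻¹ : ℝ) : ℂ) • w = s • (p.2 + ((u⁻¹ : ℝ) * e : ℂ) • p.1) := by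
      rintro u w hu rfl
      rw [smul_comm, smul_add, smul_smul, smul_smul]
      push_cast
      rw [inv_mul_cancel₀ hu, one_smul]
    exact h2 _ _ hc hr.hv
  unfold Pool.Agent.H33.isE
  simp only
  rw [h1, hr.hx]
  constructor
  · rintro ⟨K, hK⟩
    exact ⟨K, (EJ.twist hp0 hr.hs _).2 hK⟩
  · rintro ⟨K, hK⟩
    exact ⟨K, (EJ.twist hp0 hr.hs _).1 hK⟩

/-- the properties of the constants -/
structure Cst (S : Fm F d Φ η ν Yc) (a : ℕ) (ε l : ℝ) (b : ℕ) (c ε1 : ℝ) : Prop where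
  ha : ν < a
  ha' : ∀ k, 2 * ν * (S.J k).card < a
  hl : 0 < l
  hc : 0 < c
  z : ∀ p ∈ Yc, S.Psi a b l ε c p = 0 ↔ isE F Φ p
  near : ∀ p ∈ Yc, ∀ i, 0 < S.Psi a b l ε c p → c * S.nr a l ε i p = S.Psi a b l ε c p →
        p.1 ∈ (S.D i).dom ∧ ‖(S.D i).t p.1‖ < 3 / 4 * (S.D i).r ∧ S.e i p < 3 / 4 * S.δ i
  far : ∀ p ∈ Yc, ∀ k, 0 < S.Psi a b l ε c p → S.fr a b k p = S.Psi a b l ε c p →
        1 / 2 < S.g k p
  hε1 : 0 < ε1
  only : ∀ p ∈ Yc, S.Psi a b l ε c p ≤ ε1 → 0 < S.Psi a b l ε c p →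
        ∀ k, S.fr a b k p < S.Psi a b l ε c p

variable {ε1 : ℝ}

theorem Cst.red (h : Hyp F d Φ η ν) (hY : Unt F Φ Yc) (hC : Cst S a ε l b c ε1)
    (hr : Rd F Φ Yc q p s e) : S.Psi a b l ε c q = Φ q.1 q.2 ^ a * S.Psi a b l ε c p :=
  hr.red hY (Psi_inv h hC.ha.le hC.hc.le fun k => (hC.ha' k).le)

theorem Cst.near' (h : Hyp F d Φ η ν) (hY : Unt F Φ Yc) (hC : Cst S a ε l b c ε1)
    (hr : Rd F Φ Yc q p s e) {i : S.I} (hpos : 0 < S.Psi a b l ε c q)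
    (heq : c * S.nr a l ε i q = S.Psi a b l ε c q) :
    q.1 ∈ (S.D i).dom ∧ ‖(S.D i).t q.1‖ < 3 / 4 * (S.D i).r ∧
      S.e i q < 3 / 4 * S.δ i * Φ q.1 q.2 ^ ν := by
  have hu := pow_pos hr.pos a
  rw [hC.red h hY hr] at hpos heq
  rw [hr.red hY (f := fun q => S.nr a l ε i q) (nr_inv h hC.ha.le)] at heq
  have h1 : 0 < S.Psi a b l ε c p := (mul_pos_iff_of_pos_left hu).1 hpos
  have h2 : c * S.nr a l ε i p = S.Psi a b l ε c p := by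
    have : Φ q.1 q.2 ^ a * (c * S.nr a l ε i p) = Φ q.1 q.2 ^ a * S.Psi a b l ε c p := by
      rw [← heq]
      ring
    exact mul_left_cancel₀ hu.ne' this
  obtain ⟨g1, g2, g3⟩ := hC.near p hr.hp i h1 h2
  refine ⟨hr.dom h g1, ?_, ?_⟩
  · rw [hr.t]
    exact g2
  · rw [hr.e' h hY g1, mul_comm]
    exact mul_lt_mul_of_pos_right g3 (pow_pos hr.pos ν)

theorem Cst.far' (h : Hyp F d Φ η ν) (hY : Unt F Φ Yc) (hC : Cst S a ε l b c ε1)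
    (hr : Rd F Φ Yc q p s e) {k : S.A} (hpos : 0 < S.Psi a b l ε c q)
    (heq : S.fr a b k q = S.Psi a b l ε c q) :
    (∀ i ∈ S.J k, q.1 ∈ (S.D i).dom) ∧ 1 / 2 < S.g k q := by
  have hu := pow_pos hr.pos a
  rw [hC.red h hY hr] at hpos heq
  rw [hr.red hY (f := fun q => S.fr a b k q) (fr_inv h (hC.ha' k).le)] at heq
  have h1 : 0 < S.Psi a b l ε c p := (mul_pos_iff_of_pos_left hu).1 hpos
  have h2 : S.fr a b k p = S.Psi a b l ε c p := mul_left_cancel₀ hu.ne' heq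
  have g1 := hC.far p hr.hp k h1 h2
  refine ⟨fun i hi => hr.dom h ((S.hg k p hr.hp ?_).1 i hi).1, ?_⟩
  · have : 1 / 2 < cs p.1 (S.x1 k) ^ S.m k := g1
    linarith
  · rw [hr.g]
    exact g1

theorem Cst.only' (h : Hyp F d Φ η ν) (hY : Unt F Φ Yc) (hC : Cst S a ε l b c ε1)
    (hr : Rd F Φ Yc q p s e) (hle : S.Psi a b l ε c q ≤ ε1 * Φ q.1 q.2 ^ a)
    (hpos : 0 < S.Psi a b l ε c q) (k : S.A) : S.fr a b k q < S.Psi a b l ε c q := by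
  have hu := pow_pos hr.pos a
  rw [hC.red h hY hr] at hpos hle ⊢
  rw [hr.red hY (f := fun q => S.fr a b k q) (fr_inv h (hC.ha' k).le)]
  have h1 : 0 < S.Psi a b l ε c p := (mul_pos_iff_of_pos_left hu).1 hpos
  have h2 : S.Psi a b l ε c p ≤ ε1 := by
    rw [mul_comm] at hle
    exact le_of_mul_le_mul_right hle hu
  exact mul_lt_mul_of_pos_left (hC.only p hr.hp h2 h1 k) hu

theorem Cst.null (hC : Cst S a ε l b c ε1) (h0 : Φ q.1 q.2 = 0) : S.Psi a b l ε c q = 0 :=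
  Psi_null hC.ha hC.ha' h0

/-- the upper bound -/
theorem Cst.le (h : Hyp F d Φ η ν) (hY : Unt F Φ Yc) (hC : Cst S a ε l b c ε1) (hM : 0 < M)
    (hMb : ∀ p ∈ Yc, S.Psi a b l ε c p ≤ M) (hq : q ∈ TT F) :
    M⁻¹ * S.Psi a b l ε c q ≤ Φ q.1 q.2 ^ a := by
  rcases (phi_nonneg h.hΦ hq).eq_or_lt with h0 | hpos
  · rw [hC.null h0.symm, mul_zero, ← h0]
    exact pow_nonneg le_rfl _
  · obtain ⟨p, s, e, hr⟩ := exists_rd hY hq hpos
    rw [hC.red h hY hr, inv_mul_le_iff₀ hM, mul_comm]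
    exact mul_le_mul_of_nonneg_right (hMb p hr.hp) (pow_nonneg hpos.le _)

/-- continuity -/
theorem Cst.cont (h : Hyp F d Φ η ν) (hY : Unt F Φ Yc) (hC : Cst S a ε l b c ε1) (hM : 0 < M)
    (hMb : ∀ p ∈ Yc, S.Psi a b l ε c p ≤ M) (hq : q ∈ TT F) :
    ContinuousWithinAt (fun p => M⁻¹ * S.Psi a b l ε c p) (TT F) q := by
  rcases (phi_nonneg h.hΦ hq).eq_or_lt with h0 | hpos
  · have ha0 : a ≠ 0 := by have := hC.ha; omega
    have h1 : M⁻¹ * S.Psi a b l ε c q = 0 := by rw [hC.null h0.symm, mul_zero]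
    unfold ContinuousWithinAt
    simp only
    rw [h1]
    have h2 : Tendsto (fun p : (Fin (n + 1) → ℂ) × (Fin (n + 1) → ℂ) => Φ p.1 p.2 ^ a)
        (𝓝[TT F] q) (𝓝 0) := by
      have h3 : Tendsto (fun p : (Fin (n + 1) → ℂ) × (Fin (n + 1) → ℂ) => Φ p.1 p.2 ^ a)
        (𝓝[TT F] q) (𝓝 (Φ q.1 q.2 ^ a)) := (phi_cont h.hX h.hΦ hq).pow a
      rwa [← h0, zero_pow ha0] at h3
    refine squeeze_zero' (Eventually.of_forall fun p => ?_) ?_ h2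
    · exact mul_nonneg (inv_pos.2 hM).le (Psi_nonneg p)
    · filter_upwards [self_mem_nhdsWithin] with p hp
      exact hC.le h hY hM hMb hp
  · exact (Psi_cont h hY hq hpos).const_mul M⁻¹

end Fm

end Pool.Agent.H33
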