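import Pool.Agent.H33.JTL

/-! The weight. -/

set_option autoImplicit false

open Filter Topology Metric Set MvPolynomial LinearAlgebra.Projectivization

namespace Pool.Agent.H33

open Pool.Agent.Y190.OP Pool.Agent.W602.GT Pool.Agent.N155 Pool.Agent.N155.BB

variable {n : ℕ} {ι ι' : Type} {F : ι → MvPolynomial (Fin (n + 1)) ℂ}
  {G : ι' → MvPolynomial (Fin (n + 1)) ℂ} {d : ℕ}
  {κ : Type} {η : κ → (Fin (n + 1) → ℂ) → (Fin (n + 1) → ℂ) → (Fin (n + 1) → ℂ) → ℂ}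
  {Φ : (Fin (n + 1) → ℂ) → (Fin (n + 1) → ℂ) → ℝ} {H : ℂ → Mat (n + 1)} {ν : ℕ}
  {Yc : Set ((Fin (n + 1) → ℂ) × (Fin (n + 1) → ℂ))}

variable [Fintype κ]

namespace Fm

/-- the bounds -/
structure Bd (S : Fm F d Φ η ν Yc) (ε c0 C0 : ℝ) : Prop where
  hc : 0 < c0
  hC : 0 < C0
  lo : ∀ x v, Tg F x v → 0 < Φ x v → c0 * Φ x v ≤ fs x v
  hi : ∀ x v, Tg F x v → 0 < Φ x v → fs x v ≤ C0 * Φ x v
  t : ∀ i x v, Tg F x v → x ∈ (S.D i).dom → ε / (S.D i).r ^ 2 *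
    ‖fderiv ℂ (S.D i).tt ((S.D i).c.z x) ((S.D i).c.a x v)‖ ^ 2 ≤ c0 ^ 2 / 8 * Φ x v ^ 2

theorem exists_bd (h : Hyp F d Φ η ν) (hY : Unt F Φ Yc) (S : Fm F d Φ η ν Yc) :
    ∃ ε c0 C0 : ℝ, 0 < ε ∧ Bd S ε c0 C0 := by
  obtain ⟨c0, C0, hc0, hC0, hcC⟩ := fs_bounds h hY
  obtain ⟨C, hC, hCt⟩ := fin_unif (J := S.I) (φ := fun i C => ∀ x v, Tg F x v →
      x ∈ (S.D i).dom → ‖fderiv ℂ (S.D i).tt ((S.D i).c.z x) ((S.D i).c.a x v)‖ ≤ C * Φ x v)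
    (fun i C C' hCC h1 x v hT hx => (h1 x v hT hx).trans
      (mul_le_mul_of_nonneg_right hCC (phi_nonneg h.hΦ hT))) (fun i => t_bound h (S.D i))
  set R : ℝ := ∑ i, 1 / (S.D i).r ^ 2 + 1 with hR
  have hr : ∀ i, 0 < (S.D i).r := fun i => (S.D i).hr
  have hR0 : ∀ i, 0 ≤ 1 / (S.D i).r ^ 2 := fun i => by have := hr i; positivity
  have hR1 : ∀ i, 1 / (S.D i).r ^ 2 ≤ R := fun i => by
    have := Finset.single_le_sum (f := fun i => 1 / (S.D i).r ^ 2) (fun i _ => hR0 i)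
      (Finset.mem_univ i)
    linarith
  have hRpos : 0 < R := by
    have := Finset.sum_nonneg (f := fun i => 1 / (S.D i).r ^ 2) (s := Finset.univ)
      (fun i _ => hR0 i)
    linarith
  refine ⟨c0 ^ 2 / 8 / ((C ^ 2 + 1) * R), c0, C0, by positivity, hc0, hC0,
    fun x v hT hp => (hcC x v hT hp).1, fun x v hT hp => (hcC x v hT hp).2, ?_⟩
  intro i x v hT hx
  have h1 := hCt i x v hT hx
  have h2 := phi_nonneg h.hΦ hT
  have h3 : ‖fderiv ℂ (S.D i).tt ((S.D i).c.z x) ((S.D i).c.a x v)‖ ^ 2 ≤ (C * Φ x v) ^ 2 :=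
    pow_le_pow_left₀ (norm_nonneg _) h1 2
  have h4 := hR1 i
  have h5 := hR0 i
  have h6 : 0 ≤ c0 ^ 2 / 8 / ((C ^ 2 + 1) * R) := by positivity
  calc c0 ^ 2 / 8 / ((C ^ 2 + 1) * R) / (S.D i).r ^ 2 *
        ‖fderiv ℂ (S.D i).tt ((S.D i).c.z x) ((S.D i).c.a x v)‖ ^ 2 =
        c0 ^ 2 / 8 / ((C ^ 2 + 1) * R) * (1 / (S.D i).r ^ 2) *
        ‖fderiv ℂ (S.D i).tt ((S.D i).c.z x) ((S.D i).c.a x v)‖ ^ 2 := by ring
    _ ≤ c0 ^ 2 / 8 / ((C ^ 2 + 1) * R) * R * (C * Φ x v) ^ 2 := by gcongr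
    _ = c0 ^ 2 / 8 * (C ^ 2 / (C ^ 2 + 1)) * Φ x v ^ 2 := by
      field_simp
    _ ≤ c0 ^ 2 / 8 * 1 * Φ x v ^ 2 := by
      gcongr
      rw [div_le_one (by positivity)]
      linarith
    _ = c0 ^ 2 / 8 * Φ x v ^ 2 := by ring

variable {S : Fm F d Φ η ν Yc} {a b : ℕ} {l ε c M ε1 c0 C0 : ℝ} {V : Set ℂ}
  {g : ℂ → Fin (n + 1) → ℂ} {z0 : ℂ}

/-- the curvature condition near the curves -/
theorem sub_near' (h : Hyp F d Φ η ν) (hY : Unt F Φ Yc) (hC : Cst S a ε l b c ε1)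
    (hB : Bd S ε c0 C0) (hM : 0 < M) (hcur : Cur F V g) (hz0 : z0 ∈ V)
    (hu0 : 0 < Φ (g z0) (deriv g z0)) {i : S.I}
    (heq : c * S.nr a l ε i (mt g z0) = S.Psi a b l ε c (mt g z0))
    (hpos : 0 < S.Psi a b l ε c (mt g z0)) {s : ℝ}
    (hs : -(c0 ^ 2 / 8 * Φ (g z0) (deriv g z0) ^ 2) ≤ s) :
    SubAt (fun z => Real.log (M⁻¹ * S.Psi a b l ε c (mt g z) * Real.exp (s * ‖z‖ ^ 2))) z0 := by
  have hT := hcur.tg hz0
  obtain ⟨p, s', e, hr⟩ := exists_rd hY hT hu0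
  obtain ⟨g1, g2, g3⟩ := hC.near' h hY hr hpos heq
  refine sub_near h hY hC.hl.le hC.hc hM hcur hz0 hu0 heq hpos g1 g2 g3 ?_
  have h1 := hB.t i _ _ hT g1
  have h2 := hB.lo _ _ hT hu0
  have hc0 := hB.hc
  have h3 : (c0 * Φ (g z0) (deriv g z0)) ^ 2 ≤ fs (g z0) (deriv g z0) ^ 2 :=
    pow_le_pow_left₀ (by positivity) h2 2
  have h4 : 0 < c0 ^ 2 * Φ (g z0) (deriv g z0) ^ 2 := by positivity
  have h1' : ε / (S.D i).r ^ 2 *
      ‖fderiv ℂ (S.D i).tt ((S.D i).c.z (g z0)) ((S.D i).c.a (g z0) (deriv g z0))‖ ^ 2 ≤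
      c0 ^ 2 / 8 * Φ (g z0) (deriv g z0) ^ 2 := h1
  have h5 : (c0 * Φ (g z0) (deriv g z0)) ^ 2 = c0 ^ 2 * Φ (g z0) (deriv g z0) ^ 2 := by ring
  linarith

theorem sub_far' (h : Hyp F d Φ η ν) (hY : Unt F Φ Yc) (hC : Cst S a ε l b c ε1)
    (hB : Bd S ε c0 C0) (hM : 0 < M) (hcur : Cur F V g) (hz0 : z0 ∈ V)
    (hu0 : 0 < Φ (g z0) (deriv g z0)) {k : S.A}
    (heq : S.fr a b k (mt g z0) = S.Psi a b l ε c (mt g z0))
    (hpos : 0 < S.Psi a b l ε c (mt g z0)) {s : ℝ}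
    (hs : (S.m k * b : ℕ) * C0 ^ 2 * Φ (g z0) (deriv g z0) ^ 2 < s) :
    SubAt (fun z => Real.log (M⁻¹ * S.Psi a b l ε c (mt g z) * Real.exp (s * ‖z‖ ^ 2))) z0 := by
  have hT := hcur.tg hz0
  obtain ⟨p, s', e, hr⟩ := exists_rd hY hT hu0
  obtain ⟨g1, g2⟩ := hC.far' h hY hr hpos heq
  refine sub_far h hY hM hcur hz0 hu0 heq hpos g1 g2 ?_
  have h2 := hB.hi _ _ hT hu0
  have h2' := hB.lo _ _ hT hu0
  have hc0 := hB.hc
  have h0 : 0 ≤ fs (g z0) (deriv g z0) :=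
    (show 0 ≤ c0 * Φ (mt g z0).1 (mt g z0).2 from mul_nonneg hc0.le hu0.le).trans h2'
  have h3 : fs (g z0) (deriv g z0) ^ 2 ≤ (C0 * Φ (g z0) (deriv g z0)) ^ 2 :=
    pow_le_pow_left₀ h0 h2 2
  have h4 : ((S.m k * b : ℕ) : ℝ) * fs (g z0) (deriv g z0) ^ 2 ≤
      (S.m k * b : ℕ) * (C0 * Φ (g z0) (deriv g z0)) ^ 2 :=
    mul_le_mul_of_nonneg_left h3 (Nat.cast_nonneg _)
  have h5 : 0 ≤ ((S.J k).card : ℝ) * fs (g z0) (deriv g z0) ^ 2 := by positivity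
  have h6 : ((S.m k * b : ℕ) : ℝ) * (C0 * Φ (g z0) (deriv g z0)) ^ 2 =
      (S.m k * b : ℕ) * C0 ^ 2 * Φ (g z0) (deriv g z0) ^ 2 := by ring
  rw [sub_mul]
  linarith

end Fm

/-- **The weight**, and its size away from the curves. -/
theorem exists_weight_low (h : Hyp F d Φ η ν) :
    ∃ (a : ℕ) (Ψ : (Fin (n + 1) → ℂ) → (Fin (n + 1) → ℂ) → ℝ), a ≠ 0 ∧
      NegativeNearZeros (Cone F) d Φ a Ψ ∧
      (∀ x v, Tg F x v → 0 < Φ x v → (Ψ x v = 0 ↔ isE F Φ (x, (((Φ x v)⁻¹ : ℝ) : ℂ) • v))) ∧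
      ∃ c' : ℝ, 0 < c' ∧ ∀ x v, Tg F x v → ∀ R : ℝ, 0 ≤ R → R ≤ 1 →
        (∀ H, Ec F Φ H → ∀ t, R ≤ ‖Phi x - H t‖) → c' * R ^ ν * Φ x v ^ a ≤ Ψ x v := by
  obtain ⟨Yc, hY⟩ := h.exists_unt
  obtain ⟨S⟩ := exists_fm h hY
  obtain ⟨ε, c0, C0, hε, hB⟩ := Fm.exists_bd h hY S
  obtain ⟨l, b, c, hl, hc, hz, hnear, hfar, ε1, hε1, honly⟩ := Fm.exists_const h hY S
    (2 * ν * Fintype.card S.I + ν + 1) hε
  set a : ℕ := 2 * ν * Fintype.card S.I + ν + 1 with ha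
  have ha1 : ∀ k, 2 * ν * (S.J k).card < a := by
    intro k
    have h1 : (S.J k).card ≤ Fintype.card S.I := Finset.card_le_univ _
    have h2 := Nat.mul_le_mul_left (2 * ν) h1
    omega
  have hC : Fm.Cst S a ε l b c ε1 := ⟨by omega, ha1, hl, hc, hz, hnear, hfar, hε1, honly⟩
  have hPc : ContinuousOn (S.Psi a b l ε c) Yc := fun q hq =>
    (Fm.Psi_cont h hY (hY.sub hq) (by rw [(hY.mem q hq).2]; exact one_pos)).mono hY.sub
  obtain ⟨M0, hM0⟩ := hY.cpt.exists_bound_of_continuousOn hPc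
  set M : ℝ := max M0 1 with hMdef
  have hM : 0 < M := one_pos.trans_le (le_max_right _ _)
  have hMb : ∀ p ∈ Yc, S.Psi a b l ε c p ≤ M := fun p hp =>
    ((le_abs_self _).trans (hM0 p hp)).trans (le_max_left _ _)
  have hMi : 0 < M⁻¹ := inv_pos.2 hM
  have hinv : Inv F a fun x v => M⁻¹ * S.Psi a b l ε c (x, v) :=
    (Fm.Psi_inv h hC.ha.le hC.hc.le fun k => (hC.ha' k).le).const_mul M⁻¹
  have hcur : ∀ (V : Set ℂ) (g : ℂ → Fin (n + 1) → ℂ), IsOpen V → DifferentiableOn ℂ g V →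
      (∀ z ∈ V, g z ∈ Cone F) → Cur F V g := fun V g h1 h2 h3 => ⟨h1, h2, h3⟩
  have hcc : ∀ {V : Set ℂ} {g : ℂ → Fin (n + 1) → ℂ}, Cur F V g →
      ContinuousOn (fun z => M⁻¹ * S.Psi a b l ε c (mt g z)) V := by
    intro V g hg z hz
    exact ((hC.cont h hY hM hMb (hg.tg hz)).tendsto.comp
      (hg.mt_tend hz)).mono_left nhdsWithin_le_nhds
  have hu0 : ∀ {V : Set ℂ} {g : ℂ → Fin (n + 1) → ℂ} {z : ℂ}, Cur F V g → z ∈ V →
      0 < S.Psi a b l ε c (mt g z) → 0 < Φ (g z) (deriv g z) := by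
    intro V g z hg hz hpos
    refine lt_of_le_of_ne (phi_nonneg h.hΦ (hg.tg hz)) fun h0 => ?_
    rw [hC.null (q := mt g z) h0.symm] at hpos
    exact lt_irrefl _ hpos
  obtain ⟨c', hc', hlow⟩ := hC.lower h hY hε
  refine ⟨a, fun x v => M⁻¹ * S.Psi a b l ε c (x, v), by omega,
    ⟨hinv.twist, hinv.deg, ?_, ?_, ?_, ?_⟩, ?_, M⁻¹ * c', by positivity,
    fun x v hT R hR0 hR1 hR => by
      have h1 := mul_le_mul_of_nonneg_left (hlow x v hT R hR0 hR1 hR) hMi.le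
      calc M⁻¹ * c' * R ^ ν * Φ x v ^ a = M⁻¹ * (c' * R ^ ν * Φ x v ^ a) := by ring
        _ ≤ _ := h1⟩
  · -- continuity
    intro U Θ hU hΘ hX q hq
    have h1 : ContinuousAt (fun p : (Fin d → ℂ) × (Fin d → ℂ) =>
        (Θ p.1, fderiv ℂ Θ p.1 p.2)) q := by
      have e1 : ContinuousAt Θ q.1 := (hΘ q.1 hq.1).continuousAt
      have e2 : ContinuousAt (fderiv ℂ Θ) q.1 := (hΘ q.1 hq.1).fderiv.continuousAt
      have e3 : ContinuousAt (fun p : (Fin d → ℂ) × (Fin d → ℂ) => Θ p.1) q :=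
        ContinuousAt.comp (g := Θ) e1 continuousAt_fst
      have e4 : ContinuousAt (fun p : (Fin d → ℂ) × (Fin d → ℂ) => fderiv ℂ Θ p.1) q :=
        ContinuousAt.comp (g := fderiv ℂ Θ) e2 continuousAt_fst
      exact e3.prodMk (e4.clm_apply continuousAt_snd)
    have h2 : Tendsto (fun p : (Fin d → ℂ) × (Fin d → ℂ) => (Θ p.1, fderiv ℂ Θ p.1 p.2))
        (𝓝[U ×ˢ univ] q) (𝓝[TT F] (Θ q.1, fderiv ℂ Θ q.1 q.2)) := by
      refine tendsto_nhdsWithin_iff.2 ⟨h1.tendsto.mono_left nhdsWithin_le_nhds, ?_⟩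
      filter_upwards [self_mem_nhdsWithin] with p hp
      exact Tg.of_map hU hΘ hX hp.1 p.2
    exact (hC.cont h hY hM hMb (Tg.of_map hU hΘ hX hq.1 q.2)).tendsto.comp h2
  · intro V g hV hg hgF z hz
    have hcu := hcur V g hV hg hgF
    exact ⟨mul_nonneg hMi.le (Fm.Psi_nonneg _), hC.le h hY hM hMb (hcu.tg hz)⟩
  · -- far
    set C : ℝ := ∑ k, (S.m k * b : ℕ) * C0 ^ 2 + 1 with hCdef
    have hk0 : ∀ k, 0 ≤ ((S.m k * b : ℕ) : ℝ) * C0 ^ 2 := fun k => by positivity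
    have hCk : ∀ k, ((S.m k * b : ℕ) : ℝ) * C0 ^ 2 < C := fun k => by
      have := Finset.single_le_sum (f := fun k => ((S.m k * b : ℕ) : ℝ) * C0 ^ 2)
        (fun k _ => hk0 k) (Finset.mem_univ k)
      linarith
    have hC0 : 0 ≤ C := by
      have := Finset.sum_nonneg (f := fun k => ((S.m k * b : ℕ) : ℝ) * C0 ^ 2)
        (s := Finset.univ) (fun k _ => hk0 k)
      linarith
    refine ⟨C, hC0, fun V g A hV hg hgF hA => ?_⟩
    have hcu := hcur V g hV hg hgF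
    refine LogSubharmonic.of_local hV ((hcc hcu).mul (by fun_prop)) ?_ ?_
    · intro z hz
      exact mul_nonneg (mul_nonneg hMi.le (Fm.Psi_nonneg _)) (Real.exp_pos _).le
    · intro z hz hwz
      have hpos : 0 < S.Psi a b l ε c (mt g z) :=
        (mul_pos_iff_of_pos_left hMi).1 ((mul_pos_iff_of_pos_right (Real.exp_pos _)).1 hwz)
      have hu := hu0 hcu hz hpos
      have hAu := hA z hz
      have hA2 : Φ (g z) (deriv g z) ^ 2 ≤ A ^ 2 := pow_le_pow_left₀ hu.le hAu 2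
      rcases Fm.Psi_cases hpos with ⟨i, hi⟩ | ⟨k, hk⟩
      · refine Fm.sub_near' h hY hC hB hM hcu hz hu hi hpos ?_
        have h1 : 0 ≤ c0 ^ 2 / 8 * Φ (g z) (deriv g z) ^ 2 := by positivity
        have h2 : 0 ≤ C * A ^ 2 := by positivity
        linarith
      · refine Fm.sub_far' h hY hC hB hM hcu hz hu hk hpos ?_
        have h1 := hCk k
        have h2 : ((S.m k * b : ℕ) : ℝ) * C0 ^ 2 * Φ (g z) (deriv g z) ^ 2 <
            C * Φ (g z) (deriv g z) ^ 2 := mul_lt_mul_of_pos_right h1 (by positivity)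
        have h3 : C * Φ (g z) (deriv g z) ^ 2 ≤ C * A ^ 2 :=
          mul_le_mul_of_nonneg_left hA2 hC0
        linarith
  · -- near
    refine ⟨ε1 / M, c0 ^ 2 / 8, div_pos hε1 hM, by have := hB.hc; positivity,
      fun V g A hV hg hgF hA0 hA hsm => ?_⟩
    have hcu := hcur V g hV hg hgF
    refine LogSubharmonic.of_local hV ((hcc hcu).mul (by fun_prop)) ?_ ?_
    · intro z hz
      exact mul_nonneg (mul_nonneg hMi.le (Fm.Psi_nonneg _)) (Real.exp_pos _).le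
    · intro z hz hwz
      have hpos : 0 < S.Psi a b l ε c (mt g z) :=
        (mul_pos_iff_of_pos_left hMi).1 ((mul_pos_iff_of_pos_right (Real.exp_pos _)).1 hwz)
      have hu := hu0 hcu hz hpos
      have hA2 : A ^ 2 ≤ Φ (g z) (deriv g z) ^ 2 := pow_le_pow_left₀ hA0 (hA z hz) 2
      have hsm' : S.Psi a b l ε c (mt g z) ≤ ε1 * Φ (g z) (deriv g z) ^ a := by
        have h1 : M⁻¹ * S.Psi a b l ε c (mt g z) ≤ ε1 / M * Φ (g z) (deriv g z) ^ a := hsm z hz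
        rw [inv_mul_le_iff₀ hM] at h1
        refine h1.trans (le_of_eq ?_)
        field_simp
      obtain ⟨p, s', e, hr⟩ := Fm.exists_rd hY (hcu.tg hz) hu
      rcases Fm.Psi_cases hpos with ⟨i, hi⟩ | ⟨k, hk⟩
      · have h1 := Fm.sub_near' (M := M) h hY hC hB hM hcu hz hu hi hpos
          (s := -(c0 ^ 2 / 8 * A ^ 2)) (by
            have hc0 := hB.hc
            have := mul_le_mul_of_nonneg_left hA2 (show 0 ≤ c0 ^ 2 / 8 by positivity)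
            linarith)
        have h2 : (fun z => Real.log (M⁻¹ * S.Psi a b l ε c (mt g z) *
            Real.exp (-(c0 ^ 2 / 8 * A ^ 2) * ‖z‖ ^ 2))) = fun z => Real.log (M⁻¹ *
            S.Psi a b l ε c (g z, deriv g z) * Real.exp (-(c0 ^ 2 / 8 * A ^ 2 * ‖z‖ ^ 2))) := by
          funext z
          rw [neg_mul]
          rfl
        rw [h2] at h1
        exact h1
      · exact absurd hk (hC.only' h hY hr hsm' hpos k).ne
  · -- zeros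
    intro x v hT hpos
    obtain ⟨p, s, e, hr⟩ := Fm.exists_rd (q := (x, v)) hY hT hpos
    rw [← hr.isE hY, ← hz p hr.hp]
    have h1 := hC.red h hY hr
    have h2 := pow_pos hpos a
    constructor
    · intro h3
      have h4 : S.Psi a b l ε c (x, v) = 0 := (mul_eq_zero.1 h3).resolve_left hMi.ne'
      rw [h1] at h4
      exact (mul_eq_zero.1 h4).resolve_left h2.ne'
    · intro h3
      change M⁻¹ * S.Psi a b l ε c (x, v) = 0
      rw [h1, h3, mul_zero, mul_zero]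

/-- **The weight.** -/
theorem exists_weight (h : Hyp F d Φ η ν) :
    ∃ (a : ℕ) (Ψ : (Fin (n + 1) → ℂ) → (Fin (n + 1) → ℂ) → ℝ), a ≠ 0 ∧
      NegativeNearZeros (Cone F) d Φ a Ψ ∧
      ∀ x v, Tg F x v → 0 < Φ x v → (Ψ x v = 0 ↔ isE F Φ (x, (((Φ x v)⁻¹ : ℝ) : ℂ) • v)) := by
  obtain ⟨a, Ψ, h1, h2, h3, -⟩ := exists_weight_low h
  exact ⟨a, Ψ, h1, h2, h3⟩

end Pool.Agent.H33
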