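import Pool.Agent.H33.JT

/-! The size of the weight away from the curves. -/

set_option autoImplicit false

open Filter Topology Metric Set MvPolynomial LinearAlgebra.Projectivization

namespace Pool.Agent.H33

open Pool.Agent.Y190.OP Pool.Agent.W602.GT Pool.Agent.N155 Pool.Agent.N155.BB

variable {n : ℕ} {ι ι' : Type} {F : ι → MvPolynomial (Fin (n + 1)) ℂ}
  {G : ι' → MvPolynomial (Fin (n + 1)) ℂ} {d : ℕ}
  {κ : Type} {η : κ → (Fin (n + 1) → ℂ) → (Fin (n + 1) → ℂ) → (Fin (n + 1) → ℂ) → ℂ}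
  {Φ : (Fin (n + 1) → ℂ) → (Fin (n + 1) → ℂ) → ℝ} {H : ℂ → Mat (n + 1)} {ν : ℕ}
  {Yc : Set ((Fin (n + 1) → ℂ) × (Fin (n + 1) → ℂ))}

/-- the distance to the curve -/
theorem Dt.dist_le (D : Dt F d Φ) : ∃ L : ℝ, 0 < L ∧ ∀ w ∈ D.B,
    ‖Phi (D.c.Θ w) - D.H (D.tt w)‖ ≤ L * ‖D.Y w‖ := by
  have key : ∃ L : ℝ, ∀ w ∈ D.B, w ∈ D.B → ‖Phi (D.c.Θ w) - D.H (D.tt w)‖ ≤ L * ‖D.Y w‖ := by
    refine (isCompact_closedBall (D.c.ζ D.H 0) D.ρ).induction_on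
      (p := fun s => ∃ L : ℝ, ∀ w ∈ s, w ∈ D.B →
        ‖Phi (D.c.Θ w) - D.H (D.tt w)‖ ≤ L * ‖D.Y w‖) ?_ ?_ ?_ ?_
    · exact ⟨0, fun w hw => absurd hw (notMem_empty _)⟩
    · rintro s s' hss ⟨L, hL⟩
      exact ⟨L, fun w hw => hL w (hss hw)⟩
    · rintro s s' ⟨L, hL⟩ ⟨L', hL'⟩
      refine ⟨max L L', fun w hw hwB => ?_⟩
      rcases hw with hw | hw
      · exact (hL w hw hwB).trans (mul_le_mul_of_nonneg_right (le_max_left _ _) (norm_nonneg _))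
      · exact (hL' w hw hwB).trans (mul_le_mul_of_nonneg_right (le_max_right _ _) (norm_nonneg _))
    · intro w0 hw0
      obtain ⟨hU, hO, htt, hHO, -, -⟩ := D.ball w0 hw0
      have hPΘ : ContDiffAt ℝ 1 (fun w => Phi (D.c.Θ w)) w0 := by
        have h1 : ContDiffAt ℂ 1 D.c.Θ w0 := (D.c.an w0 hU).contDiffAt
        exact (contDiffAt_Phi (D.c.mem w0 hU).1.1).comp w0 (h1.restrict_scalars ℝ)
      have hYc : ContinuousAt D.Y w0 := (Y_an hw0).continuousAt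
      have hHc : ContinuousAt (fun w => D.H (D.tt w)) w0 :=
        D.hH.cont.continuousAt.comp htt.continuousAt
      by_cases hY0 : D.Y w0 = 0
      · obtain ⟨K, s, hs, hK⟩ := hPΘ.exists_lipschitzOnWith
        have h1 : D.c.ζ D.H (D.tt w0) = w0 := by
          have : w0 - D.c.ζ D.H (D.tt w0) = 0 := hY0
          exact (sub_eq_zero.1 this).symm
        have h2 : ContinuousAt (fun w => D.c.ζ D.H (D.tt w)) w0 := by
          have : (fun w => D.c.ζ D.H (D.tt w)) = fun w => w - D.Y w := by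
            funext w
            unfold Y
            abel
          rw [this]
          exact continuousAt_id.sub hYc
        have h3 : ∀ᶠ w in 𝓝 w0, D.c.ζ D.H (D.tt w) ∈ s := by
          have := h2.tendsto
          rw [h1] at this
          exact this.eventually hs
        have h4 : ∀ᶠ w in 𝓝 w0, D.H (D.tt w) ∈ D.c.O :=
          hHc.eventually (D.c.hO.mem_nhds hHO)
        obtain ⟨O, hOs, hOo, hwO⟩ := _root_.mem_nhds_iff.1 ((h3.and h4).and hs)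
        refine ⟨O, mem_nhdsWithin_of_mem_nhds (hOo.mem_nhds hwO), K, fun w hw _ => ?_⟩
        have h5 := Ch.Phi_ζ (hOs hw).1.2 (D.hH.mem (D.tt w))
        have h6 := hK.dist_le_mul w (hOs hw).2 _ (hOs hw).1.1
        rw [dist_eq_norm, dist_eq_norm, h5] at h6
        exact h6
      · have hpos : 0 < ‖D.Y w0‖ := norm_pos_iff.2 hY0
        have h1 : ContinuousAt (fun w => ‖Phi (D.c.Θ w) - D.H (D.tt w)‖) w0 :=
          (hPΘ.continuousAt.sub hHc).norm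
        have h2 : ∀ᶠ w in 𝓝 w0, ‖Phi (D.c.Θ w) - D.H (D.tt w)‖ <
            ‖Phi (D.c.Θ w0) - D.H (D.tt w0)‖ + 1 := h1.eventually_lt_const (lt_add_one _)
        have h3 : ∀ᶠ w in 𝓝 w0, ‖D.Y w0‖ / 2 < ‖D.Y w‖ :=
          hYc.norm.eventually (lt_mem_nhds (half_lt_self hpos))
        obtain ⟨O, hOs, hOo, hwO⟩ := _root_.mem_nhds_iff.1 (h2.and h3)
        refine ⟨O, mem_nhdsWithin_of_mem_nhds (hOo.mem_nhds hwO),
          (‖Phi (D.c.Θ w0) - D.H (D.tt w0)‖ + 1) / (‖D.Y w0‖ / 2), fun w hw _ => ?_⟩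
        refine (hOs hw).1.le.trans ?_
        rw [div_mul_eq_mul_div, le_div_iff₀ (by positivity)]
        exact mul_le_mul_of_nonneg_left (hOs hw).2.le (by positivity)
  obtain ⟨L, hL⟩ := key
  refine ⟨max L 1, lt_max_of_lt_right one_pos, fun w hw => (hL w hw hw).trans ?_⟩
  exact mul_le_mul_of_nonneg_right (le_max_left _ _) (norm_nonneg _)

variable [Fintype κ]

/-- the function `P` away from the curves -/
theorem Dt.P_low (h : Hyp F d Φ η ν) (D : Dt F d Φ) : ∃ C : ℝ, 0 < C ∧ ∀ x ∈ D.dom, ∀ R : ℝ,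
    0 ≤ R → R ≤ ‖Phi x - D.H (D.t x)‖ → R ^ ν ≤ C * D.P η x := by
  obtain ⟨L, hL, hLb⟩ := D.dist_le
  obtain ⟨m, hm, hlow⟩ := Dt.N_low (D := D) h.hη h.hν h.hh
  refine ⟨L ^ ν / m, by positivity, fun x hx R hR hR1 => ?_⟩
  have hB := Dt.dom_B hx
  have h1 := hLb _ hB
  have h2 : Phi (D.c.Θ (D.c.z x)) = Phi x := by
    conv_rhs => rw [Ch.eq hx.1]
    rw [Phi_smul (Ch.ne hx.1)]
  rw [h2] at h1
  have h3 : R ≤ L * ‖D.Y (D.c.z x)‖ := hR1.trans h1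
  have h4 := hlow _ hB _ (Dt.Y_k hB)
  have h5 : D.P η x = D.c.N η (D.c.z x) (D.τ (D.c.z x)) (D.Y (D.c.z x)) := rfl
  rw [← h5] at h4
  have h6 : R ^ ν ≤ (L * ‖D.Y (D.c.z x)‖) ^ ν := pow_le_pow_left₀ hR h3 ν
  rw [mul_pow] at h6
  rw [div_mul_eq_mul_div, le_div_iff₀ hm]
  calc R ^ ν * m ≤ L ^ ν * ‖D.Y (D.c.z x)‖ ^ ν * m := mul_le_mul_of_nonneg_right h6 hm.le
    _ = L ^ ν * (m * ‖D.Y (D.c.z x)‖ ^ ν) := by ring
    _ ≤ L ^ ν * D.P η x := mul_le_mul_of_nonneg_left h4 (by positivity)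

namespace Fm

variable {S : Fm F d Φ η ν Yc} {a b : ℕ} {l ε c M ε1 : ℝ}

/-- **the size of the weight** -/
theorem Cst.lower (h : Hyp F d Φ η ν) (hY : Unt F Φ Yc) (hε : 0 < ε)
    (hC : Cst S a ε l b c ε1) :
    ∃ c' : ℝ, 0 < c' ∧ ∀ x v, Tg F x v → ∀ R : ℝ, 0 ≤ R → R ≤ 1 →
      (∀ H, Ec F Φ H → ∀ t, R ≤ ‖Phi x - H t‖) →
      c' * R ^ ν * Φ x v ^ a ≤ S.Psi a b l ε c (x, v) := by
  obtain ⟨C1, hC1, hCi1⟩ := fin_unif (J := S.I) (φ := fun i C => ∀ x ∈ (S.D i).dom, ∀ R : ℝ,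
      0 ≤ R → R ≤ ‖Phi x - (S.D i).H ((S.D i).t x)‖ → R ^ ν ≤ C * (S.D i).P η x)
    (fun i C C' hCC h1 x hx R hR hR1 => (h1 x hx R hR hR1).trans
      (mul_le_mul_of_nonneg_right hCC (Dt.P_nonneg _))) (fun i => by
        obtain ⟨C, -, hC⟩ := Dt.P_low h (S.D i)
        exact ⟨C, hC⟩)
  obtain ⟨C, hC0, hCi⟩ : ∃ C : ℝ, 0 < C ∧ ∀ i, ∀ x ∈ (S.D i).dom, ∀ R : ℝ,
      0 ≤ R → R ≤ ‖Phi x - (S.D i).H ((S.D i).t x)‖ → R ^ ν ≤ C * (S.D i).P η x :=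
    ⟨C1 + 1, by linarith, fun i x hx R hR hR1 => (hCi1 i x hx R hR hR1).trans
      (mul_le_mul_of_nonneg_right (by linarith) (Dt.P_nonneg _))⟩
  have hc := hC.hc
  have hE : 0 < Real.exp (-ε) := Real.exp_pos _
  refine ⟨min ε1 (c * Real.exp (-ε) / C), lt_min hC.hε1 (by positivity),
    fun x v hT R hR0 hR1 hR => ?_⟩
  rcases (phi_nonneg h.hΦ hT).eq_or_lt with h0 | hpos
  · have ha0 : a ≠ 0 := by have := hC.ha; omega
    rw [← h0, zero_pow ha0, mul_zero]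
    exact Psi_nonneg _
  obtain ⟨p, s, e, hr⟩ := exists_rd (q := (x, v)) hY hT hpos
  rw [hC.red h hY hr]
  have hxp : Phi x = Phi p.1 := by
    have h1 : x = s • p.1 := hr.hx
    rw [h1, Phi_smul hr.hs]
  have hR' : ∀ H, Ec F Φ H → ∀ t, R ≤ ‖Phi p.1 - H t‖ := fun H hH t => by
    rw [← hxp]
    exact hR H hH t
  have hRν : R ^ ν ≤ 1 := pow_le_one₀ hR0 hR1
  have hRν0 : 0 ≤ R ^ ν := pow_nonneg hR0 ν
  rw [mul_comm]
  refine mul_le_mul_of_nonneg_left ?_ (pow_nonneg hpos.le a)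
  have hp1 := (hY.mem p hr.hp).2
  have hPn : 0 ≤ S.Psi a b l ε c p := Psi_nonneg _
  rcases hPn.eq_or_lt with hz | hPpos
  · obtain ⟨K, hK⟩ := (hC.z p hr.hp).1 hz.symm
    have h1 := hR' K hK.ec 0
    rw [hK.pt, sub_self, norm_zero] at h1
    have h2 : R = 0 := le_antisymm h1 hR0
    rw [h2, zero_pow h.hν, mul_zero]
    exact hPn
  rcases le_or_gt ε1 (S.Psi a b l ε c p) with hbig | hsm
  · calc min ε1 (c * Real.exp (-ε) / C) * R ^ ν ≤ ε1 * 1 :=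
          mul_le_mul (min_le_left _ _) hRν hRν0 hC.hε1.le
      _ ≤ _ := by rw [mul_one]; exact hbig
  rcases Psi_cases hPpos with ⟨i, hi⟩ | ⟨k, hk⟩
  · obtain ⟨g1, g2, g3⟩ := hC.near p hr.hp i hPpos hi
    have hri := (S.D i).hr
    have h1 : S.nr a l ε i p = Φ p.1 p.2 ^ (a - ν) *
        max (Φ p.1 p.2 ^ ν * (S.D i).P η p.1) (l * (S.D i).Q η p.1 p.2) *
        Real.exp (-(ε / (S.D i).r ^ 2) * ‖(S.D i).t p.1‖ ^ 2) := by
      refine nr_core' (S.fam.hδ i) g1 (by rw [hp1]; exact one_pos) g2.le ?_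
      rw [hp1, one_pow, mul_one]
      exact g3.le
    rw [hp1, one_pow, one_pow, one_mul, one_mul] at h1
    have h2 : Real.exp (-ε) ≤ Real.exp (-(ε / (S.D i).r ^ 2) * ‖(S.D i).t p.1‖ ^ 2) := by
      apply Real.exp_le_exp.2
      rw [neg_mul]
      apply neg_le_neg
      have h3 : ‖(S.D i).t p.1‖ ^ 2 ≤ (S.D i).r ^ 2 :=
        pow_le_pow_left₀ (norm_nonneg _) (by linarith) 2
      calc ε / (S.D i).r ^ 2 * ‖(S.D i).t p.1‖ ^ 2 ≤ ε / (S.D i).r ^ 2 * (S.D i).r ^ 2 :=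
            mul_le_mul_of_nonneg_left h3 (by positivity)
        _ = ε := by field_simp
    have hP0 : 0 ≤ (S.D i).P η p.1 := Dt.P_nonneg _
    have h3 : (S.D i).P η p.1 * Real.exp (-ε) ≤ S.nr a l ε i p := by
      rw [h1]
      exact mul_le_mul (le_max_left _ _) h2 hE.le (hP0.trans (le_max_left _ _))
    have h4 := hCi i p.1 g1 R hR0 (hR' _ (S.D i).hH _)
    calc min ε1 (c * Real.exp (-ε) / C) * R ^ ν ≤ c * Real.exp (-ε) / C * R ^ ν :=
          mul_le_mul_of_nonneg_right (min_le_right _ _) hRν0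
      _ ≤ c * Real.exp (-ε) / C * (C * (S.D i).P η p.1) :=
          mul_le_mul_of_nonneg_left h4 (by positivity)
      _ = c * ((S.D i).P η p.1 * Real.exp (-ε)) := by
          field_simp
      _ ≤ c * S.nr a l ε i p := mul_le_mul_of_nonneg_left h3 hc.le
      _ = S.Psi a b l ε c p := hi
  · exact absurd hk (hC.only p hr.hp hsm.le hPpos k).ne

end Fm

end Pool.Agent.H33
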