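import Pool.Agent.H33.JT2

/-! All entire curves are in the images of finitely many doubly periodic curves. -/

set_option autoImplicit false

open Filter Topology Metric Set MvPolynomial LinearAlgebra.Projectivization

namespace Pool.Agent.H33

open Pool.Agent.Y190.OP Pool.Agent.W602.GT Pool.Agent.N155 Pool.Agent.N155.BB
open Pool.Agent.N154.GG (holP_comp)

variable {n : ℕ} {ι ι' : Type} {F : ι → MvPolynomial (Fin (n + 1)) ℂ}
  {G : ι' → MvPolynomial (Fin (n + 1)) ℂ} {d : ℕ}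
  {κ : Type} {η : κ → (Fin (n + 1) → ℂ) → (Fin (n + 1) → ℂ) → (Fin (n + 1) → ℂ) → ℂ}
  {Φ Ψ : (Fin (n + 1) → ℂ) → (Fin (n + 1) → ℂ) → ℝ} {H : ℂ → Mat (n + 1)} {ν : ℕ}

/-- lifts -/
theorem cur_of_lift (hX : ProjManifold F d) {f : ℂ → ℙ ℂ (Fin (n + 1) → ℂ)} (hf : HolIn F f)
    {V : Set ℂ} {g : ℂ → Fin (n + 1) → ℂ} (hV : IsOpen V) (hg : DifferentiableOn ℂ g V)
    (hfg : ∀ w ∈ V, ∃ h : g w ≠ 0, f w = Projectivization.mk ℂ (g w) h) : Cur F V g := by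
  refine ⟨hV, hg, fun w hw => ?_⟩
  have h1 : Phi (f w).rep ∈ TF F := mem_TF (hf.2 w)
  obtain ⟨h0, he⟩ := hfg w hw
  rw [he, Phi_rep_mk] at h1
  exact (Phi_mem hX.form h0).1 h1

/-- the speed of a doubly periodic curve -/
theorem speed_of_periodic (hX : ProjManifold F d) (hΦ : NonposMetric (Cone F) d Φ)
    (hnd : Nondegenerate (Cone F) d Φ) {h : ℂ → ℙ ℂ (Fin (n + 1) → ℂ)} (hh : HolIn F h)
    (hne : ∃ z w, h z ≠ h w) (hp : DoublyPeriodic h) : ∃ c : ℝ, 0 < c ∧ HasSpeed Φ c h := by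
  obtain ⟨C, hC⟩ := bounded_of_periodic hh hp
  obtain ⟨c, hc, hsp, -⟩ := speed_const hX hΦ hh hC
  rcases hc.eq_or_lt with h0 | h0
  · exfalso
    obtain ⟨z, w, hzw⟩ := hne
    refine hzw (const_of_null hX hΦ hnd hh (z₀ := 0) (Eventually.of_forall fun z => ?_) z w)
    rw [(hasSpeed_iff hX hΦ.twist hh).1 hsp z, h0]
  · exact ⟨c, h0, hsp⟩

theorem isE_of_speed (hX : ProjManifold F d) (hΦ : NonposMetric (Cone F) d Φ)
    {h : ℂ → ℙ ℂ (Fin (n + 1) → ℂ)} (hh : HolIn F h) {c : ℝ} (hc : 0 < c)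
    (hs : HasSpeed Φ c h) {V : Set ℂ} {g : ℂ → Fin (n + 1) → ℂ} (hV : IsOpen V)
    (hg : DifferentiableOn ℂ g V)
    (hfg : ∀ w ∈ V, ∃ h' : g w ≠ 0, h w = Projectivization.mk ℂ (g w) h') {z : ℂ} (hz : z ∈ V) :
    isE F Φ (g z, ((c⁻¹ : ℝ) : ℂ) • deriv g z) := by
  have hci : (((c⁻¹ : ℝ) : ℂ)) ≠ 0 := by exact_mod_cast (inv_pos.2 hc).ne'
  have hlen := (hasSpeed_iff hX hΦ.twist hh).1 hs
  have hP := holP_of_map hh.1
  refine ⟨fun w => Phi (h (z + ((c⁻¹ : ℝ) : ℂ) * w)).rep, ⟨?_, ?_, ?_⟩, ?_, ?_⟩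
  · exact holP_comp hP (f := fun w => z + ((c⁻¹ : ℝ) : ℂ) * w) (by fun_prop)
  · exact fun w => mem_TF (hh.2 _)
  · intro w
    have h1 := len_caff (a := 1) hX hΦ.twist hΦ.deg' hP
        (fun z => mem_TF (hh.2 z)) (s := z) hci w
    rw [hlen, pow_one, Complex.norm_real, Real.norm_of_nonneg (inv_pos.2 hc).le,
      inv_mul_cancel₀ hc.ne'] at h1
    exact h1
  · simp only [mul_zero, add_zero]
    obtain ⟨h0, he⟩ := hfg z hz
    rw [he, Phi_rep_mk]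
  · have h1 : HasDerivAt (fun w : ℂ => z + ((c⁻¹ : ℝ) : ℂ) * w) ((c⁻¹ : ℝ) : ℂ) 0 :=
      hasDerivAt_caff z _ 0
    have hz0 : (fun w : ℂ => z + ((c⁻¹ : ℝ) : ℂ) * w) 0 = z := by simp
    have h2 : HasDerivAt g (deriv g z) ((fun w : ℂ => z + ((c⁻¹ : ℝ) : ℂ) * w) 0) := by
      rw [hz0]
      exact ((hg z hz).differentiableAt (hV.mem_nhds hz)).hasDerivAt
    have h3 : HasDerivAt (fun w => g (z + ((c⁻¹ : ℝ) : ℂ) * w)) (((c⁻¹ : ℝ) : ℂ) • deriv g z) 0 :=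
      HasDerivAt.scomp (0 : ℂ) h2 h1
    have h4 : ∀ᶠ w : ℂ in 𝓝 0, Phi (h (z + ((c⁻¹ : ℝ) : ℂ) * w)).rep =
        Phi (g (z + ((c⁻¹ : ℝ) : ℂ) * w)) := by
      have h5 : ∀ᶠ w : ℂ in 𝓝 0, z + ((c⁻¹ : ℝ) : ℂ) * w ∈ V :=
        h1.continuousAt.eventually (by rw [hz0]; exact hV.mem_nhds hz)
      filter_upwards [h5] with w hw
      obtain ⟨h0, he⟩ := hfg _ hw
      rw [he, Phi_rep_mk]
    have h6 := fderiv_of_curve h3 (by simp only [mul_zero, add_zero]; exact (hfg z hz).1) h4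
    rw [h6]
    simp

/-- the zeros of the weight -/
def ZeroE (F : ι → MvPolynomial (Fin (n + 1)) ℂ)
    (Φ Ψ : (Fin (n + 1) → ℂ) → (Fin (n + 1) → ℂ) → ℝ) : Prop :=
  ∀ x v, Tg F x v → 0 < Φ x v → (Ψ x v = 0 ↔ isE F Φ (x, (((Φ x v)⁻¹ : ℝ) : ℂ) • v))

variable [Fintype κ]

omit [Fintype κ] in
/-- the weight vanishes along all curves -/
theorem null_all (h : Hyp F d Φ η ν) {a : ℕ} (hΨ : NegativeNearZeros (Cone F) d Φ a Ψ)
    (hz : ZeroE F Φ Ψ) {f : ℂ → ℙ ℂ (Fin (n + 1) → ℂ)} (hf : HolIn F f)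
    (hne : ∃ z w, f z ≠ f w) : HasSpeed Ψ 0 f := by
  refine degenerate h.hX (form_G0 n) h.hη' (noBC_G0 F) h.hΦ h.hnd hΨ ?_ hf hne
  intro k hk hkne hkp V g hV hg hfg z hzV
  obtain ⟨c, hc, hs⟩ := speed_of_periodic h.hX h.hΦ h.hnd hk hkne hkp
  have hT := (cur_of_lift h.hX hk hV hg hfg).tg hzV
  have h1 : Φ (g z) (deriv g z) = c := hs V g hV hg hfg z hzV
  have h2 := hz _ _ hT (by
    change 0 < Φ (g z) (deriv g z)
    rw [h1]
    exact hc)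
  refine h2.2 ?_
  change isE F Φ (g z, (((Φ (g z) (deriv g z))⁻¹ : ℝ) : ℂ) • deriv g z)
  rw [h1]
  exact isE_of_speed h.hX h.hΦ hk hc hs hV hg hfg hzV

/-- the tangent vectors of all curves are jets -/
theorem isE_all (h : Hyp F d Φ η ν) {f : ℂ → ℙ ℂ (Fin (n + 1) → ℂ)} (hf : HolIn F f)
    (hne : ∃ z w, f z ≠ f w) {V : Set ℂ} {g : ℂ → Fin (n + 1) → ℂ} (hV : IsOpen V)
    (hg : DifferentiableOn ℂ g V)
    (hfg : ∀ w ∈ V, ∃ h' : g w ≠ 0, f w = Projectivization.mk ℂ (g w) h') {z : ℂ} (hz : z ∈ V)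
    (hpos : 0 < Φ (g z) (deriv g z)) :
    isE F Φ (g z, (((Φ (g z) (deriv g z))⁻¹ : ℝ) : ℂ) • deriv g z) := by
  obtain ⟨a, Ψ, -, hΨ, hze⟩ := exists_weight h
  have h1 := null_all h hΨ hze hf hne V g hV hg hfg z hz
  exact (hze _ _ ((cur_of_lift h.hX hf hV hg hfg).tg hz) hpos).1 h1

/-- **The images.** -/
theorem covered (h : Hyp F d Φ η ν) : ∃ S : Set (ℂ → Mat (n + 1)), S.Finite ∧
      (∀ h ∈ S, Ec F Φ h ∧ ∃ L : PeriodPair, ∀ l ∈ L.lattice, ∀ z, h (z + l) = h z) ∧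
      (∀ H, Ec F Φ H → ∃ h ∈ S, ∃ s l : ℂ, ‖l‖ = 1 ∧ ∀ z, H z = h (s + l * z)) ∧
      ∀ f : ℂ → ℙ ℂ (Fin (n + 1) → ℂ), HolIn F f → (∃ z w, f z ≠ f w) →
        ∀ z, ∃ h ∈ S, ∃ w, Phi (f z).rep = h w := by
  obtain ⟨S, hSf, hS, hlist⟩ := exists_list h.hX (form_G0 n) h.hη' (noBC_G0 F) h.hΦ h.hnd
  refine ⟨S, hSf, hS, hlist, fun f hf hne z => ?_⟩
  set φ : ℂ → Mat (n + 1) := fun z => Phi (f z).rep with hφ
  have hhol : HolP univ φ := holP_of_map hf.1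
  have hcφ : Continuous φ := continuous_iff_continuousAt.2 fun _ => hhol.continuousAt (mem_univ _)
  obtain ⟨c0, C0, hc0, hC0, hcC⟩ := len_le_ge h.hX h.hΦ h.hnd
  set Z : Set (Mat (n + 1)) := ⋃ h ∈ S, range h with hZ
  have hZc : IsCompact Z := by
    refine hSf.isCompact_biUnion fun k hk => ?_
    obtain ⟨hE, L, hL⟩ := hS k hk
    exact IsZLattice.isCompact_range_of_periodic L.lattice k hE.cont fun z w hw => hL w hw z
  have key : ∀ z, fderiv ℝ φ z ≠ 0 → φ z ∈ Z := by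
    intro z hz'
    obtain ⟨V, g, hV, hzV, hg, hfg⟩ := hf.1 z
    have hpos : 0 < Φ (g z) (deriv g z) := by
      rw [len_lift h.hX h.hΦ.twist hf hV hg hfg hzV]
      exact (mul_pos hc0 (norm_pos_iff.2 hz')).trans_le
        (hcC φ hhol (fun z => mem_TF (hf.2 z)) z).1
    obtain ⟨K, hK⟩ := isE_all h hf hne hV hg hfg hzV hpos
    obtain ⟨k, hk, s, l, hl, hKk⟩ := hlist K hK.ec
    have h1 : φ z = k s := by
      have h2 := hKk 0
      rw [mul_zero, add_zero, hK.pt] at h2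
      rw [← h2, hφ]
      simp only
      obtain ⟨h0, he⟩ := hfg z hzV
      rw [he, Phi_rep_mk]
    rw [h1]
    exact mem_biUnion hk (mem_range_self s)
  have hcl : IsClosed {z | φ z ∈ Z} := hZc.isClosed.preimage hcφ
  have hall : φ z ∈ Z := by
    by_contra hcon
    have hev : ∀ᶠ w in 𝓝 z, fderiv ℝ φ w = 0 := by
      filter_upwards [hcl.isOpen_compl.mem_nhds hcon] with w hw
      by_contra h1
      exact hw (key w h1)
    have h2 := const_of_fderiv hhol hev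
    obtain ⟨a, b, hab⟩ := hne
    apply hab
    apply proj_ext
    exact (h2 a).trans (h2 b).symm
  rw [hZ] at hall
  simp only [mem_iUnion, mem_range] at hall
  obtain ⟨k, hk, w, hw⟩ := hall
  exact ⟨k, hk, w, hw.symm⟩

end Pool.Agent.H33
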