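import Pool.Agent.H33.HDefs
import Pool.Agent.H33.JJ

/-! Uniqueness of curves of speed one with given derivatives at a point. -/

set_option autoImplicit false

open Filter Topology Metric Set MvPolynomial LinearAlgebra.Projectivization

namespace Pool.Agent.H33

open Pool.Agent.Y190.OP Pool.Agent.W602.GT Pool.Agent.N155 Pool.Agent.N155.BB

/-- analytic functions are small compared to their derivatives near zeros -/
theorem an_bound {E : Type*} [NormedAddCommGroup E] [NormedSpace ℂ E] [CompleteSpace E] {δ : ℂ → E}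
    (hδ : AnalyticAt ℂ δ 0) (h0 : δ 0 = 0) (hne : ¬ ∀ᶠ z in 𝓝 0, δ z = 0) :
    ∃ C : ℝ, 0 < C ∧ ∀ᶠ t in 𝓝 (0 : ℂ), ‖δ t‖ ≤ C * ‖t‖ * ‖deriv δ t‖ ∧
      (t ≠ 0 → deriv δ t ≠ 0) := by
  obtain ⟨m, g, hg, hg0, hev⟩ := hδ.exists_eventuallyEq_pow_smul_nonzero_iff.2 hne
  have hm : m ≠ 0 := by
    rintro rfl
    have h1 := hev.self_of_nhds
    rw [h0, pow_zero, one_smul] at h1
    exact hg0 h1.symm
  set γ : ℂ → E := fun t => (m : ℂ) • g t + t • deriv g t with hγ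
  have hγc : ContinuousAt γ 0 :=
    (hg.continuousAt.const_smul (m : ℂ)).add (continuousAt_id.smul hg.deriv.continuousAt)
  have hγ0 : γ 0 ≠ 0 := by
    rw [hγ]
    simp only [zero_smul, add_zero]
    exact smul_ne_zero (Nat.cast_ne_zero.2 hm) hg0
  have hγn : 0 < ‖γ 0‖ := norm_pos_iff.2 hγ0
  have hgn : 0 < ‖g 0‖ := norm_pos_iff.2 hg0
  have e1 : ∀ᶠ t in 𝓝 (0 : ℂ), ‖γ 0‖ / 2 < ‖γ t‖ :=
    hγc.norm.eventually (lt_mem_nhds (by linarith))
  have e2 : ∀ᶠ t in 𝓝 (0 : ℂ), ‖g t‖ < 2 * ‖g 0‖ :=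
    hg.continuousAt.norm.eventually (gt_mem_nhds (by linarith))
  have e3 : ∀ᶠ t in 𝓝 (0 : ℂ), t • deriv δ t = t ^ m • γ t := by
    filter_upwards [hev.eventually_nhds, hg.eventually_analyticAt] with t ht hgt
    have h1 : HasDerivAt (fun z : ℂ => (z - 0) ^ m • g z)
        ((t - 0) ^ m • deriv g t + ((m : ℂ) * (t - 0) ^ (m - 1) * 1) • g t) t :=
      HasDerivAt.smul (((hasDerivAt_id t).sub_const 0).pow m) hgt.differentiableAt.hasDerivAt
    have h2 : deriv δ t = (t - 0) ^ m • deriv g t + ((m : ℂ) * (t - 0) ^ (m - 1) * 1) • g t :=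
      (Filter.EventuallyEq.deriv_eq ht).trans h1.deriv
    rw [h2, hγ]
    simp only
    rw [sub_zero, mul_one, smul_add, smul_add, smul_smul, smul_smul, smul_smul, smul_smul]
    have h3 : t * ((m : ℂ) * t ^ (m - 1)) = t ^ m * (m : ℂ) := by
      obtain ⟨k, rfl⟩ := Nat.exists_eq_succ_of_ne_zero hm
      rw [Nat.succ_eq_add_one, Nat.add_sub_cancel, pow_succ]
      ring
    rw [h3, add_comm]
    congr 2
    ring
  refine ⟨2 * ‖g 0‖ / (‖γ 0‖ / 2), by positivity, ?_⟩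
  filter_upwards [e1, e2, e3, hev] with t h1 h2 h3 h4
  have h5 : ‖t‖ * ‖deriv δ t‖ = ‖t‖ ^ m * ‖γ t‖ := by
    rw [← norm_smul, h3, norm_smul, norm_pow]
  constructor
  · rw [h4, sub_zero, norm_smul, norm_pow, mul_assoc, h5]
    calc ‖t‖ ^ m * ‖g t‖ ≤ ‖t‖ ^ m * (2 * ‖g 0‖) :=
          mul_le_mul_of_nonneg_left h2.le (by positivity)
      _ = 2 * ‖g 0‖ / (‖γ 0‖ / 2) * (‖t‖ ^ m * (‖γ 0‖ / 2)) := by
          field_simp
      _ ≤ 2 * ‖g 0‖ / (‖γ 0‖ / 2) * (‖t‖ ^ m * ‖γ t‖) := by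
          gcongr
  · intro ht h6
    rw [h6, norm_zero, mul_zero] at h5
    have h7 : 0 < ‖t‖ := norm_pos_iff.2 ht
    have h8 : 0 < ‖γ t‖ := by linarith
    have h9 : 0 < ‖t‖ ^ m * ‖γ t‖ := by positivity
    linarith

variable {n : ℕ} {ι ι' : Type} {F : ι → MvPolynomial (Fin (n + 1)) ℂ}
  {G : ι' → MvPolynomial (Fin (n + 1)) ℂ} {d : ℕ}
  {Φ Ψ : (Fin (n + 1) → ℂ) → (Fin (n + 1) → ℂ) → ℝ} {H : ℂ → Mat (n + 1)} {ν : ℕ}

/-- subharmonic functions do not have strict maxima -/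
theorem no_strict_max {w : ℂ → ℝ} {V : Set ℂ} (hw : LogSubharmonic w V) {r : ℝ} (hr : 0 < r)
    (hV : closedBall 0 r ⊆ V) (h0 : w 0 = 1) (h1 : ∀ z ∈ sphere (0 : ℂ) r, w z < 1) : False := by
  have hcs : IsCompact (sphere (0 : ℂ) r) := isCompact_sphere _ _
  have hne : (sphere (0 : ℂ) r).Nonempty := ⟨(r : ℂ), by
    rw [mem_sphere_zero_iff_norm, Complex.norm_real, Real.norm_of_nonneg hr.le]⟩
  obtain ⟨z1, hz1, hmax⟩ := hcs.exists_isMaxOn hne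
    ((hw.cont.mono hV).mono sphere_subset_closedBall)
  have h2 := hw.mean 0 r (1 / 2) hr hV (by norm_num)
  rw [h0, max_eq_left (by norm_num), Real.log_one] at h2
  have h3 : Real.circleAverage (fun z => Real.log (max (w z) (1 / 2))) 0 r ≤
      Real.log (max (w z1) (1 / 2)) := by
    apply Real.circleAverage_mono_on_of_le_circle
    · apply ContinuousOn.circleIntegrable'
      rw [abs_of_pos hr]
      apply ContinuousOn.log
      · exact ((hw.cont.mono hV).mono sphere_subset_closedBall).sup continuousOn_const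
      · intro z _
        exact (lt_of_lt_of_le (by norm_num) (le_max_right _ _)).ne'
    · intro z hz
      rw [abs_of_pos hr] at hz
      apply Real.log_le_log (lt_of_lt_of_le (by norm_num) (le_max_right _ _))
      exact max_le_max (hmax hz) le_rfl
  have h4 : Real.log (max (w z1) (1 / 2)) < 0 := by
    apply Real.log_neg (lt_of_lt_of_le (by norm_num) (le_max_right _ _))
    exact max_lt (h1 z1 hz1) (by norm_num)
  linarith

/-- **Uniqueness.** -/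
theorem uniq_of_convex (hX : ProjManifold F d) (hΦ : NonposMetric (Cone F) d Φ)
    (hcx : UniformlyConvex (Cone F) d Φ) : UniqJ F Φ := by
  intro H K hH hK h0 h1
  obtain ⟨c, hO⟩ := exists_ch (F := F) (d := d) hX (hH.mem 0)
  have hOK : K 0 ∈ c.O := by rw [← h0]; exact hO
  have hζ1 := Ch.ζ_an (c := c) hH.hol hO
  have hζ2 := Ch.ζ_an (c := c) hK.hol hOK
  have hU0 := Ch.ζ_mem (c := c) (H := H) hO
  set x := c.Θ (c.ζ H 0) with hx
  set a0 := deriv (c.ζ H) 0 with ha0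
  set v := fderiv ℂ c.Θ (c.ζ H 0) a0 with hv
  have hxd : x ∈ c.dom := Ch.dom_ζ hO (hH.mem 0)
  have hT : Tg F x v := Ch.tg hU0 a0
  have hax : c.a x v = a0 := Ch.a_Θ hU0 a0
  have hj1 : EJ F Φ H x v := by
    refine EJ.of_chart hH hT hxd (Ch.Phi_ζ hO (hH.mem 0)).symm ?_
    rw [hax]
    exact hζ1.differentiableAt.hasDerivAt
  have hj2 : EJ F Φ K x v := ⟨hK, h0.symm.trans hj1.pt, h1.symm.trans hj1.der⟩
  have hd2 := hj2.hasDeriv hxd
  rw [hax] at hd2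
  have hz2 : c.ζ K 0 = c.ζ H 0 := by
    rw [Ch.ζ_of hxd hj2.pt, Ch.ζ_of hxd hj1.pt]
  have ha0ne : a0 ≠ 0 := hH.deriv_ne hX hΦ hO
  have hev1 := hH.ev_O (c := c) hO
  have hev2 := hK.ev_O (c := c) hOK
  set δ : ℂ → Fin d → ℂ := fun t => c.ζ H t - c.ζ K t with hδ
  have hδan : AnalyticAt ℂ δ 0 := hζ1.sub hζ2
  have hδ0 : δ 0 = 0 := by rw [hδ]; simp only; rw [hz2, sub_self]
  by_cases hcase : ∀ᶠ z in 𝓝 0, δ z = 0
  · intro z
    refine holP_ext hH.hol hK.hol (z0 := 0) ?_ z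
    filter_upwards [hcase, hev1, hev2] with t ht ht1 ht2
    rw [← Ch.Phi_ζ ht1 (hH.mem t), ← Ch.Phi_ζ ht2 (hK.mem t), sub_eq_zero.1 ht]
  exfalso
  obtain ⟨C', hC'0, hC'⟩ := an_bound hδan hδ0 hcase
  -- the derivative of `δ`
  have hδd : ∀ᶠ t in 𝓝 (0 : ℂ), deriv δ t = deriv (c.ζ H) t - deriv (c.ζ K) t := by
    filter_upwards [hζ1.eventually_analyticAt, hζ2.eventually_analyticAt] with t g1 g2
    exact (g1.differentiableAt.hasDerivAt.sub g2.differentiableAt.hasDerivAt).deriv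
  obtain ⟨m, C, hm, hconv⟩ := hcx c.U c.Θ c.hU c.an (fun z hz => (c.mem z hz).1)
    (fun z hz b hb => Ch.indep hz hb) (c.ζ H 0) hU0 a0 ha0ne
  have hpc : ContinuousAt (fun t => ((c.ζ H t, deriv (c.ζ H) t), (c.ζ K t, deriv (c.ζ K) t))) 0 :=
    (hζ1.continuousAt.prodMk hζ1.deriv.continuousAt).prodMk
      (hζ2.continuousAt.prodMk hζ2.deriv.continuousAt)
  have hconv' := hpc.eventually (p := fun p => Φ (c.Θ ((2⁻¹ : ℂ) • (p.1.1 + p.2.1)))
            (fderiv ℂ c.Θ ((2⁻¹ : ℂ) • (p.1.1 + p.2.1)) ((2⁻¹ : ℂ) • (p.1.2 + p.2.2))) ^ 2 ≤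
          (Φ (c.Θ p.1.1) (fderiv ℂ c.Θ p.1.1 p.1.2) ^ 2 +
            Φ (c.Θ p.2.1) (fderiv ℂ c.Θ p.2.1 p.2.2) ^ 2) / 2 -
            m * ‖p.1.2 - p.2.2‖ ^ 2 +
            C * ‖p.1.1 - p.2.1‖ * (‖p.1.2 - p.2.2‖ + ‖p.1.1 - p.2.1‖)) (by
      simp only
      rw [hz2, hd2.deriv]
      exact hconv)
  -- the mean curve
  set w : ℂ → Fin d → ℂ := fun t => (2⁻¹ : ℂ) • (c.ζ H t + c.ζ K t) with hw
  have hwan : AnalyticAt ℂ w 0 := by
    have e1 : AnalyticAt ℂ (fun _ : ℂ => (2⁻¹ : ℂ)) 0 := analyticAt_const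
    exact e1.smul (hζ1.add hζ2)
  have hw0 : w 0 = c.ζ H 0 := by
    rw [hw]
    simp only
    rw [hz2, ← two_smul ℂ, smul_smul, inv_mul_cancel₀ two_ne_zero, one_smul]
  have hwU : ∀ᶠ t in 𝓝 (0 : ℂ), w t ∈ c.U :=
    hwan.continuousAt.eventually (by rw [hw0]; exact c.hU.mem_nhds hU0)
  have hwd : ∀ᶠ t in 𝓝 (0 : ℂ), HasDerivAt w
      ((2⁻¹ : ℂ) • (deriv (c.ζ H) t + deriv (c.ζ K) t)) t := by
    filter_upwards [hζ1.eventually_analyticAt, hζ2.eventually_analyticAt] with t g1 g2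
    exact (g1.differentiableAt.hasDerivAt.add g2.differentiableAt.hasDerivAt).const_smul
      (2⁻¹ : ℂ)
  set g : ℂ → Fin (n + 1) → ℂ := fun t => c.Θ (w t) with hg
  have hsmall : ∀ᶠ t in 𝓝 (0 : ℂ), |C| * C' * ‖t‖ * (1 + C' * ‖t‖) < m := by
    have : ContinuousAt (fun t : ℂ => |C| * C' * ‖t‖ * (1 + C' * ‖t‖)) 0 := by fun_prop
    refine this.eventually (gt_mem_nhds ?_)
    simpa using hm
  have hlt : ∀ᶠ t in 𝓝 (0 : ℂ), t ≠ 0 →
      Φ (g t) (fderiv ℂ c.Θ (w t) ((2⁻¹ : ℂ) • (deriv (c.ζ H) t + deriv (c.ζ K) t))) < 1 := by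
    filter_upwards [hconv', hC', hδd, hsmall, hev1, hev2] with t g1 g2 g3 g4 g5 g6 ht
    rw [hH.speed hX hΦ g5, hK.speed hX hΦ g6, ← g3] at g1
    have g7 : ‖c.ζ H t - c.ζ K t‖ ≤ C' * ‖t‖ * ‖deriv δ t‖ := g2.1
    have g8 : 0 < ‖deriv δ t‖ := norm_pos_iff.2 (g2.2 ht)
    have g9 : C * ‖c.ζ H t - c.ζ K t‖ * (‖deriv δ t‖ + ‖c.ζ H t - c.ζ K t‖) ≤
        |C| * (C' * ‖t‖ * ‖deriv δ t‖) * (‖deriv δ t‖ + C' * ‖t‖ * ‖deriv δ t‖) := by
      have := le_abs_self C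
      gcongr
    have g10 : |C| * (C' * ‖t‖ * ‖deriv δ t‖) * (‖deriv δ t‖ + C' * ‖t‖ * ‖deriv δ t‖) =
        |C| * C' * ‖t‖ * (1 + C' * ‖t‖) * ‖deriv δ t‖ ^ 2 := by ring
    have g11 := mul_lt_mul_of_pos_right g4 (show 0 < ‖deriv δ t‖ ^ 2 by positivity)
    have g12 : Φ (g t) (fderiv ℂ c.Θ (w t)
        ((2⁻¹ : ℂ) • (deriv (c.ζ H) t + deriv (c.ζ K) t))) ^ 2 < 1 := by
      refine lt_of_le_of_lt g1 ?_
      norm_num
      linarith
    by_contra hcon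
    have := one_le_pow₀ (not_lt.1 hcon) (n := 2)
    linarith
  obtain ⟨ρ, hρ, hball⟩ := Metric.eventually_nhds_iff_ball.1
    (hwU.and (hwd.and (hlt.and hwan.eventually_analyticAt)))
  have hgd : ∀ t ∈ ball (0 : ℂ) ρ, HasDerivAt g (fderiv ℂ c.Θ (w t)
      ((2⁻¹ : ℂ) • (deriv (c.ζ H) t + deriv (c.ζ K) t))) t := fun t ht =>
    (c.an _ (hball t ht).1).differentiableAt.hasFDerivAt.comp_hasDerivAt t (hball t ht).2.1
  have hsub := hΦ.curv (ball 0 ρ) g isOpen_ball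
    (fun t ht => (hgd t ht).differentiableAt.differentiableWithinAt)
    (fun t ht => (c.mem _ (hball t ht).1).1)
  refine no_strict_max hsub (r := ρ / 2) (by positivity) (closedBall_subset_ball (by linarith))
    ?_ ?_
  · rw [(hgd 0 (mem_ball_self hρ)).deriv, hg]
    simp only
    rw [hw0, hd2.deriv, ← two_smul ℂ, smul_smul, inv_mul_cancel₀ two_ne_zero, one_smul]
    exact hH.speed hX hΦ hO
  · intro t ht
    have ht1 : ‖t‖ = ρ / 2 := mem_sphere_zero_iff_norm.1 ht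
    have ht2 : t ∈ ball (0 : ℂ) ρ := by
      rw [mem_ball_zero_iff, ht1]
      linarith
    rw [(hgd t ht2).deriv]
    refine (hball t ht2).2.2.1 ?_
    intro h
    rw [h, norm_zero] at ht1
    linarith

end Pool.Agent.H33
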