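import Pool.Agent.H33.JU

/-! Lifts of curves to the universal coverings of elliptic curves. -/

set_option autoImplicit false

open Filter Topology Metric Set MvPolynomial LinearAlgebra.Projectivization

namespace Pool.Agent.H33

open Pool.Agent.Y190.OP Pool.Agent.W602.GT Pool.Agent.N155 Pool.Agent.N155.BB
open Pool.Agent.N154.GG (holP_comp)

variable {n : ℕ} {ι ι' : Type} {F : ι → MvPolynomial (Fin (n + 1)) ℂ}
  {G : ι' → MvPolynomial (Fin (n + 1)) ℂ} {d : ℕ}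
  {κ : Type} {η : κ → (Fin (n + 1) → ℂ) → (Fin (n + 1) → ℂ) → (Fin (n + 1) → ℂ) → ℂ}
  {Φ Ψ : (Fin (n + 1) → ℂ) → (Fin (n + 1) → ℂ) → ℝ} {H : ℂ → Mat (n + 1)} {ν : ℕ}

/-- germs of lifts -/
def Germ (P K : ℂ → Mat (n + 1)) (z t : ℂ) : Prop :=
  ∃ τ : ℂ → ℂ, AnalyticAt ℂ τ z ∧ τ z = t ∧ ∀ᶠ w in 𝓝 z, P w = K (τ w)

/-- lifts -/
def Lift (P K : ℂ → Mat (n + 1)) (W : Set ℂ) (τ : ℂ → ℂ) : Prop :=
  DifferentiableOn ℂ τ W ∧ ∀ w ∈ W, P w = K (τ w)

theorem Lift.germ {P K : ℂ → Mat (n + 1)} {W : Set ℂ} {τ : ℂ → ℂ} (h : Lift P K W τ)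
    (hW : IsOpen W) {z : ℂ} (hz : z ∈ W) : Germ P K z (τ z) := by
  refine ⟨τ, h.1.analyticAt (hW.mem_nhds hz), rfl, ?_⟩
  filter_upwards [hW.mem_nhds hz] with w hw
  exact h.2 w hw

theorem Lift.mono {P K : ℂ → Mat (n + 1)} {W W' : Set ℂ} {τ : ℂ → ℂ} (h : Lift P K W τ)
    (hW : W' ⊆ W) : Lift P K W' τ := ⟨h.1.mono hW, fun w hw => h.2 w (hW hw)⟩

/-- curves of speed one are locally injective -/
theorem Ec.inj (hX : ProjManifold F d) (hΦ : NonposMetric (Cone F) d Φ) {K : ℂ → Mat (n + 1)}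
    (hK : Ec F Φ K) (t : ℂ) : ∃ r : ℝ, 0 < r ∧ ∀ s s', ‖s - t‖ < r → ‖s' - t‖ < r →
      K s = K s' → s = s' := by
  have h1 := hK.caff hX hΦ t (l := 1) norm_one
  obtain ⟨D, hD⟩ := exists_dt hX hΦ h1
  have hr := D.hr
  refine ⟨2 * D.r, by positivity, fun s s' hs hs' hKs => ?_⟩
  obtain ⟨g1, g2, g3⟩ := D.line (s - t) hs
  obtain ⟨g1', g2', g3'⟩ := D.line (s' - t) hs'
  have e1 : D.H (s - t) = K s := by
    rw [hD]
    simp only
    congr 1
    ring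
  have e2 : D.H (s' - t) = K s' := by
    rw [hD]
    simp only
    congr 1
    ring
  have e3 : D.c.ζ D.H (s - t) = D.c.ζ D.H (s' - t) := by
    unfold Ch.ζ
    rw [e1, e2, hKs]
  have e4 : s - t = s' - t := by rw [← g3, ← g3', e3]
  linear_combination e4

/-- uniqueness of lifts -/
theorem lift_uniq (hX : ProjManifold F d) (hΦ : NonposMetric (Cone F) d Φ) {P K : ℂ → Mat (n + 1)}
    (hK : Ec F Φ K) {W : Set ℂ} (hW : IsOpen W) (hWc : IsPreconnected W) {τ τ' : ℂ → ℂ}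
    (h : Lift P K W τ) (h' : Lift P K W τ') {z : ℂ} (hz : z ∈ W) (he : τ z = τ' z) :
    ∀ w ∈ W, τ w = τ' w := by
  obtain ⟨r, hr, hinj⟩ := hK.inj hX hΦ (τ z)
  have a1 : AnalyticOnNhd ℂ τ W := fun w hw => h.1.analyticAt (hW.mem_nhds hw)
  have a2 : AnalyticOnNhd ℂ τ' W := fun w hw => h'.1.analyticAt (hW.mem_nhds hw)
  have e1 : ∀ᶠ w in 𝓝 z, ‖τ w - τ z‖ < r := by
    have := (a1 z hz).continuousAt.sub_const (τ z)
    refine this.norm.eventually (gt_mem_nhds ?_)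
    simpa using hr
  have e2 : ∀ᶠ w in 𝓝 z, ‖τ' w - τ z‖ < r := by
    have := (a2 z hz).continuousAt.sub_const (τ z)
    refine this.norm.eventually (gt_mem_nhds ?_)
    simpa [he] using hr
  refine a1.eqOn_of_preconnected_of_eventuallyEq a2 hWc hz ?_
  filter_upwards [e1, e2, hW.mem_nhds hz] with w h1 h2 h3
  exact hinj _ _ h1 h2 ((h.2 w h3).symm.trans (h'.2 w h3))

/-- lifts near a point -/
theorem lift_near (hX : ProjManifold F d) (hΦ : NonposMetric (Cone F) d Φ) {P K : ℂ → Mat (n + 1)}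
    (hK : Ec F Φ K) (hP : HolP univ P) (hPT : ∀ z, P z ∈ TF F) (z1 t1 : ℂ) :
    ∃ δ : ℝ, 0 < δ ∧ ∀ z t, ‖z - z1‖ < δ → ‖t - t1‖ < δ → Germ P K z t →
      ∃ τ, Lift P K (ball z δ) τ ∧ τ z = t := by
  have hPc : Continuous P := continuous_iff_continuousAt.2 fun _ => hP.continuousAt (mem_univ _)
  by_cases hcase : P z1 = K t1
  · have h1 := hK.caff hX hΦ t1 (l := 1) norm_one
    obtain ⟨D, hD⟩ := exists_dt hX hΦ h1
    have hr := D.hr
    have hρ := D.hρ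
    have hDK : ∀ s, D.H s = K (t1 + s) := fun s => by
      rw [hD]
      simp only
      congr 1
      ring
    have hP1 : P z1 = D.H 0 := by rw [hDK, add_zero, hcase]
    have hO1 : P z1 ∈ D.c.O := by
      rw [hP1]
      exact (D.line 0 (by rw [norm_zero]; positivity)).1
    have hζ1 : D.c.ζ P z1 = D.c.ζ D.H 0 := by
      unfold Ch.ζ
      rw [hP1]
    have hcζ : ContinuousAt (D.c.ζ P) z1 := (Ch.ζ_an hP hO1).continuousAt
    obtain ⟨δ1, hδ1, hball⟩ := Metric.eventually_nhds_iff_ball.1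
      ((hPc.continuousAt.eventually (D.c.hO.mem_nhds hO1)).and
        (hcζ.eventually (p := fun w => w ∈ Metric.ball (D.c.ζ D.H 0) D.ρ)
          (by rw [hζ1]; exact ball_mem_nhds _ hρ)))
    have hB : ∀ w ∈ ball z1 δ1, D.c.ζ P w ∈ D.B := fun w hw =>
      ball_subset_closedBall (hball w hw).2
    have hζan : ∀ w ∈ ball z1 δ1, AnalyticAt ℂ (D.c.ζ P) w := fun w hw =>
      Ch.ζ_an hP (hball w hw).1
    set T : ℂ → ℂ := fun w => t1 + D.tt (D.c.ζ P w) with hT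
    have hTan : ∀ w ∈ ball z1 δ1, AnalyticAt ℂ T w := fun w hw =>
      analyticAt_const.add (AnalyticAt.comp (g := D.tt) (D.ball _ (hB w hw)).2.2.1 (hζan w hw))
    have hYan : AnalyticOnNhd ℂ (fun w => D.Y (D.c.ζ P w)) (ball z1 δ1) := fun w hw =>
      AnalyticAt.comp (g := D.Y) (Dt.Y_an (hB w hw)) (hζan w hw)
    refine ⟨min (δ1 / 2) D.r, by positivity, fun z t hz ht hgerm => ?_⟩
    obtain ⟨τ, hτ, hτz, hτP⟩ := hgerm
    have hz' : ‖z - z1‖ < δ1 / 2 := hz.trans_le (min_le_left _ _)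
    have ht' : ‖t - t1‖ < D.r := ht.trans_le (min_le_right _ _)
    have hzb : z ∈ ball z1 δ1 := by
      rw [mem_ball, dist_eq_norm]
      linarith
    have hev : ∀ᶠ w in 𝓝 z, T w = τ w ∧ D.Y (D.c.ζ P w) = 0 := by
      have e1 : ∀ᶠ w in 𝓝 z, ‖τ w - t1‖ < 2 * D.r := by
        have := hτ.continuousAt.sub_const t1
        refine this.norm.eventually (gt_mem_nhds ?_)
        rw [hτz]
        linarith
      filter_upwards [e1, hτP] with w g1 g2
      obtain ⟨f1, f2, f3⟩ := D.line _ g1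
      have e2 : D.c.ζ P w = D.c.ζ D.H (τ w - t1) := by
        have e0 : t1 + (τ w - t1) = τ w := by ring
        unfold Ch.ζ
        rw [hDK, g2, e0]
      constructor
      · rw [hT]
        simp only
        rw [e2, f3]
        ring
      · unfold Dt.Y
        rw [e2, f3, sub_self]
    have hY0 : ∀ w ∈ ball z1 δ1, D.Y (D.c.ζ P w) = 0 := by
      have h2 := hYan.eqOn_zero_of_preconnected_of_eventuallyEq_zero
        (convex_ball z1 δ1).isPreconnected hzb (by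
          filter_upwards [hev] with w hw
          exact hw.2)
      exact fun w hw => h2 hw
    have hsub : ball z (min (δ1 / 2) D.r) ⊆ ball z1 δ1 := by
      intro w hw
      rw [mem_ball, dist_eq_norm] at hw ⊢
      have h2 : ‖w - z‖ < δ1 / 2 := hw.trans_le (min_le_left _ _)
      have h3 : w - z1 = (w - z) + (z - z1) := by ring
      rw [h3]
      refine (norm_add_le _ _).trans_lt ?_
      linarith
    refine ⟨T, ⟨fun w hw => (hTan w (hsub hw)).differentiableAt.differentiableWithinAt,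
      fun w hw => ?_⟩, hev.self_of_nhds.1.trans hτz⟩
    have hwb := hsub hw
    have hO := (D.ball _ (hB w hwb)).2.2.2.1
    have h2 : D.c.ζ P w = D.c.ζ D.H (D.tt (D.c.ζ P w)) := sub_eq_zero.1 (hY0 w hwb)
    have h3 : P w = D.H (D.tt (D.c.ζ P w)) := by
      rw [← Ch.Phi_ζ (hball w hwb).1 (hPT w), ← Ch.Phi_ζ hO (D.hH.mem _), ← h2]
    rw [h3, hDK]
  · have hKc := hK.cont
    have h1 : ∀ᶠ p : ℂ × ℂ in 𝓝 (z1, t1), P p.1 ≠ K p.2 := by
      have h2 : IsOpen {p : ℂ × ℂ | P p.1 ≠ K p.2} :=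
        isOpen_ne_fun (hPc.comp continuous_fst) (hKc.comp continuous_snd)
      exact h2.mem_nhds hcase
    obtain ⟨δ, hδ, hball⟩ := Metric.eventually_nhds_iff_ball.1 h1
    refine ⟨δ, hδ, fun z t hz ht hgerm => ?_⟩
    obtain ⟨τ, hτ, hτz, hτP⟩ := hgerm
    have h2 := hτP.self_of_nhds
    rw [hτz] at h2
    refine absurd h2 (hball (z, t) ?_)
    rw [mem_ball, Prod.dist_eq, dist_eq_norm, dist_eq_norm]
    exact max_lt hz ht

/-- uniform lifts -/
theorem lift_unif (hX : ProjManifold F d) (hΦ : NonposMetric (Cone F) d Φ) {P K : ℂ → Mat (n + 1)}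
    (hK : Ec F Φ K) (hKp : ∃ L : PeriodPair, ∀ l ∈ L.lattice, ∀ z, K (z + l) = K z)
    (hP : HolP univ P) (hPT : ∀ z, P z ∈ TF F) (R : ℝ) :
    ∃ δ : ℝ, 0 < δ ∧ ∀ z t, ‖z‖ ≤ R → Germ P K z t →
      ∃ τ, Lift P K (ball z δ) τ ∧ τ z = t := by
  obtain ⟨L, hL⟩ := hKp
  set M : ℝ := ‖L.ω₁‖ + ‖L.ω₂‖ with hM
  have key : ∃ δ : ℝ, 0 < δ ∧ ∀ p ∈ closedBall (0 : ℂ) R ×ˢ closedBall (0 : ℂ) M,
      Germ P K p.1 p.2 → ∃ τ, Lift P K (ball p.1 δ) τ ∧ τ p.1 = p.2 := by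
    refine ((isCompact_closedBall (0 : ℂ) R).prod (isCompact_closedBall (0 : ℂ) M)).induction_on
      (p := fun s => ∃ δ : ℝ, 0 < δ ∧ ∀ p ∈ s, Germ P K p.1 p.2 →
        ∃ τ, Lift P K (ball p.1 δ) τ ∧ τ p.1 = p.2) ?_ ?_ ?_ ?_
    · exact ⟨1, one_pos, fun p hp => absurd hp (notMem_empty _)⟩
    · rintro s s' hss ⟨δ, hδ, h1⟩
      exact ⟨δ, hδ, fun p hp => h1 p (hss hp)⟩
    · rintro s s' ⟨δ, hδ, h1⟩ ⟨δ', hδ', h1'⟩
      refine ⟨min δ δ', lt_min hδ hδ', ?_⟩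
      rintro p (hp | hp) hg
      · obtain ⟨τ, h2, h3⟩ := h1 p hp hg
        exact ⟨τ, h2.mono (ball_subset_ball (min_le_left _ _)), h3⟩
      · obtain ⟨τ, h2, h3⟩ := h1' p hp hg
        exact ⟨τ, h2.mono (ball_subset_ball (min_le_right _ _)), h3⟩
    · intro q _
      obtain ⟨δ, hδ, h1⟩ := lift_near hX hΦ hK hP hPT q.1 q.2
      refine ⟨ball q δ, mem_nhdsWithin_of_mem_nhds (ball_mem_nhds _ hδ), δ, hδ,
        fun p hp hg => ?_⟩
      rw [mem_ball, Prod.dist_eq, dist_eq_norm, dist_eq_norm, max_lt_iff] at hp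
      exact h1 p.1 p.2 hp.1 hp.2 hg
  obtain ⟨δ, hδ, hδl⟩ := key
  refine ⟨δ, hδ, fun z t hz hg => ?_⟩
  obtain ⟨m, k, hmk⟩ := exists_shift L.indep t
  set l : ℂ := m * L.ω₁ + k * L.ω₂ with hl
  have hlL : l ∈ L.lattice := PeriodPair.mem_lattice.2 ⟨m, k, rfl⟩
  have hg' : Germ P K z (t + l) := by
    obtain ⟨τ, h1, h2, h3⟩ := hg
    refine ⟨fun w => τ w + l, h1.add analyticAt_const, by simp only; rw [h2], ?_⟩
    filter_upwards [h3] with w hw
    rw [hL l hlL]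
    exact hw
  obtain ⟨τ, h1, h2⟩ := hδl (z, t + l) ⟨mem_closedBall_zero_iff.2 hz,
    mem_closedBall_zero_iff.2 hmk⟩ hg'
  refine ⟨fun w => τ w - l, ⟨h1.1.sub_const l, fun w hw => ?_⟩, ?_⟩
  · rw [h1.2 w hw, ← hL l hlL (τ w - l), sub_add_cancel]
  · change τ z - l = t
    have h3 : τ z = t + l := h2
    rw [h3]
    ring

/-- extension of lifts -/
theorem lift_extend (hX : ProjManifold F d) (hΦ : NonposMetric (Cone F) d Φ)
    {P K : ℂ → Mat (n + 1)} (hK : Ec F Φ K) {R δ : ℝ} (hR : 0 < R) (hδ : 0 < δ)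
    (hu : ∀ z t, ‖z‖ ≤ R → Germ P K z t → ∃ τ, Lift P K (ball z δ) τ ∧ τ z = t) {τ : ℂ → ℂ}
    (hτ : Lift P K (ball 0 R) τ) : ∃ τ', Lift P K (ball 0 (R + δ / 2)) τ' ∧ τ' 0 = τ 0 := by
  have h1 : ∀ s, s ∈ ball (0 : ℂ) R → ∃ T, Lift P K (ball s δ) T ∧ T s = τ s := fun s hs =>
    hu s (τ s) (mem_ball_zero_iff.1 hs).le (hτ.germ isOpen_ball hs)
  choose! T hT hTs using h1
  -- agreement with `τ`
  have h2 : ∀ s ∈ ball (0 : ℂ) R, ∀ w ∈ ball s δ, w ∈ ball (0 : ℂ) R → T s w = τ w := by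
    intro s hs w hw hw'
    exact lift_uniq hX hΦ hK (isOpen_ball.inter isOpen_ball)
      ((convex_ball s δ).inter (convex_ball (0 : ℂ) R)).isPreconnected
      ((hT s hs).mono inter_subset_left) (hτ.mono inter_subset_right)
      (z := s) ⟨mem_ball_self hδ, hs⟩ (hTs s hs) w ⟨hw, hw'⟩
  have h3 : ∀ s ∈ ball (0 : ℂ) R, ∀ s' ∈ ball (0 : ℂ) R, ∀ w ∈ ball s δ, w ∈ ball s' δ →
      T s w = T s' w := by
    intro s hs s' hs' w hw hw'
    set m : ℂ := (2⁻¹ : ℂ) * (s + s') with hm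
    have hss : ‖s - s'‖ < 2 * δ := by
      have e1 : s - s' = (w - s') - (w - s) := by ring
      rw [mem_ball, dist_eq_norm] at hw hw'
      rw [e1]
      refine (norm_sub_le _ _).trans_lt ?_
      linarith
    have hm1 : m ∈ ball s δ := by
      rw [mem_ball, dist_eq_norm]
      have e1 : m - s = (-2⁻¹ : ℂ) * (s - s') := by rw [hm]; ring
      rw [e1, norm_mul, norm_neg, norm_inv]
      norm_num
      linarith
    have hm2 : m ∈ ball s' δ := by
      rw [mem_ball, dist_eq_norm]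
      have e1 : m - s' = (2⁻¹ : ℂ) * (s - s') := by rw [hm]; ring
      rw [e1, norm_mul, norm_inv]
      norm_num
      linarith
    have hm3 : m ∈ ball (0 : ℂ) R := by
      rw [mem_ball_zero_iff] at hs hs' ⊢
      rw [hm, norm_mul, norm_inv]
      have e1 := norm_add_le s s'
      norm_num
      linarith
    exact lift_uniq hX hΦ hK (isOpen_ball.inter isOpen_ball)
      ((convex_ball s δ).inter (convex_ball s' δ)).isPreconnected
      ((hT s hs).mono inter_subset_left) ((hT s' hs').mono inter_subset_right)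
      (z := m) ⟨hm1, hm2⟩ ((h2 s hs m hm1 hm3).trans (h2 s' hs' m hm2 hm3).symm) w ⟨hw, hw'⟩
  -- the centers
  have h4 : ∀ w, w ∈ ball (0 : ℂ) (R + δ / 2) → ∃ s ∈ ball (0 : ℂ) R, w ∈ ball s δ := by
    intro w hw
    rw [mem_ball_zero_iff] at hw
    have hq : 0 < R + δ / 2 := by positivity
    refine ⟨((R / (R + δ / 2) : ℝ) : ℂ) * w, ?_, ?_⟩
    · rw [mem_ball_zero_iff, norm_mul, Complex.norm_real, Real.norm_of_nonneg (by positivity),
        div_mul_eq_mul_div, div_lt_iff₀ hq]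
      exact mul_lt_mul_of_pos_left hw hR
    · rw [mem_ball, dist_eq_norm]
      have e1 : w - ((R / (R + δ / 2) : ℝ) : ℂ) * w = (((δ / 2) / (R + δ / 2) : ℝ) : ℂ) * w := by
        have : (((δ / 2) / (R + δ / 2) : ℝ) : ℂ) = 1 - ((R / (R + δ / 2) : ℝ) : ℂ) := by
          rw [← Complex.ofReal_one, ← Complex.ofReal_sub]
          congr 1
          field_simp
          ring
        rw [this]
        ring
      rw [e1, norm_mul, Complex.norm_real, Real.norm_of_nonneg (by positivity),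
        div_mul_eq_mul_div, div_lt_iff₀ hq]
      have e2 : δ / 2 * ‖w‖ < δ / 2 * (R + δ / 2) := mul_lt_mul_of_pos_left hw (by positivity)
      nlinarith
  choose! s hs hsw using h4
  have h5 : ∀ s' ∈ ball (0 : ℂ) R, ∀ w ∈ ball s' δ, w ∈ ball (0 : ℂ) (R + δ / 2) →
      T (s w) w = T s' w := fun s' hs' w hw hw' =>
    h3 _ (hs w hw') s' hs' w (hsw w hw') hw
  refine ⟨fun w => T (s w) w, ⟨fun w hw => ?_, fun w hw => ?_⟩, ?_⟩
  · have h6 : DifferentiableAt ℂ (T (s w)) w :=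
      ((hT _ (hs w hw)).1 w (hsw w hw)).differentiableAt (isOpen_ball.mem_nhds (hsw w hw))
    refine (h6.congr_of_eventuallyEq ?_).differentiableWithinAt
    filter_upwards [isOpen_ball.mem_nhds (hsw w hw), isOpen_ball.mem_nhds hw] with w' g1 g2
    exact h5 _ (hs w hw) w' g1 g2
  · exact (hT _ (hs w hw)).2 w (hsw w hw)
  · have g1 : (0 : ℂ) ∈ ball (0 : ℂ) R := mem_ball_self hR
    have g2 : (0 : ℂ) ∈ ball (0 : ℂ) (R + δ / 2) := mem_ball_self (by positivity)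
    have g3 : T (s 0) 0 = τ 0 := h2 _ (hs 0 g2) 0 (hsw 0 g2) g1
    exact g3

/-- lifts over all discs -/
theorem lift_disc (hX : ProjManifold F d) (hΦ : NonposMetric (Cone F) d Φ) {P K : ℂ → Mat (n + 1)}
    (hK : Ec F Φ K) (hKp : ∃ L : PeriodPair, ∀ l ∈ L.lattice, ∀ z, K (z + l) = K z)
    (hP : HolP univ P) (hPT : ∀ z, P z ∈ TF F) {t : ℂ} (hg : Germ P K 0 t) (R : ℝ) :
    ∃ τ, Lift P K (ball 0 R) τ ∧ τ 0 = t := by
  obtain ⟨δ, hδ, hu⟩ := lift_unif hX hΦ hK hKp hP hPT (max R 1)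
  have hR1 : 0 < max R 1 := lt_of_lt_of_le one_pos (le_max_right _ _)
  obtain ⟨τ0, h0, h0t⟩ := hu 0 t (by rw [norm_zero]; exact hR1.le) hg
  -- the extensions
  have key : ∀ k : ℕ, ∃ τ, Lift P K (ball 0 (min (δ + k * (δ / 2)) (max R 1))) τ ∧ τ 0 = t := by
    intro k
    induction k with
    | zero =>
      refine ⟨τ0, h0.mono (ball_subset_ball ?_), h0t⟩
      simp
    | succ k ih =>
      obtain ⟨τ, h1, h2⟩ := ih
      have hpos : 0 < min (δ + k * (δ / 2)) (max R 1) := lt_min (by positivity) hR1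
      obtain ⟨τ', h3, h4⟩ := lift_extend hX hΦ hK hpos hδ
        (fun z t hz => hu z t (hz.trans (min_le_right _ _))) h1
      refine ⟨τ', h3.mono (ball_subset_ball ?_), h4.trans h2⟩
      rcases le_total (δ + k * (δ / 2)) (max R 1) with hle | hle
      · rw [min_eq_left hle]
        refine (min_le_left _ _).trans (le_of_eq ?_)
        push_cast
        ring
      · rw [min_eq_right hle]
        refine (min_le_right _ _).trans ?_
        linarith
  obtain ⟨k, hk⟩ := exists_nat_ge (max R 1 / (δ / 2))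
  obtain ⟨τ, h1, h2⟩ := key k
  refine ⟨τ, h1.mono (ball_subset_ball ?_), h2⟩
  rw [div_le_iff₀ (by positivity)] at hk
  refine le_min ?_ (le_max_left _ _)
  have := le_max_left R 1
  linarith

/-- **Lifts.** -/
theorem lift_entire (hX : ProjManifold F d) (hΦ : NonposMetric (Cone F) d Φ)
    {P K : ℂ → Mat (n + 1)} (hK : Ec F Φ K)
    (hKp : ∃ L : PeriodPair, ∀ l ∈ L.lattice, ∀ z, K (z + l) = K z)
    (hP : HolP univ P) (hPT : ∀ z, P z ∈ TF F) {t : ℂ} (hg : Germ P K 0 t) :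
    ∃ τ : ℂ → ℂ, Differentiable ℂ τ ∧ ∀ z, P z = K (τ z) := by
  choose τ hτ hτ0 using fun N : ℕ => lift_disc hX hΦ hK hKp hP hPT hg ((N : ℝ) + 1)
  have h1 : ∀ N M : ℕ, ∀ w : ℂ, ‖w‖ < (N : ℝ) + 1 → ‖w‖ < (M : ℝ) + 1 → τ N w = τ M w := by
    intro N M w hN hM
    refine lift_uniq hX hΦ hK (isOpen_ball.inter isOpen_ball)
      ((convex_ball (0 : ℂ) ((N : ℝ) + 1)).inter (convex_ball (0 : ℂ) ((M : ℝ) + 1))).isPreconnected
      ((hτ N).mono inter_subset_left) ((hτ M).mono inter_subset_right)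
      (z := 0) ⟨mem_ball_self (by positivity), mem_ball_self (by positivity)⟩
      ((hτ0 N).trans (hτ0 M).symm) w ⟨mem_ball_zero_iff.2 hN, mem_ball_zero_iff.2 hM⟩
  have h2 : ∀ w : ℂ, ‖w‖ < ((⌈‖w‖⌉₊ : ℕ) : ℝ) + 1 := fun w => by
    have := Nat.le_ceil ‖w‖
    linarith
  refine ⟨fun w => τ ⌈‖w‖⌉₊ w, fun w => ?_, fun w => (hτ _).2 w (mem_ball_zero_iff.2 (h2 w))⟩
  set N := ⌈‖w‖⌉₊ with hN
  have hwb : w ∈ ball (0 : ℂ) ((N : ℝ) + 1) := mem_ball_zero_iff.2 (h2 w)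
  have h3 : DifferentiableAt ℂ (τ N) w :=
    ((hτ N).1 w hwb).differentiableAt (isOpen_ball.mem_nhds hwb)
  refine h3.congr_of_eventuallyEq ?_
  filter_upwards [isOpen_ball.mem_nhds hwb] with w' hw'
  exact h1 _ _ w' (h2 w') (mem_ball_zero_iff.1 hw')

end Pool.Agent.H33
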