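import Pool.Agent.H33.JX

/-! All entire curves factor through elliptic curves. -/

set_option autoImplicit false

open Filter Topology Metric Set MvPolynomial LinearAlgebra.Projectivization

namespace Pool.Agent.H33

open Pool.Agent.Y190.OP Pool.Agent.W602.GT Pool.Agent.N155 Pool.Agent.N155.BB
open Pool.Agent.N154.GG (holP_comp)

variable {n : ℕ} {ι ι' : Type} {F : ι → MvPolynomial (Fin (n + 1)) ℂ}
  {G : ι' → MvPolynomial (Fin (n + 1)) ℂ} {d : ℕ}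
  {κ : Type} {η : κ → (Fin (n + 1) → ℂ) → (Fin (n + 1) → ℂ) → (Fin (n + 1) → ℂ) → ℂ}
  {Φ Ψ : (Fin (n + 1) → ℂ) → (Fin (n + 1) → ℂ) → ℝ} {H : ℂ → Mat (n + 1)} {ν : ℕ}
  [Fintype κ]

/-- **Local lifts.** -/
theorem local_lift (h : Hyp F d Φ η ν) {f : ℂ → ℙ ℂ (Fin (n + 1) → ℂ)} (hf : HolIn F f)
    (hne : ∃ z w, f z ≠ f w) {z0 : ℂ} (hz0 : fderiv ℝ (fun z => Phi (f z).rep) z0 ≠ 0) :
    ∃ K t, Ec F Φ K ∧ Germ (fun z => Phi (f z).rep) K z0 t := by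
  obtain ⟨Yc, hY⟩ := h.exists_unt
  set P : ℂ → Mat (n + 1) := fun z => Phi (f z).rep with hPdef
  have hhol : HolP univ P := holP_of_map hf.1
  obtain ⟨c0, C0, hc0, hC0, hcC⟩ := len_le_ge h.hX h.hΦ h.hnd
  obtain ⟨V, g, hV, hzV, hg, hfg⟩ := hf.1 z0
  have hcur := cur_of_lift h.hX hf hV hg hfg
  have hPg : ∀ w ∈ V, P w = Phi (g w) := by
    intro w hw
    obtain ⟨h0, he⟩ := hfg w hw
    rw [hPdef]
    simp only
    rw [he, Phi_rep_mk]
  have hu0 : 0 < Φ (g z0) (deriv g z0) := by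
    rw [len_lift h.hX h.hΦ.twist hf hV hg hfg hzV]
    exact (mul_pos hc0 (norm_pos_iff.2 hz0)).trans_le (hcC P hhol (fun z => mem_TF (hf.2 z)) z0).1
  have huc : ContinuousAt (fun z => Φ (g z) (deriv g z)) z0 :=
    (hcur.sub h.hΦ).cont.continuousAt (hV.mem_nhds hzV)
  obtain ⟨K, hK⟩ := isE_all h hf hne hV hg hfg hzV hu0
  obtain ⟨D, hD⟩ := exists_dt h.hX h.hΦ hK.ec
  have hr := D.hr
  obtain ⟨δ, hδ, -, hgap⟩ := Dt.gap (D := D) h.hX (form_G0 n) h.hη' h.hη (noBC_G0 F) h.hΦ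
    h.hnd h.hU h.hν h.hh hY.cpt hY.mem
  obtain ⟨h1, h2, -, h4⟩ := Dt.e_of_jet (D := D) (t := 0) (μ := 1) h.hη h.hν h.hh
    (hcur.hF z0 hzV) (x := g z0) (v := (((Φ (g z0) (deriv g z0))⁻¹ : ℝ) : ℂ) • deriv g z0)
    (by rw [norm_zero]; positivity) (by
      simp only [zero_add, one_mul]
      rw [hD]
      exact hK)
  have he0 : D.e η ν (g z0) (deriv g z0) = 0 := by
    rw [Dt.e_deg h.hΦ h.hh h1] at h4
    refine (mul_eq_zero.1 h4).resolve_left ?_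
    have : (((Φ (g z0) (deriv g z0))⁻¹ : ℝ) : ℂ) ≠ 0 := by
      exact_mod_cast (inv_pos.2 hu0).ne'
    exact pow_ne_zero _ (norm_ne_zero_iff.2 this)
  have hdom : ∀ᶠ z in 𝓝 z0, g z ∈ D.dom :=
    ((tt_fst (mt g z0)).comp (hcur.mt_tend hzV)).eventually (Dt.dom_nhds h1)
  have hec : ContinuousAt (fun z => D.e η ν (g z) (deriv g z)) z0 :=
    (Dt.e_cont (D := D) (ν := ν) h.hX h.hΦ h.hη (hcur.tg hzV) h1).tendsto.comp
      (hcur.mt_tend hzV)
  have hee : ∀ᶠ z in 𝓝 z0, D.e η ν (g z) (deriv g z) < δ * Φ (g z) (deriv g z) ^ ν := by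
    refine hec.eventually_lt ((huc.pow ν).const_mul δ) ?_
    rw [he0]
    positivity
  obtain ⟨ht1, -⟩ := t_deriv (D := D) (hcur.an hzV) h1
  have hte : ∀ᶠ z in 𝓝 z0, ‖D.t (g z)‖ < D.r := by
    refine ht1.continuousAt.norm.eventually_lt_const ?_
    change ‖D.t (g z0)‖ < D.r
    rw [h2, norm_zero]
    exact hr
  refine ⟨K, D.t (g z0), hK.ec, fun z => D.t (g z), ht1, rfl, ?_⟩
  filter_upwards [hdom, hee, hte, huc.eventually (lt_mem_nhds hu0), hV.mem_nhds hzV] with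
    z g1 g2 g3 g4 g5
  obtain ⟨p, s, b, hrd⟩ := Fm.exists_rd (q := (g z, deriv g z)) hY (hcur.tg g5) g4
  have hE : isE F Φ p := (hrd.isE hY).2 (isE_all h hf hne hV hg hfg g5 g4)
  have hpx : g z = s • p.1 := hrd.hx
  have hpd : p.1 ∈ D.dom := by
    rw [hpx] at g1
    exact (Dt.dom_iff h.hX.form hrd.hs).1 g1
  have hpt : D.t p.1 = D.t (g z) := by rw [hpx, Dt.t_smul _ hrd.hs]
  have hpe : D.e η ν (g z) (deriv g z) = Φ (g z) (deriv g z) ^ ν * D.e η ν p.1 p.2 := by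
    have e1 : deriv g z = s • (((Φ (g z) (deriv g z) : ℝ) : ℂ) • p.2 + b • p.1) := hrd.hv
    have e2 : D.e η ν (g z) (deriv g z) = D.e η ν (s • p.1)
        (s • (((Φ (g z) (deriv g z) : ℝ) : ℂ) • p.2 + b • p.1)) := by
      rw [← e1, ← hpx]
    rw [e2, Dt.e_twist h.hΦ (Tg.mem (hY.sub hrd.hp)) _ hrd.hs, Dt.e_deg h.hΦ h.hh hpd,
      Complex.norm_real, Real.norm_of_nonneg (le_of_lt g4)]
  have hle : D.e η ν p.1 p.2 ≤ δ := by
    rw [hpe, mul_comm] at g2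
    exact (lt_of_mul_lt_mul_right g2 (pow_nonneg (le_of_lt g4) ν)).le
  obtain ⟨K', hK'⟩ := hE
  have he := hgap p hrd.hp K' hK' hpd (by rw [hpt]; exact g3.le) hle
  obtain ⟨μ, -, hj⟩ := Dt.jet_of_e h.hX h.hΦ h.hη h.hν h.hh (hY.sub hrd.hp)
    (hY.mem p hrd.hp).2 hpd he
  have h5 := hj.pt
  simp only [mul_zero, add_zero] at h5
  rw [hPg z g5, hpx, Phi_smul hrd.hs, ← h5, hpt, hD, ← hpx]

/-- **All entire curves factor through elliptic curves.** -/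
theorem factor (h : Hyp F d Φ η ν) {f : ℂ → ℙ ℂ (Fin (n + 1) → ℂ)} (hf : HolIn F f)
    (hne : ∃ z w, f z ≠ f w) {S : Set (ℂ → Mat (n + 1))}
    (hS : ∀ h ∈ S, Ec F Φ h ∧ ∃ L : PeriodPair, ∀ l ∈ L.lattice, ∀ z, h (z + l) = h z)
    (hlist : ∀ H, Ec F Φ H → ∃ h ∈ S, ∃ s l : ℂ, ‖l‖ = 1 ∧ ∀ z, H z = h (s + l * z)) :
    ∃ k ∈ S, ∃ φ : ℂ → ℂ, Differentiable ℂ φ ∧ ∀ z, Phi (f z).rep = k (φ z) := by
  set P : ℂ → Mat (n + 1) := fun z => Phi (f z).rep with hPdef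
  have hhol : HolP univ P := holP_of_map hf.1
  obtain ⟨z0, hz0⟩ : ∃ z0, fderiv ℝ P z0 ≠ 0 := by
    by_contra hcon
    push Not at hcon
    have h2 := const_of_fderiv hhol (z₀ := 0) (Eventually.of_forall hcon)
    obtain ⟨a, b, hab⟩ := hne
    apply hab
    apply proj_ext
    exact (h2 a).trans (h2 b).symm
  obtain ⟨K, t, hK, τ, hτ, hτt, hτP⟩ := local_lift h hf hne hz0
  obtain ⟨k, hk, s, l, hl, hKk⟩ := hlist K hK
  obtain ⟨hkE, hkp⟩ := hS k hk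
  have hg : Germ (fun z => P (z0 + z)) k 0 (s + l * t) := by
    have e1 : AnalyticAt ℂ (fun z : ℂ => τ (z0 + z)) 0 := by
      have e2 : AnalyticAt ℂ (fun z : ℂ => z0 + z) 0 := analyticAt_const.add analyticAt_id
      refine AnalyticAt.comp (g := τ) (f := fun z : ℂ => z0 + z) ?_ e2
      simp only [add_zero]
      exact hτ
    refine ⟨fun z => s + l * τ (z0 + z), analyticAt_const.add (analyticAt_const.mul e1), ?_, ?_⟩
    · simp only [add_zero]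
      rw [hτt]
    · have e3 : Tendsto (fun z : ℂ => z0 + z) (𝓝 0) (𝓝 z0) := by
        have : ContinuousAt (fun z : ℂ => z0 + z) 0 := by fun_prop
        simpa [ContinuousAt] using this
      filter_upwards [e3.eventually hτP] with z hz
      rw [← hKk]
      exact hz
  obtain ⟨φ, hφ, hφP⟩ := lift_entire h.hX h.hΦ hkE hkp (P := fun z => P (z0 + z))
    (by
      have := holP_comp hhol (f := fun z => z0 + z) (by fun_prop)
      exact this) (fun z => mem_TF (hf.2 _)) hg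
  refine ⟨k, hk, fun z => φ (z - z0), hφ.comp (by fun_prop), fun z => ?_⟩
  have h3 : P (z0 + (z - z0)) = k (φ (z - z0)) := hφP (z - z0)
  rw [add_sub_cancel] at h3
  exact h3

end Pool.Agent.H33
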