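import Pool.Agent.H33.JY

/-! Forms which vanish along elliptic curves. -/

set_option autoImplicit false

open Filter Topology Metric Set MvPolynomial LinearAlgebra.Projectivization

namespace Pool.Agent.H33

open Pool.Agent.Y190.OP Pool.Agent.W602.GT Pool.Agent.N155 Pool.Agent.N155.BB

variable {n : ℕ}

/-- homogenization -/
noncomputable def hmz (i j0 j1 : Fin (n + 1)) (P : MvPolynomial (Fin 2) ℂ) :
    MvPolynomial (Fin (n + 1)) ℂ :=
  X i * ∑ m ∈ P.support, C (P.coeff m) *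
    (X j0 ^ (m 0) * X j1 ^ (m 1) * X i ^ (P.totalDegree - (m 0 + m 1)))

theorem deg_le (P : MvPolynomial (Fin 2) ℂ) {m : Fin 2 →₀ ℕ} (hm : m ∈ P.support) :
    m 0 + m 1 ≤ P.totalDegree := by
  have h1 := le_totalDegree hm
  rwa [Finsupp.sum_fintype _ _ (fun _ => rfl), Fin.sum_univ_two] at h1

theorem hmz_form (i j0 j1 : Fin (n + 1)) (P : MvPolynomial (Fin 2) ℂ) : IsForm (hmz i j0 j1 P) := by
  refine ⟨1 + P.totalDegree, (isHomogeneous_X ℂ i).mul ?_⟩
  refine IsHomogeneous.sum _ _ _ fun m hm => ?_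
  have h1 := deg_le P hm
  have h2 : (C (P.coeff m) * (X j0 ^ (m 0) * X j1 ^ (m 1) *
      X i ^ (P.totalDegree - (m 0 + m 1))) : MvPolynomial (Fin (n + 1)) ℂ).IsHomogeneous
      (0 + (1 * m 0 + 1 * m 1 + 1 * (P.totalDegree - (m 0 + m 1)))) :=
    (isHomogeneous_C _ _).mul ((((isHomogeneous_X ℂ j0).pow _).mul
      ((isHomogeneous_X ℂ j1).pow _)).mul ((isHomogeneous_X ℂ i).pow _))
  have h3 : 0 + (1 * m 0 + 1 * m 1 + 1 * (P.totalDegree - (m 0 + m 1))) = P.totalDegree := by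
    omega
  rw [h3] at h2
  exact h2

theorem hmz_eval (i j0 j1 : Fin (n + 1)) (P : MvPolynomial (Fin 2) ℂ) {x : Fin (n + 1) → ℂ}
    (hx : x i ≠ 0) : eval x (hmz i j0 j1 P) =
      x i ^ (P.totalDegree + 1) * eval ![x j0 / x i, x j1 / x i] P := by
  unfold hmz
  rw [map_mul, eval_X, map_sum, eval_eq', Finset.mul_sum, Finset.mul_sum]
  refine Finset.sum_congr rfl fun m hm => ?_
  have h1 := deg_le P hm
  rw [Fin.prod_univ_two]
  simp only [map_mul, map_pow, eval_C, eval_X, Matrix.cons_val_zero, Matrix.cons_val_one]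
  have h2 : x i ^ (P.totalDegree + 1) =
      x i * (x i ^ (m 0) * x i ^ (m 1) * x i ^ (P.totalDegree - (m 0 + m 1))) := by
    rw [← pow_add, ← pow_add, ← pow_succ']
    congr 1
    omega
  rw [h2, div_pow, div_pow]
  field_simp

theorem hmz_zero (i j0 j1 : Fin (n + 1)) (P : MvPolynomial (Fin 2) ℂ) {x : Fin (n + 1) → ℂ}
    (hx : x i = 0) : eval x (hmz i j0 j1 P) = 0 := by
  unfold hmz
  rw [map_mul, eval_X, hx, zero_mul]

variable {ι : Type} {F : ι → MvPolynomial (Fin (n + 1)) ℂ} {d : ℕ}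
  {Φ : (Fin (n + 1) → ℂ) → (Fin (n + 1) → ℂ) → ℝ}

theorem chart_div {u : Fin (n + 1) → ℂ} (hu : u ≠ 0) (i j : Fin (n + 1)) :
    chart i (Phi u) j = u j / u i := by
  by_cases hi : u i = 0
  · have h1 : Phi u i i = 0 := by
      by_contra h
      exact (Phi_diag_ne hu).1 h hi
    unfold chart
    rw [h1, hi, div_zero, div_zero]
  · rw [chart_Phi hu hi, Pi.smul_apply, smul_eq_mul]
    ring

/-- the coordinates are elliptic functions -/
theorem ell_coord {K : ℂ → Mat (n + 1)} (hK : Ec F Φ K) {L : PeriodPair}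
    (hL : ∀ l ∈ L.lattice, ∀ z, K (z + l) = K z) (i j : Fin (n + 1)) :
    (fun z => chart i (K z) j) ∈ Ell L.ω₁ L.ω₂ := by
  rw [mem_Ell]
  refine ⟨fun z => ?_, fun z => ?_, fun z => ?_⟩
  · obtain ⟨V, g, hV, hzV, hd, hg⟩ := hK.hol z (mem_univ z)
    have hga : AnalyticAt ℂ g z := hd.analyticAt (hV.mem_nhds hzV)
    have h1 : MeromorphicAt (fun w => g w j / g w i) z :=
      ((analyticAt_pi_iff.1 hga) j).meromorphicAt.div ((analyticAt_pi_iff.1 hga) i).meromorphicAt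
    refine h1.congr ?_
    filter_upwards [mem_nhdsWithin_of_mem_nhds (hV.mem_nhds hzV)] with w hw
    obtain ⟨h2, h3⟩ := hg w hw
    rw [h3, chart_div h2]
  · rw [hL L.ω₁ (PeriodPair.mem_lattice.2 ⟨1, 0, by simp⟩)]
  · rw [hL L.ω₂ (PeriodPair.mem_lattice.2 ⟨0, 1, by simp⟩)]

/-- the relation -/
theorem ell_rel {K : ℂ → Mat (n + 1)} (hK : Ec F Φ K)
    (hKp : ∃ L : PeriodPair, ∀ l ∈ L.lattice, ∀ z, K (z + l) = K z) (i j0 j1 : Fin (n + 1)) :
    ∃ P : MvPolynomial (Fin 2) ℂ, P ≠ 0 ∧ ∀ z, K z i i ≠ 0 →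
      eval ![chart i (K z) j0, chart i (K z) j1] P = 0 := by
  obtain ⟨L, hL⟩ := hKp
  obtain ⟨P, hP, hev⟩ := ell_dep L.indep (ell_coord hK hL i j0) (ell_coord hK hL i j1)
  refine ⟨P, hP, fun z hz => ?_⟩
  have h1 := codis_ev hev z
  have h2 : AnalyticAt ℂ (fun z => chart i (K z)) z := an_chart hK.hol i hz
  have h3 : ∀ j, ContinuousAt (fun z => chart i (K z) j) z := fun j =>
    ((analyticAt_pi_iff.1 h2) j).continuousAt
  have h4 : ContinuousAt (fun z => eval ![chart i (K z) j0, chart i (K z) j1] P) z := by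
    have h5 : ContinuousAt (fun z => ![chart i (K z) j0, chart i (K z) j1]) z := by
      rw [continuousAt_pi]
      intro q
      fin_cases q
      · exact h3 j0
      · exact h3 j1
    exact ContinuousAt.comp (g := fun v : Fin 2 → ℂ => eval v P)
      (MvPolynomial.continuous_eval P).continuousAt h5
  refine tendsto_nhds_unique (h4.tendsto.mono_left nhdsWithin_le_nhds)
    ((tendsto_const_nhds (x := (0 : ℂ)) (f := 𝓝[≠] z)).congr' ?_)
  filter_upwards [h1] with w hw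
  exact hw.symm

/-- **The form.** -/
theorem exists_form (hX : ProjManifold F d) (hd : 2 ≤ d) {S : Set (ℂ → Mat (n + 1))}
    (hSf : S.Finite)
    (hS : ∀ h ∈ S, Ec F Φ h ∧ ∃ L : PeriodPair, ∀ l ∈ L.lattice, ∀ z, h (z + l) = h z)
    {x0 : Fin (n + 1) → ℂ} (hx0 : x0 ∈ Cone F) : ∃ E : MvPolynomial (Fin (n + 1)) ℂ, IsForm E ∧
      (∀ h ∈ S, ∀ z x, x ≠ 0 → h z = Phi x → eval x E = 0) ∧
      ¬ ∀ᶠ x in 𝓝[Cone F] x0, eval x E = 0 := by
  classical
  obtain ⟨c, hc⟩ := exists_ch (F := F) (d := d) hX ⟨x0, hx0, rfl⟩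
  have hdom : x0 ∈ c.dom := ⟨hx0, hc⟩
  set k0 : Fin d := ⟨0, by omega⟩ with hk0
  set k1 : Fin d := ⟨1, by omega⟩ with hk1
  have hk : k1 ≠ k0 := by
    rw [hk0, hk1]
    intro h
    have := congrArg Fin.val h
    simp at this
  choose! P hP0 hP using fun h (hh : h ∈ S) =>
    ell_rel (hS h hh).1 (hS h hh).2 c.i (c.J k0) (c.J k1)
  set Q : MvPolynomial (Fin 2) ℂ := ∏ h ∈ hSf.toFinset, P h with hQ
  have hQ0 : Q ≠ 0 := Finset.prod_ne_zero_iff.2 fun h hh => hP0 h (hSf.mem_toFinset.1 hh)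
  refine ⟨hmz c.i (c.J k0) (c.J k1) Q, hmz_form _ _ _ _, ?_, ?_⟩
  · intro h hh z x hx hzx
    by_cases hi : x c.i = 0
    · exact hmz_zero _ _ _ _ hi
    · have h1 : h z c.i c.i ≠ 0 := by
        rw [hzx]
        exact (Phi_diag_ne hx).2 hi
      have h2 := hP h hh z h1
      rw [hzx, chart_div hx, chart_div hx] at h2
      have h3 : eval ![x (c.J k0) / x c.i, x (c.J k1) / x c.i] Q = 0 := by
        rw [hQ, map_prod]
        exact Finset.prod_eq_zero (hSf.mem_toFinset.2 hh) h2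
      rw [hmz_eval _ _ _ _ hi, h3, mul_zero]
  · intro hev
    apply hQ0
    have hxi : x0 c.i ≠ 0 := Ch.ne hdom
    set ζ0 := c.z x0 with hζ0
    have hU0 : ζ0 ∈ c.U := Ch.z_mem hdom
    have h1 : Tendsto (fun ζ => x0 c.i • c.Θ ζ) (𝓝 ζ0) (𝓝[Cone F] x0) := by
      have h2 : ContinuousAt (fun ζ => x0 c.i • c.Θ ζ) ζ0 :=
        (c.an _ hU0).continuousAt.const_smul (x0 c.i)
      have h3 : x0 c.i • c.Θ ζ0 = x0 := (Ch.eq hdom).symm
      refine tendsto_nhdsWithin_iff.2 ⟨?_, ?_⟩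
      · have h4 := h2.tendsto
        rwa [h3] at h4
      · filter_upwards [c.hU.mem_nhds hU0] with ζ hζ
        exact cone_smul hX.form (c.mem ζ hζ).1 hxi
    have h4 : ∀ᶠ ζ in 𝓝 ζ0, eval ![ζ k0, ζ k1] Q = 0 := by
      filter_upwards [h1.eventually hev, c.hU.mem_nhds hU0] with ζ g1 g2
      obtain ⟨-, m2, m3⟩ := c.mem ζ g2
      have g3 : (x0 c.i • c.Θ ζ) c.i = x0 c.i := by
        rw [Pi.smul_apply, m2, smul_eq_mul, mul_one]
      have g4 : ∀ k, (x0 c.i • c.Θ ζ) (c.J k) = x0 c.i * ζ k := fun k => by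
        rw [Pi.smul_apply, m3 k, smul_eq_mul]
      rw [hmz_eval _ _ _ _ (by rw [g3]; exact hxi), g3, g4, g4, mul_div_cancel_left₀ _ hxi,
        mul_div_cancel_left₀ _ hxi] at g1
      exact (mul_eq_zero.1 g1).resolve_left (pow_ne_zero _ hxi)
    obtain ⟨ρ, hρ, hball⟩ := Metric.eventually_nhds_iff_ball.1 h4
    refine funext_set (p := Q) (q := 0) (fun q : Fin 2 => ball (![ζ0 k0, ζ0 k1] q) ρ)
      (fun q => ?_) fun y hy => ?_
    · exact infinite_of_mem_nhds _ (ball_mem_nhds _ hρ)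
    · rw [map_zero]
      have hy0 : dist (y 0) (ζ0 k0) < ρ := hy 0 (mem_univ _)
      have hy1 : dist (y 1) (ζ0 k1) < ρ := hy 1 (mem_univ _)
      set ζ : Fin d → ℂ := Function.update (Function.update ζ0 k0 (y 0)) k1 (y 1) with hζ
      have e1 : ζ k1 = y 1 := Function.update_self _ _ _
      have e0 : ζ k0 = y 0 := by
        rw [hζ, Function.update_of_ne hk.symm, Function.update_self]
      have h5 := hball ζ (by
        rw [mem_ball, dist_pi_lt_iff hρ]
        intro k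
        by_cases h1 : k = k1
        · rw [h1, e1]
          exact hy1
        · by_cases h0 : k = k0
          · rw [h0, e0]
            exact hy0
          · rw [hζ, Function.update_of_ne h1, Function.update_of_ne h0, dist_self]
            exact hρ)
      rw [e0, e1] at h5
      have h6 : ![y 0, y 1] = y := by
        funext q
        fin_cases q <;> rfl
      rwa [h6] at h5

end Pool.Agent.H33
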