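import Pool.Agent.H33.KW
import Pool.Agent.H33.JU

/-! Holomorphic maps from open subsets of the plane to a manifold, and their lengths. -/

set_option autoImplicit false

open Filter Topology Metric Set MvPolynomial LinearAlgebra.Projectivization

namespace Pool.Agent.H33

open Pool.Agent.Y190.OP Pool.Agent.W602.GT Pool.Agent.N155 Pool.Agent.N155.BB
open Pool.Agent.N154.GG (holP_comp holP_comp_l)

variable {n : ℕ} {ι ι' : Type} {F : ι → MvPolynomial (Fin (n + 1)) ℂ} {d : ℕ}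
  {Φ Ψ : (Fin (n + 1) → ℂ) → (Fin (n + 1) → ℂ) → ℝ} {P : ℂ → Mat (n + 1)} {a : ℕ} {D : Set ℂ}

/-- a holomorphic map from the open set `D` to the manifold -/
structure PD (F : ι → MvPolynomial (Fin (n + 1)) ℂ) (D : Set ℂ) (P : ℂ → Mat (n + 1)) : Prop where
  op : IsOpen D
  hol : HolP D P
  mem : ∀ z ∈ D, P z ∈ TF F

theorem PD.mono (h : PD F D P) {E : Set ℂ} (hE : IsOpen E) (hs : E ⊆ D) : PD F E P :=
  ⟨hE, h.hol.mono hs, fun z hz => h.mem z (hs hz)⟩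

theorem PD.comp (h : PD F D P) {E : Set ℂ} (hE : IsOpen E) {f : ℂ → ℂ}
    (hf : DifferentiableOn ℂ f E) (hm : MapsTo f E D) : PD F E fun z => P (f z) :=
  ⟨hE, holP_comp_l h.hol hf hE hm, fun _ hz => h.mem _ (hm hz)⟩

/-- lifts -/
theorem PD.lift (hX : ProjManifold F d) (h : PD F D P) {z : ℂ} (hz : z ∈ D) :
    ∃ (V : Set ℂ) (g : ℂ → Fin (n + 1) → ℂ), Cur F V g ∧ z ∈ V ∧ V ⊆ D ∧
      ∀ w ∈ V, P w = Phi (g w) := by
  obtain ⟨V, g, hV, hzV, hg, hfg⟩ := h.hol z hz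
  refine ⟨V ∩ D, g, ⟨hV.inter h.op, hg.mono inter_subset_left, fun w hw => ?_⟩, ⟨hzV, hz⟩,
    inter_subset_right, fun w hw => (hfg w hw.1).2⟩
  have h1 := h.mem w hw.2
  rw [(hfg w hw.1).2] at h1
  exact (Phi_mem hX.form (hfg w hw.1).1).1 h1

theorem ix_ne' {t : ℂ} (h : P t ∈ PM) : P t (ix P t) (ix P t) ≠ 0 := by
  unfold ix
  have h1 := PM.exists_diag h
  rw [dif_pos h1]
  exact h1.choose_spec

/-- the length in terms of a lift -/
theorem len_cur (ht : ∀ x ∈ Cone F, ∀ (v : Fin (n + 1) → ℂ) (c b : ℂ), c ≠ 0 →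
      Φ (c • x) (c • (v + b • x)) = Φ x v) {V : Set ℂ} {g : ℂ → Fin (n + 1) → ℂ}
    (hc : Cur F V g) (hP : ∀ w ∈ V, P w = Phi (g w)) {z : ℂ} (hz : z ∈ V) :
    len Φ P z = Φ (g z) (deriv g z) := by
  have hgz : g z ≠ 0 := (hc.hF z hz).1
  have hPM : P z ∈ PM := by
    rw [hP z hz]
    exact ⟨g z, hgz, rfl⟩
  have hi := ix_ne' hPM
  set i := ix P z with hidef
  have hgi : g z i ≠ 0 := by
    rw [hP z hz] at hi
    exact (Phi_diag_ne hgz).1 hi
  have hdg : DifferentiableAt ℂ g z := (hc.hg z hz).differentiableAt (hc.hV.mem_nhds hz)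
  have hdi := (hasDerivAt_pi.1 hdg.hasDerivAt) i
  have hch : (fun w => chart i (P w)) =ᶠ[𝓝 z] fun w => (g w i)⁻¹ • g w := by
    filter_upwards [hc.hV.mem_nhds hz, hdi.continuousAt.eventually_ne hgi] with w hw hwi
    rw [hP w hw, chart_Phi (hc.hF w hw).1 hwi]
  have hder : HasDerivAt (fun w => (g w i)⁻¹ • g w)
      ((g z i)⁻¹ • deriv g z + (-(deriv g z i) / (g z i) ^ 2) • g z) z :=
    (hdi.fun_inv hgi).smul hdg.hasDerivAt
  unfold len pv
  rw [← hidef]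
  have hch0 : chart i (P z) = (g z i)⁻¹ • g z := hch.self_of_nhds
  rw [hch.deriv_eq, hder.deriv, hch0]
  have h1 : (g z i)⁻¹ • deriv g z + (-(deriv g z i) / (g z i) ^ 2) • g z =
      (g z i)⁻¹ • (deriv g z + (-(deriv g z i) / g z i) • g z) := by
    rw [smul_add, smul_smul]
    congr 2
    field_simp
  rw [h1, ht _ (hc.hF z hz) _ _ _ (inv_ne_zero hgi)]

theorem fd_cur {V : Set ℂ} {g : ℂ → Fin (n + 1) → ℂ} (hc : Cur F V g)
    (hP : ∀ w ∈ V, P w = Phi (g w)) {z : ℂ} (hz : z ∈ V) : fderiv ℝ P z = jd (g z) (deriv g z) := by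
  refine fderiv_of_curve ?_ (hc.hF z hz).1 ?_
  · exact ((hc.hg z hz).differentiableAt (hc.hV.mem_nhds hz)).hasDerivAt
  · filter_upwards [hc.hV.mem_nhds hz] with w hw
    exact hP w hw

theorem jd_smul (x v : Fin (n + 1) → ℂ) (s : ℝ) : jd x ((s : ℂ) • v) = s • jd x v := by
  unfold jd lin
  ext w : 1
  simp only [ContinuousLinearMap.comp_apply, ContinuousLinearMap.coe_restrictScalars',
    ContinuousLinearMap.toSpanSingleton_apply, smul_apply]
  have h1 : w • ((s : ℂ) • v) = s • (w • v) := by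
    rw [smul_comm]
    rfl
  rw [h1, map_smul]

/-- the lengths and the derivatives -/
theorem jd_le (hX : ProjManifold F d) (hΦ : NonposMetric (Cone F) d Φ)
    (hnd : Nondegenerate (Cone F) d Φ) : ∃ c : ℝ, 0 < c ∧ ∀ x v, Tg F x v →
      c * ‖jd x v‖ ≤ Φ x v := by
  obtain ⟨Y, hYc, hY, hall⟩ := exists_unit hX hΦ hnd
  have hcont : ContinuousOn (fun p : (Fin (n + 1) → ℂ) × (Fin (n + 1) → ℂ) => jd p.1 p.2) Y :=
    fun p hp => (jd_cont (Tg.mem (hY p hp).1).1).continuousWithinAt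
  obtain ⟨M, hM⟩ := hYc.exists_bound_of_continuousOn hcont
  refine ⟨(max M 1)⁻¹, by positivity, fun x v hT => ?_⟩
  have hM1 : (0 : ℝ) < max M 1 := lt_max_of_lt_right one_pos
  rw [inv_mul_le_iff₀ hM1]
  rcases (phi_nonneg hΦ hT).eq_or_lt with h0 | hpos
  · have h1 : jd x v = 0 := by
      obtain ⟨c, hc⟩ := exists_ch hX (M0 := Phi x) ⟨x, hT.mem, rfl⟩
      have hd : x ∈ c.dom := ⟨hT.mem, hc⟩
      have ha : c.a x v = 0 := by
        by_contra hne
        have h2 := Ch.u_pos hnd (Ch.z_mem hd) hne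
        rw [← Ch.phi_eq hΦ hT hd] at h2
        exact absurd h0 h2.ne
      have h2 := Ch.v_eq hT hd
      rw [ha, map_zero, zero_add] at h2
      have h3 : v = (v c.i / x c.i) • x := by
        conv_rhs => rw [Ch.eq hd]
        rw [smul_smul] at h2
        rw [smul_smul]
        conv_lhs => rw [h2]
        rw [mul_comm]
        congr 2
        have h4 : (x c.i • c.Θ (c.z x)) c.i = x c.i := by rw [← Ch.eq hd]
        rw [h4]
      have h4 := jd_twist hT.mem.1 0 one_ne_zero (v c.i / x c.i)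
      rw [one_smul, one_smul, zero_add, ← h3] at h4
      rw [h4]
      have h5 := jd_smul x 0 0
      rw [smul_zero] at h5
      exact h5.trans (zero_smul ℝ (jd x 0))
    rw [h1, norm_zero, ← h0, mul_zero]
  · obtain ⟨p, hp, s, b, hs, hx, hv⟩ := hall x v hT hpos
    have hp0 : p.1 ≠ 0 := (Tg.mem (hY p hp).1).1
    have h1 : jd x v = Φ x v • jd p.1 p.2 := by
      have h2 := jd_twist hp0 (((Φ x v : ℝ) : ℂ) • p.2) hs b
      rw [jd_smul, ← hx, ← hv] at h2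
      exact h2
    rw [h1, norm_smul, Real.norm_of_nonneg hpos.le, mul_comm]
    exact mul_le_mul_of_nonneg_right ((hM p hp).trans (le_max_left _ _)) hpos.le

/-- the derivative is bounded by the length -/
theorem PD.fd_le (hX : ProjManifold F d) (hΦ : NonposMetric (Cone F) d Φ) {c : ℝ}
    (hc : ∀ x v, Tg F x v → c * ‖jd x v‖ ≤ Φ x v) (h : PD F D P) {z : ℂ} (hz : z ∈ D) :
    c * ‖fderiv ℝ P z‖ ≤ len Φ P z := by
  obtain ⟨V, g, hcu, hzV, -, hg⟩ := h.lift hX hz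
  rw [fd_cur hcu hg hzV, len_cur hΦ.twist hcu hg hzV]
  exact hc _ _ (hcu.tg hzV)

/-- the data along a curve -/
theorem wOn (hX : ProjManifold F d) (hΦ : NonposMetric (Cone F) d Φ)
    (hΨ : NegativeNearZeros (Cone F) d Φ a Ψ) : ∃ C κ ε : ℝ, 0 ≤ C ∧ 0 < κ ∧ 0 < ε ∧
      ∀ (D : Set ℂ) (P : ℂ → Mat (n + 1)), PD F D P → WOn D a C κ ε (len Φ P) (len Ψ P) := by
  obtain ⟨C, hC, hfar⟩ := hΨ.far
  obtain ⟨ε, κ, hε, hκ, hnear⟩ := hΨ.near
  refine ⟨C, κ, ε, hC, hκ, hε, fun D P hP => ?_⟩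
  have hlift := fun z (hz : z ∈ D) => hP.lift hX hz
  have hsub : ∀ z ∈ D, ∃ V, IsOpen V ∧ z ∈ V ∧ LogSubharmonic (len Φ P) V := by
    intro z hz
    obtain ⟨V, g, hc, hzV, hVD, hg⟩ := hlift z hz
    exact ⟨V, hc.hV, hzV, (hΦ.curv V g hc.hV hc.hg hc.hF).congr fun w hw =>
      len_cur hΦ.twist hc hg hw⟩
  have hcu : ContinuousOn (len Φ P) D := fun z hz => by
    obtain ⟨V, hV, hzV, hs⟩ := hsub z hz
    exact (hs.cont.continuousAt (hV.mem_nhds hzV)).continuousWithinAt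
  have hcua : ∀ z ∈ D, ContinuousAt (len Φ P) z := fun z hz => hcu.continuousAt (hP.op.mem_nhds hz)
  have hle : ∀ z ∈ D, 0 ≤ len Ψ P z ∧ len Ψ P z ≤ len Φ P z ^ a := by
    intro z hz
    obtain ⟨V, g, hc, hzV, hVD, hg⟩ := hlift z hz
    rw [len_cur hΦ.twist hc hg hzV, len_cur hΨ.twist hc hg hzV]
    exact hΨ.le V g hc.hV hc.hg hc.hF z hzV
  have hfar' : ∀ z ∈ D, ∀ A, len Φ P z < A → ∃ V, IsOpen V ∧ z ∈ V ∧
      LogSubharmonic (fun w => len Ψ P w * Real.exp (C * A ^ 2 * ‖w‖ ^ 2)) V := by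
    intro z hz A hA
    obtain ⟨V, g, hc, hzV, hVD, hg⟩ := hlift z hz
    have hO : IsOpen (V ∩ {w | len Φ P w < A}) := by
      have := (hcu.mono hVD).isOpen_inter_preimage hc.hV (isOpen_Iio (a := A))
      exact this
    refine ⟨V ∩ {w | len Φ P w < A}, hO, ⟨hzV, hA⟩, ?_⟩
    refine (hfar _ g A hO (hc.hg.mono inter_subset_left) (fun w hw => hc.hF w hw.1)
      (fun w hw => ?_)).congr fun w hw => ?_
    · rw [← len_cur hΦ.twist hc hg hw.1]
      exact le_of_lt hw.2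
    · rw [len_cur hΨ.twist hc hg hw.1]
  have hcva : ∀ z ∈ D, ContinuousAt (len Ψ P) z := by
    intro z hz
    obtain ⟨V, hV, hzV, hs⟩ := hfar' z hz (len Φ P z + 1) (lt_add_one _)
    have h1 := hs.cont.continuousAt (hV.mem_nhds hzV)
    have h2 : ContinuousAt (fun w : ℂ => len Ψ P w *
        Real.exp (C * (len Φ P z + 1) ^ 2 * ‖w‖ ^ 2) *
        Real.exp (-(C * (len Φ P z + 1) ^ 2 * ‖w‖ ^ 2))) z := h1.mul (by fun_prop)
    refine h2.congr (Eventually.of_forall fun w => ?_)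
    simp only
    rw [mul_assoc, ← Real.exp_add, add_neg_cancel, Real.exp_zero, mul_one]
  have hu0 : ∀ z ∈ D, 0 ≤ len Φ P z := fun z hz => by
    obtain ⟨V, hV, hzV, hs⟩ := hsub z hz
    exact hs.nonneg z hzV
  refine ⟨hP.op, hcu, fun z hz => (hcva z hz).continuousWithinAt, hu0, fun z hz => (hle z hz).1,
    fun z hz => (hle z hz).2, hsub, hfar', fun z hz A hA0 hA hzs => ?_⟩
  obtain ⟨V, g, hc, hzV, hVD, hg⟩ := hlift z hz
  have hev : ∀ᶠ w in 𝓝 z, w ∈ V ∧ len Ψ P w < ε * len Φ P w ^ a ∧ A ≤ len Φ P w := by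
    have h1 : ∀ᶠ w in 𝓝 z, len Ψ P w < ε * len Φ P w ^ a :=
      (hcva z hz).eventually_lt (((hcua z hz).pow a).const_mul ε) hzs
    have h2 : ∀ᶠ w in 𝓝 z, A ≤ len Φ P w := by
      rcases hA with hA | hA
      · filter_upwards [(hcua z hz).eventually (lt_mem_nhds hA)] with w hw
        exact le_of_lt hw
      · filter_upwards [hP.op.mem_nhds hz] with w hw
        rw [hA]
        exact hu0 w hw
    filter_upwards [hc.hV.mem_nhds hzV, h1, h2] with w a1 a2 a3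
    exact ⟨a1, a2, a3⟩
  obtain ⟨W, hWs, hW, hzW⟩ := _root_.mem_nhds_iff.1 hev
  refine ⟨W, hW, hzW, ?_⟩
  refine (hnear W g A hW (hc.hg.mono fun w hw => (hWs hw).1) (fun w hw => hc.hF w (hWs hw).1) hA0
    (fun w hw => ?_) (fun w hw => ?_)).congr fun w hw => ?_
  · rw [← len_cur hΦ.twist hc hg (hWs hw).1]
    exact (hWs hw).2.2
  · rw [← len_cur hΦ.twist hc hg (hWs hw).1, ← len_cur hΨ.twist hc hg (hWs hw).1]
    exact (hWs hw).2.1.le
  · rw [len_cur hΨ.twist hc hg (hWs hw).1]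

/-- changes of the variable -/
theorem len_comp (hX : ProjManifold F d)
    (ht : ∀ x ∈ Cone F, ∀ (v : Fin (n + 1) → ℂ) (c b : ℂ), c ≠ 0 →
      Φ (c • x) (c • (v + b • x)) = Φ x v)
    (hd : ∀ x ∈ Cone F, ∀ (v : Fin (n + 1) → ℂ) (c : ℂ), c ≠ 0 → Φ x (c • v) = ‖c‖ ^ a * Φ x v)
    (h : PD F D P) {f : ℂ → ℂ} {f' w : ℂ} (hf : ∀ᶠ s in 𝓝 w, DifferentiableAt ℂ f s)
    (hf' : HasDerivAt f f' w) (hw : f w ∈ D) (h0 : f' ≠ 0) :
    len Φ (fun s => P (f s)) w = ‖f'‖ ^ a * len Φ P (f w) := by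
  obtain ⟨V, g, hc, hzV, hVD, hg⟩ := h.lift hX hw
  have hev : ∀ᶠ s in 𝓝 w, DifferentiableAt ℂ f s ∧ f s ∈ V :=
    hf.and (hf'.continuousAt.eventually (hc.hV.mem_nhds hzV))
  obtain ⟨W, hWs, hW, hzW⟩ := _root_.mem_nhds_iff.1 hev
  have hcW : Cur F W fun s => g (f s) := by
    refine ⟨hW, fun s hs => ?_, fun s hs => hc.hF _ (hWs hs).2⟩
    have h1 : DifferentiableAt ℂ g (f s) :=
      (hc.hg _ (hWs hs).2).differentiableAt (hc.hV.mem_nhds (hWs hs).2)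
    exact (h1.comp s (hWs hs).1).differentiableWithinAt
  have hPW : ∀ s ∈ W, P (f s) = Phi (g (f s)) := fun s hs => hg _ (hWs hs).2
  rw [len_cur ht hcW hPW hzW, len_cur ht hc hg hzV]
  have h2 : HasDerivAt g (deriv g (f w)) (f w) :=
    ((hc.hg _ hzV).differentiableAt (hc.hV.mem_nhds hzV)).hasDerivAt
  have h3 : HasDerivAt (fun s => g (f s)) (f' • deriv g (f w)) w := HasDerivAt.scomp w h2 hf'
  rw [h3.deriv, hd _ (hc.hF _ hzV) _ _ h0]

/-- the lengths of limits -/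
theorem len_tendsto_on (hX : ProjManifold F d)
    (ht : ∀ x ∈ Cone F, ∀ (v : Fin (n + 1) → ℂ) (c b : ℂ), c ≠ 0 →
      Φ (c • x) (c • (v + b • x)) = Φ x v)
    (hc : ∀ (U : Set (Fin d → ℂ)) (Θ : (Fin d → ℂ) → Fin (n + 1) → ℂ), IsOpen U →
      AnalyticOnNhd ℂ Θ U → (∀ z ∈ U, Θ z ∈ Cone F) →
      ContinuousOn (fun p : (Fin d → ℂ) × (Fin d → ℂ) => Φ (Θ p.1) (fderiv ℂ Θ p.1 p.2))
        (U ×ˢ Set.univ))
    {l : Filter ℕ} {h : ℕ → ℂ → Mat (n + 1)} {H : ℂ → Mat (n + 1)} {Ds : ℕ → Set ℂ} {z : ℂ}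
    (hh : ∀ k, PD F (Ds k) (h k)) (hz : ∀ k, z ∈ Ds k) (hH : PD F univ H)
    (h1 : Tendsto (fun k => h k z) l (𝓝 (H z)))
    (h2 : Tendsto (fun k => fderiv ℝ (h k) z) l (𝓝 (fderiv ℝ H z))) :
    Tendsto (fun k => len Φ (h k) z) l (𝓝 (len Φ H z)) := by
  have hHT := hH.mem z (mem_univ z)
  obtain ⟨i, J, O, U, Θ, hO, hMO, hU, hΘ, hΘX, hloc⟩ := graph_of' hX hHT
  obtain ⟨hi0, hU0, -⟩ := hloc _ hMO
  set ξ : Mat (n + 1) → Fin d → ℂ := fun M k => chart i M (J k) with hξ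
  set ω : Mat (n + 1) → (ℂ →L[ℝ] Mat (n + 1)) → Fin d → ℂ :=
    fun M D k => (fderiv ℝ (chart i) M (D 1)) (J k) with hω
  -- the formula
  have hform : ∀ (φ : ℂ → Mat (n + 1)) (E : Set ℂ), PD F E φ → z ∈ E → φ z ∈ O →
      len Φ φ z = Φ (Θ (ξ (φ z))) (fderiv ℂ Θ (ξ (φ z)) (ω (φ z) (fderiv ℝ φ z))) := by
    intro φ E hφ hzE hz
    obtain ⟨hiz, hUz, hgr⟩ := hloc _ hz
    have hcφ : ContinuousAt φ z := hφ.hol.continuousAt hzE
    have hev : ∀ᶠ s in 𝓝 z, φ s ∈ O ∧ s ∈ E :=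
      (hcφ.eventually (hO.mem_nhds hz)).and (hφ.op.mem_nhds hzE)
    have hd := (hφ.hol.diff_chart hzE hiz).hasDerivAt
    have e1 : deriv (fun s => chart i (φ s)) z = fderiv ℝ (chart i) (φ z) (fderiv ℝ φ z 1) := by
      have f1 : HasFDerivAt (fun s => chart i (φ s))
          ((ContinuousLinearMap.toSpanSingleton ℂ
            (deriv (fun s => chart i (φ s)) z)).restrictScalars ℝ) z :=
        hd.hasFDerivAt.restrictScalars ℝ
      have f2 : HasFDerivAt (fun s => chart i (φ s))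
          ((fderiv ℝ (chart i) (φ z)).comp (fderiv ℝ φ z)) z :=
        (((N155.BB.contDiffAt_chart hiz).differentiableAt (by norm_num)).hasFDerivAt).comp z
          (hφ.hol.differentiableAt hzE).hasFDerivAt
      have f3 := congrArg (fun L : ℂ →L[ℝ] (Fin (n + 1) → ℂ) => L 1) (f1.unique f2)
      simpa using f3
    have hdξ : HasDerivAt (fun s => ξ (φ s)) (ω (φ z) (fderiv ℝ φ z)) z := by
      have f1 := hasDerivAt_pi.2 fun k => (hasDerivAt_pi.1 hd) (J k)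
      rw [e1] at f1
      exact f1
    have hder := (hΘ _ hUz).differentiableAt.hasFDerivAt.comp_hasDerivAt z hdξ
    have h2 : (fun s => chart i (φ s)) =ᶠ[𝓝 z] Θ ∘ fun s => ξ (φ s) := by
      filter_upwards [hev] with s hs
      exact (hloc _ hs.1).2.2 (hφ.mem s hs.2)
    -- the lift
    obtain ⟨W, hWs, hW, hzW⟩ := _root_.mem_nhds_iff.1 (hev.and
      (hcφ.eventually ((continuous_apply_apply i i).continuousAt.eventually_ne hiz)))
    have hcu : Cur F W fun s => chart i (φ s) :=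
      ⟨hW, fun s hs => (hφ.hol.diff_chart (hWs hs).1.2 (hWs hs).2).differentiableWithinAt,
        fun s hs => chart_cone hX.form (hφ.mem s (hWs hs).1.2) (hWs hs).2⟩
    have hPW : ∀ s ∈ W, φ s = Phi (chart i (φ s)) := fun s hs =>
      (PM.Phi_chart (TF_PM (hφ.mem s (hWs hs).1.2)) (hWs hs).2).symm
    rw [len_cur ht hcu hPW hzW]
    have f1 : deriv (fun s => chart i (φ s)) z =
        fderiv ℂ Θ (ξ (φ z)) (ω (φ z) (fderiv ℝ φ z)) := by
      rw [← hder.deriv, ← h2.deriv_eq]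
    rw [f1, hgr (hφ.mem z hzE)]
  have hev : ∀ᶠ k in l, h k z ∈ O := h1.eventually (hO.mem_nhds hMO)
  have hF := hc U Θ hU hΘ (fun z hz => (hΘX z hz).1)
  have hcξ : ContinuousAt ξ (H z) := by
    rw [continuousAt_pi]
    intro k
    exact (continuous_apply (J k)).continuousAt.comp (continuousAt_chart hi0)
  have hfd : ContinuousAt (fderiv ℝ (chart i)) (H z) :=
    ((N155.BB.contDiffAt_chart hi0).fderiv_right (m := 0) (by norm_num)).continuousAt
  have t1 : Tendsto (fun k => ξ (h k z)) l (𝓝 (ξ (H z))) := hcξ.tendsto.comp h1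
  have t2 : Tendsto (fun k => ω (h k z) (fderiv ℝ (h k) z)) l (𝓝 (ω (H z) (fderiv ℝ H z))) := by
    rw [tendsto_pi_nhds]
    intro k
    have f1 : Tendsto (fun k => fderiv ℝ (chart i) (h k z)) l (𝓝 (fderiv ℝ (chart i) (H z))) :=
      hfd.tendsto.comp h1
    have f2 : Tendsto (fun k => (fderiv ℝ (h k) z) 1) l (𝓝 ((fderiv ℝ H z) 1)) :=
      ((ContinuousLinearMap.apply ℝ (Mat (n + 1)) (1 : ℂ)).continuous.tendsto _).comp h2
    have f3 : Tendsto (fun k => (fderiv ℝ (chart i) (h k z)) ((fderiv ℝ (h k) z) 1)) l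
        (𝓝 ((fderiv ℝ (chart i) (H z)) ((fderiv ℝ H z) 1))) :=
      (isBoundedBilinearMap_apply.continuous.tendsto _).comp (f1.prodMk_nhds f2)
    exact ((continuous_apply (J k)).tendsto _).comp f3
  have t3 := (hF.continuousAt ((hU.prod isOpen_univ).mem_nhds
    (show (ξ (H z), ω (H z) (fderiv ℝ H z)) ∈ U ×ˢ univ from ⟨hU0, mem_univ _⟩))).tendsto.comp
      (t1.prodMk_nhds t2)
  rw [hform H univ hH (mem_univ z) hMO]
  refine t3.congr' ?_
  filter_upwards [hev] with k hk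
  exact (hform (h k) (Ds k) (hh k) (hz k) hk).symm

end Pool.Agent.H33
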