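import Pool.Agent.H33.KA

/-! The bound of the lengths of the derivatives of holomorphic discs. -/

set_option autoImplicit false

open Filter Topology Metric Set MvPolynomial LinearAlgebra.Projectivization

namespace Pool.Agent.H33

open Pool.Agent.Y190.OP Pool.Agent.W602.GT Pool.Agent.N155 Pool.Agent.N155.BB
open Pool.Agent.N154.GG (exists_limit_loc_l)

variable {n : ℕ} {ι ι' : Type} {F : ι → MvPolynomial (Fin (n + 1)) ℂ} {d : ℕ}
  {Φ Ψ : (Fin (n + 1) → ℂ) → (Fin (n + 1) → ℂ) → ℝ} {P : ℂ → Mat (n + 1)} {a : ℕ} {D : Set ℂ}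

/-- the choice of the points -/
theorem zalcman_on {m : ℂ → ℝ} {R N : ℝ} (hR : 0 < R) (hN : 0 < N)
    (hc : ContinuousOn m (closedBall 0 R)) (h0 : ∀ z ∈ closedBall (0 : ℂ) R, 0 ≤ m z)
    (h : 2 * N ≤ R * m 0) : ∃ z₀ ∈ closedBall (0 : ℂ) R, 0 < m z₀ ∧ ∀ w : ℂ, ‖w‖ < N →
      z₀ + ((m z₀)⁻¹ : ℝ) * w ∈ closedBall (0 : ℂ) R ∧
        m (z₀ + ((m z₀)⁻¹ : ℝ) * w) ≤ 2 * m z₀ := by
  have hcont : ContinuousOn (fun z => (R - ‖z‖) * m z) (closedBall 0 R) :=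
    (by fun_prop : Continuous fun z : ℂ => R - ‖z‖).continuousOn.mul hc
  obtain ⟨z₀, hz₀, hmax⟩ := (isCompact_closedBall (0 : ℂ) R).exists_isMaxOn
    ⟨0, mem_closedBall_self hR.le⟩ hcont
  have hm : ∀ z ∈ closedBall (0 : ℂ) R, (R - ‖z‖) * m z ≤ (R - ‖z₀‖) * m z₀ :=
    fun z hz => hmax hz
  have h2 : 2 * N ≤ (R - ‖z₀‖) * m z₀ := by
    refine h.trans ?_
    have := hm 0 (mem_closedBall_self hR.le)
    rwa [norm_zero, sub_zero] at this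
  have h3 : 0 ≤ R - ‖z₀‖ := by
    rw [mem_closedBall_zero_iff] at hz₀
    linarith
  have hm0 : 0 < m z₀ := by
    rcases (h0 z₀ hz₀).eq_or_lt with e | e
    · rw [← e, mul_zero] at h2
      linarith
    · exact e
  refine ⟨z₀, hz₀, hm0, fun w hw => ?_⟩
  set z : ℂ := z₀ + ((m z₀)⁻¹ : ℝ) * w with hz
  have h4 : ‖z‖ ≤ ‖z₀‖ + (m z₀)⁻¹ * ‖w‖ := by
    refine (norm_add_le _ _).trans (le_of_eq ?_)
    rw [norm_mul, Complex.norm_real, Real.norm_of_nonneg (inv_nonneg.2 hm0.le)]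
  have h5 : (m z₀)⁻¹ * ‖w‖ ≤ (R - ‖z₀‖) / 2 := by
    rw [inv_mul_le_iff₀ hm0]
    nlinarith
  have h6 : (R - ‖z₀‖) / 2 ≤ R - ‖z‖ := by linarith
  have h7 : 0 < R - ‖z₀‖ := by
    rcases h3.eq_or_lt with e | e
    · rw [← e, zero_mul] at h2
      linarith
    · exact e
  have hzb : z ∈ closedBall (0 : ℂ) R := by
    rw [mem_closedBall_zero_iff]
    linarith
  refine ⟨hzb, ?_⟩
  have h8 := hm z hzb
  have h9 : (R - ‖z₀‖) / 2 * m z ≤ (R - ‖z₀‖) * m z₀ :=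
    (mul_le_mul_of_nonneg_right h6 (h0 z hzb)).trans h8
  have h10 : (R - ‖z₀‖) / 2 * m z ≤ (R - ‖z₀‖) / 2 * (2 * m z₀) := by
    refine h9.trans (le_of_eq ?_)
    ring
  exact le_of_mul_le_mul_left h10 (by positivity)

theorem hasDerivAt_aff (z₀ : ℂ) (ρ : ℝ) (w : ℂ) : HasDerivAt (aff z₀ ρ) (ρ : ℂ) w := by
  unfold aff
  simpa using ((hasDerivAt_id w).const_mul (ρ : ℂ)).const_add z₀

/-- **The bound of the lengths of the derivatives of discs.** -/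
theorem disc_bound (hX : ProjManifold F d) (hΦ : NonposMetric (Cone F) d Φ)
    (hnd : Nondegenerate (Cone F) d Φ) (hΨ : NegativeNearZeros (Cone F) d Φ a Ψ)
    (hno : ∀ H : ℂ → Mat (n + 1), PD F univ H → (∃ B : ℝ, ∀ z, ‖fderiv ℝ H z‖ ≤ B) →
      0 < len Φ H 0 → ¬ 0 < len Ψ H 0) {q : ℝ} (hq0 : 0 < q) (haq : a * q < 1) :
    ∃ M : ℝ, 0 < M ∧ ∀ P, PD F (ball 0 1) P →
      len Φ P 0 ^ (1 - a * q) * len Ψ P 0 ^ q ≤ M := by
  obtain ⟨C, κ, ε, hC, hκ, hε, hW⟩ := wOn hX hΦ hΨ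
  obtain ⟨c0, hc0, hcJ⟩ := jd_le hX hΦ hnd
  by_contra hcon
  push Not at hcon
  have hp0 : 0 < 1 - a * q := by linarith
  -- the discs
  choose P hP hbig using fun k : ℕ => hcon (4 * ((k : ℝ) + 2)) (by positivity)
  have hW0 := fun k => hW (ball 0 1) (P k) (hP k)
  set m : ℕ → ℂ → ℝ := fun k z => len Φ (P k) z ^ (1 - a * q) * len Ψ (P k) z ^ q with hm
  have hR : closedBall (0 : ℂ) (1 / 2) ⊆ ball 0 1 := closedBall_subset_ball (by norm_num)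
  have hzal : ∀ k : ℕ, ∃ z₀ ∈ closedBall (0 : ℂ) (1 / 2), 0 < m k z₀ ∧
      ∀ w : ℂ, ‖w‖ < (k : ℝ) + 2 → z₀ + ((m k z₀)⁻¹ : ℝ) * w ∈ closedBall (0 : ℂ) (1 / 2) ∧
        m k (z₀ + ((m k z₀)⁻¹ : ℝ) * w) ≤ 2 * m k z₀ := by
    intro k
    refine zalcman_on (by norm_num) (by positivity) ?_ ?_ ?_
    · exact ((((hW0 k).cu.mono hR).rpow_const fun _ _ => Or.inr hp0.le)).mul
        (((hW0 k).cv.mono hR).rpow_const fun _ _ => Or.inr hq0.le)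
    · exact fun z hz => mul_nonneg (Real.rpow_nonneg ((hW0 k).u0 z (hR hz)) _)
        (Real.rpow_nonneg ((hW0 k).v0 z (hR hz)) _)
    · have := (hbig k).le
      have e : m k 0 = len Φ (P k) 0 ^ (1 - a * q) * len Ψ (P k) 0 ^ q := rfl
      rw [e]
      linarith
  choose z₀ hz₀b hz₀ hz₀' using hzal
  set h : ℕ → ℂ → Mat (n + 1) := fun k w => P k (aff (z₀ k) (m k (z₀ k))⁻¹ w) with hh
  set Ds : ℕ → Set ℂ := fun k => aff (z₀ k) (m k (z₀ k))⁻¹ ⁻¹' ball 0 1 with hDs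
  have hDo : ∀ k, IsOpen (Ds k) := fun k =>
    isOpen_ball.preimage (aff_diff (z₀ k) (m k (z₀ k))⁻¹).continuous
  have hPh : ∀ k, PD F (Ds k) (h k) := fun k => (hP k).comp (hDo k)
    (aff_diff (z₀ k) (m k (z₀ k))⁻¹).differentiableOn fun w hw => hw
  have hin : ∀ k : ℕ, ∀ w : ℂ, ‖w‖ < (k : ℝ) + 2 → w ∈ Ds k := fun k w hw =>
    hR (hz₀' k w hw).1
  have hrD : ∀ k : ℕ, closedBall (0 : ℂ) ((k : ℝ) + 1) ⊆ Ds k := fun k w hw => by
    rw [mem_closedBall_zero_iff] at hw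
    exact hin k w (by linarith)
  have h0D : ∀ k, (0 : ℂ) ∈ Ds k := fun k => hin k 0 (by rw [norm_zero]; positivity)
  have hW' := fun k => hW (Ds k) (h k) (hPh k)
  have hρ : ∀ k, 0 < (m k (z₀ k))⁻¹ := fun k => inv_pos.2 (hz₀ k)
  have hmk : ∀ k w, w ∈ Ds k → len Φ (h k) w ^ (1 - a * q) * len Ψ (h k) w ^ q =
      (m k (z₀ k))⁻¹ * m k (aff (z₀ k) (m k (z₀ k))⁻¹ w) := by
    intro k w hw
    have hne : (((m k (z₀ k))⁻¹ : ℝ) : ℂ) ≠ 0 := by exact_mod_cast (hρ k).ne'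
    have hd : ∀ᶠ s in 𝓝 w, DifferentiableAt ℂ (aff (z₀ k) (m k (z₀ k))⁻¹) s :=
      Eventually.of_forall fun s => aff_diff _ _ s
    have e1 := len_comp (a := 1) hX hΦ.twist hΦ.deg' (hP k) hd (hasDerivAt_aff _ _ w) hw hne
    have e2 := len_comp hX hΨ.twist hΨ.deg (hP k) hd (hasDerivAt_aff _ _ w) hw hne
    rw [Complex.norm_real, Real.norm_of_nonneg (hρ k).le] at e1 e2
    rw [pow_one] at e1
    rw [hh]
    simp only
    rw [e1, e2, scale_m (hρ k) ((hW0 k).u0 _ hw) ((hW0 k).v0 _ hw) rfl]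
  have hm2 : ∀ k : ℕ, ∀ w ∈ ball (0 : ℂ) ((k : ℝ) + 1),
      len Φ (h k) w ^ (1 - a * q) * len Ψ (h k) w ^ q ≤ 2 := by
    intro k w hw
    rw [mem_ball_zero_iff] at hw
    rw [hmk k w (hin k w (by linarith))]
    have := (hz₀' k w (by linarith)).2
    rw [inv_mul_le_iff₀ (hz₀ k), mul_comm]
    exact this
  have hm3 : ∀ k, 1 ≤ len Φ (h k) 0 ^ (1 - a * q) * len Ψ (h k) 0 ^ q := by
    intro k
    rw [hmk k 0 (h0D k)]
    have : aff (z₀ k) (m k (z₀ k))⁻¹ 0 = z₀ k := by simp [aff]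
    rw [this, inv_mul_cancel₀ (hz₀ k).ne']
  set B0 : ℝ := Real.exp (3 * (4 * Real.log (K3 κ ε q) + C * (4 * ε ^ (-q)) ^ 2 +
      4 * (2 * Real.log (K3 κ ε q) / q))) with hB0
  set b0 : ℝ := Real.exp (-(2 * Real.log (K3 κ ε q) / q)) with hb0
  set 𝓤 : Ultrafilter ℕ := hyperfilter ℕ with h𝓤
  -- large radii
  have hbig' : ∀ L : ℝ, ∀ᶠ k : ℕ in (𝓤 : Filter ℕ), L ≤ ((k : ℝ) + 1) / 4 ∧
      a * (1 / ((k : ℝ) + 1) ^ 2) ≤ 1 / 4 ∧ 2 ≤ q * ((k : ℝ) + 1) ^ 2 := by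
    intro L
    filter_upwards [hyper_ge (4 * L), hyper_ge (4 * a), hyper_ge (2 / q)] with k h1 h2 h3
    have hk : (0 : ℝ) ≤ k := Nat.cast_nonneg k
    refine ⟨by linarith, ?_, ?_⟩
    · rw [mul_one_div, div_le_div_iff₀ (by positivity) (by norm_num)]
      nlinarith
    · rw [div_le_iff₀ hq0] at h3
      nlinarith
  have hub : ∀ L : ℝ, ∀ᶠ k : ℕ in (𝓤 : Filter ℕ), ∀ w : ℂ, ‖w‖ ≤ L → len Φ (h k) w ≤ B0 := by
    intro L
    filter_upwards [hbig' L] with k hk w hw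
    exact (hW' k).bounded hC hκ hε (r := (k : ℝ) + 1)
      (by linarith [(Nat.cast_nonneg k : (0 : ℝ) ≤ k)]) (hrD k)
      hq0 haq hk.2.1 hk.2.2 (hm2 k) (hm3 k) (hw.trans hk.1)
  have hlb : ∀ᶠ k : ℕ in (𝓤 : Filter ℕ), b0 ≤ len Ψ (h k) 0 := by
    filter_upwards [hbig' 0] with k hk
    exact (hW' k).value_ge hκ hε (r := (k : ℝ) + 1)
      (by linarith [(Nat.cast_nonneg k : (0 : ℝ) ≤ k)]) (hrD k)
      hq0 haq (by linarith [hk.2.1]) hk.2.2 (hm2 k) (hm3 k)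
  have hlb1 : ∀ k, 1 ≤ len Φ (h k) 0 := by
    intro k
    have h1 := hm3 k
    have hu : 0 < len Φ (h k) 0 := by
      rcases ((hW' k).u0 0 (h0D k)).eq_or_lt with e | e
      · rw [← e, Real.zero_rpow hp0.ne', zero_mul] at h1
        linarith
      · exact e
    exact h1.trans (prod_le hq0 hu ((hW' k).v0 0 (h0D k)) ((hW' k).le 0 (h0D k)))
  have hball : ∀ L : ℝ, ∀ᶠ k : ℕ in (𝓤 : Filter ℕ), ball (0 : ℂ) L ⊆ Ds k := by
    intro L
    filter_upwards [hbig' L] with k hk w hw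
    rw [mem_ball_zero_iff] at hw
    have hk0 : (0 : ℝ) ≤ k := Nat.cast_nonneg k
    exact hin k w (by linarith [hk.1])
  have hder : ∀ L : ℝ, ∀ᶠ k : ℕ in (𝓤 : Filter ℕ), ∀ w : ℂ, ‖w‖ < L →
      ‖fderiv ℝ (h k) w‖ ≤ B0 / c0 := by
    intro L
    filter_upwards [hub L, hball L] with k hk hk' w hw
    rw [le_div_iff₀ hc0, mul_comm]
    exact ((hPh k).fd_le hX hΦ hcJ (hk' (mem_ball_zero_iff.2 hw))).trans (hk w hw.le)
  obtain ⟨H, hH, hHT, hHc, hHd⟩ := exists_limit_loc_l (isCompact_TF hX.form) TF_PM (𝓤 := 𝓤) (h := h)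
    (by
      intro L
      filter_upwards [hball L] with k hk
      exact (hPh k).hol.mono hk)
    (by
      intro L
      filter_upwards [hball L] with k hk z hz
      exact (hPh k).mem z (hk hz))
    (by
      intro L
      refine ⟨B0 / c0, ?_⟩
      filter_upwards [hder L] with k hk z hz
      exact hk z (mem_ball_zero_iff.1 hz))
  have hHp : ∀ z, Tendsto (fun k => h k z) 𝓤 (𝓝 (H z)) := by
    intro z
    have h1 := hHc z (mem_univ z)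
    exact h1.comp (tendsto_id.prodMk (tendsto_const_pure.mono_right (pure_le_nhds z)))
  have hPH : PD F univ H := ⟨isOpen_univ, hH, fun z _ => hHT z⟩
  refine hno H hPH ⟨B0 / c0, fun z => ?_⟩ ?_ ?_
  · refine le_of_tendsto (hHd z).norm ?_
    filter_upwards [hder (‖z‖ + 1)] with k hk
    exact hk z (lt_add_one _)
  · have h1 := len_tendsto_on hX hΦ.twist hΦ.cont hPh h0D hPH (hHp 0) (hHd 0)
    exact one_pos.trans_le (ge_of_tendsto' h1 hlb1)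
  · have h1 := len_tendsto_on hX hΨ.twist hΨ.cont hPh h0D hPH (hHp 0) (hHd 0)
    exact (Real.exp_pos _).trans_le (ge_of_tendsto h1 hlb)

end Pool.Agent.H33
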