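import Pool.Agent.H33.KB
import Pool.Graph.R_pool_sql_team_seeded_63374d34.N154.TT.T1

/-! The Kobayashi metric and the Kobayashi pseudodistance: estimates from below. -/

set_option autoImplicit false

open Filter Topology Metric Set MvPolynomial LinearAlgebra.Projectivization

namespace Pool.Agent.H33

open Pool.Agent.Y190.OP Pool.Agent.W602.GT Pool.Agent.N155 Pool.Agent.N155.BB
open Pool.Agent.N154.GG (kobayashi projDist IsChainLength poincareDist HolMapOn holP_comp_l)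

variable {n : ℕ} {ι ι' : Type} {F : ι → MvPolynomial (Fin (n + 1)) ℂ} {d : ℕ}
  {κ : Type} {η : κ → (Fin (n + 1) → ℂ) → (Fin (n + 1) → ℂ) → (Fin (n + 1) → ℂ) → ℂ}
  {Φ Ψ : (Fin (n + 1) → ℂ) → (Fin (n + 1) → ℂ) → ℝ} {P : ℂ → Mat (n + 1)} {a ν : ℕ} {D : Set ℂ}

theorem far_bound' {q x y R M c : ℝ} (hq : 0 < q) (hx : 0 < x) (hR : 0 ≤ R) (hc : 0 < c)
    (hxy : c * R ^ ν * x ^ a ≤ y) (h2 : x ^ (1 - a * q) * y ^ q ≤ M) :
    c ^ q * R ^ (ν * q) * x ≤ M := by
  have h1 : (c * R ^ ν * x ^ a) ^ q ≤ y ^ q := Real.rpow_le_rpow (by positivity) hxy hq.le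
  have h3 : (c * R ^ ν * x ^ a) ^ q = c ^ q * R ^ (ν * q) * x ^ (a * q) := by
    rw [Real.mul_rpow (by positivity) (by positivity), Real.mul_rpow hc.le (by positivity),
      ← Real.rpow_natCast x, ← Real.rpow_natCast R, ← Real.rpow_mul hx.le, ← Real.rpow_mul hR]
  have h5 : x ^ (1 - a * q) * x ^ (a * q) = x := by
    rw [← Real.rpow_add hx]
    simp
  calc c ^ q * R ^ (ν * q) * x = x ^ (1 - a * q) * (c * R ^ ν * x ^ a) ^ q := by
        rw [h3]
        conv_lhs => rw [← h5]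
        ring
    _ ≤ x ^ (1 - a * q) * y ^ q := mul_le_mul_of_nonneg_left h1 (Real.rpow_nonneg hx.le _)
    _ ≤ M := h2

variable [Fintype κ]

/-- **The Kobayashi metric.** -/
theorem inf_est (h : Hyp F d Φ η ν) {ε : ℝ} (hε : 0 < ε) : ∃ C : ℝ, 0 < C ∧ ∀ P,
    PD F (ball 0 1) P → ∀ R : ℝ, 0 ≤ R → R ≤ 1 → (∀ H, Ec F Φ H → ∀ t, R ≤ ‖P 0 - H t‖) →
      len Φ P 0 * R ^ ε ≤ C ∧ ‖fderiv ℝ P 0‖ * R ^ ε ≤ C := by
  obtain ⟨a, Ψ, -, hΨ, hze, c', hc', hlow⟩ := exists_weight_low h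
  obtain ⟨c0, hc0, hcJ⟩ := jd_le h.hX h.hΦ h.hnd
  obtain ⟨c1, C1, hc1, hC1, hcC1⟩ := len_le_ge h.hX h.hΦ h.hnd
  have hno : ∀ H : ℂ → Mat (n + 1), PD F univ H → (∃ B : ℝ, ∀ z, ‖fderiv ℝ H z‖ ≤ B) →
      0 < len Φ H 0 → ¬ 0 < len Ψ H 0 := by
    rintro H hH ⟨B, hB⟩ h1 h2
    have hT : ∀ z, H z ∈ TF F := fun z => hH.mem z (mem_univ z)
    have hphi : (fun z => Phi (toProj (H z)).rep) = H := funext fun z =>
      Phi_rep_toProj (TF_PM (hT z))
    have hin : HolIn F fun z => toProj (H z) :=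
      ⟨holMap_of hH.hol, fun z => rep_toProj h.hX.form (hT z)⟩
    have hnc : ∃ z w, toProj (H z) ≠ toProj (H w) := by
      by_contra hcon
      push Not at hcon
      have h3 : ∀ z, H z = H 0 := fun z => by
        have := congrArg (fun p : ℙ ℂ (Fin (n + 1) → ℂ) => Phi p.rep) (hcon z 0)
        change (fun z => Phi (toProj (H z)).rep) z = (fun z => Phi (toProj (H z)).rep) 0 at this
        rwa [hphi] at this
      have h4 : fderiv ℝ H 0 = 0 := by
        have : H = fun _ => H 0 := funext h3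
        rw [this]
        simp
      have h5 := (hcC1 H hH.hol hT 0).2
      rw [h4, norm_zero, mul_zero] at h5
      linarith
    have h3 := (hasSpeed_iff h.hX hΨ.twist hin).1 (null_all h hΨ hze hin hnc) 0
    rw [hphi] at h3
    linarith
  -- the exponent
  obtain ⟨q, hq0, haq, hνq⟩ : ∃ q : ℝ, 0 < q ∧ a * q < 1 ∧ ν * q ≤ ε := by
    refine ⟨min (1 / ((a : ℝ) + 1)) (ε / ((ν : ℝ) + 1)), lt_min (by positivity) (by positivity),
      ?_, ?_⟩
    · have h1 : a * min (1 / ((a : ℝ) + 1)) (ε / ((ν : ℝ) + 1)) ≤ a * (1 / ((a : ℝ) + 1)) :=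
        mul_le_mul_of_nonneg_left (min_le_left _ _) (Nat.cast_nonneg a)
      refine h1.trans_lt ?_
      rw [mul_one_div, div_lt_one (by positivity)]
      exact lt_add_one _
    · have h1 : ν * min (1 / ((a : ℝ) + 1)) (ε / ((ν : ℝ) + 1)) ≤ ν * (ε / ((ν : ℝ) + 1)) :=
        mul_le_mul_of_nonneg_left (min_le_right _ _) (Nat.cast_nonneg ν)
      refine h1.trans ?_
      rw [mul_div_assoc', div_le_iff₀ (by positivity)]
      nlinarith [(Nat.cast_nonneg ν : (0 : ℝ) ≤ ν)]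
  obtain ⟨M, hM, hdb⟩ := disc_bound h.hX h.hΦ h.hnd hΨ hno hq0 haq
  have hcq : 0 < c' ^ q := Real.rpow_pos_of_pos hc' q
  refine ⟨M / c' ^ q + M / c' ^ q / c0, by positivity, fun P hP R hR0 hR1 hR => ?_⟩
  have h0b : (0 : ℂ) ∈ ball (0 : ℂ) 1 := mem_ball_self one_pos
  obtain ⟨V, g, hcu, hzV, -, hg⟩ := hP.lift h.hX h0b
  have hT := hcu.tg hzV
  have e1 : len Φ P 0 = Φ (g 0) (deriv g 0) := len_cur h.hΦ.twist hcu hg hzV
  have e2 : len Ψ P 0 = Ψ (g 0) (deriv g 0) := len_cur hΨ.twist hcu hg hzV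
  have hx : P 0 = Phi (g 0) := hg 0 hzV
  have hu0 : 0 ≤ len Φ P 0 := by
    rw [e1]
    exact phi_nonneg h.hΦ hT
  have key : len Φ P 0 * R ^ ε ≤ M / c' ^ q := by
    rcases hu0.eq_or_lt with hz | hpos
    · rw [← hz, zero_mul]
      positivity
    have h1 := hlow (g 0) (deriv g 0) hT R hR0 hR1 (fun H hH t => by
      rw [← hx]
      exact hR H hH t)
    rw [← e1, ← e2] at h1
    have h2 := far_bound' (ν := ν) hq0 hpos hR0 hc' h1 (hdb P hP)
    have h3 : R ^ ε ≤ R ^ (ν * q) := by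
      rcases hR0.eq_or_lt with hz | hRp
      · rw [← hz, Real.zero_rpow hε.ne']
        exact Real.rpow_nonneg le_rfl _
      · exact Real.rpow_le_rpow_of_exponent_ge hRp hR1 hνq
    rw [le_div_iff₀ hcq]
    calc len Φ P 0 * R ^ ε * c' ^ q = c' ^ q * R ^ ε * len Φ P 0 := by ring
      _ ≤ c' ^ q * R ^ (ν * q) * len Φ P 0 := by gcongr
      _ ≤ M := h2
  have h4 := hP.fd_le h.hX h.hΦ hcJ h0b
  have hRε : 0 ≤ R ^ ε := Real.rpow_nonneg hR0 _
  have h5 : ‖fderiv ℝ P 0‖ * R ^ ε ≤ M / c' ^ q / c0 := by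
    rw [le_div_iff₀ hc0]
    calc ‖fderiv ℝ P 0‖ * R ^ ε * c0 = c0 * ‖fderiv ℝ P 0‖ * R ^ ε := by ring
      _ ≤ len Φ P 0 * R ^ ε := mul_le_mul_of_nonneg_right h4 hRε
      _ ≤ _ := key
  have h6 : 0 < M / c' ^ q := by positivity
  have h7 : 0 < M / c' ^ q / c0 := by positivity
  exact ⟨by linarith, by linarith⟩

omit [Fintype κ]

/-- functions along paths -/
theorem path_fun {E : Type*} [NormedAddCommGroup E] [NormedSpace ℝ E] {H H' : ℝ → E} {K : Set E}
    {L : ℝ} (hL : 0 ≤ L) {g : E → ℝ} (hg1 : ∀ M M', g M' - g M ≤ ‖M' - M‖)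
    (hg2 : ∀ M, M ∉ K → ∀ᶠ M' in 𝓝 M, g M' = g M)
    (hH : ∀ u ∈ Icc (0 : ℝ) 1, HasDerivAt H (H' u) u)
    (hb : ∀ u ∈ Icc (0 : ℝ) 1, H u ∈ K → ‖H' u‖ ≤ L) : g (H 1) ≤ g (H 0) + L := by
  have hcH : ∀ u ∈ Icc (0 : ℝ) 1, ContinuousAt H u := fun u hu => (hH u hu).continuousAt
  have hgc : Continuous g := by
    have : LipschitzWith 1 g := LipschitzWith.of_dist_le_mul fun M M' => by
      rw [Real.dist_eq, dist_eq_norm, NNReal.coe_one, one_mul, abs_le]
      have h1 := hg1 M M'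
      have h2 := hg1 M' M
      rw [norm_sub_rev] at h1
      constructor <;> linarith
    exact this.continuous
  have hcg : ∀ u ∈ Icc (0 : ℝ) 1, ContinuousAt (fun u => g (H u)) u := fun u hu =>
    hgc.continuousAt.comp (hcH u hu)
  have h1 := image_le_of_liminf_slope_right_le_deriv_boundary (f := fun u => g (H u)) (a := 0)
    (b := 1) (fun u hu => (hcg u hu).continuousWithinAt) (B := fun u => g (H 0) + L * u)
    (B' := fun _ => L)
    (by simp) (by fun_prop) (fun u _ => by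
      have := ((hasDerivAt_id u).const_mul L).const_add (g (H 0))
      rw [mul_one] at this
      exact this.hasDerivWithinAt) (fun u hu s hs => by
      apply Eventually.frequently
      have hu' : u ∈ Icc (0 : ℝ) 1 := ⟨hu.1, hu.2.le⟩
      by_cases h2 : H u ∈ K
      · have h3 := (hH u hu').hasDerivWithinAt (s := Ioi u)
        have h4 := h3.limsup_norm_slope_le ((hb u hu' h2).trans_lt hs)
        filter_upwards [h4, self_mem_nhdsWithin] with v hv hvu
        have hvu' : 0 < v - u := sub_pos.2 hvu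
        rw [Real.norm_of_nonneg hvu'.le] at hv
        rw [slope_def_field, div_lt_iff₀ hvu']
        rw [inv_mul_lt_iff₀ hvu'] at hv
        linarith [hg1 (H u) (H v)]
      · have h3 : ∀ᶠ v in 𝓝 u, g (H v) = g (H u) := (hcH u hu').eventually (hg2 _ h2)
        filter_upwards [mem_nhdsWithin_of_mem_nhds h3, self_mem_nhdsWithin] with v hv hvu
        rw [slope_def_field, hv, sub_self, zero_div]
        linarith)
  have h2 := h1 (show (1 : ℝ) ∈ Icc (0 : ℝ) 1 from ⟨zero_le_one, le_rfl⟩)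
  simp only [mul_one] at h2
  exact h2

/-- functions along discs -/
theorem disc_fun {N : ℕ} {T K : Set (Mat N)} {C B : ℝ} (hC : 0 < C) (hB : 0 < B)
    (hinf : ∀ P : ℂ → Mat N, HolP (ball 0 1) P → (∀ w ∈ ball (0 : ℂ) 1, P w ∈ T) → P 0 ∈ K →
      ‖fderiv ℝ P 0‖ ≤ C) {g : Mat N → ℝ} (hg1 : ∀ M M', g M' - g M ≤ ‖M' - M‖)
    (hg2 : ∀ M, M ∉ K → ∀ᶠ M' in 𝓝 M, g M' = g M) (hg3 : ∀ M, 0 ≤ g M ∧ g M ≤ B) :
    ∀ P : ℂ → Mat N, HolP (ball 0 1) P → (∀ w ∈ ball (0 : ℂ) 1, P w ∈ T) →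
      ∀ s ∈ ball (0 : ℂ) 1, ∀ t ∈ ball (0 : ℂ) 1,
        dist (g (P t)) (g (P s)) ≤ (2 * C + 2 * B) * Pool.Agent.Helper206.cost s t := by
  intro P hP hPT s hs t ht
  obtain ⟨ζ, hζ, hζn, hζt⟩ := Pool.Agent.Helper206.exists_mob_eq hs ht
  have hmap : MapsTo (Pool.Agent.Helper206.mob s) (ball 0 1) (ball 0 1) := fun z hz =>
    Pool.Agent.Helper206.mob_mem hs hz
  set h : ℂ → Mat N := fun z => P (Pool.Agent.Helper206.mob s z) with hh
  have hH : HolP (ball 0 1) h :=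
    holP_comp_l hP (Pool.Agent.Helper206.mob_differentiableOn hs) isOpen_ball hmap
  have hHT : ∀ z ∈ ball (0 : ℂ) 1, h z ∈ T := fun z hz => hPT _ (hmap hz)
  have hdh : ∀ z ∈ ball (0 : ℂ) 1, DifferentiableAt ℝ h z := fun z hz => hH.differentiableAt hz
  have h0 : h 0 = P s := by rw [hh]; simp only [Pool.Agent.Helper206.mob_zero]
  have h1 : h ζ = P t := by rw [hh]; simp only [hζt]
  rw [← h0, ← h1]
  clear_value h
  have hcost : ‖ζ‖ ≤ Pool.Agent.Helper206.cost s t := by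
    rw [hζn]; exact Pool.Agent.Helper206.phd_le_cost hs ht
  suffices dist (g (h ζ)) (g (h 0)) ≤ (2 * C + 2 * B) * ‖ζ‖ from
    this.trans (mul_le_mul_of_nonneg_left hcost (by positivity))
  rcases le_or_gt ‖ζ‖ (1 / 2) with hle | hgt
  · set L : ℝ := 2 * C * ‖ζ‖ with hL
    have hL0 : 0 ≤ L := by positivity
    have hder : ∀ z ∈ closedBall (0 : ℂ) (1 / 2), h z ∈ K → ‖fderiv ℝ h z‖ ≤ 2 * C := by
      intro z hz hzM
      have hz' : ‖z‖ ≤ 1 / 2 := mem_closedBall_zero_iff.1 hz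
      have hz1 : z ∈ ball (0 : ℂ) 1 := mem_ball_zero_iff.2 (by linarith)
      have hmaps : MapsTo (fun w : ℂ => z + ((1 / 2 : ℝ) : ℂ) * w) (ball 0 1) (ball 0 1) := by
        intro w hw
        rw [mem_ball_zero_iff] at hw ⊢
        refine lt_of_le_of_lt (norm_add_le _ _) ?_
        rw [norm_mul, Complex.norm_real, Real.norm_of_nonneg (by norm_num)]
        linarith
      have h2 := hinf (fun w => h (z + ((1 / 2 : ℝ) : ℂ) * w))
        (holP_comp_l hH (by fun_prop) isOpen_ball hmaps) (fun w hw => hHT _ (hmaps hw))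
        (by simpa using hzM)
      have h3 : ‖fderiv ℝ (fun w => h (z + ((1 / 2 : ℝ) : ℂ) * w)) 0‖ =
          (1 / 2) * ‖fderiv ℝ h z‖ := by
        have e1 : aff z (1 / 2) 0 = z := by simp [aff]
        have := norm_fderiv_aff (Ψ := h) (a := z) (ρ := 1 / 2) (z := 0) (by norm_num)
          (by rw [e1]; exact hH.differentiableAt hz1)
        rw [e1] at this
        rw [← this]
        congr 1
      rw [h3] at h2
      linarith
    have hpath : ∀ z ∈ closedBall (0 : ℂ) (1 / 2), ∀ w ∈ closedBall (0 : ℂ) (1 / 2),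
        ‖w - z‖ = ‖ζ‖ → g (h w) ≤ g (h z) + L := by
      intro z hz w hw hzw
      have hseg : ∀ u ∈ Icc (0 : ℝ) 1, z + (u : ℂ) * (w - z) ∈ closedBall (0 : ℂ) (1 / 2) := by
        intro u hu
        have := (convex_closedBall (0 : ℂ) (1 / 2)).add_smul_sub_mem hz hw hu
        rwa [Complex.real_smul] at this
      have h2 := path_fun (H := fun u : ℝ => h (z + (u : ℂ) * (w - z)))
        (H' := fun u : ℝ => fderiv ℝ h (z + (u : ℂ) * (w - z)) (w - z)) (K := K)
        hL0 hg1 hg2 (fun u hu => by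
          have e1 : HasDerivAt (fun u : ℝ => z + (u : ℂ) * (w - z)) (w - z) u := by
            have := ((Complex.ofRealCLM.hasDerivAt (x := u)).mul_const (w - z)).const_add z
            simpa using this
          have e2 : HasFDerivAt h (fderiv ℝ h (z + (u : ℂ) * (w - z))) (z + (u : ℂ) * (w - z)) :=
            (hdh _ (closedBall_subset_ball (by norm_num) (hseg u hu))).hasFDerivAt
          exact HasFDerivAt.comp_hasDerivAt u e2 e1)
        (fun u hu hub => by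
          refine (ContinuousLinearMap.le_opNorm _ _).trans ?_
          rw [hzw, hL]
          exact mul_le_mul_of_nonneg_right (hder _ (hseg u hu) hub) (norm_nonneg _))
      simp only [Complex.ofReal_one, one_mul, Complex.ofReal_zero, zero_mul, add_zero,
        add_sub_cancel] at h2
      exact h2
    have hζc : ζ ∈ closedBall (0 : ℂ) (1 / 2) := mem_closedBall_zero_iff.2 hle
    have h0c : (0 : ℂ) ∈ closedBall (0 : ℂ) (1 / 2) := mem_closedBall_self (by norm_num)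
    have e1 := hpath 0 h0c ζ hζc (by rw [sub_zero])
    have e2 := hpath ζ hζc 0 h0c (by rw [zero_sub, norm_neg])
    have e3 : L ≤ (2 * C + 2 * B) * ‖ζ‖ := by
      rw [hL]
      have : 0 ≤ 2 * B * ‖ζ‖ := by positivity
      nlinarith
    rw [Real.dist_eq, abs_le]
    constructor <;> linarith
  · have h4 : B ≤ (2 * C + 2 * B) * ‖ζ‖ := by
      have : 0 ≤ 2 * C * ‖ζ‖ := by positivity
      nlinarith
    rw [Real.dist_eq, abs_le]
    constructor
    · linarith [(hg3 (h ζ)).1, (hg3 (h 0)).2]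
    · linarith [(hg3 (h 0)).1, (hg3 (h ζ)).2]

/-- functions along chains -/
theorem chain_fun {g : Mat (n + 1) → ℝ} {A : ℝ} (hA : 0 ≤ A)
    (h : ∀ P : ℂ → Mat (n + 1), HolP (ball 0 1) P → (∀ w ∈ ball (0 : ℂ) 1, P w ∈ TF F) →
      ∀ s ∈ ball (0 : ℂ) 1, ∀ t ∈ ball (0 : ℂ) 1,
        dist (g (P t)) (g (P s)) ≤ A * Pool.Agent.Helper206.cost s t)
    {p q : ℙ ℂ (Fin (n + 1) → ℂ)} {c : ℝ} (hc : IsChainLength (Cone F) p q c) :
    dist (g (Phi q.rep)) (g (Phi p.rep)) ≤ A * c := by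
  obtain ⟨k, r, f, s, t, h0, hl, hi, rfl⟩ := hc
  have h1 := Pool.Agent.Helper206.chain_bound k (fun j => g (Phi (r j).rep))
    (fun i => A * poincareDist (s i) (t i))
    (by
      intro i
      obtain ⟨-, -, hs, ht, -, -⟩ := hi i
      exact mul_nonneg hA ((Pool.Agent.Helper206.phd_nonneg (s i) (t i)).trans
        (Pool.Agent.Helper206.phd_le_cost hs ht)))
    (by
      intro i
      obtain ⟨hf, hfS, hs, ht, es, et⟩ := hi i
      have := h (fun z => Phi (f i z).rep) (Pool.Agent.N154.GG.holP_of_on hf)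
        (fun w hw => mem_TF (hfS w hw)) _ hs _ ht
      simp only [es, et, Pool.Agent.N154.GG.cost_eq] at this
      exact this) (Fin.last k)
  simp only [h0, hl] at h1
  rw [← Finset.mul_sum] at h1
  exact h1

end Pool.Agent.H33
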