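import Pool.Agent.H33.HDefs

/-! Points which are joined by curves. -/

set_option autoImplicit false

open LinearAlgebra.Projectivization

namespace Pool.Agent.H33

variable {n : ℕ}

/-- The points `p` and `q` are equal, or joined by a chain of images of maps in `S`: there are points
`p = p 0, p 1, …, p k = q` such that `p j` and `p (j + 1)` are in the image of one map in `S`. -/
def Joined (S : Set (ℂ → ℙ ℂ (Fin (n + 1) → ℂ))) (p q : ℙ ℂ (Fin (n + 1) → ℂ)) : Prop :=
  Relation.ReflTransGen (fun p q => ∃ h ∈ S, ∃ z w, h z = p ∧ h w = q) p q

end Pool.Agent.H33
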