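import Pool.Agent.H33.KC
import Pool.Agent.H33.KDefs

/-! The Kobayashi pseudodistance: where it vanishes. -/

set_option autoImplicit false

open Filter Topology Metric Set MvPolynomial LinearAlgebra.Projectivization

namespace Pool.Agent.H33

open Pool.Agent.Y190.OP Pool.Agent.W602.GT Pool.Agent.N155 Pool.Agent.N155.BB
open Pool.Agent.N154.GG (kobayashi projDist IsChainLength poincareDist HolMapOn holP_comp_l)

variable {n : ℕ} {ι ι' : Type} {F : ι → MvPolynomial (Fin (n + 1)) ℂ} {d : ℕ}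
  {κ : Type} {η : κ → (Fin (n + 1) → ℂ) → (Fin (n + 1) → ℂ) → (Fin (n + 1) → ℂ) → ℂ}
  {Φ Ψ : (Fin (n + 1) → ℂ) → (Fin (n + 1) → ℂ) → ℝ} {P : ℂ → Mat (n + 1)} {a ν : ℕ} {D : Set ℂ}

/-- one more disc -/
theorem chain_snoc {X : Set (Fin (n + 1) → ℂ)} {p q q' : ℙ ℂ (Fin (n + 1) → ℂ)} {c : ℝ}
    (hc : IsChainLength X p q c) {f : ℂ → ℙ ℂ (Fin (n + 1) → ℂ)} {s t : ℂ}
    (hf : Pool.Agent.N154.GG.HolMapOn (ball 0 1) f) (hfX : ∀ z ∈ ball (0 : ℂ) 1, (f z).rep ∈ X)
    (hs : s ∈ ball (0 : ℂ) 1) (ht : t ∈ ball (0 : ℂ) 1) (hsq : f s = q) (htq : f t = q') :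
    IsChainLength X p q' (c + poincareDist s t) := by
  obtain ⟨k, r, g, a, b, h0, hl, hi, rfl⟩ := hc
  refine ⟨k + 1, Fin.snoc (α := fun _ => ℙ ℂ (Fin (n + 1) → ℂ)) r q',
    Fin.snoc (α := fun _ => ℂ → ℙ ℂ (Fin (n + 1) → ℂ)) g f, Fin.snoc (α := fun _ => ℂ) a s,
    Fin.snoc (α := fun _ => ℂ) b t, ?_, ?_, ?_, ?_⟩
  · rw [← Fin.castSucc_zero, Fin.snoc_castSucc]
    exact h0
  · rw [Fin.snoc_last]
  · intro i
    refine Fin.lastCases ?_ (fun j => ?_) i
    · simp only [Fin.snoc_last, Fin.snoc_castSucc, Fin.succ_last]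
      exact ⟨hf, hfX, hs, ht, by rw [hsq, hl], htq⟩
    · simp only [Fin.snoc_castSucc, Fin.succ_castSucc]
      exact hi j
  · rw [Fin.sum_univ_castSucc]
    simp only [Fin.snoc_last, Fin.snoc_castSucc]

theorem chain_refl {X : Set (Fin (n + 1) → ℂ)} (p : ℙ ℂ (Fin (n + 1) → ℂ)) :
    IsChainLength X p p 0 := by
  refine ⟨0, fun _ => p, fun i => i.elim0, fun i => i.elim0, fun i => i.elim0, rfl, rfl,
    fun i => i.elim0, ?_⟩
  simp

/-- entire curves have small discs -/
theorem small_disc {h : ℂ → ℙ ℂ (Fin (n + 1) → ℂ)} (hh : HolIn F h) (z w : ℂ) {δ : ℝ}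
    (hδ : 0 < δ) : ∃ (f : ℂ → ℙ ℂ (Fin (n + 1) → ℂ)) (s t : ℂ),
      Pool.Agent.N154.GG.HolMapOn (ball 0 1) f ∧
      (∀ z ∈ ball (0 : ℂ) 1, (f z).rep ∈ Cone F) ∧ s ∈ ball (0 : ℂ) 1 ∧ t ∈ ball (0 : ℂ) 1 ∧
      f s = h z ∧ f t = h w ∧ poincareDist s t < δ := by
  have hcont : ContinuousAt (fun t : ℂ => poincareDist 0 t) 0 := by
    unfold poincareDist
    have h1 : ContinuousAt (fun t : ℂ => ‖0 - t‖ / ‖1 - (starRingEnd ℂ) 0 * t‖) 0 := by
      apply ContinuousAt.div
      · fun_prop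
      · fun_prop
      · simp
    apply ContinuousAt.log
    · apply ContinuousAt.div
      · exact continuousAt_const.add h1
      · exact continuousAt_const.sub h1
      · simp
    · simp
  have h0 : poincareDist 0 0 < δ := by
    unfold poincareDist
    simpa using hδ
  have hev : ∀ᶠ t : ℂ in 𝓝 0, poincareDist 0 t < δ ∧ t ∈ ball (0 : ℂ) 1 :=
    (hcont.eventually_lt_const h0).and (ball_mem_nhds 0 one_pos)
  obtain ⟨r, hr, hb⟩ := Metric.eventually_nhds_iff_ball.1 hev
  set R : ℝ := (‖w - z‖ + 1) / r with hR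
  have hR0 : 0 < R := by positivity
  have hRc : (R : ℂ) ≠ 0 := by exact_mod_cast hR0.ne'
  have ht : (w - z) / (R : ℂ) ∈ ball (0 : ℂ) r := by
    rw [mem_ball_zero_iff, norm_div, Complex.norm_real, Real.norm_of_nonneg hR0.le, hR,
      div_lt_iff₀ (by positivity)]
    rw [mul_div_cancel₀ _ hr.ne']
    exact lt_add_one _
  obtain ⟨ht1, ht2⟩ := hb _ ht
  refine ⟨fun u => h (z + R * u), 0, (w - z) / R, ?_, fun u _ => hh.2 _, mem_ball_self one_pos,
    ht2, by simp, ?_, ht1⟩
  · intro u _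
    obtain ⟨V, g, hV, hzV, hg, hfg⟩ := hh.1 (z + R * u)
    have hc : Continuous fun u : ℂ => z + R * u := by fun_prop
    refine ⟨(fun u : ℂ => z + R * u) ⁻¹' V, fun u => g (z + R * u), hV.preimage hc, hzV, ?_,
      fun w hw => hfg _ hw⟩
    exact hg.comp (by fun_prop : Differentiable ℂ fun u : ℂ => z + R * u).differentiableOn
      fun w hw => hw
  · simp only
    rw [mul_div_cancel₀ _ hRc]
    congr 1
    ring

/-- **Points joined by entire curves.** -/
theorem kob_zero {S : Set (ℂ → ℙ ℂ (Fin (n + 1) → ℂ))} (hS : ∀ h ∈ S, HolIn F h)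
    {p q : ℙ ℂ (Fin (n + 1) → ℂ)} (hpq : Joined S p q) : kobayashi (Cone F) p q = 0 := by
  have key : ∀ δ : ℝ, 0 < δ → ∃ c, IsChainLength (Cone F) p q c ∧ c < δ := by
    induction hpq with
    | refl => exact fun δ hδ => ⟨0, chain_refl _, hδ⟩
    | tail _ hstep ih =>
      intro δ hδ
      obtain ⟨h, hh, z, w, rfl, rfl⟩ := hstep
      obtain ⟨c, hc, hcδ⟩ := ih (δ / 2) (by positivity)
      obtain ⟨f, s, t, hf, hfX, hs, ht, hsq, htq, hlt⟩ := small_disc (hS h hh) z w
        (show 0 < δ / 2 by positivity)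
      exact ⟨_, chain_snoc hc hf hfX hs ht hsq htq, by linarith⟩
  by_contra hne
  have hpos : 0 < kobayashi (Cone F) p q := pos_iff_ne_zero.2 hne
  obtain ⟨δ, hδ0, hδ⟩ : ∃ δ : ℝ, 0 < δ ∧ ENNReal.ofReal δ < kobayashi (Cone F) p q := by
    rcases eq_or_ne (kobayashi (Cone F) p q) ⊤ with h | h
    · exact ⟨1, one_pos, by rw [h]; exact ENNReal.ofReal_lt_top⟩
    · have h1 := ENNReal.toReal_pos hne h
      refine ⟨(kobayashi (Cone F) p q).toReal / 2, by positivity, ?_⟩
      rw [ENNReal.ofReal_lt_iff_lt_toReal (by positivity) h]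
      exact half_lt_self h1
  obtain ⟨c, hc, hcδ⟩ := key δ hδ0
  have h1 : kobayashi (Cone F) p q ≤ ENNReal.ofReal c := iInf₂_le c hc
  exact absurd (h1.trans (ENNReal.ofReal_le_ofReal hcδ.le)) (not_le.2 hδ)

variable [Fintype κ]

/-- **The quantitative estimate of the Kobayashi pseudodistance.** -/
theorem kob_low (h : Hyp F d Φ η ν) {ε : ℝ} (hε : 0 < ε) : ∃ c : ℝ, 0 < c ∧
    ∀ p q : ℙ ℂ (Fin (n + 1) → ℂ), p.rep ∈ Cone F → q.rep ∈ Cone F → ∀ R : ℝ, 0 ≤ R → R ≤ 1 →
      (∀ H, Ec F Φ H → ∀ t, R ≤ ‖Phi p.rep - H t‖) →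
      ENNReal.ofReal (c * R ^ ε * min (projDist p q) R) ≤ kobayashi (Cone F) p q := by
  obtain ⟨C, hC, hest⟩ := inf_est h hε
  obtain ⟨C2, hC2, hdisc⟩ := Pool.Agent.N154.TT.disc_trunc_gen (T := TF F)
    (Ξ := {M | ∃ H, Ec F Φ H ∧ ∃ t, H t = M}) (ε := ε) hε hC (by
      intro P hP hPT R hR0 hR1 hR
      refine (hest P ⟨isOpen_ball, hP, hPT⟩ R hR0 hR1 fun H hH t => hR _ ⟨H, hH, t, rfl⟩).2)
  refine ⟨(2 * C2)⁻¹, by positivity, fun p q hp hq R hR0 hR1 hR => ?_⟩
  rcases hR0.eq_or_lt with hz | hRp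
  · rw [← hz, Real.zero_rpow hε.ne', mul_zero, zero_mul, ENNReal.ofReal_zero]
    exact zero_le
  unfold kobayashi
  refine le_iInf₂ fun c hc => ENNReal.ofReal_le_ofReal ?_
  have hRε : 0 < R ^ ε := Real.rpow_pos_of_pos hRp _
  have h1 := chain_trunc' (F := F) (M0 := Phi p.rep) (ρ := R / 2) (A := C2 / R ^ ε)
    (by positivity) (by
      intro P hP hPT s hs t ht
      refine hdisc R hRp hR1 (Phi p.rep) ?_ P hP hPT s hs t ht
      rintro M ⟨H, hH, t, rfl⟩
      exact hR H hH t) hc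
  have h2 : dist (min ‖Phi q.rep - Phi p.rep‖ (R / 2)) (min ‖Phi p.rep - Phi p.rep‖ (R / 2)) =
      min ‖Phi q.rep - Phi p.rep‖ (R / 2) := by
    rw [sub_self, norm_zero, min_eq_left (show (0 : ℝ) ≤ R / 2 by positivity), Real.dist_eq,
      sub_zero, abs_of_nonneg (by positivity)]
  rw [h2] at h1
  have h4 : min (projDist p q) R / 2 ≤ min ‖Phi q.rep - Phi p.rep‖ (R / 2) := by
    have e1 : projDist p q = ‖Phi q.rep - Phi p.rep‖ := norm_sub_rev _ _
    rw [e1]
    have e2 := norm_nonneg (Phi q.rep - Phi p.rep)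
    apply le_min
    · linarith [min_le_left ‖Phi q.rep - Phi p.rep‖ R]
    · linarith [min_le_right ‖Phi q.rep - Phi p.rep‖ R]
  calc (2 * C2)⁻¹ * R ^ ε * min (projDist p q) R =
        C2⁻¹ * R ^ ε * (min (projDist p q) R / 2) := by
        rw [mul_inv]
        ring
    _ ≤ C2⁻¹ * R ^ ε * (C2 / R ^ ε * c) :=
        mul_le_mul_of_nonneg_left (h4.trans h1) (by positivity)
    _ = c := by
        field_simp

/-- **Points which are not joined.** -/
theorem kob_pos (h : Hyp F d Φ η ν) {S : Set (ℂ → ℙ ℂ (Fin (n + 1) → ℂ))} (hSf : S.Finite)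
    (hSh : ∀ h ∈ S, HolIn F h) (hSp : ∀ h ∈ S, DoublyPeriodic h)
    (hlist : ∀ H, Ec F Φ H → ∀ t, ∃ h ∈ S, ∃ s, H t = Phi (h s).rep)
    {p q : ℙ ℂ (Fin (n + 1) → ℂ)} (hp : p.rep ∈ Cone F) (hq : q.rep ∈ Cone F)
    (hpq : ¬ Joined S p q) : 0 < kobayashi (Cone F) p q := by
  -- the images
  set Im : (ℂ → ℙ ℂ (Fin (n + 1) → ℂ)) → Set (Mat (n + 1)) := fun h =>
    range fun z => Phi (h z).rep with hIm
  have hImc : ∀ h ∈ S, IsCompact (Im h) := by
    intro k hk
    obtain ⟨L, hL⟩ := hSp k hk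
    have hhol := holP_of_map (hSh k hk).1
    have hc : Continuous fun z => Phi (k z).rep :=
      continuous_iff_continuousAt.2 fun z => hhol.continuousAt (mem_univ z)
    refine IsZLattice.isCompact_range_of_periodic L.lattice _ hc fun z w hw => ?_
    rw [hL w hw z]
  set S1 : Set (ℂ → ℙ ℂ (Fin (n + 1) → ℂ)) := {h ∈ S | ∃ z, Joined S p (h z)} with hS1
  set S2 : Set (ℂ → ℙ ℂ (Fin (n + 1) → ℂ)) := {h ∈ S | ¬ ∃ z, Joined S p (h z)} with hS2
  set A : Set (Mat (n + 1)) := {Phi p.rep} ∪ ⋃ h ∈ S1, Im h with hA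
  set B : Set (Mat (n + 1)) := {Phi q.rep} ∪ ⋃ h ∈ S2, Im h with hB
  have hAc : IsCompact A := isCompact_singleton.union
    ((hSf.subset fun h hh => hh.1).isCompact_biUnion fun h hh => hImc h hh.1)
  have hBc : IsCompact B := isCompact_singleton.union
    ((hSf.subset fun h hh => hh.1).isCompact_biUnion fun h hh => hImc h hh.1)
  have hAne : A.Nonempty := ⟨Phi p.rep, Or.inl rfl⟩
  have hBne : B.Nonempty := ⟨Phi q.rep, Or.inl rfl⟩
  -- elements of `A` are joined to `p`
  have hAj : ∀ r : ℙ ℂ (Fin (n + 1) → ℂ), Phi r.rep ∈ A → Joined S p r := by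
    rintro r (hr | hr)
    · rw [proj_ext hr]
      exact Relation.ReflTransGen.refl
    · simp only [mem_iUnion, hIm, mem_range] at hr
      obtain ⟨k, hk, w, hw⟩ := hr
      obtain ⟨z, hz⟩ := hk.2
      have h1 : r = k w := proj_ext hw.symm
      rw [h1]
      exact Relation.ReflTransGen.tail hz ⟨k, hk.1, z, w, rfl, rfl⟩
  have hdisj : ∀ M ∈ B, M ∉ A := by
    rintro M (hM | hM) hMA
    · rw [mem_singleton_iff.1 hM] at hMA
      exact hpq (hAj q hMA)
    · simp only [mem_iUnion, hIm, mem_range] at hM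
      obtain ⟨k, hk, w, rfl⟩ := hM
      exact hk.2 ⟨w, hAj _ hMA⟩
  -- the distance
  obtain ⟨M1, hM1, hmin⟩ := hBc.exists_isMinOn hBne (continuous_infDist_pt A).continuousOn
  have hmin' : ∀ M ∈ B, infDist M1 A ≤ infDist M A := fun M hM => hmin hM
  have hr0 : 0 < infDist M1 A := (hAc.isClosed.notMem_iff_infDist_pos hAne).1 (hdisj M1 hM1)
  set r : ℝ := infDist M1 A / 3 with hr
  have hrpos : 0 < r := by positivity
  have hBr : ∀ M ∈ B, 3 * r ≤ infDist M A := fun M hM => by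
    have := hmin' M hM
    rw [hr]
    linarith
  -- the function
  set g : Mat (n + 1) → ℝ := fun M => min (max (infDist M A - r) 0) r with hg
  set K : Set (Mat (n + 1)) := {M | r ≤ infDist M A ∧ infDist M A ≤ 2 * r} with hK
  have hi1 : ∀ M M' : Mat (n + 1), infDist M' A - infDist M A ≤ ‖M' - M‖ := fun M M' => by
    have := infDist_le_infDist_add_dist (s := A) (x := M') (y := M)
    rw [dist_eq_norm] at this
    linarith
  have hg1 : ∀ M M' : Mat (n + 1), g M' - g M ≤ ‖M' - M‖ := by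
    intro M M'
    have h1 := hi1 M M'
    have h2 := norm_nonneg (M' - M)
    rw [hg]
    simp only
    rcases le_total (infDist M A - r) 0 with e1 | e1
    · rw [max_eq_right e1, min_eq_left hrpos.le]
      have h3 : max (infDist M' A - r) 0 ≤ ‖M' - M‖ := max_le (by linarith) h2
      linarith [min_le_left (max (infDist M' A - r) 0) r]
    · rw [max_eq_left e1]
      rcases le_total (infDist M A - r) r with e2 | e2
      · rw [min_eq_left e2]
        have h3 : max (infDist M' A - r) 0 ≤ infDist M A - r + ‖M' - M‖ :=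
          max_le (by linarith) (by linarith)
        linarith [min_le_left (max (infDist M' A - r) 0) r]
      · rw [min_eq_right e2]
        linarith [min_le_right (max (infDist M' A - r) 0) r]
  have hg2 : ∀ M, M ∉ K → ∀ᶠ M' in 𝓝 M, g M' = g M := by
    intro M hM
    have hca : ContinuousAt (fun M => infDist M A) M := (continuous_infDist_pt A).continuousAt
    rcases lt_or_ge (infDist M A) r with e1 | e1
    · filter_upwards [hca.eventually_lt_const e1] with M' hM'
      rw [hg]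
      simp only
      rw [max_eq_right (by linarith), max_eq_right (by linarith)]
    · have e2 : 2 * r < infDist M A := by
        by_contra hcon
        push Not at hcon
        exact hM ⟨e1, hcon⟩
      filter_upwards [hca.eventually_const_lt e2] with M' hM'
      rw [hg]
      simp only
      rw [max_eq_left (by linarith), max_eq_left (by linarith), min_eq_right (by linarith),
        min_eq_right (by linarith)]
  have hg3 : ∀ M, 0 ≤ g M ∧ g M ≤ r := fun M =>
    ⟨le_min (le_max_right _ _) hrpos.le, min_le_right _ _⟩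
  -- the estimate on `K`
  obtain ⟨C, hC, hest⟩ := inf_est h one_pos
  have hinf : ∀ P : ℂ → Mat (n + 1), HolP (ball 0 1) P → (∀ w ∈ ball (0 : ℂ) 1, P w ∈ TF F) →
      P 0 ∈ K → ‖fderiv ℝ P 0‖ ≤ C / min r 1 := by
    intro P hP hPT hPK
    have hm : 0 < min r 1 := lt_min hrpos one_pos
    have h1 := (hest P ⟨isOpen_ball, hP, hPT⟩ (min r 1) hm.le (min_le_right _ _) (by
      intro H hH t
      refine (min_le_left _ _).trans ?_
      obtain ⟨k, hk, s, hs⟩ := hlist H hH t
      by_cases hk1 : ∃ z, Joined S p (k z)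
      · have hmem : H t ∈ A := by
          right
          rw [hs]
          simp only [mem_iUnion]
          exact ⟨k, ⟨hk, hk1⟩, s, rfl⟩
        have h2 := infDist_le_dist_of_mem (x := P 0) hmem
        rw [dist_eq_norm] at h2
        exact hPK.1.trans h2
      · have hmem : H t ∈ B := by
          right
          rw [hs]
          simp only [mem_iUnion]
          exact ⟨k, ⟨hk, hk1⟩, s, rfl⟩
        have h2 := hBr _ hmem
        have h3 := hi1 (P 0) (H t)
        rw [norm_sub_rev] at h3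
        have h4 := hPK.2
        linarith)).2
    rw [Real.rpow_one] at h1
    rwa [le_div_iff₀ hm]
  have hdf := disc_fun (T := TF F) (K := K) (C := C / min r 1) (B := r)
    (div_pos hC (lt_min hrpos one_pos)) hrpos hinf hg1 hg2 hg3
  set A' : ℝ := 2 * (C / min r 1) + 2 * r with hA'
  have hA'0 : 0 < A' := by
    have := div_pos hC (lt_min hrpos one_pos)
    positivity
  have hgp : g (Phi p.rep) = 0 := by
    have h1 : infDist (Phi p.rep) A = 0 := infDist_zero_of_mem (Or.inl rfl)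
    rw [hg]
    simp only
    rw [h1, max_eq_right (by linarith), min_eq_left hrpos.le]
  have hgq : g (Phi q.rep) = r := by
    have h1 := hBr (Phi q.rep) (Or.inl rfl)
    rw [hg]
    simp only
    rw [max_eq_left (by linarith), min_eq_right (by linarith)]
  have hfin : ENNReal.ofReal (r / A') ≤ kobayashi (Cone F) p q := by
    unfold kobayashi
    refine le_iInf₂ fun c hc => ENNReal.ofReal_le_ofReal ?_
    have h1 := chain_fun hA'0.le hdf hc
    rw [hgp, hgq, Real.dist_eq, sub_zero, abs_of_pos hrpos] at h1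
    rw [div_le_iff₀ hA'0]
    linarith
  exact (ENNReal.ofReal_pos.2 (by positivity)).trans_le hfin

end Pool.Agent.H33
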