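import Pool.Agent.H33.KD
import Pool.Agent.H33.HGGL

/-! The Kobayashi pseudodistance of manifolds of nonpositive curvature. -/

set_option autoImplicit false

open Filter Topology Metric Set MvPolynomial LinearAlgebra.Projectivization

namespace Pool.Agent.H33

open Pool.Agent.Y190.OP Pool.Agent.W602.GT Pool.Agent.N155 Pool.Agent.N155.BB
open Pool.Agent.N154.GG (kobayashi projDist)

variable {n : ℕ} {ι : Type} {F : ι → MvPolynomial (Fin (n + 1)) ℂ} {d : ℕ}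
  {κ : Type} {η : κ → (Fin (n + 1) → ℂ) → (Fin (n + 1) → ℂ) → (Fin (n + 1) → ℂ) → ℂ}
  {Φ : (Fin (n + 1) → ℂ) → (Fin (n + 1) → ℂ) → ℝ} {ν : ℕ}

theorem joined_head {S : Set (ℂ → ℙ ℂ (Fin (n + 1) → ℂ))} {p q : ℙ ℂ (Fin (n + 1) → ℂ)}
    (h : Joined S p q) (hne : p ≠ q) : (∃ h ∈ S, ∃ z, h z = p) ∧ ∃ h ∈ S, ∃ z, h z = q := by
  constructor
  · rcases Relation.ReflTransGen.cases_head h with e | ⟨r, ⟨k, hk, z, w, hz, hw⟩, -⟩
    · exact absurd e hne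
    · exact ⟨k, hk, z, hz⟩
  · rcases Relation.ReflTransGen.cases_tail h with e | ⟨r, -, k, hk, z, w, hz, hw⟩
    · exact absurd e.symm hne
    · exact ⟨k, hk, w, hw⟩

/-- **The Kobayashi pseudodistance.** -/
theorem kob [Finite κ] (hX : ProjManifold F d) (hη : PositiveTwoForms (Cone F) ∅ d η) (hν : ν ≠ 0)
    (hh : HomForms (Cone F) ν η) (hΦ : NonposMetric (Cone F) d Φ)
    (hnd : Nondegenerate (Cone F) d Φ)
    (hr : HermitianMetric (Cone F) d Φ ∨ UniformlyConvex (Cone F) d Φ) :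
    ∃ S : Finset (ℂ → ℙ ℂ (Fin (n + 1) → ℂ)),
      (∀ h ∈ S, HolIn F h ∧ DoublyPeriodic h ∧ HasSpeed Φ 1 h) ∧
      (∀ p q : ℙ ℂ (Fin (n + 1) → ℂ), p.rep ∈ Cone F → q.rep ∈ Cone F →
        (kobayashi (Cone F) p q = 0 ↔ Joined S p q)) ∧
      (∀ ε : ℝ, 0 < ε → ∃ c : ℝ, 0 < c ∧ ∀ p q : ℙ ℂ (Fin (n + 1) → ℂ), p.rep ∈ Cone F →
        q.rep ∈ Cone F → ∀ R : ℝ, 0 ≤ R → R ≤ 1 → (∀ h ∈ S, ∀ z, R ≤ projDist p (h z)) →
        ENNReal.ofReal (c * R ^ ε * min (projDist p q) R) ≤ kobayashi (Cone F) p q) ∧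
      (2 ≤ d → ∀ x ∈ Cone F, ∃ E : MvPolynomial (Fin (n + 1)) ℂ, IsForm E ∧
        (¬ ∀ᶠ y in 𝓝[Cone F] x, eval y E = 0) ∧
        ∀ p q : ℙ ℂ (Fin (n + 1) → ℂ), p.rep ∈ Cone F → q.rep ∈ Cone F → p ≠ q →
          ¬ (eval p.rep E = 0 ∧ eval q.rep E = 0) → 0 < kobayashi (Cone F) p q) := by
  classical
  have := Fintype.ofFinite κ
  have hcx : UniformlyConvex (Cone F) d Φ := hr.elim (fun h => h.uniform hnd) id
  have h : Hyp F d Φ η ν := ⟨hX, hη, hΦ, hnd, uniq_of_convex hX hΦ hcx, hν, hh⟩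
  obtain ⟨S, hSf, hS, hlist⟩ := exists_list h.hX (form_G0 n) h.hη' (noBC_G0 F) h.hΦ h.hnd
  have hP : ∀ k ∈ S, ∀ z, Phi (toProj (k z)).rep = k z := fun k hk z =>
    Phi_rep_toProj (TF_PM ((hS k hk).1.mem z))
  have hin : ∀ k ∈ S, HolIn F fun z => toProj (k z) := fun k hk =>
    ⟨holMap_of (hS k hk).1.hol, fun z => rep_toProj hX.form ((hS k hk).1.mem z)⟩
  set S' : Finset (ℂ → ℙ ℂ (Fin (n + 1) → ℂ)) := hSf.toFinset.image fun k z => toProj (k z)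
    with hS'
  have hmem : ∀ k' ∈ S', ∃ k ∈ S, k' = fun z => toProj (k z) := by
    intro k' hk'
    obtain ⟨k, hk, rfl⟩ := Finset.mem_image.1 hk'
    exact ⟨k, hSf.mem_toFinset.1 hk, rfl⟩
  have hmem' : ∀ k ∈ S, (fun z => toProj (k z)) ∈ S' := fun k hk =>
    Finset.mem_image.2 ⟨k, hSf.mem_toFinset.2 hk, rfl⟩
  have h1 : ∀ k' ∈ S', HolIn F k' ∧ DoublyPeriodic k' ∧ HasSpeed Φ 1 k' := by
    intro k' hk'
    obtain ⟨k, hk, rfl⟩ := hmem k' hk'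
    obtain ⟨hE, L, hL⟩ := hS k hk
    refine ⟨hin k hk, ⟨L, fun l hl z => ?_⟩, ?_⟩
    · simp only
      rw [hL l hl z]
    · rw [hasSpeed_iff hX hΦ.twist (hin k hk)]
      have h1 : (fun z => Phi (toProj (k z)).rep) = k := funext (hP k hk)
      rw [h1]
      exact hE.len
  have hcov : ∀ H, Ec F Φ H → ∀ t, ∃ k' ∈ S', ∃ s, H t = Phi (k' s).rep := by
    intro H hH t
    obtain ⟨k, hk, s, l, -, hHk⟩ := hlist H hH
    exact ⟨_, hmem' k hk, s + l * t, by rw [hHk t, hP k hk]⟩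
  have h2 : ∀ p q : ℙ ℂ (Fin (n + 1) → ℂ), p.rep ∈ Cone F → q.rep ∈ Cone F →
      (kobayashi (Cone F) p q = 0 ↔ Joined S' p q) := by
    intro p q hp hq
    constructor
    · intro h0
      by_contra hcon
      have := kob_pos h (S := (S' : Set (ℂ → ℙ ℂ (Fin (n + 1) → ℂ)))) S'.finite_toSet
        (fun k hk => (h1 k hk).1) (fun k hk => (h1 k hk).2.1) hcov hp hq hcon
      exact this.ne' h0
    · exact fun hj => kob_zero (fun k hk => (h1 k hk).1) hj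
  refine ⟨S', h1, h2, fun ε hε => ?_, fun hd x hx => ?_⟩
  · obtain ⟨c, hc, hlow⟩ := kob_low h hε
    refine ⟨c, hc, fun p q hp hq R hR0 hR1 hR => hlow p q hp hq R hR0 hR1 fun H hH t => ?_⟩
    obtain ⟨k', hk', s, hs⟩ := hcov H hH t
    rw [hs]
    exact hR k' hk' s
  · obtain ⟨E, hE, hE1, hE2⟩ := exists_form hX hd hSf hS hx
    refine ⟨E, hE, hE2, fun p q hp hq hne hE0 => ?_⟩
    rw [pos_iff_ne_zero]
    intro h0
    apply hE0
    have hj := (h2 p q hp hq).1 h0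
    obtain ⟨⟨k1, hk1, z1, e1⟩, k2, hk2, z2, e2⟩ := joined_head hj hne
    obtain ⟨l1, hl1, rfl⟩ := hmem k1 hk1
    obtain ⟨l2, hl2, rfl⟩ := hmem k2 hk2
    constructor
    · refine hE1 l1 hl1 z1 _ (Projectivization.rep_nonzero _) ?_
      rw [← e1]
      exact (hP l1 hl1 z1).symm
    · refine hE1 l2 hl2 z2 _ (Projectivization.rep_nonzero _) ?_
      rw [← e2]
      exact (hP l2 hl2 z2).symm

end Pool.Agent.H33
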