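import Pool.Agent.H33.KW

/-! Holomorphic discs for which the second length is maximal, relative to the Poincaré metric, at the
origin. -/

set_option autoImplicit false

open Filter Topology Metric Set

namespace Pool.Agent.H33

open Real (circleAverage)

variable {a : ℕ} {C κ ε : ℝ} {u v : ℂ → ℝ}

theorem far_bound_p {q x y P M : ℝ} (hε : 0 < ε) (hq : 0 < q) (hx : 0 < x) (hP : 0 < P)
    (hxy : ε * x ^ a ≤ y) (h2 : x ^ (1 - a * q) * y ^ q * P ≤ M) : x * P ≤ M * ε ^ (-q) := by
  have h1 : (ε * x ^ a) ^ q ≤ y ^ q := Real.rpow_le_rpow (by positivity) hxy hq.le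
  have h3 : (ε * x ^ a) ^ q = ε ^ q * x ^ (a * q) := by
    rw [Real.mul_rpow hε.le (by positivity), ← Real.rpow_natCast, ← Real.rpow_mul hx.le]
  have h4 : x ^ (1 - a * q) * (ε ^ q * x ^ (a * q)) = ε ^ q * x := by
    have : x ^ (1 - a * q) * x ^ (a * q) = x := by
      rw [← Real.rpow_add hx]
      simp
    calc x ^ (1 - a * q) * (ε ^ q * x ^ (a * q)) = ε ^ q * (x ^ (1 - a * q) * x ^ (a * q)) := by ring
      _ = ε ^ q * x := by rw [this]
  have h5 : ε ^ q * x * P ≤ M := by
    rw [← h4, ← h3]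
    refine le_trans ?_ h2
    exact mul_le_mul_of_nonneg_right (mul_le_mul_of_nonneg_left h1 (Real.rpow_nonneg hx.le _)) hP.le
  have h6 : ε ^ q * ε ^ (-q) = 1 := by
    rw [← Real.rpow_add hε]
    simp
  have h7 : 0 < ε ^ (-q) := Real.rpow_pos_of_pos hε _
  calc x * P = (ε ^ q * x * P) * ε ^ (-q) := by
        have : (ε ^ q * x * P) * ε ^ (-q) = (ε ^ q * ε ^ (-q)) * (x * P) := by ring
        rw [this, h6, one_mul]
    _ ≤ M * ε ^ (-q) := mul_le_mul_of_nonneg_right h5 h7.le

/-- the Ahlfors-Schwarz lemma, relative to the value at the origin -/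
theorem WOn.ahlfors_max (h : WOn (ball 0 1) a C κ ε u v) (hκ : 0 < κ) (hε : 0 < ε)
    {q₀ q M r : ℝ} (hr0 : 0 < r) (hr : r < 1) (hq₀ : 0 < q₀) (hq : 0 < q) (haq : a * q < 1)
    (hM : ∀ z ∈ ball (0 : ℂ) 1, u z ^ (1 - a * q₀) * v z ^ q₀ * (1 - ‖z‖ ^ 2) ≤ M)
    (hv0 : 0 < v 0) (hmax : ∀ z ∈ ball (0 : ℂ) 1, v z * (1 - ‖z‖ ^ 2) ^ a ≤ v 0) :
    ∀ z ∈ ball (0 : ℂ) r, u z ^ (1 - a * q) * v z ^ q * (r ^ 2 - ‖z‖ ^ 2) ≤
      max 1 (max (4 / √(q * κ)) (M * ε ^ (-q₀))) * v 0 ^ q := by
  have hrD : closedBall (0 : ℂ) r ⊆ ball 0 1 := closedBall_subset_ball hr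
  set p : ℝ := 1 - a * q with hp
  have hp0 : 0 < p := by linarith
  have hp1 : p ≤ 1 := by
    have : 0 ≤ a * q := by positivity
    linarith
  set f : ℂ → ℝ := fun z => u z ^ p * v z ^ q * (r ^ 2 - ‖z‖ ^ 2) with hf
  have hfc : ContinuousOn f (closedBall 0 r) := by
    rw [hf]
    have h1 := (h.cu.mono hrD).rpow_const fun _ _ => Or.inr hp0.le
    have h2 := (h.cv.mono hrD).rpow_const fun _ _ => Or.inr hq.le
    exact (h1.mul h2).mul (by fun_prop)
  obtain ⟨z₀, hz₀, hmx0⟩ := (isCompact_closedBall (0 : ℂ) r).exists_isMaxOn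
    ⟨0, mem_closedBall_self hr0.le⟩ hfc
  have hmx : ∀ z ∈ closedBall (0 : ℂ) r, f z ≤ f z₀ := fun z hz => hmx0 hz
  have hKpos : (0 : ℝ) < max 1 (max (4 / √(q * κ)) (M * ε ^ (-q₀))) :=
    one_pos.trans_le (le_max_left _ _)
  have hvq : 0 < v 0 ^ q := Real.rpow_pos_of_pos hv0 q
  suffices hs : f z₀ ≤ max 1 (max (4 / √(q * κ)) (M * ε ^ (-q₀))) * v 0 ^ q from
    fun z hz => (hmx z (ball_subset_closedBall hz)).trans hs
  by_cases hf0 : f z₀ ≤ 0
  · exact hf0.trans (by positivity)
  push Not at hf0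
  have hz₀D := hrD hz₀
  have hun := Real.rpow_nonneg (h.u0 z₀ hz₀D) p
  have hvn := Real.rpow_nonneg (h.v0 z₀ hz₀D) q
  have hP : 0 < r ^ 2 - ‖z₀‖ ^ 2 := by
    by_contra hcon
    push Not at hcon
    have : f z₀ ≤ 0 := mul_nonpos_of_nonneg_of_nonpos (mul_nonneg hun hvn) hcon
    linarith
  have hu : 0 < u z₀ := by
    rcases (h.u0 z₀ hz₀D).eq_or_lt with h1 | h1
    · exfalso
      have : f z₀ = 0 := by
        rw [hf]
        simp only
        rw [← h1, Real.zero_rpow hp0.ne', zero_mul, zero_mul]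
      linarith
    · exact h1
  have hv : 0 < v z₀ := by
    rcases (h.v0 z₀ hz₀D).eq_or_lt with h1 | h1
    · exfalso
      have : f z₀ = 0 := by
        rw [hf]
        simp only
        rw [← h1, Real.zero_rpow hq.ne', mul_zero, zero_mul]
      linarith
    · exact h1
  have hz₀r : ‖z₀‖ < r := by
    by_contra hcon
    push Not at hcon
    have := pow_le_pow_left₀ hr0.le hcon 2
    linarith
  set P : ℝ := r ^ 2 - ‖z₀‖ ^ 2 with hPdef
  have hP1 : P ≤ 1 - ‖z₀‖ ^ 2 := by
    have : r ^ 2 ≤ 1 := pow_le_one₀ hr0.le hr.le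
    linarith
  -- the product
  have hy : v z₀ * P ^ a ≤ v 0 :=
    (mul_le_mul_of_nonneg_left (pow_le_pow_left₀ hP.le hP1 a) hv.le).trans (hmax z₀ hz₀D)
  have hprod : f z₀ = (u z₀ * P) ^ p * (v z₀ * P ^ a) ^ q := by
    rw [Real.mul_rpow hu.le hP.le, Real.mul_rpow hv.le (by positivity), ← Real.rpow_natCast,
      ← Real.rpow_mul hP.le]
    have h1 : P ^ p * P ^ (a * q) = P := by
      rw [← Real.rpow_add hP, hp]
      simp
    calc f z₀ = u z₀ ^ p * v z₀ ^ q * P := rfl
      _ = u z₀ ^ p * v z₀ ^ q * (P ^ p * P ^ (a * q)) := by rw [h1]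
      _ = _ := by ring
  have hx : u z₀ * P ≤ max 1 (max (4 / √(q * κ)) (M * ε ^ (-q₀))) := by
    refine le_max_of_le_right ?_
    rcases le_or_gt (ε * u z₀ ^ a) (v z₀) with hfar | hnear
    · refine le_max_of_le_right ?_
      have hPp : 0 < 1 - ‖z₀‖ ^ 2 := hP.trans_le hP1
      have h1 := far_bound_p hε hq₀ hu hPp hfar (hM z₀ hz₀D)
      exact (mul_le_mul_of_nonneg_left hP1 hu.le).trans h1
    · refine le_max_of_le_left ?_
      by_contra hcon
      push Not at hcon
      have h1 : 4 / √(q * κ) / P < u z₀ := by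
        rw [div_lt_iff₀ hP]
        exact hcon
      obtain ⟨A, hA1, hA2⟩ := exists_between h1
      have hA0 : 0 < A := lt_trans (by positivity) hA1
      obtain ⟨V1, hV1, hzV1, hs1⟩ := h.sub z₀ hz₀D
      obtain ⟨V2, hV2, hzV2, hs2⟩ := h.near z₀ hz₀D A hA0.le (Or.inl hA2) hnear
      have hcu0 : ContinuousAt u z₀ := h.cu.continuousAt (h.op.mem_nhds hz₀D)
      have hcv0 : ContinuousAt v z₀ := h.cv.continuousAt (h.op.mem_nhds hz₀D)
      have hev : ∀ᶠ z in 𝓝 z₀, (z ∈ V1 ∧ z ∈ V2) ∧ (0 < u z ∧ 0 < v z) ∧ z ∈ ball (0 : ℂ) r := by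
        filter_upwards [hV1.mem_nhds hzV1, hV2.mem_nhds hzV2, hcu0.eventually (lt_mem_nhds hu),
          hcv0.eventually (lt_mem_nhds hv),
          isOpen_ball.mem_nhds (mem_ball_zero_iff.2 hz₀r : z₀ ∈ ball (0 : ℂ) r)]
          with z h1 h2 h3 h4 h5
        exact ⟨⟨h1, h2⟩, ⟨h3, h4⟩, h5⟩
      obtain ⟨ρ₀, hρ₀, hρb⟩ := Metric.eventually_nhds_iff_ball.1 hev
      obtain ⟨ρ, hρ1, hρ2⟩ := exists_between (lt_min hρ₀ (show 0 < P / (4 * r) by positivity))
      have hρ3 : ρ < ρ₀ := hρ2.trans_le (min_le_left _ _)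
      have hρ4 : ρ < P / (4 * r) := hρ2.trans_le (min_le_right _ _)
      have hsub : ∀ z ∈ closedBall z₀ ρ, (z ∈ V1 ∧ z ∈ V2) ∧ (0 < u z ∧ 0 < v z) ∧
          z ∈ ball (0 : ℂ) r := fun z hz => hρb z (closedBall_subset_ball hρ3 hz)
      have h2 := touch (κ := κ) (p := p) (q := q) (A := A) (r := r) hp0.le hq
        (hs1.mono (W := V1 ∩ V2) fun z hz => hz.1)
        (hs2.mono fun z hz => hz.2) hρ1 (fun z hz => (hsub z hz).1) (fun z hz => (hsub z hz).2.2)
        (by
          rw [lt_div_iff₀ (by positivity)] at hρ4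
          linarith) (fun z hz => (hsub z hz).2.1)
        (fun z hz => hmx z (ball_subset_closedBall (hsub z hz).2.2))
      rw [div_div, div_lt_iff₀ (by positivity)] at hA1
      have h3 : 4 < A * P * √(q * κ) := by linarith
      have h4 := pow_lt_pow_left₀ h3 (by positivity) two_ne_zero
      have h5 : (A * P * √(q * κ)) ^ 2 = q * κ * A ^ 2 * P ^ 2 := by
        rw [mul_pow, Real.sq_sqrt (by positivity)]
        ring
      rw [h5] at h4
      have h6 : r ^ 2 ≤ 1 := pow_le_one₀ hr0.le hr.le
      linarith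
  set K : ℝ := max 1 (max (4 / √(q * κ)) (M * ε ^ (-q₀))) with hK
  have hK1 : 1 ≤ K := le_max_left _ _
  rw [hprod]
  have h1 : (u z₀ * P) ^ p ≤ K := by
    calc (u z₀ * P) ^ p ≤ K ^ p := Real.rpow_le_rpow (by positivity) hx hp0.le
      _ ≤ K ^ (1 : ℝ) := Real.rpow_le_rpow_of_exponent_le hK1 hp1
      _ = K := Real.rpow_one K
  have h2 : (v z₀ * P ^ a) ^ q ≤ v 0 ^ q := Real.rpow_le_rpow (by positivity) hy hq.le
  exact mul_le_mul h1 h2 (by positivity) (by linarith)

/-- **Discs with maximal second length at the origin.** -/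
theorem normal_bound {q₀ M t : ℝ} (hC : 0 ≤ C) (hκ : 0 < κ) (hε : 0 < ε) (hq₀ : 0 < q₀)
    (hM0 : 0 < M) (ht0 : 0 ≤ t) (ht : t < 1) : ∃ B : ℝ, 0 < B ∧
    ∀ u v : ℂ → ℝ, WOn (ball 0 1) a C κ ε u v →
      (∀ z ∈ ball (0 : ℂ) 1, u z ^ (1 - a * q₀) * v z ^ q₀ * (1 - ‖z‖ ^ 2) ≤ M) → 0 < v 0 →
      (∀ z ∈ ball (0 : ℂ) 1, v z * (1 - ‖z‖ ^ 2) ^ a ≤ v 0) → ∀ w : ℂ, ‖w‖ ≤ t → u w ≤ B := by
  set s : ℝ := (1 + t) / 2 with hs
  set r : ℝ := (1 + s) / 2 with hr
  have hs0 : 0 < s := by positivity
  have hs1 : s < 1 := by linarith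
  have hts : t < s := by linarith
  have hr0 : 0 < r := by positivity
  have hr1 : r < 1 := by linarith
  have hsr : s < r := by linarith
  set q : ℝ := 1 / (2 * ((a : ℝ) + 1)) with hq
  have hq0 : 0 < q := by positivity
  have haq : a * q ≤ 1 / 2 := by
    rw [hq, mul_one_div, div_le_div_iff₀ (by positivity) (by norm_num)]
    linarith
  set K : ℝ := max 1 (max (4 / √(q * κ)) (M * ε ^ (-q₀))) with hK
  have hK1 : 1 ≤ K := le_max_left _ _
  have hε' : 0 < ε ^ (-q₀) := Real.rpow_pos_of_pos hε _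
  have hcs : 0 < r ^ 2 - s ^ 2 := by nlinarith
  have hcs1 : r ^ 2 - s ^ 2 ≤ 1 := by nlinarith
  have hs2 : 0 < 1 - s ^ 2 := by nlinarith
  set k : ℝ := Real.log K - Real.log (r ^ 2 - s ^ 2) with hk
  have hk0 : 0 ≤ k := by
    have h1 := Real.log_nonneg hK1
    have h2 := Real.log_nonpos hcs.le hcs1
    linarith
  set A : ℝ := 2 * (M * ε ^ (-q₀) / (1 - s ^ 2)) with hA
  have hA0 : 0 < A := by positivity
  set c : ℝ := C * A ^ 2 with hc
  have hc0 : 0 ≤ c := by positivity
  set b : ℝ := a * (-Real.log (1 - s ^ 2)) with hb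
  have hlog1 : 0 ≤ -Real.log (1 - s ^ 2) := by
    have : Real.log (1 - s ^ 2) ≤ 0 := Real.log_nonpos hs2.le (by nlinarith)
    linarith
  have hb0 : 0 ≤ b := by positivity
  set Y : ℝ := c * s ^ 2 + b with hY
  have hY0 : 0 ≤ Y := by positivity
  refine ⟨Real.exp ((s + t) / (s - t) * (2 * k + 2 * q * Y)), Real.exp_pos _,
    fun u v h hM hv0 hmax w hw => ?_⟩
  have hsD : closedBall (0 : ℂ) s ⊆ ball 0 1 := closedBall_subset_ball hs1
  have hss : sphere (0 : ℂ) |s| ⊆ closedBall 0 s := by
    rw [abs_of_pos hs0]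
    exact sphere_subset_closedBall
  have hahl := h.ahlfors_max hκ hε hr0 hr1 hq₀ hq0 (by linarith) hM hv0 hmax
  rw [← hK] at hahl
  have hcu := h.cu.mono hsD
  have hcv := h.cv.mono hsD
  set W : ℂ → ℝ := fun z => Real.log (max (u z) 1) with hW
  have hWc : ContinuousOn W (closedBall 0 s) :=
    ContinuousOn.log (hcu.sup continuousOn_const) fun z _ =>
      (one_pos.trans_le (le_max_right _ _)).ne'
  have hW0 : ∀ z, 0 ≤ W z := fun z => Real.log_nonneg (le_max_right _ _)
  have hWs : ∀ z ∈ ball (0 : ℂ) s, SubAt W z := fun z hz => by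
    obtain ⟨V, hV, hzV, hs⟩ := h.sub z (hsD (ball_subset_closedBall hz))
    exact hs.subAt hV hzV one_pos
  have hWi : CircleIntegrable W 0 s := (hWc.mono hss).circleIntegrable'
  obtain ⟨Mw, hMw⟩ := (isCompact_closedBall (0 : ℂ) s).exists_bound_of_continuousOn hWc
  have hMw0 : 0 ≤ Mw := (norm_nonneg _).trans (hMw 0 (mem_closedBall_self hs0.le))
  set X : ℝ := circleAverage W 0 s with hX
  have key : ∀ θ : ℝ, 0 < θ → X ≤ 2 * k + (2 * q + θ) * Y := by
    intro θ hθ
    set δ : ℝ := Real.exp (-(Mw / θ)) with hδ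
    have hδ0 : 0 < δ := Real.exp_pos _
    have hMθ : 0 ≤ Mw / θ := by positivity
    have hδ1 : δ ≤ 1 := Real.exp_le_one_iff.2 (by linarith)
    have hlogδ : Real.log δ = -(Mw / θ) := Real.log_exp _
    set δ₀ : ℝ := δ * v 0 with hδ₀
    have hδ₀0 : 0 < δ₀ := by positivity
    have hδ₀v : δ₀ ≤ v 0 := mul_le_of_le_one_left hv0.le hδ1
    have hlogδ₀ : Real.log δ₀ = -(Mw / θ) + Real.log (v 0) := by
      rw [hδ₀, Real.log_mul hδ0.ne' hv0.ne', hlogδ]
    set ℓ : ℂ → ℝ := fun z => Real.log (max (v z) δ₀) with hℓ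
    have hℓp : ∀ z, 0 < max (v z) δ₀ := fun z => hδ₀0.trans_le (le_max_right _ _)
    have hℓc : ContinuousOn ℓ (closedBall 0 s) :=
      ContinuousOn.log (hcv.sup continuousOn_const) fun z _ => (hℓp z).ne'
    have hℓi : CircleIntegrable ℓ 0 s := (hℓc.mono hss).circleIntegrable'
    -- the mean of `ℓ`
    have e1 : Real.log (v 0) - c * s ^ 2 ≤ circleAverage ℓ 0 s := by
      have hcont : ContinuousOn (fun z => Real.log (max (v z * Real.exp (c * ‖z‖ ^ 2)) δ₀))
          (closedBall 0 s) := by
        apply ContinuousOn.log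
        · exact (hcv.mul (by fun_prop)).sup continuousOn_const
        · exact fun z _ => (hδ₀0.trans_le (le_max_right _ _)).ne'
      have f1 := mean_of_local hs0 hcont fun z hz => by
        have hzD : z ∈ ball (0 : ℂ) 1 := hsD (ball_subset_closedBall hz)
        rcases le_or_gt (ε * u z ^ a) (v z) with hfar | hnear
        · have hu : u z < A := by
            rcases (h.u0 z hzD).eq_or_lt with e | e
            · rw [← e]
              exact hA0
            · have hzs : ‖z‖ < s := mem_ball_zero_iff.1 hz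
              have hzs2 : 1 - s ^ 2 ≤ 1 - ‖z‖ ^ 2 := by
                have := pow_le_pow_left₀ (norm_nonneg z) hzs.le 2
                linarith
              have h1 := far_bound_p hε hq₀ e (hs2.trans_le hzs2) hfar (hM z hzD)
              have h2 : u z * (1 - s ^ 2) ≤ M * ε ^ (-q₀) :=
                (mul_le_mul_of_nonneg_left hzs2 e.le).trans h1
              have h3 : u z ≤ M * ε ^ (-q₀) / (1 - s ^ 2) := by
                rw [le_div_iff₀ hs2]
                exact h2
              have h4 : 0 < M * ε ^ (-q₀) / (1 - s ^ 2) := by positivity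
              rw [hA]
              linarith
          obtain ⟨V, hV, hzV, hsV⟩ := h.far z hzD _ hu
          exact hsV.subAt hV hzV hδ₀0
        · obtain ⟨V, hV, hzV, hsV⟩ := h.near z hzD 0 le_rfl (Or.inr rfl) hnear
          have e1 : (fun w => v w * Real.exp (-(κ * 0 ^ 2 * ‖w‖ ^ 2))) = v := by
            funext w
            simp
          rw [e1] at hsV
          exact (hsV.mul_exp (c := c) hc0).subAt hV hzV hδ₀0
      have f2 : Real.log (v 0) ≤ Real.log (max (v 0 * Real.exp (c * ‖(0 : ℂ)‖ ^ 2)) δ₀) := by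
        apply Real.log_le_log hv0
        apply le_max_of_le_left
        rw [norm_zero]
        simp
      have f3 := Real.circleAverage_mono (hcont.mono hss).circleIntegrable'
        ((circleIntegrable_const (c * s ^ 2) 0 s).add hℓi) (by
          intro z hz
          rw [abs_of_pos hs0, mem_sphere_zero_iff_norm] at hz
          simp only [Pi.add_apply]
          have f4 : max (v z * Real.exp (c * ‖z‖ ^ 2)) δ₀ ≤ Real.exp (c * s ^ 2) * max (v z) δ₀ := by
            rw [hz]
            have f5 : 1 ≤ Real.exp (c * s ^ 2) := Real.one_le_exp (by positivity)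
            apply max_le
            · rw [mul_comm]
              exact mul_le_mul_of_nonneg_left (le_max_left _ _) (by positivity)
            · calc δ₀ ≤ max (v z) δ₀ := le_max_right _ _
                _ ≤ _ := le_mul_of_one_le_left (hℓp z).le f5
          have f6 := Real.log_le_log (hδ₀0.trans_le (le_max_right _ _)) f4
          rwa [Real.log_mul (Real.exp_pos _).ne' (hℓp z).ne', Real.log_exp] at f6)
      rw [Real.circleAverage_add (circleIntegrable_const _ _ _) hℓi, Real.circleAverage_const] at f3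
      linarith
    -- the pointwise inequality
    set L : ℂ → ℝ := fun z => max 0 (Real.log (v 0) - ℓ z) with hL
    have hLc : ContinuousOn L (closedBall 0 s) :=
      continuousOn_const.sup (continuousOn_const.sub hℓc)
    have hLi : CircleIntegrable L 0 s := (hLc.mono hss).circleIntegrable'
    have e2 : ∀ z ∈ sphere (0 : ℂ) |s|, L z ≤ (Real.log (v 0) + b) - ℓ z := by
      intro z hz
      have hzD : z ∈ ball (0 : ℂ) 1 := hsD (hss hz)
      rw [abs_of_pos hs0, mem_sphere_zero_iff_norm] at hz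
      apply max_le
      · have f1 : ℓ z ≤ Real.log (v 0) + b := by
          have f2 : max (v z) δ₀ ≤ v 0 * ((1 - s ^ 2) ^ a)⁻¹ := by
            have f3 : (1 : ℝ) ≤ ((1 - s ^ 2) ^ a)⁻¹ :=
              (one_le_inv₀ (by positivity)).2 (pow_le_one₀ hs2.le (by nlinarith))
            apply max_le
            · rw [← div_eq_mul_inv, le_div_iff₀ (by positivity)]
              have := hmax z hzD
              rwa [hz] at this
            · exact hδ₀v.trans (le_mul_of_one_le_right hv0.le f3)
          have f4 := Real.log_le_log (hℓp z) f2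
          rw [Real.log_mul hv0.ne' (by positivity), Real.log_inv, Real.log_pow] at f4
          rw [hb]
          linarith
        linarith
      · linarith
    have e3 : circleAverage L 0 s ≤ Y := by
      have hi2 : CircleIntegrable (fun z => (-1 : ℝ) • ℓ z) 0 s := hℓi.const_fun_smul
      have f1 := Real.circleAverage_mono hLi
        ((circleIntegrable_const (Real.log (v 0) + b) 0 s).add hi2) (by
          intro z hz
          have := e2 z hz
          simp only [Pi.add_apply, smul_eq_mul]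
          linarith)
      rw [Real.circleAverage_add (circleIntegrable_const _ _ _) hi2, Real.circleAverage_fun_smul,
        Real.circleAverage_const, smul_eq_mul] at f1
      rw [hY]
      linarith
    have e4 : ∀ z ∈ sphere (0 : ℂ) |s|, W z ≤ 2 * k + (2 * q + θ) * L z := by
      intro z hz
      have hzc : z ∈ closedBall (0 : ℂ) s := hss hz
      rw [abs_of_pos hs0, mem_sphere_zero_iff_norm] at hz
      have hL0 : 0 ≤ L z := le_max_left _ _
      rcases le_or_gt (u z) 1 with f1 | f1
      · have f2 : W z = 0 := by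
          rw [hW]
          simp only
          rw [max_eq_right f1, Real.log_one]
        rw [f2]
        positivity
      rcases le_or_gt δ₀ (v z) with f2 | f2
      · have f3 := hahl z (mem_ball_zero_iff.2 (by rw [hz]; exact hsr))
        rw [hz] at f3
        have hup : 0 < u z := one_pos.trans f1
        have hvp : 0 < v z := hδ₀0.trans_le f2
        have hup' := Real.rpow_pos_of_pos hup (1 - a * q)
        have hvp' := Real.rpow_pos_of_pos hvp q
        have f4 := Real.log_le_log (mul_pos (mul_pos hup' hvp') hcs) f3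
        rw [Real.log_mul (mul_pos hup' hvp').ne' hcs.ne', Real.log_mul hup'.ne' hvp'.ne',
          Real.log_rpow hup, Real.log_rpow hvp, Real.log_mul (by positivity)
            (Real.rpow_pos_of_pos hv0 q).ne', Real.log_rpow hv0] at f4
        have f5 : W z = Real.log (u z) := by
          rw [hW]
          simp only
          rw [max_eq_left f1.le]
        have f6 : ℓ z = Real.log (v z) := by
          rw [hℓ]
          simp only
          rw [max_eq_left f2]
        have f7 : Real.log (v 0) - Real.log (v z) ≤ L z := by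
          rw [← f6]
          exact le_max_right _ _
        have f8 : 0 ≤ Real.log (u z) := Real.log_nonneg f1.le
        have f9 : 1 / 2 * Real.log (u z) ≤ (1 - a * q) * Real.log (u z) :=
          mul_le_mul_of_nonneg_right (by linarith) f8
        have f10 : q * (Real.log (v 0) - Real.log (v z)) ≤ q * L z :=
          mul_le_mul_of_nonneg_left f7 hq0.le
        have f11 : 0 ≤ θ * L z := by positivity
        rw [f5]
        have f13 : (2 * q + θ) * L z = 2 * (q * L z) + θ * L z := by ring
        rw [f13]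
        have f14 : q * (Real.log (v 0) - Real.log (v z)) =
            q * Real.log (v 0) - q * Real.log (v z) := by ring
        rw [f14] at f10
        linarith
      · have f3 : ℓ z = -(Mw / θ) + Real.log (v 0) := by
          rw [hℓ]
          simp only
          rw [max_eq_right f2.le, hlogδ₀]
        have f4 : Mw / θ ≤ L z := by
          have : Real.log (v 0) - ℓ z ≤ L z := le_max_right _ _
          rw [f3] at this
          linarith
        have f5 : Mw ≤ θ * L z := by
          rw [div_le_iff₀ hθ] at f4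
          linarith
        have f6 : W z ≤ Mw := by
          have := hMw z hzc
          rw [Real.norm_eq_abs] at this
          exact (le_abs_self _).trans this
        have f7 : 0 ≤ 2 * q * L z := by positivity
        nlinarith
    have hi3 : CircleIntegrable (fun z => (2 * q + θ) • L z) 0 s := hLi.const_fun_smul
    have e5 := Real.circleAverage_mono hWi ((circleIntegrable_const (2 * k) 0 s).add hi3)
      (fun z hz => by
        have := e4 z hz
        simpa [smul_eq_mul] using this)
    rw [Real.circleAverage_add (circleIntegrable_const _ _ _) hi3, Real.circleAverage_const,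
      Real.circleAverage_fun_smul, smul_eq_mul] at e5
    have e6 : (2 * q + θ) * circleAverage L 0 s ≤ (2 * q + θ) * Y :=
      mul_le_mul_of_nonneg_left e3 (by positivity)
    linarith
  have key2 : X ≤ 2 * k + 2 * q * Y := by
    apply le_of_forall_pos_le_add
    intro e he
    have h1 := key (e / (Y + 1)) (by positivity)
    have h2 : e / (Y + 1) * Y ≤ e := by
      rw [div_mul_eq_mul_div, div_le_iff₀ (by positivity)]
      nlinarith
    have h3 : (2 * q + e / (Y + 1)) * Y = 2 * q * Y + e / (Y + 1) * Y := by ring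
    rw [h3] at h1
    linarith
  have hX0 : 0 ≤ X := by
    have := Real.circleAverage_mono (circleIntegrable_const (0 : ℝ) 0 s) hWi
      (fun z _ => hW0 z)
    rwa [Real.circleAverage_const] at this
  have h1 := harnack hs0 hWc hWs (fun z _ => hW0 z) (w := w)
    (mem_ball_zero_iff.2 (by linarith))
  have h2 : (s + ‖w‖) / (s - ‖w‖) ≤ (s + t) / (s - t) := by
    rw [div_le_div_iff₀ (by linarith) (by linarith)]
    nlinarith
  have h3 : W w ≤ (s + t) / (s - t) * (2 * k + 2 * q * Y) := by
    refine h1.trans ?_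
    have h4 : 0 ≤ (s + t) / (s - t) := div_nonneg (by linarith) (by linarith)
    exact mul_le_mul h2 key2 hX0 h4
  have h4 : u w ≤ Real.exp (W w) := by
    rw [hW]
    simp only
    rw [Real.exp_log (one_pos.trans_le (le_max_right _ _))]
    exact le_max_left _ _
  exact h4.trans (Real.exp_le_exp.2 h3)

end Pool.Agent.H33
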