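import Pool.Agent.H33.Wt

/-! The lengths of holomorphic discs for two metrics, one of which is negatively curved near its
zeros. -/

set_option autoImplicit false

open Filter Topology Metric Set

namespace Pool.Agent.H33

open Real (circleAverage)

/-- the lengths of the derivative of a curve which is defined on `D` -/
structure WOn (D : Set ℂ) (a : ℕ) (C κ ε : ℝ) (u v : ℂ → ℝ) : Prop where
  op : IsOpen D
  cu : ContinuousOn u D
  cv : ContinuousOn v D
  u0 : ∀ z ∈ D, 0 ≤ u z
  v0 : ∀ z ∈ D, 0 ≤ v z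
  le : ∀ z ∈ D, v z ≤ u z ^ a
  sub : ∀ z ∈ D, ∃ V, IsOpen V ∧ z ∈ V ∧ LogSubharmonic u V
  far : ∀ z ∈ D, ∀ A, u z < A → ∃ V, IsOpen V ∧ z ∈ V ∧
    LogSubharmonic (fun w => v w * Real.exp (C * A ^ 2 * ‖w‖ ^ 2)) V
  near : ∀ z ∈ D, ∀ A, 0 ≤ A → (A < u z ∨ A = 0) → v z < ε * u z ^ a → ∃ V, IsOpen V ∧ z ∈ V ∧
    LogSubharmonic (fun w => v w * Real.exp (-(κ * A ^ 2 * ‖w‖ ^ 2))) V

variable {D : Set ℂ} {a : ℕ} {C κ ε : ℝ} {u v : ℂ → ℝ}

/-- **the Ahlfors-Schwarz lemma** with an exceptional region -/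
theorem WOn.ahlfors (h : WOn D a C κ ε u v) (hκ : 0 < κ) (hε : 0 < ε) {q q' r : ℝ} (hr : 0 < r)
    (hrD : closedBall 0 r ⊆ D) (hq : 0 < q) (hq' : 0 < q') (haq' : a * q' < 1)
    (hm : ∀ z ∈ ball (0 : ℂ) r, u z ^ (1 - a * q) * v z ^ q ≤ 2) :
    ∀ z ∈ ball (0 : ℂ) r, u z ^ (1 - a * q') * v z ^ q' * (r ^ 2 - ‖z‖ ^ 2) ≤
      max (4 * r / √(q' * κ)) (2 * ε ^ (-q) * r ^ 2) := by
  set p' : ℝ := 1 - a * q' with hp'
  have hp'0 : 0 < p' := by linarith
  set f : ℂ → ℝ := fun z => u z ^ p' * v z ^ q' * (r ^ 2 - ‖z‖ ^ 2) with hf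
  have hfc : ContinuousOn f (closedBall 0 r) := by
    rw [hf]
    have h1 := (h.cu.mono hrD).rpow_const fun _ _ => Or.inr hp'0.le
    have h2 := (h.cv.mono hrD).rpow_const fun _ _ => Or.inr hq'.le
    exact (h1.mul h2).mul (by fun_prop)
  obtain ⟨z₀, hz₀, hmax⟩ := (isCompact_closedBall (0 : ℂ) r).exists_isMaxOn
    ⟨0, mem_closedBall_self hr.le⟩ hfc
  have hmx : ∀ z ∈ closedBall (0 : ℂ) r, f z ≤ f z₀ := fun z hz => hmax hz
  suffices hs : f z₀ ≤ max (4 * r / √(q' * κ)) (2 * ε ^ (-q) * r ^ 2) from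
    fun z hz => (hmx z (ball_subset_closedBall hz)).trans hs
  by_cases hf0 : f z₀ ≤ 0
  · exact hf0.trans (le_max_of_le_left (by positivity))
  push Not at hf0
  have hz₀D := hrD hz₀
  have hun := Real.rpow_nonneg (h.u0 z₀ hz₀D) p'
  have hvn := Real.rpow_nonneg (h.v0 z₀ hz₀D) q'
  have hP : 0 < r ^ 2 - ‖z₀‖ ^ 2 := by
    by_contra hcon
    push Not at hcon
    have : f z₀ ≤ 0 := mul_nonpos_of_nonneg_of_nonpos (mul_nonneg hun hvn) hcon
    linarith
  have hu : 0 < u z₀ := by
    rcases (h.u0 z₀ hz₀D).eq_or_lt with h1 | h1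
    · exfalso
      have : f z₀ = 0 := by
        rw [hf]
        simp only
        rw [← h1, Real.zero_rpow hp'0.ne', zero_mul, zero_mul]
      linarith
    · exact h1
  have hv : 0 < v z₀ := by
    rcases (h.v0 z₀ hz₀D).eq_or_lt with h1 | h1
    · exfalso
      have : f z₀ = 0 := by
        rw [hf]
        simp only
        rw [← h1, Real.zero_rpow hq'.ne', mul_zero, zero_mul]
      linarith
    · exact h1
  have hz₀r : ‖z₀‖ < r := by
    by_contra hcon
    push Not at hcon
    have := pow_le_pow_left₀ hr.le hcon 2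
    linarith
  set P : ℝ := r ^ 2 - ‖z₀‖ ^ 2 with hPdef
  have hPr : P ≤ r ^ 2 := by
    have := sq_nonneg ‖z₀‖
    linarith
  have hfu : f z₀ ≤ u z₀ * P :=
    mul_le_mul_of_nonneg_right (prod_le hq' hu hv.le (h.le z₀ hz₀D)) hP.le
  rcases le_or_gt (ε * u z₀ ^ a) (v z₀) with hfar | hnear
  · have h1 := far_bound hε hq hu hfar (hm z₀ (mem_ball_zero_iff.2 hz₀r))
    refine le_max_of_le_right (hfu.trans ?_)
    exact mul_le_mul h1 hPr hP.le (by positivity)
  · refine le_max_of_le_left ?_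
    by_contra hcon
    push Not at hcon
    have h1 : 4 * r / √(q' * κ) / P < u z₀ := by
      rw [div_lt_iff₀ hP]
      exact hcon.trans_le hfu
    obtain ⟨A, hA1, hA2⟩ := exists_between h1
    have hA0 : 0 < A := lt_trans (by positivity) hA1
    obtain ⟨V1, hV1, hzV1, hs1⟩ := h.sub z₀ hz₀D
    obtain ⟨V2, hV2, hzV2, hs2⟩ := h.near z₀ hz₀D A hA0.le (Or.inl hA2) hnear
    have hcu0 : ContinuousAt u z₀ := h.cu.continuousAt (h.op.mem_nhds hz₀D)
    have hcv0 : ContinuousAt v z₀ := h.cv.continuousAt (h.op.mem_nhds hz₀D)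
    have hev : ∀ᶠ z in 𝓝 z₀, (z ∈ V1 ∧ z ∈ V2) ∧ (0 < u z ∧ 0 < v z) ∧ z ∈ ball (0 : ℂ) r := by
      filter_upwards [hV1.mem_nhds hzV1, hV2.mem_nhds hzV2, hcu0.eventually (lt_mem_nhds hu),
        hcv0.eventually (lt_mem_nhds hv),
        isOpen_ball.mem_nhds (mem_ball_zero_iff.2 hz₀r : z₀ ∈ ball (0 : ℂ) r)] with z h1 h2 h3 h4 h5
      exact ⟨⟨h1, h2⟩, ⟨h3, h4⟩, h5⟩
    obtain ⟨ρ₀, hρ₀, hρb⟩ := Metric.eventually_nhds_iff_ball.1 hev
    obtain ⟨ρ, hρ1, hρ2⟩ := exists_between (lt_min hρ₀ (show 0 < P / (4 * r) by positivity))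
    have hρ3 : ρ < ρ₀ := hρ2.trans_le (min_le_left _ _)
    have hρ4 : ρ < P / (4 * r) := hρ2.trans_le (min_le_right _ _)
    have hsub : ∀ z ∈ closedBall z₀ ρ, (z ∈ V1 ∧ z ∈ V2) ∧ (0 < u z ∧ 0 < v z) ∧
        z ∈ ball (0 : ℂ) r := fun z hz => hρb z (closedBall_subset_ball hρ3 hz)
    have h2 := touch (κ := κ) (p := p') (q := q') (A := A) (r := r) hp'0.le hq'
      (hs1.mono (W := V1 ∩ V2) fun z hz => hz.1)
      (hs2.mono fun z hz => hz.2) hρ1 (fun z hz => (hsub z hz).1) (fun z hz => (hsub z hz).2.2)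
      (by
        rw [lt_div_iff₀ (by positivity)] at hρ4
        linarith) (fun z hz => (hsub z hz).2.1)
      (fun z hz => hmx z (ball_subset_closedBall (hsub z hz).2.2))
    rw [div_div, div_lt_iff₀ (by positivity)] at hA1
    have h3 : 4 * r < A * P * √(q' * κ) := by linarith
    have h4 := pow_lt_pow_left₀ h3 (by positivity) two_ne_zero
    have h5 : (A * P * √(q' * κ)) ^ 2 = q' * κ * A ^ 2 * P ^ 2 := by
      rw [mul_pow, Real.sq_sqrt (by positivity)]
      ring
    rw [h5] at h4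
    nlinarith

theorem WOn.star (h : WOn D a C κ ε u v) (hκ : 0 < κ) (hε : 0 < ε) {q r : ℝ} (hr : 1 ≤ r)
    (hrD : closedBall 0 r ⊆ D) (hq : 0 < q) (har : a * (1 / r ^ 2) < 1)
    (hm : ∀ z ∈ ball (0 : ℂ) r, u z ^ (1 - a * q) * v z ^ q ≤ 2) {z : ℂ} (hz : ‖z‖ ≤ r / 2) :
    u z ^ (1 - a * (1 / r ^ 2)) * v z ^ (1 / r ^ 2) ≤ K3 κ ε q := by
  have hr0 : 0 < r := by linarith
  have hzD : z ∈ D := hrD (mem_closedBall_zero_iff.2 (by linarith))
  have h1 := h.ahlfors hκ hε hr0 hrD hq (q' := 1 / r ^ 2) (by positivity) har hm z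
    (mem_ball_zero_iff.2 (by linarith))
  have h2 : 4 * r / √(1 / r ^ 2 * κ) = 4 / √κ * r ^ 2 := by
    rw [Real.sqrt_mul (by positivity), Real.sqrt_div zero_le_one, Real.sqrt_one,
      Real.sqrt_sq hr0.le]
    field_simp
  rw [h2, ← max_mul_of_nonneg _ _ (sq_nonneg r)] at h1
  set w : ℝ := u z ^ (1 - a * (1 / r ^ 2)) * v z ^ (1 / r ^ 2) with hw
  have hw0 : 0 ≤ w := mul_nonneg (Real.rpow_nonneg (h.u0 z hzD) _) (Real.rpow_nonneg (h.v0 z hzD) _)
  have h3 : r ^ 2 / 2 ≤ r ^ 2 - ‖z‖ ^ 2 := by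
    have := pow_le_pow_left₀ (norm_nonneg z) hz 2
    nlinarith
  have h4 : w * (r ^ 2 / 2) ≤ max (4 / √κ) (2 * ε ^ (-q)) * r ^ 2 :=
    (mul_le_mul_of_nonneg_left h3 hw0).trans h1
  have h5 : w / 2 * r ^ 2 ≤ max (4 / √κ) (2 * ε ^ (-q)) * r ^ 2 := by
    have : w / 2 * r ^ 2 = w * (r ^ 2 / 2) := by ring
    rwa [this]
  have h6 := le_of_mul_le_mul_right h5 (by positivity)
  have h7 : max (4 / √κ) (2 * ε ^ (-q)) ≤ max 1 (max (4 / √κ) (2 * ε ^ (-q))) := le_max_right _ _
  unfold K3
  linarith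

theorem WOn.value_ge (h : WOn D a C κ ε u v) (hκ : 0 < κ) (hε : 0 < ε) {q r : ℝ} (hr : 1 ≤ r)
    (hrD : closedBall 0 r ⊆ D)
    (hq : 0 < q) (haq : a * q < 1) (har : a * (1 / r ^ 2) < 1) (hqr : 2 ≤ q * r ^ 2)
    (hm : ∀ z ∈ ball (0 : ℂ) r, u z ^ (1 - a * q) * v z ^ q ≤ 2)
    (h0 : 1 ≤ u 0 ^ (1 - a * q) * v 0 ^ q) :
    Real.exp (-(2 * Real.log (K3 κ ε q) / q)) ≤ v 0 := by
  have hr0 : 0 < r := by linarith
  have h0D : (0 : ℂ) ∈ D := hrD (mem_closedBall_self hr0.le)
  have h1 := h.star hκ hε hr hrD hq har hm (z := 0) (by rw [norm_zero]; positivity)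
  have hp : 0 < 1 - a * q := by linarith
  have hu : 0 < u 0 := by
    rcases (h.u0 0 h0D).eq_or_lt with e | e
    · rw [← e, Real.zero_rpow hp.ne', zero_mul] at h0
      linarith
    · exact e
  have hv : 0 < v 0 := by
    rcases (h.v0 0 h0D).eq_or_lt with e | e
    · rw [← e, Real.zero_rpow hq.ne', mul_zero] at h0
      linarith
    · exact e
  set U : ℝ := Real.log (u 0) with hU
  set W : ℝ := Real.log (v 0) with hW
  have e1 : 0 ≤ (1 - a * q) * U + q * W := by
    have := Real.log_le_log one_pos h0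
    rwa [Real.log_one, Real.log_mul (Real.rpow_pos_of_pos hu _).ne' (Real.rpow_pos_of_pos hv _).ne',
      Real.log_rpow hu, Real.log_rpow hv] at this
  have e2 : (1 - a * (1 / r ^ 2)) * U + 1 / r ^ 2 * W ≤ Real.log (K3 κ ε q) := by
    have := Real.log_le_log (mul_pos (Real.rpow_pos_of_pos hu _) (Real.rpow_pos_of_pos hv _)) h1
    rwa [Real.log_mul (Real.rpow_pos_of_pos hu _).ne' (Real.rpow_pos_of_pos hv _).ne',
      Real.log_rpow hu, Real.log_rpow hv] at this
  have e3 : W ≤ a * U := by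
    have := Real.log_le_log hv (h.le 0 h0D)
    rwa [Real.log_pow] at this
  have e4 : 1 / r ^ 2 ≤ q / 2 := by
    rw [div_le_div_iff₀ (by positivity) two_pos]
    linarith
  set T : ℝ := a * U - W with hT
  have hT0 : 0 ≤ T := by linarith
  have e5 : q * T ≤ U := by
    rw [hT]
    linarith
  have e6 : U - 1 / r ^ 2 * T ≤ Real.log (K3 κ ε q) := by
    rw [hT]
    linarith
  have e7 : 1 / r ^ 2 * T ≤ q / 2 * T := mul_le_mul_of_nonneg_right e4 hT0
  have e8 : T ≤ 2 * Real.log (K3 κ ε q) / q := by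
    rw [le_div_iff₀ hq]
    linarith
  have e9 : 0 ≤ U := by
    have : 0 ≤ q * T := by positivity
    linarith
  have e10 : -(2 * Real.log (K3 κ ε q) / q) ≤ W := by
    have : 0 ≤ a * U := by positivity
    linarith
  rw [← Real.log_le_log_iff (Real.exp_pos _) hv, Real.log_exp]
  exact e10

/-- the second function is locally subharmonic -/
theorem WOn.subAt (h : WOn D a C κ ε u v) (hC : 0 ≤ C) (hε : 0 < ε) {q r : ℝ} (hq : 0 < q)
    (hrD : closedBall 0 r ⊆ D)
    (hm : ∀ z ∈ ball (0 : ℂ) r, u z ^ (1 - a * q) * v z ^ q ≤ 2) {δ : ℝ} (hδ : 0 < δ)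
    {z : ℂ} (hz : z ∈ ball (0 : ℂ) r) :
    SubAt (fun w => Real.log (max (v w * Real.exp (C * (4 * ε ^ (-q)) ^ 2 * ‖w‖ ^ 2)) δ)) z := by
  have hK : 0 < ε ^ (-q) := Real.rpow_pos_of_pos hε _
  have hzD : z ∈ D := hrD (ball_subset_closedBall hz)
  rcases le_or_gt (ε * u z ^ a) (v z) with hfar | hnear
  · have hu : u z < 4 * ε ^ (-q) := by
      rcases (h.u0 z hzD).eq_or_lt with e | e
      · rw [← e]
        positivity
      · have := far_bound hε hq e hfar (hm z hz)
        linarith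
    obtain ⟨V, hV, hzV, hs⟩ := h.far z hzD _ hu
    exact hs.subAt hV hzV hδ
  · obtain ⟨V, hV, hzV, hs⟩ := h.near z hzD 0 le_rfl (Or.inr rfl) hnear
    have e1 : (fun w => v w * Real.exp (-(κ * 0 ^ 2 * ‖w‖ ^ 2))) = v := by
      funext w
      simp
    rw [e1] at hs
    exact (hs.mul_exp (c := C * (4 * ε ^ (-q)) ^ 2) (by positivity)).subAt hV hzV hδ

/-- **The bound of the lengths.** -/
theorem WOn.bounded (h : WOn D a C κ ε u v) (hC : 0 ≤ C) (hκ : 0 < κ) (hε : 0 < ε) {q r : ℝ}
    (hr : 1 ≤ r) (hrD : closedBall 0 r ⊆ D)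
    (hq : 0 < q) (haq : a * q < 1) (har : a * (1 / r ^ 2) ≤ 1 / 4)
    (hqr : 2 ≤ q * r ^ 2)
    (hm : ∀ z ∈ ball (0 : ℂ) r, u z ^ (1 - a * q) * v z ^ q ≤ 2)
    (h0 : 1 ≤ u 0 ^ (1 - a * q) * v 0 ^ q) {w : ℂ} (hw : ‖w‖ ≤ r / 4) :
    u w ≤ Real.exp (3 * (4 * Real.log (K3 κ ε q) + C * (4 * ε ^ (-q)) ^ 2 +
      4 * (2 * Real.log (K3 κ ε q) / q))) := by
  have hr0 : 0 < r := by linarith
  set k : ℝ := Real.log (K3 κ ε q) with hk
  have hk0 : 0 < k := Real.log_pos (by linarith [K3_ge (κ := κ) (ε := ε) (q := q)])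
  set lb : ℝ := 2 * k / q with hlb
  have hlb0 : 0 ≤ lb := by positivity
  set b : ℝ := Real.exp (-lb) with hb
  have hb1 : b ≤ 1 := Real.exp_le_one_iff.2 (by linarith)
  have hvb : b ≤ v 0 := h.value_ge hκ hε hr hrD hq haq (by linarith) hqr hm h0
  set c : ℝ := C * (4 * ε ^ (-q)) ^ 2 with hc
  have hc0 : 0 ≤ c := by positivity
  set t : ℝ := r / 2 with ht
  have ht0 : 0 < t := by positivity
  have hsub : ball (0 : ℂ) t ⊆ ball 0 r := ball_subset_ball (by linarith)
  have htD : closedBall (0 : ℂ) t ⊆ D := (closedBall_subset_closedBall (by linarith)).trans hrD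
  have hsD : sphere (0 : ℂ) |t| ⊆ closedBall 0 t := by
    rw [abs_of_pos ht0]
    exact sphere_subset_closedBall
  set q' : ℝ := 1 / r ^ 2 with hq'
  have hq'0 : 0 < q' := by positivity
  have hq't : q' * t ^ 2 = 1 / 4 := by
    rw [hq', ht]
    field_simp
    norm_num
  have hq'1 : q' ≤ 1 := by
    rw [hq', div_le_one (by positivity)]
    exact one_le_pow₀ hr
  have hcu := h.cu.mono htD
  have hcv := h.cv.mono htD
  -- the function `log⁺ u`
  set W : ℂ → ℝ := fun z => Real.log (max (u z) 1) with hW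
  have hWc : ContinuousOn W (closedBall 0 t) :=
    ContinuousOn.log (hcu.sup continuousOn_const) fun z _ =>
      (one_pos.trans_le (le_max_right _ _)).ne'
  have hW0 : ∀ z, 0 ≤ W z := fun z => Real.log_nonneg (le_max_right _ _)
  have hWs : ∀ z ∈ ball (0 : ℂ) t, SubAt W z := fun z hz => by
    obtain ⟨V, hV, hzV, hs⟩ := h.sub z (htD (ball_subset_closedBall hz))
    exact hs.subAt hV hzV one_pos
  have hWi : CircleIntegrable W 0 t := (hWc.mono hsD).circleIntegrable'
  obtain ⟨M, hM⟩ := (isCompact_closedBall (0 : ℂ) t).exists_bound_of_continuousOn hWc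
  have hM0 : 0 ≤ M := (norm_nonneg _).trans (hM 0 (mem_closedBall_self ht0.le))
  set X : ℝ := circleAverage W 0 t with hX
  have hX0 : 0 ≤ X := by
    have := Real.circleAverage_mono (circleIntegrable_const (0 : ℝ) 0 t) hWi
      (fun z _ => hW0 z)
    rwa [Real.circleAverage_const] at this
  set Y : ℝ := lb + c * t ^ 2 + a * X with hY
  have hY0 : 0 ≤ Y := by positivity
  -- the main inequality
  have key : ∀ θ : ℝ, 0 < θ → X ≤ 2 * k + (2 * q' + θ) * Y := by
    intro θ hθ
    set δ : ℝ := Real.exp (-(M / θ + lb + 1)) with hδ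
    have hδ0 : 0 < δ := Real.exp_pos _
    have hMθ : 0 ≤ M / θ := by positivity
    have hδb : δ ≤ b := Real.exp_le_exp.2 (by linarith)
    have hδ1 : δ ≤ 1 := hδb.trans hb1
    have hlogδ : Real.log δ = -(M / θ + lb + 1) := Real.log_exp _
    set ℓ : ℂ → ℝ := fun z => Real.log (max (v z) δ) with hℓ
    have hℓp : ∀ z, 0 < max (v z) δ := fun z => hδ0.trans_le (le_max_right _ _)
    have hℓc : ContinuousOn ℓ (closedBall 0 t) :=
      ContinuousOn.log (hcv.sup continuousOn_const) fun z _ => (hℓp z).ne'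
    have hℓi : CircleIntegrable ℓ 0 t := (hℓc.mono hsD).circleIntegrable'
    -- the mean of `ℓ`
    have e1 : -lb - c * t ^ 2 ≤ circleAverage ℓ 0 t := by
      have hcont : ContinuousOn (fun z => Real.log (max (v z * Real.exp (c * ‖z‖ ^ 2)) δ))
          (closedBall 0 t) := by
        apply ContinuousOn.log
        · exact (hcv.mul (by fun_prop)).sup continuousOn_const
        · exact fun z _ => (hδ0.trans_le (le_max_right _ _)).ne'
      have f1 := mean_of_local ht0 hcont fun z hz =>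
        h.subAt hC hε hq hrD hm hδ0 (hsub hz)
      have f2 : Real.log b ≤ Real.log (max (v 0 * Real.exp (c * ‖(0 : ℂ)‖ ^ 2)) δ) := by
        apply Real.log_le_log (Real.exp_pos _)
        apply le_max_of_le_left
        rw [norm_zero]
        simpa using hvb
      have f3 := Real.circleAverage_mono (hcont.mono hsD).circleIntegrable'
        ((circleIntegrable_const (c * t ^ 2) 0 t).add hℓi) (by
          intro z hz
          rw [abs_of_pos ht0, mem_sphere_zero_iff_norm] at hz
          simp only [Pi.add_apply]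
          have f4 : max (v z * Real.exp (c * ‖z‖ ^ 2)) δ ≤ Real.exp (c * t ^ 2) * max (v z) δ := by
            rw [hz]
            have f5 : 1 ≤ Real.exp (c * t ^ 2) := Real.one_le_exp (by positivity)
            apply max_le
            · rw [mul_comm]
              exact mul_le_mul_of_nonneg_left (le_max_left _ _) (by positivity)
            · calc δ ≤ max (v z) δ := le_max_right _ _
                _ ≤ _ := le_mul_of_one_le_left (hℓp z).le f5
          have f6 := Real.log_le_log (hδ0.trans_le (le_max_right _ _)) f4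
          rwa [Real.log_mul (Real.exp_pos _).ne' (hℓp z).ne', Real.log_exp] at f6)
      rw [Real.circleAverage_add (circleIntegrable_const _ _ _) hℓi, Real.circleAverage_const] at f3
      rw [Real.log_exp] at f2
      linarith
    -- the pointwise inequality
    set L : ℂ → ℝ := fun z => max 0 (-ℓ z) with hL
    have hLc : ContinuousOn L (closedBall 0 t) := continuousOn_const.sup hℓc.neg
    have hLi : CircleIntegrable L 0 t := (hLc.mono hsD).circleIntegrable'
    have e2 : ∀ z ∈ sphere (0 : ℂ) |t|, L z ≤ -ℓ z + a * W z := by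
      intro z hz
      have hzD : z ∈ D := htD (hsD hz)
      apply max_le
      · have f1 : ℓ z ≤ a * W z := by
          rw [hℓ, hW]
          simp only
          rw [← Real.log_pow]
          apply Real.log_le_log (hℓp z)
          have f2 : (1 : ℝ) ≤ max (u z) 1 ^ a := one_le_pow₀ (le_max_right _ _)
          apply max_le
          · exact (h.le z hzD).trans (pow_le_pow_left₀ (h.u0 z hzD) (le_max_left _ _) a)
          · exact hδ1.trans f2
        linarith
      · have := mul_nonneg (Nat.cast_nonneg (α := ℝ) a) (hW0 z)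
        linarith
    have e3 : circleAverage L 0 t ≤ Y := by
      have hi1 : CircleIntegrable (fun z => (a : ℝ) • W z) 0 t := hWi.const_fun_smul
      have hi2 : CircleIntegrable (fun z => (-1 : ℝ) • ℓ z) 0 t := hℓi.const_fun_smul
      have f1 := Real.circleAverage_mono hLi (hi2.add hi1) (by
        intro z hz
        have := e2 z hz
        simp only [Pi.add_apply, smul_eq_mul]
        linarith)
      rw [Real.circleAverage_add hi2 hi1, Real.circleAverage_fun_smul,
        Real.circleAverage_fun_smul, smul_eq_mul, smul_eq_mul] at f1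
      rw [hY]
      linarith
    have e4 : ∀ z ∈ sphere (0 : ℂ) |t|, W z ≤ 2 * k + (2 * q' + θ) * L z := by
      intro z hz
      have hzD : z ∈ D := htD (hsD hz)
      have hzc : z ∈ closedBall (0 : ℂ) t := hsD hz
      rw [abs_of_pos ht0, mem_sphere_zero_iff_norm] at hz
      have hL0 : 0 ≤ L z := le_max_left _ _
      rcases le_or_gt (u z) 1 with f1 | f1
      · have f2 : W z = 0 := by
          rw [hW]
          simp only
          rw [max_eq_right f1, Real.log_one]
        rw [f2]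
        positivity
      rcases le_or_gt δ (v z) with f2 | f2
      · have f3 := h.star hκ hε hr hrD hq (by linarith) hm (z := z) (by rw [hz])
        have hup : 0 < u z := one_pos.trans f1
        have hvp : 0 < v z := hδ0.trans_le f2
        have f4 := Real.log_le_log (mul_pos (Real.rpow_pos_of_pos hup _)
          (Real.rpow_pos_of_pos hvp _)) f3
        rw [Real.log_mul (Real.rpow_pos_of_pos hup _).ne' (Real.rpow_pos_of_pos hvp _).ne',
          Real.log_rpow hup, Real.log_rpow hvp] at f4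
        have f5 : W z = Real.log (u z) := by
          rw [hW]
          simp only
          rw [max_eq_left f1.le]
        have f6 : ℓ z = Real.log (v z) := by
          rw [hℓ]
          simp only
          rw [max_eq_left f2]
        have f7 : -Real.log (v z) ≤ L z := by
          rw [← f6]
          exact le_max_right _ _
        have f8 : 0 ≤ Real.log (u z) := Real.log_nonneg f1.le
        have f9 : 3 / 4 * Real.log (u z) ≤ (1 - a * q') * Real.log (u z) :=
          mul_le_mul_of_nonneg_right (by linarith) f8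
        have f10 : q' * -Real.log (v z) ≤ q' * L z := mul_le_mul_of_nonneg_left f7 hq'0.le
        have f11 : 0 ≤ θ * L z := by positivity
        have f12 : 0 ≤ q' * L z := by positivity
        rw [f5]
        have f13 : (2 * q' + θ) * L z = 2 * (q' * L z) + θ * L z := by ring
        rw [f13]
        have f14 : 3 / 4 * Real.log (u z) ≤ k + q' * L z := by linarith
        linarith
      · have f3 : ℓ z = -(M / θ + lb + 1) := by
          rw [hℓ]
          simp only
          rw [max_eq_right f2.le, hlogδ]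
        have f4 : M / θ ≤ L z := by
          have : -ℓ z ≤ L z := le_max_right _ _
          rw [f3] at this
          linarith
        have f5 : M ≤ θ * L z := by
          rw [div_le_iff₀ hθ] at f4
          linarith
        have f6 : W z ≤ M := by
          have := hM z hzc
          rw [Real.norm_eq_abs] at this
          exact (le_abs_self _).trans this
        have f7 : 0 ≤ 2 * q' * L z := by positivity
        nlinarith
    have hi3 : CircleIntegrable (fun z => (2 * q' + θ) • L z) 0 t := hLi.const_fun_smul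
    have e5 := Real.circleAverage_mono hWi ((circleIntegrable_const (2 * k) 0 t).add hi3)
      (fun z hz => by
        have := e4 z hz
        simpa [smul_eq_mul] using this)
    rw [Real.circleAverage_add (circleIntegrable_const _ _ _) hi3, Real.circleAverage_const,
      Real.circleAverage_fun_smul, smul_eq_mul] at e5
    have e6 : (2 * q' + θ) * circleAverage L 0 t ≤ (2 * q' + θ) * Y :=
      mul_le_mul_of_nonneg_left e3 (by positivity)
    linarith
  have key2 : X ≤ 2 * k + 2 * q' * Y := by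
    apply le_of_forall_pos_le_add
    intro e he
    have h1 := key (e / (Y + 1)) (by positivity)
    have h2 : e / (Y + 1) * Y ≤ e := by
      rw [div_mul_eq_mul_div, div_le_iff₀ (by positivity)]
      nlinarith
    have h3 : (2 * q' + e / (Y + 1)) * Y = 2 * q' * Y + e / (Y + 1) * Y := by ring
    rw [h3] at h1
    linarith
  have key3 : X ≤ 4 * k + c + 4 * lb := by
    have h1 : 2 * q' * Y = 2 * q' * lb + 2 * c * (q' * t ^ 2) + 2 * (a * q') * X := by
      rw [hY]
      ring
    rw [h1, hq't] at key2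
    have h2 : 2 * (a * q') * X ≤ 1 / 2 * X := mul_le_mul_of_nonneg_right (by linarith) hX0
    have h3 : 2 * q' * lb ≤ 2 * lb := by nlinarith
    linarith
  have h1 := harnack ht0 hWc hWs (fun z _ => hW0 z) (w := w)
    (mem_ball_zero_iff.2 (by linarith))
  have h2 : (t + ‖w‖) / (t - ‖w‖) ≤ 3 := by
    rw [div_le_iff₀ (by linarith)]
    linarith
  have h3 : W w ≤ 3 * (4 * k + c + 4 * lb) := by
    refine h1.trans ?_
    exact mul_le_mul h2 key3 hX0 (by norm_num)
  have h4 : u w ≤ Real.exp (W w) := by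
    rw [hW]
    simp only
    rw [Real.exp_log (one_pos.trans_le (le_max_right _ _))]
    exact le_max_left _ _
  exact h4.trans (Real.exp_le_exp.2 h3)

end Pool.Agent.H33
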