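import Mathlib

/-! Disc coordinates of the upper half plane. -/

set_option autoImplicit false

open Filter Topology Metric Set
open scoped UpperHalfPlane ComplexConjugate MatrixGroups

namespace Pool.Agent.H33

/-- the disc coordinate with the centre `z` -/
noncomputable def cay (z : ℍ) (ζ : ℂ) : ℂ := ((z : ℂ) - conj (z : ℂ) * ζ) / (1 - ζ)

theorem one_sub_ne {ζ : ℂ} (h : ζ ∈ ball (0 : ℂ) 1) : 1 - ζ ≠ 0 := by
  intro h1
  have h2 : ζ = 1 := by linear_combination -h1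
  rw [h2, mem_ball_zero_iff, norm_one] at h
  exact lt_irrefl _ h

theorem cay_zero (z : ℍ) : cay z 0 = z := by simp [cay]

theorem normSq_lt {ζ : ℂ} (h : ζ ∈ ball (0 : ℂ) 1) : 0 < 1 - ‖ζ‖ ^ 2 := by
  rw [mem_ball_zero_iff] at h
  nlinarith [norm_nonneg ζ]

theorem cay_im (z : ℍ) {ζ : ℂ} (h : ζ ∈ ball (0 : ℂ) 1) :
    (cay z ζ).im = z.im * (1 - ‖ζ‖ ^ 2) / ‖1 - ζ‖ ^ 2 := by
  have h1 : Complex.normSq (1 - ζ) ≠ 0 := by
    rw [Ne, Complex.normSq_eq_zero]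
    exact one_sub_ne h
  unfold cay
  rw [Complex.div_im, Complex.sq_norm, Complex.sq_norm, ← sub_div]
  congr 1
  simp only [Complex.sub_im, Complex.sub_re, Complex.mul_im, Complex.mul_re, Complex.conj_re,
    Complex.conj_im, Complex.one_re, Complex.one_im, Complex.normSq_apply, UpperHalfPlane.coe_re,
    UpperHalfPlane.coe_im]
  ring

theorem cay_im_pos (z : ℍ) {ζ : ℂ} (h : ζ ∈ ball (0 : ℂ) 1) : 0 < (cay z ζ).im := by
  rw [cay_im z h]
  have h1 := normSq_lt h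
  have h2 := norm_pos_iff.2 (one_sub_ne h)
  have h3 := z.im_pos
  positivity

/-- the derivative -/
noncomputable def cay' (z : ℍ) (ζ : ℂ) : ℂ := ((z : ℂ) - conj (z : ℂ)) / (1 - ζ) ^ 2

theorem hasDerivAt_cay (z : ℍ) {ζ : ℂ} (h : ζ ∈ ball (0 : ℂ) 1) :
    HasDerivAt (cay z) (cay' z ζ) ζ := by
  have h1 := one_sub_ne h
  have e1 : HasDerivAt (fun ζ : ℂ => (z : ℂ) - conj (z : ℂ) * ζ) (-conj (z : ℂ)) ζ := by
    simpa using ((hasDerivAt_id ζ).const_mul (conj (z : ℂ))).const_sub (z : ℂ)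
  have e2 : HasDerivAt (fun ζ : ℂ => 1 - ζ) (-1) ζ := by
    simpa using (hasDerivAt_id ζ).const_sub (1 : ℂ)
  have e3 := e1.div e2 h1
  have e4 : cay' z ζ = (-conj (z : ℂ) * (1 - ζ) - ((z : ℂ) - conj (z : ℂ) * ζ) * -1) /
      (1 - ζ) ^ 2 := by
    unfold cay'
    congr 1
    ring
  rw [e4]
  exact e3

theorem norm_sub_conj (z : ℍ) : ‖(z : ℂ) - conj (z : ℂ)‖ = 2 * z.im := by
  rw [Complex.sub_conj, norm_mul, Complex.norm_I, mul_one, Complex.norm_real,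
    UpperHalfPlane.coe_im, Real.norm_of_nonneg (by have := z.im_pos; positivity)]

theorem norm_cay' (z : ℍ) {ζ : ℂ} (h : ζ ∈ ball (0 : ℂ) 1) :
    ‖cay' z ζ‖ * (1 - ‖ζ‖ ^ 2) = 2 * (cay z ζ).im := by
  have h1 := norm_pos_iff.2 (one_sub_ne h)
  rw [cay_im z h, cay', norm_div, norm_pow, norm_sub_conj]
  ring

theorem cay'_ne (z : ℍ) {ζ : ℂ} (h : ζ ∈ ball (0 : ℂ) 1) : cay' z ζ ≠ 0 := by
  intro h0
  have h1 := norm_cay' z h
  rw [h0, norm_zero, zero_mul] at h1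
  have := cay_im_pos z h
  linarith

theorem differentiableOn_cay (z : ℍ) : DifferentiableOn ℂ (cay z) (ball 0 1) := fun _ h =>
  (hasDerivAt_cay z h).differentiableAt.differentiableWithinAt

theorem cay_inj (z : ℍ) : InjOn (cay z) (ball 0 1) := by
  intro ζ hζ ξ hξ h
  unfold cay at h
  rw [div_eq_div_iff (one_sub_ne hζ) (one_sub_ne hξ)] at h
  have h1 : ((z : ℂ) - conj (z : ℂ)) * (ζ - ξ) = 0 := by linear_combination h
  rcases mul_eq_zero.1 h1 with h2 | h2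
  · exfalso
    have h3 := norm_sub_conj z
    rw [h2, norm_zero] at h3
    have := z.im_pos
    linarith
  · exact sub_eq_zero.1 h2

/-- the point with the disc coordinate `ζ` -/
noncomputable def cayH (z : ℍ) (ζ : ℂ) : ℍ := UpperHalfPlane.ofComplex (cay z ζ)

theorem coe_cayH (z : ℍ) {ζ : ℂ} (h : ζ ∈ ball (0 : ℂ) 1) : (cayH z ζ : ℂ) = cay z ζ := by
  unfold cayH
  rw [UpperHalfPlane.ofComplex_apply_of_im_pos (cay_im_pos z h)]

theorem cayH_zero (z : ℍ) : cayH z 0 = z := by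
  unfold cayH
  rw [cay_zero, UpperHalfPlane.ofComplex_apply]

theorem tanh_cayH (z : ℍ) {ζ : ℂ} (h : ζ ∈ ball (0 : ℂ) 1) :
    Real.tanh (dist z (cayH z ζ) / 2) = ‖ζ‖ := by
  rw [dist_comm, UpperHalfPlane.tanh_half_dist, coe_cayH z h, Complex.dist_eq, Complex.dist_eq]
  have h1 := one_sub_ne h
  have e1 : cay z ζ - (z : ℂ) = ((z : ℂ) - conj (z : ℂ)) * ζ / (1 - ζ) := by
    unfold cay
    field_simp
    ring
  have e2 : cay z ζ - conj (z : ℂ) = ((z : ℂ) - conj (z : ℂ)) / (1 - ζ) := by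
    unfold cay
    field_simp
    ring
  have h3 : ‖(z : ℂ) - conj (z : ℂ)‖ ≠ 0 := by
    rw [norm_sub_conj]
    have := z.im_pos
    positivity
  have h4 := norm_ne_zero_iff.2 h1
  rw [e1, e2, norm_div, norm_div, norm_mul]
  field_simp

theorem exists_cayH (z w : ℍ) : ∃ ζ ∈ ball (0 : ℂ) 1, cayH z ζ = w := by
  have h0 : (w : ℂ) - conj (z : ℂ) ≠ 0 := by
    intro h
    have := congrArg Complex.im h
    simp at this
    have h1 := z.im_pos
    have h2 := w.im_pos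
    linarith
  set ζ : ℂ := ((w : ℂ) - z) / ((w : ℂ) - conj (z : ℂ)) with hζ
  have h2 : ‖ζ‖ = Real.tanh (dist w z / 2) := by
    rw [UpperHalfPlane.tanh_half_dist, Complex.dist_eq, Complex.dist_eq, hζ, norm_div]
  have h3 : ζ ∈ ball (0 : ℂ) 1 := by
    rw [mem_ball_zero_iff, h2]
    exact Real.tanh_lt_one _
  refine ⟨ζ, h3, ?_⟩
  apply UpperHalfPlane.coe_injective
  rw [coe_cayH z h3]
  have h4 := one_sub_ne h3
  unfold cay
  rw [div_eq_iff h4, hζ]
  field_simp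
  ring

end Pool.Agent.H33
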