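import Pool.Agent.H33.KDefs
import Mathlib.Analysis.Complex.UpperHalfPlane.Metric
import Mathlib.Analysis.Complex.UpperHalfPlane.Topology

/-! Holomorphic maps from the upper half plane to projective manifolds. -/

set_option autoImplicit false

open LinearAlgebra.Projectivization
open scoped UpperHalfPlane MatrixGroups

namespace Pool.Agent.H33

variable {n : ℕ}

/-- `f` is a holomorphic map from the upper half plane to the projective set with the cone `X`:
near every point it is the class of a holomorphic map to `ℂ ^ (n + 1)`, and its values are in the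
projective set. -/
def HolH (X : Set (Fin (n + 1) → ℂ)) (f : ℍ → ℙ ℂ (Fin (n + 1) → ℂ)) : Prop :=
  ∀ z₀ : ℍ, (f z₀).rep ∈ X ∧ ∃ (V : Set ℂ) (g : ℂ → Fin (n + 1) → ℂ), IsOpen V ∧ (z₀ : ℂ) ∈ V ∧
    DifferentiableOn ℂ g V ∧
    ∀ z : ℍ, (z : ℂ) ∈ V → ∃ h : g z ≠ 0, f z = Projectivization.mk ℂ (g z) h

/-- The group `Γ` of Möbius transformations moves every point of the upper half plane to a point at a
hyperbolic distance of at most `r` from some fixed point. If `Γ` is discrete and torsion-free then
this says that `ℍ / Γ` is a compact Riemann surface of genus at least `2`, and that its points are at a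
distance of at most `r` from some point for the hyperbolic metric; by uniformization all compact Riemann
surfaces of genus at least `2` are of this form. -/
def Cocompact (Γ : Subgroup SL(2, ℝ)) (r : ℝ) : Prop :=
  ∃ z₀ : ℍ, ∀ z : ℍ, ∃ γ ∈ Γ, dist (γ • z) z₀ ≤ r

end Pool.Agent.H33
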