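import Pool.Agent.H33.LA
import Pool.Agent.H33.LDefs
import Pool.Agent.H33.KD

/-! The lengths of the derivatives of maps from the upper half plane. -/

set_option autoImplicit false

open Filter Topology Metric Set MvPolynomial LinearAlgebra.Projectivization
open scoped UpperHalfPlane ComplexConjugate MatrixGroups

namespace Pool.Agent.H33

open Pool.Agent.Y190.OP Pool.Agent.W602.GT Pool.Agent.N155 Pool.Agent.N155.BB

variable {n : ℕ} {ι : Type} {F : ι → MvPolynomial (Fin (n + 1)) ℂ} {d : ℕ}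
  {Φ Ψ : (Fin (n + 1) → ℂ) → (Fin (n + 1) → ℂ) → ℝ} {P : ℂ → Mat (n + 1)} {a : ℕ}

/-- the length depends only on the germ -/
theorem len_congr {Q : ℂ → Mat (n + 1)} {t : ℂ} (h : P =ᶠ[𝓝 t] Q) : len Φ P t = len Φ Q t := by
  have h0 : P t = Q t := h.self_of_nhds
  have hi : ix P t = ix Q t := by
    unfold ix
    rw [h0]
  have h1 : (fun s => chart (ix Q t) (P s)) =ᶠ[𝓝 t] fun s => chart (ix Q t) (Q s) :=
    h.mono fun s hs => by simp only [hs]
  unfold len pv
  rw [hi, h1.deriv_eq, h0]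

/-- the matrices of the values of a map from the upper half plane -/
noncomputable def mapH (f : ℍ → ℙ ℂ (Fin (n + 1) → ℂ)) (z : ℂ) : Mat (n + 1) :=
  Phi (f (UpperHalfPlane.ofComplex z)).rep

/-- the upper half plane as a subset of the plane -/
def upper : Set ℂ := {z | 0 < z.im}

theorem isOpen_upper : IsOpen upper := isOpen_lt continuous_const Complex.continuous_im

theorem coe_upper (z : ℍ) : (z : ℂ) ∈ upper := z.im_pos

theorem cay_upper (z : ℍ) : MapsTo (cay z) (ball 0 1) upper := fun _ h => cay_im_pos z h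

theorem mapH_coe (f : ℍ → ℙ ℂ (Fin (n + 1) → ℂ)) (z : ℍ) : mapH f z = Phi (f z).rep := by
  unfold mapH
  rw [UpperHalfPlane.ofComplex_apply]

theorem HolH.pd {f : ℍ → ℙ ℂ (Fin (n + 1) → ℂ)} (hf : HolH (Cone F) f) :
    PD F upper (mapH f) := by
  refine ⟨isOpen_upper, fun z hz => ?_, fun z hz => ?_⟩
  · obtain ⟨-, V, g, hV, hzV, hg, hfg⟩ := hf ⟨z, hz⟩
    refine ⟨V ∩ upper, g, hV.inter isOpen_upper, ⟨hzV, hz⟩, hg.mono inter_subset_left,
      fun w hw => ?_⟩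
    obtain ⟨h0, he⟩ := hfg ⟨w, hw.2⟩ hw.1
    refine ⟨h0, ?_⟩
    have h1 : mapH f w = Phi (f ⟨w, hw.2⟩).rep := mapH_coe f ⟨w, hw.2⟩
    rw [h1, he, Phi_rep_mk]
  · have h1 : mapH f z = Phi (f ⟨z, hz⟩).rep := mapH_coe f ⟨z, hz⟩
    rw [h1]
    exact mem_TF (hf ⟨z, hz⟩).1

/-- the length of the derivative for the hyperbolic metric -/
noncomputable def hl (a : ℕ) (Φ : (Fin (n + 1) → ℂ) → (Fin (n + 1) → ℂ) → ℝ)
    (P : ℂ → Mat (n + 1)) (z : ℍ) : ℝ := (2 * z.im) ^ a * len Φ P z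

variable (hX : ProjManifold F d)
  (ht : ∀ x ∈ Cone F, ∀ (v : Fin (n + 1) → ℂ) (c b : ℂ), c ≠ 0 →
      Φ (c • x) (c • (v + b • x)) = Φ x v)
  (hd : ∀ x ∈ Cone F, ∀ (v : Fin (n + 1) → ℂ) (c : ℂ), c ≠ 0 → Φ x (c • v) = ‖c‖ ^ a * Φ x v)

include hX ht hd

/-- the length in disc coordinates -/
theorem hl_cay (hP : PD F upper P) (z : ℍ) {ζ : ℂ} (hζ : ζ ∈ ball (0 : ℂ) 1) :
    len Φ (fun s => P (cay z s)) ζ * (1 - ‖ζ‖ ^ 2) ^ a = hl a Φ P (cayH z ζ) := by
  have h1 := len_comp hX ht hd hP (f := cay z) (w := ζ)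
    (by
      filter_upwards [isOpen_ball.mem_nhds hζ] with s hs
      exact (hasDerivAt_cay z hs).differentiableAt) (hasDerivAt_cay z hζ) (cay_upper z hζ)
    (cay'_ne z hζ)
  have h2 : (cayH z ζ).im = (cay z ζ).im := by
    rw [← UpperHalfPlane.coe_im, coe_cayH z hζ]
  unfold hl
  rw [h1, coe_cayH z hζ, h2, ← norm_cay' z hζ, mul_pow]
  ring

theorem hl_zero (hP : PD F upper P) (z : ℍ) :
    len Φ (fun s => P (cay z s)) 0 = hl a Φ P z := by
  have h1 := hl_cay hX ht hd hP z (mem_ball_self one_pos)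
  rw [cayH_zero, norm_zero] at h1
  rw [← h1]
  norm_num

/-- invariance -/
theorem hl_smul (hP : PD F upper P) {γ : SL(2, ℝ)} (hγ : ∀ z : ℍ, P (γ • z : ℍ) = P z) (z : ℍ) :
    hl a Φ P (γ • z) = hl a Φ P z := by
  set g : GL (Fin 2) ℝ := (γ : GL (Fin 2) ℝ) with hg
  have hdet : 0 < g.val.det := by
    rw [hg]
    simp
  have hgz : ∀ w : ℍ, g • w = γ • w := fun w => rfl
  set G : ℂ → ℂ := fun w => ((g • UpperHalfPlane.ofComplex w : ℍ) : ℂ) with hG
  have hGd : HasDerivAt G (g.val.det / UpperHalfPlane.denom g z ^ 2) z :=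
    (UpperHalfPlane.hasStrictDerivAt_smul hdet z).hasDerivAt
  have hGz : G z = ((γ • z : ℍ) : ℂ) := by
    rw [hG]
    simp only [UpperHalfPlane.ofComplex_apply]
    rfl
  have hne : (g.val.det : ℂ) / UpperHalfPlane.denom g z ^ 2 ≠ 0 :=
    div_ne_zero (by exact_mod_cast hdet.ne') (pow_ne_zero _ (UpperHalfPlane.denom_ne_zero g z))
  have h1 := len_comp hX ht hd hP (f := G) (w := z)
    (by
      filter_upwards [isOpen_upper.mem_nhds (coe_upper z)] with s hs
      exact (UpperHalfPlane.hasStrictDerivAt_smul hdet ⟨s, hs⟩).hasDerivAt.differentiableAt) hGd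
    (by
      rw [hGz]
      exact coe_upper _) hne
  have h2 : (fun s => P (G s)) =ᶠ[𝓝 (z : ℂ)] P := by
    filter_upwards [isOpen_upper.mem_nhds (coe_upper z)] with s hs
    have h3 : G s = ((γ • (⟨s, hs⟩ : ℍ) : ℍ) : ℂ) := by
      rw [hG]
      simp only
      rw [UpperHalfPlane.ofComplex_apply_of_im_pos hs]
      rfl
    rw [h3, hγ]
  rw [len_congr h2] at h1
  have h4 : (γ • z : ℍ).im = z.im * ‖(g.val.det : ℂ) / UpperHalfPlane.denom g z ^ 2‖ := by
    rw [← hgz, UpperHalfPlane.im_smul_eq_div_normSq, norm_div, norm_pow, ← Complex.normSq_eq_norm_sq,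
      Complex.norm_real]
    have e1 : (g.det.val : ℝ) = g.val.det := rfl
    rw [e1, Real.norm_eq_abs]
    ring
  unfold hl
  rw [h4, h1, hGz]
  ring

end Pool.Agent.H33
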