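import Pool.Agent.H33.LB
import Pool.Agent.H33.KF

/-! The bound of the derivatives of the maps from compact Riemann surfaces. -/

set_option autoImplicit false

open Filter Topology Metric Set MvPolynomial LinearAlgebra.Projectivization
open scoped UpperHalfPlane ComplexConjugate MatrixGroups

namespace Pool.Agent.H33

open Pool.Agent.Y190.OP Pool.Agent.W602.GT Pool.Agent.N155 Pool.Agent.N155.BB

variable {n : ℕ} {ι : Type} {F : ι → MvPolynomial (Fin (n + 1)) ℂ} {d : ℕ}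
  {κ : Type} {η : κ → (Fin (n + 1) → ℂ) → (Fin (n + 1) → ℂ) → (Fin (n + 1) → ℂ) → ℂ}
  {Φ Ψ : (Fin (n + 1) → ℂ) → (Fin (n + 1) → ℂ) → ℝ} {P : ℂ → Mat (n + 1)} {a ν : ℕ}

theorem tanh_eq' (x : ℝ) : Real.tanh x = 1 - 2 / (Real.exp (2 * x) + 1) := by
  rw [Real.tanh_eq]
  have h1 : Real.exp (2 * x) = Real.exp x * Real.exp x := by
    rw [← Real.exp_add]
    ring_nf
  have h2 : Real.exp (-x) * Real.exp x = 1 := by
    rw [← Real.exp_add]
    simp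
  have h3 := Real.exp_pos x
  have h4 := Real.exp_pos (-x)
  rw [h1, div_eq_iff (by positivity)]
  field_simp
  linear_combination (-2 * Real.exp x) * h2

theorem tanh_mono {x y : ℝ} (h : x ≤ y) : Real.tanh x ≤ Real.tanh y := by
  rw [tanh_eq', tanh_eq']
  have h1 : Real.exp (2 * x) ≤ Real.exp (2 * y) := Real.exp_le_exp.2 (by linarith)
  have h2 := Real.exp_pos (2 * x)
  gcongr

theorem tanh_nonneg' {x : ℝ} (h : 0 ≤ x) : 0 ≤ Real.tanh x := by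
  have := tanh_mono h
  rwa [Real.tanh_zero] at this

theorem tanh_le {x : ℝ} (h : 0 ≤ x) : Real.tanh x ≤ 2 * x := by
  rw [tanh_eq']
  have h2 := Real.exp_pos (2 * x)
  have h3 : Real.exp (2 * x) * Real.exp (-(2 * x)) = 1 := by
    rw [← Real.exp_add]
    simp
  have h4 := Real.add_one_le_exp (-(2 * x))
  have h5 : Real.exp (2 * x) - 1 ≤ 2 * x * Real.exp (2 * x) := by nlinarith
  rw [sub_le_iff_le_add, ← sub_le_iff_le_add', le_div_iff₀ (by positivity)]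
  nlinarith

/-- the weight and the constants -/
structure Dat (F : ι → MvPolynomial (Fin (n + 1)) ℂ) (d : ℕ)
    (Φ Ψ : (Fin (n + 1) → ℂ) → (Fin (n + 1) → ℂ) → ℝ) (a : ℕ) (C κ ε q M : ℝ) : Prop where
  hX : ProjManifold F d
  hΦ : NonposMetric (Cone F) d Φ
  hnd : Nondegenerate (Cone F) d Φ
  hΨ : NegativeNearZeros (Cone F) d Φ a Ψ
  ze : ZeroE F Φ Ψ
  hC : 0 ≤ C
  hκ : 0 < κ
  hε : 0 < ε
  w : ∀ (D : Set ℂ) (P : ℂ → Mat (n + 1)), PD F D P → WOn D a C κ ε (len Φ P) (len Ψ P)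
  hq : 0 < q
  haq : a * q < 1
  hM : 0 < M
  disc : ∀ P, PD F (ball 0 1) P → len Φ P 0 ^ (1 - a * q) * len Ψ P 0 ^ q ≤ M

theorem exists_dat [Fintype κ] (h : Hyp F d Φ η ν) :
    ∃ (Ψ : (Fin (n + 1) → ℂ) → (Fin (n + 1) → ℂ) → ℝ) (a : ℕ) (C κ' ε q M : ℝ),
      Dat F d Φ Ψ a C κ' ε q M := by
  obtain ⟨a, Ψ, -, hΨ, hze, -⟩ := exists_weight_low h
  obtain ⟨c1, C1, hc1, hC1, hcC1⟩ := len_le_ge h.hX h.hΦ h.hnd
  obtain ⟨C, κ', ε, hC, hκ, hε, hW⟩ := wOn h.hX h.hΦ hΨ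
  have hno : ∀ H : ℂ → Mat (n + 1), PD F univ H → (∃ B : ℝ, ∀ z, ‖fderiv ℝ H z‖ ≤ B) →
      0 < len Φ H 0 → ¬ 0 < len Ψ H 0 := by
    rintro H hH ⟨B, hB⟩ h1 h2
    have hT : ∀ z, H z ∈ TF F := fun z => hH.mem z (mem_univ z)
    have hphi : (fun z => Phi (toProj (H z)).rep) = H := funext fun z =>
      Phi_rep_toProj (TF_PM (hT z))
    have hin : HolIn F fun z => toProj (H z) :=
      ⟨holMap_of hH.hol, fun z => rep_toProj h.hX.form (hT z)⟩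
    have hnc : ∃ z w, toProj (H z) ≠ toProj (H w) := by
      by_contra hcon
      push Not at hcon
      have h3 : ∀ z, H z = H 0 := fun z => by
        have := congrArg (fun p : ℙ ℂ (Fin (n + 1) → ℂ) => Phi p.rep) (hcon z 0)
        change (fun z => Phi (toProj (H z)).rep) z = (fun z => Phi (toProj (H z)).rep) 0 at this
        rwa [hphi] at this
      have h4 : fderiv ℝ H 0 = 0 := by
        have : H = fun _ => H 0 := funext h3
        rw [this]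
        simp
      have h5 := (hcC1 H hH.hol hT 0).2
      rw [h4, norm_zero, mul_zero] at h5
      linarith
    have h3 := (hasSpeed_iff h.hX hΨ.twist hin).1 (null_all h hΨ hze hin hnc) 0
    rw [hphi] at h3
    linarith
  have hq0 : (0 : ℝ) < 1 / ((a : ℝ) + 1) := by positivity
  have haq : a * (1 / ((a : ℝ) + 1)) < 1 := by
    rw [mul_one_div, div_lt_one (by positivity)]
    exact lt_add_one _
  obtain ⟨M, hM, hdb⟩ := disc_bound h.hX h.hΦ h.hnd hΨ hno hq0 haq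
  exact ⟨Ψ, a, C, κ', ε, _, M, h.hX, h.hΦ, h.hnd, hΨ, hze, hC, hκ, hε, hW, hq0, haq, hM, hdb⟩

variable {C κ' ε q M : ℝ}

/-- in disc coordinates -/
theorem PD.disc (hP : PD F upper P) (z : ℍ) : PD F (ball 0 1) fun s => P (cay z s) :=
  hP.comp isOpen_ball (differentiableOn_cay z) (cay_upper z)

namespace Dat

theorem Phi_zero (h : Dat F d Φ Ψ a C κ' ε q M) (hP : PD F upper P) (z : ℍ) :
    len Φ (fun s => P (cay z s)) 0 = hl 1 Φ P z :=
  hl_zero h.hX h.hΦ.twist h.hΦ.deg' hP z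

theorem Psi_zero (h : Dat F d Φ Ψ a C κ' ε q M) (hP : PD F upper P) (z : ℍ) :
    len Ψ (fun s => P (cay z s)) 0 = hl a Ψ P z :=
  hl_zero h.hX h.hΨ.twist h.hΨ.deg hP z

theorem Phi_cay (h : Dat F d Φ Ψ a C κ' ε q M) (hP : PD F upper P) (z : ℍ) {ζ : ℂ}
    (hζ : ζ ∈ ball (0 : ℂ) 1) :
    len Φ (fun s => P (cay z s)) ζ * (1 - ‖ζ‖ ^ 2) = hl 1 Φ P (cayH z ζ) := by
  have := hl_cay h.hX h.hΦ.twist h.hΦ.deg' hP z hζ
  rwa [pow_one] at this

theorem Psi_cay (h : Dat F d Φ Ψ a C κ' ε q M) (hP : PD F upper P) (z : ℍ) {ζ : ℂ}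
    (hζ : ζ ∈ ball (0 : ℂ) 1) :
    len Ψ (fun s => P (cay z s)) ζ * (1 - ‖ζ‖ ^ 2) ^ a = hl a Ψ P (cayH z ζ) :=
  hl_cay h.hX h.hΨ.twist h.hΨ.deg hP z hζ

theorem contPhi (h : Dat F d Φ Ψ a C κ' ε q M) (hP : PD F upper P) : Continuous (hl 1 Φ P) := by
  have h1 := (h.w _ _ hP).cu.comp_continuous UpperHalfPlane.continuous_coe coe_upper
  have h2 := UpperHalfPlane.continuous_im
  unfold hl
  exact ((continuous_const.mul h2).pow 1).mul h1

theorem contPsi (h : Dat F d Φ Ψ a C κ' ε q M) (hP : PD F upper P) : Continuous (hl a Ψ P) := by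
  have h1 := (h.w _ _ hP).cv.comp_continuous UpperHalfPlane.continuous_coe coe_upper
  have h2 := UpperHalfPlane.continuous_im
  unfold hl
  exact ((continuous_const.mul h2).pow a).mul h1

theorem nonnegPhi (h : Dat F d Φ Ψ a C κ' ε q M) (hP : PD F upper P) (z : ℍ) :
    0 ≤ hl 1 Φ P z := by
  have h1 := (h.w _ _ hP).u0 z (coe_upper z)
  have h2 := z.im_pos
  unfold hl
  positivity

theorem nonnegPsi (h : Dat F d Φ Ψ a C κ' ε q M) (hP : PD F upper P) (z : ℍ) :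
    0 ≤ hl a Ψ P z := by
  have h1 := (h.w _ _ hP).v0 z (coe_upper z)
  have h2 := z.im_pos
  unfold hl
  positivity

theorem bound (h : Dat F d Φ Ψ a C κ' ε q M) (hP : PD F upper P) (z : ℍ) :
    hl 1 Φ P z ^ (1 - a * q) * hl a Ψ P z ^ q ≤ M := by
  rw [← h.Phi_zero hP, ← h.Psi_zero hP]
  exact h.disc _ (hP.disc z)

theorem invPhi (h : Dat F d Φ Ψ a C κ' ε q M) (hP : PD F upper P) {γ : SL(2, ℝ)}
    (hγ : ∀ z : ℍ, P (γ • z : ℍ) = P z) (z : ℍ) : hl 1 Φ P (γ • z) = hl 1 Φ P z :=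
  hl_smul h.hX h.hΦ.twist h.hΦ.deg' hP hγ z

theorem invPsi (h : Dat F d Φ Ψ a C κ' ε q M) (hP : PD F upper P) {γ : SL(2, ℝ)}
    (hγ : ∀ z : ℍ, P (γ • z : ℍ) = P z) (z : ℍ) : hl a Ψ P (γ • z) = hl a Ψ P z :=
  hl_smul h.hX h.hΨ.twist h.hΨ.deg hP hγ z

/-- **The bound of the derivative.** -/
theorem lip (h : Dat F d Φ Ψ a C κ' ε q M) {r : ℝ} (hr : 0 ≤ r) : ∃ B : ℝ, 0 < B ∧
    ∀ (Γ : Subgroup SL(2, ℝ)), Cocompact Γ r → ∀ P : ℂ → Mat (n + 1), PD F upper P →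
      (∀ γ ∈ Γ, ∀ z : ℍ, P (γ • z : ℍ) = P z) → (∃ z : ℍ, 0 < hl a Ψ P z) →
      ∀ z : ℍ, hl 1 Φ P z ≤ B := by
  obtain ⟨B, hB, hnb⟩ := normal_bound (a := a) h.hC h.hκ h.hε h.hq h.hM (tanh_nonneg' hr)
    (Real.tanh_lt_one r)
  refine ⟨B, hB, fun Γ hΓ P hP hinv hpos z => ?_⟩
  obtain ⟨z₀, hz₀⟩ := hΓ
  obtain ⟨zs, hzs, hmax⟩ := (isCompact_closedBall z₀ r).exists_isMaxOn
    ⟨z₀, mem_closedBall_self hr⟩ (h.contPsi hP).continuousOn
  have hmax' : ∀ w : ℍ, hl a Ψ P w ≤ hl a Ψ P zs := by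
    intro w
    obtain ⟨γ, hγ, hd⟩ := hz₀ w
    rw [← h.invPsi hP (hinv γ hγ) w]
    exact hmax (mem_closedBall.2 hd)
  have hvs : 0 < hl a Ψ P zs := by
    obtain ⟨w, hw⟩ := hpos
    exact hw.trans_le (hmax' w)
  have hw := h.w _ _ (hP.disc zs)
  have key := hnb _ _ hw
    (by
      intro ζ hζ
      have e1 := h.Phi_cay hP zs hζ
      have e2 := h.Psi_cay hP zs hζ
      have e3 := h.bound hP (cayH zs ζ)
      have hs := normSq_lt hζ
      have hu := hw.u0 ζ hζ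
      have hv := hw.v0 ζ hζ
      rw [← e1, ← e2, Real.mul_rpow hu hs.le, Real.mul_rpow hv (by positivity),
        ← Real.rpow_natCast (1 - ‖ζ‖ ^ 2) a, ← Real.rpow_mul hs.le] at e3
      have h1 : (1 - ‖ζ‖ ^ 2) ^ (1 - a * q) * (1 - ‖ζ‖ ^ 2) ^ (a * q) = 1 - ‖ζ‖ ^ 2 := by
        rw [← Real.rpow_add hs]
        simp
      calc len Φ (fun s => P (cay zs s)) ζ ^ (1 - a * q) * len Ψ (fun s => P (cay zs s)) ζ ^ q *
            (1 - ‖ζ‖ ^ 2) = _ := by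
              conv_lhs => rw [← h1]
              ring
        _ ≤ M := e3)
    (by
      rw [h.Psi_zero hP]
      exact hvs)
    (by
      intro ζ hζ
      rw [h.Psi_cay hP zs hζ, h.Psi_zero hP]
      exact hmax' _)
  obtain ⟨γ, hγ, hd⟩ := hz₀ z
  rw [← h.invPhi hP (hinv γ hγ) z]
  obtain ⟨ζ, hζ, hζe⟩ := exists_cayH zs (γ • z)
  rw [← hζe, ← h.Phi_cay hP zs hζ]
  have hn : ‖ζ‖ ≤ Real.tanh r := by
    rw [← tanh_cayH zs hζ, hζe]
    apply tanh_mono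
    have h1 := dist_triangle zs z₀ (γ • z)
    rw [mem_closedBall] at hzs
    rw [dist_comm z₀] at h1
    linarith
  have hu := hw.u0 ζ hζ
  have h1 := key ζ hn
  have h2 : 1 - ‖ζ‖ ^ 2 ≤ 1 := by
    have := sq_nonneg ‖ζ‖
    linarith
  exact (mul_le_of_le_one_right hu h2).trans h1

end Dat

end Pool.Agent.H33
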