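import Pool.Agent.H33.LC

/-! Maps which are not contained in the exceptional set; the Lipschitz constants. -/

set_option autoImplicit false

open Filter Topology Metric Set MvPolynomial LinearAlgebra.Projectivization
open scoped UpperHalfPlane ComplexConjugate MatrixGroups

namespace Pool.Agent.H33

open Pool.Agent.Y190.OP Pool.Agent.W602.GT Pool.Agent.N155 Pool.Agent.N155.BB

variable {n : ℕ} {ι : Type} {F : ι → MvPolynomial (Fin (n + 1)) ℂ} {d : ℕ}
  {κ : Type} {η : κ → (Fin (n + 1) → ℂ) → (Fin (n + 1) → ℂ) → (Fin (n + 1) → ℂ) → ℂ}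
  {Φ Ψ : (Fin (n + 1) → ℂ) → (Fin (n + 1) → ℂ) → ℝ} {P : ℂ → Mat (n + 1)} {a ν : ℕ}
  {C κ' ε q M : ℝ} {D : Set ℂ}

/-- the identity theorem -/
theorem PD.eq_of_germ (hP : PD F D P) (hD : IsPreconnected D) {z₁ : ℂ} (hz₁ : z₁ ∈ D)
    (h : ∀ᶠ z in 𝓝 z₁, P z = P z₁) : ∀ z ∈ D, P z = P z₁ := by
  set A : Set ℂ := {z | ∀ᶠ w in 𝓝 z, P w = P z₁} with hA
  have hAo : IsOpen A := by
    rw [isOpen_iff_mem_nhds]
    intro z hz
    exact (eventually_eventually_nhds.2 hz : ∀ᶠ w in 𝓝 z, ∀ᶠ s in 𝓝 w, P s = P z₁)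
  have hsub : D ⊆ A := by
    refine hD.subset_of_closure_inter_subset hAo ⟨z₁, hz₁, h⟩ ?_
    rintro z ⟨hzA, hzD⟩
    have hc : ContinuousAt P z := hP.hol.continuousAt hzD
    have hPz : P z = P z₁ := by
      by_contra hne
      have h1 : ∀ᶠ w in 𝓝 z, P w ≠ P z₁ := hc.eventually_ne hne
      obtain ⟨w, hwA, hw⟩ := (mem_closure_iff_frequently.1 hzA).and_eventually h1 |>.exists
      exact hw hwA.self_of_nhds
    obtain ⟨i, hi⟩ := PM.exists_diag (TF_PM (hP.mem z hzD))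
    have hev : ∀ᶠ w in 𝓝 z, w ∈ D ∧ P w i i ≠ 0 :=
      (hP.op.eventually_mem hzD).and
        (hc.eventually ((continuous_apply_apply i i).continuousAt.eventually_ne hi))
    obtain ⟨ρ, hρ, hb⟩ := Metric.eventually_nhds_iff_ball.1 hev
    have hd : DifferentiableOn ℂ (fun w => chart i (P w)) (ball z ρ) := fun w hw =>
      (hP.hol.diff_chart (hb w hw).1 (hb w hw).2).differentiableWithinAt
    have han : AnalyticOnNhd ℂ (fun w => chart i (P w)) (ball z ρ) := hd.analyticOnNhd isOpen_ball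
    obtain ⟨w, hwA, hwb⟩ := (mem_closure_iff_frequently.1 hzA).and_eventually
      (ball_mem_nhds z hρ) |>.exists
    have h2 : (fun w => chart i (P w)) =ᶠ[𝓝 w] fun _ => chart i (P z₁) := by
      filter_upwards [hwA] with s hs
      rw [hs]
    have h3 := han.eqOn_of_preconnected_of_eventuallyEq (analyticOnNhd_const)
      (convex_ball z ρ).isPreconnected hwb h2
    change ∀ᶠ w in 𝓝 z, P w = P z₁
    filter_upwards [ball_mem_nhds z hρ] with s hs
    have h4 : chart i (P s) = chart i (P z₁) := h3 hs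
    have h5 : P z₁ i i ≠ 0 := by
      rw [← hPz]
      exact hi
    rw [← PM.Phi_chart (TF_PM (hP.mem s (hb s hs).1)) (hb s hs).2, h4,
      PM.Phi_chart (TF_PM (hP.mem z₁ hz₁)) h5]
  intro z hz
  exact (hsub hz).self_of_nhds

theorem upper_preconnected : IsPreconnected upper :=
  (convex_halfSpace_im_gt 0).isPreconnected

/-- points at which the derivative is not zero -/
theorem PD.frequently_pos (hX : ProjManifold F d) (hΦ : NonposMetric (Cone F) d Φ)
    (hnd : Nondegenerate (Cone F) d Φ) (hP : PD F upper P) {z₁ w₁ : ℂ} (hz₁ : z₁ ∈ upper)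
    (hw₁ : w₁ ∈ upper) (hne : P w₁ ≠ P z₁) : ∃ᶠ z in 𝓝 z₁, 0 < len Φ P z := by
  by_contra hcon
  rw [not_frequently] at hcon
  obtain ⟨c0, hc0, hcJ⟩ := jd_le hX hΦ hnd
  have hev : ∀ᶠ z in 𝓝 z₁, z ∈ upper ∧ ¬ 0 < len Φ P z := (hP.op.eventually_mem hz₁).and hcon
  obtain ⟨ρ, hρ, hb⟩ := Metric.eventually_nhds_iff_ball.1 hev
  have hd : ∀ z ∈ ball z₁ ρ, fderiv ℝ P z = 0 := by
    intro z hz
    have h1 := hP.fd_le hX hΦ hcJ (hb z hz).1
    have h2 := not_lt.1 (hb z hz).2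
    have h3 : ‖fderiv ℝ P z‖ ≤ 0 := by
      by_contra hlt
      push Not at hlt
      nlinarith
    exact norm_le_zero_iff.1 h3
  have hconst : ∀ z ∈ ball z₁ ρ, P z = P z₁ := by
    intro z hz
    exact isOpen_ball.is_const_of_fderiv_eq_zero (𝕜 := ℝ) (convex_ball z₁ ρ).isPreconnected
      (fun w hw => (hP.hol.differentiableAt (hb w hw).1).differentiableWithinAt)
      (fun w hw => hd w hw) hz (mem_ball_self hρ)
  refine hne (hP.eq_of_germ upper_preconnected hz₁ ?_ w₁ hw₁)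
  filter_upwards [ball_mem_nhds z₁ hρ] with z hz
  exact hconst z hz

/-- points at which the weight is positive -/
theorem Dat.exists_pos (h : Dat F d Φ Ψ a C κ' ε q M) {S : Set (ℂ → ℙ ℂ (Fin (n + 1) → ℂ))}
    (hSf : S.Finite) (hSh : ∀ h ∈ S, HolIn F h) (hSp : ∀ h ∈ S, DoublyPeriodic h)
    (hlist : ∀ H, Ec F Φ H → ∀ t, ∃ h ∈ S, ∃ s, H t = Phi (h s).rep)
    (hP : PD F upper P) {z₁ w₁ : ℂ} (hz₁ : z₁ ∈ upper)
    (hw₁ : w₁ ∈ upper) (hne : P w₁ ≠ P z₁) (hS : ∀ h ∈ S, ∀ s, P z₁ ≠ Phi (h s).rep) :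
    ∃ z : ℍ, 0 < hl a Ψ P z := by
  have hImc : ∀ h ∈ S, IsCompact (range fun z => Phi (h z).rep) := by
    intro k hk
    obtain ⟨L, hL⟩ := hSp k hk
    have hhol := holP_of_map (hSh k hk).1
    have hc : Continuous fun z => Phi (k z).rep :=
      continuous_iff_continuousAt.2 fun z => hhol.continuousAt (mem_univ z)
    refine IsZLattice.isCompact_range_of_periodic L.lattice _ hc fun z w hw => ?_
    rw [hL w hw z]
  have hT : IsClosed (⋃ h ∈ S, range fun z => Phi (h z).rep) :=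
    (hSf.isCompact_biUnion hImc).isClosed
  have hnot : P z₁ ∉ ⋃ h ∈ S, range fun z => Phi (h z).rep := by
    simp only [mem_iUnion, mem_range, not_exists]
    exact fun k hk s hs => hS k hk s hs.symm
  have hev : ∀ᶠ z in 𝓝 z₁, P z ∉ ⋃ h ∈ S, range fun z => Phi (h z).rep :=
    (hP.hol.continuousAt hz₁).eventually (hT.isOpen_compl.mem_nhds hnot)
  obtain ⟨z, hz, hzn, hzu⟩ := ((hP.frequently_pos h.hX h.hΦ h.hnd hz₁ hw₁ hne).and_eventually
    (hev.and (hP.op.mem_nhds hz₁))).exists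
  refine ⟨⟨z, hzu⟩, ?_⟩
  have h0 : 0 ≤ hl a Ψ P ⟨z, hzu⟩ := h.nonnegPsi hP _
  rcases h0.eq_or_lt with he | hlt
  · exfalso
    have hpos : 0 < (2 * (⟨z, hzu⟩ : ℍ).im) ^ a := by
      have := (⟨z, hzu⟩ : ℍ).im_pos
      positivity
    have h1 : len Ψ P z = 0 := by
      have h2 : (2 * (⟨z, hzu⟩ : ℍ).im) ^ a * len Ψ P z = 0 := he.symm
      rcases mul_eq_zero.1 h2 with h3 | h3
      · exact absurd h3 hpos.ne'
      · exact h3
    obtain ⟨V, g, hc, hzV, -, hg⟩ := hP.lift h.hX hzu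
    rw [len_cur h.hΨ.twist hc hg hzV] at h1
    rw [len_cur h.hΦ.twist hc hg hzV] at hz
    obtain ⟨K, hK⟩ := (h.ze _ _ (hc.tg hzV) hz).1 h1
    obtain ⟨k, hk, s, hs⟩ := hlist K hK.ec 0
    apply hzn
    simp only [mem_iUnion, mem_range]
    refine ⟨k, hk, s, ?_⟩
    rw [hg z hzV, ← hs]
    exact hK.pt.symm ▸ rfl
  · exact hlt

/-- the Lipschitz constant -/
theorem lipschitz_of (hX : ProjManifold F d) (hΦ : NonposMetric (Cone F) d Φ)
    (hnd : Nondegenerate (Cone F) d Φ) {B : ℝ} (hB : 0 < B) : ∃ L : ℝ, 0 < L ∧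
    ∀ P : ℂ → Mat (n + 1), PD F upper P → (∀ z : ℍ, hl 1 Φ P z ≤ B) →
      ∀ z w : ℍ, ‖P w - P z‖ ≤ L * dist z w := by
  obtain ⟨c0, hc0, hcJ⟩ := jd_le hX hΦ hnd
  obtain ⟨K, hK⟩ := (isCompact_TF hX.form).isBounded.exists_norm_le
  have hK0 : 0 ≤ K ∨ ∀ P : ℂ → Mat (n + 1), ¬ PD F upper P := by
    by_cases h : ∃ P : ℂ → Mat (n + 1), PD F upper P
    · obtain ⟨P, hP⟩ := h
      left
      exact (norm_nonneg _).trans (hK _ (hP.mem Complex.I (by change 0 < Complex.I.im; simp)))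
    · right
      exact fun P hP => h ⟨P, hP⟩
  rcases hK0 with hK0 | hno
  swap
  · exact ⟨1, one_pos, fun P hP => absurd hP (hno P)⟩
  refine ⟨2 * (B / c0) + 4 * K, by positivity, fun P hP hb z w => ?_⟩
  obtain ⟨ζ, hζ, hζe⟩ := exists_cayH z w
  have hn : ‖ζ‖ ≤ dist z w := by
    rw [← tanh_cayH z hζ, hζe]
    have := tanh_le (x := dist z w / 2) (by positivity)
    linarith
  have hQ := hP.disc z
  have e1 : P w = P (cay z ζ) := by
    rw [← hζe, coe_cayH z hζ]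
  have e0 : P z = P (cay z 0) := by rw [cay_zero]
  rw [e1, e0]
  rcases le_or_gt ‖ζ‖ (1 / 2) with hle | hgt
  · have hsub : closedBall (0 : ℂ) (1 / 2) ⊆ ball 0 1 := closedBall_subset_ball (by norm_num)
    have hder : ∀ ξ ∈ closedBall (0 : ℂ) (1 / 2),
        ‖fderiv ℝ (fun s => P (cay z s)) ξ‖ ≤ 2 * (B / c0) := by
      intro ξ hξ
      have h1 := hQ.fd_le hX hΦ hcJ (hsub hξ)
      have h2 := hl_cay (a := 1) hX hΦ.twist hΦ.deg' hP z (hsub hξ)
      have h3 := hb (cayH z ξ)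
      rw [← h2, pow_one] at h3
      rw [mem_closedBall_zero_iff] at hξ
      have h4 : 1 / 2 ≤ 1 - ‖ξ‖ ^ 2 := by nlinarith [norm_nonneg ξ]
      have h5 : len Φ (fun s => P (cay z s)) ξ ≤ 2 * B := by
        by_contra hcon
        push Not at hcon
        nlinarith
      rw [mul_div_assoc', le_div_iff₀ hc0]
      linarith
    have h1 := (convex_closedBall (0 : ℂ) (1 / 2)).norm_image_sub_le_of_norm_fderiv_le
      (𝕜 := ℝ) (f := fun s => P (cay z s)) (C := 2 * (B / c0))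
      (fun ξ hξ => hQ.hol.differentiableAt (hsub hξ)) hder
      (mem_closedBall_self (by norm_num)) (mem_closedBall_zero_iff.2 hle)
    rw [sub_zero] at h1
    refine h1.trans ?_
    have h2 : 0 ≤ B / c0 := by positivity
    have h3 : 2 * (B / c0) * ‖ζ‖ ≤ 2 * (B / c0) * dist z w :=
      mul_le_mul_of_nonneg_left hn (by positivity)
    have h4 : 0 ≤ 4 * K * dist z w := by positivity
    linarith
  · have h1 := norm_sub_le (P (cay z ζ)) (P (cay z 0))
    have h2 := hK _ (hP.mem _ (cay_upper z hζ))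
    have h3 := hK _ (hP.mem _ (cay_upper z (mem_ball_self one_pos)))
    have h4 : 2 * K ≤ 4 * K * dist z w := by nlinarith
    have h5 : 0 ≤ 2 * (B / c0) * dist z w := by positivity
    linarith

end Pool.Agent.H33
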