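import Pool.Agent.H33.LD
import Pool.Agent.H33.HGGL

/-! Boundedness modulo the exceptional set. -/

set_option autoImplicit false

open Filter Topology Metric Set MvPolynomial LinearAlgebra.Projectivization
open scoped UpperHalfPlane MatrixGroups

namespace Pool.Agent.H33

open Pool.Agent.Y190.OP Pool.Agent.W602.GT Pool.Agent.N155 Pool.Agent.N155.BB
open Pool.Agent.N154.GG (projDist)

variable {n : ℕ} {ι : Type} {F : ι → MvPolynomial (Fin (n + 1)) ℂ} {d : ℕ}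
  {κ : Type} {η : κ → (Fin (n + 1) → ℂ) → (Fin (n + 1) → ℂ) → (Fin (n + 1) → ℂ) → ℂ}
  {Φ : (Fin (n + 1) → ℂ) → (Fin (n + 1) → ℂ) → ℝ} {ν : ℕ}

theorem mapH_inv {Γ : Subgroup SL(2, ℝ)} {f : ℍ → ℙ ℂ (Fin (n + 1) → ℂ)}
    (h : ∀ γ ∈ Γ, ∀ z : ℍ, f (γ • z) = f z) :
    ∀ γ ∈ Γ, ∀ z : ℍ, mapH f (γ • z : ℍ) = mapH f z := by
  intro γ hγ z
  rw [mapH_coe, mapH_coe, h γ hγ z]

/-- the curves, with all their properties -/
theorem exists_curves [Fintype κ] (h : Hyp F d Φ η ν) :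
    ∃ S : Finset (ℂ → ℙ ℂ (Fin (n + 1) → ℂ)),
      (∀ h ∈ S, HolIn F h ∧ DoublyPeriodic h ∧ HasSpeed Φ 1 h) ∧
      (∀ H, Ec F Φ H → ∀ t, ∃ h ∈ S, ∃ s, H t = Phi (h s).rep) ∧
      (∀ f, HolIn F f → (∃ z w, f z ≠ f w) →
        ∃ h ∈ S, ∃ φ : ℂ → ℂ, Differentiable ℂ φ ∧ ∀ z, f z = h (φ z)) ∧
      (2 ≤ d → ∀ x ∈ Cone F, ∃ E : MvPolynomial (Fin (n + 1)) ℂ, IsForm E ∧
        (¬ ∀ᶠ y in 𝓝[Cone F] x, eval y E = 0) ∧ ∀ h ∈ S, ∀ z, eval (h z).rep E = 0) := by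
  classical
  have hX := h.hX
  have hΦ := h.hΦ
  obtain ⟨S, hSf, hS, hlist⟩ := exists_list h.hX (form_G0 n) h.hη' (noBC_G0 F) h.hΦ h.hnd
  have hfac : ∀ f, HolIn F f → (∃ z w, f z ≠ f w) → ∃ k ∈ S, ∃ φ : ℂ → ℂ, Differentiable ℂ φ ∧
      ∀ z, Phi (f z).rep = k (φ z) := fun f hf hne => factor h hf hne hS hlist
  have hP : ∀ k ∈ S, ∀ z, Phi (toProj (k z)).rep = k z := fun k hk z =>
    Phi_rep_toProj (TF_PM ((hS k hk).1.mem z))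
  have hin : ∀ k ∈ S, HolIn F fun z => toProj (k z) := fun k hk =>
    ⟨holMap_of (hS k hk).1.hol, fun z => rep_toProj hX.form ((hS k hk).1.mem z)⟩
  refine ⟨hSf.toFinset.image fun k z => toProj (k z), ?_, ?_, ?_, ?_⟩
  · intro h' hh'
    obtain ⟨k, hk, rfl⟩ := Finset.mem_image.1 hh'
    rw [hSf.mem_toFinset] at hk
    obtain ⟨hE, L, hL⟩ := hS k hk
    refine ⟨hin k hk, ⟨L, fun l hl z => ?_⟩, ?_⟩
    · simp only
      rw [hL l hl z]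
    · rw [hasSpeed_iff hX hΦ.twist (hin k hk)]
      have h1 : (fun z => Phi (toProj (k z)).rep) = k := funext (hP k hk)
      rw [h1]
      exact hE.len
  · intro H hH t
    obtain ⟨k, hk, s, l, -, hHk⟩ := hlist H hH
    exact ⟨_, Finset.mem_image.2 ⟨k, hSf.mem_toFinset.2 hk, rfl⟩, s + l * t, by
      rw [hHk t, hP k hk]⟩
  · intro f hf hne
    obtain ⟨k, hk, φ, hφ, hfk⟩ := hfac f hf hne
    refine ⟨fun z => toProj (k z), Finset.mem_image.2 ⟨k, hSf.mem_toFinset.2 hk, rfl⟩, φ, hφ,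
      fun z => ?_⟩
    apply proj_ext
    rw [hfk z]
    exact (hP k hk _).symm
  · intro hd x hx
    obtain ⟨E, hE, hE1, hE2⟩ := exists_form hX hd hSf hS hx
    refine ⟨E, hE, hE2, fun h' hh' z => ?_⟩
    obtain ⟨k, hk, rfl⟩ := Finset.mem_image.1 hh'
    rw [hSf.mem_toFinset] at hk
    exact hE1 k hk z _ (Projectivization.rep_nonzero _) (hP k hk z).symm

/-- **Boundedness modulo the exceptional set.** -/
theorem bdd [Finite κ] (hX : ProjManifold F d) (hη : PositiveTwoForms (Cone F) ∅ d η) (hν : ν ≠ 0)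
    (hh : HomForms (Cone F) ν η) (hΦ : NonposMetric (Cone F) d Φ)
    (hnd : Nondegenerate (Cone F) d Φ)
    (hr : HermitianMetric (Cone F) d Φ ∨ UniformlyConvex (Cone F) d Φ) :
    ∃ S : Finset (ℂ → ℙ ℂ (Fin (n + 1) → ℂ)),
      (∀ h ∈ S, HolIn F h ∧ DoublyPeriodic h ∧ HasSpeed Φ 1 h) ∧
      (∀ f, HolIn F f → (∃ z w, f z ≠ f w) → ∀ z, ∃ h ∈ S, ∃ w, f z = h w) ∧
      (∀ r : ℝ, ∃ L : ℝ, ∀ Γ : Subgroup SL(2, ℝ), Cocompact Γ r →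
        ∀ f : ℍ → ℙ ℂ (Fin (n + 1) → ℂ), HolH (Cone F) f →
        (∀ γ ∈ Γ, ∀ z, f (γ • z) = f z) → (∃ z, ∀ h ∈ S, ∀ w, f z ≠ h w) →
        ∀ z w, projDist (f z) (f w) ≤ L * dist z w) ∧
      (2 ≤ d → ∀ x ∈ Cone F, ∃ E : MvPolynomial (Fin (n + 1)) ℂ, IsForm E ∧
        (¬ ∀ᶠ y in 𝓝[Cone F] x, eval y E = 0) ∧ ∀ h ∈ S, ∀ z, eval (h z).rep E = 0) := by
  have := Fintype.ofFinite κ
  have hcx : UniformlyConvex (Cone F) d Φ := hr.elim (fun h => h.uniform hnd) id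
  have h : Hyp F d Φ η ν := ⟨hX, hη, hΦ, hnd, uniq_of_convex hX hΦ hcx, hν, hh⟩
  obtain ⟨S, h1, h2, h3, h4⟩ := exists_curves h
  refine ⟨S, h1, fun f hf hne z => ?_, fun r => ?_, h4⟩
  · obtain ⟨k, hk, φ, -, hφ⟩ := h3 f hf hne
    exact ⟨k, hk, φ z, hφ z⟩
  obtain ⟨Ψ, a, C, κ', ε, q, M, hD⟩ := exists_dat h
  rcases lt_or_ge r 0 with hr0 | hr0
  · refine ⟨0, fun Γ hΓ => ?_⟩
    obtain ⟨z₀, hz₀⟩ := hΓ
    obtain ⟨γ, -, hγ⟩ := hz₀ z₀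
    have := dist_nonneg (x := γ • z₀) (y := z₀)
    linarith
  obtain ⟨B, hB, hlip⟩ := hD.lip hr0
  obtain ⟨L, hL, hLip⟩ := lipschitz_of hX hΦ hnd hB
  refine ⟨L, fun Γ hΓ f hf hinv hne z w => ?_⟩
  obtain ⟨z₁, hz₁⟩ := hne
  have hpd : projDist (f z) (f w) = ‖mapH f w - mapH f z‖ := by
    rw [mapH_coe, mapH_coe]
    exact norm_sub_rev _ _
  rw [hpd]
  by_cases hc : ∃ w₁ : ℍ, mapH f w₁ ≠ mapH f z₁
  · obtain ⟨w₁, hw₁⟩ := hc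
    have hpos := hD.exists_pos (S := (S : Set (ℂ → ℙ ℂ (Fin (n + 1) → ℂ)))) S.finite_toSet
      (fun k hk => (h1 k hk).1) (fun k hk => (h1 k hk).2.1) h2 hf.pd (coe_upper z₁)
      (coe_upper w₁) hw₁ (fun k hk s hs => by
        rw [mapH_coe] at hs
        exact hz₁ k hk s (proj_ext hs))
    exact hLip _ hf.pd (fun z => hlip Γ hΓ _ hf.pd (mapH_inv hinv) hpos z) z w
  · push Not at hc
    rw [hc w, hc z, sub_self, norm_zero]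
    positivity

end Pool.Agent.H33
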