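import Pool.Agent.H33.MDefs

/-! Integrals over fundamental domains. -/

set_option autoImplicit false

open Filter Topology Metric Set MeasureTheory
open scoped UpperHalfPlane MatrixGroups ENNReal

namespace Pool.Agent.H33

/-- unfolding -/
theorem unfold_kernel {G α : Type*} [Group G] [Countable G] [MulAction G α] [MeasurableSpace α]
    {μ : Measure α} [SFinite μ] [SMulInvariantMeasure G α μ] [MeasurableConstSMul G α] {D : Set α}
    (hfd : IsFundamentalDomain G D μ) {K : α → α → ℝ≥0∞} (hKm : Measurable fun p : α × α => K p.1 p.2)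
    (hKγ : ∀ γ : G, ∀ z w : α, K (γ • z) (γ • w) = K z w) {W : α → ℝ≥0∞} (hW : Measurable W)
    (hinv : ∀ γ : G, ∀ z, W (γ • z) = W z) :
    ∫⁻ z in D, ∫⁻ w, K z w * W w ∂μ ∂μ = ∫⁻ w in D, W w * ∫⁻ z, K z w ∂μ ∂μ := by
  have hunf : ∀ z : α, ∫⁻ w, K z w * W w ∂μ = ∑' γ : G, ∫⁻ w in D, K (γ • z) w * W w ∂μ := by
    intro z
    rw [hfd.lintegral_eq_tsum']
    refine tsum_congr fun γ => lintegral_congr fun w => ?_
    have h1 : K z (γ⁻¹ • w) = K (γ • z) w := by
      rw [← hKγ γ z (γ⁻¹ • w), smul_inv_smul]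
    rw [h1, hinv]
  have hm1 : ∀ γ : G, Measurable fun p : α × α => K (γ • p.1) p.2 * W p.2 := by
    intro γ
    have h1 : Measurable fun p : α × α => ((γ • p.1 : α), p.2) :=
      ((measurable_const_smul γ).comp measurable_fst).prodMk measurable_snd
    exact (hKm.comp h1).mul (hW.comp measurable_snd)
  have e1 : ∫⁻ z in D, ∫⁻ w, K z w * W w ∂μ ∂μ =
      ∫⁻ z in D, ∑' γ : G, ∫⁻ w in D, K (γ • z) w * W w ∂μ ∂μ :=
    lintegral_congr fun z => hunf z
  have e2 : ∫⁻ z in D, ∑' γ : G, ∫⁻ w in D, K (γ • z) w * W w ∂μ ∂μ =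
      ∑' γ : G, ∫⁻ z in D, ∫⁻ w in D, K (γ • z) w * W w ∂μ ∂μ :=
    lintegral_tsum fun γ => ((hm1 γ).lintegral_prod_right').aemeasurable
  have e3 : ∀ γ : G, ∫⁻ z in D, ∫⁻ w in D, K (γ • z) w * W w ∂μ ∂μ =
      ∫⁻ w in D, ∫⁻ z in D, K (γ • z) w * W w ∂μ ∂μ := fun γ =>
    lintegral_lintegral_swap (hm1 γ).aemeasurable
  have e4 : ∑' γ : G, ∫⁻ w in D, ∫⁻ z in D, K (γ • z) w * W w ∂μ ∂μ =
      ∫⁻ w in D, ∑' γ : G, ∫⁻ z in D, K (γ • z) w * W w ∂μ ∂μ :=
    (lintegral_tsum fun γ =>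
      (((hm1 γ).comp measurable_swap).lintegral_prod_right').aemeasurable).symm
  rw [e1, e2, tsum_congr e3, e4]
  refine lintegral_congr fun w => ?_
  rw [hfd.lintegral_eq_tsum'' fun z => K z w, mul_comm, ← ENNReal.tsum_mul_right]
  refine tsum_congr fun γ => ?_
  rw [lintegral_mul_const]
  have h1 : Measurable fun z : α => ((γ • z : α), w) :=
    (measurable_const_smul γ).prodMk measurable_const
  exact hKm.comp h1

theorem measurable_smul_H (g : SL(2, ℝ)) : Measurable fun z : ℍ => g • z :=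
  (isometry_smul ℍ g).continuous.measurable

theorem smulInv (Γ : Subgroup SL(2, ℝ)) : SMulInvariantMeasure Γ ℍ (volume : Measure ℍ) := by
  refine ⟨fun γ s hs => ?_⟩
  have h1 := measure_preimage_smul (volume : Measure ℍ) ((γ : SL(2, ℝ)) : GL (Fin 2) ℝ) s
  exact h1

theorem measSMul (Γ : Subgroup SL(2, ℝ)) : MeasurableConstSMul Γ ℍ :=
  ⟨fun γ => measurable_smul_H (γ : SL(2, ℝ))⟩

variable {Γ : Subgroup SL(2, ℝ)} {D : Set ℍ}

/-- the kernel of the hyperbolic balls -/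
noncomputable def ker (ρ : ℝ) (z w : ℍ) : ℝ≥0∞ := if dist w z < ρ then 1 else 0

theorem ker_meas (ρ : ℝ) : Measurable fun p : ℍ × ℍ => ker ρ p.1 p.2 := by
  have hopen : IsOpen {p : ℍ × ℍ | dist p.2 p.1 < ρ} :=
    isOpen_lt (continuous_snd.dist continuous_fst) continuous_const
  exact Measurable.ite hopen.measurableSet measurable_const measurable_const

theorem ker_ball (ρ : ℝ) (z : ℍ) (f : ℍ → ℝ≥0∞) :
    ∫⁻ w in ball z ρ, f w = ∫⁻ w, ker ρ z w * f w := by
  rw [← lintegral_indicator isOpen_ball.measurableSet]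
  refine lintegral_congr fun w => ?_
  unfold ker indicator
  by_cases h : dist w z < ρ
  · rw [if_pos h, if_pos (mem_ball.2 h), one_mul]
  · rw [if_neg h, if_neg (fun h' => h (mem_ball.1 h')), zero_mul]

theorem ker_ball' (ρ : ℝ) (w : ℍ) : ∫⁻ z, ker ρ z w = volume (ball w ρ) := by
  rw [← setLIntegral_one, ← lintegral_indicator isOpen_ball.measurableSet]
  refine lintegral_congr fun z => ?_
  unfold ker indicator
  by_cases h : dist w z < ρ
  · rw [if_pos h, if_pos (mem_ball.2 (by rwa [dist_comm]))]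
  · rw [if_neg h, if_neg (fun h' => h (by rw [dist_comm]; exact mem_ball.1 h'))]

/-- **Unfolding.** -/
theorem unfold_lintegral (hD : CompactDomain Γ D) {W : ℍ → ℝ≥0∞} (hW : Measurable W)
    (hinv : ∀ γ ∈ Γ, ∀ z : ℍ, W (γ • z) = W z) (ρ : ℝ) :
    ∫⁻ z in D, (∫⁻ w in ball z ρ, W w) = ∫⁻ w in D, W w * volume (ball w ρ) := by
  have := hD.countable
  have := smulInv Γ
  have := measSMul Γ
  have h1 := unfold_kernel hD.dom (K := ker ρ) (ker_meas ρ) (fun γ z w => by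
    have h1 : dist (γ • w) (γ • z) = dist w z := dist_smul (γ : SL(2, ℝ)) w z
    unfold ker
    rw [h1]) hW (fun γ z => hinv γ γ.2 z)
  have e1 : ∫⁻ z in D, (∫⁻ w in ball z ρ, W w) = ∫⁻ z in D, ∫⁻ w, ker ρ z w * W w :=
    lintegral_congr fun z => ker_ball ρ z W
  rw [e1, h1]
  exact lintegral_congr fun w => by rw [ker_ball']

end Pool.Agent.H33
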