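import Pool.Agent.H33.MA
import Pool.Agent.H33.LC

/-! Integrals over hyperbolic balls in disc coordinates, and in polar coordinates. -/

set_option autoImplicit false

open Filter Topology Metric Set MeasureTheory
open scoped UpperHalfPlane MatrixGroups ENNReal

namespace Pool.Agent.H33

theorem lintegral_H {S : Set ℍ} (hS : MeasurableSet S) {F : ℍ → ℝ≥0∞} (hF : Measurable F) :
    ∫⁻ w in S, F w = ∫⁻ x in UpperHalfPlane.coe '' S,
      ENNReal.ofReal (1 / x.im ^ 2) * F (UpperHalfPlane.ofComplex x) := by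
  have hmp : MeasurePreserving UpperHalfPlane.coe ((volume : Measure ℂ).comap UpperHalfPlane.coe)
      ((volume : Measure ℂ).restrict (range UpperHalfPlane.coe)) :=
    ⟨UpperHalfPlane.measurable_coe, by rw [UpperHalfPlane.measurableEmbedding_coe.map_comap]⟩
  have hmeas : Measurable fun z : ℍ => ((((1 : NNReal) / NNReal.mk z.im z.im_pos.le) ^ 2 : NNReal) :
      ℝ≥0∞) := by
    apply Measurable.coe_nnreal_ennreal
    apply Measurable.pow_const
    apply Measurable.const_div
    exact (UpperHalfPlane.continuous_im.subtype_mk _).measurable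
  rw [UpperHalfPlane.volume_def, setLIntegral_withDensity_eq_setLIntegral_mul _ hmeas hF hS]
  have h1 := hmp.setLIntegral_comp_emb UpperHalfPlane.measurableEmbedding_coe
    (fun x : ℂ => ENNReal.ofReal (1 / x.im ^ 2) * F (UpperHalfPlane.ofComplex x)) S
  rw [Measure.restrict_restrict' UpperHalfPlane.measurableEmbedding_coe.measurableSet_range,
    inter_eq_self_of_subset_left (image_subset_range _ _)] at h1
  rw [← h1]
  refine lintegral_congr fun z => ?_
  simp only [Pi.mul_apply, UpperHalfPlane.ofComplex_apply, UpperHalfPlane.coe_im]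
  congr 1
  rw [← ENNReal.ofReal_coe_nnreal]
  congr 1
  push_cast
  rw [div_pow, one_pow]

theorem tanh_lt {x y : ℝ} (h : x < y) : Real.tanh x < Real.tanh y := by
  rw [tanh_eq', tanh_eq']
  have h1 : Real.exp (2 * x) < Real.exp (2 * y) := Real.exp_lt_exp.2 (by linarith)
  have h2 := Real.exp_pos (2 * x)
  gcongr

theorem cayH_ball (z : ℍ) (ρ : ℝ) :
    UpperHalfPlane.coe '' (ball z ρ) = cay z '' ball 0 (Real.tanh (ρ / 2)) := by
  have hsub : ball (0 : ℂ) (Real.tanh (ρ / 2)) ⊆ ball 0 1 :=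
    ball_subset_ball (Real.tanh_lt_one _).le
  ext x
  constructor
  · rintro ⟨w, hw, rfl⟩
    obtain ⟨ζ, hζ, hζe⟩ := exists_cayH z w
    refine ⟨ζ, ?_, by rw [← hζe, coe_cayH z hζ]⟩
    rw [mem_ball_zero_iff, ← tanh_cayH z hζ, hζe]
    rw [mem_ball, dist_comm] at hw
    exact tanh_lt (by linarith)
  · rintro ⟨ζ, hζ, rfl⟩
    have hζ' := hsub hζ
    refine ⟨cayH z ζ, ?_, coe_cayH z hζ'⟩
    rw [mem_ball_zero_iff, ← tanh_cayH z hζ'] at hζ
    rw [mem_ball, dist_comm]
    by_contra hcon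
    push Not at hcon
    have := tanh_mono (show ρ / 2 ≤ dist z (cayH z ζ) / 2 by linarith)
    linarith

/-- the hyperbolic area in the disc -/
noncomputable def dens (ζ : ℂ) : ℝ≥0∞ := ENNReal.ofReal (4 / (1 - ‖ζ‖ ^ 2) ^ 2)

/-- **Disc coordinates.** -/
theorem lintegral_ball {F : ℍ → ℝ≥0∞} (hF : Measurable F) (z : ℍ) (ρ : ℝ) :
    ∫⁻ w in ball z ρ, F w = ∫⁻ ζ in ball (0 : ℂ) (Real.tanh (ρ / 2)), F (cayH z ζ) * dens ζ := by
  have hsub : ball (0 : ℂ) (Real.tanh (ρ / 2)) ⊆ ball 0 1 :=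
    ball_subset_ball (Real.tanh_lt_one _).le
  rw [lintegral_H isOpen_ball.measurableSet hF, cayH_ball,
    lintegral_image_eq_lintegral_abs_det_fderiv_mul volume isOpen_ball.measurableSet
      (fun ζ hζ => ((hasDerivAt_cay z (hsub hζ)).hasFDerivAt.restrictScalars ℝ).hasFDerivWithinAt)
      ((cay_inj z).mono hsub)]
  refine setLIntegral_congr_fun isOpen_ball.measurableSet fun ζ hζ => ?_
  have hζ' := hsub hζ
  have h1 : cayH z ζ = UpperHalfPlane.ofComplex (cay z ζ) := rfl
  rw [← h1]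
  have h2 : |(ContinuousLinearMap.restrictScalars ℝ
      (ContinuousLinearMap.toSpanSingleton ℂ (cay' z ζ))).det| = ‖cay' z ζ‖ ^ 2 := by
    simp [ContinuousLinearMap.det, LinearMap.det_restrictScalars, Algebra.norm_complex_eq,
      Complex.normSq_eq_norm_sq]
  rw [h2, ← mul_assoc, mul_comm (F _)]
  congr 1
  unfold dens
  rw [← ENNReal.ofReal_mul (by positivity)]
  congr 1
  have h3 := norm_cay' z hζ'
  have h4 := normSq_lt hζ'
  have h5 := cay_im_pos z hζ'
  rw [mul_one_div, div_eq_div_iff (by positivity) (by positivity), ← mul_pow, h3]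
  ring

end Pool.Agent.H33
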