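import Pool.Agent.H33.MB

/-! Polar coordinates. -/

set_option autoImplicit false

open Filter Topology Metric Set MeasureTheory
open scoped ENNReal

namespace Pool.Agent.H33

open Real (circleAverage)

theorem polar_symm (p : ℝ × ℝ) : Complex.polarCoord.symm p = circleMap 0 p.1 p.2 := by
  rw [Complex.polarCoord_symm_apply, circleMap, zero_add, Complex.exp_mul_I]
  simp

/-- polar coordinates -/
theorem lintegral_polar {F : ℂ → ℝ≥0∞} (hF : Measurable F) (s : ℝ) :
    ∫⁻ ζ in ball (0 : ℂ) s, F ζ = ∫⁻ t in Ioo 0 s, ENNReal.ofReal t *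
      ∫⁻ θ in Ioo (-Real.pi) Real.pi, F (circleMap 0 t θ) := by
  rw [← lintegral_indicator isOpen_ball.measurableSet, ← Complex.lintegral_comp_polarCoord_symm]
  have hm : Measurable fun p : ℝ × ℝ => ENNReal.ofReal p.1 *
      (ball (0 : ℂ) s).indicator F (circleMap 0 p.1 p.2) := by
    have h1 : Measurable fun p : ℝ × ℝ => circleMap 0 p.1 p.2 := by
      unfold circleMap
      fun_prop
    exact (ENNReal.measurable_ofReal.comp measurable_fst).mul
      ((hF.indicator isOpen_ball.measurableSet).comp h1)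
  have e1 : ∫⁻ p in Complex.polarCoord.target, ENNReal.ofReal p.1 •
      (ball (0 : ℂ) s).indicator F (Complex.polarCoord.symm p) =
      ∫⁻ p in (Ioi (0 : ℝ)) ×ˢ (Ioo (-Real.pi) Real.pi), ENNReal.ofReal p.1 *
        (ball (0 : ℂ) s).indicator F (circleMap 0 p.1 p.2) := by
    rw [Complex.polarCoord_target]
    exact lintegral_congr fun p => by rw [polar_symm, smul_eq_mul]
  have e1' : polarCoord.target = Complex.polarCoord.target := by
    rw [Complex.polarCoord_target]
    rfl
  rw [e1', e1, Measure.volume_eq_prod, ← Measure.prod_restrict, lintegral_prod _ hm.aemeasurable,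
    ← lintegral_indicator measurableSet_Ioi, ← lintegral_indicator measurableSet_Ioo]
  refine lintegral_congr fun t => ?_
  have hmc : Measurable fun θ : ℝ => circleMap 0 t θ := (continuous_circleMap 0 t).measurable
  by_cases ht : t ∈ Ioi (0 : ℝ)
  · rw [indicator_of_mem ht]
    have ht0 : 0 < t := ht
    by_cases hs : t < s
    · have hFc : Measurable fun θ : ℝ => F (circleMap 0 t θ) := hF.comp hmc
      rw [indicator_of_mem (show t ∈ Ioo 0 s from ⟨ht0, hs⟩), ← lintegral_const_mul _ hFc]
      refine lintegral_congr fun θ => ?_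
      change _ * (ball (0 : ℂ) s).indicator F (circleMap 0 t θ) = _
      rw [indicator_of_mem]
      rw [mem_ball_zero_iff, norm_circleMap_zero, abs_of_pos ht0]
      exact hs
    · rw [indicator_of_notMem (fun h => hs h.2)]
      have h1 : ∀ θ : ℝ, (ball (0 : ℂ) s).indicator F (circleMap 0 t θ) = 0 := by
        intro θ
        rw [indicator_of_notMem]
        rw [mem_ball_zero_iff, norm_circleMap_zero, abs_of_pos ht0]
        exact hs
      simp only [h1, mul_zero, lintegral_zero]
  · rw [indicator_of_notMem ht, indicator_of_notMem (fun h => ht h.1)]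

/-- comparison of integrals over discs -/
theorem radial_le {F₁ F₂ : ℂ → ℝ≥0∞} (h₁ : Measurable F₁) (h₂ : Measurable F₂) {s : ℝ}
    (h : ∀ t ∈ Ioo 0 s, ∫⁻ θ in Ioo (-Real.pi) Real.pi, F₁ (circleMap 0 t θ) ≤
      ∫⁻ θ in Ioo (-Real.pi) Real.pi, F₂ (circleMap 0 t θ)) :
    ∫⁻ ζ in ball (0 : ℂ) s, F₁ ζ ≤ ∫⁻ ζ in ball (0 : ℂ) s, F₂ ζ := by
  rw [lintegral_polar h₁, lintegral_polar h₂]
  refine setLIntegral_mono' measurableSet_Ioo fun t ht => ?_
  exact mul_le_mul_right (h t ht) _

/-- circle averages -/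
theorem lintegral_circle {G : ℂ → ℝ} {t : ℝ} (hi : CircleIntegrable G 0 t)
    (h0 : ∀ z ∈ sphere (0 : ℂ) |t|, 0 ≤ G z) :
    ∫⁻ θ in Ioo (-Real.pi) Real.pi, ENNReal.ofReal (G (circleMap 0 t θ)) =
      ENNReal.ofReal (2 * Real.pi * circleAverage G 0 t) := by
  have hper : Function.Periodic (fun θ => G (circleMap 0 t θ)) (2 * Real.pi) := fun θ => by
    simp only
    rw [periodic_circleMap 0 t θ]
  have e1 : ∫ θ in (0 : ℝ)..2 * Real.pi, G (circleMap 0 t θ) =
      ∫ θ in (-Real.pi)..Real.pi, G (circleMap 0 t θ) := by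
    have := hper.intervalIntegral_add_eq 0 (-Real.pi)
    rw [zero_add, show -Real.pi + 2 * Real.pi = Real.pi by ring] at this
    exact this
  have hi2 : IntervalIntegrable (fun θ => G (circleMap 0 t θ)) volume (-Real.pi) Real.pi := by
    have h1 : IntervalIntegrable (fun θ => G (circleMap 0 t θ)) volume 0 (0 + 2 * Real.pi) := by
      rw [zero_add]
      exact hi
    exact (hper.intervalIntegrable (by positivity) h1) _ _
  have hpi : -Real.pi ≤ Real.pi := by linarith [Real.pi_pos]
  have h2 : IntegrableOn (fun θ => G (circleMap 0 t θ)) (Ioo (-Real.pi) Real.pi) :=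
    ((intervalIntegrable_iff_integrableOn_Ioo_of_le hpi).1 hi2)
  rw [circleAverage, smul_eq_mul, e1, ← mul_assoc, mul_inv_cancel₀ (by positivity), one_mul,
    intervalIntegral.integral_of_le hpi, integral_Ioc_eq_integral_Ioo,
    ofReal_integral_eq_lintegral_ofReal h2 (Eventually.of_forall fun θ => h0 _ ?_)]
  exact circleMap_mem_sphere' 0 t θ

end Pool.Agent.H33
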