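import Pool.Agent.H33.MC

/-! An integral inequality on compact quotients of the upper half plane. -/

set_option autoImplicit false

open Filter Topology Metric Set MeasureTheory
open scoped UpperHalfPlane MatrixGroups ENNReal

namespace Pool.Agent.H33

open Real (circleAverage)

theorem measurable_ofComplex : Measurable (UpperHalfPlane.ofComplex : ℂ → ℍ) := by
  apply measurable_of_isOpen
  intro U hU
  have h1 : IsOpen (UpperHalfPlane.coe '' U) := UpperHalfPlane.isOpenEmbedding_coe.isOpenMap U hU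
  have hup : MeasurableSet {z : ℂ | 0 < z.im} :=
    (isOpen_lt continuous_const Complex.continuous_im).measurableSet
  obtain ⟨w₀, hw₀⟩ : ∃ w₀ : ℍ, ∀ w : ℂ, ¬ 0 < w.im → UpperHalfPlane.ofComplex w = w₀ := by
    refine ⟨UpperHalfPlane.ofComplex 0, fun w hw => ?_⟩
    rw [UpperHalfPlane.ofComplex_apply_of_im_nonpos (not_lt.1 hw),
      UpperHalfPlane.ofComplex_apply_of_im_nonpos (by simp)]
  by_cases h0 : w₀ ∈ U
  · have : (UpperHalfPlane.ofComplex : ℂ → ℍ) ⁻¹' U = UpperHalfPlane.coe '' U ∪ {z | 0 < z.im}ᶜ := by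
      ext w
      by_cases hw : 0 < w.im
      · constructor
        · intro h
          left
          refine ⟨⟨w, hw⟩, ?_, rfl⟩
          rwa [mem_preimage, UpperHalfPlane.ofComplex_apply_of_im_pos hw] at h
        · rintro (⟨w', hw', rfl⟩ | h)
          · rwa [mem_preimage, UpperHalfPlane.ofComplex_apply]
          · exact absurd hw h
      · constructor
        · intro _
          right
          exact hw
        · intro _
          rw [mem_preimage, hw₀ w hw]
          exact h0
    rw [this]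
    exact h1.measurableSet.union hup.compl
  · have : (UpperHalfPlane.ofComplex : ℂ → ℍ) ⁻¹' U = UpperHalfPlane.coe '' U := by
      ext w
      by_cases hw : 0 < w.im
      · constructor
        · intro h
          refine ⟨⟨w, hw⟩, ?_, rfl⟩
          rwa [mem_preimage, UpperHalfPlane.ofComplex_apply_of_im_pos hw] at h
        · rintro ⟨w', hw', rfl⟩
          rwa [mem_preimage, UpperHalfPlane.ofComplex_apply]
      · constructor
        · intro h
          rw [mem_preimage, hw₀ w hw] at h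
          exact absurd h h0
        · rintro ⟨w', hw', rfl⟩
          exact absurd w'.im_pos hw
    rw [this]
    exact h1.measurableSet

theorem measurable_cayH (z : ℍ) : Measurable (cayH z) := by
  unfold cayH
  apply measurable_ofComplex.comp
  unfold cay
  fun_prop

theorem continuousOn_cayH (z : ℍ) : ContinuousOn (cayH z) (ball 0 1) := by
  intro ζ hζ
  apply ContinuousAt.continuousWithinAt
  have h1 : ContinuousAt (UpperHalfPlane.ofComplex : ℂ → ℍ) (cay z ζ) := by
    rw [UpperHalfPlane.isOpenEmbedding_coe.isInducing.continuousAt_iff]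
    have h2 : (UpperHalfPlane.coe ∘ (UpperHalfPlane.ofComplex : ℂ → ℍ)) =ᶠ[𝓝 (cay z ζ)] id := by
      filter_upwards [(isOpen_lt continuous_const Complex.continuous_im).mem_nhds
        (cay_im_pos z hζ)] with w hw
      rw [Function.comp_apply, UpperHalfPlane.ofComplex_apply_of_im_pos hw]
      rfl
    exact continuousAt_id.congr h2.symm
  exact h1.comp (hasDerivAt_cay z hζ).continuousAt

theorem measurable_dens : Measurable dens := by
  unfold dens
  fun_prop

theorem dens_pos {ζ : ℂ} (h : ζ ∈ ball (0 : ℂ) 1) : 0 < dens ζ := by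
  unfold dens
  rw [ENNReal.ofReal_pos]
  have := normSq_lt h
  positivity

/-- the area of the hyperbolic balls -/
theorem volume_ball_H (z : ℍ) (ρ : ℝ) :
    volume (ball z ρ) = ∫⁻ ζ in ball (0 : ℂ) (Real.tanh (ρ / 2)), dens ζ := by
  have h1 := lintegral_ball (F := fun _ => 1) measurable_const z ρ
  rw [setLIntegral_one] at h1
  rw [h1]
  exact lintegral_congr fun ζ => one_mul _

theorem volume_ball_pos (z : ℍ) {ρ : ℝ} (hρ : 0 < ρ) : 0 < volume (ball z ρ) := by
  have h1 : 0 < Real.tanh (ρ / 2) := by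
    have := tanh_lt (show (0 : ℝ) < ρ / 2 by positivity)
    rwa [Real.tanh_zero] at this
  rw [volume_ball_H, setLIntegral_pos_iff measurable_dens]
  have hsub : ball (0 : ℂ) (Real.tanh (ρ / 2)) ⊆ ball 0 1 :=
    ball_subset_ball (Real.tanh_lt_one _).le
  have h2 : Function.support dens ∩ ball (0 : ℂ) (Real.tanh (ρ / 2)) =
      ball (0 : ℂ) (Real.tanh (ρ / 2)) :=
    inter_eq_self_of_subset_right fun ζ hζ => (dens_pos (hsub hζ)).ne'
  rw [h2]
  exact isOpen_ball.measure_pos _ ⟨0, mem_ball_self h1⟩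

variable {Γ : Subgroup SL(2, ℝ)} {D : Set ℍ}

theorem CompactDomain.volume_lt_top (hD : CompactDomain Γ D) : volume D < ⊤ :=
  (measure_mono subset_closure).trans_lt hD.bounded.isCompact_closure.measure_lt_top

/-- **The integral inequality.** -/
theorem avg_ineq (hD : CompactDomain Γ D) {W c : ℍ → ℝ} {B K ρ : ℝ} (hρ : 0 < ρ)
    (hW : Continuous W) (hW0 : ∀ z, 0 ≤ W z) (hWB : ∀ z, W z ≤ B)
    (hinv : ∀ γ ∈ Γ, ∀ z : ℍ, W (γ • z) = W z) (hc : Measurable c) (hc0 : ∀ z, 0 ≤ c z)
    (hK : 0 ≤ K)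
    (h : ∀ z, ∀ t ∈ Ioo 0 (Real.tanh (ρ / 2)), W z + t ^ 2 * c z ≤
      circleAverage (fun ζ => W (cayH z ζ)) 0 t + t ^ 2 * K) :
    ∫⁻ z in D, ENNReal.ofReal (c z) ≤ ENNReal.ofReal K * volume D := by
  set s : ℝ := Real.tanh (ρ / 2) with hs
  have hs0 : 0 < s := by
    have := tanh_lt (show (0 : ℝ) < ρ / 2 by positivity)
    rwa [Real.tanh_zero] at this
  have hs1 : s < 1 := Real.tanh_lt_one _
  have hsub : ball (0 : ℂ) s ⊆ ball 0 1 := ball_subset_ball hs1.le
  set m₀ : ℝ≥0∞ := ∫⁻ ζ in ball (0 : ℂ) s, dens ζ with hm₀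
  set m₂ : ℝ≥0∞ := ∫⁻ ζ in ball (0 : ℂ) s, ENNReal.ofReal (‖ζ‖ ^ 2) * dens ζ with hm₂
  have hvol : ∀ z : ℍ, volume (ball z ρ) = m₀ := fun z => volume_ball_H z ρ
  have hm₀top : m₀ ≠ ⊤ := by
    rw [← hvol UpperHalfPlane.I]
    exact measure_ball_lt_top.ne
  have hm₂le : m₂ ≤ m₀ := by
    refine setLIntegral_mono' isOpen_ball.measurableSet fun ζ hζ => ?_
    refine mul_le_of_le_one_left' ?_
    rw [ENNReal.ofReal_le_one]
    have := mem_ball_zero_iff.1 (hsub hζ)
    nlinarith [norm_nonneg ζ]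
  have hm₂top : m₂ ≠ ⊤ := ne_top_of_le_ne_top hm₀top hm₂le
  have hmn : Measurable fun ζ : ℂ => ENNReal.ofReal (‖ζ‖ ^ 2) * dens ζ :=
    (by fun_prop : Measurable fun ζ : ℂ => ENNReal.ofReal (‖ζ‖ ^ 2)).mul measurable_dens
  have hm₂pos : m₂ ≠ 0 := by
    apply ne_of_gt
    rw [hm₂, setLIntegral_pos_iff hmn]
    have h1 : ball (0 : ℂ) s \ {0} ⊆
        (Function.support fun ζ : ℂ => ENNReal.ofReal (‖ζ‖ ^ 2) * dens ζ) ∩ ball 0 s := by
      rintro ζ ⟨hζ, hζ0⟩
      refine ⟨?_, hζ⟩
      have h2 : 0 < ‖ζ‖ := norm_pos_iff.2 hζ0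
      have h3 : (0 : ℝ≥0∞) < ENNReal.ofReal (‖ζ‖ ^ 2) := ENNReal.ofReal_pos.2 (by positivity)
      exact (ENNReal.mul_pos h3.ne' (dens_pos (hsub hζ)).ne').ne'
    refine lt_of_lt_of_le ?_ (measure_mono h1)
    have h2 : IsOpen (ball (0 : ℂ) s \ {0}) := isOpen_ball.sdiff isClosed_singleton
    refine h2.measure_pos _ ⟨((s / 2 : ℝ) : ℂ), ?_, ?_⟩
    · rw [mem_ball_zero_iff, Complex.norm_real, Real.norm_of_nonneg (by positivity)]
      linarith
    · rw [mem_singleton_iff]
      exact_mod_cast (by positivity : s / 2 ≠ 0)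
  -- the inequality at each point
  have key : ∀ z : ℍ, ENNReal.ofReal (W z) * m₀ + ENNReal.ofReal (c z) * m₂ ≤
      (∫⁻ w in ball z ρ, ENNReal.ofReal (W w)) + ENNReal.ofReal K * m₂ := by
    intro z
    have hWm : Measurable fun ζ => W (cayH z ζ) := hW.measurable.comp (measurable_cayH z)
    have hF₁ : Measurable fun ζ : ℂ => ENNReal.ofReal (W z + ‖ζ‖ ^ 2 * c z) * dens ζ :=
      (by fun_prop : Measurable fun ζ : ℂ => ENNReal.ofReal (W z + ‖ζ‖ ^ 2 * c z)).mul
        measurable_dens
    have hF₂ : Measurable fun ζ : ℂ => ENNReal.ofReal (W (cayH z ζ) + ‖ζ‖ ^ 2 * K) * dens ζ :=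
      (hWm.add (by fun_prop)).ennreal_ofReal.mul measurable_dens
    have h1 := radial_le hF₁ hF₂ (s := s) (fun t ht => by
      have ht1 : t < 1 := ht.2.trans hs1
      have hdens : ∀ θ : ℝ, dens (circleMap 0 t θ) = dens (t : ℂ) := by
        intro θ
        unfold dens
        rw [norm_circleMap_zero, Complex.norm_real, Real.norm_eq_abs]
      have hn : ∀ θ : ℝ, ‖circleMap 0 t θ‖ ^ 2 = t ^ 2 := by
        intro θ
        rw [norm_circleMap_zero, sq_abs]
      have hcm : Measurable fun θ : ℝ => circleMap 0 t θ := (continuous_circleMap 0 t).measurable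
      have hsph : sphere (0 : ℂ) |t| ⊆ ball 0 1 := fun ζ hζ => by
        rw [mem_sphere_zero_iff_norm, abs_of_pos ht.1] at hζ
        rw [mem_ball_zero_iff, hζ]
        exact ht1
      have hci : CircleIntegrable (fun ζ => W (cayH z ζ)) 0 t :=
        (hW.comp_continuousOn ((continuousOn_cayH z).mono hsph)).circleIntegrable'
      have e1 : ∫⁻ θ in Ioo (-Real.pi) Real.pi,
          ENNReal.ofReal (W z + ‖circleMap 0 t θ‖ ^ 2 * c z) * dens (circleMap 0 t θ) =
          ENNReal.ofReal (2 * Real.pi * (W z + t ^ 2 * c z)) * dens (t : ℂ) := by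
        have f1 : CircleIntegrable (fun _ => W z + t ^ 2 * c z) 0 t := circleIntegrable_const _ _ _
        have f2 := lintegral_circle f1 (fun ζ _ => add_nonneg (hW0 z)
          (mul_nonneg (sq_nonneg t) (hc0 z)))
        rw [Real.circleAverage_const] at f2
        rw [← f2, ← lintegral_mul_const _ measurable_const]
        refine lintegral_congr fun θ => ?_
        rw [hdens, hn]
      have e2 : ∫⁻ θ in Ioo (-Real.pi) Real.pi,
          ENNReal.ofReal (W (cayH z (circleMap 0 t θ)) + ‖circleMap 0 t θ‖ ^ 2 * K) *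
            dens (circleMap 0 t θ) =
          ENNReal.ofReal (2 * Real.pi *
            (circleAverage (fun ζ => W (cayH z ζ)) 0 t + t ^ 2 * K)) * dens (t : ℂ) := by
        have f1 : CircleIntegrable ((fun ζ => W (cayH z ζ)) + fun _ => t ^ 2 * K) 0 t :=
          hci.add (circleIntegrable_const _ _ _)
        have f2 := lintegral_circle f1 (fun ζ _ => add_nonneg (hW0 _)
          (mul_nonneg (sq_nonneg t) hK))
        rw [Real.circleAverage_add hci (circleIntegrable_const _ _ _),
          Real.circleAverage_const] at f2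
        rw [← f2, ← lintegral_mul_const]
        · refine lintegral_congr fun θ => ?_
          rw [hdens, hn]
          rfl
        · have := (hWm.comp hcm).add (measurable_const (a := t ^ 2 * K))
          exact this.ennreal_ofReal
      rw [e1, e2]
      refine mul_le_mul_left ?_ _
      apply ENNReal.ofReal_le_ofReal
      exact mul_le_mul_of_nonneg_left (h z t ht) (by positivity))
    have e3 : ∫⁻ ζ in ball (0 : ℂ) s, ENNReal.ofReal (W z + ‖ζ‖ ^ 2 * c z) * dens ζ =
        ENNReal.ofReal (W z) * m₀ + ENNReal.ofReal (c z) * m₂ := by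
      rw [hm₀, hm₂, ← lintegral_const_mul _ measurable_dens, ← lintegral_const_mul _ hmn,
        ← lintegral_add_left (measurable_dens.const_mul _)]
      refine lintegral_congr fun ζ => ?_
      rw [ENNReal.ofReal_add (hW0 z) (mul_nonneg (sq_nonneg _) (hc0 z)),
        ENNReal.ofReal_mul (sq_nonneg _)]
      ring
    have e4 : ∫⁻ ζ in ball (0 : ℂ) s, ENNReal.ofReal (W (cayH z ζ) + ‖ζ‖ ^ 2 * K) * dens ζ =
        (∫⁻ w in ball z ρ, ENNReal.ofReal (W w)) + ENNReal.ofReal K * m₂ := by
      have hm3 : Measurable fun ζ : ℂ => ENNReal.ofReal (W (cayH z ζ)) * dens ζ :=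
        hWm.ennreal_ofReal.mul measurable_dens
      rw [lintegral_ball hW.measurable.ennreal_ofReal z ρ, ← hs, hm₂, ← lintegral_const_mul _ hmn,
        ← lintegral_add_left hm3]
      refine lintegral_congr fun ζ => ?_
      rw [ENNReal.ofReal_add (hW0 _) (mul_nonneg (sq_nonneg _) hK),
        ENNReal.ofReal_mul (sq_nonneg _)]
      ring
    rw [e3, e4] at h1
    exact h1
  -- integration
  have hWi : ∫⁻ z in D, ENNReal.ofReal (W z) ≠ ⊤ := by
    have h1 : ∫⁻ z in D, ENNReal.ofReal (W z) ≤ ∫⁻ _ in D, ENNReal.ofReal B :=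
      lintegral_mono fun z => ENNReal.ofReal_le_ofReal (hWB z)
    rw [setLIntegral_const] at h1
    exact ne_top_of_le_ne_top (ENNReal.mul_ne_top ENNReal.ofReal_ne_top hD.volume_lt_top.ne) h1
  have h1 : ∫⁻ z in D, (ENNReal.ofReal (W z) * m₀ + ENNReal.ofReal (c z) * m₂) ≤
      ∫⁻ z in D, ((∫⁻ w in ball z ρ, ENNReal.ofReal (W w)) + ENNReal.ofReal K * m₂) :=
    lintegral_mono fun z => key z
  rw [lintegral_add_left (hW.measurable.ennreal_ofReal.mul_const _),
    lintegral_add_right _ measurable_const, lintegral_mul_const _ hW.measurable.ennreal_ofReal,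
    lintegral_mul_const _ hc.ennreal_ofReal, setLIntegral_const,
    unfold_lintegral hD hW.measurable.ennreal_ofReal (fun γ hγ z => by rw [hinv γ hγ z]) ρ] at h1
  simp only [hvol] at h1
  rw [lintegral_mul_const _ hW.measurable.ennreal_ofReal,
    ENNReal.add_le_add_iff_left (ENNReal.mul_ne_top hWi hm₀top)] at h1
  have h2 : (∫⁻ z in D, ENNReal.ofReal (c z)) * m₂ ≤ (ENNReal.ofReal K * volume D) * m₂ := by
    refine h1.trans (le_of_eq ?_)
    ring
  exact (ENNReal.mul_le_mul_iff_left hm₂pos hm₂top).1 h2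

end Pool.Agent.H33
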