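import Pool.Agent.H33.LDefs
import Mathlib.Analysis.Complex.UpperHalfPlane.Measure
import Mathlib.MeasureTheory.Group.FundamentalDomain

/-! The degree of holomorphic maps from compact Riemann surfaces to projective space. -/

set_option autoImplicit false

open LinearAlgebra.Projectivization MeasureTheory
open scoped UpperHalfPlane MatrixGroups

namespace Pool.Agent.H33

open Pool.Agent.N155.BB (wedge)

variable {n : ℕ}

/-- `D` is a bounded fundamental domain, for the hyperbolic metric and the hyperbolic area, of the
countable group `Γ` of Möbius transformations of the upper half plane `ℍ`. If `Γ` acts freely and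
properly then `ℍ / Γ` is a compact Riemann surface, and by the formula of Gauss and Bonnet its genus
`g ≥ 2` is given by `volume D = 4 π (g - 1)`. By uniformization all compact Riemann surfaces of genus
at least `2` are of this form. -/
structure CompactDomain (Γ : Subgroup SL(2, ℝ)) (D : Set ℍ) : Prop where
  countable : Countable Γ
  dom : IsFundamentalDomain Γ D volume
  bounded : Bornology.IsBounded D

/-- The square of the length of the derivative of the holomorphic map `f` from the upper half plane to
projective space at the point `z`, for the hyperbolic metric (of curvature `-1`) and the Fubini-Study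
metric: in terms of local homogeneous coordinates `g` of `f` this is
`(Im z) ^ 2 (|g ∧ g'| / |g| ^ 2) ^ 2`. -/
noncomputable def speedSq (f : ℍ → ℙ ℂ (Fin (n + 1) → ℂ)) (z : ℍ) : ℝ :=
  sSup {e : ℝ | ∃ (V : Set ℂ) (g : ℂ → Fin (n + 1) → ℂ), IsOpen V ∧ (z : ℂ) ∈ V ∧
    DifferentiableOn ℂ g V ∧ (∀ w : ℍ, (w : ℂ) ∈ V → ∃ h : g w ≠ 0,
      f w = Projectivization.mk ℂ (g w) h) ∧
    e = (z.im * (wedge (g z) (deriv g z) / ∑ k, ‖g z k‖ ^ 2)) ^ 2}

/-- The degree of the holomorphic map from `ℍ / Γ` to projective space given by the invariant map `f`:
the area of its image (with multiplicities) for the Fubini-Study metric, divided by the area `π` of a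
line. Here `D` is a fundamental domain of the group `Γ`. -/
noncomputable def degree (f : ℍ → ℙ ℂ (Fin (n + 1) → ℂ)) (D : Set ℍ) : ENNReal :=
  (∫⁻ z in D, ENNReal.ofReal (speedSq f z)) / ENNReal.ofReal Real.pi

end Pool.Agent.H33
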