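import Pool.Agent.H33.MD

/-! Mean values of the logarithm of the second length. -/

set_option autoImplicit false

open Filter Topology Metric Set
open scoped UpperHalfPlane MatrixGroups

namespace Pool.Agent.H33

open Pool.Agent.Y190.OP Pool.Agent.W602.GT Pool.Agent.N155 Pool.Agent.N155.BB
open MvPolynomial
open Real (circleAverage)

variable {a : ℕ} {C κ ε : ℝ} {u v : ℂ → ℝ}

/-- the general inequality -/
theorem WOn.mean_far (h : WOn (ball 0 1) a C κ ε u v) (hC : 0 ≤ C) {t A δ : ℝ} (ht0 : 0 < t)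
    (ht : t < 1) (hA : ∀ z ∈ ball (0 : ℂ) t, u z < A) (hδ : 0 < δ) (hv0 : 0 < v 0) :
    Real.log (v 0) ≤ circleAverage (fun z => Real.log (max (v z) δ)) 0 t + C * A ^ 2 * t ^ 2 := by
  set c : ℝ := C * A ^ 2 with hc
  have hc0 : 0 ≤ c := by positivity
  have hsD : closedBall (0 : ℂ) t ⊆ ball 0 1 := closedBall_subset_ball ht
  have hss : sphere (0 : ℂ) |t| ⊆ closedBall 0 t := by
    rw [abs_of_pos ht0]
    exact sphere_subset_closedBall
  have hcv := h.cv.mono hsD
  have hℓp : ∀ z, 0 < max (v z) δ := fun z => hδ.trans_le (le_max_right _ _)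
  have hℓc : ContinuousOn (fun z => Real.log (max (v z) δ)) (closedBall 0 t) :=
    ContinuousOn.log (hcv.sup continuousOn_const) fun z _ => (hℓp z).ne'
  have hℓi : CircleIntegrable (fun z => Real.log (max (v z) δ)) 0 t := (hℓc.mono hss).circleIntegrable'
  have hcont : ContinuousOn (fun z => Real.log (max (v z * Real.exp (c * ‖z‖ ^ 2)) δ))
      (closedBall 0 t) := by
    apply ContinuousOn.log
    · exact (hcv.mul (by fun_prop)).sup continuousOn_const
    · exact fun z _ => (hδ.trans_le (le_max_right _ _)).ne'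
  have f1 := mean_of_local ht0 hcont fun z hz => by
    obtain ⟨V, hV, hzV, hsV⟩ := h.far z (hsD (ball_subset_closedBall hz)) _ (hA z hz)
    exact hsV.subAt hV hzV hδ
  have f2 : Real.log (v 0) ≤ Real.log (max (v 0 * Real.exp (c * ‖(0 : ℂ)‖ ^ 2)) δ) := by
    apply Real.log_le_log hv0
    apply le_max_of_le_left
    rw [norm_zero]
    simp
  have f3 := Real.circleAverage_mono (hcont.mono hss).circleIntegrable'
    ((circleIntegrable_const (c * t ^ 2) 0 t).add hℓi) (by
      intro z hz
      rw [abs_of_pos ht0, mem_sphere_zero_iff_norm] at hz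
      simp only [Pi.add_apply]
      have f4 : max (v z * Real.exp (c * ‖z‖ ^ 2)) δ ≤ Real.exp (c * t ^ 2) * max (v z) δ := by
        rw [hz]
        have f5 : 1 ≤ Real.exp (c * t ^ 2) := Real.one_le_exp (by positivity)
        apply max_le
        · rw [mul_comm]
          exact mul_le_mul_of_nonneg_left (le_max_left _ _) (by positivity)
        · calc δ ≤ max (v z) δ := le_max_right _ _
            _ ≤ _ := le_mul_of_one_le_left (hℓp z).le f5
      have f6 := Real.log_le_log (hδ.trans_le (le_max_right _ _)) f4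
      rwa [Real.log_mul (Real.exp_pos _).ne' (hℓp z).ne', Real.log_exp] at f6)
  rw [Real.circleAverage_add (circleIntegrable_const _ _ _) hℓi, Real.circleAverage_const] at f3
  linarith

/-- the inequality near the zeros -/
theorem WOn.mean_near (h : WOn (ball 0 1) a C κ ε u v) {t A δ : ℝ} (ht0 : 0 < t)
    (ht : t < 1) (hA0 : 0 ≤ A) (hA : ∀ z ∈ ball (0 : ℂ) t, A < u z)
    (hn : ∀ z ∈ ball (0 : ℂ) t, v z < ε * u z ^ a) (hκ : 0 < κ) (hδ : 0 < δ) (hδv : δ ≤ v 0) :
    Real.log (v 0) + κ * A ^ 2 * t ^ 2 ≤ circleAverage (fun z => Real.log (max (v z) δ)) 0 t := by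
  set c : ℝ := κ * A ^ 2 with hc
  have hc0 : 0 ≤ c := by positivity
  have hsD : closedBall (0 : ℂ) t ⊆ ball 0 1 := closedBall_subset_ball ht
  have hss : sphere (0 : ℂ) |t| ⊆ closedBall 0 t := by
    rw [abs_of_pos ht0]
    exact sphere_subset_closedBall
  have hcv := h.cv.mono hsD
  have hℓp : ∀ z, 0 < max (v z) δ := fun z => hδ.trans_le (le_max_right _ _)
  have hℓc : ContinuousOn (fun z => Real.log (max (v z) δ)) (closedBall 0 t) :=
    ContinuousOn.log (hcv.sup continuousOn_const) fun z _ => (hℓp z).ne'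
  have hℓi : CircleIntegrable (fun z => Real.log (max (v z) δ)) 0 t := (hℓc.mono hss).circleIntegrable'
  set δ' : ℝ := δ * Real.exp (-(c * t ^ 2)) with hδ'
  have hδ'0 : 0 < δ' := by positivity
  have hcont : ContinuousOn (fun z => Real.log (max (v z * Real.exp (-(c * ‖z‖ ^ 2))) δ'))
      (closedBall 0 t) := by
    apply ContinuousOn.log
    · exact (hcv.mul (by fun_prop)).sup continuousOn_const
    · exact fun z _ => (hδ'0.trans_le (le_max_right _ _)).ne'
  have f1 := mean_of_local ht0 hcont fun z hz => by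
    obtain ⟨V, hV, hzV, hsV⟩ := h.near z (hsD (ball_subset_closedBall hz)) A hA0
      (Or.inl (hA z hz)) (hn z hz)
    exact hsV.subAt hV hzV hδ'0
  have f2 : Real.log (v 0) ≤ Real.log (max (v 0 * Real.exp (-(c * ‖(0 : ℂ)‖ ^ 2))) δ') := by
    apply Real.log_le_log (hδ.trans_le hδv)
    apply le_max_of_le_left
    rw [norm_zero]
    simp
  have f3 := Real.circleAverage_mono (hcont.mono hss).circleIntegrable'
    ((circleIntegrable_const (-(c * t ^ 2)) 0 t).add hℓi) (by
      intro z hz
      rw [abs_of_pos ht0, mem_sphere_zero_iff_norm] at hz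
      simp only [Pi.add_apply]
      have f4 : max (v z * Real.exp (-(c * ‖z‖ ^ 2))) δ' =
          Real.exp (-(c * t ^ 2)) * max (v z) δ := by
        rw [hz, hδ', ← max_mul_of_nonneg _ _ (Real.exp_pos _).le, mul_comm]
      rw [f4, Real.log_mul (Real.exp_pos _).ne' (hℓp z).ne', Real.log_exp])
  rw [Real.circleAverage_add (circleIntegrable_const _ _ _) hℓi, Real.circleAverage_const] at f3
  linarith

theorem neg_log_le {x : ℝ} (h0 : 0 ≤ x) (h1 : x ≤ 1 / 2) : -Real.log (1 - x) ≤ 2 * x := by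
  have hx : 0 < 1 - x := by linarith
  have h2 := Real.log_le_sub_one_of_pos (inv_pos.2 hx)
  rw [Real.log_inv] at h2
  have h3 : (1 - x)⁻¹ ≤ 1 + 2 * x := by
    rw [inv_le_iff_one_le_mul₀ hx]
    nlinarith
  linarith

theorem neg_log_pow_le {x : ℝ} (h0 : 0 ≤ x) (h1 : x ≤ 1 / 2) (a : ℕ) :
    -Real.log ((1 - x) ^ a) ≤ 2 * a * x := by
  rw [Real.log_pow]
  have h2 := neg_log_le h0 h1
  have h3 : (0 : ℝ) ≤ a := Nat.cast_nonneg a
  nlinarith

/-- from the second length to the invariant function -/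
theorem avg_scale {w : ℂ → ℝ} {t δ : ℝ} (ht0 : 0 < t) (ht : t ^ 2 ≤ 1 / 2)
    (hv : ContinuousOn v (ball 0 1)) (hw : ∀ z ∈ ball (0 : ℂ) 1, v z * (1 - ‖z‖ ^ 2) ^ a = w z)
    (hδ : 0 < δ) :
    circleAverage (fun z => Real.log (max (v z) δ)) 0 t ≤
      circleAverage (fun z => Real.log (max (w z) δ)) 0 t + 2 * a * t ^ 2 := by
  have ht1 : t < 1 := by nlinarith
  have hsD : closedBall (0 : ℂ) t ⊆ ball 0 1 := closedBall_subset_ball ht1
  have hss : sphere (0 : ℂ) |t| ⊆ ball 0 1 := by
    rw [abs_of_pos ht0]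
    exact sphere_subset_closedBall.trans hsD
  have hcw : ContinuousOn w (ball 0 1) := by
    have h1 : ContinuousOn (fun z : ℂ => v z * (1 - ‖z‖ ^ 2) ^ a) (ball 0 1) :=
      hv.mul (by fun_prop)
    exact h1.congr fun z hz => (hw z hz).symm
  have hp : ∀ x : ℝ, 0 < max x δ := fun x => hδ.trans_le (le_max_right _ _)
  have hi : ∀ f : ℂ → ℝ, ContinuousOn f (ball 0 1) →
      CircleIntegrable (fun z => Real.log (max (f z) δ)) 0 t := fun f hf =>
    (ContinuousOn.log ((hf.mono hss).sup continuousOn_const) fun z _ => (hp _).ne').circleIntegrable'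
  have h1 := Real.circleAverage_mono (hi v hv)
    ((hi w hcw).add (circleIntegrable_const (2 * a * t ^ 2) 0 t)) (by
      intro z hz
      have hzb := hss hz
      rw [abs_of_pos ht0, mem_sphere_zero_iff_norm] at hz
      simp only [Pi.add_apply]
      rw [← hw z hzb, hz]
      have hx : 0 < 1 - t ^ 2 := by linarith
      have hxa : 0 < (1 - t ^ 2) ^ a := by positivity
      have hxa1 : (1 - t ^ 2) ^ a ≤ 1 := pow_le_one₀ hx.le (by nlinarith)
      have h2 : (1 - t ^ 2) ^ a * max (v z) δ ≤ max (v z * (1 - t ^ 2) ^ a) δ := by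
        rw [mul_comm, max_mul_of_nonneg _ _ hxa.le]
        exact max_le_max le_rfl (mul_le_of_le_one_right hδ.le hxa1)
      have h3 := Real.log_le_log (mul_pos hxa (hp _)) h2
      rw [Real.log_mul hxa.ne' (hp _).ne'] at h3
      have h4 := neg_log_pow_le (sq_nonneg t) ht a
      linarith)
  rwa [Real.circleAverage_add (hi w hcw) (circleIntegrable_const _ _ _),
    Real.circleAverage_const] at h1

end Pool.Agent.H33
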