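import Pool.Agent.H33.ME

/-! The pointwise inequality on the upper half plane. -/

set_option autoImplicit false

open Filter Topology Metric Set MvPolynomial MeasureTheory
open scoped UpperHalfPlane MatrixGroups ENNReal

namespace Pool.Agent.H33

open Pool.Agent.Y190.OP Pool.Agent.W602.GT Pool.Agent.N155 Pool.Agent.N155.BB
open Real (circleAverage)

variable {n : ℕ} {ι : Type} {F : ι → MvPolynomial (Fin (n + 1)) ℂ} {d : ℕ}
  {Φ Ψ : (Fin (n + 1) → ℂ) → (Fin (n + 1) → ℂ) → ℝ} {P : ℂ → Mat (n + 1)} {a : ℕ}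
  {C κ ε q M : ℝ}

/-- the bound of the first length away from the zeros -/
noncomputable def mOf (M ε q : ℝ) : ℝ := max 1 (M * (ε / 2) ^ (-q))

/-- the constant -/
noncomputable def kOf (a : ℕ) (C κ ε q M : ℝ) : ℝ :=
  C * (2 * (mOf M ε q + 1) + 1) ^ 2 + 2 * a + κ * mOf M ε q ^ 2

theorem cay_dist (z : ℍ) {ρ : ℝ} {ζ : ℂ} (h : ‖ζ‖ < Real.tanh (ρ / 2)) :
    dist z (cayH z ζ) < ρ := by
  have h1 : ζ ∈ ball (0 : ℂ) 1 := mem_ball_zero_iff.2 (h.trans (Real.tanh_lt_one _))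
  rw [← tanh_cayH z h1] at h
  by_contra hcon
  push Not at hcon
  have := tanh_mono (show ρ / 2 ≤ dist z (cayH z ζ) / 2 by linarith)
  linarith

namespace Dat

theorem mOf_le (h : Dat F d Φ Ψ a C κ ε q M) (hP : PD F upper P) {z : ℍ}
    (hz : ¬ (1 ≤ hl 1 Φ P z ∧ hl a Ψ P z ≤ ε / 2 * hl 1 Φ P z ^ a)) :
    hl 1 Φ P z ≤ mOf M ε q := by
  unfold mOf
  by_cases h1 : 1 ≤ hl 1 Φ P z
  · have h2 : ε / 2 * hl 1 Φ P z ^ a ≤ hl a Ψ P z := by
      by_contra hcon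
      push Not at hcon
      exact hz ⟨h1, hcon.le⟩
    have hε := h.hε
    have h3 := far_bound_p (a := a) (P := 1) (M := M) (show 0 < ε / 2 by positivity) h.hq
      (one_pos.trans_le h1) one_pos h2 (by
        rw [mul_one]
        exact h.bound hP z)
    rw [mul_one] at h3
    exact le_max_of_le_right h3
  · exact le_max_of_le_left (not_le.1 h1).le

/-- **the pointwise inequality** -/
theorem main_ineq (h : Dat F d Φ Ψ a C κ ε q M) (hP : PD F upper P) {η ρ : ℝ}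
    (hη1 : η ≤ 1) (hs2 : Real.tanh (ρ / 2) ^ 2 ≤ 1 / 2)
    (h1 : ∀ z w : ℍ, dist z w < ρ → |hl 1 Φ P z - hl 1 Φ P w| < η)
    (h2 : ∀ z w : ℍ, dist z w < ρ → 1 ≤ hl 1 Φ P z → hl a Ψ P z ≤ ε / 2 * hl 1 Φ P z ^ a →
      hl a Ψ P w < ε * hl 1 Φ P w ^ a) {z : ℍ} {δ : ℝ} (hδ : 0 < δ) (hz : δ ≤ hl a Ψ P z)
    {t : ℝ} (ht : t ∈ Ioo 0 (Real.tanh (ρ / 2))) :
    Real.log (hl a Ψ P z) + t ^ 2 * (κ * max (hl 1 Φ P z - η) 0 ^ 2) ≤
      circleAverage (fun ζ => Real.log (max (hl a Ψ P (cayH z ζ)) δ)) 0 t +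
        t ^ 2 * kOf a C κ ε q M := by
  obtain ⟨ht0, hts⟩ := ht
  have ht2 : t ^ 2 ≤ 1 / 2 := (pow_le_pow_left₀ ht0.le hts.le 2).trans hs2
  have ht1 : t < 1 := by nlinarith
  have hw := h.w _ _ (hP.disc z)
  have hκ := h.hκ
  have hC := h.hC
  have hε := h.hε
  have hm1 : 1 ≤ mOf M ε q := le_max_left _ _
  have hsub : ball (0 : ℂ) t ⊆ ball 0 1 := ball_subset_ball ht1.le
  have hdist : ∀ ζ ∈ ball (0 : ℂ) t, dist z (cayH z ζ) < ρ := fun ζ hζ =>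
    cay_dist z ((mem_ball_zero_iff.1 hζ).trans hts)
  have hav := avg_scale (a := a) (w := fun ζ => hl a Ψ P (cayH z ζ)) ht0 ht2 hw.cv
    (fun ζ hζ => h.Psi_cay hP z hζ) hδ
  have hv0 := h.Psi_zero hP z
  have hu0 := h.nonnegPhi hP z
  have hpos : 0 < len Ψ (fun s => P (cay z s)) 0 := by
    rw [hv0]
    exact hδ.trans_le hz
  have h1ζ : ∀ ζ ∈ ball (0 : ℂ) t, 1 / 2 < 1 - ‖ζ‖ ^ 2 ∧ 1 - ‖ζ‖ ^ 2 ≤ 1 := by
    intro ζ hζ
    rw [mem_ball_zero_iff] at hζ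
    have e1 := pow_lt_pow_left₀ hζ (norm_nonneg ζ) two_ne_zero
    have e2 := sq_nonneg ‖ζ‖
    constructor <;> linarith
  have ht20 : 0 < t ^ 2 := by positivity
  by_cases hc : 1 ≤ hl 1 Φ P z ∧ hl a Ψ P z ≤ ε / 2 * hl 1 Φ P z ^ a
  · -- near the zeros
    have e1 := hw.mean_near (A := hl 1 Φ P z - η) ht0 ht1 (by linarith [hc.1]) (fun ζ hζ => by
        have f1 := abs_lt.1 (h1 z (cayH z ζ) (hdist ζ hζ))
        have f2 := h.Phi_cay hP z (hsub hζ)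
        have f3 := hw.u0 ζ (hsub hζ)
        have f4 := h1ζ ζ hζ
        nlinarith) (fun ζ hζ => by
        have f1 := h2 z (cayH z ζ) (hdist ζ hζ) hc.1 hc.2
        rw [← h.Phi_cay hP z (hsub hζ), ← h.Psi_cay hP z (hsub hζ), mul_pow, ← mul_assoc] at f1
        have f4 := (h1ζ ζ hζ).1
        exact lt_of_mul_lt_mul_right f1 (by positivity)) hκ hδ (by rw [hv0]; exact hz)
    rw [hv0] at e1
    rw [max_eq_left (by linarith [hc.1])]
    have e2 : 2 * (a : ℝ) ≤ kOf a C κ ε q M := by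
      unfold kOf
      have f1 : 0 ≤ C * (2 * (mOf M ε q + 1) + 1) ^ 2 := by positivity
      have f2 : 0 ≤ κ * mOf M ε q ^ 2 := by positivity
      linarith
    have e3 : 2 * (a : ℝ) * t ^ 2 ≤ t ^ 2 * kOf a C κ ε q M := by
      rw [mul_comm]
      exact mul_le_mul_of_nonneg_left e2 ht20.le
    have e4 : κ * (hl 1 Φ P z - η) ^ 2 * t ^ 2 = t ^ 2 * (κ * (hl 1 Φ P z - η) ^ 2) := by ring
    linarith
  · -- away from the zeros
    have hUm := h.mOf_le hP hc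
    have hη0 : 0 < η := (abs_nonneg _).trans_lt (h1 z (cayH z 0) (by
      rw [cayH_zero, dist_self]
      by_contra hcon
      push Not at hcon
      have f1 := tanh_mono (show ρ / 2 ≤ 0 by linarith)
      rw [Real.tanh_zero] at f1
      linarith))
    have e1 := hw.mean_far (A := 2 * (mOf M ε q + 1) + 1) hC ht0 ht1 (fun ζ hζ => by
        have f1 := abs_lt.1 (h1 z (cayH z ζ) (hdist ζ hζ))
        have f2 := h.Phi_cay hP z (hsub hζ)
        have f3 := hw.u0 ζ (hsub hζ)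
        have f4 := h1ζ ζ hζ
        nlinarith) hδ hpos
    rw [hv0] at e1
    have e2 : max (hl 1 Φ P z - η) 0 ^ 2 ≤ mOf M ε q ^ 2 := by
      apply pow_le_pow_left₀ (le_max_right _ _)
      exact max_le (by linarith) (by linarith)
    have e3 : t ^ 2 * (κ * max (hl 1 Φ P z - η) 0 ^ 2) ≤ t ^ 2 * (κ * mOf M ε q ^ 2) :=
      mul_le_mul_of_nonneg_left (mul_le_mul_of_nonneg_left e2 hκ.le) ht20.le
    have e4 : t ^ 2 * kOf a C κ ε q M = C * (2 * (mOf M ε q + 1) + 1) ^ 2 * t ^ 2 +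
        2 * a * t ^ 2 + t ^ 2 * (κ * mOf M ε q ^ 2) := by
      unfold kOf
      ring
    rw [e4]
    linarith

end Dat

variable {Γ : Subgroup SL(2, ℝ)} {D : Set ℍ}

/-- the group is cocompact -/
theorem CompactDomain.cocompact (hD : CompactDomain Γ D) : ∃ r : ℝ, 0 ≤ r ∧ Cocompact Γ r := by
  obtain ⟨R, hR⟩ := hD.bounded.subset_closedBall UpperHalfPlane.I
  refine ⟨max (R + 1) 0, le_max_right _ _, UpperHalfPlane.I, fun z => ?_⟩
  have h1 : ∃ x ∈ ball z 1, ∃ γ : Γ, γ • x ∈ D := by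
    by_contra hcon
    push Not at hcon
    have h2 : ball z 1 ⊆ {x | ∃ γ : Γ, γ • x ∈ D}ᶜ := by
      intro x hx hx'
      obtain ⟨γ, hγ⟩ := hx'
      exact hcon x hx γ hγ
    have h3 : volume (ball z 1) = 0 := measure_mono_null h2 hD.dom.ae_covers
    exact (volume_ball_pos z one_pos).ne' h3
  obtain ⟨x, hx, γ, hγ⟩ := h1
  refine ⟨γ, γ.2, ?_⟩
  have h4 : dist ((γ : SL(2, ℝ)) • z) ((γ : SL(2, ℝ)) • x) = dist z x := dist_smul _ _ _
  have h5 : dist ((γ : SL(2, ℝ)) • x) UpperHalfPlane.I ≤ R := hR hγ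
  have h6 := dist_triangle ((γ : SL(2, ℝ)) • z) ((γ : SL(2, ℝ)) • x) UpperHalfPlane.I
  rw [mem_ball, dist_comm] at hx
  exact le_max_of_le_left (by linarith)

/-- invariant continuous functions are bounded -/
theorem bdd_of_cocompact {r : ℝ} (hΓ : Cocompact Γ r) {X : ℍ → ℝ} (hX : Continuous X)
    (hinv : ∀ γ ∈ Γ, ∀ z : ℍ, X (γ • z) = X z) : ∃ B : ℝ, ∀ z, X z ≤ B := by
  obtain ⟨z₀, hz₀⟩ := hΓ
  obtain ⟨B, hB⟩ := (isCompact_closedBall z₀ r).bddAbove_image hX.continuousOn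
  refine ⟨B, fun z => ?_⟩
  obtain ⟨γ, hγ, hd⟩ := hz₀ z
  rw [← hinv γ hγ z]
  exact hB (mem_image_of_mem _ (mem_closedBall.2 hd))

/-- invariant continuous functions are uniformly continuous -/
theorem unif_of_cocompact {r : ℝ} (hΓ : Cocompact Γ r) {X : ℍ → ℝ} (hX : Continuous X)
    (hinv : ∀ γ ∈ Γ, ∀ z : ℍ, X (γ • z) = X z) {η : ℝ} (hη : 0 < η) :
    ∃ ρ : ℝ, 0 < ρ ∧ ∀ z w : ℍ, dist z w < ρ → |X z - X w| < η := by
  obtain ⟨z₀, hz₀⟩ := hΓ
  have h1 := (isCompact_closedBall z₀ (r + 1)).uniformContinuousOn_of_continuous hX.continuousOn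
  rw [Metric.uniformContinuousOn_iff] at h1
  obtain ⟨δ, hδ, h2⟩ := h1 η hη
  refine ⟨min δ 1, lt_min hδ one_pos, fun z w hzw => ?_⟩
  obtain ⟨γ, hγ, hd⟩ := hz₀ z
  have h3 : dist (γ • z) (γ • w) = dist z w := dist_smul _ _ _
  have h4 := h2 (γ • z) (mem_closedBall.2 (by linarith)) (γ • w) (mem_closedBall.2 (by
    have := dist_triangle (γ • w) (γ • z) z₀
    rw [dist_comm (γ • w) (γ • z), h3] at this
    linarith [hzw.trans_le (min_le_right δ 1)])) (by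
      rw [h3]
      exact hzw.trans_le (min_le_left _ _))
  rw [hinv γ hγ, hinv γ hγ, Real.dist_eq] at h4
  exact h4

end Pool.Agent.H33
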