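import Pool.Agent.H33.MF
import Pool.Agent.H33.LD

/-! The zeros of the weight are a null set. -/

set_option autoImplicit false

open Filter Topology Metric Set MvPolynomial MeasureTheory
open scoped UpperHalfPlane MatrixGroups ENNReal

namespace Pool.Agent.H33

open Pool.Agent.Y190.OP Pool.Agent.W602.GT Pool.Agent.N155 Pool.Agent.N155.BB
open Real (circleAverage)

variable {n : ℕ} {ι : Type} {F : ι → MvPolynomial (Fin (n + 1)) ℂ} {d : ℕ}
  {Φ Ψ : (Fin (n + 1) → ℂ) → (Fin (n + 1) → ℂ) → ℝ} {P : ℂ → Mat (n + 1)} {a : ℕ}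
  {C κ ε q M : ℝ}

theorem circle_null {f : ℂ → ℝ} {t L : ℝ} (hf : ContinuousOn f (sphere 0 |t|))
    (hL : ∀ δ : ℝ, 0 < δ → δ ≤ 1 → L ≤ circleAverage (fun z => Real.log (max (f z) δ)) 0 t) :
    volume ({θ : ℝ | f (circleMap 0 t θ) = 0} ∩ Ioo (-Real.pi) Real.pi) = 0 := by
  obtain ⟨M0, hM0⟩ := (isCompact_sphere (0 : ℂ) |t|).exists_bound_of_continuousOn hf
  set M1 : ℝ := max M0 1 with hM1
  have hM11 : 1 ≤ M1 := le_max_right _ _
  have hfM : ∀ z ∈ sphere (0 : ℂ) |t|, f z ≤ M1 := fun z hz =>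
    ((le_abs_self _).trans (hM0 z hz)).trans (le_max_left _ _)
  have hfc : Continuous fun θ : ℝ => f (circleMap 0 t θ) :=
    hf.comp_continuous (continuous_circleMap 0 t) fun θ => circleMap_mem_sphere' 0 t θ
  set Z : Set ℝ := {θ : ℝ | f (circleMap 0 t θ) = 0} ∩ Ioo (-Real.pi) Real.pi with hZ
  have hZm : MeasurableSet Z := (isClosed_eq hfc continuous_const).measurableSet.inter
    measurableSet_Ioo
  have hZt : volume Z ≠ ⊤ := by
    refine ne_top_of_le_ne_top ?_ (measure_mono (inter_subset_right))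
    rw [Real.volume_Ioo]
    exact ENNReal.ofReal_ne_top
  -- the inequality
  have key : ∀ m : ℝ, 0 ≤ m → ENNReal.ofReal m * volume Z ≤
      ENNReal.ofReal (2 * Real.pi * (Real.log M1 - L)) := by
    intro m hm
    set δ : ℝ := Real.exp (-m) with hδ
    have hδ0 : 0 < δ := Real.exp_pos _
    have hδ1 : δ ≤ 1 := Real.exp_le_one_iff.2 (by linarith)
    have hp : ∀ x : ℝ, 0 < max x δ := fun x => hδ0.trans_le (le_max_right _ _)
    have hlc : ContinuousOn (fun z => Real.log (max (f z) δ)) (sphere 0 |t|) :=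
      ContinuousOn.log (hf.sup continuousOn_const) fun z _ => (hp _).ne'
    have hli : CircleIntegrable (fun z => (-1 : ℝ) • Real.log (max (f z) δ)) 0 t :=
      hlc.circleIntegrable'.const_fun_smul
    have hgi : CircleIntegrable ((fun _ : ℂ => Real.log M1) +
        fun z : ℂ => (-1 : ℝ) • Real.log (max (f z) δ)) 0 t :=
      (circleIntegrable_const _ _ _).add hli
    have h1 := lintegral_circle hgi (fun z hz => by
      have e1 : Real.log (max (f z) δ) ≤ Real.log M1 :=
        Real.log_le_log (hp _) (max_le (hfM z hz) (hδ1.trans hM11))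
      simp only [Pi.add_apply, smul_eq_mul]
      linarith)
    rw [Real.circleAverage_add (circleIntegrable_const _ _ _) hli, Real.circleAverage_const,
      Real.circleAverage_fun_smul, smul_eq_mul] at h1
    have h2 : ENNReal.ofReal m * volume Z ≤ ∫⁻ θ in Ioo (-Real.pi) Real.pi, ENNReal.ofReal
        (((fun _ : ℂ => Real.log M1) + fun z : ℂ => (-1 : ℝ) • Real.log (max (f z) δ) : ℂ → ℝ)
          (circleMap 0 t θ)) := by
      rw [← setLIntegral_const]
      refine (setLIntegral_mono' hZm fun θ hθ => ?_).trans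
        (lintegral_mono_set inter_subset_right)
      apply ENNReal.ofReal_le_ofReal
      have e1 : f (circleMap 0 t θ) = 0 := hθ.1
      have e2 := Real.log_nonneg hM11
      simp only [Pi.add_apply, smul_eq_mul]
      rw [e1, max_eq_right hδ0.le, hδ, Real.log_exp]
      linarith
    refine h2.trans ?_
    rw [h1]
    apply ENNReal.ofReal_le_ofReal
    have h3 := hL δ hδ0 hδ1
    exact mul_le_mul_of_nonneg_left (by linarith) (by positivity)
  by_contra hne
  obtain ⟨x, hxe⟩ : ∃ x : ℝ, x = (volume Z).toReal := ⟨_, rfl⟩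
  have hx : 0 < x := by
    rw [hxe]
    exact ENNReal.toReal_pos hne hZt
  have hxv : volume Z = ENNReal.ofReal x := by
    rw [hxe, ENNReal.ofReal_toReal hZt]
  set R : ℝ := max (2 * Real.pi * (Real.log M1 - L)) 0 with hR
  have hR0 : 0 ≤ R := le_max_right _ _
  have h1 := key ((R + 1) / x) (by positivity)
  rw [hxv, ← ENNReal.ofReal_mul (by positivity), div_mul_cancel₀ _ hx.ne'] at h1
  have h2 : ENNReal.ofReal (R + 1) ≤ ENNReal.ofReal R :=
    h1.trans (ENNReal.ofReal_le_ofReal (le_max_left _ _))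
  rw [ENNReal.ofReal_le_ofReal_iff hR0] at h2
  linarith

/-- **the zeros of the weight** -/
theorem Dat.null (h : Dat F d Φ Ψ a C κ ε q M) (hP : PD F upper P)
    (hpos : ∃ z : ℍ, 0 < hl a Ψ P z) : volume {z : ℍ | hl a Ψ P z = 0} = 0 := by
  obtain ⟨z₀, hz₀⟩ := hpos
  have hcont := h.contPsi hP
  set N : Set ℍ := {z : ℍ | hl a Ψ P z = 0} with hN
  have hNm : MeasurableSet N := (isClosed_eq hcont continuous_const).measurableSet
  have hw := h.w _ _ (hP.disc z₀)
  -- on circles
  have hcirc : ∀ t : ℝ, 0 < t → t < 1 →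
      volume ({θ : ℝ | len Ψ (fun s => P (cay z₀ s)) (circleMap 0 t θ) = 0} ∩
        Ioo (-Real.pi) Real.pi) = 0 := by
    intro t ht0 ht1
    have hsub : closedBall (0 : ℂ) t ⊆ ball 0 1 := closedBall_subset_ball ht1
    have hss : sphere (0 : ℂ) |t| ⊆ ball 0 1 := by
      rw [abs_of_pos ht0]
      exact sphere_subset_closedBall.trans hsub
    obtain ⟨A, hA⟩ := (isCompact_closedBall (0 : ℂ) t).exists_bound_of_continuousOn
      (hw.cu.mono hsub)
    have hv0 : 0 < len Ψ (fun s => P (cay z₀ s)) 0 := by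
      rw [h.Psi_zero hP]
      exact hz₀
    refine circle_null (L := Real.log (len Ψ (fun s => P (cay z₀ s)) 0) -
      C * (A + 1) ^ 2 * t ^ 2) (hw.cv.mono hss) fun δ hδ _ => ?_
    have h1 := hw.mean_far (A := A + 1) h.hC ht0 ht1 (fun z hz => by
      have := (le_abs_self _).trans (hA z (ball_subset_closedBall hz))
      linarith) hδ hv0
    linarith
  -- on balls
  have hball : ∀ k : ℕ, volume (N ∩ ball z₀ k) = 0 := by
    intro k
    set s : ℝ := Real.tanh ((k : ℝ) / 2) with hs
    have hs1 : s < 1 := Real.tanh_lt_one _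
    have hF : Measurable (N.indicator fun _ => (1 : ℝ≥0∞)) := measurable_const.indicator hNm
    have h1 := lintegral_ball hF z₀ k
    have h2 : ∫⁻ w in ball z₀ (k : ℝ), N.indicator (fun _ => (1 : ℝ≥0∞)) w =
        volume (N ∩ ball z₀ k) := by
      rw [lintegral_indicator_const hNm, one_mul, Measure.restrict_apply hNm]
    have hm4 : Measurable fun ζ : ℂ => N.indicator (fun _ => (1 : ℝ≥0∞)) (cayH z₀ ζ) * dens ζ :=
      (hF.comp (measurable_cayH z₀)).mul measurable_dens
    rw [← h2, h1, lintegral_polar hm4, ← hs]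
    refine (setLIntegral_congr_fun (g := fun _ => 0) measurableSet_Ioo fun t ht => ?_).trans
      (by simp)
    have ht1 : t < 1 := ht.2.trans hs1
    have h3 : ∫⁻ θ in Ioo (-Real.pi) Real.pi, N.indicator (fun _ => (1 : ℝ≥0∞))
        (cayH z₀ (circleMap 0 t θ)) * dens (circleMap 0 t θ) = 0 := by
      have hmz : Measurable fun θ : ℝ => N.indicator (fun _ => (1 : ℝ≥0∞))
          (cayH z₀ (circleMap 0 t θ)) * dens (circleMap 0 t θ) :=
        hm4.comp (continuous_circleMap 0 t).measurable
      rw [lintegral_eq_zero_iff hmz, EventuallyEq, ae_restrict_iff' measurableSet_Ioo, ae_iff]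
      refine measure_mono_null (fun θ hθ => ?_) (hcirc t ht.1 ht1)
      simp only [mem_ofPred_eq, Classical.not_imp, Pi.zero_apply] at hθ
      obtain ⟨hθ1, hθ2⟩ := hθ
      refine ⟨?_, hθ1⟩
      have hζ : circleMap 0 t θ ∈ ball (0 : ℂ) 1 := by
        rw [mem_ball_zero_iff, norm_circleMap_zero, abs_of_pos ht.1]
        exact ht1
      by_contra hne
      apply hθ2
      rw [indicator_of_notMem, zero_mul]
      intro hmem
      have e1 : hl a Ψ P (cayH z₀ (circleMap 0 t θ)) = 0 := hmem
      rw [← h.Psi_cay hP z₀ hζ] at e1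
      rcases mul_eq_zero.1 e1 with e2 | e2
      · exact hne e2
      · have := normSq_lt hζ
        exact absurd e2 (by positivity)
    rw [h3, mul_zero]
  have hun : N = ⋃ k : ℕ, N ∩ ball z₀ k := by
    ext z
    simp only [mem_iUnion, mem_inter_iff, mem_ball]
    constructor
    · intro hz
      obtain ⟨k, hk⟩ := exists_nat_gt (dist z z₀)
      exact ⟨k, hz, hk⟩
    · rintro ⟨k, hz, -⟩
      exact hz
  rw [hun]
  exact measure_iUnion_null hball

end Pool.Agent.H33
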