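import Pool.Agent.H33.MG

/-! The bound of the area. -/

set_option autoImplicit false

open Filter Topology Metric Set MvPolynomial MeasureTheory
open scoped UpperHalfPlane MatrixGroups ENNReal

namespace Pool.Agent.H33

open Pool.Agent.Y190.OP Pool.Agent.W602.GT Pool.Agent.N155 Pool.Agent.N155.BB
open Real (circleAverage)

variable {n : ℕ} {ι : Type} {F : ι → MvPolynomial (Fin (n + 1)) ℂ} {d : ℕ}
  {Φ Ψ : (Fin (n + 1) → ℂ) → (Fin (n + 1) → ℂ) → ℝ} {P : ℂ → Mat (n + 1)} {a : ℕ}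
  {C κ ε q M : ℝ} {Γ : Subgroup SL(2, ℝ)} {D : Set ℍ}

/-- the lower bound of the curvature term -/
noncomputable def cutf (κ δ η : ℝ) (U w : ℍ → ℝ) (z : ℍ) : ℝ :=
  if δ ≤ w z then κ * max (U z - η) 0 ^ 2 else 0

theorem cutf_meas {U w : ℍ → ℝ} (hU : Continuous U) (hw : Continuous w) (κ δ η : ℝ) :
    Measurable (cutf κ δ η U w) := by
  have h1 : Continuous fun z => κ * max (U z - η) 0 ^ 2 := by fun_prop
  unfold cutf
  exact Measurable.ite (isClosed_le continuous_const hw).measurableSet h1.measurable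
    measurable_const

theorem kOf_nonneg (h : Dat F d Φ Ψ a C κ ε q M) : 0 ≤ kOf a C κ ε q M := by
  have h1 := h.hC
  have h2 := h.hκ
  unfold kOf
  positivity

/-- the inequality with a cutoff -/
theorem Dat.cut (h : Dat F d Φ Ψ a C κ ε q M) (hD : CompactDomain Γ D) (hP : PD F upper P)
    (hinv : ∀ γ ∈ Γ, ∀ z : ℍ, P (γ • z : ℍ) = P z) {δ η : ℝ} (hδ : 0 < δ) (hη : 0 < η)
    (hη1 : η ≤ 1) :
    ∫⁻ z in D, ENNReal.ofReal (cutf κ δ η (hl 1 Φ P) (hl a Ψ P) z) ≤
      ENNReal.ofReal (kOf a C κ ε q M) * volume D := by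
  obtain ⟨r, hr, hΓ⟩ := hD.cocompact
  set U : ℍ → ℝ := hl 1 Φ P with hU
  set w : ℍ → ℝ := hl a Ψ P with hw
  have hUc : Continuous U := h.contPhi hP
  have hwc : Continuous w := h.contPsi hP
  have hUi : ∀ γ ∈ Γ, ∀ z : ℍ, U (γ • z) = U z := fun γ hγ z => h.invPhi hP (hinv γ hγ) z
  have hwi : ∀ γ ∈ Γ, ∀ z : ℍ, w (γ • z) = w z := fun γ hγ z => h.invPsi hP (hinv γ hγ) z
  have hε := h.hε
  have hκ := h.hκ
  obtain ⟨ρ₁, hρ₁, h1⟩ := unif_of_cocompact hΓ hUc hUi hη
  have hGc : Continuous fun z => ε * U z ^ a - w z := by fun_prop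
  obtain ⟨ρ₂, hρ₂, h2⟩ := unif_of_cocompact hΓ hGc (fun γ hγ z => by
      rw [hUi γ hγ z, hwi γ hγ z]) (show 0 < ε / 2 by positivity)
  set ρ : ℝ := min (min ρ₁ ρ₂) (1 / 2) with hρ
  have hρ0 : 0 < ρ := by positivity
  have hρ1 : ρ ≤ ρ₁ := (min_le_left _ _).trans (min_le_left _ _)
  have hρ2 : ρ ≤ ρ₂ := (min_le_left _ _).trans (min_le_right _ _)
  have hρ3 : ρ ≤ 1 / 2 := min_le_right _ _
  have hs0 : 0 ≤ Real.tanh (ρ / 2) := tanh_nonneg' (by positivity)
  have hs1 : Real.tanh (ρ / 2) ≤ 1 / 2 := by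
    have := tanh_le (show 0 ≤ ρ / 2 by positivity)
    linarith
  have hs2 : Real.tanh (ρ / 2) ^ 2 ≤ 1 / 2 := by nlinarith
  have hp : ∀ x : ℝ, 0 < max x δ := fun x => hδ.trans_le (le_max_right _ _)
  obtain ⟨Bw, hBw⟩ := bdd_of_cocompact hΓ hwc hwi
  set W : ℍ → ℝ := fun z => Real.log (max (w z) δ) - Real.log δ with hW
  have hlc : Continuous fun z : ℍ => Real.log (max (w z) δ) :=
    (hwc.max continuous_const).log fun z => (hp _).ne'
  have hWc : Continuous W := hlc.sub continuous_const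
  have hW0 : ∀ z, 0 ≤ W z := fun z => sub_nonneg.2 (Real.log_le_log hδ (le_max_right _ _))
  have hWB : ∀ z, W z ≤ Real.log (max Bw δ) - Real.log δ := fun z => by
    have := Real.log_le_log (hp _) (max_le_max (hBw z) (le_refl δ))
    rw [hW]
    simp only
    linarith
  have hcm : Measurable (cutf κ δ η U w) := cutf_meas hUc hwc κ δ η
  refine avg_ineq hD hρ0 hWc hW0 hWB (fun γ hγ z => by
    rw [hW]
    simp only
    rw [hwi γ hγ z]) hcm (fun z => ?_) (kOf_nonneg h) fun z t ht => ?_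
  · unfold cutf
    split_ifs
    · positivity
    · exact le_rfl
  · have ht1 : t < 1 := ht.2.trans (Real.tanh_lt_one _)
    have hsph : sphere (0 : ℂ) |t| ⊆ ball 0 1 := fun ζ hζ => by
      rw [mem_sphere_zero_iff_norm, abs_of_pos ht.1] at hζ
      rw [mem_ball_zero_iff, hζ]
      exact ht1
    have hli : CircleIntegrable (fun ζ => Real.log (max (w (cayH z ζ)) δ)) 0 t :=
      (hlc.comp_continuousOn ((continuousOn_cayH z).mono hsph)).circleIntegrable'
    have hWi : CircleIntegrable (fun ζ => W (cayH z ζ)) 0 t :=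
      (hWc.comp_continuousOn ((continuousOn_cayH z).mono hsph)).circleIntegrable'
    by_cases hz : δ ≤ w z
    · have e1 := h.main_ineq hP hη1 hs2 (fun z w hzw => h1 z w (hzw.trans_le hρ1))
        (fun z w' hzw hz1 hz2 => by
          have f1 := abs_lt.1 (h2 z w' (hzw.trans_le hρ2))
          have f2 : 1 ≤ U z ^ a := one_le_pow₀ hz1
          have f3 : w z ≤ ε / 2 * U z ^ a := hz2
          change w w' < ε * U w' ^ a
          nlinarith) hδ hz ht
      have e2 : circleAverage (fun ζ => W (cayH z ζ)) 0 t =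
          circleAverage (fun ζ => Real.log (max (w (cayH z ζ)) δ)) 0 t - Real.log δ := by
        have f1 := Real.circleAverage_add hli (circleIntegrable_const (-Real.log δ) 0 t)
        rw [Real.circleAverage_const] at f1
        have f2 : (fun ζ => W (cayH z ζ)) =
            (fun ζ => Real.log (max (w (cayH z ζ)) δ)) + fun _ => -Real.log δ := by
          funext ζ
          rw [hW]
          simp only [Pi.add_apply]
          ring
        rw [f2, f1]
        ring
      have e3 : W z = Real.log (w z) - Real.log δ := by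
        rw [hW]
        simp only
        rw [max_eq_left hz]
      have e4 : cutf κ δ η U w z = κ * max (U z - η) 0 ^ 2 := by
        unfold cutf
        rw [if_pos hz]
      rw [e2, e3, e4]
      linarith
    · have e3 : W z = 0 := by
        rw [hW]
        simp only
        rw [max_eq_right (not_le.1 hz).le, sub_self]
      have e4 : cutf κ δ η U w z = 0 := by
        unfold cutf
        rw [if_neg hz]
      have e5 := Real.circleAverage_mono (circleIntegrable_const (0 : ℝ) 0 t) hWi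
        fun ζ _ => hW0 _
      rw [Real.circleAverage_const] at e5
      have e6 : 0 ≤ t ^ 2 * kOf a C κ ε q M := mul_nonneg (sq_nonneg _) (kOf_nonneg h)
      rw [e3, e4, mul_zero, add_zero]
      linarith

/-- **The bound of the area.** -/
theorem Dat.area_le (h : Dat F d Φ Ψ a C κ ε q M) (hD : CompactDomain Γ D) (hP : PD F upper P)
    (hinv : ∀ γ ∈ Γ, ∀ z : ℍ, P (γ • z : ℍ) = P z) (hpos : ∃ z : ℍ, 0 < hl a Ψ P z) :
    ∫⁻ z in D, ENNReal.ofReal (κ * hl 1 Φ P z ^ 2) ≤
      ENNReal.ofReal (kOf a C κ ε q M) * volume D := by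
  have hκ := h.hκ
  have hUc : Continuous (hl 1 Φ P) := h.contPhi hP
  have hwc : Continuous (hl a Ψ P) := h.contPsi hP
  have hcm : ∀ δ η : ℝ, Measurable (cutf κ δ η (hl 1 Φ P) (hl a Ψ P)) := fun δ η =>
    cutf_meas hUc hwc κ δ η
  set s : ℕ → ℝ := fun k => 1 / ((k : ℝ) + 1) with hs
  have hs0 : ∀ k, 0 < s k := fun k => by
    rw [hs]
    positivity
  have hs1 : ∀ k, s k ≤ 1 := fun k => by
    rw [hs]
    simp only
    rw [div_le_one (by positivity)]
    have : (0 : ℝ) ≤ k := Nat.cast_nonneg k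
    linarith
  have hlim : Tendsto s atTop (𝓝 0) := tendsto_one_div_add_atTop_nhds_zero_nat
  have hfat : ∫⁻ z in D, liminf (fun k =>
        ENNReal.ofReal (cutf κ (s k) (s k) (hl 1 Φ P) (hl a Ψ P) z)) atTop ≤
      liminf (fun k => ∫⁻ z in D,
        ENNReal.ofReal (cutf κ (s k) (s k) (hl 1 Φ P) (hl a Ψ P) z)) atTop :=
    lintegral_liminf_le fun k => (hcm _ _).ennreal_ofReal
  have hptw : ∀ z : ℍ, 0 < hl a Ψ P z → ENNReal.ofReal (κ * hl 1 Φ P z ^ 2) ≤
      liminf (fun k => ENNReal.ofReal (cutf κ (s k) (s k) (hl 1 Φ P) (hl a Ψ P) z)) atTop := by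
    intro z hz
    have hU0 := h.nonnegPhi hP z
    have h1 : Tendsto (fun k => κ * max (hl 1 Φ P z - s k) 0 ^ 2) atTop
        (𝓝 (κ * max (hl 1 Φ P z - 0) 0 ^ 2)) :=
      (((tendsto_const_nhds.sub hlim).max tendsto_const_nhds).pow 2).const_mul κ
    rw [sub_zero, max_eq_left hU0] at h1
    have h2 : Tendsto (fun k => cutf κ (s k) (s k) (hl 1 Φ P) (hl a Ψ P) z) atTop
        (𝓝 (κ * hl 1 Φ P z ^ 2)) := by
      refine h1.congr' ?_
      filter_upwards [hlim.eventually (Iic_mem_nhds hz)] with k hk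
      unfold cutf
      rw [if_pos hk]
    exact ((ENNReal.continuous_ofReal.tendsto _).comp h2).liminf_eq.ge
  have hae : ∀ᵐ z ∂(volume.restrict D), 0 < hl a Ψ P z := by
    apply ae_restrict_of_ae
    rw [ae_iff]
    refine measure_mono_null (fun z hz => ?_) (h.null hP hpos)
    exact le_antisymm (not_lt.1 hz) (h.nonnegPsi hP z)
  calc ∫⁻ z in D, ENNReal.ofReal (κ * hl 1 Φ P z ^ 2)
      ≤ ∫⁻ z in D, liminf (fun k =>
          ENNReal.ofReal (cutf κ (s k) (s k) (hl 1 Φ P) (hl a Ψ P) z)) atTop :=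
        lintegral_mono_ae (hae.mono hptw)
    _ ≤ liminf (fun k => ∫⁻ z in D,
          ENNReal.ofReal (cutf κ (s k) (s k) (hl 1 Φ P) (hl a Ψ P) z)) atTop := hfat
    _ ≤ liminf (fun _ : ℕ => ENNReal.ofReal (kOf a C κ ε q M) * volume D) atTop :=
        liminf_le_liminf (Eventually.of_forall fun k =>
          h.cut hD hP hinv (hs0 k) (hs0 k) (hs1 k))
    _ = _ := liminf_const _

end Pool.Agent.H33
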