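import Pool.Agent.H33.MH
import Pool.Agent.H33.LE
import Pool.Graph.R_pool_sql_team_seeded_63374d34.N155.G.FinG

/-! The linear bound of the degree. -/

set_option autoImplicit false

open Filter Topology Metric Set MvPolynomial MeasureTheory LinearAlgebra.Projectivization
open scoped UpperHalfPlane MatrixGroups ENNReal

namespace Pool.Agent.H33

open Pool.Agent.Y190.OP Pool.Agent.W602.GT Pool.Agent.N155 Pool.Agent.N155.BB

variable {n : ℕ} {ι : Type} {F : ι → MvPolynomial (Fin (n + 1)) ℂ} {d : ℕ}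
  {κ : Type} {η : κ → (Fin (n + 1) → ℂ) → (Fin (n + 1) → ℂ) → (Fin (n + 1) → ℂ) → ℂ}
  {Φ : (Fin (n + 1) → ℂ) → (Fin (n + 1) → ℂ) → ℝ} {ν : ℕ}

/-- the two metrics -/
theorem speedSq_le (n : ℕ) : ∃ A : ℝ, 0 < A ∧ ∀ (f : ℍ → ℙ ℂ (Fin (n + 1) → ℂ)) (z : ℍ),
    speedSq f z ≤ (z.im * (A * ‖fderiv ℝ (mapH f) z‖)) ^ 2 := by
  obtain ⟨A, hA, h⟩ := Pool.Agent.N155.GD.wedge_fderivOn n
  refine ⟨A, hA, fun f z => ?_⟩
  unfold speedSq
  refine Real.sSup_le ?_ (sq_nonneg _)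
  rintro e ⟨V, g, hV, hzV, hg, hfg, rfl⟩
  have h1 := (h (fun w => f (UpperHalfPlane.ofComplex w)) (V ∩ upper) g (hV.inter isOpen_upper)
    (hg.mono inter_subset_left) (fun w hw => by
      obtain ⟨h0, he⟩ := hfg ⟨w, hw.2⟩ hw.1
      refine ⟨h0, ?_⟩
      rw [UpperHalfPlane.ofComplex_apply_of_im_pos hw.2]
      exact he) z ⟨hzV, coe_upper z⟩).2
  have hg0 : g z ≠ 0 := (hfg z hzV).1
  have hS : 0 < ∑ k, ‖g z k‖ ^ 2 := BB.sum_pos hg0
  have h2 : wedge (g z) (deriv g z) / ∑ k, ‖g z k‖ ^ 2 ≤ A * ‖fderiv ℝ (mapH f) z‖ := by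
    rw [div_le_iff₀ hS]
    exact h1
  have h3 : 0 ≤ wedge (g z) (deriv g z) / ∑ k, ‖g z k‖ ^ 2 := div_nonneg (wedge_nonneg _ _) hS.le
  have h4 := z.im_pos
  exact pow_le_pow_left₀ (by positivity) (mul_le_mul_of_nonneg_left h2 h4.le) 2

/-- **The linear bound of the degree.** -/
theorem alg_hyp [Finite κ] (hX : ProjManifold F d) (hη : PositiveTwoForms (Cone F) ∅ d η)
    (hν : ν ≠ 0) (hh : HomForms (Cone F) ν η) (hΦ : NonposMetric (Cone F) d Φ)
    (hnd : Nondegenerate (Cone F) d Φ)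
    (hr : HermitianMetric (Cone F) d Φ ∨ UniformlyConvex (Cone F) d Φ) :
    ∃ S : Finset (ℂ → ℙ ℂ (Fin (n + 1) → ℂ)),
      (∀ h ∈ S, HolIn F h ∧ DoublyPeriodic h ∧ HasSpeed Φ 1 h ∧ ∃ z w, h z ≠ h w) ∧
      (∀ f, HolIn F f → (∃ z w, f z ≠ f w) → ∀ z, ∃ h ∈ S, ∃ w, f z = h w) ∧
      (∃ α : ℝ, ∀ (Γ : Subgroup SL(2, ℝ)) (D : Set ℍ), CompactDomain Γ D →
        ∀ f : ℍ → ℙ ℂ (Fin (n + 1) → ℂ), HolH (Cone F) f →
        (∀ γ ∈ Γ, ∀ z, f (γ • z) = f z) → (∃ z, ∀ h ∈ S, ∀ w, f z ≠ h w) →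
        degree f D ≤ ENNReal.ofReal α * volume D) ∧
      (2 ≤ d → ∀ x ∈ Cone F, ∃ E : MvPolynomial (Fin (n + 1)) ℂ, IsForm E ∧
        (¬ ∀ᶠ y in 𝓝[Cone F] x, eval y E = 0) ∧ ∀ h ∈ S, ∀ z, eval (h z).rep E = 0) := by
  have := Fintype.ofFinite κ
  have hcx : UniformlyConvex (Cone F) d Φ := hr.elim (fun h => h.uniform hnd) id
  have h : Hyp F d Φ η ν := ⟨hX, hη, hΦ, hnd, uniq_of_convex hX hΦ hcx, hν, hh⟩
  obtain ⟨S, h1, h2, h3, h4⟩ := exists_curves h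
  obtain ⟨Ψ, a, C, κ', ε, q, M, hD⟩ := exists_dat h
  obtain ⟨c0, hc0, hcJ⟩ := jd_le hX hΦ hnd
  obtain ⟨c1, C1, hc1, hC1, hcC1⟩ := len_le_ge hX hΦ hnd
  obtain ⟨A, hA, hsp⟩ := speedSq_le n
  refine ⟨S, fun k hk => ⟨(h1 k hk).1, (h1 k hk).2.1, (h1 k hk).2.2, ?_⟩, fun f hf hne z => ?_, ?_,
    h4⟩
  · by_contra hcon
    push Not at hcon
    have hin := (h1 k hk).1
    have e1 := (hasSpeed_iff hX hΦ.twist hin).1 (h1 k hk).2.2 0
    have e2 : (fun z => Phi (k z).rep) = fun _ => Phi (k 0).rep :=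
      funext fun z => by rw [hcon z 0]
    have e3 := (hcC1 _ (holP_of_map hin.1) (fun z => mem_TF (hin.2 z)) 0).2
    rw [e1, e2] at e3
    simp at e3
    linarith
  · obtain ⟨k, hk, φ, -, hφ⟩ := h3 f hf hne
    exact ⟨k, hk, φ z, hφ z⟩
  have hκ := hD.hκ
  set c : ℝ := (A / (2 * c0)) ^ 2 / κ' with hc
  have hc' : 0 ≤ c := by positivity
  refine ⟨c * kOf a C κ' ε q M / Real.pi, fun Γ D hΓD f hf hinv hne => ?_⟩
  obtain ⟨z₁, hz₁⟩ := hne
  have hK := kOf_nonneg hD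
  have key : ∫⁻ z in D, ENNReal.ofReal (speedSq f z) ≤
      ENNReal.ofReal (c * kOf a C κ' ε q M) * volume D := by
    by_cases hcst : ∃ w₁ : ℍ, mapH f w₁ ≠ mapH f z₁
    · obtain ⟨w₁, hw₁⟩ := hcst
      have hpos := hD.exists_pos (S := (S : Set (ℂ → ℙ ℂ (Fin (n + 1) → ℂ)))) S.finite_toSet
        (fun k hk => (h1 k hk).1) (fun k hk => (h1 k hk).2.1) h2 hf.pd (coe_upper z₁)
        (coe_upper w₁) hw₁ (fun k hk s hs => by
          rw [mapH_coe] at hs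
          exact hz₁ k hk s (proj_ext hs))
      have hal := hD.area_le hΓD hf.pd (mapH_inv hinv) hpos
      have e1 : ∀ z : ℍ, ENNReal.ofReal (speedSq f z) ≤
          ENNReal.ofReal c * ENNReal.ofReal (κ' * hl 1 Φ (mapH f) z ^ 2) := by
        intro z
        rw [← ENNReal.ofReal_mul hc']
        apply ENNReal.ofReal_le_ofReal
        refine (hsp f z).trans ?_
        have f1 := hf.pd.fd_le hX hΦ hcJ (coe_upper z)
        have f2 : ‖fderiv ℝ (mapH f) z‖ ≤ len Φ (mapH f) z / c0 := by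
          rw [le_div_iff₀ hc0, mul_comm]
          exact f1
        have f3 := z.im_pos
        have f4 : c * (κ' * hl 1 Φ (mapH f) z ^ 2) =
            (z.im * (A * (len Φ (mapH f) z / c0))) ^ 2 := by
          rw [hc]
          unfold hl
          field_simp
        rw [f4]
        exact pow_le_pow_left₀ (by positivity)
          (mul_le_mul_of_nonneg_left (mul_le_mul_of_nonneg_left f2 hA.le) f3.le) 2
      calc ∫⁻ z in D, ENNReal.ofReal (speedSq f z)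
          ≤ ∫⁻ z in D, ENNReal.ofReal c * ENNReal.ofReal (κ' * hl 1 Φ (mapH f) z ^ 2) :=
            lintegral_mono fun z => e1 z
        _ = ENNReal.ofReal c * ∫⁻ z in D, ENNReal.ofReal (κ' * hl 1 Φ (mapH f) z ^ 2) :=
            lintegral_const_mul' _ _ ENNReal.ofReal_ne_top
        _ ≤ ENNReal.ofReal c * (ENNReal.ofReal (kOf a C κ' ε q M) * volume D) :=
            mul_le_mul_right hal _
        _ = _ := by rw [ENNReal.ofReal_mul hc', mul_assoc]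
    · push Not at hcst
      have e1 : ∀ z : ℍ, ENNReal.ofReal (speedSq f z) = 0 := by
        intro z
        rw [ENNReal.ofReal_eq_zero]
        refine (hsp f z).trans ?_
        have f1 : mapH f =ᶠ[𝓝 (z : ℂ)] fun _ => mapH f z₁ := by
          filter_upwards [isOpen_upper.mem_nhds (coe_upper z)] with w hw
          exact hcst ⟨w, hw⟩
        rw [f1.fderiv_eq]
        simp
      simp only [e1, lintegral_zero]
      exact zero_le
  unfold degree
  have hpi := Real.pi_pos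
  rw [ENNReal.div_le_iff (ENNReal.ofReal_pos.2 hpi).ne' ENNReal.ofReal_ne_top]
  refine key.trans (le_of_eq ?_)
  rw [mul_right_comm, ← ENNReal.ofReal_mul (by positivity), div_mul_cancel₀ _ hpi.ne']

end Pool.Agent.H33
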