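import Pool.Agent.H33.LC

/-! Elementary inequalities for functions on discs and half planes. -/

set_option autoImplicit false

open Filter Topology Metric Set

namespace Pool.Agent.H33

open Real (circleAverage)

variable {a : ℕ} {C κ ε : ℝ} {u v : ℂ → ℝ}

/-- the Ahlfors-Schwarz lemma at the origin -/
theorem WOn.ahlfors_low (h : WOn (ball 0 1) a C κ ε u v) (hκ : 0 < κ) (hε : 0 < ε)
    {q₀ q M r : ℝ} (hr0 : 0 < r) (hr : r < 1) (hq₀ : 0 < q₀) (hq : 0 < q) (haq : a * q < 1)
    (hM : ∀ z ∈ ball (0 : ℂ) 1, u z ^ (1 - a * q₀) * v z ^ q₀ * (1 - ‖z‖ ^ 2) ≤ M) :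
    u 0 ^ (1 - a * q) * v 0 ^ q * r ^ 2 ≤ max (4 / √(q * κ)) (M * ε ^ (-q₀)) := by
  have hrD : closedBall (0 : ℂ) r ⊆ ball 0 1 := closedBall_subset_ball hr
  set p : ℝ := 1 - a * q with hp
  have hp0 : 0 < p := by linarith
  set f : ℂ → ℝ := fun z => u z ^ p * v z ^ q * (r ^ 2 - ‖z‖ ^ 2) with hf
  have hfc : ContinuousOn f (closedBall 0 r) := by
    rw [hf]
    have h1 := (h.cu.mono hrD).rpow_const fun _ _ => Or.inr hp0.le
    have h2 := (h.cv.mono hrD).rpow_const fun _ _ => Or.inr hq.le
    exact (h1.mul h2).mul (by fun_prop)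
  obtain ⟨z₀, hz₀, hmx0⟩ := (isCompact_closedBall (0 : ℂ) r).exists_isMaxOn
    ⟨0, mem_closedBall_self hr0.le⟩ hfc
  have hmx : ∀ z ∈ closedBall (0 : ℂ) r, f z ≤ f z₀ := fun z hz => hmx0 hz
  have hKpos : (0 : ℝ) < max (4 / √(q * κ)) (M * ε ^ (-q₀)) :=
    lt_max_of_lt_left (by positivity)
  have hf00 : u 0 ^ p * v 0 ^ q * r ^ 2 = f 0 := by
    rw [hf]
    simp
  rw [hf00]
  refine (hmx 0 (mem_closedBall_self hr0.le)).trans ?_
  by_cases hf0 : f z₀ ≤ 0
  · exact hf0.trans hKpos.le
  push Not at hf0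
  have hz₀D := hrD hz₀
  have hun := Real.rpow_nonneg (h.u0 z₀ hz₀D) p
  have hvn := Real.rpow_nonneg (h.v0 z₀ hz₀D) q
  have hP : 0 < r ^ 2 - ‖z₀‖ ^ 2 := by
    by_contra hcon
    push Not at hcon
    have : f z₀ ≤ 0 := mul_nonpos_of_nonneg_of_nonpos (mul_nonneg hun hvn) hcon
    linarith
  have hu : 0 < u z₀ := by
    rcases (h.u0 z₀ hz₀D).eq_or_lt with h1 | h1
    · exfalso
      have : f z₀ = 0 := by
        rw [hf]
        simp only
        rw [← h1, Real.zero_rpow hp0.ne', zero_mul, zero_mul]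
      linarith
    · exact h1
  have hv : 0 < v z₀ := by
    rcases (h.v0 z₀ hz₀D).eq_or_lt with h1 | h1
    · exfalso
      have : f z₀ = 0 := by
        rw [hf]
        simp only
        rw [← h1, Real.zero_rpow hq.ne', mul_zero, zero_mul]
      linarith
    · exact h1
  have hz₀r : ‖z₀‖ < r := by
    by_contra hcon
    push Not at hcon
    have := pow_le_pow_left₀ hr0.le hcon 2
    linarith
  set P : ℝ := r ^ 2 - ‖z₀‖ ^ 2 with hPdef
  have hP1 : P ≤ 1 - ‖z₀‖ ^ 2 := by
    have : r ^ 2 ≤ 1 := pow_le_one₀ hr0.le hr.le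
    linarith
  have hx : u z₀ * P ≤ max (4 / √(q * κ)) (M * ε ^ (-q₀)) := by
    rcases le_or_gt (ε * u z₀ ^ a) (v z₀) with hfar | hnear
    · refine le_max_of_le_right ?_
      have hPp : 0 < 1 - ‖z₀‖ ^ 2 := hP.trans_le hP1
      have h1 := far_bound_p hε hq₀ hu hPp hfar (hM z₀ hz₀D)
      exact (mul_le_mul_of_nonneg_left hP1 hu.le).trans h1
    · refine le_max_of_le_left ?_
      by_contra hcon
      push Not at hcon
      have h1 : 4 / √(q * κ) / P < u z₀ := by
        rw [div_lt_iff₀ hP]
        exact hcon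
      obtain ⟨A, hA1, hA2⟩ := exists_between h1
      have hA0 : 0 < A := lt_trans (by positivity) hA1
      obtain ⟨V1, hV1, hzV1, hs1⟩ := h.sub z₀ hz₀D
      obtain ⟨V2, hV2, hzV2, hs2⟩ := h.near z₀ hz₀D A hA0.le (Or.inl hA2) hnear
      have hcu0 : ContinuousAt u z₀ := h.cu.continuousAt (h.op.mem_nhds hz₀D)
      have hcv0 : ContinuousAt v z₀ := h.cv.continuousAt (h.op.mem_nhds hz₀D)
      have hev : ∀ᶠ z in 𝓝 z₀, (z ∈ V1 ∧ z ∈ V2) ∧ (0 < u z ∧ 0 < v z) ∧ z ∈ ball (0 : ℂ) r := by
        filter_upwards [hV1.mem_nhds hzV1, hV2.mem_nhds hzV2, hcu0.eventually (lt_mem_nhds hu),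
          hcv0.eventually (lt_mem_nhds hv),
          isOpen_ball.mem_nhds (mem_ball_zero_iff.2 hz₀r : z₀ ∈ ball (0 : ℂ) r)]
          with z h1 h2 h3 h4 h5
        exact ⟨⟨h1, h2⟩, ⟨h3, h4⟩, h5⟩
      obtain ⟨ρ₀, hρ₀, hρb⟩ := Metric.eventually_nhds_iff_ball.1 hev
      obtain ⟨ρ, hρ1, hρ2⟩ := exists_between (lt_min hρ₀ (show 0 < P / (4 * r) by positivity))
      have hρ3 : ρ < ρ₀ := hρ2.trans_le (min_le_left _ _)
      have hρ4 : ρ < P / (4 * r) := hρ2.trans_le (min_le_right _ _)
      have hsub : ∀ z ∈ closedBall z₀ ρ, (z ∈ V1 ∧ z ∈ V2) ∧ (0 < u z ∧ 0 < v z) ∧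
          z ∈ ball (0 : ℂ) r := fun z hz => hρb z (closedBall_subset_ball hρ3 hz)
      have h2 := touch (κ := κ) (p := p) (q := q) (A := A) (r := r) hp0.le hq
        (hs1.mono (W := V1 ∩ V2) fun z hz => hz.1)
        (hs2.mono fun z hz => hz.2) hρ1 (fun z hz => (hsub z hz).1) (fun z hz => (hsub z hz).2.2)
        (by
          rw [lt_div_iff₀ (by positivity)] at hρ4
          linarith) (fun z hz => (hsub z hz).2.1)
        (fun z hz => hmx z (ball_subset_closedBall (hsub z hz).2.2))
      rw [div_div, div_lt_iff₀ (by positivity)] at hA1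
      have h3 : 4 < A * P * √(q * κ) := by linarith
      have h4 := pow_lt_pow_left₀ h3 (by positivity) two_ne_zero
      have h5 : (A * P * √(q * κ)) ^ 2 = q * κ * A ^ 2 * P ^ 2 := by
        rw [mul_pow, Real.sq_sqrt (by positivity)]
        ring
      rw [h5] at h4
      have h6 : r ^ 2 ≤ 1 := pow_le_one₀ hr0.le hr.le
      linarith
  refine le_trans ?_ hx
  have h1 : v z₀ ^ q ≤ u z₀ ^ (a * q) := by
    rw [Real.rpow_mul hu.le, Real.rpow_natCast]
    exact Real.rpow_le_rpow hv.le (h.le z₀ hz₀D) hq.le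
  have h2 : u z₀ ^ p * u z₀ ^ (a * q) = u z₀ := by
    rw [← Real.rpow_add hu, hp]
    simp
  calc f z₀ = u z₀ ^ p * v z₀ ^ q * P := rfl
    _ ≤ u z₀ ^ p * u z₀ ^ (a * q) * P :=
      mul_le_mul_of_nonneg_right (mul_le_mul_of_nonneg_left h1 hun) hP.le
    _ = u z₀ * P := by rw [h2]

/-- a lower form of Harnack's inequality -/
theorem mean_le_of_sub {v : ℂ → ℝ} {R B : ℝ} (hR : 0 < R) (hv : ContinuousOn v (closedBall 0 R))
    (hs : ∀ a ∈ ball (0 : ℂ) R, SubAt v a) (hB : ∀ z ∈ sphere (0 : ℂ) R, v z ≤ B) {w : ℂ}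
    (hw : w ∈ ball (0 : ℂ) R) :
    circleAverage (fun z => B - v z) 0 R ≤ (R + ‖w‖) / (R - ‖w‖) * (B - v w) := by
  have h1 := le_poi hR hv hs hw
  have hwR : ‖w‖ < R := mem_ball_zero_iff.1 hw
  have hvs : ContinuousOn v (sphere 0 |R|) := by
    rw [abs_of_pos hR]
    exact hv.mono sphere_subset_closedBall
  have hpc := poisson_cont hR hw
  have hi1 : CircleIntegrable v 0 R := hvs.circleIntegrable'
  have hi2 : CircleIntegrable (fun z => poissonKernel 0 w z * v z) 0 R :=
    (hpc.mul hvs).circleIntegrable'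
  have hi3 : CircleIntegrable (poissonKernel 0 w) 0 R := hpc.circleIntegrable'
  have hi4 : CircleIntegrable (fun z => B • poissonKernel 0 w z) 0 R := hi3.const_fun_smul
  have hi5 : CircleIntegrable (fun z => B - v z) 0 R := (circleIntegrable_const B 0 R).sub hi1
  have h2 : circleAverage (fun z => B • poissonKernel 0 w z - poissonKernel 0 w z * v z) 0 R =
      B - poi v R w := by
    rw [Real.circleAverage_fun_sub hi4 hi2, Real.circleAverage_fun_smul, poisson_one hw]
    simp [poi]
  have h3 : (R - ‖w‖) / (R + ‖w‖) * circleAverage (fun z => B - v z) 0 R =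
      circleAverage (fun z => ((R - ‖w‖) / (R + ‖w‖)) • (B - v z)) 0 R := by
    rw [Real.circleAverage_fun_smul, smul_eq_mul]
  have h4 : (R - ‖w‖) / (R + ‖w‖) * circleAverage (fun z => B - v z) 0 R ≤ B - poi v R w := by
    rw [h3, ← h2]
    apply Real.circleAverage_mono hi5.const_fun_smul (hi4.sub hi2)
    intro z hz
    rw [abs_of_pos hR] at hz
    simp only [smul_eq_mul, Pi.sub_apply]
    have h5 := congrFun (poissonKernel_eq_re_herglotzRieszKernel (c := 0) (w := w)) z
    have h6 := le_re_herglotzRieszKernel hz hw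
    rw [sub_zero] at h6
    have h7 : (R - ‖w‖) / (R + ‖w‖) ≤ poissonKernel 0 w z := by
      rw [h5]
      simpa [herglotzRieszKernel_def] using h6
    have h8 := mul_le_mul_of_nonneg_right h7 (sub_nonneg.2 (hB z hz))
    linarith
  have hn := norm_nonneg w
  have h5 : 0 < R - ‖w‖ := by linarith
  have h6 : 0 < R + ‖w‖ := by linarith
  have h7 : (R - ‖w‖) / (R + ‖w‖) * circleAverage (fun z => B - v z) 0 R ≤ B - v w := by
    linarith
  have h8 := mul_le_mul_of_nonneg_left h7 (show 0 ≤ (R + ‖w‖) / (R - ‖w‖) by positivity)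
  have h9 : (R + ‖w‖) / (R - ‖w‖) * ((R - ‖w‖) / (R + ‖w‖) *
      circleAverage (fun z => B - v z) 0 R) = circleAverage (fun z => B - v z) 0 R := by
    field_simp
  linarith

theorem log_one_add_le {x : ℝ} (h : |x| ≤ 1 / 5) : Real.log (1 + x) ≤ x - x ^ 2 / 4 := by
  have h1 := Real.abs_log_sub_add_sum_range_le (x := -x) (by
    rw [abs_neg]
    linarith) 2
  rw [Finset.sum_range_succ, Finset.sum_range_one, abs_neg, sub_neg_eq_add] at h1
  have h2 := (abs_le.1 h1).2
  have h3 : |x| ^ (2 + 1) / (1 - |x|) ≤ x ^ 2 / 4 := by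
    have h4 := abs_nonneg x
    rw [div_le_div_iff₀ (by linarith) (by norm_num), ← sq_abs x]
    have h5 : 0 ≤ |x| ^ 2 * (1 - 5 * |x|) := mul_nonneg (by positivity) (by linarith)
    have h6 : |x| ^ (2 + 1) * 4 = |x| ^ 2 * (4 * |x|) := by ring
    rw [h6]
    nlinarith
  norm_num at h2 h3
  linarith

theorem avg_im (w : ℂ) (s : ℝ) : circleAverage (fun z => (z - w).im) w s = 0 := by
  have hh : InnerProductSpace.HarmonicOnNhd (fun z : ℂ => (z - w).im) (closedBall w |s|) := by
    have h3 : (fun z : ℂ => (z - w).im) = fun z : ℂ => (-Complex.I * (z - w)).re := by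
      funext z
      simp
    rw [h3]
    intro z _
    apply AnalyticAt.harmonicAt_re
    fun_prop
  rw [hh.circleAverage_eq]
  simp

theorem avg_im_sq (w : ℂ) {s : ℝ} (hs : 0 < s) :
    circleAverage (fun z => (z - w).im ^ 2) w s = s ^ 2 / 2 := by
  have h1 : ∀ z ∈ sphere w |s|, (z - w).im ^ 2 = s ^ 2 / 2 + (-(1 / 2) * (z - w) ^ 2).re := by
    intro z hz
    rw [abs_of_pos hs, mem_sphere, dist_eq_norm] at hz
    have h2 : (z - w).re ^ 2 + (z - w).im ^ 2 = s ^ 2 := by
      rw [← hz, ← Complex.normSq_eq_norm_sq, Complex.normSq_apply]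
      ring
    have h3 : (-(1 / 2) * (z - w) ^ 2).re = -(1 / 2) * ((z - w).re ^ 2 - (z - w).im ^ 2) := by
      rw [sq (z - w), Complex.mul_re, Complex.mul_re, Complex.mul_im]
      simp
      ring
    rw [h3]
    linarith
  have hh : InnerProductSpace.HarmonicOnNhd (fun z : ℂ => s ^ 2 / 2 +
      (-(1 / 2) * (z - w) ^ 2).re) (closedBall w |s|) := by
    have h3 : (fun z : ℂ => s ^ 2 / 2 + (-(1 / 2) * (z - w) ^ 2).re) =
        fun z : ℂ => (((s ^ 2 / 2 : ℝ) : ℂ) + (-(1 / 2) * (z - w) ^ 2)).re := by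
      funext z
      rw [Complex.add_re, Complex.ofReal_re]
    rw [h3]
    intro z _
    apply AnalyticAt.harmonicAt_re
    fun_prop
  rw [Real.circleAverage_congr_sphere h1, hh.circleAverage_eq]
  simp

/-- the strict subharmonicity of minus the logarithm of the height -/
theorem mean_neg_log {Y r : ℝ} {w : ℂ} (hr : 0 < r) (hw : 5 * r ≤ Y + w.im) :
    -Real.log (Y + w.im) + r ^ 2 / (8 * (Y + w.im) ^ 2) ≤
      circleAverage (fun z => -Real.log (Y + z.im)) w r := by
  set H : ℝ := Y + w.im with hH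
  have hH0 : 0 < H := by linarith
  have hx : ∀ z ∈ sphere w |r|, |(z - w).im / H| ≤ 1 / 5 := by
    intro z hz
    rw [abs_of_pos hr, mem_sphere, dist_eq_norm] at hz
    rw [abs_div, abs_of_pos hH0, div_le_iff₀ hH0]
    have := Complex.abs_im_le_norm (z - w)
    linarith
  have hpos : ∀ z ∈ sphere w |r|, 0 < Y + z.im := by
    intro z hz
    have h1 := (abs_le.1 (hx z hz)).1
    rw [le_div_iff₀ hH0, Complex.sub_im] at h1
    linarith
  have hi1 : CircleIntegrable (fun z : ℂ => (z - w).im) w r := by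
    apply ContinuousOn.circleIntegrable'
    fun_prop
  have hi2 : CircleIntegrable (fun z : ℂ => (z - w).im ^ 2) w r := by
    apply ContinuousOn.circleIntegrable'
    fun_prop
  have hi3 : CircleIntegrable (fun z : ℂ => -Real.log (Y + z.im)) w r := by
    apply ContinuousOn.circleIntegrable'
    apply ContinuousOn.neg
    apply ContinuousOn.log (by fun_prop)
    exact fun z hz => (hpos z hz).ne'
  have hi4 : CircleIntegrable (fun z : ℂ => (-(1 / H)) • (z - w).im) w r := hi1.const_fun_smul
  have hi5 : CircleIntegrable (fun z : ℂ => (1 / (4 * H ^ 2)) • (z - w).im ^ 2) w r :=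
    hi2.const_fun_smul
  have h1 := Real.circleAverage_mono (((circleIntegrable_const (-Real.log H) w r).add hi4).add hi5)
    hi3 (by
      intro z hz
      simp only [Pi.add_apply, smul_eq_mul]
      have h2 := log_one_add_le (hx z hz)
      have h3 : Y + z.im = H * (1 + (z - w).im / H) := by
        rw [mul_add, mul_div_cancel₀ _ hH0.ne', Complex.sub_im]
        linarith
      have h4 : 0 < 1 + (z - w).im / H := by
        have := (abs_le.1 (hx z hz)).1
        linarith
      rw [h3, Real.log_mul hH0.ne' h4.ne']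
      have h5 : ((z - w).im / H) ^ 2 / 4 = 1 / (4 * H ^ 2) * (z - w).im ^ 2 := by
        field_simp
      have h6 : (z - w).im / H = 1 / H * (z - w).im := by ring
      linarith)
  rw [Real.circleAverage_add ((circleIntegrable_const (-Real.log H) w r).add hi4) hi5,
    Real.circleAverage_add (circleIntegrable_const (-Real.log H) w r) hi4,
    Real.circleAverage_fun_smul, Real.circleAverage_fun_smul, avg_im, avg_im_sq w hr,
    Real.circleAverage_const] at h1
  refine le_trans (le_of_eq ?_) h1
  rw [smul_zero, add_zero, smul_eq_mul]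
  congr 1
  field_simp
  ring

/-- multiplication with a function with subharmonic logarithm -/
theorem LogSubharmonic.mul_exp_at {u g : ℂ → ℝ} {V : Set ℂ} (h : LogSubharmonic u V) {a : ℂ}
    {r δ : ℝ} (hr : 0 < r) (hV : closedBall a r ⊆ V) (hδ : 0 < δ)
    (hgc : ContinuousOn g (closedBall a r)) (hg : g a ≤ circleAverage g a r) :
    Real.log (max (u a * Real.exp (g a)) δ) ≤
      circleAverage (fun z => Real.log (max (u z * Real.exp (g z)) δ)) a r := by
  have hss : sphere a |r| ⊆ closedBall a r := by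
    rw [abs_of_pos hr]
    exact sphere_subset_closedBall
  have hcu : ContinuousOn u (sphere a |r|) := h.cont.mono (hss.trans hV)
  have hcg : ContinuousOn g (sphere a |r|) := hgc.mono hss
  have hcont : ContinuousOn (fun z => Real.log (max (u z * Real.exp (g z)) δ))
      (sphere a |r|) := by
    apply ContinuousOn.log
    · exact (hcu.mul (Real.continuous_exp.comp_continuousOn hcg)).sup continuousOn_const
    · exact fun z _ => (hδ.trans_le (le_max_right _ _)).ne'
  have hint := hcont.circleIntegrable'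
  by_cases hle : u a * Real.exp (g a) ≤ δ
  · rw [max_eq_right hle]
    have h1 := Real.circleAverage_mono (circleIntegrable_const (Real.log δ) a r) hint (by
      intro z _
      exact Real.log_le_log hδ (le_max_right _ _))
    rwa [Real.circleAverage_const] at h1
  · push Not at hle
    have hpos : 0 < u a * Real.exp (g a) := hδ.trans hle
    have hua : 0 < u a := by
      by_contra h1
      push Not at h1
      have := mul_nonpos_of_nonpos_of_nonneg h1 (Real.exp_pos (g a)).le
      linarith
    obtain ⟨B, hB⟩ := (isCompact_closedBall a r).exists_bound_of_continuousOn hgc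
    set δ' : ℝ := δ * Real.exp (-B) with hδ'
    have hδ'0 : 0 < δ' := by positivity
    have h1 := h.mean a r δ' hr hV hδ'0
    have hcont2 : ContinuousOn (fun z => Real.log (max (u z) δ')) (sphere a |r|) := by
      apply ContinuousOn.log
      · exact hcu.sup continuousOn_const
      · exact fun z _ => (hδ'0.trans_le (le_max_right _ _)).ne'
    have hint2 := hcont2.circleIntegrable'
    have hint3 : CircleIntegrable g a r := hcg.circleIntegrable'
    have h2 := Real.circleAverage_mono (hint2.add hint3) hint (by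
      intro z hz
      have h3 : g z ≤ B := (le_abs_self _).trans (hB z (hss hz))
      have hm : 0 < max (u z) δ' := hδ'0.trans_le (le_max_right _ _)
      have h4 : Real.log (max (u z) δ') + g z =
          Real.log (max (u z) δ' * Real.exp (g z)) := by
        rw [Real.log_mul hm.ne' (Real.exp_pos _).ne', Real.log_exp]
      simp only [Pi.add_apply]
      rw [h4]
      apply Real.log_le_log (by positivity)
      rw [max_mul_of_nonneg _ _ (Real.exp_pos _).le]
      apply max_le_max le_rfl
      rw [hδ', mul_assoc, ← Real.exp_add]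
      apply mul_le_of_le_one_right hδ.le
      rw [Real.exp_le_one_iff]
      linarith)
    rw [Real.circleAverage_add hint2 hint3] at h2
    rw [max_eq_left hle.le, Real.log_mul hua.ne' (Real.exp_pos _).ne', Real.log_exp]
    have h5 : Real.log (u a) ≤ Real.log (max (u a) δ') := Real.log_le_log hua (le_max_left _ _)
    linarith

/-- the mean of the logarithm of the height -/
theorem mean_log_height {Y R : ℝ} (hR : 0 < R) (hY : R < Y) :
    Real.log (Y / 2) ≤ circleAverage (fun z => Real.log (Y + z.im)) 0 R := by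
  have hY0 : 0 < Y := hR.trans hY
  have hpos : ∀ z ∈ sphere (0 : ℂ) |R|, 0 < Y + z.im := by
    intro z hz
    rw [abs_of_pos hR, mem_sphere_zero_iff_norm] at hz
    have := (abs_le.1 (Complex.abs_im_le_norm z)).1
    linarith
  have hne : ∀ z ∈ sphere (0 : ℂ) |R|, 0 < ‖z - (-(Y * Complex.I))‖ := by
    intro z hz
    rw [abs_of_pos hR, mem_sphere_zero_iff_norm] at hz
    rw [norm_pos_iff, sub_ne_zero]
    intro h
    rw [h, norm_neg, norm_mul, Complex.norm_I, mul_one, Complex.norm_real,
      Real.norm_of_nonneg hY0.le] at hz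
    linarith
  have hi1 : CircleIntegrable (fun z : ℂ => Real.log ‖z - (-(Y * Complex.I))‖) 0 R := by
    apply ContinuousOn.circleIntegrable'
    apply ContinuousOn.log (by fun_prop)
    exact fun z hz => (hne z hz).ne'
  have hi2 : CircleIntegrable (fun z : ℂ => Real.log (Y + z.im)) 0 R := by
    apply ContinuousOn.circleIntegrable'
    apply ContinuousOn.log (by fun_prop)
    exact fun z hz => (hpos z hz).ne'
  have hi3 : CircleIntegrable (fun z : ℂ => (2 : ℝ) • Real.log ‖z - (-(Y * Complex.I))‖) 0 R :=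
    hi1.const_fun_smul
  have h1 := Real.circleAverage_mono (hi3.add (circleIntegrable_const (-Real.log (2 * Y)) 0 R)) hi2
    (by
      intro z hz
      have h2 := hne z hz
      have h3 := hpos z hz
      simp only [Pi.add_apply, smul_eq_mul]
      have h4 : ‖z - (-(Y * Complex.I))‖ ^ 2 ≤ 2 * Y * (Y + z.im) := by
        rw [abs_of_pos hR, mem_sphere_zero_iff_norm] at hz
        have h5 : z.re ^ 2 + z.im ^ 2 = R ^ 2 := by
          rw [← hz, ← Complex.normSq_eq_norm_sq, Complex.normSq_apply]
          ring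
        rw [← Complex.normSq_eq_norm_sq, Complex.normSq_apply]
        simp
        nlinarith
      have h5 := Real.log_le_log (pow_pos h2 2) h4
      rw [Real.log_pow, Real.log_mul (by positivity) h3.ne'] at h5
      push_cast at h5
      linarith)
  have h2 : circleAverage (fun z : ℂ => Real.log ‖z - (-(Y * Complex.I))‖) 0 R = Real.log Y := by
    rw [circleAverage_log_norm_sub_const_eq_log_radius_add_posLog hR.ne']
    have h3 : ‖(0 : ℂ) - (-(Y * Complex.I))‖ = Y := by
      rw [zero_sub, neg_neg, norm_mul, Complex.norm_I, mul_one, Complex.norm_real,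
        Real.norm_of_nonneg hY0.le]
    rw [h3, Real.posLog_eq_log, Real.log_mul (by positivity) hY0.ne', Real.log_inv]
    · ring
    · rw [abs_of_pos (by positivity), inv_mul_eq_div, le_div_iff₀ hR]
      linarith
  rw [Real.circleAverage_add hi3 (circleIntegrable_const _ _ _), Real.circleAverage_fun_smul, h2,
    Real.circleAverage_const, smul_eq_mul, Real.log_mul two_ne_zero hY0.ne'] at h1
  rw [Real.log_div hY0.ne' two_ne_zero]
  linarith

end Pool.Agent.H33
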