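import Pool.Agent.H33.NA

/-! The bound of the first length at large height. -/

set_option autoImplicit false

open Filter Topology Metric Set

namespace Pool.Agent.H33

open Real (circleAverage)

variable {a : ℕ} {C κ ε : ℝ} {u v : ℂ → ℝ}

/-- the weight which makes the logarithm of the second length subharmonic -/
theorem WOn.subAt_height {Y m δ : ℝ} (h : WOn {s : ℂ | 0 < Y + s.im} a C κ ε u v) (hC : 0 ≤ C)
    (hfar : ∀ s : ℂ, 0 < Y + s.im → ε * u s ^ a ≤ v s → u s * (2 * (Y + s.im)) ≤ m)
    (hδ : 0 < δ) {s₀ : ℂ} (hs₀ : 0 < Y + s₀.im) :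
    SubAt (fun s => Real.log (max (v s * Real.exp (-(2 * C * (m + 1) ^ 2 *
      Real.log (Y + s.im)))) δ)) s₀ := by
  set c : ℝ := 2 * C * (m + 1) ^ 2 with hc
  have hc0 : 0 ≤ c := by positivity
  set H : ℝ := Y + s₀.im with hH
  have key : ∀ (b : ℝ) (V : Set ℂ), 0 ≤ b → 8 * b * H ^ 2 ≤ c → IsOpen V → s₀ ∈ V →
      LogSubharmonic (fun w => v w * Real.exp (b * ‖w‖ ^ 2)) V →
      SubAt (fun s => Real.log (max (v s * Real.exp (-(c * Real.log (Y + s.im)))) δ)) s₀ := by
    intro b V hb hbc hV hs hsub
    obtain ⟨r₀, hr₀, hball⟩ := Metric.isOpen_iff.1 hV s₀ hs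
    refine ⟨min r₀ (H / 5), lt_min hr₀ (by positivity), fun r hr hrr => ?_⟩
    have hr1 : r < r₀ := hrr.trans_le (min_le_left _ _)
    have hr2 : r < H / 5 := hrr.trans_le (min_le_right _ _)
    have h1 := mean_neg_log (Y := Y) (w := s₀) hr (by linarith)
    rw [← hH] at h1
    set g : ℂ → ℝ := fun s => -(c * Real.log (Y + s.im)) - b * ‖s‖ ^ 2 with hg
    have hpos : ∀ z ∈ closedBall s₀ r, 0 < Y + z.im := by
      intro z hz
      rw [mem_closedBall, dist_eq_norm] at hz
      have h2 := (abs_le.1 (Complex.abs_im_le_norm (z - s₀))).1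
      rw [Complex.sub_im] at h2
      linarith
    have hcl : ContinuousOn (fun s : ℂ => Real.log (Y + s.im)) (closedBall s₀ r) :=
      ContinuousOn.log (by fun_prop) fun z hz => (hpos z hz).ne'
    have hcontg : ContinuousOn g (closedBall s₀ r) :=
      (continuousOn_const.mul hcl).neg.sub (by fun_prop)
    have hss : sphere s₀ |r| ⊆ closedBall s₀ r := by
      rw [abs_of_pos hr]
      exact sphere_subset_closedBall
    have hga : g s₀ ≤ circleAverage g s₀ r := by
      have hi1 : CircleIntegrable (fun s : ℂ => -Real.log (Y + s.im)) s₀ r :=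
        (hcl.neg.mono hss).circleIntegrable'
      have hi2 : CircleIntegrable (fun z : ℂ => ‖z - 0‖ ^ 2) s₀ r := by
        apply ContinuousOn.circleIntegrable'
        fun_prop
      have hi3 : CircleIntegrable (fun s : ℂ => c • (-Real.log (Y + s.im))) s₀ r :=
        hi1.const_fun_smul
      have hi4 : CircleIntegrable (fun z : ℂ => b • ‖z - 0‖ ^ 2) s₀ r := hi2.const_fun_smul
      have e1 : g = fun z => c • (-Real.log (Y + z.im)) - b • ‖z - 0‖ ^ 2 := by
        funext z
        rw [hg]
        simp only [smul_eq_mul, sub_zero]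
        ring
      have e2 : circleAverage g s₀ r = c * circleAverage (fun s : ℂ => -Real.log (Y + s.im)) s₀ r -
          b * (‖s₀‖ ^ 2 + r ^ 2) := by
        rw [e1, Real.circleAverage_fun_sub hi3 hi4, Real.circleAverage_fun_smul,
          Real.circleAverage_fun_smul, circleAverage_sq hr, sub_zero, smul_eq_mul, smul_eq_mul]
      rw [e2]
      have e3 := mul_le_mul_of_nonneg_left h1 hc0
      have e4 : b * r ^ 2 ≤ c * (r ^ 2 / (8 * H ^ 2)) := by
        rw [mul_div_assoc', le_div_iff₀ (by positivity)]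
        have := mul_le_mul_of_nonneg_right hbc (sq_nonneg r)
        linarith
      rw [mul_add] at e3
      rw [hg]
      simp only
      rw [← hH]
      linarith
    have h2 := hsub.mul_exp_at hr ((closedBall_subset_ball hr1).trans hball) hδ hcontg hga
    have e : ∀ s, v s * Real.exp (b * ‖s‖ ^ 2) * Real.exp (g s) =
        v s * Real.exp (-(c * Real.log (Y + s.im))) := by
      intro s
      rw [mul_assoc, ← Real.exp_add]
      congr 2
      rw [hg]
      ring
    simp only [e] at h2
    exact h2
  by_cases hcase : ε * u s₀ ^ a ≤ v s₀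
  · have h1 := hfar s₀ hs₀ hcase
    rw [← hH] at h1
    have h2 : u s₀ < (m + 1) / (2 * H) := by
      rw [lt_div_iff₀ (by positivity)]
      linarith
    obtain ⟨V, hV, hzV, hsV⟩ := h.far s₀ hs₀ _ h2
    refine key _ V (by positivity) (le_of_eq ?_) hV hzV hsV
    rw [hc]
    field_simp
    ring
  · push Not at hcase
    obtain ⟨V, hV, hzV, hsV⟩ := h.near s₀ hs₀ 0 le_rfl (Or.inr rfl) hcase
    refine key 0 V le_rfl (by simpa using hc0) hV hzV ?_
    have e1 : (fun w => v w * Real.exp (-(κ * 0 ^ 2 * ‖w‖ ^ 2))) =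
        fun w => v w * Real.exp (0 * ‖w‖ ^ 2) := by
      funext w
      simp
    rwa [e1] at hsV

/-- the upper bound of the second length -/
theorem v_le {q M x y H : ℝ} (hx : 0 ≤ x) (hxy : y ≤ x ^ a) (hq : 0 < q) (haq : a * q < 1)
    (hH : 0 < H) (hM : 0 < M) (h : x ^ (1 - a * q) * y ^ q * H ≤ M) : y ≤ (M / H) ^ a := by
  by_contra hcon
  push Not at hcon
  set x₀ : ℝ := M / H with hx₀
  have hx₀0 : 0 < x₀ := by positivity
  have h1 : x₀ < x := lt_of_pow_lt_pow_left₀ a hx (hcon.trans_le hxy)
  have h2 : x₀ ^ (1 - a * q) < x ^ (1 - a * q) := Real.rpow_lt_rpow hx₀0.le h1 (by linarith)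
  have h3 : (x₀ ^ a) ^ q ≤ y ^ q := Real.rpow_le_rpow (by positivity) hcon.le hq.le
  have h4 : (x₀ ^ a) ^ q = x₀ ^ (a * q) := by
    rw [← Real.rpow_natCast, ← Real.rpow_mul hx₀0.le]
  have h5 : x₀ ^ (1 - a * q) * x₀ ^ (a * q) = x₀ := by
    rw [← Real.rpow_add hx₀0]
    simp
  have h6 : 0 < x₀ ^ (a * q) := Real.rpow_pos_of_pos hx₀0 _
  have h7 : x₀ < x ^ (1 - a * q) * y ^ q := by
    rw [← h5]
    rw [h4] at h3
    calc x₀ ^ (1 - a * q) * x₀ ^ (a * q) < x ^ (1 - a * q) * x₀ ^ (a * q) :=
          mul_lt_mul_of_pos_right h2 h6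
      _ ≤ _ := mul_le_mul_of_nonneg_left h3 (Real.rpow_nonneg hx _)
  have h8 : M < x ^ (1 - a * q) * y ^ q * H := by
    rwa [hx₀, div_lt_iff₀ hH] at h7
  linarith

/-- **The bound of the first length at large height.** -/
theorem shrink {q M y T β : ℝ} (hC : 0 ≤ C) (hκ : 0 < κ) (hε : 0 < ε) (hq : 0 < q)
    (haq : a * q < 1) (hM : 0 < M) (hy : 0 < y) (hβ : 0 < β) :
    ∃ K Y₀ : ℝ, 0 < Y₀ ∧ ∀ (Y : ℝ) (u v : ℂ → ℝ), Y₀ ≤ Y →
      WOn {s : ℂ | 0 < Y + s.im} a C κ ε u v →
      (∀ q' : ℝ, 0 < q' → q' ≤ q → ∀ s : ℂ, 0 < Y + s.im →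
        u s ^ (1 - a * q') * v s ^ q' * (2 * (Y + s.im)) ≤ max (4 / √(q' * κ)) (M * ε ^ (-q))) →
      (∀ s : ℂ, 0 < Y + s.im → u s ^ (1 - a * q) * v s ^ q * (2 * (Y + s.im)) ≤ M) →
      (∃ b : ℂ, |b.re| ≤ T ∧ Y + b.im = y ∧ β ≤ v b) →
      u 0 ≤ Real.exp (K - Real.log Y / 2) := by
  set m : ℝ := M * ε ^ (-q) with hm
  have hεq : 0 < ε ^ (-q) := Real.rpow_pos_of_pos hε _
  have hm0 : 0 < m := by positivity
  set c : ℝ := 2 * C * (m + 1) ^ 2 with hc
  have hc0 : 0 ≤ c := by positivity
  set B : ℝ := a * Real.log (M / y) - c * Real.log (y / 2) with hB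
  set B2 : ℝ := |B - (Real.log β - c * Real.log y)| with hB2
  have hB20 : 0 ≤ B2 := abs_nonneg _
  set B4 : ℝ := |a * Real.log (M / y)| with hB4
  have hB40 : 0 ≤ B4 := abs_nonneg _
  set K₂ : ℝ := max (4 / √(q * κ)) m with hK₂
  have hK₂0 : 0 < K₂ := lt_max_of_lt_right hm0
  set K : ℝ := Real.log K₂ + q * (8 * B2 / y) + q * B4 with hK
  refine ⟨K, 1 + y + 2 * T ^ 2 / y + Real.exp (2 * K), by positivity,
    fun Y u v hY h hA hA0 hb => ?_⟩
  obtain ⟨b, hbT, hby, hbβ⟩ := hb
  have hexpK := Real.exp_pos (2 * K)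
  have hTy : 0 ≤ 2 * T ^ 2 / y := by positivity
  have hY1 : 1 ≤ Y := by linarith
  have hYy : y ≤ Y := by linarith
  have hY0 : 0 < Y := by linarith
  have hYK : Real.exp (2 * K) ≤ Y := by linarith
  have hYT : 2 * T ^ 2 / y + y ≤ Y := by linarith
  set R : ℝ := Y - y / 2 with hR
  have hR0 : 0 < R := by linarith
  -- the base point
  have hbn : ‖b‖ ≤ Y - 3 * y / 4 := by
    apply abs_le_of_sq_le_sq' _ (by linarith) |>.2
    rw [← Complex.normSq_eq_norm_sq, Complex.normSq_apply]
    have h1 : b.im = y - Y := by linarith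
    have h2 : b.re * b.re ≤ T ^ 2 := by
      rw [← abs_mul_abs_self]
      nlinarith [abs_nonneg b.re]
    have h3 : T ^ 2 ≤ y / 4 * (2 * Y - 7 * y / 4) := by
      have h4 : 2 * T ^ 2 ≤ (Y - y) * y := by
        rw [← div_le_iff₀ hy]
        linarith
      nlinarith
    rw [h1]
    nlinarith
  have hbb : b ∈ ball (0 : ℂ) R := mem_ball_zero_iff.2 (by linarith)
  have hH : ∀ s ∈ closedBall (0 : ℂ) R, y / 2 ≤ Y + s.im ∧ Y + s.im ≤ 2 * Y := by
    intro s hs
    rw [mem_closedBall_zero_iff] at hs
    have h1 := abs_le.1 (Complex.abs_im_le_norm s)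
    constructor <;> linarith [h1.1, h1.2]
  have hDs : closedBall (0 : ℂ) R ⊆ {s : ℂ | 0 < Y + s.im} := by
    intro s hs
    have := (hH s hs).1
    change 0 < Y + s.im
    linarith
  have hss : sphere (0 : ℂ) |R| ⊆ closedBall 0 R := by
    rw [abs_of_pos hR0]
    exact sphere_subset_closedBall
  have hfar : ∀ s : ℂ, 0 < Y + s.im → ε * u s ^ a ≤ v s → u s * (2 * (Y + s.im)) ≤ m := by
    intro s hs hsf
    rcases (h.u0 s hs).eq_or_lt with h1 | h1
    · rw [← h1, zero_mul]
      exact hm0.le
    · exact far_bound_p hε hq h1 (by positivity) hsf (hA0 s hs)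
  have hcu := h.cu.mono hDs
  have hcv := h.cv.mono hDs
  have hcl : ContinuousOn (fun s : ℂ => Real.log (Y + s.im)) (closedBall 0 R) :=
    ContinuousOn.log (by fun_prop) fun z hz => (hDs hz : 0 < Y + z.im).ne'
  set G : ℂ → ℝ := fun s => v s * Real.exp (-(c * Real.log (Y + s.im))) with hG
  have hGc : ContinuousOn G (closedBall 0 R) :=
    hcv.mul (Real.continuous_exp.comp_continuousOn (continuousOn_const.mul hcl).neg)
  have hGB : ∀ s ∈ closedBall (0 : ℂ) R, G s ≤ Real.exp B := by
    intro s hs
    have h1 := hDs hs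
    have h2 := (hH s hs).1
    have h1' : 0 < Y + s.im := h1
    have h3 := v_le (h.u0 s h1) (h.le s h1) hq haq (show 0 < 2 * (Y + s.im) by positivity) hM
      (hA0 s h1)
    have h4 : (M / (2 * (Y + s.im))) ^ a ≤ (M / y) ^ a := by
      apply pow_le_pow_left₀ (by positivity)
      exact div_le_div_of_nonneg_left hM.le hy (by linarith)
    have h5 : (M / y) ^ a = Real.exp (a * Real.log (M / y)) := by
      rw [← Real.log_pow, Real.exp_log (by positivity)]
    have h6 : Real.log (y / 2) ≤ Real.log (Y + s.im) := Real.log_le_log (by positivity) h2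
    have h7 : c * Real.log (y / 2) ≤ c * Real.log (Y + s.im) := mul_le_mul_of_nonneg_left h6 hc0
    calc G s ≤ Real.exp (a * Real.log (M / y)) * Real.exp (-(c * Real.log (Y + s.im))) := by
          rw [← h5]
          exact mul_le_mul_of_nonneg_right (h3.trans h4) (Real.exp_pos _).le
      _ = Real.exp (a * Real.log (M / y) + -(c * Real.log (Y + s.im))) := (Real.exp_add _ _).symm
      _ ≤ Real.exp B := Real.exp_le_exp.2 (by rw [hB]; linarith)
  have hGb : Real.log β - c * Real.log y ≤ Real.log (G b) := by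
    have h1 : G b = v b * Real.exp (-(c * Real.log y)) := by
      rw [hG]
      simp only
      rw [hby]
    rw [h1, Real.log_mul (hβ.trans_le hbβ).ne' (Real.exp_pos _).ne', Real.log_exp]
    have := Real.log_le_log hβ hbβ
    linarith
  have hGb0 : 0 < G b := mul_pos (hβ.trans_le hbβ) (Real.exp_pos _)
  -- the exponent
  set q' : ℝ := q / Y with hq'
  have hq'0 : 0 < q' := by positivity
  have hq'q : q' ≤ q := div_le_self hq.le hY1
  set p : ℝ := 1 - a * q' with hp
  have hp0 : 0 < p := by
    have h1 : a * q' ≤ a * q := mul_le_mul_of_nonneg_left hq'q (Nat.cast_nonneg a)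
    linarith
  have hp1 : p ≤ 1 := by
    have : 0 ≤ a * q' := by positivity
    linarith
  have hip : 1 ≤ 1 / p := by
    rw [le_div_iff₀ hp0]
    linarith
  have hip0 : 0 < 1 / p := by positivity
  set K₁ : ℝ := max (4 / √(q' * κ)) m with hK₁
  have hK₁0 : 0 < K₁ := lt_max_of_lt_right hm0
  set k : ℝ := Real.log K₁ with hk
  have hkle : k ≤ Real.log K₂ + Real.log Y / 2 := by
    have hsY : 1 ≤ √Y := by
      rw [Real.one_le_sqrt]
      exact hY1
    have h1 : K₁ ≤ K₂ * √Y := by
      apply max_le
      · have h2 : 4 / √(q' * κ) = 4 / √(q * κ) * √Y := by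
          have h3 : q' * κ = q * κ / Y := by
            rw [hq']
            ring
          rw [h3, Real.sqrt_div' _ hY0.le]
          field_simp
        rw [h2]
        exact mul_le_mul_of_nonneg_right (le_max_left _ _) (Real.sqrt_nonneg _)
      · calc m ≤ K₂ := le_max_right _ _
          _ ≤ K₂ * √Y := le_mul_of_one_le_right hK₂0.le hsY
    have h2 := Real.log_le_log hK₁0 h1
    rwa [Real.log_mul hK₂0.ne' (by positivity), Real.log_sqrt hY0.le] at h2
  -- the truncation
  set w₁ : ℝ := 1 / p * (k - Real.log (4 * Y)) with hw₁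
  set δ₁ : ℝ := Real.exp w₁ with hδ₁
  have hδ₁0 : 0 < δ₁ := Real.exp_pos _
  set W : ℂ → ℝ := fun s => Real.log (max (u s) δ₁) with hW
  have hWc : ContinuousOn W (closedBall 0 R) :=
    ContinuousOn.log (hcu.sup continuousOn_const) fun z _ =>
      (hδ₁0.trans_le (le_max_right _ _)).ne'
  have hWi : CircleIntegrable W 0 R := (hWc.mono hss).circleIntegrable'
  obtain ⟨Mw, hMw⟩ := (isCompact_closedBall (0 : ℂ) R).exists_bound_of_continuousOn hWc
  have hMw0 : 0 ≤ Mw := (norm_nonneg _).trans (hMw 0 (mem_closedBall_self hR0.le))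
  have hW0 : W 0 ≤ circleAverage W 0 R := mean_of_local hR0 hWc fun z hz => by
    obtain ⟨V, hV, hzV, hs⟩ := h.sub z (hDs (ball_subset_closedBall hz))
    exact hs.subAt hV hzV hδ₁0
  set X : ℝ := 8 * Y / y * B2 with hX
  have hX0 : 0 ≤ X := by positivity
  have key : ∀ θ : ℝ, 0 < θ → W 0 ≤ 1 / p * (k + q' * (X + B4) - Real.log Y) + θ * X := by
    intro θ hθ
    set ℓ : ℝ := (Mw + 1 / p * |k - Real.log (4 * Y)|) / θ with hℓ
    have hℓ0 : 0 ≤ ℓ := by positivity
    set δ : ℝ := Real.exp (B - ℓ) with hδ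
    have hδ0 : 0 < δ := Real.exp_pos _
    have hδB : δ ≤ Real.exp B := Real.exp_le_exp.2 (by linarith)
    have hGp : ∀ s, 0 < max (G s) δ := fun s => hδ0.trans_le (le_max_right _ _)
    set lG : ℂ → ℝ := fun s => Real.log (max (G s) δ) with hlG
    have hlGc : ContinuousOn lG (closedBall 0 R) :=
      ContinuousOn.log (hGc.sup continuousOn_const) fun z _ => (hGp z).ne'
    have hlGB : ∀ s ∈ closedBall (0 : ℂ) R, lG s ≤ B := by
      intro s hs
      have h1 := Real.log_le_log (hGp s) (max_le (hGB s hs) hδB)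
      rwa [Real.log_exp] at h1
    have hmean := mean_le_of_sub hR0 hlGc (fun s hs =>
      h.subAt_height hC hfar hδ0 (hDs (ball_subset_closedBall hs)))
      (fun s hs => hlGB s (sphere_subset_closedBall hs)) hbb
    set L : ℂ → ℝ := fun s => B - lG s with hL
    have hLi : CircleIntegrable L 0 R :=
      ((continuousOn_const.sub hlGc).mono hss).circleIntegrable'
    have hL0 : ∀ s ∈ closedBall (0 : ℂ) R, 0 ≤ L s := fun s hs => sub_nonneg.2 (hlGB s hs)
    have hLX : circleAverage L 0 R ≤ X := by
      refine hmean.trans ?_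
      have h1 : (R + ‖b‖) / (R - ‖b‖) ≤ 8 * Y / y := by
        rw [div_le_div_iff₀ (by linarith) hy]
        nlinarith
      have h2 : B - lG b ≤ B2 := by
        have h3 : Real.log (G b) ≤ lG b := Real.log_le_log hGb0 (le_max_left _ _)
        have h4 : B - (Real.log β - c * Real.log y) ≤ B2 := le_abs_self _
        linarith
      exact mul_le_mul h1 h2 (hL0 b (ball_subset_closedBall hbb)) (by positivity)
    have e4 : ∀ s ∈ sphere (0 : ℂ) |R|, W s ≤
        1 / p * (k + q' * (L s + B4) - Real.log (2 * (Y + s.im))) + θ * L s := by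
      intro s hs'
      have hs := hss hs'
      have hLs := hL0 s hs
      have hHs := hH s hs
      have hDss : 0 < Y + s.im := hDs hs
      have hlog : Real.log (2 * (Y + s.im)) ≤ Real.log (4 * Y) :=
        Real.log_le_log (by positivity) (by linarith)
      have hθL : 0 ≤ θ * L s := by positivity
      have hqL : 0 ≤ q' * (L s + B4) := by positivity
      rcases le_or_gt (u s) δ₁ with f1 | f1
      · have f2 : W s = w₁ := by
          rw [hW]
          simp only
          rw [max_eq_right f1, hδ₁, Real.log_exp]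
        rw [f2, hw₁]
        have f3 := mul_le_mul_of_nonneg_left (show k - Real.log (4 * Y) ≤
          k + q' * (L s + B4) - Real.log (2 * (Y + s.im)) by linarith) hip0.le
        linarith
      rcases lt_or_ge (G s) δ with f2 | f2
      · have f3 : L s = ℓ := by
          rw [hL, hlG]
          simp only
          rw [max_eq_right f2.le, hδ, Real.log_exp]
          ring
        have f4 : θ * ℓ = Mw + 1 / p * |k - Real.log (4 * Y)| := by
          rw [hℓ]
          field_simp
        have f5 := mul_le_mul_of_nonneg_left (show k - Real.log (4 * Y) ≤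
          k + q' * (L s + B4) - Real.log (2 * (Y + s.im)) by linarith) hip0.le
        have f6 := mul_le_mul_of_nonneg_left (neg_abs_le (k - Real.log (4 * Y))) hip0.le
        have f7 : W s ≤ Mw := by
          have := hMw s hs
          rw [Real.norm_eq_abs] at this
          exact (le_abs_self _).trans this
        rw [← f3] at f4
        rw [mul_neg] at f6
        linarith
      · have hup : 0 < u s := hδ₁0.trans f1
        have hGs : 0 < G s := hδ0.trans_le f2
        have hvp : 0 < v s := by
          by_contra hcon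
          push Not at hcon
          have : G s ≤ 0 := mul_nonpos_of_nonpos_of_nonneg hcon (Real.exp_pos _).le
          linarith
        have f3 : W s = Real.log (u s) := by
          rw [hW]
          simp only
          rw [max_eq_left f1.le]
        have f4 : lG s = Real.log (v s) - c * Real.log (Y + s.im) := by
          rw [hlG]
          simp only
          rw [max_eq_left f2, hG]
          simp only
          rw [Real.log_mul hvp.ne' (Real.exp_pos _).ne', Real.log_exp]
          ring
        have f5 := hA q' hq'0 hq'q s hDss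
        have g1 := Real.rpow_pos_of_pos hup (1 - a * q')
        have g2 := Real.rpow_pos_of_pos hvp q'
        have f6 := Real.log_le_log (mul_pos (mul_pos g1 g2)
          (show 0 < 2 * (Y + s.im) by positivity)) f5
        rw [Real.log_mul (mul_pos g1 g2).ne' (by positivity), Real.log_mul g1.ne' g2.ne',
          Real.log_rpow hup, Real.log_rpow hvp, ← hp] at f6
        have f7 : Real.log (y / 2) ≤ Real.log (Y + s.im) :=
          Real.log_le_log (by positivity) hHs.1
        have f8 : c * Real.log (y / 2) ≤ c * Real.log (Y + s.im) :=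
          mul_le_mul_of_nonneg_left f7 hc0
        have f9 : -B4 ≤ a * Real.log (M / y) := neg_abs_le _
        have f10 : -Real.log (v s) ≤ L s + B4 := by
          have : L s = B - lG s := rfl
          rw [this, f4, hB]
          linarith
        have f11 := mul_le_mul_of_nonneg_left f10 hq'0.le
        have f12 : p * Real.log (u s) ≤ k + q' * (L s + B4) - Real.log (2 * (Y + s.im)) := by
          have f13 : Real.log K₁ = k := rfl
          have f14 : q' * -Real.log (v s) = -(q' * Real.log (v s)) := by ring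
          rw [f14] at f11
          change _ ≤ Real.log K₁ at f6
          linarith
        have f13 : Real.log (u s) ≤
            1 / p * (k + q' * (L s + B4) - Real.log (2 * (Y + s.im))) := by
          rw [one_div, inv_mul_eq_div, le_div_iff₀ hp0, mul_comm]
          exact f12
        rw [f3]
        linarith
    -- the average
    have hlogH : ∀ s ∈ sphere (0 : ℂ) |R|, Real.log (2 * (Y + s.im)) =
        Real.log 2 + Real.log (Y + s.im) := fun s hs =>
      Real.log_mul two_ne_zero (hDs (hss hs) : 0 < Y + s.im).ne'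
    have hi1 : CircleIntegrable (fun s : ℂ => Real.log (Y + s.im)) 0 R :=
      (hcl.mono hss).circleIntegrable'
    have hi2 : CircleIntegrable (fun s => (q' / p + θ) • L s) 0 R := hLi.const_fun_smul
    have hi3 : CircleIntegrable (fun s : ℂ => (1 / p) • Real.log (Y + s.im)) 0 R :=
      hi1.const_fun_smul
    have hi4 := circleIntegrable_const (1 / p * (k + q' * B4 - Real.log 2)) 0 R
    have e5 := Real.circleAverage_mono hWi ((hi4.add hi2).sub hi3) (fun s hs => by
      have h1 := e4 s hs
      rw [hlogH s hs] at h1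
      simp only [Pi.add_apply, Pi.sub_apply, smul_eq_mul]
      refine h1.trans (le_of_eq ?_)
      ring)
    rw [Real.circleAverage_sub (hi4.add hi2) hi3, Real.circleAverage_add hi4 hi2,
      Real.circleAverage_const, Real.circleAverage_fun_smul, Real.circleAverage_fun_smul,
      smul_eq_mul, smul_eq_mul] at e5
    have e6 := mean_log_height hR0 (show R < Y by linarith)
    rw [Real.log_div hY0.ne' two_ne_zero] at e6
    have e7 := mul_le_mul_of_nonneg_left e6 hip0.le
    have e8 := mul_le_mul_of_nonneg_left hLX (show 0 ≤ q' / p + θ by positivity)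
    have e9 : 1 / p * (k + q' * (X + B4) - Real.log Y) + θ * X =
        1 / p * (k + q' * B4 - Real.log 2) + (q' / p + θ) * X -
          1 / p * (Real.log Y - Real.log 2) := by ring
    rw [e9]
    linarith
  have key2 : W 0 ≤ 1 / p * (k + q' * (X + B4) - Real.log Y) := by
    apply le_of_forall_pos_le_add
    intro e he
    have h1 := key (e / (X + 1)) (by positivity)
    have h2 : e / (X + 1) * X ≤ e := by
      rw [div_mul_eq_mul_div, div_le_iff₀ (by positivity)]
      nlinarith
    linarith
  have h1 : q' * (X + B4) ≤ q * (8 * B2 / y) + q * B4 := by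
    have h2 : q' * X = q * (8 * B2 / y) := by
      rw [hq', hX]
      field_simp
    have h3 : q' * B4 ≤ q * B4 := mul_le_mul_of_nonneg_right hq'q hB40
    rw [mul_add, h2]
    linarith
  have h2 : k + q' * (X + B4) - Real.log Y ≤ K - Real.log Y / 2 := by
    rw [hK]
    linarith
  have h3 : K - Real.log Y / 2 ≤ 0 := by
    have h4 := Real.log_le_log hexpK hYK
    rw [Real.log_exp] at h4
    linarith
  have h4 : W 0 ≤ K - Real.log Y / 2 := by
    refine key2.trans ?_
    refine (mul_le_mul_of_nonneg_left h2 hip0.le).trans ?_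
    nlinarith
  have h5 : u 0 ≤ Real.exp (W 0) := by
    rw [hW]
    simp only
    rw [Real.exp_log (hδ₁0.trans_le (le_max_right _ _))]
    exact le_max_left _ _
  exact h5.trans (Real.exp_le_exp.2 h4)

end Pool.Agent.H33
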