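import Pool.Agent.H33.NB
import Pool.Agent.H33.LD

/-! Periodic maps from the upper half plane. -/

set_option autoImplicit false

open Filter Topology Metric Set MvPolynomial LinearAlgebra.Projectivization
open scoped UpperHalfPlane ComplexConjugate MatrixGroups

namespace Pool.Agent.H33

open Pool.Agent.Y190.OP Pool.Agent.W602.GT Pool.Agent.N155 Pool.Agent.N155.BB

variable {n : ℕ} {ι : Type} {F : ι → MvPolynomial (Fin (n + 1)) ℂ} {d : ℕ}
  {Φ Ψ : (Fin (n + 1) → ℂ) → (Fin (n + 1) → ℂ) → ℝ} {P : ℂ → Mat (n + 1)} {a : ℕ}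
  {C κ' ε q M : ℝ} {D : Set ℂ}

theorem scale_rpow {H x y q' : ℝ} (hH : 0 < H) (hx : 0 ≤ x) (hy : 0 ≤ y) :
    (H ^ 1 * x) ^ (1 - a * q') * (H ^ a * y) ^ q' = x ^ (1 - a * q') * y ^ q' * H := by
  rw [Real.mul_rpow (by positivity) hx, Real.mul_rpow (by positivity) hy, pow_one,
    ← Real.rpow_natCast, ← Real.rpow_mul hH.le]
  have h1 : H ^ (1 - a * q') * H ^ (a * q') = H := by
    rw [← Real.rpow_add hH]
    simp
  calc H ^ (1 - a * q') * x ^ (1 - a * q') * (H ^ (a * q') * y ^ q') =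
      x ^ (1 - a * q') * y ^ q' * (H ^ (1 - a * q') * H ^ (a * q')) := by ring
    _ = _ := by rw [h1]

/-- the bound of the first length for small exponents -/
theorem Dat.low (h : Dat F d Φ Ψ a C κ' ε q M) (hP : PD F upper P) {q' : ℝ} (hq' : 0 < q')
    (hqq : q' ≤ q) (z : ℍ) : hl 1 Φ P z ^ (1 - a * q') * hl a Ψ P z ^ q' ≤
      max (4 / √(q' * κ')) (M * ε ^ (-q)) := by
  have haq' : a * q' < 1 :=
    (mul_le_mul_of_nonneg_left hqq (Nat.cast_nonneg a)).trans_lt h.haq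
  have hw := h.w _ _ (hP.disc z)
  have hMz : ∀ ζ ∈ ball (0 : ℂ) 1, len Φ (fun s => P (cay z s)) ζ ^ (1 - a * q) *
      len Ψ (fun s => P (cay z s)) ζ ^ q * (1 - ‖ζ‖ ^ 2) ≤ M := by
    intro ζ hζ
    have e1 := h.Phi_cay hP z hζ
    have e2 := h.Psi_cay hP z hζ
    have e3 := h.bound hP (cayH z ζ)
    have hs := normSq_lt hζ
    have hu := hw.u0 ζ hζ
    have hv := hw.v0 ζ hζ
    rw [← e1, ← e2, mul_comm (len Φ _ ζ), mul_comm (len Ψ _ ζ)] at e3
    have h1 := scale_rpow (a := a) (q' := q) hs hu hv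
    rw [pow_one] at h1
    rwa [h1] at e3
  have key : ∀ r : ℝ, 0 < r → r < 1 → hl 1 Φ P z ^ (1 - a * q') * hl a Ψ P z ^ q' * r ^ 2 ≤
      max (4 / √(q' * κ')) (M * ε ^ (-q)) := by
    intro r hr0 hr1
    have := hw.ahlfors_low h.hκ h.hε hr0 hr1 h.hq hq' haq' hMz
    rwa [h.Phi_zero hP, h.Psi_zero hP] at this
  have hlim : Tendsto (fun r : ℝ => hl 1 Φ P z ^ (1 - a * q') * hl a Ψ P z ^ q' * r ^ 2)
      (𝓝[<] 1) (𝓝 (hl 1 Φ P z ^ (1 - a * q') * hl a Ψ P z ^ q' * 1 ^ 2)) := by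
    apply Tendsto.mono_left _ nhdsWithin_le_nhds
    exact (continuous_const.mul (continuous_id.pow 2)).tendsto 1
  rw [one_pow, mul_one] at hlim
  refine le_of_tendsto hlim ?_
  filter_upwards [Ioo_mem_nhdsLT (show (0 : ℝ) < 1 by norm_num)] with r hr
  exact key r hr.1 hr.2

/-- translations -/
theorem PD.shift (hP : PD F upper P) (τ : ℂ) :
    PD F {s : ℂ | 0 < τ.im + s.im} fun s => P (τ + s) := by
  refine hP.comp (isOpen_lt continuous_const (by fun_prop)) (by fun_prop) fun s hs => ?_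
  change 0 < (τ + s).im
  rw [Complex.add_im]
  exact hs

theorem len_shift (hX : ProjManifold F d)
    (ht : ∀ x ∈ Cone F, ∀ (v : Fin (n + 1) → ℂ) (c b : ℂ), c ≠ 0 →
      Φ (c • x) (c • (v + b • x)) = Φ x v)
    (hd : ∀ x ∈ Cone F, ∀ (v : Fin (n + 1) → ℂ) (c : ℂ), c ≠ 0 → Φ x (c • v) = ‖c‖ ^ a * Φ x v)
    (hP : PD F D P) (τ : ℂ) {s : ℂ} (hs : τ + s ∈ D) :
    len Φ (fun s => P (τ + s)) s = len Φ P (τ + s) := by
  have h1 := len_comp hX ht hd hP (f := fun s => τ + s) (w := s) (f' := 1)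
    (Eventually.of_forall fun s => by fun_prop) ((hasDerivAt_id s).const_add τ) hs one_ne_zero
  rwa [norm_one, one_pow, one_mul] at h1

/-- **Periodic maps have small derivatives at large height.** -/
theorem Dat.shrink (h : Dat F d Φ Ψ a C κ' ε q M) (hP : PD F upper P) {T : ℝ} (hT : 0 < T)
    (hper : ∀ (k : ℤ) (z : ℂ), P (z + k * T) = P z) (hpos : ∃ z : ℍ, 0 < hl a Ψ P z) :
    ∃ K Y₀ : ℝ, 0 < Y₀ ∧ ∀ τ : ℂ, Y₀ ≤ τ.im → len Φ P τ ≤ Real.exp (K - Real.log τ.im / 2) := by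
  obtain ⟨zb, hzb⟩ := hpos
  have hlb : 0 < len Ψ P zb := by
    unfold hl at hzb
    have h1 : 0 < (2 * zb.im) ^ a := by
      have := zb.im_pos
      positivity
    exact pos_of_mul_pos_right hzb h1.le
  obtain ⟨K, Y₀, hY₀, hs⟩ := Pool.Agent.H33.shrink (a := a) (κ := κ') (ε := ε) (q := q) (M := M)
    (y := zb.im) (T := T) (β := len Ψ P zb) h.hC h.hκ h.hε h.hq h.haq h.hM zb.im_pos hlb
  refine ⟨K, Y₀, hY₀, fun τ hτ => ?_⟩
  have hτ0 : 0 < τ.im := hY₀.trans_le hτ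
  have hτu : τ ∈ upper := hτ0
  have hQ := hP.shift τ
  have hW := h.w _ _ hQ
  have hmem : ∀ s : ℂ, 0 < τ.im + s.im → τ + s ∈ upper := fun s hs => by
    change 0 < (τ + s).im
    rw [Complex.add_im]
    exact hs
  have eΦ : ∀ s : ℂ, 0 < τ.im + s.im → len Φ (fun s => P (τ + s)) s = len Φ P (τ + s) :=
    fun s hs => len_shift h.hX h.hΦ.twist h.hΦ.deg' hP τ (hmem s hs)
  have eΨ : ∀ s : ℂ, 0 < τ.im + s.im → len Ψ (fun s => P (τ + s)) s = len Ψ P (τ + s) :=
    fun s hs => len_shift h.hX h.hΨ.twist h.hΨ.deg hP τ (hmem s hs)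
  have escale : ∀ (q' : ℝ) (s : ℂ) (hs : 0 < τ.im + s.im),
      len Φ (fun s => P (τ + s)) s ^ (1 - a * q') * len Ψ (fun s => P (τ + s)) s ^ q' *
        (2 * (τ.im + s.im)) = hl 1 Φ P ⟨τ + s, hmem s hs⟩ ^ (1 - a * q') *
          hl a Ψ P ⟨τ + s, hmem s hs⟩ ^ q' := by
    intro q' s hs
    rw [← scale_rpow (a := a) (q' := q') (show 0 < 2 * (τ.im + s.im) by positivity)
      (hW.u0 s hs) (hW.v0 s hs), eΦ s hs, eΨ s hs]
    rfl
  have h1 := hs τ.im _ _ hτ hW
    (fun q' hq' hqq s hs => by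
      rw [escale q' s hs]
      exact h.low hP hq' hqq _)
    (fun s hs => by
      rw [escale q s hs]
      exact h.bound hP _)
    (by
      -- the base point
      set k : ℤ := ⌊(τ.re - (zb : ℂ).re) / T⌋ with hk
      have hk1 : (k : ℝ) ≤ (τ.re - (zb : ℂ).re) / T := Int.floor_le _
      have hk2 : (τ.re - (zb : ℂ).re) / T < k + 1 := Int.lt_floor_add_one _
      rw [le_div_iff₀ hT] at hk1
      rw [div_lt_iff₀ hT] at hk2
      set b : ℂ := zb + k * T - τ with hb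
      have hτb : τ + b = zb + k * T := by rw [hb]; ring
      have him : ((k : ℂ) * T).im = 0 := by
        rw [← Complex.ofReal_intCast, ← Complex.ofReal_mul, Complex.ofReal_im]
      have hre : ((k : ℂ) * T).re = k * T := by
        rw [← Complex.ofReal_intCast, ← Complex.ofReal_mul, Complex.ofReal_re]
      have hbim : τ.im + b.im = zb.im := by
        rw [hb, Complex.sub_im, Complex.add_im, him, UpperHalfPlane.coe_im]
        ring
      refine ⟨b, ?_, hbim, ?_⟩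
      · rw [hb, Complex.sub_re, Complex.add_re, hre, abs_le]
        constructor <;> linarith
      · rw [eΨ b (by rw [hbim]; exact zb.im_pos), hτb]
        have h2 := len_shift h.hX h.hΨ.twist h.hΨ.deg hP ((k : ℂ) * T) (s := (zb : ℂ)) (by
          change 0 < ((k : ℂ) * T + zb).im
          rw [Complex.add_im, him, zero_add]
          exact zb.im_pos)
        have h3 : (fun s => P ((k : ℂ) * T + s)) = P := by
          funext s
          rw [add_comm ((k : ℂ) * T) s]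
          exact hper k s
        rw [h3, add_comm ((k : ℂ) * T) (zb : ℂ)] at h2
        exact h2.le)
  rwa [eΦ 0 (by simpa using hτ0), add_zero] at h1

/-- the images of horizontal segments are small -/
theorem Dat.osc (h : Dat F d Φ Ψ a C κ' ε q M) (hP : PD F upper P) {T : ℝ} (hT : 0 < T)
    (hper : ∀ (k : ℤ) (z : ℂ), P (z + k * T) = P z) (hpos : ∃ z : ℍ, 0 < hl a Ψ P z) :
    ∃ K Y₀ : ℝ, 0 < Y₀ ∧ ∀ τ τ' : ℂ, Y₀ ≤ τ.im → τ'.im = τ.im →
      ‖P τ' - P τ‖ ≤ Real.exp (K - Real.log τ.im / 2) * ‖τ' - τ‖ := by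
  obtain ⟨c0, hc0, hcJ⟩ := jd_le h.hX h.hΦ h.hnd
  obtain ⟨K, Y₀, hY₀, hs⟩ := h.shrink hP hT hper hpos
  refine ⟨K - Real.log c0, Y₀, hY₀, fun τ τ' hτ hττ => ?_⟩
  set s : Set ℂ := {w | w.im = τ.im} with hs'
  have hsu : s ⊆ upper := by
    intro w hw
    change 0 < w.im
    have : w.im = τ.im := hw
    rw [this]
    linarith
  have hconv : Convex ℝ s := by
    intro v hv w hw x y _ _ hxy
    have hv' : v.im = τ.im := hv
    have hw' : w.im = τ.im := hw
    change (x • v + y • w).im = _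
    rw [Complex.add_im, Complex.real_smul, Complex.real_smul, Complex.im_ofReal_mul,
      Complex.im_ofReal_mul, hv', hw', ← add_mul, hxy, one_mul]
  have hder : ∀ w ∈ s, ‖fderiv ℝ P w‖ ≤ Real.exp (K - Real.log c0 - Real.log τ.im / 2) := by
    intro w hw
    have hw' : w.im = τ.im := hw
    have h1 := hP.fd_le h.hX h.hΦ hcJ (hsu hw)
    have h2 := hs w (by rw [hw']; exact hτ)
    rw [hw'] at h2
    have h3 : Real.exp (K - Real.log c0 - Real.log τ.im / 2) =
        Real.exp (K - Real.log τ.im / 2) / c0 := by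
      rw [show K - Real.log c0 - Real.log τ.im / 2 = K - Real.log τ.im / 2 - Real.log c0 by ring,
        Real.exp_sub, Real.exp_log hc0]
    rw [h3, le_div_iff₀ hc0, mul_comm]
    exact h1.trans h2
  exact hconv.norm_image_sub_le_of_norm_fderiv_le (𝕜 := ℝ) (f := P)
    (fun w hw => hP.hol.differentiableAt (hsu hw)) hder (rfl : τ ∈ s) hττ

end Pool.Agent.H33
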