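import Pool.Agent.H33.NC
import Pool.Agent.H33.MI
import Pool.Graph.R_pool_sql_team_seeded_63374d34.N155.L.OFin

/-! The big Picard theorem modulo the exceptional set. -/

set_option autoImplicit false

open Filter Topology Metric Set MvPolynomial LinearAlgebra.Projectivization
open scoped UpperHalfPlane

namespace Pool.Agent.H33

open Pool.Agent.Y190.OP Pool.Agent.W602.GT Pool.Agent.N155 Pool.Agent.N155.BB

variable {n : ℕ} {ι : Type} {F : ι → MvPolynomial (Fin (n + 1)) ℂ} {d : ℕ}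
  {κ : Type} {η : κ → (Fin (n + 1) → ℂ) → (Fin (n + 1) → ℂ) → (Fin (n + 1) → ℂ) → ℂ}
  {Φ Ψ : (Fin (n + 1) → ℂ) → (Fin (n + 1) → ℂ) → ℝ} {φ : ℂ → Mat (n + 1)} {a ν : ℕ}
  {C κ' ε q M : ℝ}

theorem isOpen_punct : IsOpen (ball (0 : ℂ) 1 \ {0}) := isOpen_ball.sdiff isClosed_singleton

theorem exp_mem {τ : ℂ} (hτ : τ ∈ upper) : Complex.exp (Complex.I * τ) ∈ ball (0 : ℂ) 1 \ {0} := by
  refine ⟨?_, Complex.exp_ne_zero _⟩
  rw [mem_ball_zero_iff, Complex.norm_exp, Real.exp_lt_one_iff, Complex.I_mul_re]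
  have : 0 < τ.im := hτ
  linarith

theorem PD.expo (hφ : PD F (ball 0 1 \ {0}) φ) :
    PD F upper fun τ => φ (Complex.exp (Complex.I * τ)) :=
  hφ.comp isOpen_upper (by fun_prop) fun _ hτ => exp_mem hτ

theorem expo_per (φ : ℂ → Mat (n + 1)) (k : ℤ) (z : ℂ) :
    φ (Complex.exp (Complex.I * (z + k * ((2 * Real.pi : ℝ) : ℂ)))) =
      φ (Complex.exp (Complex.I * z)) := by
  have h1 : Complex.I * (z + k * ((2 * Real.pi : ℝ) : ℂ)) =
      Complex.I * z + k * (2 * Real.pi * Complex.I) := by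
    push_cast
    ring
  rw [h1, Complex.exp_add, Complex.exp_int_mul_two_pi_mul_I, mul_one]

/-- points over the points of the punctured disc -/
theorem exp_lift {z : ℂ} (hz : z ≠ 0) :
    Complex.exp (Complex.I * (-Complex.I * Complex.log z)) = z ∧
      (-Complex.I * Complex.log z).im = -Real.log ‖z‖ := by
  constructor
  · have h1 : Complex.I * (-Complex.I * Complex.log z) = Complex.log z := by
      rw [← mul_assoc, mul_neg, Complex.I_mul_I, neg_neg, one_mul]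
    rw [h1, Complex.exp_log hz]
  · rw [← Complex.log_re]
    simp

/-- the limit at the puncture -/
theorem Dat.limit (h : Dat F d Φ Ψ a C κ' ε q M) (hφ : PD F (ball 0 1 \ {0}) φ)
    (hpos : ∃ z : ℍ, 0 < hl a Ψ (fun τ => φ (Complex.exp (Complex.I * τ))) z) :
    ∃ p ∈ TF F, Tendsto φ (𝓝[≠] 0) (𝓝 p) := by
  have hpi := Real.pi_pos
  obtain ⟨K, Y₀, hY₀, hosc⟩ := h.osc hφ.expo (T := 2 * Real.pi) (by positivity)
    (fun k z => expo_per φ k z) hpos
  obtain ⟨B, hB⟩ := (isCompact_TF h.hX.form).isBounded.exists_norm_le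
  classical
  refine exists_puncture (isCompact_TF h.hX.form) TF_PM hφ.hol hφ.mem
    (osc := fun r => if r < Real.exp (-Y₀) then
      Real.exp (K - Real.log (-Real.log r) / 2) * (2 * Real.pi) else B + B) ?_ ?_
  · have h1 : Tendsto (fun r : ℝ => Real.exp (K - Real.log (-Real.log r) / 2) * (2 * Real.pi))
        (𝓝[>] 0) (𝓝 (0 * (2 * Real.pi))) := by
      apply Tendsto.mul_const
      apply Real.tendsto_exp_atBot.comp
      have h2 : Tendsto (fun r : ℝ => -Real.log r) (𝓝[>] 0) atTop :=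
        tendsto_neg_atBot_atTop.comp Real.tendsto_log_nhdsGT_zero
      have h3 := (Real.tendsto_log_atTop.comp h2).atTop_div_const (show (0 : ℝ) < 2 by norm_num)
      have h4 := tendsto_atBot_add_const_left _ K (tendsto_neg_atTop_atBot.comp h3)
      refine h4.congr fun r => ?_
      simp only [Function.comp]
      ring
    rw [zero_mul] at h1
    refine h1.congr' ?_
    filter_upwards [Ioo_mem_nhdsGT (Real.exp_pos (-Y₀))] with r hr
    rw [if_pos hr.2]
  · intro z1 z2 h12 h0 h1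
    have h02 : z2 ≠ 0 := by
      rw [← norm_pos_iff, h12]
      exact norm_pos_iff.2 h0
    have m1 : z1 ∈ ball (0 : ℂ) 1 \ {0} := ⟨mem_ball_zero_iff.2 h1, h0⟩
    have m2 : z2 ∈ ball (0 : ℂ) 1 \ {0} := ⟨mem_ball_zero_iff.2 (by rw [h12]; exact h1), h02⟩
    split_ifs with hlt
    · obtain ⟨e1, i1⟩ := exp_lift h0
      obtain ⟨e2, i2⟩ := exp_lift h02
      have hlog : Y₀ ≤ -Real.log ‖z1‖ := by
        have := Real.log_lt_log (norm_pos_iff.2 h0) hlt
        rw [Real.log_exp] at this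
        linarith
      have h3 := hosc (-Complex.I * Complex.log z1) (-Complex.I * Complex.log z2)
        (by rw [i1]; exact hlog) (by rw [i1, i2, h12])
      simp only [e1, e2, i1] at h3
      refine h3.trans (mul_le_mul_of_nonneg_left ?_ (Real.exp_pos _).le)
      rw [← mul_sub, norm_mul, norm_neg, Complex.norm_I, one_mul]
      refine (Complex.norm_le_abs_re_add_abs_im _).trans ?_
      rw [Complex.sub_re, Complex.sub_im, Complex.log_re, Complex.log_re, h12, sub_self, abs_zero,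
        zero_add, Complex.log_im, Complex.log_im, abs_le]
      have a1 := Complex.neg_pi_lt_arg z1
      have a2 := Complex.arg_le_pi z1
      have a3 := Complex.neg_pi_lt_arg z2
      have a4 := Complex.arg_le_pi z2
      constructor <;> linarith
    · exact (norm_sub_le _ _).trans (add_le_add (hB _ (hφ.mem _ m2)) (hB _ (hφ.mem _ m1)))

/-- **The big Picard theorem modulo the exceptional set.** -/
theorem picard [Finite κ] (hX : ProjManifold F d) (hη : PositiveTwoForms (Cone F) ∅ d η)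
    (hν : ν ≠ 0) (hh : HomForms (Cone F) ν η) (hΦ : NonposMetric (Cone F) d Φ)
    (hnd : Nondegenerate (Cone F) d Φ)
    (hr : HermitianMetric (Cone F) d Φ ∨ UniformlyConvex (Cone F) d Φ) :
    ∃ S : Finset (ℂ → ℙ ℂ (Fin (n + 1) → ℂ)),
      (∀ h ∈ S, HolIn F h ∧ DoublyPeriodic h ∧ HasSpeed Φ 1 h ∧ ∃ z w, h z ≠ h w) ∧
      (∀ f, HolIn F f → (∃ z w, f z ≠ f w) → ∀ z, ∃ h ∈ S, ∃ w, f z = h w) ∧
      (∀ f : ℂ → ℙ ℂ (Fin (n + 1) → ℂ), HolMapOn (ball 0 1 \ {0}) f →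
        (∀ z ∈ ball (0 : ℂ) 1 \ {0}, (f z).rep ∈ Cone F) →
        (∃ z ∈ ball (0 : ℂ) 1 \ {0}, ∀ h ∈ S, ∀ w, f z ≠ h w) →
        ∃ g : ℂ → ℙ ℂ (Fin (n + 1) → ℂ), HolMapOn (ball 0 1) g ∧
          (∀ z ∈ ball (0 : ℂ) 1, (g z).rep ∈ Cone F) ∧
          ∀ z ∈ ball (0 : ℂ) 1 \ {0}, g z = f z) ∧
      (2 ≤ d → ∀ x ∈ Cone F, ∃ E : MvPolynomial (Fin (n + 1)) ℂ, IsForm E ∧
        (¬ ∀ᶠ y in 𝓝[Cone F] x, eval y E = 0) ∧ ∀ h ∈ S, ∀ z, eval (h z).rep E = 0) := by
  have := Fintype.ofFinite κ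
  have hcx : UniformlyConvex (Cone F) d Φ := hr.elim (fun h => h.uniform hnd) id
  have h : Hyp F d Φ η ν := ⟨hX, hη, hΦ, hnd, uniq_of_convex hX hΦ hcx, hν, hh⟩
  obtain ⟨S, h1, h2, h3, h4⟩ := exists_curves h
  obtain ⟨Ψ, a, C, κ', ε, q, M, hD⟩ := exists_dat h
  obtain ⟨c1, C1, hc1, hC1, hcC1⟩ := len_le_ge hX hΦ hnd
  refine ⟨S, fun k hk => ⟨(h1 k hk).1, (h1 k hk).2.1, (h1 k hk).2.2, ?_⟩, fun f hf hne z => ?_,
    fun f hf hfX hne => ?_, h4⟩
  · by_contra hcon
    push Not at hcon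
    have hin := (h1 k hk).1
    have e1 := (hasSpeed_iff hX hΦ.twist hin).1 (h1 k hk).2.2 0
    have e2 : (fun z => Phi (k z).rep) = fun _ => Phi (k 0).rep :=
      funext fun z => by rw [hcon z 0]
    have e3 := (hcC1 _ (holP_of_map hin.1) (fun z => mem_TF (hin.2 z)) 0).2
    rw [e1, e2] at e3
    simp at e3
    linarith
  · obtain ⟨k, hk, φ, -, hφ⟩ := h3 f hf hne
    exact ⟨k, hk, φ z, hφ z⟩
  obtain ⟨z₁, hz₁, hne₁⟩ := hne
  set φ : ℂ → Mat (n + 1) := fun z => Phi (f z).rep with hφ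
  have hpd : PD F (ball 0 1 \ {0}) φ :=
    ⟨isOpen_punct, holP_of_mapOn hf, fun z hz => mem_TF (hfX z hz)⟩
  have hlift : ∀ z ∈ ball (0 : ℂ) 1 \ {0}, ∃ τ ∈ upper, Complex.exp (Complex.I * τ) = z := by
    intro z hz
    obtain ⟨e1, i1⟩ := exp_lift (show z ≠ 0 from hz.2)
    refine ⟨_, ?_, e1⟩
    change 0 < (-Complex.I * Complex.log z).im
    rw [i1]
    have := Real.log_neg (norm_pos_iff.2 (show z ≠ 0 from hz.2)) (mem_ball_zero_iff.1 hz.1)
    linarith
  obtain ⟨τ₁, hτ₁, he₁⟩ := hlift z₁ hz₁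
  classical
  by_cases hcst : ∃ τ ∈ upper, φ (Complex.exp (Complex.I * τ)) ≠ φ (Complex.exp (Complex.I * τ₁))
  · obtain ⟨τ₂, hτ₂, hne₂⟩ := hcst
    have hpos := hD.exists_pos (S := (S : Set (ℂ → ℙ ℂ (Fin (n + 1) → ℂ)))) S.finite_toSet
      (fun k hk => (h1 k hk).1) (fun k hk => (h1 k hk).2.1) h2 hpd.expo hτ₁ hτ₂ hne₂
      (fun k hk s hs => by
        rw [he₁] at hs
        exact hne₁ k hk s (proj_ext hs))
    obtain ⟨p, hpT, hp⟩ := hD.limit hpd hpos
    have hext := holP_extend hpd.hol (TF_PM hpT) hp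
    obtain ⟨u, hu, hpu⟩ := hpT
    set g : ℂ → ℙ ℂ (Fin (n + 1) → ℂ) := Function.update f 0 (Projectivization.mk ℂ u hu.1) with hg
    have hg0 : g 0 = Projectivization.mk ℂ u hu.1 := Function.update_self _ _ _
    have hgz : ∀ z, z ≠ 0 → g z = f z := fun z hz => Function.update_of_ne hz _ _
    refine ⟨g, mapOn_of_holP ?_, fun z hz => ?_, fun z hz => hgz z hz.2⟩
    · have h1 : (fun z => Phi (g z).rep) = Function.update φ 0 p := by
        funext z
        by_cases h0 : z = 0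
        · rw [h0, hg0, Function.update_self, ← hpu]
          obtain ⟨c, hc, hcr⟩ := mk_rep_smul hu.1
          rw [hcr, Phi_smul hc]
        · rw [hgz z h0, Function.update_of_ne h0]
      rw [h1]
      exact hext
    · by_cases h0 : z = 0
      · rw [h0, hg0]
        obtain ⟨c, hc, hcr⟩ := mk_rep_smul hu.1
        rw [hcr]
        exact cone_smul hX.form hu hc
      · rw [hgz z h0]
        exact hfX z ⟨hz, h0⟩
  · push Not at hcst
    have hc : ∀ z ∈ ball (0 : ℂ) 1 \ {0}, f z = f z₁ := by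
      intro z hz
      obtain ⟨τ, hτ, he⟩ := hlift z hz
      have h5 := hcst τ hτ
      rw [he, he₁] at h5
      exact proj_ext h5
    refine ⟨fun _ => f z₁, fun z _ => ⟨univ, fun _ => (f z₁).rep, isOpen_univ, mem_univ z,
      differentiableOn_const _, fun w _ => ⟨(f z₁).rep_nonzero, (f z₁).mk_rep.symm⟩⟩,
      fun z _ => hfX z₁ hz₁, fun z hz => (hc z hz).symm⟩

end Pool.Agent.H33
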