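import Mathlib

/-! Functions with subharmonic logarithm in the plane. -/

set_option autoImplicit false

open Filter Topology Metric Set

namespace Pool.Agent.H33

/-- The function `u ≥ 0` on the open set `V` of the plane is continuous and its logarithm is
subharmonic: for all `δ > 0`, the value of `log (max u δ)` at the center of a closed disc in `V` is at
most its average on the boundary circle. (The logarithm of `u` may be minus infinity.) -/
structure LogSubharmonic (u : ℂ → ℝ) (V : Set ℂ) : Prop where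
  cont : ContinuousOn u V
  nonneg : ∀ z ∈ V, 0 ≤ u z
  mean : ∀ (a : ℂ) (r δ : ℝ), 0 < r → closedBall a r ⊆ V → 0 < δ →
    Real.log (max (u a) δ) ≤ Real.circleAverage (fun z => Real.log (max (u z) δ)) a r

theorem circleAverage_sq {z₀ w : ℂ} {s : ℝ} (hs : 0 < s) :
    Real.circleAverage (fun z => ‖z - z₀‖ ^ 2) w s = ‖w - z₀‖ ^ 2 + s ^ 2 := by
  have h1 : ∀ z ∈ sphere w |s|, ‖z - z₀‖ ^ 2 =
      (s ^ 2 + ‖w - z₀‖ ^ 2) + (2 * ((starRingEnd ℂ) (w - z₀) * (z - w))).re := by
    intro z hz
    rw [abs_of_pos hs, mem_sphere, dist_eq_norm] at hz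
    have e : z - z₀ = (z - w) + (w - z₀) := by ring
    rw [e, ← Complex.normSq_eq_norm_sq, Complex.normSq_add, Complex.normSq_eq_norm_sq,
      Complex.normSq_eq_norm_sq, hz]
    have e2 : (z - w) * (starRingEnd ℂ) (w - z₀) = (starRingEnd ℂ) (w - z₀) * (z - w) := by ring
    rw [e2]
    simp only [Complex.mul_re, Complex.re_ofNat, Complex.im_ofNat, zero_mul, sub_zero]
  have h2 : Real.circleAverage (fun z => (s ^ 2 + ‖w - z₀‖ ^ 2) +
      (2 * ((starRingEnd ℂ) (w - z₀) * (z - w))).re) w s = s ^ 2 + ‖w - z₀‖ ^ 2 := by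
    have hh : InnerProductSpace.HarmonicOnNhd (fun z : ℂ => (s ^ 2 + ‖w - z₀‖ ^ 2) +
      (2 * ((starRingEnd ℂ) (w - z₀) * (z - w))).re) (closedBall w |s|) := by
      have h3 : (fun z : ℂ => (s ^ 2 + ‖w - z₀‖ ^ 2) +
        (2 * ((starRingEnd ℂ) (w - z₀) * (z - w))).re) =
        fun z : ℂ => (((s ^ 2 + ‖w - z₀‖ ^ 2 : ℝ) : ℂ) +
        (2 * ((starRingEnd ℂ) (w - z₀) * (z - w)))).re := by
        funext z
        rw [Complex.add_re, Complex.ofReal_re]
      rw [h3]
      intro z _
      apply AnalyticAt.harmonicAt_re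
      fun_prop
    rw [hh.circleAverage_eq]
    simp
  rw [Real.circleAverage_congr_sphere h1, h2]
  ring

/-- the comparison on annuli -/
theorem annulus_le {v : ℂ → ℝ} (hc : Continuous v) {M : ℝ} (hM : ∀ z, v z ≤ M)
    (hm : ∀ a : ℂ, ∃ r₀ : ℝ, 0 < r₀ ∧ ∀ r, 0 < r → r < r₀ → v a ≤ Real.circleAverage v a r) {z₀ z : ℂ} {ρ m ε : ℝ}
    (hρ : 0 < ρ) (hε : 0 < ε) (hsph : ∀ w, ‖w - z₀‖ = ρ → v w ≤ m) (hz : ρ < ‖z - z₀‖) :
    v z ≤ m + ε * Real.log (‖z - z₀‖ / ρ) := by
  by_contra hcon
  push Not at hcon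
  obtain ⟨R, hR1, hR2⟩ : ∃ R : ℝ, ‖z - z₀‖ < R ∧ M ≤ m + ε * Real.log (R / ρ) := by
    have h1 : Tendsto (fun R : ℝ => m + ε * Real.log (R / ρ)) atTop atTop := by
      apply tendsto_atTop_add_const_left
      apply Tendsto.const_mul_atTop hε
      exact Real.tendsto_log_atTop.comp (tendsto_id.atTop_div_const hρ)
    obtain ⟨R, h2, h3⟩ := ((eventually_gt_atTop ‖z - z₀‖).and (h1.eventually_ge_atTop M)).exists
    exact ⟨R, h2, h3⟩
  have hR0 : 0 < R := hρ.trans (hz.trans hR1)
  set h : ℂ → ℝ := fun w => v w - m - ε * Real.log (‖w - z₀‖ / ρ) with hh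
  have hhz : 0 < h z := by
    rw [hh]
    simp only
    linarith
  set η : ℝ := h z / (2 * R ^ 2) with hη
  have hη0 : 0 < η := by positivity
  set K : Set ℂ := closedBall z₀ R \ ball z₀ ρ with hK
  have hKc : IsCompact K := (isCompact_closedBall z₀ R).diff isOpen_ball
  have hKm : ∀ w, w ∈ K ↔ ρ ≤ ‖w - z₀‖ ∧ ‖w - z₀‖ ≤ R := by
    intro w
    rw [hK, Set.mem_sdiff, mem_closedBall, mem_ball, dist_eq_norm, not_lt]
    exact and_comm
  have hzK : z ∈ K := (hKm z).2 ⟨hz.le, hR1.le⟩
  have hcont : ContinuousOn (fun w => h w + η * ‖w - z₀‖ ^ 2) K := by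
    intro w hw
    have hw1 := ((hKm w).1 hw).1
    have hw0 : ‖w - z₀‖ / ρ ≠ 0 := (div_pos (hρ.trans_le hw1) hρ).ne'
    have h2 : ContinuousAt (fun w : ℂ => Real.log (‖w - z₀‖ / ρ)) w := by
      have h5 : ContinuousAt (fun w : ℂ => ‖w - z₀‖ / ρ) w := by fun_prop
      exact h5.log hw0
    have h3 : ContinuousAt (fun w => h w + η * ‖w - z₀‖ ^ 2) w := by
      rw [hh]
      have := hc.continuousAt (x := w)
      fun_prop
    exact h3.continuousWithinAt
  obtain ⟨w₁, hw₁K, hw₁⟩ := hKc.exists_isMaxOn ⟨z, hzK⟩ hcont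
  have hmax : ∀ w ∈ K, h w + η * ‖w - z₀‖ ^ 2 ≤ h w₁ + η * ‖w₁ - z₀‖ ^ 2 := fun w hw => hw₁ hw
  have hbig : η * R ^ 2 < h w₁ + η * ‖w₁ - z₀‖ ^ 2 := by
    refine lt_of_lt_of_le ?_ (hmax z hzK)
    have e1 : η * R ^ 2 = h z / 2 := by
      rw [hη]
      field_simp
    rw [e1]
    have := mul_nonneg hη0.le (sq_nonneg ‖z - z₀‖)
    linarith
  obtain ⟨hw1, hw2⟩ := (hKm w₁).1 hw₁K
  have hlow : ρ < ‖w₁ - z₀‖ := by
    rcases hw1.lt_or_eq with h1 | h1
    · exact h1
    · exfalso
      have e1 : h w₁ ≤ 0 := by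
        rw [hh]
        simp only
        rw [← h1, div_self hρ.ne', Real.log_one]
        have := hsph w₁ h1.symm
        linarith
      have e2 : η * ‖w₁ - z₀‖ ^ 2 ≤ η * R ^ 2 := by gcongr
      linarith
  have hup : ‖w₁ - z₀‖ < R := by
    rcases hw2.lt_or_eq with h1 | h1
    · exact h1
    · exfalso
      have e1 : h w₁ ≤ 0 := by
        rw [hh]
        simp only
        rw [h1]
        have := hM w₁
        linarith
      rw [h1] at hbig
      linarith
  obtain ⟨r₀, hr₀, hmr⟩ := hm w₁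
  obtain ⟨s, hs0, hs1, hs2, hs3⟩ : ∃ s : ℝ, 0 < s ∧ s < ‖w₁ - z₀‖ - ρ ∧ s < R - ‖w₁ - z₀‖ ∧
      s < r₀ := by
    obtain ⟨s, h1, h2⟩ := exists_between (lt_min (lt_min (sub_pos.2 hlow) (sub_pos.2 hup)) hr₀)
    exact ⟨s, h1, (h2.trans_le (min_le_left _ _)).trans_le (min_le_left _ _),
      (h2.trans_le (min_le_left _ _)).trans_le (min_le_right _ _), h2.trans_le (min_le_right _ _)⟩
  have hsphere : ∀ w ∈ sphere w₁ |s|, v w ≤ (h w₁ + η * ‖w₁ - z₀‖ ^ 2 + m) +
      ε * Real.log ‖w - z₀‖ - ε * Real.log ρ - η * ‖w - z₀‖ ^ 2 := by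
    intro w hw
    rw [abs_of_pos hs0, mem_sphere, dist_eq_norm] at hw
    have e1 : ‖w₁ - z₀‖ ≤ ‖w - z₀‖ + s := by
      have : w₁ - z₀ = (w - z₀) - (w - w₁) := by ring
      rw [this, ← hw]
      exact norm_sub_le _ _
    have e2 : ‖w - z₀‖ ≤ ‖w₁ - z₀‖ + s := by
      have : w - z₀ = (w₁ - z₀) + (w - w₁) := by ring
      rw [this, ← hw]
      exact norm_add_le _ _
    have hwK : w ∈ K := (hKm w).2 ⟨by linarith, by linarith⟩
    have e3 := hmax w hwK
    have e4 : h w = v w - m - ε * (Real.log ‖w - z₀‖ - Real.log ρ) := by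
      rw [hh]
      simp only
      rw [Real.log_div (by linarith) hρ.ne']
    rw [e4] at e3
    linarith
  have hnz : ∀ w ∈ sphere w₁ |s|, w - z₀ ≠ 0 := by
    intro w hw h0
    rw [abs_of_pos hs0, mem_sphere, dist_eq_norm] at hw
    have e1 : w = z₀ := sub_eq_zero.1 h0
    rw [e1, norm_sub_rev] at hw
    linarith
  have hcl : ContinuousOn (fun w => Real.log ‖w - z₀‖) (sphere w₁ |s|) := by
    intro w hw
    have h5 : ContinuousAt (fun w : ℂ => ‖w - z₀‖) w := by fun_prop
    exact (h5.log (norm_ne_zero_iff.2 (hnz w hw))).continuousWithinAt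
  have hci1 : CircleIntegrable (fun w => Real.log ‖w - z₀‖) w₁ s := hcl.circleIntegrable'
  have hci2 : CircleIntegrable (fun w => ‖w - z₀‖ ^ 2) w₁ s := by
    apply ContinuousOn.circleIntegrable'
    fun_prop
  have hlog : Real.circleAverage (fun w => Real.log ‖w - z₀‖) w₁ s = Real.log ‖w₁ - z₀‖ := by
    rw [circleAverage_log_norm_sub_const_eq_log_radius_add_posLog hs0.ne']
    have e1 : 1 ≤ s⁻¹ * ‖w₁ - z₀‖ := by
      rw [inv_mul_eq_div, le_div_iff₀ hs0]
      linarith
    rw [Real.posLog_eq_log (by rwa [abs_of_pos (by linarith)]), ← Real.log_mul hs0.ne' (by positivity)]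
    congr 1
    field_simp
  have havg : Real.circleAverage (fun w => (h w₁ + η * ‖w₁ - z₀‖ ^ 2 + m) +
      ε * Real.log ‖w - z₀‖ - ε * Real.log ρ - η * ‖w - z₀‖ ^ 2) w₁ s = v w₁ - η * s ^ 2 := by
    have e1 : (fun w : ℂ => (h w₁ + η * ‖w₁ - z₀‖ ^ 2 + m) +
      ε * Real.log ‖w - z₀‖ - ε * Real.log ρ - η * ‖w - z₀‖ ^ 2) =
      fun w : ℂ => ((h w₁ + η * ‖w₁ - z₀‖ ^ 2 + m - ε * Real.log ρ) +
        ε • Real.log ‖w - z₀‖) + (-η) • ‖w - z₀‖ ^ 2 := by
      funext w
      simp only [smul_eq_mul]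
      ring
    have hce : CircleIntegrable (fun w : ℂ => ε • Real.log ‖w - z₀‖) w₁ s := hci1.const_fun_smul
    have hce2 : CircleIntegrable (fun w : ℂ => (-η) • ‖w - z₀‖ ^ 2) w₁ s := hci2.const_fun_smul
    have hce3 : CircleIntegrable (fun w : ℂ => (h w₁ + η * ‖w₁ - z₀‖ ^ 2 + m - ε * Real.log ρ) +
        ε • Real.log ‖w - z₀‖) w₁ s := (circleIntegrable_const _ _ _).add hce
    rw [e1, Real.circleAverage_fun_add hce3 hce2,
      Real.circleAverage_fun_add (circleIntegrable_const _ _ _) hce, Real.circleAverage_const,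
      Real.circleAverage_fun_smul, Real.circleAverage_fun_smul, hlog, circleAverage_sq hs0]
    have e4 : h w₁ = v w₁ - m - ε * (Real.log ‖w₁ - z₀‖ - Real.log ρ) := by
      rw [hh]
      simp only
      rw [Real.log_div (by linarith) hρ.ne']
    rw [e4]
    simp only [smul_eq_mul]
    ring
  have hfin : v w₁ ≤ v w₁ - η * s ^ 2 := by
    refine (hmr s hs0 hs3).trans ?_
    rw [← havg]
    apply Real.circleAverage_mono
    · exact hc.continuousOn.circleIntegrable'
    · apply ContinuousOn.circleIntegrable'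
      exact ((continuousOn_const.add (continuousOn_const.mul hcl)).sub continuousOn_const).sub
        (by fun_prop)
    · exact hsphere
  have := mul_pos hη0 (pow_pos hs0 2)
  linarith

/-- **Liouville's theorem** for continuous subharmonic functions -/
theorem liouville {v : ℂ → ℝ} (hc : Continuous v) {M : ℝ} (hM : ∀ z, v z ≤ M)
    (hm : ∀ a : ℂ, ∃ r₀ : ℝ, 0 < r₀ ∧ ∀ r, 0 < r → r < r₀ → v a ≤ Real.circleAverage v a r)
    (z w : ℂ) : v z = v w := by
  have key : ∀ z₀ z : ℂ, v z ≤ v z₀ := by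
    intro z₀ z
    by_cases hz : z = z₀
    · rw [hz]
    apply le_of_forall_pos_le_add
    intro ε hε
    have hd : 0 < ‖z - z₀‖ := norm_pos_iff.2 (sub_ne_zero.2 hz)
    obtain ⟨δ, hδ, hδv⟩ := Metric.continuousAt_iff.1 (hc.continuousAt (x := z₀)) (ε / 2)
      (by positivity)
    set ρ : ℝ := min (δ / 2) (‖z - z₀‖ / 2) with hρ
    have hρ0 : 0 < ρ := by positivity
    have hρδ : ρ < δ := (min_le_left _ _).trans_lt (by linarith)
    have hρz : ρ < ‖z - z₀‖ := (min_le_right _ _).trans_lt (by linarith)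
    have hsph : ∀ w, ‖w - z₀‖ = ρ → v w ≤ v z₀ + ε / 2 := by
      intro w hw
      have h1 := hδv (x := w) (by rw [dist_eq_norm, hw]; exact hρδ)
      rw [Real.dist_eq] at h1
      linarith [(abs_lt.1 h1).2]
    have hlogpos : 0 < Real.log (‖z - z₀‖ / ρ) := Real.log_pos ((one_lt_div hρ0).2 hρz)
    have h2 := annulus_le hc hM hm hρ0 (ε := ε / 2 / Real.log (‖z - z₀‖ / ρ)) (by positivity) hsph hρz
    rw [div_mul_cancel₀ _ hlogpos.ne'] at h2
    linarith
  exact le_antisymm (key w z) (key z w)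

/-- a bounded function with locally subharmonic logarithm on the plane is constant -/
theorem const_of_local {u : ℂ → ℝ} (h : ∀ a : ℂ, ∃ (V : Set ℂ) (w : ℂ → ℝ), IsOpen V ∧ a ∈ V ∧
    LogSubharmonic w V ∧ ∀ z ∈ V, u z = w z) {B : ℝ} (hB : ∀ z, u z ≤ B) (z w : ℂ) : u z = u w := by
  have hcu : Continuous u := by
    rw [continuous_iff_continuousAt]
    intro a
    obtain ⟨V, w, hV, haV, hw, huw⟩ := h a
    refine (hw.cont.continuousAt (hV.mem_nhds haV)).congr ?_
    filter_upwards [hV.mem_nhds haV] with z hz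
    exact (huw z hz).symm
  have hnn : ∀ a, 0 ≤ u a := by
    intro a
    obtain ⟨V, w, hV, haV, hw, huw⟩ := h a
    rw [huw a haV]
    exact hw.nonneg a haV
  have key : ∀ δ : ℝ, 0 < δ → max (u z) δ = max (u w) δ := by
    intro δ hδ
    have hpos : ∀ x, 0 < max (u x) δ := fun x => hδ.trans_le (le_max_right _ _)
    have hc : Continuous fun x => Real.log (max (u x) δ) :=
      Continuous.log (hcu.max continuous_const) fun x => (hpos x).ne'
    have h1 := liouville hc (M := Real.log (max B δ)) (fun x => Real.log_le_log (hpos x)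
      (max_le_max (hB x) le_rfl)) (fun a => by
        obtain ⟨V, w, hV, haV, hw, huw⟩ := h a
        obtain ⟨r₀, hr₀, hball⟩ := Metric.isOpen_iff.1 hV a haV
        refine ⟨r₀, hr₀, fun r hr hrr => ?_⟩
        have hsub : closedBall a r ⊆ V := (closedBall_subset_ball hrr).trans hball
        have h2 := hw.mean a r δ hr hsub hδ
        rw [huw a haV]
        refine h2.trans (le_of_eq ?_)
        apply Real.circleAverage_congr_sphere
        intro x hx
        rw [abs_of_pos hr] at hx
        simp only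
        rw [huw x (hsub (sphere_subset_closedBall hx))]) z w
    exact Real.log_injOn_pos (hpos z) (hpos w) h1
  have h2 : ∀ ε : ℝ, 0 < ε → u z ≤ u w + ε ∧ u w ≤ u z + ε := by
    intro ε hε
    have h3 := key ε hε
    have h4 := hnn z
    have h5 := hnn w
    constructor
    · have : u z ≤ max (u w) ε := h3 ▸ le_max_left _ _
      exact this.trans (max_le (by linarith) (by linarith))
    · have : u w ≤ max (u z) ε := h3.symm ▸ le_max_left _ _
      exact this.trans (max_le (by linarith) (by linarith))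
  apply le_antisymm
  · exact le_of_forall_pos_le_add fun ε hε => (h2 ε hε).1
  · exact le_of_forall_pos_le_add fun ε hε => (h2 ε hε).2

/-- the mean value inequality for the square -/
theorem LogSubharmonic.mean_sq {u : ℂ → ℝ} {V : Set ℂ} (h : LogSubharmonic u V) {a : ℂ} {r : ℝ}
    (hr : 0 < r) (hV : closedBall a r ⊆ V) :
    u a ^ 2 ≤ Real.circleAverage (fun z => u z ^ 2) a r := by
  have haV : a ∈ V := hV (mem_closedBall_self hr.le)
  have hcs : ContinuousOn u (sphere a |r|) := by
    rw [abs_of_pos hr]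
    exact h.cont.mono (sphere_subset_closedBall.trans hV)
  have hci : CircleIntegrable (fun z => u z ^ 2) a r := (hcs.pow 2).circleIntegrable'
  have key : ∀ δ : ℝ, 0 < δ → u a ^ 2 ≤ Real.circleAverage (fun z => u z ^ 2) a r + δ ^ 2 := by
    intro δ hδ
    have hpos : ∀ x, 0 < max (u x) δ := fun x => hδ.trans_le (le_max_right _ _)
    have hcl : ContinuousOn (fun z => Real.log (max (u z) δ)) (sphere a |r|) := by
      apply ContinuousOn.log
      · exact hcs.sup continuousOn_const
      · exact fun x _ => (hpos x).ne'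
    have h1 := h.mean a r δ hr hV hδ
    have hcm : ContinuousOn (fun θ : ℝ => 2 * Real.log (max (u (circleMap a r θ)) δ))
        (Set.uIcc 0 (2 * Real.pi)) := by
      apply continuousOn_const.mul
      apply hcl.comp (continuous_circleMap a r).continuousOn
      intro θ _
      exact circleMap_mem_sphere' a r θ
    have hcm' : IntervalIntegrable (fun θ : ℝ => 2 * Real.log (max (u (circleMap a r θ)) δ))
        MeasureTheory.volume 0 (2 * Real.pi) := hcm.intervalIntegrable
    have hce : IntervalIntegrable (fun θ : ℝ => Real.exp (2 * Real.log (max (u (circleMap a r θ)) δ)))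
        MeasureTheory.volume 0 (2 * Real.pi) := (Real.continuous_exp.comp_continuousOn hcm).intervalIntegrable
    have h2 : Real.exp (⨍ θ in (0 : ℝ)..2 * Real.pi, 2 * Real.log (max (u (circleMap a r θ)) δ)) ≤
        ⨍ θ in (0 : ℝ)..2 * Real.pi, Real.exp (2 * Real.log (max (u (circleMap a r θ)) δ)) := by
      have hle : (0 : ℝ) ≤ 2 * Real.pi := by positivity
      apply ConvexOn.map_set_average_le convexOn_exp Real.continuous_exp.continuousOn isClosed_univ
      · rw [Set.uIoc_of_le hle, Real.volume_Ioc]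
        simp [Real.pi_pos]
      · rw [Set.uIoc_of_le hle, Real.volume_Ioc]
        exact ENNReal.ofReal_ne_top
      · exact Eventually.of_forall fun _ => mem_univ _
      · exact intervalIntegrable_iff.1 hcm'
      · exact intervalIntegrable_iff.1 hce
    have h3 : (⨍ θ in (0 : ℝ)..2 * Real.pi, 2 * Real.log (max (u (circleMap a r θ)) δ)) =
        2 * Real.circleAverage (fun z => Real.log (max (u z) δ)) a r := by
      rw [Real.circleAverage_eq_intervalAverage, interval_average_eq, interval_average_eq,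
        intervalIntegral.integral_const_mul]
      simp only [smul_eq_mul]
      ring
    have h4 : (⨍ θ in (0 : ℝ)..2 * Real.pi, Real.exp (2 * Real.log (max (u (circleMap a r θ)) δ))) =
        Real.circleAverage (fun z => max (u z) δ ^ 2) a r := by
      rw [Real.circleAverage_eq_intervalAverage]
      congr 1
      funext θ
      rw [mul_comm, Real.exp_mul, Real.exp_log (hpos _)]
      norm_cast
    rw [h3, h4] at h2
    have h5 : u a ^ 2 ≤ Real.exp (2 * Real.circleAverage (fun z => Real.log (max (u z) δ)) a r) := by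
      calc u a ^ 2 ≤ max (u a) δ ^ 2 := pow_le_pow_left₀ (h.nonneg a haV) (le_max_left _ _) 2
        _ = Real.exp (2 * Real.log (max (u a) δ)) := by
            rw [mul_comm, Real.exp_mul, Real.exp_log (hpos _)]
            norm_cast
        _ ≤ _ := Real.exp_le_exp.2 (by linarith)
    refine h5.trans (h2.trans ?_)
    have h6 : Real.circleAverage (fun z => u z ^ 2 + δ ^ 2) a r =
        Real.circleAverage (fun z => u z ^ 2) a r + δ ^ 2 := by
      rw [Real.circleAverage_fun_add hci (circleIntegrable_const _ _ _), Real.circleAverage_const]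
    rw [← h6]
    apply Real.circleAverage_mono
    · exact ((hcs.sup continuousOn_const).pow 2).circleIntegrable'
    · exact hci.add (circleIntegrable_const _ _ _)
    · intro x hx
      rw [abs_of_pos hr] at hx
      have hx0 := h.nonneg x (hV (sphere_subset_closedBall hx))
      rcases le_total (u x) δ with h7 | h7
      · rw [max_eq_right h7]
        have := sq_nonneg (u x)
        linarith
      · rw [max_eq_left h7]
        have := sq_nonneg δ
        linarith
  have h8 : Tendsto (fun δ : ℝ => Real.circleAverage (fun z => u z ^ 2) a r + δ ^ 2) (𝓝[>] 0)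
      (𝓝 (Real.circleAverage (fun z => u z ^ 2) a r + 0 ^ 2)) := by
    apply Tendsto.mono_left _ nhdsWithin_le_nhds
    exact (continuous_const.add (continuous_id.pow 2)).tendsto 0
  have h9 := ge_of_tendsto h8 (by
    filter_upwards [self_mem_nhdsWithin] with δ hδ
    exact key δ hδ)
  simpa using h9

end Pool.Agent.H33
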