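import Pool.Graph.R_pool_sql_team_seeded_63374d34.N155.B.Defs
import Pool.Graph.R_pool_sql_team_seeded_63374d34.N154.DD.KDefs
import Pool.Agent.H33.Sub

/-! Complex Finsler metrics of nonpositive curvature on projective manifolds. -/

set_option autoImplicit false

open Filter Topology Metric LinearAlgebra.Projectivization Pool.Agent.W602.GT

namespace Pool.Agent.H33

open Pool.Agent.N155.BB

variable {n : ℕ} {ι : Type}

/-- `Φ` is a (possibly degenerate) complex Finsler metric of nonpositive curvature on the projective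
manifold of dimension `d` with the cone `X`: the length `Φ x v` of the tangent vector of projective
space at `x` given by `v`, for `x` in `X` and for tangent vectors `v` of `X` at `x`, is continuous,
satisfies `Φ (c x) (c (v + a x)) = Φ x v` and `Φ x (c v) = |c| Φ x v` (`c`, `a` numbers, `c ≠ 0`), and
along every holomorphic curve in `X`, given by homogeneous coordinates `g`, the logarithm of the
length of its derivative is subharmonic, that is, the metric induced on the curve has nonpositive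
curvature. For a Hermitian metric this says that its holomorphic sectional curvature is nonpositive. -/
structure NonposMetric (X : Set (Fin (n + 1) → ℂ)) (d : ℕ)
    (Φ : (Fin (n + 1) → ℂ) → (Fin (n + 1) → ℂ) → ℝ) : Prop where
  twist : ∀ x ∈ X, ∀ (v : Fin (n + 1) → ℂ) (c a : ℂ), c ≠ 0 → Φ (c • x) (c • (v + a • x)) = Φ x v
  deg : ∀ x ∈ X, ∀ (v : Fin (n + 1) → ℂ) (c : ℂ), Φ x (c • v) = ‖c‖ * Φ x v
  cont : ∀ (U : Set (Fin d → ℂ)) (Ψ : (Fin d → ℂ) → Fin (n + 1) → ℂ), IsOpen U →
    AnalyticOnNhd ℂ Ψ U → (∀ z ∈ U, Ψ z ∈ X) →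
    ContinuousOn (fun p : (Fin d → ℂ) × (Fin d → ℂ) => Φ (Ψ p.1) (fderiv ℂ Ψ p.1 p.2))
      (U ×ˢ Set.univ)
  curv : ∀ (V : Set ℂ) (g : ℂ → Fin (n + 1) → ℂ), IsOpen V → DifferentiableOn ℂ g V →
    (∀ z ∈ V, g z ∈ X) → LogSubharmonic (fun z => Φ (g z) (deriv g z)) V

/-- The Finsler metric `Φ` on the projective manifold of dimension `d` with the cone `X` is
nondegenerate: the nonzero tangent vectors of the manifold have positive length. -/
def Nondegenerate (X : Set (Fin (n + 1) → ℂ)) (d : ℕ)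
    (Φ : (Fin (n + 1) → ℂ) → (Fin (n + 1) → ℂ) → ℝ) : Prop :=
  ∀ (U : Set (Fin d → ℂ)) (Ψ : (Fin d → ℂ) → Fin (n + 1) → ℂ), IsOpen U →
    AnalyticOnNhd ℂ Ψ U → (∀ z ∈ U, Ψ z ∈ X) → ∀ z ∈ U, ∀ a : Fin d → ℂ,
    LinearIndependent ℂ ![Ψ z, fderiv ℂ Ψ z a] → 0 < Φ (Ψ z) (fderiv ℂ Ψ z a)

/-- The derivative of the curve `f` has everywhere the length `c` with respect to the Finsler metric
`Φ`; here `g` are local homogeneous coordinates of `f`. -/
def HasSpeed (Φ : (Fin (n + 1) → ℂ) → (Fin (n + 1) → ℂ) → ℝ) (c : ℝ)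
    (f : ℂ → ℙ ℂ (Fin (n + 1) → ℂ)) : Prop :=
  ∀ (V : Set ℂ) (g : ℂ → Fin (n + 1) → ℂ), IsOpen V → DifferentiableOn ℂ g V →
    (∀ w ∈ V, ∃ h : g w ≠ 0, f w = Projectivization.mk ℂ (g w) h) → ∀ z ∈ V, Φ (g z) (deriv g z) = c

/-- The area, with respect to the Fubini-Study metric, of the curve with the homogeneous coordinates
`g` over the disc with center `0` and radius `r`. -/
noncomputable def area (g : ℂ → Fin (n + 1) → ℂ) (r : ℝ) : ℝ :=
  ∫ z in ball (0 : ℂ) r, (wedge (g z) (deriv g z) / ∑ k, ‖g z k‖ ^ 2) ^ 2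

/-- The curve `f` has entire homogeneous coordinates `g` for which the area over the discs with
center `0` and radius `r` is at most `B r ^ 2` for a number `B` and arbitrarily large `r`. -/
def SlowArea (f : ℂ → ℙ ℂ (Fin (n + 1) → ℂ)) : Prop :=
  ∃ g : ℂ → Fin (n + 1) → ℂ, Differentiable ℂ g ∧
    (∀ z, ∃ h : g z ≠ 0, f z = Projectivization.mk ℂ (g z) h) ∧
    ∃ B : ℝ, ∃ᶠ r in atTop, area g r ≤ B * r ^ 2

/-- The projective set `X = {F = 0}` is Kobayashi hyperbolic: the Kobayashi pseudodistance is bounded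
below by a positive multiple of the distance of projective space. -/
def KobayashiHyperbolic (F : ι → MvPolynomial (Fin (n + 1)) ℂ) : Prop :=
  ∃ c : ℝ, 0 < c ∧ ∀ p q : ℙ ℂ (Fin (n + 1) → ℂ), p.rep ∈ Cone F → q.rep ∈ Cone F →
    ENNReal.ofReal (c * Pool.Agent.N154.GG.projDist p q) ≤ Pool.Agent.N154.GG.kobayashi (Cone F) p q

end Pool.Agent.H33
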