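import Pool.Agent.H33.NKob

/-! Nondegenerate metrics of nonpositive curvature: all curves of slow growth are elliptic. -/

set_option autoImplicit false

open Filter Topology Metric Set MvPolynomial LinearAlgebra.Projectivization MeasureTheory

namespace Pool.Agent.H33

open Pool.Agent.Y190.OP Pool.Agent.W602.GT Pool.Agent.N155 Pool.Agent.N155.BB
open Pool.Agent.N154.GG (kobayashi projDist)

variable {n : ℕ} {ι ι' : Type} {F : ι → MvPolynomial (Fin (n + 1)) ℂ}
  {G : ι' → MvPolynomial (Fin (n + 1)) ℂ} {d : ℕ}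
  {κ : Type} {η : κ → (Fin (n + 1) → ℂ) → (Fin (n + 1) → ℂ) → (Fin (n + 1) → ℂ) → ℂ}
  {Φ : (Fin (n + 1) → ℂ) → (Fin (n + 1) → ℂ) → ℝ}

theorem continuous_speed {g : ℂ → Fin (n + 1) → ℂ} (hg : Differentiable ℂ g) (hg0 : ∀ z, g z ≠ 0) :
    Continuous fun z => wedge (g z) (deriv g z) / ∑ k, ‖g z k‖ ^ 2 := by
  have h1 : Continuous g := hg.continuous
  have h2 : Continuous (deriv g) := by
    rw [continuous_iff_continuousAt]
    intro z
    have h3 : AnalyticAt ℂ g z := by
      rw [Complex.analyticAt_iff_eventually_differentiableAt]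
      exact Eventually.of_forall hg
    exact h3.deriv.continuousAt
  apply Continuous.div
  · unfold wedge
    apply Continuous.sqrt
    apply Continuous.div_const
    refine continuous_finsetSum _ fun i _ => continuous_finsetSum _ fun j _ => ?_
    apply Continuous.pow
    apply Continuous.norm
    exact (((continuous_apply i).comp h1).mul ((continuous_apply j).comp h2)).sub
      (((continuous_apply j).comp h1).mul ((continuous_apply i).comp h2))
  · refine continuous_finsetSum _ fun i _ => ?_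
    exact (((continuous_apply i).comp h1).norm).pow 2
  · exact fun z => (sum_pos (hg0 z)).ne'

/-- curves of slow growth have bounded derivatives -/
theorem bounded_of_slow (hX : ProjManifold F d) (hΦ : NonposMetric (Cone F) d Φ)
    {f : ℂ → ℙ ℂ (Fin (n + 1) → ℂ)} (hf : HolIn F f) (hs : SlowArea f) :
    ∃ B : ℝ, ∀ z i, Phi (f z).rep i i ≠ 0 → pv Φ (fun z => Phi (f z).rep) i z ≤ B := by
  obtain ⟨A, hA, hw⟩ := wedge_fderiv n
  obtain ⟨C1, hC1, hle⟩ := pv_le hX hΦ
  obtain ⟨g, hg, hfg, B, hB⟩ := hs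
  have hg0 : ∀ z, g z ≠ 0 := fun z => (hfg z).1
  have hlift : ∀ z, g z ∈ Cone F ∧ ∃ i, Phi (f z).rep i i ≠ 0 ∧
      Φ (g z) (deriv g z) = pv Φ (fun z => Phi (f z).rep) i z := fun z =>
    pv_lift hX hΦ hf isOpen_univ hg.differentiableOn (fun w _ => hfg w) (mem_univ z)
  set u : ℂ → ℝ := fun z => Φ (g z) (deriv g z) with hu
  have husub : LogSubharmonic u univ :=
    hΦ.curv univ g isOpen_univ hg.differentiableOn fun z _ => (hlift z).1
  set σ : ℂ → ℝ := fun z => wedge (g z) (deriv g z) / ∑ k, ‖g z k‖ ^ 2 with hσ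
  have hσc : Continuous σ := continuous_speed hg hg0
  have hσ0 : ∀ z, 0 ≤ σ z := fun z => div_nonneg (wedge_nonneg _ _) (sum_pos (hg0 z)).le
  have huσ : ∀ z, u z ≤ C1 * A * σ z := by
    intro z
    obtain ⟨-, i, hi, h1⟩ := hlift z
    have h2 := hle _ (holP_of_map hf.1) (fun z => mem_TF (hf.2 z)) z i hi
    obtain ⟨h3, -⟩ := hw f hf.1 univ g isOpen_univ hg.differentiableOn (fun w _ => hfg w) z
      (mem_univ z)
    have hS := sum_pos (hg0 z)
    have h4 : ‖fderiv ℝ (fun z => Phi (f z).rep) z‖ ≤ A * σ z := by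
      rw [hσ]
      simp only
      rw [← mul_div_assoc, le_div_iff₀ hS]
      exact h3
    rw [hu]
    simp only
    rw [h1]
    refine h2.trans ?_
    rw [mul_assoc]
    exact mul_le_mul_of_nonneg_left h4 hC1.le
  have huc : Continuous u := continuousOn_univ.1 husub.cont
  have hu0 : ∀ z, 0 ≤ u z := fun z => husub.nonneg z (mem_univ z)
  set D : ℝ := 4 * (C1 * A) ^ 2 * B / Real.pi with hD
  have hkey : ∀ z, u z ^ 2 ≤ D := by
    intro z
    obtain ⟨R, hR1, hR2⟩ : ∃ R : ℝ, 2 * ‖z‖ + 1 ≤ R ∧ area g R ≤ B * R ^ 2 := by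
      obtain ⟨R, h1, h2⟩ := (hB.and_eventually (eventually_ge_atTop (2 * ‖z‖ + 1))).exists
      exact ⟨R, h2, h1⟩
    have hz0 := norm_nonneg z
    have hR0 : 0 < R := by linarith
    have hr : 0 < R / 2 := by positivity
    have h1 := husub.area_ge (a := z) hr
    have h2 : ∫ w in ball z (R / 2), u w ^ 2 ≤ ∫ w in ball (0 : ℂ) R, (C1 * A * σ w) ^ 2 := by
      have hci : IntegrableOn (fun w => (C1 * A * σ w) ^ 2) (ball (0 : ℂ) R) := by
        have hcc : Continuous fun w => (C1 * A * σ w) ^ 2 := by fun_prop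
        exact (hcc.continuousOn.integrableOn_compact (isCompact_closedBall 0 R)).mono_set
          ball_subset_closedBall
      have hsub : ball z (R / 2) ⊆ ball (0 : ℂ) R := by
        intro w hw
        rw [mem_ball, dist_eq_norm] at hw
        rw [mem_ball_zero_iff]
        have : w = (w - z) + z := by ring
        rw [this]
        refine (norm_add_le _ _).trans_lt ?_
        linarith
      refine le_trans ?_ (setIntegral_mono_set hci (Eventually.of_forall fun w => by positivity)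
        hsub.eventuallyLE)
      apply setIntegral_mono_on
      · exact ((huc.pow 2).continuousOn.integrableOn_compact (isCompact_closedBall z (R / 2))).mono_set
          ball_subset_closedBall
      · exact hci.mono_set hsub
      · exact measurableSet_ball
      · intro w _
        exact pow_le_pow_left₀ (hu0 w) (huσ w) 2
    have h3 : ∫ w in ball (0 : ℂ) R, (C1 * A * σ w) ^ 2 = (C1 * A) ^ 2 * area g R := by
      unfold area
      rw [← integral_const_mul]
      congr 1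
      funext w
      rw [mul_pow]
    rw [h3] at h2
    have h4 : Real.pi * (R / 2) ^ 2 * u z ^ 2 ≤ (C1 * A) ^ 2 * (B * R ^ 2) :=
      (h1.trans h2).trans (mul_le_mul_of_nonneg_left hR2 (by positivity))
    rw [hD, le_div_iff₀ Real.pi_pos]
    have h5 : Real.pi * u z ^ 2 * R ^ 2 ≤ 4 * (C1 * A) ^ 2 * B * R ^ 2 := by
      have e1 : Real.pi * (R / 2) ^ 2 * u z ^ 2 = Real.pi * u z ^ 2 * R ^ 2 / 4 := by ring
      rw [e1] at h4
      nlinarith
    have h6 := le_of_mul_le_mul_right h5 (by positivity)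
    linarith
  refine ⟨√D, fun z i hi => ?_⟩
  obtain ⟨-, i', hi', h1⟩ := hlift z
  have h2 : pv Φ (fun z => Phi (f z).rep) i z = u z := by
    rw [hu]
    simp only
    rw [h1]
    exact pv_indep hX hΦ (holP_of_map hf.1) (fun z => mem_TF (hf.2 z)) hi' hi
  rw [h2]
  exact Real.le_sqrt_of_sq_le (hkey z)

/-- curves of slow growth -/
theorem between_of_slow (hX : ProjManifold F d) (hΦ : NonposMetric (Cone F) d Φ)
    (hnd : Nondegenerate (Cone F) d Φ) : ∃ K : ℝ, ∀ f : ℂ → ℙ ℂ (Fin (n + 1) → ℂ), HolIn F f →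
      (¬ ∀ z w, f z = f w) → ((∃ C, DerBetween 0 C f) ∨ SlowArea f) →
      ∃ c : ℝ, 0 < c ∧ DerBetween c (K * c) f := by
  obtain ⟨A, hA, hw⟩ := wedge_fderiv n
  obtain ⟨c0, hc0, hlow⟩ := le_pv hX hΦ hnd
  obtain ⟨C1, hC1, hle⟩ := pv_le hX hΦ
  obtain ⟨C', hC', hex⟩ := pv_const hX hΦ
  refine ⟨A * A * C' / c0, fun f hf hne hgrow => ?_⟩
  have hP := holP_of_map hf.1
  have hPT : ∀ z, Phi (f z).rep ∈ TF F := fun z => mem_TF (hf.2 z)
  have hBd : ∃ B : ℝ, ∀ z i, Phi (f z).rep i i ≠ 0 → pv Φ (fun z => Phi (f z).rep) i z ≤ B := by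
    rcases hgrow with ⟨C, hb⟩ | hs
    · obtain ⟨B, hB⟩ := bounded_of_between hf.1 hb
      exact ⟨C1 * B, fun z i hi => (hle _ hP hPT z i hi).trans
        (mul_le_mul_of_nonneg_left (hB z) hC1.le)⟩
    · exact bounded_of_slow hX hΦ hf hs
  obtain ⟨B, hB⟩ := hBd
  obtain ⟨c, hc, hcs, hcb⟩ := hex (fun z => Phi (f z).rep) hP hPT B hB
  have hup : ∀ z, c0 * ‖fderiv ℝ (fun z => Phi (f z).rep) z‖ ≤ c := by
    intro z
    obtain ⟨i, hi⟩ := PM.exists_diag (TF_PM (hPT z))
    rw [← hcs z i hi]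
    exact hlow _ hP hPT z i hi
  have hcpos : 0 < c := by
    rcases hc.eq_or_lt with h0 | h0
    · exfalso
      apply hne
      have hd0 : ∀ z, fderiv ℝ (fun z => Phi (f z).rep) z = 0 := by
        intro z
        have h1 := hup z
        rw [← h0] at h1
        have h2 := norm_nonneg (fderiv ℝ (fun z => Phi (f z).rep) z)
        rw [← norm_le_zero_iff]
        by_contra h3
        push Not at h3
        have := mul_pos hc0 h3
        linarith
      have hdf : Differentiable ℝ fun z => Phi (f z).rep := fun z =>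
        hP.differentiableAt (mem_univ z)
      intro z w
      exact proj_ext (is_const_of_fderiv_eq_zero hdf hd0 z w)
    · exact h0
  refine ⟨c / (C' * A), by positivity, fun V g hV hg hfg z hz => ?_⟩
  have hS := sum_pos (hfg z hz).1
  obtain ⟨h1, h2⟩ := hw f hf.1 V g hV hg hfg z hz
  constructor
  · rw [div_mul_eq_mul_div, div_le_iff₀ (by positivity)]
    calc c * ∑ k, ‖g z k‖ ^ 2 ≤ C' * ‖fderiv ℝ (fun z => Phi (f z).rep) z‖ * ∑ k, ‖g z k‖ ^ 2 :=
          mul_le_mul_of_nonneg_right (hcb z) hS.le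
      _ = C' * (‖fderiv ℝ (fun z => Phi (f z).rep) z‖ * ∑ k, ‖g z k‖ ^ 2) := by ring
      _ ≤ C' * (A * wedge (g z) (deriv g z)) := mul_le_mul_of_nonneg_left h1 hC'.le
      _ = wedge (g z) (deriv g z) * (C' * A) := by ring
  · refine h2.trans ?_
    apply mul_le_mul_of_nonneg_right _ hS.le
    have e1 : A * A * C' / c0 * (c / (C' * A)) = A * (c / c0) := by
      field_simp
    rw [e1]
    apply mul_le_mul_of_nonneg_left _ hA.le
    rw [le_div_iff₀ hc0, mul_comm]
    exact hup z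

/-- doubly periodic curves have bounded derivatives -/
theorem bounded_of_periodic {f : ℂ → ℙ ℂ (Fin (n + 1) → ℂ)} (hf : HolIn F f)
    (hp : DoublyPeriodic f) : ∃ C, DerBetween 0 C f := by
  obtain ⟨A, hA, hw⟩ := wedge_fderiv n
  obtain ⟨L, hL⟩ := hp
  set φ : ℂ → Mat (n + 1) := fun z => Phi (f z).rep with hφ
  have hP : HolP univ φ := holP_of_map hf.1
  have hper : ∀ z w, w ∈ L.lattice → fderiv ℝ φ (z + w) = fderiv ℝ φ z := by
    intro z w hw
    have h1 : (fun z => φ (z + w)) = φ := by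
      funext z
      rw [hφ]
      simp only
      rw [hL w hw z]
    have h2 := fderiv_comp_add_right (𝕜 := ℝ) (f := φ) (x := z) w
    rw [h1] at h2
    exact h2.symm
  have hc : Continuous (fderiv ℝ φ) := continuous_iff_continuousAt.2 fun z =>
    hP.continuousAt_fderiv (mem_univ z)
  have hb := (IsZLattice.isCompact_range_of_periodic L.lattice (fderiv ℝ φ) hc hper).isBounded
  obtain ⟨B, hB⟩ := isBounded_iff_forall_norm_le.1 hb
  refine ⟨A * B, fun V g hV hg hfg z hz => ?_⟩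
  obtain ⟨-, h2⟩ := hw f hf.1 V g hV hg hfg z hz
  refine ⟨by rw [zero_mul]; exact wedge_nonneg _ _, h2.trans ?_⟩
  exact mul_le_mul_of_nonneg_right (mul_le_mul_of_nonneg_left (hB _ (mem_range_self z)) hA.le)
    (sum_pos (hfg z hz).1).le

/-- **Nondegenerate metrics.** -/
theorem nondegenerate_geo (hX : ProjManifold F d) (hG : ∀ i, IsForm (G i))
    (hη : PositiveTwoForms (Cone F) (Cone G) d η) (hZ : NoBC F G)
    (hΦ : NonposMetric (Cone F) d Φ) (hnd : Nondegenerate (Cone F) d Φ) :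
    ∃ S : Finset (ℂ → ℙ ℂ (Fin (n + 1) → ℂ)),
      (∀ h ∈ S, HolIn F h ∧ DoublyPeriodic h ∧ ∃ c : ℝ, 0 < c ∧ HasSpeed Φ c h) ∧
      (∀ f, HolIn F f → (¬ ∀ z w, f z = f w) →
        (DoublyPeriodic f ∨ (∃ C, DerBetween 0 C f) ∨ SlowArea f) →
        ∃ h ∈ S, ∃ a b : ℂ, a ≠ 0 ∧ ∀ z, f z = h (a * z + b)) ∧
      (S = ∅ → KobayashiHyperbolic F) := by
  classical
  obtain ⟨K, hK⟩ := between_of_slow hX hΦ hnd
  obtain ⟨S0, hS0, hfin⟩ := finite_curves hX hG hη hZ K
  have hmain : ∀ f, HolIn F f → (¬ ∀ z w, f z = f w) →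
      (DoublyPeriodic f ∨ (∃ C, DerBetween 0 C f) ∨ SlowArea f) →
        ∃ h ∈ S0.filter (fun h => ¬ ∀ z w, h z = h w), ∃ a b : ℂ, a ≠ 0 ∧
          ∀ z, f z = h (a * z + b) := by
    intro f hf hne hgrow
    have hgrow' : (∃ C, DerBetween 0 C f) ∨ SlowArea f := by
      rcases hgrow with h | h
      · exact Or.inl (bounded_of_periodic hf h)
      · exact h
    obtain ⟨c, hc, hb⟩ := hK f hf hne hgrow'
    obtain ⟨h, hh, a, b, ha, hfh⟩ := hfin f hf c hc hb
    refine ⟨h, Finset.mem_filter.2 ⟨hh, fun hcon => hne fun z w => ?_⟩, a, b, ha, hfh⟩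
    rw [hfh, hfh]
    exact hcon _ _
  refine ⟨S0.filter (fun h => ¬ ∀ z w, h z = h w), fun h hh => ?_, hmain, fun hS => ?_⟩
  · obtain ⟨h1, h2⟩ := Finset.mem_filter.1 hh
    obtain ⟨hh1, hh2⟩ := hS0 h h1
    refine ⟨hh1, hh2, ?_⟩
    obtain ⟨C, hC⟩ := bounded_of_periodic hh1 hh2
    obtain ⟨c, hc, hsp, -⟩ := speed_const hX hΦ hh1 hC
    rcases hc.eq_or_lt with h0 | h0
    · exfalso
      obtain ⟨c', hc', hb⟩ := hK h hh1 h2 (Or.inl ⟨C, hC⟩)
      obtain ⟨c0, hc0, hlow⟩ := le_pv hX hΦ hnd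
      obtain ⟨A, hA, hw⟩ := wedge_fderiv n
      obtain ⟨V, g, hV, hzV, hg, hfg⟩ := hh1.1 0
      obtain ⟨-, i, hi, e1⟩ := pv_lift hX hΦ hh1 hV hg hfg hzV
      have e2 := hlow _ (holP_of_map hh1.1) (fun z => mem_TF (hh1.2 z)) 0 i hi
      rw [← e1, hsp V g hV hg hfg 0 hzV, ← h0] at e2
      have e3 := (hb V g hV hg hfg 0 hzV).1
      obtain ⟨-, e4⟩ := hw h hh1.1 V g hV hg hfg 0 hzV
      have hS := sum_pos (hfg 0 hzV).1
      have e5 : ‖fderiv ℝ (fun z => Phi (h z).rep) 0‖ ≤ 0 := by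
        by_contra h3
        push Not at h3
        have := mul_pos hc0 h3
        linarith
      have e6 : c' * ∑ k, ‖g 0 k‖ ^ 2 ≤ 0 := by
        refine (e3.trans e4).trans ?_
        have e7 : A * ‖fderiv ℝ (fun z => Phi (h z).rep) 0‖ ≤ 0 :=
          mul_nonpos_of_nonneg_of_nonpos hA.le e5
        exact mul_nonpos_of_nonpos_of_nonneg e7 hS.le
      have e8 := mul_pos hc' hS
      linarith
    · exact ⟨c, h0, hsp⟩
  · apply kob_of_brody hX.form
    intro f hf C hb
    by_contra hne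
    obtain ⟨h, hh, -⟩ := hmain f hf hne (Or.inr (Or.inl ⟨C, hb⟩))
    rw [hS] at hh
    exact absurd hh (Finset.notMem_empty _)

end Pool.Agent.H33
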