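import Pool.Graph.R_pool_sql_team_seeded_63374d34.N155.B.Sym
import Pool.Agent.H33.NDefs

/-! Metrics of nonpositive curvature and entire curves of bounded derivative. -/

set_option autoImplicit false

open Filter Topology Metric Set MvPolynomial LinearAlgebra.Projectivization

namespace Pool.Agent.H33

open Pool.Agent.Y190.OP Pool.Agent.W602.GT Pool.Agent.N155 Pool.Agent.N155.BB

variable {n : ℕ} {ι ι' : Type} {F : ι → MvPolynomial (Fin (n + 1)) ℂ}
  {G : ι' → MvPolynomial (Fin (n + 1)) ℂ} {d : ℕ}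
  {κ : Type} {η : κ → (Fin (n + 1) → ℂ) → (Fin (n + 1) → ℂ) → (Fin (n + 1) → ℂ) → ℂ}
  {Φ : (Fin (n + 1) → ℂ) → (Fin (n + 1) → ℂ) → ℝ}

/-- the length of the derivative of a curve -/
noncomputable def pv (Φ : (Fin (n + 1) → ℂ) → (Fin (n + 1) → ℂ) → ℝ) (φ : ℂ → Mat (n + 1))
    (i : Fin (n + 1)) (t : ℂ) : ℝ := Φ (chart i (φ t)) (deriv (fun s => chart i (φ s)) t)

/-- the graphs, with the coordinates -/
theorem graph_of' (hX : ProjManifold F d) {M0 : Mat (n + 1)} (hM0 : M0 ∈ TF F) :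
    ∃ (i : Fin (n + 1)) (J : Fin d → Fin (n + 1)) (O : Set (Mat (n + 1)))
      (U : Set (Fin d → ℂ)) (Ψ : (Fin d → ℂ) → Fin (n + 1) → ℂ), IsOpen O ∧ M0 ∈ O ∧ IsOpen U ∧
      AnalyticOnNhd ℂ Ψ U ∧ (∀ z ∈ U, Ψ z ∈ Cone F ∧ Ψ z i = 1 ∧ ∀ k, Ψ z (J k) = z k) ∧
      ∀ M ∈ O, M i i ≠ 0 ∧ (fun k => chart i M (J k)) ∈ U ∧ (M ∈ TF F →
        chart i M = Ψ (fun k => chart i M (J k))) := by
  obtain ⟨x0, hx0, rfl⟩ := hM0
  obtain ⟨i, J, U, Ψ, hxi, hU, hxU, hΨ, hΨX, hev⟩ := hX.smooth x0 hx0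
  have hi : Phi x0 i i ≠ 0 := (Phi_diag_ne hx0.1).2 hxi
  have hch : chart i (Phi x0) = (x0 i)⁻¹ • x0 := chart_Phi hx0.1 hxi
  have hξ0 : (fun k => chart i (Phi x0) (J k)) = fun k => x0 (J k) / x0 i := by
    funext k
    rw [hch, Pi.smul_apply, smul_eq_mul]
    ring
  have hU0 : (fun k => chart i (Phi x0) (J k)) ∈ U := by rwa [hξ0]
  have hcξ : ContinuousAt (fun (M : Mat (n + 1)) k => chart i M (J k)) (Phi x0) := by
    rw [continuousAt_pi]
    intro k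
    exact (continuous_apply (J k)).continuousAt.comp (continuousAt_chart hi)
  have h2 : ∀ᶠ M : Mat (n + 1) in 𝓝 (Phi x0), M i i ≠ 0 ∧
      (fun k => chart i M (J k)) ∈ U ∧
      (x0 i • chart i M ∈ Cone F → x0 i • chart i M =
        (x0 i • chart i M) i • Ψ (fun k => (x0 i • chart i M) (J k) / (x0 i • chart i M) i)) := by
    refine ((continuous_apply_apply i i).continuousAt.eventually_ne hi).and
      ((hcξ.eventually (hU.mem_nhds hU0)).and ?_)
    have h3 : Tendsto (fun M : Mat (n + 1) => x0 i • chart i M) (𝓝 (Phi x0)) (𝓝 x0) := by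
      have h4 := (continuousAt_chart hi).tendsto.const_smul (x0 i)
      rwa [hch, smul_smul, mul_inv_cancel₀ hxi, one_smul] at h4
    exact h3.eventually hev
  obtain ⟨O, hOs, hO, hMO⟩ := _root_.mem_nhds_iff.1 h2
  refine ⟨i, J, O, U, Ψ, hO, hMO, hU, hΨ, hΨX, fun M hM => ?_⟩
  obtain ⟨e1, e3, e4⟩ := hOs hM
  refine ⟨e1, e3, fun hMT => ?_⟩
  have hcone := chart_cone hX.form hMT e1
  have h5 := e4 (cone_smul hX.form hcone hxi)
  have h7 : (fun k => (x0 i • chart i M) (J k) / (x0 i • chart i M) i) =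
      fun k => chart i M (J k) := by
    funext k
    rw [Pi.smul_apply, Pi.smul_apply, smul_eq_mul, smul_eq_mul, PM.chart_self e1, mul_one,
      mul_div_cancel_left₀ _ hxi]
  rw [h7, Pi.smul_apply, smul_eq_mul, PM.chart_self e1, mul_one] at h5
  exact smul_right_injective _ hxi h5

/-- local bounds of the lengths -/
theorem pv_loc (hX : ProjManifold F d) (hΦ : NonposMetric (Cone F) d Φ)
    {M0 : Mat (n + 1)} (hM0 : M0 ∈ TF F) : ∃ (O : Set (Mat (n + 1))) (i : Fin (n + 1)) (C : ℝ),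
    IsOpen O ∧ M0 ∈ O ∧ (∀ M ∈ O, M i i ≠ 0) ∧ ∀ φ : ℂ → Mat (n + 1), HolP univ φ →
      (∀ z, φ z ∈ TF F) → ∀ t, φ t ∈ O → pv Φ φ i t ≤ C * ‖fderiv ℝ φ t‖ := by
  obtain ⟨i, J, O, U, Ψ, hO, hMO, hU, hΨ, hΨX, hloc⟩ := graph_of' hX hM0
  obtain ⟨hi0, hU0, -⟩ := hloc M0 hMO
  obtain ⟨L, O1, hL, hO1, hMO1, -, -, hfd⟩ := lip_chart hi0
  have hF := hΦ.cont U Ψ hU hΨ (fun z hz => (hΨX z hz).1)
  set f : (Fin d → ℂ) × (Fin d → ℂ) → ℝ := fun p => Φ (Ψ p.1) (fderiv ℂ Ψ p.1 p.2) with hfdef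
  set ξ : Mat (n + 1) → Fin d → ℂ := fun M k => chart i M (J k) with hξ
  have hcξ : ContinuousAt ξ M0 := by
    rw [continuousAt_pi]
    intro k
    exact (continuous_apply (J k)).continuousAt.comp (continuousAt_chart hi0)
  obtain ⟨ε, hε, hεU⟩ := Metric.isOpen_iff.1 hU _ hU0
  have hev1 : ∀ᶠ M in 𝓝 M0, ξ M ∈ closedBall (ξ M0) (ε / 2) :=
    hcξ.eventually (closedBall_mem_nhds _ (by positivity))
  obtain ⟨O2, hO2s, hO2, hMO2⟩ := _root_.mem_nhds_iff.1 (hev1.and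
    (inter_mem (hO.mem_nhds hMO) (hO1.mem_nhds hMO1)))
  have hOi : ∀ M ∈ O2, M i i ≠ 0 := fun M hM => (hloc M (hO2s hM).2.1).1
  have hcomp : IsCompact (closedBall (ξ M0) (ε / 2) ×ˢ closedBall (0 : Fin d → ℂ) 1) :=
    (isCompact_closedBall _ _).prod (isCompact_closedBall _ _)
  have hsubU : closedBall (ξ M0) (ε / 2) ⊆ U :=
    (closedBall_subset_ball (by linarith)).trans hεU
  obtain ⟨CF, hCF⟩ := hcomp.exists_bound_of_continuousOn (f := f)
    (hF.mono (prod_mono hsubU (subset_univ _)))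
  have hCF0 : 0 ≤ CF := (norm_nonneg _).trans (hCF (ξ M0, 0)
    ⟨mem_closedBall_self (by positivity), mem_closedBall_self zero_le_one⟩)
  have hbound : ∀ z ∈ closedBall (ξ M0) (ε / 2), ∀ w, f (z, w) ≤ CF * ‖w‖ := by
    intro z hz w
    have hzX := (hΨX z (hsubU hz)).1
    by_cases hw : w = 0
    · have h1 : f (z, w) = 0 := by
        rw [hfdef, hw]
        simp only [map_zero]
        have h2 := hΦ.deg (Ψ z) hzX 0 0
        rwa [smul_zero, norm_zero, zero_mul] at h2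
      rw [h1]
      positivity
    · have hwn : (‖w‖ : ℂ) ≠ 0 := by
        have := norm_pos_iff.2 hw
        exact_mod_cast this.ne'
      have h1 : w = (‖w‖ : ℂ) • ((‖w‖ : ℂ)⁻¹ • w) := by
        rw [smul_smul, mul_inv_cancel₀ hwn, one_smul]
      have h2 : f (z, w) = ‖w‖ * f (z, (‖w‖ : ℂ)⁻¹ • w) := by
        rw [hfdef]
        simp only
        conv_lhs => rw [h1, map_smul]
        rw [hΦ.deg (Ψ z) hzX, Complex.norm_real, norm_norm]
      rw [h2, mul_comm]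
      refine mul_le_mul_of_nonneg_right ((le_abs_self _).trans (hCF _ ⟨hz, ?_⟩)) (norm_nonneg _)
      rw [mem_closedBall_zero_iff, norm_smul, norm_inv, Complex.norm_real, norm_norm]
      exact (inv_mul_cancel₀ (norm_ne_zero_iff.2 hw)).le
  refine ⟨O2, i, CF * L, hO2, hMO2, hOi, fun φ hφ hφT t ht => ?_⟩
  have hcφ : Continuous φ := continuous_iff_continuousAt.2 fun _ => hφ.continuousAt (mem_univ _)
  -- the values are those of `f`
  have facts : pv Φ φ i t =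
      f (ξ (φ t), fun k => deriv (fun s => chart i (φ s)) t (J k)) := by
    have hit := hOi _ ht
    have hOt := (hO2s ht).2.1
    obtain ⟨-, hUt, ht3⟩ := hloc _ hOt
    have hΨt := ht3 (hφT _)
    have hev : ∀ᶠ s in 𝓝 t, φ s ∈ O := hcφ.continuousAt.eventually (hO.mem_nhds hOt)
    have hd := (an_chart hφ i hit).differentiableAt.hasDerivAt
    have hdξ : HasDerivAt (fun s => ξ (φ s))
        (fun k => deriv (fun s => chart i (φ s)) t (J k)) t :=
      hasDerivAt_pi.2 fun k => (hasDerivAt_pi.1 hd) (J k)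
    have f1 : deriv (fun s => chart i (φ s)) t = fderiv ℂ Ψ (ξ (φ t))
        (fun k => deriv (fun s => chart i (φ s)) t (J k)) := by
      have h1 := (hΨ _ hUt).differentiableAt.hasFDerivAt.comp_hasDerivAt t hdξ
      have h2 : (fun s => chart i (φ s)) =ᶠ[𝓝 t] Ψ ∘ fun s => ξ (φ s) := by
        filter_upwards [hev] with s hs
        exact (hloc _ hs).2.2 (hφT s)
      rw [← h1.deriv, ← h2.deriv_eq]
    unfold pv
    rw [hfdef]
    simp only
    rw [← f1, ← hΨt]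
  have hit := hOi _ ht
  rw [facts]
  refine (hbound _ (hO2s ht).1 _).trans ?_
  rw [mul_assoc]
  refine mul_le_mul_of_nonneg_left ?_ hCF0
  have e1 := deriv_chart_le hφ i hit (hfd _ (hO2s ht).2.2) (le_refl ‖fderiv ℝ φ t‖)
  rw [pi_norm_le_iff_of_nonneg (by positivity)]
  intro k
  exact (norm_le_pi_norm _ (J k)).trans e1

theorem pv_indep (hX : ProjManifold F d) (hΦ : NonposMetric (Cone F) d Φ) {φ : ℂ → Mat (n + 1)}
    (hφ : HolP univ φ) (hφT : ∀ z, φ z ∈ TF F) {i i' : Fin (n + 1)} {t : ℂ}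
    (hi : φ t i i ≠ 0) (hi' : φ t i' i' ≠ 0) : pv Φ φ i' t = pv Φ φ i t := by
  have hM := TF_PM (hφT t)
  have hx := chart_i'_ne hM hi hi'
  obtain ⟨f', hf', hfv⟩ := tr_strict hx
  have hev : ∀ j, φ t j j ≠ 0 → ∀ᶠ s in 𝓝 t, φ s j j ≠ 0 := fun j hj =>
    ((continuous_apply_apply (ρ := fun (_ : Fin (n + 1)) (_ : Fin (n + 1)) => ℂ) j
      j).continuousAt.comp (hφ.continuousAt (mem_univ t))).eventually_ne hj
  have e2 : deriv (fun s => chart i' (φ s)) t = f' (deriv (fun s => chart i (φ s)) t) := by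
    have h1 := (an_chart hφ i hi).differentiableAt.hasDerivAt
    have h2 := hf'.hasFDerivAt.comp_hasDerivAt t h1
    have h3 : (fun s => chart i' (φ s)) =ᶠ[𝓝 t] tr i' ∘ fun s => chart i (φ s) := by
      filter_upwards [hev i hi, hev i' hi'] with s hs hs'
      exact chart_tr (TF_PM (hφT s)) hs hs'
    rw [h3.deriv_eq, h2.deriv]
  unfold pv
  rw [e2, hfv, chart_tr hM hi hi']
  unfold tr
  exact hΦ.twist _ (chart_cone hX.form (hφT t) hi) _ _ _ (inv_ne_zero hx)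

/-- the lengths are bounded by the derivative -/
theorem pv_le (hX : ProjManifold F d) (hΦ : NonposMetric (Cone F) d Φ) :
    ∃ C : ℝ, 0 < C ∧ ∀ φ : ℂ → Mat (n + 1), HolP univ φ → (∀ z, φ z ∈ TF F) →
      ∀ t i, φ t i i ≠ 0 → pv Φ φ i t ≤ C * ‖fderiv ℝ φ t‖ := by
  have hbd : ∃ C : ℝ, ∀ M ∈ TF F, ∀ φ : ℂ → Mat (n + 1), HolP univ φ → (∀ z, φ z ∈ TF F) →
      ∀ t, φ t = M → ∀ i, φ t i i ≠ 0 → pv Φ φ i t ≤ C * ‖fderiv ℝ φ t‖ := by
    refine (isCompact_TF hX.form).induction_on (p := fun s => ∃ C : ℝ, ∀ M ∈ s,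
      ∀ φ : ℂ → Mat (n + 1), HolP univ φ → (∀ z, φ z ∈ TF F) →
      ∀ t, φ t = M → ∀ i, φ t i i ≠ 0 → pv Φ φ i t ≤ C * ‖fderiv ℝ φ t‖) ?_ ?_ ?_ ?_
    · exact ⟨0, fun M hM => absurd hM (notMem_empty _)⟩
    · rintro s s' hss ⟨C, hC⟩
      exact ⟨C, fun M hM => hC M (hss hM)⟩
    · rintro s s' ⟨C, hC⟩ ⟨C', hC'⟩
      refine ⟨max C C', fun M hM φ hφ hφT t ht i hi => ?_⟩
      rcases hM with hM | hM
      · exact (hC M hM φ hφ hφT t ht i hi).trans
          (mul_le_mul_of_nonneg_right (le_max_left _ _) (norm_nonneg _))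
      · exact (hC' M hM φ hφ hφT t ht i hi).trans
          (mul_le_mul_of_nonneg_right (le_max_right _ _) (norm_nonneg _))
    · intro M hM
      obtain ⟨O, i, C, hO, hMO, hOi, h1⟩ := pv_loc hX hΦ hM
      refine ⟨O, mem_nhdsWithin_of_mem_nhds (hO.mem_nhds hMO), C,
        fun M' hM' φ hφ hφT t ht j hj => ?_⟩
      have ht' : φ t ∈ O := by rwa [ht]
      rw [pv_indep hX hΦ hφ hφT (hOi _ ht') hj]
      exact h1 φ hφ hφT t ht'
  obtain ⟨C, hC⟩ := hbd
  refine ⟨max C 1, lt_of_lt_of_le one_pos (le_max_right _ _), fun φ hφ hφT t i hi => ?_⟩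
  exact (hC _ (hφT t) φ hφ hφT t rfl i hi).trans
      (mul_le_mul_of_nonneg_right (le_max_left _ _) (norm_nonneg _))

/-- the length along a curve in a chart is a function with subharmonic logarithm -/
theorem pv_sub (hX : ProjManifold F d) (hΦ : NonposMetric (Cone F) d Φ) {φ : ℂ → Mat (n + 1)}
    (hφ : HolP univ φ) (hφT : ∀ z, φ z ∈ TF F) (i : Fin (n + 1)) :
    IsOpen {z | φ z i i ≠ 0} ∧ LogSubharmonic (pv Φ φ i) {z | φ z i i ≠ 0} := by
  have hcφ : Continuous φ := continuous_iff_continuousAt.2 fun _ => hφ.continuousAt (mem_univ _)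
  have hO : IsOpen {z | φ z i i ≠ 0} :=
    isOpen_ne_fun ((continuous_apply_apply (ρ := fun (_ : Fin (n + 1)) (_ : Fin (n + 1)) => ℂ) i
      i).comp hcφ) continuous_const
  exact ⟨hO, hΦ.curv _ (fun s => chart i (φ s)) hO
    (fun z hz => (an_chart hφ i hz).differentiableAt.differentiableWithinAt)
    fun z hz => chart_cone hX.form (hφT z) hz⟩

/-- **The lengths are constant along curves of bounded derivative.** -/
theorem pv_const (hX : ProjManifold F d) (hΦ : NonposMetric (Cone F) d Φ) :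
    ∃ C : ℝ, 0 < C ∧ ∀ φ : ℂ → Mat (n + 1), HolP univ φ → (∀ z, φ z ∈ TF F) → ∀ B : ℝ,
      (∀ z i, φ z i i ≠ 0 → pv Φ φ i z ≤ B) → ∃ c : ℝ, 0 ≤ c ∧
        (∀ t i, φ t i i ≠ 0 → pv Φ φ i t = c) ∧ ∀ z, c ≤ C * ‖fderiv ℝ φ z‖ := by
  obtain ⟨C, hC, hbd⟩ := pv_le hX hΦ
  refine ⟨C, hC, fun φ hφ hφT B hB => ?_⟩
  choose idx hidx using fun t => PM.exists_diag (TF_PM (hφT t))
  set s : ℂ → ℝ := fun t => pv Φ φ (idx t) t with hs
  have hsi : ∀ i t, φ t i i ≠ 0 → s t = pv Φ φ i t := fun i t hi =>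
    pv_indep hX hΦ hφ hφT hi (hidx t)
  have hconst : ∀ t, s t = s 0 := fun t => by
    refine const_of_local (fun a => ?_) (B := B) (fun z => hB z _ (hidx z)) t 0
    obtain ⟨h1, h2⟩ := pv_sub hX hΦ hφ hφT (idx a)
    exact ⟨_, _, h1, hidx a, h2, fun z hz => hsi _ z hz⟩
  have hs0 : 0 ≤ s 0 := by
    obtain ⟨h1, h2⟩ := pv_sub hX hΦ hφ hφT (idx 0)
    exact h2.nonneg 0 (hidx 0)
  refine ⟨s 0, hs0, fun t i hi => by rw [← hsi i t hi, hconst t], fun z => ?_⟩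
  rw [← hconst z]
  exact hbd φ hφ hφT z _ (hidx z)

/-- the value in terms of a lift -/
theorem pv_lift (hX : ProjManifold F d) (hΦ : NonposMetric (Cone F) d Φ)
    {f : ℂ → ℙ ℂ (Fin (n + 1) → ℂ)} (hf : HolIn F f) {V : Set ℂ} {g : ℂ → Fin (n + 1) → ℂ}
    (hV : IsOpen V) (hg : DifferentiableOn ℂ g V)
    (hfg : ∀ w ∈ V, ∃ h : g w ≠ 0, f w = Projectivization.mk ℂ (g w) h) {z : ℂ} (hz : z ∈ V) :
    g z ∈ Cone F ∧ ∃ i, Phi (f z).rep i i ≠ 0 ∧
      Φ (g z) (deriv g z) = pv Φ (fun z => Phi (f z).rep) i z := by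
  have hφg : ∀ w ∈ V, Phi (f w).rep = Phi (g w) := by
    intro w hw
    obtain ⟨h0, he⟩ := hfg w hw
    rw [he, Phi_rep_mk]
  obtain ⟨i, hi⟩ := Function.ne_iff.1 (hfg z hz).1
  have hgi : g z i ≠ 0 := hi
  have hdg : DifferentiableAt ℂ g z := (hg z hz).differentiableAt (hV.mem_nhds hz)
  have hdi := (hasDerivAt_pi.1 hdg.hasDerivAt) i
  have hPi : Phi (f z).rep i i ≠ 0 := by
    rw [hφg z hz]
    exact (Phi_diag_ne (hfg z hz).1).2 hgi
  have hcone : g z ∈ Cone F := by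
    have h1 := mem_TF (hf.2 z)
    rw [hφg z hz] at h1
    exact (Phi_mem hX.form (hfg z hz).1).1 h1
  refine ⟨hcone, i, hPi, ?_⟩
  have hch : (fun w => chart i (Phi (f w).rep)) =ᶠ[𝓝 z] fun w => (g w i)⁻¹ • g w := by
    filter_upwards [hV.mem_nhds hz, hdi.continuousAt.eventually_ne hgi] with w hw hwi
    rw [hφg w hw, chart_Phi (hfg w hw).1 hwi]
  have hder : HasDerivAt (fun w => (g w i)⁻¹ • g w)
      ((g z i)⁻¹ • deriv g z + (-(deriv g z i) / (g z i) ^ 2) • g z) z :=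
    (hdi.fun_inv hgi).smul hdg.hasDerivAt
  unfold pv
  have hch0 : chart i (Phi (f z).rep) = (g z i)⁻¹ • g z := hch.self_of_nhds
  rw [hch.deriv_eq, hder.deriv, hch0]
  have h1 : (g z i)⁻¹ • deriv g z + (-(deriv g z i) / (g z i) ^ 2) • g z =
      (g z i)⁻¹ • (deriv g z + (-(deriv g z i) / g z i) • g z) := by
    rw [smul_add, smul_smul]
    congr 2
    field_simp
  rw [h1, hΦ.twist _ hcone _ _ _ (inv_ne_zero hgi)]

end Pool.Agent.H33
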