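import Pool.Agent.H33.NGeo

/-! Lower bounds for nondegenerate metrics. -/

set_option autoImplicit false

open Filter Topology Metric Set MvPolynomial LinearAlgebra.Projectivization

namespace Pool.Agent.H33

open Pool.Agent.Y190.OP Pool.Agent.W602.GT Pool.Agent.N155 Pool.Agent.N155.BB

variable {n : ℕ} {ι ι' : Type} {F : ι → MvPolynomial (Fin (n + 1)) ℂ}
  {G : ι' → MvPolynomial (Fin (n + 1)) ℂ} {d : ℕ}
  {κ : Type} {η : κ → (Fin (n + 1) → ℂ) → (Fin (n + 1) → ℂ) → (Fin (n + 1) → ℂ) → ℂ}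
  {Φ : (Fin (n + 1) → ℂ) → (Fin (n + 1) → ℂ) → ℝ}

theorem fderiv_le_chart {N : ℕ} {H : ℂ → Mat N} (h : HolP univ H) (i : Fin N) {s : ℂ}
    (hi : H s i i ≠ 0) : ‖fderiv ℝ H s‖ ≤
      ‖fderiv ℝ (Phi : (Fin N → ℂ) → Mat N) (chart i (H s))‖ *
        ‖deriv (fun s => chart i (H s)) s‖ := by
  have h1 : HasDerivAt (fun s => chart i (H s)) (deriv (fun s => chart i (H s)) s) s :=
    (h.diff_chart (mem_univ s) hi).hasDerivAt
  have h2 := h1.hasFDerivAt.restrictScalars ℝ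
  have h3 : HasFDerivAt (Phi : (Fin N → ℂ) → Mat N) (fderiv ℝ Phi (chart i (H s)))
      (chart i (H s)) :=
    ((contDiffAt_Phi (PM.chart_ne hi)).differentiableAt (by norm_num)).hasFDerivAt
  have h4 := h3.comp s h2
  have h5 : ∀ᶠ s' in 𝓝 s, H s' i i ≠ 0 := by
    have : ContinuousAt (fun s' => H s' i i) s :=
      (continuous_apply_apply i i).continuousAt.comp (h.continuousAt (mem_univ s))
    exact this.eventually_ne hi
  have h6 : H =ᶠ[𝓝 s] Phi ∘ fun s => chart i (H s) := by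
    filter_upwards [h5] with s' hs'
    exact (PM.Phi_chart (h.mem_PM (mem_univ s')) hs').symm
  rw [(h4.congr_of_eventuallyEq h6).fderiv]
  refine (ContinuousLinearMap.opNorm_comp_le _ _).trans ?_
  apply mul_le_mul_of_nonneg_left _ (norm_nonneg _)
  refine ContinuousLinearMap.opNorm_le_bound _ (norm_nonneg _) fun x => ?_
  rw [ContinuousLinearMap.coe_restrictScalars', ContinuousLinearMap.toSpanSingleton_apply,
    norm_smul, mul_comm]

/-- local lower bounds of the lengths -/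
theorem low_loc (hX : ProjManifold F d) (hΦ : NonposMetric (Cone F) d Φ)
    (hnd : Nondegenerate (Cone F) d Φ)
    {M0 : Mat (n + 1)} (hM0 : M0 ∈ TF F) : ∃ (O : Set (Mat (n + 1))) (i : Fin (n + 1)) (c : ℝ),
    IsOpen O ∧ M0 ∈ O ∧ 0 < c ∧ (∀ M ∈ O, M i i ≠ 0) ∧ ∀ φ : ℂ → Mat (n + 1), HolP univ φ →
      (∀ z, φ z ∈ TF F) → ∀ t, φ t ∈ O → c * ‖fderiv ℝ φ t‖ ≤ pv Φ φ i t := by
  obtain ⟨i, J, O, U, Ψ, hO, hMO, hU, hΨ, hΨX, hloc⟩ := graph_of' hX hM0
  obtain ⟨hi0, hU0, -⟩ := hloc M0 hMO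
  have hF := hΦ.cont U Ψ hU hΨ (fun z hz => (hΨX z hz).1)
  set f : (Fin d → ℂ) × (Fin d → ℂ) → ℝ := fun p => Φ (Ψ p.1) (fderiv ℂ Ψ p.1 p.2) with hfdef
  set ξ : Mat (n + 1) → Fin d → ℂ := fun M k => chart i M (J k) with hξ
  have hcξ : ContinuousAt ξ M0 := by
    rw [continuousAt_pi]
    intro k
    exact (continuous_apply (J k)).continuousAt.comp (continuousAt_chart hi0)
  obtain ⟨ε, hε, hεU⟩ := Metric.isOpen_iff.1 hU _ hU0
  have hev1 : ∀ᶠ M in 𝓝 M0, ξ M ∈ closedBall (ξ M0) (ε / 2) :=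
    hcξ.eventually (closedBall_mem_nhds _ (by positivity))
  have hsubU : closedBall (ξ M0) (ε / 2) ⊆ U :=
    (closedBall_subset_ball (by linarith)).trans hεU
  -- the derivative of `Ψ`
  have hcD : ContinuousOn (fderiv ℂ Ψ) (closedBall (ξ M0) (ε / 2)) := fun z hz =>
    ((hΨ z (hsubU hz)).fderiv.continuousAt).continuousWithinAt
  obtain ⟨C1, hC1⟩ := (isCompact_closedBall (ξ M0) (ε / 2)).exists_bound_of_continuousOn hcD
  have hC10 : 0 ≤ C1 := (norm_nonneg _).trans (hC1 _ (mem_closedBall_self (by positivity)))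
  -- the derivative of `Phi`
  have hcP : ContinuousAt (fun M : Mat (n + 1) =>
      fderiv ℝ (Phi : (Fin (n + 1) → ℂ) → Mat (n + 1)) (chart i M)) M0 := by
    have h1 : ContinuousAt (fderiv ℝ (Phi : (Fin (n + 1) → ℂ) → Mat (n + 1))) (chart i M0) :=
      ((contDiffAt_Phi (PM.chart_ne hi0)).fderiv_right (m := 0) (by norm_num)).continuousAt
    exact ContinuousAt.comp (f := chart i) h1 (continuousAt_chart hi0)
  have hev2 : ∀ᶠ M in 𝓝 M0, ‖fderiv ℝ (Phi : (Fin (n + 1) → ℂ) → Mat (n + 1)) (chart i M)‖ <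
      ‖fderiv ℝ (Phi : (Fin (n + 1) → ℂ) → Mat (n + 1)) (chart i M0)‖ + 1 :=
    hcP.norm.eventually_lt_const (lt_add_one _)
  set C2 : ℝ := ‖fderiv ℝ (Phi : (Fin (n + 1) → ℂ) → Mat (n + 1)) (chart i M0)‖ + 1 with hC2
  have hC20 : 0 < C2 := by positivity
  -- the lower bound of `f`
  have hlow : ∃ m : ℝ, 0 < m ∧ ∀ z ∈ closedBall (ξ M0) (ε / 2), ∀ w, m * ‖w‖ ≤ f (z, w) := by
    have hcomp : IsCompact (closedBall (ξ M0) (ε / 2) ×ˢ sphere (0 : Fin d → ℂ) 1) :=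
      (isCompact_closedBall _ _).prod (isCompact_sphere _ _)
    have hpos : ∀ p ∈ closedBall (ξ M0) (ε / 2) ×ˢ sphere (0 : Fin d → ℂ) 1, 0 < f p := by
      rintro ⟨z, w⟩ ⟨hz, hw⟩
      have hzU := hsubU hz
      apply hnd U Ψ hU hΨ (fun z hz => (hΨX z hz).1) z hzU w
      have hw0 : w ≠ 0 := by
        rintro rfl
        rw [mem_sphere, dist_self] at hw
        exact zero_ne_one hw
      have hd := (hΨ z hzU).differentiableAt.hasFDerivAt
      have hdi : fderiv ℂ Ψ z w i = 0 := by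
        have h1 : HasFDerivAt (fun z => Ψ z i)
            ((ContinuousLinearMap.proj (R := ℂ) (φ := fun _ : Fin (n + 1) => ℂ) i).comp
              (fderiv ℂ Ψ z)) z := hasFDerivAt_pi'.1 hd i
        have h2 : HasFDerivAt (fun z => Ψ z i) (0 : (Fin d → ℂ) →L[ℂ] ℂ) z := by
          refine (hasFDerivAt_const (1 : ℂ) z).congr_of_eventuallyEq ?_
          filter_upwards [hU.mem_nhds hzU] with z' hz'
          exact (hΨX z' hz').2.1
        have h3 := congrArg (fun L : (Fin d → ℂ) →L[ℂ] ℂ => L w) (h1.unique h2)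
        simpa using h3
      have hdJ : ∀ k, fderiv ℂ Ψ z w (J k) = w k := by
        intro k
        have h1 : HasFDerivAt (fun z => Ψ z (J k))
            ((ContinuousLinearMap.proj (R := ℂ) (φ := fun _ : Fin (n + 1) => ℂ) (J k)).comp
              (fderiv ℂ Ψ z)) z := hasFDerivAt_pi'.1 hd (J k)
        have h2 : HasFDerivAt (fun z => Ψ z (J k))
            (ContinuousLinearMap.proj (R := ℂ) (φ := fun _ : Fin d => ℂ) k) z := by
          refine (ContinuousLinearMap.proj (R := ℂ) (φ := fun _ : Fin d => ℂ)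
            k).hasFDerivAt.congr_of_eventuallyEq ?_
          filter_upwards [hU.mem_nhds hzU] with z' hz'
          exact (hΨX z' hz').2.2 k
        have h3 := congrArg (fun L : (Fin d → ℂ) →L[ℂ] ℂ => L w) (h1.unique h2)
        simpa using h3
      rw [LinearIndependent.pair_iff]
      intro a b hab
      have ha : a = 0 := by
        have h1 := congrFun hab i
        simpa [hdi, (hΨX z hzU).2.1] using h1
      refine ⟨ha, ?_⟩
      by_contra hb
      apply hw0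
      funext k
      have h1 := congrFun hab (J k)
      simp only [ha, zero_smul, zero_add, Pi.smul_apply, smul_eq_mul, hdJ, Pi.zero_apply] at h1
      exact (mul_eq_zero.1 h1).resolve_left hb
    obtain ⟨m, hm, hmf⟩ : ∃ m : ℝ, 0 < m ∧
        ∀ p ∈ closedBall (ξ M0) (ε / 2) ×ˢ sphere (0 : Fin d → ℂ) 1, m ≤ f p := by
      rcases (closedBall (ξ M0) (ε / 2) ×ˢ sphere (0 : Fin d → ℂ) 1).eq_empty_or_nonempty with
        he | hne
      · exact ⟨1, one_pos, fun p hp => by rw [he] at hp; exact absurd hp (notMem_empty _)⟩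
      · obtain ⟨p, hp, hpm⟩ := hcomp.exists_isMinOn hne
          (hF.mono (prod_mono hsubU (subset_univ _)))
        exact ⟨f p, hpos p hp, fun q hq => hpm hq⟩
    refine ⟨m, hm, fun z hz w => ?_⟩
    have hzX := (hΨX z (hsubU hz)).1
    by_cases hw : w = 0
    · have h1 : f (z, w) = 0 := by
        rw [hfdef, hw]
        simp only [map_zero]
        have h2 := hΦ.deg (Ψ z) hzX 0 0
        rwa [smul_zero, norm_zero, zero_mul] at h2
      rw [h1, hw, norm_zero, mul_zero]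
    · have hwn : (‖w‖ : ℂ) ≠ 0 := by
        have := norm_pos_iff.2 hw
        exact_mod_cast this.ne'
      have h1 : w = (‖w‖ : ℂ) • ((‖w‖ : ℂ)⁻¹ • w) := by
        rw [smul_smul, mul_inv_cancel₀ hwn, one_smul]
      have h2 : f (z, w) = ‖w‖ * f (z, (‖w‖ : ℂ)⁻¹ • w) := by
        rw [hfdef]
        simp only
        conv_lhs => rw [h1, map_smul]
        rw [hΦ.deg (Ψ z) hzX, Complex.norm_real, norm_norm]
      rw [h2, mul_comm]
      refine mul_le_mul_of_nonneg_left (hmf _ ⟨hz, ?_⟩) (norm_nonneg _)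
      rw [mem_sphere_zero_iff_norm, norm_smul, norm_inv, Complex.norm_real, norm_norm]
      exact inv_mul_cancel₀ (norm_ne_zero_iff.2 hw)
  obtain ⟨m, hm, hmf⟩ := hlow
  obtain ⟨O2, hO2s, hO2, hMO2⟩ := _root_.mem_nhds_iff.1 (hev1.and
    (hev2.and (hO.mem_nhds hMO)))
  have hOi : ∀ M ∈ O2, M i i ≠ 0 := fun M hM => (hloc M (hO2s hM).2.2).1
  refine ⟨O2, i, m / (C2 * (C1 + 1)), hO2, hMO2, by positivity, hOi, fun φ hφ hφT t ht => ?_⟩
  have hcφ : Continuous φ := continuous_iff_continuousAt.2 fun _ => hφ.continuousAt (mem_univ _)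
  have hit := hOi _ ht
  have hOt := (hO2s ht).2.2
  obtain ⟨-, hUt, ht3⟩ := hloc _ hOt
  have hΨt := ht3 (hφT _)
  have hev : ∀ᶠ s in 𝓝 t, φ s ∈ O := hcφ.continuousAt.eventually (hO.mem_nhds hOt)
  have hd := (an_chart hφ i hit).differentiableAt.hasDerivAt
  have hdξ : HasDerivAt (fun s => ξ (φ s))
      (fun k => deriv (fun s => chart i (φ s)) t (J k)) t :=
    hasDerivAt_pi.2 fun k => (hasDerivAt_pi.1 hd) (J k)
  have f1 : deriv (fun s => chart i (φ s)) t = fderiv ℂ Ψ (ξ (φ t))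
      (fun k => deriv (fun s => chart i (φ s)) t (J k)) := by
    have h1 := (hΨ _ hUt).differentiableAt.hasFDerivAt.comp_hasDerivAt t hdξ
    have h2 : (fun s => chart i (φ s)) =ᶠ[𝓝 t] Ψ ∘ fun s => ξ (φ s) := by
      filter_upwards [hev] with s hs
      exact (hloc _ hs).2.2 (hφT s)
    rw [← h1.deriv, ← h2.deriv_eq]
  set w : Fin d → ℂ := fun k => deriv (fun s => chart i (φ s)) t (J k) with hw
  have facts : pv Φ φ i t = f (ξ (φ t), w) := by
    unfold pv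
    rw [hfdef]
    simp only
    rw [← f1, ← hΨt]
  rw [facts]
  refine le_trans ?_ (hmf _ (hO2s ht).1 w)
  have e1 := fderiv_le_chart hφ i hit
  have e2 : ‖deriv (fun s => chart i (φ s)) t‖ ≤ (C1 + 1) * ‖w‖ := by
    rw [f1]
    refine (ContinuousLinearMap.le_opNorm _ _).trans ?_
    apply mul_le_mul_of_nonneg_right _ (norm_nonneg _)
    exact (hC1 _ (hO2s ht).1).trans (by linarith)
  have e3 : ‖fderiv ℝ φ t‖ ≤ C2 * ((C1 + 1) * ‖w‖) :=
    e1.trans (mul_le_mul (hO2s ht).2.1.le e2 (norm_nonneg _) hC20.le)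
  rw [div_mul_eq_mul_div, div_le_iff₀ (by positivity)]
  calc m * ‖fderiv ℝ φ t‖ ≤ m * (C2 * ((C1 + 1) * ‖w‖)) := mul_le_mul_of_nonneg_left e3 hm.le
    _ = m * ‖w‖ * (C2 * (C1 + 1)) := by ring

/-- the derivative is bounded by the lengths -/
theorem le_pv (hX : ProjManifold F d) (hΦ : NonposMetric (Cone F) d Φ)
    (hnd : Nondegenerate (Cone F) d Φ) :
    ∃ c : ℝ, 0 < c ∧ ∀ φ : ℂ → Mat (n + 1), HolP univ φ → (∀ z, φ z ∈ TF F) →
      ∀ t i, φ t i i ≠ 0 → c * ‖fderiv ℝ φ t‖ ≤ pv Φ φ i t := by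
  have hbd : ∃ c : ℝ, 0 < c ∧ ∀ M ∈ TF F, ∀ φ : ℂ → Mat (n + 1), HolP univ φ →
      (∀ z, φ z ∈ TF F) → ∀ t, φ t = M → ∀ i, φ t i i ≠ 0 → c * ‖fderiv ℝ φ t‖ ≤ pv Φ φ i t := by
    refine (isCompact_TF hX.form).induction_on (p := fun s => ∃ c : ℝ, 0 < c ∧ ∀ M ∈ s,
      ∀ φ : ℂ → Mat (n + 1), HolP univ φ → (∀ z, φ z ∈ TF F) →
      ∀ t, φ t = M → ∀ i, φ t i i ≠ 0 → c * ‖fderiv ℝ φ t‖ ≤ pv Φ φ i t) ?_ ?_ ?_ ?_
    · exact ⟨1, one_pos, fun M hM => absurd hM (notMem_empty _)⟩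
    · rintro s s' hss ⟨c, hc, hC⟩
      exact ⟨c, hc, fun M hM => hC M (hss hM)⟩
    · rintro s s' ⟨c, hc, hC⟩ ⟨c', hc', hC'⟩
      refine ⟨min c c', lt_min hc hc', fun M hM φ hφ hφT t ht i hi => ?_⟩
      rcases hM with hM | hM
      · exact (mul_le_mul_of_nonneg_right (min_le_left _ _) (norm_nonneg _)).trans
          (hC M hM φ hφ hφT t ht i hi)
      · exact (mul_le_mul_of_nonneg_right (min_le_right _ _) (norm_nonneg _)).trans
          (hC' M hM φ hφ hφT t ht i hi)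
    · intro M hM
      obtain ⟨O, i, c, hO, hMO, hc, hOi, h1⟩ := low_loc hX hΦ hnd hM
      refine ⟨O, mem_nhdsWithin_of_mem_nhds (hO.mem_nhds hMO), c, hc,
        fun M' hM' φ hφ hφT t ht j hj => ?_⟩
      have ht' : φ t ∈ O := by rwa [ht]
      rw [pv_indep hX hΦ hφ hφT (hOi _ ht') hj]
      exact h1 φ hφ hφT t ht'
  obtain ⟨c, hc, hC⟩ := hbd
  exact ⟨c, hc, fun φ hφ hφT t i hi => hC _ (hφT t) φ hφ hφT t rfl i hi⟩

end Pool.Agent.H33
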