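import Pool.Agent.H33.HGGL

/-! Compositions of entire curves with rational maps. -/

set_option autoImplicit false

open Filter Topology Metric Set MvPolynomial LinearAlgebra.Projectivization

namespace Pool.Agent.H33

open Pool.Agent.Y190.OP Pool.Agent.W602.GT Pool.Agent.N155 Pool.Agent.N155.BB

variable {m n : ℕ}

/-- proportional vectors -/
def Prop2 (u v : Fin (n + 1) → ℂ) : Prop := ∀ i j, u i * v j = u j * v i

theorem Prop2.symm {u v : Fin (n + 1) → ℂ} (h : Prop2 u v) : Prop2 v u := fun i j => by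
  have := h j i
  rw [mul_comm (v i), mul_comm (v j)]
  exact this

theorem Prop2.smul {u v : Fin (n + 1) → ℂ} (hu : u ≠ 0) (h : Prop2 u v) : ∃ c : ℂ, v = c • u := by
  obtain ⟨i, hi⟩ := Function.ne_iff.1 hu
  refine ⟨v i / u i, funext fun j => ?_⟩
  have h1 := h i j
  have hi' : u i ≠ 0 := hi
  rw [Pi.smul_apply, smul_eq_mul, div_mul_eq_mul_div, eq_div_iff hi']
  linear_combination h1

theorem prop2_smul (u : Fin (n + 1) → ℂ) (c : ℂ) : Prop2 (c • u) u := fun i j => by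
  simp only [Pi.smul_apply, smul_eq_mul]
  ring

theorem Prop2.mk {u v : Fin (n + 1) → ℂ} (hu : u ≠ 0) (hv : v ≠ 0) (h : Prop2 u v) :
    Projectivization.mk ℂ u hu = Projectivization.mk ℂ v hv := by
  obtain ⟨c, hc⟩ := h.symm.smul hv
  rw [Projectivization.mk_eq_mk_iff']
  exact ⟨c, hc.symm⟩

theorem Prop2.trans {u v w : Fin (n + 1) → ℂ} (hv : v ≠ 0) (h1 : Prop2 u v) (h2 : Prop2 v w) :
    Prop2 u w := by
  obtain ⟨a, rfl⟩ := h1.symm.smul hv
  obtain ⟨b, rfl⟩ := h2.smul hv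
  intro i j
  simp only [Pi.smul_apply, smul_eq_mul]
  ring

/-- limits of proportional vectors -/
theorem Prop2.lim {u v : ℂ → Fin (n + 1) → ℂ} {z : ℂ} (hu : ContinuousAt u z)
    (hv : ContinuousAt v z) (h : ∀ᶠ w in 𝓝[≠] z, Prop2 (u w) (v w)) : Prop2 (u z) (v z) := by
  intro i j
  have hui : ∀ i, ContinuousAt (fun w => u w i) z := fun i =>
    (continuous_apply i).continuousAt.comp hu
  have hvi : ∀ i, ContinuousAt (fun w => v w i) z := fun i =>
    (continuous_apply i).continuousAt.comp hv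
  have h1 : Tendsto (fun w => u w i * v w j) (𝓝[≠] z) (𝓝 (u z i * v z j)) :=
    ((hui i).mul (hvi j)).continuousWithinAt
  have h2 : Tendsto (fun w => u w j * v w i) (𝓝[≠] z) (𝓝 (u z j * v z i)) :=
    ((hui j).mul (hvi i)).continuousWithinAt
  refine tendsto_nhds_unique h1 (h2.congr' ?_)
  filter_upwards [h] with w hw
  exact (hw i j).symm

/-- the values of forms -/
noncomputable def evP (P : Fin (n + 1) → MvPolynomial (Fin (m + 1)) ℂ) (y : Fin (m + 1) → ℂ) :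
    Fin (n + 1) → ℂ := fun j => eval y (P j)

theorem evP_smul {P : Fin (n + 1) → MvPolynomial (Fin (m + 1)) ℂ} {e : ℕ}
    (hP : ∀ j, (P j).IsHomogeneous e) (c : ℂ) (y : Fin (m + 1) → ℂ) :
    evP P (c • y) = c ^ e • evP P y := by
  funext j
  rw [evP, eval_smul (hP j)]
  rfl

theorem mk_rep {k : ℕ} {f : ℙ ℂ (Fin (k + 1) → ℂ)} {u : Fin (k + 1) → ℂ} (hu : u ≠ 0)
    (h : f = Projectivization.mk ℂ u hu) : ∃ c : ℂ, c ≠ 0 ∧ f.rep = c • u := by
  obtain ⟨c, hc⟩ := Projectivization.exists_smul_eq_mk_rep ℂ u hu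
  refine ⟨c, c.ne_zero, ?_⟩
  rw [h, ← hc]
  rfl

/-- local lifts of the composition -/
theorem comp_local {P : Fin (n + 1) → MvPolynomial (Fin (m + 1)) ℂ} {e : ℕ}
    (hP : ∀ j, (P j).IsHomogeneous e) {g : ℂ → ℙ ℂ (Fin (m + 1) → ℂ)} (hg : HolMap g) (z₀ : ℂ) :
    ∃ G : ℂ → Fin (n + 1) → ℂ, AnalyticAt ℂ G z₀ ∧
      ∀ᶠ z in 𝓝 z₀, ∃ c : ℂ, c ≠ 0 ∧ evP P (g z).rep = c • G z := by
  obtain ⟨V, g₀, hV, hz, hd, h⟩ := hg z₀
  refine ⟨fun z => evP P (g₀ z), ?_, ?_⟩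
  · have h1 : AnalyticAt ℂ g₀ z₀ := hd.analyticAt (hV.mem_nhds hz)
    rw [analyticAt_pi_iff]
    intro j
    have h2 : AnalyticAt ℂ (fun y : Fin (m + 1) → ℂ => eval y (P j)) (g₀ z₀) :=
      AnalyticOnNhd.eval_mvPolynomial (P j) _ (mem_univ _)
    exact h2.comp h1
  · filter_upwards [hV.mem_nhds hz] with z hz
    obtain ⟨h1, h2⟩ := h z hz
    obtain ⟨c, hc, hr⟩ := mk_rep h1 h2
    exact ⟨c ^ e, pow_ne_zero _ hc, by rw [hr, evP_smul hP]⟩

/-- the composition vanishes at isolated points, or identically -/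
theorem comp_ne {P : Fin (n + 1) → MvPolynomial (Fin (m + 1)) ℂ} {e : ℕ}
    (hP : ∀ j, (P j).IsHomogeneous e) {g : ℂ → ℙ ℂ (Fin (m + 1) → ℂ)} (hg : HolMap g) {z₁ : ℂ}
    (h1 : evP P (g z₁).rep ≠ 0) (z₀ : ℂ) : ∀ᶠ z in 𝓝[≠] z₀, evP P (g z).rep ≠ 0 := by
  have key : ∀ z₀, (∀ᶠ z in 𝓝 z₀, evP P (g z).rep = 0) ∨
      ∀ᶠ z in 𝓝[≠] z₀, evP P (g z).rep ≠ 0 := by
    intro z₀
    obtain ⟨G, hG, hc⟩ := comp_local hP hg z₀
    rcases hG.eventually_eq_zero_or_eventually_ne_zero with h | h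
    · left
      filter_upwards [h, hc] with z hz hc
      obtain ⟨c, -, hc⟩ := hc
      rw [hc, hz, smul_zero]
    · right
      filter_upwards [h, nhdsWithin_le_nhds hc] with z hz hc
      obtain ⟨c, hc0, hc⟩ := hc
      rw [hc]
      exact smul_ne_zero hc0 hz
  set A : Set ℂ := {z₀ | ∀ᶠ z in 𝓝 z₀, evP P (g z).rep = 0} with hA
  have hAm : ∀ z, z ∈ A → evP P (g z).rep = 0 := fun z hz =>
    (show ∀ᶠ w in 𝓝 z, evP P (g w).rep = 0 from hz).self_of_nhds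
  have hAo : IsOpen A := isOpen_setOfPred_eventually_nhds
  have hAc : IsClosed A := by
    rw [isClosed_iff_clusterPt]
    intro z₀ hcl
    rcases key z₀ with h | h
    · exact h
    · exfalso
      rw [clusterPt_principal_iff_frequently] at hcl
      by_cases h0 : z₀ ∈ A
      · have h3 : ∀ᶠ z in 𝓝[≠] z₀, evP P (g z).rep = 0 := nhdsWithin_le_nhds h0
        obtain ⟨z, h4, h5⟩ := (h.and h3).exists
        exact h4 h5
      · have h3 : ∀ᶠ z in 𝓝 z₀, z ≠ z₀ → evP P (g z).rep ≠ 0 := by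
          have := eventually_nhdsWithin_iff.1 h
          filter_upwards [this] with z hz hne
          exact hz hne
        obtain ⟨z, h4, h5⟩ := (hcl.and_eventually h3).exists
        have h6 : z ≠ z₀ := fun h7 => h0 (h7 ▸ h4)
        exact h5 h6 (hAm _ h4)
  have hAe : A = ∅ := by
    rcases isClopen_iff.1 ⟨hAc, hAo⟩ with h | h
    · exact h
    · exfalso
      have : z₁ ∈ A := h ▸ mem_univ z₁
      exact h1 (hAm _ this)
  rcases key z₀ with h | h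
  · exfalso
    have : z₀ ∈ A := h
    rw [hAe] at this
    exact this
  · exact h

/-- **The composition of an entire curve and a rational map.** -/
theorem comp_ext {P : Fin (n + 1) → MvPolynomial (Fin (m + 1)) ℂ} {e : ℕ}
    (hP : ∀ j, (P j).IsHomogeneous e) {g : ℂ → ℙ ℂ (Fin (m + 1) → ℂ)} (hg : HolMap g) {z₁ : ℂ}
    (h1 : evP P (g z₁).rep ≠ 0) {ι : Type} {F : ι → MvPolynomial (Fin (n + 1)) ℂ}
    (hF : ∀ z, evP P (g z).rep ≠ 0 → evP P (g z).rep ∈ Cone F) (hFf : ∀ i, IsForm (F i)) :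
    ∃ f : ℂ → ℙ ℂ (Fin (n + 1) → ℂ), HolIn F f ∧ ∀ z, evP P (g z).rep ≠ 0 →
      ∃ c : ℂ, evP P (g z).rep = c • (f z).rep := by
  have hex : ∀ z₀ : ℂ, ∃ h : ℂ → Fin (n + 1) → ℂ, AnalyticAt ℂ h z₀ ∧ h z₀ ≠ 0 ∧
      ∀ᶠ z in 𝓝[≠] z₀, evP P (g z).rep ≠ 0 ∧ Prop2 (evP P (g z).rep) (h z) := by
    intro z₀
    obtain ⟨G, hG, hc⟩ := comp_local hP hg z₀
    have hne := comp_ne hP hg h1 z₀
    have hG0 : ¬ ∀ᶠ z in 𝓝 z₀, G z = 0 := by
      intro h
      obtain ⟨z, h2, h3, h4⟩ := (hne.and (h.and hc |>.filter_mono nhdsWithin_le_nhds)).exists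
      obtain ⟨c, -, h4⟩ := h4
      rw [h4, h3, smul_zero] at h2
      exact h2 rfl
    obtain ⟨k, h, hh, hh0, hk⟩ := (AnalyticAt.exists_eventuallyEq_pow_smul_nonzero_iff hG).2 hG0
    refine ⟨h, hh, hh0, ?_⟩
    filter_upwards [hne, nhdsWithin_le_nhds hc, nhdsWithin_le_nhds hk] with z h2 h3 h4
    refine ⟨h2, ?_⟩
    obtain ⟨c, -, h3⟩ := h3
    rw [h3, h4, smul_smul]
    exact prop2_smul _ _
  choose h hh hh0 hev using hex
  have hloc : ∀ z₀, ∀ᶠ z in 𝓝 z₀, h z₀ z ≠ 0 ∧ Prop2 (h z z) (h z₀ z) := by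
    intro z₀
    have a1 : ∀ᶠ z in 𝓝 z₀, h z₀ z ≠ 0 := (hh z₀).continuousAt.eventually_ne (hh0 z₀)
    have a2 : ∀ᶠ z in 𝓝 z₀, AnalyticAt ℂ (h z₀) z := (hh z₀).eventually_analyticAt
    have a3 : ∀ᶠ z in 𝓝 z₀, z ≠ z₀ → (evP P (g z).rep ≠ 0 ∧ Prop2 (evP P (g z).rep) (h z₀ z)) :=
      eventually_nhdsWithin_iff.1 (hev z₀)
    filter_upwards [a1, a2, a3.eventually_nhds, a3] with z b1 b2 b3 b4
    refine ⟨b1, ?_⟩
    by_cases hz : z = z₀
    · rw [hz]
      exact fun i j => mul_comm _ _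
    · apply Prop2.lim (hh z).continuousAt b2.continuousAt
      have b5 : ∀ᶠ w in 𝓝 z, w ≠ z₀ := isOpen_ne.mem_nhds hz
      filter_upwards [hev z, nhdsWithin_le_nhds b3, nhdsWithin_le_nhds b5] with w c1 c2 c3
      exact (c1.2.symm).trans c1.1 (c2 c3).2
  refine ⟨fun z => Projectivization.mk ℂ (h z z) (hh0 z), ⟨fun z₀ => ?_, fun z₀ => ?_⟩, fun z₀ hz => ?_⟩
  · obtain ⟨V, hV1, hV2, hV3⟩ := _root_.eventually_nhds_iff.1
      ((hloc z₀).and (hh z₀).eventually_analyticAt)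
    refine ⟨V, h z₀, hV2, hV3, fun z hz => (hV1 z hz).2.differentiableAt.differentiableWithinAt,
      fun z hz => ⟨(hV1 z hz).1.1, Prop2.mk _ _ (hV1 z hz).1.2⟩⟩
  · obtain ⟨c, hc, hr⟩ := mk_rep (hh0 z₀) rfl
    have hmem : h z₀ z₀ ∈ Cone F := by
      refine ⟨hh0 z₀, fun i => ?_⟩
      obtain ⟨k, hk⟩ := hFf i
      rw [val_eval]
      have h2 : ContinuousAt (fun z => eval (h z₀ z) (F i)) z₀ := by
        have : Continuous fun y : Fin (n + 1) → ℂ => eval y (F i) := (F i).continuous_eval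
        exact this.continuousAt.comp (hh z₀).continuousAt
      have h3 : Tendsto (fun z => eval (h z₀ z) (F i)) (𝓝[≠] z₀) (𝓝 (eval (h z₀ z₀) (F i))) :=
        h2.continuousWithinAt
      refine tendsto_nhds_unique h3 (tendsto_const_nhds.congr' ?_)
      filter_upwards [hev z₀] with z hz
      obtain ⟨c, hc⟩ := hz.2.smul hz.1
      have h4 := (hF z hz.1).2 i
      rw [val_eval] at h4
      rw [hc, eval_smul hk, h4, mul_zero]
    rw [hr]
    exact cone_smul hFf hmem hc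
  · obtain ⟨c, hc, hr⟩ := mk_rep (hh0 z₀) rfl
    have h2 : Prop2 (h z₀ z₀) (evP P (g z₀).rep) := by
      obtain ⟨G, hG, hcG⟩ := comp_local hP hg z₀
      obtain ⟨c', hc', hr'⟩ := Eventually.self_of_nhds hcG
      have hG0 : G z₀ ≠ 0 := by
        rintro h0
        rw [hr', h0, smul_zero] at hz
        exact hz rfl
      have h3 : Prop2 (h z₀ z₀) (G z₀) := by
        apply Prop2.lim (hh z₀).continuousAt hG.continuousAt
        filter_upwards [hev z₀, nhdsWithin_le_nhds hcG] with w c1 c2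
        obtain ⟨a, -, ha⟩ := c2
        exact (c1.2.symm).trans c1.1 (ha ▸ prop2_smul (G w) a)
      exact h3.trans hG0 (hr' ▸ (prop2_smul (G z₀) c').symm)
    have h4 : (Projectivization.mk ℂ (h z₀ z₀) (hh0 z₀)).rep ≠ 0 := Projectivization.rep_nonzero _
    have h5 : Prop2 (Projectivization.mk ℂ (h z₀ z₀) (hh0 z₀)).rep (evP P (g z₀).rep) :=
      Prop2.trans (hh0 z₀) (hr ▸ prop2_smul _ c) h2
    exact h5.smul h4

end Pool.Agent.H33
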