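import Pool.Agent.H33.OA

/-! Entire curves in varieties which dominate manifolds of nonpositive curvature. -/

set_option autoImplicit false

open Filter Topology Metric Set MvPolynomial LinearAlgebra.Projectivization

namespace Pool.Agent.H33

open Pool.Agent.Y190.OP Pool.Agent.W602.GT Pool.Agent.N155 Pool.Agent.N155.BB

variable {m n : ℕ} {ι ι' : Type} {F : ι → MvPolynomial (Fin (n + 1)) ℂ} {d : ℕ}
  {κ : Type} {η : κ → (Fin (n + 1) → ℂ) → (Fin (n + 1) → ℂ) → (Fin (n + 1) → ℂ) → ℂ}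
  {Φ : (Fin (n + 1) → ℂ) → (Fin (n + 1) → ℂ) → ℝ} {ν : ℕ}

/-- A projective manifold of positive dimension is not a point. -/
theorem not_point (hX : ProjManifold F d) (hd : 1 ≤ d) {x : Fin (n + 1) → ℂ} (hx : x ∈ Cone F)
    {x₀ : Fin (n + 1) → ℂ} (hx₀ : x₀ ≠ 0) : ∃ y ∈ Cone F, ¬ Prop2 x₀ y := by
  by_contra hcon
  push Not at hcon
  obtain ⟨i, J, U, Ψ, hi, hU, hxU, -, hΨ, -⟩ := hX.smooth x hx
  have hsub : ∀ z ∈ U, ∀ w ∈ U, z = w := by
    intro z hz w hw
    have h1 := hΨ z hz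
    have h2 := hΨ w hw
    obtain ⟨a, ha⟩ := (hcon _ h1.1).smul hx₀
    obtain ⟨b, hb⟩ := (hcon _ h2.1).smul hx₀
    have e1 : a * x₀ i = 1 := by
      rw [← h1.2.1, ha]
      rfl
    have e2 : b * x₀ i = 1 := by
      rw [← h2.2.1, hb]
      rfl
    have h0 : x₀ i ≠ 0 := by
      rintro h
      rw [h, mul_zero] at e1
      exact zero_ne_one e1
    have hab : a = b := mul_right_cancel₀ h0 (e1.trans e2.symm)
    funext k
    rw [← h1.2.2 k, ← h2.2.2 k, ha, hb, hab]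
  have : Nonempty (Fin d) := ⟨⟨0, hd⟩⟩
  have hne := Module.punctured_nhds_neBot ℂ (Fin d → ℂ) (fun k => x (J k) / x i)
  have hev : ∀ᶠ w in 𝓝[≠] (fun k => x (J k) / x i), w ∈ U ∧ w ≠ fun k => x (J k) / x i := by
    filter_upwards [nhdsWithin_le_nhds (hU.mem_nhds hxU), self_mem_nhdsWithin] with w h1 h2
    exact ⟨h1, h2⟩
  obtain ⟨w, hw1, hw2⟩ := hev.exists
  exact hw2 (hsub w hw1 _ hxU)

theorem eval_comp (P : Fin (n + 1) → MvPolynomial (Fin (m + 1)) ℂ)
    (E : MvPolynomial (Fin (n + 1)) ℂ) (y : Fin (m + 1) → ℂ) :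
    eval y (aeval P E) = eval (fun j => eval y (P j)) E := by
  have h := aeval_bind₁ (R := ℂ) y P E
  have e1 : ∀ (k : ℕ) (v : Fin k → ℂ) (p : MvPolynomial (Fin k) ℂ), aeval v p = eval v p :=
    fun k v p => by rw [aeval_def, eval₂_eq_eval_map, Algebra.algebraMap_self, MvPolynomial.map_id]
  rw [bind₁, e1, e1] at h
  rw [h]
  congr 1

/-- **Entire curves in varieties with a rational map to a manifold of nonpositive curvature.** -/
theorem dominated [Finite κ] (hX : ProjManifold F d) (hη : PositiveTwoForms (Cone F) ∅ d η)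
    (hν : ν ≠ 0) (hh : HomForms (Cone F) ν η) (hΦ : NonposMetric (Cone F) d Φ)
    (hnd : Nondegenerate (Cone F) d Φ)
    (hr : HermitianMetric (Cone F) d Φ ∨ UniformlyConvex (Cone F) d Φ) (hd : 2 ≤ d)
    (G : ι' → MvPolynomial (Fin (m + 1)) ℂ) (P : Fin (n + 1) → MvPolynomial (Fin (m + 1)) ℂ)
    {e : ℕ} (hP : ∀ j, (P j).IsHomogeneous e)
    (hPX : ∀ y ∈ Cone G, (fun j => eval y (P j)) ≠ 0 → (fun j => eval y (P j)) ∈ Cone F) :
    (∀ x ∈ Cone F, ∃ E : MvPolynomial (Fin (n + 1)) ℂ, IsForm E ∧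
      (¬ ∀ᶠ y in 𝓝[Cone F] x, eval y E = 0) ∧
      ∀ g, HolIn G g →
        (∀ z, (∀ j, eval (g z).rep (P j) = 0) ∨
          eval (fun j => eval (g z).rep (P j)) E = 0) ∨
        ∃ x₀ ∈ Cone F, ∀ z, ∃ c : ℂ, ∀ j, eval (g z).rep (P j) = c * x₀ j) ∧
    ((∃ y ∈ Cone G, (fun j => eval y (P j)) ≠ 0) →
      (∀ E : MvPolynomial (Fin (n + 1)) ℂ, IsForm E →
        (∀ y ∈ Cone G, (fun j => eval y (P j)) ≠ 0 → eval (fun j => eval y (P j)) E = 0) →
        ∀ x ∈ Cone F, eval x E = 0) →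
      ∀ g, HolIn G g → ∃ H : MvPolynomial (Fin (m + 1)) ℂ, IsForm H ∧
        (∀ z, eval (g z).rep H = 0) ∧ ∃ y ∈ Cone G, eval y H ≠ 0) := by
  obtain ⟨S, -, -, hS⟩ := ggl hX hη hν hh hΦ hnd hr
  have hS := hS hd
  have key : ∀ x ∈ Cone F, ∃ E : MvPolynomial (Fin (n + 1)) ℂ, IsForm E ∧
      (¬ ∀ᶠ y in 𝓝[Cone F] x, eval y E = 0) ∧
      ∀ g, HolIn G g →
        (∀ z, (∀ j, eval (g z).rep (P j) = 0) ∨
          eval (fun j => eval (g z).rep (P j)) E = 0) ∨
        ∃ x₀ ∈ Cone F, ∀ z, ∃ c : ℂ, ∀ j, eval (g z).rep (P j) = c * x₀ j := by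
    intro x hx
    obtain ⟨E, hE, hE1, hE2⟩ := hS x hx
    refine ⟨E, hE, hE1, fun g hg => ?_⟩
    by_cases h0 : ∃ z₁, evP P (g z₁).rep ≠ 0
    · obtain ⟨z₁, hz₁⟩ := h0
      obtain ⟨f, hf, hfg⟩ := comp_ext hP hg.1 hz₁ (fun z hz => hPX _ (hg.2 z) hz) hX.form
      by_cases hc : ∃ z w, f z ≠ f w
      · left
        intro z
        by_cases hz : evP P (g z).rep = 0
        · exact Or.inl fun j => congrFun hz j
        · right
          obtain ⟨c, hc'⟩ := hfg z hz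
          have h3 := hE2 f hf hc z
          obtain ⟨k, hk⟩ := hE
          change eval (evP P (g z).rep) E = 0
          rw [hc', eval_smul hk, h3, mul_zero]
      · right
        push Not at hc
        refine ⟨(f 0).rep, hf.2 0, fun z => ?_⟩
        by_cases hz : evP P (g z).rep = 0
        · exact ⟨0, fun j => by
            rw [zero_mul]
            exact congrFun hz j⟩
        · obtain ⟨c, hc'⟩ := hfg z hz
          rw [hc z 0] at hc'
          exact ⟨c, fun j => congrFun hc' j⟩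
    · left
      push Not at h0
      exact fun z => Or.inl fun j => congrFun (h0 z) j
  refine ⟨key, ?_⟩
  rintro ⟨y₁, hy₁, hPy₁⟩ hdom g hg
  have hx := hPX y₁ hy₁ hPy₁
  obtain ⟨E, hE, hE1, hE2⟩ := key _ hx
  obtain ⟨k, hk⟩ := hE
  rcases hE2 g hg with h | h
  · have h1 : ¬ ∀ x ∈ Cone F, eval x E = 0 := by
      intro hcon
      apply hE1
      filter_upwards [self_mem_nhdsWithin] with y hy
      exact hcon y hy
    have h2 : ∃ y ∈ Cone G, (fun j => eval y (P j)) ≠ 0 ∧ eval (fun j => eval y (P j)) E ≠ 0 := by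
      by_contra hcon
      push Not at hcon
      exact h1 (hdom E ⟨k, hk⟩ hcon)
    obtain ⟨y, hy, hy1, hy2⟩ := h2
    obtain ⟨j, hj⟩ := Function.ne_iff.1 hy1
    refine ⟨P j * aeval P E, ?_, fun z => ?_, y, hy, ?_⟩
    · exact ⟨e + e * k, (hP j).mul (hk.aeval P hP)⟩
    · rw [map_mul]
      rcases h z with h3 | h3
      · rw [h3 j, zero_mul]
      · rw [eval_comp, h3, mul_zero]
    · rw [map_mul, eval_comp]
      exact mul_ne_zero hj hy2
  · obtain ⟨x₀, hx₀, hc⟩ := h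
    obtain ⟨x', hx', hnp⟩ := not_point hX (by omega) hx hx₀.1
    simp only [Prop2, not_forall] at hnp
    obtain ⟨i, j, hij⟩ := hnp
    have h2 : ∃ y ∈ Cone G, x₀ i * eval y (P j) - x₀ j * eval y (P i) ≠ 0 := by
      by_contra hcon
      push Not at hcon
      have h3 := hdom (C (x₀ i) * X j - C (x₀ j) * X i) ⟨1, ?_⟩ (fun y hy _ => ?_) x' hx'
      · apply hij
        simpa [sub_eq_zero] using h3
      · exact ((isHomogeneous_C _ _).mul (isHomogeneous_X _ _)).sub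
          ((isHomogeneous_C _ _).mul (isHomogeneous_X _ _))
      · simpa using hcon y hy
    obtain ⟨y, hy, hy1⟩ := h2
    refine ⟨C (x₀ i) * P j - C (x₀ j) * P i, ⟨e, ?_⟩, fun z => ?_, y, hy, by simpa using hy1⟩
    · have h4 := ((isHomogeneous_C (Fin (m + 1)) (x₀ i)).mul (hP j)).sub
        ((isHomogeneous_C (Fin (m + 1)) (x₀ j)).mul (hP i))
      rwa [zero_add] at h4
    · obtain ⟨c, hc'⟩ := hc z
      simp only [map_sub, map_mul, eval_C, hc']
      ring

end Pool.Agent.H33
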