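import Pool.Agent.H33.HDefs

/-! Rational maps of projective varieties, and entire curves with Zariski-dense image. -/

set_option autoImplicit false

open LinearAlgebra.Projectivization MvPolynomial

namespace Pool.Agent.H33

open Pool.Agent.W602.GT Pool.Agent.N155.BB

variable {m n : ℕ} {ι ι' : Type}

/-- The point of `ℂ ^ (n + 1)` with the coordinates `P j (y)`. -/
noncomputable def ratVal (P : Fin (n + 1) → MvPolynomial (Fin (m + 1)) ℂ) (y : Fin (m + 1) → ℂ) :
    Fin (n + 1) → ℂ := fun j => eval y (P j)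

/-- The forms `P j`, of the same degree, define a rational map `y ↦ (P 0 (y) : ⋯ : P n (y))` from the
projective set `{G = 0}` in `ℙ ^ m` to the projective set `{F = 0}` in `ℙ ^ n`. It is not defined where
all the `P j` vanish. -/
structure RationalMap (G : ι' → MvPolynomial (Fin (m + 1)) ℂ) (F : ι → MvPolynomial (Fin (n + 1)) ℂ)
    (P : Fin (n + 1) → MvPolynomial (Fin (m + 1)) ℂ) : Prop where
  form : ∃ e, ∀ j, (P j).IsHomogeneous e
  maps : ∀ y ∈ Cone G, ratVal P y ≠ 0 → ratVal P y ∈ Cone F

/-- The rational map from `{G = 0}` to `{F = 0}` is somewhere defined and dominant: the forms which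
vanish at its values vanish on `{F = 0}`. -/
def Dominant (G : ι' → MvPolynomial (Fin (m + 1)) ℂ) (F : ι → MvPolynomial (Fin (n + 1)) ℂ)
    (P : Fin (n + 1) → MvPolynomial (Fin (m + 1)) ℂ) : Prop :=
  (∃ y ∈ Cone G, ratVal P y ≠ 0) ∧ ∀ E : MvPolynomial (Fin (n + 1)) ℂ, IsForm E →
    (∀ y ∈ Cone G, ratVal P y ≠ 0 → eval (ratVal P y) E = 0) → ∀ x ∈ Cone F, eval x E = 0

/-- The projective variety `{G = 0}` is Brody-special: there is a holomorphic map from the complex
plane to it with Zariski-dense image, that is, the forms which vanish on the image vanish on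
`{G = 0}`. -/
def BrodySpecial (G : ι' → MvPolynomial (Fin (m + 1)) ℂ) : Prop :=
  ∃ g : ℂ → ℙ ℂ (Fin (m + 1) → ℂ), HolIn G g ∧ ∀ H : MvPolynomial (Fin (m + 1)) ℂ, IsForm H →
    (∀ z, eval (g z).rep H = 0) → ∀ y ∈ Cone G, eval y H = 0

end Pool.Agent.H33
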