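import Pool.Agent.H33.OA
import Pool.Agent.H33.MI
import Pool.Agent.H33.JSub

/-! Degrees of compositions with morphisms. -/

set_option autoImplicit false

open Filter Topology Metric Set MvPolynomial MeasureTheory LinearAlgebra.Projectivization
open scoped UpperHalfPlane MatrixGroups ENNReal

namespace Pool.Agent.H33

open Pool.Agent.Y190.OP Pool.Agent.W602.GT Pool.Agent.N155 Pool.Agent.N155.BB
open Real (circleAverage)

variable {m n : ℕ}

/-- homogeneous coordinates of a map from the upper half plane -/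
structure HLift (f : ℍ → ℙ ℂ (Fin (n + 1) → ℂ)) (V : Set ℂ) (g : ℂ → Fin (n + 1) → ℂ) : Prop where
  op : IsOpen V
  diff : DifferentiableOn ℂ g V
  eq : ∀ z : ℍ, (z : ℂ) ∈ V → ∃ h : g z ≠ 0, f z = Projectivization.mk ℂ (g z) h

variable {f : ℍ → ℙ ℂ (Fin (n + 1) → ℂ)} {V V' : Set ℂ} {g g' : ℂ → Fin (n + 1) → ℂ}

theorem HLift.analyticAt (h : HLift f V g) {z : ℂ} (hz : z ∈ V) : AnalyticAt ℂ g z :=
  h.diff.analyticAt (h.op.mem_nhds hz)

/-- different homogeneous coordinates -/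
theorem HLift.ratio (h : HLift f V g) (h' : HLift f V' g') {z : ℍ} (hz : (z : ℂ) ∈ V)
    (hz' : (z : ℂ) ∈ V') : ∃ l : ℂ → ℂ, DifferentiableAt ℂ l z ∧ l z ≠ 0 ∧
      ∀ᶠ w in 𝓝 (z : ℂ), g' w = l w • g w := by
  obtain ⟨hg0, -⟩ := h.eq z hz
  obtain ⟨hg0', -⟩ := h'.eq z hz'
  obtain ⟨i, hi⟩ := Function.ne_iff.1 hg0
  have hi : g z i ≠ 0 := hi
  have ha := h.analyticAt hz
  have ha' := h'.analyticAt hz'
  have hev : ∀ᶠ w in 𝓝 (z : ℂ), g w i ≠ 0 := by
    have : ContinuousAt (fun w => g w i) z := (continuous_apply i).continuousAt.comp ha.continuousAt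
    exact this.eventually_ne hi
  have hall : ∀ᶠ w in 𝓝 (z : ℂ), g' w = (g' w i / g w i) • g w := by
    filter_upwards [hev, h.op.mem_nhds hz, h'.op.mem_nhds hz', isOpen_upper.mem_nhds (coe_upper z)]
      with w h1 h2 h3 h4
    obtain ⟨k1, k2⟩ := h.eq ⟨w, h4⟩ h2
    obtain ⟨k3, k4⟩ := h'.eq ⟨w, h4⟩ h3
    rw [k2, Projectivization.mk_eq_mk_iff'] at k4
    obtain ⟨c, hc⟩ := k4
    have hc' : c • g' w = g w := hc
    have h5 : g w i = c * g' w i := by rw [← hc']; rfl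
    have hc0 : c ≠ 0 := by
      rintro rfl
      rw [h5, zero_mul] at h1
      exact h1 rfl
    have h6 : g' w i ≠ 0 := by
      intro h0
      rw [h5, h0, mul_zero] at h1
      exact h1 rfl
    rw [← hc', smul_smul]
    have : g' w i / (c • g' w) i * c = 1 := by
      rw [Pi.smul_apply, smul_eq_mul]
      field_simp
    rw [this, one_smul]
  refine ⟨fun w => g' w i / g w i, ?_, ?_, hall⟩
  · have h1 : DifferentiableAt ℂ (fun w => g' w i) z :=
      (differentiableAt_pi.1 ha'.differentiableAt) i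
    have h2 : DifferentiableAt ℂ (fun w => g w i) z :=
      (differentiableAt_pi.1 ha.differentiableAt) i
    exact h1.fun_div h2 hi
  · intro h0
    have := hall.self_of_nhds
    change g' z i / g z i = 0 at h0
    rw [h0, zero_smul] at this
    exact hg0' this

theorem wedge_smul (a b : Fin (n + 1) → ℂ) (l l' : ℂ) :
    wedge (l • a) (l' • a + l • b) = ‖l‖ ^ 2 * wedge a b := by
  unfold wedge
  have h1 : ∀ i j, ‖(l • a) i * (l' • a + l • b) j - (l • a) j * (l' • a + l • b) i‖ ^ 2 =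
      (‖l‖ ^ 2) ^ 2 * ‖a i * b j - a j * b i‖ ^ 2 := by
    intro i j
    have : (l • a) i * (l' • a + l • b) j - (l • a) j * (l' • a + l • b) i =
        l ^ 2 * (a i * b j - a j * b i) := by
      simp only [Pi.add_apply, Pi.smul_apply, smul_eq_mul]
      ring
    rw [this, norm_mul, norm_pow, mul_pow]
  simp only [h1, ← Finset.mul_sum, mul_div_assoc]
  rw [Real.sqrt_mul (by positivity), Real.sqrt_sq (by positivity)]

theorem sqn_smul' (c : ℂ) (a : Fin (n + 1) → ℂ) : sqn (c • a) = ‖c‖ ^ 2 * sqn a := by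
  unfold sqn
  rw [Finset.mul_sum]
  exact Finset.sum_congr rfl fun k _ => by
    rw [Pi.smul_apply, smul_eq_mul, norm_mul, mul_pow]

theorem dens_eq {z : ℂ} {l : ℂ → ℂ} (hg : DifferentiableAt ℂ g z) (hl : DifferentiableAt ℂ l z)
    (hl0 : l z ≠ 0) (h : ∀ᶠ w in 𝓝 z, g' w = l w • g w) :
    wedge (g' z) (deriv g' z) / sqn (g' z) = wedge (g z) (deriv g z) / sqn (g z) := by
  have h1 : HasDerivAt (fun w => l w • g w) (l z • deriv g z + deriv l z • g z) z :=
    hl.hasDerivAt.smul hg.hasDerivAt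
  have h2 : deriv g' z = deriv l z • g z + l z • deriv g z := by
    rw [EventuallyEq.deriv_eq h, h1.deriv]
    exact add_comm _ _
  rw [h2, h.self_of_nhds, wedge_smul, sqn_smul']
  have : ‖l z‖ ^ 2 ≠ 0 := pow_ne_zero _ (norm_ne_zero_iff.2 hl0)
  exact mul_div_mul_left _ _ this

/-- the speed in terms of a lift -/
theorem HLift.speed_eq (h : HLift f V g) {z : ℍ} (hz : (z : ℂ) ∈ V) :
    speedSq f z = (z.im * (wedge (g z) (deriv g z) / sqn (g z))) ^ 2 := by
  unfold Pool.Agent.H33.speedSq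
  have h1 : {e : ℝ | ∃ (V : Set ℂ) (g : ℂ → Fin (n + 1) → ℂ), IsOpen V ∧ (z : ℂ) ∈ V ∧
      DifferentiableOn ℂ g V ∧ (∀ w : ℍ, (w : ℂ) ∈ V → ∃ h : g w ≠ 0,
        f w = Projectivization.mk ℂ (g w) h) ∧
      e = (z.im * (wedge (g z) (deriv g z) / ∑ k, ‖g z k‖ ^ 2)) ^ 2} =
      {(z.im * (wedge (g z) (deriv g z) / sqn (g z))) ^ 2} := by
    ext e
    rw [mem_singleton_iff]
    constructor
    · rintro ⟨V', g', hV', hz', hd, he, rfl⟩
      have h' : HLift f V' g' := ⟨hV', hd, he⟩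
      obtain ⟨l, hl, hl0, hlg⟩ := h.ratio h' hz hz'
      have := dens_eq (h.analyticAt hz).differentiableAt hl hl0 hlg
      unfold sqn at this ⊢
      rw [this]
    · rintro rfl
      exact ⟨V, g, h.op, hz, h.diff, h.eq, rfl⟩
  rw [h1]
  exact csSup_singleton _

theorem HolH.lift {X : Set (Fin (n + 1) → ℂ)} (hf : HolH X f) (z : ℍ) :
    ∃ (V : Set ℂ) (g : ℂ → Fin (n + 1) → ℂ), HLift f V g ∧ (z : ℂ) ∈ V := by
  obtain ⟨-, V, g, hV, hz, hd, he⟩ := hf z
  exact ⟨V, g, ⟨hV, hd, he⟩, hz⟩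

theorem wedge_cont : Continuous fun p : (Fin (n + 1) → ℂ) × (Fin (n + 1) → ℂ) =>
    wedge p.1 p.2 := by
  unfold wedge
  fun_prop

theorem speedSq_cont {X : Set (Fin (n + 1) → ℂ)} (hf : HolH X f) : Continuous (speedSq f) := by
  rw [continuous_iff_continuousAt]
  intro z
  obtain ⟨V, g, h, hz⟩ := hf.lift z
  have hcoe : ContinuousAt (fun w : ℍ => (w : ℂ)) z := UpperHalfPlane.continuous_coe.continuousAt
  have h1 : speedSq f =ᶠ[𝓝 z] fun w : ℍ => (w.im * (wedge (g w) (deriv g w) / sqn (g w))) ^ 2 := by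
    filter_upwards [hcoe.eventually (h.op.mem_nhds hz)] with w hw
    exact h.speed_eq hw
  refine ContinuousAt.congr ?_ h1.symm
  have ha := h.analyticAt hz
  have hga : ContinuousAt (fun w : ℍ => g w) z := ha.continuousAt.comp hcoe
  have hda : ContinuousAt (fun w : ℍ => deriv g w) z :=
    ContinuousAt.comp (g := deriv g) (f := fun w : ℍ => (w : ℂ)) ha.deriv.continuousAt hcoe
  have hw : ContinuousAt (fun w : ℍ => wedge (g w) (deriv g w)) z :=
    ContinuousAt.comp (g := fun p : (Fin (n + 1) → ℂ) × (Fin (n + 1) → ℂ) => wedge p.1 p.2)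
      (f := fun w : ℍ => (g w, deriv g w)) wedge_cont.continuousAt (hga.prodMk hda)
  have hs : ContinuousAt (fun w : ℍ => sqn (g w)) z :=
    ContinuousAt.comp (g := sqn) (f := fun w : ℍ => g w) sqn_cont.continuousAt hga
  have hne : sqn (g z) ≠ 0 := (sqn_pos (h.eq z hz).1).ne'
  exact (UpperHalfPlane.continuous_im.continuousAt.mul (hw.div hs hne)).pow 2

/-- in disc coordinates -/
theorem HLift.disc (h : HLift f V g) (z : ℍ) {ζ : ℂ} (hζ : ζ ∈ ball (0 : ℂ) 1)
    (hz : cay z ζ ∈ V) :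
    AnalyticAt ℂ (fun s => g (cay z s)) ζ ∧ g (cay z ζ) ≠ 0 ∧
      (wedge (g (cay z ζ)) (deriv (fun s => g (cay z s)) ζ) / sqn (g (cay z ζ))) ^ 2 =
        4 * speedSq f (cayH z ζ) / (1 - ‖ζ‖ ^ 2) ^ 2 := by
  have hc := coe_cayH z hζ
  have hz' : ((cayH z ζ : ℍ) : ℂ) ∈ V := by rw [hc]; exact hz
  have ha := h.analyticAt hz
  have hcay : AnalyticAt ℂ (cay z) ζ :=
    (differentiableOn_cay z).analyticAt (isOpen_ball.mem_nhds hζ)
  refine ⟨ha.comp hcay, ?_, ?_⟩
  · have := (h.eq _ hz').1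
    rwa [hc] at this
  · have hd : deriv (fun s => g (cay z s)) ζ = cay' z ζ • deriv g (cay z ζ) := by
      have := HasDerivAt.scomp ζ ha.differentiableAt.hasDerivAt (hasDerivAt_cay z hζ)
      exact this.deriv
    have hw : wedge (g (cay z ζ)) (cay' z ζ • deriv g (cay z ζ)) =
        ‖cay' z ζ‖ * wedge (g (cay z ζ)) (deriv g (cay z ζ)) := by
      unfold wedge
      have h1 : ∀ i j, ‖g (cay z ζ) i * (cay' z ζ • deriv g (cay z ζ)) j -
          g (cay z ζ) j * (cay' z ζ • deriv g (cay z ζ)) i‖ ^ 2 = ‖cay' z ζ‖ ^ 2 *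
          ‖g (cay z ζ) i * deriv g (cay z ζ) j - g (cay z ζ) j * deriv g (cay z ζ) i‖ ^ 2 := by
        intro i j
        rw [← mul_pow, ← norm_mul]
        congr 2
        simp only [Pi.smul_apply, smul_eq_mul]
        ring
      simp only [h1, ← Finset.mul_sum, mul_div_assoc]
      rw [Real.sqrt_mul (by positivity), Real.sqrt_sq (norm_nonneg _)]
    rw [hd, hw, h.speed_eq hz', hc]
    have h1 := norm_cay' z hζ
    have h2 := normSq_lt hζ
    have h3 : (cayH z ζ).im = (cay z ζ).im := by rw [← UpperHalfPlane.coe_im, hc]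
    rw [h3]
    have h4 : ‖cay' z ζ‖ = 2 * (cay z ζ).im / (1 - ‖ζ‖ ^ 2) := by
      rw [eq_div_iff h2.ne', h1]
    rw [h4]
    field_simp
    ring

end Pool.Agent.H33
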