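import Pool.Agent.H33.PA

/-! Degrees of compositions with morphisms: the mean value inequality. -/

set_option autoImplicit false

open Filter Topology Metric Set MvPolynomial MeasureTheory LinearAlgebra.Projectivization
open scoped UpperHalfPlane MatrixGroups ENNReal

namespace Pool.Agent.H33

open Pool.Agent.Y190.OP Pool.Agent.W602.GT Pool.Agent.N155 Pool.Agent.N155.BB
open Real (circleAverage)

variable {m n : ℕ}

theorem wedge_smul_right (a b : Fin (n + 1) → ℂ) (l : ℂ) : wedge a (l • b) = ‖l‖ * wedge a b := by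
  unfold wedge
  have h1 : ∀ i j, ‖a i * (l • b) j - a j * (l • b) i‖ ^ 2 = ‖l‖ ^ 2 *
      ‖a i * b j - a j * b i‖ ^ 2 := by
    intro i j
    rw [← mul_pow, ← norm_mul]
    congr 2
    simp only [Pi.smul_apply, smul_eq_mul]
    ring
  simp only [h1, ← Finset.mul_sum, mul_div_assoc]
  rw [Real.sqrt_mul (by positivity), Real.sqrt_sq (norm_nonneg _)]

/-- invariance of the speed -/
theorem speedSq_smul {X : Set (Fin (n + 1) → ℂ)} {f : ℍ → ℙ ℂ (Fin (n + 1) → ℂ)} (hf : HolH X f)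
    {γ : SL(2, ℝ)} (hγ : ∀ z : ℍ, f (γ • z) = f z) (z : ℍ) : speedSq f (γ • z) = speedSq f z := by
  obtain ⟨V, g₀, h, hz⟩ := hf.lift (γ • z)
  set g : GL (Fin 2) ℝ := (γ : GL (Fin 2) ℝ) with hg
  have hdet : 0 < g.val.det := by
    rw [hg]
    simp
  set G : ℂ → ℂ := fun w => ((g • UpperHalfPlane.ofComplex w : ℍ) : ℂ) with hG
  have hGs : ∀ s : ℍ, HasDerivAt G (g.val.det / UpperHalfPlane.denom g s ^ 2) s := fun s =>
    (UpperHalfPlane.hasStrictDerivAt_smul hdet s).hasDerivAt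
  have hGz : ∀ s : ℍ, G s = ((γ • s : ℍ) : ℂ) := by
    intro s
    rw [hG]
    simp only [UpperHalfPlane.ofComplex_apply]
    rfl
  have hcG : ContinuousOn G upper := fun s hs =>
    (hGs ⟨s, hs⟩).continuousAt.continuousWithinAt
  have hV' : IsOpen (upper ∩ G ⁻¹' V) := hcG.isOpen_inter_preimage isOpen_upper h.op
  have h' : HLift f (upper ∩ G ⁻¹' V) fun w => g₀ (G w) := by
    refine ⟨hV', fun s hs => ?_, fun s hs => ?_⟩
    · have h1 : DifferentiableAt ℂ g₀ (G s) := (h.analyticAt hs.2).differentiableAt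
      exact (DifferentiableAt.comp s h1 (hGs ⟨s, hs.1⟩).differentiableAt).differentiableWithinAt
    · have h1 : ((γ • s : ℍ) : ℂ) ∈ V := by
        rw [← hGz]
        exact hs.2
      obtain ⟨k1, k2⟩ := h.eq _ h1
      rw [← hGz] at k1
      refine ⟨k1, ?_⟩
      rw [← hγ s, k2]
      congr 1
      rw [hGz]
  have hzV' : (z : ℂ) ∈ upper ∩ G ⁻¹' V := ⟨coe_upper z, by
    rw [mem_preimage, hGz]
    exact hz⟩
  rw [h.speed_eq hz, h'.speed_eq hzV']
  have hd : deriv (fun w => g₀ (G w)) z =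
      ((g.val.det : ℂ) / UpperHalfPlane.denom g z ^ 2) • deriv g₀ (γ • z : ℍ) := by
    have h1 : HasDerivAt g₀ (deriv g₀ (G z)) (G z) := by
      rw [hGz]
      exact (h.analyticAt hz).differentiableAt.hasDerivAt
    have h2 := HasDerivAt.scomp (z : ℂ) h1 (hGs z)
    have h3 := h2.deriv
    rw [hGz] at h3
    exact h3
  have h4 : (γ • z : ℍ).im = z.im * ‖(g.val.det : ℂ) / UpperHalfPlane.denom g z ^ 2‖ := by
    change (g • z : ℍ).im = _
    rw [UpperHalfPlane.im_smul_eq_div_normSq, norm_div, norm_pow, ← Complex.normSq_eq_norm_sq,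
      Complex.norm_real]
    have e1 : (g.det.val : ℝ) = g.val.det := rfl
    rw [e1, Real.norm_eq_abs]
    ring
  rw [hd, wedge_smul_right, h4]
  simp only [hGz]
  ring

variable {P : Fin (n + 1) → MvPolynomial (Fin (m + 1)) ℂ} {e : ℕ}
  {g : ℍ → ℙ ℂ (Fin (m + 1) → ℂ)}

/-- the composition -/
noncomputable def cmp (P : Fin (n + 1) → MvPolynomial (Fin (m + 1)) ℂ)
    (g : ℍ → ℙ ℂ (Fin (m + 1) → ℂ)) (hne : ∀ z, evP P (g z).rep ≠ 0) :
    ℍ → ℙ ℂ (Fin (n + 1) → ℂ) := fun z => Projectivization.mk ℂ (evP P (g z).rep) (hne z)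

theorem HLift.rep {V : Set ℂ} {g₀ : ℂ → Fin (m + 1) → ℂ} (h : HLift g V g₀) {z : ℍ}
    (hz : (z : ℂ) ∈ V) : ∃ c : ℂ, c ≠ 0 ∧ (g z).rep = c • g₀ z := by
  obtain ⟨h1, h2⟩ := h.eq z hz
  exact mk_rep h1 h2

theorem HLift.evP_ne (hP : ∀ j, (P j).IsHomogeneous e) {V : Set ℂ} {g₀ : ℂ → Fin (m + 1) → ℂ}
    (h : HLift g V g₀) (hne : ∀ z, evP P (g z).rep ≠ 0) {z : ℍ} (hz : (z : ℂ) ∈ V) :
    evP P (g₀ z) ≠ 0 := by
  obtain ⟨c, hc, hr⟩ := h.rep hz
  intro h0
  apply hne z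
  rw [hr, evP_smul hP, h0, smul_zero]

theorem HLift.cmp (hP : ∀ j, (P j).IsHomogeneous e) {V : Set ℂ} {g₀ : ℂ → Fin (m + 1) → ℂ}
    (h : HLift g V g₀) (hne : ∀ z, evP P (g z).rep ≠ 0) :
    HLift (cmp P g hne) V fun w => evP P (g₀ w) := by
  refine ⟨h.op, fun z hz => ?_, fun z hz => ?_⟩
  · apply DifferentiableAt.differentiableWithinAt
    rw [differentiableAt_pi]
    intro j
    have h2 : AnalyticAt ℂ (fun y : Fin (m + 1) → ℂ => eval y (P j)) (g₀ z) :=
      AnalyticOnNhd.eval_mvPolynomial (P j) _ (mem_univ _)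
    exact (h2.comp (h.analyticAt hz)).differentiableAt
  · refine ⟨h.evP_ne hP hne hz, ?_⟩
    obtain ⟨c, hc, hr⟩ := h.rep hz
    unfold Pool.Agent.H33.cmp
    rw [Projectivization.mk_eq_mk_iff']
    exact ⟨c ^ e, by rw [hr, evP_smul hP]⟩

theorem cmp_holH {ι ι' : Type} {G : ι' → MvPolynomial (Fin (m + 1)) ℂ}
    {F : ι → MvPolynomial (Fin (n + 1)) ℂ} (hF : ∀ i, IsForm (F i))
    (hP : ∀ j, (P j).IsHomogeneous e)
    (hg : HolH (Cone G) g) (hne : ∀ z, evP P (g z).rep ≠ 0)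
    (hX : ∀ y ∈ Cone G, evP P y ≠ 0 → evP P y ∈ Cone F) : HolH (Cone F) (cmp P g hne) := by
  intro z
  constructor
  · obtain ⟨c, hc, hr⟩ := mk_rep (hne z) rfl
    have h1 : (cmp P g hne z).rep = c • evP P (g z).rep := hr
    rw [h1]
    exact cone_smul hF (hX _ (hg z).1 (hne z)) hc
  · obtain ⟨V, g₀, h, hz⟩ := hg.lift z
    have h' := h.cmp hP hne
    exact ⟨V, _, h'.op, hz, h'.diff, h'.eq⟩

/-- the logarithm of the ratio of the lengths -/
noncomputable def Wf (e : ℕ) (P : Fin (n + 1) → MvPolynomial (Fin (m + 1)) ℂ)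
    (g : ℍ → ℙ ℂ (Fin (m + 1) → ℂ)) (z : ℍ) : ℝ :=
  e * Real.log (sqn (g z).rep) - Real.log (sqn (evP P (g z).rep))

theorem Wf_lift (hP : ∀ j, (P j).IsHomogeneous e) {V : Set ℂ} {g₀ : ℂ → Fin (m + 1) → ℂ}
    (h : HLift g V g₀) (hne : ∀ z, evP P (g z).rep ≠ 0) {z : ℍ} (hz : (z : ℂ) ∈ V) :
    Wf e P g z = e * Real.log (sqn (g₀ z)) - Real.log (sqn (evP P (g₀ z))) := by
  obtain ⟨c, hc, hr⟩ := h.rep hz
  have h1 := sqn_pos (h.evP_ne hP hne hz)
  have h2 := sqn_pos (h.eq z hz).1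
  have h3 : 0 < ‖c‖ := norm_pos_iff.2 hc
  unfold Wf
  rw [hr, evP_smul hP, sqn_smul', sqn_smul', norm_pow, Real.log_mul (by positivity) h2.ne',
    Real.log_mul (by positivity) h1.ne', Real.log_pow, Real.log_pow, Real.log_pow]
  push_cast
  ring

theorem evP_cont : Continuous (evP P) := by
  refine continuous_pi fun j => ?_
  exact (P j).continuous_eval

theorem Wf_cont (hP : ∀ j, (P j).IsHomogeneous e) {X : Set (Fin (m + 1) → ℂ)} (hg : HolH X g)
    (hne : ∀ z, evP P (g z).rep ≠ 0) : Continuous (Wf e P g) := by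
  rw [continuous_iff_continuousAt]
  intro z
  obtain ⟨V, g₀, h, hz⟩ := hg.lift z
  have hcoe : ContinuousAt (fun w : ℍ => (w : ℂ)) z := UpperHalfPlane.continuous_coe.continuousAt
  have h1 : Wf e P g =ᶠ[𝓝 z] fun w : ℍ =>
      e * Real.log (sqn (g₀ w)) - Real.log (sqn (evP P (g₀ w))) := by
    filter_upwards [hcoe.eventually (h.op.mem_nhds hz)] with w hw
    exact Wf_lift hP h hne hw
  refine ContinuousAt.congr ?_ h1.symm
  have hga : ContinuousAt (fun w : ℍ => g₀ w) z :=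
    ContinuousAt.comp (g := g₀) (f := fun w : ℍ => (w : ℂ)) (h.analyticAt hz).continuousAt hcoe
  have hs : ContinuousAt (fun w : ℍ => sqn (g₀ w)) z :=
    ContinuousAt.comp (g := sqn) (f := fun w : ℍ => g₀ w) sqn_cont.continuousAt hga
  have hs' : ContinuousAt (fun w : ℍ => sqn (evP P (g₀ w))) z :=
    ContinuousAt.comp (g := fun y => sqn (evP P y)) (f := fun w : ℍ => g₀ w)
      (sqn_cont.comp evP_cont).continuousAt hga
  exact (continuousAt_const.mul (hs.log (sqn_pos (h.eq z hz).1).ne')).sub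
    (hs'.log (sqn_pos (h.evP_ne hP hne hz)).ne')

theorem Asym.congr {σ τ : ℂ → ℝ} {a : ℂ} {c : ℝ} (h : Asym σ a c) (he : σ =ᶠ[𝓝 a] τ) :
    Asym τ a c := by
  intro ε hε
  obtain ⟨r₀, h0, h1⟩ := h ε hε
  obtain ⟨r₁, h2, h3⟩ := ev_closedBall he
  refine ⟨min r₀ r₁, by positivity, fun r hr hr' => ?_⟩
  obtain ⟨a1, a2⟩ := lt_min_iff.1 hr'
  have h4 := h1 r hr a1
  have h5 : circleAverage τ a r = circleAverage σ a r := by
    apply Real.circleAverage_congr_sphere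
    intro z hz
    rw [abs_of_pos hr] at hz
    exact (h3 r a2 z (sphere_subset_closedBall hz)).symm
  have h6 : σ a = τ a := he.self_of_nhds
  rw [h5, ← h6]
  exact h4

/-- the Laplacian of the logarithm of the ratio -/
theorem Wf_asym (hP : ∀ j, (P j).IsHomogeneous e) {X : Set (Fin (m + 1) → ℂ)} (hg : HolH X g)
    (hne : ∀ z, evP P (g z).rep ≠ 0) (z : ℍ) {ζ : ℂ} (hζ : ζ ∈ ball (0 : ℂ) 1) :
    Asym (fun s => Wf e P g (cayH z s)) ζ
      (4 * (e * speedSq g (cayH z ζ) - speedSq (cmp P g hne) (cayH z ζ)) / (1 - ‖ζ‖ ^ 2) ^ 2) := by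
  obtain ⟨V, g₀, h, hz⟩ := hg.lift (cayH z ζ)
  have hc := coe_cayH z hζ
  rw [hc] at hz
  have h' := h.cmp hP hne
  obtain ⟨a1, a2, a3⟩ := h.disc z hζ hz
  obtain ⟨b1, b2, b3⟩ := h'.disc z hζ hz
  have h1 := (asym_log a1 a2).const_mul (e : ℝ)
  have h2 := (asym_log b1 b2).const_mul (-1 : ℝ)
  rw [a3] at h1
  rw [b3] at h2
  have hcs1 : ∀ᶠ s in 𝓝 ζ, ContinuousAt (fun s => (e : ℝ) * Real.log (sqn (g₀ (cay z s)))) s := by
    filter_upwards [a1.eventually_analyticAt, a1.continuousAt.eventually_ne a2] with s k1 k2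
    have k3 : ContinuousAt (fun s => sqn (g₀ (cay z s))) s :=
      ContinuousAt.comp (g := sqn) (f := fun s => g₀ (cay z s)) sqn_cont.continuousAt k1.continuousAt
    exact continuousAt_const.mul (k3.log (sqn_pos k2).ne')
  have hcs2 : ∀ᶠ s in 𝓝 ζ, ContinuousAt
      (fun s => (-1 : ℝ) * Real.log (sqn (evP P (g₀ (cay z s))))) s := by
    filter_upwards [b1.eventually_analyticAt, b1.continuousAt.eventually_ne b2] with s k1 k2
    have k3 : ContinuousAt (fun s => sqn (evP P (g₀ (cay z s)))) s :=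
      ContinuousAt.comp (g := sqn) (f := fun s => evP P (g₀ (cay z s))) sqn_cont.continuousAt
        k1.continuousAt
    exact continuousAt_const.mul (k3.log (sqn_pos k2).ne')
  have h3 := h1.add h2 hcs1 hcs2
  have hV : ∀ᶠ s in 𝓝 ζ, cay z s ∈ V ∧ s ∈ ball (0 : ℂ) 1 := by
    have k1 : ContinuousAt (cay z) ζ := (hasDerivAt_cay z hζ).continuousAt
    exact (k1.eventually (h.op.mem_nhds hz)).and (isOpen_ball.mem_nhds hζ)
  have h4 : Asym (fun s => Wf e P g (cayH z s)) ζ _ := h3.congr (by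
    filter_upwards [hV] with s hs
    have k1 := coe_cayH z hs.2
    rw [Wf_lift hP h hne (by rw [k1]; exact hs.1), k1]
    ring)
  convert h4 using 1
  ring

end Pool.Agent.H33
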