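import Pool.Agent.H33.PB

/-! Degrees of compositions with morphisms. -/

set_option autoImplicit false

open Filter Topology Metric Set MvPolynomial MeasureTheory LinearAlgebra.Projectivization
open scoped UpperHalfPlane MatrixGroups ENNReal

namespace Pool.Agent.H33

open Pool.Agent.Y190.OP Pool.Agent.W602.GT Pool.Agent.N155 Pool.Agent.N155.BB
open Real (circleAverage)

variable {m n : ℕ} {P : Fin (n + 1) → MvPolynomial (Fin (m + 1)) ℂ} {e : ℕ}
  {g : ℍ → ℙ ℂ (Fin (m + 1) → ℂ)}

/-- mean values of functions with large Laplacian -/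
theorem mean_of_asym {u : ℂ → ℝ} {c : ℂ → ℝ} {m₀ t : ℝ} (ht : 0 < t)
    (hu : ContinuousOn u (closedBall 0 t)) (h : ∀ ζ ∈ ball (0 : ℂ) t, Asym u ζ (c ζ))
    (hcu : ∀ ζ ∈ ball (0 : ℂ) t, ∀ᶠ s in 𝓝 ζ, ContinuousAt u s)
    (hc : ∀ ζ ∈ ball (0 : ℂ) t, m₀ < c ζ) : u 0 + m₀ * t ^ 2 ≤ circleAverage u 0 t := by
  have hq : Continuous fun z : ℂ => (-m₀) * ‖z‖ ^ 2 := by fun_prop
  have h1 : ContinuousOn (fun z => u z + (-m₀) * ‖z‖ ^ 2) (closedBall 0 t) :=
    hu.add hq.continuousOn
  have h2 := mean_of_local ht h1 fun ζ hζ => by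
    have k1 : Asym (fun z : ℂ => ‖z‖ ^ 2) ζ 1 := by
      have := asym_sq (f := fun z : ℂ => z) (a := ζ) analyticAt_id
      simpa using this
    have k2 := (h ζ hζ).add (k1.const_mul (-m₀)) (hcu ζ hζ)
      (Eventually.of_forall fun z => hq.continuousAt)
    refine k2.subAt ?_
    have := hc ζ hζ
    linarith
  have hss : sphere (0 : ℂ) |t| ⊆ closedBall 0 t := by
    rw [abs_of_pos ht]
    exact sphere_subset_closedBall
  have hi1 : CircleIntegrable u 0 t := (hu.mono hss).circleIntegrable'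
  have hi2 : CircleIntegrable (fun z : ℂ => ‖z‖ ^ 2) 0 t := by
    apply ContinuousOn.circleIntegrable'
    fun_prop
  have h3 : circleAverage (fun z => u z + (-m₀) * ‖z‖ ^ 2) 0 t = circleAverage u 0 t - m₀ * t ^ 2 := by
    have k1 : CircleIntegrable (fun z : ℂ => (-m₀) • ‖z‖ ^ 2) 0 t := hi2.const_fun_smul
    have k2 := Real.circleAverage_fun_add hi1 k1
    rw [Real.circleAverage_fun_smul] at k2
    have k3 : circleAverage (fun z : ℂ => ‖z‖ ^ 2) 0 t = t ^ 2 := by
      have := circleAverage_sq (z₀ := 0) (w := 0) ht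
      simpa using this
    rw [k3] at k2
    simp only [smul_eq_mul] at k2
    rw [k2]
    ring
  rw [h3] at h2
  rw [norm_zero] at h2
  have : u 0 + -m₀ * 0 ^ 2 = u 0 := by ring
  rw [this] at h2
  linarith

variable {Γ : Subgroup SL(2, ℝ)} {D : Set ℍ}

theorem evP_inv {P : Fin (n + 1) → MvPolynomial (Fin (m + 1)) ℂ}
    (hinv : ∀ γ ∈ Γ, ∀ z : ℍ, g (γ • z) = g z) (hne : ∀ z, evP P (g z).rep ≠ 0) :
    ∀ γ ∈ Γ, ∀ z : ℍ, cmp P g hne (γ • z) = cmp P g hne z := by
  intro γ hγ z
  unfold cmp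
  congr 1
  rw [hinv γ hγ z]

/-- **The degree of the composition with a morphism.** -/
theorem degree_cmp (hD : CompactDomain Γ D) (hP : ∀ j, (P j).IsHomogeneous e)
    {X : Set (Fin (m + 1) → ℂ)} (hg : HolH X g) (hne : ∀ z, evP P (g z).rep ≠ 0)
    (hinv : ∀ γ ∈ Γ, ∀ z : ℍ, g (γ • z) = g z) {Y : Set (Fin (n + 1) → ℂ)}
    (hf : HolH Y (cmp P g hne)) :
    ENNReal.ofReal e * ∫⁻ z in D, ENNReal.ofReal (speedSq g z) ≤
      ∫⁻ z in D, ENNReal.ofReal (speedSq (cmp P g hne) z) := by
  obtain ⟨r, hr, hΓ⟩ := hD.cocompact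
  set f := cmp P g hne with hf'
  have hfi := evP_inv hinv hne
  have hs1c : Continuous (speedSq g) := speedSq_cont hg
  have hs2c : Continuous (speedSq f) := speedSq_cont hf
  have hs1i : ∀ γ ∈ Γ, ∀ z : ℍ, speedSq g (γ • z) = speedSq g z := fun γ hγ z =>
    speedSq_smul hg (hinv γ hγ) z
  have hs2i : ∀ γ ∈ Γ, ∀ z : ℍ, speedSq f (γ • z) = speedSq f z := fun γ hγ z =>
    speedSq_smul hf (hfi γ hγ) z
  have hs10 : ∀ z, 0 ≤ speedSq g z := fun z => by
    obtain ⟨V, g₀, h, hz⟩ := hg.lift z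
    rw [h.speed_eq hz]
    positivity
  have hs20 : ∀ z, 0 ≤ speedSq f z := fun z => by
    obtain ⟨V, g₀, h, hz⟩ := hf.lift z
    rw [h.speed_eq hz]
    positivity
  have he0 : (0 : ℝ) ≤ e := Nat.cast_nonneg e
  obtain ⟨B1, hB1⟩ := bdd_of_cocompact hΓ hs1c hs1i
  obtain ⟨B2, hB2⟩ := bdd_of_cocompact hΓ hs2c hs2i
  set q : ℍ → ℝ := fun z => 4 * (e * speedSq g z - speedSq f z) with hq
  have hqc : Continuous q := by
    rw [hq]
    fun_prop
  have hqi : ∀ γ ∈ Γ, ∀ z : ℍ, q (γ • z) = q z := fun γ hγ z => by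
    rw [hq]
    simp only
    rw [hs1i γ hγ, hs2i γ hγ]
  -- the bound
  set B : ℝ := 4 * (e * |B1| + |B2|) with hB
  have hB0 : 0 ≤ B := by positivity
  have hB20 : ∀ z, 4 * speedSq f z ≤ B := fun z => by
    have h1 := (hB2 z).trans (le_abs_self B2)
    have h2 : 0 ≤ (e : ℝ) * |B1| := by positivity
    rw [hB]
    linarith
  have hqB : ∀ z, |q z| ≤ B := fun z => by
    have h1 := (hB2 z).trans (le_abs_self B2)
    have h2 := (hB1 z).trans (le_abs_self B1)
    have h3 := mul_le_mul_of_nonneg_left h2 he0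
    have h4 := mul_nonneg he0 (hs10 z)
    have h5 := hs20 z
    have h6 : 0 ≤ (e : ℝ) * |B1| := by positivity
    have h7 := abs_nonneg B2
    rw [hq, abs_le]
    simp only
    constructor <;> linarith
  have hWc := Wf_cont hP hg hne
  have hWi : ∀ γ ∈ Γ, ∀ z : ℍ, Wf e P g (γ • z) = Wf e P g z := fun γ hγ z => by
    unfold Wf
    rw [hinv γ hγ z]
  obtain ⟨C1, hC1⟩ := bdd_of_cocompact hΓ hWc hWi
  obtain ⟨C2, hC2'⟩ := bdd_of_cocompact hΓ hWc.neg (fun γ hγ z => by
    change -(Wf e P g (γ • z)) = -(Wf e P g z)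
    rw [hWi γ hγ z])
  have hC2 : ∀ z, -(Wf e P g z) ≤ C2 := hC2'
  have key : ∀ η : ℝ, 0 < η → η ≤ 1 → ∫⁻ z in D, ENNReal.ofReal (q z + B) ≤
      ENNReal.ofReal (B + 3 * η) * volume D := by
    intro η hη hη1
    obtain ⟨ρ₁, hρ₁, h1⟩ := unif_of_cocompact hΓ hqc hqi hη
    set ρ : ℝ := min ρ₁ (min 1 (η / (16 * (B + 1)))) with hρ
    have hρ0 : 0 < ρ := by positivity
    have hρ1 : ρ ≤ ρ₁ := min_le_left _ _
    have hρ2 : ρ ≤ 1 := (min_le_right _ _).trans (min_le_left _ _)
    have hρ3 : ρ ≤ η / (16 * (B + 1)) := (min_le_right _ _).trans (min_le_right _ _)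
    refine avg_ineq hD hρ0 (W := fun z => Wf e P g z + C2) (B := C1 + C2)
      (hWc.add continuous_const) (fun z => ?_) (fun z => ?_) (fun γ hγ z => ?_)
      (c := fun z => q z + B) (hqc.add continuous_const).measurable (fun z => ?_) (by positivity)
      fun z t ht => ?_
    · have := hC2 z
      linarith
    · have := hC1 z
      linarith
    · change Wf e P g (γ • z) + C2 = Wf e P g z + C2
      rw [hWi γ hγ z]
    · have := (abs_le.1 (hqB z)).1
      linarith
    · have ht0 := ht.1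
      have ht1 : t < 1 := ht.2.trans (Real.tanh_lt_one _)
      have htρ : t ≤ ρ := by
        have := tanh_le (show 0 ≤ ρ / 2 by positivity)
        linarith [ht.2]
      have hsub : closedBall (0 : ℂ) t ⊆ ball 0 1 := closedBall_subset_ball ht1
      have hsph : sphere (0 : ℂ) |t| ⊆ ball 0 1 := by
        rw [abs_of_pos ht0]
        exact sphere_subset_closedBall.trans hsub
      have hcu : ContinuousOn (fun ζ => Wf e P g (cayH z ζ)) (ball 0 1) :=
        hWc.comp_continuousOn (continuousOn_cayH z)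
      have h2 := mean_of_asym (m₀ := q z - 3 * η) ht0 (hcu.mono hsub)
        (fun ζ hζ => Wf_asym hP hg hne z (hsub (ball_subset_closedBall hζ)))
        (fun ζ hζ => by
          filter_upwards [isOpen_ball.mem_nhds (hsub (ball_subset_closedBall hζ))] with s hs
          exact hcu.continuousAt (isOpen_ball.mem_nhds hs))
        (fun ζ hζ => by
          have hζ1 := hsub (ball_subset_closedBall hζ)
          have hζt : ‖ζ‖ < t := mem_ball_zero_iff.1 hζ
          have k1 : dist z (cayH z ζ) < ρ₁ := by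
            have := cay_dist z (ρ := ρ) (ζ := ζ) (hζt.trans ht.2)
            exact this.trans_le hρ1
          have k2 := abs_lt.1 (h1 z _ k1)
          have k3 := abs_le.1 (hqB (cayH z ζ))
          have k4 : 4 * (e * speedSq g (cayH z ζ) - speedSq f (cayH z ζ)) = q (cayH z ζ) := rfl
          rw [k4]
          have k5 : ‖ζ‖ ^ 2 ≤ η / (16 * (B + 1)) := by
            have a1 := norm_nonneg ζ
            have a2 : ‖ζ‖ ^ 2 ≤ ‖ζ‖ := by nlinarith
            linarith
          have k6 : ‖ζ‖ ^ 2 * (16 * (B + 1)) ≤ η := by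
            rwa [le_div_iff₀ (by positivity)] at k5
          set x : ℝ := ‖ζ‖ ^ 2 with hx
          have x0 : 0 ≤ x := sq_nonneg _
          have x1 : x ≤ 1 / 16 := by nlinarith
          have k7 : 0 < (1 - x) ^ 2 := by
            have : 0 < 1 - x := by linarith
            positivity
          rw [lt_div_iff₀ k7]
          set Q := q (cayH z ζ) with hQ
          have k8 : q z - η < Q := by linarith
          -- (q z - 3 η) (1 - x)² < Q
          have k9 : (q z - 3 * η) * (1 - x) ^ 2 ≤ (q z - 3 * η) + 3 * (B + 3) * x := by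
            have b1 := (abs_le.1 (hqB z))
            have b2 : (1 - x) ^ 2 = 1 - x * (2 - x) := by ring
            have b3 : 0 ≤ x * (2 - x) := mul_nonneg x0 (by linarith)
            have b4 : x * (2 - x) ≤ 2 * x := by nlinarith
            have b5 : -(q z - 3 * η) ≤ B + 3 := by linarith
            have b6 : -(q z - 3 * η) * (x * (2 - x)) ≤ (B + 3) * (x * (2 - x)) :=
              mul_le_mul_of_nonneg_right b5 b3
            have b7 : (B + 3) * (x * (2 - x)) ≤ (B + 3) * (2 * x) :=
              mul_le_mul_of_nonneg_left b4 (by positivity)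
            have b8 : 0 ≤ (B + 3) * x := by positivity
            rw [b2]
            nlinarith
          have k10 : 3 * (B + 3) * x < 2 * η := by
            have b1 : 3 * (B + 3) * x ≤ x * (16 * (B + 1)) := by nlinarith [mul_nonneg hB0 x0]
            linarith
          linarith)
      have e1 : circleAverage (fun ζ => Wf e P g (cayH z ζ) + C2) 0 t =
          circleAverage (fun ζ => Wf e P g (cayH z ζ)) 0 t + C2 := by
        have k1 := Real.circleAverage_fun_add (hcu.mono hsph).circleIntegrable'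
          (circleIntegrable_const C2 0 t)
        rw [k1, Real.circleAverage_const]
      rw [e1]
      simp only [cayH_zero] at h2
      nlinarith
  -- the limit
  have hv := hD.volume_lt_top.ne
  have lim : ∫⁻ z in D, ENNReal.ofReal (q z + B) ≤ ENNReal.ofReal B * volume D := by
    have h1 : Tendsto (fun k : ℕ => ENNReal.ofReal (B + 3 * (1 / ((k : ℝ) + 1))) * volume D) atTop
        (𝓝 (ENNReal.ofReal (B + 3 * 0) * volume D)) := by
      refine ENNReal.Tendsto.mul_const ?_ (Or.inr hv)
      refine (ENNReal.continuous_ofReal.tendsto _).comp ?_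
      exact (tendsto_one_div_add_atTop_nhds_zero_nat.const_mul 3).const_add B
    rw [mul_zero, add_zero] at h1
    refine ge_of_tendsto' h1 fun k => key _ (by positivity) ?_
    rw [div_le_one (by positivity)]
    have : (0 : ℝ) ≤ k := Nat.cast_nonneg k
    linarith
  have hm1 : Measurable fun z => ENNReal.ofReal (4 * (e * speedSq g z)) :=
    (by fun_prop : Continuous fun z => 4 * (e * speedSq g z)).measurable.ennreal_ofReal
  have hm2 : Measurable fun z => ENNReal.ofReal (B - 4 * speedSq f z) :=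
    (by fun_prop : Continuous fun z => B - 4 * speedSq f z).measurable.ennreal_ofReal
  have hsplit : ∫⁻ z in D, ENNReal.ofReal (q z + B) =
      (∫⁻ z in D, ENNReal.ofReal (4 * (e * speedSq g z))) +
        ∫⁻ z in D, ENNReal.ofReal (B - 4 * speedSq f z) := by
    rw [← lintegral_add_left hm1]
    refine lintegral_congr fun z => ?_
    rw [← ENNReal.ofReal_add (by have := hs10 z; positivity) (by have := hB20 z; linarith)]
    congr 1
    rw [hq]
    ring
  have hBsplit : ENNReal.ofReal B * volume D =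
      (∫⁻ z in D, ENNReal.ofReal (4 * speedSq f z)) +
        ∫⁻ z in D, ENNReal.ofReal (B - 4 * speedSq f z) := by
    rw [← lintegral_add_right _ hm2, ← setLIntegral_const]
    refine lintegral_congr fun z => ?_
    rw [← ENNReal.ofReal_add (by have := hs20 z; positivity) (by have := hB20 z; linarith)]
    congr 1
    ring
  rw [hsplit, hBsplit] at lim
  have hfin : ∫⁻ z in D, ENNReal.ofReal (B - 4 * speedSq f z) ≠ ⊤ := by
    have h1 : ∫⁻ z in D, ENNReal.ofReal (B - 4 * speedSq f z) ≤ ∫⁻ _ in D, ENNReal.ofReal B :=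
      lintegral_mono fun z => ENNReal.ofReal_le_ofReal (by have := hs20 z; linarith)
    rw [setLIntegral_const] at h1
    exact ne_top_of_le_ne_top (ENNReal.mul_ne_top ENNReal.ofReal_ne_top hv) h1
  have lim2 := (ENNReal.add_le_add_iff_right hfin).1 lim
  have e3 : ∫⁻ z in D, ENNReal.ofReal (4 * (e * speedSq g z)) =
      ENNReal.ofReal 4 * (ENNReal.ofReal e * ∫⁻ z in D, ENNReal.ofReal (speedSq g z)) := by
    rw [← lintegral_const_mul' _ _ ENNReal.ofReal_ne_top,
      ← lintegral_const_mul' _ _ ENNReal.ofReal_ne_top]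
    refine lintegral_congr fun z => ?_
    rw [ENNReal.ofReal_mul (by norm_num), ENNReal.ofReal_mul he0]
  have e4 : ∫⁻ z in D, ENNReal.ofReal (4 * speedSq f z) =
      ENNReal.ofReal 4 * ∫⁻ z in D, ENNReal.ofReal (speedSq f z) := by
    rw [← lintegral_const_mul' _ _ ENNReal.ofReal_ne_top]
    refine lintegral_congr fun z => ?_
    rw [ENNReal.ofReal_mul (by norm_num)]
  rw [e3, e4] at lim2
  have h4 : ENNReal.ofReal 4 ≠ 0 := by
    rw [ne_eq, ENNReal.ofReal_eq_zero]
    norm_num
  exact (ENNReal.mul_le_mul_iff_right h4 ENNReal.ofReal_ne_top).1 lim2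

end Pool.Agent.H33
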