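import Pool.Agent.H33.PC
import Pool.Agent.H33.ODefs

/-! The linear bound of the degree of curves in finite covers. -/

set_option autoImplicit false

open Filter Topology Metric Set MvPolynomial MeasureTheory LinearAlgebra.Projectivization
open scoped UpperHalfPlane MatrixGroups ENNReal

namespace Pool.Agent.H33

open Pool.Agent.Y190.OP Pool.Agent.W602.GT Pool.Agent.N155 Pool.Agent.N155.BB

variable {n : ℕ} {ι : Type} {F : ι → MvPolynomial (Fin (n + 1)) ℂ} {d : ℕ}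
  {κ : Type} {η : κ → (Fin (n + 1) → ℂ) → (Fin (n + 1) → ℂ) → (Fin (n + 1) → ℂ) → ℂ}
  {Φ : (Fin (n + 1) → ℂ) → (Fin (n + 1) → ℂ) → ℝ} {ν : ℕ}

/-- **The linear bound of the degree for covers.** -/
theorem covers_bound [Finite κ] (hX : ProjManifold F d) (hη : PositiveTwoForms (Cone F) ∅ d η)
    (hν : ν ≠ 0) (hh : HomForms (Cone F) ν η) (hΦ : NonposMetric (Cone F) d Φ)
    (hnd : Nondegenerate (Cone F) d Φ)
    (hr : HermitianMetric (Cone F) d Φ ∨ UniformlyConvex (Cone F) d Φ) :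
    ∃ S : Finset (ℂ → ℙ ℂ (Fin (n + 1) → ℂ)),
      (∀ h ∈ S, HolIn F h ∧ DoublyPeriodic h ∧ HasSpeed Φ 1 h ∧ ∃ z w, h z ≠ h w) ∧
      (∃ α : ℝ, ∀ (m : ℕ) (ι' : Type) (G : ι' → MvPolynomial (Fin (m + 1)) ℂ)
        (P : Fin (n + 1) → MvPolynomial (Fin (m + 1)) ℂ) (e : ℕ), 1 ≤ e →
        (∀ j, (P j).IsHomogeneous e) → (∀ y ∈ Cone G, ratVal P y ∈ Cone F) →
        (∀ g, HolIn G g → (∃ x₀, ∀ z, ∃ c : ℂ, ratVal P (g z).rep = c • x₀) ∨
          ∀ z, ∃ h ∈ S, ∃ (w : ℂ) (c : ℂ), ratVal P (g z).rep = c • (h w).rep) ∧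
        ∀ (Γ : Subgroup SL(2, ℝ)) (D : Set ℍ), CompactDomain Γ D →
          ∀ g : ℍ → ℙ ℂ (Fin (m + 1) → ℂ), HolH (Cone G) g →
          (∀ γ ∈ Γ, ∀ z, g (γ • z) = g z) →
          (∃ z, ∀ h ∈ S, ∀ (w : ℂ) (c : ℂ), ratVal P (g z).rep ≠ c • (h w).rep) →
          e * degree g D ≤ ENNReal.ofReal α * volume D) ∧
      (2 ≤ d → ∀ x ∈ Cone F, ∃ E : MvPolynomial (Fin (n + 1)) ℂ, IsForm E ∧
        (¬ ∀ᶠ y in 𝓝[Cone F] x, eval y E = 0) ∧ ∀ h ∈ S, ∀ z, eval (h z).rep E = 0) := by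
  obtain ⟨S, h1, h2, ⟨α, hα⟩, h4⟩ := alg_hyp hX hη hν hh hΦ hnd hr
  refine ⟨S, h1, ⟨α, fun m ι' G P e he hP hPX => ⟨fun g hg => ?_, fun Γ D hD g hg hinv hne => ?_⟩⟩,
    h4⟩
  · have hne : ∀ z, evP P (g z).rep ≠ 0 := fun z => (hPX _ (hg.2 z)).1
    obtain ⟨f, hf, hfg⟩ := comp_ext hP hg.1 (hne 0) (fun z _ => hPX _ (hg.2 z)) hX.form
    by_cases hc : ∃ z w, f z ≠ f w
    · right
      intro z
      obtain ⟨h, hh, w, hw⟩ := h2 f hf hc z
      obtain ⟨c, hc'⟩ := hfg z (hne z)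
      exact ⟨h, hh, w, c, by rw [← hw]; exact hc'⟩
    · left
      push Not at hc
      refine ⟨(f 0).rep, fun z => ?_⟩
      obtain ⟨c, hc'⟩ := hfg z (hne z)
      rw [hc z 0] at hc'
      exact ⟨c, hc'⟩
  · have hne' : ∀ z, evP P (g z).rep ≠ 0 := fun z => (hPX _ (hg z).1).1
    have hf : HolH (Cone F) (cmp P g hne') := cmp_holH hX.form hP hg hne' fun y hy _ => hPX y hy
    have k1 := degree_cmp hD hP hg hne' hinv hf
    obtain ⟨z₁, hz₁⟩ := hne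
    have k2 := hα Γ D hD (cmp P g hne') hf (evP_inv hinv hne') ⟨z₁, fun h hh w hw => by
      obtain ⟨c, hc, hr⟩ := mk_rep (hne' z₁) rfl
      have h5 : (cmp P g hne' z₁).rep = c • evP P (g z₁).rep := hr
      rw [hw] at h5
      refine hz₁ h hh w c⁻¹ ?_
      rw [h5, smul_smul, inv_mul_cancel₀ hc, one_smul]
      rfl⟩
    refine le_trans ?_ k2
    unfold degree
    rw [← mul_div_assoc]
    refine ENNReal.div_le_div_right ?_ _
    refine le_trans (le_of_eq ?_) k1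
    rw [ENNReal.ofReal_natCast]

end Pool.Agent.H33
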