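import Pool.Agent.H33.Sub

/-! The Poisson majorant of a subharmonic function on a disc. -/

set_option autoImplicit false

open Filter Topology Metric Set

namespace Pool.Agent.H33

open Real (circleAverage)

/-- local subharmonicity at a point -/
def SubAt (v : ℂ → ℝ) (a : ℂ) : Prop :=
  ∃ r₀ : ℝ, 0 < r₀ ∧ ∀ r, 0 < r → r < r₀ → v a ≤ circleAverage v a r

theorem poisson_pos {R : ℝ} {w z : ℂ} (hw : w ∈ ball (0 : ℂ) R) (hz : z ∈ sphere (0 : ℂ) R) :
    0 < poissonKernel 0 w z := by
  rw [poissonKernel_def, sub_zero, sub_zero]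
  rw [mem_ball_zero_iff] at hw
  rw [mem_sphere_zero_iff_norm] at hz
  have h1 : z - w ≠ 0 := by
    intro h
    have : z = w := sub_eq_zero.1 h
    rw [this] at hz
    linarith
  have h2 := norm_nonneg w
  have h3 : ‖w‖ ^ 2 < ‖z‖ ^ 2 := by
    rw [hz]
    exact pow_lt_pow_left₀ hw h2 two_ne_zero
  have h4 : 0 < ‖z - w‖ ^ 2 := by positivity
  exact div_pos (by linarith) h4

theorem poisson_cont {R : ℝ} {w : ℂ} (hR : 0 < R) (hw : w ∈ ball (0 : ℂ) R) :
    ContinuousOn (poissonKernel 0 w) (sphere 0 |R|) := by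
  rw [abs_of_pos hR]
  rw [mem_ball_zero_iff] at hw
  intro z hz
  rw [mem_sphere_zero_iff_norm] at hz
  have h1 : ‖z - 0 - (w - 0)‖ ^ 2 ≠ 0 := by
    rw [sub_zero, sub_zero]
    intro h
    have h2 : ‖z - w‖ = 0 := by
      rcases pow_eq_zero_iff two_ne_zero |>.1 h with h3
      exact h3
    have : z = w := sub_eq_zero.1 (norm_eq_zero.1 h2)
    rw [this] at hz
    linarith
  have h3 : ContinuousAt (fun z : ℂ => ‖z - 0‖ ^ 2 - ‖w - 0‖ ^ 2) z := by fun_prop
  have h4 : ContinuousAt (fun z : ℂ => ‖z - 0 - (w - 0)‖ ^ 2) z := by fun_prop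
  have h5 := ContinuousAt.div h3 h4 h1
  exact h5.continuousWithinAt

theorem poisson_one {R : ℝ} {w : ℂ} (hw : w ∈ ball (0 : ℂ) R) :
    circleAverage (poissonKernel 0 w) 0 R = 1 := by
  have h1 := InnerProductSpace.HarmonicOnNhd.circleAverage_poissonKernel_smul (c := 0) (R := R)
    (f := fun _ : ℂ => (1 : ℝ)) (fun z _ => by
      have : (fun _ : ℂ => (1 : ℝ)) = fun z : ℂ => ((1 : ℂ)).re := by
        funext z
        simp
      rw [this]
      exact AnalyticAt.harmonicAt_re analyticAt_const) hw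
  have h2 : poissonKernel 0 w • (fun _ : ℂ => (1 : ℝ)) = poissonKernel 0 w := by
    funext z
    simp
  rwa [h2] at h1

/-- the Poisson integral -/
noncomputable def poi (v : ℂ → ℝ) (R : ℝ) (w : ℂ) : ℝ :=
  circleAverage (fun z => poissonKernel 0 w z * v z) 0 R

theorem poi_harmonic {v : ℂ → ℝ} {R : ℝ} (hv : CircleIntegrable v 0 R) :
    InnerProductSpace.HarmonicOnNhd (poi v R) (ball 0 R) := by
  have hv' : CircleIntegrable (fun ζ ↦ (v ζ : ℂ)) 0 R := by
    simp only [CircleIntegrable, intervalIntegrable_iff] at hv ⊢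
    exact Complex.ofRealCLM.integrable_comp hv
  have h1 := analyticOnNhd_circleAverage_herglotzRieszKernel_smul hv'
  intro w hw
  have h2 : poi v R =ᶠ[𝓝 w] fun w =>
      (circleAverage (fun ζ => herglotzRieszKernel 0 w ζ • (v ζ : ℂ)) 0 R).re := by
    filter_upwards [isOpen_ball.mem_nhds hw] with w' hw'
    rw [re_circleAverage_herglotzRieszKernel_smul hv hw']
    unfold poi
    congr 1
    funext z
    have h3 := congrFun (poissonKernel_eq_re_herglotzRieszKernel (c := 0) (w := w')) z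
    rw [h3]
    rfl
  rw [InnerProductSpace.harmonicAt_congr_nhds h2]
  exact (h1 w hw).harmonicAt_re

/-- the boundary values of the Poisson integral -/
theorem poi_boundary {v : ℂ → ℝ} {R : ℝ} (hR : 0 < R) (hv : ContinuousOn v (closedBall 0 R))
    {η : ℝ} (hη : 0 < η) : ∃ ρ : ℝ, ρ < R ∧ ∀ w : ℂ, ρ ≤ ‖w‖ → ‖w‖ < R → v w - poi v R w ≤ η := by
  have hcomp := isCompact_closedBall (0 : ℂ) R
  obtain ⟨M, hM⟩ := hcomp.exists_bound_of_continuousOn hv
  have hM0 : 0 ≤ M := (norm_nonneg _).trans (hM 0 (mem_closedBall_self hR.le))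
  have huc := hcomp.uniformContinuousOn_of_continuous hv
  obtain ⟨δ, hδ, hδv⟩ := Metric.uniformContinuousOn_iff.1 huc (η / 2) (by positivity)
  -- the radius
  set c : ℝ := 2 * M / δ ^ 2 with hc
  have hc0 : 0 ≤ c := by positivity
  have hlim : Tendsto (fun ρ : ℝ => c * (R ^ 2 - ρ ^ 2)) (𝓝[<] R) (𝓝 (c * (R ^ 2 - R ^ 2))) := by
    apply Tendsto.mono_left _ nhdsWithin_le_nhds
    exact (continuous_const.mul (continuous_const.sub (continuous_id.pow 2))).tendsto R
  rw [sub_self, mul_zero] at hlim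
  have hpos : ∀ᶠ ρ : ℝ in 𝓝[<] R, 0 < ρ :=
    (Ioo_mem_nhdsLT hR : Ioo 0 R ∈ 𝓝[<] R) |> fun h => by
      filter_upwards [h] with ρ hρ
      exact hρ.1
  obtain ⟨ρ, ⟨hρ1, hρ0⟩, hρR⟩ := ((((hlim.eventually_lt_const (u := η / 2) (by positivity)).and
    hpos).and self_mem_nhdsWithin).exists)
  refine ⟨ρ, hρR, fun w hw1 hw2 => ?_⟩
  have hwb : w ∈ ball (0 : ℂ) R := mem_ball_zero_iff.2 hw2
  have hpc := poisson_cont hR hwb
  have hvs : ContinuousOn v (sphere 0 |R|) := by
    rw [abs_of_pos hR]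
    exact hv.mono sphere_subset_closedBall
  have hi1 : CircleIntegrable (poissonKernel 0 w) 0 R := hpc.circleIntegrable'
  have hi2 : CircleIntegrable (fun z => poissonKernel 0 w z * v z) 0 R :=
    (hpc.mul hvs).circleIntegrable'
  have h1 : v w - poi v R w = circleAverage (fun z => v w • poissonKernel 0 w z -
      poissonKernel 0 w z * v z) 0 R := by
    have hi3 : CircleIntegrable (fun z => v w • poissonKernel 0 w z) 0 R := hi1.const_fun_smul
    rw [Real.circleAverage_fun_sub hi3 hi2, Real.circleAverage_fun_smul, poisson_one hwb]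
    simp [poi]
  have h2 : circleAverage (fun z => (η / 2) • poissonKernel 0 w z + c * (R ^ 2 - ρ ^ 2)) 0 R =
      η / 2 + c * (R ^ 2 - ρ ^ 2) := by
    have hi3 : CircleIntegrable (fun z => (η / 2) • poissonKernel 0 w z) 0 R := hi1.const_fun_smul
    rw [Real.circleAverage_fun_add hi3 (circleIntegrable_const _ _ _), Real.circleAverage_fun_smul,
      poisson_one hwb, Real.circleAverage_const]
    simp
  rw [h1]
  refine le_trans (b := η / 2 + c * (R ^ 2 - ρ ^ 2)) ?_ (by linarith)
  rw [← h2]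
  apply Real.circleAverage_mono
  · have hi3 : CircleIntegrable (fun z => v w • poissonKernel 0 w z) 0 R := hi1.const_fun_smul
    exact hi3.sub hi2
  · have hi3 : CircleIntegrable (fun z => (η / 2) • poissonKernel 0 w z) 0 R := hi1.const_fun_smul
    exact hi3.add (circleIntegrable_const _ _ _)
  · intro z hz
    rw [abs_of_pos hR] at hz
    have hp := poisson_pos hwb hz
    have hzc : z ∈ closedBall (0 : ℂ) R := sphere_subset_closedBall hz
    have hwc : w ∈ closedBall (0 : ℂ) R := ball_subset_closedBall hwb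
    simp only [smul_eq_mul]
    by_cases hd : dist w z < δ
    · have h3 := hδv w hwc z hzc hd
      rw [Real.dist_eq] at h3
      have h4 := (abs_lt.1 h3).2
      have h5 : 0 ≤ c * (R ^ 2 - ρ ^ 2) := by
        apply mul_nonneg hc0
        have := pow_le_pow_left₀ hρ0.le (le_of_lt hρR) 2
        linarith
      nlinarith
    · push Not at hd
      have h3 : v w - v z ≤ 2 * M := by
        have e1 := hM w hwc
        have e2 := hM z hzc
        rw [Real.norm_eq_abs] at e1 e2
        have e3 := (abs_le.1 e1).2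
        have e4 := (abs_le.1 e2).1
        linarith
      have h4 : poissonKernel 0 w z ≤ (R ^ 2 - ρ ^ 2) / δ ^ 2 := by
        rw [poissonKernel_def, sub_zero, sub_zero, mem_sphere_zero_iff_norm.1 hz]
        have e1 : δ ≤ ‖z - w‖ := by rwa [dist_comm, dist_eq_norm] at hd
        have e2 : 0 ≤ R ^ 2 - ‖w‖ ^ 2 := by
          have := pow_le_pow_left₀ (norm_nonneg w) hw2.le 2
          linarith
        have e3 : R ^ 2 - ‖w‖ ^ 2 ≤ R ^ 2 - ρ ^ 2 := by
          have := pow_le_pow_left₀ hρ0.le hw1 2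
          linarith
        have e4 : δ ^ 2 ≤ ‖z - w‖ ^ 2 := pow_le_pow_left₀ hδ.le e1 2
        exact div_le_div₀ (e2.trans e3) e3 (by positivity) e4
      have h5 : 0 ≤ η / 2 * poissonKernel 0 w z := by positivity
      have h6 : poissonKernel 0 w z * (v w - v z) ≤ (R ^ 2 - ρ ^ 2) / δ ^ 2 * (2 * M) := by
        calc poissonKernel 0 w z * (v w - v z) ≤ poissonKernel 0 w z * (2 * M) :=
              mul_le_mul_of_nonneg_left h3 hp.le
          _ ≤ _ := mul_le_mul_of_nonneg_right h4 (by positivity)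
      have h7 : (R ^ 2 - ρ ^ 2) / δ ^ 2 * (2 * M) = c * (R ^ 2 - ρ ^ 2) := by
        rw [hc]
        ring
      rw [h7] at h6
      linarith [h6, h5, mul_comm (v w) (poissonKernel 0 w z),
        mul_sub (poissonKernel 0 w z) (v w) (v z)]

/-- **The Poisson majorant.** -/
theorem le_poi {v : ℂ → ℝ} {R : ℝ} (hR : 0 < R) (hv : ContinuousOn v (closedBall 0 R))
    (hs : ∀ a ∈ ball (0 : ℂ) R, SubAt v a) {w : ℂ} (hw : w ∈ ball (0 : ℂ) R) :
    v w ≤ poi v R w := by
  by_contra hcon
  push Not at hcon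
  set η : ℝ := v w - poi v R w with hη
  have hη0 : 0 < η := by linarith
  obtain ⟨ρ, hρR, hρ⟩ := poi_boundary hR hv (η := η / 2) (by positivity)
  have hvs : ContinuousOn v (sphere 0 |R|) := by
    rw [abs_of_pos hR]
    exact hv.mono sphere_subset_closedBall
  have hharm := poi_harmonic (v := v) hvs.circleIntegrable'
  have hpc : ContinuousOn (poi v R) (ball 0 R) := fun z hz =>
    (hharm z hz).1.continuousAt.continuousWithinAt
  have hw2 : ‖w‖ < R := mem_ball_zero_iff.1 hw
  set ε : ℝ := η / (4 * R ^ 2) with hε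
  have hε0 : 0 < ε := by positivity
  set R' : ℝ := max ((R + ‖w‖) / 2) ((R + ρ) / 2) with hR'
  have hR'R : R' < R := max_lt (by linarith) (by linarith)
  have hwR' : ‖w‖ < R' := lt_of_lt_of_le (by linarith) (le_max_left _ _)
  have hρR' : ρ ≤ R' := le_trans (by linarith) (le_max_right _ _)
  have hR'0 : 0 < R' := (norm_nonneg w).trans_lt hwR'
  have hsub : closedBall (0 : ℂ) R' ⊆ ball 0 R := closedBall_subset_ball hR'R
  set f : ℂ → ℝ := fun z => v z - poi v R z + ε * ‖z‖ ^ 2 with hf
  have hfc : ContinuousOn f (closedBall 0 R') := by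
    apply ContinuousOn.add
    · exact (hv.mono (hsub.trans ball_subset_closedBall)).sub (hpc.mono hsub)
    · fun_prop
  obtain ⟨z₁, hz₁, hmax⟩ := (isCompact_closedBall (0 : ℂ) R').exists_isMaxOn
    ⟨w, mem_closedBall_zero_iff.2 hwR'.le⟩ hfc
  have hm : ∀ z ∈ closedBall (0 : ℂ) R', f z ≤ f z₁ := fun z hz => hmax hz
  have hfw : η ≤ f z₁ := by
    refine le_trans ?_ (hm w (mem_closedBall_zero_iff.2 hwR'.le))
    rw [hf]
    simp only
    have : 0 ≤ ε * ‖w‖ ^ 2 := by positivity
    linarith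
  have hz₁' : ‖z₁‖ < R' := by
    rcases (mem_closedBall_zero_iff.1 hz₁).lt_or_eq with h | h
    · exact h
    · exfalso
      have h1 := hρ z₁ (by rw [h]; exact hρR') (by rw [h]; exact hR'R)
      have h2 : ε * ‖z₁‖ ^ 2 ≤ η / 4 := by
        have h3 : ‖z₁‖ ^ 2 ≤ R ^ 2 := by
          rw [h]
          exact pow_le_pow_left₀ hR'0.le hR'R.le 2
        calc ε * ‖z₁‖ ^ 2 ≤ ε * R ^ 2 := mul_le_mul_of_nonneg_left h3 hε0.le
          _ = η / 4 := by
            rw [hε]
            field_simp
      have h4 : f z₁ = v z₁ - poi v R z₁ + ε * ‖z₁‖ ^ 2 := rfl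
      linarith
  obtain ⟨r₀, hr₀, hsm⟩ := hs z₁ (hsub hz₁)
  obtain ⟨s, hs0, hs1⟩ := exists_between (lt_min (sub_pos.2 hz₁') hr₀)
  have hs2 : s < R' - ‖z₁‖ := hs1.trans_le (min_le_left _ _)
  have hs3 : s < r₀ := hs1.trans_le (min_le_right _ _)
  have hsubs : closedBall z₁ s ⊆ closedBall 0 R' := by
    intro z hz
    rw [mem_closedBall, dist_eq_norm] at hz
    rw [mem_closedBall_zero_iff]
    have : z = (z - z₁) + z₁ := by ring
    rw [this]
    refine (norm_add_le _ _).trans ?_
    linarith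
  have hsph : ∀ z ∈ sphere z₁ |s|, z ∈ closedBall (0 : ℂ) R' := fun z hz => by
    rw [abs_of_pos hs0] at hz
    exact hsubs (sphere_subset_closedBall hz)
  have hint1 : CircleIntegrable v z₁ s :=
    (hv.mono fun z hz => ball_subset_closedBall (hsub (hsph z hz))).circleIntegrable'
  have hint2 : CircleIntegrable (poi v R) z₁ s :=
    (hpc.mono fun z hz => hsub (hsph z hz)).circleIntegrable'
  have hint3 : CircleIntegrable (fun z : ℂ => ‖z - 0‖ ^ 2) z₁ s := by
    apply ContinuousOn.circleIntegrable'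
    fun_prop
  have hmean : circleAverage (poi v R) z₁ s = poi v R z₁ := by
    apply InnerProductSpace.HarmonicOnNhd.circleAverage_eq
    rw [abs_of_pos hs0]
    exact fun z hz => hharm z (hsub (hsubs hz))
  have hv1 := hsm s hs0 hs3
  have hle : ∀ z ∈ sphere z₁ |s|, v z ≤ (f z₁ + poi v R z) + (-ε) • ‖z - 0‖ ^ 2 := by
    intro z hz
    have h1 := hm z (hsph z hz)
    have h2 : f z = v z - poi v R z + ε * ‖z‖ ^ 2 := rfl
    rw [sub_zero, smul_eq_mul]
    linarith
  have hint4 : CircleIntegrable (fun z : ℂ => (-ε) • ‖z - 0‖ ^ 2) z₁ s := hint3.const_fun_smul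
  have hint5 : CircleIntegrable (fun z => f z₁ + poi v R z) z₁ s :=
    (circleIntegrable_const _ _ _).add hint2
  have hv2 := Real.circleAverage_mono hint1 (hint5.add hint4) hle
  have hv3 : circleAverage ((fun z => f z₁ + poi v R z) + fun z : ℂ => (-ε) • ‖z - 0‖ ^ 2) z₁ s =
      f z₁ + poi v R z₁ - ε * (‖z₁‖ ^ 2 + s ^ 2) := by
    rw [Real.circleAverage_add hint5 hint4, Real.circleAverage_fun_add
      (circleIntegrable_const _ _ _) hint2, Real.circleAverage_const, hmean,
      Real.circleAverage_fun_smul, circleAverage_sq hs0, sub_zero]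
    simp only [smul_eq_mul]
    ring
  rw [hv3] at hv2
  have h4 : f z₁ = v z₁ - poi v R z₁ + ε * ‖z₁‖ ^ 2 := rfl
  have h5 : 0 < ε * s ^ 2 := by positivity
  linarith

/-- the mean value inequality on large circles -/
theorem mean_of_local {v : ℂ → ℝ} {R : ℝ} (hR : 0 < R) (hv : ContinuousOn v (closedBall 0 R))
    (hs : ∀ a ∈ ball (0 : ℂ) R, SubAt v a) : v 0 ≤ circleAverage v 0 R := by
  refine (le_poi hR hv hs (mem_ball_self hR)).trans (le_of_eq ?_)
  unfold poi
  apply Real.circleAverage_congr_sphere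
  intro z hz
  rw [abs_of_pos hR, mem_sphere_zero_iff_norm] at hz
  simp only [poissonKernel_def, sub_zero, norm_zero]
  rw [hz]
  field_simp
  ring

/-- a form of Harnack's inequality -/
theorem harnack {v : ℂ → ℝ} {R : ℝ} (hR : 0 < R) (hv : ContinuousOn v (closedBall 0 R))
    (hs : ∀ a ∈ ball (0 : ℂ) R, SubAt v a) (h0 : ∀ z ∈ sphere (0 : ℂ) R, 0 ≤ v z) {w : ℂ}
    (hw : w ∈ ball (0 : ℂ) R) : v w ≤ (R + ‖w‖) / (R - ‖w‖) * circleAverage v 0 R := by
  refine (le_poi hR hv hs hw).trans ?_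
  have hvs : ContinuousOn v (sphere 0 |R|) := by
    rw [abs_of_pos hR]
    exact hv.mono sphere_subset_closedBall
  have hi1 : CircleIntegrable v 0 R := hvs.circleIntegrable'
  have hi2 : CircleIntegrable (fun z => poissonKernel 0 w z * v z) 0 R :=
    ((poisson_cont hR hw).mul hvs).circleIntegrable'
  have h1 : (R + ‖w‖) / (R - ‖w‖) * circleAverage v 0 R =
      circleAverage (fun z => ((R + ‖w‖) / (R - ‖w‖)) • v z) 0 R := by
    rw [Real.circleAverage_fun_smul, smul_eq_mul]
  rw [h1]
  unfold poi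
  apply Real.circleAverage_mono hi2 hi1.const_fun_smul
  intro z hz
  rw [abs_of_pos hR] at hz
  simp only [smul_eq_mul]
  apply mul_le_mul_of_nonneg_right _ (h0 z hz)
  have h2 := congrFun (poissonKernel_eq_re_herglotzRieszKernel (c := 0) (w := w)) z
  rw [h2]
  have h3 := re_herglotzRieszKernel_le hz hw
  rw [sub_zero] at h3
  simpa [herglotzRieszKernel_def] using h3

/-- the logarithm of a positive function -/
theorem LogSubharmonic.mean_log {u : ℂ → ℝ} {V : Set ℂ} (h : LogSubharmonic u V) {a : ℂ} {r : ℝ}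
    (hr : 0 < r) (hV : closedBall a r ⊆ V) (hpos : ∀ z ∈ closedBall a r, 0 < u z) :
    Real.log (u a) ≤ circleAverage (fun z => Real.log (u z)) a r := by
  obtain ⟨z₀, hz₀, hmin⟩ := (isCompact_closedBall a r).exists_isMinOn
    ⟨a, mem_closedBall_self hr.le⟩ (h.cont.mono hV)
  have hm : ∀ z ∈ closedBall a r, u z₀ ≤ u z := fun z hz => hmin hz
  have h1 := h.mean a r (u z₀) hr hV (hpos z₀ hz₀)
  rw [max_eq_left (hm a (mem_closedBall_self hr.le))] at h1
  refine h1.trans (le_of_eq ?_)
  apply Real.circleAverage_congr_sphere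
  intro z hz
  rw [abs_of_pos hr] at hz
  simp only
  rw [max_eq_left (hm z (sphere_subset_closedBall hz))]

/-- multiplication with a function with subharmonic logarithm -/
theorem LogSubharmonic.mul_exp {u : ℂ → ℝ} {V : Set ℂ} (h : LogSubharmonic u V) {c : ℝ}
    (hc : 0 ≤ c) : LogSubharmonic (fun z => u z * Real.exp (c * ‖z‖ ^ 2)) V := by
  refine ⟨h.cont.mul (by fun_prop), fun z hz => mul_nonneg (h.nonneg z hz) (Real.exp_pos _).le,
    fun a r δ hr hV hδ => ?_⟩
  have hcu : ContinuousOn u (sphere a |r|) := by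
    rw [abs_of_pos hr]
    exact h.cont.mono (sphere_subset_closedBall.trans hV)
  have hcont : ContinuousOn (fun z => Real.log (max (u z * Real.exp (c * ‖z‖ ^ 2)) δ))
      (sphere a |r|) := by
    apply ContinuousOn.log
    · exact (hcu.mul (by fun_prop)).sup continuousOn_const
    · exact fun z _ => (hδ.trans_le (le_max_right _ _)).ne'
  have hint := hcont.circleIntegrable'
  by_cases hle : u a * Real.exp (c * ‖a‖ ^ 2) ≤ δ
  · rw [max_eq_right hle]
    have h1 := Real.circleAverage_mono (circleIntegrable_const (Real.log δ) a r) hint (by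
      intro z _
      exact Real.log_le_log hδ (le_max_right _ _))
    rwa [Real.circleAverage_const] at h1
  · push Not at hle
    have hpos : 0 < u a * Real.exp (c * ‖a‖ ^ 2) := hδ.trans hle
    have hua : 0 < u a := by
      by_contra h1
      push Not at h1
      have := mul_nonpos_of_nonpos_of_nonneg h1 (Real.exp_pos (c * ‖a‖ ^ 2)).le
      linarith
    set B : ℝ := c * (‖a‖ + r) ^ 2 with hB
    set δ' : ℝ := δ * Real.exp (-B) with hδ'
    have hδ'0 : 0 < δ' := by positivity
    have h1 := h.mean a r δ' hr hV hδ'0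
    have hcont2 : ContinuousOn (fun z => Real.log (max (u z) δ')) (sphere a |r|) := by
      apply ContinuousOn.log
      · exact hcu.sup continuousOn_const
      · exact fun z _ => (hδ'0.trans_le (le_max_right _ _)).ne'
    have hint2 := hcont2.circleIntegrable'
    have hint3 : CircleIntegrable (fun z : ℂ => ‖z - 0‖ ^ 2) a r := by
      apply ContinuousOn.circleIntegrable'
      fun_prop
    have hint4 : CircleIntegrable (fun z : ℂ => c • ‖z - 0‖ ^ 2) a r := hint3.const_fun_smul
    have h2 := Real.circleAverage_mono (hint2.add hint4) hint (by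
      intro z hz
      rw [abs_of_pos hr] at hz
      have hzn : ‖z‖ ≤ ‖a‖ + r := by
        have e1 : z = a + (z - a) := by ring
        rw [e1]
        refine (norm_add_le _ _).trans ?_
        rw [mem_sphere, dist_eq_norm] at hz
        rw [hz]
      have h3 : c * ‖z‖ ^ 2 ≤ B := by
        rw [hB]
        exact mul_le_mul_of_nonneg_left (pow_le_pow_left₀ (norm_nonneg _) hzn 2) hc
      have hm : 0 < max (u z) δ' := hδ'0.trans_le (le_max_right _ _)
      have h4 : Real.log (max (u z) δ') + c * ‖z‖ ^ 2 =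
          Real.log (max (u z) δ' * Real.exp (c * ‖z‖ ^ 2)) := by
        rw [Real.log_mul hm.ne' (Real.exp_pos _).ne', Real.log_exp]
      simp only [Pi.add_apply, smul_eq_mul, sub_zero]
      rw [h4]
      apply Real.log_le_log (by positivity)
      rw [max_mul_of_nonneg _ _ (Real.exp_pos _).le]
      apply max_le_max le_rfl
      rw [hδ', mul_assoc, ← Real.exp_add]
      apply mul_le_of_le_one_right hδ.le
      rw [Real.exp_le_one_iff]
      linarith)
    rw [Real.circleAverage_add hint2 hint4, Real.circleAverage_fun_smul, circleAverage_sq hr,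
      sub_zero, smul_eq_mul] at h2
    rw [max_eq_left hle.le, Real.log_mul hua.ne' (Real.exp_pos _).ne', Real.log_exp]
    have h5 : Real.log (u a) ≤ Real.log (max (u a) δ') := Real.log_le_log hua (le_max_left _ _)
    have h6 : 0 ≤ c * r ^ 2 := by positivity
    have h7 : c * (‖a‖ ^ 2 + r ^ 2) = c * ‖a‖ ^ 2 + c * r ^ 2 := by ring
    linarith

theorem LogSubharmonic.subAt {u : ℂ → ℝ} {V : Set ℂ} (h : LogSubharmonic u V) (hV : IsOpen V)
    {a : ℂ} (ha : a ∈ V) {δ : ℝ} (hδ : 0 < δ) : SubAt (fun z => Real.log (max (u z) δ)) a := by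
  obtain ⟨r₀, hr₀, hb⟩ := Metric.isOpen_iff.1 hV a ha
  exact ⟨r₀, hr₀, fun r hr hrr => h.mean a r δ hr ((closedBall_subset_ball hrr).trans hb) hδ⟩

end Pool.Agent.H33
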