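import Pool.Agent.H33.PB

/-! Sections of powers of the hyperplane bundle, pulled back by holomorphic maps from the disc. -/

set_option autoImplicit false

open Filter Topology Metric Set LinearAlgebra.Projectivization

namespace Pool.Agent.H33

open Pool.Agent.Y190.OP Pool.Agent.W602.GT Pool.Agent.N155 Pool.Agent.N155.BB
open Real (circleAverage)

variable {n : ℕ}

/-- `g` gives homogeneous coordinates of `f` near `z` -/
def Grm (f : ℂ → ℙ ℂ (Fin (n + 1) → ℂ)) (z : ℂ) (g : ℂ → Fin (n + 1) → ℂ) : Prop :=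
  AnalyticAt ℂ g z ∧ g z ≠ 0 ∧ ∀ᶠ w in 𝓝 z, ∃ c : ℂ, c ≠ 0 ∧ (f w).rep = c • g w

/-- holomorphic maps from the disc -/
def HolD (f : ℂ → ℙ ℂ (Fin (n + 1) → ℂ)) : Prop := ∀ z ∈ ball (0 : ℂ) 1, ∃ g, Grm f z g

/-- `s` describes `S` in the coordinates `g` -/
def SGrm (f : ℂ → ℙ ℂ (Fin (n + 1) → ℂ)) (N : ℕ) (S : ℂ → ℂ) (z : ℂ) (g : ℂ → Fin (n + 1) → ℂ)
    (s : ℂ → ℂ) : Prop :=
  AnalyticAt ℂ s z ∧ ∀ᶠ w in 𝓝 z, ∀ c : ℂ, (f w).rep = c • g w → S w = c ^ N * s w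

/-- holomorphic sections of the pullback of `O(N)` -/
def Sec (f : ℂ → ℙ ℂ (Fin (n + 1) → ℂ)) (N : ℕ) (S : ℂ → ℂ) : Prop :=
  ∀ z ∈ ball (0 : ℂ) 1, ∀ g, Grm f z g → ∃ s, SGrm f N S z g s

variable {f f' : ℂ → ℙ ℂ (Fin (n + 1) → ℂ)} {z : ℂ} {g g' : ℂ → Fin (n + 1) → ℂ} {N M : ℕ}
  {S T : ℂ → ℂ} {s t : ℂ → ℂ}

theorem Grm.ne (h : Grm f z g) : ∀ᶠ w in 𝓝 z, g w ≠ 0 := h.1.continuousAt.eventually_ne h.2.1

theorem Grm.coord_an (h : Grm f z g) (i : Fin (n + 1)) : AnalyticAt ℂ (fun w => g w i) z :=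
  (analyticAt_pi_iff.1 h.1) i

theorem Grm.ratio (h : Grm f z g) (h' : Grm f z g') : ∃ l : ℂ → ℂ, AnalyticAt ℂ l z ∧ l z ≠ 0 ∧
    ∀ᶠ w in 𝓝 z, g' w = l w • g w := by
  obtain ⟨i, hi⟩ := Function.ne_iff.1 h.2.1
  have hi : g z i ≠ 0 := hi
  have h1 : ∀ᶠ w in 𝓝 z, g w i ≠ 0 := (h.coord_an i).continuousAt.eventually_ne hi
  have hall : ∀ᶠ w in 𝓝 z, g' w = (g' w i / g w i) • g w := by
    filter_upwards [h1, h.2.2, h'.2.2] with w k1 ⟨c, hc, k2⟩ ⟨c', hc', k3⟩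
    have k4 : g' w = (c'⁻¹ * c) • g w := by
      rw [mul_smul, ← k2, k3, smul_smul, inv_mul_cancel₀ hc', one_smul]
    have k5 : g' w i / g w i = c'⁻¹ * c := by
      rw [k4, Pi.smul_apply, smul_eq_mul]
      field_simp
    rw [k5]
    exact k4
  refine ⟨fun w => g' w i / g w i, (h'.coord_an i).div (h.coord_an i) hi, ?_, hall⟩
  intro h0
  have h2 := hall.self_of_nhds
  have h0' : g' z i / g z i = 0 := h0
  rw [h0', zero_smul] at h2
  exact h'.2.1 h2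

/-- change of coordinates -/
theorem SGrm.change (hs : SGrm f N S z g s) (h : Grm f z g) (h' : Grm f z g') :
    ∃ s', SGrm f N S z g' s' := by
  obtain ⟨l, hl, hl0, hlg⟩ := h.ratio h'
  refine ⟨fun w => l w ^ N * s w, (hl.pow N).mul hs.1, ?_⟩
  filter_upwards [hs.2, hlg] with w k1 k2 c hc
  rw [k2, smul_smul] at hc
  rw [k1 _ hc, mul_pow]
  ring

theorem Sec.of (hf : ∀ z ∈ ball (0 : ℂ) 1, ∃ g s, Grm f z g ∧ SGrm f N S z g s) : Sec f N S := by
  intro z hz g hg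
  obtain ⟨g', s, h1, h2⟩ := hf z hz
  exact h2.change h1 hg

/-- two descriptions -/
theorem SGrm.uniq (hg : Grm f z g) (hs : SGrm f N S z g s) (ht : SGrm f N T z g t)
    (h : ∀ᶠ w in 𝓝[≠] z, S w = T w) : ∀ᶠ w in 𝓝 z, s w = t w := by
  have h1 : ∀ᶠ w in 𝓝[≠] z, s w = t w := by
    filter_upwards [h, nhdsWithin_le_nhds hg.2.2, nhdsWithin_le_nhds hs.2,
      nhdsWithin_le_nhds ht.2] with w k1 ⟨c, hc, k2⟩ k3 k4
    have k5 := (k3 c k2).symm.trans (k1.trans (k4 c k2))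
    exact mul_left_cancel₀ (pow_ne_zero _ hc) k5
  exact (hs.1.frequently_eq_iff_eventually_eq ht.1).1 h1.frequently

theorem SGrm.val (hg : Grm f z g) (hs : SGrm f N S z g s) : ∃ c : ℂ, c ≠ 0 ∧
    (f z).rep = c • g z ∧ S z = c ^ N * s z := by
  obtain ⟨c, hc, h⟩ := hg.2.2.self_of_nhds
  exact ⟨c, hc, h, hs.2.self_of_nhds c h⟩

theorem Sec.eq_of_punctured (hf : HolD f) (hS : Sec f N S) (hT : Sec f N T)
    (hz : z ∈ ball (0 : ℂ) 1) (h : ∀ᶠ w in 𝓝[≠] z, S w = T w) : S z = T z := by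
  obtain ⟨g, hg⟩ := hf z hz
  obtain ⟨s, hs⟩ := hS z hz g hg
  obtain ⟨t, ht⟩ := hT z hz g hg
  have h1 := (SGrm.uniq hg hs ht h).self_of_nhds
  obtain ⟨c, hc, h2⟩ := hg.2.2.self_of_nhds
  rw [hs.2.self_of_nhds c h2, ht.2.self_of_nhds c h2, h1]

theorem Sec.zero : Sec f N fun _ => 0 := fun _ _ _ _ =>
  ⟨fun _ => 0, analyticAt_const, Eventually.of_forall fun _ _ _ => (mul_zero _).symm⟩

theorem Sec.add (hS : Sec f N S) (hT : Sec f N T) : Sec f N fun z => S z + T z := by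
  intro z hz g hg
  obtain ⟨s, hs⟩ := hS z hz g hg
  obtain ⟨t, ht⟩ := hT z hz g hg
  refine ⟨fun w => s w + t w, hs.1.add ht.1, ?_⟩
  filter_upwards [hs.2, ht.2] with w k1 k2 c hc
  rw [k1 c hc, k2 c hc]
  ring

theorem Sec.const_mul (hS : Sec f N S) (a : ℂ) : Sec f N fun z => a * S z := by
  intro z hz g hg
  obtain ⟨s, hs⟩ := hS z hz g hg
  refine ⟨fun w => a * s w, analyticAt_const.mul hs.1, ?_⟩
  filter_upwards [hs.2] with w k1 c hc
  rw [k1 c hc]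
  ring

theorem Sec.mul (hS : Sec f N S) (hT : Sec f M T) : Sec f (N + M) fun z => S z * T z := by
  intro z hz g hg
  obtain ⟨s, hs⟩ := hS z hz g hg
  obtain ⟨t, ht⟩ := hT z hz g hg
  refine ⟨fun w => s w * t w, hs.1.mul ht.1, ?_⟩
  filter_upwards [hs.2, ht.2] with w k1 k2 c hc
  rw [k1 c hc, k2 c hc, pow_add]
  ring

theorem Sec.one : Sec f 0 fun _ => 1 := fun _ _ _ _ =>
  ⟨fun _ => 1, analyticAt_const, Eventually.of_forall fun _ _ _ => by simp⟩

theorem Sec.pow (hS : Sec f N S) (k : ℕ) : Sec f (k * N) fun z => S z ^ k := by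
  induction k with
  | zero => simpa using Sec.one (f := f)
  | succ k ih =>
    have := ih.mul hS
    have e : (k + 1) * N = k * N + N := by ring
    rw [e]
    exact this

theorem Sec.coord (i : Fin (n + 1)) : Sec f 1 fun z => (f z).rep i := fun _ _ g hg =>
  ⟨fun w => g w i, hg.coord_an i, Eventually.of_forall fun w c hc => by
    change (f w).rep i = c ^ 1 * g w i
    rw [hc, pow_one]
    rfl⟩

theorem Sec.sum {ι : Type} (A : Finset ι) {S : ι → ℂ → ℂ} (h : ∀ i ∈ A, Sec f N (S i)) :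
    Sec f N fun z => ∑ i ∈ A, S i z := by
  classical
  induction A using Finset.induction_on with
  | empty => simpa using Sec.zero (f := f) (N := N)
  | insert i A hi ih =>
    simp only [Finset.sum_insert hi]
    exact (h i (Finset.mem_insert_self i A)).add
      (ih fun j hj => h j (Finset.mem_insert_of_mem hj))

theorem Sec.prod {ι : Type} (A : Finset ι) {N : ι → ℕ} {S : ι → ℂ → ℂ}
    (h : ∀ i ∈ A, Sec f (N i) (S i)) : Sec f (∑ i ∈ A, N i) fun z => ∏ i ∈ A, S i z := by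
  classical
  induction A using Finset.induction_on with
  | empty => simpa using Sec.one (f := f)
  | insert i A hi ih =>
    simp only [Finset.prod_insert hi, Finset.sum_insert hi]
    exact (h i (Finset.mem_insert_self i A)).mul
      (ih fun j hj => h j (Finset.mem_insert_of_mem hj))

/-- composition with holomorphic maps under which the map is invariant -/
theorem Grm.comp {γ : ℂ → ℂ} (hγ : AnalyticAt ℂ γ z) (hinv : ∀ᶠ w in 𝓝 z, f (γ w) = f w)
    (hg : Grm f (γ z) g) : Grm f z fun w => g (γ w) := by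
  refine ⟨hg.1.comp hγ, hg.2.1, ?_⟩
  filter_upwards [hγ.continuousAt.eventually hg.2.2, hinv] with w k1 k2
  rw [k2] at k1
  exact k1

theorem Sec.comp (hf : HolD f) (hS : Sec f N S) {γ : ℂ → ℂ}
    (hγ : DifferentiableOn ℂ γ (ball 0 1)) (hm : MapsTo γ (ball 0 1) (ball 0 1))
    (hinv : ∀ z ∈ ball (0 : ℂ) 1, f (γ z) = f z) : Sec f N fun z => S (γ z) := by
  refine Sec.of fun z hz => ?_
  have ha : AnalyticAt ℂ γ z := hγ.analyticAt (isOpen_ball.mem_nhds hz)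
  have hi : ∀ᶠ w in 𝓝 z, f (γ w) = f w := by
    filter_upwards [isOpen_ball.mem_nhds hz] with w hw
    exact hinv w hw
  obtain ⟨g, hg⟩ := hf (γ z) (hm hz)
  obtain ⟨s, hs⟩ := hS (γ z) (hm hz) g hg
  refine ⟨fun w => g (γ w), fun w => s (γ w), hg.comp ha hi, hs.1.comp ha, ?_⟩
  filter_upwards [ha.continuousAt.eventually hs.2, hi] with w k1 k2 c hc
  refine k1 c ?_
  rw [k2]
  exact hc

/-! ### The length -/

/-- the square of the length of a section -/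
noncomputable def nrm (f : ℂ → ℙ ℂ (Fin (n + 1) → ℂ)) (N : ℕ) (S : ℂ → ℂ) (z : ℂ) : ℝ :=
  ‖S z‖ ^ 2 / sqn (f z).rep ^ N

theorem nrm_nonneg (z : ℂ) : 0 ≤ nrm f N S z :=
  div_nonneg (sq_nonneg _) (pow_nonneg (sqn_nonneg _) _)

theorem nrm_eq {c : ℂ} {x : Fin (n + 1) → ℂ} {a : ℂ} (hc : c ≠ 0) (h : (f z).rep = c • x)
    (hS : S z = c ^ N * a) : nrm f N S z = ‖a‖ ^ 2 / sqn x ^ N := by
  unfold nrm
  rw [h, hS, sqn_smul', norm_mul, norm_pow, mul_pow, mul_pow, ← pow_mul, ← pow_mul, mul_comm N 2]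
  have : ‖c‖ ^ (2 * N) ≠ 0 := pow_ne_zero _ (norm_ne_zero_iff.2 hc)
  exact mul_div_mul_left _ _ this

theorem SGrm.nrm (hg : Grm f z g) (hs : SGrm f N S z g s) :
    ∀ᶠ w in 𝓝 z, nrm f N S w = ‖s w‖ ^ 2 / sqn (g w) ^ N := by
  filter_upwards [hg.2.2, hs.2] with w ⟨c, hc, k1⟩ k2
  exact nrm_eq hc k1 (k2 c k1)

theorem Sec.nrm_cont (hf : HolD f) (hS : Sec f N S) (hz : z ∈ ball (0 : ℂ) 1) :
    ContinuousAt (nrm f N S) z := by
  obtain ⟨g, hg⟩ := hf z hz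
  obtain ⟨s, hs⟩ := hS z hz g hg
  refine ContinuousAt.congr ?_ (hs.nrm hg |>.mono fun w hw => hw.symm)
  have h1 : ContinuousAt (fun w => sqn (g w)) z :=
    ContinuousAt.comp (g := sqn) (f := g) sqn_cont.continuousAt hg.1.continuousAt
  exact (hs.1.continuousAt.norm.pow 2).div (h1.pow N) (pow_ne_zero _ (sqn_pos hg.2.1).ne')

theorem nrm_eq_zero_iff : nrm f N S z = 0 ↔ S z = 0 := by
  unfold nrm
  have h := sqn_pos (Projectivization.rep_nonzero (f z))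
  rw [div_eq_zero_iff]
  constructor
  · rintro (h1 | h1)
    · exact norm_eq_zero.1 (by simpa using h1)
    · exact absurd h1 (pow_ne_zero _ h.ne')
  · intro h1
    left
    rw [h1]
    simp

theorem asym_harm {h : ℂ → ℝ} {a : ℂ} (hh : InnerProductSpace.HarmonicAt h a) : Asym h a 0 := by
  refine asym_of hh ?_ ?_
  · refine (Asymptotics.isLittleO_zero _ _).congr' (Eventually.of_forall fun z => ?_)
      (Eventually.of_forall fun z => rfl)
    ring
  · filter_upwards [hh.eventually] with z hz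
    exact hz.1.continuousAt

end Pool.Agent.H33
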