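import Pool.Agent.H33.QA

/-! Sections of powers of the hyperplane bundle: maximum principle. -/

set_option autoImplicit false

open Filter Topology Metric Set LinearAlgebra.Projectivization

namespace Pool.Agent.H33

open Pool.Agent.Y190.OP Pool.Agent.W602.GT Pool.Agent.N155 Pool.Agent.N155.BB
open Real (circleAverage)

variable {n : ℕ} {f f' : ℂ → ℙ ℂ (Fin (n + 1) → ℂ)} {z : ℂ} {g g' : ℂ → Fin (n + 1) → ℂ} {N M : ℕ}
  {S T : ℂ → ℂ} {s t : ℂ → ℂ}

/-- the identity theorem for sections -/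
theorem Sec.isolated (hf : HolD f) (hS : Sec f N S) (h : ∃ z ∈ ball (0 : ℂ) 1, S z ≠ 0)
    (hz : z ∈ ball (0 : ℂ) 1) : ∀ᶠ w in 𝓝[≠] z, S w ≠ 0 := by
  have key : ∀ z ∈ ball (0 : ℂ) 1, (∀ᶠ w in 𝓝 z, S w = 0) ∨ ∀ᶠ w in 𝓝[≠] z, S w ≠ 0 := by
    intro z hz
    obtain ⟨g, hg⟩ := hf z hz
    obtain ⟨s, hs⟩ := hS z hz g hg
    rcases hs.1.eventually_eq_zero_or_eventually_ne_zero with h1 | h1
    · left
      filter_upwards [h1, hs.2, hg.2.2] with w k1 k2 ⟨c, hc, k3⟩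
      rw [k2 c k3, k1, mul_zero]
    · right
      filter_upwards [h1, nhdsWithin_le_nhds hs.2, nhdsWithin_le_nhds hg.2.2] with w k1 k2 ⟨c, hc, k3⟩
      rw [k2 c k3]
      exact mul_ne_zero (pow_ne_zero _ hc) k1
  set A : Set ℂ := {z | ∀ᶠ w in 𝓝 z, S w = 0} with hA
  have hAo : IsOpen A := isOpen_setOfPred_eventually_nhds
  obtain ⟨b, hb, hSb⟩ := h
  rcases key z hz with h1 | h1
  swap
  · exact h1
  exfalso
  have hsub : ball (0 : ℂ) 1 ⊆ A := by
    refine (convex_ball (0 : ℂ) 1).isPreconnected.subset_of_closure_inter_subset hAo ⟨z, hz, h1⟩ ?_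
    rintro w ⟨hwA, hw⟩
    rcases key w hw with h2 | h2
    · exact h2
    · exfalso
      have h3 := mem_closure_iff_frequently.1 hwA
      have h4 : ∀ᶠ x in 𝓝 w, x ≠ w → S x ≠ 0 := eventually_nhdsWithin_iff.1 h2
      by_cases hwA' : w ∈ A
      · have h5 : ∀ᶠ x in 𝓝[≠] w, S x = 0 := nhdsWithin_le_nhds hwA'
        obtain ⟨x, h6, h7⟩ := (h2.and h5).exists
        exact h6 h7
      · obtain ⟨x, hx, h5⟩ := (h3.and_eventually h4).exists
        have h6 : x ≠ w := fun h => hwA' (h ▸ hx)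
        exact h5 h6 (show ∀ᶠ y in 𝓝 x, S y = 0 from hx).self_of_nhds
  exact hSb (show ∀ᶠ y in 𝓝 b, S y = 0 from hsub hb).self_of_nhds

/-- bound of the derivative -/
def SpeedLe (f : ℂ → ℙ ℂ (Fin (n + 1) → ℂ)) (R B : ℝ) : Prop :=
  ∀ z ∈ ball (0 : ℂ) R, ∀ g, Grm f z g → (wedge (g z) (deriv g z) / sqn (g z)) ^ 2 ≤ B

theorem asym_normSq (κ : ℝ) (a : ℂ) : Asym (fun z : ℂ => κ * ‖z‖ ^ 2) a κ := by
  have : Asym (fun z : ℂ => ‖z‖ ^ 2) a 1 := by
    have := asym_sq (f := fun z : ℂ => z) (a := a) analyticAt_id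
    simpa using this
  simpa using this.const_mul κ

theorem cont_log_norm {q : ℂ → ℂ} {a : ℂ} (hq : AnalyticAt ℂ q a) (h0 : q a ≠ 0) :
    ∀ᶠ z in 𝓝 a, ContinuousAt (fun z => Real.log ‖q z‖) z := by
  filter_upwards [hq.eventually_analyticAt, hq.continuousAt.eventually_ne h0] with z h1 h2
  exact h1.continuousAt.norm.log (norm_ne_zero_iff.2 h2)

/-- the Laplacian of the logarithm of the length -/
theorem Sec.asym (hf : HolD f) (hS : Sec f N S) {R B κ : ℝ} (hR : R ≤ 1) (hB : SpeedLe f R B)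
    (hκ : N * B < κ) {ω : ℂ → ℂ} {a : ℂ} (ha : a ∈ ball (0 : ℂ) R) (hω : AnalyticAt ℂ ω a)
    (hω0 : ω a ≠ 0) (hSa : S a ≠ 0) :
    ∃ c : ℝ, 0 < c ∧ Asym (fun z => Real.log (nrm f N S z * Real.exp (κ * ‖z‖ ^ 2) / ‖ω z‖)) a c := by
  have ha1 : a ∈ ball (0 : ℂ) 1 := ball_subset_ball hR ha
  obtain ⟨g, hg⟩ := hf a ha1
  obtain ⟨s, hs⟩ := hS a ha1 g hg
  have hs0 : s a ≠ 0 := by
    obtain ⟨c, hc, k1, k2⟩ := hs.val hg
    rw [k2] at hSa
    exact right_ne_zero_of_mul hSa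
  have hB' := hB a ha g hg
  set b := (wedge (g a) (deriv g a) / sqn (g a)) ^ 2 with hb
  have h1 : Asym (fun z => Real.log ‖s z‖) a 0 := asym_harm (hs.1.harmonicAt_log_norm hs0)
  have h2 : Asym (fun z => Real.log ‖ω z‖) a 0 := asym_harm (hω.harmonicAt_log_norm hω0)
  have h3 : Asym (fun z => Real.log (sqn (g z))) a b := asym_log hg.1 hg.2.1
  have c1 := cont_log_norm hs.1 hs0
  have c2 := cont_log_norm hω hω0
  have c3 := cont_log_sqn hg.1 hg.2.1
  have k1 := (h1.const_mul 2).add (h2.const_mul (-1)) (c1.mono fun z hz => continuousAt_const.mul hz)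
    (c2.mono fun z hz => continuousAt_const.mul hz)
  have k2 := (h3.const_mul (-(N : ℝ))).add (asym_normSq κ a)
    (c3.mono fun z hz => continuousAt_const.mul hz)
    (Eventually.of_forall fun z => by fun_prop)
  have k3 := k1.add k2
    ((c1.and c2).mono fun z hz => (continuousAt_const.mul hz.1).add (continuousAt_const.mul hz.2))
    (c3.mono fun z hz => (continuousAt_const.mul hz).add (by fun_prop))
  refine ⟨_, ?_, k3.congr ?_⟩
  · have : (N : ℝ) * b ≤ N * B := mul_le_mul_of_nonneg_left hB' (Nat.cast_nonneg N)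
    linarith
  · filter_upwards [hs.nrm hg, hs.1.continuousAt.eventually_ne hs0, hω.continuousAt.eventually_ne hω0,
      hg.ne] with z e1 e2 e3 e4
    have p1 : ‖s z‖ ≠ 0 := norm_ne_zero_iff.2 e2
    have p2 : ‖ω z‖ ≠ 0 := norm_ne_zero_iff.2 e3
    have p3 : sqn (g z) ≠ 0 := (sqn_pos e4).ne'
    rw [e1, Real.log_div (by positivity) p2, Real.log_mul (by positivity) (Real.exp_pos _).ne',
      Real.log_div (by positivity) (by positivity), Real.log_pow, Real.log_pow, Real.log_exp]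
    push_cast
    ring

/-- **Maximum principle.** -/
theorem Sec.key (hf : HolD f) (hS : Sec f N S) {R B κ : ℝ} (hR0 : 0 < R) (hR : R < 1)
    (hB : SpeedLe f R B) (hκ : N * B < κ) {ω : ℂ → ℂ} (hω : ∀ z ∈ closedBall (0 : ℂ) R, AnalyticAt ℂ ω z)
    (hz : ∀ a ∈ closedBall (0 : ℂ) R, ω a = 0 → ∃ C : ℝ, ∀ᶠ z in 𝓝 a, nrm f N S z ≤ C * ‖ω z‖ ^ 2)
    {p : ℂ} (hp : p ∈ closedBall (0 : ℂ) R) :
    ∃ q ∈ sphere (0 : ℂ) R, nrm f N S p * Real.exp (κ * ‖p‖ ^ 2) / ‖ω p‖ ≤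
      nrm f N S q * Real.exp (κ * ‖q‖ ^ 2) / ‖ω q‖ := by
  set w : ℂ → ℝ := fun z => nrm f N S z * Real.exp (κ * ‖z‖ ^ 2) / ‖ω z‖ with hw
  have hsub : closedBall (0 : ℂ) R ⊆ ball 0 1 := closedBall_subset_ball hR
  have hw0 : ∀ z, 0 ≤ w z := fun z => by
    have := nrm_nonneg (f := f) (N := N) (S := S) z
    positivity
  have hE : ∀ z, ContinuousAt (fun z : ℂ => Real.exp (κ * ‖z‖ ^ 2)) z := fun z => by fun_prop
  have hcont : ∀ a ∈ closedBall (0 : ℂ) R, ContinuousAt w a := by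
    intro a ha
    have hna := hS.nrm_cont hf (hsub ha)
    have hωa := (hω a ha).continuousAt.norm
    by_cases h0 : ω a = 0
    · obtain ⟨C, hC⟩ := hz a ha h0
      have hwa : w a = 0 := by
        rw [hw]
        simp only [h0, norm_zero, div_zero]
      have h1 : ∀ᶠ z in 𝓝 a, |w z| ≤ |C| * ‖ω z‖ * Real.exp (κ * ‖z‖ ^ 2) := by
        filter_upwards [hC] with z hz
        rw [abs_of_nonneg (hw0 z)]
        by_cases h2 : ω z = 0
        · rw [hw]
          simp [h2]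
        · have h3 : 0 < ‖ω z‖ := norm_pos_iff.2 h2
          have h4 : 0 < Real.exp (κ * ‖z‖ ^ 2) := Real.exp_pos _
          rw [hw]
          simp only
          rw [div_le_iff₀ h3]
          have h5 : C * ‖ω z‖ ^ 2 ≤ |C| * ‖ω z‖ ^ 2 :=
            mul_le_mul_of_nonneg_right (le_abs_self C) (by positivity)
          calc nrm f N S z * Real.exp (κ * ‖z‖ ^ 2) ≤ |C| * ‖ω z‖ ^ 2 * Real.exp (κ * ‖z‖ ^ 2) :=
                mul_le_mul_of_nonneg_right (hz.trans h5) h4.le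
            _ = _ := by ring
      have h2 : Tendsto (fun z => |C| * ‖ω z‖ * Real.exp (κ * ‖z‖ ^ 2)) (𝓝 a) (𝓝 0) := by
        have := ((continuousAt_const (y := |C|)).mul hωa).mul (hE a)
        have h3 : |C| * ‖ω a‖ * Real.exp (κ * ‖a‖ ^ 2) = 0 := by rw [h0]; simp
        have h4 : Tendsto (fun z => |C| * ‖ω z‖ * Real.exp (κ * ‖z‖ ^ 2)) (𝓝 a)
          (𝓝 (|C| * ‖ω a‖ * Real.exp (κ * ‖a‖ ^ 2))) := this
        rwa [h3] at h4
      have h3 : Tendsto w (𝓝 a) (𝓝 0) := squeeze_zero_norm' (by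
        filter_upwards [h1] with z hz
        rw [Real.norm_eq_abs]
        exact hz) h2
      rw [ContinuousAt, hwa]
      exact h3
    · exact (hna.mul (hE a)).div hωa (norm_ne_zero_iff.2 h0)
  obtain ⟨q, hq, hmax⟩ := (isCompact_closedBall (0 : ℂ) R).exists_isMaxOn ⟨p, hp⟩
    (fun a ha => (hcont a ha).continuousWithinAt)
  have hmax' : ∀ z ∈ closedBall (0 : ℂ) R, w z ≤ w q := hmax
  by_cases hqs : ‖q‖ = R
  · exact ⟨q, mem_sphere_zero_iff_norm.2 hqs, hmax' p hp⟩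
  have hqb : q ∈ ball (0 : ℂ) R :=
    mem_ball_zero_iff.2 (lt_of_le_of_ne (mem_closedBall_zero_iff.1 hq) hqs)
  rcases (hw0 q).eq_or_lt with h0 | hpos
  · have hRs : ((R : ℝ) : ℂ) ∈ sphere (0 : ℂ) R := by
      rw [mem_sphere_zero_iff_norm, Complex.norm_real, Real.norm_of_nonneg hR0.le]
    exact ⟨_, hRs, ((hmax' p hp).trans h0.symm.le).trans (hw0 _)⟩
  exfalso
  have hωq : ω q ≠ 0 := by
    intro h
    rw [hw] at hpos
    simp [h] at hpos
  have hSq : S q ≠ 0 := by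
    intro h
    rw [hw] at hpos
    simp [nrm_eq_zero_iff.2 h] at hpos
  obtain ⟨c, hc, hA⟩ := hS.asym hf hR.le hB hκ hqb (hω q hq) hωq hSq
  obtain ⟨r₀, hr₀, h1⟩ := hA (c / 2) (by positivity)
  have hev : ∀ᶠ z in 𝓝 q, z ∈ closedBall (0 : ℂ) R ∧ 0 < w z := by
    have k1 : ∀ᶠ z in 𝓝 q, z ∈ ball (0 : ℂ) R := isOpen_ball.mem_nhds hqb
    filter_upwards [k1, (hcont q hq).eventually (lt_mem_nhds hpos)] with z k2 k3
    exact ⟨ball_subset_closedBall k2, k3⟩
  obtain ⟨r₁, hr₁, h2⟩ := ev_closedBall hev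
  set r := min r₀ r₁ / 2 with hr
  have hr0 : 0 < r := by positivity
  have hrr : r < min r₀ r₁ := by
    have : 0 < min r₀ r₁ := by positivity
    linarith
  obtain ⟨a1, a2⟩ := lt_min_iff.1 hrr
  have h3 : -(c / 2 * r ^ 2) ≤ circleAverage (fun z => Real.log (w z)) q r - Real.log (w q) -
      c * r ^ 2 := (abs_le.1 (h1 r hr0 a1)).1
  have hle : circleAverage (fun z => Real.log (w z)) q r ≤ Real.log (w q) := by
    refine Real.circleAverage_mono_on_of_le_circle ?_ ?_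
    · apply ContinuousOn.circleIntegrable'
      intro z hz
      rw [abs_of_pos hr0] at hz
      obtain ⟨b1, b2⟩ := h2 r a2 z (sphere_subset_closedBall hz)
      exact ((hcont z b1).log b2.ne').continuousWithinAt
    · intro z hz
      rw [abs_of_pos hr0] at hz
      obtain ⟨b1, b2⟩ := h2 r a2 z (sphere_subset_closedBall hz)
      exact Real.log_le_log b2 (hmax' z b1)
  have h4 : 0 < c / 2 * r ^ 2 := by positivity
  have h5 : c * r ^ 2 = c / 2 * r ^ 2 + c / 2 * r ^ 2 := by ring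
  linarith

/-- sections with a zero of large order vanish -/
theorem Sec.vanish (hf : HolD f) (hS : Sec f N S) {R R' B κ : ℝ} (hR0 : 0 < R) (hRR : R < R')
    (hR : R' < 1) (hB : SpeedLe f R' B) (hκ : N * B < κ) (hκ0 : 0 < κ) {K : ℕ}
    (hK : Real.exp κ < (R' / R) ^ K)
    (hinv : ∀ z ∈ ball (0 : ℂ) 1, ∃ z' ∈ closedBall (0 : ℂ) R, nrm f N S z = nrm f N S z')
    (hord : ∃ C : ℝ, ∀ᶠ z in 𝓝 0, nrm f N S z ≤ C * ‖z ^ K‖ ^ 2) :
    ∀ z ∈ ball (0 : ℂ) 1, S z = 0 := by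
  have hR'0 : 0 < R' := hR0.trans hRR
  have hK0 : K ≠ 0 := by
    rintro rfl
    rw [pow_zero] at hK
    have := Real.one_lt_exp_iff.2 hκ0
    linarith
  have hcont : ContinuousOn (nrm f N S) (closedBall (0 : ℂ) R) := fun z hz =>
    (hS.nrm_cont hf (closedBall_subset_ball (hRR.trans hR) hz)).continuousWithinAt
  obtain ⟨p, hp, hmax⟩ := (isCompact_closedBall (0 : ℂ) R).exists_isMaxOn
    ⟨0, mem_closedBall_self hR0.le⟩ hcont
  have hmax' : ∀ z ∈ ball (0 : ℂ) 1, nrm f N S z ≤ nrm f N S p := by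
    intro z hz
    obtain ⟨z', h1, h2⟩ := hinv z hz
    rw [h2]
    exact hmax h1
  have hp0 : 0 ≤ nrm f N S p := nrm_nonneg p
  have hzero : nrm f N S p = 0 := by
    have hord' := hord
    obtain ⟨C, hC⟩ := hord
    by_cases hpz : p = 0
    · have h1 := hC.self_of_nhds
      rw [zero_pow hK0, norm_zero] at h1
      rw [hpz] at hp0 ⊢
      have : C * 0 ^ 2 = 0 := by ring
      linarith
    · obtain ⟨q, hq, hle⟩ := hS.key hf hR'0 hR hB hκ (ω := fun z => z ^ K) (fun z _ => by fun_prop)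
        (fun a _ h => by
          have : a = 0 := pow_eq_zero_iff hK0 |>.1 h
          rw [this]
          exact hord') (closedBall_subset_closedBall hRR.le hp)
      have hqn : ‖q‖ = R' := mem_sphere_zero_iff_norm.1 hq
      have hqm := hmax' q (sphere_subset_closedBall.trans (closedBall_subset_ball hR) hq)
      have hpn : ‖p‖ ≤ R := mem_closedBall_zero_iff.1 hp
      have hpp : 0 < ‖p‖ := norm_pos_iff.2 hpz
      rw [norm_pow, norm_pow, hqn] at hle
      by_contra hne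
      have hpos : 0 < nrm f N S p := lt_of_le_of_ne hp0 (Ne.symm hne)
      have e1 : 1 ≤ Real.exp (κ * ‖p‖ ^ 2) := Real.one_le_exp (by positivity)
      have e2 : Real.exp (κ * R' ^ 2) ≤ Real.exp κ := by
        apply Real.exp_le_exp.2
        have : R' ^ 2 ≤ 1 := by nlinarith
        nlinarith
      have e3 : nrm f N S p / R ^ K ≤ nrm f N S p * Real.exp (κ * ‖p‖ ^ 2) / ‖p‖ ^ K := by
        apply div_le_div₀ (by positivity) _ (by positivity) (pow_le_pow_left₀ hpp.le hpn K)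
        nlinarith
      have e4 : nrm f N S q * Real.exp (κ * R' ^ 2) / R' ^ K ≤ nrm f N S p * Real.exp κ / R' ^ K := by
        apply div_le_div_of_nonneg_right _ (by positivity)
        exact mul_le_mul hqm e2 (Real.exp_pos _).le hp0
      have e5 := (e3.trans hle).trans e4
      rw [div_le_div_iff₀ (by positivity) (by positivity)] at e5
      have e6 : nrm f N S p * R' ^ K ≤ nrm f N S p * (Real.exp κ * R ^ K) := by linarith
      have e7 := le_of_mul_le_mul_left e6 hpos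
      rw [div_pow, lt_div_iff₀ (by positivity)] at hK
      linarith
  intro z hz
  have h1 := hmax' z hz
  rw [hzero] at h1
  exact nrm_eq_zero_iff.1 (le_antisymm h1 (nrm_nonneg z))

end Pool.Agent.H33
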