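import Pool.Agent.H33.QB

/-! Sections of powers of the hyperplane bundle: the number of zeros. -/

set_option autoImplicit false

open Filter Topology Metric Set LinearAlgebra.Projectivization
open scoped ComplexConjugate

namespace Pool.Agent.H33

open Pool.Agent.Y190.OP Pool.Agent.W602.GT Pool.Agent.N155 Pool.Agent.N155.BB

variable {n : ℕ} {f f' : ℂ → ℙ ℂ (Fin (n + 1) → ℂ)} {z : ℂ} {g g' : ℂ → Fin (n + 1) → ℂ} {N M : ℕ}
  {S T : ℂ → ℂ} {s t : ℂ → ℂ}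

/-- Blaschke factors -/
noncomputable def bl (R : ℝ) (a z : ℂ) : ℂ := R * (z - a) / (R ^ 2 - conj a * z)

theorem bl_den {R : ℝ} {a z : ℂ} (ha : ‖a‖ < R) (hz : ‖z‖ ≤ R) :
    (R : ℂ) ^ 2 - conj a * z ≠ 0 := by
  intro h
  have h1 : (R : ℂ) ^ 2 = conj a * z := by linear_combination h
  have h2 := congrArg (fun x => ‖x‖) h1
  simp only [norm_pow, norm_mul, RCLike.norm_conj, Complex.norm_real] at h2
  have h3 : (0 : ℝ) < R := (norm_nonneg a).trans_lt ha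
  rw [Real.norm_of_nonneg h3.le] at h2
  nlinarith [norm_nonneg z, norm_nonneg a]

theorem bl_sphere {R : ℝ} {a z : ℂ} (ha : ‖a‖ < R) (hz : ‖z‖ = R) : ‖bl R a z‖ = 1 := by
  have h3 : (0 : ℝ) < R := (norm_nonneg a).trans_lt ha
  have h1 : (R : ℂ) ^ 2 - conj a * z = z * conj (z - a) := by
    have : (R : ℂ) ^ 2 = z * conj z := by
      rw [Complex.mul_conj, Complex.normSq_eq_norm_sq, hz]
      push_cast
      ring
    rw [this, map_sub]
    ring
  have h4 : z - a ≠ 0 := by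
    intro h
    have : z = a := sub_eq_zero.1 h
    rw [this] at hz
    linarith
  have h5 : ‖z - a‖ ≠ 0 := norm_ne_zero_iff.2 h4
  unfold bl
  rw [h1, norm_div, norm_mul, norm_mul, RCLike.norm_conj, hz, Complex.norm_real,
    Real.norm_of_nonneg h3.le]
  field_simp

theorem bl_zero {R : ℝ} (hR : 0 < R) (a : ℂ) : ‖bl R a 0‖ = ‖a‖ / R := by
  unfold bl
  rw [zero_sub, mul_zero, sub_zero, norm_div, norm_mul, norm_neg, norm_pow, Complex.norm_real,
    Real.norm_of_nonneg hR.le]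
  field_simp

theorem bl_eq_zero {R : ℝ} {a z : ℂ} (ha : ‖a‖ < R) (hz : ‖z‖ ≤ R) (h : bl R a z = 0) : z = a := by
  have h3 : (0 : ℝ) < R := (norm_nonneg a).trans_lt ha
  unfold bl at h
  rcases div_eq_zero_iff.1 h with h1 | h1
  · rcases mul_eq_zero.1 h1 with h2 | h2
    · exact absurd h2 (by exact_mod_cast h3.ne')
    · exact sub_eq_zero.1 h2
  · exact absurd h1 (bl_den ha hz)

theorem bl_an {R : ℝ} {a z : ℂ} (ha : ‖a‖ < R) (hz : ‖z‖ ≤ R) : AnalyticAt ℂ (bl R a) z := by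
  unfold bl
  refine AnalyticAt.div (by fun_prop) (by fun_prop) (bl_den ha hz)

/-- the number of zeros -/
theorem Sec.count (hf : HolD f) (hS : Sec f N S) {R R' B κ : ℝ} (hR0 : 0 < R) (hRR : R < R')
    (hR : R' < 1) (hB : SpeedLe f R' B) (hκ : N * B < κ) (hκ0 : 0 < κ) {C₀ : ℝ}
    (hC₀ : ∀ z ∈ ball (0 : ℂ) 1, nrm f N S z ≤ C₀) (A : Finset ℂ) (m : ℂ → ℕ)
    (hA : ∀ a ∈ A, a ∈ closedBall (0 : ℂ) R)
    (hm : ∀ a ∈ A, ∃ C : ℝ, ∀ᶠ z in 𝓝 a, nrm f N S z ≤ C * ‖(z - a) ^ m a‖ ^ 2) (h0 : S 0 ≠ 0) :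
    nrm f N S 0 * (R' / R) ^ (∑ a ∈ A, m a) ≤ C₀ * Real.exp κ := by
  classical
  have hR'0 : 0 < R' := hR0.trans hRR
  have hn0 : 0 < nrm f N S 0 :=
    lt_of_le_of_ne (nrm_nonneg 0) (fun h => h0 (nrm_eq_zero_iff.1 h.symm))
  have hAn : ∀ a ∈ A, ‖a‖ < R' := fun a ha => (mem_closedBall_zero_iff.1 (hA a ha)).trans_lt hRR
  set ω : ℂ → ℂ := fun z => ∏ a ∈ A, bl R' a z ^ m a with hω
  have hωan : ∀ z ∈ closedBall (0 : ℂ) R', AnalyticAt ℂ ω z := by
    intro z hz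
    rw [mem_closedBall_zero_iff] at hz
    exact Finset.analyticAt_fun_prod A fun a ha => (bl_an (hAn a ha) hz).pow _
  have hzero : ∀ b ∈ closedBall (0 : ℂ) R', ω b = 0 →
      ∃ C : ℝ, ∀ᶠ z in 𝓝 b, nrm f N S z ≤ C * ‖ω z‖ ^ 2 := by
    intro b hb hωb
    rw [mem_closedBall_zero_iff] at hb
    obtain ⟨a, haA, ha⟩ := Finset.prod_eq_zero_iff.1 hωb
    have ha' : bl R' a b = 0 := eq_zero_of_pow_eq_zero ha
    have hab : b = a := bl_eq_zero (hAn a haA) hb ha'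
    subst hab
    obtain ⟨C, hC⟩ := hm b haA
    set ρ : ℂ → ℂ := fun z => (((R' : ℂ) ^ 2 - conj b * z) / R') ^ m b /
      ∏ a ∈ A.erase b, bl R' a z ^ m a with hρ
    have hrest : ∏ a ∈ A.erase b, bl R' a b ^ m a ≠ 0 := by
      rw [Finset.prod_ne_zero_iff]
      intro a ha
      obtain ⟨h1, h2⟩ := Finset.mem_erase.1 ha
      exact pow_ne_zero _ fun h => h1 (bl_eq_zero (hAn a h2) hb h).symm
    have hrc : ContinuousAt (fun z => ∏ a ∈ A.erase b, bl R' a z ^ m a) b :=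
      (Finset.analyticAt_fun_prod (A.erase b) fun a ha =>
        (bl_an (hAn a (Finset.mem_of_mem_erase ha)) hb).pow _).continuousAt
    have hρc : ContinuousAt ρ b := by
      have h1 : ContinuousAt (fun z : ℂ => (((R' : ℂ) ^ 2 - conj b * z) / R') ^ m b) b := by
        fun_prop
      exact h1.div hrc hrest
    have hnear : ∀ᶠ z in 𝓝 b, ‖ρ z‖ < ‖ρ b‖ + 1 :=
      hρc.norm.eventually (gt_mem_nhds (by linarith))
    have hden : ∀ᶠ z in 𝓝 b, (R' : ℂ) ^ 2 - conj b * z ≠ 0 := by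
      have h1 : ContinuousAt (fun z : ℂ => (R' : ℂ) ^ 2 - conj b * z) b := by fun_prop
      exact h1.eventually_ne (bl_den (hAn b haA) hb)
    refine ⟨|C| * (‖ρ b‖ + 1) ^ 2, ?_⟩
    filter_upwards [hC, hnear, hden, hrc.eventually_ne hrest] with z k1 k2 k3 k4
    have hR'c : (R' : ℂ) ≠ 0 := by exact_mod_cast hR'0.ne'
    have e1 : (z - b) ^ m b = ω z * ρ z := by
      rw [hω, hρ]
      simp only
      rw [← Finset.mul_prod_erase A _ haA, mul_assoc, mul_div_assoc', mul_comm (∏ a ∈ A.erase b, _),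
        mul_div_cancel_right₀ _ k4, ← mul_pow]
      congr 1
      unfold bl
      set D : ℂ := (R' : ℂ) ^ 2 - conj b * z with hD
      field_simp
    have e2 : ‖(z - b) ^ m b‖ ^ 2 ≤ ‖ω z‖ ^ 2 * (‖ρ b‖ + 1) ^ 2 := by
      rw [e1, norm_mul, mul_pow]
      have := pow_le_pow_left₀ (norm_nonneg (ρ z)) k2.le 2
      exact mul_le_mul_of_nonneg_left this (by positivity)
    calc nrm f N S z ≤ C * ‖(z - b) ^ m b‖ ^ 2 := k1
      _ ≤ |C| * ‖(z - b) ^ m b‖ ^ 2 := mul_le_mul_of_nonneg_right (le_abs_self C) (by positivity)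
      _ ≤ |C| * (‖ω z‖ ^ 2 * (‖ρ b‖ + 1) ^ 2) := mul_le_mul_of_nonneg_left e2 (abs_nonneg _)
      _ = _ := by ring
  obtain ⟨q, hq, hle⟩ := hS.key hf hR'0 hR hB hκ hωan hzero (mem_closedBall_self hR'0.le)
  have hqn : ‖q‖ = R' := mem_sphere_zero_iff_norm.1 hq
  have hq1 : q ∈ ball (0 : ℂ) 1 := mem_ball_zero_iff.2 (hqn.trans_lt hR)
  have hωq : ‖ω q‖ = 1 := by
    rw [hω]
    simp only [norm_prod, norm_pow]
    exact Finset.prod_eq_one fun a ha => by rw [bl_sphere (hAn a ha) hqn, one_pow]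
  have hω0 : ω 0 ≠ 0 := by
    intro h
    obtain ⟨C, hC⟩ := hzero 0 (mem_closedBall_self hR'0.le) h
    have h1 := hC.self_of_nhds
    rw [h, norm_zero] at h1
    have : C * 0 ^ 2 = 0 := by ring
    linarith
  have hω0' : ‖ω 0‖ * (R' / R) ^ (∑ a ∈ A, m a) ≤ 1 := by
    rw [hω]
    simp only [norm_prod, norm_pow]
    rw [← Finset.prod_pow_eq_pow_sum, ← Finset.prod_mul_distrib]
    refine Finset.prod_le_one (fun a _ => by positivity) fun a ha => ?_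
    rw [← mul_pow, bl_zero hR'0]
    refine pow_le_one₀ (by positivity) ?_
    have := mem_closedBall_zero_iff.1 (hA a ha)
    have e : ‖a‖ / R' * (R' / R) = ‖a‖ / R := by field_simp
    rw [e]
    exact div_le_one_of_le₀ this hR0.le
  have hωpos : 0 < ‖ω 0‖ := norm_pos_iff.2 hω0
  rw [hωq, div_one, norm_zero] at hle
  have e0 : Real.exp (κ * 0 ^ 2) = 1 := by simp
  rw [e0, mul_one, div_le_iff₀ hωpos] at hle
  have e2 : Real.exp (κ * ‖q‖ ^ 2) ≤ Real.exp κ := by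
    apply Real.exp_le_exp.2
    have : ‖q‖ ^ 2 ≤ 1 := by
      rw [hqn]
      nlinarith
    nlinarith
  have e3 : nrm f N S q * Real.exp (κ * ‖q‖ ^ 2) ≤ C₀ * Real.exp κ := by
    have h1 := hC₀ q hq1
    exact mul_le_mul h1 e2 (Real.exp_pos _).le ((nrm_nonneg q).trans h1)
  have e4 : 0 ≤ nrm f N S q * Real.exp (κ * ‖q‖ ^ 2) := by
    have := nrm_nonneg (f := f) (N := N) (S := S) q
    positivity
  have hP : 0 < (R' / R) ^ (∑ a ∈ A, m a) := by positivity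
  calc nrm f N S 0 * (R' / R) ^ (∑ a ∈ A, m a)
      ≤ (nrm f N S q * Real.exp (κ * ‖q‖ ^ 2) * ‖ω 0‖) * (R' / R) ^ (∑ a ∈ A, m a) :=
        mul_le_mul_of_nonneg_right hle hP.le
    _ = nrm f N S q * Real.exp (κ * ‖q‖ ^ 2) * (‖ω 0‖ * (R' / R) ^ (∑ a ∈ A, m a)) := by ring
    _ ≤ nrm f N S q * Real.exp (κ * ‖q‖ ^ 2) * 1 := mul_le_mul_of_nonneg_left hω0' e4
    _ ≤ _ := by rw [mul_one]; exact e3

/-- division of holomorphic functions -/
theorem div_an {u v : ℂ → ℂ} (hu : AnalyticAt ℂ u z) (hv : AnalyticAt ℂ v z)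
    (hv0 : ¬ ∀ᶠ w in 𝓝 z, v w = 0) {C : ℝ} (h : ∀ᶠ w in 𝓝 z, ‖u w‖ ≤ C * ‖v w‖) :
    ∃ q : ℂ → ℂ, AnalyticAt ℂ q z ∧ ∀ᶠ w in 𝓝 z, u w = q w * v w := by
  by_cases hu0 : ∀ᶠ w in 𝓝 z, u w = 0
  · refine ⟨fun _ => 0, analyticAt_const, ?_⟩
    filter_upwards [hu0] with w hw
    rw [hw, zero_mul]
  obtain ⟨m, b, hb, hb0, hbe⟩ := (AnalyticAt.exists_eventuallyEq_pow_smul_nonzero_iff hv).2 hv0
  obtain ⟨k, d, hd, hd0, hde⟩ := (AnalyticAt.exists_eventuallyEq_pow_smul_nonzero_iff hu).2 hu0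
  have hmk : m ≤ k := by
    by_contra hlt
    push Not at hlt
    have h1 : ∀ᶠ w in 𝓝[≠] z, ‖d w‖ ≤ C * ‖(w - z) ^ (m - k) * b w‖ := by
      filter_upwards [nhdsWithin_le_nhds h, nhdsWithin_le_nhds hbe, nhdsWithin_le_nhds hde,
        self_mem_nhdsWithin] with w k1 k2 k3 k4
      have k5 : 0 < ‖(w - z) ^ k‖ := norm_pos_iff.2 (pow_ne_zero _ (sub_ne_zero.2 k4))
      rw [k2, k3, smul_eq_mul, smul_eq_mul] at k1
      have e : (w - z) ^ m = (w - z) ^ k * (w - z) ^ (m - k) := by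
        rw [← pow_add]
        congr 1
        omega
      rw [e, mul_assoc, norm_mul, norm_mul _ ((w - z) ^ (m - k) * b w)] at k1
      have k6 : ‖(w - z) ^ k‖ * ‖d w‖ ≤ ‖(w - z) ^ k‖ * (C * ‖(w - z) ^ (m - k) * b w‖) := by
        linarith
      exact le_of_mul_le_mul_left k6 k5
    have h2 : Tendsto (fun w => ‖d w‖) (𝓝[≠] z) (𝓝 ‖d z‖) := hd.continuousAt.norm.continuousWithinAt
    have h3 : Tendsto (fun w => C * ‖(w - z) ^ (m - k) * b w‖) (𝓝[≠] z)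
        (𝓝 (C * ‖(z - z) ^ (m - k) * b z‖)) := by
      have h4 : ContinuousAt (fun w => (w - z) ^ (m - k)) z := by fun_prop
      exact (continuousAt_const.mul (h4.mul hb.continuousAt).norm).continuousWithinAt
    have h5 := le_of_tendsto_of_tendsto h2 h3 h1
    rw [sub_self, zero_pow (by omega), zero_mul, norm_zero, mul_zero] at h5
    exact hd0 (norm_le_zero_iff.1 h5)
  refine ⟨fun w => (w - z) ^ (k - m) * d w / b w, ?_, ?_⟩
  · exact (((analyticAt_id.sub analyticAt_const).pow _).mul hd).div hb hb0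
  · filter_upwards [hbe, hde, hb.continuousAt.eventually_ne hb0] with w k2 k3 k4
    rw [k2, k3, smul_eq_mul, smul_eq_mul]
    have e : (w - z) ^ k = (w - z) ^ (k - m) * (w - z) ^ m := by
      rw [← pow_add]
      congr 1
      omega
    rw [e]
    field_simp

end Pool.Agent.H33
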