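import Pool.Agent.H33.QC

/-! Sections of powers of the hyperplane bundle with prescribed zeros. -/

set_option autoImplicit false

open Filter Topology Metric Set LinearAlgebra.Projectivization

namespace Pool.Agent.H33

open Pool.Agent.Y190.OP Pool.Agent.W602.GT Pool.Agent.N155 Pool.Agent.N155.BB

variable {n : ℕ} {f f' : ℂ → ℙ ℂ (Fin (n + 1) → ℂ)} {z : ℂ} {g g' : ℂ → Fin (n + 1) → ℂ} {N M : ℕ}
  {S T : ℂ → ℂ} {s t : ℂ → ℂ}

/-- the order of vanishing -/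
theorem Sec.order (hf : HolD f) (hS : Sec f N S) (h : ∃ z ∈ ball (0 : ℂ) 1, S z ≠ 0)
    (hz : z ∈ ball (0 : ℂ) 1) : ∃ (m : ℕ) (c C : ℝ), 0 < c ∧ 0 ≤ C ∧ (S z = 0 → m ≠ 0) ∧
      ∀ᶠ w in 𝓝 z, c * ‖(w - z) ^ m‖ ^ 2 ≤ nrm f N S w ∧ nrm f N S w ≤ C * ‖(w - z) ^ m‖ ^ 2 := by
  obtain ⟨g, hg⟩ := hf z hz
  obtain ⟨s, hs⟩ := hS z hz g hg
  have hs0 : ¬ ∀ᶠ w in 𝓝 z, s w = 0 := by
    intro h1
    have h2 : ∀ᶠ w in 𝓝[≠] z, s w = 0 ∧ (∀ c : ℂ, (f w).rep = c • g w → S w = c ^ N * s w) ∧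
        ∃ c : ℂ, c ≠ 0 ∧ (f w).rep = c • g w :=
      nhdsWithin_le_nhds (h1.and (hs.2.and hg.2.2))
    obtain ⟨w, k1, k2, k3, c, hc, k4⟩ := ((hS.isolated hf h hz).and h2).exists
    exact k1 (by rw [k3 c k4, k2, mul_zero])
  obtain ⟨m, b, hb, hb0, hbe⟩ := (AnalyticAt.exists_eventuallyEq_pow_smul_nonzero_iff hs.1).2 hs0
  set ρ : ℂ → ℝ := fun w => ‖b w‖ ^ 2 / sqn (g w) ^ N with hρ
  have hρc : ContinuousAt ρ z := by
    have h1 : ContinuousAt (fun w => sqn (g w)) z :=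
      ContinuousAt.comp (g := sqn) (f := g) sqn_cont.continuousAt hg.1.continuousAt
    exact (hb.continuousAt.norm.pow 2).div (h1.pow N) (pow_ne_zero _ (sqn_pos hg.2.1).ne')
  have hρ0 : 0 < ρ z := by
    have h1 := norm_pos_iff.2 hb0
    have h2 := sqn_pos hg.2.1
    rw [hρ]
    positivity
  refine ⟨m, ρ z / 2, ρ z + 1, by positivity, by positivity, ?_, ?_⟩
  · rintro hSz rfl
    obtain ⟨c, hc, k1, k2⟩ := hs.val hg
    have k3 := hbe.self_of_nhds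
    rw [pow_zero, one_smul] at k3
    rw [k2, k3] at hSz
    exact (mul_ne_zero (pow_ne_zero _ hc) hb0) hSz
  · filter_upwards [hs.nrm hg, hbe, hρc.eventually (lt_mem_nhds (show ρ z / 2 < ρ z by linarith)),
      hρc.eventually (gt_mem_nhds (show ρ z < ρ z + 1 by linarith))] with w k1 k2 k3 k4
    have e : nrm f N S w = ρ w * ‖(w - z) ^ m‖ ^ 2 := by
      rw [k1, k2, smul_eq_mul, norm_mul, hρ]
      ring
    rw [e]
    exact ⟨mul_le_mul_of_nonneg_right k3.le (by positivity),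
      mul_le_mul_of_nonneg_right k4.le (by positivity)⟩

theorem nrm_mul (z : ℂ) : nrm f (N + M) (fun z => S z * T z) z = nrm f N S z * nrm f M T z := by
  unfold nrm
  rw [norm_mul, mul_pow, pow_add]
  exact (div_mul_div_comm _ _ _ _).symm

theorem nrm_pow (k : ℕ) (z : ℂ) : nrm f (k * N) (fun z => S z ^ k) z = nrm f N S z ^ k := by
  unfold nrm
  rw [norm_pow, div_pow, ← pow_mul, ← pow_mul, ← pow_mul, mul_comm k 2, mul_comm k N]

theorem nrm_prod {ι : Type} (A : Finset ι) {N : ι → ℕ} {S : ι → ℂ → ℂ} (z : ℂ) :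
    nrm f (∑ i ∈ A, N i) (fun z => ∏ i ∈ A, S i z) z = ∏ i ∈ A, nrm f (N i) (S i) z := by
  unfold nrm
  rw [Finset.prod_div_distrib, norm_prod, Finset.prod_pow, Finset.prod_pow_eq_pow_sum]

/-- the coordinates -/
noncomputable def co (f : ℂ → ℙ ℂ (Fin (n + 1) → ℂ)) (i : Fin (n + 1)) (z : ℂ) : ℂ := (f z).rep i

theorem sec_co (i : Fin (n + 1)) : Sec f 1 (co f i) := Sec.coord i

theorem nrm_co_le (i : Fin (n + 1)) (z : ℂ) : nrm f 1 (co f i) z ≤ 1 := by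
  unfold nrm
  rw [pow_one]
  refine div_le_one_of_le₀ ?_ (sqn_nonneg _)
  exact Finset.single_le_sum (f := fun k => ‖(f z).rep k‖ ^ 2) (fun k _ => sq_nonneg _)
    (Finset.mem_univ i)

/-- a section which vanishes at a given point -/
theorem exists_factor {a : ℂ} (hne : ∃ b ∈ ball (0 : ℂ) 1, f b ≠ f a) :
    ∃ L : ℂ → ℂ, Sec f 1 L ∧ (∀ z w, f z = f w → L z = L w) ∧ L a = 0 ∧
      ∃ z ∈ ball (0 : ℂ) 1, L z ≠ 0 := by
  obtain ⟨b, hb, hne⟩ := hne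
  have h1 : ¬ Prop2 (f a).rep (f b).rep := by
    intro h
    apply hne
    have := Prop2.mk (Projectivization.rep_nonzero (f a)) (Projectivization.rep_nonzero (f b)) h
    rw [Projectivization.mk_rep, Projectivization.mk_rep] at this
    exact this.symm
  unfold Prop2 at h1
  push Not at h1
  obtain ⟨i, j, hij⟩ := h1
  refine ⟨fun z => (f a).rep i * co f j z + -(f a).rep j * co f i z,
    ((sec_co j).const_mul _).add ((sec_co i).const_mul _), fun z w h => ?_, ?_, b, hb, ?_⟩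
  · simp only [co, h]
  · simp only [co]
    ring
  · intro h
    apply hij
    simp only [co] at h
    linear_combination h

/-- a section with prescribed zeros -/
theorem exists_sec (hf : HolD f) (hne : ∀ a ∈ ball (0 : ℂ) 1, ∃ b ∈ ball (0 : ℂ) 1, f b ≠ f a)
    {i : Fin (n + 1)} (hi : (f 0).rep i ≠ 0) (A : Finset ℂ) (hA : ∀ a ∈ A, a ∈ ball (0 : ℂ) 1)
    (m : ℂ → ℕ) {E : ℕ} (hE : ∑ a ∈ A, m a ≤ E) :
    ∃ S : ℂ → ℂ, Sec f E S ∧ (∀ z w, f z = f w → S z = S w) ∧ (∃ z ∈ ball (0 : ℂ) 1, S z ≠ 0) ∧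
      ∀ a ∈ A, ∃ C : ℝ, ∀ᶠ w in 𝓝 a, nrm f E S w ≤ C * ‖(w - a) ^ m a‖ ^ 2 := by
  classical
  have h1 : ∀ a ∈ A, ∃ L : ℂ → ℂ, Sec f 1 L ∧ (∀ z w, f z = f w → L z = L w) ∧ L a = 0 ∧
      ∃ z ∈ ball (0 : ℂ) 1, L z ≠ 0 := fun a ha => exists_factor (hne a (hA a ha))
  choose! L hL1 hL2 hL3 hL4 using h1
  set k := E - ∑ a ∈ A, m a with hk
  have hdeg : ∑ a ∈ A, m a * 1 + k * 1 = E := by
    simp only [mul_one]
    omega
  set S : ℂ → ℂ := fun z => (∏ a ∈ A, L a z ^ m a) * co f i z ^ k with hS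
  have hSec : Sec f E S := by
    rw [← hdeg]
    exact (Sec.prod A fun a ha => (hL1 a ha).pow (m a)).mul ((sec_co i).pow k)
  have h0 : (0 : ℂ) ∈ ball (0 : ℂ) 1 := mem_ball_self one_pos
  have hnrm : ∀ z, nrm f E S z = (∏ a ∈ A, nrm f 1 (L a) z ^ m a) * nrm f 1 (co f i) z ^ k := by
    intro z
    rw [← hdeg, hS, nrm_mul, nrm_pow, nrm_prod]
    simp only [nrm_pow]
  refine ⟨S, hSec, fun z w h => ?_, ?_, fun a ha => ?_⟩
  · rw [hS]
    simp only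
    have e1 : co f i z = co f i w := by
      unfold co
      rw [h]
    rw [e1, Finset.prod_congr rfl fun a ha => by rw [hL2 a ha z w h]]
  · have k1 : ∀ᶠ w in 𝓝[≠] (0 : ℂ), ∀ a ∈ A, L a w ≠ 0 :=
      (Finset.eventually_all A).2 fun a ha => (hL1 a ha).isolated hf (hL4 a ha) h0
    have k2 := (sec_co i).isolated hf ⟨0, h0, hi⟩ h0
    have k3 : ∀ᶠ w in 𝓝[≠] (0 : ℂ), w ∈ ball (0 : ℂ) 1 :=
      nhdsWithin_le_nhds (isOpen_ball.mem_nhds h0)
    obtain ⟨w, hw1, hw2, hw3⟩ := (k1.and (k2.and k3)).exists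
    exact ⟨w, hw3, mul_ne_zero (Finset.prod_ne_zero_iff.2 fun a ha => pow_ne_zero _ (hw1 a ha))
      (pow_ne_zero _ hw2)⟩
  · obtain ⟨m', c, C, hc, hC, hm', hev⟩ := (hL1 a ha).order hf (hL4 a ha) (hA a ha)
    have hm1 := hm' (hL3 a ha)
    set ρ : ℂ → ℝ := fun w => (∏ b ∈ A.erase a, nrm f 1 (L b) w ^ m b) * nrm f 1 (co f i) w ^ k
      with hρ
    have hρc : ContinuousAt ρ a := by
      refine ContinuousAt.mul ?_ (((sec_co i).nrm_cont hf (hA a ha)).pow k)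
      exact tendsto_finsetProd _ fun b hb =>
        ((hL1 b (Finset.mem_of_mem_erase hb)).nrm_cont hf (hA a ha)).pow (m b)
    have hρ0 : ∀ w, 0 ≤ ρ w := fun w =>
      mul_nonneg (Finset.prod_nonneg fun b _ => pow_nonneg (nrm_nonneg w) _)
        (pow_nonneg (nrm_nonneg w) _)
    refine ⟨C ^ m a * (ρ a + 1), ?_⟩
    have hb1 : ∀ᶠ w in 𝓝 a, w ∈ ball a 1 := isOpen_ball.mem_nhds (mem_ball_self one_pos)
    filter_upwards [hev, hρc.eventually (gt_mem_nhds (show ρ a < ρ a + 1 by linarith)), hb1]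
      with w k1 k2 k3
    rw [mem_ball, dist_eq_norm] at k3
    have e1 : nrm f E S w = nrm f 1 (L a) w ^ m a * ρ w := by
      rw [hnrm, ← Finset.mul_prod_erase A _ ha, hρ]
      ring
    have e2 : ‖(w - a) ^ m'‖ ^ 2 ≤ ‖w - a‖ ^ 2 := by
      rw [norm_pow]
      refine pow_le_pow_left₀ (by positivity) ?_ 2
      exact pow_le_of_le_one (norm_nonneg _) k3.le hm1
    have e3 : nrm f 1 (L a) w ≤ C * ‖w - a‖ ^ 2 := k1.2.trans (mul_le_mul_of_nonneg_left e2 hC)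
    have e4 := pow_le_pow_left₀ (nrm_nonneg w) e3 (m a)
    rw [e1, norm_pow]
    calc nrm f 1 (L a) w ^ m a * ρ w ≤ (C * ‖w - a‖ ^ 2) ^ m a * (ρ a + 1) :=
          mul_le_mul e4 k2.le (hρ0 w) (by positivity)
      _ = _ := by
        rw [mul_pow, ← pow_mul, ← pow_mul, mul_comm 2 (m a)]
        ring

/-- extension of sections -/
theorem ext_sec {Q : ℂ → ℂ} (h : ∀ z ∈ ball (0 : ℂ) 1, ∃ (g : ℂ → Fin (n + 1) → ℂ)
    (s : ℂ → ℂ), Grm f z g ∧ AnalyticAt ℂ s z ∧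
      ∀ᶠ w in 𝓝[≠] z, ∀ c : ℂ, (f w).rep = c • g w → Q w = c ^ N * s w) :
    ∃ T, Sec f N T ∧ (∀ z ∈ ball (0 : ℂ) 1, ∀ᶠ w in 𝓝[≠] z, T w = Q w) ∧
      ∀ z ∉ ball (0 : ℂ) 1, T z = 0 := by
  classical
  choose! g s hg hs hQ using h
  have hc : ∀ z ∈ ball (0 : ℂ) 1, ∃ c : ℂ, c ≠ 0 ∧ (f z).rep = c • g z z := fun z hz =>
    (hg z hz).2.2.self_of_nhds
  choose! c hc0 hce using hc
  set T : ℂ → ℂ := fun z => if z ∈ ball (0 : ℂ) 1 then c z ^ N * s z z else 0 with hT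
  have hTz : ∀ z ∈ ball (0 : ℂ) 1, ∀ b : ℂ, (f z).rep = b • g z z → T z = b ^ N * s z z := by
    intro z hz b hb
    have h1 : (c z - b) • g z z = 0 := by
      rw [sub_smul, ← hce z hz, ← hb, sub_self]
    have h2 : c z - b = 0 := (smul_eq_zero.1 h1).resolve_right (hg z hz).2.1
    rw [hT]
    simp only [if_pos hz]
    rw [sub_eq_zero.1 h2]
  have hev : ∀ z ∈ ball (0 : ℂ) 1, ∀ᶠ w in 𝓝 z, ∀ b : ℂ, (f w).rep = b • g z w →
      T w = b ^ N * s z w := by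
    intro z hz
    have a1 : ∀ᶠ w in 𝓝 z, w ∈ ball (0 : ℂ) 1 := isOpen_ball.mem_nhds hz
    have a2 : ∀ᶠ w in 𝓝 z, w ≠ z → ∀ b : ℂ, (f w).rep = b • g z w → Q w = b ^ N * s z w :=
      eventually_nhdsWithin_iff.1 (hQ z hz)
    filter_upwards [a1, (hg z hz).1.eventually_analyticAt, (hg z hz).ne,
      (hg z hz).2.2.eventually_nhds, (hs z hz).eventually_analyticAt, a2.eventually_nhds]
      with w b1 b2 b3 b4 b5 b6 b hb
    by_cases hwz : w = z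
    · rw [hwz] at hb ⊢
      exact hTz z hz b hb
    have hG : Grm f w (g z) := ⟨b2, b3, b4⟩
    obtain ⟨l, hl, hl0, hle⟩ := (hg w b1).ratio hG
    have c1 : ∀ᶠ x in 𝓝[≠] w, s z x = l x ^ N * s w x := by
      have d1 : ∀ᶠ x in 𝓝 w, x ≠ z := isOpen_ne.mem_nhds hwz
      filter_upwards [nhdsWithin_le_nhds b6, nhdsWithin_le_nhds d1, nhdsWithin_le_nhds hle,
        hQ w b1, nhdsWithin_le_nhds b4] with x e1 e2 e3 e4 ⟨c', hc', e5⟩
      have f1 := e1 e2 c' e5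
      rw [e3, smul_smul] at e5
      have f2 := e4 _ e5
      rw [f1, mul_pow, mul_assoc] at f2
      exact mul_left_cancel₀ (pow_ne_zero _ hc') f2
    have c2 : s z w = l w ^ N * s w w := by
      have d1 : Tendsto (s z) (𝓝[≠] w) (𝓝 (s z w)) := b5.continuousAt.continuousWithinAt
      have d2 : Tendsto (fun x => l x ^ N * s w x) (𝓝[≠] w) (𝓝 (l w ^ N * s w w)) :=
        ((hl.continuousAt.pow N).mul (hs w b1).continuousAt).continuousWithinAt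
      exact tendsto_nhds_unique d1 (d2.congr' (c1.mono fun x hx => hx.symm))
    rw [hle.self_of_nhds, smul_smul] at hb
    rw [hTz w b1 _ hb, c2, mul_pow, mul_assoc]
  refine ⟨T, Sec.of fun z hz => ⟨g z, s z, hg z hz, hs z hz, hev z hz⟩, fun z hz => ?_,
    fun z hz => ?_⟩
  · filter_upwards [nhdsWithin_le_nhds (hev z hz), hQ z hz, nhdsWithin_le_nhds (hg z hz).2.2]
      with w k1 k2 ⟨b, hb, k3⟩
    rw [k1 b k3, k2 b k3]
  · rw [hT]
    simp only [if_neg hz]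

end Pool.Agent.H33
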