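import Pool.Agent.H33.ODefs

/-! Rational maps with finite fibres. -/

set_option autoImplicit false

open LinearAlgebra.Projectivization MvPolynomial

namespace Pool.Agent.H33

open Pool.Agent.W602.GT Pool.Agent.N155.BB

variable {m n : ℕ} {ι' κ' : Type}

/-- The rational map given by the forms `P` is defined at the points of the projective set `{G = 0}` in
`ℙ ^ m` outside the closed subset `{H = 0}`, and on the complement of `{H = 0}` in `{G = 0}` its fibres
are finite. (If `P` is generically finite, then there is such a proper closed subset.) -/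
structure FiniteOff (G : ι' → MvPolynomial (Fin (m + 1)) ℂ)
    (P : Fin (n + 1) → MvPolynomial (Fin (m + 1)) ℂ) (H : κ' → MvPolynomial (Fin (m + 1)) ℂ) :
    Prop where
  defined : ∀ y ∈ Cone G, (∃ k, eval y (H k) ≠ 0) → ratVal P y ≠ 0
  fib : ∀ x : Fin (n + 1) → ℂ, {q : ℙ ℂ (Fin (m + 1) → ℂ) | q.rep ∈ Cone G ∧
    (∃ k, eval q.rep (H k) ≠ 0) ∧ ∃ c : ℂ, ratVal P q.rep = c • x}.Finite

end Pool.Agent.H33
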