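import Pool.Agent.H33.QD

/-! Representation of maps by sections for a fixed reference map. -/

set_option autoImplicit false

open Filter Topology Metric Set LinearAlgebra.Projectivization

namespace Pool.Agent.H33

open Pool.Agent.Y190.OP Pool.Agent.W602.GT Pool.Agent.N155 Pool.Agent.N155.BB

variable {n : ℕ} {f f' f₀ : ℂ → ℙ ℂ (Fin (n + 1) → ℂ)} {z : ℂ} {g g' : ℂ → Fin (n + 1) → ℂ} {N M : ℕ}
  {S T : ℂ → ℂ} {s t : ℂ → ℂ} {𝒢 : Set (ℂ → ℂ)} {R : ℝ}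

/-- maps of the disc, with a compact fundamental set -/
structure Grp (𝒢 : Set (ℂ → ℂ)) (R : ℝ) : Prop where
  diff : ∀ γ ∈ 𝒢, DifferentiableOn ℂ γ (ball 0 1)
  maps : ∀ γ ∈ 𝒢, MapsTo γ (ball 0 1) (ball 0 1)
  inj : ∀ γ ∈ 𝒢, InjOn γ (ball 0 1)
  cov : ∀ z ∈ ball (0 : ℂ) 1, ∃ γ ∈ 𝒢, γ z ∈ closedBall (0 : ℂ) R

/-- invariant functions -/
def InvG (𝒢 : Set (ℂ → ℂ)) {α : Type} (f : ℂ → α) : Prop :=
  ∀ γ ∈ 𝒢, ∀ z ∈ ball (0 : ℂ) 1, f (γ z) = f z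

theorem Grp.punctured (hG : Grp 𝒢 R) {γ : ℂ → ℂ} (hγ : γ ∈ 𝒢) (hz : z ∈ ball (0 : ℂ) 1) :
    Tendsto γ (𝓝[≠] z) (𝓝[≠] (γ z)) := by
  have hc : ContinuousAt γ z := ((hG.diff γ hγ).differentiableAt (isOpen_ball.mem_nhds hz)).continuousAt
  refine tendsto_nhdsWithin_iff.2 ⟨hc.continuousWithinAt, ?_⟩
  filter_upwards [self_mem_nhdsWithin, nhdsWithin_le_nhds (isOpen_ball.mem_nhds hz)] with w h1 h2 h3
  exact h1 (hG.inj γ hγ h2 hz h3)

theorem nrm_congr {w : ℂ} (h1 : f z = f w) (h2 : S z = S w) : nrm f N S z = nrm f N S w := by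
  unfold nrm
  rw [h1, h2]

/-- **Representation.** -/
theorem represent (hG : Grp 𝒢 R) (hR : R < 1) (hf₀ : HolD f₀) (hf : HolD f) (hi₀ : InvG 𝒢 f₀)
    (hi : InvG 𝒢 f)
    (hne : ∀ a ∈ ball (0 : ℂ) 1, ∃ b ∈ ball (0 : ℂ) 1, f₀ b ≠ f₀ a) {i : Fin (n + 1)}
    (h0 : (f₀ 0).rep i ≠ 0) (h0' : (f 0).rep i ≠ 0) {E : ℕ}
    (hE : ∀ (A : Finset ℂ) (m : ℂ → ℕ), (∀ a ∈ A, a ∈ closedBall (0 : ℂ) R) →
      (∀ a ∈ A, ∃ C : ℝ, ∀ᶠ z in 𝓝 a, nrm f 1 (co f i) z ≤ C * ‖(z - a) ^ m a‖ ^ 2) →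
      ∑ a ∈ A, m a ≤ E) :
    ∃ T : Fin (n + 1) → ℂ → ℂ, (∀ k, Sec f₀ E (T k)) ∧ (∀ k, InvG 𝒢 (T k)) ∧
      (∀ k, ∀ z ∉ ball (0 : ℂ) 1, T k z = 0) ∧ (∃ z ∈ ball (0 : ℂ) 1, T i z ≠ 0) ∧
      ∀ k, ∀ z ∈ ball (0 : ℂ) 1, ∀ᶠ w in 𝓝[≠] z,
        (f w).rep i * T k w = (f w).rep k * T i w := by
  classical
  have hb0 : (0 : ℂ) ∈ ball (0 : ℂ) 1 := mem_ball_self one_pos
  have hsub : closedBall (0 : ℂ) R ⊆ ball 0 1 := closedBall_subset_ball hR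
  set Y := co f i with hY
  have hSY : Sec f 1 Y := sec_co i
  have nzY : ∃ z ∈ ball (0 : ℂ) 1, Y z ≠ 0 := ⟨0, hb0, h0'⟩
  have hord := fun (a : ℂ) (ha : a ∈ ball (0 : ℂ) 1) => hSY.order hf nzY ha
  choose! m c C hc hC hm hmC using hord
  set Z : Set ℂ := {a | a ∈ closedBall (0 : ℂ) R ∧ Y a = 0} with hZ
  have hZsub : ∀ a ∈ Z, a ∈ ball (0 : ℂ) 1 := fun a ha => hsub ha.1
  have hZE : ∀ A : Finset ℂ, (∀ a ∈ A, a ∈ Z) → ∑ a ∈ A, m a ≤ E := fun A hA =>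
    hE A m (fun a ha => (hA a ha).1) fun a ha => ⟨C a, (hmC a (hZsub a (hA a ha))).mono
      fun w hw => hw.2⟩
  have hZfin : Z.Finite := by
    by_contra hinf
    obtain ⟨A, hA, hcard⟩ := Set.Infinite.exists_subset_card_eq hinf (E + 1)
    have h1 := hZE A fun a ha => hA ha
    have h2 : ∑ a ∈ A, 1 ≤ ∑ a ∈ A, m a := Finset.sum_le_sum fun a ha =>
      Nat.one_le_iff_ne_zero.2 (hm a (hZsub a (hA ha)) (hA ha).2)
    rw [Finset.sum_const, hcard, smul_eq_mul, mul_one] at h2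
    omega
  set A := hZfin.toFinset with hA
  have hAZ : ∀ a, a ∈ A ↔ a ∈ Z := fun a => hZfin.mem_toFinset
  obtain ⟨S, hS, hSi, hS0, hSz⟩ := exists_sec hf₀ hne h0 A (fun a ha => hZsub a ((hAZ a).1 ha)) m
    (hZE A fun a ha => (hAZ a).1 ha)
  -- comparison
  have hcmp0 : ∀ a ∈ closedBall (0 : ℂ) R, ∃ C' : ℝ, ∀ᶠ w in 𝓝 a,
      nrm f₀ E S w ≤ C' * nrm f 1 Y w := by
    intro a ha
    by_cases hYa : Y a = 0
    · obtain ⟨C1, hC1⟩ := hSz a ((hAZ a).2 ⟨ha, hYa⟩)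
      have hca := hc a (hsub ha)
      refine ⟨|C1| / c a, ?_⟩
      filter_upwards [hC1, hmC a (hsub ha)] with w k1 k2
      have k3 : C1 * ‖(w - a) ^ m a‖ ^ 2 ≤ |C1| * ‖(w - a) ^ m a‖ ^ 2 :=
        mul_le_mul_of_nonneg_right (le_abs_self C1) (by positivity)
      have k4 : |C1| * (c a * ‖(w - a) ^ m a‖ ^ 2) ≤ |C1| * nrm f 1 Y w :=
        mul_le_mul_of_nonneg_left k2.1 (abs_nonneg _)
      rw [div_mul_eq_mul_div, le_div_iff₀ hca]
      have k5 := mul_le_mul_of_nonneg_right (k1.trans k3) hca.le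
      linarith
    · have hpos : 0 < nrm f 1 Y a :=
        lt_of_le_of_ne (nrm_nonneg a) fun h => hYa (nrm_eq_zero_iff.1 h.symm)
      refine ⟨(nrm f₀ E S a + 1) / (nrm f 1 Y a / 2), ?_⟩
      filter_upwards [(hSY.nrm_cont hf (hsub ha)).eventually
        (lt_mem_nhds (show nrm f 1 Y a / 2 < nrm f 1 Y a by linarith)),
        (hS.nrm_cont hf₀ (hsub ha)).eventually
        (gt_mem_nhds (show nrm f₀ E S a < nrm f₀ E S a + 1 by linarith))] with w k1 k2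
      have h1 := nrm_nonneg (f := f₀) (N := E) (S := S) a
      rw [div_mul_eq_mul_div, le_div_iff₀ (by positivity)]
      have h2 := nrm_nonneg (f := f₀) (N := E) (S := S) w
      exact mul_le_mul k2.le k1.le (by positivity) (by positivity)
  have hcmp : ∀ z ∈ ball (0 : ℂ) 1, ∃ C' : ℝ, ∀ᶠ w in 𝓝 z,
      nrm f₀ E S w ≤ C' * nrm f 1 Y w := by
    intro z hz
    obtain ⟨γ, hγ, hγz⟩ := hG.cov z hz
    obtain ⟨C', hC'⟩ := hcmp0 _ hγz
    refine ⟨C', ?_⟩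
    have hcγ : ContinuousAt γ z :=
      ((hG.diff γ hγ).differentiableAt (isOpen_ball.mem_nhds hz)).continuousAt
    filter_upwards [hcγ.eventually hC', isOpen_ball.mem_nhds hz] with w k1 k2
    have e1 := hi₀ γ hγ w k2
    have e2 := hi γ hγ w k2
    have e3 : nrm f₀ E S (γ w) = nrm f₀ E S w := nrm_congr e1 (hSi _ _ e1)
    have e4 : nrm f 1 Y (γ w) = nrm f 1 Y w := nrm_congr e2 (by
      rw [hY]
      unfold co
      rw [e2])
    rwa [e3, e4] at k1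
  -- the quotients
  have hq : ∀ k : Fin (n + 1), ∀ z ∈ ball (0 : ℂ) 1, ∃ (g : ℂ → Fin (n + 1) → ℂ) (s : ℂ → ℂ),
      Grm f₀ z g ∧ AnalyticAt ℂ s z ∧ ∀ᶠ w in 𝓝[≠] z, ∀ c : ℂ, (f₀ w).rep = c • g w →
        S w * (co f k w / Y w) = c ^ E * s w := by
    intro k z hz
    obtain ⟨g₀, hg₀⟩ := hf₀ z hz
    obtain ⟨s, hs⟩ := hS z hz g₀ hg₀
    obtain ⟨g, hg⟩ := hf z hz
    obtain ⟨C', hC'⟩ := hcmp z hz
    have hgi0 : ¬ ∀ᶠ w in 𝓝 z, g w i = 0 := by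
      intro h
      have h2 : ∀ᶠ w in 𝓝[≠] z, g w i = 0 ∧ ∃ c : ℂ, c ≠ 0 ∧ (f w).rep = c • g w :=
        nhdsWithin_le_nhds (h.and hg.2.2)
      obtain ⟨w, k1, k2, c, hc, k4⟩ := ((hSY.isolated hf nzY hz).and h2).exists
      apply k1
      rw [hY]
      unfold co
      rw [k4, Pi.smul_apply, k2, smul_zero]
    -- bound
    have hbd : ∃ C2 : ℝ, ∀ᶠ w in 𝓝 z, ‖s w‖ ≤ C2 * ‖g w i‖ := by
      set ρ : ℂ → ℝ := fun w => |C'| * (sqn (g₀ w) ^ E / sqn (g w)) with hρ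
      have c1 : ContinuousAt (fun w => sqn (g₀ w)) z :=
        ContinuousAt.comp (g := sqn) (f := g₀) sqn_cont.continuousAt hg₀.1.continuousAt
      have c2 : ContinuousAt (fun w => sqn (g w)) z :=
        ContinuousAt.comp (g := sqn) (f := g) sqn_cont.continuousAt hg.1.continuousAt
      have hρc : ContinuousAt ρ z :=
        continuousAt_const.mul ((c1.pow E).div c2 (sqn_pos hg.2.1).ne')
      refine ⟨Real.sqrt (ρ z + 1), ?_⟩
      have hρz : 0 ≤ ρ z := by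
        have h1 := sqn_nonneg (g₀ z)
        have h2 := sqn_nonneg (g z)
        rw [hρ]
        positivity
      filter_upwards [hC', hs.nrm hg₀, hg.2.2, hg₀.ne, hg.ne,
        hρc.eventually (gt_mem_nhds (show ρ z < ρ z + 1 by linarith))] with w k1 k2 ⟨c', hc', k3⟩ k4 k5 k6
      have e1 : nrm f 1 Y w = ‖g w i‖ ^ 2 / sqn (g w) ^ 1 := nrm_eq hc' k3 (by
        rw [hY]
        unfold co
        rw [k3, pow_one]
        rfl)
      have p1 := sqn_pos k4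
      have p2 := sqn_pos k5
      rw [k2, e1, pow_one, div_le_iff₀ (by positivity)] at k1
      have e2 : ‖s w‖ ^ 2 ≤ (ρ z + 1) * ‖g w i‖ ^ 2 := by
        calc ‖s w‖ ^ 2 ≤ C' * (‖g w i‖ ^ 2 / sqn (g w)) * sqn (g₀ w) ^ E := k1
          _ ≤ |C'| * (‖g w i‖ ^ 2 / sqn (g w)) * sqn (g₀ w) ^ E := by
            have := le_abs_self C'
            have h0 : 0 ≤ ‖g w i‖ ^ 2 / sqn (g w) := by positivity
            exact mul_le_mul_of_nonneg_right (mul_le_mul_of_nonneg_right this h0) (by positivity)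
          _ = ρ w * ‖g w i‖ ^ 2 := by
            rw [hρ]
            ring
          _ ≤ _ := mul_le_mul_of_nonneg_right k6.le (by positivity)
      have e3 : ‖s w‖ ^ 2 ≤ (Real.sqrt (ρ z + 1) * ‖g w i‖) ^ 2 := by
        rw [mul_pow, Real.sq_sqrt (by positivity)]
        exact e2
      exact (pow_le_pow_iff_left₀ (norm_nonneg _) (by positivity) two_ne_zero).1 e3
    obtain ⟨C2, hC2⟩ := hbd
    obtain ⟨q, hq, hqe⟩ := div_an hs.1 (hg.coord_an i) hgi0 hC2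
    refine ⟨g₀, fun w => q w * g w k, hg₀, hq.mul (hg.coord_an k), ?_⟩
    filter_upwards [hSY.isolated hf nzY hz, nhdsWithin_le_nhds hqe, nhdsWithin_le_nhds hs.2,
      nhdsWithin_le_nhds hg.2.2] with w k1 k2 k3 ⟨c', hc', k4⟩ b hb
    have e1 : Y w = c' * g w i := by
      rw [hY]
      unfold co
      rw [k4]
      rfl
    have e2 : co f k w = c' * g w k := by
      unfold co
      rw [k4]
      rfl
    have e3 : g w i ≠ 0 := by
      intro h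
      apply k1
      rw [e1, h, mul_zero]
    rw [k3 b hb, k2, e1, e2]
    field_simp
  have hT := fun k => ext_sec (hq k)
  choose T hT1 hT2 hT3 using hT
  have hTi : ∀ z ∈ ball (0 : ℂ) 1, ∀ᶠ w in 𝓝[≠] z, T i w = S w ∧ Y w ≠ 0 := by
    intro z hz
    filter_upwards [hT2 i z hz, hSY.isolated hf nzY hz] with w k1 k2
    refine ⟨?_, k2⟩
    rw [k1]
    change S w * (Y w / Y w) = S w
    rw [div_self k2, mul_one]
  refine ⟨T, hT1, fun k γ hγ z hz => ?_, hT3, ?_, fun k z hz => ?_⟩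
  · have h1 : Sec f₀ E fun w => T k (γ w) :=
      (hT1 k).comp hf₀ (hG.diff γ hγ) (hG.maps γ hγ) (hi₀ γ hγ)
    refine h1.eq_of_punctured hf₀ (hT1 k) hz ?_
    filter_upwards [(hG.punctured hγ hz).eventually (hT2 k _ (hG.maps γ hγ hz)), hT2 k z hz,
      nhdsWithin_le_nhds (isOpen_ball.mem_nhds hz)] with w k1 k2 k3
    have e1 := hi₀ γ hγ w k3
    have e2 := hi γ hγ w k3
    rw [k1, k2, hSi _ _ e1]
    congr 1
    rw [hY]
    unfold co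
    rw [e2]
  · obtain ⟨w, ⟨k1, k2⟩, k3, k4⟩ := ((hTi 0 hb0).and ((hS.isolated hf₀ hS0 hb0).and
      (show ∀ᶠ w in 𝓝[≠] (0 : ℂ), w ∈ ball (0 : ℂ) 1 from
        nhdsWithin_le_nhds (isOpen_ball.mem_nhds hb0)))).exists
    exact ⟨w, k4, by rw [k1]; exact k3⟩
  · filter_upwards [hTi z hz, hT2 k z hz] with w ⟨k1, k2⟩ k3
    rw [k1, k3]
    change Y w * (S w * (co f k w / Y w)) = co f k w * S w
    field_simp

end Pool.Agent.H33
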