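import Pool.Agent.H33.QE

/-! Maps given by sections for a fixed reference map. -/

set_option autoImplicit false

open Filter Topology Metric Set MvPolynomial LinearAlgebra.Projectivization

namespace Pool.Agent.H33

open Pool.Agent.Y190.OP Pool.Agent.W602.GT Pool.Agent.N155 Pool.Agent.N155.BB

variable {n : ℕ} {f f' f₀ : ℂ → ℙ ℂ (Fin (n + 1) → ℂ)} {z : ℂ} {g g' : ℂ → Fin (n + 1) → ℂ} {N M : ℕ}
  {𝒢 : Set (ℂ → ℂ)} {R : ℝ}

theorem proj_eq {p : ℙ ℂ (Fin (n + 1) → ℂ)} {x : Fin (n + 1) → ℂ} {c : ℂ} (hx : x ≠ 0)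
    (h : p.rep = c • x) : p = Projectivization.mk ℂ x hx := by
  rw [← Projectivization.mk_rep p, Projectivization.mk_eq_mk_iff']
  exact ⟨c, h.symm⟩

theorem eq_of_prop2 {p q : ℙ ℂ (Fin (n + 1) → ℂ)} (h : Prop2 p.rep q.rep) : p = q := by
  have := Prop2.mk (Projectivization.rep_nonzero p) (Projectivization.rep_nonzero q) h
  rwa [Projectivization.mk_rep, Projectivization.mk_rep] at this

theorem prop2_of_eq {p q : ℙ ℂ (Fin (n + 1) → ℂ)} (h : p = q) : Prop2 p.rep q.rep := by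
  rw [h]
  exact fun i j => mul_comm _ _

theorem HolD.eq_of_punctured (hf : HolD f) (hf' : HolD f') (hz : z ∈ ball (0 : ℂ) 1)
    (h : ∀ᶠ w in 𝓝[≠] z, f w = f' w) : f z = f' z := by
  obtain ⟨g, hg⟩ := hf z hz
  obtain ⟨g', hg'⟩ := hf' z hz
  have h1 : Prop2 (g z) (g' z) := by
    apply Prop2.lim hg.1.continuousAt hg'.1.continuousAt
    filter_upwards [h, nhdsWithin_le_nhds hg.2.2, nhdsWithin_le_nhds hg'.2.2]
      with w k1 ⟨c, hc, k2⟩ ⟨c', hc', k3⟩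
    have k4 : g w = (c⁻¹ * c') • g' w := by
      rw [mul_smul, ← k3, ← k1, k2, smul_smul, inv_mul_cancel₀ hc, one_smul]
    rw [k4]
    exact prop2_smul _ _
  obtain ⟨c, hc, k1⟩ := hg.2.2.self_of_nhds
  obtain ⟨c', hc', k2⟩ := hg'.2.2.self_of_nhds
  rw [proj_eq hg.2.1 k1, proj_eq hg'.2.1 k2]
  exact Prop2.mk _ _ h1

/-- the map given by sections -/
theorem ext_map {m : ℕ} {f : ℂ → ℙ ℂ (Fin (m + 1) → ℂ)} (hf : HolD f) {T : Fin (n + 1) → ℂ → ℂ} (hT : ∀ k, Sec f N (T k))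
    {i : Fin (n + 1)} (hne : ∃ z ∈ ball (0 : ℂ) 1, T i z ≠ 0) :
    ∃ h : ℂ → ℙ ℂ (Fin (n + 1) → ℂ), HolD h ∧ ∀ z ∈ ball (0 : ℂ) 1,
      ∀ᶠ w in 𝓝[≠] z, T i w ≠ 0 ∧ Prop2 (fun k => T k w) (h w).rep := by
  classical
  have hTi := fun z (hz : z ∈ ball (0 : ℂ) 1) => (hT i).isolated hf hne hz
  have hex : ∀ z ∈ ball (0 : ℂ) 1, ∃ u : ℂ → Fin (n + 1) → ℂ, AnalyticAt ℂ u z ∧ u z ≠ 0 ∧
      ∀ᶠ w in 𝓝[≠] z, T i w ≠ 0 ∧ Prop2 (fun k => T k w) (u w) := by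
    intro z hz
    obtain ⟨g, hg⟩ := hf z hz
    have h1 := fun k => hT k z hz g hg
    choose t ht using h1
    have hta : AnalyticAt ℂ (fun w => (fun k => t k w : Fin (n + 1) → ℂ)) z :=
      analyticAt_pi_iff.2 fun k => (ht k).1
    have hTe : ∀ᶠ w in 𝓝 z, ∃ c : ℂ, c ≠ 0 ∧ (fun k => T k w) = c • (fun k => t k w) := by
      filter_upwards [hg.2.2, eventually_all.2 fun k => (ht k).2] with w ⟨c, hc, k1⟩ k2
      exact ⟨c ^ N, pow_ne_zero _ hc, funext fun k => k2 k c k1⟩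
    have ht0 : ¬ ∀ᶠ w in 𝓝 z, (fun k => t k w) = 0 := by
      intro h
      have h2 : ∀ᶠ w in 𝓝[≠] z, (fun k => t k w) = 0 ∧
          ∃ c : ℂ, c ≠ 0 ∧ (fun k => T k w) = c • (fun k => t k w) :=
        nhdsWithin_le_nhds (h.and hTe)
      obtain ⟨w, k1, k2, c, hc, k4⟩ := ((hTi z hz).and h2).exists
      apply k1
      have := congrFun k4 i
      rw [k2, smul_zero] at this
      exact this
    obtain ⟨k, u, hu, hu0, hk⟩ := (AnalyticAt.exists_eventuallyEq_pow_smul_nonzero_iff hta).2 ht0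
    refine ⟨u, hu, hu0, ?_⟩
    filter_upwards [hTi z hz, nhdsWithin_le_nhds hTe, nhdsWithin_le_nhds hk] with w k1 ⟨c, hc, k2⟩ k3
    refine ⟨k1, ?_⟩
    rw [k2, k3, smul_smul]
    exact prop2_smul _ _
  choose! u hu hu0 hev using hex
  have hTne : ∀ w, T i w ≠ 0 → (fun k => T k w) ≠ 0 := fun w h h' => h (congrFun h' i)
  have hloc : ∀ z₀ ∈ ball (0 : ℂ) 1, ∀ᶠ z in 𝓝 z₀, u z₀ z ≠ 0 ∧ Prop2 (u z z) (u z₀ z) := by
    intro z₀ hz₀
    have a1 : ∀ᶠ z in 𝓝 z₀, u z₀ z ≠ 0 := (hu z₀ hz₀).continuousAt.eventually_ne (hu0 z₀ hz₀)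
    have a2 : ∀ᶠ z in 𝓝 z₀, AnalyticAt ℂ (u z₀) z := (hu z₀ hz₀).eventually_analyticAt
    have a3 : ∀ᶠ z in 𝓝 z₀, z ≠ z₀ → (T i z ≠ 0 ∧ Prop2 (fun k => T k z) (u z₀ z)) :=
      eventually_nhdsWithin_iff.1 (hev z₀ hz₀)
    have a4 : ∀ᶠ z in 𝓝 z₀, z ∈ ball (0 : ℂ) 1 := isOpen_ball.mem_nhds hz₀
    filter_upwards [a1, a2, a3.eventually_nhds, a3, a4] with z b1 b2 b3 b4 b6
    refine ⟨b1, ?_⟩
    by_cases hz : z = z₀
    · rw [hz]
      exact fun i j => mul_comm _ _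
    · apply Prop2.lim (hu z b6).continuousAt b2.continuousAt
      have b5 : ∀ᶠ w in 𝓝 z, w ≠ z₀ := isOpen_ne.mem_nhds hz
      filter_upwards [hev z b6, nhdsWithin_le_nhds b3, nhdsWithin_le_nhds b5] with w c1 c2 c3
      exact (c1.2.symm).trans (hTne w c1.1) (c2 c3).2
  set h : ℂ → ℙ ℂ (Fin (n + 1) → ℂ) := fun z =>
    if hz : z ∈ ball (0 : ℂ) 1 then Projectivization.mk ℂ (u z z) (hu0 z hz)
    else Projectivization.mk ℂ (u 0 0) (hu0 0 (mem_ball_self one_pos)) with hh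
  have hhz : ∀ z (hz : z ∈ ball (0 : ℂ) 1), h z = Projectivization.mk ℂ (u z z) (hu0 z hz) := by
    intro z hz
    rw [hh]
    simp only [dif_pos hz]
  have hrep : ∀ z ∈ ball (0 : ℂ) 1, ∃ c : ℂ, c ≠ 0 ∧ (h z).rep = c • u z z := fun z hz =>
    mk_rep (hu0 z hz) (hhz z hz)
  have hgrm : ∀ z ∈ ball (0 : ℂ) 1, Grm h z (u z) := by
    intro z hz
    refine ⟨hu z hz, hu0 z hz, ?_⟩
    filter_upwards [hloc z hz, isOpen_ball.mem_nhds hz] with w k1 k2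
    obtain ⟨c, hc, k3⟩ := hrep w k2
    obtain ⟨b, hb⟩ := k1.2.symm.smul k1.1
    have hb0 : b ≠ 0 := by
      rintro rfl
      rw [zero_smul] at hb
      exact hu0 w k2 hb
    exact ⟨c * b, mul_ne_zero hc hb0, by rw [k3, hb, smul_smul]⟩
  refine ⟨h, fun z hz => ⟨u z, hgrm z hz⟩, fun z hz => ?_⟩
  filter_upwards [hev z hz, nhdsWithin_le_nhds (hgrm z hz).2.2,
    nhdsWithin_le_nhds (hgrm z hz).ne] with w k1 ⟨c, hc, k2⟩ k3
  refine ⟨k1.1, ?_⟩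
  rw [k2]
  exact k1.2.trans k3 (prop2_smul _ _).symm

/-- the equations -/
theorem ext_cone {ι : Type} {F : ι → MvPolynomial (Fin (n + 1)) ℂ} (hF : ∀ i, IsForm (F i))
    {h : ℂ → ℙ ℂ (Fin (n + 1) → ℂ)} (hh : HolD h) {T : Fin (n + 1) → ℂ → ℂ} {i : Fin (n + 1)}
    (hT : ∀ z ∈ ball (0 : ℂ) 1, ∀ᶠ w in 𝓝[≠] z, T i w ≠ 0 ∧ Prop2 (fun k => T k w) (h w).rep)
    (hTF : ∀ z ∈ ball (0 : ℂ) 1, (fun k => T k z) ≠ 0 → ∀ j, eval (fun k => T k z) (F j) = 0)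
    (hz : z ∈ ball (0 : ℂ) 1) : (h z).rep ∈ Cone F := by
  refine ⟨Projectivization.rep_nonzero _, fun j => ?_⟩
  obtain ⟨e, he⟩ := hF j
  obtain ⟨g, hg⟩ := hh z hz
  have h1 : ∀ᶠ w in 𝓝[≠] z, eval (g w) (F j) = 0 := by
    filter_upwards [hT z hz, nhdsWithin_le_nhds hg.2.2, nhdsWithin_le_nhds hg.ne,
      nhdsWithin_le_nhds (isOpen_ball.mem_nhds hz)] with w ⟨k1, k2⟩ ⟨c, hc, k3⟩ k4 k5
    have k6 : (fun k => T k w) ≠ 0 := fun h => k1 (congrFun h i)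
    rw [k3] at k2
    obtain ⟨b, hb⟩ := k2.smul k6
    have k7 : g w = (c⁻¹ * b) • (fun k => T k w) := by
      rw [mul_smul, ← hb, smul_smul, inv_mul_cancel₀ hc, one_smul]
    rw [k7, eval_smul he, hTF w k5 k6 j, mul_zero]
  have h2 : ContinuousAt (fun w => eval (g w) (F j)) z := by
    have : Continuous fun y : Fin (n + 1) → ℂ => eval y (F j) := (F j).continuous_eval
    exact this.continuousAt.comp hg.1.continuousAt
  have h3 : Tendsto (fun w => eval (g w) (F j)) (𝓝[≠] z) (𝓝 (eval (g z) (F j))) :=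
    h2.continuousWithinAt
  have h4 : eval (g z) (F j) = 0 :=
    tendsto_nhds_unique h3 (tendsto_const_nhds.congr' (h1.mono fun w hw => hw.symm))
  obtain ⟨c, hc, k1⟩ := hg.2.2.self_of_nhds
  rw [val_eval, k1, eval_smul he, h4, mul_zero]

/-- invariance -/
theorem ext_inv (hG : Grp 𝒢 R) {h : ℂ → ℙ ℂ (Fin (n + 1) → ℂ)} (hh : HolD h)
    {T : Fin (n + 1) → ℂ → ℂ} {i : Fin (n + 1)}
    (hT : ∀ z ∈ ball (0 : ℂ) 1, ∀ᶠ w in 𝓝[≠] z, T i w ≠ 0 ∧ Prop2 (fun k => T k w) (h w).rep)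
    (hTi : ∀ k, InvG 𝒢 (T k)) : InvG 𝒢 h := by
  intro γ hγ z hz
  have ha : AnalyticAt ℂ γ z := (hG.diff γ hγ).analyticAt (isOpen_ball.mem_nhds hz)
  obtain ⟨g, hg⟩ := hh z hz
  obtain ⟨g', hg'⟩ := hh (γ z) (hG.maps γ hγ hz)
  have h1 : Prop2 (g' (γ z)) (g z) := by
    have hc : ContinuousAt (fun w => g' (γ w)) z := hg'.1.continuousAt.comp ha.continuousAt
    apply Prop2.lim (u := fun w => g' (γ w)) hc hg.1.continuousAt
    filter_upwards [(hG.punctured hγ hz).eventually (hT _ (hG.maps γ hγ hz)), hT z hz,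
      nhdsWithin_le_nhds hg.2.2, nhdsWithin_le_nhds (ha.continuousAt.eventually hg'.2.2),
      nhdsWithin_le_nhds (isOpen_ball.mem_nhds hz)] with w ⟨k1, k2⟩ ⟨k3, k4⟩ ⟨c, hc, k5⟩ ⟨c', hc', k6⟩ k7
    have e1 : (fun k => T k (γ w)) = fun k => T k w := funext fun k => hTi k γ hγ w k7
    rw [e1, k6] at k2
    rw [k5] at k4
    have k8 : (fun k => T k w) ≠ 0 := fun h => k3 (congrFun h i)
    have k9 : Prop2 (c' • g' (γ w)) (c • g w) := k2.symm.trans k8 k4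
    intro a b
    have := k9 a b
    simp only [Pi.smul_apply, smul_eq_mul] at this
    have h2 : c' * c ≠ 0 := mul_ne_zero hc' hc
    apply mul_left_cancel₀ h2
    linear_combination this
  obtain ⟨c, hc, k1⟩ := hg.2.2.self_of_nhds
  obtain ⟨c', hc', k2⟩ := hg'.2.2.self_of_nhds
  rw [proj_eq hg.2.1 k1, proj_eq hg'.2.1 k2]
  exact Prop2.mk _ _ h1

end Pool.Agent.H33
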