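import Mathlib

/-! Bounded polynomials on complex affine algebraic sets. -/

set_option autoImplicit false

open MvPolynomial

namespace Pool.Agent.H33

/-- A polynomial which is bounded on a complex affine algebraic set takes only finitely many
values. -/
theorem finite_values {σ : Type} [Finite σ] (E : Set (MvPolynomial σ ℂ)) (p : MvPolynomial σ ℂ)
    {B : ℝ} (hB : ∀ x : σ → ℂ, (∀ q ∈ E, eval x q = 0) → ‖eval x p‖ ≤ B) :
    {c : ℂ | ∃ x : σ → ℂ, (∀ q ∈ E, eval x q = 0) ∧ eval x p = c}.Finite := by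
  classical
  set W : Set (σ → ℂ) := {x | ∀ q ∈ E, eval x q = 0} with hW
  have hinv : ∀ a : {a : ℂ // B < ‖a‖}, ∃ q : MvPolynomial σ ℂ, ∀ x ∈ W,
      eval x q * (eval x p - a) = 1 := by
    rintro ⟨a, ha⟩
    have htop : Ideal.span E ⊔ Ideal.span {p - C a} = ⊤ := by
      by_contra hne
      obtain ⟨M, hM, hle⟩ := Ideal.exists_le_maximal _ hne
      obtain ⟨x, hx⟩ := MvPolynomial.isMaximal_iff_eq_vanishingIdeal_singleton.1 hM
      have h1 : ∀ q ∈ M, eval x q = 0 := by
        intro q hq
        rw [hx, mem_vanishingIdeal_singleton_iff] at hq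
        simpa [aeval_eq_eval] using hq
      have h2 : ∀ q ∈ E, eval x q = 0 := fun q hq =>
        h1 q (hle (Ideal.mem_sup_left (Ideal.subset_span hq)))
      have h3 := h1 _ (hle (Ideal.mem_sup_right (Ideal.subset_span rfl)))
      rw [eval_sub, eval_C, sub_eq_zero] at h3
      have h4 := hB x h2
      rw [h3] at h4
      linarith
    have h1 : (1 : MvPolynomial σ ℂ) ∈ Ideal.span E ⊔ Ideal.span {p - C a} := by
      rw [htop]
      trivial
    obtain ⟨u, hu, v, hv, huv⟩ := Submodule.mem_sup.1 h1
    obtain ⟨q, hq⟩ := Ideal.mem_span_singleton'.1 hv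
    refine ⟨q, fun x hx => ?_⟩
    have h2 : eval x u = 0 := by
      have : Ideal.span E ≤ RingHom.ker (eval x) := Ideal.span_le.2 fun q hq => hx q hq
      exact this hu
    have h3 := congrArg (eval x) huv
    rw [eval_add, h2, zero_add, ← hq, eval_mul, eval_sub, eval_C, map_one] at h3
    exact h3
  choose q hq using hinv
  set Λ : MvPolynomial σ ℂ →ₗ[ℂ] (W → ℂ) :=
    { toFun := fun r x => eval x.1 r
      map_add' := fun r s => by
        ext x
        simp
      map_smul' := fun c r => by
        ext x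
        simp [smul_eval] } with hΛ
  have hdep : ¬ LinearIndependent ℂ (fun a : {a : ℂ // B < ‖a‖} => Λ (q a)) := by
    intro hli
    have h1 : LinearIndependent ℂ q := LinearIndependent.of_comp Λ hli
    have h2 := h1.cardinal_le_rank
    have h3 : Module.rank ℂ (MvPolynomial σ ℂ) ≤ Cardinal.aleph0 := by
      rw [← (MvPolynomial.basisMonomials σ ℂ).mk_eq_rank'']
      exact Cardinal.mk_le_aleph0
    have h4 : Cardinal.continuum ≤ Cardinal.mk {a : ℂ // B < ‖a‖} := by
      rw [← Cardinal.mk_Ioi_real (max B 0)]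
      refine Cardinal.mk_le_of_injective (f := fun r : Set.Ioi (max B 0) =>
        (⟨(r.1 : ℂ), by
          have h := r.2
          rw [Set.mem_Ioi, max_lt_iff] at h
          rw [Complex.norm_real, Real.norm_of_nonneg h.2.le]
          exact h.1⟩ : {a : ℂ // B < ‖a‖})) ?_
      intro r s hrs
      have := congrArg Subtype.val hrs
      exact Subtype.ext (Complex.ofReal_injective this)
    exact absurd ((h4.trans h2).trans h3) (not_le.2 Cardinal.aleph0_lt_continuum)
  rw [linearIndependent_iff'] at hdep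
  push Not at hdep
  obtain ⟨s, g, hsum, a₀, ha₀, hg₀⟩ := hdep
  set P : Polynomial ℂ := ∑ a ∈ s, Polynomial.C (g a) *
    ∏ b ∈ s.erase a, (Polynomial.X - Polynomial.C b.1) with hP
  have hP0 : P ≠ 0 := by
    intro h
    have h1 : Polynomial.eval a₀.1 P = 0 := by rw [h, Polynomial.eval_zero]
    rw [hP, Polynomial.eval_finsetSum, Finset.sum_eq_single a₀] at h1
    · rw [Polynomial.eval_mul, Polynomial.eval_C, Polynomial.eval_prod] at h1
      rcases mul_eq_zero.1 h1 with h2 | h2
      · exact hg₀ h2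
      · obtain ⟨b, hb, h3⟩ := Finset.prod_eq_zero_iff.1 h2
        rw [Polynomial.eval_sub, Polynomial.eval_X, Polynomial.eval_C, sub_eq_zero] at h3
        exact (Finset.mem_erase.1 hb).1 (Subtype.ext h3.symm)
    · intro b hb hne
      rw [Polynomial.eval_mul, Polynomial.eval_prod]
      have : ∏ j ∈ s.erase b, Polynomial.eval a₀.1 (Polynomial.X - Polynomial.C j.1) = 0 :=
        Finset.prod_eq_zero (Finset.mem_erase.2 ⟨hne.symm, ha₀⟩) (by simp)
      rw [this, mul_zero]
    · intro h
      exact absurd ha₀ h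
  refine (P.roots.toFinset.finite_toSet).subset ?_
  rintro c ⟨x, hx, rfl⟩
  rw [Finset.mem_coe, Multiset.mem_toFinset, Polynomial.mem_roots hP0, Polynomial.IsRoot]
  have hne : ∀ a : {a : ℂ // B < ‖a‖}, eval x p - a.1 ≠ 0 := by
    intro a h
    have h1 := hB x hx
    rw [sub_eq_zero.1 h] at h1
    have := a.2
    linarith
  have h1 : ∑ a ∈ s, g a * eval x (q a) = 0 := by
    have := congrFun hsum ⟨x, hx⟩
    simpa [hΛ, Finset.sum_apply] using this
  have h2 : ∀ a ∈ s, Polynomial.eval (eval x p) (Polynomial.C (g a) *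
      ∏ b ∈ s.erase a, (Polynomial.X - Polynomial.C b.1)) =
      (g a * eval x (q a)) * ∏ b ∈ s, (eval x p - b.1) := by
    intro a ha
    rw [Polynomial.eval_mul, Polynomial.eval_C, Polynomial.eval_prod,
      ← Finset.mul_prod_erase s _ ha]
    simp only [Polynomial.eval_sub, Polynomial.eval_X, Polynomial.eval_C]
    have h3 := hq a x hx
    linear_combination (-(g a) * ∏ b ∈ s.erase a, (eval x p - b.1)) * h3
  rw [hP, Polynomial.eval_finsetSum, Finset.sum_congr rfl h2, ← Finset.sum_mul, h1, zero_mul]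

end Pool.Agent.H33
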