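import Mathlib

/-! Taylor coefficients at the origin. -/

set_option autoImplicit false

open Filter Topology Metric Set

namespace Pool.Agent.H33

/-- Taylor coefficients at the origin -/
noncomputable def tc (m : ℕ) (u : ℂ → ℂ) : ℂ := iteratedDeriv m u 0 / m.factorial

variable {u v : ℂ → ℂ} {m : ℕ}

theorem tc_congr (h : u =ᶠ[𝓝 0] v) : tc m u = tc m v := by
  unfold tc
  rw [h.iteratedDeriv_eq]

theorem tc_zero' : tc 0 u = u 0 := by
  unfold tc
  simp

theorem tc_add (hu : AnalyticAt ℂ u 0) (hv : AnalyticAt ℂ v 0) :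
    tc m (fun z => u z + v z) = tc m u + tc m v := by
  unfold tc
  rw [iteratedDeriv_fun_add hu.contDiffAt hv.contDiffAt, add_div]

theorem tc_const_mul (a : ℂ) : tc m (fun z => a * u z) = a * tc m u := by
  unfold tc
  rw [iteratedDeriv_const_mul_field, mul_div_assoc]

theorem tc_mul (hu : AnalyticAt ℂ u 0) (hv : AnalyticAt ℂ v 0) :
    tc m (fun z => u z * v z) = ∑ j ∈ Finset.range (m + 1), tc j u * tc (m - j) v := by
  unfold tc
  rw [iteratedDeriv_fun_mul hu.contDiffAt hv.contDiffAt, Finset.sum_div]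
  refine Finset.sum_congr rfl fun j hj => ?_
  have hjm : j ≤ m := Nat.lt_succ_iff.1 (Finset.mem_range.1 hj)
  have h1 : ((m.choose j : ℕ) : ℂ) * (j.factorial : ℂ) * ((m - j).factorial : ℂ) = m.factorial := by
    exact_mod_cast Nat.choose_mul_factorial_mul_factorial hjm
  have h2 : (j.factorial : ℂ) ≠ 0 := by exact_mod_cast j.factorial_ne_zero
  have h3 : ((m - j).factorial : ℂ) ≠ 0 := by exact_mod_cast (m - j).factorial_ne_zero
  have h4 : (m.factorial : ℂ) ≠ 0 := by exact_mod_cast m.factorial_ne_zero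
  rw [div_mul_div_comm, div_eq_div_iff h4 (mul_ne_zero h2 h3), ← h1]
  ring

theorem tc_eq_zero_iff : tc m u = 0 ↔ iteratedDeriv m u 0 = 0 := by
  unfold tc
  have h4 : (m.factorial : ℂ) ≠ 0 := by exact_mod_cast m.factorial_ne_zero
  rw [div_eq_zero_iff]
  exact ⟨fun h => h.resolve_right h4, Or.inl⟩

/-- functions whose first Taylor coefficients vanish -/
theorem tc_big (hu : AnalyticAt ℂ u 0) {K : ℕ} (h : ∀ j < K, tc j u = 0) :
    ∃ q : ℂ → ℂ, AnalyticAt ℂ q 0 ∧ ∀ᶠ w in 𝓝 0, u w = w ^ K * q w := by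
  have h1 := (natCast_le_analyticOrderAt_iff_iteratedDeriv_eq_zero hu).2
    (fun i hi => tc_eq_zero_iff.1 (h i hi))
  obtain ⟨q, hq, he⟩ := (natCast_le_analyticOrderAt hu).1 h1
  refine ⟨q, hq, ?_⟩
  filter_upwards [he] with w hw
  rw [hw, sub_zero, smul_eq_mul]

theorem tc_exists (hu : AnalyticAt ℂ u 0) (h : ¬ ∀ᶠ w in 𝓝 0, u w = 0) :
    ∃ μ, (∀ j < μ, tc j u = 0) ∧ tc μ u ≠ 0 := by
  have hex : ∃ μ, tc μ u ≠ 0 := by
    by_contra hcon
    push Not at hcon
    apply h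
    rw [← analyticOrderAt_eq_top]
    refine ENat.eq_top_iff_forall_ge.2 fun m => ?_
    exact (natCast_le_analyticOrderAt_iff_iteratedDeriv_eq_zero hu).2
      (fun i _ => tc_eq_zero_iff.1 (hcon i))
  classical
  exact ⟨Nat.find hex, fun j hj => not_not.1 (Nat.find_min hex hj), Nat.find_spec hex⟩

theorem tc_bound {ρ C : ℝ} (hρ : 0 < ρ) (hu : DifferentiableOn ℂ u (closedBall 0 ρ))
    (hC : ∀ z ∈ closedBall (0 : ℂ) ρ, ‖u z‖ ≤ C) : ‖tc m u‖ ≤ C / ρ ^ m := by
  have h1 := Complex.norm_iteratedDeriv_le_of_forall_mem_sphere_norm_le m hρ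
    (f := u) (c := 0) (C := C) (DifferentiableOn.diffContOnCl (by
      rw [closure_ball (0 : ℂ) hρ.ne']
      exact hu)) (fun z hz => hC z (sphere_subset_closedBall hz))
  have h4 : (0 : ℝ) < m.factorial := by exact_mod_cast m.factorial_pos
  unfold tc
  rw [norm_div, Complex.norm_natCast, div_le_iff₀ h4]
  refine h1.trans (le_of_eq ?_)
  ring

/-- quotients: if `t k = u * φ k` and the first nonzero Taylor coefficient of `u` is `1` -/
theorem tc_quot {t φ : ℂ → ℂ} (hu : AnalyticAt ℂ u 0) (hφ : AnalyticAt ℂ φ 0)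
    (h : ∀ᶠ w in 𝓝 0, t w = u w * φ w) {μ : ℕ} (h0 : ∀ j < μ, tc j u = 0) (h1 : tc μ u = 1)
    (m : ℕ) : tc m φ = tc (μ + m) t - ∑ l ∈ Finset.range m, tc (μ + (l + 1)) u * tc (m - (l + 1)) φ := by
  rw [tc_congr (v := fun w => u w * φ w) h, tc_mul hu hφ, add_assoc, Finset.sum_range_add]
  have e1 : ∑ j ∈ Finset.range μ, tc j u * tc (μ + m - j) φ = 0 :=
    Finset.sum_eq_zero fun j hj => by rw [h0 j (Finset.mem_range.1 hj), zero_mul]
  rw [e1, zero_add, Finset.sum_range_succ', add_zero, h1, one_mul, Nat.add_sub_cancel_left]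
  have e2 : ∀ l, μ + m - (μ + (l + 1)) = m - (l + 1) := fun l => by omega
  simp only [e2]
  ring

end Pool.Agent.H33
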