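import Pool.Agent.H33.QF
import Pool.Agent.H33.QG
import Pool.Agent.H33.QH

/-! Bounded families of maps: the finite-dimensional spaces of sections. -/

set_option autoImplicit false

open Filter Topology Metric Set MvPolynomial LinearAlgebra.Projectivization

namespace Pool.Agent.H33

open Pool.Agent.Y190.OP Pool.Agent.W602.GT Pool.Agent.N155 Pool.Agent.N155.BB

variable {n : ℕ} {ι : Type} {F : ι → MvPolynomial (Fin (n + 1)) ℂ}
  {f f' f₀ : ℂ → ℙ ℂ (Fin (n + 1) → ℂ)} {z : ℂ} {N M : ℕ} {S T : ℂ → ℂ}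
  {𝒢 : Set (ℂ → ℂ)} {R R' ρ B C₁ : ℝ} {p : ℙ ℂ (Fin (n + 1) → ℂ)} {i : Fin (n + 1)}

/-- the maps with a given value at the origin -/
def Fam (𝒢 : Set (ℂ → ℂ)) (F : ι → MvPolynomial (Fin (n + 1)) ℂ) (p : ℙ ℂ (Fin (n + 1) → ℂ)) :
    Set (ℂ → ℙ ℂ (Fin (n + 1) → ℂ)) :=
  {f | HolD f ∧ InvG 𝒢 f ∧ (∀ z ∈ ball (0 : ℂ) 1, (f z).rep ∈ Cone F) ∧ f 0 = p}

/-- a bounded family -/
structure Ctx (𝒢 : Set (ℂ → ℂ)) (F : ι → MvPolynomial (Fin (n + 1)) ℂ)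
    (p : ℙ ℂ (Fin (n + 1) → ℂ)) (i : Fin (n + 1)) (R R' ρ B C₁ : ℝ) : Prop where
  grp : Grp 𝒢 R
  R0 : 0 < R
  RR : R < R'
  R1 : R' < 1
  r0 : 0 < ρ
  r1 : ρ < 1
  B0 : 0 ≤ B
  form : ∀ j, IsForm (F j)
  pi : p.rep i ≠ 0
  speed : ∀ f ∈ Fam 𝒢 F p, SpeedLe f R' B
  chart : ∀ f ∈ Fam 𝒢 F p, ∀ z ∈ closedBall (0 : ℂ) ρ, co f i z ≠ 0 ∧
    ∀ k, ‖co f k z / co f i z‖ ≤ C₁

theorem Ctx.co0 (_h : Ctx 𝒢 F p i R R' ρ B C₁) (hf : f ∈ Fam 𝒢 F p) : (f 0).rep i ≠ 0 := by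
  rw [hf.2.2.2]
  exact _h.pi

/-- the number of zeros -/
theorem Ctx.count (h : Ctx 𝒢 F p i R R' ρ B C₁) : ∃ E : ℕ, ∀ f ∈ Fam 𝒢 F p,
    ∀ (A : Finset ℂ) (m : ℂ → ℕ), (∀ a ∈ A, a ∈ closedBall (0 : ℂ) R) →
      (∀ a ∈ A, ∃ C : ℝ, ∀ᶠ z in 𝓝 a, nrm f 1 (co f i) z ≤ C * ‖(z - a) ^ m a‖ ^ 2) →
      ∑ a ∈ A, m a ≤ E := by
  have hq : 1 < R' / R := by
    rw [one_lt_div h.R0]
    exact h.RR
  set δ : ℝ := ‖p.rep i‖ ^ 2 / sqn p.rep ^ 1 with hδ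
  have hδ0 : 0 < δ := by
    have h1 := norm_pos_iff.2 h.pi
    have h2 := sqn_pos (Projectivization.rep_nonzero p)
    positivity
  obtain ⟨E, hE⟩ := pow_unbounded_of_one_lt (Real.exp (B + 1) / δ) hq
  refine ⟨E, fun f hf A m hA hm => ?_⟩
  by_contra hlt
  push Not at hlt
  have h1 := (sec_co (f := f) i).count hf.1 h.R0 h.RR h.R1 (h.speed f hf) (κ := B + 1)
    (by push_cast; linarith) (by have := h.B0; linarith) (C₀ := 1) (fun z _ => nrm_co_le i z) A m hA hm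
    (h.co0 hf)
  have h2 : nrm f 1 (co f i) 0 = δ := by
    unfold nrm co
    rw [hf.2.2.2]
  rw [h2, one_mul] at h1
  have h3 : (R' / R) ^ E ≤ (R' / R) ^ (∑ a ∈ A, m a) := pow_le_pow_right₀ hq.le hlt.le
  rw [div_lt_iff₀ hδ0] at hE
  have h4 := mul_le_mul_of_nonneg_left h3 hδ0.le
  linarith

/-- sections with a zero of large order at the origin vanish -/
theorem Ctx.vanish (h : Ctx 𝒢 F p i R R' ρ B C₁) (N : ℕ) : ∃ K : ℕ, ∀ f ∈ Fam 𝒢 F p,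
    ∀ S : ℂ → ℂ, Sec f N S → InvG 𝒢 S →
      (∃ C : ℝ, ∀ᶠ z in 𝓝 0, nrm f N S z ≤ C * ‖z ^ K‖ ^ 2) → ∀ z ∈ ball (0 : ℂ) 1, S z = 0 := by
  have hq : 1 < R' / R := by
    rw [one_lt_div h.R0]
    exact h.RR
  have hB := h.B0
  obtain ⟨K, hK⟩ := pow_unbounded_of_one_lt (Real.exp (N * B + 1)) hq
  refine ⟨K, fun f hf S hS hi hord => ?_⟩
  refine hS.vanish hf.1 h.R0 h.RR h.R1 (h.speed f hf) (κ := N * B + 1) (by linarith) (by positivity)
    hK (fun z hz => ?_) hord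
  obtain ⟨γ, hγ, hγz⟩ := h.grp.cov z hz
  exact ⟨γ z, hγz, (nrm_congr (hf.2.1 γ hγ z hz) (hi γ hγ z hz)).symm⟩

/-- the section in the affine coordinates at the origin -/
noncomputable def gm (f : ℂ → ℙ ℂ (Fin (n + 1) → ℂ)) (i : Fin (n + 1)) (N : ℕ) (S : ℂ → ℂ) (z : ℂ) :
    ℂ := S z / co f i z ^ N

theorem co_ne (hf : HolD f) (h0 : (f 0).rep i ≠ 0) : ∀ᶠ w in 𝓝 (0 : ℂ), co f i w ≠ 0 := by
  obtain ⟨g, hg⟩ := hf 0 (mem_ball_self one_pos)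
  obtain ⟨c, hc, h1⟩ := hg.2.2.self_of_nhds
  have h2 : g 0 i ≠ 0 := by
    intro h
    rw [h1, Pi.smul_apply, h, smul_zero] at h0
    exact h0 rfl
  filter_upwards [hg.2.2, (hg.coord_an i).continuousAt.eventually_ne h2] with w ⟨c, hc, k1⟩ k2
  unfold co
  rw [k1, Pi.smul_apply, smul_eq_mul]
  exact mul_ne_zero hc k2

theorem grm_aff (hf : HolD f) (h0 : (f 0).rep i ≠ 0) :
    Grm f 0 fun z => (fun k => co f k z / co f i z) := by
  obtain ⟨g, hg⟩ := hf 0 (mem_ball_self one_pos)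
  obtain ⟨c, hc, h1⟩ := hg.2.2.self_of_nhds
  have h2 : g 0 i ≠ 0 := by
    intro h
    rw [h1, Pi.smul_apply, h, smul_zero] at h0
    exact h0 rfl
  refine ⟨?_, ?_, ?_⟩
  · refine analyticAt_pi_iff.2 fun k => ?_
    have h3 : AnalyticAt ℂ (fun z => g z k / g z i) 0 := (hg.coord_an k).div (hg.coord_an i) h2
    refine h3.congr ?_
    filter_upwards [hg.2.2] with w ⟨c, hc, k1⟩
    unfold co
    rw [k1, Pi.smul_apply, Pi.smul_apply, smul_eq_mul, smul_eq_mul, mul_div_mul_left _ _ hc]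
  · intro h
    have h3 := congrFun h i
    have h4 : co f i 0 / co f i 0 = 0 := h3
    have h5 : co f i 0 ≠ 0 := h0
    rw [div_self h5] at h4
    exact one_ne_zero h4
  · filter_upwards [co_ne hf h0] with w hw
    refine ⟨co f i w, hw, funext fun k => ?_⟩
    rw [Pi.smul_apply, smul_eq_mul]
    change (f w).rep k = co f i w * (co f k w / co f i w)
    rw [mul_div_cancel₀ _ hw]
    rfl

theorem gm_analytic (hf : HolD f) (h0 : (f 0).rep i ≠ 0) (hS : Sec f N S) :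
    AnalyticAt ℂ (gm f i N S) 0 := by
  obtain ⟨s, hs⟩ := hS 0 (mem_ball_self one_pos) _ (grm_aff hf h0)
  refine hs.1.congr ?_
  filter_upwards [hs.2, co_ne hf h0] with w h1 h2
  have h3 := h1 (co f i w) (funext fun k => by
    rw [Pi.smul_apply, smul_eq_mul, mul_div_cancel₀ _ h2]
    rfl)
  unfold gm
  rw [h3, mul_div_cancel_left₀ _ (pow_ne_zero _ h2)]

theorem nrm_le_gm (hf : HolD f) (h0 : (f 0).rep i ≠ 0) :
    ∀ᶠ w in 𝓝 (0 : ℂ), nrm f N S w ≤ ‖gm f i N S w‖ ^ 2 := by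
  filter_upwards [co_ne hf h0] with w hw
  unfold nrm gm
  rw [norm_div, div_pow, norm_pow, ← pow_mul, mul_comm N 2, pow_mul]
  have h1 : ‖co f i w‖ ^ 2 ≤ sqn (f w).rep :=
    Finset.single_le_sum (f := fun k => ‖(f w).rep k‖ ^ 2) (fun k _ => sq_nonneg _)
      (Finset.mem_univ i)
  have h2 : 0 < ‖co f i w‖ := norm_pos_iff.2 hw
  exact div_le_div_of_nonneg_left (sq_nonneg _) (by positivity) (pow_le_pow_left₀ (by positivity) h1 N)

/-- sections which vanish to high order at the origin -/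
theorem Ctx.vanish' (h : Ctx 𝒢 F p i R R' ρ B C₁) (N : ℕ) : ∃ K : ℕ, ∀ f ∈ Fam 𝒢 F p,
    ∀ S : ℂ → ℂ, Sec f N S → InvG 𝒢 S →
      (∃ q : ℂ → ℂ, AnalyticAt ℂ q 0 ∧ ∀ᶠ w in 𝓝 0, gm f i N S w = w ^ K * q w) →
        ∀ z ∈ ball (0 : ℂ) 1, S z = 0 := by
  obtain ⟨K, hK⟩ := h.vanish N
  refine ⟨K, fun f hf S hS hi hq => hK f hf S hS hi ?_⟩
  obtain ⟨q, hq, hqe⟩ := hq
  refine ⟨(‖q 0‖ + 1) ^ 2, ?_⟩
  filter_upwards [nrm_le_gm (N := N) (S := S) hf.1 (h.co0 hf), hqe,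
    hq.continuousAt.norm.eventually (gt_mem_nhds (show ‖q 0‖ < ‖q 0‖ + 1 by linarith))]
    with w k1 k2 k3
  rw [k2, norm_mul, mul_pow] at k1
  have k4 := pow_le_pow_left₀ (norm_nonneg (q w)) k3.le 2
  have k5 := mul_le_mul_of_nonneg_left k4 (sq_nonneg ‖w ^ K‖)
  linarith

/-- the invariant sections -/
def VN (𝒢 : Set (ℂ → ℂ)) (f : ℂ → ℙ ℂ (Fin (n + 1) → ℂ)) (N : ℕ) : Submodule ℂ (ℂ → ℂ) where
  carrier := {S | Sec f N S ∧ InvG 𝒢 S ∧ ∀ z ∉ ball (0 : ℂ) 1, S z = 0}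
  add_mem' := by
    rintro S T ⟨a1, a2, a3⟩ ⟨b1, b2, b3⟩
    refine ⟨a1.add b1, fun γ hγ z hz => ?_, fun z hz => ?_⟩
    · change S (γ z) + T (γ z) = S z + T z
      rw [a2 γ hγ z hz, b2 γ hγ z hz]
    · change S z + T z = 0
      rw [a3 z hz, b3 z hz, add_zero]
  zero_mem' := ⟨Sec.zero, fun _ _ _ _ => rfl, fun _ _ => rfl⟩
  smul_mem' := by
    rintro c S ⟨a1, a2, a3⟩
    refine ⟨a1.const_mul c, fun γ hγ z hz => ?_, fun z hz => ?_⟩
    · change c * S (γ z) = c * S z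
      rw [a2 γ hγ z hz]
    · change c * S z = 0
      rw [a3 z hz, mul_zero]

theorem gm_add (z : ℂ) : gm f i N (fun z => S z + T z) z = gm f i N S z + gm f i N T z := by
  unfold gm
  ring

theorem gm_smul (c : ℂ) (z : ℂ) : gm f i N (fun z => c * S z) z = c * gm f i N S z := by
  unfold gm
  ring

/-- the spaces of invariant sections are finite-dimensional -/
theorem Ctx.finite (h : Ctx 𝒢 F p i R R' ρ B C₁) (hf : f ∈ Fam 𝒢 F p) (N : ℕ) :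
    Module.Finite ℂ (VN 𝒢 f N) := by
  obtain ⟨K, hK⟩ := h.vanish' N
  have h0 := h.co0 hf
  let J : VN 𝒢 f N →ₗ[ℂ] (Fin K → ℂ) :=
    { toFun := fun S m => tc m (gm f i N S.1)
      map_add' := fun S T => by
        ext m
        have e : gm f i N (S + T).1 = fun z => gm f i N S.1 z + gm f i N T.1 z :=
          funext fun z => gm_add z
        rw [e]
        exact tc_add (gm_analytic hf.1 h0 S.2.1) (gm_analytic hf.1 h0 T.2.1)
      map_smul' := fun c S => by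
        ext m
        have e : gm f i N (c • S).1 = fun z => c * gm f i N S.1 z := funext fun z => gm_smul c z
        rw [e]
        exact tc_const_mul c }
  have hJ : Function.Injective J := by
    rw [← LinearMap.ker_eq_bot, LinearMap.ker_eq_bot']
    intro S hS
    have h1 : ∀ j < K, tc j (gm f i N S.1) = 0 := fun j hj => congrFun hS ⟨j, hj⟩
    have h2 := hK f hf S.1 S.2.1 S.2.2.1 (tc_big (gm_analytic hf.1 h0 S.2.1) h1)
    apply Subtype.ext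
    funext z
    by_cases hz : z ∈ ball (0 : ℂ) 1
    · exact h2 z hz
    · exact S.2.2.2 z hz
  exact Module.Finite.of_injective J hJ

end Pool.Agent.H33
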