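import Pool.Agent.H33.QI

/-! Bounded families of maps: the algebraic parameter spaces. -/

set_option autoImplicit false

open Filter Topology Metric Set MvPolynomial LinearAlgebra.Projectivization

namespace Pool.Agent.H33

open Pool.Agent.Y190.OP Pool.Agent.W602.GT Pool.Agent.N155 Pool.Agent.N155.BB

variable {n : ℕ} {ι : Type} {F : ι → MvPolynomial (Fin (n + 1)) ℂ}
  {f f' f₀ h : ℂ → ℙ ℂ (Fin (n + 1) → ℂ)} {z : ℂ} {N M E D : ℕ} {S T : ℂ → ℂ}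
  {𝒢 : Set (ℂ → ℂ)} {R R' ρ B C₁ : ℝ} {p : ℙ ℂ (Fin (n + 1) → ℂ)} {i : Fin (n + 1)}
  {b : Fin D → ℂ → ℂ} {y : Fin (n + 1) × Fin D → ℂ} {μ : ℕ}

/-- a tuple of sections with the coordinates `y` -/
noncomputable def Tup (b : Fin D → ℂ → ℂ) (y : Fin (n + 1) × Fin D → ℂ) (k : Fin (n + 1)) (z : ℂ) : ℂ :=
  ∑ j, y (k, j) * b j z

theorem Tup_mem (hb : ∀ j, b j ∈ VN 𝒢 f₀ E) (y : Fin (n + 1) × Fin D → ℂ) (k : Fin (n + 1)) :
    Tup b y k ∈ VN 𝒢 f₀ E := by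
  have h1 : Tup b y k = ∑ j, y (k, j) • b j := by
    funext z
    simp [Tup, Finset.sum_apply]
  rw [h1]
  exact Submodule.sum_mem _ fun j _ => Submodule.smul_mem _ _ (hb j)

theorem gm_Tup (z : ℂ) (k : Fin (n + 1)) :
    gm f₀ i E (Tup b y k) z = ∑ j, y (k, j) * gm f₀ i E (b j) z := by
  unfold gm Tup
  rw [Finset.sum_div]
  exact Finset.sum_congr rfl fun j _ => mul_div_assoc _ _ _

theorem tc_sum {J : Type} (A : Finset J) {u : J → ℂ → ℂ} (hu : ∀ j ∈ A, AnalyticAt ℂ (u j) 0)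
    (a : J → ℂ) (m : ℕ) : tc m (fun z => ∑ j ∈ A, a j * u j z) = ∑ j ∈ A, a j * tc m (u j) := by
  classical
  induction A using Finset.induction_on with
  | empty =>
    simp only [Finset.sum_empty]
    have h1 : tc m (fun z : ℂ => (0 : ℂ) * (fun _ => (0 : ℂ)) z) = 0 * tc m (fun _ => (0 : ℂ)) :=
      tc_const_mul (u := fun _ => (0 : ℂ)) 0
    simpa using h1
  | insert j A hj ih =>
    simp only [Finset.sum_insert hj]
    have h1 : AnalyticAt ℂ (fun z => ∑ j ∈ A, a j * u j z) 0 :=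
      Finset.analyticAt_fun_sum A fun k hk =>
        analyticAt_const.mul (hu k (Finset.mem_insert_of_mem hk))
    have h2 : AnalyticAt ℂ (fun z => a j * u j z) 0 :=
      analyticAt_const.mul (hu j (Finset.mem_insert_self j A))
    rw [tc_add h2 h1, ih fun k hk => hu k (Finset.mem_insert_of_mem hk), tc_const_mul]

theorem tc_gm_Tup (hf₀ : HolD f₀) (h0 : (f₀ 0).rep i ≠ 0) (hb : ∀ j, b j ∈ VN 𝒢 f₀ E) (m : ℕ)
    (k : Fin (n + 1)) :
    tc m (gm f₀ i E (Tup b y k)) = ∑ j, y (k, j) * tc m (gm f₀ i E (b j)) := by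
  have h1 : gm f₀ i E (Tup b y k) = fun z => ∑ j, y (k, j) * gm f₀ i E (b j) z :=
    funext fun z => gm_Tup z k
  rw [h1]
  exact tc_sum Finset.univ (fun j _ => gm_analytic hf₀ h0 (hb j).1) (fun j => y (k, j)) m

/-- the parameters of maps in the family; `μ` is the order of vanishing at the origin -/
def Mem (F : ι → MvPolynomial (Fin (n + 1)) ℂ) (f₀ : ℂ → ℙ ℂ (Fin (n + 1) → ℂ))
    (p : ℙ ℂ (Fin (n + 1) → ℂ)) (i : Fin (n + 1)) (E : ℕ) (b : Fin D → ℂ → ℂ) (μ : ℕ)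
    (y : Fin (n + 1) × Fin D → ℂ) : Prop :=
  (∀ z ∈ ball (0 : ℂ) 1, ∀ j, eval (fun k => Tup b y k z) (F j) = 0) ∧
  (∀ k, ∀ m < μ, tc m (gm f₀ i E (Tup b y k)) = 0) ∧
  ∀ k, tc μ (gm f₀ i E (Tup b y k)) = p.rep k / p.rep i

/-- the relation between parameters and maps -/
def Rel (f₀ : ℂ → ℙ ℂ (Fin (n + 1) → ℂ)) (i : Fin (n + 1)) (E : ℕ) (b : Fin D → ℂ → ℂ)
    (y : Fin (n + 1) × Fin D → ℂ) (h : ℂ → ℙ ℂ (Fin (n + 1) → ℂ)) : Prop :=
  ∀ k, ∀ᶠ w in 𝓝 (0 : ℂ), gm f₀ i E (Tup b y k) w = gm f₀ i E (Tup b y i) w * (co h k w / co h i w)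

/-- the Taylor coefficients as linear forms in the parameters -/
noncomputable def Lf (f₀ : ℂ → ℙ ℂ (Fin (n + 1) → ℂ)) (i : Fin (n + 1)) (E : ℕ)
    (b : Fin D → ℂ → ℂ) (m : ℕ) (k : Fin (n + 1)) : MvPolynomial (Fin (n + 1) × Fin D) ℂ :=
  ∑ j, X (k, j) * C (tc m (gm f₀ i E (b j)))

theorem eval_Lf (hf₀ : HolD f₀) (h0 : (f₀ 0).rep i ≠ 0) (hb : ∀ j, b j ∈ VN 𝒢 f₀ E) (m : ℕ)
    (k : Fin (n + 1)) : eval y (Lf f₀ i E b m k) = tc m (gm f₀ i E (Tup b y k)) := by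
  rw [tc_gm_Tup hf₀ h0 hb]
  unfold Lf
  simp

/-- the equations of the parameter space -/
def Eqs (F : ι → MvPolynomial (Fin (n + 1)) ℂ) (f₀ : ℂ → ℙ ℂ (Fin (n + 1) → ℂ))
    (p : ℙ ℂ (Fin (n + 1) → ℂ)) (i : Fin (n + 1)) (E : ℕ) (b : Fin D → ℂ → ℂ) (μ : ℕ) :
    Set (MvPolynomial (Fin (n + 1) × Fin D) ℂ) :=
  {q | (∃ z ∈ ball (0 : ℂ) 1, ∃ j, q = bind₁ (fun k => ∑ l, X (k, l) * C (b l z)) (F j)) ∨
    (∃ k, ∃ m < μ, q = Lf f₀ i E b m k) ∨ ∃ k, q = Lf f₀ i E b μ k - C (p.rep k / p.rep i)}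

theorem mem_Eqs (hf₀ : HolD f₀) (h0 : (f₀ 0).rep i ≠ 0) (hb : ∀ j, b j ∈ VN 𝒢 f₀ E) :
    (∀ q ∈ Eqs F f₀ p i E b μ, eval y q = 0) ↔ Mem F f₀ p i E b μ y := by
  have e1 : ∀ (z : ℂ) (G : MvPolynomial (Fin (n + 1)) ℂ),
      eval y (bind₁ (fun k => ∑ l, X (k, l) * C (b l z)) G) = eval (fun k => Tup b y k z) G := by
    intro z G
    unfold eval
    rw [eval₂Hom_bind₁]
    congr 2
    funext k
    simp [Tup]
  constructor
  · intro h
    refine ⟨fun z hz j => ?_, fun k m hm => ?_, fun k => ?_⟩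
    · rw [← e1]
      exact h _ (Or.inl ⟨z, hz, j, rfl⟩)
    · rw [← eval_Lf hf₀ h0 hb]
      exact h _ (Or.inr (Or.inl ⟨k, m, hm, rfl⟩))
    · rw [← eval_Lf hf₀ h0 hb]
      have := h _ (Or.inr (Or.inr ⟨k, rfl⟩))
      rw [eval_sub, eval_C, sub_eq_zero] at this
      exact this
  · rintro ⟨h1, h2, h3⟩ q (⟨z, hz, j, rfl⟩ | ⟨k, m, hm, rfl⟩ | ⟨k, rfl⟩)
    · rw [e1]
      exact h1 z hz j
    · rw [eval_Lf hf₀ h0 hb]
      exact h2 k m hm
    · rw [eval_sub, eval_C, eval_Lf hf₀ h0 hb, h3 k, sub_self]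

/-- parameters give maps -/
theorem Ctx.map_of_mem (hc : Ctx 𝒢 F p i R R' ρ B C₁) (hf₀ : f₀ ∈ Fam 𝒢 F p)
    (hb : ∀ j, b j ∈ VN 𝒢 f₀ E) (hy : Mem F f₀ p i E b μ y) :
    ∃ h ∈ Fam 𝒢 F p, Rel f₀ i E b y h := by
  have h0 := hc.co0 hf₀
  have hb0 : (0 : ℂ) ∈ ball (0 : ℂ) 1 := mem_ball_self one_pos
  have hTm := Tup_mem hb y
  obtain ⟨hy1, hy2, hy3⟩ := hy
  have hga := fun k => gm_analytic hf₀.1 h0 (hTm k).1
  have hne : ∃ z ∈ ball (0 : ℂ) 1, Tup b y i z ≠ 0 := by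
    by_contra hcon
    push Not at hcon
    have h1 : gm f₀ i E (Tup b y i) =ᶠ[𝓝 0] fun z => (0 : ℂ) * (fun _ => (0 : ℂ)) z := by
      filter_upwards [isOpen_ball.mem_nhds hb0] with w hw
      unfold gm
      rw [hcon w hw, zero_div]
      simp
    have h2 := hy3 i
    rw [tc_congr h1, tc_const_mul, zero_mul, div_self hc.pi] at h2
    exact zero_ne_one h2
  obtain ⟨h, hh, hT⟩ := ext_map hf₀.1 (fun k => (hTm k).1) hne
  have hinv := ext_inv hc.grp hh hT fun k => (hTm k).2.1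
  have hcone := fun z (hz : z ∈ ball (0 : ℂ) 1) =>
    ext_cone hc.form hh hT (fun z hz _ j => hy1 z hz j) hz
  have h00 : h 0 = p := by
    obtain ⟨g, hg⟩ := hh 0 hb0
    have hrel : ∀ k l, ∀ᶠ w in 𝓝 (0 : ℂ), gm f₀ i E (Tup b y k) w * g w l =
        gm f₀ i E (Tup b y l) w * g w k := by
      intro k l
      refine (((hga k).mul (hg.coord_an l)).frequently_eq_iff_eventually_eq
        ((hga l).mul (hg.coord_an k))).1 (Eventually.frequently ?_)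
      filter_upwards [hT 0 hb0, nhdsWithin_le_nhds hg.2.2] with w ⟨k1, k2⟩ ⟨c, hc', k3⟩
      have k4 := k2 k l
      rw [k3, Pi.smul_apply, Pi.smul_apply, smul_eq_mul, smul_eq_mul] at k4
      simp only at k4
      have k5 : Tup b y k w * g w l = Tup b y l w * g w k := by
        apply mul_left_cancel₀ hc'
        linear_combination k4
      simp only [Pi.mul_apply]
      unfold gm
      rw [div_mul_eq_mul_div, div_mul_eq_mul_div, k5]
    have htc : ∀ k l, tc μ (fun w => gm f₀ i E (Tup b y k) w * g w l) =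
        p.rep k / p.rep i * g 0 l := by
      intro k l
      rw [tc_mul (hga k) (hg.coord_an l), Finset.sum_range_succ, Nat.sub_self, hy3 k]
      have e1 : ∑ x ∈ Finset.range μ, tc x (gm f₀ i E (Tup b y k)) * tc (μ - x) (fun w => g w l) = 0 :=
        Finset.sum_eq_zero fun x hx => by rw [hy2 k x (Finset.mem_range.1 hx), zero_mul]
      rw [e1, zero_add, tc_zero']
    have h1 : ∀ k l, p.rep k * g 0 l = p.rep l * g 0 k := by
      intro k l
      have h2 := htc k l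
      have h3 : tc μ (fun w => gm f₀ i E (Tup b y k) w * g w l) =
        tc μ (fun w => gm f₀ i E (Tup b y l) w * g w k) := tc_congr (hrel k l)
      rw [htc k l, htc l k] at h3
      have hpi := hc.pi
      field_simp at h3
      linear_combination h3
    obtain ⟨c, hc', k1⟩ := hg.2.2.self_of_nhds
    apply eq_of_prop2
    rw [k1]
    intro k l
    simp only [Pi.smul_apply, smul_eq_mul]
    have := h1 k l
    linear_combination (-c) * this
  have hmem : h ∈ Fam 𝒢 F p := ⟨hh, hinv, hcone, h00⟩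
  refine ⟨h, hmem, fun k => ?_⟩
  have hgr := grm_aff hh (hc.co0 hmem)
  refine ((hga k).frequently_eq_iff_eventually_eq
    ((hga i).mul (hgr.coord_an k))).1 (Eventually.frequently ?_)
  filter_upwards [hT 0 hb0, nhdsWithin_le_nhds (co_ne hh (hc.co0 hmem))] with w ⟨k1, k2⟩ k3
  have k4 := k2 k i
  have k5 : Tup b y k w * co h i w = Tup b y i w * co h k w := k4
  simp only [Pi.mul_apply]
  unfold gm
  rw [div_mul_div_comm, ← k5]
  exact (mul_div_mul_right _ _ k3).symm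

end Pool.Agent.H33
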