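import Pool.Agent.H33.QJ

/-! Bounded families of maps are finite. -/

set_option autoImplicit false

open Filter Topology Metric Set MvPolynomial LinearAlgebra.Projectivization

namespace Pool.Agent.H33

open Pool.Agent.Y190.OP Pool.Agent.W602.GT Pool.Agent.N155 Pool.Agent.N155.BB

variable {n : ℕ} {ι : Type} {F : ι → MvPolynomial (Fin (n + 1)) ℂ}
  {f f' f₀ h : ℂ → ℙ ℂ (Fin (n + 1) → ℂ)} {z : ℂ} {N M E D : ℕ} {S T : ℂ → ℂ}
  {𝒢 : Set (ℂ → ℂ)} {R R' ρ B C₁ : ℝ} {p : ℙ ℂ (Fin (n + 1) → ℂ)} {i : Fin (n + 1)}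
  {b : Fin D → ℂ → ℂ} {y : Fin (n + 1) × Fin D → ℂ} {μ : ℕ}

/-- the affine coordinates of a map -/
noncomputable def af (f : ℂ → ℙ ℂ (Fin (n + 1) → ℂ)) (i k : Fin (n + 1)) (z : ℂ) : ℂ :=
  co f k z / co f i z

theorem af_an (hf : HolD f) (h0 : (f 0).rep i ≠ 0) (k : Fin (n + 1)) : AnalyticAt ℂ (af f i k) 0 :=
  (grm_aff hf h0).coord_an k

theorem af_diff (hf : HolD f) (hz : z ∈ ball (0 : ℂ) 1) (h0 : co f i z ≠ 0) (k : Fin (n + 1)) :
    DifferentiableAt ℂ (af f i k) z := by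
  obtain ⟨g, hg⟩ := hf z hz
  obtain ⟨c, hc, h1⟩ := hg.2.2.self_of_nhds
  have h2 : g z i ≠ 0 := by
    intro h
    apply h0
    unfold co
    rw [h1, Pi.smul_apply, h, smul_zero]
  have h3 : AnalyticAt ℂ (fun z => g z k / g z i) z := (hg.coord_an k).div (hg.coord_an i) h2
  refine (h3.congr ?_).differentiableAt
  filter_upwards [hg.2.2] with w ⟨c, hc, k1⟩
  unfold af co
  rw [k1, Pi.smul_apply, Pi.smul_apply, smul_eq_mul, smul_eq_mul, mul_div_mul_left _ _ hc]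

/-- maps give parameters -/
theorem Ctx.mem_of_map (hc : Ctx 𝒢 F p i R R' ρ B C₁) (hf₀ : f₀ ∈ Fam 𝒢 F p)
    (hne : ∀ a ∈ ball (0 : ℂ) 1, ∃ b ∈ ball (0 : ℂ) 1, f₀ b ≠ f₀ a)
    (hb : ∀ j, b j ∈ VN 𝒢 f₀ E) (hspan : ∀ S ∈ VN 𝒢 f₀ E, ∃ c : Fin D → ℂ, S = fun z => ∑ j, c j * b j z)
    (hE : ∀ f ∈ Fam 𝒢 F p, ∀ (A : Finset ℂ) (m : ℂ → ℕ), (∀ a ∈ A, a ∈ closedBall (0 : ℂ) R) →
      (∀ a ∈ A, ∃ C : ℝ, ∀ᶠ z in 𝓝 a, nrm f 1 (co f i) z ≤ C * ‖(z - a) ^ m a‖ ^ 2) →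
      ∑ a ∈ A, m a ≤ E) {K : ℕ}
    (hK : ∀ f ∈ Fam 𝒢 F p, ∀ S : ℂ → ℂ, Sec f E S → InvG 𝒢 S →
      (∃ q : ℂ → ℂ, AnalyticAt ℂ q 0 ∧ ∀ᶠ w in 𝓝 0, gm f i E S w = w ^ K * q w) →
        ∀ z ∈ ball (0 : ℂ) 1, S z = 0) (hf : f ∈ Fam 𝒢 F p) :
    ∃ μ < K, ∃ y : Fin (n + 1) × Fin D → ℂ, Mem F f₀ p i E b μ y ∧ Rel f₀ i E b y f ∧
      ∀ z ∈ ball (0 : ℂ) 1, ∀ᶠ w in 𝓝[≠] z, Tup b y i w ≠ 0 ∧
        ∀ k, co f i w * Tup b y k w = co f k w * Tup b y i w := by
  have h0 := hc.co0 hf₀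
  have h0' := hc.co0 hf
  have hb0 : (0 : ℂ) ∈ ball (0 : ℂ) 1 := mem_ball_self one_pos
  obtain ⟨T, hT1, hT2, hT3, hT4, hT5⟩ := represent hc.grp (hc.RR.trans hc.R1) hf₀.1 hf.1 hf₀.2.1
    hf.2.1 hne h0 h0' (hE f hf)
  have hga := fun k => gm_analytic hf₀.1 h0 (hT1 k)
  have hgi0 : ¬ ∀ᶠ w in 𝓝 (0 : ℂ), gm f₀ i E (T i) w = 0 := by
    intro h
    have h2 : ∀ᶠ w in 𝓝[≠] (0 : ℂ), gm f₀ i E (T i) w = 0 ∧ co f₀ i w ≠ 0 :=
      nhdsWithin_le_nhds (h.and (co_ne hf₀.1 h0))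
    obtain ⟨w, k1, k2, k3⟩ := (((hT1 i).isolated hf₀.1 hT4 hb0).and h2).exists
    unfold gm at k2
    rcases div_eq_zero_iff.1 k2 with k4 | k4
    · exact k1 k4
    · exact pow_ne_zero _ k3 k4
  obtain ⟨μ, hμ1, hμ2⟩ := tc_exists (hga i) hgi0
  have hμK : μ < K := by
    by_contra hlt
    push Not at hlt
    obtain ⟨z, hz, hz'⟩ := hT4
    exact hz' (hK f₀ hf₀ (T i) (hT1 i) (hT2 i)
      (tc_big (hga i) fun j hj => hμ1 j (lt_of_lt_of_le hj hlt)) z hz)
  set a := tc μ (gm f₀ i E (T i)) with ha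
  have hTV : ∀ k, (fun z => a⁻¹ * T k z) ∈ VN 𝒢 f₀ E := fun k =>
    (VN 𝒢 f₀ E).smul_mem a⁻¹ (show T k ∈ VN 𝒢 f₀ E from ⟨hT1 k, hT2 k, hT3 k⟩)
  choose c hce using fun k => hspan _ (hTV k)
  set y : Fin (n + 1) × Fin D → ℂ := fun kj => c kj.1 kj.2 with hy
  have hTup : ∀ k, Tup b y k = fun z => a⁻¹ * T k z := fun k => (hce k).symm
  have hga' : ∀ k, AnalyticAt ℂ (gm f₀ i E (Tup b y k)) 0 := fun k => by
    rw [hTup]
    exact gm_analytic hf₀.1 h0 ((hT1 k).const_mul _)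
  have htc : ∀ m k, tc m (gm f₀ i E (Tup b y k)) = a⁻¹ * tc m (gm f₀ i E (T k)) := by
    intro m k
    have e : gm f₀ i E (Tup b y k) = fun z => a⁻¹ * gm f₀ i E (T k) z := by
      rw [hTup]
      exact funext fun z => gm_smul _ z
    rw [e, tc_const_mul]
  have hrelp : ∀ z ∈ ball (0 : ℂ) 1, ∀ᶠ w in 𝓝[≠] z, Tup b y i w ≠ 0 ∧
      ∀ k, co f i w * Tup b y k w = co f k w * Tup b y i w := by
    intro z hz
    filter_upwards [(hT1 i).isolated hf₀.1 hT4 hz, eventually_all.2 fun k => hT5 k z hz] with w k1 k2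
    refine ⟨?_, fun k => ?_⟩
    · rw [hTup]
      exact mul_ne_zero (inv_ne_zero hμ2) k1
    · rw [hTup, hTup]
      have := k2 k
      change co f i w * T k w = co f k w * T i w at this
      simp only
      linear_combination a⁻¹ * this
  have hrel : Rel f₀ i E b y f := by
    intro k
    refine ((hga' k).frequently_eq_iff_eventually_eq
      ((hga' i).mul (af_an hf.1 h0' k))).1 (Eventually.frequently ?_)
    filter_upwards [hrelp 0 hb0, nhdsWithin_le_nhds (co_ne hf.1 h0')] with w ⟨k1, k2⟩ k3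
    have k5 := k2 k
    simp only [Pi.mul_apply]
    unfold gm af
    rw [div_mul_div_comm, mul_comm (Tup b y i w), ← k5, mul_comm (co f i w)]
    exact (mul_div_mul_right _ _ k3).symm
  have hi1 : tc μ (gm f₀ i E (Tup b y i)) = 1 := by
    rw [htc]
    exact inv_mul_cancel₀ hμ2
  have hi0 : ∀ m < μ, tc m (gm f₀ i E (Tup b y i)) = 0 := fun m hm => by
    rw [htc, hμ1 m hm, mul_zero]
  have hk := fun (k : Fin (n + 1)) (m : ℕ) => tc_mul (m := m) (hga' i) (af_an hf.1 h0' k)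
  have htk : ∀ k m, tc m (gm f₀ i E (Tup b y k)) =
      tc m (fun w => gm f₀ i E (Tup b y i) w * af f i k w) := fun k m => tc_congr (hrel k)
  refine ⟨μ, hμK, y, ⟨fun z hz j => ?_, fun k m hm => ?_, fun k => ?_⟩, hrel, hrelp⟩
  · obtain ⟨e, he⟩ := hc.form j
    obtain ⟨g, hg⟩ := hf₀.1 z hz
    have hTs := fun k => (Tup_mem hb y k).1 z hz g hg
    choose t ht using hTs
    have h1 : ∀ᶠ w in 𝓝[≠] z, eval (fun k => t k w) (F j) = 0 := by
      filter_upwards [hrelp z hz, nhdsWithin_le_nhds hg.2.2,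
        nhdsWithin_le_nhds (eventually_all.2 fun k => (ht k).2),
        nhdsWithin_le_nhds (isOpen_ball.mem_nhds hz)] with w ⟨k1, k2⟩ ⟨c', hc', k3⟩ k4 k5
      have k6 := (hf.2.2.1 w k5).2 j
      rw [val_eval] at k6
      -- co f i w ≠ 0
      have k7 : co f i w ≠ 0 := by
        intro hz0
        have h9 : (f w).rep = 0 := by
          funext k
          have := k2 k
          rw [hz0, zero_mul] at this
          exact (mul_eq_zero.1 this.symm).resolve_right k1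
        exact Projectivization.rep_nonzero _ h9
      have k8 : (fun k => Tup b y k w) = (Tup b y i w / co f i w) • (f w).rep := by
        funext k
        have := k2 k
        rw [Pi.smul_apply, smul_eq_mul, div_mul_eq_mul_div, eq_div_iff k7]
        change Tup b y k w * co f i w = Tup b y i w * co f k w
        linear_combination this
      have k9 : (fun k => Tup b y k w) = (c' ^ E) • (fun k => t k w) :=
        funext fun k => k4 k c' k3
      have k10 : eval (fun k => Tup b y k w) (F j) = 0 := by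
        rw [k8, eval_smul he, k6, mul_zero]
      rw [k9, eval_smul he] at k10
      exact (mul_eq_zero.1 k10).resolve_left (pow_ne_zero _ (pow_ne_zero _ hc'))
    have h2 : ContinuousAt (fun w => eval (fun k => t k w) (F j)) z := by
      have h3 : Continuous fun y : Fin (n + 1) → ℂ => eval y (F j) := (F j).continuous_eval
      have h4 : ContinuousAt (fun w => (fun k => t k w : Fin (n + 1) → ℂ)) z :=
        continuousAt_pi.2 fun k => (ht k).1.continuousAt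
      exact h3.continuousAt.comp h4
    have h3 : Tendsto (fun w => eval (fun k => t k w) (F j)) (𝓝[≠] z)
        (𝓝 (eval (fun k => t k z) (F j))) := h2.continuousWithinAt
    have h4 : eval (fun k => t k z) (F j) = 0 :=
      tendsto_nhds_unique h3 (tendsto_const_nhds.congr' (h1.mono fun w hw => hw.symm))
    obtain ⟨c', hc', k1⟩ := hg.2.2.self_of_nhds
    have h5 : (fun k => Tup b y k z) = (c' ^ E) • (fun k => t k z) :=
      funext fun k => (ht k).2.self_of_nhds c' k1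
    rw [h5, eval_smul he, h4, mul_zero]
  · rw [htk, hk]
    refine Finset.sum_eq_zero fun x hx => ?_
    rw [hi0 x (by have := Finset.mem_range.1 hx; omega), zero_mul]
  · rw [htk, hk, Finset.sum_range_succ, Nat.sub_self, hi1, tc_zero', one_mul]
    have e1 : ∑ x ∈ Finset.range μ, tc x (gm f₀ i E (Tup b y i)) * tc (μ - x) (af f i k) = 0 :=
      Finset.sum_eq_zero fun x hx => by rw [hi0 x (Finset.mem_range.1 hx), zero_mul]
    rw [e1, zero_add]
    unfold af co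
    rw [hf.2.2.2]

/-- the Taylor coefficients of the maps are polynomials in the parameters -/
theorem Ctx.poly (hc : Ctx 𝒢 F p i R R' ρ B C₁) (hf₀ : f₀ ∈ Fam 𝒢 F p)
    (hb : ∀ j, b j ∈ VN 𝒢 f₀ E) (μ m : ℕ) :
    ∃ q : Fin (n + 1) → MvPolynomial (Fin (n + 1) × Fin D) ℂ,
      ∀ y, Mem F f₀ p i E b μ y → ∀ h ∈ Fam 𝒢 F p, Rel f₀ i E b y h →
        ∀ k, tc m (af h i k) = eval y (q k) := by
  induction m using Nat.strong_induction_on with
  | _ m ih =>
    choose! q hq using ih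
    refine ⟨fun k => Lf f₀ i E b (μ + m) k -
      ∑ l ∈ Finset.range m, Lf f₀ i E b (μ + (l + 1)) i * q (m - (l + 1)) k, ?_⟩
    intro y hy h hh hr k
    have h0 := hc.co0 hf₀
    have hga := fun k => gm_analytic hf₀.1 h0 (Tup_mem hb y k).1
    have h1 : tc μ (gm f₀ i E (Tup b y i)) = 1 := by
      rw [hy.2.2 i, div_self hc.pi]
    rw [tc_quot (hga i) (af_an hh.1 (hc.co0 hh) k) (hr k) (hy.2.1 i) h1 m, eval_sub,
      eval_Lf hf₀.1 h0 hb, eval_sum]
    congr 1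
    refine Finset.sum_congr rfl fun l hl => ?_
    have hl' := Finset.mem_range.1 hl
    rw [eval_mul, eval_Lf hf₀.1 h0 hb, ← hq (m - (l + 1)) (by omega) y hy h hh hr k]

end Pool.Agent.H33
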