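import Pool.Agent.H33.QK

/-! Bounded families of maps are finite: conclusion. -/

set_option autoImplicit false

open Filter Topology Metric Set MvPolynomial LinearAlgebra.Projectivization

namespace Pool.Agent.H33

open Pool.Agent.Y190.OP Pool.Agent.W602.GT Pool.Agent.N155 Pool.Agent.N155.BB

variable {n : ℕ} {ι : Type} {F : ι → MvPolynomial (Fin (n + 1)) ℂ}
  {f f' f₀ h : ℂ → ℙ ℂ (Fin (n + 1) → ℂ)} {z : ℂ} {N M E D : ℕ} {S T : ℂ → ℂ}
  {𝒢 : Set (ℂ → ℂ)} {R R' ρ B C₁ : ℝ} {p : ℙ ℂ (Fin (n + 1) → ℂ)} {i : Fin (n + 1)}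
  {b : Fin D → ℂ → ℂ} {y : Fin (n + 1) × Fin D → ℂ} {μ : ℕ}

theorem Ctx.tc_le (hc : Ctx 𝒢 F p i R R' ρ B C₁) (hh : h ∈ Fam 𝒢 F p) (m : ℕ) (k : Fin (n + 1)) :
    ‖tc m (af h i k)‖ ≤ C₁ / ρ ^ m := by
  refine tc_bound hc.r0 (fun z hz => ?_) fun z hz => (hc.chart h hh z hz).2 k
  exact (af_diff hh.1 (closedBall_subset_ball hc.r1 hz)
    (hc.chart h hh z hz).1 k).differentiableWithinAt

/-- maps with the same Taylor coefficients -/
theorem Ctx.inj (hc : Ctx 𝒢 F p i R R' ρ B C₁) (hf₀ : f₀ ∈ Fam 𝒢 F p)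
    (hne : ∀ a ∈ ball (0 : ℂ) 1, ∃ b ∈ ball (0 : ℂ) 1, f₀ b ≠ f₀ a)
    (hE : ∀ f ∈ Fam 𝒢 F p, ∀ (A : Finset ℂ) (m : ℂ → ℕ), (∀ a ∈ A, a ∈ closedBall (0 : ℂ) R) →
      (∀ a ∈ A, ∃ C : ℝ, ∀ᶠ z in 𝓝 a, nrm f 1 (co f i) z ≤ C * ‖(z - a) ^ m a‖ ^ 2) →
      ∑ a ∈ A, m a ≤ E) {K : ℕ}
    (hK : ∀ f ∈ Fam 𝒢 F p, ∀ S : ℂ → ℂ, Sec f (E + E) S → InvG 𝒢 S →
      (∃ q : ℂ → ℂ, AnalyticAt ℂ q 0 ∧ ∀ᶠ w in 𝓝 0, gm f i (E + E) S w = w ^ K * q w) →
        ∀ z ∈ ball (0 : ℂ) 1, S z = 0) (hf : f ∈ Fam 𝒢 F p) (hf' : f' ∈ Fam 𝒢 F p)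
    (htc : ∀ m < K, ∀ k, tc m (af f i k) = tc m (af f' i k)) :
    ∀ z ∈ ball (0 : ℂ) 1, f z = f' z := by
  have h0 := hc.co0 hf₀
  have h1 := hc.co0 hf
  have h1' := hc.co0 hf'
  have hb0 : (0 : ℂ) ∈ ball (0 : ℂ) 1 := mem_ball_self one_pos
  obtain ⟨T, hT1, hT2, hT3, hT4, hT5⟩ := represent hc.grp (hc.RR.trans hc.R1) hf₀.1 hf.1 hf₀.2.1
    hf.2.1 hne h0 h1 (hE f hf)
  obtain ⟨T', hT1', hT2', hT3', hT4', hT5'⟩ := represent hc.grp (hc.RR.trans hc.R1) hf₀.1 hf'.1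
    hf₀.2.1 hf'.2.1 hne h0 h1' (hE f' hf')
  have hz : ∀ k, ∀ z ∈ ball (0 : ℂ) 1, T k z * T' i z + -1 * (T' k z * T i z) = 0 := by
    intro k
    refine hK f₀ hf₀ _ (((hT1 k).mul (hT1' i)).add (((hT1' k).mul (hT1 i)).const_mul (-1)))
      (fun γ hγ z hz => ?_) ?_
    · rw [hT2 k γ hγ z hz, hT2 i γ hγ z hz, hT2' k γ hγ z hz, hT2' i γ hγ z hz]
    · have a1 := af_an hf.1 h1 k
      have a2 := af_an hf'.1 h1' k
      have a3 : AnalyticAt ℂ (fun z => af f i k z + -1 * af f' i k z) 0 :=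
        a1.add (analyticAt_const.mul a2)
      obtain ⟨q, hq, hqe⟩ := tc_big a3 (K := K) fun j hj => by
        have a4 : AnalyticAt ℂ (fun z => -1 * af f' i k z) 0 := analyticAt_const.mul a2
        rw [tc_add a1 a4, tc_const_mul, htc j hj k]
        ring
      have g1 := gm_analytic hf₀.1 h0 (hT1 i)
      have g2 := gm_analytic hf₀.1 h0 (hT1' i)
      have hS : Sec f₀ (E + E) fun z => T k z * T' i z + -1 * (T' k z * T i z) :=
        ((hT1 k).mul (hT1' i)).add (((hT1' k).mul (hT1 i)).const_mul (-1))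
      have g3 := gm_analytic hf₀.1 h0 hS
      have g4 : AnalyticAt ℂ (fun w => gm f₀ i E (T i) w * gm f₀ i E (T' i) w * q w) 0 :=
        (g1.mul g2).mul hq
      refine ⟨fun w => gm f₀ i E (T i) w * gm f₀ i E (T' i) w * q w, g4, ?_⟩
      have g5 : AnalyticAt ℂ (fun w => w ^ K * (gm f₀ i E (T i) w * gm f₀ i E (T' i) w * q w)) 0 :=
        (analyticAt_id.pow K).mul g4
      refine (g3.frequently_eq_iff_eventually_eq g5).1 (Eventually.frequently ?_)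
      filter_upwards [hT5 k 0 hb0, hT5' k 0 hb0, nhdsWithin_le_nhds (co_ne hf.1 h1),
        nhdsWithin_le_nhds (co_ne hf'.1 h1'), nhdsWithin_le_nhds (co_ne hf₀.1 h0),
        nhdsWithin_le_nhds hqe] with w k1 k2 k3 k4 k5 k6
      have e1 : T k w = T i w * af f i k w := by
        unfold af
        rw [mul_div_assoc', eq_div_iff k3]
        change T k w * (f w).rep i = T i w * (f w).rep k
        linear_combination k1
      have e2 : T' k w = T' i w * af f' i k w := by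
        unfold af
        rw [mul_div_assoc', eq_div_iff k4]
        change T' k w * (f' w).rep i = T' i w * (f' w).rep k
        linear_combination k2
      have e3 : T k w * T' i w + -1 * (T' k w * T i w) = T i w * T' i w * (w ^ K * q w) := by
        rw [← k6, e1, e2]
        ring
      have e4 : co f₀ i w ^ E ≠ 0 := pow_ne_zero _ k5
      simp only [gm]
      rw [e3, pow_add]
      field_simp
  intro z hzb
  refine hf.1.eq_of_punctured hf'.1 hzb ?_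
  filter_upwards [(hT1 i).isolated hf₀.1 hT4 hzb, (hT1' i).isolated hf₀.1 hT4' hzb,
    eventually_all.2 fun k => hT5 k z hzb, eventually_all.2 fun k => hT5' k z hzb,
    nhdsWithin_le_nhds (isOpen_ball.mem_nhds hzb)] with w k1 k2 k3 k4 k5
  -- both coordinates are nonzero
  have c1 : (f w).rep i ≠ 0 := by
    intro h9
    apply Projectivization.rep_nonzero (f w)
    funext k
    have := k3 k
    rw [h9, zero_mul] at this
    exact (mul_eq_zero.1 this.symm).resolve_right k1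
  have c2 : (f' w).rep i ≠ 0 := by
    intro h9
    apply Projectivization.rep_nonzero (f' w)
    funext k
    have := k4 k
    rw [h9, zero_mul] at this
    exact (mul_eq_zero.1 this.symm).resolve_right k2
  have c3 : ∀ k, (f w).rep k * (f' w).rep i = (f' w).rep k * (f w).rep i := by
    intro k
    have d1 := k3 k
    have d2 := k4 k
    have d3 := hz k w k5
    apply mul_left_cancel₀ (mul_ne_zero k1 k2)
    linear_combination (-(f' w).rep i * T' i w) * d1 + ((f w).rep i * T i w) * d2 +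
      ((f w).rep i * (f' w).rep i) * d3
  apply eq_of_prop2
  intro k l
  have d1 := c3 k
  have d2 := c3 l
  apply mul_left_cancel₀ (mul_ne_zero c1 c2)
  linear_combination ((f w).rep i * (f' w).rep l) * d1 - ((f w).rep i * (f' w).rep k) * d2

/-- **Finiteness.** -/
theorem Ctx.fin (hc : Ctx 𝒢 F p i R R' ρ B C₁) : ∃ (K : ℕ)
    (Ψ : (ℂ → ℙ ℂ (Fin (n + 1) → ℂ)) → (Fin K × Fin (n + 1) → ℂ)),
    (Ψ '' Fam 𝒢 F p).Finite ∧ ∀ f ∈ Fam 𝒢 F p, ∀ f' ∈ Fam 𝒢 F p, Ψ f = Ψ f' →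
      ∀ z ∈ ball (0 : ℂ) 1, f z = f' z := by
  classical
  have hb0 : (0 : ℂ) ∈ ball (0 : ℂ) 1 := mem_ball_self one_pos
  by_cases hcst : ∀ f ∈ Fam 𝒢 F p, ∀ z ∈ ball (0 : ℂ) 1, f z = p
  · exact ⟨0, fun _ _ => 0, (Set.finite_singleton (fun _ => 0)).subset (by
      rintro _ ⟨f, -, rfl⟩
      rfl), fun f hf f' hf' _ z hz => by rw [hcst f hf z hz, hcst f' hf' z hz]⟩
  push Not at hcst
  obtain ⟨f₀, hf₀, z₁, hz₁, hne₁⟩ := hcst
  have hne : ∀ a ∈ ball (0 : ℂ) 1, ∃ b ∈ ball (0 : ℂ) 1, f₀ b ≠ f₀ a := by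
    intro a ha
    by_contra hcon
    push Not at hcon
    apply hne₁
    rw [hcon z₁ hz₁, ← hcon 0 hb0]
    exact hf₀.2.2.2
  have h0 := hc.co0 hf₀
  obtain ⟨E, hE⟩ := hc.count
  obtain ⟨K, hK⟩ := hc.vanish' E
  obtain ⟨K₂, hK₂⟩ := hc.vanish' (E + E)
  have := hc.finite hf₀ E
  set D := Module.finrank ℂ (VN 𝒢 f₀ E) with hD
  set e := Module.finBasis ℂ (VN 𝒢 f₀ E) with he
  set b : Fin D → ℂ → ℂ := fun j => (e j).1 with hb'
  have hb : ∀ j, b j ∈ VN 𝒢 f₀ E := fun j => (e j).2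
  have hspan : ∀ S ∈ VN 𝒢 f₀ E, ∃ c : Fin D → ℂ, S = fun z => ∑ j, c j * b j z := by
    intro S hS
    refine ⟨fun j => e.repr ⟨S, hS⟩ j, ?_⟩
    have h1 := congrArg Subtype.val (e.sum_repr ⟨S, hS⟩)
    funext z
    have h2 := congrFun h1 z
    simp only [AddSubmonoidClass.coe_finsetSum, SetLike.val_smul, Finset.sum_apply,
      Pi.smul_apply, smul_eq_mul] at h2
    exact h2.symm
  choose q hq using fun μ m => hc.poly hf₀ hb μ m
  set V : ℕ → Fin (n + 1) → Set ℂ := fun m k => ⋃ μ ∈ Finset.range K,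
    {c : ℂ | ∃ y, (∀ r ∈ Eqs F f₀ p i E b μ, eval y r = 0) ∧ eval y (q μ m k) = c} with hV
  have hVfin : ∀ m k, (V m k).Finite := by
    intro m k
    refine Set.Finite.biUnion (Finset.range K).finite_toSet fun μ _ => ?_
    refine finite_values (Eqs F f₀ p i E b μ) (q μ m k) (B := C₁ / ρ ^ m) fun y hy => ?_
    have hy' := (mem_Eqs hf₀.1 h0 hb).1 hy
    obtain ⟨h, hh, hr⟩ := hc.map_of_mem hf₀ hb hy'
    rw [← hq μ m y hy' h hh hr k]
    exact hc.tc_le hh m k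
  refine ⟨K₂, fun f mk => tc mk.1 (af f i mk.2), ?_, fun f hf f' hf' hΨ => ?_⟩
  · refine (Set.Finite.pi fun mk : Fin K₂ × Fin (n + 1) => hVfin mk.1 mk.2).subset ?_
    rintro _ ⟨f, hf, rfl⟩
    rw [Set.mem_univ_pi]
    rintro ⟨m, k⟩
    obtain ⟨μ, hμ, y, hy, hr, -⟩ := hc.mem_of_map hf₀ hne hb hspan hE hK hf
    simp only [hV, Set.mem_iUnion]
    exact ⟨μ, Finset.mem_range.2 hμ, y, (mem_Eqs hf₀.1 h0 hb).2 hy, (hq μ m y hy f hf hr k).symm⟩
  · exact hc.inj hf₀ hne hE hK₂ hf hf' fun m hm k => congrFun hΨ (⟨m, hm⟩, k)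

end Pool.Agent.H33
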