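import Pool.Agent.H33.QL
import Pool.Agent.H33.MI

/-! Families of maps which are uniformly Lipschitz. -/

set_option autoImplicit false

open Filter Topology Metric Set MvPolynomial LinearAlgebra.Projectivization
open scoped UpperHalfPlane ComplexConjugate MatrixGroups

namespace Pool.Agent.H33

open Pool.Agent.Y190.OP Pool.Agent.W602.GT Pool.Agent.N155 Pool.Agent.N155.BB

variable {n : ℕ} {ι : Type} {F : ι → MvPolynomial (Fin (n + 1)) ℂ}
  {f f' f₀ h : ℂ → ℙ ℂ (Fin (n + 1) → ℂ)} {z : ℂ}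
  {𝒢 : Set (ℂ → ℂ)} {R R' ρ B C₁ : ℝ} {p : ℙ ℂ (Fin (n + 1) → ℂ)} {i : Fin (n + 1)}

theorem Phi_diag (x : Fin (n + 1) → ℂ) (k : Fin (n + 1)) :
    Phi x k k = ((‖x k‖ ^ 2 / sqn x : ℝ) : ℂ) := by
  unfold Phi
  rw [Complex.mul_conj, Complex.normSq_eq_norm_sq, nsq_eq]
  unfold sqn
  push_cast
  rfl

theorem ctx_of_lip (hG : Grp 𝒢 R) (hR0 : 0 < R) (hRR : R < R') (hR1 : R' < 1)
    (hF : ∀ j, IsForm (F j)) {L : ℝ} (hL : 0 ≤ L)
    (hlip : ∀ h ∈ Fam 𝒢 F p, ∀ z ∈ closedBall (0 : ℂ) R', ∀ w ∈ closedBall (0 : ℂ) R',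
      ‖Phi (h z).rep - Phi (h w).rep‖ ≤ L * ‖z - w‖) :
    ∃ (i : Fin (n + 1)) (ρ B C₁ : ℝ), Ctx 𝒢 F p i R R' ρ B C₁ := by
  obtain ⟨i, hi⟩ := Function.ne_iff.1 (Projectivization.rep_nonzero p)
  have hi : p.rep i ≠ 0 := hi
  obtain ⟨A, hA, hwed⟩ := Pool.Agent.N155.GD.wedge_fderivOn n
  have hR'0 : 0 < R' := hR0.trans hRR
  set δ : ℝ := ‖p.rep i‖ ^ 2 / sqn p.rep with hδ
  have hsp := sqn_pos (Projectivization.rep_nonzero p)
  have hδ0 : 0 < δ := by
    have h1 := norm_pos_iff.2 hi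
    positivity
  refine ⟨i, min R' (δ / (2 * (L + 1))), (A * L) ^ 2, Real.sqrt (2 / δ), hG, hR0, hRR, hR1,
    by positivity, (min_le_left _ _).trans_lt hR1, by positivity, hF, hi, fun h hh z hz g hg => ?_,
    fun h hh z hz => ?_⟩
  · -- the speed
    have hz1 : z ∈ ball (0 : ℂ) 1 := ball_subset_ball hR1.le hz
    obtain ⟨V, hV1, hV2, hV3⟩ := _root_.eventually_nhds_iff.1
      (hg.1.eventually_analyticAt.and (hg.2.2.and hg.ne))
    have h1 := (hwed h V g hV2 (fun w hw => (hV1 w hw).1.differentiableAt.differentiableWithinAt)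
      (fun w hw => by
        obtain ⟨-, ⟨c, hc, k1⟩, k2⟩ := hV1 w hw
        exact ⟨k2, proj_eq k2 k1⟩) z hV3).2
    have h2 : ‖fderiv ℝ (fun z => Phi (h z).rep) z‖ ≤ L := by
      refine norm_fderiv_le_of_lip' ℝ hL ?_
      filter_upwards [isOpen_ball.mem_nhds hz] with w hw
      exact hlip h hh w (ball_subset_closedBall hw) z (ball_subset_closedBall hz)
    have h3 : 0 < sqn (g z) := sqn_pos hg.2.1
    have h4 : wedge (g z) (deriv g z) / sqn (g z) ≤ A * L := by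
      rw [div_le_iff₀ h3]
      refine h1.trans ?_
      exact mul_le_mul_of_nonneg_right (mul_le_mul_of_nonneg_left h2 hA.le) h3.le
    have h5 : 0 ≤ wedge (g z) (deriv g z) / sqn (g z) := div_nonneg (wedge_nonneg _ _) h3.le
    exact pow_le_pow_left₀ h5 h4 2
  · have hz' := mem_closedBall_zero_iff.1 hz
    have hzR : z ∈ closedBall (0 : ℂ) R' := mem_closedBall_zero_iff.2 (hz'.trans (min_le_left _ _))
    have h1 := hlip h hh z hzR 0 (mem_closedBall_self hR'0.le)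
    have h0 : h 0 = p := hh.2.2.2
    rw [h0, sub_zero] at h1
    have h2 : L * ‖z‖ ≤ δ / 2 := by
      have k1 : ‖z‖ ≤ δ / (2 * (L + 1)) := hz'.trans (min_le_right _ _)
      have k2 : (L + 1) * ‖z‖ ≤ (L + 1) * (δ / (2 * (L + 1))) :=
        mul_le_mul_of_nonneg_left k1 (by positivity)
      have k3 : (L + 1) * (δ / (2 * (L + 1))) = δ / 2 := by field_simp
      have k4 := norm_nonneg z
      nlinarith
    have h3 : ‖Phi (h z).rep i i - Phi p.rep i i‖ ≤ δ / 2 := by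
      have k1 : ‖(Phi (h z).rep - Phi p.rep) i i‖ ≤ ‖Phi (h z).rep - Phi p.rep‖ :=
        (norm_le_pi_norm ((Phi (h z).rep - Phi p.rep) i) i).trans
          (norm_le_pi_norm (Phi (h z).rep - Phi p.rep) i)
      exact k1.trans (h1.trans h2)
    rw [Phi_diag, Phi_diag, ← Complex.ofReal_sub, Complex.norm_real, Real.norm_eq_abs] at h3
    have h4 := (abs_le.1 h3).1
    have hsz := sqn_pos (Projectivization.rep_nonzero (h z))
    have h5 : δ / 2 ≤ ‖(h z).rep i‖ ^ 2 / sqn (h z).rep := by linarith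
    have h6 : co h i z ≠ 0 := by
      intro hc
      have hc' : (h z).rep i = 0 := hc
      rw [hc', norm_zero] at h5
      simp at h5
      linarith
    refine ⟨h6, fun k => ?_⟩
    have h7 : ‖co h k z‖ ^ 2 ≤ sqn (h z).rep :=
      Finset.single_le_sum (f := fun k => ‖(h z).rep k‖ ^ 2) (fun k _ => sq_nonneg _)
        (Finset.mem_univ k)
    rw [le_div_iff₀ hsz] at h5
    have h8 : 0 < ‖co h i z‖ := norm_pos_iff.2 h6
    have h9 : ‖co h k z / co h i z‖ ^ 2 ≤ 2 / δ := by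
      rw [norm_div, div_pow, div_le_div_iff₀ (by positivity) hδ0]
      have : δ / 2 * ‖co h k z‖ ^ 2 ≤ ‖co h i z‖ ^ 2 :=
        (mul_le_mul_of_nonneg_left h7 (by positivity)).trans h5
      linarith
    calc ‖co h k z / co h i z‖ = Real.sqrt (‖co h k z / co h i z‖ ^ 2) :=
          (Real.sqrt_sq (norm_nonneg _)).symm
      _ ≤ _ := Real.sqrt_le_sqrt h9

/-! ### Disc coordinates -/

/-- the inverse of the disc coordinate -/
noncomputable def icay (c : ℍ) (w : ℂ) : ℂ := (w - c) / (w - conj (c : ℂ))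

theorem sub_conj_ne (c : ℍ) {w : ℂ} (hw : 0 < w.im) : w - conj (c : ℂ) ≠ 0 := by
  intro h
  have h1 := congrArg Complex.im h
  simp at h1
  have h2 := c.im_pos
  linarith

theorem icay_mem (c w : ℍ) : icay c w ∈ ball (0 : ℂ) 1 := by
  have h2 : ‖icay c w‖ = Real.tanh (dist w c / 2) := by
    rw [UpperHalfPlane.tanh_half_dist, Complex.dist_eq, Complex.dist_eq, icay, norm_div]
  rw [mem_ball_zero_iff, h2]
  exact Real.tanh_lt_one _

theorem cayH_icay (c w : ℍ) : cayH c (icay c w) = w := by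
  apply UpperHalfPlane.coe_injective
  rw [coe_cayH c (icay_mem c w)]
  have h4 := one_sub_ne (icay_mem c w)
  have h0 := sub_conj_ne c w.im_pos
  have h5 : (w : ℂ) - conj (c : ℂ) ≠ 0 := h0
  unfold cay
  rw [div_eq_iff h4, icay]
  field_simp
  ring

theorem icay_self (c : ℍ) : icay c c = 0 := by simp [icay]

theorem icay_cayH (c : ℍ) {ζ : ℂ} (hζ : ζ ∈ ball (0 : ℂ) 1) : icay c (cayH c ζ) = ζ := by
  apply cay_inj c (icay_mem c _) hζ
  have h1 := cayH_icay c (cayH c ζ)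
  have h2 := coe_cayH c (icay_mem c (cayH c ζ))
  rw [← h2, h1, coe_cayH c hζ]

theorem icay_diff (c : ℍ) {w : ℂ} (hw : 0 < w.im) : DifferentiableAt ℂ (icay c) w := by
  unfold icay
  exact (differentiableAt_id.sub_const _).div (differentiableAt_id.sub_const _) (sub_conj_ne c hw)

end Pool.Agent.H33
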