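import Pool.Agent.H33.QM

/-! Pointed maps from compact Riemann surfaces. -/

set_option autoImplicit false

open Filter Topology Metric Set MvPolynomial LinearAlgebra.Projectivization
open scoped UpperHalfPlane ComplexConjugate MatrixGroups

namespace Pool.Agent.H33

open Pool.Agent.Y190.OP Pool.Agent.W602.GT Pool.Agent.N155 Pool.Agent.N155.BB
open Pool.Agent.N154.GG (projDist)

variable {n : ℕ} {ι : Type} {F : ι → MvPolynomial (Fin (n + 1)) ℂ}
  {h : ℂ → ℙ ℂ (Fin (n + 1) → ℂ)} {z : ℂ} {f : ℍ → ℙ ℂ (Fin (n + 1) → ℂ)}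
  {𝒢 : Set (ℂ → ℂ)} {r R R' : ℝ} {p : ℙ ℂ (Fin (n + 1) → ℂ)} {i : Fin (n + 1)}
  {Γ : Subgroup SL(2, ℝ)} {c : ℍ}

/-- the group in disc coordinates -/
def pull (Γ : Subgroup SL(2, ℝ)) (c : ℍ) : Set (ℂ → ℂ) :=
  {δ | ∃ γ ∈ Γ, δ = fun ζ => icay c ((γ • cayH c ζ : ℍ) : ℂ)}

theorem grp_pull (hΓ : Cocompact Γ r) (c : ℍ) : ∃ R, 0 < R ∧ R < 1 ∧ Grp (pull Γ c) R := by
  obtain ⟨z₀, hz₀⟩ := hΓ
  have hr0 : 0 ≤ r := by
    obtain ⟨γ, -, hγ⟩ := hz₀ z₀
    exact dist_nonneg.trans hγ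
  have hd := dist_nonneg (x := z₀) (y := c)
  refine ⟨Real.tanh ((r + dist z₀ c + 1) / 2), ?_, Real.tanh_lt_one _, ?_⟩
  · rw [Real.tanh_eq_sinh_div_cosh]
    exact div_pos (Real.sinh_pos_iff.2 (by linarith)) (Real.cosh_pos _)
  refine ⟨?_, ?_, ?_, ?_⟩
  · rintro _ ⟨γ, hγ, rfl⟩
    intro ζ hζ
    set g : GL (Fin 2) ℝ := (γ : GL (Fin 2) ℝ) with hg
    have hdet : 0 < g.val.det := by
      rw [hg]
      simp
    have h1 : DifferentiableAt ℂ (fun w : ℂ => ((g • UpperHalfPlane.ofComplex w : ℍ) : ℂ)) (cay c ζ) := by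
      have := (UpperHalfPlane.hasStrictDerivAt_smul hdet (cayH c ζ)).hasDerivAt.differentiableAt
      rwa [coe_cayH c hζ] at this
    have h2 : DifferentiableAt ℂ (cay c) ζ := (hasDerivAt_cay c hζ).differentiableAt
    have h3 : DifferentiableAt ℂ (icay c) ((g • UpperHalfPlane.ofComplex (cay c ζ) : ℍ) : ℂ) :=
      icay_diff c (UpperHalfPlane.im_pos _)
    exact (DifferentiableAt.comp ζ (g := fun w => icay c ((g • UpperHalfPlane.ofComplex w : ℍ) : ℂ))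
      (DifferentiableAt.comp (cay c ζ) h3 h1) h2).differentiableWithinAt
  · rintro _ ⟨γ, hγ, rfl⟩ ζ hζ
    exact icay_mem c _
  · rintro _ ⟨γ, hγ, rfl⟩ ζ hζ ξ hξ h
    have h1 := congrArg (cayH c) h
    simp only at h1
    rw [cayH_icay, cayH_icay] at h1
    have h2 := MulAction.injective γ h1
    apply cay_inj c hζ hξ
    rw [← coe_cayH c hζ, ← coe_cayH c hξ, h2]
  · intro ζ hζ
    obtain ⟨γ, hγ, h1⟩ := hz₀ (cayH c ζ)
    refine ⟨_, ⟨γ, hγ, rfl⟩, ?_⟩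
    rw [mem_closedBall_zero_iff, ← tanh_cayH c (icay_mem c _), cayH_icay]
    apply tanh_mono
    have h2 := dist_triangle (γ • cayH c ζ) z₀ c
    rw [dist_comm c]
    linarith

/-- from the upper half plane to the disc -/
theorem down_mem (hf : HolH (Cone F) f) (hinv : ∀ γ ∈ Γ, ∀ z : ℍ, f (γ • z) = f z) (hp : f c = p) :
    (fun ζ => f (cayH c ζ)) ∈ Fam (pull Γ c) F p := by
  refine ⟨fun ζ hζ => ?_, ?_, fun ζ _ => (hf _).1, ?_⟩
  · obtain ⟨V, g, hV, hz⟩ := hf.lift (cayH c ζ)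
    rw [coe_cayH c hζ] at hz
    have h1 : AnalyticAt ℂ (cay c) ζ :=
      (differentiableOn_cay c).analyticAt (isOpen_ball.mem_nhds hζ)
    have h2 := V
    refine ⟨fun s => g (cay c s), (hV.analyticAt hz).comp h1, ?_, ?_⟩
    · have := (hV.eq (cayH c ζ) (by rw [coe_cayH c hζ]; exact hz)).1
      rwa [coe_cayH c hζ] at this
    · filter_upwards [h1.continuousAt.eventually (hV.op.mem_nhds hz), isOpen_ball.mem_nhds hζ]
        with s k1 k2
      obtain ⟨e1, e2⟩ := hV.rep (z := cayH c s) (by rw [coe_cayH c k2]; exact k1)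
      rw [coe_cayH c k2] at e2
      exact ⟨e1, e2⟩
  · rintro _ ⟨γ, hγ, rfl⟩ ζ hζ
    simp only
    rw [cayH_icay, hinv γ hγ]
  · change f (cayH c 0) = p
    rw [cayH_zero, hp]

/-- from the disc to the upper half plane -/
theorem up_mem (hh : h ∈ Fam (pull Γ c) F p) : HolH (Cone F) (fun w : ℍ => h (icay c w)) ∧
    (∀ γ ∈ Γ, ∀ z : ℍ, h (icay c (γ • z : ℍ)) = h (icay c z)) ∧ h (icay c c) = p := by
  refine ⟨fun w => ⟨hh.2.2.1 _ (icay_mem c w), ?_⟩, fun γ hγ z => ?_, ?_⟩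
  · obtain ⟨g, hg⟩ := hh.1 _ (icay_mem c w)
    have h1 : ContinuousAt (icay c) w := (icay_diff c w.im_pos).continuousAt
    obtain ⟨V, hV1, hV2, hV3⟩ := _root_.eventually_nhds_iff.1
      ((h1.eventually (hg.1.eventually_analyticAt.and (hg.2.2.and hg.ne))).and
        (isOpen_upper.mem_nhds (coe_upper w)))
    refine ⟨V, fun s => g (icay c s), hV2, hV3, fun s hs => ?_, fun s hs => ?_⟩
    · obtain ⟨⟨k1, -, -⟩, k2⟩ := hV1 s hs
      exact (DifferentiableAt.comp s k1.differentiableAt (icay_diff c k2)).differentiableWithinAt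
    · obtain ⟨⟨-, ⟨b, hb, k1⟩, k2⟩, -⟩ := hV1 s hs
      exact ⟨k2, proj_eq k2 k1⟩
  · have h1 := hh.2.1 _ ⟨γ, hγ, rfl⟩ _ (icay_mem c z)
    rw [cayH_icay] at h1
    exact h1
  · rw [icay_self]
    exact hh.2.2.2

/-- the disc coordinates are Lipschitz on compact sets -/
theorem cayH_lip (c : ℍ) (hR0 : 0 < R) (hR1 : R < 1) : ∃ L : ℝ, 0 ≤ L ∧
    ∀ z ∈ closedBall (0 : ℂ) R, ∀ w ∈ closedBall (0 : ℂ) R,
      dist (cayH c z) (cayH c w) ≤ L * ‖z - w‖ := by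
  have hsub : closedBall (0 : ℂ) R ⊆ ball 0 1 := closedBall_subset_ball hR1
  have hc0 := c.im_pos
  have h1R : 0 < 1 - R ^ 2 := by nlinarith
  set m : ℝ := c.im * (1 - R ^ 2) / 4 with hm
  have hm0 : 0 < m := by positivity
  have him : ∀ z ∈ closedBall (0 : ℂ) R, m ≤ (cayH c z).im := by
    intro z hz
    have hz1 := hsub hz
    have hzn := mem_closedBall_zero_iff.1 hz
    rw [← UpperHalfPlane.coe_im, coe_cayH c hz1, cay_im c hz1, hm]
    have h3 : ‖1 - z‖ ≤ 2 := by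
      have := norm_sub_le (1 : ℂ) z
      rw [norm_one] at this
      linarith
    have h4 : 0 < ‖1 - z‖ := norm_pos_iff.2 (one_sub_ne hz1)
    have h5 : ‖z‖ ^ 2 ≤ R ^ 2 := pow_le_pow_left₀ (norm_nonneg _) hzn 2
    have h6 : ‖1 - z‖ ^ 2 ≤ 4 := by nlinarith
    rw [div_le_div_iff₀ (by norm_num) (by positivity)]
    have h7 : c.im * (1 - R ^ 2) ≤ c.im * (1 - ‖z‖ ^ 2) :=
      mul_le_mul_of_nonneg_left (by linarith) hc0.le
    have h8 : 0 ≤ c.im * (1 - R ^ 2) := by positivity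
    calc c.im * (1 - R ^ 2) * ‖1 - z‖ ^ 2 ≤ c.im * (1 - R ^ 2) * 4 :=
          mul_le_mul_of_nonneg_left h6 h8
      _ ≤ _ := mul_le_mul_of_nonneg_right h7 (by norm_num)
  set K : ℝ := 2 * c.im / (1 - R) ^ 2 with hK
  have h1R' : 0 < 1 - R := by linarith
  have hder : ∀ z ∈ closedBall (0 : ℂ) R, ‖deriv (cay c) z‖ ≤ K := by
    intro z hz
    have hz1 := hsub hz
    have hzn := mem_closedBall_zero_iff.1 hz
    rw [(hasDerivAt_cay c hz1).deriv]
    unfold cay'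
    rw [norm_div, norm_sub_conj, norm_pow, hK]
    have h3 : 1 - R ≤ ‖1 - z‖ := by
      have := norm_sub_norm_le (1 : ℂ) z
      rw [norm_one] at this
      linarith
    exact div_le_div_of_nonneg_left (by positivity) (by positivity)
      (pow_le_pow_left₀ h1R'.le h3 2)
  refine ⟨K / m, by positivity, fun z hz w hw => ?_⟩
  have h1 := UpperHalfPlane.dist_le_dist_coe_div_sqrt (cayH c z) (cayH c w)
  have h2 : m ≤ Real.sqrt ((cayH c z).im * (cayH c w).im) := by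
    apply Real.le_sqrt_of_sq_le
    have := him z hz
    have := him w hw
    nlinarith
  have h3 : ‖cay c z - cay c w‖ ≤ K * ‖z - w‖ :=
    (convex_closedBall (0 : ℂ) R).norm_image_sub_le_of_norm_deriv_le
      (fun s hs => (hasDerivAt_cay c (hsub hs)).differentiableAt) hder hw hz
  refine h1.trans ?_
  rw [coe_cayH c (hsub hz), coe_cayH c (hsub hw), Complex.dist_eq]
  have h4 : 0 < Real.sqrt ((cayH c z).im * (cayH c w).im) := hm0.trans_le h2
  rw [div_le_iff₀ h4, div_mul_eq_mul_div, div_mul_eq_mul_div, le_div_iff₀ hm0]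
  calc ‖cay c z - cay c w‖ * m ≤ (K * ‖z - w‖) * Real.sqrt ((cayH c z).im * (cayH c w).im) :=
        mul_le_mul h3 h2 hm0.le (by positivity)
    _ = _ := by ring

/-- **Uniformly Lipschitz families of pointed maps are finite.** -/
theorem pointed_finite (hF : ∀ j, IsForm (F j)) (hΓ : Cocompact Γ r) (c : ℍ)
    (p : ℙ ℂ (Fin (n + 1) → ℂ)) {L : ℝ}
    (hL : ∀ f : ℍ → ℙ ℂ (Fin (n + 1) → ℂ), HolH (Cone F) f → (∀ γ ∈ Γ, ∀ z, f (γ • z) = f z) →
      f c = p → ∀ z w, projDist (f z) (f w) ≤ L * dist z w) :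
    {f : ℍ → ℙ ℂ (Fin (n + 1) → ℂ) | HolH (Cone F) f ∧ (∀ γ ∈ Γ, ∀ z, f (γ • z) = f z) ∧
      f c = p}.Finite := by
  obtain ⟨R, hR0, hR1, hG⟩ := grp_pull hΓ c
  set R' : ℝ := (R + 1) / 2 with hR'
  have hRR : R < R' := by rw [hR']; linarith
  have hR'1 : R' < 1 := by rw [hR']; linarith
  obtain ⟨L', hL'0, hL'⟩ := cayH_lip c (hR0.trans hRR) hR'1
  have hlip : ∀ h ∈ Fam (pull Γ c) F p, ∀ z ∈ closedBall (0 : ℂ) R', ∀ w ∈ closedBall (0 : ℂ) R',
      ‖Phi (h z).rep - Phi (h w).rep‖ ≤ (|L| * L') * ‖z - w‖ := by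
    intro h hh z hz w hw
    obtain ⟨k1, k2, k3⟩ := up_mem hh
    have hsub : closedBall (0 : ℂ) R' ⊆ ball 0 1 := closedBall_subset_ball hR'1
    have k4 := hL _ k1 k2 k3 (cayH c z) (cayH c w)
    rw [icay_cayH c (hsub hz), icay_cayH c (hsub hw)] at k4
    have k5 : projDist (h z) (h w) = ‖Phi (h z).rep - Phi (h w).rep‖ := rfl
    rw [k5] at k4
    refine k4.trans ?_
    have k6 := hL' z hz w hw
    calc L * dist (cayH c z) (cayH c w) ≤ |L| * dist (cayH c z) (cayH c w) :=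
          mul_le_mul_of_nonneg_right (le_abs_self L) dist_nonneg
      _ ≤ |L| * (L' * ‖z - w‖) := mul_le_mul_of_nonneg_left k6 (abs_nonneg _)
      _ = _ := by ring
  obtain ⟨i, ρ, B, C₁, hctx⟩ := ctx_of_lip hG hR0 hRR hR'1 hF (by positivity) hlip
  obtain ⟨K, Ψ, hΨ1, hΨ2⟩ := hctx.fin
  refine Set.Finite.of_finite_image (f := fun f : ℍ → ℙ ℂ (Fin (n + 1) → ℂ) =>
    Ψ fun ζ => f (cayH c ζ)) ?_ ?_
  · refine hΨ1.subset ?_
    rintro _ ⟨f, ⟨h1, h2, h3⟩, rfl⟩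
    exact ⟨_, down_mem h1 h2 h3, rfl⟩
  · rintro f ⟨h1, h2, h3⟩ f' ⟨h1', h2', h3'⟩ he
    have h4 := hΨ2 _ (down_mem h1 h2 h3) _ (down_mem h1' h2' h3') he
    funext w
    have h5 := h4 _ (icay_mem c w)
    rwa [cayH_icay] at h5

end Pool.Agent.H33
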