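import Pool.Agent.H33.QN
import Pool.Agent.H33.OA
import Pool.Agent.H33.ODefs

/-! Compositions of maps from the disc with rational maps. -/

set_option autoImplicit false

open Filter Topology Metric Set MvPolynomial LinearAlgebra.Projectivization
open scoped UpperHalfPlane ComplexConjugate MatrixGroups

namespace Pool.Agent.H33

open Pool.Agent.Y190.OP Pool.Agent.W602.GT Pool.Agent.N155 Pool.Agent.N155.BB
open Pool.Agent.N154.GG (projDist)

variable {m n : ℕ}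

/-- the identity theorem -/
theorem dicho {Q : ℂ → Prop} (h : ∀ z ∈ ball (0 : ℂ) 1, (∀ᶠ w in 𝓝 z, Q w) ∨
    ∀ᶠ w in 𝓝[≠] z, ¬ Q w) (hb : ∃ b ∈ ball (0 : ℂ) 1, ¬ Q b) :
    ∀ z ∈ ball (0 : ℂ) 1, ∀ᶠ w in 𝓝[≠] z, ¬ Q w := by
  intro z hz
  set A : Set ℂ := {z | ∀ᶠ w in 𝓝 z, Q w} with hA
  have hAo : IsOpen A := isOpen_setOfPred_eventually_nhds
  obtain ⟨b, hb, hSb⟩ := hb
  rcases h z hz with h1 | h1
  swap
  · exact h1
  exfalso
  have hsub : ball (0 : ℂ) 1 ⊆ A := by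
    refine (convex_ball (0 : ℂ) 1).isPreconnected.subset_of_closure_inter_subset hAo ⟨z, hz, h1⟩ ?_
    rintro w ⟨hwA, hw⟩
    rcases h w hw with h2 | h2
    · exact h2
    · exfalso
      have h3 := mem_closure_iff_frequently.1 hwA
      have h4 : ∀ᶠ x in 𝓝 w, x ≠ w → ¬ Q x := eventually_nhdsWithin_iff.1 h2
      by_cases hwA' : w ∈ A
      · have h5 : ∀ᶠ x in 𝓝[≠] w, Q x := nhdsWithin_le_nhds hwA'
        obtain ⟨x, h6, h7⟩ := (h2.and h5).exists
        exact h6 h7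
      · obtain ⟨x, hx, h5⟩ := (h3.and_eventually h4).exists
        have h6 : x ≠ w := fun h => hwA' (h ▸ hx)
        exact h5 h6 (show ∀ᶠ y in 𝓝 x, Q y from hx).self_of_nhds
  exact hSb (show ∀ᶠ y in 𝓝 b, Q y from hsub hb).self_of_nhds

/-- different maps agree at isolated points -/
theorem HolD.ne_of_ne {f f' : ℂ → ℙ ℂ (Fin (n + 1) → ℂ)} (hf : HolD f) (hf' : HolD f')
    (hne : ∃ b ∈ ball (0 : ℂ) 1, ¬ f b = f' b) : ∀ z ∈ ball (0 : ℂ) 1,
      ∀ᶠ w in 𝓝[≠] z, ¬ f w = f' w := by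
  refine dicho (fun z hz => ?_) hne
  obtain ⟨g, hg⟩ := hf z hz
  obtain ⟨g', hg'⟩ := hf' z hz
  by_cases hall : ∀ i j, ∀ᶠ w in 𝓝 z, g w i * g' w j = g w j * g' w i
  · left
    filter_upwards [eventually_all.2 fun i => eventually_all.2 fun j => hall i j, hg.2.2, hg'.2.2,
      hg.ne, hg'.ne] with w k1 ⟨c, hc, k2⟩ ⟨c', hc', k3⟩ k4 k5
    rw [proj_eq k4 k2, proj_eq k5 k3]
    exact Prop2.mk _ _ k1
  · right
    simp only [not_forall] at hall
    obtain ⟨i, j, hij⟩ := hall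
    have h1 := ((hg.coord_an i).mul (hg'.coord_an j)).eventually_eq_or_eventually_ne
      ((hg.coord_an j).mul (hg'.coord_an i))
    rcases h1 with h1 | h1
    · exact absurd h1 hij
    · filter_upwards [h1, nhdsWithin_le_nhds hg.2.2, nhdsWithin_le_nhds hg'.2.2]
        with w k1 ⟨c, hc, k2⟩ ⟨c', hc', k3⟩ k4
      apply k1
      have k5 := prop2_of_eq k4 i j
      rw [k2, k3] at k5
      simp only [Pi.smul_apply, smul_eq_mul] at k5
      apply mul_left_cancel₀ (mul_ne_zero hc hc')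
      change c * c' * (g w i * g' w j) = c * c' * (g w j * g' w i)
      linear_combination k5

/-- discrete sets are countable -/
theorem countable_of_punctured {A : Set ℂ} (h : ∀ z ∈ ball (0 : ℂ) 1, ∀ᶠ w in 𝓝[≠] z, w ∉ A) :
    (A ∩ ball 0 1).Countable := by
  refine (HereditarilyLindelofSpace.isLindelof _).countable_of_isDiscrete ?_
  rw [isDiscrete_iff_nhdsNE]
  rintro z ⟨hzA, hz⟩
  rw [← _root_.disjoint_iff, Filter.disjoint_principal_right]
  filter_upwards [h z hz] with w hw hw'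
  exact hw hw'.1

/-- the values of a form are sections -/
theorem sec_form {f : ℂ → ℙ ℂ (Fin (m + 1) → ℂ)} {e : ℕ} {Q : MvPolynomial (Fin (m + 1)) ℂ}
    (hQ : Q.IsHomogeneous e) : Sec f e fun z => eval (f z).rep Q := by
  intro z hz g hg
  refine ⟨fun w => eval (g w) Q, ?_, Eventually.of_forall fun w c hc => ?_⟩
  · have h2 : AnalyticAt ℂ (fun y : Fin (m + 1) → ℂ => eval y Q) (g z) :=
      AnalyticOnNhd.eval_mvPolynomial Q _ (mem_univ _)
    exact h2.comp hg.1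
  · simp only
    rw [hc, eval_smul hQ]

/-- values at all points -/
theorem ext_prop2 {f : ℂ → ℙ ℂ (Fin (m + 1) → ℂ)} (hf : HolD f) {N : ℕ}
    {T : Fin (n + 1) → ℂ → ℂ} (hT : ∀ k, Sec f N (T k)) {h : ℂ → ℙ ℂ (Fin (n + 1) → ℂ)}
    (hh : HolD h) {i : Fin (n + 1)} (hTh : ∀ z ∈ ball (0 : ℂ) 1,
      ∀ᶠ w in 𝓝[≠] z, T i w ≠ 0 ∧ Prop2 (fun k => T k w) (h w).rep) {z : ℂ}
    (hz : z ∈ ball (0 : ℂ) 1) : Prop2 (fun k => T k z) (h z).rep := by
  obtain ⟨g, hg⟩ := hf z hz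
  have h1 := fun k => hT k z hz g hg
  choose t ht using h1
  obtain ⟨u, hu⟩ := hh z hz
  have hta : ContinuousAt (fun w => (fun k => t k w : Fin (n + 1) → ℂ)) z :=
    continuousAt_pi.2 fun k => (ht k).1.continuousAt
  have h2 : Prop2 (fun k => t k z) (u z) := by
    apply Prop2.lim (u := fun w => (fun k => t k w : Fin (n + 1) → ℂ)) hta hu.1.continuousAt
    filter_upwards [hTh z hz, nhdsWithin_le_nhds hg.2.2,
      nhdsWithin_le_nhds (eventually_all.2 fun k => (ht k).2), nhdsWithin_le_nhds hu.2.2]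
      with w ⟨k1, k2⟩ ⟨c, hc, k3⟩ k4 ⟨c', hc', k5⟩
    have k6 : (fun k => T k w) = (c ^ N) • (fun k => t k w) := funext fun k => k4 k c k3
    rw [k6, k5] at k2
    intro a b
    have k7 := k2 a b
    simp only [Pi.smul_apply, smul_eq_mul] at k7
    apply mul_left_cancel₀ (mul_ne_zero (pow_ne_zero N hc) hc')
    linear_combination k7
  obtain ⟨c, hc, k1⟩ := hg.2.2.self_of_nhds
  obtain ⟨c', hc', k2⟩ := hu.2.2.self_of_nhds
  have k6 : (fun k => T k z) = (c ^ N) • (fun k => t k z) :=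
    funext fun k => (ht k).2.self_of_nhds c k1
  rw [k6, k2]
  intro a b
  simp only [Pi.smul_apply, smul_eq_mul]
  linear_combination (c ^ N * c') * h2 a b

/-- the composition with a rational map -/
theorem comp_disc {ι ι' : Type} {G : ι' → MvPolynomial (Fin (m + 1)) ℂ}
    {F : ι → MvPolynomial (Fin (n + 1)) ℂ} (hF : ∀ i, IsForm (F i))
    {P : Fin (n + 1) → MvPolynomial (Fin (m + 1)) ℂ} (hP : RationalMap G F P)
    {Γ : Subgroup SL(2, ℝ)} {r : ℝ} (hΓ : Cocompact Γ r) {c : ℍ} {v : ℙ ℂ (Fin (m + 1) → ℂ)}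
    (hv : ratVal P v.rep ≠ 0) {p : ℙ ℂ (Fin (n + 1) → ℂ)} (hp : Prop2 (ratVal P v.rep) p.rep)
    {g : ℍ → ℙ ℂ (Fin (m + 1) → ℂ)} (hg : HolH (Cone G) g)
    (hinv : ∀ γ ∈ Γ, ∀ z : ℍ, g (γ • z) = g z) (hgc : g c = v) :
    ∃ f : ℍ → ℙ ℂ (Fin (n + 1) → ℂ), (HolH (Cone F) f ∧ (∀ γ ∈ Γ, ∀ z, f (γ • z) = f z) ∧
      f c = p) ∧ ∀ w, Prop2 (ratVal P (g w).rep) (f w).rep := by
  obtain ⟨e, he⟩ := hP.form
  obtain ⟨R, hR0, hR1, hG⟩ := grp_pull hΓ c
  have hgt := down_mem hg hinv hgc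
  set g' : ℂ → ℙ ℂ (Fin (m + 1) → ℂ) := fun ζ => g (cayH c ζ) with hg'
  set T : Fin (n + 1) → ℂ → ℂ := fun k z => eval (g' z).rep (P k) with hT
  have hTs : ∀ k, Sec g' e (T k) := fun k => sec_form (he k)
  have hb0 : (0 : ℂ) ∈ ball (0 : ℂ) 1 := mem_ball_self one_pos
  have h0 : g' 0 = v := hgt.2.2.2
  obtain ⟨i, hi⟩ := Function.ne_iff.1 hv
  have hi : eval v.rep (P i) ≠ 0 := hi
  have hTi : ∃ z ∈ ball (0 : ℂ) 1, T i z ≠ 0 := ⟨0, hb0, by
    change eval (g' 0).rep (P i) ≠ 0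
    rw [h0]
    exact hi⟩
  obtain ⟨h, hh, hTh⟩ := ext_map hgt.1 hTs hTi
  have hall := fun (z : ℂ) (hz : z ∈ ball (0 : ℂ) 1) => ext_prop2 hgt.1 hTs hh hTh hz
  have hinv' : InvG (pull Γ c) h := ext_inv hG hh hTh fun k γ hγ z hz => by
    change eval (g' (γ z)).rep (P k) = eval (g' z).rep (P k)
    rw [hgt.2.1 γ hγ z hz]
  have hcone : ∀ z ∈ ball (0 : ℂ) 1, (h z).rep ∈ Cone F := fun z hz =>
    ext_cone hF hh hTh (fun w hw hne j => by
      have := (hP.maps _ (hgt.2.2.1 w hw) hne).2 j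
      rw [val_eval] at this
      exact this) hz
  have h00 : h 0 = p := by
    apply eq_of_prop2
    have h1 := hall 0 hb0
    have h2 : (fun k => T k 0) = ratVal P v.rep := by
      funext k
      change eval (g' 0).rep (P k) = _
      rw [h0]
      rfl
    rw [h2] at h1
    exact h1.symm.trans hv hp
  have hmem : h ∈ Fam (pull Γ c) F p := ⟨hh, hinv', hcone, h00⟩
  refine ⟨fun w => h (icay c w), up_mem hmem, fun w => ?_⟩
  have h1 := hall _ (icay_mem c w)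
  have h2 : (fun k => T k (icay c w)) = ratVal P (g w).rep := by
    funext k
    change eval (g' (icay c w)).rep (P k) = _
    rw [hg']
    simp only
    rw [cayH_icay]
    rfl
  rw [h2] at h1
  exact h1

end Pool.Agent.H33
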