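import Pool.Agent.H33.QO
import Pool.Agent.H33.QDefs

/-! Pointed maps to varieties with a generically finite rational map to a given manifold. -/

set_option autoImplicit false

open Filter Topology Metric Set MvPolynomial LinearAlgebra.Projectivization
open scoped UpperHalfPlane ComplexConjugate MatrixGroups

namespace Pool.Agent.H33

open Pool.Agent.Y190.OP Pool.Agent.W602.GT Pool.Agent.N155 Pool.Agent.N155.BB
open Pool.Agent.N154.GG (projDist)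

variable {m n : ℕ} {ι ι' κ' : Type} {G : ι' → MvPolynomial (Fin (m + 1)) ℂ}
  {F : ι → MvPolynomial (Fin (n + 1)) ℂ} {P : Fin (n + 1) → MvPolynomial (Fin (m + 1)) ℂ}
  {H : κ' → MvPolynomial (Fin (m + 1)) ℂ} {Γ : Subgroup SL(2, ℝ)} {r : ℝ} {c : ℍ}
  {v : ℙ ℂ (Fin (m + 1) → ℂ)} {p : ℙ ℂ (Fin (n + 1) → ℂ)}

/-- pointed maps to the variety -/
theorem lift_finite (hF : ∀ i, IsForm (F i)) (hP : RationalMap G F P) (hH : ∀ k, IsForm (H k))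
    (hfin : FiniteOff G P H) (hΓ : Cocompact Γ r) (hvG : v.rep ∈ Cone G)
    (hvH : ∃ k, eval v.rep (H k) ≠ 0) (hp : Prop2 (ratVal P v.rep) p.rep)
    (hX : {f : ℍ → ℙ ℂ (Fin (n + 1) → ℂ) | HolH (Cone F) f ∧ (∀ γ ∈ Γ, ∀ z, f (γ • z) = f z) ∧
      f c = p}.Finite) :
    {g : ℍ → ℙ ℂ (Fin (m + 1) → ℂ) | HolH (Cone G) g ∧ (∀ γ ∈ Γ, ∀ z, g (γ • z) = g z) ∧
      g c = v}.Finite := by
  have hv : ratVal P v.rep ≠ 0 := hfin.defined _ hvG hvH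
  have hb0 : (0 : ℂ) ∈ ball (0 : ℂ) 1 := mem_ball_self one_pos
  have hsub : {g : ℍ → ℙ ℂ (Fin (m + 1) → ℂ) | HolH (Cone G) g ∧ (∀ γ ∈ Γ, ∀ z, g (γ • z) = g z) ∧
      g c = v} ⊆ ⋃ f ∈ {f : ℍ → ℙ ℂ (Fin (n + 1) → ℂ) | HolH (Cone F) f ∧
        (∀ γ ∈ Γ, ∀ z, f (γ • z) = f z) ∧ f c = p},
      {g : ℍ → ℙ ℂ (Fin (m + 1) → ℂ) | (HolH (Cone G) g ∧ (∀ γ ∈ Γ, ∀ z, g (γ • z) = g z) ∧
        g c = v) ∧ ∀ w, Prop2 (ratVal P (g w).rep) (f w).rep} := by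
    rintro g ⟨h1, h2, h3⟩
    obtain ⟨f, hf, hfg⟩ := comp_disc hF hP hΓ hv hp h1 h2 h3
    simp only [Set.mem_iUnion]
    exact ⟨f, hf, ⟨h1, h2, h3⟩, hfg⟩
  refine (hX.biUnion fun f _ => ?_).subset hsub
  by_contra hinf
  have hinf' : {g : ℍ → ℙ ℂ (Fin (m + 1) → ℂ) | (HolH (Cone G) g ∧
    (∀ γ ∈ Γ, ∀ z, g (γ • z) = g z) ∧ g c = v) ∧
    ∀ w, Prop2 (ratVal P (g w).rep) (f w).rep}.Infinite := hinf
  set e := hinf'.natEmbedding with he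
  set g : ℕ → ℍ → ℙ ℂ (Fin (m + 1) → ℂ) := fun i => (e i).1 with hg
  have hgi : ∀ i, (HolH (Cone G) (g i) ∧ (∀ γ ∈ Γ, ∀ z, g i (γ • z) = g i z) ∧ g i c = v) ∧
      ∀ w, Prop2 (ratVal P (g i w).rep) (f w).rep := fun i => (e i).2
  have hdown := fun i => down_mem (hgi i).1.1 (hgi i).1.2.1 (hgi i).1.2.2
  -- coincidences
  have hA : ∀ i j, i ≠ j → ({ζ : ℂ | g i (cayH c ζ) = g j (cayH c ζ)} ∩ ball 0 1).Countable := by
    intro i j hij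
    refine countable_of_punctured ((hdown i).1.ne_of_ne (hdown j).1 ?_)
    by_contra hcon
    push Not at hcon
    apply hij
    apply e.injective
    apply Subtype.ext
    funext w
    have h1 := hcon _ (icay_mem c w)
    rw [cayH_icay] at h1
    exact h1
  have hB : ∀ i, ({ζ : ℂ | ∀ k, eval (g i (cayH c ζ)).rep (H k) = 0} ∩ ball 0 1).Countable := by
    intro i
    obtain ⟨k, hk⟩ := hvH
    obtain ⟨d, hd⟩ := hH k
    refine countable_of_punctured fun z hz => ?_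
    have h1 : Sec (fun ζ => g i (cayH c ζ)) d fun ζ => eval (g i (cayH c ζ)).rep (H k) :=
      sec_form (f := fun ζ => g i (cayH c ζ)) hd
    have h2 := h1.isolated (hdown i).1 ⟨0, hb0, by
      rw [cayH_zero, (hgi i).1.2.2]
      exact hk⟩ hz
    filter_upwards [h2] with w hw hw'
    exact hw (hw' k)
  have hcount : ((⋃ i : ℕ, ⋃ j : ℕ, ⋃ _ : i ≠ j,
      ({ζ : ℂ | g i (cayH c ζ) = g j (cayH c ζ)} ∩ ball 0 1)) ∪
      ⋃ i : ℕ, ({ζ : ℂ | ∀ k, eval (g i (cayH c ζ)).rep (H k) = 0} ∩ ball 0 1)).Countable := by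
    refine Set.Countable.union ?_ (Set.countable_iUnion hB)
    refine Set.countable_iUnion fun i => Set.countable_iUnion fun j => Set.countable_iUnion fun h => ?_
    exact hA i j h
  obtain ⟨ζ, hζ, hζ'⟩ := (hcount.dense_compl ℂ).exists_mem_open isOpen_ball ⟨0, hb0⟩
  rw [Set.mem_compl_iff, Set.mem_union, not_or] at hζ
  obtain ⟨hζ1, hζ2⟩ := hζ
  simp only [Set.mem_iUnion, not_exists, Set.mem_inter_iff, not_and] at hζ1 hζ2
  have hinj : Function.Injective fun i => g i (cayH c ζ) := by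
    intro i j hij
    by_contra hne
    exact hζ1 i j hne hij hζ'
  have hmem : ∀ i, g i (cayH c ζ) ∈ {q : ℙ ℂ (Fin (m + 1) → ℂ) | q.rep ∈ Cone G ∧
      (∃ k, eval q.rep (H k) ≠ 0) ∧ ∃ b : ℂ, ratVal P q.rep = b • (f (cayH c ζ)).rep} := by
    intro i
    have h1 : ∃ k, eval (g i (cayH c ζ)).rep (H k) ≠ 0 := by
      by_contra hcon
      push Not at hcon
      exact hζ2 i hcon hζ'
    refine ⟨((hgi i).1.1 _).1, h1, ?_⟩
    exact ((hgi i).2 (cayH c ζ)).symm.smul (Projectivization.rep_nonzero _)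
  exact Set.infinite_of_injective_forall_mem hinj hmem (hfin.fib _)

theorem grm_of_holMap {g : ℂ → ℙ ℂ (Fin (m + 1) → ℂ)} (hg : HolMap g) (l : ℂ) :
    HolD fun z => g (l * z) := by
  intro z _
  obtain ⟨V, g₀, hV, hz, hd, h⟩ := hg (l * z)
  have h1 : AnalyticAt ℂ g₀ (l * z) := hd.analyticAt (hV.mem_nhds hz)
  have h2 : AnalyticAt ℂ (fun w : ℂ => l * w) z := by fun_prop
  refine ⟨fun w => g₀ (l * w), h1.comp h2, (h _ hz).1, ?_⟩
  filter_upwards [h2.continuousAt.eventually (hV.mem_nhds hz)] with w hw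
  obtain ⟨k1, k2⟩ := h _ hw
  exact mk_rep k1 k2

/-- entire curves in the variety -/
theorem entire_const (hF : ∀ i, IsForm (F i)) (hP : RationalMap G F P) (hH : ∀ k, IsForm (H k))
    (hfin : FiniteOff G P H) (hvG : v.rep ∈ Cone G) (hvH : ∃ k, eval v.rep (H k) ≠ 0)
    {Z : Set (ℙ ℂ (Fin (n + 1) → ℂ))}
    (hZ : ∀ f, HolIn F f → (∃ z w, f z ≠ f w) → ∀ z, f z ∈ Z)
    (hvZ : ∀ q ∈ Z, ∀ b : ℂ, ratVal P v.rep ≠ b • q.rep) {g : ℂ → ℙ ℂ (Fin (m + 1) → ℂ)}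
    (hg : HolIn G g) (hg0 : g 0 = v) : ∀ z, g z = v := by
  obtain ⟨e, he⟩ := hP.form
  have hv : ratVal P v.rep ≠ 0 := hfin.defined _ hvG hvH
  have hb0 : (0 : ℂ) ∈ ball (0 : ℂ) 1 := mem_ball_self one_pos
  obtain ⟨f, hf, hfg⟩ := comp_ext he hg.1 (z₁ := 0) (by rw [hg0]; exact hv) (F := F)
    (fun z hz => hP.maps _ (hg.2 z) hz) hF
  have hconst : ∀ z, f z = f 0 := by
    by_contra hcon
    push Not at hcon
    obtain ⟨z, hz⟩ := hcon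
    have h1 := hZ f hf ⟨z, 0, hz⟩ 0
    obtain ⟨b, hb⟩ := hfg 0 (by rw [hg0]; exact hv)
    rw [hg0] at hb
    exact hvZ _ h1 b hb
  set Q := {q : ℙ ℂ (Fin (m + 1) → ℂ) | q.rep ∈ Cone G ∧
    (∃ k, eval q.rep (H k) ≠ 0) ∧ ∃ b : ℂ, ratVal P q.rep = b • (f 0).rep} with hQ
  have hQf : Q.Finite := hfin.fib _
  intro z₁
  by_contra hne
  set l : ℂ := ((‖z₁‖ + 1 : ℝ) : ℂ) with hl
  have hl0 : l ≠ 0 := by
    rw [hl]
    have : (0 : ℝ) < ‖z₁‖ + 1 := by positivity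
    exact_mod_cast this.ne'
  have hD := grm_of_holMap hg.1 l
  have hk1 : ∀ᶠ w in 𝓝[≠] (0 : ℂ), ∀ q ∈ Q, ¬ g (l * w) = q := by
    rw [← hQf.coe_toFinset]
    simp only [Finset.mem_coe]
    rw [Finset.eventually_all]
    intro q hq
    have hc : HolD (fun _ : ℂ => q) := fun z _ =>
      ⟨fun _ => q.rep, analyticAt_const, Projectivization.rep_nonzero q,
        Eventually.of_forall fun w => ⟨1, one_ne_zero, (one_smul _ _).symm⟩⟩
    refine hD.ne_of_ne hc ?_ 0 hb0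
    by_cases hqv : q = v
    · refine ⟨z₁ / l, ?_, ?_⟩
      · rw [mem_ball_zero_iff, norm_div, hl, Complex.norm_real, Real.norm_of_nonneg (by positivity),
          div_lt_one (by positivity)]
        linarith
      · rw [mul_div_cancel₀ _ hl0, hqv]
        exact hne
    · refine ⟨0, hb0, ?_⟩
      rw [mul_zero, hg0]
      exact fun h => hqv h.symm
  obtain ⟨k, hk⟩ := hvH
  obtain ⟨d, hd⟩ := hH k
  have hS : Sec (fun z => g (l * z)) d fun z => eval (g (l * z)).rep (H k) :=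
    sec_form (f := fun z => g (l * z)) hd
  have hk2 := hS.isolated hD ⟨0, hb0, by
    rw [mul_zero, hg0]
    exact hk⟩ hb0
  obtain ⟨w, h1, h2⟩ := (hk1.and hk2).exists
  refine h1 (g (l * w)) ⟨hg.2 _, ⟨k, h2⟩, ?_⟩ rfl
  have h3 : ratVal P (g (l * w)).rep ≠ 0 := hfin.defined _ (hg.2 _) ⟨k, h2⟩
  obtain ⟨b, hb⟩ := hfg _ h3
  exact ⟨b, by rw [← hconst (l * w)]; exact hb⟩

variable {d ν : ℕ} {κ : Type}
  {η : κ → (Fin (n + 1) → ℂ) → (Fin (n + 1) → ℂ) → (Fin (n + 1) → ℂ) → ℂ}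
  {Φ : (Fin (n + 1) → ℂ) → (Fin (n + 1) → ℂ) → ℝ}

/-- **Pseudo-geometric hyperbolicity.** -/
theorem pgh [Finite κ] (hX : ProjManifold F d) (hη : PositiveTwoForms (Cone F) ∅ d η) (hν : ν ≠ 0)
    (hh : HomForms (Cone F) ν η) (hΦ : NonposMetric (Cone F) d Φ)
    (hnd : Nondegenerate (Cone F) d Φ)
    (hr : HermitianMetric (Cone F) d Φ ∨ UniformlyConvex (Cone F) d Φ) :
    ∃ S : Finset (ℂ → ℙ ℂ (Fin (n + 1) → ℂ)),
      (∀ h ∈ S, HolIn F h ∧ DoublyPeriodic h ∧ HasSpeed Φ 1 h) ∧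
      (2 ≤ d → ∀ x ∈ Cone F, ∃ E : MvPolynomial (Fin (n + 1)) ℂ, IsForm E ∧
        (¬ ∀ᶠ y in 𝓝[Cone F] x, eval y E = 0) ∧ ∀ h ∈ S, ∀ z, eval (h z).rep E = 0) ∧
      (∀ r : ℝ, ∃ L : ℝ, ∀ Γ : Subgroup SL(2, ℝ), Cocompact Γ r →
        ∀ f : ℍ → ℙ ℂ (Fin (n + 1) → ℂ), HolH (Cone F) f →
        (∀ γ ∈ Γ, ∀ z, f (γ • z) = f z) → (∃ z, ∀ h ∈ S, ∀ w, f z ≠ h w) →
        ∀ z w, projDist (f z) (f w) ≤ L * dist z w) ∧
      ∀ (m : ℕ) (ι' κ' : Type) (G : ι' → MvPolynomial (Fin (m + 1)) ℂ)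
        (P : Fin (n + 1) → MvPolynomial (Fin (m + 1)) ℂ) (H : κ' → MvPolynomial (Fin (m + 1)) ℂ),
        (∀ j, IsForm (G j)) → (∀ k, IsForm (H k)) → RationalMap G F P → FiniteOff G P H →
        ∀ v : ℙ ℂ (Fin (m + 1) → ℂ), v.rep ∈ Cone G → (∃ k, eval v.rep (H k) ≠ 0) →
        (∀ h ∈ S, ∀ w, ∀ b : ℂ, ratVal P v.rep ≠ b • (h w).rep) →
          (∀ g : ℂ → ℙ ℂ (Fin (m + 1) → ℂ), HolIn G g → g 0 = v → ∀ z, g z = v) ∧
          ∀ (Γ : Subgroup SL(2, ℝ)) (r : ℝ), Cocompact Γ r → ∀ c : ℍ,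
            {g : ℍ → ℙ ℂ (Fin (m + 1) → ℂ) | HolH (Cone G) g ∧
              (∀ γ ∈ Γ, ∀ z, g (γ • z) = g z) ∧ g c = v}.Finite := by
  obtain ⟨S, h1, h2, h3, h4⟩ := bdd hX hη hν hh hΦ hnd hr
  refine ⟨S, h1, h4, h3, ?_⟩
  intro m ι' κ' G P H _ hH hP hfin v hvG hvH hvZ
  have hv : ratVal P v.rep ≠ 0 := hfin.defined _ hvG hvH
  refine ⟨fun g hg hg0 => ?_, fun Γ r hΓ c => ?_⟩
  · refine entire_const hX.form hP hH hfin hvG hvH (Z := {q | ∃ h ∈ S, ∃ w, q = h w})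
      (fun f hf hne z => h2 f hf hne z) ?_ hg hg0
    rintro q ⟨h, hh, w, rfl⟩ b
    exact hvZ h hh w b
  · set p : ℙ ℂ (Fin (n + 1) → ℂ) := Projectivization.mk ℂ (ratVal P v.rep) hv with hp
    obtain ⟨b, hb, hbe⟩ := mk_rep hv hp
    have hpp : Prop2 (ratVal P v.rep) p.rep := by
      rw [hbe]
      exact (prop2_smul _ _).symm
    refine lift_finite hX.form hP hH hfin hΓ hvG hvH hpp ?_
    obtain ⟨L, hL⟩ := h3 r
    refine pointed_finite hX.form hΓ c p (L := L) fun f hf hfi hfc => ?_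
    refine hL Γ hΓ f hf hfi ⟨c, fun h hh w hcw => ?_⟩
    refine hvZ h hh w b⁻¹ ?_
    rw [← hcw, hfc, hbe, smul_smul, inv_mul_cancel₀ hb, one_smul]

end Pool.Agent.H33
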