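import Pool.Agent.H33.PB
import Pool.Agent.H33.ODefs
import Pool.Graph.R_pool_sql_team_seeded_63374d34.N155.B.Fin

/-! The derivative of compositions with morphisms. -/

set_option autoImplicit false

open Filter Topology Metric Set MvPolynomial LinearAlgebra.Projectivization

namespace Pool.Agent.H33

open Pool.Agent.Y190.OP Pool.Agent.W602.GT Pool.Agent.N155 Pool.Agent.N155.BB

variable {m n : ℕ} {ι ι' : Type} {G : ι' → MvPolynomial (Fin (m + 1)) ℂ}
  {P : Fin (n + 1) → MvPolynomial (Fin (m + 1)) ℂ} {e : ℕ}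

theorem evP_diff : Differentiable ℂ (evP P) := by
  rw [differentiable_pi]
  intro j y
  have h2 : AnalyticAt ℂ (fun y : Fin (m + 1) → ℂ => eval y (P j)) y :=
    AnalyticOnNhd.eval_mvPolynomial (P j) _ (mem_univ _)
  exact h2.differentiableAt

theorem evP_fderiv_cont : Continuous fun y => fderiv ℂ (evP P) y := by
  have h : ContDiff ℂ 1 (evP P) := by
    rw [contDiff_pi]
    intro j
    rw [contDiff_iff_contDiffAt]
    intro y
    have h2 : AnalyticAt ℂ (fun y : Fin (m + 1) → ℂ => eval y (P j)) y :=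
      AnalyticOnNhd.eval_mvPolynomial (P j) _ (mem_univ _)
    exact h2.contDiffAt
  exact h.continuous_fderiv one_ne_zero

theorem norm_le_sqn {N : ℕ} (x : Fin N → ℂ) : ‖x‖ ^ 2 ≤ sqn x := by
  have h1 : ‖x‖ ≤ √(sqn x) := by
    rw [pi_norm_le_iff_of_nonneg (Real.sqrt_nonneg _)]
    intro i
    apply Real.le_sqrt_of_sq_le
    exact Finset.single_le_sum (f := fun k => ‖x k‖ ^ 2) (fun _ _ => sq_nonneg _)
      (Finset.mem_univ i)
  calc ‖x‖ ^ 2 ≤ √(sqn x) ^ 2 := by gcongr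
    _ = sqn x := Real.sq_sqrt (sqn_nonneg x)

theorem sqn_le_norm {N : ℕ} (x : Fin N → ℂ) : sqn x ≤ N * ‖x‖ ^ 2 := by
  unfold sqn
  calc ∑ k, ‖x k‖ ^ 2 ≤ ∑ _k : Fin N, ‖x‖ ^ 2 := by
        refine Finset.sum_le_sum fun k _ => ?_
        have := norm_le_pi_norm x k
        gcongr
    _ = N * ‖x‖ ^ 2 := by simp

theorem cauchy_wedge {N : ℕ} (a b : Fin (N + 1) → ℂ) : wedge a b ^ 2 ≤ sqn a * sqn b := by
  rw [wedge_sq]
  linarith [sq_nonneg ‖spr b a‖]

/-- the values of the forms on the unit sphere -/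
theorem evP_low (hG : ∀ i, IsForm (G i)) (hne : ∀ y ∈ Cone G, evP P y ≠ 0) :
    ∃ c : ℝ, 0 < c ∧ ∀ y ∈ Cone G, sqn y = 1 → c ≤ sqn (evP P y) := by
  set K : Set (Fin (m + 1) → ℂ) := {y | sqn y = 1 ∧ ∀ i, val y (G i) = 0} with hK
  have hKc : IsCompact K := by
    apply Metric.isCompact_of_isClosed_isBounded
    · have h1 : IsClosed {y : Fin (m + 1) → ℂ | sqn y = 1} := isClosed_eq sqn_cont continuous_const
      have h2 : IsClosed {y : Fin (m + 1) → ℂ | ∀ i, val y (G i) = 0} := by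
        simp only [Set.ofPred_forall]
        refine isClosed_iInter fun i => isClosed_eq ?_ continuous_const
        simp only [val_eval]
        exact (G i).continuous_eval
      exact h1.inter h2
    · refine (Metric.isBounded_iff_subset_closedBall 0).2 ⟨1, fun y hy => ?_⟩
      rw [mem_closedBall_zero_iff]
      have h1 := norm_le_sqn y
      rw [hy.1] at h1
      nlinarith [norm_nonneg y]
  rcases K.eq_empty_or_nonempty with h0 | h0
  · refine ⟨1, one_pos, fun y hy h1 => ?_⟩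
    exact absurd (show y ∈ K from ⟨h1, hy.2⟩) (by rw [h0]; exact notMem_empty y)
  · obtain ⟨y₀, hy₀, hmin⟩ := hKc.exists_isMinOn h0
      (f := fun y => sqn (evP P y)) ((sqn_cont.comp evP_cont).continuousOn)
    have hy0 : y₀ ≠ 0 := by
      rintro rfl
      have := hy₀.1
      unfold sqn at this
      simp at this
    refine ⟨sqn (evP P y₀), sqn_pos (hne y₀ ⟨hy0, hy₀.2⟩), fun y hy h1 => ?_⟩
    exact hmin (show y ∈ K from ⟨h1, hy.2⟩)

theorem cone_smul' (hG : ∀ i, IsForm (G i)) {y : Fin (m + 1) → ℂ} (hy : y ∈ Cone G) {c : ℂ}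
    (hc : c ≠ 0) : c • y ∈ Cone G := cone_smul hG hy hc

/-- **The derivative of the composition.** -/
theorem comp_wedge (hG : ∀ i, IsForm (G i)) (hP : ∀ j, (P j).IsHomogeneous e)
    (hne : ∀ y ∈ Cone G, evP P y ≠ 0) : ∃ K : ℝ, 0 < K ∧ ∀ (g : ℂ → Fin (m + 1) → ℂ) (z : ℂ),
      DifferentiableAt ℂ g z → g z ∈ Cone G →
      wedge (evP P (g z)) (deriv (fun z => evP P (g z)) z) / sqn (evP P (g z)) ≤
        K * (wedge (g z) (deriv g z) / sqn (g z)) := by
  obtain ⟨c, hc, hlow⟩ := evP_low hG hne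
  obtain ⟨K1, hK1⟩ := (isCompact_closedBall (0 : Fin (m + 1) → ℂ) 1).exists_bound_of_continuousOn
    (f := fun y => fderiv ℂ (evP P) y) evP_fderiv_cont.continuousOn
  have hK10 : 0 ≤ K1 := (norm_nonneg _).trans (hK1 0 (mem_closedBall_self zero_le_one))
  refine ⟨√((n + 1 : ℕ) * K1 ^ 2 / c) + 1, by positivity, fun g z hg hz => ?_⟩
  set y := g z with hy
  have hy0 : y ≠ 0 := hz.1
  have hs : 0 < sqn y := sqn_pos hy0
  set s : ℝ := √(sqn y) with hsd
  have hs0 : 0 < s := Real.sqrt_pos.2 hs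
  have hs2 : s ^ 2 = sqn y := Real.sq_sqrt hs.le
  set a : ℂ := spr (deriv g z) y / sqn y with ha
  set l : ℂ → ℂ := fun ζ => (s : ℂ)⁻¹ * Complex.exp (-a * (ζ - z)) with hl
  have hlz : l z = (s : ℂ)⁻¹ := by simp [hl]
  have hsc : (s : ℂ) ≠ 0 := by exact_mod_cast hs0.ne'
  have hl0 : ∀ ζ, l ζ ≠ 0 := fun ζ => mul_ne_zero (inv_ne_zero hsc) (Complex.exp_ne_zero _)
  have hld : DifferentiableAt ℂ l z := by fun_prop
  set g1 : ℂ → Fin (m + 1) → ℂ := fun ζ => l ζ • g ζ with hg1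
  have hl' : HasDerivAt l (-(s : ℂ)⁻¹ * a) z := by
    have h1 : HasDerivAt (fun ζ : ℂ => -a * (ζ - z)) (-a) z := by
      simpa using ((hasDerivAt_id z).sub_const z).const_mul (-a)
    have h2 := h1.cexp.const_mul (s : ℂ)⁻¹
    refine h2.congr_deriv ?_
    simp only [sub_self, mul_zero, Complex.exp_zero, one_mul]
    ring
  have hg1' : HasDerivAt g1 ((s : ℂ)⁻¹ • (deriv g z - a • y)) z := by
    have h1 : HasDerivAt (fun ζ => l ζ • g ζ) (l z • deriv g z + (-(s : ℂ)⁻¹ * a) • g z) z :=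
      hl'.smul hg.hasDerivAt
    refine h1.congr_deriv ?_
    rw [hlz, smul_sub, smul_smul, ← hy, neg_mul, neg_smul]
    abel
  have hg1z : g1 z = (s : ℂ)⁻¹ • y := by rw [hg1]; simp only; rw [hlz]
  have hu1 : sqn (g1 z) = 1 := by
    rw [hg1z, sqn_smul', norm_inv, Complex.norm_real, Real.norm_of_nonneg hs0.le, inv_pow, hs2]
    exact inv_mul_cancel₀ hs.ne'
  have huC : g1 z ∈ Cone G := by
    rw [hg1z]
    exact cone_smul hG hz (inv_ne_zero hsc)
  -- orthogonality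
  have hort : spr (deriv g1 z) (g1 z) = 0 := by
    rw [hg1'.deriv, hg1z]
    have h1 : spr (deriv g z - a • y) y = 0 := by
      rw [spr_sub_smul, ha, ← sqn_cast y, div_mul_cancel₀ _ (by exact_mod_cast hs.ne'), sub_self]
    have h2 : ∀ (c d : ℂ) (x w : Fin (m + 1) → ℂ), spr (c • x) (d • w) =
        c * (starRingEnd ℂ) d * spr x w := by
      intro c d x w
      unfold spr
      rw [Finset.mul_sum]
      refine Finset.sum_congr rfl fun k _ => ?_
      simp only [Pi.smul_apply, smul_eq_mul, map_mul]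
      ring
    rw [h2, h1, mul_zero]
  have hw1 : wedge (g1 z) (deriv g1 z) ^ 2 = sqn (deriv g1 z) := by
    rw [wedge_sq, hort, hu1]
    simp
  -- the composition
  have hd1 : DifferentiableAt ℂ g1 z := hg1'.differentiableAt
  have e1 : wedge (g1 z) (deriv g1 z) / sqn (g1 z) = wedge (g z) (deriv g z) / sqn (g z) :=
    dens_eq hg hld (hl0 z) (Eventually.of_forall fun w => rfl)
  have hPg : DifferentiableAt ℂ (fun z => evP P (g z)) z :=
    DifferentiableAt.comp z evP_diff.differentiableAt hg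
  have e2 : wedge (evP P (g1 z)) (deriv (fun z => evP P (g1 z)) z) / sqn (evP P (g1 z)) =
      wedge (evP P (g z)) (deriv (fun z => evP P (g z)) z) / sqn (evP P (g z)) :=
    dens_eq (g := fun z => evP P (g z)) (g' := fun z => evP P (g1 z)) (l := fun z => l z ^ e) hPg
      (hld.pow e) (pow_ne_zero _ (hl0 z)) (Eventually.of_forall fun w => by
        simp only [hg1]
        rw [evP_smul hP])
  have hdc : deriv (fun z => evP P (g1 z)) z = fderiv ℂ (evP P) (g1 z) (deriv g1 z) := by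
    have h1 : HasFDerivAt (evP P) (fderiv ℂ (evP P) (g1 z)) (g1 z) :=
      evP_diff.differentiableAt.hasFDerivAt
    exact (h1.comp_hasDerivAt z hd1.hasDerivAt).deriv
  have hball : g1 z ∈ closedBall (0 : Fin (m + 1) → ℂ) 1 := by
    rw [mem_closedBall_zero_iff]
    have h1 := norm_le_sqn (g1 z)
    rw [hu1] at h1
    nlinarith [norm_nonneg (g1 z)]
  have hb1 : ‖fderiv ℂ (evP P) (g1 z) (deriv g1 z)‖ ≤ K1 * ‖deriv g1 z‖ :=
    (ContinuousLinearMap.le_opNorm _ _).trans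
      (mul_le_mul_of_nonneg_right (hK1 _ hball) (norm_nonneg _))
  have hb2 : sqn (fderiv ℂ (evP P) (g1 z) (deriv g1 z)) ≤
      ((n + 1 : ℕ) * K1 ^ 2) * wedge (g1 z) (deriv g1 z) ^ 2 := by
    rw [hw1]
    calc sqn (fderiv ℂ (evP P) (g1 z) (deriv g1 z)) ≤
          (n + 1 : ℕ) * ‖fderiv ℂ (evP P) (g1 z) (deriv g1 z)‖ ^ 2 := sqn_le_norm _
      _ ≤ (n + 1 : ℕ) * (K1 * ‖deriv g1 z‖) ^ 2 := by gcongr
      _ = ((n + 1 : ℕ) * K1 ^ 2) * ‖deriv g1 z‖ ^ 2 := by ring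
      _ ≤ ((n + 1 : ℕ) * K1 ^ 2) * sqn (deriv g1 z) := by
        gcongr
        exact norm_le_sqn _
  have hS := hlow _ huC hu1
  set S := sqn (evP P (g1 z)) with hSd
  have hS0 : 0 < S := hc.trans_le hS
  set w := wedge (g1 z) (deriv g1 z) with hwd
  have hw0 : 0 ≤ w := wedge_nonneg _ _
  set W := wedge (evP P (g1 z)) (deriv (fun z => evP P (g1 z)) z) with hWd
  have hW0 : 0 ≤ W := wedge_nonneg _ _
  have hWW : (W / S) ^ 2 ≤ ((n + 1 : ℕ) * K1 ^ 2 / c) * w ^ 2 := by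
    have h1 : W ^ 2 ≤ S * (((n + 1 : ℕ) * K1 ^ 2) * w ^ 2) := by
      rw [hWd, hdc]
      refine (cauchy_wedge _ _).trans ?_
      exact mul_le_mul_of_nonneg_left hb2 hS0.le
    rw [div_pow, div_le_iff₀ (by positivity)]
    calc W ^ 2 ≤ S * (((n + 1 : ℕ) * K1 ^ 2) * w ^ 2) := h1
      _ = (((n + 1 : ℕ) * K1 ^ 2) * w ^ 2 * S / c) * c := by field_simp
      _ ≤ (((n + 1 : ℕ) * K1 ^ 2) * w ^ 2 * S / c) * S := by gcongr
      _ = ((n + 1 : ℕ) * K1 ^ 2 / c) * w ^ 2 * S ^ 2 := by ring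
  have h3 : W / S ≤ √((n + 1 : ℕ) * K1 ^ 2 / c) * w := by
    have h4 : (√((n + 1 : ℕ) * K1 ^ 2 / c) * w) ^ 2 = ((n + 1 : ℕ) * K1 ^ 2 / c) * w ^ 2 := by
      rw [mul_pow, Real.sq_sqrt (by positivity)]
    rw [← h4] at hWW
    exact le_of_sq_le_sq hWW (by positivity)
  rw [← e1, ← e2, hu1, div_one]
  calc W / S ≤ √((n + 1 : ℕ) * K1 ^ 2 / c) * w := h3
    _ ≤ (√((n + 1 : ℕ) * K1 ^ 2 / c) + 1) * w := by nlinarith

end Pool.Agent.H33
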