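import Pool.Agent.H33.TA
import Pool.Agent.H33.QP
import Pool.Agent.H33.NFin

/-! Entire curves in finite covers. -/

set_option autoImplicit false

open Filter Topology Metric Set MvPolynomial LinearAlgebra.Projectivization

namespace Pool.Agent.H33

open Pool.Agent.Y190.OP Pool.Agent.W602.GT Pool.Agent.N155 Pool.Agent.N155.BB

variable {m n : ℕ} {ι ι' : Type} {G : ι' → MvPolynomial (Fin (m + 1)) ℂ}
  {F : ι → MvPolynomial (Fin (n + 1)) ℂ}
  {P : Fin (n + 1) → MvPolynomial (Fin (m + 1)) ℂ} {e : ℕ}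

/-- affine reparametrisations -/
theorem HolIn.affine {g : ℂ → ℙ ℂ (Fin (m + 1) → ℂ)} (hg : HolIn G g) (a b : ℂ) :
    HolIn G fun z => g (a * z + b) := by
  refine ⟨fun z => ?_, fun z => hg.2 _⟩
  obtain ⟨V, g₀, hV, hz, hd, h⟩ := hg.1 (a * z + b)
  have hc : Continuous fun z : ℂ => a * z + b := by fun_prop
  refine ⟨(fun z : ℂ => a * z + b) ⁻¹' V, fun z => g₀ (a * z + b), hV.preimage hc, hz, ?_,
    fun w hw => h _ hw⟩
  exact hd.comp (by fun_prop : Differentiable ℂ fun z : ℂ => a * z + b).differentiableOn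
    fun w hw => hw

/-- the composition with a morphism -/
noncomputable def cmpM (hne : ∀ y ∈ Cone G, evP P y ≠ 0) {g : ℂ → ℙ ℂ (Fin (m + 1) → ℂ)}
    (hg : HolIn G g) (z : ℂ) : ℙ ℂ (Fin (n + 1) → ℂ) :=
  Projectivization.mk ℂ (evP P (g z).rep) (hne _ (hg.2 z))

theorem cmpM_rep (hne : ∀ y ∈ Cone G, evP P y ≠ 0) {g : ℂ → ℙ ℂ (Fin (m + 1) → ℂ)}
    (hg : HolIn G g) (z : ℂ) : ∃ c : ℂ, evP P (g z).rep = c • (cmpM hne hg z).rep := by
  obtain ⟨c, hc, h⟩ := mk_rep (hne _ (hg.2 z)) (rfl : cmpM hne hg z = _)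
  refine ⟨c⁻¹, ?_⟩
  rw [h, smul_smul, inv_mul_cancel₀ hc, one_smul]

/-- lifts of the composition -/
theorem cmpM_lift (hG : ∀ i, IsForm (G i)) (hP : ∀ j, (P j).IsHomogeneous e)
    (hne : ∀ y ∈ Cone G, evP P y ≠ 0)
    {g : ℂ → ℙ ℂ (Fin (m + 1) → ℂ)} (hg : HolIn G g) {g₀ : Fin (m + 1) → ℂ} {w : ℂ}
    (h : ∃ h : g₀ ≠ 0, g w = Projectivization.mk ℂ g₀ h) : g₀ ∈ Cone G ∧
      ∃ h : evP P g₀ ≠ 0, cmpM hne hg w = Projectivization.mk ℂ (evP P g₀) h := by
  obtain ⟨h1, h2⟩ := h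
  obtain ⟨c, hc, hr⟩ := mk_rep h1 h2
  have hC : g₀ ∈ Cone G := by
    have h3 := cone_smul hG (hg.2 w) (inv_ne_zero hc)
    rwa [hr, smul_smul, inv_mul_cancel₀ hc, one_smul] at h3
  refine ⟨hC, hne _ hC, ?_⟩
  unfold cmpM
  rw [Projectivization.mk_eq_mk_iff']
  exact ⟨c ^ e, by rw [hr, evP_smul hP]⟩

theorem cmpM_holIn (hG : ∀ i, IsForm (G i)) (hF : ∀ i, IsForm (F i)) (hP : RationalMap G F P)
    (hne : ∀ y ∈ Cone G, evP P y ≠ 0)
    {g : ℂ → ℙ ℂ (Fin (m + 1) → ℂ)} (hg : HolIn G g) : HolIn F (cmpM hne hg) := by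
  obtain ⟨e, he⟩ := hP.form
  constructor
  · intro z
    obtain ⟨V, g₀, hV, hz, hd, h⟩ := hg.1 z
    refine ⟨V, fun z => evP P (g₀ z), hV, hz, ?_, fun w hw => (cmpM_lift hG he hne hg (h w hw)).2⟩
    exact evP_diff.comp_differentiableOn hd
  · intro z
    obtain ⟨c, hc, h⟩ := mk_rep (hne _ (hg.2 z)) (rfl : cmpM hne hg z = _)
    rw [h]
    exact cone_smul hF (hP.maps _ (hg.2 z) (hne _ (hg.2 z))) hc

/-- the derivative of the composition -/
theorem cmpM_der (hG : ∀ i, IsForm (G i)) (hF : ∀ i, IsForm (F i)) (hP : RationalMap G F P)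
    (hne : ∀ y ∈ Cone G, evP P y ≠ 0)
    {g : ℂ → ℙ ℂ (Fin (m + 1) → ℂ)} (hg : HolIn G g) {C : ℝ} (hC : DerBetween 0 C g) :
    ∃ C', DerBetween 0 C' (cmpM hne hg) := by
  obtain ⟨e, he⟩ := hP.form
  obtain ⟨K, hK, hKw⟩ := comp_wedge hG he hne
  obtain ⟨A, hA, hw⟩ := wedge_fderiv n
  have hf := cmpM_holIn hG hF hP hne hg
  refine ⟨A * (A * (K * C)), fun V' g' hV' hd' hg' z hz => ?_⟩
  have hS' := sum_pos (hg' z hz).1
  refine ⟨by rw [zero_mul]; exact wedge_nonneg _ _, ?_⟩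
  refine ((hw _ hf.1 V' g' hV' hd' hg' z hz).2).trans
    (mul_le_mul_of_nonneg_right (mul_le_mul_of_nonneg_left ?_ hA.le) hS'.le)
  obtain ⟨V, g₀, hV, hzV, hd, h⟩ := hg.1 z
  have hl := fun w hw => cmpM_lift hG he hne hg (h w hw)
  have h1 := (hw _ hf.1 V (fun z => evP P (g₀ z)) hV (evP_diff.comp_differentiableOn hd)
    (fun w hw => (hl w hw).2) z hzV).1
  have hS := sum_pos (hl z hzV).2.1
  have h2 := hKw g₀ z (hd.differentiableAt (hV.mem_nhds hzV)) (hl z hzV).1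
  have h3 := (hC V g₀ hV hd h z hzV).2
  have hSg := sum_pos (h z hzV).1
  have h4 : wedge (g₀ z) (deriv g₀ z) / sqn (g₀ z) ≤ C := by
    rw [div_le_iff₀ (sqn_pos (h z hzV).1)]
    exact h3
  have h5 : wedge (evP P (g₀ z)) (deriv (fun z => evP P (g₀ z)) z) ≤
      K * C * ∑ k, ‖evP P (g₀ z) k‖ ^ 2 := by
    have h6 := h2.trans (mul_le_mul_of_nonneg_left h4 hK.le)
    rwa [div_le_iff₀ (sqn_pos (hl z hzV).2.1)] at h6
  have h7 := h1.trans (mul_le_mul_of_nonneg_left h5 hA.le)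
  rw [← mul_assoc] at h7
  exact le_of_mul_le_mul_right h7 hS

/-- the area of the composition -/
theorem cmpM_slow (hG : ∀ i, IsForm (G i)) (hP : RationalMap G F P)
    (hne : ∀ y ∈ Cone G, evP P y ≠ 0)
    {g : ℂ → ℙ ℂ (Fin (m + 1) → ℂ)} (hg : HolIn G g) (hs : SlowArea g) :
    SlowArea (cmpM hne hg) := by
  obtain ⟨e, he⟩ := hP.form
  obtain ⟨K, hK, hKw⟩ := comp_wedge hG he hne
  obtain ⟨g₀, hd, h, B, hB⟩ := hs
  have hl := fun w => cmpM_lift hG he hne hg (h w)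
  have hcont : ∀ {k : ℕ} {q : ℂ → Fin (k + 1) → ℂ}, Differentiable ℂ q → (∀ z, q z ≠ 0) →
      Continuous fun z => (wedge (q z) (deriv q z) / ∑ k, ‖q z k‖ ^ 2) ^ 2 := by
    intro k q hq hq0
    have h1 : Continuous fun z => wedge (q z) (deriv q z) := by
      have h2 : Continuous (deriv q) := continuous_iff_continuousAt.2 fun z =>
        (hq.analyticAt z).deriv.continuousAt
      exact Continuous.comp (g := fun p : (Fin (k + 1) → ℂ) × (Fin (k + 1) → ℂ) =>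
        wedge p.1 p.2) (f := fun z => (q z, deriv q z)) wedge_cont (hq.continuous.prodMk h2)
    have h3 : Continuous fun z => ∑ k, ‖q z k‖ ^ 2 := by
      have := hq.continuous
      fun_prop
    exact (h1.div h3 fun z => (sum_pos (hq0 z)).ne').pow 2
  have hPd : Differentiable ℂ fun z => evP P (g₀ z) := evP_diff.comp hd
  refine ⟨fun z => evP P (g₀ z), hPd, fun z => (hl z).2, K ^ 2 * B, ?_⟩
  refine hB.mono fun r hr => ?_
  have hint : ∀ {k : ℕ} {q : ℂ → Fin (k + 1) → ℂ}, Differentiable ℂ q → (∀ z, q z ≠ 0) →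
      MeasureTheory.IntegrableOn (fun z => (wedge (q z) (deriv q z) / ∑ k, ‖q z k‖ ^ 2) ^ 2)
        (ball (0 : ℂ) r) := fun hq hq0 =>
    ((hcont hq hq0).continuousOn.integrableOn_compact (isCompact_closedBall 0 r)).mono_set
      ball_subset_closedBall
  have h1 : area (fun z => evP P (g₀ z)) r ≤ K ^ 2 * area g₀ r := by
    unfold area
    rw [← MeasureTheory.integral_const_mul]
    refine MeasureTheory.setIntegral_mono_on (hint hPd fun z => (hl z).2.1)
      ((hint hd fun z => (h z).1).const_mul _) measurableSet_ball fun z _ => ?_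
    rw [← mul_pow]
    have h2 := hKw g₀ z hd.differentiableAt (hl z).1
    unfold sqn at h2
    have h3 : 0 ≤ wedge (evP P (g₀ z)) (deriv (fun z => evP P (g₀ z)) z) /
        ∑ k, ‖evP P (g₀ z) k‖ ^ 2 := div_nonneg (wedge_nonneg _ _) (sum_pos (hl z).2.1).le
    exact pow_le_pow_left₀ h3 h2 2
  calc area (fun z => evP P (g₀ z)) r ≤ K ^ 2 * area g₀ r := h1
    _ ≤ K ^ 2 * (B * r ^ 2) := mul_le_mul_of_nonneg_left hr (by positivity)
    _ = K ^ 2 * B * r ^ 2 := by ring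

/-- entire curves which coincide somewhere -/
theorem eq_countable {g g' : ℂ → ℙ ℂ (Fin (m + 1) → ℂ)} (hg : HolMap g) (hg' : HolMap g')
    (hne : g ≠ g') : ({z : ℂ | g z = g' z} ∩ ball 0 1).Countable := by
  obtain ⟨z₁, hz₁⟩ := Function.ne_iff.1 hne
  set l : ℂ := ((‖z₁‖ + 1 : ℝ) : ℂ) with hl
  have hl1 : ‖l‖ = ‖z₁‖ + 1 := by
    rw [hl, Complex.norm_real, Real.norm_of_nonneg (by positivity)]
  have hl0 : l ≠ 0 := norm_ne_zero_iff.1 (by rw [hl1]; positivity)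
  have h1 : ({ζ : ℂ | g (l * ζ) = g' (l * ζ)} ∩ ball 0 1).Countable := by
    refine countable_of_punctured ((grm_of_holMap hg l).ne_of_ne (grm_of_holMap hg' l) ?_)
    refine ⟨z₁ / l, ?_, ?_⟩
    · rw [mem_ball_zero_iff, norm_div, hl1, div_lt_one (by positivity)]
      linarith
    · rw [mul_div_cancel₀ _ hl0]
      exact hz₁
  refine (h1.image fun ζ => l * ζ).mono ?_
  rintro z ⟨hz, hz1⟩
  refine ⟨z / l, ⟨?_, ?_⟩, mul_div_cancel₀ _ hl0⟩
  · rw [mem_ofPred_eq, mul_div_cancel₀ _ hl0]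
    exact hz
  · rw [mem_ball_zero_iff, norm_div, hl1, div_lt_one (by positivity)]
    rw [mem_ball_zero_iff] at hz1
    linarith [norm_nonneg z₁]

/-- the curves over a given curve -/
def LiftsOf (G : ι' → MvPolynomial (Fin (m + 1)) ℂ) (P : Fin (n + 1) → MvPolynomial (Fin (m + 1)) ℂ)
    (h : ℂ → ℙ ℂ (Fin (n + 1) → ℂ)) : Set (ℂ → ℙ ℂ (Fin (m + 1) → ℂ)) :=
  {g | HolIn G g ∧ ∀ z, ∃ c : ℂ, ratVal P (g z).rep = c • (h z).rep}

theorem lifts_finite (hfin : FiniteOff G P fun _ : Unit => 1) (h : ℂ → ℙ ℂ (Fin (n + 1) → ℂ)) :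
    (LiftsOf G P h).Finite := by
  by_contra hinf
  have hinf' : (LiftsOf G P h).Infinite := hinf
  set e := hinf'.natEmbedding with he
  set g : ℕ → ℂ → ℙ ℂ (Fin (m + 1) → ℂ) := fun i => (e i).1 with hg
  have hgi : ∀ i, g i ∈ LiftsOf G P h := fun i => (e i).2
  have hA : ∀ i j, i ≠ j → ({z : ℂ | g i z = g j z} ∩ ball 0 1).Countable := fun i j hij =>
    eq_countable (hgi i).1.1 (hgi j).1.1 fun hcon => hij (e.injective (Subtype.ext hcon))
  have hcount : (⋃ i : ℕ, ⋃ j : ℕ, ⋃ _ : i ≠ j, ({z : ℂ | g i z = g j z} ∩ ball 0 1)).Countable :=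
    Set.countable_iUnion fun i => Set.countable_iUnion fun j => Set.countable_iUnion fun h =>
      hA i j h
  obtain ⟨z, hz, hz'⟩ := (hcount.dense_compl ℂ).exists_mem_open isOpen_ball
    ⟨0, mem_ball_self one_pos⟩
  rw [Set.mem_compl_iff] at hz
  simp only [Set.mem_iUnion, not_exists, Set.mem_inter_iff, not_and] at hz
  have hinj : Function.Injective fun i => g i z := by
    intro i j hij
    by_contra hne
    exact hz i j hne hij hz'
  refine Set.infinite_of_injective_forall_mem hinj (fun i => ?_) (hfin.fib (h z).rep)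
  exact ⟨(hgi i).1.2 z, ⟨(), by simp⟩, (hgi i).2 z⟩

/-- finite covers of doubly periodic curves -/
theorem lift_periodic (hfin : FiniteOff G P fun _ : Unit => 1) {h : ℂ → ℙ ℂ (Fin (n + 1) → ℂ)}
    (hh : DoublyPeriodic h) {g : ℂ → ℙ ℂ (Fin (m + 1) → ℂ)} (hg : g ∈ LiftsOf G P h) :
    DoublyPeriodic g := by
  obtain ⟨L, hL⟩ := hh
  have htr : ∀ ω ∈ L.lattice, (fun z => g (z + ω)) ∈ LiftsOf G P h := by
    intro ω hω
    refine ⟨?_, fun z => ?_⟩
    · have := HolIn.affine hg.1 1 ω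
      simpa only [one_mul] using this
    · obtain ⟨c, hc⟩ := hg.2 (z + ω)
      exact ⟨c, by rw [hc, hL ω hω]⟩
  have hper : ∀ ω ∈ L.lattice, ∃ N : ℕ, 0 < N ∧ ∀ z, g (z + N * ω) = g z := by
    intro ω hω
    have hmem : ∀ k : ℕ, (fun z => g (z + k * ω)) ∈ LiftsOf G P h := fun k => by
      have h1 : (k : ℂ) * ω ∈ L.lattice := by
        have := L.lattice.smul_mem (k : ℤ) hω
        simpa using this
      exact htr _ h1
    have hni : ¬ Function.Injective fun k : ℕ => fun z => g (z + k * ω) := fun hinj =>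
      Set.infinite_of_injective_forall_mem hinj hmem (lifts_finite hfin h)
    rw [Function.not_injective_iff] at hni
    obtain ⟨a, b, hab, hne⟩ := hni
    rcases lt_or_gt_of_ne hne with hlt | hlt
    · refine ⟨b - a, Nat.sub_pos_of_lt hlt, fun z => ?_⟩
      have h1 := congrFun hab (z - a * ω)
      simp only [sub_add_cancel] at h1
      rw [h1, Nat.cast_sub hlt.le]
      congr 1
      ring
    · refine ⟨a - b, Nat.sub_pos_of_lt hlt, fun z => ?_⟩
      have h1 := congrFun hab (z - b * ω)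
      simp only [sub_add_cancel] at h1
      rw [← h1, Nat.cast_sub hlt.le]
      congr 1
      ring
  obtain ⟨N1, hN1, h1⟩ := hper _ L.ω₁_mem_lattice
  obtain ⟨N2, hN2, h2⟩ := hper _ L.ω₂_mem_lattice
  have hind : LinearIndependent ℝ ![(N1 : ℂ) * L.ω₁, (N2 : ℂ) * L.ω₂] := by
    have h3 := L.indep
    rw [LinearIndependent.pair_iff] at h3 ⊢
    intro s t hst
    have h4 := h3 (s * N1) (t * N2) (by
      rw [← hst]
      simp only [Complex.real_smul]
      push_cast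
      ring)
    have a1 : (N1 : ℝ) ≠ 0 := by exact_mod_cast hN1.ne'
    have a2 : (N2 : ℝ) ≠ 0 := by exact_mod_cast hN2.ne'
    exact ⟨(mul_eq_zero.1 h4.1).resolve_right a1, (mul_eq_zero.1 h4.2).resolve_right a2⟩
  refine ⟨⟨(N1 : ℂ) * L.ω₁, (N2 : ℂ) * L.ω₂, hind⟩, fun l hl z => ?_⟩
  obtain ⟨a, b, rfl⟩ := PeriodPair.mem_lattice.1 hl
  have key : ∀ (ω : ℂ), (∀ z, g (z + ω) = g z) → ∀ (k : ℤ) (z : ℂ), g (z + k * ω) = g z := by
    intro ω hω k
    induction k using Int.induction_on with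
    | zero => intro z; simp
    | succ k ih =>
      intro z
      have h3 := ih (z + ω)
      rw [hω] at h3
      rw [← h3]
      congr 1
      push_cast
      ring
    | pred k ih =>
      intro z
      have h3 := hω (z + ((-(k : ℤ) - 1 : ℤ) : ℂ) * ω)
      rw [← h3, ← ih z]
      congr 1
      push_cast
      ring
  have h3 : z + ((a : ℂ) * ((N1 : ℂ) * L.ω₁) + b * ((N2 : ℂ) * L.ω₂)) =
      (z + a * (N1 * L.ω₁)) + b * (N2 * L.ω₂) := by ring
  simp only
  rw [h3, key _ h2, key _ h1]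

end Pool.Agent.H33
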