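import Pool.Agent.H33.TB
import Pool.Agent.H33.KE

/-! Entire curves in finite covers, and hyperbolicity. -/

set_option autoImplicit false

open Filter Topology Metric Set MvPolynomial LinearAlgebra.Projectivization

namespace Pool.Agent.H33

open Pool.Agent.Y190.OP Pool.Agent.W602.GT Pool.Agent.N155 Pool.Agent.N155.BB
open Pool.Agent.N154.GG (kobayashi projDist)

variable {m n : ℕ} {ι ι' : Type} {G : ι' → MvPolynomial (Fin (m + 1)) ℂ}
  {F : ι → MvPolynomial (Fin (n + 1)) ℂ}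
  {P : Fin (n + 1) → MvPolynomial (Fin (m + 1)) ℂ} {e d : ℕ}
  {κ : Type} {η : κ → (Fin (n + 1) → ℂ) → (Fin (n + 1) → ℂ) → (Fin (n + 1) → ℂ) → ℂ}
  {Φ : (Fin (n + 1) → ℂ) → (Fin (n + 1) → ℂ) → ℝ}

/-- entire curves with values in a finite set -/
theorem const_of_finite {g : ℂ → ℙ ℂ (Fin (m + 1) → ℂ)} (hg : HolMap g)
    {Q : Set (ℙ ℂ (Fin (m + 1) → ℂ))} (hQ : Q.Finite) (h : ∀ z, g z ∈ Q) : ∀ z w, g z = g w := by
  by_contra hne
  have hA : ∀ q ∈ Q, ({z : ℂ | g z = q} ∩ ball 0 1).Countable := by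
    intro q hq
    refine eq_countable (g' := fun _ => q) hg (fun z => ?_) ?_
    · exact ⟨univ, fun _ => q.rep, isOpen_univ, mem_univ _, (differentiable_const _).differentiableOn,
        fun w _ => ⟨Projectivization.rep_nonzero q, (Projectivization.mk_rep q).symm⟩⟩
    · intro hcon
      apply hne
      intro z w
      rw [hcon]
  have hcount : (⋃ q ∈ Q, ({z : ℂ | g z = q} ∩ ball 0 1)).Countable := hQ.countable.biUnion hA
  obtain ⟨z, hz, hz'⟩ := (hcount.dense_compl ℂ).exists_mem_open isOpen_ball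
    ⟨0, mem_ball_self one_pos⟩
  rw [Set.mem_compl_iff] at hz
  simp only [Set.mem_iUnion, not_exists, Set.mem_inter_iff, not_and] at hz
  exact hz (g z) (h z) rfl hz'

theorem fin_ne (hfin : FiniteOff G P fun _ : Unit => 1) : ∀ y ∈ Cone G, evP P y ≠ 0 :=
  fun y hy => hfin.defined y hy ⟨(), by simp⟩

/-- the composition of a nonconstant curve -/
theorem cmpM_nonconst (hfin : FiniteOff G P fun _ : Unit => 1) {g : ℂ → ℙ ℂ (Fin (m + 1) → ℂ)}
    (hg : HolIn G g) (hne : ¬ ∀ z w, g z = g w) :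
    ¬ ∀ z w, cmpM (fin_ne hfin) hg z = cmpM (fin_ne hfin) hg w := by
  intro hc
  apply hne
  refine const_of_finite hg.1 (hfin.fib (cmpM (fin_ne hfin) hg 0).rep) fun z => ?_
  refine ⟨hg.2 z, ⟨(), by simp⟩, ?_⟩
  obtain ⟨c, h⟩ := cmpM_rep (fin_ne hfin) hg z
  exact ⟨c, by rw [← hc z 0]; exact h⟩

theorem cmpM_periodic (hne : ∀ y ∈ Cone G, evP P y ≠ 0) {g : ℂ → ℙ ℂ (Fin (m + 1) → ℂ)}
    (hg : HolIn G g) (hp : DoublyPeriodic g) : DoublyPeriodic (cmpM hne hg) := by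
  obtain ⟨L, hL⟩ := hp
  refine ⟨L, fun l hl z => ?_⟩
  simp only [cmpM, hL l hl z]

/-- the curves of finite covers -/
theorem cover_curves (hG : ∀ i, IsForm (G i)) (hF : ∀ i, IsForm (F i)) (hP : RationalMap G F P)
    (hfin : FiniteOff G P fun _ : Unit => 1) {S : Finset (ℂ → ℙ ℂ (Fin (n + 1) → ℂ))}
    (hS : ∀ h ∈ S, DoublyPeriodic h)
    (hcur : ∀ f, HolIn F f → (¬ ∀ z w, f z = f w) →
        (DoublyPeriodic f ∨ (∃ C, DerBetween 0 C f) ∨ SlowArea f) →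
        ∃ h ∈ S, ∃ a b : ℂ, a ≠ 0 ∧ ∀ z, f z = h (a * z + b)) :
    ∃ S' : Finset (ℂ → ℙ ℂ (Fin (m + 1) → ℂ)),
      (∀ h ∈ S', HolIn G h ∧ DoublyPeriodic h ∧ ¬ ∀ z w, h z = h w) ∧
      ∀ g, HolIn G g → (¬ ∀ z w, g z = g w) →
        (DoublyPeriodic g ∨ (∃ C, DerBetween 0 C g) ∨ SlowArea g) →
        ∃ h ∈ S', ∃ a b : ℂ, a ≠ 0 ∧ ∀ z, g z = h (a * z + b) := by
  classical
  have hne := fin_ne hfin
  set A : Set (ℂ → ℙ ℂ (Fin (m + 1) → ℂ)) :=
    {g | (∃ h ∈ S, g ∈ LiftsOf G P h) ∧ ¬ ∀ z w, g z = g w} with hA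
  have hAf : A.Finite := by
    have h1 : (⋃ h ∈ S, LiftsOf G P h).Finite :=
      S.finite_toSet.biUnion fun h _ => lifts_finite hfin h
    refine h1.subset ?_
    rintro g ⟨⟨h, hh, hg⟩, -⟩
    simp only [Set.mem_iUnion]
    exact ⟨h, hh, hg⟩
  refine ⟨hAf.toFinset, fun g hg => ?_, fun g hg hnc hgr => ?_⟩
  · obtain ⟨⟨h, hh, hgl⟩, h2⟩ := hAf.mem_toFinset.1 hg
    exact ⟨hgl.1, lift_periodic hfin (hS h hh) hgl, h2⟩
  · have hgr' : DoublyPeriodic (cmpM hne hg) ∨ (∃ C, DerBetween 0 C (cmpM hne hg)) ∨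
        SlowArea (cmpM hne hg) := by
      rcases hgr with h | ⟨C, h⟩ | h
      · exact Or.inl (cmpM_periodic hne hg h)
      · exact Or.inr (Or.inl (cmpM_der hG hF hP hne hg h))
      · exact Or.inr (Or.inr (cmpM_slow hG hP hne hg h))
    obtain ⟨h, hh, a, b, ha, hf⟩ := hcur _ (cmpM_holIn hG hF hP hne hg)
      (cmpM_nonconst hfin hg hnc) hgr'
    have hinv : ∀ z, a⁻¹ * (a * z + b) + -(a⁻¹ * b) = z := fun z => by
      rw [mul_add, inv_mul_cancel_left₀ ha]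
      ring
    have hinv' : ∀ z, a * (a⁻¹ * z + -(a⁻¹ * b)) + b = z := fun z => by
      rw [mul_add, mul_inv_cancel_left₀ ha, mul_neg, mul_inv_cancel_left₀ ha]
      ring
    refine ⟨fun z => g (a⁻¹ * z + -(a⁻¹ * b)), hAf.mem_toFinset.2 ⟨⟨h, hh, ?_, fun z => ?_⟩, ?_⟩,
      a, b, ha, fun z => ?_⟩
    · exact HolIn.affine hg _ _
    · obtain ⟨c, hc⟩ := cmpM_rep hne hg (a⁻¹ * z + -(a⁻¹ * b))
      rw [hf, hinv'] at hc
      exact ⟨c, hc⟩
    · intro hcon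
      apply hnc
      intro z w
      have h1 := hcon (a * z + b) (a * w + b)
      simp only [hinv] at h1
      exact h1
    · simp only [hinv]

/-- hyperbolic varieties have no entire curves -/
theorem const_of_kob {g : ℂ → ℙ ℂ (Fin (m + 1) → ℂ)} (hg : HolIn G g)
    (h : KobayashiHyperbolic G) : ∀ z w, g z = g w := by
  obtain ⟨c, hc, h⟩ := h
  intro z w
  have h0 : kobayashi (Cone G) (g z) (g w) = 0 := by
    refine kob_zero (S := {g}) (fun h hh => ?_) (Relation.ReflTransGen.single ?_)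
    · rw [Set.mem_singleton_iff] at hh
      rw [hh]
      exact hg
    · exact ⟨g, rfl, z, w, rfl, rfl⟩
  have h1 := h _ _ (hg.2 z) (hg.2 w)
  rw [h0, nonpos_iff_eq_zero, ENNReal.ofReal_eq_zero] at h1
  have h2 : projDist (g z) (g w) ≤ 0 := by
    by_contra h3
    push Not at h3
    have := mul_pos hc h3
    linarith
  apply proj_ext
  have h3 : ‖Phi (g z).rep - Phi (g w).rep‖ ≤ 0 := h2
  exact sub_eq_zero.1 (norm_le_zero_iff.1 h3)

/-- hyperbolicity of finite covers -/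
theorem cover_kob (hG : ∀ i, IsForm (G i)) (hF : ∀ i, IsForm (F i)) (hP : RationalMap G F P)
    (hfin : FiniteOff G P fun _ : Unit => 1) {S : Finset (ℂ → ℙ ℂ (Fin (n + 1) → ℂ))}
    (hS : ∀ h ∈ S, DoublyPeriodic h)
    (hcur : ∀ f, HolIn F f → (¬ ∀ z w, f z = f w) →
        (DoublyPeriodic f ∨ (∃ C, DerBetween 0 C f) ∨ SlowArea f) →
        ∃ h ∈ S, ∃ a b : ℂ, a ≠ 0 ∧ ∀ z, f z = h (a * z + b)) :
    (KobayashiHyperbolic G ↔ ∀ g, HolIn G g → DoublyPeriodic g → ∀ z w, g z = g w) ∧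
      ∀ g, HolIn G g → (¬ ∀ z w, g z = g w) → ∃ g', HolIn G g' ∧ DoublyPeriodic g' ∧
        (¬ ∀ z w, g' z = g' w) ∧ ∀ E : MvPolynomial (Fin (m + 1)) ℂ, IsForm E →
          (∀ z, eval (g z).rep E = 0) → ∀ z, eval (g' z).rep E = 0 := by
  have key : ∀ {ι'' : Type} (G' : ι'' → MvPolynomial (Fin (m + 1)) ℂ), (∀ i, IsForm (G' i)) →
      RationalMap G' F P → FiniteOff G' P (fun _ : Unit => 1) →
      (∀ g, HolIn G' g → DoublyPeriodic g → ∀ z w, g z = g w) → KobayashiHyperbolic G' := by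
    intro ι'' G' hG' hP' hfin' hdp
    obtain ⟨S', hS', h'⟩ := cover_curves hG' hF hP' hfin' hS hcur
    refine kob_of_brody hG' fun f hf C hb => ?_
    by_contra hne
    obtain ⟨h, hh, -⟩ := h' f hf hne (Or.inr (Or.inl ⟨C, hb⟩))
    obtain ⟨h1, h2, h3⟩ := hS' h hh
    exact h3 (hdp h h1 h2)
  refine ⟨⟨fun h g hg _ => const_of_kob hg h, fun h => key G hG hP hfin h⟩, fun g hg hne => ?_⟩
  set G' : {E : MvPolynomial (Fin (m + 1)) ℂ // IsForm E ∧ ∀ z, eval (g z).rep E = 0} →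
    MvPolynomial (Fin (m + 1)) ℂ := fun E => E.1 with hG'
  have hsub : Cone G' ⊆ Cone G := by
    rintro y ⟨hy0, hy⟩
    refine ⟨hy0, fun i => ?_⟩
    exact hy ⟨G i, hG i, fun z => by
      have := (hg.2 z).2 i
      rwa [val_eval] at this⟩
  have hg' : HolIn G' g := ⟨hg.1, fun z => ⟨Projectivization.rep_nonzero _, fun E => by
    rw [val_eval]
    exact E.2.2 z⟩⟩
  have hP' : RationalMap G' F P := ⟨hP.form, fun y hy => hP.maps y (hsub hy)⟩
  have hfin' : FiniteOff G' P fun _ : Unit => 1 := ⟨fun y hy => hfin.defined y (hsub hy),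
    fun x => (hfin.fib x).subset fun q hq => ⟨hsub hq.1, hq.2⟩⟩
  by_contra hcon
  push Not at hcon
  apply hne
  refine const_of_kob hg' (key G' (fun E => E.2.1) hP' hfin' fun g' hg1 hdp => ?_)
  by_contra hnc
  obtain ⟨E, hE, hE0, z, hz⟩ := hcon g' ⟨hg1.1, fun z => hsub (hg1.2 z)⟩ hdp (by
    by_contra hh
    push Not at hh
    exact hnc hh)
  apply hz
  have := (hg1.2 z).2 ⟨E, hE, hE0⟩
  rwa [val_eval] at this

end Pool.Agent.H33
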