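import Pool.Agent.H33.TC
import Pool.Agent.H33.QP

/-! Truncated distances on generically finite covers. -/

set_option autoImplicit false

open Filter Topology Metric Set MvPolynomial LinearAlgebra.Projectivization

namespace Pool.Agent.H33

open Pool.Agent.Y190.OP Pool.Agent.W602.GT Pool.Agent.N155 Pool.Agent.N155.BB
open Pool.Agent.N154.GG (kobayashi projDist IsChainLength poincareDist)
open Pool.Agent.Helper206 (cost phd phd_nonneg phd_lt_one phd_le_cost one_sub_conj_mul_ne_zero)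

variable {m n : ℕ} {ι ι' κ' : Type} {G : ι' → MvPolynomial (Fin (m + 1)) ℂ}
  {F : ι → MvPolynomial (Fin (n + 1)) ℂ}
  {P : Fin (n + 1) → MvPolynomial (Fin (m + 1)) ℂ} {H : κ' → MvPolynomial (Fin (m + 1)) ℂ}

theorem cost_comm (s t : ℂ) : cost s t = cost t s := by
  have h1 : ‖1 - (starRingEnd ℂ) s * t‖ = ‖1 - (starRingEnd ℂ) t * s‖ := by
    rw [← Complex.norm_conj]
    congr 1
    simp only [map_sub, map_one, map_mul, Complex.conj_conj]
    ring
  unfold Pool.Agent.Helper206.cost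
  rw [h1, norm_sub_rev]

theorem cost_mono {s t s' t' : ℂ} (hs : s ∈ ball (0 : ℂ) 1) (ht : t ∈ ball (0 : ℂ) 1)
    (h : phd s' t' ≤ phd s t) : cost s' t' ≤ cost s t := by
  have h0 := phd_nonneg s' t'
  have h1 := phd_lt_one hs ht
  have h2 := phd_nonneg s t
  unfold Pool.Agent.Helper206.phd at h h0 h1 h2
  unfold Pool.Agent.Helper206.cost
  set x := ‖s' - t'‖ / ‖1 - (starRingEnd ℂ) s' * t'‖
  set y := ‖s - t‖ / ‖1 - (starRingEnd ℂ) s * t‖
  have hx : 0 < 1 - x := by linarith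
  have hy : 0 < 1 - y := by linarith
  apply Real.log_le_log
  · positivity
  · exact div_le_div₀ (by linarith) (by linarith) hy (by linarith)

/-- the cost along segments -/
theorem cost_seg {s t : ℂ} (hs : s ∈ ball (0 : ℂ) 1) (ht : t ∈ ball (0 : ℂ) 1) {τ : ℝ}
    (h0 : 0 ≤ τ) (h1 : τ ≤ 1) : cost s (s + τ * (t - s)) ≤ cost s t := by
  apply cost_mono hs ht
  have hs1 : ‖s‖ < 1 := mem_ball_zero_iff.1 hs
  have ht1 : ‖t‖ < 1 := mem_ball_zero_iff.1 ht
  have hst : ‖(starRingEnd ℂ) s * t‖ < 1 := by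
    rw [norm_mul, Complex.norm_conj]
    nlinarith [norm_nonneg s, norm_nonneg t]
  have hpos := norm_pos_iff.2 (one_sub_conj_mul_ne_zero hs ht)
  have hz : s + τ * (t - s) ∈ ball (0 : ℂ) 1 := by
    have := (convex_ball (0 : ℂ) 1) hs ht (sub_nonneg.2 h1) h0 (by ring)
    convert this using 1
    simp only [Complex.real_smul]
    push_cast
    ring
  have hpos' := norm_pos_iff.2 (one_sub_conj_mul_ne_zero hs hz)
  unfold Pool.Agent.Helper206.phd
  have e1 : ‖s - (s + τ * (t - s))‖ = τ * ‖s - t‖ := by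
    have : s - (s + τ * (t - s)) = τ * (s - t) := by ring
    rw [this, norm_mul, Complex.norm_real, Real.norm_of_nonneg h0]
  have e2 : τ * ‖1 - (starRingEnd ℂ) s * t‖ ≤ ‖1 - (starRingEnd ℂ) s * (s + τ * (t - s))‖ := by
    have e3 : 1 - (starRingEnd ℂ) s * (s + τ * (t - s)) =
        (((1 - τ) * (1 - ‖s‖ ^ 2) : ℝ) : ℂ) + τ * (1 - (starRingEnd ℂ) s * t) := by
      have h3 : (starRingEnd ℂ) s * s = ((‖s‖ ^ 2 : ℝ) : ℂ) := by
        rw [mul_comm, Complex.mul_conj, Complex.sq_norm]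
      push_cast at h3 ⊢
      linear_combination (-1 + (τ : ℂ)) * h3
    have e4 : τ * ‖1 - (starRingEnd ℂ) s * t‖ = ‖(τ : ℂ) * (1 - (starRingEnd ℂ) s * t)‖ := by
      rw [norm_mul, Complex.norm_real, Real.norm_of_nonneg h0]
    rw [e3, e4]
    set b := (τ : ℂ) * (1 - (starRingEnd ℂ) s * t) with hb
    have hbr : 0 ≤ b.re := by
      have h3 : b.re = τ * (1 - ((starRingEnd ℂ) s * t).re) := by
        rw [hb, Complex.re_ofReal_mul, Complex.sub_re, Complex.one_re]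
      rw [h3]
      have h4 := (Complex.abs_re_le_norm ((starRingEnd ℂ) s * t))
      have h5 := (le_abs_self _).trans h4
      exact mul_nonneg h0 (by linarith)
    have ha : 0 ≤ (1 - τ) * (1 - ‖s‖ ^ 2) :=
      mul_nonneg (by linarith) (by nlinarith [norm_nonneg s])
    set a : ℝ := (1 - τ) * (1 - ‖s‖ ^ 2)
    apply le_of_sq_le_sq _ (norm_nonneg _)
    rw [Complex.sq_norm, Complex.sq_norm, Complex.normSq_apply, Complex.normSq_apply]
    simp only [Complex.add_re, Complex.add_im, Complex.ofReal_re, Complex.ofReal_im, zero_add]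
    nlinarith
  rw [div_le_div_iff₀ hpos' hpos, e1]
  calc τ * ‖s - t‖ * ‖1 - (starRingEnd ℂ) s * t‖ =
        ‖s - t‖ * (τ * ‖1 - (starRingEnd ℂ) s * t‖) := by ring
    _ ≤ ‖s - t‖ * ‖1 - (starRingEnd ℂ) s * (s + τ * (t - s))‖ :=
        mul_le_mul_of_nonneg_left e2 (norm_nonneg _)

theorem cost_nonneg {s t : ℂ} (hs : s ∈ ball (0 : ℂ) 1) (ht : t ∈ ball (0 : ℂ) 1) :
    0 ≤ cost s t := (phd_nonneg s t).trans (phd_le_cost hs ht)

/-- the truncated function -/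
noncomputable def trunc {N : ℕ} (u : Mat N → ℝ) (N0 : Mat N) (δ r : ℝ) (M : Mat N) : ℝ :=
  open Classical in if ‖M - N0‖ < δ then min (u M) r else r

/-- the truncated function along discs -/
theorem trunc_lip {N : ℕ} {u : Mat N → ℝ} {N0 : Mat N} {δ r A : ℝ} (hA : 0 ≤ A)
    {Q : ℂ → Mat N} (hQ : ContinuousOn Q (ball 0 1))
    (hsph : ∀ z ∈ ball (0 : ℂ) 1, ‖Q z - N0‖ = δ → r ≤ u (Q z))
    (hin : ∀ z₁ ∈ ball (0 : ℂ) 1, ‖Q z₁ - N0‖ < δ → ∀ s ∈ ball (0 : ℂ) 1, ‖Q s - N0‖ ≤ δ →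
      ∀ t ∈ ball (0 : ℂ) 1, ‖Q t - N0‖ ≤ δ →
        dist (min (u (Q t)) r) (min (u (Q s)) r) ≤ A * cost s t)
    {s t : ℂ} (hs : s ∈ ball (0 : ℂ) 1) (ht : t ∈ ball (0 : ℂ) 1) :
    dist (trunc u N0 δ r (Q t)) (trunc u N0 δ r (Q s)) ≤ A * cost s t := by
  have hone : ∀ s ∈ ball (0 : ℂ) 1, ∀ t ∈ ball (0 : ℂ) 1, ‖Q s - N0‖ < δ → ¬ ‖Q t - N0‖ < δ →
      dist r (min (u (Q s)) r) ≤ A * cost s t := by
    intro s hs t ht h1 h2
    have hseg : ∀ τ ∈ Icc (0 : ℝ) 1, s + τ * (t - s) ∈ ball (0 : ℂ) 1 := by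
      intro τ hτ
      have := (convex_ball (0 : ℂ) 1) hs ht (sub_nonneg.2 hτ.2) hτ.1 (by ring)
      convert this using 1
      simp only [Complex.real_smul]
      push_cast
      ring
    have hc : ContinuousOn (fun τ : ℝ => ‖Q (s + τ * (t - s)) - N0‖) (Icc 0 1) := by
      have h3 : ContinuousOn (fun τ : ℝ => Q (s + τ * (t - s))) (Icc 0 1) :=
        hQ.comp (by fun_prop) hseg
      exact (h3.sub continuousOn_const).norm
    have hiv := intermediate_value_Icc zero_le_one hc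
    have hmem : δ ∈ Icc (‖Q (s + (0 : ℝ) * (t - s)) - N0‖) (‖Q (s + (1 : ℝ) * (t - s)) - N0‖) := by
      constructor
      · simp only [Complex.ofReal_zero, zero_mul, add_zero]
        exact h1.le
      · simp only [Complex.ofReal_one, one_mul, add_sub_cancel]
        exact not_lt.1 h2
    obtain ⟨τ, hτ, hτe⟩ := hiv hmem
    simp only at hτe
    have hz := hseg τ hτ
    have h4 := hsph _ hz hτe
    have h5 := hin s hs h1 s hs h1.le _ hz hτe.le
    rw [min_eq_right h4] at h5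
    refine h5.trans (mul_le_mul_of_nonneg_left ?_ hA)
    exact cost_seg hs ht hτ.1 hτ.2
  unfold trunc
  by_cases h1 : ‖Q s - N0‖ < δ
  · by_cases h2 : ‖Q t - N0‖ < δ
    · rw [if_pos h1, if_pos h2]
      exact hin s hs h1 s hs h1.le t ht h2.le
    · rw [if_pos h1, if_neg h2]
      exact hone s hs t ht h1 h2
  · by_cases h2 : ‖Q t - N0‖ < δ
    · rw [if_neg h1, if_pos h2, dist_comm, cost_comm]
      exact hone t ht s hs h2 h1
    · rw [if_neg h1, if_neg h2, dist_self]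
      exact mul_nonneg hA (cost_nonneg hs ht)

theorem holD_of_on {g : ℂ → ℙ ℂ (Fin (m + 1) → ℂ)} (hg : Pool.Agent.N154.GG.HolMapOn (ball 0 1) g) : HolD g := by
  intro z hz
  obtain ⟨V, g₀, hV, hzV, hd, h⟩ := hg z hz
  refine ⟨g₀, hd.analyticAt (hV.mem_nhds hzV), (h z hzV).1, ?_⟩
  filter_upwards [hV.mem_nhds hzV] with w hw
  obtain ⟨h1, h2⟩ := h w hw
  exact mk_rep h1 h2

theorem holP_of_D {g : ℂ → ℙ ℂ (Fin (m + 1) → ℂ)} (hg : HolD g) :
    HolP (ball 0 1) fun z => Phi (g z).rep := by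
  intro z hz
  obtain ⟨u, hu, hu0, hev⟩ := hg z hz
  have h1 := (hu.eventually_analyticAt).and (hev.and (hu.continuousAt.eventually_ne hu0))
  obtain ⟨V, hVs, hV, hzV⟩ := _root_.mem_nhds_iff.1 h1
  refine ⟨V, u, hV, hzV, fun w hw => (hVs hw).1.differentiableAt.differentiableWithinAt,
    fun w hw => ?_⟩
  obtain ⟨-, ⟨c, hc, h2⟩, h3⟩ := hVs hw
  refine ⟨h3, ?_⟩
  simp only
  rw [h2, Phi_smul hc]

/-- compositions of discs with rational maps -/
theorem disc_comp (hF : ∀ i, IsForm (F i)) (hP : RationalMap G F P)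
    {g : ℂ → ℙ ℂ (Fin (m + 1) → ℂ)} (hg : Pool.Agent.N154.GG.HolMapOn (ball 0 1) g)
    (hgG : ∀ z ∈ ball (0 : ℂ) 1, (g z).rep ∈ Cone G) {z₁ : ℂ} (hz₁ : z₁ ∈ ball (0 : ℂ) 1)
    (h1 : ratVal P (g z₁).rep ≠ 0) :
    ∃ f : ℂ → Mat (n + 1), HolP (ball 0 1) f ∧ (∀ z ∈ ball (0 : ℂ) 1, f z ∈ TF F) ∧
      ∀ z ∈ ball (0 : ℂ) 1, ratVal P (g z).rep ≠ 0 → f z = Phi (ratVal P (g z).rep) := by
  obtain ⟨e, he⟩ := hP.form
  have hD := holD_of_on hg
  set T : Fin (n + 1) → ℂ → ℂ := fun k z => eval (g z).rep (P k) with hT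
  have hTs : ∀ k, Sec g e (T k) := fun k => sec_form (he k)
  obtain ⟨i, hi⟩ := Function.ne_iff.1 h1
  have hi : eval (g z₁).rep (P i) ≠ 0 := hi
  obtain ⟨h, hh, hTh⟩ := ext_map hD hTs ⟨z₁, hz₁, hi⟩
  have hcone : ∀ z ∈ ball (0 : ℂ) 1, (h z).rep ∈ Cone F := fun z hz =>
    ext_cone hF hh hTh (fun w hw hne j => by
      have := (hP.maps _ (hgG w hw) hne).2 j
      rw [val_eval] at this
      exact this) hz
  refine ⟨fun z => Phi (h z).rep, holP_of_D hh, fun z hz => mem_TF (hcone z hz), fun z hz hne => ?_⟩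
  have h2 : Prop2 (ratVal P (g z).rep) (h z).rep := ext_prop2 hD hTs hh hTh hz
  obtain ⟨c, hc⟩ := h2.smul hne
  have hc0 : c ≠ 0 := by
    rintro rfl
    rw [zero_smul] at hc
    exact Projectivization.rep_nonzero _ hc
  simp only
  rw [hc, Phi_smul hc0]

end Pool.Agent.H33
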