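import Pool.Agent.H33.TD

/-! Hyperbolicity of generically finite covers at general points. -/

set_option autoImplicit false

open Filter Topology Metric Set MvPolynomial LinearAlgebra.Projectivization

namespace Pool.Agent.H33

open Pool.Agent.Y190.OP Pool.Agent.W602.GT Pool.Agent.N155 Pool.Agent.N155.BB
open Pool.Agent.N154.GG (kobayashi projDist IsChainLength poincareDist)
open Pool.Agent.Helper206 (cost)

variable {m n : ℕ} {ι ι' κ' : Type} {G : ι' → MvPolynomial (Fin (m + 1)) ℂ}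
  {F : ι → MvPolynomial (Fin (n + 1)) ℂ}
  {P : Fin (n + 1) → MvPolynomial (Fin (m + 1)) ℂ} {H : κ' → MvPolynomial (Fin (m + 1)) ℂ}

/-- the distance of the values -/
noncomputable def uval (P : Fin (n + 1) → MvPolynomial (Fin (m + 1)) ℂ) (M0 : Mat (n + 1))
    (M : Mat (m + 1)) : ℝ := ‖Phi (ratVal P (toProj M).rep) - M0‖

theorem toProj_rep (q : ℙ ℂ (Fin (m + 1) → ℂ)) : toProj (Phi q.rep) = q :=
  proj_ext (Phi_rep_toProj ⟨q.rep, Projectivization.rep_nonzero q, rfl⟩)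

theorem uval_phi (M0 : Mat (n + 1)) (q : ℙ ℂ (Fin (m + 1) → ℂ)) :
    uval P M0 (Phi q.rep) = ‖Phi (ratVal P q.rep) - M0‖ := by
  unfold uval
  rw [toProj_rep]

theorem uval_cont {e : ℕ} (he : ∀ j, (P j).IsHomogeneous e) (M0 : Mat (n + 1))
    {q : ℙ ℂ (Fin (m + 1) → ℂ)} (hq : ratVal P q.rep ≠ 0) :
    ContinuousWithinAt (uval P M0) PM (Phi q.rep) := by
  obtain ⟨i, hi⟩ := Function.ne_iff.1 (Projectivization.rep_nonzero q)
  have hi : q.rep i ≠ 0 := hi
  have hM : (Phi q.rep) i i ≠ 0 := (Phi_diag_ne (Projectivization.rep_nonzero q)).2 hi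
  have hch := chart_Phi (Projectivization.rep_nonzero q) hi
  have h1 : ContinuousAt (fun M : Mat (m + 1) => ‖Phi (evP P (chart i M)) - M0‖) (Phi q.rep) := by
    have h2 : ContinuousAt (fun M : Mat (m + 1) => evP P (chart i M)) (Phi q.rep) :=
      evP_cont.continuousAt.comp (continuousAt_chart hM)
    have h3 : evP P (chart i (Phi q.rep)) ≠ 0 := by
      rw [hch, evP_smul he]
      exact smul_ne_zero (pow_ne_zero _ (inv_ne_zero hi)) hq
    exact ((ContinuousAt.comp (g := Phi) (f := fun M : Mat (m + 1) => evP P (chart i M))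
      (continuousAt_Phi h3) h2).sub continuousAt_const).norm
  have h4 : ∀ M ∈ PM, M i i ≠ 0 → uval P M0 M = ‖Phi (evP P (chart i M)) - M0‖ := by
    intro M hM hMi
    have h5 : Phi (toProj M).rep = Phi (chart i M) := by
      rw [Phi_rep_toProj hM, PM.Phi_chart hM hMi]
    obtain ⟨c, hc, h6⟩ := Phi_inj (Projectivization.rep_nonzero _) (PM.chart_ne hMi) h5
    unfold uval
    rw [h6, evP_smul he, Phi_smul (pow_ne_zero _ hc)]
    rfl
  refine h1.continuousWithinAt.congr_of_eventuallyEq ?_ (h4 _ ?_ hM)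
  · have h5 : ∀ᶠ M : Mat (m + 1) in 𝓝 (Phi q.rep), M i i ≠ 0 :=
      (continuous_apply_apply i i).continuousAt.eventually_ne hM
    filter_upwards [nhdsWithin_le_nhds h5, self_mem_nhdsWithin] with M h6 h7
    exact h4 M h7 h6
  · exact ⟨q.rep, Projectivization.rep_nonzero q, rfl⟩

/-- the neighbourhoods where a form does not vanish -/
theorem form_nhds {E : MvPolynomial (Fin (m + 1)) ℂ} (hE : IsForm E) {v : ℙ ℂ (Fin (m + 1) → ℂ)}
    (hv : eval v.rep E ≠ 0) : ∃ δ : ℝ, 0 < δ ∧ ∀ q : ℙ ℂ (Fin (m + 1) → ℂ),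
      ‖Phi q.rep - Phi v.rep‖ < δ → eval q.rep E ≠ 0 := by
  obtain ⟨e, he⟩ := hE
  obtain ⟨i, hi⟩ := Function.ne_iff.1 (Projectivization.rep_nonzero v)
  have hi : v.rep i ≠ 0 := hi
  have hM : (Phi v.rep) i i ≠ 0 := (Phi_diag_ne (Projectivization.rep_nonzero v)).2 hi
  have hch := chart_Phi (Projectivization.rep_nonzero v) hi
  have h1 : ContinuousAt (fun M : Mat (m + 1) => eval (chart i M) E) (Phi v.rep) := by
    have h2 : Continuous fun y : Fin (m + 1) → ℂ => eval y E := E.continuous_eval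
    exact h2.continuousAt.comp (continuousAt_chart hM)
  have h3 : eval (chart i (Phi v.rep)) E ≠ 0 := by
    rw [hch, eval_smul he]
    exact mul_ne_zero (pow_ne_zero _ (inv_ne_zero hi)) hv
  have h5 : ∀ᶠ M : Mat (m + 1) in 𝓝 (Phi v.rep), M i i ≠ 0 :=
    (continuous_apply_apply i i).continuousAt.eventually_ne hM
  obtain ⟨δ, hδ, hb⟩ := Metric.eventually_nhds_iff_ball.1 (h5.and (h1.eventually_ne h3))
  refine ⟨δ, hδ, fun q hq h0 => ?_⟩
  obtain ⟨h6, h7⟩ := hb (Phi q.rep) (by rw [mem_ball_iff_norm]; exact hq)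
  have h8 : q.rep i ≠ 0 := (Phi_diag_ne (Projectivization.rep_nonzero q)).1 h6
  rw [chart_Phi (Projectivization.rep_nonzero q) h8, eval_smul he, h0, mul_zero] at h7
  exact h7 rfl

/-- **Hyperbolicity at general points.** -/
theorem pt_hyp (hG : ∀ i, IsForm (G i)) (hF : ∀ i, IsForm (F i)) (hP : RationalMap G F P)
    (hH : ∀ k, IsForm (H k)) (hfin : FiniteOff G P H) {v : ℙ ℂ (Fin (m + 1) → ℂ)}
    (hvG : v.rep ∈ Cone G) (hvH : ∃ k, eval v.rep (H k) ≠ 0) {ρ A : ℝ} (hρ : 0 < ρ) (hA : 0 ≤ A)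
    (hdisc : ∀ Q : ℂ → Mat (n + 1), HolP (ball 0 1) Q → (∀ w ∈ ball (0 : ℂ) 1, Q w ∈ TF F) →
      ∀ s ∈ ball (0 : ℂ) 1, ∀ t ∈ ball (0 : ℂ) 1,
        dist (min ‖Q t - Phi (ratVal P v.rep)‖ ρ) (min ‖Q s - Phi (ratVal P v.rep)‖ ρ) ≤
          A * cost s t) {ε : ℝ} (hε : 0 < ε) :
    ∃ c : ℝ, 0 < c ∧ ∀ q : ℙ ℂ (Fin (m + 1) → ℂ), q.rep ∈ Cone G → ε ≤ projDist v q →
      ENNReal.ofReal c ≤ kobayashi (Cone G) v q := by
  obtain ⟨e, he⟩ := hP.form
  have hv : ratVal P v.rep ≠ 0 := hfin.defined _ hvG hvH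
  set N0 := Phi v.rep with hN0
  set M0 := Phi (ratVal P v.rep) with hM0
  obtain ⟨k, hk⟩ := hvH
  obtain ⟨δ0, hδ0, hn0⟩ := form_nhds (hH k) hk
  -- the other points of the fibre
  set Fb : Set (ℙ ℂ (Fin (m + 1) → ℂ)) := {q | q.rep ∈ Cone G ∧
    (∃ k, eval q.rep (H k) ≠ 0) ∧ ∃ c : ℂ, ratVal P q.rep = c • ratVal P v.rep} with hFb
  have hFbf : Fb.Finite := hfin.fib _
  set B : Set (Mat (m + 1)) := (fun q : ℙ ℂ (Fin (m + 1) → ℂ) => Phi q.rep) '' (Fb \ {v}) with hB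
  have hBc : IsClosed B := ((hFbf.subset sdiff_subset).image _).isClosed
  have hNB : N0 ∈ Bᶜ := by
    rintro ⟨q, ⟨-, hqv⟩, hq⟩
    exact hqv (proj_ext hq)
  obtain ⟨δ1, hδ1, hn1⟩ := Metric.isOpen_iff.1 hBc.isOpen_compl N0 hNB
  set δ : ℝ := min (min δ0 δ1) ε / 2 with hδ
  have hmin : 0 < min (min δ0 δ1) ε := lt_min (lt_min hδ0 hδ1) hε
  have hδp : 0 < δ := by positivity
  have hδ0' : δ < δ0 := by
    have := (min_le_left (min δ0 δ1) ε).trans (min_le_left δ0 δ1)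
    linarith
  have hδ1' : δ < δ1 := by
    have := (min_le_left (min δ0 δ1) ε).trans (min_le_right δ0 δ1)
    linarith
  have hδε : δ < ε := by
    have := min_le_right (min δ0 δ1) ε
    linarith
  have hnear : ∀ q : ℙ ℂ (Fin (m + 1) → ℂ), q.rep ∈ Cone G → ‖Phi q.rep - N0‖ ≤ δ →
      ratVal P q.rep ≠ 0 ∧ (q ≠ v → 0 < ‖Phi (ratVal P q.rep) - M0‖) := by
    intro q hq hqd
    have h1 := hn0 q (hqd.trans_lt hδ0')
    have h2 := hfin.defined _ hq ⟨k, h1⟩
    refine ⟨h2, fun hne => ?_⟩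
    rw [norm_pos_iff, sub_ne_zero]
    intro h3
    obtain ⟨c, hc, h4⟩ := Phi_inj hv h2 h3.symm
    have h5 : Phi q.rep ∈ B := ⟨q, ⟨⟨hq, ⟨k, h1⟩, c, h4⟩, hne⟩, rfl⟩
    exact hn1 (by rw [mem_ball_iff_norm]; exact hqd.trans_lt hδ1') h5
  -- the sphere
  obtain ⟨r, hr, hrρ, hrK⟩ : ∃ r : ℝ, 0 < r ∧ r ≤ ρ ∧ ∀ q : ℙ ℂ (Fin (m + 1) → ℂ),
      q.rep ∈ Cone G → ‖Phi q.rep - N0‖ = δ → r ≤ uval P M0 (Phi q.rep) := by
    set K : Set (Mat (m + 1)) := TF G ∩ {M | ‖M - N0‖ = δ} with hK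
    have hKc : IsCompact K := (isCompact_TF hG).inter_right
      (isClosed_eq (by fun_prop) continuous_const)
    have hKr : ∀ M ∈ K, ∃ q : ℙ ℂ (Fin (m + 1) → ℂ), q.rep ∈ Cone G ∧ M = Phi q.rep := by
      rintro M ⟨hM, -⟩
      exact ⟨toProj M, rep_toProj hG hM, (Phi_rep_toProj (TF_PM hM)).symm⟩
    rcases K.eq_empty_or_nonempty with h0 | h0
    · refine ⟨ρ, hρ, le_rfl, fun q hq hqd => ?_⟩
      have : Phi q.rep ∈ K := ⟨mem_TF hq, hqd⟩
      rw [h0] at this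
      exact absurd this (notMem_empty _)
    · have hcont : ContinuousOn (uval P M0) K := by
        intro M hM
        obtain ⟨q, hq, rfl⟩ := hKr M hM
        exact (uval_cont he M0 (hnear q hq hM.2.le).1).mono fun M' hM' => TF_PM hM'.1
      obtain ⟨M1, hM1, hmin1⟩ := hKc.exists_isMinOn h0 hcont
      obtain ⟨q1, hq1, rfl⟩ := hKr M1 hM1
      have hpos : 0 < uval P M0 (Phi q1.rep) := by
        rw [uval_phi]
        refine (hnear q1 hq1 hM1.2.le).2 ?_
        rintro rfl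
        have h1 := hM1.2
        simp only [mem_ofPred_eq, hN0, sub_self, norm_zero] at h1
        linarith
      refine ⟨min ρ (uval P M0 (Phi q1.rep)), lt_min hρ hpos, min_le_left _ _, fun q hq hqd => ?_⟩
      exact (min_le_right _ _).trans (hmin1 ⟨mem_TF hq, hqd⟩)
  -- discs
  have hlip : ∀ g : ℂ → ℙ ℂ (Fin (m + 1) → ℂ), Pool.Agent.N154.GG.HolMapOn (ball 0 1) g →
      (∀ z ∈ ball (0 : ℂ) 1, (g z).rep ∈ Cone G) → ∀ s ∈ ball (0 : ℂ) 1, ∀ t ∈ ball (0 : ℂ) 1,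
      dist (trunc (uval P M0) N0 δ r (Phi (g t).rep)) (trunc (uval P M0) N0 δ r (Phi (g s).rep)) ≤
        A * cost s t := by
    intro g hg hgG s hs t ht
    have hQ := Pool.Agent.N154.GG.holP_of_on hg
    refine trunc_lip (Q := fun z => Phi (g z).rep) hA
      (fun z hz => (hQ.continuousAt hz).continuousWithinAt)
      (fun z hz hzd => hrK _ (hgG z hz) hzd) (fun z₁ hz₁ hz₁d s hs hsd t ht htd => ?_) hs ht
    obtain ⟨f, hf, hfF, hfv⟩ := disc_comp hF hP hg hgG hz₁ (hnear _ (hgG z₁ hz₁) hz₁d.le).1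
    have e1 := hfv s hs (hnear _ (hgG s hs) hsd).1
    have e2 := hfv t ht (hnear _ (hgG t ht) htd).1
    simp only [uval_phi]
    rw [← e1, ← e2]
    have h1 := hdisc f hf hfF s hs t ht
    refine le_trans ?_ h1
    have h2 : ∀ x : ℝ, min x r = min (min x ρ) r := fun x => by
      rw [min_assoc, min_eq_right hrρ]
    rw [h2 ‖f t - M0‖, h2 ‖f s - M0‖]
    have h3 := (LipschitzWith.id.min_const r).dist_le_mul (min ‖f t - M0‖ ρ) (min ‖f s - M0‖ ρ)
    rw [NNReal.coe_one, one_mul] at h3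
    exact h3
  refine ⟨r / (A + 1), by positivity, fun q hq hqε => ?_⟩
  unfold kobayashi
  refine le_iInf₂ fun c hc => ENNReal.ofReal_le_ofReal ?_
  obtain ⟨l, p, f, s, t, h0, hl, hi, rfl⟩ := hc
  have h1 := Pool.Agent.Helper206.chain_bound l
    (fun j => trunc (uval P M0) N0 δ r (Phi (p j).rep))
    (fun i => A * poincareDist (s i) (t i))
    (by
      intro i
      obtain ⟨-, -, hs, ht, -, -⟩ := hi i
      exact mul_nonneg hA (cost_nonneg hs ht))
    (by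
      intro i
      obtain ⟨hf, hfS, hs, ht, es, et⟩ := hi i
      have := hlip (f i) hf hfS _ hs _ ht
      simp only [es, et, Pool.Agent.N154.GG.cost_eq] at this
      exact this) (Fin.last l)
  simp only [h0, hl] at h1
  rw [← Finset.mul_sum] at h1
  have h2 : trunc (uval P M0) N0 δ r (Phi q.rep) = r := by
    unfold trunc
    rw [if_neg]
    have h3 : projDist v q = ‖Phi q.rep - N0‖ := norm_sub_rev _ _
    rw [← h3]
    linarith
  have h3 : trunc (uval P M0) N0 δ r (Phi v.rep) = 0 := by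
    unfold trunc
    rw [if_pos (by rw [← hN0, sub_self, norm_zero]; exact hδp), uval_phi, ← hM0, sub_self,
      norm_zero, min_eq_left hr.le]
  rw [h2, h3, Real.dist_eq, sub_zero, abs_of_pos hr] at h1
  set c := ∑ i, poincareDist (s i) (t i) with hc
  have hc0 : 0 ≤ c := Finset.sum_nonneg fun i _ => by
    obtain ⟨-, -, hs, ht, -, -⟩ := hi i
    exact cost_nonneg hs ht
  rw [div_le_iff₀ (by linarith)]
  nlinarith

end Pool.Agent.H33
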