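import Pool.Agent.H33.TE

/-! A version of the Ahlfors-Schwarz lemma with a weight which has zeros. -/

set_option autoImplicit false

open Filter Topology Metric Set

namespace Pool.Agent.H33

open Real (circleAverage)

variable {κ : ℝ} {u v : ℂ → ℝ}

/-- the maximum principle on discs -/
theorem ahl2 (hκ : 0 < κ) (cu : Continuous u) (cv : Continuous v)
    (u0 : ∀ z, 0 ≤ u z) (v0 : ∀ z, 0 ≤ v z)
    (sub : ∀ z, ∃ V, IsOpen V ∧ z ∈ V ∧ LogSubharmonic u V)
    (near : ∀ z A, 0 ≤ A → A < u z → 0 < v z → ∃ V, IsOpen V ∧ z ∈ V ∧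
      LogSubharmonic (fun w => v w * Real.exp (-(κ * A ^ 2 * ‖w‖ ^ 2))) V)
    {q r N : ℝ} (hq : 0 < q) (hr : 0 < r) (hN : ∀ z ∈ closedBall (0 : ℂ) r, v z ≤ N) :
    u 0 * v 0 ^ q * r ^ 2 ≤ 4 * r / √(q * κ) * N ^ q := by
  set f : ℂ → ℝ := fun z => u z * v z ^ q * (r ^ 2 - ‖z‖ ^ 2) with hf
  have hfc : Continuous f := by
    rw [hf]
    have h2 := cv.rpow_const fun _ => Or.inr hq.le
    exact (cu.mul h2).mul (by fun_prop)
  obtain ⟨z₀, hz₀, hmax⟩ := (isCompact_closedBall (0 : ℂ) r).exists_isMaxOn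
    ⟨0, mem_closedBall_self hr.le⟩ hfc.continuousOn
  have hmx : ∀ z ∈ closedBall (0 : ℂ) r, f z ≤ f z₀ := fun z hz => hmax hz
  have hN0 : 0 ≤ N := (v0 0).trans (hN 0 (mem_closedBall_self hr.le))
  have h00 : u 0 * v 0 ^ q * r ^ 2 = f 0 := by
    rw [hf]
    simp
  rw [h00]
  refine (hmx 0 (mem_closedBall_self hr.le)).trans ?_
  by_cases hf0 : f z₀ ≤ 0
  · exact hf0.trans (by positivity)
  push Not at hf0
  have hvn := Real.rpow_nonneg (v0 z₀) q
  have hP : 0 < r ^ 2 - ‖z₀‖ ^ 2 := by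
    by_contra hcon
    push Not at hcon
    have : f z₀ ≤ 0 := mul_nonpos_of_nonneg_of_nonpos (mul_nonneg (u0 z₀) hvn) hcon
    linarith
  have hu : 0 < u z₀ := by
    rcases (u0 z₀).eq_or_lt with h1 | h1
    · exfalso
      have : f z₀ = 0 := by
        rw [hf]
        simp only
        rw [← h1, zero_mul, zero_mul]
      linarith
    · exact h1
  have hv : 0 < v z₀ := by
    rcases (v0 z₀).eq_or_lt with h1 | h1
    · exfalso
      have : f z₀ = 0 := by
        rw [hf]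
        simp only
        rw [← h1, Real.zero_rpow hq.ne', mul_zero, zero_mul]
      linarith
    · exact h1
  have hz₀r : ‖z₀‖ < r := by
    by_contra hcon
    push Not at hcon
    have := pow_le_pow_left₀ hr.le hcon 2
    linarith
  set P : ℝ := r ^ 2 - ‖z₀‖ ^ 2 with hPdef
  have hmain : u z₀ * P ≤ 4 * r / √(q * κ) := by
    by_contra hcon
    push Not at hcon
    have h1 : 4 * r / √(q * κ) / P < u z₀ := by
      rw [div_lt_iff₀ hP]
      exact hcon
    obtain ⟨A, hA1, hA2⟩ := exists_between h1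
    have hA0 : 0 < A := lt_trans (by positivity) hA1
    obtain ⟨V1, hV1, hzV1, hs1⟩ := sub z₀
    obtain ⟨V2, hV2, hzV2, hs2⟩ := near z₀ A hA0.le hA2 hv
    have hO : IsOpen (V1 ∩ V2 ∩ ({z | 0 < u z} ∩ {z | 0 < v z}) ∩ ball (0 : ℂ) r) :=
      ((hV1.inter hV2).inter ((isOpen_lt continuous_const cu).inter
        (isOpen_lt continuous_const cv))).inter isOpen_ball
    obtain ⟨ρ₀, hρ₀, hρb⟩ := Metric.isOpen_iff.1 hO z₀
      ⟨⟨⟨hzV1, hzV2⟩, hu, hv⟩, mem_ball_zero_iff.2 hz₀r⟩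
    obtain ⟨ρ, hρ1, hρ2⟩ := exists_between (lt_min hρ₀ (show 0 < P / (4 * r) by positivity))
    have hρ3 : ρ < ρ₀ := hρ2.trans_le (min_le_left _ _)
    have hρ4 : ρ < P / (4 * r) := hρ2.trans_le (min_le_right _ _)
    have hsub := (closedBall_subset_ball hρ3).trans hρb
    have h2 := touch (κ := κ) (p := 1) (q := q) (A := A) (r := r) zero_le_one hq
      (hs1.mono (W := V1 ∩ V2) fun z hz => hz.1)
      (hs2.mono fun z hz => hz.2) hρ1 (fun z hz => (hsub hz).1.1) (fun z hz => (hsub hz).2)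
      (by
        rw [lt_div_iff₀ (by positivity)] at hρ4
        linarith) (fun z hz => (hsub hz).1.2)
      (fun z hz => by
        rw [Real.rpow_one, Real.rpow_one]
        exact hmx z (ball_subset_closedBall (hsub hz).2))
    rw [div_div, div_lt_iff₀ (by positivity)] at hA1
    have h3 : 4 * r < A * P * √(q * κ) := by linarith
    have h4 := pow_lt_pow_left₀ h3 (by positivity) two_ne_zero
    have h5 : (A * P * √(q * κ)) ^ 2 = q * κ * A ^ 2 * P ^ 2 := by
      rw [mul_pow, Real.sq_sqrt (by positivity)]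
      ring
    rw [h5] at h4
    nlinarith
  have h6 : v z₀ ^ q ≤ N ^ q := Real.rpow_le_rpow (v0 z₀) (hN z₀ hz₀) hq.le
  calc f z₀ = u z₀ * P * v z₀ ^ q := by
        rw [hf]
        ring
    _ ≤ 4 * r / √(q * κ) * N ^ q := mul_le_mul hmain h6 hvn (by positivity)

/-- the limit of large discs -/
theorem ahl2_zero (hκ : 0 < κ) (cu : Continuous u) (cv : Continuous v)
    (u0 : ∀ z, 0 ≤ u z) (v0 : ∀ z, 0 ≤ v z)
    (sub : ∀ z, ∃ V, IsOpen V ∧ z ∈ V ∧ LogSubharmonic u V)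
    (near : ∀ z A, 0 ≤ A → A < u z → 0 < v z → ∃ V, IsOpen V ∧ z ∈ V ∧
      LogSubharmonic (fun w => v w * Real.exp (-(κ * A ^ 2 * ‖w‖ ^ 2))) V)
    {M A1 : ℝ} (hA1 : 0 ≤ A1) (hM : ∀ z, v z ≤ M * Real.exp (A1 * ‖z‖ ^ 2)) (hv : 0 < v 0) :
    u 0 ≤ 8 * Real.exp A1 / √κ := by
  have hM0 : 0 < M := by
    have := hM 0
    simp only [norm_zero, ne_eq, OfNat.ofNat_ne_zero, not_false_eq_true, zero_pow, mul_zero,
      Real.exp_zero, mul_one] at this
    linarith
  set k : ℕ := ⌈M / v 0⌉₊ + 1 with hk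
  have hk0 : (0 : ℝ) < k := by
    rw [hk]
    positivity
  have hkM : M ≤ v 0 * k := by
    have h1 : M / v 0 ≤ k := by
      rw [hk]
      push_cast
      linarith [Nat.le_ceil (M / v 0)]
    rw [div_le_iff₀ hv] at h1
    linarith
  have hk2 : (k : ℝ) ≤ 2 ^ k := by exact_mod_cast (Nat.lt_two_pow_self (n := k)).le
  set r : ℝ := √k with hr
  have hr0 : 0 < r := Real.sqrt_pos.2 hk0
  have hr2 : r ^ 2 = k := Real.sq_sqrt hk0.le
  set q : ℝ := (k : ℝ)⁻¹ with hq
  have hq0 : 0 < q := by positivity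
  have h1 := ahl2 hκ cu cv u0 v0 sub near (N := M * Real.exp (A1 * k)) hq0 hr0 (fun z hz => by
    refine (hM z).trans (mul_le_mul_of_nonneg_left (Real.exp_le_exp.2
      (mul_le_mul_of_nonneg_left ?_ hA1)) hM0.le)
    rw [← hr2]
    exact pow_le_pow_left₀ (norm_nonneg _) (mem_closedBall_zero_iff.1 hz) 2)
  rw [hr2] at h1
  have hsκ : 0 < √κ := Real.sqrt_pos.2 hκ
  have e1 : 4 * r / √(q * κ) = 4 * k / √κ := by
    rw [Real.sqrt_mul hq0.le, hq, Real.sqrt_inv, ← hr, ← hr2]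
    field_simp
  have e2 : (M * Real.exp (A1 * k)) ^ q ≤ 2 * v 0 ^ q * Real.exp A1 := by
    rw [Real.mul_rpow hM0.le (Real.exp_pos _).le, ← Real.exp_mul]
    have e3 : A1 * k * q = A1 := by
      rw [hq]
      field_simp
    rw [e3]
    refine mul_le_mul_of_nonneg_right ?_ (Real.exp_pos _).le
    have e4 : M ≤ v 0 * 2 ^ k := hkM.trans (mul_le_mul_of_nonneg_left hk2 hv.le)
    have e5 : M ^ q ≤ (v 0 * 2 ^ k) ^ q := Real.rpow_le_rpow hM0.le e4 hq0.le
    rw [Real.mul_rpow hv.le (by positivity)] at e5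
    have e6 : ((2 : ℝ) ^ k) ^ q = 2 := by
      rw [hq]
      exact Real.pow_rpow_inv_natCast zero_le_two (by omega)
    rw [e6] at e5
    linarith
  have hvq : 0 < v 0 ^ q := Real.rpow_pos_of_pos hv _
  rw [e1] at h1
  have h2 : u 0 * v 0 ^ q * k ≤ 4 * k / √κ * (2 * v 0 ^ q * Real.exp A1) :=
    h1.trans (mul_le_mul_of_nonneg_left e2 (by positivity))
  have h3 : 4 * k / √κ * (2 * v 0 ^ q * Real.exp A1) =
      (8 * Real.exp A1 / √κ) * (v 0 ^ q * k) := by ring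
  rw [h3, mul_assoc] at h2
  exact le_of_mul_le_mul_right h2 (by positivity)

end Pool.Agent.H33
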