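import Pool.Agent.H33.TG

/-! The speed of the composition of a curve of bounded derivative and a rational map. -/

set_option autoImplicit false

open Filter Topology Metric Set MvPolynomial LinearAlgebra.Projectivization

namespace Pool.Agent.H33

open Pool.Agent.Y190.OP Pool.Agent.W602.GT Pool.Agent.N155 Pool.Agent.N155.BB

variable {m n : ℕ} {ι ι' : Type} {G : ι' → MvPolynomial (Fin (m + 1)) ℂ}
  {F : ι → MvPolynomial (Fin (n + 1)) ℂ}
  {P : Fin (n + 1) → MvPolynomial (Fin (m + 1)) ℂ} {e d : ℕ}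
  {Φ : (Fin (n + 1) → ℂ) → (Fin (n + 1) → ℂ) → ℝ}
  {g : ℂ → ℙ ℂ (Fin (m + 1) → ℂ)} {f : ℂ → ℙ ℂ (Fin (n + 1) → ℂ)}

/-- upper bounds of the values of forms -/
theorem evP_up (hP : ∀ j, (P j).IsHomogeneous e) : ∃ M : ℝ, 0 < M ∧
    ∀ y : Fin (m + 1) → ℂ, y ≠ 0 → sqn (evP P y) ≤ M * sqn y ^ e := by
  obtain ⟨M, hM⟩ := (isCompact_closedBall (0 : Fin (m + 1) → ℂ) 1).exists_bound_of_continuousOn
    (f := fun y => sqn (evP P y)) (sqn_cont.comp evP_cont).continuousOn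
  refine ⟨|M| + 1, by positivity, fun y hy => ?_⟩
  have hs : 0 < sqn y := sqn_pos hy
  set s : ℝ := √(sqn y) with hsd
  have hs0 : 0 < s := Real.sqrt_pos.2 hs
  have hs2 : s ^ 2 = sqn y := Real.sq_sqrt hs.le
  have hsc : (s : ℂ) ≠ 0 := by exact_mod_cast hs0.ne'
  set y' : Fin (m + 1) → ℂ := (s : ℂ)⁻¹ • y with hy'
  have h1 : sqn y' = 1 := by
    rw [hy', sqn_smul', norm_inv, Complex.norm_real, Real.norm_of_nonneg hs0.le, inv_pow, hs2]
    exact inv_mul_cancel₀ hs.ne'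
  have h2 : y' ∈ closedBall (0 : Fin (m + 1) → ℂ) 1 := by
    rw [mem_closedBall_zero_iff]
    have h3 := norm_le_sqn y'
    rw [h1] at h3
    nlinarith [norm_nonneg y']
  have h4 : sqn (evP P y') ≤ |M| + 1 := by
    have := (le_abs_self _).trans (hM y' h2)
    linarith [le_abs_self M]
  have h5 : y = (s : ℂ) • y' := by
    rw [hy', smul_smul, mul_inv_cancel₀ hsc, one_smul]
  have h6 : sqn (evP P y) = sqn y ^ e * sqn (evP P y') := by
    conv_lhs => rw [h5]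
    rw [evP_smul hP, sqn_smul', norm_pow, Complex.norm_real, Real.norm_of_nonneg hs0.le, ← pow_mul,
      mul_comm e 2, pow_mul, hs2]
  rw [h6, mul_comm]
  exact mul_le_mul_of_nonneg_right h4 (by positivity)

/-- the square of the ratio of the lengths -/
noncomputable def U2 (e : ℕ) (P : Fin (n + 1) → MvPolynomial (Fin (m + 1)) ℂ)
    (g : ℂ → ℙ ℂ (Fin (m + 1) → ℂ)) (z : ℂ) : ℝ := sqn (evP P (g z).rep) / sqn (g z).rep ^ e

theorem U2_lift (hP : ∀ j, (P j).IsHomogeneous e) {g₀ : Fin (m + 1) → ℂ} {w : ℂ}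
    (h : ∃ h : g₀ ≠ 0, g w = Projectivization.mk ℂ g₀ h) :
    U2 e P g w = sqn (evP P g₀) / sqn g₀ ^ e := by
  obtain ⟨h1, h2⟩ := h
  obtain ⟨c, hc, hr⟩ := mk_rep h1 h2
  have h3 := sqn_pos h1
  have h4 : 0 < ‖c‖ := norm_pos_iff.2 hc
  unfold U2
  rw [hr, evP_smul hP, sqn_smul', sqn_smul', norm_pow, mul_pow, ← pow_mul, ← pow_mul, mul_comm e 2]
  exact mul_div_mul_left _ _ (by positivity)

theorem U2_cont (hP : ∀ j, (P j).IsHomogeneous e) (hg : HolMap g) : Continuous (U2 e P g) := by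
  rw [continuous_iff_continuousAt]
  intro z
  obtain ⟨V, g₀, hV, hz, hd, h⟩ := hg z
  have h1 : U2 e P g =ᶠ[𝓝 z] fun w => sqn (evP P (g₀ w)) / sqn (g₀ w) ^ e := by
    filter_upwards [hV.mem_nhds hz] with w hw
    exact U2_lift hP (h w hw)
  refine ContinuousAt.congr ?_ h1.symm
  have hga : ContinuousAt g₀ z := (hd.differentiableAt (hV.mem_nhds hz)).continuousAt
  have hs : ContinuousAt (fun w => sqn (g₀ w)) z :=
    ContinuousAt.comp (g := sqn) (f := g₀) sqn_cont.continuousAt hga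
  have hs' : ContinuousAt (fun w => sqn (evP P (g₀ w))) z :=
    ContinuousAt.comp (g := fun y => sqn (evP P y)) (f := g₀)
      (sqn_cont.comp evP_cont).continuousAt hga
  exact hs'.div (hs.pow e) (pow_ne_zero _ (sqn_pos (h z hz).1).ne')

theorem U2_nonneg (z : ℂ) : 0 ≤ U2 e P g z := div_nonneg (sqn_nonneg _) (pow_nonneg (sqn_nonneg _) _)

/-- lengths of curves -/
theorem len_cont_sub (hX : ProjManifold F d) (hΦ : NonposMetric (Cone F) d Φ)
    {φ : ℂ → Mat (n + 1)} (hφ : HolP univ φ) (hφT : ∀ z, φ z ∈ TF F) :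
    Continuous (len Φ φ) ∧ (∀ z, 0 ≤ len Φ φ z) ∧
      ∀ z, ∃ V, IsOpen V ∧ z ∈ V ∧ LogSubharmonic (len Φ φ) V := by
  have hu : ∀ i, ∀ z ∈ {z | φ z i i ≠ 0}, len Φ φ z = pv Φ φ i z := fun i z hz =>
    len_eq hX hΦ.twist hφ hφT hz
  have hsub : ∀ i, LogSubharmonic (len Φ φ) {z | φ z i i ≠ 0} := fun i =>
    (pv_sub hX hΦ hφ hφT i).2.congr (hu i)
  have hO : ∀ i, IsOpen {z | φ z i i ≠ 0} := fun i => (pv_sub hX hΦ hφ hφT i).1
  exact ⟨continuous_iff_continuousAt.2 fun z =>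
    (hsub (ix φ z)).cont.continuousAt ((hO _).mem_nhds (ix_ne hφT z)),
    fun z => (hsub (ix φ z)).nonneg z (ix_ne hφT z),
    fun z => ⟨_, hO _, ix_ne hφT z, hsub _⟩⟩

/-- lengths in terms of lifts -/
theorem len_le_wedge (hX : ProjManifold F d) (hΦ : NonposMetric (Cone F) d Φ) :
    ∃ C : ℝ, 0 < C ∧ ∀ f : ℂ → ℙ ℂ (Fin (n + 1) → ℂ), HolIn F f →
      ∀ (V : Set ℂ) (f₀ : ℂ → Fin (n + 1) → ℂ), IsOpen V → DifferentiableOn ℂ f₀ V →
      (∀ w ∈ V, ∃ h : f₀ w ≠ 0, f w = Projectivization.mk ℂ (f₀ w) h) → ∀ z ∈ V,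
      len Φ (fun z => Phi (f z).rep) z ≤ C * (wedge (f₀ z) (deriv f₀ z) / sqn (f₀ z)) := by
  obtain ⟨A, hA, hw⟩ := wedge_fderiv n
  obtain ⟨C1, hC1, hle⟩ := pv_le hX hΦ
  refine ⟨C1 * A, by positivity, fun f hf V f₀ hV hd hff z hz => ?_⟩
  have hT : ∀ z, Phi (f z).rep ∈ TF F := fun z => mem_TF (hf.2 z)
  have h2 := hle _ (holP_of_map hf.1) hT z _ (ix_ne (φ := fun z => Phi (f z).rep) hT z)
  obtain ⟨h3, -⟩ := hw f hf.1 V f₀ hV hd hff z hz
  have hS := sqn_pos (hff z hz).1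
  have h4 : ‖fderiv ℝ (fun z => Phi (f z).rep) z‖ ≤ A * (wedge (f₀ z) (deriv f₀ z) / sqn (f₀ z)) := by
    rw [← mul_div_assoc, le_div_iff₀ hS]
    exact h3
  rw [mul_assoc]
  exact h2.trans (mul_le_mul_of_nonneg_left h4 hC1.le)

/-- **The speed of the composition.** -/
theorem comp_len (hX : ProjManifold F d) (hΦ : NonposMetric (Cone F) d Φ)
    (hP : ∀ j, (P j).IsHomogeneous e) (C : ℝ) : ∃ B : ℝ,
      ∀ (g : ℂ → ℙ ℂ (Fin (m + 1) → ℂ)) (f : ℂ → ℙ ℂ (Fin (n + 1) → ℂ)), HolMap g →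
        DerBetween 0 C g → HolIn F f →
        (∀ z, evP P (g z).rep ≠ 0 → ∃ c : ℂ, evP P (g z).rep = c • (f z).rep) →
        evP P (g 0).rep ≠ 0 → len Φ (fun z => Phi (f z).rep) 0 ≤ B := by
  obtain ⟨C5, hC5, hlw⟩ := len_le_wedge hX hΦ
  obtain ⟨M, hM, hup⟩ := evP_up hP
  set κ : ℝ := (C5 ^ 2)⁻¹ with hκ
  have hκ0 : 0 < κ := by positivity
  set A1 : ℝ := e * C ^ 2 with hA1
  have hA10 : 0 ≤ A1 := by positivity
  refine ⟨8 * Real.exp A1 / √κ, fun g f hg hCg hf hfg h0 => ?_⟩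
  set φ : ℂ → Mat (n + 1) := fun z => Phi (f z).rep with hφ
  obtain ⟨cu, u0, hsub⟩ := len_cont_sub hX hΦ (holP_of_map hf.1) fun z => mem_TF (hf.2 z)
  have hUc := U2_cont (P := P) hP hg
  have hexp : Continuous fun z : ℂ => Real.exp (A1 * ‖z‖ ^ 2) := by fun_prop
  refine ahl2_zero (u := len Φ φ) (v := fun z => U2 e P g z * Real.exp (A1 * ‖z‖ ^ 2)) hκ0 cu
    (hUc.mul hexp) u0 (fun z => mul_nonneg (U2_nonneg z) (Real.exp_pos _).le) hsub
    (fun z₀ A hA0 hAu hv => ?_) (M := M) hA10 (fun z => ?_) ?_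
  · -- the curvature
    obtain ⟨V, g₀, hV, hz₀, hd, h⟩ := hg z₀
    have hUo : IsOpen {w | 0 < U2 e P g w} := isOpen_lt continuous_const hUc
    have hao : IsOpen {w | A < len Φ φ w} := isOpen_lt continuous_const cu
    have hU0 : 0 < U2 e P g z₀ := pos_of_mul_pos_left hv (Real.exp_pos _).le
    set W : Set ℂ := V ∩ ({w | 0 < U2 e P g w} ∩ {w | A < len Φ φ w}) with hW
    have hWo : IsOpen W := hV.inter (hUo.inter hao)
    refine ⟨W, hWo, ⟨hz₀, hU0, hAu⟩, ?_⟩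
    have hPne : ∀ w ∈ W, evP P (g₀ w) ≠ 0 := by
      intro w hw hcon
      have h1 : 0 < U2 e P g w := hw.2.1
      rw [U2_lift hP (h w hw.1), hcon] at h1
      have h2 : sqn (0 : Fin (n + 1) → ℂ) = 0 := by
        unfold sqn
        simp
      rw [h2, zero_div] at h1
      exact lt_irrefl _ h1
    have hPd : DifferentiableOn ℂ (fun w => evP P (g₀ w)) W :=
      (evP_diff.comp_differentiableOn hd).mono inter_subset_left
    have hfl : ∀ w ∈ W, ∃ h : evP P (g₀ w) ≠ 0, f w = Projectivization.mk ℂ (evP P (g₀ w)) h := by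
      intro w hw
      refine ⟨hPne w hw, ?_⟩
      obtain ⟨h1, h2⟩ := h w hw.1
      obtain ⟨c, hc, hr⟩ := mk_rep h1 h2
      have h3 : evP P (g w).rep = c ^ e • evP P (g₀ w) := by rw [hr, evP_smul hP]
      have h4 : evP P (g w).rep ≠ 0 := by
        rw [h3]
        exact smul_ne_zero (pow_ne_zero _ hc) (hPne w hw)
      obtain ⟨b, hb⟩ := hfg w h4
      have hb0 : b ≠ 0 := by
        rintro rfl
        rw [zero_smul] at hb
        exact h4 hb
      rw [← Projectivization.mk_rep (f w), Projectivization.mk_eq_mk_iff']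
      refine ⟨b⁻¹ * c ^ e, ?_⟩
      rw [mul_smul, ← h3, hb, smul_smul, inv_mul_cancel₀ hb0, one_smul]
    refine LogSubharmonic.of_local hWo ((hUc.mul hexp).mul (by fun_prop)).continuousOn
      (fun w _ => mul_nonneg (mul_nonneg (U2_nonneg w) (Real.exp_pos _).le) (Real.exp_pos _).le)
      fun w hw _ => ?_
    have hga : AnalyticAt ℂ g₀ w := hd.analyticAt (hV.mem_nhds hw.1)
    have hPa : AnalyticAt ℂ (fun w => evP P (g₀ w)) w := hPd.analyticAt (hWo.mem_nhds hw)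
    have a1 := asym_log hPa (hPne w hw)
    have a2 := (asym_log hga (h w hw.1).1).const_mul (-(e : ℝ))
    have a3 : Asym (fun z : ℂ => ‖z‖ ^ 2) w 1 := by
      have := asym_sq (f := fun z : ℂ => z) (a := w) analyticAt_id
      simpa using this
    have a4 := a3.const_mul (A1 - κ * A ^ 2)
    have c1 := cont_log_sqn hPa (hPne w hw)
    have c2 : ∀ᶠ z in 𝓝 w, ContinuousAt (fun z => -(e : ℝ) * Real.log (sqn (g₀ z))) z := by
      filter_upwards [cont_log_sqn hga (h w hw.1).1] with z hz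
      exact continuousAt_const.mul hz
    have c12 : ∀ᶠ z in 𝓝 w, ContinuousAt (fun z => Real.log (sqn (evP P (g₀ z))) +
        -(e : ℝ) * Real.log (sqn (g₀ z))) z := by
      filter_upwards [c1, c2] with z h1 h2 using h1.add h2
    have a5 := (a1.add a2 c1 c2).add a4 c12 (Eventually.of_forall fun z => by fun_prop)
    have a6 := a5.congr (τ := fun z => Real.log (U2 e P g z * Real.exp (A1 * ‖z‖ ^ 2) *
        Real.exp (-(κ * A ^ 2 * ‖z‖ ^ 2)))) (by
      filter_upwards [hWo.mem_nhds hw] with z hz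
      have k1 := sqn_pos (hPne z hz)
      have k2 := sqn_pos (h z hz.1).1
      rw [U2_lift hP (h z hz.1), Real.log_mul (by positivity) (Real.exp_pos _).ne',
        Real.log_mul (by positivity) (Real.exp_pos _).ne', Real.log_exp, Real.log_exp,
        Real.log_div k1.ne' (by positivity), Real.log_pow]
      ring)
    refine a6.subAt ?_
    -- the sign
    set τ : ℝ := wedge (evP P (g₀ w)) (deriv (fun w => evP P (g₀ w)) w) / sqn (evP P (g₀ w)) with hτ
    set γ : ℝ := wedge (g₀ w) (deriv g₀ w) / sqn (g₀ w) with hγ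
    have hγ0 : 0 ≤ γ := div_nonneg (wedge_nonneg _ _) (sqn_nonneg _)
    have hγC : γ ≤ C := by
      rw [hγ, div_le_iff₀ (sqn_pos (h w hw.1).1)]
      exact (hCg V g₀ hV hd h w hw.1).2
    have hτu : len Φ φ w ≤ C5 * τ := hlw f hf W _ hWo hPd hfl w hw
    have hAw : A < len Φ φ w := hw.2.2
    have h1 : A < C5 * τ := hAw.trans_le hτu
    have h2 : A ^ 2 < (C5 * τ) ^ 2 := pow_lt_pow_left₀ h1 hA0 two_ne_zero
    have h3 : κ * A ^ 2 < τ ^ 2 := by
      rw [hκ, inv_mul_lt_iff₀ (by positivity)]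
      linarith
    have h4 : γ ^ 2 ≤ C ^ 2 := pow_le_pow_left₀ hγ0 hγC 2
    have h5 : (e : ℝ) * γ ^ 2 ≤ A1 := mul_le_mul_of_nonneg_left h4 (Nat.cast_nonneg e)
    linarith
  · -- the upper bound
    refine mul_le_mul_of_nonneg_right ?_ (Real.exp_pos _).le
    have h1 := Projectivization.rep_nonzero (g z)
    unfold U2
    rw [div_le_iff₀ (pow_pos (sqn_pos h1) e)]
    exact hup _ h1
  · refine mul_pos (div_pos (sqn_pos h0) (pow_pos (sqn_pos (Projectivization.rep_nonzero _)) _))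
      (Real.exp_pos _)

end Pool.Agent.H33
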