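import Pool.Agent.H33.TH

/-! Entire curves of bounded derivative in generically finite covers. -/

set_option autoImplicit false

open Filter Topology Metric Set MvPolynomial LinearAlgebra.Projectivization

namespace Pool.Agent.H33

open Pool.Agent.Y190.OP Pool.Agent.W602.GT Pool.Agent.N155 Pool.Agent.N155.BB

variable {m n : ℕ} {ι ι' κ' : Type} {G : ι' → MvPolynomial (Fin (m + 1)) ℂ}
  {F : ι → MvPolynomial (Fin (n + 1)) ℂ} {H : κ' → MvPolynomial (Fin (m + 1)) ℂ}
  {P : Fin (n + 1) → MvPolynomial (Fin (m + 1)) ℂ} {e d : ℕ}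
  {Φ : (Fin (n + 1) → ℂ) → (Fin (n + 1) → ℂ) → ℝ}
  {g : ℂ → ℙ ℂ (Fin (m + 1) → ℂ)} {f : ℂ → ℙ ℂ (Fin (n + 1) → ℂ)}

theorem der_translate {C : ℝ} (h : DerBetween 0 C g) (a : ℂ) :
    DerBetween 0 C fun z => g (z + a) := by
  intro V g' hV hd hg z hz
  have hc : Continuous fun w : ℂ => w - a := by fun_prop
  have h1 := h ((fun w : ℂ => w - a) ⁻¹' V) (fun w => g' (w - a)) (hV.preimage hc)
    (hd.comp (by fun_prop : Differentiable ℂ fun w : ℂ => w - a).differentiableOn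
      fun w hw => hw) (fun w hw => by
      have := hg (w - a) hw
      simp only [sub_add_cancel] at this
      exact this) (z + a) (by
      change z + a - a ∈ V
      rw [add_sub_cancel_right]
      exact hz)
  simp only [add_sub_cancel_right] at h1
  have h2 : deriv (fun w => g' (w - a)) (z + a) = deriv g' z := by
    rw [deriv_comp_sub_const, add_sub_cancel_right]
  rwa [h2] at h1

theorem hol_translate (hg : HolIn G g) (a : ℂ) : HolIn G fun z => g (z + a) := by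
  have := HolIn.affine hg 1 a
  simpa only [one_mul] using this

/-- **The derivative of the composition.** -/
theorem comp_bdd (hX : ProjManifold F d) (hΦ : NonposMetric (Cone F) d Φ)
    (hnd : Nondegenerate (Cone F) d Φ) (hP : ∀ j, (P j).IsHomogeneous e) (hg : HolIn G g)
    {C : ℝ} (hC : DerBetween 0 C g) (hf : HolIn F f)
    (hfg : ∀ z, evP P (g z).rep ≠ 0 → ∃ c : ℂ, evP P (g z).rep = c • (f z).rep) {z₁ : ℂ}
    (h1 : evP P (g z₁).rep ≠ 0) : ∃ C', DerBetween 0 C' f := by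
  obtain ⟨B, hB⟩ := comp_len (P := P) hX hΦ hP C
  set φ : ℂ → Mat (n + 1) := fun z => Phi (f z).rep with hφ
  have hφP : HolP univ φ := holP_of_map hf.1
  have hφT : ∀ z, φ z ∈ TF F := fun z => mem_TF (hf.2 z)
  obtain ⟨cu, u0, -⟩ := len_cont_sub hX hΦ hφP hφT
  have hpt : ∀ a, evP P (g a).rep ≠ 0 → len Φ φ a ≤ B := by
    intro a ha
    have k1 := hB (fun z => g (z + a)) (fun z => f (z + a)) (hol_translate hg a).1 (der_translate hC a)
      (hol_translate hf a) (fun z hz => hfg (z + a) hz) (by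
        change evP P (g (0 + a)).rep ≠ 0
        rw [zero_add]
        exact ha)
    have k2 := len_caff (a := 1) hX hΦ.twist hΦ.deg' hφP hφT (s := a) (l := 1) one_ne_zero 0
    rw [mul_zero, add_zero, norm_one, one_pow, one_mul] at k2
    have k3 : (fun w => φ (a + 1 * w)) = fun z => Phi (f (z + a)).rep := by
      funext w
      rw [hφ]
      simp only [one_mul, add_comm]
    rw [k3] at k2
    rw [← k2]
    exact k1
  have hall : ∀ a, len Φ φ a ≤ B := by
    intro a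
    by_contra hcon
    push Not at hcon
    have h2 := cu.continuousAt.eventually (lt_mem_nhds hcon)
    obtain ⟨w, h3, h4⟩ := ((comp_ne hP hg.1 h1 a).and (nhdsWithin_le_nhds h2)).exists
    have h5 : B < len Φ φ w := h4
    have h6 := hpt w h3
    linarith
  obtain ⟨c0, C0, hc0, hC0, hlow⟩ := len_le_ge hX hΦ hnd
  obtain ⟨A, hA, hw⟩ := wedge_fderiv n
  refine ⟨A * (B / c0), fun V f₀ hV hd hff z hz => ?_⟩
  have hS := (sum_pos (hff z hz).1).le
  refine ⟨by rw [zero_mul]; exact wedge_nonneg _ _, ?_⟩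
  refine (hw f hf.1 V f₀ hV hd hff z hz).2.trans (mul_le_mul_of_nonneg_right
    (mul_le_mul_of_nonneg_left ?_ hA.le) hS)
  rw [le_div_iff₀ hc0, mul_comm]
  exact ((hlow φ hφP hφT z).1).trans (hall z)

/-- the points where a form vanishes are countable -/
theorem zeros_countable {E : MvPolynomial (Fin (m + 1)) ℂ} (hE : IsForm E) (hg : HolMap g) {z₁ : ℂ}
    (h1 : eval (g z₁).rep E ≠ 0) : ({z : ℂ | eval (g z).rep E = 0} ∩ ball 0 1).Countable := by
  obtain ⟨k, hk⟩ := hE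
  set l : ℂ := ((‖z₁‖ + 1 : ℝ) : ℂ) with hl
  have hl1 : ‖l‖ = ‖z₁‖ + 1 := by
    rw [hl, Complex.norm_real, Real.norm_of_nonneg (by positivity)]
  have hl0 : l ≠ 0 := norm_ne_zero_iff.1 (by rw [hl1]; positivity)
  have hD := grm_of_holMap hg l
  have h2 : ({ζ : ℂ | eval (g (l * ζ)).rep E = 0} ∩ ball 0 1).Countable := by
    refine countable_of_punctured fun z hz => ?_
    have h3 : Sec (fun ζ => g (l * ζ)) k fun ζ => eval (g (l * ζ)).rep E :=
      sec_form (f := fun ζ => g (l * ζ)) hk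
    have h4 := h3.isolated hD ⟨z₁ / l, by
      rw [mem_ball_zero_iff, norm_div, hl1, div_lt_one (by positivity)]
      linarith, by
      rw [mul_div_cancel₀ _ hl0]
      exact h1⟩ hz
    filter_upwards [h4] with w hw hw'
    exact hw hw'
  refine (h2.image fun ζ => l * ζ).mono ?_
  rintro z ⟨hz, hz1⟩
  refine ⟨z / l, ⟨?_, ?_⟩, mul_div_cancel₀ _ hl0⟩
  · rw [mem_ofPred_eq, mul_div_cancel₀ _ hl0]
    exact hz
  · rw [mem_ball_zero_iff, norm_div, hl1, div_lt_one (by positivity)]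
    rw [mem_ball_zero_iff] at hz1
    linarith [norm_nonneg z₁]

/-- the curve is not contained in the exceptional set -/
def Off (H : κ' → MvPolynomial (Fin (m + 1)) ℂ) (g : ℂ → ℙ ℂ (Fin (m + 1) → ℂ)) : Prop :=
  ∃ z k, eval (g z).rep (H k) ≠ 0

theorem Off.countable (hH : ∀ k, IsForm (H k)) (h : Off H g) (hg : HolMap g) :
    ({z : ℂ | ∀ k, eval (g z).rep (H k) = 0} ∩ ball 0 1).Countable := by
  obtain ⟨z₁, k, hk⟩ := h
  refine (zeros_countable (hH k) hg hk).mono ?_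
  rintro z ⟨hz, hz1⟩
  exact ⟨hz k, hz1⟩

theorem off_finite (hH : ∀ k, IsForm (H k)) (hfin : FiniteOff G P H)
    (h : ℂ → ℙ ℂ (Fin (n + 1) → ℂ)) : {g | g ∈ LiftsOf G P h ∧ Off H g}.Finite := by
  by_contra hinf
  have hinf' : {g | g ∈ LiftsOf G P h ∧ Off H g}.Infinite := hinf
  set e := hinf'.natEmbedding with he
  set g : ℕ → ℂ → ℙ ℂ (Fin (m + 1) → ℂ) := fun i => (e i).1 with hg
  have hgi : ∀ i, g i ∈ LiftsOf G P h ∧ Off H (g i) := fun i => (e i).2
  have hA : ∀ i j, i ≠ j → ({z : ℂ | g i z = g j z} ∩ ball 0 1).Countable := fun i j hij =>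
    eq_countable (hgi i).1.1.1 (hgi j).1.1.1 fun hcon => hij (e.injective (Subtype.ext hcon))
  have hcount : ((⋃ i : ℕ, ⋃ j : ℕ, ⋃ _ : i ≠ j, ({z : ℂ | g i z = g j z} ∩ ball 0 1)) ∪
      ⋃ i : ℕ, ({z : ℂ | ∀ k, eval (g i z).rep (H k) = 0} ∩ ball 0 1)).Countable := by
    refine Set.Countable.union ?_ (Set.countable_iUnion fun i =>
      (hgi i).2.countable hH (hgi i).1.1.1)
    exact Set.countable_iUnion fun i => Set.countable_iUnion fun j => Set.countable_iUnion fun h =>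
      hA i j h
  obtain ⟨z, hz, hz'⟩ := (hcount.dense_compl ℂ).exists_mem_open isOpen_ball
    ⟨0, mem_ball_self one_pos⟩
  rw [Set.mem_compl_iff, Set.mem_union, not_or] at hz
  obtain ⟨hz1, hz2⟩ := hz
  simp only [Set.mem_iUnion, not_exists, Set.mem_inter_iff, not_and] at hz1 hz2
  have hinj : Function.Injective fun i => g i z := by
    intro i j hij
    by_contra hne
    exact hz1 i j hne hij hz'
  refine Set.infinite_of_injective_forall_mem hinj (fun i => ?_) (hfin.fib (h z).rep)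
  have h1 : ∃ k, eval (g i z).rep (H k) ≠ 0 := by
    by_contra hcon
    push Not at hcon
    exact hz2 i hcon hz'
  exact ⟨(hgi i).1.1.2 z, h1, (hgi i).1.2 z⟩

/-- covers of doubly periodic curves -/
theorem off_periodic (hH : ∀ k, IsForm (H k)) (hfin : FiniteOff G P H)
    {h : ℂ → ℙ ℂ (Fin (n + 1) → ℂ)} (hh : DoublyPeriodic h) (hg : g ∈ LiftsOf G P h)
    (hoff : Off H g) : DoublyPeriodic g := by
  obtain ⟨L, hL⟩ := hh
  have htr : ∀ ω ∈ L.lattice, (fun z => g (z + ω)) ∈ {g | g ∈ LiftsOf G P h ∧ Off H g} := by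
    intro ω hω
    refine ⟨⟨hol_translate hg.1 ω, fun z => ?_⟩, ?_⟩
    · obtain ⟨c, hc⟩ := hg.2 (z + ω)
      exact ⟨c, by rw [hc, hL ω hω]⟩
    · obtain ⟨z, k, hk⟩ := hoff
      exact ⟨z - ω, k, by simpa only [sub_add_cancel] using hk⟩
  have hper : ∀ ω ∈ L.lattice, ∃ N : ℕ, 0 < N ∧ ∀ z, g (z + N * ω) = g z := by
    intro ω hω
    have hmem : ∀ k : ℕ, (fun z => g (z + k * ω)) ∈ {g | g ∈ LiftsOf G P h ∧ Off H g} := fun k => by
      have h1 : (k : ℂ) * ω ∈ L.lattice := by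
        have := L.lattice.smul_mem (k : ℤ) hω
        simpa using this
      exact htr _ h1
    have hni : ¬ Function.Injective fun k : ℕ => fun z => g (z + k * ω) := fun hinj =>
      Set.infinite_of_injective_forall_mem hinj hmem (off_finite hH hfin h)
    rw [Function.not_injective_iff] at hni
    obtain ⟨a, b, hab, hne⟩ := hni
    rcases lt_or_gt_of_ne hne with hlt | hlt
    · refine ⟨b - a, Nat.sub_pos_of_lt hlt, fun z => ?_⟩
      have h1 := congrFun hab (z - a * ω)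
      simp only [sub_add_cancel] at h1
      rw [h1, Nat.cast_sub hlt.le]
      congr 1
      ring
    · refine ⟨a - b, Nat.sub_pos_of_lt hlt, fun z => ?_⟩
      have h1 := congrFun hab (z - b * ω)
      simp only [sub_add_cancel] at h1
      rw [← h1, Nat.cast_sub hlt.le]
      congr 1
      ring
  obtain ⟨N1, hN1, h1⟩ := hper _ L.ω₁_mem_lattice
  obtain ⟨N2, hN2, h2⟩ := hper _ L.ω₂_mem_lattice
  have hind : LinearIndependent ℝ ![(N1 : ℂ) * L.ω₁, (N2 : ℂ) * L.ω₂] := by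
    have h3 := L.indep
    rw [LinearIndependent.pair_iff] at h3 ⊢
    intro s t hst
    have h4 := h3 (s * N1) (t * N2) (by
      rw [← hst]
      simp only [Complex.real_smul]
      push_cast
      ring)
    have a1 : (N1 : ℝ) ≠ 0 := by exact_mod_cast hN1.ne'
    have a2 : (N2 : ℝ) ≠ 0 := by exact_mod_cast hN2.ne'
    exact ⟨(mul_eq_zero.1 h4.1).resolve_right a1, (mul_eq_zero.1 h4.2).resolve_right a2⟩
  refine ⟨⟨(N1 : ℂ) * L.ω₁, (N2 : ℂ) * L.ω₂, hind⟩, fun l hl z => ?_⟩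
  obtain ⟨a, b, rfl⟩ := PeriodPair.mem_lattice.1 hl
  have key : ∀ (ω : ℂ), (∀ z, g (z + ω) = g z) → ∀ (k : ℤ) (z : ℂ), g (z + k * ω) = g z := by
    intro ω hω k
    induction k using Int.induction_on with
    | zero => intro z; simp
    | succ k ih =>
      intro z
      have h3 := ih (z + ω)
      rw [hω] at h3
      rw [← h3]
      congr 1
      push_cast
      ring
    | pred k ih =>
      intro z
      have h3 := hω (z + ((-(k : ℤ) - 1 : ℤ) : ℂ) * ω)
      rw [← h3, ← ih z]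
      congr 1
      push_cast
      ring
  have h3 : z + ((a : ℂ) * ((N1 : ℂ) * L.ω₁) + b * ((N2 : ℂ) * L.ω₂)) =
      (z + a * (N1 * L.ω₁)) + b * (N2 * L.ω₂) := by ring
  simp only
  rw [h3, key _ h2, key _ h1]

/-- curves with constant composition -/
theorem const_of_comp (hH : ∀ k, IsForm (H k)) (hfin : FiniteOff G P H) (hg : HolIn G g)
    (hoff : Off H g) {x : Fin (n + 1) → ℂ} (h : ∀ z, ∃ c : ℂ, ratVal P (g z).rep = c • x) :
    ∀ z w, g z = g w := by
  by_contra hne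
  set Q := {q : ℙ ℂ (Fin (m + 1) → ℂ) | q.rep ∈ Cone G ∧
    (∃ k, eval q.rep (H k) ≠ 0) ∧ ∃ b : ℂ, ratVal P q.rep = b • x} with hQ
  have hQf : Q.Finite := hfin.fib _
  have hA : ∀ q ∈ Q, ({z : ℂ | g z = q} ∩ ball 0 1).Countable := by
    intro q hq
    refine eq_countable (g' := fun _ => q) hg.1 (fun z => ?_) ?_
    · exact ⟨univ, fun _ => q.rep, isOpen_univ, mem_univ _, (differentiable_const _).differentiableOn,
        fun w _ => ⟨Projectivization.rep_nonzero q, (Projectivization.mk_rep q).symm⟩⟩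
    · intro hcon
      apply hne
      intro z w
      rw [hcon]
  have hcount : ((⋃ q ∈ Q, ({z : ℂ | g z = q} ∩ ball 0 1)) ∪
      ({z : ℂ | ∀ k, eval (g z).rep (H k) = 0} ∩ ball 0 1)).Countable :=
    (hQf.countable.biUnion hA).union (hoff.countable hH hg.1)
  obtain ⟨z, hz, hz'⟩ := (hcount.dense_compl ℂ).exists_mem_open isOpen_ball
    ⟨0, mem_ball_self one_pos⟩
  rw [Set.mem_compl_iff, Set.mem_union, not_or] at hz
  obtain ⟨hz1, hz2⟩ := hz
  simp only [Set.mem_iUnion, not_exists, Set.mem_inter_iff, not_and] at hz1 hz2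
  have h1 : ∃ k, eval (g z).rep (H k) ≠ 0 := by
    by_contra hcon
    push Not at hcon
    exact hz2 hcon hz'
  exact hz1 (g z) ⟨hg.2 z, h1, h z⟩ rfl hz'

/-- **The curves of generically finite covers.** -/
theorem off_curves (hX : ProjManifold F d) (hΦ : NonposMetric (Cone F) d Φ)
    (hnd : Nondegenerate (Cone F) d Φ) (hP : RationalMap G F P)
    (hH : ∀ k, IsForm (H k)) (hfin : FiniteOff G P H)
    {S : Finset (ℂ → ℙ ℂ (Fin (n + 1) → ℂ))} (hS : ∀ h ∈ S, DoublyPeriodic h)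
    (hcur : ∀ f, HolIn F f → (¬ ∀ z w, f z = f w) →
        (DoublyPeriodic f ∨ (∃ C, DerBetween 0 C f) ∨ SlowArea f) →
        ∃ h ∈ S, ∃ a b : ℂ, a ≠ 0 ∧ ∀ z, f z = h (a * z + b)) :
    ∃ S' : Finset (ℂ → ℙ ℂ (Fin (m + 1) → ℂ)),
      (∀ h ∈ S', HolIn G h ∧ DoublyPeriodic h ∧ (¬ ∀ z w, h z = h w) ∧ Off H h) ∧
      ∀ g, HolIn G g → Off H g → (¬ ∀ z w, g z = g w) →
        (DoublyPeriodic g ∨ ∃ C, DerBetween 0 C g) →
        ∃ h ∈ S', ∃ a b : ℂ, a ≠ 0 ∧ ∀ z, g z = h (a * z + b) := by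
  classical
  obtain ⟨e, he⟩ := hP.form
  set A : Set (ℂ → ℙ ℂ (Fin (m + 1) → ℂ)) :=
    {g | (∃ h ∈ S, g ∈ LiftsOf G P h ∧ Off H g) ∧ ¬ ∀ z w, g z = g w} with hA
  have hAf : A.Finite := by
    have h1 : (⋃ h ∈ S, {g | g ∈ LiftsOf G P h ∧ Off H g}).Finite :=
      S.finite_toSet.biUnion fun h _ => off_finite hH hfin h
    refine h1.subset ?_
    rintro g ⟨⟨h, hh, hg⟩, -⟩
    simp only [Set.mem_iUnion]
    exact ⟨h, hh, hg⟩
  refine ⟨hAf.toFinset, fun g hg => ?_, fun g hg hoff hnc hgr => ?_⟩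
  · obtain ⟨⟨h, hh, hgl, ho⟩, h2⟩ := hAf.mem_toFinset.1 hg
    exact ⟨hgl.1, off_periodic hH hfin (hS h hh) hgl ho, h2, ho⟩
  · obtain ⟨z₁, k, hk⟩ := hoff
    have h1 : evP P (g z₁).rep ≠ 0 := hfin.defined _ (hg.2 z₁) ⟨k, hk⟩
    obtain ⟨f, hf, hfg⟩ := comp_ext he hg.1 h1 (F := F) (fun z hz => hP.maps _ (hg.2 z) hz) hX.form
    have hfg' : ∀ z, ∃ c : ℂ, ratVal P (g z).rep = c • (f z).rep := by
      intro z
      by_cases h2 : ratVal P (g z).rep = 0
      · exact ⟨0, by rw [h2, zero_smul]⟩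
      · exact hfg z h2
    have hgr' : ∃ C, DerBetween 0 C g := by
      rcases hgr with h | h
      · exact bounded_of_periodic hg h
      · exact h
    obtain ⟨C, hC⟩ := hgr'
    have hbd := comp_bdd hX hΦ hnd he hg hC hf hfg h1
    have hfnc : ¬ ∀ z w, f z = f w := by
      intro hcon
      apply hnc
      refine const_of_comp hH hfin hg ⟨z₁, k, hk⟩ (x := (f 0).rep) fun z => ?_
      obtain ⟨c, hc⟩ := hfg' z
      exact ⟨c, by rw [← hcon z 0]; exact hc⟩
    obtain ⟨h, hh, a, b, ha, hfh⟩ := hcur f hf hfnc (Or.inr (Or.inl hbd))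
    have hinv : ∀ z, a⁻¹ * (a * z + b) + -(a⁻¹ * b) = z := fun z => by
      rw [mul_add, inv_mul_cancel_left₀ ha]
      ring
    have hinv' : ∀ z, a * (a⁻¹ * z + -(a⁻¹ * b)) + b = z := fun z => by
      rw [mul_add, mul_inv_cancel_left₀ ha, mul_neg, mul_inv_cancel_left₀ ha]
      ring
    refine ⟨fun z => g (a⁻¹ * z + -(a⁻¹ * b)), hAf.mem_toFinset.2 ⟨⟨h, hh, ⟨?_, fun z => ?_⟩, ?_⟩, ?_⟩,
      a, b, ha, fun z => ?_⟩
    · exact HolIn.affine hg _ _
    · obtain ⟨c, hc⟩ := hfg' (a⁻¹ * z + -(a⁻¹ * b))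
      rw [hfh, hinv'] at hc
      exact ⟨c, hc⟩
    · refine ⟨a * z₁ + b, k, ?_⟩
      simp only [hinv]
      exact hk
    · intro hcon
      apply hnc
      intro z w
      have h1 := hcon (a * z + b) (a * w + b)
      simp only [hinv] at h1
      exact h1
    · simp only [hinv]

end Pool.Agent.H33
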