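import Pool.Agent.H33.TI
import Pool.Agent.H33.LE

/-! Hyperbolicity of generically finite covers. -/

set_option autoImplicit false

open Filter Topology Metric Set MvPolynomial LinearAlgebra.Projectivization

namespace Pool.Agent.H33

open Pool.Agent.Y190.OP Pool.Agent.W602.GT Pool.Agent.N155 Pool.Agent.N155.BB
open Pool.Agent.N154.GG (kobayashi projDist IsChainLength)

variable {m n : ℕ} {ι ι' κ' : Type} {G : ι' → MvPolynomial (Fin (m + 1)) ℂ}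
  {F : ι → MvPolynomial (Fin (n + 1)) ℂ} {H : κ' → MvPolynomial (Fin (m + 1)) ℂ}
  {P : Fin (n + 1) → MvPolynomial (Fin (m + 1)) ℂ} {e d ν : ℕ}
  {κ : Type} {η : κ → (Fin (n + 1) → ℂ) → (Fin (n + 1) → ℂ) → (Fin (n + 1) → ℂ) → ℂ}
  {Φ : (Fin (n + 1) → ℂ) → (Fin (n + 1) → ℂ) → ℝ}

theorem cone_elim {y : Fin (m + 1) → ℂ} :
    y ∈ Cone (Sum.elim G H) ↔ y ∈ Cone G ∧ ∀ k, eval y (H k) = 0 := by
  constructor
  · rintro ⟨h0, h⟩
    refine ⟨⟨h0, fun i => h (Sum.inl i)⟩, fun k => ?_⟩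
    have := h (Sum.inr k)
    rwa [val_eval] at this
  · rintro ⟨⟨h0, h⟩, h'⟩
    refine ⟨h0, fun i => ?_⟩
    rcases i with i | k
    · exact h i
    · rw [val_eval]
      exact h' k

/-- subvarieties of hyperbolic varieties -/
theorem kob_sub {ι'' : Type} {G' : ι'' → MvPolynomial (Fin (m + 1)) ℂ} (hs : Cone G' ⊆ Cone G)
    (h : KobayashiHyperbolic G) : KobayashiHyperbolic G' := by
  obtain ⟨c, hc, h⟩ := h
  refine ⟨c, hc, fun p q hp hq => (h p q (hs hp) (hs hq)).trans ?_⟩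
  unfold kobayashi
  refine le_iInf₂ fun l hl => iInf₂_le l ?_
  obtain ⟨k, r, f, s, t, h0, h1, hi, he⟩ := hl
  refine ⟨k, r, f, s, t, h0, h1, fun i => ?_, he⟩
  obtain ⟨a1, a2, a3⟩ := hi i
  exact ⟨a1, fun z hz => hs (a2 z hz), a3⟩

/-- **Hyperbolicity of generically finite covers.** -/
theorem off_kob (hG : ∀ i, IsForm (G i)) (hX : ProjManifold F d) (hΦ : NonposMetric (Cone F) d Φ)
    (hnd : Nondegenerate (Cone F) d Φ) (hP : RationalMap G F P)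
    (hH : ∀ k, IsForm (H k)) (hfin : FiniteOff G P H)
    {S : Finset (ℂ → ℙ ℂ (Fin (n + 1) → ℂ))} (hS : ∀ h ∈ S, DoublyPeriodic h)
    (hcur : ∀ f, HolIn F f → (¬ ∀ z w, f z = f w) →
        (DoublyPeriodic f ∨ (∃ C, DerBetween 0 C f) ∨ SlowArea f) →
        ∃ h ∈ S, ∃ a b : ℂ, a ≠ 0 ∧ ∀ z, f z = h (a * z + b)) :
    (KobayashiHyperbolic G ↔ KobayashiHyperbolic (Sum.elim G H) ∧
      ∀ g, HolIn G g → DoublyPeriodic g → ∀ z w, g z = g w) ∧
    ∀ g, HolIn G g → (¬ ∀ z w, g z = g w) → ∃ g', HolIn G g' ∧ (¬ ∀ z w, g' z = g' w) ∧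
      (DoublyPeriodic g' ∨ ((∀ z k, eval (g' z).rep (H k) = 0) ∧ ∃ C, DerBetween 0 C g')) ∧
      ∀ E : MvPolynomial (Fin (m + 1)) ℂ, IsForm E → (∀ z, eval (g z).rep E = 0) →
        ∀ z, eval (g' z).rep E = 0 := by
  have key : ∀ {ι'' : Type} (G' : ι'' → MvPolynomial (Fin (m + 1)) ℂ), (∀ i, IsForm (G' i)) →
      RationalMap G' F P → FiniteOff G' P H →
      (∀ g, HolIn G' g → DoublyPeriodic g → ∀ z w, g z = g w) →
      (∀ g, HolIn (Sum.elim G' H) g → ∀ C, DerBetween 0 C g → ∀ z w, g z = g w) →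
      KobayashiHyperbolic G' := by
    intro ι'' G' hG' hP' hfin' hdp hB
    obtain ⟨S', hS', h'⟩ := off_curves hX hΦ hnd hP' hH hfin' hS hcur
    refine kob_of_brody hG' fun f hf C hb => ?_
    by_cases hoff : Off H f
    · by_contra hne
      obtain ⟨h, hh, -⟩ := h' f hf hoff hne (Or.inr ⟨C, hb⟩)
      obtain ⟨h1, h2, h3, -⟩ := hS' h hh
      exact h3 (hdp h h1 h2)
    · refine hB f ⟨hf.1, fun z => cone_elim.2 ⟨hf.2 z, fun k => ?_⟩⟩ C hb
      by_contra hcon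
      exact hoff ⟨z, k, hcon⟩
  have hGH : ∀ i, IsForm (Sum.elim G H i) := fun i => by
    rcases i with i | k
    · exact hG i
    · exact hH k
  refine ⟨⟨fun h => ⟨kob_sub (fun y hy => (cone_elim.1 hy).1) h, fun g hg _ => const_of_kob hg h⟩,
    fun h => key G hG hP hfin h.2 fun g hg C _ => const_of_kob hg h.1⟩, fun g hg hne => ?_⟩
  set G' : {E : MvPolynomial (Fin (m + 1)) ℂ // IsForm E ∧ ∀ z, eval (g z).rep E = 0} →
    MvPolynomial (Fin (m + 1)) ℂ := fun E => E.1 with hG'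
  have hsub : Cone G' ⊆ Cone G := by
    rintro y ⟨hy0, hy⟩
    refine ⟨hy0, fun i => ?_⟩
    exact hy ⟨G i, hG i, fun z => by
      have := (hg.2 z).2 i
      rwa [val_eval] at this⟩
  have hg' : HolIn G' g := ⟨hg.1, fun z => ⟨Projectivization.rep_nonzero _, fun E => by
    rw [val_eval]
    exact E.2.2 z⟩⟩
  have hP' : RationalMap G' F P := ⟨hP.form, fun y hy => hP.maps y (hsub hy)⟩
  have hfin' : FiniteOff G' P H := ⟨fun y hy => hfin.defined y (hsub hy),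
    fun x => (hfin.fib x).subset fun q hq => ⟨hsub hq.1, hq.2⟩⟩
  by_contra hcon
  push Not at hcon
  apply hne
  have hcon' : ∀ g', HolIn G' g' → (¬ ∀ z w, g' z = g' w) →
      (DoublyPeriodic g' ∨ ((∀ z k, eval (g' z).rep (H k) = 0) ∧ ∃ C, DerBetween 0 C g')) →
      False := by
    intro g' hg1 hnc hor
    obtain ⟨E, hE, hE0, z, hz⟩ := hcon g' ⟨hg1.1, fun z => hsub (hg1.2 z)⟩ (by
      by_contra hh
      push Not at hh
      exact hnc hh) hor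
    apply hz
    have := (hg1.2 z).2 ⟨E, hE, hE0⟩
    rwa [val_eval] at this
  refine const_of_kob hg' (key G' (fun E => E.2.1) hP' hfin' (fun g' hg1 hdp => ?_)
    fun g' hg1 C hb => ?_)
  · by_contra hnc
    exact hcon' g' hg1 hnc (Or.inl hdp)
  · by_contra hnc
    exact hcon' g' ⟨hg1.1, fun z => (cone_elim.1 (hg1.2 z)).1⟩ hnc
      (Or.inr ⟨fun z k => (cone_elim.1 (hg1.2 z)).2 k, C, hb⟩)

/-- the distance to the curves -/
theorem dist_curves {S : Finset (ℂ → ℙ ℂ (Fin (n + 1) → ℂ))}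
    (hS : ∀ h ∈ S, HolIn F h ∧ DoublyPeriodic h) {M0 : Mat (n + 1)}
    (hM : ∀ h ∈ S, ∀ s, Phi (h s).rep ≠ M0) :
    ∃ R : ℝ, 0 < R ∧ R ≤ 1 ∧ ∀ h ∈ S, ∀ s, R ≤ ‖M0 - Phi (h s).rep‖ := by
  set Im : (ℂ → ℙ ℂ (Fin (n + 1) → ℂ)) → Set (Mat (n + 1)) := fun h =>
    range fun z => Phi (h z).rep with hIm
  have hImc : ∀ h ∈ S, IsClosed (Im h) := by
    intro k hk
    obtain ⟨hk1, L, hL⟩ := hS k hk
    have hhol := holP_of_map hk1.1
    have hc : Continuous fun z => Phi (k z).rep :=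
      continuous_iff_continuousAt.2 fun z => hhol.continuousAt (mem_univ z)
    refine (IsZLattice.isCompact_range_of_periodic L.lattice _ hc fun z w hw => ?_).isClosed
    rw [hL w hw z]
  have hU : IsClosed (⋃ h ∈ S, Im h) := isClosed_biUnion_finset hImc
  have hMU : M0 ∈ (⋃ h ∈ S, Im h)ᶜ := by
    simp only [mem_compl_iff, mem_iUnion, not_exists]
    rintro h hh ⟨s, hs⟩
    exact hM h hh s hs
  obtain ⟨R, hR, hb⟩ := Metric.isOpen_iff.1 hU.isOpen_compl M0 hMU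
  refine ⟨min R 1, lt_min hR one_pos, min_le_right _ _, fun h hh s => ?_⟩
  by_contra hcon
  push Not at hcon
  have h1 : Phi (h s).rep ∈ ball M0 R := by
    rw [mem_ball_iff_norm, norm_sub_rev]
    exact hcon.trans_le (min_le_left _ _)
  refine hb h1 ?_
  simp only [mem_iUnion]
  exact ⟨h, hh, s, rfl⟩

/-- **The local part.** -/
theorem gen_pt [Finite κ] (hX : ProjManifold F d) (hη : PositiveTwoForms (Cone F) ∅ d η) (hν : ν ≠ 0)
    (hh : HomForms (Cone F) ν η) (hΦ : NonposMetric (Cone F) d Φ)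
    (hnd : Nondegenerate (Cone F) d Φ)
    (hr : HermitianMetric (Cone F) d Φ ∨ UniformlyConvex (Cone F) d Φ) :
    ∃ S : Finset (ℂ → ℙ ℂ (Fin (n + 1) → ℂ)),
      (∀ h ∈ S, HolIn F h ∧ DoublyPeriodic h ∧ HasSpeed Φ 1 h) ∧
      (2 ≤ d → ∀ x ∈ Cone F, ∃ E : MvPolynomial (Fin (n + 1)) ℂ, IsForm E ∧
        (¬ ∀ᶠ y in 𝓝[Cone F] x, eval y E = 0) ∧ ∀ h ∈ S, ∀ z, eval (h z).rep E = 0) ∧
      ∀ (m : ℕ) (ι' κ' : Type) (G : ι' → MvPolynomial (Fin (m + 1)) ℂ)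
        (P : Fin (n + 1) → MvPolynomial (Fin (m + 1)) ℂ) (H : κ' → MvPolynomial (Fin (m + 1)) ℂ),
        (∀ j, IsForm (G j)) → (∀ k, IsForm (H k)) → RationalMap G F P → FiniteOff G P H →
        ∀ v : ℙ ℂ (Fin (m + 1) → ℂ), v.rep ∈ Cone G → (∃ k, eval v.rep (H k) ≠ 0) →
        (∀ h ∈ S, ∀ w, ∀ b : ℂ, ratVal P v.rep ≠ b • (h w).rep) →
        ∀ ε : ℝ, 0 < ε → ∃ c : ℝ, 0 < c ∧ ∀ q : ℙ ℂ (Fin (m + 1) → ℂ), q.rep ∈ Cone G →
          ε ≤ projDist v q → ENNReal.ofReal c ≤ kobayashi (Cone G) v q := by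
  have := Fintype.ofFinite κ
  have hcx : UniformlyConvex (Cone F) d Φ := hr.elim (fun h => h.uniform hnd) id
  have h : Hyp F d Φ η ν := ⟨hX, hη, hΦ, hnd, uniq_of_convex hX hΦ hcx, hν, hh⟩
  obtain ⟨S, h1, h2, -, h4⟩ := exists_curves h
  refine ⟨S, h1, h4, ?_⟩
  intro m ι' κ' G P H hG hH hP hfin v hvG hvH hvZ ε hε
  have hv : ratVal P v.rep ≠ 0 := hfin.defined _ hvG hvH
  set M0 := Phi (ratVal P v.rep) with hM0
  obtain ⟨R, hR, hR1, hRd⟩ := dist_curves (F := F) (S := S) (M0 := M0)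
    (fun h hh => ⟨(h1 h hh).1, (h1 h hh).2.1⟩) (fun h hh s hs => by
      obtain ⟨c, hc, h5⟩ := Phi_inj (Projectivization.rep_nonzero _) hv hs
      exact hvZ h hh s c h5)
  obtain ⟨C, hC, hest⟩ := inf_est h one_pos
  obtain ⟨C2, hC2, hdisc⟩ := Pool.Agent.N154.TT.disc_trunc_gen (T := TF F)
    (Ξ := {M | ∃ H, Ec F Φ H ∧ ∃ t, H t = M}) (ε := 1) one_pos hC (by
      intro P hP hPT R hR0 hR1 hR
      refine (hest P ⟨isOpen_ball, hP, hPT⟩ R hR0 hR1 fun H hH t => hR _ ⟨H, hH, t, rfl⟩).2)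
  refine pt_hyp hG hX.form hP hH hfin hvG hvH (ρ := R / 2) (A := C2 / R ^ (1 : ℝ)) (by positivity)
    (by positivity) (fun Q hQ hQT s hs t ht => ?_) hε
  refine hdisc R hR hR1 M0 ?_ Q hQ hQT s hs t ht
  rintro M ⟨H', hH', t, rfl⟩
  obtain ⟨k, hk, s, hs⟩ := h2 H' hH' t
  rw [hs]
  exact hRd k hk s

end Pool.Agent.H33
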