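import Mathlib

/-! Inverse branches of entire functions on large discs (univalent form of Bloch's theorem). -/

set_option autoImplicit false

open Filter Topology Metric Set

namespace Pool.Agent.H33

/-- inverse branches, local form -/
theorem inv_local {g : ℂ → ℂ} {p : ℂ} {t : ℝ} (ht : 0 < t)
    (hg : DifferentiableOn ℂ g (ball p t))
    (hN : ∀ z ∈ ball p t, ‖deriv g z‖ ≤ 2 * ‖deriv g p‖) (hne : deriv g p ≠ 0) :
    ∃ ψ : ℂ → ℂ, DifferentiableOn ℂ ψ (ball (g p) (‖deriv g p‖ * t / 24)) ∧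
      ∀ w ∈ ball (g p) (‖deriv g p‖ * t / 24), g (ψ w) = w := by
  set N := ‖deriv g p‖ with hNdef
  have hNpos : 0 < N := norm_pos_iff.mpr hne
  have hp : p ∈ ball p t := mem_ball_self ht
  have hd : DifferentiableOn ℂ (deriv g) (ball p t) := hg.deriv isOpen_ball
  have hmaps : MapsTo (deriv g) (ball p t) (closedBall (deriv g p) (3 * N)) := by
    intro z hz
    rw [mem_closedBall, dist_eq_norm]
    calc ‖deriv g z - deriv g p‖ ≤ ‖deriv g z‖ + ‖deriv g p‖ := norm_sub_le _ _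
      _ ≤ 2 * N + N := by have := hN z hz; linarith
      _ = 3 * N := by ring
  have hlip : ∀ z ∈ ball p t, ‖deriv g z - deriv g p‖ ≤ 3 * N / t * ‖z - p‖ := by
    intro z hz
    have := Complex.dist_le_div_mul_dist_of_mapsTo_ball hd hmaps hz
    rwa [dist_eq_norm, dist_eq_norm] at this
  set s := t / 6 with hs
  have hs0 : 0 < s := by positivity
  have hst : s < t := by rw [hs]; linarith
  have hsub : closedBall p s ⊆ ball p t := closedBall_subset_ball hst
  have h32 : 3 * N / t * s = N / 2 := by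
    rw [hs]; field_simp; ring
  have hdp : ∀ x ∈ closedBall p s, ‖deriv g x - deriv g p‖ ≤ N / 2 := by
    intro x hx
    refine (hlip x (hsub hx)).trans ?_
    have h1 : ‖x - p‖ ≤ s := by rwa [← dist_eq_norm, ← mem_closedBall]
    rw [← h32]
    gcongr
  have key : ∀ x ∈ closedBall p s, ∀ y ∈ closedBall p s,
      ‖g y - g x - deriv g p * (y - x)‖ ≤ N / 2 * ‖y - x‖ := by
    intro x hx y hy
    have hconv : Convex ℝ (closedBall p s) := convex_closedBall p s
    have h1 : ∀ x ∈ closedBall p s,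
        HasDerivWithinAt (fun x => g x - deriv g p * x) (deriv g x - deriv g p) (closedBall p s) x := by
      intro x hx
      have hx' : DifferentiableAt ℂ g x := hg.differentiableAt (isOpen_ball.mem_nhds (hsub hx))
      have := (hx'.hasDerivAt.fun_sub ((hasDerivAt_id' x).const_mul (deriv g p)))
      rw [mul_one] at this
      exact this.hasDerivWithinAt
    have := hconv.norm_image_sub_le_of_norm_hasDerivWithin_le h1 hdp hx hy
    calc ‖g y - g x - deriv g p * (y - x)‖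
        = ‖(g y - deriv g p * y) - (g x - deriv g p * x)‖ := by congr 1; ring
      _ ≤ _ := this
  have hexp : ∀ x ∈ closedBall p s, ∀ y ∈ closedBall p s, N / 2 * ‖y - x‖ ≤ ‖g y - g x‖ := by
    intro x hx y hy
    have h1 := key x hx y hy
    have h2 : ‖deriv g p * (y - x)‖ = N * ‖y - x‖ := by rw [norm_mul]
    have h3 : ‖deriv g p * (y - x)‖ - ‖g y - g x‖ ≤ ‖g y - g x - deriv g p * (y - x)‖ := by
      rw [norm_sub_rev (g y - g x)]
      exact norm_sub_norm_le _ _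
    linarith
  have hdiff : DiffContOnCl ℂ g (ball p s) := by
    refine (hg.mono ?_).diffContOnCl
    rw [closure_ball _ hs0.ne']
    exact hsub
  have hsph : ∀ z ∈ sphere p s, N * t / 12 ≤ ‖g z - g p‖ := by
    intro z hz
    have hz1 : ‖z - p‖ = s := by rwa [← dist_eq_norm]
    have h1 := hexp p (mem_closedBall_self hs0.le) z (sphere_subset_closedBall hz)
    rw [hz1, hs] at h1
    linarith
  have hfreq : ∃ᶠ z in 𝓝 p, g z ≠ g p := by
    have hx' : DifferentiableAt ℂ g p := hg.differentiableAt (isOpen_ball.mem_nhds hp)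
    have := (hx'.hasDerivAt.eventually_ne hne (c := g p))
    exact this.frequently.filter_mono nhdsWithin_le_nhds
  have himg := hdiff.ball_subset_image_closedBall hs0 hsph hfreq
  have hex : ∀ w, w ∈ ball (g p) (N * t / 24) → ∃ z, z ∈ closedBall p s ∧ g z = w := by
    intro w hw
    obtain ⟨z, hz, hzw⟩ := himg (ball_subset_ball (by linarith) hw)
    exact ⟨z, hz, hzw⟩
  choose! ψ hψ using hex
  refine ⟨ψ, fun w hw => ?_, fun w hw => (hψ w hw).2⟩
  have hfg : ∀ᶠ y in 𝓝 w, y ∈ ball (g p) (N * t / 24) := isOpen_ball.mem_nhds hw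
  have hcont : ContinuousAt ψ w := by
    obtain ⟨r, hr, hrb⟩ := Metric.isOpen_ball.mem_nhds hw |> Metric.mem_nhds_iff.1
    refine continuousAt_of_locally_lipschitz hr (2 / N) fun y hy => ?_
    have h1 := hexp _ (hψ w hw).1 _ (hψ y (hrb hy)).1
    rw [(hψ w hw).2, (hψ y (hrb hy)).2] at h1
    rw [dist_eq_norm, dist_eq_norm, div_mul_eq_mul_div, le_div_iff₀ hNpos]
    linarith
  have hz := hsub (hψ w hw).1
  have hgd : HasDerivAt g (deriv g (ψ w)) (ψ w) :=
    (hg.differentiableAt (isOpen_ball.mem_nhds hz)).hasDerivAt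
  have hne' : deriv g (ψ w) ≠ 0 := by
    intro h0
    have h1 := hdp _ (hψ w hw).1
    rw [h0, zero_sub, norm_neg] at h1
    linarith
  have h2 : HasDerivAt ψ (deriv g (ψ w))⁻¹ w :=
    HasDerivAt.of_local_left_inverse hcont hgd hne' (hfg.mono fun y hy => (hψ y hy).2)
  exact h2.differentiableAt.differentiableWithinAt

/-- univalent form of Bloch's theorem -/
theorem bloch_uni {g : ℂ → ℂ} (hg : DifferentiableOn ℂ g (ball 0 1)) (h0 : deriv g 0 ≠ 0) :
    ∃ (w₀ : ℂ) (ψ : ℂ → ℂ), DifferentiableOn ℂ ψ (ball w₀ (‖deriv g 0‖ / 96)) ∧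
      ∀ w ∈ ball w₀ (‖deriv g 0‖ / 96), g (ψ w) = w := by
  have hN0 : 0 < ‖deriv g 0‖ := norm_pos_iff.mpr h0
  have hsub : closedBall (0 : ℂ) (1 / 2) ⊆ ball 0 1 := closedBall_subset_ball (by norm_num)
  have hd : DifferentiableOn ℂ (deriv g) (ball 0 1) := hg.deriv isOpen_ball
  have hcont : ContinuousOn (fun z => (1 / 2 - ‖z‖) * ‖deriv g z‖) (closedBall (0 : ℂ) (1 / 2)) :=
    (continuous_const.sub continuous_norm).continuousOn.mul (hd.continuousOn.mono hsub).norm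
  obtain ⟨p, hp, hmax⟩ := (isCompact_closedBall (0 : ℂ) (1 / 2)).exists_isMaxOn
    ⟨0, mem_closedBall_self (by norm_num)⟩ hcont
  have hmax0 : 1 / 2 * ‖deriv g 0‖ ≤ (1 / 2 - ‖p‖) * ‖deriv g p‖ := by
    have := hmax (mem_closedBall_self (by norm_num) : (0 : ℂ) ∈ closedBall (0 : ℂ) (1 / 2))
    simpa using this
  have hp1 : ‖p‖ ≤ 1 / 2 := by simpa using hp
  have hpos : 0 < (1 / 2 - ‖p‖) * ‖deriv g p‖ := lt_of_lt_of_le (by positivity) hmax0
  have hp2 : 0 < 1 / 2 - ‖p‖ := by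
    by_contra hcon
    have : (1 / 2 - ‖p‖) * ‖deriv g p‖ ≤ 0 :=
      mul_nonpos_of_nonpos_of_nonneg (not_lt.mp hcon) (norm_nonneg _)
    linarith
  have hne : deriv g p ≠ 0 := by
    intro h
    rw [h, norm_zero, mul_zero] at hpos
    exact lt_irrefl _ hpos
  set t := (1 / 2 - ‖p‖) / 2 with ht
  have ht0 : 0 < t := by positivity
  have hball : ball p t ⊆ ball 0 1 := by
    intro z hz
    rw [mem_ball, dist_eq_norm] at hz
    rw [mem_ball_zero_iff]
    calc ‖z‖ = ‖(z - p) + p‖ := by ring_nf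
      _ ≤ ‖z - p‖ + ‖p‖ := norm_add_le _ _
      _ < t + ‖p‖ := by linarith
      _ ≤ 1 := by rw [ht]; linarith
  have hN : ∀ z ∈ ball p t, ‖deriv g z‖ ≤ 2 * ‖deriv g p‖ := by
    intro z hz
    rw [mem_ball, dist_eq_norm] at hz
    have hz1 : ‖z‖ ≤ t + ‖p‖ := by
      calc ‖z‖ = ‖(z - p) + p‖ := by ring_nf
        _ ≤ ‖z - p‖ + ‖p‖ := norm_add_le _ _
        _ ≤ t + ‖p‖ := by linarith
    have hz2 : t ≤ 1 / 2 - ‖z‖ := by rw [ht] at hz1 ⊢; linarith
    have hz3 : z ∈ closedBall (0 : ℂ) (1 / 2) := by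
      rw [mem_closedBall_zero_iff]; linarith
    have hz4 : (1 / 2 - ‖z‖) * ‖deriv g z‖ ≤ (1 / 2 - ‖p‖) * ‖deriv g p‖ := hmax hz3
    have hz5 : t * ‖deriv g z‖ ≤ 2 * t * ‖deriv g p‖ := by
      calc t * ‖deriv g z‖ ≤ (1 / 2 - ‖z‖) * ‖deriv g z‖ := by gcongr
        _ ≤ (1 / 2 - ‖p‖) * ‖deriv g p‖ := hz4
        _ = 2 * t * ‖deriv g p‖ := by rw [ht]; ring
    have : t * ‖deriv g z‖ ≤ t * (2 * ‖deriv g p‖) := by linarith
    exact le_of_mul_le_mul_left this ht0
  obtain ⟨ψ, h1, h2⟩ := inv_local ht0 (hg.mono hball) hN hne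
  have hle : ball (g p) (‖deriv g 0‖ / 96) ⊆ ball (g p) (‖deriv g p‖ * t / 24) := by
    apply ball_subset_ball
    rw [ht]
    linarith
  exact ⟨g p, ψ, h1.mono hle, fun w hw => h2 w (hle hw)⟩

/-- nonconstant entire functions have inverse branches on arbitrarily large discs -/
theorem bloch_inv {φ : ℂ → ℂ} (hφ : Differentiable ℂ φ) {z₀ : ℂ} (h0 : deriv φ z₀ ≠ 0) (R : ℝ) :
    ∃ (w₀ : ℂ) (ψ : ℂ → ℂ), DifferentiableOn ℂ ψ (ball w₀ R) ∧ ∀ w ∈ ball w₀ R, φ (ψ w) = w := by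
  have hpos : 0 < ‖deriv φ z₀‖ := norm_pos_iff.2 h0
  set Λ : ℝ := 96 * (|R| + 1) / ‖deriv φ z₀‖ with hΛ
  have hΛ0 : 0 < Λ := by positivity
  set g : ℂ → ℂ := fun ζ => φ (Λ * ζ + z₀) with hg
  have hgd : Differentiable ℂ g := hφ.comp (by fun_prop)
  have hder : deriv g 0 = Λ * deriv φ z₀ := by
    have h1 : HasDerivAt (fun ζ : ℂ => (Λ : ℂ) * ζ + z₀) (Λ : ℂ) 0 := by
      simpa using ((hasDerivAt_id' (0 : ℂ)).const_mul (Λ : ℂ)).add_const z₀
    have h2 : HasDerivAt φ (deriv φ z₀) ((Λ : ℂ) * 0 + z₀) := by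
      rw [mul_zero, zero_add]
      exact (hφ z₀).hasDerivAt
    have h3 := (h2.comp (0 : ℂ) h1).deriv
    rw [mul_comm] at h3
    exact h3
  have hn : ‖deriv g 0‖ / 96 = |R| + 1 := by
    rw [hder, norm_mul, Complex.norm_real, Real.norm_of_nonneg hΛ0.le, hΛ]
    field_simp
  obtain ⟨w₀, ψ, h1, h2⟩ := bloch_uni hgd.differentiableOn (g := g) (by
    rw [hder]
    exact mul_ne_zero (by exact_mod_cast hΛ0.ne') h0)
  rw [hn] at h1 h2
  have hle : ball w₀ R ⊆ ball w₀ (|R| + 1) := ball_subset_ball (by linarith [le_abs_self R])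
  refine ⟨w₀, fun w => Λ * ψ w + z₀, ((h1.mono hle).const_mul _).add_const _, fun w hw => ?_⟩
  exact h2 w (hle hw)

end Pool.Agent.H33
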