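import Pool.Agent.H33.TI
import Pool.Agent.H33.UA

/-! Entire curves over doubly periodic curves. -/

set_option autoImplicit false

open Filter Topology Metric Set MvPolynomial LinearAlgebra.Projectivization

namespace Pool.Agent.H33

open Pool.Agent.Y190.OP Pool.Agent.W602.GT Pool.Agent.N155 Pool.Agent.N155.BB

variable {m n : ℕ} {ι ι' κ' : Type} {G : ι' → MvPolynomial (Fin (m + 1)) ℂ}
  {P : Fin (n + 1) → MvPolynomial (Fin (m + 1)) ℂ} {H : κ' → MvPolynomial (Fin (m + 1)) ℂ}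
  {g : ℂ → ℙ ℂ (Fin (m + 1) → ℂ)}

/-- compositions with functions on a disc -/
theorem holD_comp (hg : HolMap g) {ψ : ℂ → ℂ} {R : ℝ} (hψ : DifferentiableOn ℂ ψ (ball 0 R))
    {r : ℝ} (hr0 : 0 < r) (hr : r ≤ R) : HolD fun ζ => g (ψ (r * ζ)) := by
  intro z hz
  have hz1 : (r : ℂ) * z ∈ ball (0 : ℂ) R := by
    rw [mem_ball_zero_iff, norm_mul, Complex.norm_real, Real.norm_of_nonneg hr0.le]
    rw [mem_ball_zero_iff] at hz
    nlinarith [norm_nonneg z]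
  have h2 : AnalyticAt ℂ (fun w : ℂ => ψ (r * w)) z := by
    have h3 : AnalyticAt ℂ ψ ((r : ℂ) * z) := hψ.analyticAt (isOpen_ball.mem_nhds hz1)
    have h4 : AnalyticAt ℂ (fun w : ℂ => (r : ℂ) * w) z := by fun_prop
    exact h3.comp h4
  obtain ⟨V, g₀, hV, hzV, hd, h⟩ := hg (ψ (r * z))
  have h1 : AnalyticAt ℂ g₀ (ψ (r * z)) := hd.analyticAt (hV.mem_nhds hzV)
  refine ⟨fun w => g₀ (ψ (r * w)),
    h1.comp_of_eq h2 rfl, (h _ hzV).1, ?_⟩
  filter_upwards [h2.continuousAt.eventually (hV.mem_nhds hzV)] with w hw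
  obtain ⟨k1, k2⟩ := h _ hw
  exact mk_rep k1 k2

/-- compositions with entire functions -/
theorem holMap_comp (hg : HolMap g) {χ : ℂ → ℂ} (hχ : Differentiable ℂ χ) :
    HolMap fun z => g (χ z) := by
  intro z
  obtain ⟨V, g₀, hV, hz, hd, h⟩ := hg (χ z)
  exact ⟨χ ⁻¹' V, fun w => g₀ (χ w), hV.preimage hχ.continuous, hz,
    hd.comp hχ.differentiableOn fun w hw => hw, fun w hw => h _ hw⟩

theorem offset_countable (hH : ∀ k, IsForm (H k)) (h : Off H g) (hg : HolIn G g) :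
    {z : ℂ | ∀ k, eval (g z).rep (H k) = 0}.Countable := by
  obtain ⟨z₁, k, hk⟩ := h
  have hn : ∀ j : ℕ, ({z : ℂ | ∀ k, eval (g (((j + 1 : ℕ) : ℂ) * z + 0)).rep (H k) = 0} ∩
      ball 0 1).Countable := by
    intro j
    have hj : ((j + 1 : ℕ) : ℂ) ≠ 0 := by exact_mod_cast Nat.succ_ne_zero j
    refine Off.countable hH (g := fun z => g (((j + 1 : ℕ) : ℂ) * z + 0))
      ⟨z₁ / ((j + 1 : ℕ) : ℂ), k, ?_⟩ (HolIn.affine hg _ _).1
    simp only [add_zero]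
    rw [mul_div_cancel₀ _ hj]
    exact hk
  refine (Set.countable_iUnion fun j =>
    (hn j).image fun ζ : ℂ => ((j + 1 : ℕ) : ℂ) * ζ).mono ?_
  intro z hz
  obtain ⟨j, hj⟩ := exists_nat_ge ‖z‖
  have hj0 : ((j + 1 : ℕ) : ℂ) ≠ 0 := by exact_mod_cast Nat.succ_ne_zero j
  refine mem_iUnion.2 ⟨j, z / ((j + 1 : ℕ) : ℂ), ⟨?_, ?_⟩, mul_div_cancel₀ _ hj0⟩
  · change ∀ k, _ = 0
    rw [add_zero, mul_div_cancel₀ _ hj0]
    exact hz
  · rw [mem_ball_zero_iff, norm_div, Complex.norm_natCast, div_lt_one (by positivity)]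
    push_cast
    linarith

/-- **Entire curves over doubly periodic curves.** -/
theorem lift_factor (hH : ∀ k, IsForm (H k)) (hfin : FiniteOff G P H) (hg : HolIn G g)
    (hoff : Off H g) {h : ℂ → ℙ ℂ (Fin (n + 1) → ℂ)} (hh : DoublyPeriodic h) {φ : ℂ → ℂ}
    (hφ : Differentiable ℂ φ) {z₀ : ℂ} (h0 : deriv φ z₀ ≠ 0)
    (hgh : ∀ z, ∃ c : ℂ, ratVal P (g z).rep = c • (h (φ z)).rep) :
    ∃ h', h' ∈ LiftsOf G P h ∧ Off H h' ∧ ∃ l : ℂ, ∀ z, g z = h' (φ z + l) := by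
  classical
  obtain ⟨L, hL⟩ := hh
  set C := ‖L.ω₁‖ + ‖L.ω₂‖ with hC
  have hex : ∀ j : ℕ, ∃ (l : ℂ) (ψ : ℂ → ℂ), l ∈ L.lattice ∧
      DifferentiableOn ℂ ψ (ball 0 (j + 1)) ∧ ∀ w ∈ ball (0 : ℂ) (j + 1), φ (ψ w) = w - l := by
    intro j
    obtain ⟨w₀, ψ, h1, h2⟩ := bloch_inv hφ h0 (j + 1 + C)
    obtain ⟨a, b, hab⟩ := exists_shift L.indep w₀
    set l : ℂ := a * L.ω₁ + b * L.ω₂ with hl
    have hmem : ∀ w ∈ ball (0 : ℂ) (j + 1), w - l ∈ ball w₀ (j + 1 + C) := by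
      intro w hw
      rw [mem_ball_zero_iff] at hw
      rw [mem_ball, dist_eq_norm]
      have h3 : w - l - w₀ = w - (w₀ + l) := by ring
      rw [h3]
      exact (norm_sub_le _ _).trans_lt (by linarith)
    refine ⟨l, fun w => ψ (w - l), PeriodPair.mem_lattice.2 ⟨a, b, rfl⟩, ?_, fun w hw =>
      h2 _ (hmem w hw)⟩
    exact h1.comp (by fun_prop) hmem
  choose l ψ hl hψ hφψ using hex
  have hv : ∀ j : ℕ, ∀ w ∈ ball (0 : ℂ) (j + 1), ∃ c : ℂ, ratVal P (g (ψ j w)).rep = c • (h w).rep := by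
    intro j w hw
    obtain ⟨c, hc⟩ := hgh (ψ j w)
    refine ⟨c, ?_⟩
    rw [hc, hφψ j w hw, ← hL (l j) (hl j) (w - l j), sub_add_cancel]
  have hA : ∀ i j : ℕ, (∃ w ∈ ball (0 : ℂ) ((min i j + 1 : ℕ) : ℝ), g (ψ i w) ≠ g (ψ j w)) →
      ({w : ℂ | g (ψ i w) = g (ψ j w)} ∩ ball 0 1).Countable := by
    rintro i j ⟨w, hw, hne⟩
    set r : ℝ := ((min i j + 1 : ℕ) : ℝ) with hr
    have hr1 : 1 ≤ r := by rw [hr]; exact_mod_cast Nat.le_add_left 1 _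
    have hr0 : 0 < r := by linarith
    have hri : r ≤ i + 1 := by
      rw [hr]; exact_mod_cast Nat.add_le_add_right (min_le_left i j) 1
    have hrj : r ≤ j + 1 := by
      rw [hr]; exact_mod_cast Nat.add_le_add_right (min_le_right i j) 1
    have hrc : (r : ℂ) ≠ 0 := by exact_mod_cast hr0.ne'
    have h1 : ({ζ : ℂ | g (ψ i (r * ζ)) = g (ψ j (r * ζ))} ∩ ball 0 1).Countable := by
      refine countable_of_punctured ((holD_comp hg.1 (hψ i) hr0 hri).ne_of_ne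
        (holD_comp hg.1 (hψ j) hr0 hrj) ⟨w / r, ?_, ?_⟩)
      · rw [mem_ball_zero_iff, norm_div, Complex.norm_real, Real.norm_of_nonneg hr0.le,
          div_lt_one hr0]
        exact mem_ball_zero_iff.1 hw
      · rw [mul_div_cancel₀ _ hrc]
        exact hne
    refine (h1.image fun ζ : ℂ => (r : ℂ) * ζ).mono ?_
    rintro z ⟨hz, hz1⟩
    refine ⟨z / r, ⟨?_, ?_⟩, mul_div_cancel₀ _ hrc⟩
    · rw [mem_ofPred_eq, mul_div_cancel₀ _ hrc]
      exact hz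
    · rw [mem_ball_zero_iff, norm_div, Complex.norm_real, Real.norm_of_nonneg hr0.le,
        div_lt_one hr0]
      rw [mem_ball_zero_iff] at hz1
      linarith
  have hB : ∀ j : ℕ, ({w : ℂ | ∀ k, eval (g (ψ j w)).rep (H k) = 0} ∩ ball 0 1).Countable := by
    intro j
    have hsub : ball (0 : ℂ) 1 ⊆ ball 0 (j + 1) := ball_subset_ball (by
      have : (0 : ℝ) ≤ j := Nat.cast_nonneg j
      linarith)
    refine Set.MapsTo.countable_of_injOn (f := ψ j) (t := {z : ℂ | ∀ k, eval (g z).rep (H k) = 0})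
      (fun w hw => hw.1) (fun a ha b hb hab => ?_) (offset_countable hH hoff hg)
    have h1 := hφψ j a (hsub ha.2)
    rw [hab, hφψ j b (hsub hb.2)] at h1
    exact (sub_left_inj.1 h1).symm
  have hcount : ((⋃ i : ℕ, ⋃ j : ℕ, ⋃ _ : (∃ w ∈ ball (0 : ℂ) ((min i j + 1 : ℕ) : ℝ),
      g (ψ i w) ≠ g (ψ j w)), ({w : ℂ | g (ψ i w) = g (ψ j w)} ∩ ball 0 1)) ∪
      ⋃ j : ℕ, ({w : ℂ | ∀ k, eval (g (ψ j w)).rep (H k) = 0} ∩ ball 0 1)).Countable :=
    (Set.countable_iUnion fun i => Set.countable_iUnion fun j => Set.countable_iUnion fun h =>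
      hA i j h).union (Set.countable_iUnion hB)
  obtain ⟨w, hw, hw'⟩ := (hcount.dense_compl ℂ).exists_mem_open isOpen_ball
    ⟨0, mem_ball_self one_pos⟩
  rw [Set.mem_compl_iff, Set.mem_union, not_or] at hw
  obtain ⟨hw1, hw2⟩ := hw
  simp only [Set.mem_iUnion, not_exists, Set.mem_inter_iff, not_and] at hw1 hw2
  have hwj : ∀ j : ℕ, w ∈ ball (0 : ℂ) (j + 1) := fun j => ball_subset_ball (by
      have : (0 : ℝ) ≤ j := Nat.cast_nonneg j
      linarith) hw'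
  have hoffw : ∀ j, ∃ k, eval (g (ψ j w)).rep (H k) ≠ 0 := by
    intro j
    by_contra hcon
    push Not at hcon
    exact hw2 j hcon hw'
  set Q := {q : ℙ ℂ (Fin (m + 1) → ℂ) | q.rep ∈ Cone G ∧
    (∃ k, eval q.rep (H k) ≠ 0) ∧ ∃ b : ℂ, ratVal P q.rep = b • (h w).rep} with hQ
  have hQf : Q.Finite := hfin.fib _
  obtain ⟨q, hq⟩ : ∃ q, {j : ℕ | g (ψ j w) = q}.Infinite := by
    by_contra hcon
    push Not at hcon
    have h1 : (⋃ q ∈ Q, {j : ℕ | g (ψ j w) = q}).Finite := hQf.biUnion fun q _ => by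
      simpa using hcon q
    have h2 : (Set.univ : Set ℕ) ⊆ ⋃ q ∈ Q, {j : ℕ | g (ψ j w) = q} := by
      intro j _
      simp only [Set.mem_iUnion]
      exact ⟨g (ψ j w), ⟨hg.2 _, hoffw j, hv j w (hwj j)⟩, rfl⟩
    exact Set.infinite_univ (h1.subset h2)
  set I := {j : ℕ | g (ψ j w) = q} with hI
  have hagr : ∀ i ∈ I, ∀ j ∈ I, ∀ u : ℂ, ‖u‖ < i + 1 → ‖u‖ < j + 1 → g (ψ i u) = g (ψ j u) := by
    intro i hi j hj u hui huj
    by_contra hne
    refine hw1 i j ⟨u, ?_, hne⟩ ?_ hw'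
    · rw [mem_ball_zero_iff]
      rcases le_total i j with h1 | h1
      · rw [min_eq_left h1]; push_cast; exact hui
      · rw [min_eq_right h1]; push_cast; exact huj
    · exact (show g (ψ i w) = q from hi).trans (show g (ψ j w) = q from hj).symm
  have hN : ∀ u : ℂ, ∃ j ∈ I, ‖u‖ < j + 1 := by
    intro u
    obtain ⟨a, ha⟩ := exists_nat_ge ‖u‖
    obtain ⟨j, hj, haj⟩ := hq.exists_gt a
    refine ⟨j, hj, ?_⟩
    have h1 : (a : ℝ) < j := by exact_mod_cast haj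
    linarith
  choose N hNI hNn using hN
  set h' : ℂ → ℙ ℂ (Fin (m + 1) → ℂ) := fun u => g (ψ (N u) u) with hh'
  have hh'i : ∀ i ∈ I, ∀ u : ℂ, ‖u‖ < i + 1 → h' u = g (ψ i u) := fun i hi u hu =>
    hagr _ (hNI u) i hi u (hNn u) hu
  have hh'hol : HolMap h' := by
    intro u
    obtain ⟨V, g₀, hV, hzV, hd, hgV⟩ := hg.1 (ψ (N u) u)
    refine ⟨ball 0 (N u + 1) ∩ ψ (N u) ⁻¹' V, fun x => g₀ (ψ (N u) x),
      (hψ (N u)).continuousOn.isOpen_inter_preimage isOpen_ball hV,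
      ⟨mem_ball_zero_iff.2 (hNn u), hzV⟩, ?_, fun x hx => ?_⟩
    · exact hd.comp ((hψ (N u)).mono Set.inter_subset_left) fun x hx => hx.2
    · rw [hh'i _ (hNI u) x (mem_ball_zero_iff.1 hx.1)]
      exact hgV _ hx.2
  refine ⟨h', ⟨⟨hh'hol, fun u => hg.2 _⟩, fun u => ?_⟩, ⟨w, hoffw _⟩, l (N 0), ?_⟩
  · exact hv _ u (mem_ball_zero_iff.2 (hNn u))
  -- the identity theorem
  set i := N 0 with hi
  have hiI : i ∈ I := hNI 0
  have hi0 : (0 : ℂ) ∈ ball (0 : ℂ) (i + 1) := mem_ball_self (by positivity)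
  have hψa : AnalyticAt ℂ (ψ i) 0 := (hψ i).analyticAt (isOpen_ball.mem_nhds hi0)
  have hnear : ∀ᶠ u in 𝓝 (0 : ℂ), g (ψ i u) = h' (φ (ψ i u) + l i) := by
    filter_upwards [isOpen_ball.mem_nhds hi0] with u hu
    rw [hφψ i u hu, sub_add_cancel, hh'i i hiI u (mem_ball_zero_iff.1 hu)]
  have hder : deriv (ψ i) 0 ≠ 0 := by
    intro hcon
    have h1 : HasDerivAt (fun u => φ (ψ i u)) (deriv φ (ψ i 0) * deriv (ψ i) 0) 0 :=
      (hφ (ψ i 0)).hasDerivAt.comp (0 : ℂ) hψa.differentiableAt.hasDerivAt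
    have h2 : (fun u => φ (ψ i u)) =ᶠ[𝓝 0] fun u => u - l i := by
      filter_upwards [isOpen_ball.mem_nhds hi0] with u hu
      exact hφψ i u hu
    have h3 : HasDerivAt (fun u : ℂ => u - l i) 1 0 := (hasDerivAt_id' _).sub_const _
    have h4 := (h1.congr_of_eventuallyEq h2.symm).unique h3
    rw [hcon, mul_zero] at h4
    exact zero_ne_one h4
  have hnear' : ∀ᶠ z in 𝓝 (ψ i 0), g z = h' (φ z + l i) := by
    have h1 : HasStrictDerivAt (ψ i) (deriv (ψ i) 0) 0 := hψa.hasStrictDerivAt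
    rw [← h1.map_nhds_eq hder]
    exact hnear
  by_contra hcon
  push Not at hcon
  obtain ⟨z₁, hz₁⟩ := hcon
  have h2 : HolMap fun ζ : ℂ => g (ζ + ψ i 0) := holMap_comp hg.1 (by fun_prop)
  have h3 : HolMap fun ζ : ℂ => h' (φ (ζ + ψ i 0) + l i) :=
    holMap_comp hh'hol (χ := fun ζ => φ (ζ + ψ i 0) + l i)
      ((hφ.comp (by fun_prop : Differentiable ℂ fun ζ : ℂ => ζ + ψ i 0)).add_const _)
  have h4 := eq_countable h2 h3 (fun hcon => hz₁ (by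
    have := congrFun hcon (z₁ - ψ i 0)
    simpa using this))
  have h5 : ∀ᶠ ζ in 𝓝 (0 : ℂ), g (ζ + ψ i 0) = h' (φ (ζ + ψ i 0) + l i) := by
    have h6 : Tendsto (fun ζ : ℂ => ζ + ψ i 0) (𝓝 0) (𝓝 (ψ i 0)) := by
      have : Continuous fun ζ : ℂ => ζ + ψ i 0 := by fun_prop
      simpa using this.tendsto 0
    exact h6.eventually hnear'
  obtain ⟨δ, hδ, h6⟩ := Metric.eventually_nhds_iff_ball.1 h5
  obtain ⟨z, hz, hz'⟩ := (h4.dense_compl ℂ).exists_mem_open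
    (isOpen_ball.inter isOpen_ball : IsOpen (ball (0 : ℂ) δ ∩ ball 0 1))
    ⟨0, mem_ball_self hδ, mem_ball_self one_pos⟩
  exact hz ⟨h6 z hz'.1, hz'.2⟩

end Pool.Agent.H33
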