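import Pool.Agent.H33.QDefs

/-! Irreducible projective varieties, and rational maps whose image has dimension at least two. -/

set_option autoImplicit false

open LinearAlgebra.Projectivization MvPolynomial

namespace Pool.Agent.H33

open Pool.Agent.W602.GT Pool.Agent.N155.BB

variable {m n : ℕ} {ι' : Type}

/-- The projective algebraic set `{G = 0}` is irreducible: if the product of two forms vanishes on
it, then one of the two forms does. -/
def IrreducibleSet (G : ι' → MvPolynomial (Fin (m + 1)) ℂ) : Prop :=
  ∀ A B : MvPolynomial (Fin (m + 1)) ℂ, IsForm A → IsForm B →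
    (∀ y ∈ Cone G, eval y (A * B) = 0) →
    (∀ y ∈ Cone G, eval y A = 0) ∨ ∀ y ∈ Cone G, eval y B = 0

/-- The image of the rational map `P` on the projective algebraic set `{G = 0}` has dimension at
least two: two ratios `P_j / P_i`, `P_k / P_i` are algebraically independent on it, that is, for every
nonzero polynomial `Q` in two variables there is a point `y` of the set such that `P_i (y) ≠ 0` and
`Q (P_j (y) / P_i (y), P_k (y) / P_i (y)) ≠ 0`. If the `P_j` are the coordinates, so that `P` is the
identity, this says that the set has dimension at least two. -/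
def TwoDimensional (G : ι' → MvPolynomial (Fin (m + 1)) ℂ)
    (P : Fin (n + 1) → MvPolynomial (Fin (m + 1)) ℂ) : Prop :=
  ∃ i j k : Fin (n + 1), ∀ Q : MvPolynomial (Fin 2) ℂ, Q ≠ 0 →
    ∃ y ∈ Cone G, eval y (P i) ≠ 0 ∧
      eval ![eval y (P j) / eval y (P i), eval y (P k) / eval y (P i)] Q ≠ 0

end Pool.Agent.H33
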