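import Pool.Agent.H33.UB
import Pool.Agent.H33.HGGL
import Pool.Agent.H33.OB
import Pool.Agent.H33.UDefs

/-! The Green-Griffiths-Lang conjecture for generically finite covers. -/

set_option autoImplicit false

open Filter Topology Metric Set MvPolynomial LinearAlgebra.Projectivization

namespace Pool.Agent.H33

open Pool.Agent.Y190.OP Pool.Agent.W602.GT Pool.Agent.N155 Pool.Agent.N155.BB

variable {m n : ℕ} {ι ι' κ' : Type} {G : ι' → MvPolynomial (Fin (m + 1)) ℂ}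
  {P : Fin (n + 1) → MvPolynomial (Fin (m + 1)) ℂ} {H : κ' → MvPolynomial (Fin (m + 1)) ℂ}

/-- a relation between the coordinates of an elliptic curve -/
theorem ell_rel2 {h : ℂ → ℙ ℂ (Fin (m + 1) → ℂ)} (hh : HolMap h) (hp : DoublyPeriodic h)
    (i j0 j1 : Fin (m + 1)) : ∃ Q : MvPolynomial (Fin 2) ℂ, Q ≠ 0 ∧ ∀ z, (h z).rep i ≠ 0 →
      eval ![(h z).rep j0 / (h z).rep i, (h z).rep j1 / (h z).rep i] Q = 0 := by
  obtain ⟨L, hL⟩ := hp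
  have hloc : ∀ z, ∃ g₀ : ℂ → Fin (m + 1) → ℂ, AnalyticAt ℂ g₀ z ∧
      ∀ᶠ w in 𝓝 z, ∃ c : ℂ, c ≠ 0 ∧ (h w).rep = c • g₀ w := by
    intro z
    obtain ⟨V, g₀, hV, hz, hd, hg⟩ := hh z
    refine ⟨g₀, hd.analyticAt (hV.mem_nhds hz), ?_⟩
    filter_upwards [hV.mem_nhds hz] with w hw
    obtain ⟨k1, k2⟩ := hg w hw
    exact mk_rep k1 k2
  have hrat : ∀ (g₀ : Fin (m + 1) → ℂ) (w : ℂ), (∃ c : ℂ, c ≠ 0 ∧ (h w).rep = c • g₀) →
      ∀ j, (h w).rep j / (h w).rep i = g₀ j / g₀ i := by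
    rintro g₀ w ⟨c, hc, h1⟩ j
    rw [h1, Pi.smul_apply, Pi.smul_apply, smul_eq_mul, smul_eq_mul, mul_div_mul_left _ _ hc]
  have hell : ∀ j, (fun z => (h z).rep j / (h z).rep i) ∈ Ell L.ω₁ L.ω₂ := by
    intro j
    rw [mem_Ell]
    refine ⟨fun z => ?_, fun z => ?_, fun z => ?_⟩
    · obtain ⟨g₀, hga, hev⟩ := hloc z
      have h1 : MeromorphicAt (fun w => g₀ w j / g₀ w i) z :=
        ((analyticAt_pi_iff.1 hga) j).meromorphicAt.div
          ((analyticAt_pi_iff.1 hga) i).meromorphicAt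
      refine h1.congr ?_
      filter_upwards [nhdsWithin_le_nhds hev] with w hw
      exact (hrat _ _ hw j).symm
    · rw [hL L.ω₁ (PeriodPair.mem_lattice.2 ⟨1, 0, by simp⟩)]
    · rw [hL L.ω₂ (PeriodPair.mem_lattice.2 ⟨0, 1, by simp⟩)]
  obtain ⟨Q, hQ, hev⟩ := ell_dep L.indep (hell j0) (hell j1)
  refine ⟨Q, hQ, fun z hz => ?_⟩
  have h1 := codis_ev hev z
  obtain ⟨g₀, hga, hgev⟩ := hloc z
  have hzi : g₀ z i ≠ 0 := by
    obtain ⟨c, hc, h2⟩ := hgev.self_of_nhds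
    intro h3
    apply hz
    rw [h2, Pi.smul_apply, h3, smul_zero]
  have h3 : ∀ j, ContinuousAt (fun z => (h z).rep j / (h z).rep i) z := by
    intro j
    have h4 : ContinuousAt (fun w => g₀ w j / g₀ w i) z :=
      ((analyticAt_pi_iff.1 hga) j).continuousAt.div ((analyticAt_pi_iff.1 hga) i).continuousAt hzi
    refine h4.congr ?_
    filter_upwards [hgev] with w hw
    exact (hrat _ _ hw j).symm
  have h4 : ContinuousAt (fun z => eval ![(h z).rep j0 / (h z).rep i,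
      (h z).rep j1 / (h z).rep i] Q) z := by
    have h5 : ContinuousAt (fun z => ![(h z).rep j0 / (h z).rep i,
        (h z).rep j1 / (h z).rep i]) z := by
      rw [continuousAt_pi]
      intro q
      fin_cases q
      · exact h3 j0
      · exact h3 j1
    exact ContinuousAt.comp (g := fun v : Fin 2 → ℂ => eval v Q)
      (MvPolynomial.continuous_eval Q).continuousAt h5
  refine tendsto_nhds_unique (h4.tendsto.mono_left nhdsWithin_le_nhds)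
    ((tendsto_const_nhds (x := (0 : ℂ)) (f := 𝓝[≠] z)).congr' ?_)
  filter_upwards [h1] with w hw
  exact hw.symm

/-- a form which vanishes on finitely many elliptic curves -/
theorem exists_form3 (hG2 : TwoDimensional G P) (S : Finset (ℂ → ℙ ℂ (Fin (n + 1) → ℂ)))
    (hS : ∀ h ∈ S, HolMap h ∧ DoublyPeriodic h) :
    ∃ E : MvPolynomial (Fin (n + 1)) ℂ, IsForm E ∧ (∃ y ∈ Cone G, eval (ratVal P y) E ≠ 0) ∧
      ∀ h ∈ S, ∀ z, eval (h z).rep E = 0 := by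
  classical
  obtain ⟨i, j0, j1, hdim⟩ := hG2
  choose! Q hQ0 hQ using fun h (hh : h ∈ S) => ell_rel2 (hS h hh).1 (hS h hh).2 i j0 j1
  set R : MvPolynomial (Fin 2) ℂ := ∏ h ∈ S, Q h with hR
  have hR0 : R ≠ 0 := Finset.prod_ne_zero_iff.2 fun h hh => hQ0 h hh
  obtain ⟨y, hy, hyi, hyR⟩ := hdim R hR0
  refine ⟨hmz i j0 j1 R, hmz_form _ _ _ _, ⟨y, hy, fun h1 => ?_⟩, fun h hh z => ?_⟩
  · have h0 : ratVal P y i ≠ 0 := hyi
    rw [hmz_eval _ _ _ _ h0] at h1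
    rcases mul_eq_zero.1 h1 with h2 | h2
    · exact pow_ne_zero _ h0 h2
    · exact hyR h2
  · by_cases hi : (h z).rep i = 0
    · exact hmz_zero _ _ _ _ hi
    · have h3 : eval ![(h z).rep j0 / (h z).rep i, (h z).rep j1 / (h z).rep i] R = 0 := by
        rw [hR, map_prod]
        exact Finset.prod_eq_zero hh (hQ h hh z hi)
      rw [hmz_eval _ _ _ _ hi, h3, mul_zero]

theorem exists_form2 (hG2 : TwoDimensional G fun j : Fin (m + 1) => X j)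
    (S : Finset (ℂ → ℙ ℂ (Fin (m + 1) → ℂ))) (hS : ∀ h ∈ S, HolMap h ∧ DoublyPeriodic h) :
    ∃ E : MvPolynomial (Fin (m + 1)) ℂ, IsForm E ∧ (¬ ∀ y ∈ Cone G, eval y E = 0) ∧
      ∀ h ∈ S, ∀ z, eval (h z).rep E = 0 := by
  obtain ⟨E, hE, ⟨y, hy, hyE⟩, h⟩ := exists_form3 hG2 S hS
  refine ⟨E, hE, fun hcon => hyE ?_, h⟩
  have h1 : ratVal (fun j : Fin (m + 1) => (X j : MvPolynomial (Fin (m + 1)) ℂ)) y = y := by
    funext j
    exact eval_X j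
  rw [h1]
  exact hcon y hy

variable {F : ι → MvPolynomial (Fin (n + 1)) ℂ} {d : ℕ}
  {κ : Type} {η : κ → (Fin (n + 1) → ℂ) → (Fin (n + 1) → ℂ) → (Fin (n + 1) → ℂ) → ℂ}
  {Φ : (Fin (n + 1) → ℂ) → (Fin (n + 1) → ℂ) → ℝ} {ν : ℕ}

/-- **Entire curves in generically finite covers.** -/
theorem cover_factor {S : Finset (ℂ → ℙ ℂ (Fin (n + 1) → ℂ))} (hF : ∀ i, IsForm (F i))
    (hS : ∀ h ∈ S, DoublyPeriodic h)
    (hfac : ∀ f, HolIn F f → (∃ z w, f z ≠ f w) →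
        ∃ h ∈ S, ∃ φ : ℂ → ℂ, Differentiable ℂ φ ∧ ∀ z, f z = h (φ z))
    (hP : RationalMap G F P) (hH : ∀ k, IsForm (H k)) (hfin : FiniteOff G P H) :
    ∃ S' : Finset (ℂ → ℙ ℂ (Fin (m + 1) → ℂ)),
      (∀ h ∈ S', HolIn G h ∧ DoublyPeriodic h ∧ (∃ z w, h z ≠ h w) ∧
        ∃ h₀ ∈ S, ∀ z, ∃ c : ℂ, ratVal P (h z).rep = c • (h₀ z).rep) ∧
      ∀ g, HolIn G g → (∃ z k, eval (g z).rep (H k) ≠ 0) → (∃ z w, g z ≠ g w) →
        ∃ h ∈ S', ∃ φ : ℂ → ℂ, Differentiable ℂ φ ∧ ∀ z, g z = h (φ z) := by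
  classical
  obtain ⟨e, he⟩ := hP.form
  set A : Set (ℂ → ℙ ℂ (Fin (m + 1) → ℂ)) :=
    {g | (∃ h ∈ S, g ∈ LiftsOf G P h ∧ Off H g) ∧ ∃ z w, g z ≠ g w} with hA
  have hAf : A.Finite := by
    have h1 : (⋃ h ∈ S, {g | g ∈ LiftsOf G P h ∧ Off H g}).Finite :=
      S.finite_toSet.biUnion fun h _ => off_finite hH hfin h
    refine h1.subset ?_
    rintro g ⟨⟨h, hh, hg⟩, -⟩
    simp only [Set.mem_iUnion]
    exact ⟨h, hh, hg⟩
  refine ⟨hAf.toFinset, fun g hg => ?_, fun g hg hoff hnc => ?_⟩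
  · obtain ⟨⟨h, hh, hgl, ho⟩, h2⟩ := hAf.mem_toFinset.1 hg
    exact ⟨hgl.1, off_periodic hH hfin (hS h hh) hgl ho, h2, h, hh, hgl.2⟩
  · obtain ⟨z₁, k, hk⟩ := hoff
    have h1 : evP P (g z₁).rep ≠ 0 := hfin.defined _ (hg.2 z₁) ⟨k, hk⟩
    obtain ⟨f, hf, hfg⟩ := comp_ext he hg.1 h1 (F := F) (fun z hz => hP.maps _ (hg.2 z) hz) hF
    have hfg' : ∀ z, ∃ c : ℂ, ratVal P (g z).rep = c • (f z).rep := by
      intro z
      by_cases h2 : ratVal P (g z).rep = 0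
      · exact ⟨0, by rw [h2, zero_smul]⟩
      · exact hfg z h2
    have hfnc : ∃ z w, f z ≠ f w := by
      by_contra hcon
      push Not at hcon
      obtain ⟨z, w, hzw⟩ := hnc
      apply hzw
      refine const_of_comp hH hfin hg ⟨z₁, k, hk⟩ (x := (f 0).rep) (fun z => ?_) z w
      obtain ⟨c, hc⟩ := hfg' z
      exact ⟨c, by rw [← hcon z 0]; exact hc⟩
    obtain ⟨h, hh, φ, hφ, hfh⟩ := hfac f hf hfnc
    have hφn : ∃ z₀, deriv φ z₀ ≠ 0 := by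
      by_contra hcon
      push Not at hcon
      obtain ⟨z, w, hzw⟩ := hfnc
      apply hzw
      rw [hfh z, hfh w, is_const_of_deriv_eq_zero hφ hcon z w]
    obtain ⟨z₀, hz₀⟩ := hφn
    obtain ⟨h', hl, ho, l, hgl⟩ := lift_factor hH hfin hg ⟨z₁, k, hk⟩ (hS h hh) hφ hz₀ fun z => by
      obtain ⟨c, hc⟩ := hfg' z
      exact ⟨c, by rw [← hfh z]; exact hc⟩
    have hh'n : ∃ z w, h' z ≠ h' w := by
      obtain ⟨z, w, hzw⟩ := hnc
      exact ⟨φ z + l, φ w + l, by rw [← hgl, ← hgl]; exact hzw⟩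
    exact ⟨h', hAf.mem_toFinset.2 ⟨⟨h, hh, hl, ho⟩, hh'n⟩, fun z => φ z + l, hφ.add_const l, hgl⟩

/-- **The Green-Griffiths-Lang conjecture for generically finite covers.** -/
theorem cover_ggl [Finite κ] (hX : ProjManifold F d) (hη : PositiveTwoForms (Cone F) ∅ d η)
    (hν : ν ≠ 0) (hh : HomForms (Cone F) ν η) (hΦ : NonposMetric (Cone F) d Φ)
    (hnd : Nondegenerate (Cone F) d Φ)
    (hr : HermitianMetric (Cone F) d Φ ∨ UniformlyConvex (Cone F) d Φ)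
    (hH : ∀ k, IsForm (H k)) (hP : RationalMap G F P) (hfin : FiniteOff G P H) :
    (∃ S : Finset (ℂ → ℙ ℂ (Fin (m + 1) → ℂ)),
      (∀ h ∈ S, HolIn G h ∧ DoublyPeriodic h ∧ ∃ z w, h z ≠ h w) ∧
      ∀ g, HolIn G g → (∃ z k, eval (g z).rep (H k) ≠ 0) → (∃ z w, g z ≠ g w) →
        ∃ h ∈ S, ∃ φ : ℂ → ℂ, Differentiable ℂ φ ∧ ∀ z, g z = h (φ z)) ∧
    (IrreducibleSet G → TwoDimensional G (fun j : Fin (m + 1) => X j) →
      (∃ y ∈ Cone G, ∃ k, eval y (H k) ≠ 0) →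
      ∃ E : MvPolynomial (Fin (m + 1)) ℂ, IsForm E ∧ (∃ y ∈ Cone G, eval y E ≠ 0) ∧
        ∀ g, HolIn G g → (∃ z w, g z ≠ g w) → ∀ z, eval (g z).rep E = 0) := by
  obtain ⟨S, h1, h2, -⟩ := ggl hX hη hν hh hΦ hnd hr
  obtain ⟨S', h3, h4⟩ := cover_factor hX.form (fun h hh => (h1 h hh).2.1) h2 hP hH hfin
  refine ⟨⟨S', fun h hh => ⟨(h3 h hh).1, (h3 h hh).2.1, (h3 h hh).2.2.1⟩, h4⟩, ?_⟩
  rintro hirr hdim ⟨y₀, hy₀, k, hk⟩
  obtain ⟨E, hE, hE1, hE2⟩ := exists_form2 hdim S' fun h hh => ⟨(h3 h hh).1.1, (h3 h hh).2.1⟩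
  have hne : ¬ ∀ y ∈ Cone G, eval y (H k * E) = 0 := by
    intro hcon
    rcases hirr (H k) E (hH k) hE hcon with h5 | h5
    · exact hk (h5 y₀ hy₀)
    · exact hE1 h5
  push Not at hne
  refine ⟨H k * E, ?_, hne, fun g hg hnc z => ?_⟩
  · obtain ⟨a, ha⟩ := hH k
    obtain ⟨b, hb⟩ := hE
    exact ⟨a + b, ha.mul hb⟩
  · rw [map_mul]
    by_cases hoff : ∃ z, eval (g z).rep (H k) ≠ 0
    · obtain ⟨z₁, hz₁⟩ := hoff
      obtain ⟨h, hh, φ, -, hgh⟩ := h4 g hg ⟨z₁, k, hz₁⟩ hnc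
      rw [hgh z, hE2 h hh (φ z), mul_zero]
    · push Not at hoff
      rw [hoff z, zero_mul]

/-- products of three forms on irreducible sets -/
theorem IrreducibleSet.three (hirr : IrreducibleSet G) {A B D : MvPolynomial (Fin (m + 1)) ℂ}
    (hA : IsForm A) (hB : IsForm B) (hD : IsForm D) (hA0 : ∃ y ∈ Cone G, eval y A ≠ 0)
    (hB0 : ∃ y ∈ Cone G, eval y B ≠ 0) (hD0 : ∃ y ∈ Cone G, eval y D ≠ 0) :
    IsForm (A * B * D) ∧ ∃ y ∈ Cone G, eval y (A * B * D) ≠ 0 := by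
  have hAB : IsForm (A * B) := by
    obtain ⟨a, ha⟩ := hA
    obtain ⟨b, hb⟩ := hB
    exact ⟨a + b, ha.mul hb⟩
  refine ⟨?_, ?_⟩
  · obtain ⟨a, ha⟩ := hAB
    obtain ⟨b, hb⟩ := hD
    exact ⟨a + b, ha.mul hb⟩
  · by_contra hcon
    push Not at hcon
    rcases hirr _ _ hAB hD hcon with h | h
    · rcases hirr _ _ hA hB h with h' | h'
      · obtain ⟨y, hy, hne⟩ := hA0
        exact hne (h' y hy)
      · obtain ⟨y, hy, hne⟩ := hB0
        exact hne (h' y hy)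
    · obtain ⟨y, hy, hne⟩ := hD0
      exact hne (h y hy)

/-- **The Green-Griffiths-Lang conjecture for fibre spaces.** -/
theorem fibre_ggl [Finite κ] (hX : ProjManifold F d) (hη : PositiveTwoForms (Cone F) ∅ d η)
    (hν : ν ≠ 0) (hh : HomForms (Cone F) ν η) (hΦ : NonposMetric (Cone F) d Φ)
    (hnd : Nondegenerate (Cone F) d Φ)
    (hr : HermitianMetric (Cone F) d Φ ∨ UniformlyConvex (Cone F) d Φ)
    (hP : RationalMap G F P) (hirr : IrreducibleSet G) (hdim : TwoDimensional G P)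
    {K : MvPolynomial (Fin (m + 1)) ℂ} (hK : IsForm K) (hK0 : ∃ y ∈ Cone G, eval y K ≠ 0)
    (hKf : ∀ g, HolIn G g → (∃ z w, g z ≠ g w) → (∃ z, ratVal P (g z).rep ≠ 0) →
      (∃ x : Fin (n + 1) → ℂ, ∀ z, ∃ c : ℂ, ratVal P (g z).rep = c • x) →
      ∀ z, eval (g z).rep K = 0) :
    ∃ E : MvPolynomial (Fin (m + 1)) ℂ, IsForm E ∧ (∃ y ∈ Cone G, eval y E ≠ 0) ∧
      ∀ g, HolIn G g → (∃ z w, g z ≠ g w) → ∀ z, eval (g z).rep E = 0 := by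
  obtain ⟨e, he⟩ := hP.form
  obtain ⟨S, h1, h2, -⟩ := ggl hX hη hν hh hΦ hnd hr
  obtain ⟨E, hE, ⟨y₀, hy₀, hyE⟩, hE2⟩ := exists_form3 hdim S
    fun h hh => ⟨(h1 h hh).1.1, (h1 h hh).2.1⟩
  obtain ⟨i, j, k, hijk⟩ := hdim
  obtain ⟨y₁, hy₁, hyi, -⟩ := hijk 1 one_ne_zero
  obtain ⟨b, hb⟩ := hE
  have hEP : IsForm (aeval P E) := ⟨e * b, hb.aeval P he⟩
  obtain ⟨h3, h4⟩ := hirr.three ⟨e, he i⟩ hK hEP ⟨y₁, hy₁, hyi⟩ hK0
    ⟨y₀, hy₀, by rw [eval_comp]; exact hyE⟩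
  refine ⟨P i * K * aeval P E, h3, h4, fun g hg hnc z => ?_⟩
  rw [map_mul, map_mul, eval_comp]
  by_cases h0 : ∃ z₁, evP P (g z₁).rep ≠ 0
  · obtain ⟨z₁, hz₁⟩ := h0
    obtain ⟨f, hf, hfg⟩ := comp_ext he hg.1 hz₁ (F := F) (fun z hz => hP.maps _ (hg.2 z) hz) hX.form
    have hfg' : ∀ z, ∃ c : ℂ, ratVal P (g z).rep = c • (f z).rep := by
      intro z
      by_cases h2 : ratVal P (g z).rep = 0
      · exact ⟨0, by rw [h2, zero_smul]⟩
      · exact hfg z h2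
    by_cases hfc : ∃ z w, f z ≠ f w
    · obtain ⟨h, hh', φ, -, hfh⟩ := h2 f hf hfc
      obtain ⟨c, hc⟩ := hfg' z
      have h5 : eval (fun j => eval (g z).rep (P j)) E = 0 := by
        change eval (ratVal P (g z).rep) E = 0
        rw [hc, eval_smul hb, hfh z, hE2 h hh' (φ z), mul_zero]
      rw [h5, mul_zero]
    · push Not at hfc
      rw [hKf g hg hnc ⟨z₁, hz₁⟩ ⟨(f 0).rep, fun z => by
        obtain ⟨c, hc⟩ := hfg' z
        exact ⟨c, by rw [hc, hfc z 0]⟩⟩ z, mul_zero, zero_mul]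
  · push Not at h0
    have h5 : eval (g z).rep (P i) = 0 := congrFun (h0 z) i
    rw [h5, zero_mul, zero_mul]

end Pool.Agent.H33
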