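import Pool.Agent.H33.PC

/-! An integral inequality for metrics whose quotient has zeros. -/

set_option autoImplicit false

open Filter Topology Metric Set MvPolynomial MeasureTheory LinearAlgebra.Projectivization
open scoped UpperHalfPlane MatrixGroups ENNReal

namespace Pool.Agent.H33

open Pool.Agent.Y190.OP Pool.Agent.W602.GT Pool.Agent.N155 Pool.Agent.N155.BB
open Real (circleAverage)

theorem LogSubharmonic.rpow {u : ℂ → ℝ} {V : Set ℂ} (h : LogSubharmonic u V) {β : ℝ}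
    (hβ : 0 < β) : LogSubharmonic (fun z => u z ^ β) V := by
  refine ⟨h.cont.rpow_const fun _ _ => Or.inr hβ.le,
    fun z hz => Real.rpow_nonneg (h.nonneg z hz) β, fun a r δ hr hV hδ => ?_⟩
  have key : ∀ z ∈ V, Real.log (max (u z ^ β) δ) = β * Real.log (max (u z) (δ ^ β⁻¹)) := by
    intro z hz
    have h0 := h.nonneg z hz
    have h1 : 0 < δ ^ β⁻¹ := Real.rpow_pos_of_pos hδ _
    have h2 : (δ ^ β⁻¹) ^ β = δ := by
      rw [← Real.rpow_mul hδ.le, inv_mul_cancel₀ hβ.ne', Real.rpow_one]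
    have h3 : max (u z ^ β) δ = max (u z) (δ ^ β⁻¹) ^ β := by
      rcases le_total (u z) (δ ^ β⁻¹) with h4 | h4
      · have h5 := Real.rpow_le_rpow h0 h4 hβ.le
        rw [h2] at h5
        rw [max_eq_right h4, h2, max_eq_right h5]
      · have h5 := Real.rpow_le_rpow h1.le h4 hβ.le
        rw [h2] at h5
        rw [max_eq_left h4, max_eq_left h5]
    rw [h3, Real.log_rpow (h1.trans_le (le_max_right _ _))]
  have h1 := h.mean a r (δ ^ β⁻¹) hr hV (Real.rpow_pos_of_pos hδ _)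
  have h2 : circleAverage (fun z => Real.log (max (u z ^ β) δ)) a r =
      β * circleAverage (fun z => Real.log (max (u z) (δ ^ β⁻¹))) a r := by
    have h3 : circleAverage (fun z => Real.log (max (u z ^ β) δ)) a r =
        circleAverage (fun z => β • Real.log (max (u z) (δ ^ β⁻¹))) a r := by
      apply Real.circleAverage_congr_sphere
      intro z hz
      rw [abs_of_pos hr] at hz
      exact key z (hV (sphere_subset_closedBall hz))
    rw [h3, Real.circleAverage_fun_smul, smul_eq_mul]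
  rw [h2, key a (hV (mem_closedBall_self hr.le))]
  exact mul_le_mul_of_nonneg_left h1 hβ.le

/-- mean values of powers -/
theorem LogSubharmonic.mean_rpow {u : ℂ → ℝ} {V : Set ℂ} (h : LogSubharmonic u V) {α : ℝ}
    (hα : 0 < α) {a : ℂ} {r : ℝ} (hr : 0 < r) (hV : closedBall a r ⊆ V) :
    u a ^ α ≤ circleAverage (fun z => u z ^ α) a r := by
  have h1 := (h.rpow (half_pos hα)).mean_sq hr hV
  have key : ∀ z ∈ V, (u z ^ (α / 2)) ^ 2 = u z ^ α := by
    intro z hz
    rw [← Real.rpow_natCast, ← Real.rpow_mul (h.nonneg z hz), Nat.cast_ofNat,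
      div_mul_cancel₀ _ two_ne_zero]
  rw [key a (hV (mem_closedBall_self hr.le))] at h1
  refine h1.trans (le_of_eq ?_)
  apply Real.circleAverage_congr_sphere
  intro z hz
  rw [abs_of_pos hr] at hz
  exact key z (hV (sphere_subset_closedBall hz))

variable {Γ : Subgroup SL(2, ℝ)} {D : Set ℍ}

/-- the mean value inequality for powers of a function with a lower bound of the Laplacian -/
theorem pow_step {Θ : ℍ → ℝ} (hΘc : Continuous Θ) (hΘ0 : ∀ z, 0 ≤ Θ z) {c : ℂ → ℝ} {m₀ α s t : ℝ}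
    (hα : 0 < α) (ht : 0 < t) (hts : t < s) (hs : s ≤ 1) (z : ℍ)
    (hasym : ∀ ζ ∈ ball (0 : ℂ) s, Θ (cayH z ζ) ≠ 0 →
      Asym (fun x => Real.log (Θ (cayH z x))) ζ (c ζ))
    (hc : ∀ ζ ∈ ball (0 : ℂ) s, m₀ < c ζ) :
    Θ z ^ α * (1 + α * m₀ * t ^ 2) ≤ circleAverage (fun ζ => Θ (cayH z ζ) ^ α) 0 t := by
  have hsub : ball (0 : ℂ) s ⊆ ball 0 1 := ball_subset_ball hs
  have hcu : ContinuousOn (fun ζ => Θ (cayH z ζ)) (ball 0 1) :=
    hΘc.comp_continuousOn (continuousOn_cayH z)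
  have hE : Continuous fun ζ : ℂ => Real.exp ((-m₀) * ‖ζ‖ ^ 2) := by fun_prop
  have hq : Continuous fun z : ℂ => (-m₀) * ‖z‖ ^ 2 := by fun_prop
  have h1 : LogSubharmonic (fun ζ => Θ (cayH z ζ) * Real.exp ((-m₀) * ‖ζ‖ ^ 2)) (ball 0 s) := by
    refine LogSubharmonic.of_local isOpen_ball ((hcu.mono hsub).mul hE.continuousOn)
      (fun ζ _ => mul_nonneg (hΘ0 _) (Real.exp_pos _).le) fun ζ hζ hpos => ?_
    have h0 : 0 < Θ (cayH z ζ) := pos_of_mul_pos_left hpos (Real.exp_pos _).le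
    have hcat : ∀ᶠ x in 𝓝 ζ, ContinuousAt (fun ζ => Θ (cayH z ζ)) x := by
      filter_upwards [isOpen_ball.mem_nhds (hsub hζ)] with x hx
      exact hcu.continuousAt (isOpen_ball.mem_nhds hx)
    have hpe : ∀ᶠ x in 𝓝 ζ, 0 < Θ (cayH z x) := hcat.self_of_nhds.eventually (lt_mem_nhds h0)
    have k1 : Asym (fun z : ℂ => ‖z‖ ^ 2) ζ 1 := by
      have := asym_sq (f := fun z : ℂ => z) (a := ζ) analyticAt_id
      simpa using this
    have k2 := (hasym ζ hζ h0.ne').add (k1.const_mul (-m₀))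
      (by
        filter_upwards [hcat, hpe] with x h3 h4
        exact h3.log h4.ne')
      (Eventually.of_forall fun z => hq.continuousAt)
    have k3 : SubAt (fun z_1 => Real.log (Θ (cayH z z_1)) + -m₀ * ‖z_1‖ ^ 2) ζ := k2.subAt (by
      have := hc ζ hζ
      linarith)
    have k4 := (SubC.congr ⟨by
      filter_upwards [hcat, hpe] with x h3 h4
      exact (h3.log h4.ne').add hq.continuousAt, k3⟩ (w := fun x =>
        Real.log (Θ (cayH z x) * Real.exp ((-m₀) * ‖x‖ ^ 2))) (by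
      filter_upwards [hpe] with x h4
      rw [Real.log_mul h4.ne' (Real.exp_pos _).ne', Real.log_exp]))
    exact k4.sub
  have h2 := h1.mean_rpow hα ht (closedBall_subset_ball hts)
  have h3 : circleAverage (fun ζ => (Θ (cayH z ζ) * Real.exp ((-m₀) * ‖ζ‖ ^ 2)) ^ α) 0 t =
      Real.exp (-(α * m₀ * t ^ 2)) * circleAverage (fun ζ => Θ (cayH z ζ) ^ α) 0 t := by
    have h4 : circleAverage (fun ζ => (Θ (cayH z ζ) * Real.exp ((-m₀) * ‖ζ‖ ^ 2)) ^ α) 0 t =
        circleAverage (fun ζ => Real.exp (-(α * m₀ * t ^ 2)) • Θ (cayH z ζ) ^ α) 0 t := by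
      apply Real.circleAverage_congr_sphere
      intro ζ hζ
      rw [abs_of_pos ht, mem_sphere_zero_iff_norm] at hζ
      simp only
      rw [Real.mul_rpow (hΘ0 _) (Real.exp_pos _).le, ← Real.exp_mul, hζ, smul_eq_mul, mul_comm]
      congr 2
      ring
    rw [h4, Real.circleAverage_fun_smul, smul_eq_mul]
  rw [h3] at h2
  simp only [cayH_zero, norm_zero] at h2
  have e0 : -m₀ * (0 : ℝ) ^ 2 = 0 := by ring
  rw [e0, Real.exp_zero, mul_one] at h2
  set A := circleAverage (fun ζ => Θ (cayH z ζ) ^ α) 0 t with hA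
  have hW0 : 0 ≤ Θ z ^ α := Real.rpow_nonneg (hΘ0 z) α
  have h5 : Θ z ^ α * Real.exp (α * m₀ * t ^ 2) ≤ A := by
    have h6 := mul_le_mul_of_nonneg_right h2 (Real.exp_pos (α * m₀ * t ^ 2)).le
    have h7 : Real.exp (-(α * m₀ * t ^ 2)) * Real.exp (α * m₀ * t ^ 2) = 1 := by
      rw [← Real.exp_add, neg_add_cancel, Real.exp_zero]
    calc Θ z ^ α * Real.exp (α * m₀ * t ^ 2) ≤
        Real.exp (-(α * m₀ * t ^ 2)) * A * Real.exp (α * m₀ * t ^ 2) := h6
      _ = (Real.exp (-(α * m₀ * t ^ 2)) * Real.exp (α * m₀ * t ^ 2)) * A := by ring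
      _ = A := by rw [h7, one_mul]
  refine le_trans ?_ h5
  apply mul_le_mul_of_nonneg_left _ hW0
  have := Real.add_one_le_exp (α * m₀ * t ^ 2)
  linarith

end Pool.Agent.H33
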