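import Pool.Agent.H33.VA

/-! The integral inequality. -/

set_option autoImplicit false

open Filter Topology Metric Set MvPolynomial MeasureTheory LinearAlgebra.Projectivization
open scoped UpperHalfPlane MatrixGroups ENNReal

namespace Pool.Agent.H33

open Real (circleAverage)

variable {Γ : Subgroup SL(2, ℝ)} {D : Set ℍ}

/-- **The integral inequality.** -/
theorem int_le (hD : CompactDomain Γ D) {s₁ s₂ Θ : ℍ → ℝ} {N : ℝ} (hN : 0 ≤ N)
    (hs1c : Continuous s₁) (hs2c : Continuous s₂)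
    (hs1i : ∀ γ ∈ Γ, ∀ z : ℍ, s₁ (γ • z) = s₁ z) (hs2i : ∀ γ ∈ Γ, ∀ z : ℍ, s₂ (γ • z) = s₂ z)
    (hs10 : ∀ z, 0 ≤ s₁ z) (hs20 : ∀ z, 0 ≤ s₂ z)
    (hΘc : Continuous Θ) (hΘi : ∀ γ ∈ Γ, ∀ z : ℍ, Θ (γ • z) = Θ z) (hΘ0 : ∀ z, 0 ≤ Θ z)
    (hnull : ∀ᵐ z : ℍ, Θ z ≠ 0)
    (hasym : ∀ (z : ℍ), ∀ ζ ∈ ball (0 : ℂ) 1, Θ (cayH z ζ) ≠ 0 →
      Asym (fun x => Real.log (Θ (cayH z x))) ζ
        (4 * (s₁ (cayH z ζ) - N * s₂ (cayH z ζ)) / (1 - ‖ζ‖ ^ 2) ^ 2)) :
    ∫⁻ z in D, ENNReal.ofReal (s₁ z) ≤ ENNReal.ofReal N * ∫⁻ z in D, ENNReal.ofReal (s₂ z) := by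
  obtain ⟨r, hr, hΓ⟩ := hD.cocompact
  obtain ⟨B1, hB1⟩ := bdd_of_cocompact hΓ hs1c hs1i
  obtain ⟨B2, hB2⟩ := bdd_of_cocompact hΓ hs2c hs2i
  obtain ⟨C0, hC0⟩ := bdd_of_cocompact hΓ hΘc hΘi
  set C : ℝ := |C0| + 1 with hC
  have hCpos : 0 < C := by positivity
  have hΘC : ∀ z, Θ z / C ≤ 1 := fun z => by
    rw [div_le_one hCpos]
    have := (hC0 z).trans (le_abs_self C0)
    linarith
  set q : ℍ → ℝ := fun z => 4 * (s₁ z - N * s₂ z) with hq
  have hqc : Continuous q := by
    rw [hq]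
    fun_prop
  have hqi : ∀ γ ∈ Γ, ∀ z : ℍ, q (γ • z) = q z := fun γ hγ z => by
    rw [hq]
    simp only
    rw [hs1i γ hγ, hs2i γ hγ]
  set B : ℝ := 4 * (|B1| + N * |B2|) with hB
  have hB0 : 0 ≤ B := by positivity
  have hB20 : ∀ z, 4 * (N * s₂ z) ≤ B := fun z => by
    have h1 := (hB2 z).trans (le_abs_self B2)
    have h2 := abs_nonneg B1
    have h3 := mul_le_mul_of_nonneg_left h1 hN
    rw [hB]
    linarith
  have hqB : ∀ z, |q z| ≤ B := fun z => by
    have h1 := (hB2 z).trans (le_abs_self B2)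
    have h2 := (hB1 z).trans (le_abs_self B1)
    have h3 := mul_le_mul_of_nonneg_left h1 hN
    have h4 := mul_nonneg hN (hs20 z)
    have h5 := hs10 z
    have h6 : 0 ≤ N * |B2| := by positivity
    have h7 := abs_nonneg B1
    rw [hq, abs_le]
    simp only
    constructor <;> linarith
  have hv := hD.volume_lt_top.ne
  -- the powers
  have key : ∀ α : ℝ, 0 < α → ∀ η : ℝ, 0 < η → η ≤ 1 →
      ∫⁻ z in D, ENNReal.ofReal ((Θ z / C) ^ α * q z + B) ≤
      ENNReal.ofReal (B + 3 * η) * volume D := by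
    intro α hα η hη hη1
    obtain ⟨ρ₁, hρ₁, h1⟩ := unif_of_cocompact hΓ hqc hqi hη
    set ρ : ℝ := min ρ₁ (min 1 (η / (16 * (B + 1)))) with hρ
    have hρ0 : 0 < ρ := by positivity
    have hρ1 : ρ ≤ ρ₁ := min_le_left _ _
    have hρ2 : ρ ≤ 1 := (min_le_right _ _).trans (min_le_left _ _)
    have hρ3 : ρ ≤ η / (16 * (B + 1)) := (min_le_right _ _).trans (min_le_right _ _)
    have hdc : Continuous fun z => Θ z / C := hΘc.div_const C
    have hd0 : ∀ z, 0 ≤ Θ z / C := fun z => div_nonneg (hΘ0 z) hCpos.le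
    have hWc : Continuous fun z => (Θ z / C) ^ α := hdc.rpow_const fun _ => Or.inr hα.le
    have hW0 : ∀ z, 0 ≤ (Θ z / C) ^ α := fun z => Real.rpow_nonneg (hd0 z) α
    have hW1 : ∀ z, (Θ z / C) ^ α ≤ 1 := fun z => Real.rpow_le_one (hd0 z) (hΘC z) hα.le
    have hWq : ∀ z, |(Θ z / C) ^ α * q z| ≤ B := fun z => by
      rw [abs_mul, abs_of_nonneg (hW0 z)]
      calc (Θ z / C) ^ α * |q z| ≤ 1 * B := mul_le_mul (hW1 z) (hqB z) (abs_nonneg _) zero_le_one
        _ = B := one_mul B
    have main := avg_ineq hD hρ0 (W := fun z => (Θ z / C) ^ α) (B := 1) (K := α * (B + 3 * η))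
      hWc hW0 hW1 (fun γ hγ z => by
        change (Θ (γ • z) / C) ^ α = _
        rw [hΘi γ hγ])
      (c := fun z => α * ((Θ z / C) ^ α * q z + B))
      (((hWc.mul hqc).add continuous_const).const_mul α).measurable
      (fun z => by
        have := (abs_le.1 (hWq z)).1
        exact mul_nonneg hα.le (by linarith)) (by positivity) fun z t ht => ?_
    · have e1 : ∀ x : ℝ, ENNReal.ofReal (α * x) = ENNReal.ofReal α * ENNReal.ofReal x := fun x =>
        ENNReal.ofReal_mul hα.le
      simp only [e1] at main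
      rw [lintegral_const_mul' _ _ ENNReal.ofReal_ne_top, mul_assoc] at main
      exact (ENNReal.mul_le_mul_iff_right (ENNReal.ofReal_pos.2 hα).ne' ENNReal.ofReal_ne_top).1 main
    · have ht0 := ht.1
      have ht1 : t < 1 := ht.2.trans (Real.tanh_lt_one _)
      have htρ : Real.tanh (ρ / 2) ≤ ρ := by
        have := tanh_le (show 0 ≤ ρ / 2 by positivity)
        linarith
      have hs1 : Real.tanh (ρ / 2) ≤ 1 := (Real.tanh_lt_one _).le
      have hst := pow_step hΘc hΘ0 (m₀ := q z - 3 * η) hα ht0 ht.2 hs1 z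
        (fun ζ hζ h0 => hasym z ζ (ball_subset_ball hs1 hζ) h0)
        (fun ζ hζ => by
          have hζt : ‖ζ‖ < Real.tanh (ρ / 2) := mem_ball_zero_iff.1 hζ
          have k1 : dist z (cayH z ζ) < ρ₁ := by
            have := cay_dist z (ρ := ρ) (ζ := ζ) hζt
            exact this.trans_le hρ1
          have k2 := abs_lt.1 (h1 z _ k1)
          have k3 := abs_le.1 (hqB (cayH z ζ))
          have k4 : 4 * (s₁ (cayH z ζ) - N * s₂ (cayH z ζ)) = q (cayH z ζ) := rfl
          rw [k4]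
          have k5 : ‖ζ‖ ^ 2 ≤ η / (16 * (B + 1)) := by
            have a1 := norm_nonneg ζ
            have a2 : ‖ζ‖ ^ 2 ≤ ‖ζ‖ := by nlinarith
            linarith
          have k6 : ‖ζ‖ ^ 2 * (16 * (B + 1)) ≤ η := by
            rwa [le_div_iff₀ (by positivity)] at k5
          set x : ℝ := ‖ζ‖ ^ 2 with hx
          have x0 : 0 ≤ x := sq_nonneg _
          have x1 : x ≤ 1 / 16 := by nlinarith
          have k7 : 0 < (1 - x) ^ 2 := by
            have : 0 < 1 - x := by linarith
            positivity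
          rw [lt_div_iff₀ k7]
          set Q := q (cayH z ζ) with hQ
          have k8 : q z - η < Q := by linarith
          have k9 : (q z - 3 * η) * (1 - x) ^ 2 ≤ (q z - 3 * η) + 3 * (B + 3) * x := by
            have b1 := (abs_le.1 (hqB z))
            have b2 : (1 - x) ^ 2 = 1 - x * (2 - x) := by ring
            have b3 : 0 ≤ x * (2 - x) := mul_nonneg x0 (by linarith)
            have b4 : x * (2 - x) ≤ 2 * x := by nlinarith
            have b5 : -(q z - 3 * η) ≤ B + 3 := by linarith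
            have b6 : -(q z - 3 * η) * (x * (2 - x)) ≤ (B + 3) * (x * (2 - x)) :=
              mul_le_mul_of_nonneg_right b5 b3
            have b7 : (B + 3) * (x * (2 - x)) ≤ (B + 3) * (2 * x) :=
              mul_le_mul_of_nonneg_left b4 (by positivity)
            have b8 : 0 ≤ (B + 3) * x := by positivity
            rw [b2]
            nlinarith
          have k10 : 3 * (B + 3) * x < 2 * η := by
            have b1 : 3 * (B + 3) * x ≤ x * (16 * (B + 1)) := by nlinarith [mul_nonneg hB0 x0]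
            linarith
          linarith)
      have e1 : circleAverage (fun ζ => (Θ (cayH z ζ) / C) ^ α) 0 t =
          (C ^ α)⁻¹ * circleAverage (fun ζ => Θ (cayH z ζ) ^ α) 0 t := by
        have k1 : (fun ζ => (Θ (cayH z ζ) / C) ^ α) =
            fun ζ => (C ^ α)⁻¹ • Θ (cayH z ζ) ^ α := by
          funext ζ
          rw [Real.div_rpow (hΘ0 _) hCpos.le, smul_eq_mul, div_eq_mul_inv, mul_comm]
        rw [k1, Real.circleAverage_fun_smul, smul_eq_mul]
      have hCα : 0 < C ^ α := Real.rpow_pos_of_pos hCpos α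
      have hWz : (Θ z / C) ^ α = (C ^ α)⁻¹ * Θ z ^ α := by
        rw [Real.div_rpow (hΘ0 _) hCpos.le, div_eq_mul_inv, mul_comm]
      have h6 := mul_le_mul_of_nonneg_left hst (inv_pos.2 hCα).le
      rw [← mul_assoc, ← hWz] at h6
      rw [e1]
      refine le_trans ?_ (add_le_add_left h6 _)
      have h7 : α * t ^ 2 * (3 * η * (Θ z / C) ^ α) ≤ α * t ^ 2 * (3 * η) := by
        apply mul_le_mul_of_nonneg_left _ (by positivity)
        have := mul_le_mul_of_nonneg_left (hW1 z) (show 0 ≤ 3 * η by positivity)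
        linarith
      set w := (Θ z / C) ^ α with hw
      have e2 : w + t ^ 2 * (α * (w * q z + B)) =
          (w * (1 + α * (q z - 3 * η) * t ^ 2) + t ^ 2 * (α * (B + 3 * η))) +
            (α * t ^ 2 * (3 * η * w) - α * t ^ 2 * (3 * η)) := by ring
      rw [e2]
      linarith
  have lim : ∀ α : ℝ, 0 < α → ∫⁻ z in D, ENNReal.ofReal ((Θ z / C) ^ α * q z + B) ≤
      ENNReal.ofReal B * volume D := by
    intro α hα
    have h1 : Tendsto (fun k : ℕ => ENNReal.ofReal (B + 3 * (1 / ((k : ℝ) + 1))) * volume D) atTop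
        (𝓝 (ENNReal.ofReal (B + 3 * 0) * volume D)) := by
      refine ENNReal.Tendsto.mul_const ?_ (Or.inr hv)
      refine (ENNReal.continuous_ofReal.tendsto _).comp ?_
      exact (tendsto_one_div_add_atTop_nhds_zero_nat.const_mul 3).const_add B
    rw [mul_zero, add_zero] at h1
    refine ge_of_tendsto' h1 fun k => key α hα _ (by positivity) ?_
    rw [div_le_one (by positivity)]
    have : (0 : ℝ) ≤ k := Nat.cast_nonneg k
    linarith
  -- the limit of the powers
  have lim1 : ∫⁻ z in D, ENNReal.ofReal (q z + B) ≤ ENNReal.ofReal B * volume D := by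
    set fk : ℕ → ℍ → ℝ≥0∞ := fun k z =>
      ENNReal.ofReal ((Θ z / C) ^ (1 / ((k : ℝ) + 1)) * q z + B) with hfk
    have hm : ∀ k, Measurable (fk k) := fun k => by
      have h1 : Continuous fun z => (Θ z / C) ^ (1 / ((k : ℝ) + 1)) :=
        (hΘc.div_const C).rpow_const fun _ => Or.inr (by positivity)
      exact ((h1.mul hqc).add continuous_const).measurable.ennreal_ofReal
    have h1 := lintegral_liminf_le (μ := volume.restrict D) (u := atTop) hm
    have h2 : ∫⁻ z in D, ENNReal.ofReal (q z + B) =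
        ∫⁻ z in D, liminf (fun k => fk k z) atTop := by
      refine lintegral_congr_ae (ae_restrict_of_ae ?_)
      filter_upwards [hnull] with z hz
      have h3 : 0 < Θ z / C := div_pos (lt_of_le_of_ne (hΘ0 z) hz.symm) hCpos
      have h4 : Tendsto (fun k : ℕ => (Θ z / C) ^ (1 / ((k : ℝ) + 1))) atTop (𝓝 1) := by
        have h5 := tendsto_one_div_add_atTop_nhds_zero_nat (𝕜 := ℝ)
        have h6 := (Real.continuousAt_const_rpow (b := 0) h3.ne').tendsto.comp h5
        rwa [Real.rpow_zero] at h6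
      have h5 : Tendsto (fun k => fk k z) atTop (𝓝 (ENNReal.ofReal (q z + B))) := by
        refine (ENNReal.continuous_ofReal.tendsto _).comp ?_
        have := (h4.mul_const (q z)).add_const B
        rwa [one_mul] at this
      exact h5.liminf_eq.symm
    rw [h2]
    refine h1.trans ?_
    refine liminf_le_of_le (by isBoundedDefault) fun b hb => ?_
    obtain ⟨k, hk⟩ := hb.exists
    exact hk.trans (lim _ (by positivity))
  have hm1 : Measurable fun z => ENNReal.ofReal (4 * s₁ z) :=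
    (by fun_prop : Continuous fun z => 4 * s₁ z).measurable.ennreal_ofReal
  have hm2 : Measurable fun z => ENNReal.ofReal (B - 4 * (N * s₂ z)) :=
    (by fun_prop : Continuous fun z => B - 4 * (N * s₂ z)).measurable.ennreal_ofReal
  have hsplit : ∫⁻ z in D, ENNReal.ofReal (q z + B) =
      (∫⁻ z in D, ENNReal.ofReal (4 * s₁ z)) +
        ∫⁻ z in D, ENNReal.ofReal (B - 4 * (N * s₂ z)) := by
    rw [← lintegral_add_left hm1]
    refine lintegral_congr fun z => ?_
    rw [← ENNReal.ofReal_add (by have := hs10 z; positivity) (by have := hB20 z; linarith)]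
    congr 1
    rw [hq]
    ring
  have hBsplit : ENNReal.ofReal B * volume D =
      (∫⁻ z in D, ENNReal.ofReal (4 * (N * s₂ z))) +
        ∫⁻ z in D, ENNReal.ofReal (B - 4 * (N * s₂ z)) := by
    rw [← lintegral_add_right _ hm2, ← setLIntegral_const]
    refine lintegral_congr fun z => ?_
    rw [← ENNReal.ofReal_add (by have := hs20 z; positivity) (by have := hB20 z; linarith)]
    congr 1
    ring
  rw [hsplit, hBsplit] at lim1
  have hfin : ∫⁻ z in D, ENNReal.ofReal (B - 4 * (N * s₂ z)) ≠ ⊤ := by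
    have h1 : ∫⁻ z in D, ENNReal.ofReal (B - 4 * (N * s₂ z)) ≤ ∫⁻ _ in D, ENNReal.ofReal B :=
      lintegral_mono fun z => ENNReal.ofReal_le_ofReal (by
        have := mul_nonneg hN (hs20 z)
        linarith)
    rw [setLIntegral_const] at h1
    exact ne_top_of_le_ne_top (ENNReal.mul_ne_top ENNReal.ofReal_ne_top hv) h1
  have lim2 := (ENNReal.add_le_add_iff_right hfin).1 lim1
  have e3 : ∫⁻ z in D, ENNReal.ofReal (4 * s₁ z) =
      ENNReal.ofReal 4 * ∫⁻ z in D, ENNReal.ofReal (s₁ z) := by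
    rw [← lintegral_const_mul' _ _ ENNReal.ofReal_ne_top]
    refine lintegral_congr fun z => ?_
    rw [ENNReal.ofReal_mul (by norm_num)]
  have e4 : ∫⁻ z in D, ENNReal.ofReal (4 * (N * s₂ z)) =
      ENNReal.ofReal 4 * (ENNReal.ofReal N * ∫⁻ z in D, ENNReal.ofReal (s₂ z)) := by
    rw [← lintegral_const_mul' _ _ ENNReal.ofReal_ne_top,
      ← lintegral_const_mul' _ _ ENNReal.ofReal_ne_top]
    refine lintegral_congr fun z => ?_
    rw [ENNReal.ofReal_mul (by norm_num), ENNReal.ofReal_mul hN]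
  rw [e3, e4] at lim2
  have h4 : ENNReal.ofReal 4 ≠ 0 := by
    rw [ne_eq, ENNReal.ofReal_eq_zero]
    norm_num
  exact (ENNReal.mul_le_mul_iff_right h4 ENNReal.ofReal_ne_top).1 lim2

end Pool.Agent.H33
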