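import Pool.Agent.H33.VB
import Pool.Agent.H33.QP

/-! The quotient of the metrics. -/

set_option autoImplicit false

open Filter Topology Metric Set MvPolynomial MeasureTheory LinearAlgebra.Projectivization
open scoped UpperHalfPlane MatrixGroups ENNReal

namespace Pool.Agent.H33

open Pool.Agent.Y190.OP Pool.Agent.W602.GT Pool.Agent.N155 Pool.Agent.N155.BB
open Real (circleAverage)

variable {m n : ℕ} {ι ι' : Type} {G : ι' → MvPolynomial (Fin (m + 1)) ℂ}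
  {F : ι → MvPolynomial (Fin (n + 1)) ℂ} {f : ℍ → ℙ ℂ (Fin (n + 1) → ℂ)}
  {g : ℍ → ℙ ℂ (Fin (m + 1) → ℂ)}

theorem holD_cay (hf : HolH (Cone F) f) (c : ℍ) : HolD fun ζ => f (cayH c ζ) :=
  (down_mem (Γ := ⊥) (c := c) hf (by
    intro γ hγ z
    rw [Subgroup.mem_bot.1 hγ, one_smul]) rfl).1

theorem icay_cont (z₀ : ℍ) : ContinuousAt (fun w : ℍ => icay z₀ w) z₀ :=
  ContinuousAt.comp (g := icay z₀) (f := fun w : ℍ => (w : ℂ))
    (icay_diff z₀ z₀.im_pos).continuousAt UpperHalfPlane.continuous_coe.continuousAt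

theorem punct (z₀ : ℍ) {Q : ℍ → Prop} (h : ∀ᶠ ζ in 𝓝[≠] (0 : ℂ), Q (cayH z₀ ζ)) :
    ∀ᶠ w in 𝓝[≠] z₀, Q w := by
  have h1 : Tendsto (fun w : ℍ => icay z₀ w) (𝓝[≠] z₀) (𝓝[≠] 0) := by
    refine tendsto_nhdsWithin_iff.2 ⟨?_, ?_⟩
    · have h2 := (icay_cont z₀).tendsto
      rw [icay_self] at h2
      exact h2.mono_left nhdsWithin_le_nhds
    · filter_upwards [self_mem_nhdsWithin] with w hw h0
      apply hw
      have h0' : icay z₀ w = 0 := h0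
      rw [mem_singleton_iff, ← cayH_icay z₀ w, h0', cayH_zero]
  filter_upwards [h1.eventually h] with w hw
  rwa [cayH_icay] at hw

theorem neBot_H (z₀ : ℍ) : (𝓝[≠] z₀).NeBot := by
  have h1 : Tendsto (cayH z₀) (𝓝[≠] 0) (𝓝[≠] z₀) := by
    refine tendsto_nhdsWithin_iff.2 ⟨?_, ?_⟩
    · have h2 := ((continuousOn_cayH z₀).continuousAt (ball_mem_nhds 0 one_pos)).tendsto
      rw [cayH_zero] at h2
      exact h2.mono_left nhdsWithin_le_nhds
    · filter_upwards [self_mem_nhdsWithin,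
        nhdsWithin_le_nhds (ball_mem_nhds (0 : ℂ) one_pos)] with w hw hb h0
      apply hw
      have h0' : cayH z₀ w = z₀ := h0
      rw [mem_singleton_iff, ← icay_cayH z₀ hb, h0', icay_self]
  exact h1.neBot

theorem null_of_countable {S : Set ℍ} (h : S.Countable) : volume S = 0 := by
  have h1 := lintegral_H h.measurableSet (F := fun _ => 1) measurable_const
  rw [setLIntegral_one] at h1
  rw [h1]
  exact setLIntegral_measure_zero _ _ ((h.image _).measure_zero volume)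

theorem form_isolated (hf : HolH (Cone F) f) {Q : MvPolynomial (Fin (n + 1)) ℂ} {e : ℕ}
    (hQ : Q.IsHomogeneous e) (h : ∃ z₁, eval (f z₁).rep Q ≠ 0) (z₀ : ℍ) :
    ∀ᶠ w in 𝓝[≠] z₀, eval (f w).rep Q ≠ 0 := by
  obtain ⟨z₁, hz₁⟩ := h
  refine punct z₀ ?_
  refine Sec.isolated (holD_cay hf z₀) (sec_form (f := fun ζ => f (cayH z₀ ζ)) hQ)
    ⟨icay z₀ z₁, icay_mem z₀ z₁, ?_⟩ (mem_ball_self one_pos)
  rw [cayH_icay]
  exact hz₁

theorem form_countable (hf : HolH (Cone F) f) {Q : MvPolynomial (Fin (n + 1)) ℂ} {e : ℕ}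
    (hQ : Q.IsHomogeneous e) (h : ∃ z₁, eval (f z₁).rep Q ≠ 0) :
    {w : ℍ | eval (f w).rep Q = 0}.Countable := by
  obtain ⟨z₁, hz₁⟩ := h
  have h1 := countable_of_punctured (A := {ζ : ℂ | eval (f (cayH z₁ ζ)).rep Q = 0})
    fun z hz => by
      refine Sec.isolated (holD_cay hf z₁) (sec_form (f := fun ζ => f (cayH z₁ ζ)) hQ)
        ⟨0, mem_ball_self one_pos, ?_⟩ hz
      rw [cayH_zero]
      exact hz₁
  refine (h1.image (cayH z₁)).mono ?_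
  intro w hw
  refine ⟨icay z₁ w, ⟨?_, icay_mem z₁ w⟩, cayH_icay z₁ w⟩
  change eval (f (cayH z₁ (icay z₁ w))).rep Q = 0
  rw [cayH_icay]
  exact hw

/-- local coordinates and the local quotient -/
structure Loc (f : ℍ → ℙ ℂ (Fin (n + 1) → ℂ)) (g : ℍ → ℙ ℂ (Fin (m + 1) → ℂ)) (i : Fin (m + 1))
    (A : MvPolynomial (Fin (n + 1)) ℂ) (z : ℍ) (V W : Set ℂ) (f₀ : ℂ → Fin (n + 1) → ℂ)
    (g₀ : ℂ → Fin (m + 1) → ℂ) (l : ℂ → ℂ) : Prop where
  lf : HLift f V f₀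
  zf : (z : ℂ) ∈ V
  lg : HLift g W g₀
  zg : (z : ℂ) ∈ W
  an : AnalyticAt ℂ l z
  eq : ∀ᶠ w : ℍ in 𝓝 z, eval (f₀ w) A = l w * g₀ w i

/-- the quotient, where it is defined -/
noncomputable def phi (f : ℍ → ℙ ℂ (Fin (n + 1) → ℂ)) (g : ℍ → ℙ ℂ (Fin (m + 1) → ℂ))
    (i : Fin (m + 1)) (A : MvPolynomial (Fin (n + 1)) ℂ) (N : ℕ) (w : ℍ) : ℝ :=
  ‖eval (f w).rep A‖ ^ 2 / sqn (f w).rep ^ N * (sqn (g w).rep / ‖(g w).rep i‖ ^ 2)

/-- the quotient -/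
noncomputable def theta (f : ℍ → ℙ ℂ (Fin (n + 1) → ℂ)) (g : ℍ → ℙ ℂ (Fin (m + 1) → ℂ))
    (i : Fin (m + 1)) (A : MvPolynomial (Fin (n + 1)) ℂ) (N : ℕ) (w : ℍ) : ℝ :=
  limUnder (𝓝[≠] w) (phi f g i A N)

/-- the quotient in local coordinates -/
noncomputable def psi (f₀ : ℂ → Fin (n + 1) → ℂ) (g₀ : ℂ → Fin (m + 1) → ℂ) (l : ℂ → ℂ) (N : ℕ)
    (w : ℂ) : ℝ := ‖l w‖ ^ 2 * sqn (g₀ w) / sqn (f₀ w) ^ N

variable {i : Fin (m + 1)} {A : MvPolynomial (Fin (n + 1)) ℂ} {N : ℕ} {z : ℍ} {V W : Set ℂ}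
  {f₀ : ℂ → Fin (n + 1) → ℂ} {g₀ : ℂ → Fin (m + 1) → ℂ} {l : ℂ → ℂ}

theorem phi_eq (hA : A.IsHomogeneous N) (hf : HLift f V f₀) (hg : HLift g W g₀)
    (hzV : (z : ℂ) ∈ V) (hzW : (z : ℂ) ∈ W) (he : eval (f₀ z) A = l z * g₀ z i)
    (hi : (g z).rep i ≠ 0) : phi f g i A N z = psi f₀ g₀ l N z := by
  obtain ⟨c, hc, hcf⟩ := hf.rep hzV
  obtain ⟨b, hb, hbg⟩ := hg.rep hzW
  have hi' : g₀ z i ≠ 0 := by
    intro h0
    apply hi
    rw [hbg, Pi.smul_apply, h0, smul_zero]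
  have h1 : 0 < ‖g₀ z i‖ := norm_pos_iff.2 hi'
  have h2 : 0 < ‖b‖ := norm_pos_iff.2 hb
  have h3 : 0 < ‖c‖ := norm_pos_iff.2 hc
  have h4 := sqn_pos (hf.eq z hzV).1
  unfold phi psi
  rw [hcf, hbg, eval_smul hA, he, sqn_smul', sqn_smul', Pi.smul_apply, smul_eq_mul, norm_mul,
    norm_mul, norm_mul, norm_pow, mul_pow, mul_pow, mul_pow, mul_pow, ← pow_mul, ← pow_mul,
    mul_comm N 2]
  field_simp

theorem psi_cont (hf : AnalyticAt ℂ f₀ z) (hf0 : f₀ z ≠ 0) (hg : AnalyticAt ℂ g₀ z)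
    (hl : AnalyticAt ℂ l z) : ContinuousAt (fun w : ℍ => psi f₀ g₀ l N w) z := by
  have hcoe : ContinuousAt (fun w : ℍ => (w : ℂ)) z := UpperHalfPlane.continuous_coe.continuousAt
  have h1 : ContinuousAt (fun w : ℂ => sqn (g₀ w)) z :=
    ContinuousAt.comp (g := sqn) (f := g₀) sqn_cont.continuousAt hg.continuousAt
  have h2 : ContinuousAt (fun w : ℂ => sqn (f₀ w)) z :=
    ContinuousAt.comp (g := sqn) (f := f₀) sqn_cont.continuousAt hf.continuousAt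
  have h3 : ContinuousAt (psi f₀ g₀ l N) z :=
    (((hl.continuousAt.norm).pow 2).mul h1).div (h2.pow N) (pow_ne_zero _ (sqn_pos hf0).ne')
  exact ContinuousAt.comp (g := psi f₀ g₀ l N) (f := fun w : ℍ => (w : ℂ)) h3 hcoe

/-- the quotient near a point -/
theorem Loc.ev (L : Loc f g i A z V W f₀ g₀ l) (hA : A.IsHomogeneous N)
    (hiso : ∀ z₀ : ℍ, ∀ᶠ w in 𝓝[≠] z₀, (g w).rep i ≠ 0) :
    ∀ᶠ w : ℍ in 𝓝 z, theta f g i A N w = psi f₀ g₀ l N w ∧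
      Tendsto (phi f g i A N) (𝓝[≠] w) (𝓝 (theta f g i A N w)) := by
  have hcoe : ContinuousAt (fun w : ℍ => (w : ℂ)) z := UpperHalfPlane.continuous_coe.continuousAt
  have h1 : ∀ᶠ w : ℍ in 𝓝 z, (w : ℂ) ∈ V ∧ (w : ℂ) ∈ W ∧ eval (f₀ w) A = l w * g₀ w i := by
    filter_upwards [hcoe.eventually (L.lf.op.mem_nhds L.zf), hcoe.eventually
      (L.lg.op.mem_nhds L.zg), L.eq] with w h1 h2 h3
    exact ⟨h1, h2, h3⟩
  filter_upwards [eventually_eventually_nhds.2 h1, hcoe.eventually L.an.eventually_analyticAt]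
    with w h2 h3
  obtain ⟨k1, k2, k3⟩ := h2.self_of_nhds
  have hc := psi_cont (N := N) (L.lf.analyticAt k1) (L.lf.eq w k1).1 (L.lg.analyticAt k2) h3
  have h4 : Tendsto (phi f g i A N) (𝓝[≠] w) (𝓝 (psi f₀ g₀ l N w)) := by
    refine (hc.tendsto.mono_left nhdsWithin_le_nhds).congr' ?_
    filter_upwards [nhdsWithin_le_nhds h2, hiso w] with x ⟨e1, e2, e3⟩ e4
    exact (phi_eq hA L.lf L.lg e1 e2 e3 e4).symm
  have := neBot_H w
  have h5 : theta f g i A N w = psi f₀ g₀ l N w := h4.limUnder_eq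
  exact ⟨h5, by rw [h5]; exact h4⟩

/-- the quotients exist locally -/
def LocAll (f : ℍ → ℙ ℂ (Fin (n + 1) → ℂ)) (g : ℍ → ℙ ℂ (Fin (m + 1) → ℂ)) (i : Fin (m + 1))
    (A : MvPolynomial (Fin (n + 1)) ℂ) : Prop :=
  ∀ z : ℍ, ∃ (V W : Set ℂ) (f₀ : ℂ → Fin (n + 1) → ℂ) (g₀ : ℂ → Fin (m + 1) → ℂ) (l : ℂ → ℂ),
    Loc f g i A z V W f₀ g₀ l

theorem theta_cont (hL : LocAll f g i A) (hA : A.IsHomogeneous N)
    (hiso : ∀ z₀ : ℍ, ∀ᶠ w in 𝓝[≠] z₀, (g w).rep i ≠ 0) : Continuous (theta f g i A N) := by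
  rw [continuous_iff_continuousAt]
  intro z
  obtain ⟨V, W, f₀, g₀, l, L⟩ := hL z
  refine (psi_cont (N := N) (L.lf.analyticAt L.zf) (L.lf.eq z L.zf).1 (L.lg.analyticAt L.zg)
    L.an).congr ?_
  filter_upwards [L.ev hA hiso] with w hw
  exact hw.1.symm

theorem theta_nonneg (hL : LocAll f g i A) (hA : A.IsHomogeneous N)
    (hiso : ∀ z₀ : ℍ, ∀ᶠ w in 𝓝[≠] z₀, (g w).rep i ≠ 0) (z : ℍ) : 0 ≤ theta f g i A N z := by
  obtain ⟨V, W, f₀, g₀, l, L⟩ := hL z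
  rw [(L.ev hA hiso).self_of_nhds.1]
  exact div_nonneg (mul_nonneg (sq_nonneg _) (sqn_nonneg _)) (pow_nonneg (sqn_nonneg _) _)

theorem theta_ne (hL : LocAll f g i A) (hA : A.IsHomogeneous N)
    (hiso : ∀ z₀ : ℍ, ∀ᶠ w in 𝓝[≠] z₀, (g w).rep i ≠ 0) {z : ℍ} (hz : eval (f z).rep A ≠ 0) :
    theta f g i A N z ≠ 0 := by
  obtain ⟨V, W, f₀, g₀, l, L⟩ := hL z
  rw [(L.ev hA hiso).self_of_nhds.1]
  have h1 := L.eq.self_of_nhds
  obtain ⟨c, hc, hcf⟩ := L.lf.rep L.zf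
  rw [hcf, eval_smul hA, h1] at hz
  have h2 : l z ≠ 0 := left_ne_zero_of_mul (right_ne_zero_of_mul hz)
  have h3 := sqn_pos (L.lg.eq z L.zg).1
  have h4 := sqn_pos (L.lf.eq z L.zf).1
  have h5 : 0 < ‖l z‖ := norm_pos_iff.2 h2
  unfold psi
  positivity

theorem theta_inv (hL : LocAll f g i A) (hA : A.IsHomogeneous N)
    (hiso : ∀ z₀ : ℍ, ∀ᶠ w in 𝓝[≠] z₀, (g w).rep i ≠ 0) {γ : SL(2, ℝ)}
    (hf : ∀ z : ℍ, f (γ • z) = f z) (hg : ∀ z : ℍ, g (γ • z) = g z) (z : ℍ) :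
    theta f g i A N (γ • z) = theta f g i A N z := by
  obtain ⟨V, W, f₀, g₀, l, L⟩ := hL z
  obtain ⟨V', W', f₀', g₀', l', L'⟩ := hL (γ • z)
  have h1 := (L.ev hA hiso).self_of_nhds.2
  have h2 := (L'.ev hA hiso).self_of_nhds.2
  have h3 : Tendsto (fun w : ℍ => γ • w) (𝓝[≠] z) (𝓝[≠] (γ • z)) := by
    refine tendsto_nhdsWithin_iff.2 ⟨?_, ?_⟩
    · exact (continuous_const_smul γ).continuousAt.tendsto.mono_left nhdsWithin_le_nhds
    · filter_upwards [self_mem_nhdsWithin] with w hw h0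
      exact hw (smul_left_cancel γ h0)
  have h4 := h2.comp h3
  have h5 : (phi f g i A N ∘ fun w : ℍ => γ • w) = phi f g i A N := by
    funext w
    simp only [Function.comp_apply]
    unfold phi
    rw [hf, hg]
  rw [h5] at h4
  have := neBot_H z
  exact tendsto_nhds_unique h4 h1

/-- the Laplacian of the logarithm of the quotient -/
theorem theta_asym (hL : LocAll f g i A) (hA : A.IsHomogeneous N)
    (hiso : ∀ z₀ : ℍ, ∀ᶠ w in 𝓝[≠] z₀, (g w).rep i ≠ 0) (z : ℍ) {ζ : ℂ}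
    (hζ : ζ ∈ ball (0 : ℂ) 1) (h0 : theta f g i A N (cayH z ζ) ≠ 0) :
    Asym (fun s => Real.log (theta f g i A N (cayH z s))) ζ
      (4 * (speedSq g (cayH z ζ) - N * speedSq f (cayH z ζ)) / (1 - ‖ζ‖ ^ 2) ^ 2) := by
  obtain ⟨V, W, f₀, g₀, l, L⟩ := hL (cayH z ζ)
  have hc := coe_cayH z hζ
  have hev := L.ev hA hiso
  have zf := L.zf
  have zg := L.zg
  have hl := L.an
  rw [hc] at zf zg hl
  have hθ := hev.self_of_nhds.1
  rw [hθ] at h0
  have hl0 : l (cay z ζ) ≠ 0 := by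
    intro h1
    apply h0
    unfold psi
    rw [hc, h1]
    simp
  have hcay : AnalyticAt ℂ (cay z) ζ :=
    (differentiableOn_cay z).analyticAt (isOpen_ball.mem_nhds hζ)
  have hla : AnalyticAt ℂ (fun s => l (cay z s)) ζ := hl.comp hcay
  obtain ⟨a1, a2, a3⟩ := L.lg.disc z hζ zg
  obtain ⟨b1, b2, b3⟩ := L.lf.disc z hζ zf
  have h1 := asym_log a1 a2
  have h2 := (asym_log b1 b2).const_mul (-(N : ℝ))
  have h3 := (asym_harm (hla.harmonicAt_log_norm hl0)).const_mul 2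
  rw [a3] at h1
  rw [b3] at h2
  have c1 := cont_log_sqn a1 a2
  have c2 := (cont_log_sqn b1 b2).mono fun s hs => continuousAt_const (y := -(N : ℝ)).mul hs
  have c3 := (cont_log_norm hla hl0).mono fun s hs => continuousAt_const (y := (2 : ℝ)).mul hs
  have h4 := (h1.add h2 c1 c2).add h3 ((c1.and c2).mono fun s hs => hs.1.add hs.2) c3
  have hcH : ContinuousAt (cayH z) ζ :=
    (continuousOn_cayH z).continuousAt (isOpen_ball.mem_nhds hζ)
  have h5 : Asym (fun s => Real.log (theta f g i A N (cayH z s))) ζ _ := h4.congr (by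
    filter_upwards [hcH.eventually hev, isOpen_ball.mem_nhds hζ,
      hla.continuousAt.eventually_ne hl0, a1.continuousAt.eventually_ne a2,
      b1.continuousAt.eventually_ne b2] with s k1 k2 k3 k4 k5
    have p1 : 0 < ‖l (cay z s)‖ := norm_pos_iff.2 k3
    have p2 := sqn_pos k4
    have p3 := sqn_pos k5
    rw [k1.1, coe_cayH z k2]
    unfold psi
    rw [Real.log_div (by positivity) (by positivity), Real.log_mul (by positivity) p2.ne',
      Real.log_pow, Real.log_pow]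
    push_cast
    ring)
  convert h5 using 1
  ring

variable {Γ : Subgroup SL(2, ℝ)} {D : Set ℍ}

theorem speedSq_nonneg {X : Set (Fin (n + 1) → ℂ)} (hf : HolH X f) (z : ℍ) : 0 ≤ speedSq f z := by
  obtain ⟨V, g₀, h, hz⟩ := hf.lift z
  rw [h.speed_eq hz]
  positivity

/-- **The comparison of the degrees.** -/
theorem speed_int_le (hD : CompactDomain Γ D) (hf : HolH (Cone F) f) (hg : HolH (Cone G) g)
    (hfi : ∀ γ ∈ Γ, ∀ z : ℍ, f (γ • z) = f z) (hgi : ∀ γ ∈ Γ, ∀ z : ℍ, g (γ • z) = g z)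
    (hL : LocAll f g i A) (hA : A.IsHomogeneous N) (hi : ∃ z, (g z).rep i ≠ 0)
    (hA0 : ∃ z, eval (f z).rep A ≠ 0) :
    ∫⁻ z in D, ENNReal.ofReal (speedSq g z) ≤
      ENNReal.ofReal N * ∫⁻ z in D, ENNReal.ofReal (speedSq f z) := by
  have hiso : ∀ z₀ : ℍ, ∀ᶠ w in 𝓝[≠] z₀, (g w).rep i ≠ 0 := by
    intro z₀
    have h1 := form_isolated hg (isHomogeneous_X ℂ i) (by
      obtain ⟨z, hz⟩ := hi
      exact ⟨z, by rw [eval_X]; exact hz⟩) z₀
    filter_upwards [h1] with w hw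
    rwa [eval_X] at hw
  refine int_le hD (Θ := theta f g i A N) (Nat.cast_nonneg N) (speedSq_cont hg) (speedSq_cont hf)
    (fun γ hγ z => speedSq_smul hg (hgi γ hγ) z) (fun γ hγ z => speedSq_smul hf (hfi γ hγ) z)
    (speedSq_nonneg hg) (speedSq_nonneg hf) (theta_cont hL hA hiso)
    (fun γ hγ z => theta_inv hL hA hiso (hfi γ hγ) (hgi γ hγ) z) (theta_nonneg hL hA hiso) ?_
    fun z ζ hζ h0 => theta_asym hL hA hiso z hζ h0
  have h1 := null_of_countable (form_countable hf hA hA0)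
  rw [← compl_mem_ae_iff] at h1
  filter_upwards [h1] with z hz
  exact theta_ne hL hA hiso hz

end Pool.Agent.H33
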