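import Pool.Agent.H33.UDefs

/-! Generically finite rational maps. -/

set_option autoImplicit false

open LinearAlgebra.Projectivization MvPolynomial

namespace Pool.Agent.H33

open Pool.Agent.W602.GT Pool.Agent.N155.BB

variable {m n : ℕ} {ι' : Type}

/-- The rational map given by the forms `P` on the projective set `{G = 0}` in `ℙ ^ m` is generically
finite: there is a coordinate `y_i`, not identically zero on `{G = 0}`, such that for every `j` the ratio
`y_j / y_i` is algebraic over the ratios of the `P_k`, that is, there are forms `A_0, …, A_K` of the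
same degree, the last of which is not identically zero at the values of `P`, such that
`A_0 (P (y)) y_i ^ K + A_1 (P (y)) y_j y_i ^ (K - 1) + ⋯ + A_K (P (y)) y_j ^ K = 0` on `{G = 0}`. -/
def GenericallyFiniteOn (G : ι' → MvPolynomial (Fin (m + 1)) ℂ)
    (P : Fin (n + 1) → MvPolynomial (Fin (m + 1)) ℂ) : Prop :=
  ∃ i : Fin (m + 1), (∃ y ∈ Cone G, y i ≠ 0) ∧ ∀ j : Fin (m + 1),
    ∃ (K D : ℕ) (A : ℕ → MvPolynomial (Fin (n + 1)) ℂ), (∀ k, (A k).IsHomogeneous D) ∧
      (∃ y ∈ Cone G, eval (ratVal P y) (A K) ≠ 0) ∧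
      ∀ y ∈ Cone G, ∑ k ∈ Finset.range (K + 1),
        eval (ratVal P y) (A k) * y j ^ k * y i ^ (K - k) = 0

end Pool.Agent.H33
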