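import Pool.Agent.H33.VC
import Pool.Agent.H33.VDefs

/-! The local quotients. -/

set_option autoImplicit false

open Filter Topology Metric Set MvPolynomial MeasureTheory LinearAlgebra.Projectivization
open scoped UpperHalfPlane MatrixGroups ENNReal

namespace Pool.Agent.H33

open Pool.Agent.Y190.OP Pool.Agent.W602.GT Pool.Agent.N155 Pool.Agent.N155.BB

variable {m n : ℕ} {ι ι' : Type} {G : ι' → MvPolynomial (Fin (m + 1)) ℂ}
  {F : ι → MvPolynomial (Fin (n + 1)) ℂ} {P : Fin (n + 1) → MvPolynomial (Fin (m + 1)) ℂ}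
  {f : ℍ → ℙ ℂ (Fin (n + 1) → ℂ)} {g : ℍ → ℙ ℂ (Fin (m + 1) → ℂ)}

/-- the equation of one coordinate -/
def Eqn (G : ι' → MvPolynomial (Fin (m + 1)) ℂ) (P : Fin (n + 1) → MvPolynomial (Fin (m + 1)) ℂ)
    (i j : Fin (m + 1)) (K D : ℕ) (A : ℕ → MvPolynomial (Fin (n + 1)) ℂ) : Prop :=
  (∀ k, (A k).IsHomogeneous D) ∧
      (∃ y ∈ Cone G, eval (ratVal P y) (A K) ≠ 0) ∧
      ∀ y ∈ Cone G, ∑ k ∈ Finset.range (K + 1),
        eval (ratVal P y) (A k) * y j ^ k * y i ^ (K - k) = 0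

/-- homogeneity of the equation -/
theorem eqn_smul {K D : ℕ} {A : ℕ → MvPolynomial (Fin (n + 1)) ℂ} (hA : ∀ k, (A k).IsHomogeneous D)
    (i j : Fin (m + 1)) (x : Fin (n + 1) → ℂ) (y : Fin (m + 1) → ℂ) (c b : ℂ) :
    ∑ k ∈ Finset.range (K + 1), eval (c • x) (A k) * (b • y) j ^ k * (b • y) i ^ (K - k) =
      c ^ D * b ^ K * ∑ k ∈ Finset.range (K + 1), eval x (A k) * y j ^ k * y i ^ (K - k) := by
  rw [Finset.mul_sum]
  refine Finset.sum_congr rfl fun k hk => ?_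
  have hk' : k ≤ K := Nat.lt_succ_iff.1 (Finset.mem_range.1 hk)
  have h1 : b ^ K = b ^ k * b ^ (K - k) := by rw [← pow_add, Nat.add_sub_cancel' hk']
  rw [eval_smul (hA k), h1]
  simp only [Pi.smul_apply, smul_eq_mul, mul_pow]
  ring

theorem an_eval {k : ℕ} {f₀ : ℂ → Fin (k + 1) → ℂ} {z : ℂ} (h : AnalyticAt ℂ f₀ z)
    (Q : MvPolynomial (Fin (k + 1)) ℂ) : AnalyticAt ℂ (fun w => eval (f₀ w) Q) z := by
  have h2 : AnalyticAt ℂ (fun y : Fin (k + 1) → ℂ => eval y Q) (f₀ z) :=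
    AnalyticOnNhd.eval_mvPolynomial Q _ (mem_univ _)
  exact h2.comp h

theorem loc_all {e : ℕ} (he : ∀ j, (P j).IsHomogeneous e) (hf : HolH (Cone F) f)
    (hg : HolH (Cone G) g) (hfg : ∀ w, Prop2 (ratVal P (g w).rep) (f w).rep)
    (hdef : ∃ z, ratVal P (g z).rep ≠ 0) {i : Fin (m + 1)} {K D : Fin (m + 1) → ℕ}
    {A : Fin (m + 1) → ℕ → MvPolynomial (Fin (n + 1)) ℂ}
    (hA : ∀ j, Eqn G P i j (K j) (D j) (A j)) : LocAll f g i (∏ j, A j (K j)) := by
  classical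
  intro z
  obtain ⟨V, f₀, lf, zf⟩ := hf.lift z
  obtain ⟨W, g₀, lg, zg⟩ := hg.lift z
  have hcoe : ∀ w : ℍ, ContinuousAt (fun w : ℍ => (w : ℂ)) w := fun w =>
    UpperHalfPlane.continuous_coe.continuousAt
  -- the map is defined at the points near a given point
  have hiso : ∀ z₀ : ℍ, ∀ᶠ w in 𝓝[≠] z₀, ratVal P (g w).rep ≠ 0 := by
    intro z₀
    obtain ⟨z₁, hz₁⟩ := hdef
    obtain ⟨k, hk⟩ := Function.ne_iff.1 hz₁
    filter_upwards [form_isolated hg (he k) ⟨z₁, hk⟩ z₀] with w hw h0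
    exact hw (congrFun h0 k)
  obtain ⟨j, hj⟩ := Function.ne_iff.1 (lg.eq z zg).1
  have hj : g₀ z j ≠ 0 := hj
  obtain ⟨hA1, hA2, hA3⟩ := hA j
  -- the equation
  have hR : ∀ w : ℍ, (w : ℂ) ∈ V → (w : ℂ) ∈ W → ratVal P (g w).rep ≠ 0 →
      ∑ k ∈ Finset.range (K j + 1), eval (f₀ w) (A j k) * g₀ w j ^ k * g₀ w i ^ (K j - k) = 0 := by
    intro w hV hW hne
    obtain ⟨c, hc, hcf⟩ := lf.rep hV
    obtain ⟨b, hb, hbg⟩ := lg.rep hW
    obtain ⟨c', hc'⟩ := (hfg w).smul hne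
    have h1 : f₀ w = (c⁻¹ * c') • ratVal P (g w).rep := by
      rw [mul_smul, ← hc', hcf, smul_smul, inv_mul_cancel₀ hc, one_smul]
    have h2 : g₀ w = b⁻¹ • (g w).rep := by
      rw [hbg, smul_smul, inv_mul_cancel₀ hb, one_smul]
    rw [h1, h2, eqn_smul hA1, hA3 _ (hg w).1, mul_zero]
  have hcR : ∀ w : ℍ, (w : ℂ) ∈ V → (w : ℂ) ∈ W → ContinuousAt (fun w : ℍ =>
      ∑ k ∈ Finset.range (K j + 1), eval (f₀ w) (A j k) * g₀ w j ^ k * g₀ w i ^ (K j - k)) w := by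
    intro w hV hW
    have h1 : AnalyticAt ℂ (fun w : ℂ => ∑ k ∈ Finset.range (K j + 1),
        eval (f₀ w) (A j k) * g₀ w j ^ k * g₀ w i ^ (K j - k)) w := by
      refine Finset.analyticAt_fun_sum _ fun k _ => ?_
      have k1 := an_eval (lf.analyticAt hV) (A j k)
      have k2 := (analyticAt_pi_iff.1 (lg.analyticAt hW)) j
      have k3 := (analyticAt_pi_iff.1 (lg.analyticAt hW)) i
      exact (k1.mul (k2.pow k)).mul (k3.pow _)
    exact ContinuousAt.comp (g := fun w : ℂ => ∑ k ∈ Finset.range (K j + 1),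
      eval (f₀ w) (A j k) * g₀ w j ^ k * g₀ w i ^ (K j - k)) (f := fun w : ℍ => (w : ℂ))
      h1.continuousAt (hcoe w)
  have hRall : ∀ w : ℍ, (w : ℂ) ∈ V → (w : ℂ) ∈ W →
      ∑ k ∈ Finset.range (K j + 1), eval (f₀ w) (A j k) * g₀ w j ^ k * g₀ w i ^ (K j - k) = 0 := by
    intro w hV hW
    have := neBot_H w
    refine tendsto_nhds_unique ((hcR w hV hW).tendsto.mono_left nhdsWithin_le_nhds)
      ((tendsto_const_nhds (x := (0 : ℂ)) (f := 𝓝[≠] w)).congr' ?_)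
    filter_upwards [hiso w, nhdsWithin_le_nhds ((hcoe w).eventually (lf.op.mem_nhds hV)),
      nhdsWithin_le_nhds ((hcoe w).eventually (lg.op.mem_nhds hW))] with x h1 h2 h3
    exact (hR x h2 h3 h1).symm
  set l : ℂ → ℂ := fun w => -(∑ k ∈ Finset.range (K j),
    eval (f₀ w) (A j k) * g₀ w j ^ k * g₀ w i ^ (K j - 1 - k)) / g₀ w j ^ K j *
    ∏ j' ∈ Finset.univ.erase j, eval (f₀ w) (A j' (K j')) with hl
  have gj := (analyticAt_pi_iff.1 (lg.analyticAt zg)) j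
  have gi := (analyticAt_pi_iff.1 (lg.analyticAt zg)) i
  refine ⟨V, W, f₀, g₀, l, lf, zf, lg, zg, ?_, ?_⟩
  · have h1 : AnalyticAt ℂ (fun w : ℂ => ∑ k ∈ Finset.range (K j),
        eval (f₀ w) (A j k) * g₀ w j ^ k * g₀ w i ^ (K j - 1 - k)) z :=
      Finset.analyticAt_fun_sum _ fun k _ =>
        ((an_eval (lf.analyticAt zf) (A j k)).mul (gj.pow k)).mul (gi.pow _)
    have h2 : AnalyticAt ℂ (fun w : ℂ => ∏ j' ∈ Finset.univ.erase j,
        eval (f₀ w) (A j' (K j'))) z :=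
      Finset.analyticAt_fun_prod _ fun j' _ => an_eval (lf.analyticAt zf) (A j' (K j'))
    exact (h1.neg.div (gj.pow _) (pow_ne_zero _ hj)).mul h2
  · have hgj : ContinuousAt (fun w : ℍ => g₀ w j) z :=
      ContinuousAt.comp (g := fun w : ℂ => g₀ w j) (f := fun w : ℍ => (w : ℂ)) gj.continuousAt
        (hcoe z)
    filter_upwards [(hcoe z).eventually (lf.op.mem_nhds zf),
      (hcoe z).eventually (lg.op.mem_nhds zg), hgj.eventually_ne hj] with w hV hW hne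
    have h1 := hRall w hV hW
    rw [Finset.sum_range_succ, Nat.sub_self, pow_zero, mul_one] at h1
    have h2 : ∑ k ∈ Finset.range (K j), eval (f₀ w) (A j k) * g₀ w j ^ k * g₀ w i ^ (K j - k) =
        (∑ k ∈ Finset.range (K j), eval (f₀ w) (A j k) * g₀ w j ^ k * g₀ w i ^ (K j - 1 - k)) *
          g₀ w i := by
      rw [Finset.sum_mul]
      refine Finset.sum_congr rfl fun k hk => ?_
      have hk' := Finset.mem_range.1 hk
      have h3 : K j - k = (K j - 1 - k) + 1 := by omega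
      rw [h3, pow_succ]
      ring
    rw [h2] at h1
    rw [map_prod, ← Finset.mul_prod_erase _ _ (Finset.mem_univ j), hl]
    simp only
    have h4 : eval (f₀ w) (A j (K j)) = -(∑ k ∈ Finset.range (K j),
        eval (f₀ w) (A j k) * g₀ w j ^ k * g₀ w i ^ (K j - 1 - k)) * g₀ w i / g₀ w j ^ K j := by
      rw [eq_div_iff (pow_ne_zero _ hne)]
      linear_combination h1
    rw [h4]
    ring

end Pool.Agent.H33
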