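import Pool.Agent.H33.VD
import Pool.Agent.H33.UC

/-! The degree of curves in varieties with a generically finite rational map. -/

set_option autoImplicit false

open Filter Topology Metric Set MvPolynomial MeasureTheory LinearAlgebra.Projectivization
open scoped UpperHalfPlane MatrixGroups ENNReal

namespace Pool.Agent.H33

open Pool.Agent.Y190.OP Pool.Agent.W602.GT Pool.Agent.N155 Pool.Agent.N155.BB

variable {m n : ℕ} {ι ι' : Type} {G : ι' → MvPolynomial (Fin (m + 1)) ℂ}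
  {F : ι → MvPolynomial (Fin (n + 1)) ℂ} {P : Fin (n + 1) → MvPolynomial (Fin (m + 1)) ℂ}
  {f : ℍ → ℙ ℂ (Fin (n + 1) → ℂ)} {g : ℍ → ℙ ℂ (Fin (m + 1) → ℂ)}

/-- the fibres are finite -/
theorem finiteOff_of_eqn {i : Fin (m + 1)} {K D : Fin (m + 1) → ℕ}
    {A : Fin (m + 1) → ℕ → MvPolynomial (Fin (n + 1)) ℂ}
    (hA : ∀ j, Eqn G P i j (K j) (D j) (A j)) :
    FiniteOff G P fun a : Fin (n + 1) => X i * P a * aeval P (∏ j, A j (K j)) := by
  have hval : ∀ (y : Fin (m + 1) → ℂ) (a : Fin (n + 1)),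
      eval y (X i * P a * aeval P (∏ j, A j (K j))) =
        y i * ratVal P y a * eval (ratVal P y) (∏ j, A j (K j)) := by
    intro y a
    rw [map_mul, map_mul, eval_X, eval_comp]
    rfl
  refine ⟨fun y hy h h0 => ?_, fun x => ?_⟩
  · obtain ⟨a, ha⟩ := h
    rw [hval, h0] at ha
    simp at ha
  · set Z : Fin (m + 1) → Set ℂ := fun j =>
      {r : ℂ | ∑ k ∈ Finset.range (K j + 1), eval x (A j k) * r ^ k = 0} with hZ
    by_cases hx : ∀ j, eval x (A j (K j)) ≠ 0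
    · have hZf : ∀ j, (Z j).Finite := by
        intro j
        set p : Polynomial ℂ := ∑ k ∈ Finset.range (K j + 1),
          Polynomial.C (eval x (A j k)) * Polynomial.X ^ k with hp
        have hp0 : p ≠ 0 := by
          intro h0
          have h1 := congrArg (fun q => Polynomial.coeff q (K j)) h0
          simp only [hp, Polynomial.finsetSum_coeff, Polynomial.coeff_C_mul_X_pow,
            Polynomial.coeff_zero] at h1
          rw [Finset.sum_ite_eq] at h1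
          simp only [Finset.mem_range, Nat.lt_succ_self, if_true] at h1
          exact hx j h1
        refine (Polynomial.rootSet_finite p ℂ).subset fun r hr => ?_
        rw [Polynomial.mem_rootSet]
        refine ⟨hp0, ?_⟩
        rw [hp, map_sum]
        simp only [map_mul, map_pow, Polynomial.aeval_C, Polynomial.aeval_X,
          Algebra.algebraMap_self, RingHom.id_apply]
        exact hr
      have hinj : Set.InjOn (fun (q : ℙ ℂ (Fin (m + 1) → ℂ)) (j : Fin (m + 1)) =>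
          q.rep j / q.rep i) {q | q.rep i ≠ 0} := by
        intro q hq q' hq' he
        apply eq_of_prop2
        intro a b
        have h1 := congrFun he a
        have h2 := congrFun he b
        simp only at h1 h2
        rw [div_eq_div_iff hq hq'] at h1 h2
        have h3 : q.rep i ≠ 0 := hq
        have h4 : q'.rep i ≠ 0 := hq'
        apply mul_left_cancel₀ (mul_ne_zero h3 h4)
        linear_combination (q.rep i * q'.rep b) * h1 - (q.rep i * q'.rep a) * h2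
      refine Set.Finite.of_finite_image ((Set.Finite.pi' hZf).subset ?_) (hinj.mono ?_)
      · rintro _ ⟨q, ⟨hqG, ⟨a, ha⟩, c, hc⟩, rfl⟩ j
        rw [hval] at ha
        have hqi : q.rep i ≠ 0 := left_ne_zero_of_mul (left_ne_zero_of_mul ha)
        have hra : ratVal P q.rep a ≠ 0 := right_ne_zero_of_mul (left_ne_zero_of_mul ha)
        have hc0 : c ≠ 0 := by
          rintro rfl
          rw [hc] at hra
          simp at hra
        obtain ⟨h1, -, h3⟩ := hA j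
        have h4 := h3 q.rep hqG
        have h5 := eqn_smul (K := K j) h1 i j x (fun j' => q.rep j' / q.rep i) c (q.rep i)
        have h6 : (q.rep i • fun j' => q.rep j' / q.rep i) = q.rep := by
          funext j'
          simp only [Pi.smul_apply, smul_eq_mul]
          field_simp
        rw [h6, ← hc, h4] at h5
        have h7 := (mul_eq_zero.1 h5.symm).resolve_left
          (mul_ne_zero (pow_ne_zero _ hc0) (pow_ne_zero _ hqi))
        simp only [div_self hqi, one_pow, mul_one] at h7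
        exact h7
      · rintro q ⟨hqG, ⟨a, ha⟩, -⟩
        rw [hval] at ha
        exact left_ne_zero_of_mul (left_ne_zero_of_mul ha)
    · push Not at hx
      obtain ⟨j, hj⟩ := hx
      convert Set.finite_empty
      rw [Set.eq_empty_iff_forall_notMem]
      rintro q ⟨hqG, ⟨a, ha⟩, c, hc⟩
      rw [hval, hc] at ha
      have h1 : eval (c • x) (∏ j, A j (K j)) ≠ 0 := right_ne_zero_of_mul ha
      rw [map_prod] at h1
      have h2 := Finset.prod_ne_zero_iff.1 h1 j (Finset.mem_univ j)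
      rw [eval_smul ((hA j).1 _), hj, mul_zero] at h2
      exact h2 rfl

theorem IsForm.mul' {k : ℕ} {A B : MvPolynomial (Fin (k + 1)) ℂ} (hA : IsForm A) (hB : IsForm B) :
    IsForm (A * B) := by
  obtain ⟨a, ha⟩ := hA
  obtain ⟨b, hb⟩ := hB
  exact ⟨a + b, ha.mul hb⟩

/-- products on irreducible sets -/
theorem IrreducibleSet.two (hirr : IrreducibleSet G) {A B : MvPolynomial (Fin (m + 1)) ℂ}
    (hA : IsForm A) (hB : IsForm B) (hA0 : ∃ y ∈ Cone G, eval y A ≠ 0)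
    (hB0 : ∃ y ∈ Cone G, eval y B ≠ 0) : ∃ y ∈ Cone G, eval y (A * B) ≠ 0 := by
  by_contra hcon
  push Not at hcon
  rcases hirr _ _ hA hB hcon with h | h
  · obtain ⟨y, hy, hne⟩ := hA0
    exact hne (h y hy)
  · obtain ⟨y, hy, hne⟩ := hB0
    exact hne (h y hy)

theorem IrreducibleSet.prod (hirr : IrreducibleSet G) (hne : ∃ y, y ∈ Cone G) {J : Type}
    (s : Finset J) {A : J → MvPolynomial (Fin (m + 1)) ℂ} (hA : ∀ j, IsForm (A j))
    (hA0 : ∀ j, ∃ y ∈ Cone G, eval y (A j) ≠ 0) :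
    IsForm (∏ j ∈ s, A j) ∧ ∃ y ∈ Cone G, eval y (∏ j ∈ s, A j) ≠ 0 := by
  classical
  induction s using Finset.induction_on with
  | empty =>
    obtain ⟨y, hy⟩ := hne
    exact ⟨⟨0, by simpa using isHomogeneous_one (Fin (m + 1)) ℂ⟩, y, hy, by simp⟩
  | insert j s hj ih =>
    rw [Finset.prod_insert hj]
    exact ⟨IsForm.mul' (hA j) ih.1, hirr.two (hA j) ih.1 (hA0 j) ih.2⟩

variable {d : ℕ} {κ : Type} {η : κ → (Fin (n + 1) → ℂ) → (Fin (n + 1) → ℂ) → (Fin (n + 1) → ℂ) → ℂ}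
  {Φ : (Fin (n + 1) → ℂ) → (Fin (n + 1) → ℂ) → ℝ} {ν : ℕ}

/-- **The linear bound of the degree for generically finite covers.** -/
theorem gf_bound [Finite κ] (hX : ProjManifold F d) (hη : PositiveTwoForms (Cone F) ∅ d η)
    (hν : ν ≠ 0) (hh : HomForms (Cone F) ν η) (hΦ : NonposMetric (Cone F) d Φ)
    (hnd : Nondegenerate (Cone F) d Φ)
    (hr : HermitianMetric (Cone F) d Φ ∨ UniformlyConvex (Cone F) d Φ)
    (hP : RationalMap G F P) (hirr : IrreducibleSet G) (hdim : TwoDimensional G P)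
    (hgf : GenericallyFiniteOn G P) :
    ∃ (T : MvPolynomial (Fin (m + 1)) ℂ) (a : ℝ), IsForm T ∧ (∃ y ∈ Cone G, eval y T ≠ 0) ∧
      (∀ g, HolIn G g → (∃ z w, g z ≠ g w) → ∀ z, eval (g z).rep T = 0) ∧
      ∀ (Γ : Subgroup SL(2, ℝ)) (D : Set ℍ), CompactDomain Γ D →
        ∀ g : ℍ → ℙ ℂ (Fin (m + 1) → ℂ), HolH (Cone G) g → (∀ γ ∈ Γ, ∀ z, g (γ • z) = g z) →
        (∃ z, eval (g z).rep T ≠ 0) → degree g D ≤ ENNReal.ofReal a * volume D := by
  obtain ⟨e, he⟩ := hP.form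
  obtain ⟨S, h1, h2, ⟨α, hα⟩, -⟩ := alg_hyp hX hη hν hh hΦ hnd hr
  obtain ⟨E, hE, ⟨y₀, hy₀, hyE⟩, hE2⟩ := exists_form3 hdim S
    fun h hh => ⟨(h1 h hh).1.1, (h1 h hh).2.1⟩
  obtain ⟨i₀, j, k, hijk⟩ := hdim
  obtain ⟨y₁, hy₁, hyi, -⟩ := hijk 1 one_ne_zero
  obtain ⟨b, hb⟩ := hE
  obtain ⟨i, ⟨y₂, hy₂, hy₂i⟩, hgf'⟩ := hgf
  choose K D₀ A hA using hgf'
  have hA' : ∀ j, Eqn G P i j (K j) (D₀ j) (A j) := hA
  have hfin := finiteOff_of_eqn hA'
  set Q := ∏ j, A j (K j) with hQ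
  have hQh : Q.IsHomogeneous (∑ j, D₀ j) := IsHomogeneous.prod _ _ _ fun j _ => (hA j).1 _
  have hEP : IsForm (aeval P E) := ⟨e * b, hb.aeval P he⟩
  have hAP : ∀ j, IsForm (aeval P (A j (K j))) := fun j => ⟨e * D₀ j, ((hA j).1 _).aeval P he⟩
  obtain ⟨q1, q2⟩ := hirr.prod ⟨y₀, hy₀⟩ Finset.univ hAP fun j => by
    obtain ⟨y, hy, hne⟩ := (hA j).2.1
    exact ⟨y, hy, by rw [eval_comp]; exact hne⟩
  rw [← map_prod, ← hQ] at q1 q2
  have q3 : IsForm (X i * P i₀) := IsForm.mul' ⟨1, isHomogeneous_X ℂ i⟩ ⟨e, he i₀⟩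
  have q4 : ∃ y ∈ Cone G, eval y (X i * P i₀) ≠ 0 :=
    hirr.two ⟨1, isHomogeneous_X ℂ i⟩ ⟨e, he i₀⟩ ⟨y₂, hy₂, by rw [eval_X]; exact hy₂i⟩
      ⟨y₁, hy₁, hyi⟩
  obtain ⟨q5, q6⟩ := hirr.three q3 q1 hEP q4 q2 ⟨y₀, hy₀, by rw [eval_comp]; exact hyE⟩
  have hT : ∀ y, eval y (X i * P i₀ * aeval P Q * aeval P E) ≠ 0 → y i ≠ 0 ∧
      ratVal P y ≠ 0 ∧ eval (ratVal P y) Q ≠ 0 ∧ eval (ratVal P y) E ≠ 0 ∧
      eval y (X i * P i₀ * aeval P Q) ≠ 0 := by
    intro y hy
    rw [map_mul] at hy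
    have k0 := left_ne_zero_of_mul hy
    have k1 := right_ne_zero_of_mul hy
    rw [eval_comp] at k1
    have k2 := k0
    rw [map_mul, map_mul, eval_X, eval_comp] at k2
    have k3 := left_ne_zero_of_mul k2
    refine ⟨left_ne_zero_of_mul k3, fun h0 => right_ne_zero_of_mul k3 (congrFun h0 i₀),
      right_ne_zero_of_mul k2, k1, k0⟩
  refine ⟨_, (∑ j, D₀ j : ℕ) * α, q5, q6, fun g hg hnc => ?_, fun Γ D hD g hg hinv hne => ?_⟩
  · by_contra hcon
    push Not at hcon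
    obtain ⟨z₁, hz₁⟩ := hcon
    obtain ⟨k1, k2, k3, k4, k5⟩ := hT _ hz₁
    obtain ⟨f, hf, hfg⟩ := comp_ext he hg.1 (z₁ := z₁) k2 (F := F)
      (fun z hz => hP.maps _ (hg.2 z) hz) hX.form
    by_cases hfc : ∃ z w, f z ≠ f w
    · obtain ⟨h, hh', w, hw⟩ := h2 f hf hfc z₁
      obtain ⟨c, hc⟩ := hfg z₁ k2
      have hc' : ratVal P (g z₁).rep = c • (f z₁).rep := hc
      rw [hc', eval_smul hb, hw, hE2 h hh' w, mul_zero] at k4
      exact k4 rfl
    · push Not at hfc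
      obtain ⟨z, w, hzw⟩ := hnc
      apply hzw
      refine const_of_comp (fun a => ?_) hfin hg ⟨z₁, i₀, k5⟩ (x := (f 0).rep) (fun z => ?_) z w
      · exact IsForm.mul' (IsForm.mul' ⟨1, isHomogeneous_X ℂ i⟩ ⟨e, he a⟩) q1
      · by_cases h0 : ratVal P (g z).rep = 0
        · exact ⟨0, by rw [h0, zero_smul]⟩
        · obtain ⟨c, hc⟩ := hfg z h0
          exact ⟨c, by rw [← hfc z 0]; exact hc⟩
  · obtain ⟨z₁, hz₁⟩ := hne
    obtain ⟨k1, k2, k3, k4, k5⟩ := hT _ hz₁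
    obtain ⟨r, hr, hΓ⟩ := hD.cocompact
    set p : ℙ ℂ (Fin (n + 1) → ℂ) := Projectivization.mk ℂ (ratVal P (g z₁).rep) k2 with hp
    obtain ⟨c, hc, hce⟩ := mk_rep k2 hp
    have hpp : Prop2 (ratVal P (g z₁).rep) p.rep := by
      rw [hce]
      exact (prop2_smul _ _).symm
    obtain ⟨f, ⟨hf, hfi, hfp⟩, hfg⟩ := comp_disc hX.form hP hΓ k2 hpp hg hinv rfl
    have hE0 : eval (f z₁).rep E ≠ 0 := by
      rw [hfp, hce, eval_smul hb]
      exact mul_ne_zero (pow_ne_zero _ hc) k4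
    have hQ0 : eval (f z₁).rep Q ≠ 0 := by
      rw [hfp, hce, eval_smul hQh]
      exact mul_ne_zero (pow_ne_zero _ hc) k3
    have e1 := hα Γ D hD f hf hfi ⟨z₁, fun h hh' w hw => hE0 (by rw [hw]; exact hE2 h hh' w)⟩
    have e2 := speed_int_le hD hf hg hfi hinv
      (loc_all he hf hg hfg ⟨z₁, k2⟩ hA') hQh ⟨z₁, k1⟩ ⟨z₁, hQ0⟩
    have e3 : degree g D ≤ ENNReal.ofReal (∑ j, D₀ j : ℕ) * degree f D := by
      unfold degree
      rw [← mul_div_assoc]
      exact ENNReal.div_le_div_right e2 _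
    refine e3.trans ((mul_le_mul_right e1 _).trans (le_of_eq ?_))
    rw [← mul_assoc, ← ENNReal.ofReal_mul (Nat.cast_nonneg _)]

end Pool.Agent.H33
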