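import Pool.Agent.H33.VDefs

/-! Several rational maps which are jointly generically finite. -/

set_option autoImplicit false

open LinearAlgebra.Projectivization MvPolynomial

namespace Pool.Agent.H33

open Pool.Agent.W602.GT Pool.Agent.N155.BB

variable {m : ℕ} {ι' : Type} {J : Type} [Fintype J] {n : J → ℕ}

/-- The point of `∏ ℂ ^ (n a + 1)` with the blocks of coordinates `x a`. -/
def blockVec (x : ∀ a, Fin (n a + 1) → ℂ) : (Σ a, Fin (n a + 1)) → ℂ := fun p => x p.1 p.2

/-- The polynomial `A` in the blocks of variables is a form of degree `D a` in the variables of the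
block `a`, for each `a`. -/
def MultiForm (D : J → ℕ) (A : MvPolynomial (Σ a, Fin (n a + 1)) ℂ) : Prop :=
  ∀ (c : J → ℂ) (x : ∀ a, Fin (n a + 1) → ℂ),
    eval (blockVec fun a => c a • x a) A = (∏ a, c a ^ D a) * eval (blockVec x) A

/-- The rational maps given by the forms `P a`, for `a` in the finite set `J`, on the projective set
`{G = 0}` in `ℙ ^ m` are jointly generically finite: there is a coordinate `y_i`, not identically zero
on `{G = 0}`, such that for every `j` the ratio `y_j / y_i` is algebraic over the ratios of the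
forms `P a`, that is, there are polynomials `A_0, …, A_K`, which are forms of the same degree in each
block of variables, the last of which is not identically zero at the values of `(P a)_a`, such that
`A_0 (P (y)) y_i ^ K + A_1 (P (y)) y_j y_i ^ (K - 1) + ⋯ + A_K (P (y)) y_j ^ K = 0` on `{G = 0}`.
If `{G = 0}` is irreducible, this means that the map `(P a)_a` to the product of the projective spaces
is generically finite. -/
def JointlyFinite (G : ι' → MvPolynomial (Fin (m + 1)) ℂ)
    (P : ∀ a, Fin (n a + 1) → MvPolynomial (Fin (m + 1)) ℂ) : Prop :=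
  ∃ i : Fin (m + 1), (∃ y ∈ Cone G, y i ≠ 0) ∧ ∀ j : Fin (m + 1),
    ∃ (K : ℕ) (D : J → ℕ) (A : ℕ → MvPolynomial (Σ a, Fin (n a + 1)) ℂ),
      (∀ k, MultiForm D (A k)) ∧
      (∃ y ∈ Cone G, eval (blockVec fun a => ratVal (P a) y) (A K) ≠ 0) ∧
      ∀ y ∈ Cone G, ∑ k ∈ Finset.range (K + 1),
        eval (blockVec fun a => ratVal (P a) y) (A k) * y j ^ k * y i ^ (K - k) = 0

/-- `X = {F = 0}` is a projective manifold of dimension `d` with the following two properties.

* The 2-forms of `X` are positive: there are finitely many sections of `Sym ^ ν (Λ² Ω) ⊗ O (-1)`, for some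
  `ν > 0`, whose values at `(v ∧ w) ^ ν` are not all zero for linearly independent tangent vectors `v`,
  `w`. This holds if `Λ² Ω` is ample, for surfaces with ample canonical bundle, and for all curves.
* `X` has a Hermitian metric with twice continuously differentiable coefficients, or a uniformly convex
  complex Finsler metric, whose holomorphic sectional curvature is nonpositive. -/
def NonposManifold {k : ℕ} {ι : Type} (F : ι → MvPolynomial (Fin (k + 1)) ℂ) (d : ℕ) : Prop :=
  ProjManifold F d ∧
    (∃ (ν : ℕ) (κ : Type) (η : κ → (Fin (k + 1) → ℂ) → (Fin (k + 1) → ℂ) → (Fin (k + 1) → ℂ) → ℂ),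
      Finite κ ∧ ν ≠ 0 ∧ PositiveTwoForms (Cone F) ∅ d η ∧ HomForms (Cone F) ν η) ∧
    ∃ Φ : (Fin (k + 1) → ℂ) → (Fin (k + 1) → ℂ) → ℝ, NonposMetric (Cone F) d Φ ∧
      Nondegenerate (Cone F) d Φ ∧ (HermitianMetric (Cone F) d Φ ∨ UniformlyConvex (Cone F) d Φ)

end Pool.Agent.H33
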