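import Pool.Agent.H33.VE
import Pool.Agent.H33.VGDefs

/-! The quotient of the metrics, for several maps. -/

set_option autoImplicit false

open Filter Topology Metric Set MvPolynomial MeasureTheory LinearAlgebra.Projectivization
open scoped UpperHalfPlane MatrixGroups ENNReal

namespace Pool.Agent.H33

open Pool.Agent.Y190.OP Pool.Agent.W602.GT Pool.Agent.N155 Pool.Agent.N155.BB
open Real (circleAverage)

variable {m : ℕ} {J : Type} [Fintype J] {n : J → ℕ}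

omit [Fintype J] in
theorem Asym.sum {σ : J → ℂ → ℝ} {a : ℂ} {c : J → ℝ} (s : Finset J)
    (h : ∀ j, Asym (σ j) a (c j)) (hc : ∀ j, ∀ᶠ z in 𝓝 a, ContinuousAt (σ j) z) :
    Asym (fun z => ∑ j ∈ s, σ j z) a (∑ j ∈ s, c j) ∧
      ∀ᶠ z in 𝓝 a, ContinuousAt (fun z => ∑ j ∈ s, σ j z) z := by
  classical
  induction s using Finset.induction_on with
  | empty =>
    simp only [Finset.sum_empty]
    refine ⟨fun ε hε => ⟨1, one_pos, fun r hr _ => ?_⟩, Eventually.of_forall fun z =>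
      continuousAt_const⟩
    rw [Real.circleAverage_const]
    simp
    positivity
  | insert j s hj ih =>
    simp only [Finset.sum_insert hj]
    refine ⟨(h j).add ih.1 (hc j) ih.2, ?_⟩
    filter_upwards [hc j, ih.2] with z h1 h2 using h1.add h2

variable {f : ∀ a, ℍ → ℙ ℂ (Fin (n a + 1) → ℂ)} {g : ℍ → ℙ ℂ (Fin (m + 1) → ℂ)}

/-- local coordinates and the local quotient -/
structure LocJ (f : ∀ a, ℍ → ℙ ℂ (Fin (n a + 1) → ℂ)) (g : ℍ → ℙ ℂ (Fin (m + 1) → ℂ))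
    (i : Fin (m + 1)) (A : MvPolynomial (Σ a, Fin (n a + 1)) ℂ) (z : ℍ) (V : J → Set ℂ) (W : Set ℂ)
    (f₀ : ∀ a, ℂ → Fin (n a + 1) → ℂ) (g₀ : ℂ → Fin (m + 1) → ℂ) (l : ℂ → ℂ) : Prop where
  lf : ∀ a, HLift (f a) (V a) (f₀ a)
  zf : ∀ a, (z : ℂ) ∈ V a
  lg : HLift g W g₀
  zg : (z : ℂ) ∈ W
  an : AnalyticAt ℂ l z
  eq : ∀ᶠ w : ℍ in 𝓝 z, eval (blockVec fun a => f₀ a w) A = l w * g₀ w i

/-- the quotient, where it is defined -/
noncomputable def phiJ (f : ∀ a, ℍ → ℙ ℂ (Fin (n a + 1) → ℂ)) (g : ℍ → ℙ ℂ (Fin (m + 1) → ℂ))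
    (i : Fin (m + 1)) (A : MvPolynomial (Σ a, Fin (n a + 1)) ℂ) (N : J → ℕ) (w : ℍ) : ℝ :=
  ‖eval (blockVec fun a => (f a w).rep) A‖ ^ 2 / (∏ a, sqn (f a w).rep ^ N a) *
    (sqn (g w).rep / ‖(g w).rep i‖ ^ 2)

/-- the quotient -/
noncomputable def thetaJ (f : ∀ a, ℍ → ℙ ℂ (Fin (n a + 1) → ℂ)) (g : ℍ → ℙ ℂ (Fin (m + 1) → ℂ))
    (i : Fin (m + 1)) (A : MvPolynomial (Σ a, Fin (n a + 1)) ℂ) (N : J → ℕ) (w : ℍ) : ℝ :=
  limUnder (𝓝[≠] w) (phiJ f g i A N)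

/-- the quotient in local coordinates -/
noncomputable def psiJ (f₀ : ∀ a, ℂ → Fin (n a + 1) → ℂ) (g₀ : ℂ → Fin (m + 1) → ℂ) (l : ℂ → ℂ)
    (N : J → ℕ) (w : ℂ) : ℝ := ‖l w‖ ^ 2 * sqn (g₀ w) / ∏ a, sqn (f₀ a w) ^ N a

variable {i : Fin (m + 1)} {A : MvPolynomial (Σ a, Fin (n a + 1)) ℂ} {N : J → ℕ} {z : ℍ}
  {V : J → Set ℂ} {W : Set ℂ}
  {f₀ : ∀ a, ℂ → Fin (n a + 1) → ℂ} {g₀ : ℂ → Fin (m + 1) → ℂ} {l : ℂ → ℂ}

theorem phiJ_eq (hA : MultiForm N A) (hf : ∀ a, HLift (f a) (V a) (f₀ a)) (hg : HLift g W g₀)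
    (hzV : ∀ a, (z : ℂ) ∈ V a) (hzW : (z : ℂ) ∈ W)
    (he : eval (blockVec fun a => f₀ a z) A = l z * g₀ z i)
    (hi : (g z).rep i ≠ 0) : phiJ f g i A N z = psiJ f₀ g₀ l N z := by
  choose c hc hcf using fun a => (hf a).rep (hzV a)
  obtain ⟨b, hb, hbg⟩ := hg.rep hzW
  have hi' : g₀ z i ≠ 0 := by
    intro h0
    apply hi
    rw [hbg, Pi.smul_apply, h0, smul_zero]
  have h1 : 0 < ‖g₀ z i‖ := norm_pos_iff.2 hi'
  have h2 : 0 < ‖b‖ := norm_pos_iff.2 hb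
  have h5 : (fun a => (f a z).rep) = fun a => c a • f₀ a z := funext hcf
  unfold phiJ psiJ
  rw [h5, hA, he]
  simp only [hcf]
  have e1 : ∏ a, sqn (c a • f₀ a z) ^ N a = ‖∏ a, c a ^ N a‖ ^ 2 * ∏ a, sqn (f₀ a z) ^ N a := by
    rw [norm_prod, ← Finset.prod_pow, ← Finset.prod_mul_distrib]
    refine Finset.prod_congr rfl fun a _ => ?_
    rw [sqn_smul', mul_pow, norm_pow, ← pow_mul, ← pow_mul, mul_comm 2]
  have h3 : 0 < ‖∏ a, c a ^ N a‖ := norm_pos_iff.2 (Finset.prod_ne_zero_iff.2 fun a _ =>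
    pow_ne_zero _ (hc a))
  have h4 : 0 < ∏ a, sqn (f₀ a z) ^ N a := Finset.prod_pos fun a _ =>
    pow_pos (sqn_pos ((hf a).eq z (hzV a)).1) _
  rw [e1, hbg, sqn_smul', Pi.smul_apply, smul_eq_mul, norm_mul, norm_mul, norm_mul, mul_pow,
    mul_pow, mul_pow]
  field_simp

theorem psiJ_cont (hf : ∀ a, AnalyticAt ℂ (f₀ a) z) (hf0 : ∀ a, f₀ a z ≠ 0)
    (hg : AnalyticAt ℂ g₀ z) (hl : AnalyticAt ℂ l z) :
    ContinuousAt (fun w : ℍ => psiJ f₀ g₀ l N w) z := by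
  have hcoe : ContinuousAt (fun w : ℍ => (w : ℂ)) z := UpperHalfPlane.continuous_coe.continuousAt
  have h1 : ContinuousAt (fun w : ℂ => sqn (g₀ w)) z :=
    ContinuousAt.comp (g := sqn) (f := g₀) sqn_cont.continuousAt hg.continuousAt
  have h2 : ContinuousAt (fun w : ℂ => ∏ a, sqn (f₀ a w) ^ N a) z :=
    tendsto_finsetProd _ fun a _ => by
      have k1 : ContinuousAt (fun w : ℂ => sqn (f₀ a w)) z :=
        ContinuousAt.comp (g := sqn) (f := f₀ a) sqn_cont.continuousAt (hf a).continuousAt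
      exact k1.pow (N a)
  have h4 : 0 < ∏ a, sqn (f₀ a z) ^ N a := Finset.prod_pos fun a _ => pow_pos (sqn_pos (hf0 a)) _
  have h3 : ContinuousAt (psiJ f₀ g₀ l N) z :=
    (((hl.continuousAt.norm).pow 2).mul h1).div h2 h4.ne'
  exact ContinuousAt.comp (g := psiJ f₀ g₀ l N) (f := fun w : ℍ => (w : ℂ)) h3 hcoe

/-- the quotient near a point -/
theorem LocJ.ev (L : LocJ f g i A z V W f₀ g₀ l) (hA : MultiForm N A)
    (hiso : ∀ z₀ : ℍ, ∀ᶠ w in 𝓝[≠] z₀, (g w).rep i ≠ 0) :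
    ∀ᶠ w : ℍ in 𝓝 z, thetaJ f g i A N w = psiJ f₀ g₀ l N w ∧
      Tendsto (phiJ f g i A N) (𝓝[≠] w) (𝓝 (thetaJ f g i A N w)) := by
  have hcoe : ContinuousAt (fun w : ℍ => (w : ℂ)) z := UpperHalfPlane.continuous_coe.continuousAt
  have h1 : ∀ᶠ w : ℍ in 𝓝 z, (∀ a, (w : ℂ) ∈ V a) ∧ (w : ℂ) ∈ W ∧
      eval (blockVec fun a => f₀ a w) A = l w * g₀ w i := by
    filter_upwards [eventually_all.2 fun a => hcoe.eventually ((L.lf a).op.mem_nhds (L.zf a)),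
      hcoe.eventually (L.lg.op.mem_nhds L.zg), L.eq] with w h1 h2 h3
    exact ⟨h1, h2, h3⟩
  filter_upwards [eventually_eventually_nhds.2 h1, hcoe.eventually L.an.eventually_analyticAt]
    with w h2 h3
  obtain ⟨k1, k2, k3⟩ := h2.self_of_nhds
  have hc := psiJ_cont (N := N) (fun a => (L.lf a).analyticAt (k1 a))
    (fun a => ((L.lf a).eq w (k1 a)).1) (L.lg.analyticAt k2) h3
  have h4 : Tendsto (phiJ f g i A N) (𝓝[≠] w) (𝓝 (psiJ f₀ g₀ l N w)) := by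
    refine (hc.tendsto.mono_left nhdsWithin_le_nhds).congr' ?_
    filter_upwards [nhdsWithin_le_nhds h2, hiso w] with x ⟨e1, e2, e3⟩ e4
    exact (phiJ_eq hA L.lf L.lg e1 e2 e3 e4).symm
  have := neBot_H w
  have h5 : thetaJ f g i A N w = psiJ f₀ g₀ l N w := h4.limUnder_eq
  exact ⟨h5, by rw [h5]; exact h4⟩

/-- the quotients exist locally -/
def LocAllJ (f : ∀ a, ℍ → ℙ ℂ (Fin (n a + 1) → ℂ)) (g : ℍ → ℙ ℂ (Fin (m + 1) → ℂ))
    (i : Fin (m + 1)) (A : MvPolynomial (Σ a, Fin (n a + 1)) ℂ) : Prop :=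
  ∀ z : ℍ, ∃ (V : J → Set ℂ) (W : Set ℂ) (f₀ : ∀ a, ℂ → Fin (n a + 1) → ℂ)
    (g₀ : ℂ → Fin (m + 1) → ℂ) (l : ℂ → ℂ), LocJ f g i A z V W f₀ g₀ l

theorem thetaJ_cont (hL : LocAllJ f g i A) (hA : MultiForm N A)
    (hiso : ∀ z₀ : ℍ, ∀ᶠ w in 𝓝[≠] z₀, (g w).rep i ≠ 0) : Continuous (thetaJ f g i A N) := by
  rw [continuous_iff_continuousAt]
  intro z
  obtain ⟨V, W, f₀, g₀, l, L⟩ := hL z
  refine (psiJ_cont (N := N) (fun a => (L.lf a).analyticAt (L.zf a))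
    (fun a => ((L.lf a).eq z (L.zf a)).1) (L.lg.analyticAt L.zg) L.an).congr ?_
  filter_upwards [L.ev hA hiso] with w hw
  exact hw.1.symm

theorem thetaJ_nonneg (hL : LocAllJ f g i A) (hA : MultiForm N A)
    (hiso : ∀ z₀ : ℍ, ∀ᶠ w in 𝓝[≠] z₀, (g w).rep i ≠ 0) (z : ℍ) : 0 ≤ thetaJ f g i A N z := by
  obtain ⟨V, W, f₀, g₀, l, L⟩ := hL z
  rw [(L.ev hA hiso).self_of_nhds.1]
  exact div_nonneg (mul_nonneg (sq_nonneg _) (sqn_nonneg _))
    (Finset.prod_nonneg fun a _ => pow_nonneg (sqn_nonneg _) _)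

theorem thetaJ_ne (hL : LocAllJ f g i A) (hA : MultiForm N A)
    (hiso : ∀ z₀ : ℍ, ∀ᶠ w in 𝓝[≠] z₀, (g w).rep i ≠ 0) {z : ℍ}
    (hz : eval (blockVec fun a => (f a z).rep) A ≠ 0) : thetaJ f g i A N z ≠ 0 := by
  obtain ⟨V, W, f₀, g₀, l, L⟩ := hL z
  rw [(L.ev hA hiso).self_of_nhds.1]
  have h1 := L.eq.self_of_nhds
  choose c hc hcf using fun a => (L.lf a).rep (L.zf a)
  have h5 : (fun a => (f a z).rep) = fun a => c a • f₀ a z := funext hcf
  rw [h5, hA, h1] at hz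
  have h2 : l z ≠ 0 := left_ne_zero_of_mul (right_ne_zero_of_mul hz)
  have h3 := sqn_pos (L.lg.eq z L.zg).1
  have h4 : 0 < ∏ a, sqn (f₀ a z) ^ N a := Finset.prod_pos fun a _ =>
    pow_pos (sqn_pos ((L.lf a).eq z (L.zf a)).1) _
  have h6 : 0 < ‖l z‖ := norm_pos_iff.2 h2
  unfold psiJ
  positivity

theorem thetaJ_inv (hL : LocAllJ f g i A) (hA : MultiForm N A)
    (hiso : ∀ z₀ : ℍ, ∀ᶠ w in 𝓝[≠] z₀, (g w).rep i ≠ 0) {γ : SL(2, ℝ)}
    (hf : ∀ a, ∀ z : ℍ, f a (γ • z) = f a z) (hg : ∀ z : ℍ, g (γ • z) = g z) (z : ℍ) :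
    thetaJ f g i A N (γ • z) = thetaJ f g i A N z := by
  obtain ⟨V, W, f₀, g₀, l, L⟩ := hL z
  obtain ⟨V', W', f₀', g₀', l', L'⟩ := hL (γ • z)
  have h1 := (L.ev hA hiso).self_of_nhds.2
  have h2 := (L'.ev hA hiso).self_of_nhds.2
  have h3 : Tendsto (fun w : ℍ => γ • w) (𝓝[≠] z) (𝓝[≠] (γ • z)) := by
    refine tendsto_nhdsWithin_iff.2 ⟨?_, ?_⟩
    · exact (continuous_const_smul γ).continuousAt.tendsto.mono_left nhdsWithin_le_nhds
    · filter_upwards [self_mem_nhdsWithin] with w hw h0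
      exact hw (smul_left_cancel γ h0)
  have h4 := h2.comp h3
  have h5 : (phiJ f g i A N ∘ fun w : ℍ => γ • w) = phiJ f g i A N := by
    funext w
    simp only [Function.comp_apply]
    unfold phiJ
    simp only [hf, hg]
  rw [h5] at h4
  have := neBot_H z
  exact tendsto_nhds_unique h4 h1

/-- the Laplacian of the logarithm of the quotient -/
theorem thetaJ_asym (hL : LocAllJ f g i A) (hA : MultiForm N A)
    (hiso : ∀ z₀ : ℍ, ∀ᶠ w in 𝓝[≠] z₀, (g w).rep i ≠ 0) (z : ℍ) {ζ : ℂ}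
    (hζ : ζ ∈ ball (0 : ℂ) 1) (h0 : thetaJ f g i A N (cayH z ζ) ≠ 0) :
    Asym (fun s => Real.log (thetaJ f g i A N (cayH z s))) ζ
      (4 * (speedSq g (cayH z ζ) - 1 * ∑ a, N a * speedSq (f a) (cayH z ζ)) /
        (1 - ‖ζ‖ ^ 2) ^ 2) := by
  obtain ⟨V, W, f₀, g₀, l, L⟩ := hL (cayH z ζ)
  have hc := coe_cayH z hζ
  have hev := L.ev hA hiso
  have zf := L.zf
  have zg := L.zg
  have hl := L.an
  simp only [hc] at zf zg hl
  have hθ := hev.self_of_nhds.1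
  rw [hθ] at h0
  have hl0 : l (cay z ζ) ≠ 0 := by
    intro h1
    apply h0
    unfold psiJ
    rw [hc, h1]
    simp
  have hcay : AnalyticAt ℂ (cay z) ζ :=
    (differentiableOn_cay z).analyticAt (isOpen_ball.mem_nhds hζ)
  have hla : AnalyticAt ℂ (fun s => l (cay z s)) ζ := hl.comp hcay
  obtain ⟨a1, a2, a3⟩ := L.lg.disc z hζ zg
  have hb := fun a => (L.lf a).disc z hζ (zf a)
  have h1 := asym_log a1 a2
  have h2 := Asym.sum Finset.univ (fun a => ((asym_log (hb a).1 (hb a).2.1).const_mul (-(N a : ℝ))))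
    (fun a => (cont_log_sqn (hb a).1 (hb a).2.1).mono fun s hs =>
      continuousAt_const (y := -(N a : ℝ)).mul hs)
  have h3 := (asym_harm (hla.harmonicAt_log_norm hl0)).const_mul 2
  rw [a3] at h1
  have c1 := cont_log_sqn a1 a2
  have c3 := (cont_log_norm hla hl0).mono fun s hs => continuousAt_const (y := (2 : ℝ)).mul hs
  have h4 := (h1.add h2.1 c1 h2.2).add h3 ((c1.and h2.2).mono fun s hs => hs.1.add hs.2) c3
  have hcH : ContinuousAt (cayH z) ζ :=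
    (continuousOn_cayH z).continuousAt (isOpen_ball.mem_nhds hζ)
  have h5 : Asym (fun s => Real.log (thetaJ f g i A N (cayH z s))) ζ _ := h4.congr (by
    filter_upwards [hcH.eventually hev, isOpen_ball.mem_nhds hζ,
      hla.continuousAt.eventually_ne hl0, a1.continuousAt.eventually_ne a2,
      eventually_all.2 fun a => (hb a).1.continuousAt.eventually_ne (hb a).2.1] with s k1 k2 k3 k4 k5
    have p1 : 0 < ‖l (cay z s)‖ := norm_pos_iff.2 k3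
    have p2 := sqn_pos k4
    have p3 := fun a => sqn_pos (k5 a)
    have p4 : 0 < ∏ a, sqn (f₀ a (cay z s)) ^ N a := Finset.prod_pos fun a _ => pow_pos (p3 a) _
    rw [k1.1, coe_cayH z k2]
    unfold psiJ
    rw [Real.log_div (by positivity) p4.ne', Real.log_mul (by positivity) p2.ne',
      Real.log_pow, Real.log_prod fun a _ => (pow_pos (p3 a) _).ne']
    simp only [Real.log_pow, neg_mul, Finset.sum_neg_distrib]
    push_cast
    ring)
  convert h5 using 1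
  have e1 : ∀ a, -(N a : ℝ) * (wedge (f₀ a (cay z ζ)) (deriv (fun s => f₀ a (cay z s)) ζ) /
      sqn (f₀ a (cay z ζ))) ^ 2 = -(4 / (1 - ‖ζ‖ ^ 2) ^ 2) * (N a * speedSq (f a) (cayH z ζ)) := by
    intro a
    rw [(hb a).2.2]
    ring
  simp only [e1, ← Finset.mul_sum]
  ring

variable {ι' : Type} {ι : J → Type} {G : ι' → MvPolynomial (Fin (m + 1)) ℂ}
  {F : ∀ a, ι a → MvPolynomial (Fin (n a + 1)) ℂ} {Γ : Subgroup SL(2, ℝ)} {D : Set ℍ}

/-- **The comparison of the degrees.** -/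
theorem speedJ_int_le (hD : CompactDomain Γ D) (hf : ∀ a, HolH (Cone (F a)) (f a))
    (hg : HolH (Cone G) g)
    (hfi : ∀ a, ∀ γ ∈ Γ, ∀ z : ℍ, f a (γ • z) = f a z) (hgi : ∀ γ ∈ Γ, ∀ z : ℍ, g (γ • z) = g z)
    (hL : LocAllJ f g i A) (hA : MultiForm N A) (hi : ∃ z, (g z).rep i ≠ 0)
    (hA0 : {z | eval (blockVec fun a => (f a z).rep) A = 0}.Countable) :
    ∫⁻ z in D, ENNReal.ofReal (speedSq g z) ≤
      ∑ a, ENNReal.ofReal (N a) * ∫⁻ z in D, ENNReal.ofReal (speedSq (f a) z) := by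
  have hiso : ∀ z₀ : ℍ, ∀ᶠ w in 𝓝[≠] z₀, (g w).rep i ≠ 0 := by
    intro z₀
    have h1 := form_isolated hg (isHomogeneous_X ℂ i) (by
      obtain ⟨z, hz⟩ := hi
      exact ⟨z, by rw [eval_X]; exact hz⟩) z₀
    filter_upwards [h1] with w hw
    rwa [eval_X] at hw
  have hcs : Continuous fun z => ∑ a, N a * speedSq (f a) z :=
    continuous_finsetSum _ fun a _ => (speedSq_cont (hf a)).const_mul _
  have hnn : ∀ a z, 0 ≤ (N a : ℝ) * speedSq (f a) z := fun a z =>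
    mul_nonneg (Nat.cast_nonneg _) (speedSq_nonneg (hf a) z)
  have main := int_le hD (Θ := thetaJ f g i A N) (s₁ := speedSq g)
    (s₂ := fun z => ∑ a, N a * speedSq (f a) z) zero_le_one (speedSq_cont hg) hcs
    (fun γ hγ z => speedSq_smul hg (hgi γ hγ) z)
    (fun γ hγ z => by
      refine Finset.sum_congr rfl fun a _ => ?_
      rw [speedSq_smul (hf a) (hfi a γ hγ) z])
    (speedSq_nonneg hg) (fun z => Finset.sum_nonneg fun a _ => hnn a z) (thetaJ_cont hL hA hiso)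
    (fun γ hγ z => thetaJ_inv hL hA hiso (fun a => hfi a γ hγ) (hgi γ hγ) z)
    (thetaJ_nonneg hL hA hiso) (by
      have h1 := null_of_countable hA0
      rw [← compl_mem_ae_iff] at h1
      filter_upwards [h1] with z hz
      exact thetaJ_ne hL hA hiso hz)
    fun z ζ hζ h0 => thetaJ_asym hL hA hiso z hζ h0
  rw [ENNReal.ofReal_one, one_mul] at main
  refine main.trans (le_of_eq ?_)
  have h1 : ∀ z, ENNReal.ofReal (∑ a, N a * speedSq (f a) z) =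
      ∑ a, ENNReal.ofReal (N a) * ENNReal.ofReal (speedSq (f a) z) := by
    intro z
    rw [ENNReal.ofReal_sum_of_nonneg fun a _ => hnn a z]
    exact Finset.sum_congr rfl fun a _ => ENNReal.ofReal_mul (Nat.cast_nonneg _)
  simp only [h1]
  rw [lintegral_finsetSum _ fun a _ => ((speedSq_cont (hf a)).measurable.ennreal_ofReal).const_mul _]
  refine Finset.sum_congr rfl fun a _ => ?_
  rw [lintegral_const_mul' _ _ ENNReal.ofReal_ne_top]

end Pool.Agent.H33
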