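import Pool.Agent.H33.VG

/-! The local quotients, for several maps. -/

set_option autoImplicit false

open Filter Topology Metric Set MvPolynomial MeasureTheory LinearAlgebra.Projectivization
open scoped UpperHalfPlane MatrixGroups ENNReal

namespace Pool.Agent.H33

open Pool.Agent.Y190.OP Pool.Agent.W602.GT Pool.Agent.N155 Pool.Agent.N155.BB

variable {m : ℕ} {J : Type} [Fintype J] {n : J → ℕ} {ι' : Type} {ι : J → Type}
  {G : ι' → MvPolynomial (Fin (m + 1)) ℂ} {F : ∀ a, ι a → MvPolynomial (Fin (n a + 1)) ℂ}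
  {P : ∀ a, Fin (n a + 1) → MvPolynomial (Fin (m + 1)) ℂ}
  {f : ∀ a, ℍ → ℙ ℂ (Fin (n a + 1) → ℂ)} {g : ℍ → ℙ ℂ (Fin (m + 1) → ℂ)}

/-- the equation of one coordinate -/
def EqnJ (G : ι' → MvPolynomial (Fin (m + 1)) ℂ)
    (P : ∀ a, Fin (n a + 1) → MvPolynomial (Fin (m + 1)) ℂ)
    (i j : Fin (m + 1)) (K : ℕ) (D : J → ℕ) (A : ℕ → MvPolynomial (Σ a, Fin (n a + 1)) ℂ) : Prop :=
  (∀ k, MultiForm D (A k)) ∧
      (∃ y ∈ Cone G, eval (blockVec fun a => ratVal (P a) y) (A K) ≠ 0) ∧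
      ∀ y ∈ Cone G, ∑ k ∈ Finset.range (K + 1),
        eval (blockVec fun a => ratVal (P a) y) (A k) * y j ^ k * y i ^ (K - k) = 0

/-- homogeneity of the equation -/
theorem eqnJ_smul {K : ℕ} {D : J → ℕ} {A : ℕ → MvPolynomial (Σ a, Fin (n a + 1)) ℂ}
    (hA : ∀ k, MultiForm D (A k)) (i j : Fin (m + 1)) (x : ∀ a, Fin (n a + 1) → ℂ)
    (y : Fin (m + 1) → ℂ) (c : J → ℂ) (b : ℂ) :
    ∑ k ∈ Finset.range (K + 1), eval (blockVec fun a => c a • x a) (A k) * (b • y) j ^ k *
      (b • y) i ^ (K - k) = (∏ a, c a ^ D a) * b ^ K *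
        ∑ k ∈ Finset.range (K + 1), eval (blockVec x) (A k) * y j ^ k * y i ^ (K - k) := by
  rw [Finset.mul_sum]
  refine Finset.sum_congr rfl fun k hk => ?_
  have hk' : k ≤ K := Nat.lt_succ_iff.1 (Finset.mem_range.1 hk)
  have h1 : b ^ K = b ^ k * b ^ (K - k) := by rw [← pow_add, Nat.add_sub_cancel' hk']
  rw [hA k, h1]
  simp only [Pi.smul_apply, smul_eq_mul, mul_pow]
  ring

theorem an_evalJ {f₀ : ∀ a, ℂ → Fin (n a + 1) → ℂ} {z : ℂ} (h : ∀ a, AnalyticAt ℂ (f₀ a) z)
    (Q : MvPolynomial (Σ a, Fin (n a + 1)) ℂ) :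
    AnalyticAt ℂ (fun w => eval (blockVec fun a => f₀ a w) Q) z := by
  have h1 : AnalyticAt ℂ (fun w => (blockVec fun a => f₀ a w)) z :=
    analyticAt_pi_iff.2 fun p => (analyticAt_pi_iff.1 (h p.1)) p.2
  have h2 : AnalyticAt ℂ (fun y : (Σ a, Fin (n a + 1)) → ℂ => eval y Q)
      (blockVec fun a => f₀ a z) := AnalyticOnNhd.eval_mvPolynomial Q _ (mem_univ _)
  exact AnalyticAt.comp (g := fun y : (Σ a, Fin (n a + 1)) → ℂ => eval y Q)
    (f := fun w => blockVec fun a => f₀ a w) h2 h1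

theorem multiForm_prod {T : Type} [Fintype T] {D : T → J → ℕ}
    {A : T → MvPolynomial (Σ a, Fin (n a + 1)) ℂ} (hA : ∀ t, MultiForm (D t) (A t)) :
    MultiForm (fun a => ∑ t, D t a) (∏ t, A t) := by
  intro c x
  rw [map_prod, map_prod]
  simp only [fun t => hA t c x]
  rw [Finset.prod_mul_distrib, Finset.prod_comm]
  simp only [Finset.prod_pow_eq_pow_sum]

theorem loc_allJ {e : J → ℕ} (he : ∀ a j, (P a j).IsHomogeneous (e a))
    (hf : ∀ a, HolH (Cone (F a)) (f a))
    (hg : HolH (Cone G) g) (hfg : ∀ a w, Prop2 (ratVal (P a) (g w).rep) (f a w).rep)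
    (hdef : ∀ a, ∃ z, ratVal (P a) (g z).rep ≠ 0) {i : Fin (m + 1)} {K : Fin (m + 1) → ℕ}
    {D : Fin (m + 1) → J → ℕ} {A : Fin (m + 1) → ℕ → MvPolynomial (Σ a, Fin (n a + 1)) ℂ}
    (hA : ∀ j, EqnJ G P i j (K j) (D j) (A j)) : LocAllJ f g i (∏ j, A j (K j)) := by
  classical
  intro z
  choose V f₀ lf zf using fun a => (hf a).lift z
  obtain ⟨W, g₀, lg, zg⟩ := hg.lift z
  have hcoe : ∀ w : ℍ, ContinuousAt (fun w : ℍ => (w : ℂ)) w := fun w =>
    UpperHalfPlane.continuous_coe.continuousAt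
  have hiso : ∀ z₀ : ℍ, ∀ᶠ w in 𝓝[≠] z₀, ∀ a, ratVal (P a) (g w).rep ≠ 0 := by
    intro z₀
    refine eventually_all.2 fun a => ?_
    obtain ⟨z₁, hz₁⟩ := hdef a
    obtain ⟨k, hk⟩ := Function.ne_iff.1 hz₁
    filter_upwards [form_isolated hg (he a k) ⟨z₁, hk⟩ z₀] with w hw h0
    exact hw (congrFun h0 k)
  obtain ⟨j, hj⟩ := Function.ne_iff.1 (lg.eq z zg).1
  have hj : g₀ z j ≠ 0 := hj
  obtain ⟨hA1, hA2, hA3⟩ := hA j
  have hR : ∀ w : ℍ, (∀ a, (w : ℂ) ∈ V a) → (w : ℂ) ∈ W → (∀ a, ratVal (P a) (g w).rep ≠ 0) →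
      ∑ k ∈ Finset.range (K j + 1), eval (blockVec fun a => f₀ a w) (A j k) * g₀ w j ^ k *
        g₀ w i ^ (K j - k) = 0 := by
    intro w hV hW hne
    choose c hc hcf using fun a => (lf a).rep (hV a)
    obtain ⟨b, hb, hbg⟩ := lg.rep hW
    choose c' hc' using fun a => (hfg a w).smul (hne a)
    have h1 : (fun a => f₀ a w) = fun a => ((c a)⁻¹ * c' a) • ratVal (P a) (g w).rep := by
      funext a
      rw [mul_smul, ← hc' a, hcf a, smul_smul, inv_mul_cancel₀ (hc a), one_smul]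
    have h2 : g₀ w = b⁻¹ • (g w).rep := by
      rw [hbg, smul_smul, inv_mul_cancel₀ hb, one_smul]
    rw [h1, h2, eqnJ_smul hA1, hA3 _ (hg w).1, mul_zero]
  have hcR : ∀ w : ℍ, (∀ a, (w : ℂ) ∈ V a) → (w : ℂ) ∈ W → ContinuousAt (fun w : ℍ =>
      ∑ k ∈ Finset.range (K j + 1), eval (blockVec fun a => f₀ a w) (A j k) * g₀ w j ^ k *
        g₀ w i ^ (K j - k)) w := by
    intro w hV hW
    have h1 : AnalyticAt ℂ (fun w : ℂ => ∑ k ∈ Finset.range (K j + 1),
        eval (blockVec fun a => f₀ a w) (A j k) * g₀ w j ^ k * g₀ w i ^ (K j - k)) w := by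
      refine Finset.analyticAt_fun_sum _ fun k _ => ?_
      have k1 := an_evalJ (fun a => (lf a).analyticAt (hV a)) (A j k)
      have k2 := (analyticAt_pi_iff.1 (lg.analyticAt hW)) j
      have k3 := (analyticAt_pi_iff.1 (lg.analyticAt hW)) i
      exact (k1.mul (k2.pow k)).mul (k3.pow _)
    exact ContinuousAt.comp (g := fun w : ℂ => ∑ k ∈ Finset.range (K j + 1),
      eval (blockVec fun a => f₀ a w) (A j k) * g₀ w j ^ k * g₀ w i ^ (K j - k))
      (f := fun w : ℍ => (w : ℂ)) h1.continuousAt (hcoe w)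
  have hRall : ∀ w : ℍ, (∀ a, (w : ℂ) ∈ V a) → (w : ℂ) ∈ W →
      ∑ k ∈ Finset.range (K j + 1), eval (blockVec fun a => f₀ a w) (A j k) * g₀ w j ^ k *
        g₀ w i ^ (K j - k) = 0 := by
    intro w hV hW
    have := neBot_H w
    refine tendsto_nhds_unique ((hcR w hV hW).tendsto.mono_left nhdsWithin_le_nhds)
      ((tendsto_const_nhds (x := (0 : ℂ)) (f := 𝓝[≠] w)).congr' ?_)
    filter_upwards [hiso w, nhdsWithin_le_nhds (eventually_all.2 fun a =>
      (hcoe w).eventually ((lf a).op.mem_nhds (hV a))),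
      nhdsWithin_le_nhds ((hcoe w).eventually (lg.op.mem_nhds hW))] with x h1 h2 h3
    exact (hR x h2 h3 h1).symm
  set l : ℂ → ℂ := fun w => -(∑ k ∈ Finset.range (K j),
    eval (blockVec fun a => f₀ a w) (A j k) * g₀ w j ^ k * g₀ w i ^ (K j - 1 - k)) /
    g₀ w j ^ K j * ∏ j' ∈ Finset.univ.erase j, eval (blockVec fun a => f₀ a w) (A j' (K j'))
    with hl
  have gj := (analyticAt_pi_iff.1 (lg.analyticAt zg)) j
  have gi := (analyticAt_pi_iff.1 (lg.analyticAt zg)) i
  have fa := fun a => (lf a).analyticAt (zf a)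
  refine ⟨V, W, f₀, g₀, l, lf, zf, lg, zg, ?_, ?_⟩
  · have h1 : AnalyticAt ℂ (fun w : ℂ => ∑ k ∈ Finset.range (K j),
        eval (blockVec fun a => f₀ a w) (A j k) * g₀ w j ^ k * g₀ w i ^ (K j - 1 - k)) z :=
      Finset.analyticAt_fun_sum _ fun k _ =>
        ((an_evalJ fa (A j k)).mul (gj.pow k)).mul (gi.pow _)
    have h2 : AnalyticAt ℂ (fun w : ℂ => ∏ j' ∈ Finset.univ.erase j,
        eval (blockVec fun a => f₀ a w) (A j' (K j'))) z :=
      Finset.analyticAt_fun_prod _ fun j' _ => an_evalJ fa (A j' (K j'))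
    exact (h1.neg.div (gj.pow _) (pow_ne_zero _ hj)).mul h2
  · have hgj : ContinuousAt (fun w : ℍ => g₀ w j) z :=
      ContinuousAt.comp (g := fun w : ℂ => g₀ w j) (f := fun w : ℍ => (w : ℂ)) gj.continuousAt
        (hcoe z)
    filter_upwards [eventually_all.2 fun a => (hcoe z).eventually ((lf a).op.mem_nhds (zf a)),
      (hcoe z).eventually (lg.op.mem_nhds zg), hgj.eventually_ne hj] with w hV hW hne
    have h1 := hRall w hV hW
    rw [Finset.sum_range_succ, Nat.sub_self, pow_zero, mul_one] at h1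
    have h2 : ∑ k ∈ Finset.range (K j), eval (blockVec fun a => f₀ a w) (A j k) * g₀ w j ^ k *
        g₀ w i ^ (K j - k) = (∑ k ∈ Finset.range (K j), eval (blockVec fun a => f₀ a w) (A j k) *
          g₀ w j ^ k * g₀ w i ^ (K j - 1 - k)) * g₀ w i := by
      rw [Finset.sum_mul]
      refine Finset.sum_congr rfl fun k hk => ?_
      have hk' := Finset.mem_range.1 hk
      have h3 : K j - k = (K j - 1 - k) + 1 := by omega
      rw [h3, pow_succ]
      ring
    rw [h2] at h1
    rw [map_prod, ← Finset.mul_prod_erase _ _ (Finset.mem_univ j), hl]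
    simp only
    have h4 : eval (blockVec fun a => f₀ a w) (A j (K j)) = -(∑ k ∈ Finset.range (K j),
        eval (blockVec fun a => f₀ a w) (A j k) * g₀ w j ^ k * g₀ w i ^ (K j - 1 - k)) *
          g₀ w i / g₀ w j ^ K j := by
      rw [eq_div_iff (pow_ne_zero _ hne)]
      linear_combination h1
    rw [h4]
    ring

/-- homogeneous functions given by polynomials -/
theorem isHomogeneous_of_eval {k : ℕ} {Q : MvPolynomial (Fin (k + 1)) ℂ} {N : ℕ}
    (h : ∀ (c : ℂ) (y : Fin (k + 1) → ℂ), eval (c • y) Q = c ^ N * eval y Q) :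
    Q.IsHomogeneous N := by
  have key : ∀ t, t ≠ N → homogeneousComponent t Q = 0 := by
    intro t ht
    apply MvPolynomial.funext
    intro y
    rw [map_zero]
    set p : Polynomial ℂ := ∑ s ∈ Finset.range (Q.totalDegree + 1),
      Polynomial.C (eval y (homogeneousComponent s Q)) * Polynomial.X ^ s with hp
    have h1 : p = Polynomial.C (eval y Q) * Polynomial.X ^ N := by
      apply Polynomial.funext
      intro c
      have h2 : Polynomial.eval c p = eval (c • y) Q := by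
        conv_rhs => rw [← sum_homogeneousComponent Q]
        rw [hp, Polynomial.eval_finsetSum, map_sum]
        refine Finset.sum_congr rfl fun s _ => ?_
        rw [eval_smul (homogeneousComponent_isHomogeneous s Q)]
        simp only [Polynomial.eval_mul, Polynomial.eval_C, Polynomial.eval_pow, Polynomial.eval_X]
        ring
      rw [h2, h c y]
      simp only [Polynomial.eval_mul, Polynomial.eval_C, Polynomial.eval_pow, Polynomial.eval_X]
      ring
    have h3 := congrArg (fun q => Polynomial.coeff q t) h1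
    simp only [Polynomial.coeff_C_mul, Polynomial.coeff_X_pow, if_neg ht, mul_zero] at h3
    rw [hp, Polynomial.finsetSum_coeff] at h3
    simp only [Polynomial.coeff_C_mul_X_pow] at h3
    rw [Finset.sum_ite_eq] at h3
    by_cases h4 : t ∈ Finset.range (Q.totalDegree + 1)
    · rwa [if_pos h4] at h3
    · have h5 : Q.totalDegree < t := by
        rw [Finset.mem_range] at h4
        omega
      rw [homogeneousComponent_eq_zero _ _ h5, map_zero]
  have h5 : Q = homogeneousComponent N Q := by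
    conv_lhs => rw [← sum_homogeneousComponent Q]
    by_cases hN : N ∈ Finset.range (Q.totalDegree + 1)
    · exact Finset.sum_eq_single_of_mem N hN fun s _ hs => key s hs
    · rw [Finset.sum_eq_zero fun s hs => key s fun h => hN (h ▸ hs),
        homogeneousComponent_eq_zero]
      rw [Finset.mem_range] at hN
      omega
  rw [h5]
  exact homogeneousComponent_isHomogeneous N Q

end Pool.Agent.H33
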