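import Pool.Agent.H33.VH

/-! The degree of curves in varieties which are generically finite over products. -/

set_option autoImplicit false

open Filter Topology Metric Set MvPolynomial MeasureTheory LinearAlgebra.Projectivization
open scoped UpperHalfPlane MatrixGroups ENNReal

namespace Pool.Agent.H33

open Pool.Agent.Y190.OP Pool.Agent.W602.GT Pool.Agent.N155 Pool.Agent.N155.BB

variable {m : ℕ} {J : Type} [Fintype J] {n : J → ℕ} {ι' : Type} {ι : J → Type}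
  {G : ι' → MvPolynomial (Fin (m + 1)) ℂ} {F : ∀ a, ι a → MvPolynomial (Fin (n a + 1)) ℂ}
  {P : ∀ a, Fin (n a + 1) → MvPolynomial (Fin (m + 1)) ℂ}

omit [Fintype J] in
theorem eval_compJ (P : ∀ a, Fin (n a + 1) → MvPolynomial (Fin (m + 1)) ℂ)
    (Q : MvPolynomial (Σ a, Fin (n a + 1)) ℂ) (y : Fin (m + 1) → ℂ) :
    eval y (aeval (fun p : Σ a, Fin (n a + 1) => P p.1 p.2) Q) =
      eval (blockVec fun a => ratVal (P a) y) Q := by
  have h : (eval y).comp (aeval (fun p : Σ a, Fin (n a + 1) => P p.1 p.2) :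
      MvPolynomial (Σ a, Fin (n a + 1)) ℂ →ₐ[ℂ] MvPolynomial (Fin (m + 1)) ℂ).toRingHom =
      eval (blockVec fun a => ratVal (P a) y) := by
    apply MvPolynomial.ringHom_ext
    · intro r
      simp
    · rintro ⟨a, k⟩
      simp [blockVec, ratVal]
  exact RingHom.congr_fun h Q

theorem form_of_multi {e D : J → ℕ} (he : ∀ a j, (P a j).IsHomogeneous (e a))
    {Q : MvPolynomial (Σ a, Fin (n a + 1)) ℂ} (hQ : MultiForm D Q) :
    IsForm (aeval (fun p : Σ a, Fin (n a + 1) => P p.1 p.2) Q) := by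
  refine ⟨∑ a, e a * D a, isHomogeneous_of_eval fun c y => ?_⟩
  rw [eval_compJ, eval_compJ]
  have h1 : (fun a => ratVal (P a) (c • y)) = fun a => c ^ e a • ratVal (P a) y := by
    funext a
    exact evP_smul (he a) c y
  rw [h1, hQ (fun a => c ^ e a)]
  congr 1
  simp only [← pow_mul, Finset.prod_pow_eq_pow_sum]

/-- curves with values in a finite set, up to a countable set of parameters -/
theorem const_of_values {g : ℂ → ℙ ℂ (Fin (m + 1) → ℂ)} {Q : Set (ℙ ℂ (Fin (m + 1) → ℂ))}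
    (hQ : Q.Finite) (hg : HolMap g) (hc : ({z : ℂ | g z ∉ Q} ∩ ball 0 1).Countable) :
    ∀ z w, g z = g w := by
  by_contra hne
  have hA : ∀ q ∈ Q, ({z : ℂ | g z = q} ∩ ball 0 1).Countable := by
    intro q hq
    refine eq_countable (g' := fun _ => q) hg (fun z => ?_) ?_
    · exact ⟨univ, fun _ => q.rep, isOpen_univ, mem_univ _, (differentiable_const _).differentiableOn,
        fun w _ => ⟨Projectivization.rep_nonzero q, (Projectivization.mk_rep q).symm⟩⟩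
    · intro hcon
      apply hne
      intro z w
      rw [hcon]
  have hcount : ((⋃ q ∈ Q, ({z : ℂ | g z = q} ∩ ball 0 1)) ∪
      ({z : ℂ | g z ∉ Q} ∩ ball 0 1)).Countable := (hQ.countable.biUnion hA).union hc
  obtain ⟨z, hz, hz'⟩ := (hcount.dense_compl ℂ).exists_mem_open isOpen_ball
    ⟨0, mem_ball_self one_pos⟩
  rw [Set.mem_compl_iff, Set.mem_union, not_or] at hz
  obtain ⟨hz1, hz2⟩ := hz
  simp only [Set.mem_iUnion, not_exists, Set.mem_inter_iff, not_and, Set.mem_ofPred_eq] at hz1 hz2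
  have h1 : g z ∈ Q := by
    by_contra hcon
    exact hz2 hcon hz'
  exact hz1 (g z) h1 rfl hz'

/-- finitely many points with ratios of the coordinates in finite sets -/
theorem finite_ratios {i : Fin (m + 1)} {Z : Fin (m + 1) → Set ℂ} (hZ : ∀ j, (Z j).Finite) :
    {q : ℙ ℂ (Fin (m + 1) → ℂ) | q.rep i ≠ 0 ∧ ∀ j, q.rep j / q.rep i ∈ Z j}.Finite := by
  have hinj : Set.InjOn (fun (q : ℙ ℂ (Fin (m + 1) → ℂ)) (j : Fin (m + 1)) =>
      q.rep j / q.rep i) {q | q.rep i ≠ 0} := by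
    intro q hq q' hq' he
    apply eq_of_prop2
    intro a b
    have h1 := congrFun he a
    have h2 := congrFun he b
    simp only at h1 h2
    rw [div_eq_div_iff hq hq'] at h1 h2
    have h3 : q.rep i ≠ 0 := hq
    have h4 : q'.rep i ≠ 0 := hq'
    apply mul_left_cancel₀ (mul_ne_zero h3 h4)
    linear_combination (q.rep i * q'.rep b) * h1 - (q.rep i * q'.rep a) * h2
  refine Set.Finite.of_finite_image ((Set.Finite.pi' hZ).subset ?_) (hinj.mono ?_)
  · rintro _ ⟨q, ⟨-, hq⟩, rfl⟩ j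
    exact hq j
  · rintro q ⟨hq, -⟩
    exact hq

theorem finite_roots {K : ℕ} {c : ℕ → ℂ} (hc : c K ≠ 0) :
    {r : ℂ | ∑ k ∈ Finset.range (K + 1), c k * r ^ k = 0}.Finite := by
  set p : Polynomial ℂ := ∑ k ∈ Finset.range (K + 1),
    Polynomial.C (c k) * Polynomial.X ^ k with hp
  have hp0 : p ≠ 0 := by
    intro h0
    have h1 := congrArg (fun q => Polynomial.coeff q K) h0
    simp only [hp, Polynomial.finsetSum_coeff, Polynomial.coeff_C_mul_X_pow,
      Polynomial.coeff_zero] at h1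
    rw [Finset.sum_ite_eq] at h1
    simp only [Finset.mem_range, Nat.lt_succ_self, if_true] at h1
    exact hc h1
  refine (Polynomial.rootSet_finite p ℂ).subset fun r hr => ?_
  rw [Polynomial.mem_rootSet]
  refine ⟨hp0, ?_⟩
  rw [hp, map_sum]
  simp only [map_mul, map_pow, Polynomial.aeval_C, Polynomial.aeval_X,
    Algebra.algebraMap_self, RingHom.id_apply]
  exact hr

variable {d ν : J → ℕ} {κ : J → Type}
  {η : ∀ a, κ a → (Fin (n a + 1) → ℂ) → (Fin (n a + 1) → ℂ) → (Fin (n a + 1) → ℂ) → ℂ}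
  {Φ : ∀ a, (Fin (n a + 1) → ℂ) → (Fin (n a + 1) → ℂ) → ℝ}

/-- one factor -/
theorem factor_bound {n d ν : ℕ} {ι κ : Type} [Finite κ] {F : ι → MvPolynomial (Fin (n + 1)) ℂ}
    {η : κ → (Fin (n + 1) → ℂ) → (Fin (n + 1) → ℂ) → (Fin (n + 1) → ℂ) → ℂ}
    {Φ : (Fin (n + 1) → ℂ) → (Fin (n + 1) → ℂ) → ℝ} (hX : ProjManifold F d)
    (hη : PositiveTwoForms (Cone F) ∅ d η) (hν : ν ≠ 0) (hh : HomForms (Cone F) ν η)
    (hΦ : NonposMetric (Cone F) d Φ) (hnd : Nondegenerate (Cone F) d Φ)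
    (hr : HermitianMetric (Cone F) d Φ ∨ UniformlyConvex (Cone F) d Φ)
    {P : Fin (n + 1) → MvPolynomial (Fin (m + 1)) ℂ}
    (hdim : TwoDimensional G P ∨ ((∃ y ∈ Cone G, ratVal P y ≠ 0) ∧
      ∀ f, HolIn F f → ∀ z w, f z = f w)) :
    ∃ (E : MvPolynomial (Fin (n + 1)) ℂ) (α : ℝ) (i₀ : Fin (n + 1)), IsForm E ∧
      (∃ y ∈ Cone G, eval (ratVal P y) E ≠ 0) ∧ (∃ y ∈ Cone G, eval y (P i₀) ≠ 0) ∧
      (∀ f, HolIn F f → (∃ z w, f z ≠ f w) → ∀ z, eval (f z).rep E = 0) ∧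
      ∀ (Γ : Subgroup SL(2, ℝ)) (D : Set ℍ), CompactDomain Γ D →
        ∀ f : ℍ → ℙ ℂ (Fin (n + 1) → ℂ), HolH (Cone F) f → (∀ γ ∈ Γ, ∀ z, f (γ • z) = f z) →
        (∃ z, eval (f z).rep E ≠ 0) → degree f D ≤ ENNReal.ofReal α * volume D := by
  obtain ⟨S, h1, h2, ⟨α, hα⟩, -⟩ := alg_hyp hX hη hν hh hΦ hnd hr
  rcases hdim with hd | ⟨⟨y, hy, hne⟩, hb⟩
  · obtain ⟨E, hE, hE0, hE2⟩ := exists_form3 hd S fun h hh => ⟨(h1 h hh).1.1, (h1 h hh).2.1⟩
    obtain ⟨i, j, k, hijk⟩ := hd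
    obtain ⟨y₁, hy₁, hyi, -⟩ := hijk 1 one_ne_zero
    refine ⟨E, α, i, hE, hE0, ⟨y₁, hy₁, hyi⟩, fun f hf hfc z => ?_,
      fun Γ D hD f hf hinv ⟨z, hz⟩ => hα Γ D hD f hf hinv ⟨z, fun h hh' w hw => ?_⟩⟩
    · obtain ⟨h, hh', w, hw⟩ := h2 f hf hfc z
      rw [hw]
      exact hE2 h hh' w
    · apply hz
      rw [hw]
      exact hE2 h hh' w
  · obtain ⟨k, hk⟩ := Function.ne_iff.1 hne
    refine ⟨1, α, k, ⟨0, isHomogeneous_one _ _⟩, ⟨y, hy, by simp⟩, ⟨y, hy, hk⟩,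
      fun f hf ⟨z, w, hzw⟩ => absurd (hb f hf z w) hzw,
      fun Γ D hD f hf hinv ⟨z, _⟩ => hα Γ D hD f hf hinv ⟨z, fun h hh' => ?_⟩⟩
    obtain ⟨z, w, hzw⟩ := (h1 h hh').2.2.2
    exact absurd (hb h (h1 h hh').1 z w) hzw

/-- **The linear bound of the degree for varieties which are generically finite over products.** -/
theorem joint_bound [∀ a, Finite (κ a)] (hX : ∀ a, ProjManifold (F a) (d a))
    (hη : ∀ a, PositiveTwoForms (Cone (F a)) ∅ (d a) (η a)) (hν : ∀ a, ν a ≠ 0)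
    (hh : ∀ a, HomForms (Cone (F a)) (ν a) (η a)) (hΦ : ∀ a, NonposMetric (Cone (F a)) (d a) (Φ a))
    (hnd : ∀ a, Nondegenerate (Cone (F a)) (d a) (Φ a))
    (hr : ∀ a, HermitianMetric (Cone (F a)) (d a) (Φ a) ∨
      UniformlyConvex (Cone (F a)) (d a) (Φ a))
    (hP : ∀ a, RationalMap G (F a) (P a)) (hirr : IrreducibleSet G)
    (hdim : ∀ a, TwoDimensional G (P a) ∨ ((∃ y ∈ Cone G, ratVal (P a) y ≠ 0) ∧
      ∀ f, HolIn (F a) f → ∀ z w, f z = f w))
    (hgf : JointlyFinite G P) :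
    ∃ (T : MvPolynomial (Fin (m + 1)) ℂ) (α : ℝ), IsForm T ∧ (∃ y ∈ Cone G, eval y T ≠ 0) ∧
      (∀ g, HolIn G g → (∃ z w, g z ≠ g w) → ∀ z, eval (g z).rep T = 0) ∧
      ∀ (Γ : Subgroup SL(2, ℝ)) (D : Set ℍ), CompactDomain Γ D →
        ∀ g : ℍ → ℙ ℂ (Fin (m + 1) → ℂ), HolH (Cone G) g → (∀ γ ∈ Γ, ∀ z, g (γ • z) = g z) →
        (∃ z, eval (g z).rep T ≠ 0) → degree g D ≤ ENNReal.ofReal α * volume D := by
  classical
  choose e he using fun a => (hP a).form
  choose E α i₀ hE hE0 hi0 hcur hdeg using fun a =>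
    factor_bound (G := G) (P := P a) (hX a) (hη a) (hν a) (hh a) (hΦ a) (hnd a) (hr a) (hdim a)
  obtain ⟨i, ⟨y₂, hy₂, hy₂i⟩, hgf'⟩ := hgf
  choose K D₀ A hA using hgf'
  have hA' : ∀ j, EqnJ G P i j (K j) (D₀ j) (A j) := hA
  set Q := ∏ j, A j (K j) with hQ
  have hQm : MultiForm (fun a => ∑ j, D₀ j a) Q := multiForm_prod fun j => (hA j).1 _
  obtain ⟨b, hb⟩ : ∃ b : J → ℕ, ∀ a, (E a).IsHomogeneous (b a) := by
    choose b hb using hE
    exact ⟨b, hb⟩
  obtain ⟨q1, q2⟩ := hirr.prod ⟨y₂, hy₂⟩ Finset.univ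
    (A := fun j => aeval (fun p : Σ a, Fin (n a + 1) => P p.1 p.2) (A j (K j)))
    (fun j => form_of_multi he ((hA j).1 _)) fun j => by
      obtain ⟨y, hy, hne⟩ := (hA j).2.1
      exact ⟨y, hy, by rw [eval_compJ]; exact hne⟩
  rw [← map_prod, ← hQ] at q1 q2
  obtain ⟨q3, q4⟩ := hirr.prod ⟨y₂, hy₂⟩ Finset.univ (A := fun a => P a (i₀ a))
    (fun a => ⟨e a, he a _⟩) hi0
  obtain ⟨q5, q6⟩ := hirr.prod ⟨y₂, hy₂⟩ Finset.univ (A := fun a => aeval (P a) (E a))
    (fun a => ⟨e a * b a, (hb a).aeval (P a) (he a)⟩) fun a => by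
      obtain ⟨y, hy, hne⟩ := hE0 a
      exact ⟨y, hy, by rw [eval_comp]; exact hne⟩
  have q7 : IsForm (X i * ∏ a, P a (i₀ a)) := IsForm.mul' ⟨1, isHomogeneous_X ℂ i⟩ q3
  have q8 : ∃ y ∈ Cone G, eval y (X i * ∏ a, P a (i₀ a)) ≠ 0 :=
    hirr.two ⟨1, isHomogeneous_X ℂ i⟩ q3 ⟨y₂, hy₂, by rw [eval_X]; exact hy₂i⟩ q4
  obtain ⟨q9, q10⟩ := hirr.three q7 q1 q5 q8 q2 q6
  set B := aeval (fun p : Σ a, Fin (n a + 1) => P p.1 p.2) Q with hB
  set T := X i * (∏ a, P a (i₀ a)) * B * ∏ a, aeval (P a) (E a) with hTdef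
  have hT : ∀ y, eval y T ≠ 0 → y i ≠ 0 ∧ (∀ a, ratVal (P a) y ≠ 0) ∧
      eval (blockVec fun a => ratVal (P a) y) Q ≠ 0 ∧ (∀ a, eval (ratVal (P a) y) (E a) ≠ 0) ∧
      eval y B ≠ 0 ∧ ∀ a, eval y (P a (i₀ a)) ≠ 0 := by
    intro y hy
    rw [hTdef, map_mul, map_mul, map_mul, eval_X, map_prod, map_prod] at hy
    have k0 := left_ne_zero_of_mul hy
    have k1 := Finset.prod_ne_zero_iff.1 (right_ne_zero_of_mul hy)
    have k2 := right_ne_zero_of_mul k0
    have k3 := left_ne_zero_of_mul k0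
    have k4 := Finset.prod_ne_zero_iff.1 (right_ne_zero_of_mul k3)
    refine ⟨left_ne_zero_of_mul k3, fun a h0 => k4 a (Finset.mem_univ a) (congrFun h0 (i₀ a)), ?_,
      fun a => ?_, k2, fun a => k4 a (Finset.mem_univ a)⟩
    · rw [hB, eval_compJ] at k2
      exact k2
    · have := k1 a (Finset.mem_univ a)
      rw [eval_comp] at this
      exact this
  have hpos : ∀ a, 0 ≤ ((∑ j, D₀ j a : ℕ) : ℝ) * |α a| := fun a =>
    mul_nonneg (Nat.cast_nonneg _) (abs_nonneg _)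
  refine ⟨T, ∑ a, ((∑ j, D₀ j a : ℕ) : ℝ) * |α a|, q9, q10, fun g hg hnc => ?_,
    fun Γ D hD g hg hinv hne => ?_⟩
  · by_contra hcon
    push Not at hcon
    obtain ⟨z₁, hz₁⟩ := hcon
    obtain ⟨k1, k2, k3, k4, k5, k6⟩ := hT _ hz₁
    have hx : ∀ a, ∃ x : Fin (n a + 1) → ℂ, ∀ z, ∃ c : ℂ, ratVal (P a) (g z).rep = c • x := by
      intro a
      obtain ⟨f, hf, hfg⟩ := comp_ext (he a) hg.1 (z₁ := z₁) (k2 a) (F := F a)
        (fun z hz => (hP a).maps _ (hg.2 z) hz) (hX a).form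
      by_cases hfc : ∃ z w, f z ≠ f w
      · exfalso
        obtain ⟨c, hc⟩ := hfg z₁ (k2 a)
        have hc' : ratVal (P a) (g z₁).rep = c • (f z₁).rep := hc
        have k7 := k4 a
        rw [hc', eval_smul (hb a), hcur a f hf hfc z₁, mul_zero] at k7
        exact k7 rfl
      · push Not at hfc
        refine ⟨(f 0).rep, fun z => ?_⟩
        by_cases h0 : ratVal (P a) (g z).rep = 0
        · exact ⟨0, by rw [h0, zero_smul]⟩
        · obtain ⟨c, hc⟩ := hfg z h0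
          exact ⟨c, by rw [← hfc z 0]; exact hc⟩
    choose x hx using hx
    have hxQ : eval (blockVec x) Q ≠ 0 := by
      choose c hc using fun a => hx a z₁
      have h1 : (fun a => ratVal (P a) (g z₁).rep) = fun a => c a • x a := funext hc
      rw [h1, hQm c x] at k3
      exact right_ne_zero_of_mul k3
    rw [hQ, map_prod] at hxQ
    have hxj := fun j => Finset.prod_ne_zero_iff.1 hxQ j (Finset.mem_univ j)
    obtain ⟨z, w, hzw⟩ := hnc
    refine hzw (const_of_values (finite_ratios (i := i) fun j =>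
      finite_roots (c := fun k => eval (blockVec x) (A j k)) (hxj j)) hg.1 ?_ z w)
    refine (zeros_countable q9 hg.1 hz₁).mono ?_
    rintro s ⟨hs, hs1⟩
    refine ⟨?_, hs1⟩
    by_contra hcon
    apply hs
    obtain ⟨m1, m2, m3, -⟩ := hT _ hcon
    refine ⟨m1, fun j => ?_⟩
    choose c hc using fun a => hx a s
    have hc0 : ∀ a, c a ≠ 0 := by
      intro a h0
      apply m2 a
      rw [hc a, h0, zero_smul]
    obtain ⟨h1, -, h3⟩ := hA j
    have h4 := h3 (g s).rep (hg.2 s)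
    have h5 := eqnJ_smul (K := K j) h1 i j x (fun j' => (g s).rep j' / (g s).rep i) c ((g s).rep i)
    have h6 : ((g s).rep i • fun j' => (g s).rep j' / (g s).rep i) = (g s).rep := by
      funext j'
      simp only [Pi.smul_apply, smul_eq_mul]
      field_simp
    have h7 : (fun a => c a • x a) = fun a => ratVal (P a) (g s).rep := funext fun a => (hc a).symm
    rw [h6, h7, h4] at h5
    have h8 := (mul_eq_zero.1 h5.symm).resolve_left
      (mul_ne_zero (Finset.prod_ne_zero_iff.2 fun a _ => pow_ne_zero _ (hc0 a))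
        (pow_ne_zero _ m1))
    simp only [div_self m1, one_pow, mul_one] at h8
    exact h8
  · obtain ⟨z₁, hz₁⟩ := hne
    obtain ⟨k1, k2, k3, k4, k5, k6⟩ := hT _ hz₁
    obtain ⟨r, hr, hΓ⟩ := hD.cocompact
    have hex : ∀ a, ∃ f : ℍ → ℙ ℂ (Fin (n a + 1) → ℂ), HolH (Cone (F a)) f ∧
        (∀ γ ∈ Γ, ∀ z, f (γ • z) = f z) ∧ (∀ w, Prop2 (ratVal (P a) (g w).rep) (f w).rep) ∧
        eval (f z₁).rep (E a) ≠ 0 := by
      intro a
      set p : ℙ ℂ (Fin (n a + 1) → ℂ) := Projectivization.mk ℂ (ratVal (P a) (g z₁).rep) (k2 a)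
        with hp
      obtain ⟨c, hc, hce⟩ := mk_rep (k2 a) hp
      have hpp : Prop2 (ratVal (P a) (g z₁).rep) p.rep := by
        rw [hce]
        exact (prop2_smul _ _).symm
      obtain ⟨f, ⟨hf, hfi, hfp⟩, hfg⟩ := comp_disc (hX a).form (hP a) hΓ (k2 a) hpp hg hinv rfl
      refine ⟨f, hf, hfi, hfg, ?_⟩
      rw [hfp, hce, eval_smul (hb a)]
      exact mul_ne_zero (pow_ne_zero _ hc) (k4 a)
    choose f hf hfi hfg hfE using hex
    have hcnt : {z : ℍ | eval (blockVec fun a => (f a z).rep) Q = 0}.Countable := by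
      have h1 : ({w : ℍ | eval (g w).rep B = 0} ∪
          ⋃ a, {w : ℍ | eval (g w).rep (P a (i₀ a)) = 0}).Countable := by
        obtain ⟨N, hN⟩ := q1
        exact (form_countable hg hN ⟨z₁, k5⟩).union (Set.countable_iUnion fun a =>
          form_countable hg (he a (i₀ a)) ⟨z₁, k6 a⟩)
      refine h1.mono fun z hz => ?_
      by_contra hcon
      simp only [Set.mem_union, Set.mem_iUnion, not_or, not_exists, Set.mem_ofPred_eq] at hcon
      obtain ⟨c1, c2⟩ := hcon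
      have h2 : ∀ a, ratVal (P a) (g z).rep ≠ 0 := fun a h0 => c2 a (congrFun h0 (i₀ a))
      choose c hc using fun a => (hfg a z).smul (h2 a)
      have hc0 : ∀ a, c a ≠ 0 := by
        intro a h0
        have := hc a
        rw [h0, zero_smul] at this
        exact Projectivization.rep_nonzero _ this
      have h3 : (fun a => (f a z).rep) = fun a => c a • ratVal (P a) (g z).rep := funext hc
      have hz' : eval (blockVec fun a => (f a z).rep) Q = 0 := hz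
      rw [h3, hQm c] at hz'
      rcases mul_eq_zero.1 hz' with h4 | h4
      · exact Finset.prod_ne_zero_iff.2 (fun a _ => pow_ne_zero _ (hc0 a)) h4
      · rw [hB, eval_compJ] at c1
        exact c1 h4
    have e2 := speedJ_int_le hD hf hg hfi hinv
      (loc_allJ he hf hg hfg (fun a => ⟨z₁, k2 a⟩) hA') hQm ⟨z₁, k1⟩ hcnt
    have e3 : degree g D ≤ ∑ a, ENNReal.ofReal (∑ j, D₀ j a : ℕ) * degree (f a) D := by
      unfold degree
      refine (ENNReal.div_le_div_right e2 _).trans (le_of_eq ?_)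
      rw [ENNReal.div_eq_inv_mul, Finset.mul_sum]
      refine Finset.sum_congr rfl fun a _ => ?_
      rw [ENNReal.div_eq_inv_mul]
      ring
    refine e3.trans ?_
    rw [ENNReal.ofReal_sum_of_nonneg fun a _ => hpos a, Finset.sum_mul]
    refine Finset.sum_le_sum fun a _ => ?_
    have e1 := hdeg a Γ D hD (f a) (hf a) (hfi a) ⟨z₁, hfE a⟩
    rw [ENNReal.ofReal_mul (Nat.cast_nonneg _), mul_assoc]
    refine mul_le_mul_right (e1.trans ?_) _
    exact mul_le_mul_left (ENNReal.ofReal_le_ofReal (le_abs_self _)) _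

end Pool.Agent.H33
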