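import Pool.Agent.H33.VI

/-! Pointed maps to varieties which are generically finite over products. -/

set_option autoImplicit false

open Filter Topology Metric Set MvPolynomial MeasureTheory LinearAlgebra.Projectivization
open scoped UpperHalfPlane MatrixGroups ENNReal

namespace Pool.Agent.H33

open Pool.Agent.Y190.OP Pool.Agent.W602.GT Pool.Agent.N155 Pool.Agent.N155.BB

variable {m : ℕ} {ι' : Type} {G : ι' → MvPolynomial (Fin (m + 1)) ℂ}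

/-- one factor -/
theorem factor_pgh {n d ν : ℕ} {ι κ : Type} [Finite κ] {F : ι → MvPolynomial (Fin (n + 1)) ℂ}
    {η : κ → (Fin (n + 1) → ℂ) → (Fin (n + 1) → ℂ) → (Fin (n + 1) → ℂ) → ℂ}
    {Φ : (Fin (n + 1) → ℂ) → (Fin (n + 1) → ℂ) → ℝ} (hX : ProjManifold F d)
    (hη : PositiveTwoForms (Cone F) ∅ d η) (hν : ν ≠ 0) (hh : HomForms (Cone F) ν η)
    (hΦ : NonposMetric (Cone F) d Φ) (hnd : Nondegenerate (Cone F) d Φ)
    (hr : HermitianMetric (Cone F) d Φ ∨ UniformlyConvex (Cone F) d Φ)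
    {P : Fin (n + 1) → MvPolynomial (Fin (m + 1)) ℂ}
    (hdim : TwoDimensional G P ∨ ((∃ y ∈ Cone G, ratVal P y ≠ 0) ∧
      ∀ f, HolIn F f → ∀ z w, f z = f w)) :
    ∃ (E : MvPolynomial (Fin (n + 1)) ℂ) (i₀ : Fin (n + 1)), IsForm E ∧
      (∃ y ∈ Cone G, eval (ratVal P y) E ≠ 0) ∧ (∃ y ∈ Cone G, eval y (P i₀) ≠ 0) ∧
      (∀ f, HolIn F f → (∃ z w, f z ≠ f w) → ∀ z, eval (f z).rep E = 0) ∧
      ∀ (Γ : Subgroup SL(2, ℝ)) (r : ℝ), Cocompact Γ r → ∀ (c : ℍ) (p : ℙ ℂ (Fin (n + 1) → ℂ)),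
        eval p.rep E ≠ 0 → {f : ℍ → ℙ ℂ (Fin (n + 1) → ℂ) | HolH (Cone F) f ∧
          (∀ γ ∈ Γ, ∀ z, f (γ • z) = f z) ∧ f c = p}.Finite := by
  obtain ⟨S, h1, h2, h3, -⟩ := bdd hX hη hν hh hΦ hnd hr
  rcases hdim with hd | ⟨⟨y, hy, hne⟩, hb⟩
  · obtain ⟨E, hE, hE0, hE2⟩ := exists_form3 hd S fun h hh => ⟨(h1 h hh).1.1, (h1 h hh).2.1⟩
    obtain ⟨i, j, k, hijk⟩ := hd
    obtain ⟨y₁, hy₁, hyi, -⟩ := hijk 1 one_ne_zero
    refine ⟨E, i, hE, hE0, ⟨y₁, hy₁, hyi⟩, fun f hf hfc z => ?_, fun Γ r hΓ c p hp => ?_⟩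
    · obtain ⟨h, hh', w, hw⟩ := h2 f hf hfc z
      rw [hw]
      exact hE2 h hh' w
    · obtain ⟨L, hL⟩ := h3 r
      refine pointed_finite hX.form hΓ c p (L := L) fun f hf hfi hfc => ?_
      refine hL Γ hΓ f hf hfi ⟨c, fun h hh' w hw => hp ?_⟩
      rw [← hfc, hw]
      exact hE2 h hh' w
  · obtain ⟨k, hk⟩ := Function.ne_iff.1 hne
    obtain ⟨c1, C1, hc1, hC1, hcC1⟩ := len_le_ge hX hΦ hnd
    refine ⟨1, k, ⟨0, isHomogeneous_one _ _⟩, ⟨y, hy, by simp⟩, ⟨y, hy, hk⟩,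
      fun f hf ⟨z, w, hzw⟩ => absurd (hb f hf z w) hzw, fun Γ r hΓ c p _ => ?_⟩
    obtain ⟨L, hL⟩ := h3 r
    refine pointed_finite hX.form hΓ c p (L := L) fun f hf hfi hfc => ?_
    refine hL Γ hΓ f hf hfi ⟨c, fun h hh' => ?_⟩
    exfalso
    have hin := (h1 h hh').1
    have e1 := (hasSpeed_iff hX hΦ.twist hin).1 (h1 h hh').2.2 0
    have e2 : (fun z => Phi (h z).rep) = fun _ => Phi (h 0).rep :=
      funext fun z => by rw [hb h hin z 0]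
    have e3 := (hcC1 _ (holP_of_map hin.1) (fun z => mem_TF (hin.2 z)) 0).2
    rw [e1, e2] at e3
    simp at e3
    linarith

variable {J : Type} [Fintype J] {n : J → ℕ} {ι : J → Type}
  {F : ∀ a, ι a → MvPolynomial (Fin (n a + 1)) ℂ}
  {P : ∀ a, Fin (n a + 1) → MvPolynomial (Fin (m + 1)) ℂ}

/-- the joint fibres -/
theorem joint_fibre {i : Fin (m + 1)} {K : Fin (m + 1) → ℕ} {D : Fin (m + 1) → J → ℕ}
    {A : Fin (m + 1) → ℕ → MvPolynomial (Σ a, Fin (n a + 1)) ℂ}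
    (hA : ∀ j, EqnJ G P i j (K j) (D j) (A j)) {x : ∀ a, Fin (n a + 1) → ℂ} (hx : ∀ a, x a ≠ 0) :
    {q : ℙ ℂ (Fin (m + 1) → ℂ) | q.rep ∈ Cone G ∧ q.rep i ≠ 0 ∧
      (∀ a, ratVal (P a) q.rep ≠ 0) ∧
      eval (blockVec fun a => ratVal (P a) q.rep) (∏ j, A j (K j)) ≠ 0 ∧
      ∀ a, Prop2 (ratVal (P a) q.rep) (x a)}.Finite := by
  have hQm : MultiForm (fun a => ∑ j, D j a) (∏ j, A j (K j)) := multiForm_prod fun j => (hA j).1 _
  set R := {q : ℙ ℂ (Fin (m + 1) → ℂ) | q.rep ∈ Cone G ∧ q.rep i ≠ 0 ∧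
      (∀ a, ratVal (P a) q.rep ≠ 0) ∧
      eval (blockVec fun a => ratVal (P a) q.rep) (∏ j, A j (K j)) ≠ 0 ∧
      ∀ a, Prop2 (ratVal (P a) q.rep) (x a)} with hR
  rcases R.eq_empty_or_nonempty with h0 | ⟨q₀, hq₀⟩
  · rw [h0]
    exact Set.finite_empty
  have hmul : ∀ q ∈ R, ∃ c : J → ℂ, (∀ a, c a ≠ 0) ∧
      (fun a => ratVal (P a) q.rep) = fun a => c a • x a := by
    rintro q ⟨-, -, h3, -, h5⟩
    choose c hc using fun a => (h5 a).symm.smul (hx a)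
    refine ⟨c, fun a h6 => h3 a ?_, funext hc⟩
    rw [hc a, h6, zero_smul]
  have hxQ : eval (blockVec x) (∏ j, A j (K j)) ≠ 0 := by
    obtain ⟨c, -, hc⟩ := hmul q₀ hq₀
    obtain ⟨-, -, -, h4, -⟩ := hq₀
    rw [hc, hQm c x] at h4
    exact right_ne_zero_of_mul h4
  rw [map_prod] at hxQ
  have hxj := fun j => Finset.prod_ne_zero_iff.1 hxQ j (Finset.mem_univ j)
  refine (finite_ratios (i := i) fun j =>
      finite_roots (c := fun k => eval (blockVec x) (A j k)) (hxj j)).subset ?_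
  intro q hq
  obtain ⟨c, hc0, hc⟩ := hmul q hq
  obtain ⟨hqG, hqi, -, -, -⟩ := hq
  refine ⟨hqi, fun j => ?_⟩
  obtain ⟨h1, -, h3⟩ := hA j
  have h4 := h3 q.rep hqG
  have h5 := eqnJ_smul (K := K j) h1 i j x (fun j' => q.rep j' / q.rep i) c (q.rep i)
  have h6 : (q.rep i • fun j' => q.rep j' / q.rep i) = q.rep := by
    funext j'
    simp only [Pi.smul_apply, smul_eq_mul]
    field_simp
  rw [h6, ← hc, h4] at h5
  have h8 := (mul_eq_zero.1 h5.symm).resolve_left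
    (mul_ne_zero (Finset.prod_ne_zero_iff.2 fun a _ => pow_ne_zero _ (hc0 a))
      (pow_ne_zero _ hqi))
  simp only [div_self hqi, one_pow, mul_one] at h8
  exact h8

/-- the exceptional form -/
theorem exists_T (hirr : IrreducibleSet G) {e : J → ℕ} (he : ∀ a j, (P a j).IsHomogeneous (e a))
    {i : Fin (m + 1)} (hi : ∃ y ∈ Cone G, y i ≠ 0) {K : Fin (m + 1) → ℕ}
    {D : Fin (m + 1) → J → ℕ} {A : Fin (m + 1) → ℕ → MvPolynomial (Σ a, Fin (n a + 1)) ℂ}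
    (hA : ∀ j, EqnJ G P i j (K j) (D j) (A j)) {E : ∀ a, MvPolynomial (Fin (n a + 1)) ℂ}
    (hE : ∀ a, IsForm (E a)) (hE0 : ∀ a, ∃ y ∈ Cone G, eval (ratVal (P a) y) (E a) ≠ 0)
    {i₀ : ∀ a, Fin (n a + 1)} (hi0 : ∀ a, ∃ y ∈ Cone G, eval y (P a (i₀ a)) ≠ 0) :
    ∃ T : MvPolynomial (Fin (m + 1)) ℂ, IsForm T ∧ (∃ y ∈ Cone G, eval y T ≠ 0) ∧
      ∀ y, eval y T ≠ 0 → y i ≠ 0 ∧ (∀ a, ratVal (P a) y ≠ 0) ∧
        eval (blockVec fun a => ratVal (P a) y) (∏ j, A j (K j)) ≠ 0 ∧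
        ∀ a, eval (ratVal (P a) y) (E a) ≠ 0 := by
  classical
  obtain ⟨y₂, hy₂, hy₂i⟩ := hi
  set Q := ∏ j, A j (K j) with hQ
  obtain ⟨b, hb⟩ : ∃ b : J → ℕ, ∀ a, (E a).IsHomogeneous (b a) := by
    choose b hb using hE
    exact ⟨b, hb⟩
  obtain ⟨q1, q2⟩ := hirr.prod ⟨y₂, hy₂⟩ Finset.univ
    (A := fun j => aeval (fun p : Σ a, Fin (n a + 1) => P p.1 p.2) (A j (K j)))
    (fun j => form_of_multi he ((hA j).1 _)) fun j => by
      obtain ⟨y, hy, hne⟩ := (hA j).2.1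
      exact ⟨y, hy, by rw [eval_compJ]; exact hne⟩
  rw [← map_prod, ← hQ] at q1 q2
  obtain ⟨q3, q4⟩ := hirr.prod ⟨y₂, hy₂⟩ Finset.univ (A := fun a => P a (i₀ a))
    (fun a => ⟨e a, he a _⟩) hi0
  obtain ⟨q5, q6⟩ := hirr.prod ⟨y₂, hy₂⟩ Finset.univ (A := fun a => aeval (P a) (E a))
    (fun a => ⟨e a * b a, (hb a).aeval (P a) (he a)⟩) fun a => by
      obtain ⟨y, hy, hne⟩ := hE0 a
      exact ⟨y, hy, by rw [eval_comp]; exact hne⟩
  have q7 : IsForm (X i * ∏ a, P a (i₀ a)) := IsForm.mul' ⟨1, isHomogeneous_X ℂ i⟩ q3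
  have q8 : ∃ y ∈ Cone G, eval y (X i * ∏ a, P a (i₀ a)) ≠ 0 :=
    hirr.two ⟨1, isHomogeneous_X ℂ i⟩ q3 ⟨y₂, hy₂, by rw [eval_X]; exact hy₂i⟩ q4
  obtain ⟨q9, q10⟩ := hirr.three q7 q1 q5 q8 q2 q6
  refine ⟨_, q9, q10, fun y hy => ?_⟩
  rw [map_mul] at hy
  have k0 := left_ne_zero_of_mul hy
  have k1' := right_ne_zero_of_mul hy
  rw [map_prod] at k1'
  have k1 := Finset.prod_ne_zero_iff.1 k1'
  rw [map_mul] at k0
  have k2 := right_ne_zero_of_mul k0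
  have k3 := left_ne_zero_of_mul k0
  rw [map_mul, eval_X] at k3
  have k4' := right_ne_zero_of_mul k3
  rw [map_prod] at k4'
  have k4 := Finset.prod_ne_zero_iff.1 k4'
  refine ⟨left_ne_zero_of_mul k3, fun a h0 => k4 a (Finset.mem_univ a) (congrFun h0 (i₀ a)), ?_,
    fun a => ?_⟩
  · rw [eval_compJ] at k2
    exact k2
  · have := k1 a (Finset.mem_univ a)
    rw [eval_comp] at this
    exact this

variable {d ν : J → ℕ} {κ : J → Type}
  {η : ∀ a, κ a → (Fin (n a + 1) → ℂ) → (Fin (n a + 1) → ℂ) → (Fin (n a + 1) → ℂ) → ℂ}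
  {Φ : ∀ a, (Fin (n a + 1) → ℂ) → (Fin (n a + 1) → ℂ) → ℝ}

/-- **Pointed maps to varieties which are generically finite over products.** -/
theorem joint_pgh [∀ a, Finite (κ a)] (hX : ∀ a, ProjManifold (F a) (d a))
    (hη : ∀ a, PositiveTwoForms (Cone (F a)) ∅ (d a) (η a)) (hν : ∀ a, ν a ≠ 0)
    (hh : ∀ a, HomForms (Cone (F a)) (ν a) (η a)) (hΦ : ∀ a, NonposMetric (Cone (F a)) (d a) (Φ a))
    (hnd : ∀ a, Nondegenerate (Cone (F a)) (d a) (Φ a))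
    (hr : ∀ a, HermitianMetric (Cone (F a)) (d a) (Φ a) ∨
      UniformlyConvex (Cone (F a)) (d a) (Φ a))
    (hP : ∀ a, RationalMap G (F a) (P a)) (hirr : IrreducibleSet G)
    (hdim : ∀ a, TwoDimensional G (P a) ∨ ((∃ y ∈ Cone G, ratVal (P a) y ≠ 0) ∧
      ∀ f, HolIn (F a) f → ∀ z w, f z = f w))
    (hgf : JointlyFinite G P) :
    ∃ T : MvPolynomial (Fin (m + 1)) ℂ, IsForm T ∧ (∃ y ∈ Cone G, eval y T ≠ 0) ∧
      ∀ v : ℙ ℂ (Fin (m + 1) → ℂ), v.rep ∈ Cone G → eval v.rep T ≠ 0 →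
        (∀ g, HolIn G g → g 0 = v → ∀ z, g z = v) ∧
        ∀ (Γ : Subgroup SL(2, ℝ)) (r : ℝ), Cocompact Γ r → ∀ c : ℍ,
          {g : ℍ → ℙ ℂ (Fin (m + 1) → ℂ) | HolH (Cone G) g ∧
            (∀ γ ∈ Γ, ∀ z, g (γ • z) = g z) ∧ g c = v}.Finite := by
  classical
  have hP' := hP
  choose e he using fun a => (hP a).form
  choose E i₀ hE hE0 hi0 hcur hpt using fun a =>
    factor_pgh (G := G) (P := P a) (hX a) (hη a) (hν a) (hh a) (hΦ a) (hnd a) (hr a) (hdim a)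
  obtain ⟨i, hi, hgf'⟩ := hgf
  choose K D₀ A hA using hgf'
  have hA' : ∀ j, EqnJ G P i j (K j) (D₀ j) (A j) := hA
  obtain ⟨b, hb⟩ : ∃ b : J → ℕ, ∀ a, (E a).IsHomogeneous (b a) := by
    choose b hb using hE
    exact ⟨b, hb⟩
  obtain ⟨T, hTf, hT0, hT⟩ := exists_T hirr he hi hA' hE hE0 hi0
  obtain ⟨t, ht⟩ := hTf
  refine ⟨T, ⟨t, ht⟩, hT0, fun v hvG hvT => ?_⟩
  obtain ⟨k1, k2, k3, k4⟩ := hT _ hvT
  refine ⟨fun g hg hg0 z => ?_, fun Γ r hΓ c => ?_⟩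
  · -- entire curves
    have hx : ∀ a, ∃ x : Fin (n a + 1) → ℂ, x ≠ 0 ∧ ∀ z, Prop2 (ratVal (P a) (g z).rep) x := by
      intro a
      have k2' : ratVal (P a) (g 0).rep ≠ 0 := by
        rw [hg0]
        exact k2 a
      obtain ⟨f, hf, hfg⟩ := comp_ext (he a) hg.1 (z₁ := 0) k2' (F := F a)
        (fun z hz => (hP a).maps _ (hg.2 z) hz) (hX a).form
      by_cases hfc : ∃ z w, f z ≠ f w
      · exfalso
        obtain ⟨c, hc⟩ := hfg 0 k2'
        have hc' : ratVal (P a) (g 0).rep = c • (f 0).rep := hc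
        have k7 := k4 a
        rw [← hg0, hc', eval_smul (hb a), hcur a f hf hfc 0, mul_zero] at k7
        exact k7 rfl
      · push Not at hfc
        refine ⟨(f 0).rep, Projectivization.rep_nonzero _, fun z => ?_⟩
        by_cases h0 : ratVal (P a) (g z).rep = 0
        · rw [h0]
          intro k l
          simp
        · obtain ⟨c, hc⟩ := hfg z h0
          have hc' : ratVal (P a) (g z).rep = c • (f z).rep := hc
          rw [hc', hfc z 0]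
          exact prop2_smul _ _
    choose x hx0 hx using hx
    have h1 := const_of_values (joint_fibre hA' hx0) hg.1 (by
      refine (zeros_countable (z₁ := 0) ⟨t, ht⟩ hg.1 (by rw [hg0]; exact hvT)).mono ?_
      rintro s ⟨hs, hs1⟩
      refine ⟨?_, hs1⟩
      by_contra hcon
      obtain ⟨m1, m2, m3, -⟩ := hT _ hcon
      exact hs ⟨hg.2 s, m1, m2, m3, fun a => hx a s⟩) z 0
    rw [h1, hg0]
  · -- pointed maps
    have hp : ∀ a, ∃ p : ℙ ℂ (Fin (n a + 1) → ℂ), Prop2 (ratVal (P a) v.rep) p.rep ∧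
        eval p.rep (E a) ≠ 0 := by
      intro a
      obtain ⟨c, hc, hce⟩ := mk_rep (k2 a) (rfl : Projectivization.mk ℂ (ratVal (P a) v.rep) (k2 a) =
        Projectivization.mk ℂ (ratVal (P a) v.rep) (k2 a))
      refine ⟨Projectivization.mk ℂ (ratVal (P a) v.rep) (k2 a), ?_, ?_⟩
      · rw [hce]
        exact (prop2_smul _ _).symm
      · rw [hce, eval_smul (hb a)]
        exact mul_ne_zero (pow_ne_zero _ hc) (k4 a)
    choose p hp1 hp2 using hp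
    have hfin : {f : ∀ a, ℍ → ℙ ℂ (Fin (n a + 1) → ℂ) | ∀ a, f a ∈
        {f : ℍ → ℙ ℂ (Fin (n a + 1) → ℂ) | HolH (Cone (F a)) f ∧
          (∀ γ ∈ Γ, ∀ z, f (γ • z) = f z) ∧ f c = p a}}.Finite :=
      Set.Finite.pi' fun a => hpt a Γ r hΓ c (p a) (hp2 a)
    have hsub : {g : ℍ → ℙ ℂ (Fin (m + 1) → ℂ) | HolH (Cone G) g ∧
        (∀ γ ∈ Γ, ∀ z, g (γ • z) = g z) ∧ g c = v} ⊆
        ⋃ f ∈ {f : ∀ a, ℍ → ℙ ℂ (Fin (n a + 1) → ℂ) | ∀ a, f a ∈
          {f : ℍ → ℙ ℂ (Fin (n a + 1) → ℂ) | HolH (Cone (F a)) f ∧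
            (∀ γ ∈ Γ, ∀ z, f (γ • z) = f z) ∧ f c = p a}},
        {g : ℍ → ℙ ℂ (Fin (m + 1) → ℂ) | (HolH (Cone G) g ∧ (∀ γ ∈ Γ, ∀ z, g (γ • z) = g z) ∧
          g c = v) ∧ ∀ a w, Prop2 (ratVal (P a) (g w).rep) (f a w).rep} := by
      rintro g ⟨h1, h2, h3⟩
      have hex : ∀ a, ∃ f : ℍ → ℙ ℂ (Fin (n a + 1) → ℂ), (HolH (Cone (F a)) f ∧
          (∀ γ ∈ Γ, ∀ z, f (γ • z) = f z) ∧ f c = p a) ∧
          ∀ w, Prop2 (ratVal (P a) (g w).rep) (f w).rep := fun a =>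
        comp_disc (hX a).form (hP a) hΓ (k2 a) (hp1 a) h1 h2 h3
      choose f hf hfg using hex
      simp only [Set.mem_iUnion]
      exact ⟨f, hf, ⟨h1, h2, h3⟩, hfg⟩
    refine (hfin.biUnion fun f _ => ?_).subset hsub
    by_contra hinf
    have hinf' : {g : ℍ → ℙ ℂ (Fin (m + 1) → ℂ) | (HolH (Cone G) g ∧
      (∀ γ ∈ Γ, ∀ z, g (γ • z) = g z) ∧ g c = v) ∧
      ∀ a w, Prop2 (ratVal (P a) (g w).rep) (f a w).rep}.Infinite := hinf
    set ee := hinf'.natEmbedding with hee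
    set g : ℕ → ℍ → ℙ ℂ (Fin (m + 1) → ℂ) := fun i => (ee i).1 with hg
    have hgi : ∀ i, (HolH (Cone G) (g i) ∧ (∀ γ ∈ Γ, ∀ z, g i (γ • z) = g i z) ∧ g i c = v) ∧
        ∀ a w, Prop2 (ratVal (P a) (g i w).rep) (f a w).rep := fun i => (ee i).2
    have hA2 : ∀ i j, i ≠ j →
        ({ζ : ℂ | g i (cayH c ζ) = g j (cayH c ζ)} ∩ ball 0 1).Countable := by
      intro i j hij
      refine countable_of_punctured ((holD_cay (hgi i).1.1 c).ne_of_ne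
        (holD_cay (hgi j).1.1 c) ?_)
      by_contra hcon
      push Not at hcon
      apply hij
      apply ee.injective
      apply Subtype.ext
      funext w
      have h1 := hcon _ (icay_mem c w)
      rw [cayH_icay] at h1
      exact h1
    have hB : ∀ i, ({ζ : ℂ | eval (g i (cayH c ζ)).rep T = 0} ∩ ball 0 1).Countable := by
      intro i
      refine countable_of_punctured fun z hz => ?_
      have h1 : Sec (fun ζ => g i (cayH c ζ)) t fun ζ => eval (g i (cayH c ζ)).rep T :=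
        sec_form (f := fun ζ => g i (cayH c ζ)) ht
      exact h1.isolated (holD_cay (hgi i).1.1 c) ⟨0, mem_ball_self one_pos, by
        rw [cayH_zero, (hgi i).1.2.2]
        exact hvT⟩ hz
    have hcount : ((⋃ i : ℕ, ⋃ j : ℕ, ⋃ _ : i ≠ j,
        ({ζ : ℂ | g i (cayH c ζ) = g j (cayH c ζ)} ∩ ball 0 1)) ∪
        ⋃ i : ℕ, ({ζ : ℂ | eval (g i (cayH c ζ)).rep T = 0} ∩ ball 0 1)).Countable := by
      refine Set.Countable.union ?_ (Set.countable_iUnion hB)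
      refine Set.countable_iUnion fun i => Set.countable_iUnion fun j =>
        Set.countable_iUnion fun h => ?_
      exact hA2 i j h
    obtain ⟨ζ, hζ, hζ'⟩ := (hcount.dense_compl ℂ).exists_mem_open isOpen_ball
      ⟨0, mem_ball_self one_pos⟩
    rw [Set.mem_compl_iff, Set.mem_union, not_or] at hζ
    obtain ⟨hζ1, hζ2⟩ := hζ
    simp only [Set.mem_iUnion, not_exists, Set.mem_inter_iff, not_and] at hζ1 hζ2
    have hinj : Function.Injective fun i => g i (cayH c ζ) := by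
      intro i j hij
      by_contra hne
      exact hζ1 i j hne hij hζ'
    refine Set.infinite_of_injective_forall_mem hinj (fun j => ?_)
      (joint_fibre hA' (x := fun a => (f a (cayH c ζ)).rep) fun a =>
        Projectivization.rep_nonzero _)
    have h1 : eval (g j (cayH c ζ)).rep T ≠ 0 := fun hcon => hζ2 j hcon hζ'
    obtain ⟨m1, m2, m3, -⟩ := hT _ h1
    exact ⟨((hgi j).1.1 _).1, m1, m2, m3, fun a => (hgi j).2 a _⟩

end Pool.Agent.H33
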