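import Pool.Agent.H33.VJ

/-! Entire curves in varieties with several rational maps to manifolds of nonpositive curvature. -/

set_option autoImplicit false

open Filter Topology Metric Set MvPolynomial MeasureTheory LinearAlgebra.Projectivization
open scoped UpperHalfPlane MatrixGroups ENNReal

namespace Pool.Agent.H33

open Pool.Agent.Y190.OP Pool.Agent.W602.GT Pool.Agent.N155 Pool.Agent.N155.BB

variable {m : ℕ} {ι' : Type} {G : ι' → MvPolynomial (Fin (m + 1)) ℂ}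
  {J : Type} [Fintype J] {n : J → ℕ} {ι : J → Type}
  {F : ∀ a, ι a → MvPolynomial (Fin (n a + 1)) ℂ}
  {P : ∀ a, Fin (n a + 1) → MvPolynomial (Fin (m + 1)) ℂ}
  {d ν : J → ℕ} {κ : J → Type}
  {η : ∀ a, κ a → (Fin (n a + 1) → ℂ) → (Fin (n a + 1) → ℂ) → (Fin (n a + 1) → ℂ) → ℂ}
  {Φ : ∀ a, (Fin (n a + 1) → ℂ) → (Fin (n a + 1) → ℂ) → ℝ}

/-- **The Green-Griffiths-Lang conjecture for fibre spaces over products.** -/
theorem joint_ggl [∀ a, Finite (κ a)] (hX : ∀ a, ProjManifold (F a) (d a))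
    (hη : ∀ a, PositiveTwoForms (Cone (F a)) ∅ (d a) (η a)) (hν : ∀ a, ν a ≠ 0)
    (hh : ∀ a, HomForms (Cone (F a)) (ν a) (η a)) (hΦ : ∀ a, NonposMetric (Cone (F a)) (d a) (Φ a))
    (hnd : ∀ a, Nondegenerate (Cone (F a)) (d a) (Φ a))
    (hr : ∀ a, HermitianMetric (Cone (F a)) (d a) (Φ a) ∨
      UniformlyConvex (Cone (F a)) (d a) (Φ a))
    (hP : ∀ a, RationalMap G (F a) (P a)) (hirr : IrreducibleSet G)
    (hdim : ∀ a, TwoDimensional G (P a) ∨ ((∃ y ∈ Cone G, ratVal (P a) y ≠ 0) ∧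
      ∀ f, HolIn (F a) f → ∀ z w, f z = f w))
    {K : MvPolynomial (Fin (m + 1)) ℂ} (hK : IsForm K) (hK0 : ∃ y ∈ Cone G, eval y K ≠ 0)
    (hKf : ∀ g, HolIn G g → (∃ z w, g z ≠ g w) →
      (∀ a, (∃ z, ratVal (P a) (g z).rep ≠ 0) ∧
        ∃ x : Fin (n a + 1) → ℂ, ∀ z, ∃ c : ℂ, ratVal (P a) (g z).rep = c • x) →
      ∀ z, eval (g z).rep K = 0) :
    ∃ E : MvPolynomial (Fin (m + 1)) ℂ, IsForm E ∧ (∃ y ∈ Cone G, eval y E ≠ 0) ∧
      ∀ g, HolIn G g → (∃ z w, g z ≠ g w) → ∀ z, eval (g z).rep E = 0 := by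
  classical
  choose e he using fun a => (hP a).form
  choose E i₀ hE hE0 hi0 hcur hpt using fun a =>
    factor_pgh (G := G) (P := P a) (hX a) (hη a) (hν a) (hh a) (hΦ a) (hnd a) (hr a) (hdim a)
  obtain ⟨b, hb⟩ : ∃ b : J → ℕ, ∀ a, (E a).IsHomogeneous (b a) := by
    choose b hb using hE
    exact ⟨b, hb⟩
  obtain ⟨y₂, hy₂, hy₂K⟩ := hK0
  obtain ⟨q3, q4⟩ := hirr.prod ⟨y₂, hy₂⟩ Finset.univ (A := fun a => P a (i₀ a))
    (fun a => ⟨e a, he a _⟩) hi0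
  obtain ⟨q5, q6⟩ := hirr.prod ⟨y₂, hy₂⟩ Finset.univ (A := fun a => aeval (P a) (E a))
    (fun a => ⟨e a * b a, (hb a).aeval (P a) (he a)⟩) fun a => by
      obtain ⟨y, hy, hne⟩ := hE0 a
      exact ⟨y, hy, by rw [eval_comp]; exact hne⟩
  obtain ⟨q9, q10⟩ := hirr.three hK q3 q5 ⟨y₂, hy₂, hy₂K⟩ q4 q6
  refine ⟨_, q9, q10, fun g hg hnc z => ?_⟩
  by_contra hy
  rw [map_mul] at hy
  have k0 := left_ne_zero_of_mul hy
  have k1' := right_ne_zero_of_mul hy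
  rw [map_prod] at k1'
  have k1 := Finset.prod_ne_zero_iff.1 k1'
  rw [map_mul] at k0
  have k2' := right_ne_zero_of_mul k0
  have k3 := left_ne_zero_of_mul k0
  rw [map_prod] at k2'
  have k2 := Finset.prod_ne_zero_iff.1 k2'
  refine k3 (hKf g hg hnc (fun a => ?_) z)
  have h1 : ratVal (P a) (g z).rep ≠ 0 := fun h0 => k2 a (Finset.mem_univ a) (congrFun h0 (i₀ a))
  have h2 : eval (ratVal (P a) (g z).rep) (E a) ≠ 0 := by
    have := k1 a (Finset.mem_univ a)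
    rw [eval_comp] at this
    exact this
  refine ⟨⟨z, h1⟩, ?_⟩
  obtain ⟨f, hf, hfg⟩ := comp_ext (he a) hg.1 (z₁ := z) h1 (F := F a)
    (fun z hz => (hP a).maps _ (hg.2 z) hz) (hX a).form
  by_cases hfc : ∃ z w, f z ≠ f w
  · exfalso
    obtain ⟨c, hc⟩ := hfg z h1
    have hc' : ratVal (P a) (g z).rep = c • (f z).rep := hc
    rw [hc', eval_smul (hb a), hcur a f hf hfc z, mul_zero] at h2
    exact h2 rfl
  · push Not at hfc
    refine ⟨(f 0).rep, fun w => ?_⟩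
    by_cases h3 : ratVal (P a) (g w).rep = 0
    · exact ⟨0, by rw [h3, zero_smul]⟩
    · obtain ⟨c, hc⟩ := hfg w h3
      exact ⟨c, by rw [hfc 0 w]; exact hc⟩

end Pool.Agent.H33
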