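import Pool.Agent.H33.VK
import Pool.Agent.H33.ND

/-! Compositions of holomorphic maps from the punctured disc with rational maps. -/

set_option autoImplicit false

open Filter Topology Metric Set MvPolynomial LinearAlgebra.Projectivization

namespace Pool.Agent.H33

open Pool.Agent.Y190.OP Pool.Agent.W602.GT Pool.Agent.N155 Pool.Agent.N155.BB

variable {m n : ℕ}

theorem isPreconnected_punct : IsPreconnected (ball (0 : ℂ) 1 \ {0}) := by
  have h1 : IsPreconnected upper := (convex_halfSpace_im_gt 0).isPreconnected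
  have h2 := h1.image (fun τ => Complex.exp (Complex.I * τ))
    (by fun_prop : Continuous fun τ => Complex.exp (Complex.I * τ)).continuousOn
  have h3 : (fun τ => Complex.exp (Complex.I * τ)) '' upper = ball (0 : ℂ) 1 \ {0} := by
    apply Subset.antisymm
    · rintro _ ⟨τ, hτ, rfl⟩
      exact exp_mem hτ
    · intro z hz
      obtain ⟨e1, i1⟩ := exp_lift (show z ≠ 0 from hz.2)
      refine ⟨_, ?_, e1⟩
      change 0 < (-Complex.I * Complex.log z).im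
      rw [i1]
      have := Real.log_neg (norm_pos_iff.2 (show z ≠ 0 from hz.2)) (mem_ball_zero_iff.1 hz.1)
      linarith
  rwa [h3] at h2

/-- the identity theorem -/
theorem conn_isolated {U : Set ℂ} (hc : IsPreconnected U) {Z : ℂ → Prop}
    (h : ∀ z ∈ U, (∀ᶠ w in 𝓝 z, Z w) ∨ ∀ᶠ w in 𝓝[≠] z, ¬ Z w) {z₁ : ℂ} (hz₁ : z₁ ∈ U)
    (h1 : ¬ Z z₁) : ∀ z ∈ U, ∀ᶠ w in 𝓝[≠] z, ¬ Z w := by
  set u : Set ℂ := {z | ∀ᶠ w in 𝓝 z, Z w} with hu
  set v : Set ℂ := {z | ∀ᶠ w in 𝓝[≠] z, ¬ Z w} with hv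
  have hzu : z₁ ∉ u := fun hh => h1 (show ∀ᶠ w in 𝓝 z₁, Z w from hh).self_of_nhds
  have huo : IsOpen u := isOpen_setOfPred_eventually_nhds
  have hvo : IsOpen v := by
    rw [isOpen_iff_mem_nhds]
    intro z hz
    have h2 : ∀ᶠ w in 𝓝 z, w ≠ z → ¬ Z w := eventually_nhdsWithin_iff.1 hz
    filter_upwards [h2.eventually_nhds] with w hw
    by_cases hwz : w = z
    · rw [hwz]
      exact hz
    · have h3 : ∀ᶠ s in 𝓝 w, s ≠ z := isOpen_ne.mem_nhds hwz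
      exact nhdsWithin_le_nhds ((hw.and h3).mono fun s hs => hs.1 hs.2)
  have hd : Disjoint u v := by
    rw [Set.disjoint_left]
    intro z h2 h3
    have h4 : ∀ᶠ w in 𝓝[≠] z, Z w := nhdsWithin_le_nhds h2
    obtain ⟨w, hw⟩ := (h4.and h3).exists
    exact hw.2 hw.1
  exact hc.subset_right_of_subset_union huo hvo hd (fun z hz => h z hz)
    ⟨z₁, hz₁, (h z₁ hz₁).resolve_left hzu⟩

variable {U : Set ℂ}

/-- local lifts of the composition -/
theorem comp_localOn {P : Fin (n + 1) → MvPolynomial (Fin (m + 1)) ℂ} {e : ℕ}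
    (hP : ∀ j, (P j).IsHomogeneous e) {g : ℂ → ℙ ℂ (Fin (m + 1) → ℂ)} (hg : HolMapOn U g) {z₀ : ℂ}
    (hz₀ : z₀ ∈ U) :
    ∃ G : ℂ → Fin (n + 1) → ℂ, AnalyticAt ℂ G z₀ ∧
      ∀ᶠ z in 𝓝 z₀, ∃ c : ℂ, c ≠ 0 ∧ evP P (g z).rep = c • G z := by
  obtain ⟨V, g₀, hV, hz, hd, h⟩ := hg z₀ hz₀
  refine ⟨fun z => evP P (g₀ z), ?_, ?_⟩
  · have h1 : AnalyticAt ℂ g₀ z₀ := hd.analyticAt (hV.mem_nhds hz)
    rw [analyticAt_pi_iff]
    intro j
    have h2 : AnalyticAt ℂ (fun y : Fin (m + 1) → ℂ => eval y (P j)) (g₀ z₀) :=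
      AnalyticOnNhd.eval_mvPolynomial (P j) _ (mem_univ _)
    exact h2.comp h1
  · filter_upwards [hV.mem_nhds hz] with z hz
    obtain ⟨h1, h2⟩ := h z hz
    obtain ⟨c, hc, hr⟩ := mk_rep h1 h2
    exact ⟨c ^ e, pow_ne_zero _ hc, by rw [hr, evP_smul hP]⟩

/-- the composition vanishes at isolated points, or identically -/
theorem comp_neOn (hc : IsPreconnected U) {P : Fin (n + 1) → MvPolynomial (Fin (m + 1)) ℂ} {e : ℕ}
    (hP : ∀ j, (P j).IsHomogeneous e) {g : ℂ → ℙ ℂ (Fin (m + 1) → ℂ)} (hg : HolMapOn U g) {z₁ : ℂ}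
    (hz₁ : z₁ ∈ U) (h1 : evP P (g z₁).rep ≠ 0) :
    ∀ z₀ ∈ U, ∀ᶠ z in 𝓝[≠] z₀, evP P (g z).rep ≠ 0 := by
  refine conn_isolated hc (Z := fun z => evP P (g z).rep = 0) (fun z₀ hz₀ => ?_) hz₁ h1
  obtain ⟨G, hG, hc⟩ := comp_localOn hP hg hz₀
  rcases hG.eventually_eq_zero_or_eventually_ne_zero with h | h
  · left
    filter_upwards [h, hc] with z hz hc
    obtain ⟨c, -, hc⟩ := hc
    rw [hc, hz, smul_zero]
  · right
    filter_upwards [h, nhdsWithin_le_nhds hc] with z hz hc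
    obtain ⟨c, hc0, hc⟩ := hc
    rw [hc]
    exact smul_ne_zero hc0 hz

/-- **The composition of a holomorphic map and a rational map.** -/
theorem comp_extOn (hU : IsOpen U) (hcU : IsPreconnected U)
    {P : Fin (n + 1) → MvPolynomial (Fin (m + 1)) ℂ} {e : ℕ}
    (hP : ∀ j, (P j).IsHomogeneous e) {g : ℂ → ℙ ℂ (Fin (m + 1) → ℂ)} (hg : HolMapOn U g) {z₁ : ℂ}
    (hz₁ : z₁ ∈ U) (h1 : evP P (g z₁).rep ≠ 0) {ι : Type} {F : ι → MvPolynomial (Fin (n + 1)) ℂ}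
    (hF : ∀ z ∈ U, evP P (g z).rep ≠ 0 → evP P (g z).rep ∈ Cone F) (hFf : ∀ i, IsForm (F i)) :
    ∃ f : ℂ → ℙ ℂ (Fin (n + 1) → ℂ), HolMapOn U f ∧ (∀ z ∈ U, (f z).rep ∈ Cone F) ∧
      ∀ z ∈ U, evP P (g z).rep ≠ 0 → ∃ c : ℂ, evP P (g z).rep = c • (f z).rep := by
  have hex : ∀ z₀ : ℂ, ∃ h : ℂ → Fin (n + 1) → ℂ, h z₀ ≠ 0 ∧ (z₀ ∈ U → AnalyticAt ℂ h z₀ ∧
      ∀ᶠ z in 𝓝[≠] z₀, evP P (g z).rep ≠ 0 ∧ Prop2 (evP P (g z).rep) (h z)) := by
    intro z₀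
    by_cases hz₀ : z₀ ∈ U
    · obtain ⟨G, hG, hc⟩ := comp_localOn hP hg hz₀
      have hne := comp_neOn hcU hP hg hz₁ h1 z₀ hz₀
      have hG0 : ¬ ∀ᶠ z in 𝓝 z₀, G z = 0 := by
        intro h
        obtain ⟨z, h2, h3, h4⟩ := (hne.and (h.and hc |>.filter_mono nhdsWithin_le_nhds)).exists
        obtain ⟨c, -, h4⟩ := h4
        rw [h4, h3, smul_zero] at h2
        exact h2 rfl
      obtain ⟨k, h, hh, hh0, hk⟩ := (AnalyticAt.exists_eventuallyEq_pow_smul_nonzero_iff hG).2 hG0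
      refine ⟨h, hh0, fun _ => ⟨hh, ?_⟩⟩
      filter_upwards [hne, nhdsWithin_le_nhds hc, nhdsWithin_le_nhds hk] with z h2 h3 h4
      refine ⟨h2, ?_⟩
      obtain ⟨c, -, h3⟩ := h3
      rw [h3, h4, smul_smul]
      exact prop2_smul _ _
    · exact ⟨fun _ _ => 1, fun h0 => one_ne_zero (congrFun h0 0), fun h => absurd h hz₀⟩
  choose h hh0 hhe using hex
  have hh : ∀ z ∈ U, AnalyticAt ℂ (h z) z := fun z hz => (hhe z hz).1
  have hev := fun z (hz : z ∈ U) => (hhe z hz).2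
  have hloc : ∀ z₀ ∈ U, ∀ᶠ z in 𝓝 z₀, h z₀ z ≠ 0 ∧ Prop2 (h z z) (h z₀ z) := by
    intro z₀ hz₀
    have a1 : ∀ᶠ z in 𝓝 z₀, h z₀ z ≠ 0 := (hh z₀ hz₀).continuousAt.eventually_ne (hh0 z₀)
    have a2 : ∀ᶠ z in 𝓝 z₀, AnalyticAt ℂ (h z₀) z := (hh z₀ hz₀).eventually_analyticAt
    have a3 : ∀ᶠ z in 𝓝 z₀, z ≠ z₀ → (evP P (g z).rep ≠ 0 ∧ Prop2 (evP P (g z).rep) (h z₀ z)) :=
      eventually_nhdsWithin_iff.1 (hev z₀ hz₀)
    filter_upwards [a1, a2, a3.eventually_nhds, a3, hU.mem_nhds hz₀] with z b1 b2 b3 b4 b0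
    refine ⟨b1, ?_⟩
    by_cases hz : z = z₀
    · rw [hz]
      exact fun i j => mul_comm _ _
    · apply Prop2.lim (hh z b0).continuousAt b2.continuousAt
      have b5 : ∀ᶠ w in 𝓝 z, w ≠ z₀ := isOpen_ne.mem_nhds hz
      filter_upwards [hev z b0, nhdsWithin_le_nhds b3, nhdsWithin_le_nhds b5] with w c1 c2 c3
      exact (c1.2.symm).trans c1.1 (c2 c3).2
  refine ⟨fun z => Projectivization.mk ℂ (h z z) (hh0 z), fun z₀ hz₀ => ?_, fun z₀ hz₀ => ?_,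
    fun z₀ hz₀ hz => ?_⟩
  · obtain ⟨V, hV1, hV2, hV3⟩ := _root_.eventually_nhds_iff.1
      ((hloc z₀ hz₀).and (hh z₀ hz₀).eventually_analyticAt)
    refine ⟨V, h z₀, hV2, hV3, fun z hz => (hV1 z hz).2.differentiableAt.differentiableWithinAt,
      fun z hz => ⟨(hV1 z hz).1.1, Prop2.mk _ _ (hV1 z hz).1.2⟩⟩
  · obtain ⟨c, hc, hr⟩ := mk_rep (hh0 z₀) rfl
    have hmem : h z₀ z₀ ∈ Cone F := by
      refine ⟨hh0 z₀, fun i => ?_⟩
      obtain ⟨k, hk⟩ := hFf i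
      rw [val_eval]
      have h2 : ContinuousAt (fun z => eval (h z₀ z) (F i)) z₀ := by
        have : Continuous fun y : Fin (n + 1) → ℂ => eval y (F i) := (F i).continuous_eval
        exact this.continuousAt.comp (hh z₀ hz₀).continuousAt
      have h3 : Tendsto (fun z => eval (h z₀ z) (F i)) (𝓝[≠] z₀) (𝓝 (eval (h z₀ z₀) (F i))) :=
        h2.continuousWithinAt
      refine tendsto_nhds_unique h3 (tendsto_const_nhds.congr' ?_)
      filter_upwards [hev z₀ hz₀, nhdsWithin_le_nhds (hU.mem_nhds hz₀)] with z hz hzU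
      obtain ⟨c, hc⟩ := hz.2.smul hz.1
      have h4 := (hF z hzU hz.1).2 i
      rw [val_eval] at h4
      rw [hc, eval_smul hk, h4, mul_zero]
    rw [hr]
    exact cone_smul hFf hmem hc
  · obtain ⟨c, hc, hr⟩ := mk_rep (hh0 z₀) rfl
    have h2 : Prop2 (h z₀ z₀) (evP P (g z₀).rep) := by
      obtain ⟨G, hG, hcG⟩ := comp_localOn hP hg hz₀
      obtain ⟨c', hc', hr'⟩ := Eventually.self_of_nhds hcG
      have hG0 : G z₀ ≠ 0 := by
        rintro h0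
        rw [hr', h0, smul_zero] at hz
        exact hz rfl
      have h3 : Prop2 (h z₀ z₀) (G z₀) := by
        apply Prop2.lim (hh z₀ hz₀).continuousAt hG.continuousAt
        filter_upwards [hev z₀ hz₀, nhdsWithin_le_nhds hcG] with w c1 c2
        obtain ⟨a, -, ha⟩ := c2
        exact (c1.2.symm).trans c1.1 (ha ▸ prop2_smul (G w) a)
      exact h3.trans hG0 (hr' ▸ (prop2_smul (G z₀) c').symm)
    have h4 : (Projectivization.mk ℂ (h z₀ z₀) (hh0 z₀)).rep ≠ 0 := Projectivization.rep_nonzero _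
    have h5 : Prop2 (Projectivization.mk ℂ (h z₀ z₀) (hh0 z₀)).rep (evP P (g z₀).rep) :=
      Prop2.trans (hh0 z₀) (hr ▸ prop2_smul _ c) h2
    exact h5.smul h4

end Pool.Agent.H33
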