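import Pool.Agent.H33.VL

/-! Maps from the punctured disc which are algebraic over maps from the disc. -/

set_option autoImplicit false

open Filter Topology Metric Set MvPolynomial LinearAlgebra.Projectivization

namespace Pool.Agent.H33

open Pool.Agent.Y190.OP Pool.Agent.W602.GT Pool.Agent.N155 Pool.Agent.N155.BB

/-- the bound of the roots -/
theorem root_bound {K : ℕ} {a : ℕ → ℂ} {M : ℝ} (hM : ∀ k ∈ Finset.range (K + 1), ‖a k‖ ≤ M)
    {y x : ℂ} (ha : a K ≠ 0) (h : ∑ k ∈ Finset.range (K + 1), a k * y ^ k * x ^ (K - k) = 0) :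
    ‖a K‖ * ‖y‖ ≤ (K + 1) * M * ‖x‖ := by
  have hM0 : 0 ≤ M := (norm_nonneg _).trans (hM 0 (by simp))
  rcases le_or_gt ‖y‖ ‖x‖ with hyx | hyx
  · calc ‖a K‖ * ‖y‖ ≤ M * ‖x‖ := mul_le_mul (hM K (by simp)) hyx (norm_nonneg _) hM0
      _ ≤ (K + 1) * M * ‖x‖ := by
        have : (0 : ℝ) ≤ K * (M * ‖x‖) := by positivity
        nlinarith
  · have hy : 0 < ‖y‖ := (norm_nonneg _).trans_lt hyx
    rw [Finset.sum_range_succ, Nat.sub_self, pow_zero, mul_one] at h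
    rcases K with _ | K
    · simp at h
      exact absurd h ha
    have h1 : a (K + 1) * y ^ (K + 1) =
        -∑ k ∈ Finset.range (K + 1), a k * y ^ k * x ^ (K + 1 - k) := by
      linear_combination h
    have h2 : ‖a (K + 1)‖ * ‖y‖ ^ (K + 1) ≤ (K + 1) * (M * ‖y‖ ^ K * ‖x‖) := by
      calc ‖a (K + 1)‖ * ‖y‖ ^ (K + 1) =
          ‖∑ k ∈ Finset.range (K + 1), a k * y ^ k * x ^ (K + 1 - k)‖ := by
            rw [← norm_pow, ← norm_mul, h1, norm_neg]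
        _ ≤ ∑ k ∈ Finset.range (K + 1), M * ‖y‖ ^ K * ‖x‖ := by
            refine norm_sum_le_of_le _ fun k hk => ?_
            have hk' : k ≤ K := Nat.lt_succ_iff.1 (Finset.mem_range.1 hk)
            have e1 : K + 1 - k = (K - k) + 1 := by omega
            rw [norm_mul, norm_mul, norm_pow, norm_pow, e1, pow_succ]
            have e2 : ‖a k‖ ≤ M := hM k (Finset.mem_range.2 (by omega))
            have e3 : ‖x‖ ^ (K - k) ≤ ‖y‖ ^ (K - k) := pow_le_pow_left₀ (norm_nonneg _) hyx.le _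
            have e4 : ‖y‖ ^ k * ‖x‖ ^ (K - k) ≤ ‖y‖ ^ K := by
              calc ‖y‖ ^ k * ‖x‖ ^ (K - k) ≤ ‖y‖ ^ k * ‖y‖ ^ (K - k) :=
                    mul_le_mul_of_nonneg_left e3 (by positivity)
                _ = ‖y‖ ^ K := by rw [← pow_add, Nat.add_sub_cancel' hk']
            calc ‖a k‖ * ‖y‖ ^ k * (‖x‖ ^ (K - k) * ‖x‖) =
                ‖a k‖ * (‖y‖ ^ k * ‖x‖ ^ (K - k)) * ‖x‖ := by ring
              _ ≤ M * ‖y‖ ^ K * ‖x‖ := by gcongr
        _ = (K + 1) * (M * ‖y‖ ^ K * ‖x‖) := by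
            rw [Finset.sum_const, Finset.card_range, nsmul_eq_mul]
            push_cast
            ring
    have h3 : ‖a (K + 1)‖ * ‖y‖ * ‖y‖ ^ K ≤ (K + 1) * M * ‖x‖ * ‖y‖ ^ K := by
      rw [pow_succ] at h2
      nlinarith
    have h4 := le_of_mul_le_mul_right h3 (pow_pos hy K)
    refine h4.trans ?_
    push_cast
    have : (0 : ℝ) ≤ M * ‖x‖ := by positivity
    nlinarith

variable {m : ℕ} {ι' : Type} {G : ι' → MvPolynomial (Fin (m + 1)) ℂ}

/-- extension over the puncture -/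
theorem punct_ext (hGf : ∀ j, IsForm (G j)) {g : ℂ → ℙ ℂ (Fin (m + 1) → ℂ)}
    (hg : HolMapOn (ball 0 1 \ {0}) g) (hgG : ∀ z ∈ ball (0 : ℂ) 1 \ {0}, (g z).rep ∈ Cone G)
    {H : ℂ → Fin (m + 1) → ℂ} (hH : AnalyticAt ℂ H 0) (hH0 : H 0 ≠ 0)
    (h : ∀ᶠ z in 𝓝[≠] 0, Prop2 (g z).rep (H z)) :
    ∃ g' : ℂ → ℙ ℂ (Fin (m + 1) → ℂ), HolMapOn (ball 0 1) g' ∧
      (∀ z ∈ ball (0 : ℂ) 1, (g' z).rep ∈ Cone G) ∧ ∀ z ∈ ball (0 : ℂ) 1 \ {0}, g' z = g z := by
  classical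
  set g' : ℂ → ℙ ℂ (Fin (m + 1) → ℂ) := Function.update g 0 (Projectivization.mk ℂ (H 0) hH0)
    with hg'
  have hg0 : g' 0 = Projectivization.mk ℂ (H 0) hH0 := Function.update_self _ _ _
  have hgz : ∀ z, z ≠ 0 → g' z = g z := fun z hz => Function.update_of_ne hz _ _
  refine ⟨g', fun z hz => ?_, fun z hz => ?_, fun z hz => hgz z hz.2⟩
  · by_cases h0 : z = 0
    · subst h0
      obtain ⟨V, hV1, hV2, hV3⟩ := _root_.eventually_nhds_iff.1
        (((hH.continuousAt.eventually_ne hH0).and hH.eventually_analyticAt).and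
          (eventually_nhdsWithin_iff.1 h))
      refine ⟨V, H, hV2, hV3, fun z hz => (hV1 z hz).1.2.differentiableAt.differentiableWithinAt,
        fun w hw => ⟨(hV1 w hw).1.1, ?_⟩⟩
      by_cases hw0 : w = 0
      · subst hw0
        exact hg0
      · rw [hgz w hw0]
        have h1 := (hV1 w hw).2 hw0
        exact (g w).mk_rep.symm.trans (Prop2.mk (g w).rep_nonzero _ h1)
    · obtain ⟨V, g₀, hV, hzV, hd, hf⟩ := hg z ⟨hz, h0⟩
      refine ⟨V ∩ {0}ᶜ, g₀, hV.inter isOpen_compl_singleton, ⟨hzV, h0⟩, hd.mono inter_subset_left,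
        fun w hw => ?_⟩
      obtain ⟨h1, h2⟩ := hf w hw.1
      exact ⟨h1, by rw [hgz w hw.2]; exact h2⟩
  · by_cases h0 : z = 0
    · rw [h0, hg0]
      obtain ⟨c, hc, hr⟩ := mk_rep hH0 rfl
      rw [hr]
      refine cone_smul hGf ⟨hH0, fun i => ?_⟩ hc
      obtain ⟨k, hk⟩ := hGf i
      rw [val_eval]
      have h2 : ContinuousAt (fun z => eval (H z) (G i)) 0 := by
        have : Continuous fun y : Fin (m + 1) → ℂ => eval y (G i) := (G i).continuous_eval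
        exact this.continuousAt.comp hH.continuousAt
      have h3 : Tendsto (fun z => eval (H z) (G i)) (𝓝[≠] 0) (𝓝 (eval (H 0) (G i))) :=
        h2.continuousWithinAt
      refine tendsto_nhds_unique h3 (tendsto_const_nhds.congr' ?_)
      filter_upwards [h, nhdsWithin_le_nhds (ball_mem_nhds (0 : ℂ) one_pos), self_mem_nhdsWithin]
        with w h4 h5 h6
      obtain ⟨c, hc⟩ := h4.smul (g w).rep_nonzero
      have h7 := (hgG w ⟨h5, h6⟩).2 i
      rw [val_eval] at h7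
      rw [hc, eval_smul hk, h7, mul_zero]
    · rw [hgz z h0]
      exact hgG z ⟨hz, h0⟩

variable {J : Type} [Fintype J] {n : J → ℕ}
  {P : ∀ a, Fin (n a + 1) → MvPolynomial (Fin (m + 1)) ℂ}

theorem cont_bound {s : ℂ → ℝ} (hc : ContinuousAt s 0) : ∀ᶠ w in 𝓝 (0 : ℂ), s w < s 0 + 1 :=
  hc.eventually (gt_mem_nhds (lt_add_one _))

/-- **Maps which are algebraic over maps from the disc extend.** -/
theorem alg_puncture (hGf : ∀ j, IsForm (G j)) {i : Fin (m + 1)} {K : Fin (m + 1) → ℕ}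
    {D : Fin (m + 1) → J → ℕ} {A : Fin (m + 1) → ℕ → MvPolynomial (Σ a, Fin (n a + 1)) ℂ}
    (hA : ∀ j, EqnJ G P i j (K j) (D j) (A j)) {g : ℂ → ℙ ℂ (Fin (m + 1) → ℂ)}
    (hg : HolMapOn (ball 0 1 \ {0}) g) (hgG : ∀ z ∈ ball (0 : ℂ) 1 \ {0}, (g z).rep ∈ Cone G)
    {f : ∀ a, ℂ → ℙ ℂ (Fin (n a + 1) → ℂ)} (hf : ∀ a, HolMapOn (ball 0 1) (f a))
    (hfg : ∀ a, ∀ z ∈ ball (0 : ℂ) 1 \ {0}, ratVal (P a) (g z).rep ≠ 0 →
      ∃ c : ℂ, ratVal (P a) (g z).rep = c • (f a z).rep)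
    (hgood : ∀ z ∈ ball (0 : ℂ) 1 \ {0}, ∀ᶠ w in 𝓝[≠] z, (∀ a, ratVal (P a) (g w).rep ≠ 0) ∧
      eval (blockVec fun a => ratVal (P a) (g w).rep) (∏ j, A j (K j)) ≠ 0) :
    ∃ g' : ℂ → ℙ ℂ (Fin (m + 1) → ℂ), HolMapOn (ball 0 1) g' ∧
      (∀ z ∈ ball (0 : ℂ) 1, (g' z).rep ∈ Cone G) ∧ ∀ z ∈ ball (0 : ℂ) 1 \ {0}, g' z = g z := by
  classical
  have hQm : MultiForm (fun a => ∑ j, D j a) (∏ j, A j (K j)) := multiForm_prod fun j => (hA j).1 _
  choose V f₀ hV h0V hd hfr using fun a => hf a 0 (mem_ball_self one_pos)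
  have han : ∀ a, AnalyticAt ℂ (f₀ a) 0 := fun a => (hd a).analyticAt ((hV a).mem_nhds (h0V a))
  have hVe : ∀ᶠ w in 𝓝 (0 : ℂ), ∀ a, w ∈ V a := eventually_all.2 fun a =>
    (hV a).mem_nhds (h0V a)
  -- the coefficients
  have haA : ∀ j k, AnalyticAt ℂ (fun w => eval (blockVec fun a => f₀ a w) (A j k)) 0 :=
    fun j k => an_evalJ han _
  set b : ℂ → ℂ := fun w => eval (blockVec fun a => f₀ a w) (∏ j, A j (K j)) with hb
  have hban : AnalyticAt ℂ b 0 := an_evalJ han _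
  have hbp : ∀ w, b w = ∏ j, eval (blockVec fun a => f₀ a w) (A j (K j)) := fun w => by
    rw [hb]
    exact map_prod _ _ _
  -- the values at good points
  have hval : ∀ w, (∀ a, w ∈ V a) → w ∈ ball (0 : ℂ) 1 \ {0} → (∀ a, ratVal (P a) (g w).rep ≠ 0) →
      ∃ c : J → ℂ, (∀ a, c a ≠ 0) ∧ (fun a => ratVal (P a) (g w).rep) = fun a => c a • f₀ a w := by
    intro w hw hwD h1
    choose c hc using fun a => hfg a w hwD (h1 a)
    choose c' hc' hcr using fun a => mk_rep ((hfr a w (hw a)).choose) ((hfr a w (hw a)).choose_spec)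
    refine ⟨fun a => c a * c' a, fun a h2 => h1 a ?_, funext fun a => ?_⟩
    · have h2' : c a * c' a = 0 := h2
      rw [hc a, hcr a, smul_smul, h2', zero_smul]
    · rw [hc a, hcr a, smul_smul]
  have hbne : ∀ᶠ w in 𝓝[≠] (0 : ℂ), b w ≠ 0 := by
    rcases hban.eventually_eq_zero_or_eventually_ne_zero with h | h
    · exfalso
      obtain ⟨W, hW1, hW2, hW3⟩ := _root_.eventually_nhds_iff.1
        ((h.and hVe).and (ball_mem_nhds (0 : ℂ) one_pos))
      have h1 : ∀ᶠ z in 𝓝[≠] (0 : ℂ), z ∈ W := nhdsWithin_le_nhds (hW2.mem_nhds hW3)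
      obtain ⟨z, hz, hz0⟩ := (h1.and self_mem_nhdsWithin).exists
      have hzD : z ∈ ball (0 : ℂ) 1 \ {0} := ⟨(hW1 z hz).2, hz0⟩
      have h2 : ∀ᶠ w in 𝓝[≠] z, w ∈ W := nhdsWithin_le_nhds (hW2.mem_nhds hz)
      have h3 : ∀ᶠ w in 𝓝[≠] z, w ∈ ball (0 : ℂ) 1 \ {0} :=
        nhdsWithin_le_nhds (isOpen_punct.mem_nhds hzD)
      obtain ⟨w, ⟨k1, k2⟩, k3, k4⟩ := ((hgood z hzD).and (h2.and h3)).exists
      obtain ⟨c, -, hc⟩ := hval w (hW1 w k3).1.2 k4 k1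
      rw [hc, hQm c fun a => f₀ a w] at k2
      exact k2 (by rw [show eval (blockVec fun a => f₀ a w) (∏ j, A j (K j)) = 0 from
        (hW1 w k3).1.1, mul_zero])
    · exact h
  -- bounds
  have hbd : ∃ M : ℝ, ∀ᶠ w in 𝓝 (0 : ℂ), ∀ j, ∀ k ∈ Finset.range (K j + 1),
      ‖eval (blockVec fun a => f₀ a w) (A j k)‖ ≤ M := by
    have hc : ContinuousAt (fun w => ∑ j, ∑ k ∈ Finset.range (K j + 1),
        ‖eval (blockVec fun a => f₀ a w) (A j k)‖) (0 : ℂ) :=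
      tendsto_finsetSum _ fun j _ => tendsto_finsetSum _ fun k _ =>
        (haA j k).continuousAt.norm
    refine ⟨(fun w => ∑ j, ∑ k ∈ Finset.range (K j + 1),
        ‖eval (blockVec fun a => f₀ a w) (A j k)‖) 0 + 1, (cont_bound hc).mono fun w hw j k hk => ?_⟩
    refine le_trans ?_ hw.le
    refine le_trans ?_ (Finset.single_le_sum (f := fun j => ∑ k ∈ Finset.range (K j + 1),
        ‖eval (blockVec fun a => f₀ a w) (A j k)‖) (fun j _ => Finset.sum_nonneg fun k _ =>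
          norm_nonneg _) (Finset.mem_univ j))
    exact Finset.single_le_sum (f := fun k => ‖eval (blockVec fun a => f₀ a w) (A j k)‖)
      (fun k _ => norm_nonneg _) hk
  obtain ⟨M, hM⟩ := hbd
  have hbd2 : ∃ M' : ℝ, 0 ≤ M' ∧ ∀ᶠ w in 𝓝 (0 : ℂ), ∀ j,
      ‖b w‖ ≤ M' * ‖eval (blockVec fun a => f₀ a w) (A j (K j))‖ := by
    have hc : ContinuousAt (fun w => ∑ j, ‖∏ l ∈ Finset.univ.erase j,
        eval (blockVec fun a => f₀ a w) (A l (K l))‖) (0 : ℂ) :=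
      tendsto_finsetSum _ fun j _ => ContinuousAt.norm (tendsto_finsetProd _ fun l _ =>
        (haA l (K l)).continuousAt)
    have hnn : ∀ w, 0 ≤ ∑ j, ‖∏ l ∈ Finset.univ.erase j,
        eval (blockVec fun a => f₀ a w) (A l (K l))‖ := fun w => Finset.sum_nonneg fun j _ =>
      norm_nonneg _
    refine ⟨(fun w => ∑ j, ‖∏ l ∈ Finset.univ.erase j,
        eval (blockVec fun a => f₀ a w) (A l (K l))‖) 0 + 1, add_nonneg (hnn 0) zero_le_one,
        (cont_bound hc).mono fun w hw j => ?_⟩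
    rw [hbp, ← Finset.prod_erase_mul _ _ (Finset.mem_univ j), norm_mul]
    refine mul_le_mul_of_nonneg_right (le_trans ?_ hw.le) (norm_nonneg _)
    exact Finset.single_le_sum (f := fun j => ‖∏ l ∈ Finset.univ.erase j,
      eval (blockVec fun a => f₀ a w) (A l (K l))‖) (fun j _ => norm_nonneg _) (Finset.mem_univ j)
  obtain ⟨M', hM'0, hM'⟩ := hbd2
  -- a small disc
  obtain ⟨δ, hδ, hball⟩ := Metric.eventually_nhds_iff_ball.1 ((((hVe.and hM).and hM').and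
    (eventually_nhdsWithin_iff.1 hbne)).and (ball_mem_nhds (0 : ℂ) one_pos))
  set C : ℝ := M' * ((∑ j, (K j : ℝ) + 1) * M) with hC
  have hM0 : 0 ≤ M := (norm_nonneg _).trans ((hball 0 (mem_ball_self hδ)).1.1.1.2 i 0 (by simp))
  -- the inequality at good points
  have hineq : ∀ w ∈ ball (0 : ℂ) δ \ {0}, (∀ a, ratVal (P a) (g w).rep ≠ 0) → ∀ j,
      ‖b w‖ * ‖(g w).rep j‖ ≤ C * ‖(g w).rep i‖ := by
    intro w hw h1 j
    obtain ⟨⟨⟨⟨k1, k2⟩, k3⟩, k4⟩, k5⟩ := hball w hw.1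
    have hwD : w ∈ ball (0 : ℂ) 1 \ {0} := ⟨k5, hw.2⟩
    obtain ⟨c, hc0, hc⟩ := hval w k1 hwD h1
    have h3 := (hA j).2.2 _ (hgG w hwD)
    have h4 := eqnJ_smul (K := K j) (hA j).1 i j (fun a => f₀ a w) (g w).rep c 1
    rw [one_smul, ← hc, h3] at h4
    have h5 := (mul_eq_zero.1 h4.symm).resolve_left
      (mul_ne_zero (Finset.prod_ne_zero_iff.2 fun a _ => pow_ne_zero _ (hc0 a))
        (pow_ne_zero _ one_ne_zero))
    have h6 : eval (blockVec fun a => f₀ a w) (A j (K j)) ≠ 0 := by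
      have := k4 hw.2
      rw [hbp] at this
      exact Finset.prod_ne_zero_iff.1 this j (Finset.mem_univ j)
    have h7 := root_bound (fun k hk => k2 j k hk) h6 h5
    calc ‖b w‖ * ‖(g w).rep j‖ ≤
        M' * ‖eval (blockVec fun a => f₀ a w) (A j (K j))‖ * ‖(g w).rep j‖ :=
          mul_le_mul_of_nonneg_right (k3 j) (norm_nonneg _)
      _ = M' * (‖eval (blockVec fun a => f₀ a w) (A j (K j))‖ * ‖(g w).rep j‖) := by ring
      _ ≤ M' * ((K j + 1) * M * ‖(g w).rep i‖) := mul_le_mul_of_nonneg_left h7 hM'0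
      _ ≤ C * ‖(g w).rep i‖ := by
        have h8 : (K j : ℝ) ≤ ∑ j, (K j : ℝ) :=
          Finset.single_le_sum (f := fun j => (K j : ℝ)) (fun j _ => Nat.cast_nonneg _)
            (Finset.mem_univ j)
        rw [hC]
        have h9 : ((K j : ℝ) + 1) * M * ‖(g w).rep i‖ ≤
            (∑ j, (K j : ℝ) + 1) * M * ‖(g w).rep i‖ := by gcongr
        calc M' * ((K j + 1) * M * ‖(g w).rep i‖) ≤
            M' * ((∑ j, (K j : ℝ) + 1) * M * ‖(g w).rep i‖) := mul_le_mul_of_nonneg_left h9 hM'0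
          _ = M' * ((∑ j, (K j : ℝ) + 1) * M) * ‖(g w).rep i‖ := by ring
  have hsub : ball (0 : ℂ) δ \ {0} ⊆ ball (0 : ℂ) 1 \ {0} := fun w hw => ⟨(hball w hw.1).2, hw.2⟩
  -- the inequality everywhere, in local coordinates
  have hloc : ∀ z ∈ ball (0 : ℂ) δ \ {0}, ∃ (W : Set ℂ) (g₀ : ℂ → Fin (m + 1) → ℂ), IsOpen W ∧
      z ∈ W ∧ DifferentiableOn ℂ g₀ W ∧ (∀ w ∈ W, ∃ h : g₀ w ≠ 0, g w = Projectivization.mk ℂ (g₀ w) h) ∧
      ∀ j, ‖b z‖ * ‖g₀ z j‖ ≤ C * ‖g₀ z i‖ := by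
    intro z hz
    obtain ⟨W, g₀, hW, hzW, hdg, hgr⟩ := hg z (hsub hz)
    refine ⟨W, g₀, hW, hzW, hdg, hgr, fun j => ?_⟩
    have hg₀ : ContinuousAt g₀ z := (hdg.analyticAt (hW.mem_nhds hzW)).continuousAt
    have hbc : ContinuousAt b z := by
      have h1 : AnalyticAt ℂ b z := an_evalJ (fun a => (hd a).analyticAt ((hV a).mem_nhds
        ((hball z hz.1).1.1.1.1 a))) _
      exact h1.continuousAt
    have hcj : ∀ j, ContinuousAt (fun w => g₀ w j) z := fun j =>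
      (continuous_apply j).continuousAt.comp hg₀
    have t1 : Tendsto (fun w => ‖b w‖ * ‖g₀ w j‖) (𝓝[≠] z) (𝓝 (‖b z‖ * ‖g₀ z j‖)) :=
      (hbc.norm.mul (hcj j).norm).continuousWithinAt
    have t2 : Tendsto (fun w => C * ‖g₀ w i‖) (𝓝[≠] z) (𝓝 (C * ‖g₀ z i‖)) :=
      (continuousAt_const.mul (hcj i).norm).continuousWithinAt
    refine le_of_tendsto_of_tendsto t1 t2 ?_
    have hopen : IsOpen (ball (0 : ℂ) δ \ {0}) := isOpen_ball.sdiff isClosed_singleton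
    filter_upwards [hgood z (hsub hz), nhdsWithin_le_nhds (hW.mem_nhds hzW),
      nhdsWithin_le_nhds (hopen.mem_nhds hz)] with w k1 k2 k3
    obtain ⟨h1, h2⟩ := hgr w k2
    obtain ⟨c, hc, hr⟩ := mk_rep h1 h2
    have h3 := hineq w k3 k1.1 j
    rw [hr, Pi.smul_apply, Pi.smul_apply, smul_eq_mul, smul_eq_mul, norm_mul, norm_mul] at h3
    have h4 : 0 < ‖c‖ := norm_pos_iff.2 hc
    have h5 : ‖c‖ * (‖b w‖ * ‖g₀ w j‖) ≤ ‖c‖ * (C * ‖g₀ w i‖) := by
      calc ‖c‖ * (‖b w‖ * ‖g₀ w j‖) = ‖b w‖ * (‖c‖ * ‖g₀ w j‖) := by ring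
        _ ≤ C * (‖c‖ * ‖g₀ w i‖) := h3
        _ = ‖c‖ * (C * ‖g₀ w i‖) := by ring
    exact le_of_mul_le_mul_left h5 h4
  have hi0 : ∀ z ∈ ball (0 : ℂ) δ \ {0}, ∀ (g₀ : Fin (m + 1) → ℂ), g₀ ≠ 0 →
      (∀ j, ‖b z‖ * ‖g₀ j‖ ≤ C * ‖g₀ i‖) → g₀ i ≠ 0 := by
    intro z hz g₀ h0 h1 h2
    apply h0
    funext j
    have h3 := h1 j
    rw [h2, norm_zero, mul_zero] at h3
    have h4 : 0 < ‖b z‖ := norm_pos_iff.2 ((hball z hz.1).1.2 hz.2)
    have h5 : ‖g₀ j‖ ≤ 0 := by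
      by_contra hcon
      push Not at hcon
      have := mul_pos h4 hcon
      linarith
    exact norm_le_zero_iff.1 h5
  -- the bounded vector
  set W : ℂ → Fin (m + 1) → ℂ := fun w => b w • fun j => (g w).rep j / (g w).rep i with hWdef
  have hrep : ∀ z ∈ ball (0 : ℂ) δ \ {0}, (g z).rep i ≠ 0 ∧ DifferentiableAt ℂ W z ∧
      ‖W z‖ ≤ C := by
    intro z hz
    obtain ⟨N, g₀, hN, hzN, hdg, hgr, hin⟩ := hloc z hz
    obtain ⟨h1, h2⟩ := hgr z hzN
    have h3 := hi0 z hz (g₀ z) h1 hin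
    have hbz : AnalyticAt ℂ b z := an_evalJ (fun a => (hd a).analyticAt ((hV a).mem_nhds
      ((hball z hz.1).1.1.1.1 a))) _
    have hg₀ : AnalyticAt ℂ g₀ z := hdg.analyticAt (hN.mem_nhds hzN)
    have hcj : ∀ j, AnalyticAt ℂ (fun w => g₀ w j) z := fun j => (analyticAt_pi_iff.1 hg₀) j
    have hev : ∀ᶠ w in 𝓝 z, W w = b w • fun j => g₀ w j / g₀ w i := by
      filter_upwards [hN.mem_nhds hzN] with w hw
      obtain ⟨k1, k2⟩ := hgr w hw
      obtain ⟨c, hc, hr⟩ := mk_rep k1 k2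
      rw [hWdef]
      simp only
      rw [hr]
      congr 1
      funext j
      rw [Pi.smul_apply, Pi.smul_apply, smul_eq_mul, smul_eq_mul, mul_div_mul_left _ _ hc]
    obtain ⟨c, hc, hr⟩ := mk_rep h1 h2
    refine ⟨?_, ?_, ?_⟩
    · rw [hr, Pi.smul_apply, smul_eq_mul]
      exact mul_ne_zero hc h3
    · have h4 : DifferentiableAt ℂ (fun w => b w • fun j => g₀ w j / g₀ w i) z := by
        refine hbz.differentiableAt.smul (differentiableAt_pi.2 fun j => ?_)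
        exact ((hcj j).differentiableAt).div ((hcj i).differentiableAt) h3
      exact h4.congr_of_eventuallyEq hev
    · rw [hev.self_of_nhds]
      have hC0 : 0 ≤ C := by
        rw [hC]
        positivity
      refine (pi_norm_le_iff_of_nonneg hC0).2 fun j => ?_
      rw [Pi.smul_apply, smul_eq_mul, norm_mul, norm_div, ← mul_div_assoc,
        div_le_iff₀ (norm_pos_iff.2 h3)]
      exact hin j
  have hWd : DifferentiableOn ℂ (Function.update W 0 (limUnder (𝓝[≠] 0) W)) (ball 0 δ) := by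
    refine Complex.differentiableOn_update_limUnder_of_bddAbove (ball_mem_nhds 0 hδ)
      (fun z hz => (hrep z hz).2.1.differentiableWithinAt) ⟨C, ?_⟩
    rintro _ ⟨z, hz, rfl⟩
    exact (hrep z hz).2.2
  set W' := Function.update W 0 (limUnder (𝓝[≠] 0) W) with hW'
  have hW'a : AnalyticAt ℂ W' 0 := hWd.analyticAt (ball_mem_nhds 0 hδ)
  have hW'z : ∀ z, z ≠ 0 → W' z = W z := fun z hz => Function.update_of_ne hz _ _
  have hne : ∀ᶠ z in 𝓝[≠] (0 : ℂ), z ∈ ball (0 : ℂ) δ \ {0} := by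
    filter_upwards [nhdsWithin_le_nhds (ball_mem_nhds (0 : ℂ) hδ), self_mem_nhdsWithin] with z h1 h2
    exact ⟨h1, h2⟩
  have hWne : ∀ z ∈ ball (0 : ℂ) δ \ {0}, W z ≠ 0 := by
    intro z hz h1
    have h2 := congrFun h1 i
    rw [hWdef] at h2
    simp only [Pi.smul_apply, smul_eq_mul, Pi.zero_apply] at h2
    rw [div_self (hrep z hz).1, mul_one] at h2
    exact (hball z hz.1).1.2 hz.2 h2
  obtain ⟨k, H, hH, hH0, hk⟩ := (AnalyticAt.exists_eventuallyEq_pow_smul_nonzero_iff hW'a).2 (by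
    intro h
    obtain ⟨z, h1, h2⟩ := (hne.and (nhdsWithin_le_nhds h)).exists
    rw [hW'z z h1.2] at h2
    exact hWne z h1 h2)
  refine punct_ext hGf hg hgG hH hH0 ?_
  filter_upwards [hne, nhdsWithin_le_nhds hk] with z h1 h2
  rw [hW'z z h1.2] at h2
  have h3 : Prop2 (W z) (g z).rep := by
    have : W z = (b z / (g z).rep i) • (g z).rep := by
      rw [hWdef]
      funext j
      simp only [Pi.smul_apply, smul_eq_mul]
      ring
    rw [this]
    exact prop2_smul _ _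
  have h4 : Prop2 (W z) (H z) := by
    rw [h2]
    exact prop2_smul _ _
  exact h3.symm.trans (hWne z h1) h4

end Pool.Agent.H33
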