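import Pool.Agent.H33.VM

/-! The big Picard theorem for varieties which are generically finite over products. -/

set_option autoImplicit false

open Filter Topology Metric Set MvPolynomial LinearAlgebra.Projectivization

namespace Pool.Agent.H33

open Pool.Agent.Y190.OP Pool.Agent.W602.GT Pool.Agent.N155 Pool.Agent.N155.BB

variable {m : ℕ} {ι' : Type} {G : ι' → MvPolynomial (Fin (m + 1)) ℂ}

/-- one factor -/
theorem factor_picard {n d ν : ℕ} {ι κ : Type} [Finite κ] {F : ι → MvPolynomial (Fin (n + 1)) ℂ}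
    {η : κ → (Fin (n + 1) → ℂ) → (Fin (n + 1) → ℂ) → (Fin (n + 1) → ℂ) → ℂ}
    {Φ : (Fin (n + 1) → ℂ) → (Fin (n + 1) → ℂ) → ℝ} (hX : ProjManifold F d)
    (hη : PositiveTwoForms (Cone F) ∅ d η) (hν : ν ≠ 0) (hh : HomForms (Cone F) ν η)
    (hΦ : NonposMetric (Cone F) d Φ) (hnd : Nondegenerate (Cone F) d Φ)
    (hr : HermitianMetric (Cone F) d Φ ∨ UniformlyConvex (Cone F) d Φ)
    {P : Fin (n + 1) → MvPolynomial (Fin (m + 1)) ℂ}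
    (hdim : TwoDimensional G P ∨ ((∃ y ∈ Cone G, ratVal P y ≠ 0) ∧
      ∀ f, HolIn F f → ∀ z w, f z = f w)) :
    ∃ (E : MvPolynomial (Fin (n + 1)) ℂ) (i₀ : Fin (n + 1)), IsForm E ∧
      (∃ y ∈ Cone G, eval (ratVal P y) E ≠ 0) ∧ (∃ y ∈ Cone G, eval y (P i₀) ≠ 0) ∧
      ∀ f : ℂ → ℙ ℂ (Fin (n + 1) → ℂ), HolMapOn (ball 0 1 \ {0}) f →
        (∀ z ∈ ball (0 : ℂ) 1 \ {0}, (f z).rep ∈ Cone F) →
        (∃ z ∈ ball (0 : ℂ) 1 \ {0}, eval (f z).rep E ≠ 0) →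
        ∃ g : ℂ → ℙ ℂ (Fin (n + 1) → ℂ), HolMapOn (ball 0 1) g ∧
          (∀ z ∈ ball (0 : ℂ) 1, (g z).rep ∈ Cone F) ∧
          ∀ z ∈ ball (0 : ℂ) 1 \ {0}, g z = f z := by
  obtain ⟨S, h1, -, h3, -⟩ := picard hX hη hν hh hΦ hnd hr
  rcases hdim with hd | ⟨⟨y, hy, hne⟩, hb⟩
  · obtain ⟨E, hE, hE0, hE2⟩ := exists_form3 hd S fun h hh => ⟨(h1 h hh).1.1, (h1 h hh).2.1⟩
    obtain ⟨i, j, k, hijk⟩ := hd
    obtain ⟨y₁, hy₁, hyi, -⟩ := hijk 1 one_ne_zero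
    refine ⟨E, i, hE, hE0, ⟨y₁, hy₁, hyi⟩, fun f hf hfX ⟨z, hz, hzE⟩ => h3 f hf hfX
      ⟨z, hz, fun h hh' w hw => hzE ?_⟩⟩
    rw [hw]
    exact hE2 h hh' w
  · obtain ⟨k, hk⟩ := Function.ne_iff.1 hne
    refine ⟨1, k, ⟨0, isHomogeneous_one _ _⟩, ⟨y, hy, by simp⟩, ⟨y, hy, hk⟩,
      fun f hf hfX ⟨z, hz, _⟩ => h3 f hf hfX ⟨z, hz, fun h hh' w _ => ?_⟩⟩
    obtain ⟨a, b, hab⟩ := (h1 h hh').2.2.2
    exact hab (hb h (h1 h hh').1 a b)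

variable {J : Type} [Fintype J] {n : J → ℕ} {ι : J → Type}
  {F : ∀ a, ι a → MvPolynomial (Fin (n a + 1)) ℂ}
  {P : ∀ a, Fin (n a + 1) → MvPolynomial (Fin (m + 1)) ℂ}
  {d ν : J → ℕ} {κ : J → Type}
  {η : ∀ a, κ a → (Fin (n a + 1) → ℂ) → (Fin (n a + 1) → ℂ) → (Fin (n a + 1) → ℂ) → ℂ}
  {Φ : ∀ a, (Fin (n a + 1) → ℂ) → (Fin (n a + 1) → ℂ) → ℝ}

/-- **The big Picard theorem for varieties which are generically finite over products.** -/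
theorem joint_picard [∀ a, Finite (κ a)] (hX : ∀ a, ProjManifold (F a) (d a))
    (hη : ∀ a, PositiveTwoForms (Cone (F a)) ∅ (d a) (η a)) (hν : ∀ a, ν a ≠ 0)
    (hh : ∀ a, HomForms (Cone (F a)) (ν a) (η a)) (hΦ : ∀ a, NonposMetric (Cone (F a)) (d a) (Φ a))
    (hnd : ∀ a, Nondegenerate (Cone (F a)) (d a) (Φ a))
    (hr : ∀ a, HermitianMetric (Cone (F a)) (d a) (Φ a) ∨
      UniformlyConvex (Cone (F a)) (d a) (Φ a))
    (hGf : ∀ j, IsForm (G j)) (hP : ∀ a, RationalMap G (F a) (P a)) (hirr : IrreducibleSet G)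
    (hdim : ∀ a, TwoDimensional G (P a) ∨ ((∃ y ∈ Cone G, ratVal (P a) y ≠ 0) ∧
      ∀ f, HolIn (F a) f → ∀ z w, f z = f w))
    (hgf : JointlyFinite G P) :
    ∃ T : MvPolynomial (Fin (m + 1)) ℂ, IsForm T ∧ (∃ y ∈ Cone G, eval y T ≠ 0) ∧
      ∀ g : ℂ → ℙ ℂ (Fin (m + 1) → ℂ), HolMapOn (ball 0 1 \ {0}) g →
        (∀ z ∈ ball (0 : ℂ) 1 \ {0}, (g z).rep ∈ Cone G) →
        (∃ z ∈ ball (0 : ℂ) 1 \ {0}, eval (g z).rep T ≠ 0) →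
        ∃ g' : ℂ → ℙ ℂ (Fin (m + 1) → ℂ), HolMapOn (ball 0 1) g' ∧
          (∀ z ∈ ball (0 : ℂ) 1, (g' z).rep ∈ Cone G) ∧
          ∀ z ∈ ball (0 : ℂ) 1 \ {0}, g' z = g z := by
  classical
  choose e he using fun a => (hP a).form
  choose E i₀ hE hE0 hi0 hpic using fun a =>
    factor_picard (G := G) (P := P a) (hX a) (hη a) (hν a) (hh a) (hΦ a) (hnd a) (hr a) (hdim a)
  obtain ⟨i, hi, hgf'⟩ := hgf
  choose K D₀ A hA using hgf'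
  have hA' : ∀ j, EqnJ G P i j (K j) (D₀ j) (A j) := hA
  obtain ⟨b, hb⟩ : ∃ b : J → ℕ, ∀ a, (E a).IsHomogeneous (b a) := by
    choose b hb using hE
    exact ⟨b, hb⟩
  obtain ⟨T, ⟨t, ht⟩, hT0, hT⟩ := exists_T hirr he hi hA' hE hE0 hi0
  refine ⟨T, ⟨t, ht⟩, hT0, fun g hg hgG ⟨z₁, hz₁, hTz⟩ => ?_⟩
  obtain ⟨-, k2, -, k4⟩ := hT _ hTz
  have hex : ∀ a, ∃ f : ℂ → ℙ ℂ (Fin (n a + 1) → ℂ), HolMapOn (ball 0 1) f ∧
      ∀ z ∈ ball (0 : ℂ) 1 \ {0}, ratVal (P a) (g z).rep ≠ 0 →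
        ∃ c : ℂ, ratVal (P a) (g z).rep = c • (f z).rep := by
    intro a
    obtain ⟨f, hf, hfX, hfg⟩ := comp_extOn isOpen_punct isPreconnected_punct (he a) hg hz₁ (k2 a)
      (F := F a) (fun z hz hne => (hP a).maps _ (hgG z hz) hne) (hX a).form
    obtain ⟨c, hc⟩ := hfg z₁ hz₁ (k2 a)
    have hc' : ratVal (P a) (g z₁).rep = c • (f z₁).rep := hc
    have hE1 : eval (f z₁).rep (E a) ≠ 0 := by
      intro h0
      have := k4 a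
      rw [hc', eval_smul (hb a), h0, mul_zero] at this
      exact this rfl
    obtain ⟨f', hf', -, hff⟩ := hpic a f hf hfX ⟨z₁, hz₁, hE1⟩
    refine ⟨f', hf', fun z hz hne => ?_⟩
    obtain ⟨c, hc⟩ := hfg z hz hne
    exact ⟨c, by rw [hff z hz]; exact hc⟩
  choose f hf hfg using hex
  have hTe : ∀ z ∈ ball (0 : ℂ) 1 \ {0}, ∀ᶠ w in 𝓝[≠] z, eval (g w).rep T ≠ 0 := by
    intro z hz
    have h1 := comp_neOn (n := 0) isPreconnected_punct (P := fun _ => T) (fun _ => ht) hg hz₁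
      (fun h0 => hTz (congrFun h0 0)) z hz
    filter_upwards [h1] with w hw h0
    exact hw (funext fun _ => h0)
  refine alg_puncture hGf hA' hg hgG hf hfg fun z hz => ?_
  filter_upwards [hTe z hz] with w hw
  obtain ⟨-, m2, m3, -⟩ := hT _ hw
  exact ⟨m2, m3⟩

end Pool.Agent.H33
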