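import Pool.Agent.H33.VN
import Pool.Agent.H33.TJ

/-! Hyperbolicity of varieties which are generically finite over products, at general points. -/

set_option autoImplicit false

open Filter Topology Metric Set MvPolynomial LinearAlgebra.Projectivization

namespace Pool.Agent.H33

open Pool.Agent.Y190.OP Pool.Agent.W602.GT Pool.Agent.N155 Pool.Agent.N155.BB
open Pool.Agent.N154.GG (kobayashi projDist IsChainLength poincareDist)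
open Pool.Agent.Helper206 (cost)

variable {m : ℕ} {ι' : Type} {G : ι' → MvPolynomial (Fin (m + 1)) ℂ}

/-- one factor -/
theorem factor_kob {n d ν : ℕ} {ι κ : Type} [Finite κ] {F : ι → MvPolynomial (Fin (n + 1)) ℂ}
    {η : κ → (Fin (n + 1) → ℂ) → (Fin (n + 1) → ℂ) → (Fin (n + 1) → ℂ) → ℂ}
    {Φ : (Fin (n + 1) → ℂ) → (Fin (n + 1) → ℂ) → ℝ} (hX : ProjManifold F d)
    (hη : PositiveTwoForms (Cone F) ∅ d η) (hν : ν ≠ 0) (hh : HomForms (Cone F) ν η)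
    (hΦ : NonposMetric (Cone F) d Φ) (hnd : Nondegenerate (Cone F) d Φ)
    (hr : HermitianMetric (Cone F) d Φ ∨ UniformlyConvex (Cone F) d Φ)
    {P : Fin (n + 1) → MvPolynomial (Fin (m + 1)) ℂ}
    (hdim : TwoDimensional G P ∨ ((∃ y ∈ Cone G, ratVal P y ≠ 0) ∧
      ∀ f, HolIn F f → ∀ z w, f z = f w)) :
    ∃ (E : MvPolynomial (Fin (n + 1)) ℂ) (i₀ : Fin (n + 1)), IsForm E ∧
      (∃ y ∈ Cone G, eval (ratVal P y) E ≠ 0) ∧ (∃ y ∈ Cone G, eval y (P i₀) ≠ 0) ∧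
      ∀ x : Fin (n + 1) → ℂ, x ≠ 0 → eval x E ≠ 0 → ∃ ρ A : ℝ, 0 < ρ ∧ 0 ≤ A ∧
        ∀ Q : ℂ → Mat (n + 1), HolP (ball 0 1) Q → (∀ w ∈ ball (0 : ℂ) 1, Q w ∈ TF F) →
        ∀ s ∈ ball (0 : ℂ) 1, ∀ t ∈ ball (0 : ℂ) 1,
          dist (min ‖Q t - Phi x‖ ρ) (min ‖Q s - Phi x‖ ρ) ≤ A * cost s t := by
  have := Fintype.ofFinite κ
  have hcx : UniformlyConvex (Cone F) d Φ := hr.elim (fun h => h.uniform hnd) id
  have h : Hyp F d Φ η ν := ⟨hX, hη, hΦ, hnd, uniq_of_convex hX hΦ hcx, hν, hh⟩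
  obtain ⟨S, h1, h2, -, h4⟩ := exists_curves h
  obtain ⟨C, hC, hest⟩ := inf_est h one_pos
  obtain ⟨C2, hC2, hdisc⟩ := Pool.Agent.N154.TT.disc_trunc_gen (T := TF F)
    (Ξ := {M | ∃ H, Ec F Φ H ∧ ∃ t, H t = M}) (ε := 1) one_pos hC (by
      intro P hP hPT R hR0 hR1 hR
      refine (hest P ⟨isOpen_ball, hP, hPT⟩ R hR0 hR1 fun H hH t => hR _ ⟨H, hH, t, rfl⟩).2)
  have main : ∀ x : Fin (n + 1) → ℂ, x ≠ 0 → (∀ h ∈ S, ∀ s, Phi (h s).rep ≠ Phi x) →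
      ∃ ρ A : ℝ, 0 < ρ ∧ 0 ≤ A ∧
        ∀ Q : ℂ → Mat (n + 1), HolP (ball 0 1) Q → (∀ w ∈ ball (0 : ℂ) 1, Q w ∈ TF F) →
        ∀ s ∈ ball (0 : ℂ) 1, ∀ t ∈ ball (0 : ℂ) 1,
          dist (min ‖Q t - Phi x‖ ρ) (min ‖Q s - Phi x‖ ρ) ≤ A * cost s t := by
    intro x hx hS
    obtain ⟨R, hR, hR1, hRd⟩ := dist_curves (F := F) (S := S) (M0 := Phi x)
      (fun h hh => ⟨(h1 h hh).1, (h1 h hh).2.1⟩) hS
    refine ⟨R / 2, C2 / R ^ (1 : ℝ), by positivity, by positivity, fun Q hQ hQT s hs t ht => ?_⟩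
    refine hdisc R hR hR1 (Phi x) ?_ Q hQ hQT s hs t ht
    rintro M ⟨H', hH', t, rfl⟩
    obtain ⟨k, hk, s, hs⟩ := h2 H' hH' t
    rw [hs]
    exact hRd k hk s
  rcases hdim with hd | ⟨⟨y, hy, hne⟩, hb⟩
  · obtain ⟨E, hE, hE0, hE2⟩ := exists_form3 hd S fun h hh => ⟨(h1 h hh).1.1, (h1 h hh).2.1⟩
    obtain ⟨i, j, k, hijk⟩ := hd
    obtain ⟨y₁, hy₁, hyi, -⟩ := hijk 1 one_ne_zero
    obtain ⟨b, hb⟩ := hE
    refine ⟨E, i, ⟨b, hb⟩, hE0, ⟨y₁, hy₁, hyi⟩, fun x hx hxE => main x hx fun h hh s hs => hxE ?_⟩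
    obtain ⟨c, hc, h5⟩ := Phi_inj (Projectivization.rep_nonzero _) hx hs
    rw [h5, eval_smul hb, hE2 h hh s, mul_zero]
  · obtain ⟨k, hk⟩ := Function.ne_iff.1 hne
    obtain ⟨c1, C1, hc1, hC1, hcC1⟩ := len_le_ge hX hΦ hnd
    refine ⟨1, k, ⟨0, isHomogeneous_one _ _⟩, ⟨y, hy, by simp⟩, ⟨y, hy, hk⟩,
      fun x hx _ => main x hx fun h hh' => ?_⟩
    exfalso
    have hin := (h1 h hh').1
    have e1 := (hasSpeed_iff hX hΦ.twist hin).1 (h1 h hh').2.2 0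
    have e2 : (fun z => Phi (h z).rep) = fun _ => Phi (h 0).rep :=
      funext fun z => by rw [hb h hin z 0]
    have e3 := (hcC1 _ (holP_of_map hin.1) (fun z => mem_TF (hin.2 z)) 0).2
    rw [e1, e2] at e3
    simp at e3
    linarith

end Pool.Agent.H33
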