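import Pool.Agent.H33.VO

/-! Hyperbolicity of varieties which are generically finite over products, at general points. -/

set_option autoImplicit false

open Filter Topology Metric Set MvPolynomial LinearAlgebra.Projectivization

namespace Pool.Agent.H33

open Pool.Agent.Y190.OP Pool.Agent.W602.GT Pool.Agent.N155 Pool.Agent.N155.BB
open Pool.Agent.N154.GG (kobayashi projDist IsChainLength poincareDist)
open Pool.Agent.Helper206 (cost)

variable {m : ℕ} {ι' : Type} {G : ι' → MvPolynomial (Fin (m + 1)) ℂ}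
  {J : Type} [Fintype J] {n : J → ℕ} {ι : J → Type}
  {F : ∀ a, ι a → MvPolynomial (Fin (n a + 1)) ℂ}
  {P : ∀ a, Fin (n a + 1) → MvPolynomial (Fin (m + 1)) ℂ}

/-- the distance of the values -/
noncomputable def uvalJ (P : ∀ a, Fin (n a + 1) → MvPolynomial (Fin (m + 1)) ℂ)
    (M0 : ∀ a, Mat (n a + 1)) (M : Mat (m + 1)) : ℝ := ∑ a, uval (P a) (M0 a) M

theorem min_sum {x : J → ℝ} (hx : ∀ a, 0 ≤ x a) {ρ : J → ℝ} {r : ℝ} (hρ : ∀ a, r ≤ ρ a)
    (hr : 0 ≤ r) : min (∑ a, x a) r = min (∑ a, min (x a) (ρ a)) r := by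
  by_cases h : ∃ a, ρ a < x a
  · obtain ⟨a, ha⟩ := h
    have h1 : r ≤ ∑ a, x a := by
      refine le_trans ?_ (Finset.single_le_sum (fun a _ => hx a) (Finset.mem_univ a))
      exact (hρ a).trans ha.le
    have h2 : r ≤ ∑ a, min (x a) (ρ a) := by
      refine le_trans ?_ (Finset.single_le_sum (f := fun a => min (x a) (ρ a))
        (fun a _ => le_min (hx a) (hr.trans (hρ a))) (Finset.mem_univ a))
      rw [min_eq_right ha.le]
      exact hρ a
    rw [min_eq_right h1, min_eq_right h2]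
  · push Not at h
    congr 1
    exact Finset.sum_congr rfl fun a _ => (min_eq_left (h a)).symm

/-- **Hyperbolicity at general points.** -/
theorem pt_hypJ (hG : ∀ i, IsForm (G i)) (hF : ∀ a i, IsForm (F a i))
    (hP : ∀ a, RationalMap G (F a) (P a)) {T : MvPolynomial (Fin (m + 1)) ℂ} (hT : IsForm T)
    (hdef : ∀ y, eval y T ≠ 0 → ∀ a, ratVal (P a) y ≠ 0) {v : ℙ ℂ (Fin (m + 1) → ℂ)}
    (hvT : eval v.rep T ≠ 0)
    (hfib : {q : ℙ ℂ (Fin (m + 1) → ℂ) | q.rep ∈ Cone G ∧ eval q.rep T ≠ 0 ∧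
      ∀ a, Prop2 (ratVal (P a) q.rep) (ratVal (P a) v.rep)}.Finite)
    {ρ A : J → ℝ} (hρ : ∀ a, 0 < ρ a) (hA : ∀ a, 0 ≤ A a)
    (hdisc : ∀ a, ∀ Q : ℂ → Mat (n a + 1), HolP (ball 0 1) Q →
      (∀ w ∈ ball (0 : ℂ) 1, Q w ∈ TF (F a)) →
      ∀ s ∈ ball (0 : ℂ) 1, ∀ t ∈ ball (0 : ℂ) 1,
        dist (min ‖Q t - Phi (ratVal (P a) v.rep)‖ (ρ a))
          (min ‖Q s - Phi (ratVal (P a) v.rep)‖ (ρ a)) ≤ A a * cost s t) {ε : ℝ} (hε : 0 < ε) :
    ∃ c : ℝ, 0 < c ∧ ∀ q : ℙ ℂ (Fin (m + 1) → ℂ), q.rep ∈ Cone G → ε ≤ projDist v q →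
      ENNReal.ofReal c ≤ kobayashi (Cone G) v q := by
  classical
  choose e he using fun a => (hP a).form
  have hv : ∀ a, ratVal (P a) v.rep ≠ 0 := hdef _ hvT
  set N0 := Phi v.rep with hN0
  set M0 : ∀ a, Mat (n a + 1) := fun a => Phi (ratVal (P a) v.rep) with hM0
  obtain ⟨δ0, hδ0, hn0⟩ := form_nhds hT hvT
  -- the other points of the fibre
  set Fb : Set (ℙ ℂ (Fin (m + 1) → ℂ)) := {q | q.rep ∈ Cone G ∧ eval q.rep T ≠ 0 ∧
      ∀ a, Prop2 (ratVal (P a) q.rep) (ratVal (P a) v.rep)} with hFb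
  set B : Set (Mat (m + 1)) := (fun q : ℙ ℂ (Fin (m + 1) → ℂ) => Phi q.rep) '' (Fb \ {v}) with hB
  have hBc : IsClosed B := ((hfib.subset sdiff_subset).image _).isClosed
  have hNB : N0 ∈ Bᶜ := by
    rintro ⟨q, ⟨-, hqv⟩, hq⟩
    exact hqv (proj_ext hq)
  obtain ⟨δ1, hδ1, hn1⟩ := Metric.isOpen_iff.1 hBc.isOpen_compl N0 hNB
  set δ : ℝ := min (min δ0 δ1) ε / 2 with hδ
  have hmin : 0 < min (min δ0 δ1) ε := lt_min (lt_min hδ0 hδ1) hε
  have hδp : 0 < δ := by positivity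
  have hδ0' : δ < δ0 := by
    have := (min_le_left (min δ0 δ1) ε).trans (min_le_left δ0 δ1)
    linarith
  have hδ1' : δ < δ1 := by
    have := (min_le_left (min δ0 δ1) ε).trans (min_le_right δ0 δ1)
    linarith
  have hδε : δ < ε := by
    have := min_le_right (min δ0 δ1) ε
    linarith
  have huphi : ∀ q : ℙ ℂ (Fin (m + 1) → ℂ), uvalJ P M0 (Phi q.rep) =
      ∑ a, ‖Phi (ratVal (P a) q.rep) - M0 a‖ := fun q =>
    Finset.sum_congr rfl fun a _ => uval_phi _ _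
  have hnear : ∀ q : ℙ ℂ (Fin (m + 1) → ℂ), q.rep ∈ Cone G → ‖Phi q.rep - N0‖ ≤ δ →
      (∀ a, ratVal (P a) q.rep ≠ 0) ∧ (q ≠ v → 0 < ∑ a, ‖Phi (ratVal (P a) q.rep) - M0 a‖) := by
    intro q hq hqd
    have h1 := hn0 q (hqd.trans_lt hδ0')
    have h2 := hdef _ h1
    refine ⟨h2, fun hne => ?_⟩
    have hnn : 0 ≤ ∑ a, ‖Phi (ratVal (P a) q.rep) - M0 a‖ :=
      Finset.sum_nonneg fun a _ => norm_nonneg _
    refine lt_of_le_of_ne hnn fun h3 => ?_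
    have h4 := (Finset.sum_eq_zero_iff_of_nonneg fun a _ => norm_nonneg _).1 h3.symm
    have h5 : Phi q.rep ∈ B := by
      refine ⟨q, ⟨⟨hq, h1, fun a => ?_⟩, hne⟩, rfl⟩
      have h6 := norm_eq_zero.1 (h4 a (Finset.mem_univ a))
      rw [sub_eq_zero] at h6
      obtain ⟨c, hc, h7⟩ := Phi_inj (hv a) (h2 a) h6.symm
      rw [h7]
      exact prop2_smul _ _
    exact hn1 (by rw [mem_ball_iff_norm]; exact hqd.trans_lt hδ1') h5
  -- the sphere
  obtain ⟨ρ', hρ', hρρ⟩ : ∃ ρ' : ℝ, 0 < ρ' ∧ ∀ a, ρ' ≤ ρ a := by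
    rcases isEmpty_or_nonempty J with hJ | hJ
    · exact ⟨1, one_pos, fun a => (hJ.false a).elim⟩
    · obtain ⟨a₀, ha₀⟩ := Finite.exists_min ρ
      exact ⟨ρ a₀, hρ a₀, ha₀⟩
  obtain ⟨r, hr, hrρ, hrK⟩ : ∃ r : ℝ, 0 < r ∧ r ≤ ρ' ∧ ∀ q : ℙ ℂ (Fin (m + 1) → ℂ),
      q.rep ∈ Cone G → ‖Phi q.rep - N0‖ = δ → r ≤ uvalJ P M0 (Phi q.rep) := by
    set K : Set (Mat (m + 1)) := TF G ∩ {M | ‖M - N0‖ = δ} with hK
    have hKc : IsCompact K := (isCompact_TF hG).inter_right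
      (isClosed_eq (by fun_prop) continuous_const)
    have hKr : ∀ M ∈ K, ∃ q : ℙ ℂ (Fin (m + 1) → ℂ), q.rep ∈ Cone G ∧ M = Phi q.rep := by
      rintro M ⟨hM, -⟩
      exact ⟨toProj M, rep_toProj hG hM, (Phi_rep_toProj (TF_PM hM)).symm⟩
    rcases K.eq_empty_or_nonempty with h0 | h0
    · refine ⟨ρ', hρ', le_rfl, fun q hq hqd => ?_⟩
      have : Phi q.rep ∈ K := ⟨mem_TF hq, hqd⟩
      rw [h0] at this
      exact absurd this (notMem_empty _)
    · have hcont : ContinuousOn (uvalJ P M0) K := by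
        refine continuousOn_finsetSum _ fun a _ => ?_
        intro M hM
        obtain ⟨q, hq, rfl⟩ := hKr M hM
        exact (uval_cont (he a) (M0 a) ((hnear q hq hM.2.le).1 a)).mono fun M' hM' => TF_PM hM'.1
      obtain ⟨M1, hM1, hmin1⟩ := hKc.exists_isMinOn h0 hcont
      obtain ⟨q1, hq1, rfl⟩ := hKr M1 hM1
      have hpos : 0 < uvalJ P M0 (Phi q1.rep) := by
        rw [huphi]
        refine (hnear q1 hq1 hM1.2.le).2 ?_
        rintro rfl
        have h1 := hM1.2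
        simp only [mem_ofPred_eq, hN0, sub_self, norm_zero] at h1
        linarith
      refine ⟨min ρ' (uvalJ P M0 (Phi q1.rep)), lt_min hρ' hpos, min_le_left _ _,
        fun q hq hqd => ?_⟩
      exact (min_le_right _ _).trans (hmin1 ⟨mem_TF hq, hqd⟩)
  set A' : ℝ := ∑ a, A a with hA'
  have hA'0 : 0 ≤ A' := Finset.sum_nonneg fun a _ => hA a
  -- discs
  have hlip : ∀ g : ℂ → ℙ ℂ (Fin (m + 1) → ℂ), Pool.Agent.N154.GG.HolMapOn (ball 0 1) g →
      (∀ z ∈ ball (0 : ℂ) 1, (g z).rep ∈ Cone G) → ∀ s ∈ ball (0 : ℂ) 1, ∀ t ∈ ball (0 : ℂ) 1,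
      dist (trunc (uvalJ P M0) N0 δ r (Phi (g t).rep)) (trunc (uvalJ P M0) N0 δ r (Phi (g s).rep)) ≤
        A' * cost s t := by
    intro g hg hgG s hs t ht
    have hQ := Pool.Agent.N154.GG.holP_of_on hg
    refine trunc_lip (Q := fun z => Phi (g z).rep) hA'0
      (fun z hz => (hQ.continuousAt hz).continuousWithinAt)
      (fun z hz hzd => hrK _ (hgG z hz) hzd) (fun z₁ hz₁ hz₁d s hs hsd t ht htd => ?_) hs ht
    choose f hf hfF hfv using fun a =>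
      disc_comp (hF a) (hP a) hg hgG hz₁ ((hnear _ (hgG z₁ hz₁) hz₁d.le).1 a)
    have e1 := fun a => hfv a s hs ((hnear _ (hgG s hs) hsd).1 a)
    have e2 := fun a => hfv a t ht ((hnear _ (hgG t ht) htd).1 a)
    simp only [huphi]
    simp only [← e1, ← e2]
    rw [min_sum (fun a => norm_nonneg _) (fun a => hrρ.trans (hρρ a)) hr.le,
      min_sum (x := fun a => ‖f a s - M0 a‖) (fun a => norm_nonneg _)
        (fun a => hrρ.trans (hρρ a)) hr.le]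
    have h3 := (LipschitzWith.id.min_const r).dist_le_mul
      (∑ a, min ‖f a t - M0 a‖ (ρ a)) (∑ a, min ‖f a s - M0 a‖ (ρ a))
    rw [NNReal.coe_one, one_mul] at h3
    refine h3.trans ?_
    refine (dist_sum_sum_le _ _ _).trans ?_
    rw [hA', Finset.sum_mul]
    exact Finset.sum_le_sum fun a _ => hdisc a (f a) (hf a) (hfF a) s hs t ht
  refine ⟨r / (A' + 1), by positivity, fun q hq hqε => ?_⟩
  unfold kobayashi
  refine le_iInf₂ fun c hc => ENNReal.ofReal_le_ofReal ?_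
  obtain ⟨l, p, f, s, t, h0, hl, hi, rfl⟩ := hc
  have h1 := Pool.Agent.Helper206.chain_bound l
    (fun j => trunc (uvalJ P M0) N0 δ r (Phi (p j).rep))
    (fun i => A' * poincareDist (s i) (t i))
    (by
      intro i
      obtain ⟨-, -, hs, ht, -, -⟩ := hi i
      exact mul_nonneg hA'0 (cost_nonneg hs ht))
    (by
      intro i
      obtain ⟨hf, hfS, hs, ht, es, et⟩ := hi i
      have := hlip (f i) hf hfS _ hs _ ht
      simp only [es, et, Pool.Agent.N154.GG.cost_eq] at this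
      exact this) (Fin.last l)
  simp only [h0, hl] at h1
  rw [← Finset.mul_sum] at h1
  have h2 : trunc (uvalJ P M0) N0 δ r (Phi q.rep) = r := by
    unfold trunc
    rw [if_neg]
    have h3 : projDist v q = ‖Phi q.rep - N0‖ := norm_sub_rev _ _
    rw [← h3]
    linarith
  have h3 : trunc (uvalJ P M0) N0 δ r (Phi v.rep) = 0 := by
    unfold trunc
    have h4 : ∑ a, ‖Phi (ratVal (P a) v.rep) - M0 a‖ = 0 :=
      Finset.sum_eq_zero fun a _ => by rw [hM0, sub_self, norm_zero]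
    rw [if_pos (by rw [← hN0, sub_self, norm_zero]; exact hδp), huphi, h4, min_eq_left hr.le]
  rw [h2, h3, Real.dist_eq, sub_zero, abs_of_pos hr] at h1
  set c := ∑ i, poincareDist (s i) (t i) with hc
  have hc0 : 0 ≤ c := Finset.sum_nonneg fun i _ => by
    obtain ⟨-, -, hs, ht, -, -⟩ := hi i
    exact cost_nonneg hs ht
  rw [div_le_iff₀ (by linarith)]
  nlinarith

/-- maps of positive speed are not constant -/
theorem nonconst_of_speed {k d : ℕ} {ι : Type} {F : ι → MvPolynomial (Fin (k + 1)) ℂ}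
    {Φ : (Fin (k + 1) → ℂ) → (Fin (k + 1) → ℂ) → ℝ} (hX : ProjManifold F d)
    (hΦ : NonposMetric (Cone F) d Φ) (hnd : Nondegenerate (Cone F) d Φ)
    {h : ℂ → ℙ ℂ (Fin (k + 1) → ℂ)} (hin : HolIn F h) (hs : HasSpeed Φ 1 h) :
    ∃ z w, h z ≠ h w := by
  by_contra hcon
  push Not at hcon
  obtain ⟨c1, C1, hc1, hC1, hcC1⟩ := len_le_ge hX hΦ hnd
  have e1 := (hasSpeed_iff hX hΦ.twist hin).1 hs 0
  have e2 : (fun z => Phi (h z).rep) = fun _ => Phi (h 0).rep :=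
    funext fun z => by rw [hcon z 0]
  have e3 := (hcC1 _ (holP_of_map hin.1) (fun z => mem_TF (hin.2 z)) 0).2
  rw [e1, e2] at e3
  simp at e3
  linarith

variable {d ν : J → ℕ} {κ : J → Type}
  {η : ∀ a, κ a → (Fin (n a + 1) → ℂ) → (Fin (n a + 1) → ℂ) → (Fin (n a + 1) → ℂ) → ℂ}
  {Φ : ∀ a, (Fin (n a + 1) → ℂ) → (Fin (n a + 1) → ℂ) → ℝ}

/-- **Kobayashi hyperbolicity modulo a proper subset.** -/
theorem joint_kob [∀ a, Finite (κ a)] (hX : ∀ a, ProjManifold (F a) (d a))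
    (hη : ∀ a, PositiveTwoForms (Cone (F a)) ∅ (d a) (η a)) (hν : ∀ a, ν a ≠ 0)
    (hh : ∀ a, HomForms (Cone (F a)) (ν a) (η a)) (hΦ : ∀ a, NonposMetric (Cone (F a)) (d a) (Φ a))
    (hnd : ∀ a, Nondegenerate (Cone (F a)) (d a) (Φ a))
    (hr : ∀ a, HermitianMetric (Cone (F a)) (d a) (Φ a) ∨
      UniformlyConvex (Cone (F a)) (d a) (Φ a))
    (hGf : ∀ j, IsForm (G j)) (hP : ∀ a, RationalMap G (F a) (P a)) (hirr : IrreducibleSet G)
    (hdim : ∀ a, TwoDimensional G (P a) ∨ ((∃ y ∈ Cone G, ratVal (P a) y ≠ 0) ∧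
      ∀ f, HolIn (F a) f → ∀ z w, f z = f w))
    (hgf : JointlyFinite G P) :
    ∃ T : MvPolynomial (Fin (m + 1)) ℂ, IsForm T ∧ (∃ y ∈ Cone G, eval y T ≠ 0) ∧
      ∀ v : ℙ ℂ (Fin (m + 1) → ℂ), eval v.rep T ≠ 0 → ∀ ε : ℝ, 0 < ε → ∃ c : ℝ, 0 < c ∧
        ∀ q : ℙ ℂ (Fin (m + 1) → ℂ), q.rep ∈ Cone G → ε ≤ projDist v q →
          ENNReal.ofReal c ≤ kobayashi (Cone G) v q := by
  classical
  choose e he using fun a => (hP a).form
  choose E i₀ hE hE0 hi0 hfac using fun a =>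
    factor_kob (G := G) (P := P a) (hX a) (hη a) (hν a) (hh a) (hΦ a) (hnd a) (hr a) (hdim a)
  obtain ⟨i, hi, hgf'⟩ := hgf
  choose K D₀ A hA using hgf'
  have hA' : ∀ j, EqnJ G P i j (K j) (D₀ j) (A j) := hA
  obtain ⟨T, hTf, hT0, hT⟩ := exists_T hirr he hi hA' hE hE0 hi0
  refine ⟨T, hTf, hT0, fun v hvT ε hε => ?_⟩
  obtain ⟨-, k2, -, k4⟩ := hT _ hvT
  choose ρ A₁ hρ hA₁ hdisc using fun a => hfac a _ (k2 a) (k4 a)
  refine pt_hypJ hGf (fun a => (hX a).form) hP hTf (fun y hy => (hT y hy).2.1) hvT ?_ hρ hA₁ hdisc hε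
  refine (joint_fibre hA' (x := fun a => ratVal (P a) v.rep) k2).subset ?_
  rintro q ⟨h1, h2, h3⟩
  obtain ⟨m1, m2, m3, -⟩ := hT _ h2
  exact ⟨h1, m1, m2, m3, h3⟩

end Pool.Agent.H33
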